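import Pool.Agent.Q110.RC.Lem3

/-! # Generated part of the refutation used for `S(4)` -/

set_option linter.all false

namespace Q110.RC

variable {α : Nat → Bool}

theorem l4275 (h : Good α) (x239t : α 239 = true) (x200t : α 200 = true) (x94t : α 94 = true) (x1t : α 1 = true) (x91f : α 91 = false) : False :=
  have x58f : α 58 = false := ff fun y => l4173 h y
  have x249f : α 249 = false := ff fun y => l4102 h y
  have x446f : α 446 = false := ff fun y => c2131 h y x239t x94t
  have x353f : α 353 = false := ff fun y => c2914 h y x239t x200t
  have x405t : α 405 = true := tt fun y => c1463 h x446f y x91f x58f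
  have x197t : α 197 = true := tt fun y => c2889 h x353f x249f y
  have x545t : α 545 = true := tt fun y => c3104 h y x353f x249f
  c114 h x545t x405t x197t x1t

theorem l4276 (h : Good α) (x197t : α 197 = true) (x200t : α 200 = true) (x57f : α 57 = false) (x233t : α 233 = true) (x61f : α 61 = false) (x1t : α 1 = true) (x237t : α 237 = true) : False :=
  have x249f : α 249 = false := ff fun y => l4102 h y
  have x543f : α 543 = false := ff fun y => l3582 h y x1t x61f
  have x351f : α 351 = false := ff fun y => c2888 h x197t x237t y
  have x353f : α 353 = false := ff fun y => c110 h y x200t x197t x1t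
  have x449t : α 449 = true := tt fun y => c3102 h y x249f x543f x351f
  have x201t : α 201 = true := tt fun y => c1443 h x249f x57f x351f y
  have x547t : α 547 = true := tt fun y => c3310 h y x353f x543f x351f
  have x242f : α 242 = false := ff fun y => c2920 h x233t x201t y
  have x402f : α 402 = false := ff fun y => c3349 h x547t x449t y
  c1583 h x402f x61f x543f x242f

theorem l4277 (h : Good α) (x20t : α 20 = true) (x199f : α 199 = false) (x92t : α 92 = true) (x197f : α 197 = false) (x459t : α 459 = true) (x239f : α 239 = false) (x386f : α 386 = false) (x341f : α 341 = false) (x106f : α 106 = false) (x188t : α 188 = true) (x54f : α 54 = false) (x202f : α 202 = false) (x56f : α 56 = false) (x59t : α 59 = true) (x272f : α 272 = false) : False :=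
  have x249f : α 249 = false := ff fun y => l4102 h y
  have x353t : α 353 = true := tt fun y => c2889 h y x249f x197f
  have x577t : α 577 = true := tt fun y => c3067 h y x386f x239f
  have x179t : α 179 = true := tt fun y => c2714 h x386f x239f y
  have x53t : α 53 = true := tt fun y => l3648 h y x56f
  have x153t : α 153 = true := tt fun y => c1298 h y x56f x54f
  have x323f : α 323 = false := ff fun y => c1284 h y x153t x53t
  have x146t : α 146 = true := tt fun y => c1296 h x56f x54f y
  have x398t : α 398 = true := tt fun y => c3100 h y x272f x249f
  have x306t : α 306 = true := tt fun y => c3098 h x272f x249f y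
  have x326f : α 326 = false := ff fun y => c544 h x306t x20t y x59t
  have x28f : α 28 = false := ff fun y => c522 h x92t x20t y
  have x346f : α 346 = false := ff fun y => l3614 h y x199f x326f x323f x197f
  have x286t : α 286 = true := tt fun y => c3211 h y x272f x346f
  have x102t : α 102 = true := tt fun y => c864 h x272f x28f x346f y
  have x173f : α 173 = false := ff fun y => c2702 h x459t x286t x353t y
  have x14f : α 14 = false := ff fun y => l3620 h x102t y x59t
  have x48t : α 48 = true := tt fun y => c1156 h x173f y x249f x106f
  have x479f : α 479 = false := ff fun y => c1162 h x577t y x179t x48t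
  have x270t : α 270 = true := tt fun y => c3206 h x479f x341f y
  have x253f : α 253 = false := ff fun y => c2541 h x270t x153t y x146t
  have x90t : α 90 = true := tt fun y => c264 h x253f y x14f
  have x187f : α 187 = false := ff fun y => c1959 h y x90t x102t
  have x567t : α 567 = true := tt fun y => c2807 h y x346f x187f
  have x185t : α 185 = true := tt fun y => c1300 h y x56f x187f x54f
  have x410t : α 410 = true := tt fun y => c2800 h x187f x253f y
  have x394f : α 394 = false := ff fun y => c3208 h x567t y x270t
  have x269f : α 269 = false := ff fun y => c2778 h y x188t x185t
  have x312f : α 312 = false := ff fun y => c2622 h x270t x153t x410t y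
  have x495t : α 495 = true := tt fun y => c2898 h x394f x199f y x326f
  have x107t : α 107 = true := tt fun y => c2301 h x386f x269f x239f y
  have x205f : α 205 = false := ff fun y => c2946 h x306t y x495t x410t
  have x521f : α 521 = false := ff fun y => c2309 h y x286t x107t
  have x85t : α 85 = true := tt fun y => c1886 h x205f y x312f x202f
  have x469t : α 469 = true := tt fun y => c3401 h x521f y x479f
  have x76f : α 76 = false := ff fun y => c1778 h x188t x85t x185t y
  have x177f : α 177 = false := ff fun y => c1885 h x469t y x398t x85t
  have x104f : α 104 = false := ff fun y => c563 h x469t y x398t x20t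
  c262 h x104f x177f x14f x76f

theorem l4278 (h : Good α) (x33f : α 33 = false) (x273t : α 273 = true) (x307f : α 307 = false) (x117f : α 117 = false) (x92t : α 92 = true) (x197f : α 197 = false) (x71f : α 71 = false) (x379f : α 379 = false) (x239f : α 239 = false) (x386f : α 386 = false) (x264f : α 264 = false) (x341f : α 341 = false) (x106f : α 106 = false) (x188t : α 188 = true) (x57f : α 57 = false) (x54f : α 54 = false) (x212f : α 212 = false) (x189f : α 189 = false) (x23f : α 23 = false) (x19t : α 19 = true) (x325t : α 325 = true) (x59t : α 59 = true) (x1t : α 1 = true) (x272f : α 272 = false) : False :=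
  have x249f : α 249 = false := ff fun y => l4102 h y
  have x58f : α 58 = false := ff fun y => l4173 h y
  have x353t : α 353 = true := tt fun y => c2889 h y x249f x197f
  have x459t : α 459 = true := tt fun y => c3329 h y x386f x379f
  have x577t : α 577 = true := tt fun y => c3067 h y x386f x239f
  have x179t : α 179 = true := tt fun y => c2714 h x386f x239f y
  have x452t : α 452 = true := tt fun y => l3711 h x264f y
  have x62t : α 62 = true := tt fun y => c1589 h x249f x106f y
  have x56f : α 56 = false := ff fun y => c57 h y x1t x59t
  have x146t : α 146 = true := tt fun y => c1296 h x56f x54f y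
  have x153t : α 153 = true := tt fun y => c1298 h y x56f x54f
  have x399t : α 399 = true := tt fun y => c1484 h x58f x189f y
  have x183t : α 183 = true := tt fun y => c695 h x23f x58f y
  have x202f : α 202 = false := ff fun y => c90 h x1t x59t y
  have x398t : α 398 = true := tt fun y => c3100 h y x272f x249f
  have x494t : α 494 = true := tt fun y => c978 h x341f y x33f x212f
  have x199f : α 199 = false := ff fun y => c2897 h x398t x494t y x325t
  have x20f : α 20 = false := ff fun y => l4277 h y x199f x92t x197f x459t x239f x386f x341f x106f x188t x54f x202f x56f x59t x272f
  have x85t : α 85 = true := tt fun y => c531 h x57f x20f y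
  have x22t : α 22 = true := tt fun y => c512 h x106f y x20f
  have x257t : α 257 = true := tt fun y => c564 h x106f x20f y x189f
  have x28f : α 28 = false := ff fun y => c848 h x62t y x85t
  have x80f : α 80 = false := ff fun y => c1821 h x179t y x257t x183t
  have x157f : α 157 = false := ff fun y => c2544 h x146t y x257t x273t
  have x108t : α 108 = true := tt fun y => l3813 h y x28f x189f x20f x71f x59t
  have x10t : α 10 = true := tt fun y => c198 h x239f x80f y
  have x120f : α 120 = false := ff fun y => l3685 h x108t y
  have x485t : α 485 = true := tt fun y => c2457 h y x272f x120f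
  have x346f : α 346 = false := ff fun y => l3757 h x485t x10t x459t x28f x264f y
  have x286t : α 286 = true := tt fun y => c3211 h y x272f x346f
  have x102t : α 102 = true := tt fun y => c864 h x272f x28f x346f y
  have x173f : α 173 = false := ff fun y => c2702 h x459t x286t x353t y
  have x14f : α 14 = false := ff fun y => l3620 h x102t y x59t
  have x392t : α 392 = true := tt fun y => c2699 h x173f x249f y
  have x48t : α 48 = true := tt fun y => c1156 h x173f y x249f x106f
  have x104t : α 104 = true := tt fun y => c237 h y x20f x14f
  have x55t : α 55 = true := tt fun y => c233 h x57f x20f y x14f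
  have x479f : α 479 = false := ff fun y => c1162 h x577t y x179t x48t
  have x29f : α 29 = false := ff fun y => c886 h x48t y x104t
  have x60f : α 60 = false := ff fun y => c52 h x55t x1t y
  have x187f : α 187 = false := ff fun y => c1368 h x392t y x55t
  have x270t : α 270 = true := tt fun y => c3206 h x479f x341f y
  have x288t : α 288 = true := tt fun y => c2436 h x479f y x341f x117f
  have x342t : α 342 = true := tt fun y => c893 h x379f y x80f x29f
  have x186t : α 186 = true := tt fun y => c1455 h x60f y x58f x189f
  have x90t : α 90 = true := tt fun y => c1972 h x346f x187f y
  have x567t : α 567 = true := tt fun y => c2807 h y x346f x187f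
  have x105f : α 105 = false := ff fun y => c2272 h x270t x153t y
  have x269f : α 269 = false := ff fun y => c3200 h x286t y x342t
  have x418f : α 418 = false := ff fun y => c1521 h x325t y x59t x186t
  have x347f : α 347 = false := ff fun y => c2266 h x104t x288t x186t y
  have x505f : α 505 = false := ff fun y => c654 h y x22t x567t x90t
  have x93t : α 93 = true := tt fun y => c680 h x105f y x33f x23f
  have x107t : α 107 = true := tt fun y => c2301 h x386f x269f x239f y
  have x501t : α 501 = true := tt fun y => c2959 h x418f y x212f x307f
  have x395t : α 395 = true := tt fun y => c2654 h x157f x347f x202f y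
  have x521f : α 521 = false := ff fun y => c2309 h y x286t x107t
  have x256f : α 256 = false := ff fun y => c2099 h x93t y x501t
  have x15f : α 15 = false := ff fun y => c282 h y x395t x19t x399t
  have x40t : α 40 = true := tt fun y => c840 h x521f y x505f x28f
  have x482t : α 482 = true := tt fun y => c310 h x269f y x15f x256f
  c187 h x452t x482t x10t x40t

theorem l4279 (h : Good α) (x20f : α 20 = false) (x33t : α 33 = true) (x353t : α 353 = true) (x71f : α 71 = false) (x379f : α 379 = false) (x239f : α 239 = false) (x386f : α 386 = false) (x264f : α 264 = false) (x341f : α 341 = false) (x106f : α 106 = false) (x188t : α 188 = true) (x57f : α 57 = false) (x146t : α 146 = true) (x153t : α 153 = true) (x189f : α 189 = false) (x183t : α 183 = true) (x59t : α 59 = true) (x1t : α 1 = true) (x272f : α 272 = false) : False :=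
  have x249f : α 249 = false := ff fun y => l4102 h y
  have x459t : α 459 = true := tt fun y => c3329 h y x386f x379f
  have x577t : α 577 = true := tt fun y => c3067 h y x386f x239f
  have x179t : α 179 = true := tt fun y => c2714 h x386f x239f y
  have x62t : α 62 = true := tt fun y => c1589 h x249f x106f y
  have x56f : α 56 = false := ff fun y => c57 h y x1t x59t
  have x53t : α 53 = true := tt fun y => l3648 h y x56f
  have x85t : α 85 = true := tt fun y => c531 h x57f x20f y
  have x257t : α 257 = true := tt fun y => c564 h x106f x20f y x189f
  have x28f : α 28 = false := ff fun y => c848 h x62t y x85t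
  have x80f : α 80 = false := ff fun y => c1821 h x179t y x257t x183t
  have x108t : α 108 = true := tt fun y => l3813 h y x28f x189f x20f x71f x59t
  have x10t : α 10 = true := tt fun y => c198 h x239f x80f y
  have x120f : α 120 = false := ff fun y => l3685 h x108t y
  have x485t : α 485 = true := tt fun y => c2457 h y x272f x120f
  have x346f : α 346 = false := ff fun y => l3757 h x485t x10t x459t x28f x264f y
  have x477t : α 477 = true := tt fun y => c3214 h x272f x346f y
  have x286t : α 286 = true := tt fun y => c3211 h y x272f x346f
  have x102t : α 102 = true := tt fun y => c864 h x272f x28f x346f y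
  have x173f : α 173 = false := ff fun y => c2702 h x459t x286t x353t y
  have x14f : α 14 = false := ff fun y => l3620 h x102t y x59t
  have x48t : α 48 = true := tt fun y => c1156 h x173f y x249f x106f
  have x104t : α 104 = true := tt fun y => c237 h y x20f x14f
  have x55t : α 55 = true := tt fun y => c233 h x57f x20f y x14f
  have x479f : α 479 = false := ff fun y => c1162 h x577t y x179t x48t
  have x29f : α 29 = false := ff fun y => c886 h x48t y x104t
  have x96f : α 96 = false := ff fun y => c29 h y x53t x55t x1t
  have x270t : α 270 = true := tt fun y => c3206 h x479f x341f y
  have x342t : α 342 = true := tt fun y => c893 h x379f y x80f x29f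
  have x185t : α 185 = true := tt fun y => c2169 h x346f y x96f
  have x253f : α 253 = false := ff fun y => c2541 h x270t x153t y x146t
  have x269f : α 269 = false := ff fun y => c3200 h x286t y x342t
  have x254f : α 254 = false := ff fun y => c2776 h x188t x185t y
  have x475t : α 475 = true := tt fun y => c2290 h x106f x253f y
  have x107t : α 107 = true := tt fun y => c2301 h x386f x269f x239f y
  have x283f : α 283 = false := ff fun y => c979 h y x33t x475t x257t
  have x338f : α 338 = false := ff fun y => c2307 h x286t x107t x477t y
  c3127 h x283f x254f x338f

theorem l4280 (h : Good α) (x346f : α 346 = false) (x28f : α 28 = false) (x20t : α 20 = true) (x33t : α 33 = true) (x353t : α 353 = true) (x459t : α 459 = true) (x236t : α 236 = true) (x239f : α 239 = false) (x386f : α 386 = false) (x341f : α 341 = false) (x106f : α 106 = false) (x188t : α 188 = true) (x54f : α 54 = false) (x56f : α 56 = false) (x59t : α 59 = true) (x97t : α 97 = true) (x272f : α 272 = false) : False :=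
  have x249f : α 249 = false := ff fun y => l4102 h y
  have x577t : α 577 = true := tt fun y => c3067 h y x386f x239f
  have x179t : α 179 = true := tt fun y => c2714 h x386f x239f y
  have x63t : α 63 = true := tt fun y => l4234 h y x54f x239f
  have x146t : α 146 = true := tt fun y => c1296 h x56f x54f y
  have x153t : α 153 = true := tt fun y => c1298 h y x56f x54f
  have x398t : α 398 = true := tt fun y => c3100 h y x272f x249f
  have x286t : α 286 = true := tt fun y => c3211 h y x272f x346f
  have x102t : α 102 = true := tt fun y => c864 h x272f x28f x346f y
  have x173f : α 173 = false := ff fun y => c2702 h x459t x286t x353t y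
  have x14f : α 14 = false := ff fun y => l3620 h x102t y x59t
  have x48t : α 48 = true := tt fun y => c1156 h x173f y x249f x106f
  have x368f : α 368 = false := ff fun y => c1161 h y x179t x48t
  have x479f : α 479 = false := ff fun y => c1162 h x577t y x179t x48t
  have x270t : α 270 = true := tt fun y => c3206 h x479f x341f y
  have x253f : α 253 = false := ff fun y => c2541 h x270t x153t y x146t
  have x105f : α 105 = false := ff fun y => c2272 h x270t x153t y
  have x90t : α 90 = true := tt fun y => c264 h x253f y x14f
  have x138t : α 138 = true := tt fun y => c271 h x368f y x253f x14f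
  have x261t : α 261 = true := tt fun y => c2274 h x479f y x105f
  have x187f : α 187 = false := ff fun y => c1959 h y x90t x102t
  have x455f : α 455 = false := ff fun y => c2621 h y x261t x153t
  have x185t : α 185 = true := tt fun y => c1300 h y x56f x187f x54f
  have x515t : α 515 = true := tt fun y => c3385 h x479f x455f y
  have x269f : α 269 = false := ff fun y => c2778 h y x188t x185t
  have x552f : α 552 = false := ff fun y => c972 h x515t y x33t x97t
  have x107t : α 107 = true := tt fun y => c2301 h x386f x269f x239f y
  have x235t : α 235 = true := tt fun y => c3010 h x386f x269f y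
  have x564t : α 564 = true := tt fun y => c3203 h y x386f x269f
  have x124f : α 124 = false := ff fun y => c1604 h x107t x63t y
  have x521f : α 521 = false := ff fun y => c2309 h y x286t x107t
  have x431f : α 431 = false := ff fun y => c1620 h x564t x235t y x63t
  have x330f : α 330 = false := ff fun y => c2520 h x564t y x138t
  have x302t : α 302 = true := tt fun y => c2482 h x386f y x239f x124f
  have x321t : α 321 = true := tt fun y => c2484 h x124f y x552f
  have x469t : α 469 = true := tt fun y => c3401 h x521f y x479f
  have x305t : α 305 = true := tt fun y => c3247 h x431f x330f y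
  have x421f : α 421 = false := ff fun y => c3244 h x302t x321t y
  have x104f : α 104 = false := ff fun y => c563 h x469t y x398t x20t
  have x262f : α 262 = false := ff fun y => c3018 h x305t x236t y
  c2267 h x262f x552f x104f x421f

theorem l4281 (h : Good α) (x286t : α 286 = true) (x346t : α 346 = true) (x20t : α 20 = true) (x33t : α 33 = true) (x353t : α 353 = true) (x459t : α 459 = true) (x236t : α 236 = true) (x239f : α 239 = false) (x386f : α 386 = false) (x341f : α 341 = false) (x106f : α 106 = false) (x188t : α 188 = true) (x54f : α 54 = false) (x56f : α 56 = false) (x97t : α 97 = true) (x398t : α 398 = true) : False :=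
  have x249f : α 249 = false := ff fun y => l4102 h y
  have x577t : α 577 = true := tt fun y => c3067 h y x386f x239f
  have x179t : α 179 = true := tt fun y => c2714 h x386f x239f y
  have x63t : α 63 = true := tt fun y => l4234 h y x54f x239f
  have x146t : α 146 = true := tt fun y => c1296 h x56f x54f y
  have x153t : α 153 = true := tt fun y => c1298 h y x56f x54f
  have x173f : α 173 = false := ff fun y => c2702 h x459t x286t x353t y
  have x392t : α 392 = true := tt fun y => c2699 h x173f x249f y
  have x48t : α 48 = true := tt fun y => c1156 h x173f y x249f x106f
  have x495f : α 495 = false := ff fun y => c3307 h x346t x392t y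
  have x368f : α 368 = false := ff fun y => c1161 h y x179t x48t
  have x479f : α 479 = false := ff fun y => c1162 h x577t y x179t x48t
  have x270t : α 270 = true := tt fun y => c3206 h x479f x341f y
  have x253f : α 253 = false := ff fun y => c2541 h x270t x153t y x146t
  have x105f : α 105 = false := ff fun y => c2272 h x270t x153t y
  have x90t : α 90 = true := tt fun y => c1975 h x495f x253f y
  have x261t : α 261 = true := tt fun y => c2274 h x479f y x105f
  have x187f : α 187 = false := ff fun y => c1973 h x346t y x90t
  have x455f : α 455 = false := ff fun y => c2621 h y x261t x153t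
  have x185t : α 185 = true := tt fun y => c1300 h y x56f x187f x54f
  have x515t : α 515 = true := tt fun y => c3385 h x479f x455f y
  have x269f : α 269 = false := ff fun y => c2778 h y x188t x185t
  have x14f : α 14 = false := ff fun y => c239 h x188t x20t x185t y
  have x552f : α 552 = false := ff fun y => c972 h x515t y x33t x97t
  have x107t : α 107 = true := tt fun y => c2301 h x386f x269f x239f y
  have x235t : α 235 = true := tt fun y => c3010 h x386f x269f y
  have x564t : α 564 = true := tt fun y => c3203 h y x386f x269f
  have x138t : α 138 = true := tt fun y => c271 h x368f y x253f x14f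
  have x124f : α 124 = false := ff fun y => c1604 h x107t x63t y
  have x521f : α 521 = false := ff fun y => c2309 h y x286t x107t
  have x431f : α 431 = false := ff fun y => c1620 h x564t x235t y x63t
  have x330f : α 330 = false := ff fun y => c2520 h x564t y x138t
  have x302t : α 302 = true := tt fun y => c2482 h x386f y x239f x124f
  have x321t : α 321 = true := tt fun y => c2484 h x124f y x552f
  have x469t : α 469 = true := tt fun y => c3401 h x521f y x479f
  have x305t : α 305 = true := tt fun y => c3247 h x431f x330f y
  have x421f : α 421 = false := ff fun y => c3244 h x302t x321t y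
  have x104f : α 104 = false := ff fun y => c563 h x469t y x398t x20t
  have x262f : α 262 = false := ff fun y => c3018 h x305t x236t y
  c2267 h x262f x552f x104f x421f

theorem l4282 (h : Good α) (x54f : α 54 = false) (x113t : α 113 = true) (x23f : α 23 = false) (x1t : α 1 = true) (x91f : α 91 = false) (x272f : α 272 = false) : False :=
  have x249f : α 249 = false := ff fun y => l4102 h y
  have x58f : α 58 = false := ff fun y => l4173 h y
  have x61f : α 61 = false := ff fun y => l4270 h y x1t x91f x272f
  have x59t : α 59 = true := tt fun y => l3669 h y x61f
  have x56f : α 56 = false := ff fun y => c57 h y x1t x59t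
  have x97t : α 97 = true := tt fun y => c1456 h x91f x58f y
  have x250f : α 250 = false := ff fun y => l3533 h x113t x97t y x58f x56f
  have x189f : α 189 = false := ff fun y => c2176 h x113t x97t y
  have x94t : α 94 = true := tt fun y => l3601 h y x113t x189f x97t x250f x1t x61f
  have x212f : α 212 = false := ff fun y => c2178 h y x113t x97t
  have x183t : α 183 = true := tt fun y => c695 h x23f x58f y
  have x53t : α 53 = true := tt fun y => l3648 h y x56f
  have x196f : α 196 = false := ff fun y => c32 h y x53t x1t
  have x204t : α 204 = true := tt fun y => l3702 h x196f y
  have x19t : α 19 = true := tt fun y => l3578 h y x97t x58f x56f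
  have x202f : α 202 = false := ff fun y => c90 h x1t x59t y
  have x325t : α 325 = true := tt fun y => l3677 h x61f y
  have x237t : α 237 = true := tt fun y => c1461 h y x91f x58f
  have x398t : α 398 = true := tt fun y => c3100 h y x272f x249f
  have x153t : α 153 = true := tt fun y => c1298 h y x56f x54f
  have x146t : α 146 = true := tt fun y => c1296 h x56f x54f y
  have x233t : α 233 = true := tt fun y => c1314 h x54f x91f y
  have x57f : α 57 = false := ff fun y => l4272 h y x233t x94t x61f x1t
  have x238t : α 238 = true := tt fun y => c1403 h x57f y x58f x250f
  have x352f : α 352 = false := ff fun y => c2939 h y x238t x204t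
  have x200t : α 200 = true := tt fun y => c1488 h y x352f x58f x250f
  have x188t : α 188 = true := tt fun y => l4273 h y x57f x54f x113t x204t x56f x325t x59t x91f
  have x106f : α 106 = false := ff fun y => c2101 h x188t x94t y
  have x341f : α 341 = false := ff fun y => c2118 h y x188t x94t
  have x264f : α 264 = false := ff fun y => c502 h x188t y x19t x113t
  have x452t : α 452 = true := tt fun y => l3711 h x264f y
  have x386f : α 386 = false := ff fun y => c503 h y x452t x19t x113t
  have x239f : α 239 = false := ff fun y => l4275 h y x200t x94t x1t x91f
  have x236t : α 236 = true := tt fun y => c1304 h x239f y x54f x61f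
  have x379f : α 379 = false := ff fun y => l3463 h y x200t x239f x53t
  have x71f : α 71 = false := ff fun y => l3842 h y x236t x56f x200t
  have x459t : α 459 = true := tt fun y => c3329 h y x386f x379f
  have x197f : α 197 = false := ff fun y => l4276 h y x200t x57f x233t x61f x1t x237t
  have x353t : α 353 = true := tt fun y => c2889 h y x249f x197f
  have x92t : α 92 = true := tt fun y => c1546 h x249f y x197f x61f
  have x444f : α 444 = false := ff fun y => c2080 h x92t x238t y
  have x450t : α 450 = true := tt fun y => c1407 h x57f x444f x58f y
  have x409t : α 409 = true := tt fun y => l4274 h x236t x450t y x200t x54f x97t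
  have x335f : α 335 = false := ff fun y => c3261 h x325t y x409t
  have x424t : α 424 = true := tt fun y => l3710 h y x335f x264f
  have x117f : α 117 = false := ff fun y => c2428 h x424t x238t y
  have x307f : α 307 = false := ff fun y => c509 h x188t x424t x19t y
  have x273t : α 273 = true := tt fun y => c3109 h x307f x250f y
  have x33t : α 33 = true := tt fun y => l4278 h y x273t x307f x117f x92t x197f x71f x379f x239f x386f x264f x341f x106f x188t x57f x54f x212f x189f x23f x19t x325t x59t x1t x272f
  have x20t : α 20 = true := tt fun y => l4279 h y x33t x353t x71f x379f x239f x386f x264f x341f x106f x188t x57f x146t x153t x189f x183t x59t x1t x272f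
  have x89f : α 89 = false := ff fun y => l3819 h y x20t x59t
  have x28f : α 28 = false := ff fun y => c522 h x92t x20t y
  have x199t : α 199 = true := tt fun y => l4277 h x20t y x92t x197f x459t x239f x386f x341f x106f x188t x54f x202f x56f x59t x272f
  have x494f : α 494 = false := ff fun y => c2897 h x398t y x199t x325t
  have x346t : α 346 = true := tt fun y => l4280 h y x28f x20t x33t x353t x459t x236t x239f x386f x341f x106f x188t x54f x56f x59t x97t x272f
  have x36f : α 36 = false := ff fun y => l3639 h y x346t
  have x286f : α 286 = false := ff fun y => l4281 h y x346t x20t x33t x353t x459t x236t x239f x386f x341f x106f x188t x54f x56f x97t x398t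
  have x120t : α 120 = true := tt fun y => c1038 h x286f y x36f
  have x108f : α 108 = false := ff fun y => l3685 h y x120t
  have x337t : α 337 = true := tt fun y => c869 h x264f y x28f x108f
  have x554t : α 554 = true := tt fun y => c872 h x494f y x28f x108f
  have x192t : α 192 = true := tt fun y => c1943 h y x89f x108f
  c2856 h x554t x337t x192t

theorem l4283 (h : Good α) (x113t : α 113 = true) (x23f : α 23 = false) (x1t : α 1 = true) (x91f : α 91 = false) (x272f : α 272 = false) : False :=
  have x58f : α 58 = false := ff fun y => l4173 h y
  have x61f : α 61 = false := ff fun y => l4270 h y x1t x91f x272f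
  have x59t : α 59 = true := tt fun y => l3669 h y x61f
  have x56f : α 56 = false := ff fun y => c57 h y x1t x59t
  have x53t : α 53 = true := tt fun y => l3648 h y x56f
  have x196f : α 196 = false := ff fun y => c32 h y x53t x1t
  have x204t : α 204 = true := tt fun y => l3702 h x196f y
  have x97t : α 97 = true := tt fun y => c1456 h x91f x58f y
  have x250f : α 250 = false := ff fun y => l3533 h x113t x97t y x58f x56f
  have x189f : α 189 = false := ff fun y => c2176 h x113t x97t y
  have x94t : α 94 = true := tt fun y => l3601 h y x113t x189f x97t x250f x1t x61f
  have x54t : α 54 = true := tt fun y => l4282 h y x113t x23f x1t x91f x272f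
  have x57f : α 57 = false := ff fun y => c36 h x94t y x54t x1t
  have x238f : α 238 = false := ff fun y => c1321 h x94t y x54t x204t
  c1403 h x57f x238f x58f x250f

theorem l4284 (h : Good α) (x94t : α 94 = true) (x54t : α 54 = true) (x204t : α 204 = true) (x1t : α 1 = true) (x91f : α 91 = false) : False :=
  have x58f : α 58 = false := ff fun y => l4173 h y
  have x57f : α 57 = false := ff fun y => c36 h x94t y x54t x1t
  have x238f : α 238 = false := ff fun y => c1321 h x94t y x54t x204t
  have x233f : α 233 = false := ff fun y => l3606 h x54t y x94t x204t x1t
  have x250t : α 250 = true := tt fun y => c1403 h x57f x238f x58f y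
  have x201t : α 201 = true := tt fun y => c1460 h x91f x58f x233f y
  l3526 h x54t x250t x57f x201t x58f x204t x1t

theorem l4285 (h : Good α) (x94f : α 94 = false) (x272f : α 272 = false) : False :=
  have x249f : α 249 = false := ff fun y => l4102 h y
  have x398t : α 398 = true := tt fun y => c3100 h y x272f x249f
  have x57t : α 57 = true := tt fun y => c1422 h x249f x94f y
  have x22t : α 22 = true := tt fun y => c656 h x272f x94f y
  have x188f : α 188 = false := ff fun y => c1435 h x398t y x57t
  have x184f : α 184 = false := ff fun y => c647 h y x57t x22t
  c2767 h x272f x188f x184f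

theorem l4286 (h : Good α) (x54t : α 54 = true) (x91f : α 91 = false) (x94t : α 94 = true) : False :=
  have x197f : α 197 = false := ff fun y => l3796 h y x54t
  have x61f : α 61 = false := ff fun y => l3870 h y x54t
  have x56f : α 56 = false := ff fun y => l4053 h y x54t x61f
  have x1t : α 1 = true := tt fun y => l4118 h y x197f x94t
  have x53t : α 53 = true := tt fun y => l3648 h y x56f
  have x204f : α 204 = false := ff fun y => l4284 h x94t x54t y x1t x91f
  have x196f : α 196 = false := ff fun y => c32 h y x53t x1t
  l3702 h x196f x204f

theorem l4287 (h : Good α) (x113t : α 113 = true) (x91f : α 91 = false) (x272f : α 272 = false) : False :=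
  have x58f : α 58 = false := ff fun y => l4173 h y
  have x97t : α 97 = true := tt fun y => c1456 h x91f x58f y
  have x94t : α 94 = true := tt fun y => l4285 h y x272f
  have x54f : α 54 = false := ff fun y => l4286 h y x91f x94t
  have x1t : α 1 = true := tt fun y => c37 h x54f y x91f x58f
  have x61f : α 61 = false := ff fun y => l4270 h y x1t x91f x272f
  have x59t : α 59 = true := tt fun y => l3669 h y x61f
  have x56f : α 56 = false := ff fun y => c57 h y x1t x59t
  have x19t : α 19 = true := tt fun y => l3578 h y x97t x58f x56f
  have x23f : α 23 = false := ff fun y => c460 h x19t y x113t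
  l4283 h x113t x23f x1t x91f x272f

theorem l4288 (h : Good α) (x197f : α 197 = false) (x264t : α 264 = true) (x61f : α 61 = false) (x91f : α 91 = false) (x94t : α 94 = true) : False :=
  have x249f : α 249 = false := ff fun y => l4102 h y
  have x58f : α 58 = false := ff fun y => l4173 h y
  have x54f : α 54 = false := ff fun y => l4286 h y x91f x94t
  have x1t : α 1 = true := tt fun y => c37 h x54f y x91f x58f
  have x59t : α 59 = true := tt fun y => l3669 h y x61f
  have x56f : α 56 = false := ff fun y => c57 h y x1t x59t
  have x53t : α 53 = true := tt fun y => l3648 h y x56f
  have x196f : α 196 = false := ff fun y => c32 h y x53t x1t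
  have x204t : α 204 = true := tt fun y => l3702 h x196f y
  have x233t : α 233 = true := tt fun y => c1314 h x54f x91f y
  have x57f : α 57 = false := ff fun y => l4272 h y x233t x94t x61f x1t
  have x92t : α 92 = true := tt fun y => c1546 h x249f y x197f x61f
  have x242f : α 242 = false := ff fun y => l3906 h x91f y x54f x92t
  have x20f : α 20 = false := ff fun y => c556 h x264t x92t y
  have x494f : α 494 = false := ff fun y => c2087 h y x264t x92t
  have x351t : α 351 = true := tt fun y => c1577 h x197f x61f y x242f
  have x188t : α 188 = true := tt fun y => c533 h y x57f x20f
  have x201f : α 201 = false := ff fun y => c2922 h x351t x233t y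
  have x341f : α 341 = false := ff fun y => c2118 h y x188t x94t
  have x250f : α 250 = false := ff fun y => l3521 h y x57f x201f x204t
  have x383t : α 383 = true := tt fun y => c3290 h x341f y x494f
  have x238t : α 238 = true := tt fun y => c1403 h x57f y x58f x250f
  c3055 h x383t x264t x238t

theorem l4289 (h : Good α) (x91f : α 91 = false) (x272f : α 272 = false) : False :=
  have x58f : α 58 = false := ff fun y => l4173 h y
  have x94t : α 94 = true := tt fun y => l4285 h y x272f
  have x237t : α 237 = true := tt fun y => c1461 h y x91f x58f
  have x54f : α 54 = false := ff fun y => l4286 h y x91f x94t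
  have x233t : α 233 = true := tt fun y => c1314 h x54f x91f y
  have x1t : α 1 = true := tt fun y => c37 h x54f y x91f x58f
  have x61f : α 61 = false := ff fun y => l4270 h y x1t x91f x272f
  have x59t : α 59 = true := tt fun y => l3669 h y x61f
  have x57f : α 57 = false := ff fun y => l4272 h y x233t x94t x61f x1t
  have x56f : α 56 = false := ff fun y => c57 h y x1t x59t
  have x53t : α 53 = true := tt fun y => l3648 h y x56f
  have x196f : α 196 = false := ff fun y => c32 h y x53t x1t
  have x204t : α 204 = true := tt fun y => l3702 h x196f y
  have x113f : α 113 = false := ff fun y => l4287 h y x91f x272f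
  have x264t : α 264 = true := tt fun y => l3691 h x113f y
  have x197t : α 197 = true := tt fun y => l4288 h y x264t x61f x91f x94t
  have x250f : α 250 = false := ff fun y => c2878 h x197t x204t x237t y
  have x200f : α 200 = false := ff fun y => l4276 h x197t y x57f x233t x61f x1t x237t
  have x238t : α 238 = true := tt fun y => c1403 h x57f y x58f x250f
  have x352t : α 352 = true := tt fun y => c1488 h x200f y x58f x250f
  c2939 h x352t x238t x204t

theorem l4290 (h : Good α) (x57f : α 57 = false) (x197t : α 197 = true) (x204t : α 204 = true) (x1t : α 1 = true) : False :=
  have x249f : α 249 = false := ff fun y => l4102 h y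
  have x58f : α 58 = false := ff fun y => l4173 h y
  have x61f : α 61 = false := ff fun y => c102 h x1t y x204t
  have x543f : α 543 = false := ff fun y => l3582 h y x1t x61f
  have x237t : α 237 = true := tt fun y => c1401 h x249f x57f y x58f
  have x351f : α 351 = false := ff fun y => c2888 h x197t x237t y
  have x250f : α 250 = false := ff fun y => c2878 h x197t x204t x237t y
  have x233t : α 233 = true := tt fun y => c3000 h x543f x351f y
  have x238t : α 238 = true := tt fun y => c1403 h x57f y x58f x250f
  have x200f : α 200 = false := ff fun y => l4276 h x197t y x57f x233t x61f x1t x237t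
  have x352f : α 352 = false := ff fun y => c2939 h y x238t x204t
  c1488 h x200f x352f x58f x250f

theorem l4291 (h : Good α) (x197t : α 197 = true) (x204t : α 204 = true) (x1t : α 1 = true) (x94t : α 94 = true) : False :=
  have x58f : α 58 = false := ff fun y => l4173 h y
  have x61f : α 61 = false := ff fun y => c102 h x1t y x204t
  have x543f : α 543 = false := ff fun y => l3582 h y x1t x61f
  have x57t : α 57 = true := tt fun y => l4290 h y x197t x204t x1t
  have x200f : α 200 = false := ff fun y => c68 h y x57t x1t
  have x233f : α 233 = false := ff fun y => l4272 h x57t y x94t x61f x1t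
  have x201t : α 201 = true := tt fun y => l3474 h x197t x200f x204t y x58f
  have x351t : α 351 = true := tt fun y => c3000 h x543f y x233f
  c112 h x197t x1t x351t x201t

theorem l4292 (h : Good α) (x204t : α 204 = true) (x1t : α 1 = true) (x272f : α 272 = false) : False :=
  have x249f : α 249 = false := ff fun y => l4102 h y
  have x58f : α 58 = false := ff fun y => l4173 h y
  have x91t : α 91 = true := tt fun y => l4289 h y x272f
  have x94t : α 94 = true := tt fun y => l4285 h y x272f
  have x54f : α 54 = false := ff fun y => c1310 h x94t y x91t
  have x61f : α 61 = false := ff fun y => c102 h x1t y x204t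
  have x543f : α 543 = false := ff fun y => l3582 h y x1t x61f
  have x197f : α 197 = false := ff fun y => l4291 h y x204t x1t x94t
  have x353t : α 353 = true := tt fun y => c2889 h y x249f x197f
  have x237t : α 237 = true := tt fun y => c2885 h x249f x197f y
  have x92t : α 92 = true := tt fun y => c1546 h x249f y x197f x61f
  have x239f : α 239 = false := ff fun y => c2022 h x353t y x237t x91t
  have x443f : α 443 = false := ff fun y => c2025 h y x237t x91t
  have x97f : α 97 = false := ff fun y => c1980 h x94t x92t x91t y
  have x57f : α 57 = false := ff fun y => c1410 h x94t y x92t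
  have x236t : α 236 = true := tt fun y => c1304 h x239f y x54f x61f
  have x449t : α 449 = true := tt fun y => c1405 h y x57f x443f x58f
  have x242t : α 242 = true := tt fun y => c1556 h x61f x97f y
  have x547f : α 547 = false := ff fun y => c2076 h y x236t x449t x92t
  l3905 h x239f x547f x543f x242t x54f x92t

theorem l4293 (h : Good α) (x113f : α 113 = false) (x1t : α 1 = true) (x272f : α 272 = false) : False :=
  have x58f : α 58 = false := ff fun y => l4173 h y
  have x249f : α 249 = false := ff fun y => l4102 h y
  have x204f : α 204 = false := ff fun y => l4292 h y x1t x272f
  have x196t : α 196 = true := tt fun y => l3702 h y x204f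
  have x53f : α 53 = false := ff fun y => c32 h x196t y x1t
  have x56t : α 56 = true := tt fun y => l3648 h x53f y
  have x59f : α 59 = false := ff fun y => c57 h x56t x1t y
  have x61t : α 61 = true := tt fun y => l3669 h x59f y
  have x327f : α 327 = false := ff fun y => l3667 h x56t y
  have x91t : α 91 = true := tt fun y => l4289 h y x272f
  have x94t : α 94 = true := tt fun y => l4285 h y x272f
  have x54f : α 54 = false := ff fun y => c1310 h x94t y x91t
  have x398t : α 398 = true := tt fun y => c3100 h y x272f x249f
  have x264t : α 264 = true := tt fun y => l3691 h x113f y
  have x23t : α 23 = true := tt fun y => l3627 h y x113f x53f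
  have x184f : α 184 = false := ff fun y => l3768 h y x264t x23t x327f x272f
  have x188t : α 188 = true := tt fun y => c2767 h x272f y x184f
  have x57f : α 57 = false := ff fun y => c1435 h x398t x188t y
  have x341f : α 341 = false := ff fun y => c2118 h y x188t x94t
  have x237t : α 237 = true := tt fun y => c1401 h x249f x57f y x58f
  have x238f : α 238 = false := ff fun y => l3862 h x264t y x57f x53f x272f
  have x92t : α 92 = true := tt fun y => c2065 h x341f x184f y
  have x443f : α 443 = false := ff fun y => c2025 h y x237t x91t
  have x197t : α 197 = true := tt fun y => c2879 h x249f x238f y x204f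
  have x352t : α 352 = true := tt fun y => c2938 h y x238f x204f
  have x97f : α 97 = false := ff fun y => c1980 h x94t x92t x91t y
  have x236f : α 236 = false := ff fun y => c1549 h y x92t x61t
  have x449t : α 449 = true := tt fun y => c1405 h y x57f x443f x58f
  have x351f : α 351 = false := ff fun y => c2888 h x197t x237t y
  have x200t : α 200 = true := tt fun y => c1465 h y x236f x58f x97f
  have x402f : α 402 = false := ff fun y => c1551 h x449t x92t y x61t
  have x201t : α 201 = true := tt fun y => c1443 h x249f x57f x351f y
  have x543t : α 543 = true := tt fun y => c3346 h x402f x443f y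
  have x354f : α 354 = false := ff fun y => c2908 h x200t x352t x201t y
  have x233f : α 233 = false := ff fun y => c2124 h x449t x94t x543t y
  c1346 h x54f x204f x233f x354f

theorem l4294 (h : Good α) (x57f : α 57 = false) (x197t : α 197 = true) (x1t : α 1 = true) (x272f : α 272 = false) : False :=
  have x249f : α 249 = false := ff fun y => l4102 h y
  have x58f : α 58 = false := ff fun y => l4173 h y
  have x204f : α 204 = false := ff fun y => l4292 h y x1t x272f
  have x196t : α 196 = true := tt fun y => l3702 h y x204f
  have x53f : α 53 = false := ff fun y => c32 h x196t y x1t
  have x56t : α 56 = true := tt fun y => l3648 h x53f y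
  have x59f : α 59 = false := ff fun y => c57 h x56t x1t y
  have x61t : α 61 = true := tt fun y => l3669 h x59f y
  have x91t : α 91 = true := tt fun y => l4289 h y x272f
  have x94t : α 94 = true := tt fun y => l4285 h y x272f
  have x54f : α 54 = false := ff fun y => c1310 h x94t y x91t
  have x237t : α 237 = true := tt fun y => c1401 h x249f x57f y x58f
  have x443f : α 443 = false := ff fun y => c2025 h y x237t x91t
  have x97f : α 97 = false := ff fun y => c1554 h x197t x61t x237t y
  have x351f : α 351 = false := ff fun y => c2888 h x197t x237t y
  have x449t : α 449 = true := tt fun y => c1405 h y x57f x443f x58f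
  have x250t : α 250 = true := tt fun y => c1468 h x58f x97f y
  have x92t : α 92 = true := tt fun y => c1399 h x57f y x58f x97f
  have x201t : α 201 = true := tt fun y => c1443 h x249f x57f x351f y
  have x402f : α 402 = false := ff fun y => c1551 h x449t x92t y x61t
  have x238f : α 238 = false := ff fun y => c1983 h x94t y x91t x250t
  have x236f : α 236 = false := ff fun y => c1549 h y x92t x61t
  have x543t : α 543 = true := tt fun y => c3346 h x402f x443f y
  have x352t : α 352 = true := tt fun y => c2938 h y x238f x204f
  have x200t : α 200 = true := tt fun y => c1465 h y x236f x58f x97f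
  have x233f : α 233 = false := ff fun y => c2124 h x449t x94t x543t y
  have x354f : α 354 = false := ff fun y => c2908 h x200t x352t x201t y
  c1346 h x54f x204f x233f x354f

theorem l4295 (h : Good α) (x197t : α 197 = true) (x1t : α 1 = true) (x52f : α 52 = false) : False :=
  have x249f : α 249 = false := ff fun y => l4102 h y
  have x58f : α 58 = false := ff fun y => l4173 h y
  have x272f : α 272 = false := ff fun y => l4268 h y x52f
  have x113t : α 113 = true := tt fun y => l4293 h y x1t x272f
  have x204f : α 204 = false := ff fun y => l4292 h y x1t x272f
  have x196t : α 196 = true := tt fun y => l3702 h y x204f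
  have x53f : α 53 = false := ff fun y => c32 h x196t y x1t
  have x56t : α 56 = true := tt fun y => l3648 h x53f y
  have x59f : α 59 = false := ff fun y => c57 h x56t x1t y
  have x61t : α 61 = true := tt fun y => l3669 h x59f y
  have x335t : α 335 = true := tt fun y => l3653 h x53f y
  have x91t : α 91 = true := tt fun y => l4289 h y x272f
  have x94t : α 94 = true := tt fun y => l4285 h y x272f
  have x398t : α 398 = true := tt fun y => c3100 h y x272f x249f
  have x57t : α 57 = true := tt fun y => l4294 h y x197t x1t x272f
  have x200f : α 200 = false := ff fun y => c68 h y x57t x1t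
  have x188f : α 188 = false := ff fun y => c1435 h x398t y x57t
  have x184t : α 184 = true := tt fun y => c2767 h x272f x188f y
  have x22f : α 22 = false := ff fun y => c647 h x184t x57t y
  have x383f : α 383 = false := ff fun y => c1433 h y x184t x57t
  have x183t : α 183 = true := tt fun y => c637 h x22f x52f y
  have x114f : α 114 = false := ff fun y => c1993 h y x91t x183t
  have x19t : α 19 = true := tt fun y => c504 h x272f x188f x114f y
  have x33f : α 33 = false := ff fun y => c465 h y x19t x91t
  have x307f : α 307 = false := ff fun y => c480 h x56t x335t x19t y
  have x23f : α 23 = false := ff fun y => c460 h x19t y x113t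
  have x424t : α 424 = true := tt fun y => c2393 h x272f y x114f x307f
  have x65t : α 65 = true := tt fun y => c693 h y x23f x58f
  have x97t : α 97 = true := tt fun y => c681 h x33f x23f y
  have x264f : α 264 = false := ff fun y => c2769 h x184t y x424t
  have x250f : α 250 = false := ff fun y => c1638 h x65t x113t y
  have x237f : α 237 = false := ff fun y => c1554 h x197t x61t y x97t
  have x238t : α 238 = true := tt fun y => c3054 h x383f x264f y
  have x352t : α 352 = true := tt fun y => c1488 h x200f y x58f x250f
  have x239t : α 239 = true := tt fun y => l4230 h x237f y x52f
  c2126 h x239t x352t x94t x238t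

theorem l4296 (h : Good α) (x1t : α 1 = true) (x52f : α 52 = false) : False :=
  have x249f : α 249 = false := ff fun y => l4102 h y
  have x58f : α 58 = false := ff fun y => l4173 h y
  have x272f : α 272 = false := ff fun y => l4268 h y x52f
  have x91t : α 91 = true := tt fun y => l4289 h y x272f
  have x94t : α 94 = true := tt fun y => l4285 h y x272f
  have x54f : α 54 = false := ff fun y => c1310 h x94t y x91t
  have x204f : α 204 = false := ff fun y => l4292 h y x1t x272f
  have x196t : α 196 = true := tt fun y => l3702 h y x204f
  have x53f : α 53 = false := ff fun y => c32 h x196t y x1t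
  have x56t : α 56 = true := tt fun y => l3648 h x53f y
  have x335t : α 335 = true := tt fun y => l3653 h x53f y
  have x59f : α 59 = false := ff fun y => c57 h x56t x1t y
  have x61t : α 61 = true := tt fun y => l3669 h x59f y
  have x113t : α 113 = true := tt fun y => l4293 h y x1t x272f
  have x197f : α 197 = false := ff fun y => l4295 h y x1t x52f
  have x353t : α 353 = true := tt fun y => c2889 h y x249f x197f
  have x237t : α 237 = true := tt fun y => c2885 h x249f x197f y
  have x238t : α 238 = true := tt fun y => c2879 h x249f y x197f x204f
  have x239f : α 239 = false := ff fun y => c2022 h x353t y x237t x91t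
  have x250f : α 250 = false := ff fun y => c1983 h x94t x238t x91t y
  have x352t : α 352 = true := tt fun y => c1348 h x239f y x54f x204f
  have x97t : α 97 = true := tt fun y => c1468 h x58f y x250f
  have x535f : α 535 = false := ff fun y => c3057 h y x352t x238t
  have x92f : α 92 = false := ff fun y => c1980 h x94t y x91t x97t
  have x189f : α 189 = false := ff fun y => c2176 h x113t x97t y
  have x212f : α 212 = false := ff fun y => c2178 h y x113t x97t
  have x405t : α 405 = true := tt fun y => c1498 h y x535f x58f x250f
  have x19t : α 19 = true := tt fun y => c483 h y x58f x189f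
  have x442f : α 442 = false := ff fun y => c104 h x405t y x1t x61t
  have x307f : α 307 = false := ff fun y => c480 h x56t x335t x19t y
  have x236t : α 236 = true := tt fun y => c2073 h x442f y x92f
  have x450t : α 450 = true := tt fun y => c2960 h x212f x307f y
  have x544f : α 544 = false := ff fun y => c3022 h x236t x352t y
  have x409f : α 409 = false := ff fun y => c1559 h x61t y x97t x450t
  c1352 h x239f x544f x54f x409f

theorem l4297 (h : Good α) (x52f : α 52 = false) : False :=
  have x272f : α 272 = false := ff fun y => l4268 h y x52f
  have x94t : α 94 = true := tt fun y => l4285 h y x272f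
  have x91t : α 91 = true := tt fun y => l4289 h y x272f
  have x54f : α 54 = false := ff fun y => c1310 h x94t y x91t
  have x1f : α 1 = false := ff fun y => l4296 h y x52f
  have x53t : α 53 = true := tt fun y => c20 h y x1f x52f
  have x61t : α 61 = true := tt fun y => c39 h x54f x1f y
  l3778 h x53t x61t

theorem l4298 (h : Good α) (x54t : α 54 = true) : False :=
  have x52t : α 52 = true := tt fun y => l4297 h y
  l3640 h x54t x52t

theorem l4299 (h : Good α) (x314t : α 314 = true) : False :=
  have x52t : α 52 = true := tt fun y => l4297 h y
  l3644 h x52t x314t

theorem l4300 (h : Good α) (x250t : α 250 = true) (x272f : α 272 = false) (x1f : α 1 = false) : False :=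
  have x54f : α 54 = false := ff fun y => l4298 h y
  have x249f : α 249 = false := ff fun y => l4102 h y
  have x58f : α 58 = false := ff fun y => l4173 h y
  have x57t : α 57 = true := tt fun y => c61 h y x1f x58f
  have x398t : α 398 = true := tt fun y => c3100 h y x272f x249f
  have x188f : α 188 = false := ff fun y => c1435 h x398t y x57t
  have x184t : α 184 = true := tt fun y => c2767 h x272f x188f y
  have x383f : α 383 = false := ff fun y => c1433 h y x184t x57t
  have x94t : α 94 = true := tt fun y => l4285 h y x272f
  have x61t : α 61 = true := tt fun y => c39 h x54f x1f y
  have x59f : α 59 = false := ff fun y => l3670 h y x61t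
  have x56t : α 56 = true := tt fun y => c56 h y x1f x59f
  have x327f : α 327 = false := ff fun y => l3667 h x56t y
  have x53f : α 53 = false := ff fun y => l3778 h y x61t
  have x91t : α 91 = true := tt fun y => c37 h x54f x1f y x58f
  have x238f : α 238 = false := ff fun y => c1983 h x94t y x91t x250t
  have x264t : α 264 = true := tt fun y => c3054 h x383f y x238f
  have x23f : α 23 = false := ff fun y => l3768 h x184t x264t y x327f x272f
  have x65t : α 65 = true := tt fun y => c693 h y x23f x58f
  have x113t : α 113 = true := tt fun y => l3627 h x23f y x53f
  c1638 h x65t x113t x250t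

theorem l4301 (h : Good α) (x272f : α 272 = false) (x1f : α 1 = false) : False :=
  have x249f : α 249 = false := ff fun y => l4102 h y
  have x58f : α 58 = false := ff fun y => l4173 h y
  have x54f : α 54 = false := ff fun y => l4298 h y
  have x197t : α 197 = true := tt fun y => c41 h y x54f x1f
  have x61t : α 61 = true := tt fun y => c39 h x54f x1f y
  have x201t : α 201 = true := tt fun y => c79 h x1f x58f y
  have x57t : α 57 = true := tt fun y => c61 h y x1f x58f
  have x94t : α 94 = true := tt fun y => l4285 h y x272f
  have x92f : α 92 = false := ff fun y => c1410 h x94t x57t y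
  have x250f : α 250 = false := ff fun y => l4300 h y x272f x1f
  have x97t : α 97 = true := tt fun y => c1468 h x58f y x250f
  have x204t : α 204 = true := tt fun y => c81 h x1f y x58f x250f
  have x237f : α 237 = false := ff fun y => c1554 h x197t x61t y x97t
  have x242f : α 242 = false := ff fun y => c1557 h x61t x97t y
  have x409f : α 409 = false := ff fun y => c1579 h x61t x204t y
  have x238t : α 238 = true := tt fun y => c3027 h x249f y x237f x250f
  have x450t : α 450 = true := tt fun y => c85 h x1f x409f x58f y
  have x352f : α 352 = false := ff fun y => c2939 h y x238t x204t
  have x354f : α 354 = false := ff fun y => c1442 h x57t x238t x201t y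
  have x200t : α 200 = true := tt fun y => c1488 h y x352f x58f x250f
  have x236t : α 236 = true := tt fun y => l3411 h x354f x92f x204t y x242f
  l4274 h x236t x450t x409f x200t x54f x97t

theorem l4302 (h : Good α) (x53t : α 53 = true) (x1t : α 1 = true) : False :=
  have x52t : α 52 = true := tt fun y => l4297 h y
  c21 h x53t x1t x52t

theorem l4303 (h : Good α) (x55t : α 55 = true) (x90t : α 90 = true) (x1t : α 1 = true) : False :=
  have x52t : α 52 = true := tt fun y => l4297 h y
  c23 h x55t x1t x90t x52t

theorem l4304 (h : Good α) (x1f : α 1 = false) (x91f : α 91 = false) : False :=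
  have x58f : α 58 = false := ff fun y => l4173 h y
  have x54f : α 54 = false := ff fun y => l4298 h y
  c37 h x54f x1f x91f x58f

theorem l4305 (h : Good α) (x61f : α 61 = false) (x1f : α 1 = false) : False :=
  have x54f : α 54 = false := ff fun y => l4298 h y
  c39 h x54f x1f x61f

theorem l4306 (h : Good α) (x197f : α 197 = false) (x1f : α 1 = false) : False :=
  have x54f : α 54 = false := ff fun y => l4298 h y
  c41 h x197f x54f x1f

theorem l4307 (h : Good α) (x200f : α 200 = false) (x239f : α 239 = false) (x1f : α 1 = false) : False :=
  have x54f : α 54 = false := ff fun y => l4298 h y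
  c43 h x239f x200f x54f x1f

theorem l4308 (h : Good α) (x406f : α 406 = false) (x439f : α 439 = false) (x1f : α 1 = false) : False :=
  have x54f : α 54 = false := ff fun y => l4298 h y
  c49 h x54f x1f x439f x406f

theorem l4309 (h : Good α) (x1f : α 1 = false) (x57f : α 57 = false) : False :=
  have x58f : α 58 = false := ff fun y => l4173 h y
  c61 h x57f x1f x58f

theorem l4310 (h : Good α) (x201f : α 201 = false) (x1f : α 1 = false) : False :=
  have x58f : α 58 = false := ff fun y => l4173 h y
  c79 h x1f x58f x201f

theorem l4311 (h : Good α) (x204f : α 204 = false) (x250f : α 250 = false) (x1f : α 1 = false) : False :=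
  have x58f : α 58 = false := ff fun y => l4173 h y
  c81 h x1f x204f x58f x250f

theorem l4312 (h : Good α) (x409f : α 409 = false) (x450f : α 450 = false) (x1f : α 1 = false) : False :=
  have x58f : α 58 = false := ff fun y => l4173 h y
  c85 h x1f x409f x58f x450f

theorem l4313 (h : Good α) (x68t : α 68 = true) (x16t : α 16 = true) : False :=
  have x52t : α 52 = true := tt fun y => l4297 h y
  c343 h x68t x16t x52t

theorem l4314 (h : Good α) (x181t : α 181 = true) (x16t : α 16 = true) : False :=
  have x52t : α 52 = true := tt fun y => l4297 h y
  c347 h x16t x52t x181t

theorem l4315 (h : Good α) (x308t : α 308 = true) (x16t : α 16 = true) (x328t : α 328 = true) : False :=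
  have x52t : α 52 = true := tt fun y => l4297 h y
  c348 h x308t x16t x328t x52t

theorem l4316 (h : Good α) (x84f : α 84 = false) (x19f : α 19 = false) : False :=
  have x58f : α 58 = false := ff fun y => l4173 h y
  c481 h x84f x19f x58f

theorem l4317 (h : Good α) (x19f : α 19 = false) (x189f : α 189 = false) : False :=
  have x58f : α 58 = false := ff fun y => l4173 h y
  c483 h x19f x58f x189f

theorem l4318 (h : Good α) (x65f : α 65 = false) (x23f : α 23 = false) : False :=
  have x58f : α 58 = false := ff fun y => l4173 h y
  c693 h x65f x23f x58f

theorem l4319 (h : Good α) (x23f : α 23 = false) (x183f : α 183 = false) : False :=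
  have x58f : α 58 = false := ff fun y => l4173 h y
  c695 h x23f x58f x183f

theorem l4320 (h : Good α) (x37f : α 37 = false) (x214f : α 214 = false) (x157f : α 157 = false) : False :=
  have x314f : α 314 = false := ff fun y => l4299 h y
  c1064 h x37f x157f x214f x314f

theorem l4321 (h : Good α) (x181f : α 181 = false) (x50f : α 50 = false) (x183f : α 183 = false) : False :=
  have x58f : α 58 = false := ff fun y => l4173 h y
  c1185 h x50f x58f x181f x183f

theorem l4322 (h : Good α) (x167t : α 167 = true) (x68t : α 68 = true) : False :=
  have x52t : α 52 = true := tt fun y => l4297 h y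
  l3641 h x68t x167t x52t

theorem l4323 (h : Good α) (x68t : α 68 = true) (x175t : α 175 = true) : False :=
  have x52t : α 52 = true := tt fun y => l4297 h y
  l3642 h x68t x175t x52t

theorem l4324 (h : Good α) (x95t : α 95 = true) (x90t : α 90 = true) : False :=
  have x52t : α 52 = true := tt fun y => l4297 h y
  c1234 h x90t x52t x95t

theorem l4325 (h : Good α) (x231t : α 231 = true) (x90t : α 90 = true) (x196t : α 196 = true) : False :=
  have x52t : α 52 = true := tt fun y => l4297 h y
  c1236 h x231t x196t x90t x52t

theorem l4326 (h : Good α) (x251t : α 251 = true) (x90t : α 90 = true) : False :=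
  have x52t : α 52 = true := tt fun y => l4297 h y
  c1238 h x251t x90t x52t

theorem l4327 (h : Good α) (x326t : α 326 = true) (x146t : α 146 = true) : False :=
  have x52t : α 52 = true := tt fun y => l4297 h y
  c1242 h x326t x146t x52t

theorem l4328 (h : Good α) (x181t : α 181 = true) (x260t : α 260 = true) : False :=
  have x52t : α 52 = true := tt fun y => l4297 h y
  l3643 h x181t x260t x52t

theorem l4329 (h : Good α) (x384t : α 384 = true) (x454t : α 454 = true) : False :=
  have x52t : α 52 = true := tt fun y => l4297 h y
  l3645 h x384t x454t x52t

theorem l4330 (h : Good α) (x181t : α 181 = true) (x275t : α 275 = true) : False :=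
  have x52t : α 52 = true := tt fun y => l4297 h y
  l3646 h x181t x275t x52t

theorem l4331 (h : Good α) (x384t : α 384 = true) (x467t : α 467 = true) : False :=
  have x52t : α 52 = true := tt fun y => l4297 h y
  l3647 h x384t x467t x52t

theorem l4332 (h : Good α) (x273t : α 273 = true) (x157t : α 157 = true) (x183t : α 183 = true) : False :=
  have x52t : α 52 = true := tt fun y => l4297 h y
  c1249 h x52t x157t x183t x273t

theorem l4333 (h : Good α) (x430t : α 430 = true) (x183t : α 183 = true) (x334t : α 334 = true) : False :=
  have x52t : α 52 = true := tt fun y => l4297 h y
  c1257 h x52t x334t x183t x430t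

theorem l4334 (h : Good α) (x378t : α 378 = true) (x183t : α 183 = true) : False :=
  have x52t : α 52 = true := tt fun y => l4297 h y
  c1259 h x52t x183t x378t

theorem l4335 (h : Good α) (x94f : α 94 = false) (x91f : α 91 = false) : False :=
  have x54f : α 54 = false := ff fun y => l4298 h y
  c1309 h x94f x54f x91f

theorem l4336 (h : Good α) (x204f : α 204 = false) (x250f : α 250 = false) (x91f : α 91 = false) : False :=
  have x54f : α 54 = false := ff fun y => l4298 h y
  c1312 h x54f x204f x91f x250f

theorem l4337 (h : Good α) (x233f : α 233 = false) (x91f : α 91 = false) : False :=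
  have x54f : α 54 = false := ff fun y => l4298 h y
  c1314 h x54f x91f x233f

theorem l4338 (h : Good α) (x450f : α 450 = false) (x409f : α 409 = false) (x91f : α 91 = false) : False :=
  have x54f : α 54 = false := ff fun y => l4298 h y
  c1317 h x54f x409f x91f x450f

theorem l4339 (h : Good α) (x94f : α 94 = false) (x197f : α 197 = false) : False :=
  have x54f : α 54 = false := ff fun y => l4298 h y
  have x249f : α 249 = false := ff fun y => l4102 h y
  c1319 h x249f x94f x197f x54f

theorem l4340 (h : Good α) (x238f : α 238 = false) (x204f : α 204 = false) (x94f : α 94 = false) : False :=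
  have x54f : α 54 = false := ff fun y => l4298 h y
  c1320 h x94f x238f x54f x204f

theorem l4341 (h : Good α) (x94f : α 94 = false) (x239f : α 239 = false) : False :=
  have x54f : α 54 = false := ff fun y => l4298 h y
  c1322 h x239f x94f x54f

theorem l4342 (h : Good α) (x146f : α 146 = false) (x312f : α 312 = false) : False :=
  have x54f : α 54 = false := ff fun y => l4298 h y
  c1327 h x54f x146f x312f

theorem l4343 (h : Good α) (x187f : α 187 = false) (x393f : α 393 = false) : False :=
  have x54f : α 54 = false := ff fun y => l4298 h y
  c1334 h x393f x187f x54f

theorem l4344 (h : Good α) (x233f : α 233 = false) (x351f : α 351 = false) (x197f : α 197 = false) : False :=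
  have x54f : α 54 = false := ff fun y => l4298 h y
  c1340 h x197f x54f x351f x233f

theorem l4345 (h : Good α) (x402f : α 402 = false) (x197f : α 197 = false) : False :=
  have x54f : α 54 = false := ff fun y => l4298 h y
  c1342 h x402f x197f x54f

theorem l4346 (h : Good α) (x354f : α 354 = false) (x204f : α 204 = false) (x233f : α 233 = false) : False :=
  have x54f : α 54 = false := ff fun y => l4298 h y
  c1346 h x54f x204f x233f x354f

theorem l4347 (h : Good α) (x92f : α 92 = false) (x97f : α 97 = false) (x57f : α 57 = false) : False :=
  have x58f : α 58 = false := ff fun y => l4173 h y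
  c1399 h x57f x92f x58f x97f

theorem l4348 (h : Good α) (x237f : α 237 = false) (x57f : α 57 = false) : False :=
  have x58f : α 58 = false := ff fun y => l4173 h y
  have x249f : α 249 = false := ff fun y => l4102 h y
  c1401 h x249f x57f x237f x58f

theorem l4349 (h : Good α) (x94f : α 94 = false) (x57f : α 57 = false) : False :=
  have x249f : α 249 = false := ff fun y => l4102 h y
  c1422 h x249f x94f x57f

theorem l4350 (h : Good α) (x91f : α 91 = false) (x97f : α 97 = false) : False :=
  have x58f : α 58 = false := ff fun y => l4173 h y
  c1456 h x91f x58f x97f

theorem l4351 (h : Good α) (x236f : α 236 = false) (x200f : α 200 = false) (x97f : α 97 = false) : False :=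
  have x58f : α 58 = false := ff fun y => l4173 h y
  c1465 h x200f x236f x58f x97f

theorem l4352 (h : Good α) (x242f : α 242 = false) (x201f : α 201 = false) (x97f : α 97 = false) : False :=
  have x58f : α 58 = false := ff fun y => l4173 h y
  c1467 h x58f x97f x201f x242f

theorem l4353 (h : Good α) (x250f : α 250 = false) (x97f : α 97 = false) : False :=
  have x58f : α 58 = false := ff fun y => l4173 h y
  c1468 h x58f x97f x250f

theorem l4354 (h : Good α) (x380f : α 380 = false) (x183f : α 183 = false) : False :=
  have x58f : α 58 = false := ff fun y => l4173 h y
  c1481 h x58f x183f x380f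

theorem l4355 (h : Good α) (x353f : α 353 = false) (x200f : α 200 = false) (x237f : α 237 = false) : False :=
  have x58f : α 58 = false := ff fun y => l4173 h y
  c1486 h x353f x200f x237f x58f

theorem l4356 (h : Good α) (x352f : α 352 = false) (x200f : α 200 = false) (x250f : α 250 = false) : False :=
  have x58f : α 58 = false := ff fun y => l4173 h y
  c1488 h x200f x352f x58f x250f

theorem l4357 (h : Good α) (x201f : α 201 = false) (x406f : α 406 = false) : False :=
  have x58f : α 58 = false := ff fun y => l4173 h y
  c1491 h x58f x201f x406f

theorem l4358 (h : Good α) (x548f : α 548 = false) (x450f : α 450 = false) (x201f : α 201 = false) : False :=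
  have x58f : α 58 = false := ff fun y => l4173 h y
  c1494 h x58f x450f x201f x548f

theorem l4359 (h : Good α) (x97f : α 97 = false) (x237f : α 237 = false) (x92f : α 92 = false) : False :=
  have x249f : α 249 = false := ff fun y => l4102 h y
  c2046 h x249f x92f x237f x97f

theorem l4360 (h : Good α) (x353f : α 353 = false) (x236f : α 236 = false) (x92f : α 92 = false) : False :=
  have x249f : α 249 = false := ff fun y => l4102 h y
  c2071 h x353f x236f x249f x92f

theorem l4361 (h : Good α) (x233f : α 233 = false) (x351f : α 351 = false) (x94f : α 94 = false) : False :=
  have x249f : α 249 = false := ff fun y => l4102 h y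
  c2121 h x249f x94f x351f x233f

theorem l4362 (h : Good α) (x439f : α 439 = false) (x534f : α 534 = false) (x94f : α 94 = false) : False :=
  have x249f : α 249 = false := ff fun y => l4102 h y
  c2132 h x249f x94f x534f x439f

theorem l4363 (h : Good α) (x449f : α 449 = false) (x94f : α 94 = false) : False :=
  have x249f : α 249 = false := ff fun y => l4102 h y
  c2134 h x449f x249f x94f

theorem l4364 (h : Good α) (x429f : α 429 = false) (x106f : α 106 = false) : False :=
  have x249f : α 249 = false := ff fun y => l4102 h y
  c2287 h x429f x249f x106f

theorem l4365 (h : Good α) (x558f : α 558 = false) (x128f : α 128 = false) : False :=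
  have x314f : α 314 = false := ff fun y => l4299 h y
  c2500 h x128f x314f x558f

theorem l4366 (h : Good α) (x157f : α 157 = false) (x202f : α 202 = false) : False :=
  have x314f : α 314 = false := ff fun y => l4299 h y
  c2653 h x157f x202f x314f

theorem l4367 (h : Good α) (x238f : α 238 = false) (x197f : α 197 = false) (x204f : α 204 = false) : False :=
  have x249f : α 249 = false := ff fun y => l4102 h y
  c2879 h x249f x238f x197f x204f

theorem l4368 (h : Good α) (x237f : α 237 = false) (x197f : α 197 = false) : False :=
  have x249f : α 249 = false := ff fun y => l4102 h y
  c2885 h x249f x197f x237f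

theorem l4369 (h : Good α) (x497f : α 497 = false) (x397f : α 397 = false) (x204f : α 204 = false) : False :=
  have x314f : α 314 = false := ff fun y => l4299 h y
  c2943 h x204f x397f x314f x497f

theorem l4370 (h : Good α) (x237f : α 237 = false) (x238f : α 238 = false) (x250f : α 250 = false) : False :=
  have x249f : α 249 = false := ff fun y => l4102 h y
  c3027 h x249f x238f x237f x250f

theorem l4371 (h : Good α) (x272f : α 272 = false) (x306f : α 306 = false) : False :=
  have x249f : α 249 = false := ff fun y => l4102 h y
  c3098 h x272f x249f x306f

theorem l4372 (h : Good α) (x398f : α 398 = false) (x272f : α 272 = false) : False :=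
  have x249f : α 249 = false := ff fun y => l4102 h y
  c3100 h x398f x272f x249f

theorem l4373 (h : Good α) (x167f : α 167 = false) (x28t : α 28 = true) (x236f : α 236 = false) (x272t : α 272 = true) (x452f : α 452 = false) (x1f : α 1 = false) (x59f : α 59 = false) : False :=
  have x52t : α 52 = true := tt fun y => l4297 h y
  l3943 h x167f x452f x28t x272t x236f x52t x1f x59f

theorem l4374 (h : Good α) (x200t : α 200 = true) (x236t : α 236 = true) (x450t : α 450 = true) (x409f : α 409 = false) (x97t : α 97 = true) : False :=
  have x54f : α 54 = false := ff fun y => l4298 h y
  l4274 h x236t x450t x409f x200t x54f x97t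

theorem l4375 (h : Good α) (x238t : α 238 = true) (x97t : α 97 = true) (x94t : α 94 = true) (x1f : α 1 = false) : False :=
  have x61t : α 61 = true := tt fun y => l4305 h y x1f
  have x242f : α 242 = false := ff fun y => c1557 h x61t x97t y
  have x57t : α 57 = true := tt fun y => l4309 h x1f y
  have x92f : α 92 = false := ff fun y => c1410 h x94t x57t y
  have x91t : α 91 = true := tt fun y => l4304 h x1f y
  have x201t : α 201 = true := tt fun y => l4310 h y x1f
  have x250f : α 250 = false := ff fun y => c1983 h x94t x238t x91t y
  have x354f : α 354 = false := ff fun y => c1442 h x57t x238t x201t y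
  have x204t : α 204 = true := tt fun y => l4311 h y x250f x1f
  have x236t : α 236 = true := tt fun y => l3411 h x354f x92f x204t y x242f
  have x409f : α 409 = false := ff fun y => c1579 h x61t x204t y
  have x352f : α 352 = false := ff fun y => c2939 h y x238t x204t
  have x450t : α 450 = true := tt fun y => l4312 h x409f y x1f
  have x200t : α 200 = true := tt fun y => l4356 h x352f y x250f
  l4374 h x200t x236t x450t x409f x97t

theorem l4376 (h : Good α) (x113t : α 113 = true) (x250t : α 250 = true) (x97t : α 97 = true) : False :=
  have x65f : α 65 = false := ff fun y => c1638 h y x113t x250t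
  have x189f : α 189 = false := ff fun y => c2176 h x113t x97t y
  have x23t : α 23 = true := tt fun y => l4318 h x65f y
  have x19t : α 19 = true := tt fun y => l4317 h y x189f
  c460 h x19t x23t x113t

theorem l4377 (h : Good α) (x189f : α 189 = false) (x273f : α 273 = false) (x334t : α 334 = true) : False :=
  have x183t : α 183 = true := tt fun y => c2750 h y x189f x273f
  have x430t : α 430 = true := tt fun y => c2824 h x189f x273f y
  l4333 h x430t x183t x334t

theorem l4378 (h : Good α) (x379f : α 379 = false) (x81f : α 81 = false) (x70f : α 70 = false) (x239t : α 239 = true) (x236f : α 236 = false) : False :=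
  have x577t : α 577 = true := tt fun y => c3024 h y x379f x236f
  have x386t : α 386 = true := tt fun y => c1683 h y x379f x70f x81f
  c3068 h x577t x386t x239t

theorem l4379 (h : Good α) (x28f : α 28 = false) (x85f : α 85 = false) (x205f : α 205 = false) (x506t : α 506 = true) (x380t : α 380 = true) : False :=
  have x62t : α 62 = true := tt fun y => c850 h x205f y x28f
  have x223t : α 223 = true := tt fun y => c854 h x28f x85f y
  c1592 h x62t x223t x380t x506t

theorem l4380 (h : Good α) (x28t : α 28 = true) (x452f : α 452 = false) (x158t : α 158 = true) (x576t : α 576 = true) (x340f : α 340 = false) (x264t : α 264 = true) (x236f : α 236 = false) (x1f : α 1 = false) : False :=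
  have x272t : α 272 = true := tt fun y => l4301 h y x1f
  have x459f : α 459 = false := ff fun y => l3732 h x272t y
  have x61t : α 61 = true := tt fun y => l4305 h y x1f
  have x59f : α 59 = false := ff fun y => l3670 h y x61t
  have x10f : α 10 = false := ff fun y => l3618 h y x28t
  have x167t : α 167 = true := tt fun y => l4373 h y x28t x236f x272t x452f x1f x59f
  have x175f : α 175 = false := ff fun y => l3714 h x167t y
  have x68f : α 68 = false := ff fun y => l4322 h x167t y
  have x286t : α 286 = true := tt fun y => c2707 h x459f y x175f
  have x63t : α 63 = true := tt fun y => l4178 h x68f y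
  have x369f : α 369 = false := ff fun y => c3212 h y x286t x272t
  have x40f : α 40 = false := ff fun y => c839 h x286t y x272t x28t
  have x41t : α 41 = true := tt fun y => c1117 h x369f x175f y
  have x482t : α 482 = true := tt fun y => c186 h x452f y x10f x40f
  have x120f : α 120 = false := ff fun y => c1115 h x272t y x41t
  have x101f : α 101 = false := ff fun y => c2235 h x482t x264t y
  have x16t : α 16 = true := tt fun y => c350 h x175f x68f x120f y
  have x256t : α 256 = true := tt fun y => l3680 h x101f y
  have x181f : α 181 = false := ff fun y => l4314 h y x16t
  have x36f : α 36 = false := ff fun y => c1044 h x286t x482t y x256t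
  have x191t : α 191 = true := tt fun y => l4259 h y x181f
  have x46t : α 46 = true := tt fun y => c1019 h x120f x36f y
  have x260f : α 260 = false := ff fun y => c1610 h x63t x167t x191t y
  have x483f : α 483 = false := ff fun y => c1144 h x46t y x158t x576t
  c3163 h x260f x340f x483f

theorem l4381 (h : Good α) (x184t : α 184 = true) (x183t : α 183 = true) (x19t : α 19 = true) (x97t : α 97 = true) (x94t : α 94 = true) (x1f : α 1 = false) : False :=
  have x91t : α 91 = true := tt fun y => l4304 h x1f y
  have x57t : α 57 = true := tt fun y => l4309 h x1f y
  have x92f : α 92 = false := ff fun y => c1410 h x94t x57t y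
  have x238f : α 238 = false := ff fun y => l4375 h y x97t x94t x1f
  have x444t : α 444 = true := tt fun y => c2079 h x92f x238f y
  have x450f : α 450 = false := ff fun y => c1986 h x94t x444t x91t y
  have x61t : α 61 = true := tt fun y => l4305 h y x1f
  have x197t : α 197 = true := tt fun y => l4306 h y x1f
  have x237f : α 237 = false := ff fun y => c1554 h x197t x61t y x97t
  have x250t : α 250 = true := tt fun y => l4370 h x237f x238f y
  have x204f : α 204 = false := ff fun y => c1555 h x61t y x97t x250t
  have x334t : α 334 = true := tt fun y => l3705 h x204f y
  have x430f : α 430 = false := ff fun y => l4333 h y x183t x334t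
  have x506t : α 506 = true := tt fun y => c3374 h x450f x430f y
  have x201t : α 201 = true := tt fun y => l4310 h y x1f
  have x233f : α 233 = false := ff fun y => c1421 h x94t x57t y x201t
  have x378f : α 378 = false := ff fun y => l4334 h y x183t
  have x158t : α 158 = true := tt fun y => c2668 h y x233f x378f
  have x576t : α 576 = true := tt fun y => c3004 h x233f x378f y
  have x257f : α 257 = false := ff fun y => c494 h x19t x91t y
  have x380t : α 380 = true := tt fun y => c3036 h x237f x257f y
  have x59f : α 59 = false := ff fun y => l3670 h y x61t
  have x56t : α 56 = true := tt fun y => c56 h y x1f x59f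
  have x70f : α 70 = false := ff fun y => c473 h x56t x19t y
  have x53f : α 53 = false := ff fun y => l3778 h y x61t
  have x113f : α 113 = false := ff fun y => l4376 h y x250t x97t
  have x23t : α 23 = true := tt fun y => l3627 h y x113f x53f
  have x273f : α 273 = false := ff fun y => c707 h x23t x97t y
  have x189t : α 189 = true := tt fun y => l4377 h y x273f x334t
  have x340f : α 340 = false := ff fun y => c2183 h x97t x189t y
  have x327f : α 327 = false := ff fun y => l3667 h x56t y
  have x298t : α 298 = true := tt fun y => l3692 h x113f x327f y
  have x264t : α 264 = true := tt fun y => l3691 h x113f y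
  have x180t : α 180 = true := tt fun y => l3690 h x113f y
  have x242f : α 242 = false := ff fun y => c1557 h x61t x97t y
  have x352t : α 352 = true := tt fun y => c2938 h y x238f x204f
  have x236f : α 236 = false := ff fun y => c2188 h y x352t x97t x250t
  have x239t : α 239 = true := tt fun y => c2990 h y x236f x233f x242f
  have x81f : α 81 = false := ff fun y => c1839 h x184t x264t y x180t
  have x429f : α 429 = false := ff fun y => c719 h y x184t x298t x23t
  have x106t : α 106 = true := tt fun y => l4364 h x429f y
  have x205f : α 205 = false := ff fun y => c2103 h x94t x106t y
  have x379t : α 379 = true := tt fun y => l4378 h y x81f x70f x239t x236f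
  have x452f : α 452 = false := ff fun y => c2768 h x379t y x184t x264t
  have x28f : α 28 = false := ff fun y => l4380 h y x452f x158t x576t x340f x264t x236f x1f
  have x20t : α 20 = true := tt fun y => c521 h x92f y x28f
  have x85t : α 85 = true := tt fun y => l4379 h x28f y x205f x506t x380t
  c532 h x57t x20t x85t

theorem l4382 (h : Good α) (x183t : α 183 = true) (x19t : α 19 = true) (x97t : α 97 = true) (x94t : α 94 = true) (x1f : α 1 = false) : False :=
  have x61t : α 61 = true := tt fun y => l4305 h y x1f
  have x197t : α 197 = true := tt fun y => l4306 h y x1f
  have x237f : α 237 = false := ff fun y => c1554 h x197t x61t y x97t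
  have x91t : α 91 = true := tt fun y => l4304 h x1f y
  have x257f : α 257 = false := ff fun y => c494 h x19t x91t y
  have x380t : α 380 = true := tt fun y => c3036 h x237f x257f y
  have x59f : α 59 = false := ff fun y => l3670 h y x61t
  have x56t : α 56 = true := tt fun y => c56 h y x1f x59f
  have x70f : α 70 = false := ff fun y => c473 h x56t x19t y
  have x238f : α 238 = false := ff fun y => l4375 h y x97t x94t x1f
  have x250t : α 250 = true := tt fun y => l4370 h x237f x238f y
  have x204f : α 204 = false := ff fun y => c1555 h x61t y x97t x250t
  have x334t : α 334 = true := tt fun y => l3705 h x204f y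
  have x53f : α 53 = false := ff fun y => l3778 h y x61t
  have x113f : α 113 = false := ff fun y => l4376 h y x250t x97t
  have x23t : α 23 = true := tt fun y => l3627 h y x113f x53f
  have x273f : α 273 = false := ff fun y => c707 h x23t x97t y
  have x189t : α 189 = true := tt fun y => l4377 h y x273f x334t
  have x340f : α 340 = false := ff fun y => c2183 h x97t x189t y
  have x264t : α 264 = true := tt fun y => l3691 h x113f y
  have x180t : α 180 = true := tt fun y => l3690 h x113f y
  have x352t : α 352 = true := tt fun y => c2938 h y x238f x204f
  have x236f : α 236 = false := ff fun y => c2188 h y x352t x97t x250t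
  have x57t : α 57 = true := tt fun y => l4309 h x1f y
  have x92f : α 92 = false := ff fun y => c1410 h x94t x57t y
  have x444t : α 444 = true := tt fun y => c2079 h x92f x238f y
  have x450f : α 450 = false := ff fun y => c1986 h x94t x444t x91t y
  have x335t : α 335 = true := tt fun y => l3653 h x53f y
  have x272t : α 272 = true := tt fun y => l4301 h y x1f
  have x424f : α 424 = false := ff fun y => l3731 h y x335t x272t
  have x117t : α 117 = true := tt fun y => c2427 h x424f x238f y
  have x201t : α 201 = true := tt fun y => l4310 h y x1f
  have x233f : α 233 = false := ff fun y => c1421 h x94t x57t y x201t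
  have x188f : α 188 = false := ff fun y => l3666 h y x272t x56t
  have x378f : α 378 = false := ff fun y => l4334 h y x183t
  have x430f : α 430 = false := ff fun y => l4333 h y x183t x334t
  have x576t : α 576 = true := tt fun y => c3004 h x233f x378f y
  have x158t : α 158 = true := tt fun y => c2668 h y x233f x378f
  have x506t : α 506 = true := tt fun y => c3374 h x450f x430f y
  have x184f : α 184 = false := ff fun y => l4381 h y x183t x19t x97t x94t x1f
  have x379t : α 379 = true := tt fun y => c1294 h y x184f x53f
  have x81t : α 81 = true := tt fun y => c1681 h x188f x184f x70f y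
  have x452f : α 452 = false := ff fun y => c1841 h x379t y x81t x180t
  have x28f : α 28 = false := ff fun y => l4380 h y x452f x158t x576t x340f x264t x236f x1f
  have x20t : α 20 = true := tt fun y => c521 h x92f y x28f
  have x85f : α 85 = false := ff fun y => c532 h x57t x20t y
  have x299f : α 299 = false := ff fun y => c571 h x20t x117t y
  have x205t : α 205 = true := tt fun y => l4379 h x28f x85f y x506t x380t
  have x106t : α 106 = true := tt fun y => c2291 h y x299f x257f x430f
  c2103 h x94t x106t x205t

theorem l4383 (h : Good α) (x36f : α 36 = false) (x28f : α 28 = false) (x183f : α 183 = false) (x340f : α 340 = false) (x22f : α 22 = false) (x114f : α 114 = false) : False :=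
  have x95t : α 95 = true := tt fun y => c1032 h x36f y x114f x183f
  have x267t : α 267 = true := tt fun y => c1035 h x36f y x114f x340f
  have x90f : α 90 = false := ff fun y => l4324 h x95t y
  have x102f : α 102 = false := ff fun y => l3683 h y x267t
  c619 h x22f x28f x90f x102f

theorem l4384 (h : Good α) (x267f : α 267 = false) (x98t : α 98 = true) (x183f : α 183 = false) (x340f : α 340 = false) (x190f : α 190 = false) : False :=
  have x95t : α 95 = true := tt fun y => c2148 h y x267f x183f x340f
  have x186t : α 186 = true := tt fun y => c2791 h x190f y x267f
  c2142 h x98t x95t x186t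

theorem l4385 (h : Good α) (x28f : α 28 = false) (x19t : α 19 = true) (x97t : α 97 = true) (x94t : α 94 = true) (x1f : α 1 = false) : False :=
  have x91t : α 91 = true := tt fun y => l4304 h x1f y
  have x257f : α 257 = false := ff fun y => c494 h x19t x91t y
  have x272t : α 272 = true := tt fun y => l4301 h y x1f
  have x22f : α 22 = false := ff fun y => c657 h x272t x94t y
  have x183f : α 183 = false := ff fun y => l4382 h y x19t x97t x94t x1f
  have x106t : α 106 = true := tt fun y => c659 h y x22f x257f x183f
  have x205f : α 205 = false := ff fun y => c2103 h x94t x106t y
  have x61t : α 61 = true := tt fun y => l4305 h y x1f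
  have x197t : α 197 = true := tt fun y => l4306 h y x1f
  have x237f : α 237 = false := ff fun y => c1554 h x197t x61t y x97t
  have x238f : α 238 = false := ff fun y => l4375 h y x97t x94t x1f
  have x250t : α 250 = true := tt fun y => l4370 h x237f x238f y
  have x204f : α 204 = false := ff fun y => c1555 h x61t y x97t x250t
  have x334t : α 334 = true := tt fun y => l3705 h x204f y
  have x53f : α 53 = false := ff fun y => l3778 h y x61t
  have x113f : α 113 = false := ff fun y => l4376 h y x250t x97t
  have x23t : α 23 = true := tt fun y => l3627 h y x113f x53f
  have x273f : α 273 = false := ff fun y => c707 h x23t x97t y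
  have x189t : α 189 = true := tt fun y => l4377 h y x273f x334t
  have x340f : α 340 = false := ff fun y => c2183 h x97t x189t y
  have x57t : α 57 = true := tt fun y => l4309 h x1f y
  have x201t : α 201 = true := tt fun y => l4310 h y x1f
  have x233f : α 233 = false := ff fun y => c1421 h x94t x57t y x201t
  have x242f : α 242 = false := ff fun y => c1557 h x61t x97t y
  have x352t : α 352 = true := tt fun y => c2938 h y x238f x204f
  have x236f : α 236 = false := ff fun y => c2188 h y x352t x97t x250t
  have x239t : α 239 = true := tt fun y => c2990 h y x236f x233f x242f
  have x190f : α 190 = false := ff fun y => l3738 h y x61t x97t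
  have x92f : α 92 = false := ff fun y => c1410 h x94t x57t y
  have x114f : α 114 = false := ff fun y => l3695 h y x272t
  have x59f : α 59 = false := ff fun y => l3670 h y x61t
  have x202t : α 202 = true := tt fun y => c89 h x1f x59f y
  have x20t : α 20 = true := tt fun y => c521 h x92f y x28f
  have x487t : α 487 = true := tt fun y => c875 h x205f x28f y x340f
  have x85f : α 85 = false := ff fun y => c532 h x57t x20t y
  have x399t : α 399 = true := tt fun y => c856 h x28f x85f x340f y
  have x312f : α 312 = false := ff fun y => c2931 h y x202t x487t x399t
  have x146t : α 146 = true := tt fun y => l4342 h y x312f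
  have x179f : α 179 = false := ff fun y => c2281 h y x106t x146t
  have x80t : α 80 = true := tt fun y => c1820 h x179f y x257f x183f
  have x10f : α 10 = false := ff fun y => c199 h x239t x80t y
  have x36t : α 36 = true := tt fun y => l4383 h y x28f x183f x340f x22f x114f
  have x4f : α 4 = false := ff fun y => l3616 h y x36t
  have x74f : α 74 = false := ff fun y => l3637 h x36t y x197t
  have x98t : α 98 = true := tt fun y => c1749 h x74f y x237f x257f
  have x267t : α 267 = true := tt fun y => l4384 h y x98t x183f x340f x190f
  have x102f : α 102 = false := ff fun y => l3683 h y x267t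
  have x40t : α 40 = true := tt fun y => c837 h y x28f x102f
  have x108f : α 108 = false := ff fun y => c1100 h x40t y x267t
  have x192t : α 192 = true := tt fun y => c857 h x92f y x28f x108f
  have x282t : α 282 = true := tt fun y => c870 h x28f x108f y
  have x382f : α 382 = false := ff fun y => c1574 h y x192t x61t
  have x41f : α 41 = false := ff fun y => c1016 h y x282t x36t x267t
  have x167t : α 167 = true := tt fun y => c200 h x236f x382f x10f y
  have x175t : α 175 = true := tt fun y => c133 h y x41f x4f
  l3714 h x167t x175t

theorem l4386 (h : Good α) (x20t : α 20 = true) (x28t : α 28 = true) (x106t : α 106 = true) (x451t : α 451 = true) (x19t : α 19 = true) (x340f : α 340 = false) (x23t : α 23 = true) (x264t : α 264 = true) (x180t : α 180 = true) (x236f : α 236 = false) (x117t : α 117 = true) (x242f : α 242 = false) (x1f : α 1 = false) : False :=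
  have x10f : α 10 = false := ff fun y => l3618 h y x28t
  have x71t : α 71 = true := tt fun y => c195 h x236f y x10f
  have x61t : α 61 = true := tt fun y => l4305 h y x1f
  have x59f : α 59 = false := ff fun y => l3670 h y x61t
  have x56t : α 56 = true := tt fun y => c56 h y x1f x59f
  have x70f : α 70 = false := ff fun y => c473 h x56t x19t y
  have x272t : α 272 = true := tt fun y => l4301 h y x1f
  have x188f : α 188 = false := ff fun y => l3666 h y x272t x56t
  have x459f : α 459 = false := ff fun y => l3732 h x272t y
  have x387f : α 387 = false := ff fun y => c567 h x106t x20t x451t y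
  have x161f : α 161 = false := ff fun y => c547 h x71t y x20t x117t
  have x576t : α 576 = true := tt fun y => c3084 h x242f x387f y
  have x379t : α 379 = true := tt fun y => c2676 h y x236f x161f
  have x386f : α 386 = false := ff fun y => c463 h y x379t x19t x23t
  have x158t : α 158 = true := tt fun y => c1689 h x459f x386f y x70f
  have x452t : α 452 = true := tt fun y => l4380 h x28t y x158t x576t x340f x264t x236f x1f
  have x184f : α 184 = false := ff fun y => c2768 h x379t x452t y x264t
  have x81f : α 81 = false := ff fun y => c1841 h x379t x452t y x180t
  c1681 h x188f x184f x70f x81f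

theorem l4387 (h : Good α) (x184f : α 184 = false) (x28t : α 28 = true) (x19t : α 19 = true) (x340f : α 340 = false) (x23t : α 23 = true) (x264t : α 264 = true) (x180t : α 180 = true) (x236f : α 236 = false) (x233f : α 233 = false) (x1f : α 1 = false) : False :=
  have x61t : α 61 = true := tt fun y => l4305 h y x1f
  have x59f : α 59 = false := ff fun y => l3670 h y x61t
  have x56t : α 56 = true := tt fun y => c56 h y x1f x59f
  have x70f : α 70 = false := ff fun y => c473 h x56t x19t y
  have x272t : α 272 = true := tt fun y => l4301 h y x1f
  have x188f : α 188 = false := ff fun y => l3666 h y x272t x56t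
  have x459f : α 459 = false := ff fun y => l3732 h x272t y
  have x53f : α 53 = false := ff fun y => l3778 h y x61t
  have x201t : α 201 = true := tt fun y => l4310 h y x1f
  have x379t : α 379 = true := tt fun y => c1294 h y x184f x53f
  have x81t : α 81 = true := tt fun y => c1681 h x188f x184f x70f y
  have x386f : α 386 = false := ff fun y => c463 h y x379t x19t x23t
  have x378f : α 378 = false := ff fun y => c1844 h x81t x201t y
  have x452f : α 452 = false := ff fun y => c1841 h x379t y x81t x180t
  have x158t : α 158 = true := tt fun y => c1689 h x459f x386f y x70f
  have x576t : α 576 = true := tt fun y => c3004 h x233f x378f y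
  l4380 h x28t x452f x158t x576t x340f x264t x236f x1f

theorem l4388 (h : Good α) (x19t : α 19 = true) (x97t : α 97 = true) (x94t : α 94 = true) (x1f : α 1 = false) : False :=
  have x61t : α 61 = true := tt fun y => l4305 h y x1f
  have x197t : α 197 = true := tt fun y => l4306 h y x1f
  have x237f : α 237 = false := ff fun y => c1554 h x197t x61t y x97t
  have x238f : α 238 = false := ff fun y => l4375 h y x97t x94t x1f
  have x250t : α 250 = true := tt fun y => l4370 h x237f x238f y
  have x204f : α 204 = false := ff fun y => c1555 h x61t y x97t x250t
  have x334t : α 334 = true := tt fun y => l3705 h x204f y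
  have x53f : α 53 = false := ff fun y => l3778 h y x61t
  have x113f : α 113 = false := ff fun y => l4376 h y x250t x97t
  have x23t : α 23 = true := tt fun y => l3627 h y x113f x53f
  have x273f : α 273 = false := ff fun y => c707 h x23t x97t y
  have x189t : α 189 = true := tt fun y => l4377 h y x273f x334t
  have x340f : α 340 = false := ff fun y => c2183 h x97t x189t y
  have x264t : α 264 = true := tt fun y => l3691 h x113f y
  have x180t : α 180 = true := tt fun y => l3690 h x113f y
  have x57t : α 57 = true := tt fun y => l4309 h x1f y
  have x201t : α 201 = true := tt fun y => l4310 h y x1f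
  have x233f : α 233 = false := ff fun y => c1421 h x94t x57t y x201t
  have x242f : α 242 = false := ff fun y => c1557 h x61t x97t y
  have x352t : α 352 = true := tt fun y => c2938 h y x238f x204f
  have x236f : α 236 = false := ff fun y => c2188 h y x352t x97t x250t
  have x239t : α 239 = true := tt fun y => c2990 h y x236f x233f x242f
  have x59f : α 59 = false := ff fun y => l3670 h y x61t
  have x56t : α 56 = true := tt fun y => c56 h y x1f x59f
  have x70f : α 70 = false := ff fun y => c473 h x56t x19t y
  have x451t : α 451 = true := tt fun y => c1696 h x70f x233f y
  have x28t : α 28 = true := tt fun y => l4385 h y x19t x97t x94t x1f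
  have x184t : α 184 = true := tt fun y => l4387 h y x28t x19t x340f x23t x264t x180t x236f x233f x1f
  have x81f : α 81 = false := ff fun y => c1839 h x184t x264t y x180t
  have x158t : α 158 = true := tt fun y => c1679 h y x70f x81f
  have x379t : α 379 = true := tt fun y => l4378 h y x81f x70f x239t x236f
  have x452f : α 452 = false := ff fun y => c2768 h x379t y x184t x264t
  have x576f : α 576 = false := ff fun y => l4380 h x28t x452f x158t y x340f x264t x236f x1f
  have x387t : α 387 = true := tt fun y => c3084 h x242f y x576f
  have x378t : α 378 = true := tt fun y => c3004 h x233f y x576f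
  c3326 h x451t x378t x387t

theorem l4389 (h : Good α) (x28t : α 28 = true) (x97t : α 97 = true) (x94t : α 94 = true) (x1f : α 1 = false) : False :=
  have x272t : α 272 = true := tt fun y => l4301 h y x1f
  have x459f : α 459 = false := ff fun y => l3732 h x272t y
  have x114f : α 114 = false := ff fun y => l3695 h y x272t
  have x19f : α 19 = false := ff fun y => l4388 h y x97t x94t x1f
  have x386t : α 386 = true := tt fun y => c507 h x459f y x114f x19f
  have x61t : α 61 = true := tt fun y => l4305 h y x1f
  have x197t : α 197 = true := tt fun y => l4306 h y x1f
  have x237f : α 237 = false := ff fun y => c1554 h x197t x61t y x97t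
  have x238f : α 238 = false := ff fun y => l4375 h y x97t x94t x1f
  have x250t : α 250 = true := tt fun y => l4370 h x237f x238f y
  have x204f : α 204 = false := ff fun y => c1555 h x61t y x97t x250t
  have x352t : α 352 = true := tt fun y => c2938 h y x238f x204f
  have x236f : α 236 = false := ff fun y => c2188 h y x352t x97t x250t
  have x57t : α 57 = true := tt fun y => l4309 h x1f y
  have x201t : α 201 = true := tt fun y => l4310 h y x1f
  have x233f : α 233 = false := ff fun y => c1421 h x94t x57t y x201t
  have x242f : α 242 = false := ff fun y => c1557 h x61t x97t y
  have x239t : α 239 = true := tt fun y => c2990 h y x236f x233f x242f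
  have x577f : α 577 = false := ff fun y => c3068 h y x386t x239t
  have x379t : α 379 = true := tt fun y => c3024 h x577f y x236f
  have x452f : α 452 = false := ff fun y => c3328 h x386t x379t y
  have x334t : α 334 = true := tt fun y => l3705 h x204f y
  have x53f : α 53 = false := ff fun y => l3778 h y x61t
  have x113f : α 113 = false := ff fun y => l4376 h y x250t x97t
  have x23t : α 23 = true := tt fun y => l3627 h y x113f x53f
  have x273f : α 273 = false := ff fun y => c707 h x23t x97t y
  have x189t : α 189 = true := tt fun y => l4377 h y x273f x334t
  have x340f : α 340 = false := ff fun y => c2183 h x97t x189t y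
  have x264t : α 264 = true := tt fun y => l3691 h x113f y
  have x59f : α 59 = false := ff fun y => l3670 h y x61t
  have x10f : α 10 = false := ff fun y => l3618 h y x28t
  have x167t : α 167 = true := tt fun y => l4373 h y x28t x236f x272t x452f x1f x59f
  have x175f : α 175 = false := ff fun y => l3714 h x167t y
  have x68f : α 68 = false := ff fun y => l4322 h x167t y
  have x286t : α 286 = true := tt fun y => c2707 h x459f y x175f
  have x63t : α 63 = true := tt fun y => l4178 h x68f y
  have x107f : α 107 = false := ff fun y => c2109 h x286t y x272t x94t
  have x369f : α 369 = false := ff fun y => c3212 h y x286t x272t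
  have x40f : α 40 = false := ff fun y => c839 h x286t y x272t x28t
  have x41t : α 41 = true := tt fun y => c1117 h x369f x175f y
  have x29t : α 29 = true := tt fun y => c883 h x107f y x40f
  have x482t : α 482 = true := tt fun y => c186 h x452f y x10f x40f
  have x120f : α 120 = false := ff fun y => c1115 h x272t y x41t
  have x101f : α 101 = false := ff fun y => c2235 h x482t x264t y
  have x16t : α 16 = true := tt fun y => c350 h x175f x68f x120f y
  have x256t : α 256 = true := tt fun y => l3680 h x101f y
  have x181f : α 181 = false := ff fun y => l4314 h y x16t
  have x95f : α 95 = false := ff fun y => c335 h x29t x16t y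
  have x36f : α 36 = false := ff fun y => c1044 h x286t x482t y x256t
  have x191t : α 191 = true := tt fun y => l4259 h y x181f
  have x183t : α 183 = true := tt fun y => c1032 h x36f x95f x114f y
  have x46t : α 46 = true := tt fun y => c1019 h x120f x36f y
  have x260f : α 260 = false := ff fun y => c1610 h x63t x167t x191t y
  have x378f : α 378 = false := ff fun y => l4334 h y x183t
  have x483t : α 483 = true := tt fun y => c3163 h x260f x340f y
  have x576t : α 576 = true := tt fun y => c3004 h x233f x378f y
  have x158t : α 158 = true := tt fun y => c2668 h y x233f x378f
  c1144 h x46t x483t x158t x576t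

theorem l4390 (h : Good α) (x97t : α 97 = true) (x94t : α 94 = true) (x1f : α 1 = false) : False :=
  have x57t : α 57 = true := tt fun y => l4309 h x1f y
  have x201t : α 201 = true := tt fun y => l4310 h y x1f
  have x233f : α 233 = false := ff fun y => c1421 h x94t x57t y x201t
  have x92f : α 92 = false := ff fun y => c1410 h x94t x57t y
  have x272t : α 272 = true := tt fun y => l4301 h y x1f
  have x22f : α 22 = false := ff fun y => c657 h x272t x94t y
  have x114f : α 114 = false := ff fun y => l3695 h y x272t
  have x459f : α 459 = false := ff fun y => l3732 h x272t y
  have x61t : α 61 = true := tt fun y => l4305 h y x1f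
  have x53f : α 53 = false := ff fun y => l3778 h y x61t
  have x197t : α 197 = true := tt fun y => l4306 h y x1f
  have x91t : α 91 = true := tt fun y => l4304 h x1f y
  have x237f : α 237 = false := ff fun y => c1554 h x197t x61t y x97t
  have x242f : α 242 = false := ff fun y => c1557 h x61t x97t y
  have x190f : α 190 = false := ff fun y => l3738 h y x61t x97t
  have x423t : α 423 = true := tt fun y => c2388 h x114f x237f y
  have x238f : α 238 = false := ff fun y => l4375 h y x97t x94t x1f
  have x444t : α 444 = true := tt fun y => c2079 h x92f x238f y
  have x250t : α 250 = true := tt fun y => l4370 h x237f x238f y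
  have x450f : α 450 = false := ff fun y => c1986 h x94t x444t x91t y
  have x204f : α 204 = false := ff fun y => c1555 h x61t y x97t x250t
  have x334t : α 334 = true := tt fun y => l3705 h x204f y
  have x352t : α 352 = true := tt fun y => c2938 h y x238f x204f
  have x236f : α 236 = false := ff fun y => c2188 h y x352t x97t x250t
  have x239t : α 239 = true := tt fun y => c2990 h y x236f x233f x242f
  have x113f : α 113 = false := ff fun y => l4376 h y x250t x97t
  have x23t : α 23 = true := tt fun y => l3627 h y x113f x53f
  have x273f : α 273 = false := ff fun y => c707 h x23t x97t y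
  have x189t : α 189 = true := tt fun y => l4377 h y x273f x334t
  have x340f : α 340 = false := ff fun y => c2183 h x97t x189t y
  have x19f : α 19 = false := ff fun y => l4388 h y x97t x94t x1f
  have x386t : α 386 = true := tt fun y => c507 h x459f y x114f x19f
  have x179f : α 179 = false := ff fun y => c2715 h x386t x239t y
  have x28f : α 28 = false := ff fun y => l4389 h y x97t x94t x1f
  have x20t : α 20 = true := tt fun y => c521 h x92f y x28f
  have x85f : α 85 = false := ff fun y => c532 h x57t x20t y
  have x306f : α 306 = false := ff fun y => c576 h y x20t x423t x189t
  have x106t : α 106 = true := tt fun y => c661 h x306f y x22f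
  have x205f : α 205 = false := ff fun y => c2103 h x94t x106t y
  have x257f : α 257 = false := ff fun y => c565 h x106t x20t y x189t
  have x380t : α 380 = true := tt fun y => c3036 h x237f x257f y
  have x506f : α 506 = false := ff fun y => l4379 h x28f x85f x205f y x380t
  have x430t : α 430 = true := tt fun y => c3374 h x450f y x506f
  have x183f : α 183 = false := ff fun y => l4333 h x430t y x334t
  have x80t : α 80 = true := tt fun y => c1820 h x179f y x257f x183f
  have x36t : α 36 = true := tt fun y => l4383 h y x28f x183f x340f x22f x114f
  have x10f : α 10 = false := ff fun y => c199 h x239t x80t y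
  have x4f : α 4 = false := ff fun y => l3616 h y x36t
  have x74f : α 74 = false := ff fun y => l3637 h x36t y x197t
  have x98t : α 98 = true := tt fun y => c1749 h x74f y x237f x257f
  have x267t : α 267 = true := tt fun y => l4384 h y x98t x183f x340f x190f
  have x102f : α 102 = false := ff fun y => l3683 h y x267t
  have x40t : α 40 = true := tt fun y => c837 h y x28f x102f
  have x108f : α 108 = false := ff fun y => c1100 h x40t y x267t
  have x192t : α 192 = true := tt fun y => c857 h x92f y x28f x108f
  have x282t : α 282 = true := tt fun y => c870 h x28f x108f y
  have x382f : α 382 = false := ff fun y => c1574 h y x192t x61t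
  have x41f : α 41 = false := ff fun y => c1016 h y x282t x36t x267t
  have x167t : α 167 = true := tt fun y => c200 h x236f x382f x10f y
  have x175t : α 175 = true := tt fun y => c133 h y x41f x4f
  l3714 h x167t x175t

theorem l4391 (h : Good α) (x267t : α 267 = true) (x278t : α 278 = true) (x113f : α 113 = false) (x40t : α 40 = true) (x36t : α 36 = true) (x180t : α 180 = true) (x28f : α 28 = false) (x340f : α 340 = false) (x97f : α 97 = false) (x92f : α 92 = false) (x61t : α 61 = true) : False :=
  have x4f : α 4 = false := ff fun y => l3616 h y x36t
  have x464f : α 464 = false := ff fun y => l3722 h x267t y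
  have x108f : α 108 = false := ff fun y => c1100 h x40t y x267t
  have x192t : α 192 = true := tt fun y => c857 h x92f y x28f x108f
  have x25f : α 25 = false := ff fun y => c777 h x192t x61t y
  have x31t : α 31 = true := tt fun y => c766 h y x25f x97f
  have x274t : α 274 = true := tt fun y => c785 h x25f x97f y
  have x483f : α 483 = false := ff fun y => c947 h x31t x274t x278t y
  have x284t : α 284 = true := tt fun y => c2376 h x113f y x340f x483f
  have x46t : α 46 = true := tt fun y => c138 h x4f x464f y x483f
  have x474f : α 474 = false := ff fun y => c2721 h y x284t x180t
  have x256f : α 256 = false := ff fun y => c1021 h x36t y x46t x284t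
  l3708 h x256f x474f

theorem l4392 (h : Good α) (x113t : α 113 = true) (x180t : α 180 = true) (x70f : α 70 = false) (x23t : α 23 = true) (x264t : α 264 = true) (x188f : α 188 = false) : False :=
  have x184f : α 184 = false := ff fun y => c711 h y x264t x23t x113t
  have x81f : α 81 = false := ff fun y => c699 h x23t x113t y x180t
  c1681 h x188f x184f x70f x81f

theorem l4393 (h : Good α) (x184f : α 184 = false) (x191t : α 191 = true) (x558f : α 558 = false) (x278t : α 278 = true) (x90t : α 90 = true) (x40t : α 40 = true) (x157f : α 157 = false) (x183t : α 183 = true) (x273f : α 273 = false) (x128t : α 128 = true) (x189t : α 189 = true) (x94t : α 94 = true) (x1f : α 1 = false) : False :=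
  have x91t : α 91 = true := tt fun y => l4304 h x1f y
  have x338f : α 338 = false := ff fun y => c2011 h y x191t x91t
  have x251f : α 251 = false := ff fun y => l4326 h y x90t
  have x61t : α 61 = true := tt fun y => l4305 h y x1f
  have x59f : α 59 = false := ff fun y => l3670 h y x61t
  have x56t : α 56 = true := tt fun y => c56 h y x1f x59f
  have x57t : α 57 = true := tt fun y => l4309 h x1f y
  have x201t : α 201 = true := tt fun y => l4310 h y x1f
  have x233f : α 233 = false := ff fun y => c1421 h x94t x57t y x201t
  have x378f : α 378 = false := ff fun y => l4334 h y x183t
  have x158t : α 158 = true := tt fun y => c2668 h y x233f x378f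
  have x70f : α 70 = false := ff fun y => l3663 h y x158t x56t
  have x97f : α 97 = false := ff fun y => l4390 h y x94t x1f
  have x197t : α 197 = true := tt fun y => l4306 h y x1f
  have x92f : α 92 = false := ff fun y => c1410 h x94t x57t y
  have x237t : α 237 = true := tt fun y => l4359 h x97f y x92f
  have x250t : α 250 = true := tt fun y => l4353 h y x97f
  have x204f : α 204 = false := ff fun y => c2878 h x197t y x237t x250t
  have x354t : α 354 = true := tt fun y => l4346 h y x204f x233f
  have x238f : α 238 = false := ff fun y => c1983 h x94t y x91t x250t
  have x352t : α 352 = true := tt fun y => c2938 h y x238f x204f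
  have x200f : α 200 = false := ff fun y => c2908 h y x352t x201t x354t
  have x236t : α 236 = true := tt fun y => l4351 h y x200f x97f
  have x239t : α 239 = true := tt fun y => l4307 h x200f y x1f
  have x53f : α 53 = false := ff fun y => l3778 h y x61t
  have x335t : α 335 = true := tt fun y => l3653 h x53f y
  have x272t : α 272 = true := tt fun y => l4301 h y x1f
  have x424f : α 424 = false := ff fun y => l3731 h y x335t x272t
  have x117t : α 117 = true := tt fun y => c2427 h x424f x238f y
  have x188f : α 188 = false := ff fun y => l3666 h y x272t x56t
  have x379t : α 379 = true := tt fun y => c1294 h y x184f x53f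
  have x81t : α 81 = true := tt fun y => c1681 h x188f x184f x70f y
  have x161f : α 161 = false := ff fun y => c2677 h x379t x236t y
  have x71t : α 71 = true := tt fun y => c1502 h y x161f x59f x157f
  have x80f : α 80 = false := ff fun y => c1704 h y x71t x183t x189t
  have x118t : α 118 = true := tt fun y => c1815 h x80f y x251f
  have x227f : α 227 = false := ff fun y => c1965 h y x118t x90t
  have x29t : α 29 = true := tt fun y => c892 h x227f x80f y
  have x330t : α 330 = true := tt fun y => c1824 h y x200f x227f x80f
  have x258f : α 258 = false := ff fun y => c885 h x29t x40t y x278t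
  have x477t : α 477 = true := tt fun y => c3149 h y x338f x258f
  have x358f : α 358 = false := ff fun y => c2499 h x272t x128t x477t y
  have x42t : α 42 = true := tt fun y => c1122 h y x273f x358f x558f
  have x37f : α 37 = false := ff fun y => c1047 h x117t y x42t
  have x214t : α 214 = true := tt fun y => l4320 h x37f y x157f
  have x5t : α 5 = true := tt fun y => c147 h y x37f x157f
  have x187f : α 187 = false := ff fun y => c2110 h x94t x128t y x214t
  have x178f : α 178 = false := ff fun y => c149 h x5t x42t y
  have x393t : α 393 = true := tt fun y => l4343 h x187f y
  have x73t : α 73 = true := tt fun y => c1266 h x53f x157f y x178f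
  have x271f : α 271 = false := ff fun y => c3062 h x239t y x393t
  have x193f : α 193 = false := ff fun y => c1736 h x73t x81t y x201t
  have x431t : α 431 = true := tt fun y => c2803 h y x271f x187f
  have x50t : α 50 = true := tt fun y => c7 h x1f y x193f
  c1194 h x431t x330t x191t x50t

theorem l4394 (h : Good α) (x102f : α 102 = false) (x40t : α 40 = true) (x36t : α 36 = true) (x28f : α 28 = false) (x340f : α 340 = false) (x94t : α 94 = true) (x1f : α 1 = false) : False :=
  have x61t : α 61 = true := tt fun y => l4305 h y x1f
  have x59f : α 59 = false := ff fun y => l3670 h y x61t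
  have x56t : α 56 = true := tt fun y => c56 h y x1f x59f
  have x272t : α 272 = true := tt fun y => l4301 h y x1f
  have x188f : α 188 = false := ff fun y => l3666 h y x272t x56t
  have x91t : α 91 = true := tt fun y => l4304 h x1f y
  have x97f : α 97 = false := ff fun y => l4390 h y x94t x1f
  have x250t : α 250 = true := tt fun y => l4353 h y x97f
  have x238f : α 238 = false := ff fun y => c1983 h x94t y x91t x250t
  have x53f : α 53 = false := ff fun y => l3778 h y x61t
  have x335t : α 335 = true := tt fun y => l3653 h x53f y
  have x424f : α 424 = false := ff fun y => l3731 h y x335t x272t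
  have x117t : α 117 = true := tt fun y => c2427 h x424f x238f y
  have x57t : α 57 = true := tt fun y => l4309 h x1f y
  have x92f : α 92 = false := ff fun y => c1410 h x94t x57t y
  have x20t : α 20 = true := tt fun y => c521 h x92f y x28f
  have x299f : α 299 = false := ff fun y => c571 h x20t x117t y
  have x264t : α 264 = true := tt fun y => c3052 h y x238f x299f
  have x189t : α 189 = true := tt fun y => c2182 h x97f y x340f
  have x273f : α 273 = false := ff fun y => c569 h x20t x117t x189t y
  have x23t : α 23 = true := tt fun y => c706 h y x97f x273f
  have x201t : α 201 = true := tt fun y => l4310 h y x1f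
  have x233f : α 233 = false := ff fun y => c1421 h x94t x57t y x201t
  have x85f : α 85 = false := ff fun y => c532 h x57t x20t y
  have x223t : α 223 = true := tt fun y => c854 h x28f x85f y
  have x62t : α 62 = true := tt fun y => c847 h y x28f x85f
  have x506t : α 506 = true := tt fun y => c2202 h x97f x273f y
  have x380f : α 380 = false := ff fun y => c1592 h x62t x223t y x506t
  have x183t : α 183 = true := tt fun y => l4354 h x380f y
  have x378f : α 378 = false := ff fun y => l4334 h y x183t
  have x158t : α 158 = true := tt fun y => c2668 h y x233f x378f
  have x70f : α 70 = false := ff fun y => l3663 h y x158t x56t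
  have x197t : α 197 = true := tt fun y => l4306 h y x1f
  have x237t : α 237 = true := tt fun y => l4359 h x97f y x92f
  have x204f : α 204 = false := ff fun y => c2878 h x197t y x237t x250t
  have x354t : α 354 = true := tt fun y => l4346 h y x204f x233f
  have x242f : α 242 = false := ff fun y => c2924 h x201t y x354t
  have x114f : α 114 = false := ff fun y => l3695 h y x272t
  have x257f : α 257 = false := ff fun y => l3577 h y x237t x114f x91t
  have x334t : α 334 = true := tt fun y => l3705 h x204f y
  have x430f : α 430 = false := ff fun y => l4333 h y x183t x334t
  have x106t : α 106 = true := tt fun y => c2291 h y x299f x257f x430f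
  have x451t : α 451 = true := tt fun y => c1696 h x70f x233f y
  have x387f : α 387 = false := ff fun y => c567 h x106t x20t x451t y
  have x180t : α 180 = true := tt fun y => c2717 h y x242f x387f
  have x113f : α 113 = false := ff fun y => l4392 h y x180t x70f x23t x264t x188f
  have x399t : α 399 = true := tt fun y => c856 h x28f x85f x340f y
  have x202t : α 202 = true := tt fun y => c89 h x1f x59f y
  have x487t : α 487 = true := tt fun y => c3286 h y x380f x340f
  have x312f : α 312 = false := ff fun y => c2931 h y x202t x487t x399t
  have x146t : α 146 = true := tt fun y => l4342 h y x312f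
  have x157f : α 157 = false := ff fun y => c2275 h x106t x117t x146t y
  have x576t : α 576 = true := tt fun y => c3004 h x233f x378f y
  have x22f : α 22 = false := ff fun y => c657 h x272t x94t y
  have x128t : α 128 = true := tt fun y => c622 h x22f x28f y
  have x346f : α 346 = false := ff fun y => l3740 h x272t y
  have x196t : α 196 = true := tt fun y => c31 h y x53f x1f
  have x90t : α 90 = true := tt fun y => c619 h x22f x28f y x102f
  have x278t : α 278 = true := tt fun y => c865 h x28f x102f y
  have x95f : α 95 = false := ff fun y => l4324 h y x90t
  have x231f : α 231 = false := ff fun y => l4325 h y x90t x196t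
  have x267f : α 267 = false := ff fun y => l4391 h y x278t x113f x40t x36t x180t x28f x340f x97f x92f x61t
  have x478t : α 478 = true := tt fun y => c3195 h x267f x340f y
  have x18t : α 18 = true := tt fun y => c446 h y x95f x267f
  have x497t : α 497 = true := tt fun y => c2156 h x95f x267f y
  have x49f : α 49 = false := ff fun y => c1175 h y x180t x478t x576t
  have x259f : α 259 = false := ff fun y => c442 h x18t x91t y
  have x558f : α 558 = false := ff fun y => c444 h x18t x497t x91t y
  have x375t : α 375 = true := tt fun y => c1171 h x113f x430f x49f y
  have x304t : α 304 = true := tt fun y => c2995 h x259f x233f y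
  have x103t : α 103 = true := tt fun y => c1684 h y x70f x259f x233f
  have x115f : α 115 = false := ff fun y => c456 h x18t y x304t
  have x265t : α 265 = true := tt fun y => c2403 h x115f y x233f x378f
  have x181f : α 181 = false := ff fun y => c2725 h y x183t x265t
  have x191t : α 191 = true := tt fun y => l4259 h y x181f
  have x184t : α 184 = true := tt fun y => l4393 h y x191t x558f x278t x90t x40t x157f x183t x273f x128t x189t x94t x1f
  have x383f : α 383 = false := ff fun y => c1433 h y x184t x57t
  have x81f : α 81 = false := ff fun y => c1839 h x184t x264t y x180t
  have x79t : α 79 = true := tt fun y => c1809 h x383f x238f x231f y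
  have x145t : α 145 = true := tt fun y => c2537 h x383f x299f x231f y
  have x101f : α 101 = false := ff fun y => c1803 h y x79t x145t
  have x339f : α 339 = false := ff fun y => c1969 h x90t x145t y x375t
  have x285t : α 285 = true := tt fun y => c1163 h x346f x101f y x49f
  have x32t : α 32 = true := tt fun y => c952 h y x81f x339f x378f
  c953 h x285t x103t x32t

theorem l4395 (h : Good α) (x40t : α 40 = true) (x36t : α 36 = true) (x28f : α 28 = false) (x340f : α 340 = false) (x94t : α 94 = true) (x1f : α 1 = false) : False :=
  have x97f : α 97 = false := ff fun y => l4390 h y x94t x1f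
  have x201t : α 201 = true := tt fun y => l4310 h y x1f
  have x57t : α 57 = true := tt fun y => l4309 h x1f y
  have x233f : α 233 = false := ff fun y => c1421 h x94t x57t y x201t
  have x197t : α 197 = true := tt fun y => l4306 h y x1f
  have x92f : α 92 = false := ff fun y => c1410 h x94t x57t y
  have x237t : α 237 = true := tt fun y => l4359 h x97f y x92f
  have x250t : α 250 = true := tt fun y => l4353 h y x97f
  have x204f : α 204 = false := ff fun y => c2878 h x197t y x237t x250t
  have x354t : α 354 = true := tt fun y => l4346 h y x204f x233f
  have x91t : α 91 = true := tt fun y => l4304 h x1f y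
  have x238f : α 238 = false := ff fun y => c1983 h x94t y x91t x250t
  have x352t : α 352 = true := tt fun y => c2938 h y x238f x204f
  have x200f : α 200 = false := ff fun y => c2908 h y x352t x201t x354t
  have x236t : α 236 = true := tt fun y => l4351 h y x200f x97f
  have x61t : α 61 = true := tt fun y => l4305 h y x1f
  have x102t : α 102 = true := tt fun y => l4394 h y x40t x36t x28f x340f x94t x1f
  have x170f : α 170 = false := ff fun y => l3682 h x102t y
  have x267f : α 267 = false := ff fun y => l3683 h x102t y
  have x21f : α 21 = false := ff fun y => l3626 h y x102t x61t
  have x282t : α 282 = true := tt fun y => c3191 h y x267f x340f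
  have x478t : α 478 = true := tt fun y => c3195 h x267f x340f y
  have x262t : α 262 = true := tt fun y => c605 h y x92f x21f
  have x260f : α 260 = false := ff fun y => c2247 h x102t y x478t
  have x305f : α 305 = false := ff fun y => c3018 h y x236t x262t
  have x10f : α 10 = false := ff fun y => c185 h x236t x262t y x40t
  have x25t : α 25 = true := tt fun y => c784 h y x97f x260f x340f
  have x116t : α 116 = true := tt fun y => c616 h x305f y x21f
  have x44t : α 44 = true := tt fun y => c189 h x10f y x170f
  have x192f : α 192 = false := ff fun y => c777 h y x61t x25t
  have x343f : α 343 = false := ff fun y => c1130 h x116t y x44t x282t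
  c2069 h x92f x192f x343f

theorem l4396 (h : Good α) (x10t : α 10 = true) (x179f : α 179 = false) (x236t : α 236 = true) (x239t : α 239 = true) : False :=
  have x80f : α 80 = false := ff fun y => c199 h x239t y x10t
  have x71f : α 71 = false := ff fun y => c196 h x236t y x10t
  c1701 h x179f x80f x71f

theorem l4397 (h : Good α) (x40f : α 40 = false) (x10f : α 10 = false) (x28f : α 28 = false) : False :=
  have x102t : α 102 = true := tt fun y => c837 h x40f x28f y
  have x167t : α 167 = true := tt fun y => c183 h x10f x40f y
  have x267f : α 267 = false := ff fun y => l3683 h x102t y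
  have x108f : α 108 = false := ff fun y => l3686 h y x167t
  c1099 h x40f x108f x267f

theorem l4398 (h : Good α) (x28f : α 28 = false) (x340f : α 340 = false) (x94t : α 94 = true) (x1f : α 1 = false) : False :=
  have x97f : α 97 = false := ff fun y => l4390 h y x94t x1f
  have x189t : α 189 = true := tt fun y => c2182 h x97f y x340f
  have x201t : α 201 = true := tt fun y => l4310 h y x1f
  have x57t : α 57 = true := tt fun y => l4309 h x1f y
  have x233f : α 233 = false := ff fun y => c1421 h x94t x57t y x201t
  have x197t : α 197 = true := tt fun y => l4306 h y x1f
  have x92f : α 92 = false := ff fun y => c1410 h x94t x57t y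
  have x237t : α 237 = true := tt fun y => l4359 h x97f y x92f
  have x250t : α 250 = true := tt fun y => l4353 h y x97f
  have x204f : α 204 = false := ff fun y => c2878 h x197t y x237t x250t
  have x354t : α 354 = true := tt fun y => l4346 h y x204f x233f
  have x91t : α 91 = true := tt fun y => l4304 h x1f y
  have x238f : α 238 = false := ff fun y => c1983 h x94t y x91t x250t
  have x352t : α 352 = true := tt fun y => c2938 h y x238f x204f
  have x200f : α 200 = false := ff fun y => c2908 h y x352t x201t x354t
  have x236t : α 236 = true := tt fun y => l4351 h y x200f x97f
  have x239t : α 239 = true := tt fun y => l4307 h x200f y x1f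
  have x242f : α 242 = false := ff fun y => c2924 h x201t y x354t
  have x61t : α 61 = true := tt fun y => l4305 h y x1f
  have x53f : α 53 = false := ff fun y => l3778 h y x61t
  have x335t : α 335 = true := tt fun y => l3653 h x53f y
  have x272t : α 272 = true := tt fun y => l4301 h y x1f
  have x424f : α 424 = false := ff fun y => l3731 h y x335t x272t
  have x117t : α 117 = true := tt fun y => c2427 h x424f x238f y
  have x334t : α 334 = true := tt fun y => l3705 h x204f y
  have x114f : α 114 = false := ff fun y => l3695 h y x272t
  have x257f : α 257 = false := ff fun y => l3577 h y x237t x114f x91t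
  have x59f : α 59 = false := ff fun y => l3670 h y x61t
  have x56t : α 56 = true := tt fun y => c56 h y x1f x59f
  have x188f : α 188 = false := ff fun y => l3666 h y x272t x56t
  have x346f : α 346 = false := ff fun y => l3740 h x272t y
  have x327f : α 327 = false := ff fun y => l3667 h x56t y
  have x202t : α 202 = true := tt fun y => c89 h x1f x59f y
  have x326f : α 326 = false := ff fun y => l3726 h x197t y
  have x20t : α 20 = true := tt fun y => c521 h x92f y x28f
  have x85f : α 85 = false := ff fun y => c532 h x57t x20t y
  have x299f : α 299 = false := ff fun y => c571 h x20t x117t y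
  have x273f : α 273 = false := ff fun y => c569 h x20t x117t x189t y
  have x399t : α 399 = true := tt fun y => c856 h x28f x85f x340f y
  have x223t : α 223 = true := tt fun y => c854 h x28f x85f y
  have x62t : α 62 = true := tt fun y => c847 h y x28f x85f
  have x264t : α 264 = true := tt fun y => c3052 h y x238f x299f
  have x23t : α 23 = true := tt fun y => c706 h y x97f x273f
  have x506t : α 506 = true := tt fun y => c2202 h x97f x273f y
  have x380f : α 380 = false := ff fun y => c1592 h x62t x223t y x506t
  have x183t : α 183 = true := tt fun y => l4354 h x380f y
  have x550t : α 550 = true := tt fun y => c3143 h x257f x380f y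
  have x487t : α 487 = true := tt fun y => c3286 h y x380f x340f
  have x378f : α 378 = false := ff fun y => l4334 h y x183t
  have x430f : α 430 = false := ff fun y => l4333 h y x183t x334t
  have x312f : α 312 = false := ff fun y => c2931 h y x202t x487t x399t
  have x576t : α 576 = true := tt fun y => c3004 h x233f x378f y
  have x158t : α 158 = true := tt fun y => c2668 h y x233f x378f
  have x106t : α 106 = true := tt fun y => c2291 h y x299f x257f x430f
  have x146t : α 146 = true := tt fun y => l4342 h y x312f
  have x70f : α 70 = false := ff fun y => l3663 h y x158t x56t
  have x123f : α 123 = false := ff fun y => c1588 h x106t x62t y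
  have x157f : α 157 = false := ff fun y => c2275 h x106t x117t x146t y
  have x179f : α 179 = false := ff fun y => c2281 h y x106t x146t
  have x451t : α 451 = true := tt fun y => c1696 h x70f x233f y
  have x423t : α 423 = true := tt fun y => c2657 h x326f x157f y x273f
  have x387f : α 387 = false := ff fun y => c567 h x106t x20t x451t y
  have x180t : α 180 = true := tt fun y => c2717 h y x242f x387f
  have x113f : α 113 = false := ff fun y => l4392 h y x180t x70f x23t x264t x188f
  have x298t : α 298 = true := tt fun y => l3692 h x113f x327f y
  have x10f : α 10 = false := ff fun y => l4396 h y x179f x236t x239t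
  have x40t : α 40 = true := tt fun y => l4397 h y x10f x28f
  have x36f : α 36 = false := ff fun y => l4395 h x40t y x28f x340f x94t x1f
  have x41t : α 41 = true := tt fun y => c1013 h y x36f x114f
  have x267t : α 267 = true := tt fun y => c1035 h x36f y x114f x340f
  have x120f : α 120 = false := ff fun y => c1115 h x272t y x41t
  have x190f : α 190 = false := ff fun y => l3678 h x267t y x61t
  have x108f : α 108 = false := ff fun y => c1100 h x40t y x267t
  have x46t : α 46 = true := tt fun y => c1019 h x120f x36f y
  have x343t : α 343 = true := tt fun y => c2184 h y x190f x97f
  have x192t : α 192 = true := tt fun y => c857 h x92f y x28f x108f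
  have x282t : α 282 = true := tt fun y => c870 h x28f x108f y
  have x44t : α 44 = true := tt fun y => c843 h y x28f x108f
  have x206t : α 206 = true := tt fun y => c868 h x28f x108f x123f y
  have x483f : α 483 = false := ff fun y => c1144 h x46t y x158t x576t
  have x357f : α 357 = false := ff fun y => c2849 h x192t x343t x206t y
  have x25f : α 25 = false := ff fun y => c777 h x192t x61t y
  have x116f : α 116 = false := ff fun y => c1130 h y x343t x44t x282t
  have x260t : α 260 = true := tt fun y => c3163 h y x340f x483f
  have x274t : α 274 = true := tt fun y => c2204 h x97f y x340f x483f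
  have x284t : α 284 = true := tt fun y => c2376 h x113f y x340f x483f
  have x275f : α 275 = false := ff fun y => l3715 h x260t y
  have x181f : α 181 = false := ff fun y => l4328 h y x260t
  have x474f : α 474 = false := ff fun y => c2721 h y x284t x180t
  have x345f : α 345 = false := ff fun y => c3222 h x284t x274t y
  have x485t : α 485 = true := tt fun y => c3229 h y x346f x275f
  have x191t : α 191 = true := tt fun y => l4259 h y x181f
  have x256t : α 256 = true := tt fun y => l3708 h y x474f
  have x35t : α 35 = true := tt fun y => c1006 h y x345f x70f x387f
  have x549f : α 549 = false := ff fun y => c2012 h x191t x91t y x487t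
  have x15f : α 15 = false := ff fun y => c288 h y x256t x35t x284t
  have x555t : α 555 = true := tt fun y => c3253 h x326f x312f y x549f
  have x140t : α 140 = true := tt fun y => c293 h y x36f x15f
  have x390f : α 390 = false := ff fun y => c3045 h y x237t x555t x423t
  have x74f : α 74 = false := ff fun y => c1751 h x140t y x298t x237t
  have x411f : α 411 = false := ff fun y => c2523 h x140t y x298t x550t
  have x472t : α 472 = true := tt fun y => c791 h y x116f x390f x25f
  have x12t : α 12 = true := tt fun y => c225 h y x357f x74f x411f
  c222 h x485t x41t x472t x12t

theorem l4399 (h : Good α) (x40t : α 40 = true) (x340f : α 340 = false) (x94t : α 94 = true) (x1f : α 1 = false) : False :=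
  have x28t : α 28 = true := tt fun y => l4398 h y x340f x94t x1f
  have x91t : α 91 = true := tt fun y => l4304 h x1f y
  have x97f : α 97 = false := ff fun y => l4390 h y x94t x1f
  have x250t : α 250 = true := tt fun y => l4353 h y x97f
  have x238f : α 238 = false := ff fun y => c1983 h x94t y x91t x250t
  have x197t : α 197 = true := tt fun y => l4306 h y x1f
  have x57t : α 57 = true := tt fun y => l4309 h x1f y
  have x92f : α 92 = false := ff fun y => c1410 h x94t x57t y
  have x237t : α 237 = true := tt fun y => l4359 h x97f y x92f
  have x204f : α 204 = false := ff fun y => c2878 h x197t y x237t x250t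
  have x201t : α 201 = true := tt fun y => l4310 h y x1f
  have x233f : α 233 = false := ff fun y => c1421 h x94t x57t y x201t
  have x272t : α 272 = true := tt fun y => l4301 h y x1f
  have x346f : α 346 = false := ff fun y => l3740 h x272t y
  have x459f : α 459 = false := ff fun y => l3732 h x272t y
  have x107f : α 107 = false := ff fun y => c836 h y x40t x94t x28t
  have x286f : α 286 = false := ff fun y => c839 h y x40t x272t x28t
  have x102f : α 102 = false := ff fun y => c838 h x40t x28t y
  have x175t : α 175 = true := tt fun y => c2707 h x459f x286f y
  have x29t : α 29 = true := tt fun y => c899 h x286f x107f y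
  have x187t : α 187 = true := tt fun y => c2300 h x286f x107f x346f y
  have x521t : α 521 = true := tt fun y => c2308 h y x286f x107f
  have x120f : α 120 = false := ff fun y => l3698 h y x175t
  have x167f : α 167 = false := ff fun y => l3714 h y x175t
  have x68f : α 68 = false := ff fun y => l4323 h y x175t
  have x338f : α 338 = false := ff fun y => c2114 h x94t x187t y
  have x36t : α 36 = true := tt fun y => c1038 h x286f x120f y
  have x63t : α 63 = true := tt fun y => l4178 h x68f y
  have x477t : α 477 = true := tt fun y => c2306 h x286f x107f y x338f
  have x278f : α 278 = false := ff fun y => c880 h x272t x28t x477t y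
  have x260t : α 260 = true := tt fun y => c3161 h x278f y x340f
  have x454f : α 454 = false := ff fun y => l3721 h x260t y
  have x108f : α 108 = false := ff fun y => l3687 h y x260t
  have x181f : α 181 = false := ff fun y => l4328 h y x260t
  have x384t : α 384 = true := tt fun y => c1663 h x68f x167f y x454f
  have x16t : α 16 = true := tt fun y => c349 h x68f x167f y x108f
  have x191t : α 191 = true := tt fun y => l4259 h y x181f
  have x95f : α 95 = false := ff fun y => c335 h x29t x16t y
  have x115f : α 115 = false := ff fun y => c1999 h x191t x91t y
  have x259f : α 259 = false := ff fun y => c2794 h x187t x191t y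
  have x75t : α 75 = true := tt fun y => c1766 h y x115f x233f
  have x381t : α 381 = true := tt fun y => c2997 h y x259f x233f
  have x30f : α 30 = false := ff fun y => c913 h x63t y x75t
  have x24f : α 24 = false := ff fun y => c327 h y x16t x381t x384t
  have x18t : α 18 = true := tt fun y => c406 h x107f x24f y
  have x308t : α 308 = true := tt fun y => c758 h y x120f x24f
  have x141f : α 141 = false := ff fun y => c423 h y x36t x18t
  have x328f : α 328 = false := ff fun y => l4315 h x308t x16t y
  have x567t : α 567 = true := tt fun y => c2529 h y x328f x141f
  have x90f : α 90 = false := ff fun y => c895 h x521t x29t x567t y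
  have x214t : α 214 = true := tt fun y => c1960 h x90f x102f y
  have x128f : α 128 = false := ff fun y => c2110 h x94t y x187t x214t
  have x558t : α 558 = true := tt fun y => l4365 h y x128f
  have x497f : α 497 = false := ff fun y => c444 h x18t y x91t x558t
  have x267t : α 267 = true := tt fun y => c2156 h x95f y x497f
  have x397t : α 397 = true := tt fun y => l4369 h x497f y x204f
  have x464f : α 464 = false := ff fun y => l3722 h x267t y
  have x579f : α 579 = false := ff fun y => c3117 h y x397t x250t
  have x282t : α 282 = true := tt fun y => c2690 h x167f y x464f
  have x513t : α 513 = true := tt fun y => c2498 h x238f x579f x128f y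
  have x41f : α 41 = false := ff fun y => c1016 h y x282t x36t x267t
  have x109f : α 109 = false := ff fun y => c2332 h y x282t x513t
  c907 h x41f x30f x109f

theorem l4400 (h : Good α) (x340f : α 340 = false) (x94t : α 94 = true) (x1f : α 1 = false) : False :=
  have x97f : α 97 = false := ff fun y => l4390 h y x94t x1f
  have x57t : α 57 = true := tt fun y => l4309 h x1f y
  have x201t : α 201 = true := tt fun y => l4310 h y x1f
  have x233f : α 233 = false := ff fun y => c1421 h x94t x57t y x201t
  have x272t : α 272 = true := tt fun y => l4301 h y x1f
  have x459f : α 459 = false := ff fun y => l3732 h x272t y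
  have x61t : α 61 = true := tt fun y => l4305 h y x1f
  have x28t : α 28 = true := tt fun y => l4398 h y x340f x94t x1f
  have x10f : α 10 = false := ff fun y => l3618 h y x28t
  have x40f : α 40 = false := ff fun y => l4399 h y x340f x94t x1f
  have x167t : α 167 = true := tt fun y => c183 h x10f x40f y
  have x175f : α 175 = false := ff fun y => l3714 h x167t y
  have x108f : α 108 = false := ff fun y => l3686 h y x167t
  have x68f : α 68 = false := ff fun y => l4322 h x167t y
  have x286t : α 286 = true := tt fun y => c2707 h x459f y x175f
  have x267t : α 267 = true := tt fun y => c1099 h x40f x108f y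
  have x63t : α 63 = true := tt fun y => l4178 h x68f y
  have x107f : α 107 = false := ff fun y => c2109 h x286t y x272t x94t
  have x369f : α 369 = false := ff fun y => c3212 h y x286t x272t
  have x102f : α 102 = false := ff fun y => l3683 h y x267t
  have x41t : α 41 = true := tt fun y => c1117 h x369f x175f y
  have x187t : α 187 = true := tt fun y => c1091 h x107f x40f y x102f
  have x120f : α 120 = false := ff fun y => c1115 h x272t y x41t
  have x16t : α 16 = true := tt fun y => c350 h x175f x68f x120f y
  have x181f : α 181 = false := ff fun y => l4314 h y x16t
  have x191t : α 191 = true := tt fun y => l4259 h y x181f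
  have x275t : α 275 = true := tt fun y => c1664 h x175f x68f y x181f
  have x259f : α 259 = false := ff fun y => c2794 h x187t x191t y
  have x260f : α 260 = false := ff fun y => c1610 h x63t x167t x191t y
  have x467f : α 467 = false := ff fun y => l3735 h x275t y
  have x381t : α 381 = true := tt fun y => c2997 h y x259f x233f
  have x25t : α 25 = true := tt fun y => c784 h y x97f x260f x340f
  have x384t : α 384 = true := tt fun y => c1666 h x175f x68f x467f y
  have x454f : α 454 = false := ff fun y => c1612 h x63t x167t x381t y
  have x24f : α 24 = false := ff fun y => c327 h y x16t x381t x384t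
  have x64f : α 64 = false := ff fun y => c773 h x61t x25t y
  have x192f : α 192 = false := ff fun y => c777 h y x61t x25t
  have x50f : α 50 = false := ff fun y => c772 h x191t y x25t
  have x234t : α 234 = true := tt fun y => c1632 h x64f y x454f
  have x89t : α 89 = true := tt fun y => c1943 h x192f y x108f
  have x51t : α 51 = true := tt fun y => c729 h x24f y x192f
  have x193t : α 193 = true := tt fun y => c7 h x1f x50f y
  c1212 h x51t x89t x193t x234t

theorem l4401 (h : Good α) (x94t : α 94 = true) (x1f : α 1 = false) : False :=
  have x197t : α 197 = true := tt fun y => l4306 h y x1f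
  have x201t : α 201 = true := tt fun y => l4310 h y x1f
  have x57t : α 57 = true := tt fun y => l4309 h x1f y
  have x92f : α 92 = false := ff fun y => c1410 h x94t x57t y
  have x233f : α 233 = false := ff fun y => c1421 h x94t x57t y x201t
  have x97f : α 97 = false := ff fun y => l4390 h y x94t x1f
  have x250t : α 250 = true := tt fun y => l4353 h y x97f
  have x237t : α 237 = true := tt fun y => l4359 h x97f y x92f
  have x204f : α 204 = false := ff fun y => c2878 h x197t y x237t x250t
  have x354t : α 354 = true := tt fun y => l4346 h y x204f x233f
  have x242f : α 242 = false := ff fun y => c2924 h x201t y x354t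
  have x340t : α 340 = true := tt fun y => l4400 h y x94t x1f
  have x576f : α 576 = false := ff fun y => l3724 h x340t y
  have x387t : α 387 = true := tt fun y => c3084 h x242f y x576f
  have x378t : α 378 = true := tt fun y => c3004 h x233f y x576f
  have x70f : α 70 = false := ff fun y => c1694 h y x201t x387t
  have x451f : α 451 = false := ff fun y => c3326 h y x378t x387t
  c1696 h x70f x233f x451f

theorem l4402 (h : Good α) (x22t : α 22 = true) (x1f : α 1 = false) : False :=
  have x61t : α 61 = true := tt fun y => l4305 h y x1f
  have x59f : α 59 = false := ff fun y => l3670 h y x61t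
  have x56t : α 56 = true := tt fun y => c56 h y x1f x59f
  have x272t : α 272 = true := tt fun y => l4301 h y x1f
  have x188f : α 188 = false := ff fun y => l3666 h y x272t x56t
  have x94f : α 94 = false := ff fun y => l4401 h y x1f
  have x106t : α 106 = true := tt fun y => c2100 h x188f x94f y
  have x197t : α 197 = true := tt fun y => l4306 h y x1f
  have x326f : α 326 = false := ff fun y => l3726 h x197t y
  have x306f : α 306 = false := ff fun y => c662 h y x106t x22t
  have x20f : α 20 = false := ff fun y => c513 h x106t x22t y
  c543 h x306f x20f x326f x59f

theorem l4403 (h : Good α) (x233f : α 233 = false) (x20f : α 20 = false) (x1f : α 1 = false) : False :=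
  have x22f : α 22 = false := ff fun y => l4402 h y x1f
  have x117t : α 117 = true := tt fun y => c514 h x22f x20f y
  have x61t : α 61 = true := tt fun y => l4305 h y x1f
  have x59f : α 59 = false := ff fun y => l3670 h y x61t
  have x71t : α 71 = true := tt fun y => c536 h y x20f x59f
  have x197t : α 197 = true := tt fun y => l4306 h y x1f
  have x326f : α 326 = false := ff fun y => l3726 h x197t y
  have x306t : α 306 = true := tt fun y => c543 h y x20f x326f x59f
  have x94f : α 94 = false := ff fun y => l4401 h y x1f
  have x28t : α 28 = true := tt fun y => c620 h x94f x22f y
  have x340f : α 340 = false := ff fun y => l3636 h x28t y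
  have x56t : α 56 = true := tt fun y => c56 h y x1f x59f
  have x272t : α 272 = true := tt fun y => l4301 h y x1f
  have x188f : α 188 = false := ff fun y => l3666 h y x272t x56t
  have x341t : α 341 = true := tt fun y => c2117 h y x188f x94f
  have x106t : α 106 = true := tt fun y => c2100 h x188f x94f y
  have x114f : α 114 = false := ff fun y => l3695 h y x272t
  have x459f : α 459 = false := ff fun y => l3732 h x272t y
  have x327f : α 327 = false := ff fun y => l3667 h x56t y
  have x53f : α 53 = false := ff fun y => l3778 h y x61t
  have x351t : α 351 = true := tt fun y => l4361 h x233f y x94f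
  have x237f : α 237 = false := ff fun y => c2888 h x197t y x351t
  have x242f : α 242 = false := ff fun y => c1578 h x197t x61t x351t y
  have x423t : α 423 = true := tt fun y => c2388 h x114f x237f y
  have x92t : α 92 = true := tt fun y => c2040 h x94f y x233f x242f
  have x273f : α 273 = false := ff fun y => c2432 h x306t x117t x423t y
  have x257f : α 257 = false := ff fun y => c2294 h x306t x106t x423t y
  have x236f : α 236 = false := ff fun y => c1549 h y x92t x61t
  have x97f : α 97 = false := ff fun y => c1545 h x92t x61t y
  have x184f : α 184 = false := ff fun y => c2066 h x341t y x92t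
  have x23t : α 23 = true := tt fun y => c706 h y x97f x273f
  have x298t : α 298 = true := tt fun y => c3034 h y x237f x257f
  have x200t : α 200 = true := tt fun y => l4351 h x236f y x97f
  have x264t : α 264 = true := tt fun y => l3652 h x184f y x53f
  have x429t : α 429 = true := tt fun y => c1292 h y x184f x327f x53f
  have x386f : α 386 = false := ff fun y => c1722 h y x200t x71t
  have x113f : α 113 = false := ff fun y => c2374 h x429t x264t x298t y
  have x19t : α 19 = true := tt fun y => c507 h x459f x386f x114f y
  have x180t : α 180 = true := tt fun y => l3690 h x113f y
  l4387 h x184f x28t x19t x340f x23t x264t x180t x236f x233f x1f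

theorem l4404 (h : Good α) (x451f : α 451 = false) (x378f : α 378 = false) (x257f : α 257 = false) (x189t : α 189 = true) (x71t : α 71 = true) (x106t : α 106 = true) : False :=
  have x183t : α 183 = true := tt fun y => c2754 h x257f y x451f x378f
  have x146t : α 146 = true := tt fun y => c2553 h y x257f x451f
  have x80f : α 80 = false := ff fun y => c1704 h y x71t x183t x189t
  have x179f : α 179 = false := ff fun y => c2281 h y x106t x146t
  c1822 h x179f x80f x451f x378f

theorem l4405 (h : Good α) (x40f : α 40 = false) (x576f : α 576 = false) (x158t : α 158 = true) (x264t : α 264 = true) (x452f : α 452 = false) (x97f : α 97 = false) (x242f : α 242 = false) (x1f : α 1 = false) : False :=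
  have x94f : α 94 = false := ff fun y => l4401 h y x1f
  have x22f : α 22 = false := ff fun y => l4402 h y x1f
  have x28t : α 28 = true := tt fun y => c620 h x94f x22f y
  have x340f : α 340 = false := ff fun y => l3636 h x28t y
  have x10f : α 10 = false := ff fun y => l3618 h y x28t
  have x272t : α 272 = true := tt fun y => l4301 h y x1f
  have x114f : α 114 = false := ff fun y => l3695 h y x272t
  have x459f : α 459 = false := ff fun y => l3732 h x272t y
  have x61t : α 61 = true := tt fun y => l4305 h y x1f
  have x167t : α 167 = true := tt fun y => c183 h x10f x40f y
  have x482t : α 482 = true := tt fun y => c186 h x452f y x10f x40f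
  have x175f : α 175 = false := ff fun y => l3714 h x167t y
  have x68f : α 68 = false := ff fun y => l4322 h x167t y
  have x101f : α 101 = false := ff fun y => c2235 h x482t x264t y
  have x286t : α 286 = true := tt fun y => c2707 h x459f y x175f
  have x63t : α 63 = true := tt fun y => l4178 h x68f y
  have x256t : α 256 = true := tt fun y => l3680 h x101f y
  have x369f : α 369 = false := ff fun y => c3212 h y x286t x272t
  have x36f : α 36 = false := ff fun y => c1044 h x286t x482t y x256t
  have x41t : α 41 = true := tt fun y => c1117 h x369f x175f y
  have x285t : α 285 = true := tt fun y => c1036 h x36f x114f y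
  have x120f : α 120 = false := ff fun y => c1115 h x272t y x41t
  have x467f : α 467 = false := ff fun y => c2673 h y x285t x158t
  have x16t : α 16 = true := tt fun y => c350 h x175f x68f x120f y
  have x384t : α 384 = true := tt fun y => c1666 h x175f x68f x467f y
  have x181f : α 181 = false := ff fun y => l4314 h y x16t
  have x454f : α 454 = false := ff fun y => l4329 h x384t y
  have x191t : α 191 = true := tt fun y => l4259 h y x181f
  have x64t : α 64 = true := tt fun y => c1633 h y x242f x454f x576f
  have x260f : α 260 = false := ff fun y => c1610 h x63t x167t x191t y
  have x25f : α 25 = false := ff fun y => c773 h x61t y x64t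
  c784 h x25f x97f x260f x340f

theorem l4406 (h : Good α) (x260f : α 260 = false) (x244f : α 244 = false) (x50t : α 50 = true) (x175t : α 175 = true) : False :=
  have x68f : α 68 = false := ff fun y => l4323 h y x175t
  have x167f : α 167 = false := ff fun y => l3714 h y x175t
  have x181t : α 181 = true := tt fun y => c1661 h x68f x167f y x260f
  have x376t : α 376 = true := tt fun y => c3089 h y x260f x244f
  c1193 h x50t x181t x376t

theorem l4407 (h : Good α) (x80f : α 80 = false) (x40t : α 40 = true) (x576f : α 576 = false) (x387t : α 387 = true) (x19t : α 19 = true) (x180t : α 180 = true) (x20f : α 20 = false) (x1f : α 1 = false) : False :=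
  have x61t : α 61 = true := tt fun y => l4305 h y x1f
  have x59f : α 59 = false := ff fun y => l3670 h y x61t
  have x189t : α 189 = true := tt fun y => c541 h x20f x59f y
  have x56t : α 56 = true := tt fun y => c56 h y x1f x59f
  have x272t : α 272 = true := tt fun y => l4301 h y x1f
  have x188f : α 188 = false := ff fun y => l3666 h y x272t x56t
  have x94f : α 94 = false := ff fun y => l4401 h y x1f
  have x459f : α 459 = false := ff fun y => l3732 h x272t y
  have x22f : α 22 = false := ff fun y => l4402 h y x1f
  have x28t : α 28 = true := tt fun y => c620 h x94f x22f y
  have x286f : α 286 = false := ff fun y => c839 h y x40t x272t x28t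
  have x175t : α 175 = true := tt fun y => c2707 h x459f x286f y
  have x68f : α 68 = false := ff fun y => l4323 h y x175t
  have x63t : α 63 = true := tt fun y => l4178 h x68f y
  have x239t : α 239 = true := tt fun y => l4341 h x94f y
  have x107f : α 107 = false := ff fun y => c1607 h x239t y x63t
  have x207t : α 207 = true := tt fun y => c2107 h y x107f x94f
  have x30f : α 30 = false := ff fun y => c915 h x207t x63t y
  have x100t : α 100 = true := tt fun y => c922 h x188f y x94f x30f
  have x255f : α 255 = false := ff fun y => c496 h x100t y x19t x189t
  have x89t : α 89 = true := tt fun y => c550 h x20f y x255f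
  have x15f : α 15 = false := ff fun y => c279 h x100t y x19t
  have x24t : α 24 = true := tt fun y => c725 h x94f y x30f
  have x187t : α 187 = true := tt fun y => c2105 h x107f x94f y
  have x120f : α 120 = false := ff fun y => l3698 h y x175t
  have x36t : α 36 = true := tt fun y => c1038 h x286f x120f y
  have x167f : α 167 = false := ff fun y => l3714 h y x175t
  have x53f : α 53 = false := ff fun y => l3778 h y x61t
  have x335t : α 335 = true := tt fun y => l3653 h x53f y
  have x307f : α 307 = false := ff fun y => c480 h x56t x335t x19t y
  have x201t : α 201 = true := tt fun y => l4310 h y x1f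
  have x233t : α 233 = true := tt fun y => l4403 h y x20f x1f
  have x200f : α 200 = false := ff fun y => c2902 h x239t y x233t x201t
  have x449t : α 449 = true := tt fun y => l4363 h y x94f
  have x197t : α 197 = true := tt fun y => l4306 h y x1f
  have x326f : α 326 = false := ff fun y => l3726 h x197t y
  have x306t : α 306 = true := tt fun y => c543 h y x20f x326f x59f
  have x205f : α 205 = false := ff fun y => c2948 h x449t x306t y
  have x71t : α 71 = true := tt fun y => c536 h y x20f x59f
  have x202t : α 202 = true := tt fun y => c89 h x1f x59f y
  have x85f : α 85 = false := ff fun y => l3634 h x28t y x202t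
  have x346f : α 346 = false := ff fun y => l3740 h x272t y
  have x199f : α 199 = false := ff fun y => l3725 h x197t y
  have x29t : α 29 = true := tt fun y => c887 h x80f y x68f
  have x194t : α 194 = true := tt fun y => c1657 h x200f y x80f x68f
  have x382f : α 382 = false := ff fun y => c1617 h x63t x194t y
  have x241t : α 241 = true := tt fun y => c2688 h x382f y x167f
  have x104f : α 104 = false := ff fun y => c1710 h x71t y x241t
  have x349f : α 349 = false := ff fun y => c2864 h x194t x241t y
  have x177t : α 177 = true := tt fun y => c549 h x104f y x20f x85f
  have x269t : α 269 = true := tt fun y => c562 h y x104f x188f x20f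
  have x433f : α 433 = false := ff fun y => c1951 h y x241t x89t
  have x51f : α 51 = false := ff fun y => c1213 h x194t x241t y x89t
  have x401t : α 401 = true := tt fun y => c91 h y x433f x1f x59f
  have x50t : α 50 = true := tt fun y => c1 h x51f x1f y
  have x245t : α 245 = true := tt fun y => c16 h y x51f x199f x1f
  have x87f : α 87 = false := ff fun y => c1190 h x194t x241t x50t y
  have x348f : α 348 = false := ff fun y => c1950 h y x241t x245t x89t
  have x243t : α 243 = true := tt fun y => c1506 h x199f x59f y x87f
  have x234t : α 234 = true := tt fun y => c1508 h x59f x87f y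
  have x86f : α 86 = false := ff fun y => c1188 h x243t y x50t
  have x537f : α 537 = false := ff fun y => c1198 h y x401t x243t x50t
  have x7f : α 7 = false := ff fun y => c169 h y x180t x234t x387t
  have x533t : α 533 = true := tt fun y => c3309 h x537f y x348f x349f
  have x27t : α 27 = true := tt fun y => l3617 h x7f y
  have x244f : α 244 = false := ff fun y => c1199 h x401t x533t x50t y
  have x260t : α 260 = true := tt fun y => l4406 h y x244f x50t x175t
  have x454f : α 454 = false := ff fun y => l3721 h x260t y
  have x275f : α 275 = false := ff fun y => l3715 h x260t y
  have x108f : α 108 = false := ff fun y => l3687 h y x260t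
  have x181f : α 181 = false := ff fun y => l4328 h y x260t
  have x384t : α 384 = true := tt fun y => c1663 h x68f x167f y x454f
  have x478t : α 478 = true := tt fun y => c3384 h x454f y x576f
  have x285t : α 285 = true := tt fun y => c3226 h x346f x275f y
  have x17t : α 17 = true := tt fun y => c392 h x275f x86f y
  have x185t : α 185 = true := tt fun y => c1901 h x346f y x275f x86f
  have x16t : α 16 = true := tt fun y => c349 h x68f x167f y x108f
  have x191t : α 191 = true := tt fun y => l4259 h y x181f
  have x336t : α 336 = true := tt fun y => c1918 h y x181f x87f
  have x574f : α 574 = false := ff fun y => c3007 h y x384t x234t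
  have x267f : α 267 = false := ff fun y => c1045 h x36t y x285t x478t
  have x133f : α 133 = false := ff fun y => c375 h x17t x27t y
  have x76f : α 76 = false := ff fun y => c1782 h x269t x177t x185t y
  have x95f : α 95 = false := ff fun y => c335 h x29t x16t y
  have x381f : α 381 = false := ff fun y => c327 h x24t x16t y x384t
  have x549f : α 549 = false := ff fun y => c2848 h x191t x336t y
  have x240t : α 240 = true := tt fun y => c3073 h y x381f x574f
  have x483t : α 483 = true := tt fun y => c2319 h x108f x267f y
  have x18t : α 18 = true := tt fun y => c446 h y x95f x267f
  have x399t : α 399 = true := tt fun y => c2507 h x133f x307f x244f y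
  have x410t : α 410 = true := tt fun y => c1785 h y x76f x549f x244f
  have x468t : α 468 = true := tt fun y => c1786 h x76f x244f y
  have x88f : α 88 = false := ff fun y => c1924 h y x89t x240t x234t
  have x582f : α 582 = false := ff fun y => c1105 h x40t x177t x483t y
  have x312f : α 312 = false := ff fun y => c1388 h x185t x56t x410t y
  have x289f : α 289 = false := ff fun y => c458 h x187t x18t x410t y
  have x395f : α 395 = false := ff fun y => c3343 h y x399t x468t
  have x35t : α 35 = true := tt fun y => c284 h x88f x15f y
  have x516t : α 516 = true := tt fun y => c3242 h x289f x395f y x582f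
  have x487t : α 487 = true := tt fun y => c2949 h x205f x312f y
  c471 h x19t x35t x487t x516t

theorem l4408 (h : Good α) (x260t : α 260 = true) (x183f : α 183 = false) (x36t : α 36 = true) (x68f : α 68 = false) (x167f : α 167 = false) (x576f : α 576 = false) (x1f : α 1 = false) : False :=
  have x94f : α 94 = false := ff fun y => l4401 h y x1f
  have x22f : α 22 = false := ff fun y => l4402 h y x1f
  have x239t : α 239 = true := tt fun y => l4341 h x94f y
  have x63t : α 63 = true := tt fun y => l4178 h x68f y
  have x107f : α 107 = false := ff fun y => c1607 h x239t y x63t
  have x29t : α 29 = true := tt fun y => c628 h x107f y x94f x22f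
  have x28t : α 28 = true := tt fun y => c620 h x94f x22f y
  have x340f : α 340 = false := ff fun y => l3636 h x28t y
  have x272t : α 272 = true := tt fun y => l4301 h y x1f
  have x346f : α 346 = false := ff fun y => l3740 h x272t y
  have x454f : α 454 = false := ff fun y => l3721 h x260t y
  have x275f : α 275 = false := ff fun y => l3715 h x260t y
  have x108f : α 108 = false := ff fun y => l3687 h y x260t
  have x478t : α 478 = true := tt fun y => c3384 h x454f y x576f
  have x285t : α 285 = true := tt fun y => c3226 h x346f x275f y
  have x16t : α 16 = true := tt fun y => c349 h x68f x167f y x108f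
  have x267f : α 267 = false := ff fun y => c1045 h x36t y x285t x478t
  have x95f : α 95 = false := ff fun y => c335 h x29t x16t y
  c2148 h x95f x267f x183f x340f

theorem l4409 (h : Good α) (x576f : α 576 = false) (x387t : α 387 = true) (x158t : α 158 = true) (x19t : α 19 = true) (x180t : α 180 = true) (x97f : α 97 = false) (x20f : α 20 = false) (x1f : α 1 = false) : False :=
  have x91t : α 91 = true := tt fun y => l4304 h x1f y
  have x233t : α 233 = true := tt fun y => l4403 h y x20f x1f
  have x439f : α 439 = false := ff fun y => c2017 h x91t x233t y
  have x406t : α 406 = true := tt fun y => l4308 h y x439f x1f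
  have x57t : α 57 = true := tt fun y => l4309 h x1f y
  have x201t : α 201 = true := tt fun y => l4310 h y x1f
  have x242f : α 242 = false := ff fun y => c2920 h x233t x201t y
  have x447t : α 447 = true := tt fun y => c2195 h x97f x242f y
  have x92f : α 92 = false := ff fun y => c1418 h x57t y x406t x447t
  have x264t : α 264 = true := tt fun y => c555 h y x92f x20f
  have x61t : α 61 = true := tt fun y => l4305 h y x1f
  have x59f : α 59 = false := ff fun y => l3670 h y x61t
  have x71t : α 71 = true := tt fun y => c536 h y x20f x59f
  have x94f : α 94 = false := ff fun y => l4401 h y x1f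
  have x239t : α 239 = true := tt fun y => l4341 h x94f y
  have x200f : α 200 = false := ff fun y => c2902 h x239t y x233t x201t
  have x236t : α 236 = true := tt fun y => l4351 h y x200f x97f
  have x452f : α 452 = false := ff fun y => c1725 h y x236t x71t
  have x189t : α 189 = true := tt fun y => c541 h x20f x59f y
  have x22f : α 22 = false := ff fun y => l4402 h y x1f
  have x28t : α 28 = true := tt fun y => c620 h x94f x22f y
  have x340f : α 340 = false := ff fun y => l3636 h x28t y
  have x272t : α 272 = true := tt fun y => l4301 h y x1f
  have x114f : α 114 = false := ff fun y => l3695 h y x272t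
  have x459f : α 459 = false := ff fun y => l3732 h x272t y
  have x40t : α 40 = true := tt fun y => l4405 h y x576f x158t x264t x452f x97f x242f x1f
  have x286f : α 286 = false := ff fun y => c839 h y x40t x272t x28t
  have x175t : α 175 = true := tt fun y => c2707 h x459f x286f y
  have x120f : α 120 = false := ff fun y => l3698 h y x175t
  have x167f : α 167 = false := ff fun y => l3714 h y x175t
  have x68f : α 68 = false := ff fun y => l4323 h y x175t
  have x36t : α 36 = true := tt fun y => c1038 h x286f x120f y
  have x80t : α 80 = true := tt fun y => l4407 h y x40t x576f x387t x19t x180t x20f x1f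
  have x183f : α 183 = false := ff fun y => c1704 h x80t x71t y x189t
  have x260f : α 260 = false := ff fun y => l4408 h y x183f x36t x68f x167f x576f x1f
  have x278t : α 278 = true := tt fun y => c3161 h y x260f x340f
  have x181t : α 181 = true := tt fun y => c1661 h x68f x167f y x260f
  have x477f : α 477 = false := ff fun y => c880 h x272t x28t y x278t
  have x275f : α 275 = false := ff fun y => l4330 h x181t y
  c2395 h x477f x275f x114f

theorem l4410 (h : Good α) (x260f : α 260 = false) (x576t : α 576 = true) (x158t : α 158 = true) (x113f : α 113 = false) (x97f : α 97 = false) (x1f : α 1 = false) : False :=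
  have x94f : α 94 = false := ff fun y => l4401 h y x1f
  have x22f : α 22 = false := ff fun y => l4402 h y x1f
  have x28t : α 28 = true := tt fun y => c620 h x94f x22f y
  have x340f : α 340 = false := ff fun y => l3636 h x28t y
  have x272t : α 272 = true := tt fun y => l4301 h y x1f
  have x114f : α 114 = false := ff fun y => l3695 h y x272t
  have x61t : α 61 = true := tt fun y => l4305 h y x1f
  have x59f : α 59 = false := ff fun y => l3670 h y x61t
  have x25t : α 25 = true := tt fun y => c784 h y x97f x260f x340f
  have x483t : α 483 = true := tt fun y => c3163 h x260f x340f y
  have x27t : α 27 = true := tt fun y => c830 h y x113f x260f x340f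
  have x87f : α 87 = false := ff fun y => c763 h x27t x25t y
  have x46f : α 46 = false := ff fun y => c1144 h y x483t x158t x576t
  have x50t : α 50 = true := tt fun y => c5 h x1f x59f y x87f
  have x275t : α 275 = true := tt fun y => c1137 h y x114f x46f
  have x191f : α 191 = false := ff fun y => c772 h y x50t x25t
  have x181f : α 181 = false := ff fun y => l4330 h y x275t
  l4259 h x191f x181f

theorem l4411 (h : Good α) (x19t : α 19 = true) (x184f : α 184 = false) (x113f : α 113 = false) (x23t : α 23 = true) (x97f : α 97 = false) (x20f : α 20 = false) (x1f : α 1 = false) : False :=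
  have x180t : α 180 = true := tt fun y => l3690 h x113f y
  have x61t : α 61 = true := tt fun y => l4305 h y x1f
  have x53f : α 53 = false := ff fun y => l3778 h y x61t
  have x59f : α 59 = false := ff fun y => l3670 h y x61t
  have x71t : α 71 = true := tt fun y => c536 h y x20f x59f
  have x201t : α 201 = true := tt fun y => l4310 h y x1f
  have x94f : α 94 = false := ff fun y => l4401 h y x1f
  have x239t : α 239 = true := tt fun y => l4341 h x94f y
  have x233t : α 233 = true := tt fun y => l4403 h y x20f x1f
  have x200f : α 200 = false := ff fun y => c2902 h x239t y x233t x201t
  have x236t : α 236 = true := tt fun y => l4351 h y x200f x97f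
  have x452f : α 452 = false := ff fun y => c1725 h y x236t x71t
  have x379t : α 379 = true := tt fun y => l3654 h y x452f x53f
  have x22f : α 22 = false := ff fun y => l4402 h y x1f
  have x28t : α 28 = true := tt fun y => c620 h x94f x22f y
  have x340f : α 340 = false := ff fun y => l3636 h x28t y
  have x56t : α 56 = true := tt fun y => c56 h y x1f x59f
  have x272t : α 272 = true := tt fun y => l4301 h y x1f
  have x188f : α 188 = false := ff fun y => l3666 h y x272t x56t
  have x114f : α 114 = false := ff fun y => l3695 h y x272t
  have x459f : α 459 = false := ff fun y => l3732 h x272t y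
  have x70f : α 70 = false := ff fun y => c473 h x56t x19t y
  have x386f : α 386 = false := ff fun y => c463 h y x379t x19t x23t
  have x81t : α 81 = true := tt fun y => c1681 h x188f x184f x70f y
  have x158t : α 158 = true := tt fun y => c1689 h x459f x386f y x70f
  have x378f : α 378 = false := ff fun y => c1844 h x81t x201t y
  have x387t : α 387 = true := tt fun y => c516 h x22f x20f x378f y
  have x576t : α 576 = true := tt fun y => l4409 h y x387t x158t x19t x180t x97f x20f x1f
  have x260t : α 260 = true := tt fun y => l4410 h y x576t x158t x113f x97f x1f
  have x275f : α 275 = false := ff fun y => l3715 h x260t y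
  have x477t : α 477 = true := tt fun y => c2395 h y x275f x114f
  have x46t : α 46 = true := tt fun y => c1137 h x275f x114f y
  have x278f : α 278 = false := ff fun y => c880 h x272t x28t x477t y
  have x483f : α 483 = false := ff fun y => c1144 h x46t y x158t x576t
  have x31t : α 31 = true := tt fun y => c943 h y x97f x278f x340f
  have x39t : α 39 = true := tt fun y => c1082 h y x113f x278f x340f
  have x274t : α 274 = true := tt fun y => c2204 h x97f y x340f x483f
  have x284t : α 284 = true := tt fun y => c2376 h x113f y x340f x483f
  c934 h x39t x284t x31t x274t

theorem l4412 (h : Good α) (x260t : α 260 = true) (x19f : α 19 = false) (x113f : α 113 = false) (x264t : α 264 = true) (x1f : α 1 = false) : False :=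
  have x61t : α 61 = true := tt fun y => l4305 h y x1f
  have x59f : α 59 = false := ff fun y => l3670 h y x61t
  have x56t : α 56 = true := tt fun y => c56 h y x1f x59f
  have x272t : α 272 = true := tt fun y => l4301 h y x1f
  have x188f : α 188 = false := ff fun y => l3666 h y x272t x56t
  have x254t : α 254 = true := tt fun y => l4084 h y x188f x19f x56t
  have x94f : α 94 = false := ff fun y => l4401 h y x1f
  have x22f : α 22 = false := ff fun y => l4402 h y x1f
  have x28t : α 28 = true := tt fun y => c620 h x94f x22f y
  have x340f : α 340 = false := ff fun y => l3636 h x28t y
  have x346f : α 346 = false := ff fun y => l3740 h x272t y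
  have x114f : α 114 = false := ff fun y => l3695 h y x272t
  have x91t : α 91 = true := tt fun y => l4304 h x1f y
  have x454f : α 454 = false := ff fun y => l3721 h x260t y
  have x275f : α 275 = false := ff fun y => l3715 h x260t y
  have x181f : α 181 = false := ff fun y => l4328 h y x260t
  have x285t : α 285 = true := tt fun y => c3226 h x346f x275f y
  have x485t : α 485 = true := tt fun y => c3229 h y x346f x275f
  have x477t : α 477 = true := tt fun y => c2395 h y x275f x114f
  have x191t : α 191 = true := tt fun y => l4259 h y x181f
  have x120f : α 120 = false := ff fun y => c2458 h x485t x272t y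
  have x278f : α 278 = false := ff fun y => c880 h x272t x28t x477t y
  have x338f : α 338 = false := ff fun y => c2011 h y x191t x91t
  have x16t : α 16 = true := tt fun y => c360 h x120f y x275f x181f
  have x39t : α 39 = true := tt fun y => c1082 h y x113f x278f x340f
  have x187t : α 187 = true := tt fun y => c2113 h x94f y x338f
  have x68f : α 68 = false := ff fun y => l4313 h y x16t
  have x101f : α 101 = false := ff fun y => c1079 h x264t y x39t
  have x271f : α 271 = false := ff fun y => c2796 h y x187t x191t
  have x63t : α 63 = true := tt fun y => l4178 h x68f y
  have x164t : α 164 = true := tt fun y => l3679 h x101f y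
  have x344t : α 344 = true := tt fun y => c2115 h y x188f x271f x94f
  have x167f : α 167 = false := ff fun y => c1610 h x63t y x191t x260t
  have x580f : α 580 = false := ff fun y => c1089 h y x164t x477t x39t
  have x385f : α 385 = false := ff fun y => c1086 h y x164t x254t x39t
  have x103f : α 103 = false := ff fun y => c2261 h x485t x344t x285t y
  have x384t : α 384 = true := tt fun y => c1663 h x68f x167f y x454f
  have x293t : α 293 = true := tt fun y => c500 h x19f x103f y
  have x467f : α 467 = false := ff fun y => l4331 h x384t y
  have x240f : α 240 = false := ff fun y => c3071 h x254t y x293t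
  c3074 h x580f x385f x467f x240f

theorem l4413 (h : Good α) (x260f : α 260 = false) (x113f : α 113 = false) (x97f : α 97 = false) (x1f : α 1 = false) : False :=
  have x94f : α 94 = false := ff fun y => l4401 h y x1f
  have x22f : α 22 = false := ff fun y => l4402 h y x1f
  have x28t : α 28 = true := tt fun y => c620 h x94f x22f y
  have x340f : α 340 = false := ff fun y => l3636 h x28t y
  have x272t : α 272 = true := tt fun y => l4301 h y x1f
  have x114f : α 114 = false := ff fun y => l3695 h y x272t
  have x61t : α 61 = true := tt fun y => l4305 h y x1f
  have x59f : α 59 = false := ff fun y => l3670 h y x61t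
  have x25t : α 25 = true := tt fun y => c784 h y x97f x260f x340f
  have x278t : α 278 = true := tt fun y => c3161 h y x260f x340f
  have x27t : α 27 = true := tt fun y => c830 h y x113f x260f x340f
  have x87f : α 87 = false := ff fun y => c763 h x27t x25t y
  have x477f : α 477 = false := ff fun y => c880 h x272t x28t y x278t
  have x50t : α 50 = true := tt fun y => c5 h x1f x59f y x87f
  have x275t : α 275 = true := tt fun y => c2395 h x477f y x114f
  have x191f : α 191 = false := ff fun y => c772 h y x50t x25t
  have x181f : α 181 = false := ff fun y => l4330 h y x275t
  l4259 h x191f x181f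

theorem l4414 (h : Good α) (x113f : α 113 = false) (x23t : α 23 = true) (x97f : α 97 = false) (x20f : α 20 = false) (x1f : α 1 = false) : False :=
  have x61t : α 61 = true := tt fun y => l4305 h y x1f
  have x53f : α 53 = false := ff fun y => l3778 h y x61t
  have x59f : α 59 = false := ff fun y => l3670 h y x61t
  have x71t : α 71 = true := tt fun y => c536 h y x20f x59f
  have x201t : α 201 = true := tt fun y => l4310 h y x1f
  have x94f : α 94 = false := ff fun y => l4401 h y x1f
  have x239t : α 239 = true := tt fun y => l4341 h x94f y
  have x233t : α 233 = true := tt fun y => l4403 h y x20f x1f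
  have x200f : α 200 = false := ff fun y => c2902 h x239t y x233t x201t
  have x236t : α 236 = true := tt fun y => l4351 h y x200f x97f
  have x452f : α 452 = false := ff fun y => c1725 h y x236t x71t
  have x379t : α 379 = true := tt fun y => l3654 h y x452f x53f
  have x91t : α 91 = true := tt fun y => l4304 h x1f y
  have x439f : α 439 = false := ff fun y => c2017 h x91t x233t y
  have x406t : α 406 = true := tt fun y => l4308 h y x439f x1f
  have x57t : α 57 = true := tt fun y => l4309 h x1f y
  have x242f : α 242 = false := ff fun y => c2920 h x233t x201t y
  have x447t : α 447 = true := tt fun y => c2195 h x97f x242f y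
  have x92f : α 92 = false := ff fun y => c1418 h x57t y x406t x447t
  have x264t : α 264 = true := tt fun y => c555 h y x92f x20f
  have x22f : α 22 = false := ff fun y => l4402 h y x1f
  have x28t : α 28 = true := tt fun y => c620 h x94f x22f y
  have x340f : α 340 = false := ff fun y => l3636 h x28t y
  have x272t : α 272 = true := tt fun y => l4301 h y x1f
  have x346f : α 346 = false := ff fun y => l3740 h x272t y
  have x114f : α 114 = false := ff fun y => l3695 h y x272t
  have x459f : α 459 = false := ff fun y => l3732 h x272t y
  have x56t : α 56 = true := tt fun y => c56 h y x1f x59f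
  have x180t : α 180 = true := tt fun y => l3690 h x113f y
  have x260t : α 260 = true := tt fun y => l4413 h y x113f x97f x1f
  have x275f : α 275 = false := ff fun y => l3715 h x260t y
  have x181f : α 181 = false := ff fun y => l4328 h y x260t
  have x19t : α 19 = true := tt fun y => l4412 h x260t y x113f x264t x1f
  have x477t : α 477 = true := tt fun y => c2395 h y x275f x114f
  have x46t : α 46 = true := tt fun y => c1137 h x275f x114f y
  have x191t : α 191 = true := tt fun y => l4259 h y x181f
  have x70f : α 70 = false := ff fun y => c473 h x56t x19t y
  have x386f : α 386 = false := ff fun y => c463 h y x379t x19t x23t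
  have x184t : α 184 = true := tt fun y => l4411 h x19t y x113f x23t x97f x20f x1f
  have x278f : α 278 = false := ff fun y => c880 h x272t x28t x477t y
  have x86f : α 86 = false := ff fun y => c487 h y x19t x191t x91t
  have x158t : α 158 = true := tt fun y => c1689 h x459f x386f y x70f
  have x81f : α 81 = false := ff fun y => c1839 h x184t x264t y x180t
  have x39t : α 39 = true := tt fun y => c1082 h y x113f x278f x340f
  have x17t : α 17 = true := tt fun y => c392 h x275f x86f y
  have x185t : α 185 = true := tt fun y => c1901 h x346f y x275f x86f
  have x362f : α 362 = false := ff fun y => c1143 h x46t x158t y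
  have x101f : α 101 = false := ff fun y => c1079 h x264t y x39t
  have x119f : α 119 = false := ff fun y => c367 h x17t x23t y
  have x216t : α 216 = true := tt fun y => c1906 h x275f x86f x362f y
  have x14t : α 14 = true := tt fun y => l3619 h x101f y x59f
  have x137t : α 137 = true := tt fun y => c1832 h x119f x81f y
  have x55f : α 55 = false := ff fun y => c254 h x185t y x14t
  have x96f : α 96 = false := ff fun y => c2163 h x185t y x216t x137t
  c28 h x96f x53f x55f x1f

theorem l4415 (h : Good α) (x23t : α 23 = true) (x97f : α 97 = false) (x20f : α 20 = false) (x1f : α 1 = false) : False :=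
  have x61t : α 61 = true := tt fun y => l4305 h y x1f
  have x53f : α 53 = false := ff fun y => l3778 h y x61t
  have x335t : α 335 = true := tt fun y => l3653 h x53f y
  have x272t : α 272 = true := tt fun y => l4301 h y x1f
  have x424f : α 424 = false := ff fun y => l3731 h y x335t x272t
  have x59f : α 59 = false := ff fun y => l3670 h y x61t
  have x56t : α 56 = true := tt fun y => c56 h y x1f x59f
  have x188f : α 188 = false := ff fun y => l3666 h y x272t x56t
  have x113t : α 113 = true := tt fun y => l4414 h y x23t x97f x20f x1f
  have x19f : α 19 = false := ff fun y => c460 h y x23t x113t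
  have x307f : α 307 = false := ff fun y => c712 h x23t x113t y
  c508 h x188f x424f x19f x307f

theorem l4416 (h : Good α) (x97f : α 97 = false) (x20f : α 20 = false) (x1f : α 1 = false) : False :=
  have x61t : α 61 = true := tt fun y => l4305 h y x1f
  have x53f : α 53 = false := ff fun y => l3778 h y x61t
  have x250t : α 250 = true := tt fun y => l4353 h y x97f
  have x23f : α 23 = false := ff fun y => l4415 h y x97f x20f x1f
  have x65t : α 65 = true := tt fun y => l4318 h y x23f
  have x113t : α 113 = true := tt fun y => l3627 h x23f y x53f
  c1638 h x65t x113t x250t

theorem l4417 (h : Good α) (x260t : α 260 = true) (x380t : α 380 = true) (x23t : α 23 = true) (x237f : α 237 = false) (x114f : α 114 = false) : False :=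
  have x275f : α 275 = false := ff fun y => l3715 h x260t y
  have x181f : α 181 = false := ff fun y => l4328 h y x260t
  have x390t : α 390 = true := tt fun y => c2387 h x275f x114f y x237f
  have x191t : α 191 = true := tt fun y => l4259 h y x181f
  have x50f : α 50 = false := ff fun y => c1196 h x390t x191t y
  have x376t : α 376 = true := tt fun y => c1192 h x50f x181f y
  have x17t : α 17 = true := tt fun y => c382 h y x50f x181f
  c369 h x17t x23t x376t x380t

theorem l4418 (h : Good α) (x19t : α 19 = true) (x20f : α 20 = false) (x1f : α 1 = false) : False :=
  have x91t : α 91 = true := tt fun y => l4304 h x1f y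
  have x272t : α 272 = true := tt fun y => l4301 h y x1f
  have x114f : α 114 = false := ff fun y => l3695 h y x272t
  have x94f : α 94 = false := ff fun y => l4401 h y x1f
  have x22f : α 22 = false := ff fun y => l4402 h y x1f
  have x28t : α 28 = true := tt fun y => c620 h x94f x22f y
  have x340f : α 340 = false := ff fun y => l3636 h x28t y
  have x61t : α 61 = true := tt fun y => l4305 h y x1f
  have x197t : α 197 = true := tt fun y => l4306 h y x1f
  have x97t : α 97 = true := tt fun y => l4416 h y x20f x1f
  have x237f : α 237 = false := ff fun y => c1554 h x197t x61t y x97t
  have x53f : α 53 = false := ff fun y => l3778 h y x61t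
  have x59f : α 59 = false := ff fun y => l3670 h y x61t
  have x189t : α 189 = true := tt fun y => c541 h x20f x59f y
  have x113f : α 113 = false := ff fun y => c2176 h y x97t x189t
  have x23t : α 23 = true := tt fun y => l3627 h y x113f x53f
  have x326f : α 326 = false := ff fun y => l3726 h x197t y
  have x306t : α 306 = true := tt fun y => c543 h y x20f x326f x59f
  have x56t : α 56 = true := tt fun y => c56 h y x1f x59f
  have x188f : α 188 = false := ff fun y => l3666 h y x272t x56t
  have x106t : α 106 = true := tt fun y => c2100 h x188f x94f y
  have x423t : α 423 = true := tt fun y => c2388 h x114f x237f y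
  have x257f : α 257 = false := ff fun y => c2294 h x306t x106t x423t y
  have x380t : α 380 = true := tt fun y => c3036 h x237f x257f y
  have x260f : α 260 = false := ff fun y => l4417 h y x380t x23t x237f x114f
  have x278t : α 278 = true := tt fun y => c3161 h y x260f x340f
  have x477f : α 477 = false := ff fun y => c880 h x272t x28t y x278t
  have x275t : α 275 = true := tt fun y => c2395 h x477f y x114f
  have x181f : α 181 = false := ff fun y => l4330 h y x275t
  have x191t : α 191 = true := tt fun y => l4259 h y x181f
  have x338f : α 338 = false := ff fun y => c2011 h y x191t x91t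
  have x187t : α 187 = true := tt fun y => c2113 h x94f y x338f
  have x271f : α 271 = false := ff fun y => c2796 h y x187t x191t
  have x24t : α 24 = true := tt fun y => c747 h x271f x94f y
  have x102f : α 102 = false := ff fun y => c866 h x28t y x278t
  have x44t : α 44 = true := tt fun y => c1127 h y x102f x260f
  have x108f : α 108 = false := ff fun y => c844 h x44t x28t y
  have x16t : α 16 = true := tt fun y => c355 h y x108f x181f x260f
  have x467f : α 467 = false := ff fun y => l3735 h x275t y
  have x68f : α 68 = false := ff fun y => l4313 h y x16t
  have x63t : α 63 = true := tt fun y => l4178 h x68f y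
  have x175f : α 175 = false := ff fun y => c1614 h y x63t x275t x191t
  have x384t : α 384 = true := tt fun y => c1666 h x175f x68f x467f y
  have x381f : α 381 = false := ff fun y => c327 h x24t x16t y x384t
  have x489t : α 489 = true := tt fun y => c3277 h x338f x381f y
  have x239t : α 239 = true := tt fun y => l4341 h x94f y
  have x107f : α 107 = false := ff fun y => c1607 h x239t y x63t
  have x207t : α 207 = true := tt fun y => c2107 h y x107f x94f
  have x30f : α 30 = false := ff fun y => c915 h x207t x63t y
  have x100t : α 100 = true := tt fun y => c922 h x188f y x94f x30f
  have x413t : α 413 = true := tt fun y => c2732 h x181f x260f y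
  have x291f : α 291 = false := ff fun y => c761 h x24t y x191t x413t
  have x199f : α 199 = false := ff fun y => l3725 h x197t y
  have x425f : α 425 = false := ff fun y => c2846 h y x275t x191t
  have x308t : α 308 = true := tt fun y => c2318 h y x108f x425f x260f
  have x328f : α 328 = false := ff fun y => l4315 h x308t x16t y
  have x153t : α 153 = true := tt fun y => c2620 h x328f x199f y
  have x518t : α 518 = true := tt fun y => c3397 h x477f x467f y
  have x120f : α 120 = false := ff fun y => l3699 h y x275t
  have x117t : α 117 = true := tt fun y => c514 h x22f x20f y
  have x273f : α 273 = false := ff fun y => c2432 h x306t x117t x423t y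
  have x202t : α 202 = true := tt fun y => c89 h x1f x59f y
  have x15f : α 15 = false := ff fun y => c279 h x100t y x19t
  have x255f : α 255 = false := ff fun y => c496 h x100t y x19t x189t
  have x89t : α 89 = true := tt fun y => c550 h x20f y x255f
  have x276f : α 276 = false := ff fun y => c352 h x16t x89t y
  have x246t : α 246 = true := tt fun y => c3093 h x276f y x291f
  have x51f : α 51 = false := ff fun y => c1214 h y x89t x246t
  have x244f : α 244 = false := ff fun y => c2929 h x246t x202t y
  have x88f : α 88 = false := ff fun y => c1376 h y x246t x56t x202t
  have x50t : α 50 = true := tt fun y => c1 h x51f x1f y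
  have x376t : α 376 = true := tt fun y => c3089 h y x260f x244f
  have x36t : α 36 = true := tt fun y => c290 h x120f x88f y x15f
  have x25f : α 25 = false := ff fun y => c772 h x191t x50t y
  have x17f : α 17 = false := ff fun y => c369 h y x23t x376t x380t
  have x74f : α 74 = false := ff fun y => l3637 h x36t y x197t
  have x18f : α 18 = false := ff fun y => c426 h x36t y x518t x489t
  have x121t : α 121 = true := tt fun y => c372 h x17f x25f y
  have x111t : α 111 = true := tt fun y => c370 h y x17f x25f
  have x98t : α 98 = true := tt fun y => c1749 h x74f y x237f x257f
  have x105t : α 105 = true := tt fun y => c275 h y x15f x18f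
  have x157f : α 157 = false := ff fun y => c2344 h x153t y x111t x121t
  have x146f : α 146 = false := ff fun y => c2207 h x153t x105t y x98t
  c2543 h x146f x157f x257f x273f

theorem l4419 (h : Good α) (x20f : α 20 = false) (x1f : α 1 = false) : False :=
  have x94f : α 94 = false := ff fun y => l4401 h y x1f
  have x22f : α 22 = false := ff fun y => l4402 h y x1f
  have x28t : α 28 = true := tt fun y => c620 h x94f x22f y
  have x340f : α 340 = false := ff fun y => l3636 h x28t y
  have x10f : α 10 = false := ff fun y => l3618 h y x28t
  have x61t : α 61 = true := tt fun y => l4305 h y x1f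
  have x59f : α 59 = false := ff fun y => l3670 h y x61t
  have x56t : α 56 = true := tt fun y => c56 h y x1f x59f
  have x272t : α 272 = true := tt fun y => l4301 h y x1f
  have x188f : α 188 = false := ff fun y => l3666 h y x272t x56t
  have x341t : α 341 = true := tt fun y => c2117 h y x188f x94f
  have x106t : α 106 = true := tt fun y => c2100 h x188f x94f y
  have x239t : α 239 = true := tt fun y => l4341 h x94f y
  have x114f : α 114 = false := ff fun y => l3695 h y x272t
  have x459f : α 459 = false := ff fun y => l3732 h x272t y
  have x202t : α 202 = true := tt fun y => c89 h x1f x59f y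
  have x197t : α 197 = true := tt fun y => l4306 h y x1f
  have x326f : α 326 = false := ff fun y => l3726 h x197t y
  have x199f : α 199 = false := ff fun y => l3725 h x197t y
  have x53f : α 53 = false := ff fun y => l3778 h y x61t
  have x91t : α 91 = true := tt fun y => l4304 h x1f y
  have x306t : α 306 = true := tt fun y => c543 h y x20f x326f x59f
  have x71t : α 71 = true := tt fun y => c536 h y x20f x59f
  have x189t : α 189 = true := tt fun y => c541 h x20f x59f y
  have x97t : α 97 = true := tt fun y => l4416 h y x20f x1f
  have x237f : α 237 = false := ff fun y => c1554 h x197t x61t y x97t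
  have x92f : α 92 = false := ff fun y => c1545 h y x61t x97t
  have x236f : α 236 = false := ff fun y => c1989 h x239t y x91t x97t
  have x113f : α 113 = false := ff fun y => c2176 h y x97t x189t
  have x423t : α 423 = true := tt fun y => c2388 h x114f x237f y
  have x264t : α 264 = true := tt fun y => c555 h y x92f x20f
  have x23t : α 23 = true := tt fun y => l3627 h y x113f x53f
  have x257f : α 257 = false := ff fun y => c2294 h x306t x106t x423t y
  have x380t : α 380 = true := tt fun y => c3036 h x237f x257f y
  have x260f : α 260 = false := ff fun y => l4417 h y x380t x23t x237f x114f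
  have x278t : α 278 = true := tt fun y => c3161 h y x260f x340f
  have x477f : α 477 = false := ff fun y => c880 h x272t x28t y x278t
  have x102f : α 102 = false := ff fun y => c866 h x28t y x278t
  have x275t : α 275 = true := tt fun y => c2395 h x477f y x114f
  have x44t : α 44 = true := tt fun y => c1127 h y x102f x260f
  have x120f : α 120 = false := ff fun y => l3699 h y x275t
  have x181f : α 181 = false := ff fun y => l4330 h y x275t
  have x108f : α 108 = false := ff fun y => c844 h x44t x28t y
  have x191t : α 191 = true := tt fun y => l4259 h y x181f
  have x16t : α 16 = true := tt fun y => c355 h y x108f x181f x260f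
  have x413t : α 413 = true := tt fun y => c2732 h x181f x260f y
  have x338f : α 338 = false := ff fun y => c2011 h y x191t x91t
  have x425f : α 425 = false := ff fun y => c2846 h y x275t x191t
  have x68f : α 68 = false := ff fun y => l4313 h y x16t
  have x187t : α 187 = true := tt fun y => c2113 h x94f y x338f
  have x258t : α 258 = true := tt fun y => c655 h x94f x22f x338f y
  have x308t : α 308 = true := tt fun y => c2318 h y x108f x425f x260f
  have x63t : α 63 = true := tt fun y => l4178 h x68f y
  have x271f : α 271 = false := ff fun y => c2796 h y x187t x191t
  have x328f : α 328 = false := ff fun y => l4315 h x308t x16t y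
  have x107f : α 107 = false := ff fun y => c1607 h x239t y x63t
  have x24t : α 24 = true := tt fun y => c747 h x271f x94f y
  have x344t : α 344 = true := tt fun y => c2115 h y x188f x271f x94f
  have x153t : α 153 = true := tt fun y => c2620 h x328f x199f y
  have x29t : α 29 = true := tt fun y => c628 h x107f y x94f x22f
  have x286t : α 286 = true := tt fun y => c2306 h y x107f x477f x338f
  have x291f : α 291 = false := ff fun y => c761 h x24t y x191t x413t
  have x577f : α 577 = false := ff fun y => c2628 h y x341t x153t
  have x40f : α 40 = false := ff fun y => c885 h x29t y x258t x278t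
  have x379t : α 379 = true := tt fun y => c3024 h x577f y x236f
  have x19f : α 19 = false := ff fun y => l4418 h y x20f x1f
  have x386t : α 386 = true := tt fun y => c507 h x459f y x114f x19f
  have x34f : α 34 = false := ff fun y => c990 h x386t x71t x344t y
  have x452f : α 452 = false := ff fun y => c3328 h x386t x379t y
  have x89t : α 89 = true := tt fun y => c525 h x34f x20f y
  have x482t : α 482 = true := tt fun y => c186 h x452f y x10f x40f
  have x276f : α 276 = false := ff fun y => c352 h x16t x89t y
  have x104f : α 104 = false := ff fun y => c333 h x29t y x16t x89t
  have x101f : α 101 = false := ff fun y => c2235 h x482t x264t y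
  have x246t : α 246 = true := tt fun y => c3093 h x276f y x291f
  have x269t : α 269 = true := tt fun y => c562 h y x104f x188f x20f
  have x256t : α 256 = true := tt fun y => l3680 h x101f y
  have x88f : α 88 = false := ff fun y => c1376 h y x246t x56t x202t
  have x15f : α 15 = false := ff fun y => c311 h x269t x482t y x256t
  have x36f : α 36 = false := ff fun y => c1044 h x286t x482t y x256t
  c290 h x120f x88f x36f x15f

theorem l4420 (h : Good α) (x19f : α 19 = false) (x189t : α 189 = true) (x264t : α 264 = true) (x204f : α 204 = false) (x379t : α 379 = true) (x71t : α 71 = true) (x260f : α 260 = false) (x1f : α 1 = false) : False :=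
  have x94f : α 94 = false := ff fun y => l4401 h y x1f
  have x22f : α 22 = false := ff fun y => l4402 h y x1f
  have x28t : α 28 = true := tt fun y => c620 h x94f x22f y
  have x340f : α 340 = false := ff fun y => l3636 h x28t y
  have x278t : α 278 = true := tt fun y => c3161 h y x260f x340f
  have x102f : α 102 = false := ff fun y => c866 h x28t y x278t
  have x44t : α 44 = true := tt fun y => c1127 h y x102f x260f
  have x280f : α 280 = false := ff fun y => c846 h y x264t x44t x28t
  have x250t : α 250 = true := tt fun y => l4311 h x204f y x1f
  have x91t : α 91 = true := tt fun y => l4304 h x1f y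
  have x272t : α 272 = true := tt fun y => l4301 h y x1f
  have x114f : α 114 = false := ff fun y => l3695 h y x272t
  have x477f : α 477 = false := ff fun y => c880 h x272t x28t y x278t
  have x275t : α 275 = true := tt fun y => c2395 h x477f y x114f
  have x181f : α 181 = false := ff fun y => l4330 h y x275t
  have x191t : α 191 = true := tt fun y => l4259 h y x181f
  have x338f : α 338 = false := ff fun y => c2011 h y x191t x91t
  have x258t : α 258 = true := tt fun y => c655 h x94f x22f x338f y
  have x467f : α 467 = false := ff fun y => l3735 h x275t y
  have x108f : α 108 = false := ff fun y => c844 h x44t x28t y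
  have x16t : α 16 = true := tt fun y => c355 h y x108f x181f x260f
  have x68f : α 68 = false := ff fun y => l4313 h y x16t
  have x63t : α 63 = true := tt fun y => l4178 h x68f y
  have x175f : α 175 = false := ff fun y => c1614 h y x63t x275t x191t
  have x384t : α 384 = true := tt fun y => c1666 h x175f x68f x467f y
  have x251f : α 251 = false := ff fun y => c3118 h y x258t x384t
  have x239t : α 239 = true := tt fun y => l4341 h x94f y
  have x107f : α 107 = false := ff fun y => c1607 h x239t y x63t
  have x29t : α 29 = true := tt fun y => c628 h x107f y x94f x22f
  have x40f : α 40 = false := ff fun y => c885 h x29t y x258t x278t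
  have x61t : α 61 = true := tt fun y => l4305 h y x1f
  have x59f : α 59 = false := ff fun y => l3670 h y x61t
  have x56t : α 56 = true := tt fun y => c56 h y x1f x59f
  have x188f : α 188 = false := ff fun y => l3666 h y x272t x56t
  have x341t : α 341 = true := tt fun y => c2117 h y x188f x94f
  have x197t : α 197 = true := tt fun y => l4306 h y x1f
  have x199f : α 199 = false := ff fun y => l3725 h x197t y
  have x425f : α 425 = false := ff fun y => c2846 h y x275t x191t
  have x308t : α 308 = true := tt fun y => c2318 h y x108f x425f x260f
  have x328f : α 328 = false := ff fun y => l4315 h x308t x16t y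
  have x153t : α 153 = true := tt fun y => c2620 h x328f x199f y
  have x33f : α 33 = false := ff fun y => c977 h x341t x153t y
  have x324f : α 324 = false := ff fun y => c1384 h y x153t x56t
  have x413t : α 413 = true := tt fun y => c2732 h x181f x260f y
  have x580t : α 580 = true := tt fun y => c3399 h y x477f x467f
  have x10f : α 10 = false := ff fun y => l3618 h y x28t
  have x346f : α 346 = false := ff fun y => l3740 h x272t y
  have x459f : α 459 = false := ff fun y => l3732 h x272t y
  have x386t : α 386 = true := tt fun y => c507 h x459f y x114f x19f
  have x126t : α 126 = true := tt fun y => c466 h y x33f x19f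
  have x452f : α 452 = false := ff fun y => c3328 h x386t x379t y
  have x211f : α 211 = false := ff fun y => c2004 h y x126t x191t x91t
  have x482t : α 482 = true := tt fun y => c186 h x452f y x10f x40f
  have x83t : α 83 = true := tt fun y => c1860 h x324f x204f x211f y
  have x101f : α 101 = false := ff fun y => c2235 h x482t x264t y
  have x558f : α 558 = false := ff fun y => c1865 h x83t x250t x413t y
  have x485t : α 485 = true := tt fun y => c2236 h y x280f x346f x101f
  have x183t : α 183 = true := tt fun y => c2763 h y x340f x558f
  have x170f : α 170 = false := ff fun y => c1134 h x485t x44t x580t y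
  have x80f : α 80 = false := ff fun y => c1704 h y x71t x183t x189t
  c197 h x80f x10f x251f x170f

theorem l4421 (h : Good α) (x237f : α 237 = false) (x260f : α 260 = false) (x23t : α 23 = true) (x1f : α 1 = false) : False :=
  have x201t : α 201 = true := tt fun y => l4310 h y x1f
  have x94f : α 94 = false := ff fun y => l4401 h y x1f
  have x239t : α 239 = true := tt fun y => l4341 h x94f y
  have x272t : α 272 = true := tt fun y => l4301 h y x1f
  have x114f : α 114 = false := ff fun y => l3695 h y x272t
  have x22f : α 22 = false := ff fun y => l4402 h y x1f
  have x28t : α 28 = true := tt fun y => c620 h x94f x22f y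
  have x340f : α 340 = false := ff fun y => l3636 h x28t y
  have x278t : α 278 = true := tt fun y => c3161 h y x260f x340f
  have x477f : α 477 = false := ff fun y => c880 h x272t x28t y x278t
  have x275t : α 275 = true := tt fun y => c2395 h x477f y x114f
  have x181f : α 181 = false := ff fun y => l4330 h y x275t
  have x191t : α 191 = true := tt fun y => l4259 h y x181f
  have x91t : α 91 = true := tt fun y => l4304 h x1f y
  have x338f : α 338 = false := ff fun y => c2011 h y x191t x91t
  have x187t : α 187 = true := tt fun y => c2113 h x94f y x338f
  have x259f : α 259 = false := ff fun y => c2794 h x187t x191t y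
  have x271f : α 271 = false := ff fun y => c2796 h y x187t x191t
  have x24t : α 24 = true := tt fun y => c747 h x271f x94f y
  have x102f : α 102 = false := ff fun y => c866 h x28t y x278t
  have x44t : α 44 = true := tt fun y => c1127 h y x102f x260f
  have x108f : α 108 = false := ff fun y => c844 h x44t x28t y
  have x16t : α 16 = true := tt fun y => c355 h y x108f x181f x260f
  have x467f : α 467 = false := ff fun y => l3735 h x275t y
  have x68f : α 68 = false := ff fun y => l4313 h y x16t
  have x63t : α 63 = true := tt fun y => l4178 h x68f y
  have x175f : α 175 = false := ff fun y => c1614 h y x63t x275t x191t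
  have x384t : α 384 = true := tt fun y => c1666 h x175f x68f x467f y
  have x381f : α 381 = false := ff fun y => c327 h x24t x16t y x384t
  have x233t : α 233 = true := tt fun y => c2997 h x381f x259f y
  have x200f : α 200 = false := ff fun y => c2902 h x239t y x233t x201t
  have x242f : α 242 = false := ff fun y => c2920 h x233t x201t y
  have x351f : α 351 = false := ff fun y => c2922 h y x233t x201t
  have x61t : α 61 = true := tt fun y => l4305 h y x1f
  have x59f : α 59 = false := ff fun y => l3670 h y x61t
  have x56t : α 56 = true := tt fun y => c56 h y x1f x59f
  have x188f : α 188 = false := ff fun y => l3666 h y x272t x56t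
  have x341t : α 341 = true := tt fun y => c2117 h y x188f x94f
  have x197t : α 197 = true := tt fun y => l4306 h y x1f
  have x199f : α 199 = false := ff fun y => l3725 h x197t y
  have x425f : α 425 = false := ff fun y => c2846 h y x275t x191t
  have x308t : α 308 = true := tt fun y => c2318 h y x108f x425f x260f
  have x328f : α 328 = false := ff fun y => l4315 h x308t x16t y
  have x153t : α 153 = true := tt fun y => c2620 h x328f x199f y
  have x577f : α 577 = false := ff fun y => c2628 h y x341t x153t
  have x20t : α 20 = true := tt fun y => l4419 h y x1f
  have x92f : α 92 = false := ff fun y => c522 h y x20t x28t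
  have x10f : α 10 = false := ff fun y => l3618 h y x28t
  have x106t : α 106 = true := tt fun y => c2100 h x188f x94f y
  have x459f : α 459 = false := ff fun y => l3732 h x272t y
  have x97t : α 97 = true := tt fun y => c2190 h x237f y x351f x242f
  have x353t : α 353 = true := tt fun y => l4355 h y x200f x237f
  have x236f : α 236 = false := ff fun y => c1989 h x239t y x91t x97t
  have x273f : α 273 = false := ff fun y => c707 h x23t x97t y
  have x71t : α 71 = true := tt fun y => c195 h x236f y x10f
  have x352t : α 352 = true := tt fun y => c2911 h x200f x236f y
  have x379t : α 379 = true := tt fun y => c3024 h x577f y x236f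
  have x204f : α 204 = false := ff fun y => c2884 h x353t x352t x197t y
  have x264t : α 264 = true := tt fun y => l3767 h y x379t x23t
  have x334t : α 334 = true := tt fun y => l3705 h x204f y
  have x250t : α 250 = true := tt fun y => l4311 h x204f y x1f
  have x189t : α 189 = true := tt fun y => l4377 h y x273f x334t
  have x113f : α 113 = false := ff fun y => l4376 h y x250t x97t
  have x257f : α 257 = false := ff fun y => c565 h x106t x20t y x189t
  have x180t : α 180 = true := tt fun y => l3690 h x113f y
  have x19t : α 19 = true := tt fun y => l4420 h y x189t x264t x204f x379t x71t x260f x1f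
  have x70f : α 70 = false := ff fun y => c473 h x56t x19t y
  have x386f : α 386 = false := ff fun y => c463 h y x379t x19t x23t
  have x158t : α 158 = true := tt fun y => c1689 h x459f x386f y x70f
  have x378f : α 378 = false := ff fun y => c2669 h x158t x233t y
  have x451t : α 451 = true := tt fun y => l4404 h y x378f x257f x189t x71t x106t
  have x387f : α 387 = false := ff fun y => c567 h x106t x20t x451t y
  have x117f : α 117 = false := ff fun y => l4386 h x20t x28t x106t x451t x19t x340f x23t x264t x180t x236f y x242f x1f
  have x576t : α 576 = true := tt fun y => c3084 h x242f x387f y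
  have x184t : α 184 = true := tt fun y => c2056 h y x92f x117f
  have x452t : α 452 = true := tt fun y => l4380 h x28t y x158t x576t x340f x264t x236f x1f
  c2768 h x379t x452t x184t x264t

theorem l4422 (h : Good α) (x113t : α 113 = true) (x23t : α 23 = true) (x1f : α 1 = false) : False :=
  have x61t : α 61 = true := tt fun y => l4305 h y x1f
  have x53f : α 53 = false := ff fun y => l3778 h y x61t
  have x335t : α 335 = true := tt fun y => l3653 h x53f y
  have x272t : α 272 = true := tt fun y => l4301 h y x1f
  have x424f : α 424 = false := ff fun y => l3731 h y x335t x272t
  have x59f : α 59 = false := ff fun y => l3670 h y x61t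
  have x56t : α 56 = true := tt fun y => c56 h y x1f x59f
  have x188f : α 188 = false := ff fun y => l3666 h y x272t x56t
  have x19f : α 19 = false := ff fun y => c460 h y x23t x113t
  have x307f : α 307 = false := ff fun y => c712 h x23t x113t y
  c508 h x188f x424f x19f x307f

theorem l4423 (h : Good α) (x260f : α 260 = false) (x23t : α 23 = true) (x1f : α 1 = false) : False :=
  have x113f : α 113 = false := ff fun y => l4422 h y x23t x1f
  have x197t : α 197 = true := tt fun y => l4306 h y x1f
  have x61t : α 61 = true := tt fun y => l4305 h y x1f
  have x237t : α 237 = true := tt fun y => l4421 h y x260f x23t x1f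
  have x97t : α 97 = true := tt fun y => l4413 h x260f x113f y x1f
  c1554 h x197t x61t x237t x97t

theorem l4424 (h : Good α) (x23t : α 23 = true) (x1f : α 1 = false) : False :=
  have x20t : α 20 = true := tt fun y => l4419 h y x1f
  have x94f : α 94 = false := ff fun y => l4401 h y x1f
  have x22f : α 22 = false := ff fun y => l4402 h y x1f
  have x28t : α 28 = true := tt fun y => c620 h x94f x22f y
  have x340f : α 340 = false := ff fun y => l3636 h x28t y
  have x239t : α 239 = true := tt fun y => l4341 h x94f y
  have x61t : α 61 = true := tt fun y => l4305 h y x1f
  have x59f : α 59 = false := ff fun y => l3670 h y x61t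
  have x56t : α 56 = true := tt fun y => c56 h y x1f x59f
  have x272t : α 272 = true := tt fun y => l4301 h y x1f
  have x188f : α 188 = false := ff fun y => l3666 h y x272t x56t
  have x346f : α 346 = false := ff fun y => l3740 h x272t y
  have x114f : α 114 = false := ff fun y => l3695 h y x272t
  have x459f : α 459 = false := ff fun y => l3732 h x272t y
  have x202t : α 202 = true := tt fun y => c89 h x1f x59f y
  have x195f : α 195 = false := ff fun y => l3717 h y x202t
  have x327f : α 327 = false := ff fun y => l3667 h x56t y
  have x53f : α 53 = false := ff fun y => l3778 h y x61t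
  have x91t : α 91 = true := tt fun y => l4304 h x1f y
  have x201t : α 201 = true := tt fun y => l4310 h y x1f
  have x57t : α 57 = true := tt fun y => l4309 h x1f y
  have x113f : α 113 = false := ff fun y => l4422 h y x23t x1f
  have x264t : α 264 = true := tt fun y => l3691 h x113f y
  have x298t : α 298 = true := tt fun y => l3692 h x113f x327f y
  have x260t : α 260 = true := tt fun y => l4423 h y x23t x1f
  have x454f : α 454 = false := ff fun y => l3721 h x260t y
  have x275f : α 275 = false := ff fun y => l3715 h x260t y
  have x181f : α 181 = false := ff fun y => l4328 h y x260t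
  have x19t : α 19 = true := tt fun y => l4412 h x260t y x113f x264t x1f
  have x285t : α 285 = true := tt fun y => c3226 h x346f x275f y
  have x485t : α 485 = true := tt fun y => c3229 h y x346f x275f
  have x477t : α 477 = true := tt fun y => c2395 h y x275f x114f
  have x191t : α 191 = true := tt fun y => l4259 h y x181f
  have x70f : α 70 = false := ff fun y => c473 h x56t x19t y
  have x86f : α 86 = false := ff fun y => c487 h y x19t x191t x91t
  have x120f : α 120 = false := ff fun y => c2458 h x485t x272t y
  have x278f : α 278 = false := ff fun y => c880 h x272t x28t x477t y
  have x338f : α 338 = false := ff fun y => c2011 h y x191t x91t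
  have x17t : α 17 = true := tt fun y => c392 h x275f x86f y
  have x185t : α 185 = true := tt fun y => c1901 h x346f y x275f x86f
  have x504t : α 504 = true := tt fun y => c1910 h y x275f x86f
  have x16t : α 16 = true := tt fun y => c360 h x120f y x275f x181f
  have x258t : α 258 = true := tt fun y => c3146 h x338f y x278f
  have x39t : α 39 = true := tt fun y => c1082 h y x113f x278f x340f
  have x187t : α 187 = true := tt fun y => c2113 h x94f y x338f
  have x385f : α 385 = false := ff fun y => c1390 h y x185t x56t
  have x68f : α 68 = false := ff fun y => l4313 h y x16t
  have x101f : α 101 = false := ff fun y => c1079 h x264t y x39t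
  have x271f : α 271 = false := ff fun y => c2796 h y x187t x191t
  have x259f : α 259 = false := ff fun y => c2794 h x187t x191t y
  have x63t : α 63 = true := tt fun y => l4178 h x68f y
  have x164t : α 164 = true := tt fun y => l3679 h x101f y
  have x14t : α 14 = true := tt fun y => l3619 h x101f y x59f
  have x27t : α 27 = true := tt fun y => c828 h x346f x101f x275f y
  have x344t : α 344 = true := tt fun y => c2115 h y x188f x271f x94f
  have x167f : α 167 = false := ff fun y => c1610 h x63t y x191t x260t
  have x580f : α 580 = false := ff fun y => c1089 h y x164t x477t x39t
  have x99f : α 99 = false := ff fun y => c236 h x20t x14t y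
  have x55f : α 55 = false := ff fun y => c234 h x57t x20t y x14t
  have x133f : α 133 = false := ff fun y => c375 h x17t x27t y
  have x103f : α 103 = false := ff fun y => c2261 h x485t x344t x285t y
  have x266f : α 266 = false := ff fun y => c3188 h x485t x344t y
  have x384t : α 384 = true := tt fun y => c1663 h x68f x167f y x454f
  have x248t : α 248 = true := tt fun y => c3097 h x580f x385f y
  have x189t : α 189 = true := tt fun y => c2218 h x99f y x278f x340f
  have x60t : α 60 = true := tt fun y => c51 h x55f x1f y
  have x198t : α 198 = true := tt fun y => c54 h y x55f x1f
  have x96t : α 96 = true := tt fun y => c28 h y x53f x55f x1f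
  have x220t : α 220 = true := tt fun y => c2506 h x346f y x275f x133f
  have x233t : α 233 = true := tt fun y => c1684 h x103f x70f x259f y
  have x251f : α 251 = false := ff fun y => c3118 h y x258t x384t
  have x93f : α 93 = false := ff fun y => c1530 h x248t y x198t x60t
  have x566f : α 566 = false := ff fun y => c399 h y x96t x504t x17t
  have x364f : α 364 = false := ff fun y => c2779 h x344t y x185t x220t
  have x200f : α 200 = false := ff fun y => c2902 h x239t y x233t x201t
  have x80t : α 80 = true := tt fun y => c1831 h x459f y x580f x251f
  have x230t : α 230 = true := tt fun y => c1271 h x53f x93f x195f y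
  have x140t : α 140 = true := tt fun y => c2525 h x566f x327f y
  have x280t : α 280 = true := tt fun y => c3186 h x266f y x364f
  have x380f : α 380 = false := ff fun y => c2522 h x140t x230t x298t y
  have x452f : α 452 = false := ff fun y => c2682 h y x280t x164t
  have x183t : α 183 = true := tt fun y => l4354 h x380f y
  have x379t : α 379 = true := tt fun y => l3654 h y x452f x53f
  have x71f : α 71 = false := ff fun y => c1704 h x80t y x183t x189t
  have x386f : α 386 = false := ff fun y => c463 h y x379t x19t x23t
  c1721 h x386f x200f x71f

theorem l4425 (h : Good α) (x1f : α 1 = false) : False :=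
  have x57t : α 57 = true := tt fun y => l4309 h x1f y
  have x201t : α 201 = true := tt fun y => l4310 h y x1f
  have x91t : α 91 = true := tt fun y => l4304 h x1f y
  have x61t : α 61 = true := tt fun y => l4305 h y x1f
  have x197t : α 197 = true := tt fun y => l4306 h y x1f
  have x53f : α 53 = false := ff fun y => l3778 h y x61t
  have x94f : α 94 = false := ff fun y => l4401 h y x1f
  have x239t : α 239 = true := tt fun y => l4341 h x94f y
  have x22f : α 22 = false := ff fun y => l4402 h y x1f
  have x28t : α 28 = true := tt fun y => c620 h x94f x22f y
  have x20t : α 20 = true := tt fun y => l4419 h y x1f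
  have x92f : α 92 = false := ff fun y => c522 h y x20t x28t
  have x23f : α 23 = false := ff fun y => l4424 h y x1f
  have x65t : α 65 = true := tt fun y => l4318 h y x23f
  have x113t : α 113 = true := tt fun y => l3627 h x23f y x53f
  have x250f : α 250 = false := ff fun y => c1638 h x65t x113t y
  have x97t : α 97 = true := tt fun y => l4353 h x250f y
  have x204t : α 204 = true := tt fun y => l4311 h y x250f x1f
  have x237f : α 237 = false := ff fun y => c1554 h x197t x61t y x97t
  have x242f : α 242 = false := ff fun y => c1557 h x61t x97t y
  have x236f : α 236 = false := ff fun y => c1989 h x239t y x91t x97t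
  have x354t : α 354 = true := tt fun y => l3411 h y x92f x204t x236f x242f
  have x238t : α 238 = true := tt fun y => l4370 h x237f y x250f
  c1442 h x57t x238t x201t x354t

theorem l4426 (h : Good α) (x53t : α 53 = true) : False :=
  have x1t : α 1 = true := tt fun y => l4425 h y
  l4302 h x53t x1t

theorem l4427 (h : Good α) (x56f : α 56 = false) : False :=
  have x53f : α 53 = false := ff fun y => l4426 h y
  l3648 h x53f x56f

theorem l4428 (h : Good α) (x335f : α 335 = false) : False :=
  have x53f : α 53 = false := ff fun y => l4426 h y
  l3653 h x53f x335f

theorem l4429 (h : Good α) (x327t : α 327 = true) : False :=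
  have x56t : α 56 = true := tt fun y => l4427 h y
  l3667 h x56t x327t

theorem l4430 (h : Good α) (x199t : α 199 = true) : False :=
  have x56t : α 56 = true := tt fun y => l4427 h y
  have x1t : α 1 = true := tt fun y => l4425 h y
  c60 h x199t x56t x1t

theorem l4431 (h : Good α) (x59t : α 59 = true) : False :=
  have x56t : α 56 = true := tt fun y => l4427 h y
  have x1t : α 1 = true := tt fun y => l4425 h y
  c57 h x56t x1t x59t

theorem l4432 (h : Good α) (x61f : α 61 = false) : False :=
  have x59f : α 59 = false := ff fun y => l4431 h y
  l3669 h x59f x61f

theorem l4433 (h : Good α) (x204t : α 204 = true) : False :=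
  have x61t : α 61 = true := tt fun y => l4432 h y
  have x1t : α 1 = true := tt fun y => l4425 h y
  c102 h x1t x61t x204t

theorem l4434 (h : Good α) (x334f : α 334 = false) : False :=
  have x204f : α 204 = false := ff fun y => l4433 h y
  l3705 h x204f x334f

theorem l4435 (h : Good α) (x196f : α 196 = false) : False :=
  have x204f : α 204 = false := ff fun y => l4433 h y
  l3702 h x196f x204f

theorem l4436 (h : Good α) (x379f : α 379 = false) (x23f : α 23 = false) : False :=
  have x334t : α 334 = true := tt fun y => l4434 h y
  have x335t : α 335 = true := tt fun y => l4428 h y
  have x56t : α 56 = true := tt fun y => l4427 h y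
  have x61t : α 61 = true := tt fun y => l4432 h y
  have x204f : α 204 = false := ff fun y => l4433 h y
  have x53f : α 53 = false := ff fun y => l4426 h y
  have x59f : α 59 = false := ff fun y => l4431 h y
  have x113t : α 113 = true := tt fun y => l3627 h x23f y x53f
  have x65t : α 65 = true := tt fun y => l4318 h y x23f
  have x250f : α 250 = false := ff fun y => c1638 h x65t x113t y
  have x97t : α 97 = true := tt fun y => l4353 h x250f y
  have x189f : α 189 = false := ff fun y => c2176 h x113t x97t y
  have x91t : α 91 = true := tt fun y => l4336 h x204f x250f y
  have x19t : α 19 = true := tt fun y => l4317 h y x189f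
  have x257f : α 257 = false := ff fun y => c494 h x19t x91t y
  have x146t : α 146 = true := tt fun y => c1512 h y x59f x257f x189f
  have x326f : α 326 = false := ff fun y => l4327 h y x146t
  have x423t : α 423 = true := tt fun y => c1523 h x326f x59f y x189f
  have x212f : α 212 = false := ff fun y => c2178 h y x113t x97t
  have x307f : α 307 = false := ff fun y => c480 h x56t x335t x19t y
  have x450t : α 450 = true := tt fun y => c2960 h x212f x307f y
  have x409f : α 409 = false := ff fun y => c1559 h x61t y x97t x450t
  have x183t : α 183 = true := tt fun y => l4319 h x23f y
  have x430f : α 430 = false := ff fun y => l4333 h y x183t x334t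
  have x273t : α 273 = true := tt fun y => c2824 h x189f y x430f
  have x157f : α 157 = false := ff fun y => l4332 h x273t y x183t
  have x114f : α 114 = false := ff fun y => c1993 h y x91t x183t
  have x242f : α 242 = false := ff fun y => c1557 h x61t x97t y
  have x92f : α 92 = false := ff fun y => c1545 h y x61t x97t
  have x459t : α 459 = true := tt fun y => c715 h y x379f x114f x23f
  have x272f : α 272 = false := ff fun y => l3732 h y x459t
  have x306t : α 306 = true := tt fun y => l4371 h x272f y
  have x94t : α 94 = true := tt fun y => l4285 h y x272f
  have x117f : α 117 = false := ff fun y => c2432 h x306t y x423t x273t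
  have x444f : α 444 = false := ff fun y => c1986 h x94t y x91t x450t
  have x161t : α 161 = true := tt fun y => c2419 h y x117f x157f
  have x548t : α 548 = true := tt fun y => c2081 h x92f x444f x242f y
  have x544t : α 544 = true := tt fun y => c3362 h y x444f x409f
  have x80f : α 80 = false := ff fun y => c1817 h y x161t x183t x273t
  have x233f : α 233 = false := ff fun y => c2020 h x91t x450t y x548t
  have x236f : α 236 = false := ff fun y => c2189 h y x544t x97t x450t
  have x200t : α 200 = true := tt fun y => c1825 h x379f y x80f
  have x353t : α 353 = true := tt fun y => l4360 h y x236f x92f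
  have x239t : α 239 = true := tt fun y => c2990 h y x236f x233f x242f
  c2914 h x353t x239t x200t

theorem l4437 (h : Good α) (x233f : α 233 = false) (x23f : α 23 = false) : False :=
  have x204f : α 204 = false := ff fun y => l4433 h y
  have x61t : α 61 = true := tt fun y => l4432 h y
  have x56t : α 56 = true := tt fun y => l4427 h y
  have x53f : α 53 = false := ff fun y => l4426 h y
  have x379t : α 379 = true := tt fun y => l4436 h y x23f
  have x113t : α 113 = true := tt fun y => l3627 h x23f y x53f
  have x65t : α 65 = true := tt fun y => l4318 h y x23f
  have x250f : α 250 = false := ff fun y => c1638 h x65t x113t y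
  have x97t : α 97 = true := tt fun y => l4353 h x250f y
  have x189f : α 189 = false := ff fun y => c2176 h x113t x97t y
  have x19t : α 19 = true := tt fun y => l4317 h y x189f
  have x188f : α 188 = false := ff fun y => c477 h y x56t x19t
  have x242f : α 242 = false := ff fun y => c1557 h x61t x97t y
  have x354t : α 354 = true := tt fun y => c2940 h x204f x250f y
  have x238t : α 238 = true := tt fun y => c2936 h y x204f x250f
  have x183t : α 183 = true := tt fun y => l4319 h x23f y
  have x378f : α 378 = false := ff fun y => l4334 h y x183t
  have x184t : α 184 = true := tt fun y => c688 h y x53f x23f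
  have x81t : α 81 = true := tt fun y => c684 h x53f x23f y
  have x201t : α 201 = true := tt fun y => c2919 h x233f y x242f
  have x158t : α 158 = true := tt fun y => c2668 h y x233f x378f
  have x57f : α 57 = false := ff fun y => c1442 h y x238t x201t x354t
  have x272f : α 272 = false := ff fun y => c1836 h y x184t x158t x81t
  have x459f : α 459 = false := ff fun y => c1838 h y x379t x158t x81t
  have x264f : α 264 = false := ff fun y => l3862 h y x238t x57f x53f x272f
  have x386t : α 386 = true := tt fun y => c2815 h x459f y x272f x188f
  have x452t : α 452 = true := tt fun y => l3711 h x264f y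
  c503 h x386t x452t x19t x113t

theorem l4438 (h : Good α) (x23f : α 23 = false) : False :=
  have x53f : α 53 = false := ff fun y => l4426 h y
  have x204f : α 204 = false := ff fun y => l4433 h y
  have x61t : α 61 = true := tt fun y => l4432 h y
  have x56t : α 56 = true := tt fun y => l4427 h y
  have x335t : α 335 = true := tt fun y => l4428 h y
  have x1t : α 1 = true := tt fun y => l4425 h y
  have x65t : α 65 = true := tt fun y => l4318 h y x23f
  have x113t : α 113 = true := tt fun y => l3627 h x23f y x53f
  have x250f : α 250 = false := ff fun y => c1638 h x65t x113t y
  have x97t : α 97 = true := tt fun y => l4353 h x250f y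
  have x91t : α 91 = true := tt fun y => l4336 h x204f x250f y
  have x238t : α 238 = true := tt fun y => c2936 h y x204f x250f
  have x354t : α 354 = true := tt fun y => c2940 h x204f x250f y
  have x92f : α 92 = false := ff fun y => c1545 h y x61t x97t
  have x242f : α 242 = false := ff fun y => c1557 h x61t x97t y
  have x189f : α 189 = false := ff fun y => c2176 h x113t x97t y
  have x212f : α 212 = false := ff fun y => c2178 h y x113t x97t
  have x19t : α 19 = true := tt fun y => l4317 h y x189f
  have x307f : α 307 = false := ff fun y => c480 h x56t x335t x19t y
  have x450t : α 450 = true := tt fun y => c2960 h x212f x307f y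
  have x233t : α 233 = true := tt fun y => l4437 h y x23f
  have x439f : α 439 = false := ff fun y => c2017 h x91t x233t y
  have x548f : α 548 = false := ff fun y => c2020 h x91t x450t x233t y
  have x444t : α 444 = true := tt fun y => c2081 h x92f y x242f x548f
  have x94f : α 94 = false := ff fun y => c1986 h y x444t x91t x450t
  have x57t : α 57 = true := tt fun y => l4349 h x94f y
  have x197t : α 197 = true := tt fun y => l4339 h x94f y
  have x534t : α 534 = true := tt fun y => l4362 h x439f y x94f
  have x201f : α 201 = false := ff fun y => c1442 h x57t x238t y x354t
  have x406f : α 406 = false := ff fun y => c116 h x197t x1t x534t y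
  l4357 h x201f x406f

theorem l4439 (h : Good α) (x452t : α 452 = true) (x379t : α 379 = true) (x81t : α 81 = true) : False :=
  have x23t : α 23 = true := tt fun y => l4438 h y
  have x113f : α 113 = false := ff fun y => c713 h x379t x452t x23t y
  have x180f : α 180 = false := ff fun y => c1841 h x379t x452t x81t y
  l3690 h x113f x180f

theorem l4440 (h : Good α) (x158f : α 158 = false) (x70f : α 70 = false) (x379t : α 379 = true) (x272t : α 272 = true) : False :=
  have x23t : α 23 = true := tt fun y => l4438 h y
  have x114f : α 114 = false := ff fun y => l3695 h y x272t
  have x459f : α 459 = false := ff fun y => l3732 h x272t y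
  have x19t : α 19 = true := tt fun y => c486 h x114f y x158f x70f
  have x386t : α 386 = true := tt fun y => c1689 h x459f y x158f x70f
  c463 h x386t x379t x19t x23t

theorem l4441 (h : Good α) (x275f : α 275 = false) (x28t : α 28 = true) (x80f : α 80 = false) (x94t : α 94 = true) (x340f : α 340 = false) (x158t : α 158 = true) (x113f : α 113 = false) (x264t : α 264 = true) (x272t : α 272 = true) : False :=
  have x346f : α 346 = false := ff fun y => l3740 h x272t y
  have x114f : α 114 = false := ff fun y => l3695 h y x272t
  have x459f : α 459 = false := ff fun y => l3732 h x272t y
  have x477t : α 477 = true := tt fun y => c2395 h y x275f x114f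
  have x285t : α 285 = true := tt fun y => c3226 h x346f x275f y
  have x338f : α 338 = false := ff fun y => c2139 h x272t x94t x477t y
  have x278f : α 278 = false := ff fun y => c880 h x272t x28t x477t y
  have x467f : α 467 = false := ff fun y => c2673 h y x285t x158t
  have x260t : α 260 = true := tt fun y => c3161 h x278f y x340f
  have x258t : α 258 = true := tt fun y => c3146 h x338f y x278f
  have x39t : α 39 = true := tt fun y => c1082 h y x113f x278f x340f
  have x181f : α 181 = false := ff fun y => l4328 h y x260t
  have x101f : α 101 = false := ff fun y => c1079 h x264t y x39t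
  have x384t : α 384 = true := tt fun y => c2735 h x275f x181f x467f y
  have x164t : α 164 = true := tt fun y => l3679 h x101f y
  have x251f : α 251 = false := ff fun y => c3118 h y x258t x384t
  have x580f : α 580 = false := ff fun y => c1089 h y x164t x477t x39t
  c1831 h x459f x80f x580f x251f

theorem l4442 (h : Good α) (x201f : α 201 = false) (x117t : α 117 = true) (x341t : α 341 = true) (x71t : α 71 = true) (x92f : α 92 = false) (x200f : α 200 = false) (x238t : α 238 = true) (x307f : α 307 = false) (x70f : α 70 = false) (x113f : α 113 = false) (x452f : α 452 = false) (x379t : α 379 = true) (x242f : α 242 = false) (x272t : α 272 = true) (x233t : α 233 = true) : False :=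
  have x23t : α 23 = true := tt fun y => l4438 h y
  have x334t : α 334 = true := tt fun y => l4434 h y
  have x204f : α 204 = false := ff fun y => l4433 h y
  have x158t : α 158 = true := tt fun y => l4440 h y x70f x379t x272t
  have x378f : α 378 = false := ff fun y => c2669 h x158t x233t y
  have x264t : α 264 = true := tt fun y => l3767 h y x379t x23t
  have x114f : α 114 = false := ff fun y => l3695 h y x272t
  have x97t : α 97 = true := tt fun y => l4352 h x242f x201f y
  have x236t : α 236 = true := tt fun y => c2903 h x200f y x201f x242f
  have x354t : α 354 = true := tt fun y => c2923 h x201f x242f y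
  have x387t : α 387 = true := tt fun y => c1693 h x70f x201f y
  have x273f : α 273 = false := ff fun y => c707 h x23t x97t y
  have x33f : α 33 = false := ff fun y => c682 h y x23t x97t
  have x161f : α 161 = false := ff fun y => c2677 h x379t x236t y
  have x250t : α 250 = true := tt fun y => c3109 h x307f y x273f
  have x189t : α 189 = true := tt fun y => l4377 h y x273f x334t
  have x91f : α 91 = false := ff fun y => c2015 h y x250t x233t x354t
  have x352f : α 352 = false := ff fun y => c2188 h x236t y x97t x250t
  have x340f : α 340 = false := ff fun y => c2183 h x97t x189t y
  have x94t : α 94 = true := tt fun y => l4335 h y x91f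
  have x183t : α 183 = true := tt fun y => c1992 h x114f x91f y
  have x80f : α 80 = false := ff fun y => c1704 h y x71t x183t x189t
  have x462t : α 462 = true := tt fun y => c1818 h x80f x161f x378f y
  have x20f : α 20 = false := ff fun y => c573 h y x117t x387t x462t
  have x28t : α 28 = true := tt fun y => c521 h x92f x20f y
  have x275t : α 275 = true := tt fun y => l4441 h y x28t x80f x94t x340f x158t x113f x264t x272t
  have x260f : α 260 = false := ff fun y => l3715 h y x275t
  have x181f : α 181 = false := ff fun y => l4330 h y x275t
  have x278t : α 278 = true := tt fun y => c3161 h y x260f x340f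
  have x413t : α 413 = true := tt fun y => c2732 h x181f x260f y
  have x477f : α 477 = false := ff fun y => c880 h x272t x28t y x278t
  have x102f : α 102 = false := ff fun y => c866 h x28t y x278t
  have x338f : α 338 = false := ff fun y => c862 h x94t x28t y x278t
  have x44t : α 44 = true := tt fun y => c1127 h y x102f x260f
  have x283t : α 283 = true := tt fun y => c969 h y x33f x338f x91f
  have x258t : α 258 = true := tt fun y => c3149 h x477f x338f y
  have x280f : α 280 = false := ff fun y => c846 h y x264t x44t x28t
  have x42f : α 42 = false := ff fun y => c1121 h x341t x117t x283t y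
  have x358f : α 358 = false := ff fun y => c3148 h x258t x278t y
  have x165t : α 165 = true := tt fun y => c2684 h x452f x352f x280f y
  have x558t : α 558 = true := tt fun y => c1122 h x42f x273f x358f y
  have x391f : α 391 = false := ff fun y => c2683 h x165t x238t y
  have x83f : α 83 = false := ff fun y => c1865 h y x250t x413t x558t
  c1862 h x391f x204f x83f

theorem l4443 (h : Good α) (x260f : α 260 = false) (x328t : α 328 = true) (x28t : α 28 = true) (x272t : α 272 = true) : False :=
  have x340f : α 340 = false := ff fun y => l3636 h x28t y
  have x114f : α 114 = false := ff fun y => l3695 h y x272t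
  have x278t : α 278 = true := tt fun y => c3161 h y x260f x340f
  have x477f : α 477 = false := ff fun y => c880 h x272t x28t y x278t
  have x102f : α 102 = false := ff fun y => c866 h x28t y x278t
  have x275t : α 275 = true := tt fun y => c2395 h x477f y x114f
  have x44t : α 44 = true := tt fun y => c1127 h y x102f x260f
  have x181f : α 181 = false := ff fun y => l4330 h y x275t
  have x425f : α 425 = false := ff fun y => l3734 h y x275t x328t
  have x108f : α 108 = false := ff fun y => c844 h x44t x28t y
  have x16t : α 16 = true := tt fun y => c355 h y x108f x181f x260f
  have x308t : α 308 = true := tt fun y => c2318 h y x108f x425f x260f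
  l4315 h x308t x16t x328t

theorem l4444 (h : Good α) (x238t : α 238 = true) (x19t : α 19 = true) (x70f : α 70 = false) (x184f : α 184 = false) (x113f : α 113 = false) (x452f : α 452 = false) (x379t : α 379 = true) (x242f : α 242 = false) (x272t : α 272 = true) (x233t : α 233 = true) : False :=
  have x335t : α 335 = true := tt fun y => l4428 h y
  have x56t : α 56 = true := tt fun y => l4427 h y
  have x23t : α 23 = true := tt fun y => l4438 h y
  have x61t : α 61 = true := tt fun y => l4432 h y
  have x1t : α 1 = true := tt fun y => l4425 h y
  have x327f : α 327 = false := ff fun y => l4429 h y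
  have x386f : α 386 = false := ff fun y => c463 h y x379t x19t x23t
  have x307f : α 307 = false := ff fun y => c480 h x56t x335t x19t y
  have x264t : α 264 = true := tt fun y => l3767 h y x379t x23t
  have x346f : α 346 = false := ff fun y => l3740 h x272t y
  have x383f : α 383 = false := ff fun y => c3055 h y x264t x238t
  have x57t : α 57 = true := tt fun y => c1432 h x383f x184f y
  have x200f : α 200 = false := ff fun y => c68 h y x57t x1t
  have x92f : α 92 = false := ff fun y => c64 h x57t y x1t x61t
  have x71t : α 71 = true := tt fun y => c1721 h x386f x200f y
  have x341t : α 341 = true := tt fun y => c2065 h y x184f x92f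
  have x117t : α 117 = true := tt fun y => c2056 h x184f x92f y
  have x201t : α 201 = true := tt fun y => l4442 h y x117t x341t x71t x92f x200f x238t x307f x70f x113f x452f x379t x242f x272t x233t
  have x94f : α 94 = false := ff fun y => c1421 h y x57t x233t x201t
  have x449t : α 449 = true := tt fun y => l4363 h y x94f
  have x28t : α 28 = true := tt fun y => l3987 h y x117t x92f x94f
  have x402f : α 402 = false := ff fun y => c72 h x449t x57t y x1t
  have x328t : α 328 = true := tt fun y => c3263 h y x327f x402f
  have x260t : α 260 = true := tt fun y => l4443 h y x328t x28t x272t
  have x275f : α 275 = false := ff fun y => l3715 h x260t y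
  have x181f : α 181 = false := ff fun y => l4328 h y x260t
  have x425f : α 425 = false := ff fun y => l3720 h y x260t x328t
  have x485t : α 485 = true := tt fun y => c3229 h y x346f x275f
  have x120f : α 120 = false := ff fun y => c2458 h x485t x272t y
  have x16t : α 16 = true := tt fun y => c360 h x120f y x275f x181f
  have x308t : α 308 = true := tt fun y => c2460 h y x120f x425f x275f
  l4315 h x308t x16t x328t

theorem l4445 (h : Good α) (x238f : α 238 = false) (x184f : α 184 = false) (x242f : α 242 = false) (x272t : α 272 = true) (x233t : α 233 = true) : False :=
  have x204f : α 204 = false := ff fun y => l4433 h y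
  have x1t : α 1 = true := tt fun y => l4425 h y
  have x94t : α 94 = true := tt fun y => l4340 h x238f x204f y
  have x352t : α 352 = true := tt fun y => c2938 h y x238f x204f
  have x250t : α 250 = true := tt fun y => c2936 h x238f x204f y
  have x22f : α 22 = false := ff fun y => c657 h x272t x94t y
  have x57t : α 57 = true := tt fun y => c646 h x184f y x22f
  have x200f : α 200 = false := ff fun y => c68 h y x57t x1t
  have x201f : α 201 = false := ff fun y => c1421 h x94t x57t x233t y
  have x97t : α 97 = true := tt fun y => l4352 h x242f x201f y
  have x236t : α 236 = true := tt fun y => c2903 h x200f y x201f x242f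
  c2188 h x236t x352t x97t x250t

theorem l4446 (h : Good α) (x477t : α 477 = true) (x102f : α 102 = false) (x157f : α 157 = false) (x28t : α 28 = true) (x250f : α 250 = false) (x340f : α 340 = false) (x273f : α 273 = false) (x94t : α 94 = true) (x117t : α 117 = true) (x238t : α 238 = true) (x113f : α 113 = false) (x264t : α 264 = true) (x272t : α 272 = true) : False :=
  have x204f : α 204 = false := ff fun y => l4433 h y
  have x338f : α 338 = false := ff fun y => c2139 h x272t x94t x477t y
  have x278f : α 278 = false := ff fun y => c880 h x272t x28t x477t y
  have x260t : α 260 = true := tt fun y => c3161 h x278f y x340f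
  have x39t : α 39 = true := tt fun y => c1082 h y x113f x278f x340f
  have x187t : α 187 = true := tt fun y => c2243 h y x102f x338f x278f
  have x181f : α 181 = false := ff fun y => l4328 h y x260t
  have x13f : α 13 = false := ff fun y => c228 h x264t x238t x39t y
  have x191t : α 191 = true := tt fun y => l4259 h y x181f
  have x83t : α 83 = true := tt fun y => c231 h x13f y x250f
  have x42t : α 42 = true := tt fun y => c229 h x13f x250f y x273f
  have x79f : α 79 = false := ff fun y => c1802 h x187t y x191t x83t
  have x37f : α 37 = false := ff fun y => c1047 h x117t y x42t
  c1054 h x79f x204f x37f x157f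

theorem l4447 (h : Good α) (x94t : α 94 = true) (x117t : α 117 = true) (x57t : α 57 = true) (x19f : α 19 = false) (x238t : α 238 = true) (x378f : α 378 = false) (x70f : α 70 = false) (x113f : α 113 = false) (x264t : α 264 = true) (x242f : α 242 = false) (x272t : α 272 = true) (x233t : α 233 = true) : False :=
  have x23t : α 23 = true := tt fun y => l4438 h y
  have x334t : α 334 = true := tt fun y => l4434 h y
  have x61t : α 61 = true := tt fun y => l4432 h y
  have x199f : α 199 = false := ff fun y => l4430 h y
  have x327f : α 327 = false := ff fun y => l4429 h y
  have x56t : α 56 = true := tt fun y => l4427 h y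
  have x1t : α 1 = true := tt fun y => l4425 h y
  have x92f : α 92 = false := ff fun y => c64 h x57t y x1t x61t
  have x200f : α 200 = false := ff fun y => c68 h y x57t x1t
  have x84t : α 84 = true := tt fun y => l4316 h y x19f
  have x189t : α 189 = true := tt fun y => l4317 h x19f y
  have x114f : α 114 = false := ff fun y => l3695 h y x272t
  have x22f : α 22 = false := ff fun y => c657 h x272t x94t y
  have x201f : α 201 = false := ff fun y => c1421 h x94t x57t x233t y
  have x97t : α 97 = true := tt fun y => l4352 h x242f x201f y
  have x236t : α 236 = true := tt fun y => c2903 h x200f y x201f x242f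
  have x354t : α 354 = true := tt fun y => c2923 h x201f x242f y
  have x387t : α 387 = true := tt fun y => c1693 h x70f x201f y
  have x190f : α 190 = false := ff fun y => l3738 h y x61t x97t
  have x273f : α 273 = false := ff fun y => c707 h x23t x97t y
  have x33f : α 33 = false := ff fun y => c682 h y x23t x97t
  have x340f : α 340 = false := ff fun y => c2183 h x97t x189t y
  have x91t : α 91 = true := tt fun y => c464 h x33f x19f y
  have x126t : α 126 = true := tt fun y => c466 h y x33f x19f
  have x250f : α 250 = false := ff fun y => c2015 h x91t y x233t x354t
  have x239f : α 239 = false := ff fun y => c1989 h y x236t x91t x97t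
  have x430t : α 430 = true := tt fun y => c2369 h x113f x250f y
  have x353t : α 353 = true := tt fun y => c2913 h y x239f x200f
  have x183f : α 183 = false := ff fun y => l4333 h x430t y x334t
  have x197f : α 197 = false := ff fun y => c1576 h x353t x236t y x61t
  have x380t : α 380 = true := tt fun y => l4354 h y x183f
  have x462t : α 462 = true := tt fun y => c2759 h x183f x273f x378f y
  have x237t : α 237 = true := tt fun y => l4368 h y x197f
  have x146t : α 146 = true := tt fun y => c2548 h x327f x197f y
  have x257f : α 257 = false := ff fun y => c3037 h x237t y x380t
  have x20f : α 20 = false := ff fun y => c573 h y x117t x387t x462t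
  have x326f : α 326 = false := ff fun y => l4327 h y x146t
  have x106t : α 106 = true := tt fun y => c659 h y x22f x257f x183f
  have x28t : α 28 = true := tt fun y => c521 h x92f x20f y
  have x267t : α 267 = true := tt fun y => l4237 h y x326f x84t x189t x199f x190f x340f x197f x114f
  have x157f : α 157 = false := ff fun y => c2275 h x106t x117t x146t y
  have x102f : α 102 = false := ff fun y => l3683 h y x267t
  have x477f : α 477 = false := ff fun y => l4446 h y x102f x157f x28t x250f x340f x273f x94t x117t x238t x113f x264t x272t
  have x275t : α 275 = true := tt fun y => c2395 h x477f y x114f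
  have x260f : α 260 = false := ff fun y => l3715 h y x275t
  have x181f : α 181 = false := ff fun y => l4330 h y x275t
  have x328f : α 328 = false := ff fun y => l4443 h x260f y x28t x272t
  have x191t : α 191 = true := tt fun y => l4259 h y x181f
  have x50t : α 50 = true := tt fun y => l4321 h x181f y x183f
  have x404t : α 404 = true := tt fun y => c3264 h y x328f x327f
  have x211f : α 211 = false := ff fun y => c2004 h y x126t x191t x91t
  have x86f : α 86 = false := ff fun y => c4 h x56t x1t y x50t
  have x436f : α 436 = false := ff fun y => c9 h x404t x1t y x50t
  have x243t : α 243 = true := tt fun y => c1907 h x436f y x86f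
  have x295t : α 295 = true := tt fun y => c2956 h x436f y x211f
  c3087 h x295t x243t x275t

theorem l4448 (h : Good α) (x113f : α 113 = false) (x379t : α 379 = true) (x81t : α 81 = true) (x242f : α 242 = false) (x272t : α 272 = true) (x233t : α 233 = true) : False :=
  have x23t : α 23 = true := tt fun y => l4438 h y
  have x61t : α 61 = true := tt fun y => l4432 h y
  have x1t : α 1 = true := tt fun y => l4425 h y
  have x327f : α 327 = false := ff fun y => l4429 h y
  have x452f : α 452 = false := ff fun y => l4439 h y x379t x81t
  have x264t : α 264 = true := tt fun y => l3767 h y x379t x23t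
  have x346f : α 346 = false := ff fun y => l3740 h x272t y
  have x180t : α 180 = true := tt fun y => l3690 h x113f y
  have x184f : α 184 = false := ff fun y => c1839 h y x264t x81t x180t
  have x70f : α 70 = false := ff fun y => c1680 h y x81t x180t
  have x158t : α 158 = true := tt fun y => l4440 h y x70f x379t x272t
  have x378f : α 378 = false := ff fun y => c2669 h x158t x233t y
  have x238t : α 238 = true := tt fun y => l4445 h y x184f x242f x272t x233t
  have x383f : α 383 = false := ff fun y => c3055 h y x264t x238t
  have x19f : α 19 = false := ff fun y => l4444 h x238t y x70f x184f x113f x452f x379t x242f x272t x233t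
  have x57t : α 57 = true := tt fun y => c1432 h x383f x184f y
  have x92f : α 92 = false := ff fun y => c64 h x57t y x1t x61t
  have x117t : α 117 = true := tt fun y => c2056 h x184f x92f y
  have x94f : α 94 = false := ff fun y => l4447 h y x117t x57t x19f x238t x378f x70f x113f x264t x242f x272t x233t
  have x449t : α 449 = true := tt fun y => l4363 h y x94f
  have x28t : α 28 = true := tt fun y => l3987 h y x117t x92f x94f
  have x402f : α 402 = false := ff fun y => c72 h x449t x57t y x1t
  have x328t : α 328 = true := tt fun y => c3263 h y x327f x402f
  have x260t : α 260 = true := tt fun y => l4443 h y x328t x28t x272t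
  have x425f : α 425 = false := ff fun y => l3720 h y x260t x328t
  have x275f : α 275 = false := ff fun y => l3715 h x260t y
  have x181f : α 181 = false := ff fun y => l4328 h y x260t
  have x485t : α 485 = true := tt fun y => c3229 h y x346f x275f
  have x120f : α 120 = false := ff fun y => c2458 h x485t x272t y
  have x308t : α 308 = true := tt fun y => c2460 h y x120f x425f x275f
  have x16t : α 16 = true := tt fun y => c360 h x120f y x275f x181f
  l4315 h x308t x16t x328t

theorem l4449 (h : Good α) (x113t : α 113 = true) (x272t : α 272 = true) : False :=
  have x56t : α 56 = true := tt fun y => l4427 h y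
  have x335t : α 335 = true := tt fun y => l4428 h y
  have x23t : α 23 = true := tt fun y => l4438 h y
  have x424f : α 424 = false := ff fun y => l3731 h y x335t x272t
  have x188f : α 188 = false := ff fun y => l3666 h y x272t x56t
  have x19f : α 19 = false := ff fun y => c460 h y x23t x113t
  have x307f : α 307 = false := ff fun y => c712 h x23t x113t y
  c508 h x188f x424f x19f x307f

theorem l4450 (h : Good α) (x81t : α 81 = true) (x242f : α 242 = false) (x272t : α 272 = true) (x233t : α 233 = true) : False :=
  have x53f : α 53 = false := ff fun y => l4426 h y
  have x113f : α 113 = false := ff fun y => l4449 h y x272t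
  have x264t : α 264 = true := tt fun y => l3691 h x113f y
  have x180t : α 180 = true := tt fun y => l3690 h x113f y
  have x379f : α 379 = false := ff fun y => l4448 h x113f y x81t x242f x272t x233t
  have x184f : α 184 = false := ff fun y => c1839 h y x264t x81t x180t
  c1294 h x379f x184f x53f

theorem l4451 (h : Good α) (x94f : α 94 = false) (x184t : α 184 = true) (x272t : α 272 = true) : False :=
  have x1t : α 1 = true := tt fun y => l4425 h y
  have x327f : α 327 = false := ff fun y => l4429 h y
  have x346f : α 346 = false := ff fun y => l3740 h x272t y
  have x57t : α 57 = true := tt fun y => l4349 h x94f y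
  have x449t : α 449 = true := tt fun y => l4363 h y x94f
  have x22f : α 22 = false := ff fun y => c647 h x184t x57t y
  have x402f : α 402 = false := ff fun y => c72 h x449t x57t y x1t
  have x28t : α 28 = true := tt fun y => c620 h x94f x22f y
  have x328t : α 328 = true := tt fun y => c3263 h y x327f x402f
  have x260t : α 260 = true := tt fun y => l4443 h y x328t x28t x272t
  have x425f : α 425 = false := ff fun y => l3720 h y x260t x328t
  have x275f : α 275 = false := ff fun y => l3715 h x260t y
  have x181f : α 181 = false := ff fun y => l4328 h y x260t
  have x485t : α 485 = true := tt fun y => c3229 h y x346f x275f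
  have x120f : α 120 = false := ff fun y => c2458 h x485t x272t y
  have x308t : α 308 = true := tt fun y => c2460 h y x120f x425f x275f
  have x16t : α 16 = true := tt fun y => c360 h x120f y x275f x181f
  l4315 h x308t x16t x328t

theorem l4452 (h : Good α) (x28t : α 28 = true) (x102f : α 102 = false) (x157f : α 157 = false) (x126t : α 126 = true) (x340f : α 340 = false) (x91t : α 91 = true) (x273f : α 273 = false) (x238t : α 238 = true) (x94t : α 94 = true) (x272t : α 272 = true) : False :=
  have x334t : α 334 = true := tt fun y => l4434 h y
  have x327f : α 327 = false := ff fun y => l4429 h y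
  have x56t : α 56 = true := tt fun y => l4427 h y
  have x1t : α 1 = true := tt fun y => l4425 h y
  have x22f : α 22 = false := ff fun y => c657 h x272t x94t y
  have x113f : α 113 = false := ff fun y => l4449 h y x272t
  have x250f : α 250 = false := ff fun y => c1983 h x94t x238t x91t y
  have x430t : α 430 = true := tt fun y => c2369 h x113f x250f y
  have x183f : α 183 = false := ff fun y => l4333 h x430t y x334t
  have x117t : α 117 = true := tt fun y => c665 h x22f y x183f x273f
  have x264t : α 264 = true := tt fun y => l3691 h x113f y
  have x114f : α 114 = false := ff fun y => l3695 h y x272t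
  have x477f : α 477 = false := ff fun y => l4446 h y x102f x157f x28t x250f x340f x273f x94t x117t x238t x113f x264t x272t
  have x275t : α 275 = true := tt fun y => c2395 h x477f y x114f
  have x260f : α 260 = false := ff fun y => l3715 h y x275t
  have x181f : α 181 = false := ff fun y => l4330 h y x275t
  have x328f : α 328 = false := ff fun y => l4443 h x260f y x28t x272t
  have x191t : α 191 = true := tt fun y => l4259 h y x181f
  have x50t : α 50 = true := tt fun y => l4321 h x181f y x183f
  have x404t : α 404 = true := tt fun y => c3264 h y x328f x327f
  have x211f : α 211 = false := ff fun y => c2004 h y x126t x191t x91t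
  have x86f : α 86 = false := ff fun y => c4 h x56t x1t y x50t
  have x436f : α 436 = false := ff fun y => c9 h x404t x1t y x50t
  have x243t : α 243 = true := tt fun y => c1907 h x436f y x86f
  have x295t : α 295 = true := tt fun y => c2956 h x436f y x211f
  c3087 h x295t x243t x275t

theorem l4453 (h : Good α) (x19f : α 19 = false) (x57f : α 57 = false) (x94t : α 94 = true) (x106t : α 106 = true) (x272t : α 272 = true) : False :=
  have x23t : α 23 = true := tt fun y => l4438 h y
  have x61t : α 61 = true := tt fun y => l4432 h y
  have x327f : α 327 = false := ff fun y => l4429 h y
  have x56t : α 56 = true := tt fun y => l4427 h y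
  have x334t : α 334 = true := tt fun y => l4434 h y
  have x199f : α 199 = false := ff fun y => l4430 h y
  have x196t : α 196 = true := tt fun y => l4435 h y
  have x1t : α 1 = true := tt fun y => l4425 h y
  have x237t : α 237 = true := tt fun y => l4348 h y x57f
  have x113f : α 113 = false := ff fun y => l4449 h y x272t
  have x264t : α 264 = true := tt fun y => l3691 h x113f y
  have x188f : α 188 = false := ff fun y => l3666 h y x272t x56t
  have x20t : α 20 = true := tt fun y => c533 h x188f x57f y
  have x92f : α 92 = false := ff fun y => c556 h x264t y x20t
  have x97t : α 97 = true := tt fun y => l4347 h x92f y x57f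
  have x197f : α 197 = false := ff fun y => c1554 h y x61t x237t x97t
  have x146t : α 146 = true := tt fun y => c2548 h x327f x197f y
  have x326f : α 326 = false := ff fun y => l4327 h y x146t
  have x238t : α 238 = true := tt fun y => c1415 h x57f x92f y
  have x383f : α 383 = false := ff fun y => c3055 h y x264t x238t
  have x33f : α 33 = false := ff fun y => c682 h y x23t x97t
  have x273f : α 273 = false := ff fun y => c707 h x23t x97t y
  have x190f : α 190 = false := ff fun y => l3738 h y x61t x97t
  have x298t : α 298 = true := tt fun y => l3692 h x113f x327f y
  have x257f : α 257 = false := ff fun y => c3035 h x298t x237t y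
  have x22f : α 22 = false := ff fun y => c657 h x272t x94t y
  have x114f : α 114 = false := ff fun y => l3695 h y x272t
  have x189t : α 189 = true := tt fun y => l4317 h x19f y
  have x84t : α 84 = true := tt fun y => l4316 h y x19f
  have x254t : α 254 = true := tt fun y => l4084 h y x188f x19f x56t
  have x91t : α 91 = true := tt fun y => c493 h x19f y x257f
  have x250f : α 250 = false := ff fun y => c1983 h x94t x238t x91t y
  have x340f : α 340 = false := ff fun y => c2183 h x97t x189t y
  have x430t : α 430 = true := tt fun y => c2369 h x113f x250f y
  have x126t : α 126 = true := tt fun y => c466 h y x33f x19f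
  have x183f : α 183 = false := ff fun y => l4333 h x430t y x334t
  have x117t : α 117 = true := tt fun y => c665 h x22f y x183f x273f
  have x267t : α 267 = true := tt fun y => l4237 h y x326f x84t x189t x199f x190f x340f x197f x114f
  have x157f : α 157 = false := ff fun y => c2275 h x106t x117t x146t y
  have x102f : α 102 = false := ff fun y => l3683 h y x267t
  have x28f : α 28 = false := ff fun y => l4452 h y x102f x157f x126t x340f x91t x273f x238t x94t x272t
  have x36t : α 36 = true := tt fun y => l4383 h y x28f x183f x340f x22f x114f
  have x90t : α 90 = true := tt fun y => c619 h x22f x28f y x102f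
  have x231f : α 231 = false := ff fun y => l4325 h y x90t x196t
  have x55f : α 55 = false := ff fun y => l4303 h y x90t x1t
  have x573t : α 573 = true := tt fun y => c2988 h y x383f x231f
  have x96t : α 96 = true := tt fun y => c1362 h x231f y x55f
  have x151t : α 151 = true := tt fun y => c1354 h x57f x55f y
  have x185t : α 185 = true := tt fun y => c1356 h x188f x57f y x55f
  have x148t : α 148 = true := tt fun y => c1353 h y x57f x55f
  have x342f : α 342 = false := ff fun y => c2572 h x573t y x148t
  have x101f : α 101 = false := ff fun y => c2158 h x185t x96t y
  have x269f : α 269 = false := ff fun y => c2563 h y x148t x254t x151t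
  have x482t : α 482 = true := tt fun y => c3202 h x269f x342f y
  have x256t : α 256 = true := tt fun y => l3680 h x101f y
  have x286t : α 286 = true := tt fun y => c3199 h y x269f x342f
  c1044 h x286t x482t x36t x256t

theorem l4454 (h : Good α) (x90t : α 90 = true) (x223t : α 223 = true) (x117t : α 117 = true) (x57f : α 57 = false) (x184t : α 184 = true) (x188f : α 188 = false) : False :=
  have x196t : α 196 = true := tt fun y => l4435 h y
  have x1t : α 1 = true := tt fun y => l4425 h y
  have x59f : α 59 = false := ff fun y => l4431 h y
  have x20t : α 20 = true := tt fun y => c533 h x188f x57f y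
  have x398t : α 398 = true := tt fun y => c1434 h y x188f x57f
  have x231f : α 231 = false := ff fun y => l4325 h y x90t x196t
  have x55f : α 55 = false := ff fun y => l4303 h y x90t x1t
  have x96t : α 96 = true := tt fun y => c1362 h x231f y x55f
  have x185t : α 185 = true := tt fun y => c1356 h x188f x57f y x55f
  have x37f : α 37 = false := ff fun y => c1059 h x184t x117t x96t y
  have x144f : α 144 = false := ff fun y => c2165 h x184t x223t x96t y
  have x101f : α 101 = false := ff fun y => c2158 h x185t x96t y
  have x21t : α 21 = true := tt fun y => c592 h y x37f x144f
  have x14t : α 14 = true := tt fun y => l3619 h x101f y x59f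
  have x270f : α 270 = false := ff fun y => c610 h y x96t x21t
  have x394f : α 394 = false := ff fun y => c241 h x398t x20t y x14t
  c2987 h x394f x270f x231f

theorem l4455 (h : Good α) (x28f : α 28 = false) (x10f : α 10 = false) (x85f : α 85 = false) (x117t : α 117 = true) (x340f : α 340 = false) (x57f : α 57 = false) (x22f : α 22 = false) (x184t : α 184 = true) (x188f : α 188 = false) : False :=
  have x223t : α 223 = true := tt fun y => c854 h x28f x85f y
  have x40t : α 40 = true := tt fun y => l4397 h y x10f x28f
  have x90f : α 90 = false := ff fun y => l4454 h y x223t x117t x57f x184t x188f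
  have x258t : α 258 = true := tt fun y => c651 h x22f x90f y
  have x102t : α 102 = true := tt fun y => c619 h x22f x28f x90f y
  have x29t : α 29 = true := tt fun y => c626 h y x22f x90f
  have x170f : α 170 = false := ff fun y => l3682 h x102t y
  have x278f : α 278 = false := ff fun y => c885 h x29t x40t x258t y
  have x44t : α 44 = true := tt fun y => c189 h x10f y x170f
  have x260t : α 260 = true := tt fun y => c3161 h x278f y x340f
  c1128 h x44t x102t x260t

theorem l4456 (h : Good α) (x102t : α 102 = true) (x28t : α 28 = true) (x10f : α 10 = false) : False :=
  have x170f : α 170 = false := ff fun y => l3682 h x102t y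
  have x267f : α 267 = false := ff fun y => l3683 h x102t y
  have x40f : α 40 = false := ff fun y => c838 h y x28t x102t
  have x44t : α 44 = true := tt fun y => c189 h x10f y x170f
  have x108t : α 108 = true := tt fun y => c1099 h x40f y x267f
  c844 h x44t x28t x108t

theorem l4457 (h : Good α) (x14f : α 14 = false) (x102f : α 102 = false) (x325f : α 325 = false) : False :=
  have x59f : α 59 = false := ff fun y => l4431 h y
  have x101t : α 101 = true := tt fun y => l3619 h y x14f x59f
  have x297t : α 297 = true := tt fun y => c259 h y x325f x14f x59f
  have x21t : α 21 = true := tt fun y => c243 h y x14f x102f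
  c612 h x297t x101t x21t

theorem l4458 (h : Good α) (x379f : α 379 = false) (x576t : α 576 = true) (x57f : α 57 = false) (x70f : α 70 = false) (x81f : α 81 = false) (x272t : α 272 = true) : False :=
  have x61t : α 61 = true := tt fun y => l4432 h y
  have x327f : α 327 = false := ff fun y => l4429 h y
  have x335t : α 335 = true := tt fun y => l4428 h y
  have x334t : α 334 = true := tt fun y => l4434 h y
  have x23t : α 23 = true := tt fun y => l4438 h y
  have x56t : α 56 = true := tt fun y => l4427 h y
  have x53f : α 53 = false := ff fun y => l4426 h y
  have x113f : α 113 = false := ff fun y => l4449 h y x272t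
  have x264t : α 264 = true := tt fun y => l3691 h x113f y
  have x188f : α 188 = false := ff fun y => l3666 h y x272t x56t
  have x20t : α 20 = true := tt fun y => c533 h x188f x57f y
  have x92f : α 92 = false := ff fun y => c556 h x264t y x20t
  have x238t : α 238 = true := tt fun y => c1415 h x57f x92f y
  have x299f : α 299 = false := ff fun y => c3053 h x264t x238t y
  have x97t : α 97 = true := tt fun y => l4347 h x92f y x57f
  have x273f : α 273 = false := ff fun y => c707 h x23t x97t y
  have x114f : α 114 = false := ff fun y => l3695 h y x272t
  have x184t : α 184 = true := tt fun y => c1681 h x188f y x70f x81f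
  have x94t : α 94 = true := tt fun y => l4451 h y x184t x272t
  have x298t : α 298 = true := tt fun y => l3692 h x113f x327f y
  have x429f : α 429 = false := ff fun y => c719 h y x184t x298t x23t
  have x106t : α 106 = true := tt fun y => l4364 h x429f y
  have x19t : α 19 = true := tt fun y => l4453 h y x57f x94t x106t x272t
  have x307f : α 307 = false := ff fun y => c480 h x56t x335t x19t y
  have x250t : α 250 = true := tt fun y => c3109 h x307f y x273f
  have x91f : α 91 = false := ff fun y => c1983 h x94t x238t y x250t
  have x183t : α 183 = true := tt fun y => c1992 h x114f x91f y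
  have x430f : α 430 = false := ff fun y => l4333 h y x183t x334t
  have x117t : α 117 = true := tt fun y => c2429 h y x299f x273f x430f
  have x85f : α 85 = false := ff fun y => c1882 h x238t x117t y
  have x450f : α 450 = false := ff fun y => c2200 h x97t x250t y
  have x409t : α 409 = true := tt fun y => l4338 h x450f y x91f
  have x325f : α 325 = false := ff fun y => c3261 h y x335t x409t
  have x505f : α 505 = false := ff fun y => c2141 h y x272t x94t
  have x449t : α 449 = true := tt fun y => c3372 h x505f x429f y
  have x237t : α 237 = true := tt fun y => l4348 h y x57f
  have x197f : α 197 = false := ff fun y => c1554 h y x61t x237t x97t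
  have x402t : α 402 = true := tt fun y => l4345 h y x197f
  have x443f : α 443 = false := ff fun y => c3345 h x449t x402t y
  have x547f : α 547 = false := ff fun y => c3349 h y x449t x402t
  have x239t : α 239 = true := tt fun y => c2028 h x547f y x443f x91f
  have x189t : α 189 = true := tt fun y => l4377 h y x273f x334t
  have x340f : α 340 = false := ff fun y => c2183 h x97t x189t y
  have x146t : α 146 = true := tt fun y => c2548 h x327f x197f y
  have x179f : α 179 = false := ff fun y => c2281 h y x106t x146t
  have x22f : α 22 = false := ff fun y => c657 h x272t x94t y
  have x158t : α 158 = true := tt fun y => c1679 h y x70f x81f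
  have x346f : α 346 = false := ff fun y => l3740 h x272t y
  have x459f : α 459 = false := ff fun y => l3732 h x272t y
  have x452t : α 452 = true := tt fun y => l3654 h x379f y x53f
  have x236t : α 236 = true := tt fun y => l4378 h x379f x81f x70f x239t y
  have x10f : α 10 = false := ff fun y => l4396 h y x179f x236t x239t
  have x71f : α 71 = false := ff fun y => c1725 h x452t x236t y
  have x28t : α 28 = true := tt fun y => l4455 h y x10f x85f x117t x340f x57f x22f x184t x188f
  have x102f : α 102 = false := ff fun y => l4456 h y x28t x10f
  have x14t : α 14 = true := tt fun y => l4457 h y x102f x325f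
  have x104f : α 104 = false := ff fun y => c238 h y x20t x14t
  have x40t : α 40 = true := tt fun y => c182 h x71f x104f x10f y
  have x107f : α 107 = false := ff fun y => c836 h y x40t x94t x28t
  have x286f : α 286 = false := ff fun y => c839 h y x40t x272t x28t
  have x175t : α 175 = true := tt fun y => c2707 h x459f x286f y
  have x187t : α 187 = true := tt fun y => c2300 h x286f x107f x346f y
  have x120f : α 120 = false := ff fun y => l3698 h y x175t
  have x68f : α 68 = false := ff fun y => l4323 h y x175t
  have x338f : α 338 = false := ff fun y => c2114 h x94t x187t y
  have x36t : α 36 = true := tt fun y => c1038 h x286f x120f y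
  have x63t : α 63 = true := tt fun y => l4178 h x68f y
  have x191t : α 191 = true := tt fun y => c2010 h x338f y x91f
  have x477t : α 477 = true := tt fun y => c2306 h x286f x107f y x338f
  have x259f : α 259 = false := ff fun y => c2794 h x187t x191t y
  have x275f : α 275 = false := ff fun y => c1614 h x175t x63t y x191t
  have x278f : α 278 = false := ff fun y => c880 h x272t x28t x477t y
  have x285t : α 285 = true := tt fun y => c1996 h x114f x91f y x259f
  have x478t : α 478 = true := tt fun y => c2036 h x91f x340f x259f y
  have x46t : α 46 = true := tt fun y => c1137 h x275f x114f y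
  have x260t : α 260 = true := tt fun y => c3161 h x278f y x340f
  have x267f : α 267 = false := ff fun y => c1045 h x36t y x285t x478t
  have x483f : α 483 = false := ff fun y => c1144 h x46t y x158t x576t
  have x108f : α 108 = false := ff fun y => l3687 h y x260t
  c2319 h x108f x267f x483f

theorem l4459 (h : Good α) (x242f : α 242 = false) (x272t : α 272 = true) (x233t : α 233 = true) : False :=
  have x61t : α 61 = true := tt fun y => l4432 h y
  have x327f : α 327 = false := ff fun y => l4429 h y
  have x56t : α 56 = true := tt fun y => l4427 h y
  have x334t : α 334 = true := tt fun y => l4434 h y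
  have x1t : α 1 = true := tt fun y => l4425 h y
  have x335t : α 335 = true := tt fun y => l4428 h y
  have x23t : α 23 = true := tt fun y => l4438 h y
  have x113f : α 113 = false := ff fun y => l4449 h y x272t
  have x298t : α 298 = true := tt fun y => l3692 h x113f x327f y
  have x264t : α 264 = true := tt fun y => l3691 h x113f y
  have x188f : α 188 = false := ff fun y => l3666 h y x272t x56t
  have x346f : α 346 = false := ff fun y => l3740 h x272t y
  have x114f : α 114 = false := ff fun y => l3695 h y x272t
  have x81f : α 81 = false := ff fun y => l4450 h y x242f x272t x233t
  have x11t : α 11 = true := tt fun y => c212 h y x81f x242f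
  have x462t : α 462 = true := tt fun y => c1846 h x81f x242f y
  have x70f : α 70 = false := ff fun y => c210 h x11t y x233t
  have x158t : α 158 = true := tt fun y => c1679 h y x70f x81f
  have x184t : α 184 = true := tt fun y => c1681 h x188f y x70f x81f
  have x378f : α 378 = false := ff fun y => c2669 h x158t x233t y
  have x429f : α 429 = false := ff fun y => c719 h y x184t x298t x23t
  have x201t : α 201 = true := tt fun y => c1843 h x81f y x378f
  have x106t : α 106 = true := tt fun y => l4364 h x429f y
  have x94t : α 94 = true := tt fun y => l4451 h y x184t x272t
  have x22f : α 22 = false := ff fun y => c657 h x272t x94t y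
  have x505f : α 505 = false := ff fun y => c2141 h y x272t x94t
  have x57f : α 57 = false := ff fun y => c1421 h x94t y x233t x201t
  have x449t : α 449 = true := tt fun y => c3372 h x505f x429f y
  have x237t : α 237 = true := tt fun y => l4348 h y x57f
  have x398t : α 398 = true := tt fun y => c1434 h y x188f x57f
  have x20t : α 20 = true := tt fun y => c533 h x188f x57f y
  have x92f : α 92 = false := ff fun y => c556 h x264t y x20t
  have x97t : α 97 = true := tt fun y => l4347 h x92f y x57f
  have x238t : α 238 = true := tt fun y => c1415 h x57f x92f y
  have x273f : α 273 = false := ff fun y => c707 h x23t x97t y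
  have x197f : α 197 = false := ff fun y => c1554 h y x61t x237t x97t
  have x299f : α 299 = false := ff fun y => c3053 h x264t x238t y
  have x146t : α 146 = true := tt fun y => c2548 h x327f x197f y
  have x179f : α 179 = false := ff fun y => c2281 h y x106t x146t
  have x19t : α 19 = true := tt fun y => l4453 h y x57f x94t x106t x272t
  have x189t : α 189 = true := tt fun y => l4377 h y x273f x334t
  have x402t : α 402 = true := tt fun y => l4345 h y x197f
  have x307f : α 307 = false := ff fun y => c480 h x56t x335t x19t y
  have x340f : α 340 = false := ff fun y => c2183 h x97t x189t y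
  have x443f : α 443 = false := ff fun y => c3345 h x449t x402t y
  have x547f : α 547 = false := ff fun y => c3349 h y x449t x402t
  have x250t : α 250 = true := tt fun y => c3109 h x307f y x273f
  have x91f : α 91 = false := ff fun y => c1983 h x94t x238t y x250t
  have x450f : α 450 = false := ff fun y => c2200 h x97t x250t y
  have x183t : α 183 = true := tt fun y => c1992 h x114f x91f y
  have x239t : α 239 = true := tt fun y => c2028 h x547f y x443f x91f
  have x409t : α 409 = true := tt fun y => l4338 h x450f y x91f
  have x212t : α 212 = true := tt fun y => c2960 h y x307f x450f
  have x430f : α 430 = false := ff fun y => l4333 h y x183t x334t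
  have x200f : α 200 = false := ff fun y => l4275 h x239t y x94t x1t x91f
  have x325f : α 325 = false := ff fun y => c3261 h y x335t x409t
  have x117t : α 117 = true := tt fun y => c2429 h y x299f x273f x430f
  have x85f : α 85 = false := ff fun y => c1882 h x238t x117t y
  have x387f : α 387 = false := ff fun y => c573 h x20t x117t y x462t
  have x576t : α 576 = true := tt fun y => c3084 h x242f x387f y
  have x379t : α 379 = true := tt fun y => l4458 h y x576t x57f x70f x81f x272t
  have x386f : α 386 = false := ff fun y => c463 h y x379t x19t x23t
  have x236t : α 236 = true := tt fun y => c1411 h x200f y x57f x92f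
  have x71t : α 71 = true := tt fun y => c1721 h x386f x200f y
  have x10f : α 10 = false := ff fun y => l4396 h y x179f x236t x239t
  have x80f : α 80 = false := ff fun y => c1704 h y x71t x183t x189t
  have x28t : α 28 = true := tt fun y => l4455 h y x10f x85f x117t x340f x57f x22f x184t x188f
  have x275t : α 275 = true := tt fun y => l4441 h y x28t x80f x94t x340f x158t x113f x264t x272t
  have x102f : α 102 = false := ff fun y => l4456 h y x28t x10f
  have x260f : α 260 = false := ff fun y => l3715 h y x275t
  have x14t : α 14 = true := tt fun y => l4457 h y x102f x325f
  have x278t : α 278 = true := tt fun y => c3161 h y x260f x340f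
  have x328f : α 328 = false := ff fun y => l4443 h x260f y x28t x272t
  have x394f : α 394 = false := ff fun y => c241 h x398t x20t y x14t
  have x477f : α 477 = false := ff fun y => c880 h x272t x28t y x278t
  have x338f : α 338 = false := ff fun y => c862 h x94t x28t y x278t
  have x494t : α 494 = true := tt fun y => c3260 h x505f y x328f x325f
  have x392t : α 392 = true := tt fun y => c3305 h x394f x346f y
  have x258t : α 258 = true := tt fun y => c3149 h x477f x338f y
  have x187t : α 187 = true := tt fun y => c2805 h x346f y x477f x338f
  have x84f : α 84 = false := ff fun y => c1878 h x398t x494t y x212t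
  have x110f : α 110 = false := ff fun y => c710 h y x23t x258t x183t
  have x55f : α 55 = false := ff fun y => c1368 h x392t x187t y
  have x460t : α 460 = true := tt fun y => c1869 h y x84f x477f x114f
  have x254t : α 254 = true := tt fun y => c2341 h x477f y x110f
  have x151t : α 151 = true := tt fun y => c1354 h x57f x55f y
  c2602 h x460t x254t x151t

theorem l4460 (h : Good α) (x272t : α 272 = true) (x233t : α 233 = true) : False :=
  have x335t : α 335 = true := tt fun y => l4428 h y
  have x56t : α 56 = true := tt fun y => l4427 h y
  have x61t : α 61 = true := tt fun y => l4432 h y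
  have x204f : α 204 = false := ff fun y => l4433 h y
  have x1t : α 1 = true := tt fun y => l4425 h y
  have x188f : α 188 = false := ff fun y => l3666 h y x272t x56t
  have x424f : α 424 = false := ff fun y => l3731 h y x335t x272t
  have x113f : α 113 = false := ff fun y => l4449 h y x272t
  have x180t : α 180 = true := tt fun y => l3690 h x113f y
  have x242t : α 242 = true := tt fun y => l4459 h y x272t x233t
  have x97f : α 97 = false := ff fun y => c1557 h x61t y x242t
  have x387f : α 387 = false := ff fun y => c2718 h x180t x242t y
  have x201f : α 201 = false := ff fun y => c100 h x1t x61t y x242t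
  have x91t : α 91 = true := tt fun y => l4350 h y x97f
  have x250t : α 250 = true := tt fun y => l4353 h y x97f
  have x212t : α 212 = true := tt fun y => c2177 h y x113f x97f
  have x70t : α 70 = true := tt fun y => c1693 h y x201f x387f
  have x354f : α 354 = false := ff fun y => c2015 h x91t x250t x233t y
  have x19f : α 19 = false := ff fun y => c473 h x56t y x70t
  have x307t : α 307 = true := tt fun y => c508 h x188f x424f x19f y
  have x450f : α 450 = false := ff fun y => c2961 h x212t x307t y
  have x548t : α 548 = true := tt fun y => l4358 h y x450f x201f
  have x409f : α 409 = false := ff fun y => c1585 h x61t y x242t x548t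
  have x444t : α 444 = true := tt fun y => c3361 h y x409f x450f
  have x92f : α 92 = false := ff fun y => c2082 h y x444t x242t x548t
  have x57t : α 57 = true := tt fun y => l4347 h x92f x97f y
  have x237t : α 237 = true := tt fun y => l4359 h x97f y x92f
  have x200f : α 200 = false := ff fun y => c68 h y x57t x1t
  have x351f : α 351 = false := ff fun y => c2013 h x237t x91t y x233t
  have x443f : α 443 = false := ff fun y => c2025 h y x237t x91t
  have x236t : α 236 = true := tt fun y => l4351 h y x200f x97f
  have x197t : α 197 = true := tt fun y => c2881 h y x204f x351f x354f
  have x239t : α 239 = true := tt fun y => l4231 h x197t x200f x1t x443f x237t y x272t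
  c2991 h x239t x236t x233t x242t

theorem l4461 (h : Good α) (x272f : α 272 = false) : False :=
  have x23t : α 23 = true := tt fun y => l4438 h y
  have x204f : α 204 = false := ff fun y => l4433 h y
  have x1t : α 1 = true := tt fun y => l4425 h y
  have x61t : α 61 = true := tt fun y => l4432 h y
  have x398t : α 398 = true := tt fun y => l4372 h y x272f
  have x94t : α 94 = true := tt fun y => l4285 h y x272f
  have x91t : α 91 = true := tt fun y => l4289 h y x272f
  have x113t : α 113 = true := tt fun y => l4293 h y x1t x272f
  have x19f : α 19 = false := ff fun y => c460 h y x23t x113t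
  have x189t : α 189 = true := tt fun y => l4317 h x19f y
  have x84t : α 84 = true := tt fun y => l4316 h y x19f
  have x97f : α 97 = false := ff fun y => c2176 h x113t y x189t
  have x250t : α 250 = true := tt fun y => l4353 h y x97f
  have x238f : α 238 = false := ff fun y => c1983 h x94t y x91t x250t
  have x197t : α 197 = true := tt fun y => l4367 h x238f y x204f
  have x57t : α 57 = true := tt fun y => l4294 h y x197t x1t x272f
  have x92f : α 92 = false := ff fun y => c64 h x57t y x1t x61t
  have x188f : α 188 = false := ff fun y => c1435 h x398t y x57t
  have x237t : α 237 = true := tt fun y => l4359 h x97f y x92f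
  have x114t : α 114 = true := tt fun y => c504 h x272f x188f y x19f
  c1868 h x84t x114t x237t

theorem l4462 (h : Good α) (x114t : α 114 = true) : False :=
  have x272t : α 272 = true := tt fun y => l4461 h y
  l3695 h x114t x272t

theorem l4463 (h : Good α) (x346t : α 346 = true) : False :=
  have x272t : α 272 = true := tt fun y => l4461 h y
  l3740 h x272t x346t

theorem l4464 (h : Good α) (x188t : α 188 = true) : False :=
  have x272t : α 272 = true := tt fun y => l4461 h y
  have x56t : α 56 = true := tt fun y => l4427 h y
  l3666 h x188t x272t x56t

theorem l4465 (h : Good α) (x424t : α 424 = true) : False :=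
  have x272t : α 272 = true := tt fun y => l4461 h y
  have x335t : α 335 = true := tt fun y => l4428 h y
  l3731 h x424t x335t x272t

theorem l4466 (h : Good α) (x113t : α 113 = true) : False :=
  have x272t : α 272 = true := tt fun y => l4461 h y
  l4449 h x113t x272t

theorem l4467 (h : Good α) (x233t : α 233 = true) : False :=
  have x272t : α 272 = true := tt fun y => l4461 h y
  l4460 h x272t x233t

theorem l4468 (h : Good α) (x264f : α 264 = false) : False :=
  have x113f : α 113 = false := ff fun y => l4466 h y
  l3691 h x113f x264f

theorem l4469 (h : Good α) (x298f : α 298 = false) : False :=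
  have x113f : α 113 = false := ff fun y => l4466 h y
  have x327f : α 327 = false := ff fun y => l4429 h y
  l3692 h x113f x327f x298f

theorem l4470 (h : Good α) (x91f : α 91 = false) : False :=
  have x233f : α 233 = false := ff fun y => l4467 h y
  l4337 h x233f x91f

theorem l4471 (h : Good α) (x354f : α 354 = false) : False :=
  have x233f : α 233 = false := ff fun y => l4467 h y
  have x204f : α 204 = false := ff fun y => l4433 h y
  l4346 h x354f x204f x233f

theorem l4472 (h : Good α) (x260t : α 260 = true) (x328t : α 328 = true) : False :=
  have x346f : α 346 = false := ff fun y => l4463 h y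
  have x272t : α 272 = true := tt fun y => l4461 h y
  have x275f : α 275 = false := ff fun y => l3715 h x260t y
  have x181f : α 181 = false := ff fun y => l4328 h y x260t
  have x425f : α 425 = false := ff fun y => l3720 h y x260t x328t
  have x485t : α 485 = true := tt fun y => c3229 h y x346f x275f
  have x120f : α 120 = false := ff fun y => c2458 h x485t x272t y
  have x16t : α 16 = true := tt fun y => c360 h x120f y x275f x181f
  have x308t : α 308 = true := tt fun y => c2460 h y x120f x425f x275f
  l4315 h x308t x16t x328t

theorem l4473 (h : Good α) (x97f : α 97 = false) (x92f : α 92 = false) : False :=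
  have x354t : α 354 = true := tt fun y => l4471 h y
  have x114f : α 114 = false := ff fun y => l4462 h y
  have x233f : α 233 = false := ff fun y => l4467 h y
  have x424f : α 424 = false := ff fun y => l4465 h y
  have x327f : α 327 = false := ff fun y => l4429 h y
  have x334t : α 334 = true := tt fun y => l4434 h y
  have x113f : α 113 = false := ff fun y => l4466 h y
  have x272t : α 272 = true := tt fun y => l4461 h y
  have x91t : α 91 = true := tt fun y => l4470 h y
  have x1t : α 1 = true := tt fun y => l4425 h y
  have x56t : α 56 = true := tt fun y => l4427 h y
  have x61t : α 61 = true := tt fun y => l4432 h y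
  have x59f : α 59 = false := ff fun y => l4431 h y
  have x250t : α 250 = true := tt fun y => l4353 h y x97f
  have x189t : α 189 = true := tt fun y => c2175 h x113f x97f y
  have x237t : α 237 = true := tt fun y => l4359 h x97f y x92f
  have x351f : α 351 = false := ff fun y => c3031 h x237t x250t y x354t
  have x257f : α 257 = false := ff fun y => l3577 h y x237t x114f x91t
  have x197t : α 197 = true := tt fun y => l4344 h x233f x351f y
  have x94t : α 94 = true := tt fun y => l4361 h x233f x351f y
  have x543t : α 543 = true := tt fun y => c3000 h y x351f x233f
  have x201t : α 201 = true := tt fun y => c2921 h x351f x233f y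
  have x22f : α 22 = false := ff fun y => c657 h x272t x94t y
  have x238f : α 238 = false := ff fun y => c1983 h x94t y x91t x250t
  have x402f : α 402 = false := ff fun y => c121 h y x1t x543t x201t
  have x117t : α 117 = true := tt fun y => c2427 h x424f x238f y
  have x328t : α 328 = true := tt fun y => c3263 h y x327f x402f
  have x260f : α 260 = false := ff fun y => l4472 h y x328t
  have x28f : α 28 = false := ff fun y => l4443 h x260f x328t y x272t
  have x128t : α 128 = true := tt fun y => c622 h x22f x28f y
  have x20t : α 20 = true := tt fun y => c521 h x92f y x28f
  have x85f : α 85 = false := ff fun y => c1880 h x117t y x128t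
  have x299f : α 299 = false := ff fun y => c571 h x20t x117t y
  have x273f : α 273 = false := ff fun y => c569 h x20t x117t x189t y
  have x62t : α 62 = true := tt fun y => c847 h y x28f x85f
  have x223t : α 223 = true := tt fun y => c854 h x28f x85f y
  have x506t : α 506 = true := tt fun y => c2202 h x97f x273f y
  have x380f : α 380 = false := ff fun y => c1592 h x62t x223t y x506t
  have x183t : α 183 = true := tt fun y => l4354 h x380f y
  have x430f : α 430 = false := ff fun y => l4333 h y x183t x334t
  have x340f : α 340 = false := ff fun y => c2007 h x91t x183t y
  have x106t : α 106 = true := tt fun y => c2291 h y x299f x257f x430f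
  have x27t : α 27 = true := tt fun y => c830 h y x113f x260f x340f
  have x25t : α 25 = true := tt fun y => c784 h y x97f x260f x340f
  have x108t : α 108 = true := tt fun y => l4186 h x56t x260f x28f y x1t x197t x340f x91t x94t x237t x272t
  have x123f : α 123 = false := ff fun y => c1588 h x106t x62t y
  have x192f : α 192 = false := ff fun y => c777 h y x61t x25t
  have x87f : α 87 = false := ff fun y => c763 h x27t x25t y
  have x206t : α 206 = true := tt fun y => c2060 h x92f x192f x123f y
  have x89t : α 89 = true := tt fun y => c1504 h y x59f x87f
  c1945 h x89t x108t x206t

theorem l4474 (h : Good α) (x57t : α 57 = true) : False :=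
  have x23t : α 23 = true := tt fun y => l4438 h y
  have x354t : α 354 = true := tt fun y => l4471 h y
  have x204f : α 204 = false := ff fun y => l4433 h y
  have x424f : α 424 = false := ff fun y => l4465 h y
  have x61t : α 61 = true := tt fun y => l4432 h y
  have x233f : α 233 = false := ff fun y => l4467 h y
  have x1t : α 1 = true := tt fun y => l4425 h y
  have x327f : α 327 = false := ff fun y => l4429 h y
  have x272t : α 272 = true := tt fun y => l4461 h y
  have x334t : α 334 = true := tt fun y => l4434 h y
  have x114f : α 114 = false := ff fun y => l4462 h y
  have x92f : α 92 = false := ff fun y => c64 h x57t y x1t x61t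
  have x97t : α 97 = true := tt fun y => l4473 h y x92f
  have x242f : α 242 = false := ff fun y => c1557 h x61t x97t y
  have x190f : α 190 = false := ff fun y => l3738 h y x61t x97t
  have x273f : α 273 = false := ff fun y => c707 h x23t x97t y
  have x201t : α 201 = true := tt fun y => c2919 h x233f y x242f
  have x94t : α 94 = true := tt fun y => c2040 h y x92f x233f x242f
  have x189t : α 189 = true := tt fun y => l4377 h y x273f x334t
  have x238f : α 238 = false := ff fun y => c1442 h x57t y x201t x354t
  have x22f : α 22 = false := ff fun y => c657 h x272t x94t y
  have x340f : α 340 = false := ff fun y => c2183 h x97t x189t y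
  have x197t : α 197 = true := tt fun y => l4367 h x238f y x204f
  have x352t : α 352 = true := tt fun y => c2938 h y x238f x204f
  have x250t : α 250 = true := tt fun y => c2936 h x238f x204f y
  have x117t : α 117 = true := tt fun y => c2427 h x424f x238f y
  have x326f : α 326 = false := ff fun y => l3726 h x197t y
  have x237f : α 237 = false := ff fun y => c1554 h x197t x61t y x97t
  have x351f : α 351 = false := ff fun y => c112 h x197t x1t y x201t
  have x450f : α 450 = false := ff fun y => c2200 h x97t x250t y
  have x236f : α 236 = false := ff fun y => c2188 h y x352t x97t x250t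
  have x423t : α 423 = true := tt fun y => c2388 h x114f x237f y
  have x543t : α 543 = true := tt fun y => c3000 h y x351f x233f
  have x239t : α 239 = true := tt fun y => c2990 h y x236f x233f x242f
  have x402f : α 402 = false := ff fun y => c121 h y x1t x543t x201t
  have x328t : α 328 = true := tt fun y => c3263 h y x327f x402f
  have x312t : α 312 = true := tt fun y => c3252 h x402f x326f y
  have x260f : α 260 = false := ff fun y => l4472 h y x328t
  have x28f : α 28 = false := ff fun y => l4443 h x260f x328t y x272t
  have x128t : α 128 = true := tt fun y => c622 h x22f x28f y
  have x20t : α 20 = true := tt fun y => c521 h x92f y x28f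
  have x85f : α 85 = false := ff fun y => c1880 h x117t y x128t
  have x306f : α 306 = false := ff fun y => c576 h y x20t x423t x189t
  have x399t : α 399 = true := tt fun y => c856 h x28f x85f x340f y
  have x106t : α 106 = true := tt fun y => c661 h x306f y x22f
  have x205f : α 205 = false := ff fun y => c2103 h x94t x106t y
  have x257f : α 257 = false := ff fun y => c565 h x106t x20t y x189t
  have x487t : α 487 = true := tt fun y => c875 h x205f x28f y x340f
  have x380t : α 380 = true := tt fun y => c3036 h x237f x257f y
  have x202f : α 202 = false := ff fun y => c2931 h x312t y x487t x399t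
  have x506f : α 506 = false := ff fun y => l4379 h x28f x85f x205f y x380t
  have x157t : α 157 = true := tt fun y => l4366 h y x202f
  have x430t : α 430 = true := tt fun y => c3374 h x450f y x506f
  have x161f : α 161 = false := ff fun y => c2420 h y x117t x157t
  have x183f : α 183 = false := ff fun y => l4333 h x430t y x334t
  have x80t : α 80 = true := tt fun y => c1816 h y x161f x183f x273f
  have x36t : α 36 = true := tt fun y => l4383 h y x28f x183f x340f x22f x114f
  have x10f : α 10 = false := ff fun y => c199 h x239t x80t y
  have x74f : α 74 = false := ff fun y => l3637 h x36t y x197t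
  have x40t : α 40 = true := tt fun y => l4397 h y x10f x28f
  have x98t : α 98 = true := tt fun y => c1749 h x74f y x237f x257f
  have x267t : α 267 = true := tt fun y => l4384 h y x98t x183f x340f x190f
  have x102f : α 102 = false := ff fun y => l3683 h y x267t
  have x108f : α 108 = false := ff fun y => c1100 h x40t y x267t
  have x90t : α 90 = true := tt fun y => c619 h x22f x28f y x102f
  have x478t : α 478 = true := tt fun y => c2246 h x102f x260f y
  have x282t : α 282 = true := tt fun y => c870 h x28f x108f y
  have x95f : α 95 = false := ff fun y => l4324 h y x90t
  have x109t : α 109 = true := tt fun y => c2143 h y x95f x183f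
  have x339t : α 339 = true := tt fun y => c2150 h x95f x183f y
  c2330 h x109t x282t x339t x478t

theorem l4475 (h : Good α) (x94f : α 94 = false) : False :=
  have x57f : α 57 = false := ff fun y => l4474 h y
  l4349 h x94f x57f

theorem l4476 (h : Good α) (x20f : α 20 = false) : False :=
  have x57f : α 57 = false := ff fun y => l4474 h y
  have x188f : α 188 = false := ff fun y => l4464 h y
  c533 h x188f x57f x20f

theorem l4477 (h : Good α) (x22t : α 22 = true) : False :=
  have x94t : α 94 = true := tt fun y => l4475 h y
  have x272t : α 272 = true := tt fun y => l4461 h y
  c657 h x272t x94t x22t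

theorem l4478 (h : Good α) (x92t : α 92 = true) : False :=
  have x20t : α 20 = true := tt fun y => l4476 h y
  have x264t : α 264 = true := tt fun y => l4468 h y
  c556 h x264t x92t x20t

theorem l4479 (h : Good α) (x184f : α 184 = false) : False :=
  have x22f : α 22 = false := ff fun y => l4477 h y
  have x57f : α 57 = false := ff fun y => l4474 h y
  c646 h x184f x57f x22f

theorem l4480 (h : Good α) (x97f : α 97 = false) : False :=
  have x92f : α 92 = false := ff fun y => l4478 h y
  have x57f : α 57 = false := ff fun y => l4474 h y
  l4347 h x92f x97f x57f

theorem l4481 (h : Good α) (x238f : α 238 = false) : False :=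
  have x92f : α 92 = false := ff fun y => l4478 h y
  have x57f : α 57 = false := ff fun y => l4474 h y
  c1415 h x57f x92f x238f

theorem l4482 (h : Good α) (x429t : α 429 = true) : False :=
  have x184t : α 184 = true := tt fun y => l4479 h y
  have x298t : α 298 = true := tt fun y => l4469 h y
  have x23t : α 23 = true := tt fun y => l4438 h y
  c719 h x429t x184t x298t x23t

theorem l4483 (h : Good α) (x273t : α 273 = true) : False :=
  have x97t : α 97 = true := tt fun y => l4480 h y
  have x23t : α 23 = true := tt fun y => l4438 h y
  c707 h x23t x97t x273t

theorem l4484 (h : Good α) (x250t : α 250 = true) : False :=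
  have x238t : α 238 = true := tt fun y => l4481 h y
  have x94t : α 94 = true := tt fun y => l4475 h y
  have x91t : α 91 = true := tt fun y => l4470 h y
  c1983 h x94t x238t x91t x250t

theorem l4485 (h : Good α) (x106f : α 106 = false) : False :=
  have x429f : α 429 = false := ff fun y => l4482 h y
  l4364 h x429f x106f

theorem l4486 (h : Good α) (x307f : α 307 = false) : False :=
  have x250f : α 250 = false := ff fun y => l4484 h y
  have x273f : α 273 = false := ff fun y => l4483 h y
  c3109 h x307f x250f x273f

theorem l4487 (h : Good α) (x19f : α 19 = false) : False :=
  have x106t : α 106 = true := tt fun y => l4485 h y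
  have x94t : α 94 = true := tt fun y => l4475 h y
  have x57f : α 57 = false := ff fun y => l4474 h y
  have x272t : α 272 = true := tt fun y => l4461 h y
  l4453 h x19f x57f x94t x106t x272t

theorem l4488 (h : Good α)  : False :=
  have x307t : α 307 = true := tt fun y => l4486 h y
  have x19t : α 19 = true := tt fun y => l4487 h y
  have x335t : α 335 = true := tt fun y => l4428 h y
  have x56t : α 56 = true := tt fun y => l4427 h y
  c480 h x56t x335t x19t x307t

end Q110.RC
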