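import Mathlib
import Pool.Agent.Q110.RC.Lem4

/-! # Geometry for `S(4)` -/

namespace Q110.RC

open Complex

/-! ### the 12-th root of unity -/

/-- `ζ = exp(π i / 6)` -/
noncomputable def ze : ℂ := ⟨Real.sqrt 3 / 2, 1 / 2⟩

theorem ze_sq : ze ^ 2 = ⟨1 / 2, Real.sqrt 3 / 2⟩ := by
  have h : Real.sqrt 3 * Real.sqrt 3 = 3 := Real.mul_self_sqrt (by norm_num)
  rw [pow_two]
  apply Complex.ext
  · simp only [ze, mul_re]
    nlinarith
  · simp only [ze, mul_im]
    ring

theorem ze_cube : ze ^ 3 = I := by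
  have h : Real.sqrt 3 * Real.sqrt 3 = 3 := Real.mul_self_sqrt (by norm_num)
  rw [show ze ^ 3 = ze ^ 2 * ze by ring, ze_sq]
  apply Complex.ext
  · simp only [ze, mul_re, I_re]
    ring
  · simp only [ze, mul_im, I_im]
    nlinarith

theorem ze_four : ze ^ 4 = ze ^ 2 - 1 := by
  rw [show ze ^ 4 = ze ^ 3 * ze by ring, ze_cube, ze_sq]
  apply Complex.ext
  · simp [ze]
    norm_num
  · simp [ze]

theorem norm_ze : ‖ze‖ = 1 := by
  have h3 : ‖ze‖ ^ 3 = 1 := by
    rw [← norm_pow, ze_cube]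
    exact norm_I
  exact (pow_eq_one_iff_of_nonneg (norm_nonneg _) (by norm_num)).mp h3

theorem ze_ne_zero : ze ≠ 0 := by
  intro h
  have := norm_ze
  rw [h] at this
  simp at this

/-! ### points with given coordinates -/

/-- the complex number of the point with index `i` -/
noncomputable def pt (i : ℕ) : ℂ :=
  ((crd i 0 : ℂ) - 16) + ((crd i 1 : ℂ) - 16) * ze + ((crd i 2 : ℂ) - 16) * ze ^ 2 +
    ((crd i 3 : ℂ) - 16) * ze ^ 3

theorem zc_sum (r : ℕ) (hr : r ≤ 5) :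
    ((zc r 0 : ℂ) - 16) + ((zc r 1 : ℂ) - 16) * ze + ((zc r 2 : ℂ) - 16) * ze ^ 2 +
      ((zc r 3 : ℂ) - 16) * ze ^ 3 = ze ^ r := by
  have h4 := ze_four
  interval_cases r <;> simp only [zc] <;> push_cast
  · ring
  · ring
  · ring
  · ring
  · rw [h4]; ring
  · rw [show ze ^ 5 = ze ^ 4 * ze by ring, h4]; ring

theorem isStep1_eq {i j r s a : ℕ} (h : isStep1 i j r s a = true) :
    (crd j a : ℂ) + 16 * s = crd i a + s * zc r a := by
  have h2 := Nat.eq_of_beq_eq_true h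
  have h3 : crd j a + 16 * s = crd i a + s * zc r a := h2
  exact_mod_cast h3

theorem isStep_eq {i j r s : ℕ} (hr : r ≤ 5) (h : isStep i j r s = true) :
    pt j = pt i + s * ze ^ r := by
  unfold isStep at h
  simp only [Bool.and_eq_true] at h
  obtain ⟨⟨⟨h0, h1⟩, h2⟩, h3⟩ := h
  have e0 := isStep1_eq h0
  have e1 := isStep1_eq h1
  have e2 := isStep1_eq h2
  have e3 := isStep1_eq h3
  rw [← zc_sum r hr]
  unfold pt
  linear_combination e0 + e1 * ze + e2 * ze ^ 2 + e3 * ze ^ 3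

/-! ### colourings of `ℂ` without small monochromatic rectangles -/

/-- no rectangle with sides `s`, `t`, where `s, t ≤ 4` and one of them is at most `2`, is
monochromatic -/
def NoRect (c : ℂ → Bool) : Prop :=
  ∀ (P u : ℂ) (s t : ℕ), ‖u‖ = 1 → 1 ≤ s → 1 ≤ t → s ≤ 4 → t ≤ 4 → (s ≤ 2 ∨ t ≤ 2) →
    ¬ (c (P + s * u) = c P ∧ c (P + t * (I * u)) = c P ∧ c (P + s * u + t * (I * u)) = c P)

theorem row_types : ∀ a x y z : Bool, ¬ (x = a ∧ y = a) → ¬ (x = a ∧ z = a) →
    ¬ (y = a ∧ z = a) →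
    (x = (!a) ∧ y = (!a)) ∨ (x = (!a) ∧ z = (!a)) ∨ (y = (!a) ∧ z = (!a)) := by
  decide

theorem mk_mono {a x y z w : Bool} (h1 : x = a) (h2 : y = a) (h3 : z = a) (h4 : w = a) :
    x = y ∧ z = x ∧ w = x := by
  subst h1
  exact ⟨h2.symm, h3, h4⟩

theorem no_ap {c : ℂ → Bool} (hc : NoRect c) (P u : ℂ) (hu : ‖u‖ = 1) :
    ¬ (c (P + u) = c P ∧ c (P + 2 * u) = c P) := by
  rintro ⟨g1, g2⟩
  -- the colour of the grid point (x, y)
  set g : ℕ → ℕ → Bool := fun x y => c (P + x * u + y * (I * u)) with hg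
  have key : ∀ x y s t : ℕ, 1 ≤ s → s ≤ 2 → 1 ≤ t → t ≤ 4 →
      ¬ (g (x + s) y = g x y ∧ g x (y + t) = g x y ∧ g (x + s) (y + t) = g x y) := by
    intro x y s t hs1 hs2 ht1 ht2 h
    refine hc (P + x * u + y * (I * u)) u s t hu hs1 ht1 (by omega) ht2 (Or.inl hs2) ?_
    simp only [hg] at h
    push_cast at h
    refine ⟨?_, ?_, ?_⟩
    · rw [← h.1]
      congr 1
      ring
    · rw [← h.2.1]
      congr 1
      ring
    · rw [← h.2.2]
      congr 1
      ring
  have g10 : g 1 0 = g 0 0 := by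
    simp only [hg]
    push_cast
    simp only [one_mul, zero_mul, add_zero]
    exact g1
  have g20 : g 2 0 = g 0 0 := by
    simp only [hg]
    push_cast
    simp only [zero_mul, add_zero]
    exact g2
  have row0 : ∀ y, 1 ≤ y → y ≤ 4 → (¬ (g 0 y = g 0 0 ∧ g 1 y = g 0 0)) ∧
      (¬ (g 0 y = g 0 0 ∧ g 2 y = g 0 0)) ∧ (¬ (g 1 y = g 0 0 ∧ g 2 y = g 0 0)) := by
    intro y hy1 hy4
    refine ⟨?_, ?_, ?_⟩
    · rintro ⟨a, b⟩
      have := key 0 0 1 y le_rfl (by norm_num) hy1 hy4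
      simp only [zero_add] at this
      exact this ⟨g10, a, b⟩
    · rintro ⟨a, b⟩
      have := key 0 0 2 y (by norm_num) le_rfl hy1 hy4
      simp only [zero_add] at this
      exact this ⟨g20, a, b⟩
    · rintro ⟨a, b⟩
      have := key 1 0 1 y le_rfl (by norm_num) hy1 hy4
      simp only [zero_add] at this
      exact this ⟨by rw [show (1 + 1 : ℕ) = 2 from rfl, g20, g10], by rw [a, g10],
        by rw [show (1 + 1 : ℕ) = 2 from rfl, b, g10]⟩
  have rows : ∀ y t, 1 ≤ t → t ≤ 4 →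
      (¬ (g 0 y = g 1 y ∧ g 0 (y + t) = g 0 y ∧ g 1 (y + t) = g 0 y)) ∧
      (¬ (g 0 y = g 2 y ∧ g 0 (y + t) = g 0 y ∧ g 2 (y + t) = g 0 y)) ∧
      (¬ (g 1 y = g 2 y ∧ g 1 (y + t) = g 1 y ∧ g 2 (y + t) = g 1 y)) := by
    intro y t ht1 ht4
    refine ⟨?_, ?_, ?_⟩
    · rintro ⟨a, b, d⟩
      exact key 0 y 1 t le_rfl (by norm_num) ht1 ht4 ⟨a.symm, b, d⟩
    · rintro ⟨a, b, d⟩
      exact key 0 y 2 t (by norm_num) le_rfl ht1 ht4 ⟨a.symm, b, d⟩
    · rintro ⟨a, b, d⟩
      exact key 1 y 1 t le_rfl (by norm_num) ht1 ht4 ⟨a.symm, b, d⟩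
  have r1 := row0 1 (by norm_num) (by norm_num)
  have r2 := row0 2 (by norm_num) (by norm_num)
  have r3 := row0 3 (by norm_num) (by norm_num)
  have r4 := row0 4 (by norm_num) (by norm_num)
  have p12 := rows 1 1 (by norm_num) (by norm_num)
  have p13 := rows 1 2 (by norm_num) (by norm_num)
  have p14 := rows 1 3 (by norm_num) (by norm_num)
  have p23 := rows 2 1 (by norm_num) (by norm_num)
  have p24 := rows 2 2 (by norm_num) (by norm_num)
  have p34 := rows 3 1 (by norm_num) (by norm_num)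
  rcases row_types _ _ _ _ r1.1 r1.2.1 r1.2.2 with ⟨h1, h1'⟩ | ⟨h1, h1'⟩ | ⟨h1, h1'⟩ <;>
  rcases row_types _ _ _ _ r2.1 r2.2.1 r2.2.2 with ⟨h2, h2'⟩ | ⟨h2, h2'⟩ | ⟨h2, h2'⟩ <;>
  rcases row_types _ _ _ _ r3.1 r3.2.1 r3.2.2 with ⟨h3, h3'⟩ | ⟨h3, h3'⟩ | ⟨h3, h3'⟩ <;>
  rcases row_types _ _ _ _ r4.1 r4.2.1 r4.2.2 with ⟨h4, h4'⟩ | ⟨h4, h4'⟩ | ⟨h4, h4'⟩ <;>
  first
    | exact p12.1 (mk_mono h1 h1' h2 h2')
    | exact p12.2.1 (mk_mono h1 h1' h2 h2')
    | exact p12.2.2 (mk_mono h1 h1' h2 h2')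
    | exact p13.1 (mk_mono h1 h1' h3 h3')
    | exact p13.2.1 (mk_mono h1 h1' h3 h3')
    | exact p13.2.2 (mk_mono h1 h1' h3 h3')
    | exact p14.1 (mk_mono h1 h1' h4 h4')
    | exact p14.2.1 (mk_mono h1 h1' h4 h4')
    | exact p14.2.2 (mk_mono h1 h1' h4 h4')
    | exact p23.1 (mk_mono h2 h2' h3 h3')
    | exact p23.2.1 (mk_mono h2 h2' h3 h3')
    | exact p23.2.2 (mk_mono h2 h2' h3 h3')
    | exact p24.1 (mk_mono h2 h2' h4 h4')
    | exact p24.2.1 (mk_mono h2 h2' h4 h4')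
    | exact p24.2.2 (mk_mono h2 h2' h4 h4')
    | exact p34.1 (mk_mono h3 h3' h4 h4')
    | exact p34.2.1 (mk_mono h3 h3' h4 h4')
    | exact p34.2.2 (mk_mono h3 h3' h4 h4')

theorem exists_diff {c : ℂ → Bool} (hc : NoRect c) :
    ∃ X Y : ℂ, ‖Y - X‖ = 3 ∧ c X ≠ c Y := by
  by_contra hcon
  push Not at hcon
  have step : ∀ P u : ℂ, ‖u‖ = 1 → c (P + u) = c P := by
    intro P u hu
    set w : ℂ := ⟨1 / 2, Real.sqrt 35 / 2⟩ with hw
    have h35 : Real.sqrt 35 * Real.sqrt 35 = 35 := Real.mul_self_sqrt (by norm_num)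
    have n1 : ‖w‖ = 3 := by
      rw [Complex.norm_eq_sqrt_sq_add_sq]
      rw [show (3 : ℝ) = Real.sqrt 9 by
        rw [show (9 : ℝ) = 3 ^ 2 by norm_num]
        exact (Real.sqrt_sq (by norm_num)).symm]
      congr 1
      simp only [hw]
      nlinarith
    have n2 : ‖w - 1‖ = 3 := by
      rw [Complex.norm_eq_sqrt_sq_add_sq]
      rw [show (3 : ℝ) = Real.sqrt 9 by
        rw [show (9 : ℝ) = 3 ^ 2 by norm_num]
        exact (Real.sqrt_sq (by norm_num)).symm]
      congr 1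
      simp only [hw, sub_re, one_re, sub_im, one_im]
      nlinarith
    have e1 : c P = c (P + u * w) := by
      refine hcon P (P + u * w) ?_
      rw [show P + u * w - P = u * w by ring, norm_mul, hu, n1]
      norm_num
    have e2 : c (P + u) = c (P + u * w) := by
      refine hcon (P + u) (P + u * w) ?_
      rw [show P + u * w - (P + u) = u * (w - 1) by ring, norm_mul, hu, n2]
      norm_num
    rw [e2, e1]
  have h1 := step 0 1 (by simp)
  have h2 := step 0 I (by simp)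
  have h3 := step 1 I (by simp)
  refine hc 0 1 1 1 (by simp) le_rfl le_rfl (by norm_num) (by norm_num) (Or.inl (by norm_num)) ?_
  simp only [zero_add] at h1 h2
  simp only [Nat.cast_one, one_mul, mul_one, zero_add]
  exact ⟨h1, h2, h3.trans h1⟩

theorem exists_triangle {c : ℂ → Bool} (hc : NoRect c) :
    ∃ X Y : ℂ, ‖Y - X‖ = 3 ∧ c X ≠ c Y ∧ c (X + (Y - X) * ze ^ 2) = c Y := by
  obtain ⟨X, Y, h, hne⟩ := exists_diff hc
  by_cases hW : c (X + (Y - X) * ze ^ 2) = c Y
  · exact ⟨X, Y, h, hne, hW⟩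
  · have hW2 : c (X + (Y - X) * ze ^ 2) = c X := by
      revert hW hne
      generalize c (X + (Y - X) * ze ^ 2) = a
      generalize c X = b
      generalize c Y = d
      revert a b d
      decide
    refine ⟨Y, X + (Y - X) * ze ^ 2, ?_, ?_, ?_⟩
    · have h4 := ze_four
      have : X + (Y - X) * ze ^ 2 - Y = (Y - X) * ze ^ 4 := by
        rw [h4]
        ring
      rw [this, norm_mul, norm_pow, norm_ze, h]
      norm_num
    · rw [hW2]
      exact hne.symm
    · rw [hW2]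
      congr 1
      have h4 := ze_four
      have h6 : ze ^ 6 = -1 := by
        rw [show ze ^ 6 = (ze ^ 3) ^ 2 by ring, ze_cube, I_sq]
      have : Y + (X + (Y - X) * ze ^ 2 - Y) * ze ^ 2 = Y + (Y - X) * (ze ^ 4 - ze ^ 2) := by
        ring
      rw [this, h4]
      ring

/-- the points `149`, `150`, `154` -/
theorem pt149 : pt 149 = 2 - ze ^ 2 := by
  have h0 : crd 149 0 = 18 := by decide +kernel
  have h1 : crd 149 1 = 16 := by decide +kernel
  have h2 : crd 149 2 = 15 := by decide +kernel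
  have h3 : crd 149 3 = 16 := by decide +kernel
  unfold pt
  rw [h0, h1, h2, h3]
  push_cast
  ring

theorem pt150 : pt 150 = -1 + 2 * ze ^ 2 := by
  have h0 : crd 150 0 = 15 := by decide +kernel
  have h1 : crd 150 1 = 16 := by decide +kernel
  have h2 : crd 150 2 = 18 := by decide +kernel
  have h3 : crd 150 3 = 16 := by decide +kernel
  unfold pt
  rw [h0, h1, h2, h3]
  push_cast
  ring

theorem pt154 : pt 154 = -1 - ze ^ 2 := by
  have h0 : crd 154 0 = 15 := by decide +kernel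
  have h1 : crd 154 1 = 16 := by decide +kernel
  have h2 : crd 154 2 = 15 := by decide +kernel
  have h3 : crd 154 3 = 16 := by decide +kernel
  unfold pt
  rw [h0, h1, h2, h3]
  push_cast
  ring

theorem noRect_false {c : ℂ → Bool} (hc : NoRect c) : False := by
  obtain ⟨X, Y, h, hne, hW⟩ := exists_triangle hc
  have hze4 : ze ^ 4 ≠ 0 := pow_ne_zero _ ze_ne_zero
  set B : ℂ := (Y - X) / (3 * ze ^ 4) with hB
  have h34 : (3 * ze ^ 4 : ℂ) ≠ 0 := mul_ne_zero (by norm_num) hze4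
  have hBY : Y - X = 3 * ze ^ 4 * B := by
    rw [hB, mul_comm]
    exact (div_mul_cancel₀ (Y - X) h34).symm
  have hBn : ‖B‖ = 1 := by
    rw [hB, norm_div, h, norm_mul, norm_pow, norm_ze]
    norm_num
  clear_value B
  set f : ℕ → ℂ := fun i => X + (pt i - (2 - ze ^ 2)) * B with hf
  have hstep : ∀ i j r s, r ≤ 5 → isStep i j r s = true → f j = f i + s * (ze ^ r * B) := by
    intro i j r s hr hs
    simp only [hf]
    rw [isStep_eq hr hs]
    ring
  have hun : ∀ r : ℕ, ‖ze ^ r * B‖ = 1 := by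
    intro r
    rw [norm_mul, norm_pow, norm_ze, hBn]
    norm_num
  have hzr : ∀ r : ℕ, ze ^ (r + 3) * B = I * (ze ^ r * B) := by
    intro r
    rw [pow_add, ze_cube]
    ring
  have beq_iff : ∀ x y : ℂ, ((c x == c Y) = (c y == c Y)) ↔ c x = c y := by
    intro x y
    generalize c x = a
    generalize c y = b
    generalize c Y = d
    revert a b d
    decide
  refine l4488 (α := fun i => c (f i) == c Y) ⟨?_, ?_, ?_, ?_, ?_⟩
  · intro r s t i j k l e hmono
    simp only [beq_iff] at hmono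
    unfold rectOK at e
    simp only [Bool.and_eq_true, Bool.or_eq_true, Nat.ble_eq] at e
    obtain ⟨⟨⟨⟨⟨⟨⟨⟨hr, hs1⟩, ht1⟩, hs4⟩, ht4⟩, hst⟩, e1⟩, e2⟩, e3⟩ := e
    have h1 := hstep i j r s (by omega) e1
    have h2 := hstep i k (r + 3) t (by omega) e2
    have h3 := hstep j l (r + 3) t (by omega) e3
    rw [hzr] at h2 h3
    refine hc (f i) (ze ^ r * B) s t (hun r) hs1 ht1 hs4 ht4 hst ?_
    rw [← h1, ← h2, ← h3]
    exact hmono
  · intro r i j k e hmono
    simp only [beq_iff] at hmono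
    unfold apOK at e
    simp only [Bool.and_eq_true, Nat.ble_eq] at e
    obtain ⟨⟨hr, e1⟩, e2⟩ := e
    have h1 := hstep i j r 1 hr e1
    have h2 := hstep j k r 1 hr e2
    refine no_ap hc (f i) (ze ^ r * B) (hun r) ?_
    have h3 : f k = f i + 2 * (ze ^ r * B) := by
      rw [h2, h1]
      push_cast
      ring
    have h4 : f j = f i + ze ^ r * B := by
      rw [h1]
      push_cast
      ring
    rw [← h3, ← h4]
    exact hmono
  · have : f 154 = X + (Y - X) * ze ^ 2 := by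
      simp only [hf]
      rw [pt154, hBY]
      have h6 : ze ^ 4 * ze ^ 2 = -1 := by
        rw [show ze ^ 4 * ze ^ 2 = (ze ^ 3) ^ 2 by ring, ze_cube, I_sq]
      linear_combination (-3 * B) * h6
    simp only [this, hW, beq_self_eq_true]
  · have : f 149 = X := by
      simp only [hf]
      rw [pt149]
      ring
    simp only [this]
    revert hne
    generalize c X = a
    generalize c Y = b
    revert a b
    decide
  · have : f 150 = Y := by
      simp only [hf]
      rw [pt150]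
      have h4 := ze_four
      linear_combination (-1 : ℂ) * hBY + (-3 * B) * h4
    simp only [this, beq_self_eq_true]

end Q110.RC
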