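import Pool.Agent.Q110.RC.Base

/-! # Generated part of the refutation used for `S(4)` -/

set_option linter.all false

namespace Q110.RC

variable {α : Nat → Bool}

theorem c1 (h : Good α) (h1 : α 51 = false) (h2 : α 1 = false) (h3 : α 50 = false) : False :=
  af h false 5 51 1 50 (by decide +kernel) h1 h2 h3

theorem c2 (h : Good α) (h1 : α 51 = true) (h2 : α 1 = true) (h3 : α 50 = true) : False :=
  af h true 5 51 1 50 (by decide +kernel) h1 h2 h3

theorem c3 (h : Good α) (h1 : α 56 = false) (h2 : α 1 = false) (h3 : α 86 = false) (h4 : α 50 = false) : False :=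
  rf h false 2 1 1 56 1 86 50 (by decide +kernel) h1 h2 h3 h4

theorem c4 (h : Good α) (h1 : α 56 = true) (h2 : α 1 = true) (h3 : α 86 = true) (h4 : α 50 = true) : False :=
  rf h true 2 1 1 56 1 86 50 (by decide +kernel) h1 h2 h3 h4

theorem c5 (h : Good α) (h1 : α 1 = false) (h2 : α 59 = false) (h3 : α 50 = false) (h4 : α 87 = false) : False :=
  rf h false 2 1 1 1 59 50 87 (by decide +kernel) h1 h2 h3 h4

theorem c6 (h : Good α) (h1 : α 1 = true) (h2 : α 59 = true) (h3 : α 50 = true) (h4 : α 87 = true) : False :=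
  rf h true 2 1 1 1 59 50 87 (by decide +kernel) h1 h2 h3 h4

theorem c7 (h : Good α) (h1 : α 1 = false) (h2 : α 50 = false) (h3 : α 193 = false) : False :=
  af h false 5 1 50 193 (by decide +kernel) h1 h2 h3

theorem c8 (h : Good α) (h1 : α 1 = true) (h2 : α 50 = true) (h3 : α 193 = true) : False :=
  af h true 5 1 50 193 (by decide +kernel) h1 h2 h3

theorem c9 (h : Good α) (h1 : α 404 = true) (h2 : α 1 = true) (h3 : α 436 = true) (h4 : α 50 = true) : False :=
  rf h true 2 3 1 404 1 436 50 (by decide +kernel) h1 h2 h3 h4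

theorem c10 (h : Good α) (h1 : α 1 = true) (h2 : α 407 = true) (h3 : α 50 = true) (h4 : α 437 = true) : False :=
  rf h true 2 3 1 1 407 50 437 (by decide +kernel) h1 h2 h3 h4

theorem c11 (h : Good α) (h1 : α 88 = false) (h2 : α 51 = false) (h3 : α 56 = false) (h4 : α 1 = false) : False :=
  rf h false 2 1 1 88 51 56 1 (by decide +kernel) h1 h2 h3 h4

theorem c12 (h : Good α) (h1 : α 88 = true) (h2 : α 51 = true) (h3 : α 56 = true) (h4 : α 1 = true) : False :=
  rf h true 2 1 1 88 51 56 1 (by decide +kernel) h1 h2 h3 h4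

theorem c13 (h : Good α) (h1 : α 51 = true) (h2 : α 89 = true) (h3 : α 1 = true) (h4 : α 59 = true) : False :=
  rf h true 2 1 1 51 89 1 59 (by decide +kernel) h1 h2 h3 h4

theorem c14 (h : Good α) (h1 : α 194 = false) (h2 : α 51 = false) (h3 : α 1 = false) : False :=
  af h false 5 194 51 1 (by decide +kernel) h1 h2 h3

theorem c15 (h : Good α) (h1 : α 194 = true) (h2 : α 51 = true) (h3 : α 1 = true) : False :=
  af h true 5 194 51 1 (by decide +kernel) h1 h2 h3

theorem c16 (h : Good α) (h1 : α 245 = false) (h2 : α 51 = false) (h3 : α 199 = false) (h4 : α 1 = false) : False :=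
  rf h false 2 2 1 245 51 199 1 (by decide +kernel) h1 h2 h3 h4

theorem c17 (h : Good α) (h1 : α 245 = true) (h2 : α 51 = true) (h3 : α 199 = true) (h4 : α 1 = true) : False :=
  rf h true 2 2 1 245 51 199 1 (by decide +kernel) h1 h2 h3 h4

theorem c18 (h : Good α) (h1 : α 51 = false) (h2 : α 246 = false) (h3 : α 1 = false) (h4 : α 202 = false) : False :=
  rf h false 2 2 1 51 246 1 202 (by decide +kernel) h1 h2 h3 h4

theorem c19 (h : Good α) (h1 : α 51 = true) (h2 : α 438 = true) (h3 : α 1 = true) (h4 : α 407 = true) : False :=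
  rf h true 2 3 1 51 438 1 407 (by decide +kernel) h1 h2 h3 h4

theorem c20 (h : Good α) (h1 : α 53 = false) (h2 : α 1 = false) (h3 : α 52 = false) : False :=
  af h false 4 53 1 52 (by decide +kernel) h1 h2 h3

theorem c21 (h : Good α) (h1 : α 53 = true) (h2 : α 1 = true) (h3 : α 52 = true) : False :=
  af h true 4 53 1 52 (by decide +kernel) h1 h2 h3

theorem c22 (h : Good α) (h1 : α 55 = false) (h2 : α 1 = false) (h3 : α 90 = false) (h4 : α 52 = false) : False :=
  rf h false 1 1 1 55 1 90 52 (by decide +kernel) h1 h2 h3 h4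

theorem c23 (h : Good α) (h1 : α 55 = true) (h2 : α 1 = true) (h3 : α 90 = true) (h4 : α 52 = true) : False :=
  rf h true 1 1 1 55 1 90 52 (by decide +kernel) h1 h2 h3 h4

theorem c24 (h : Good α) (h1 : α 1 = false) (h2 : α 60 = false) (h3 : α 52 = false) (h4 : α 95 = false) : False :=
  rf h false 1 1 1 1 60 52 95 (by decide +kernel) h1 h2 h3 h4

theorem c25 (h : Good α) (h1 : α 1 = false) (h2 : α 52 = false) (h3 : α 195 = false) : False :=
  af h false 4 1 52 195 (by decide +kernel) h1 h2 h3

theorem c26 (h : Good α) (h1 : α 1 = true) (h2 : α 52 = true) (h3 : α 195 = true) : False :=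
  af h true 4 1 52 195 (by decide +kernel) h1 h2 h3

theorem c27 (h : Good α) (h1 : α 1 = false) (h2 : α 203 = false) (h3 : α 52 = false) (h4 : α 247 = false) : False :=
  rf h false 1 2 1 1 203 52 247 (by decide +kernel) h1 h2 h3 h4

theorem c28 (h : Good α) (h1 : α 96 = false) (h2 : α 53 = false) (h3 : α 55 = false) (h4 : α 1 = false) : False :=
  rf h false 1 1 1 96 53 55 1 (by decide +kernel) h1 h2 h3 h4

theorem c29 (h : Good α) (h1 : α 96 = true) (h2 : α 53 = true) (h3 : α 55 = true) (h4 : α 1 = true) : False :=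
  rf h true 1 1 1 96 53 55 1 (by decide +kernel) h1 h2 h3 h4

theorem c30 (h : Good α) (h1 : α 53 = false) (h2 : α 93 = false) (h3 : α 1 = false) (h4 : α 60 = false) : False :=
  rf h false 1 1 1 53 93 1 60 (by decide +kernel) h1 h2 h3 h4

theorem c31 (h : Good α) (h1 : α 196 = false) (h2 : α 53 = false) (h3 : α 1 = false) : False :=
  af h false 4 196 53 1 (by decide +kernel) h1 h2 h3

theorem c32 (h : Good α) (h1 : α 196 = true) (h2 : α 53 = true) (h3 : α 1 = true) : False :=
  af h true 4 196 53 1 (by decide +kernel) h1 h2 h3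

theorem c33 (h : Good α) (h1 : α 53 = true) (h2 : α 252 = true) (h3 : α 1 = true) (h4 : α 203 = true) : False :=
  rf h true 1 2 1 53 252 1 203 (by decide +kernel) h1 h2 h3 h4

theorem c34 (h : Good α) (h1 : α 53 = true) (h2 : α 448 = true) (h3 : α 1 = true) (h4 : α 408 = true) : False :=
  rf h true 1 3 1 53 448 1 408 (by decide +kernel) h1 h2 h3 h4

theorem c35 (h : Good α) (h1 : α 94 = false) (h2 : α 57 = false) (h3 : α 54 = false) (h4 : α 1 = false) : False :=
  rf h false 0 1 1 94 57 54 1 (by decide +kernel) h1 h2 h3 h4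

theorem c36 (h : Good α) (h1 : α 94 = true) (h2 : α 57 = true) (h3 : α 54 = true) (h4 : α 1 = true) : False :=
  rf h true 0 1 1 94 57 54 1 (by decide +kernel) h1 h2 h3 h4

theorem c37 (h : Good α) (h1 : α 54 = false) (h2 : α 1 = false) (h3 : α 91 = false) (h4 : α 58 = false) : False :=
  rf h false 0 1 1 54 1 91 58 (by decide +kernel) h1 h2 h3 h4

theorem c38 (h : Good α) (h1 : α 54 = true) (h2 : α 1 = true) (h3 : α 91 = true) (h4 : α 58 = true) : False :=
  rf h true 0 1 1 54 1 91 58 (by decide +kernel) h1 h2 h3 h4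

theorem c39 (h : Good α) (h1 : α 54 = false) (h2 : α 1 = false) (h3 : α 61 = false) : False :=
  af h false 0 54 1 61 (by decide +kernel) h1 h2 h3

theorem c40 (h : Good α) (h1 : α 54 = true) (h2 : α 1 = true) (h3 : α 61 = true) : False :=
  af h true 0 54 1 61 (by decide +kernel) h1 h2 h3

theorem c41 (h : Good α) (h1 : α 197 = false) (h2 : α 54 = false) (h3 : α 1 = false) : False :=
  af h false 0 197 54 1 (by decide +kernel) h1 h2 h3

theorem c42 (h : Good α) (h1 : α 197 = true) (h2 : α 54 = true) (h3 : α 1 = true) : False :=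
  af h true 0 197 54 1 (by decide +kernel) h1 h2 h3

theorem c43 (h : Good α) (h1 : α 239 = false) (h2 : α 200 = false) (h3 : α 54 = false) (h4 : α 1 = false) : False :=
  rf h false 0 1 2 239 200 54 1 (by decide +kernel) h1 h2 h3 h4

theorem c44 (h : Good α) (h1 : α 239 = true) (h2 : α 200 = true) (h3 : α 54 = true) (h4 : α 1 = true) : False :=
  rf h true 0 1 2 239 200 54 1 (by decide +kernel) h1 h2 h3 h4

theorem c45 (h : Good α) (h1 : α 54 = false) (h2 : α 1 = false) (h3 : α 233 = false) (h4 : α 201 = false) : False :=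
  rf h false 0 1 2 54 1 233 201 (by decide +kernel) h1 h2 h3 h4

theorem c46 (h : Good α) (h1 : α 54 = true) (h2 : α 1 = true) (h3 : α 233 = true) (h4 : α 201 = true) : False :=
  rf h true 0 1 2 54 1 233 201 (by decide +kernel) h1 h2 h3 h4

theorem c47 (h : Good α) (h1 : α 446 = false) (h2 : α 405 = false) (h3 : α 54 = false) (h4 : α 1 = false) : False :=
  rf h false 0 1 3 446 405 54 1 (by decide +kernel) h1 h2 h3 h4

theorem c48 (h : Good α) (h1 : α 446 = true) (h2 : α 405 = true) (h3 : α 54 = true) (h4 : α 1 = true) : False :=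
  rf h true 0 1 3 446 405 54 1 (by decide +kernel) h1 h2 h3 h4

theorem c49 (h : Good α) (h1 : α 54 = false) (h2 : α 1 = false) (h3 : α 439 = false) (h4 : α 406 = false) : False :=
  rf h false 0 1 3 54 1 439 406 (by decide +kernel) h1 h2 h3 h4

theorem c50 (h : Good α) (h1 : α 54 = true) (h2 : α 1 = true) (h3 : α 439 = true) (h4 : α 406 = true) : False :=
  rf h true 0 1 3 54 1 439 406 (by decide +kernel) h1 h2 h3 h4

theorem c51 (h : Good α) (h1 : α 55 = false) (h2 : α 1 = false) (h3 : α 60 = false) : False :=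
  af h false 1 55 1 60 (by decide +kernel) h1 h2 h3

theorem c52 (h : Good α) (h1 : α 55 = true) (h2 : α 1 = true) (h3 : α 60 = true) : False :=
  af h true 1 55 1 60 (by decide +kernel) h1 h2 h3

theorem c53 (h : Good α) (h1 : α 55 = true) (h2 : α 1 = true) (h3 : α 229 = true) (h4 : α 195 = true) : False :=
  rf h true 1 1 2 55 1 229 195 (by decide +kernel) h1 h2 h3 h4

theorem c54 (h : Good α) (h1 : α 198 = false) (h2 : α 55 = false) (h3 : α 1 = false) : False :=
  af h false 1 198 55 1 (by decide +kernel) h1 h2 h3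

theorem c55 (h : Good α) (h1 : α 198 = true) (h2 : α 55 = true) (h3 : α 1 = true) : False :=
  af h true 1 198 55 1 (by decide +kernel) h1 h2 h3

theorem c56 (h : Good α) (h1 : α 56 = false) (h2 : α 1 = false) (h3 : α 59 = false) : False :=
  af h false 2 56 1 59 (by decide +kernel) h1 h2 h3

theorem c57 (h : Good α) (h1 : α 56 = true) (h2 : α 1 = true) (h3 : α 59 = true) : False :=
  af h true 2 56 1 59 (by decide +kernel) h1 h2 h3

theorem c58 (h : Good α) (h1 : α 235 = true) (h2 : α 194 = true) (h3 : α 56 = true) (h4 : α 1 = true) : False :=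
  rf h true 2 1 2 235 194 56 1 (by decide +kernel) h1 h2 h3 h4

theorem c59 (h : Good α) (h1 : α 199 = false) (h2 : α 56 = false) (h3 : α 1 = false) : False :=
  af h false 2 199 56 1 (by decide +kernel) h1 h2 h3

theorem c60 (h : Good α) (h1 : α 199 = true) (h2 : α 56 = true) (h3 : α 1 = true) : False :=
  af h true 2 199 56 1 (by decide +kernel) h1 h2 h3

theorem c61 (h : Good α) (h1 : α 57 = false) (h2 : α 1 = false) (h3 : α 58 = false) : False :=
  af h false 3 57 1 58 (by decide +kernel) h1 h2 h3

theorem c62 (h : Good α) (h1 : α 57 = true) (h2 : α 1 = true) (h3 : α 58 = true) : False :=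
  af h true 3 57 1 58 (by decide +kernel) h1 h2 h3

theorem c63 (h : Good α) (h1 : α 57 = false) (h2 : α 92 = false) (h3 : α 1 = false) (h4 : α 61 = false) : False :=
  rf h false 0 1 1 57 92 1 61 (by decide +kernel) h1 h2 h3 h4

theorem c64 (h : Good α) (h1 : α 57 = true) (h2 : α 92 = true) (h3 : α 1 = true) (h4 : α 61 = true) : False :=
  rf h true 0 1 1 57 92 1 61 (by decide +kernel) h1 h2 h3 h4

theorem c65 (h : Good α) (h1 : α 249 = false) (h2 : α 57 = false) (h3 : α 197 = false) (h4 : α 1 = false) : False :=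
  rf h false 0 2 1 249 57 197 1 (by decide +kernel) h1 h2 h3 h4

theorem c66 (h : Good α) (h1 : α 249 = true) (h2 : α 57 = true) (h3 : α 197 = true) (h4 : α 1 = true) : False :=
  rf h true 0 2 1 249 57 197 1 (by decide +kernel) h1 h2 h3 h4

theorem c67 (h : Good α) (h1 : α 200 = false) (h2 : α 57 = false) (h3 : α 1 = false) : False :=
  af h false 3 200 57 1 (by decide +kernel) h1 h2 h3

theorem c68 (h : Good α) (h1 : α 200 = true) (h2 : α 57 = true) (h3 : α 1 = true) : False :=
  af h true 3 200 57 1 (by decide +kernel) h1 h2 h3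

theorem c69 (h : Good α) (h1 : α 57 = false) (h2 : α 238 = false) (h3 : α 1 = false) (h4 : α 204 = false) : False :=
  rf h false 0 2 1 57 238 1 204 (by decide +kernel) h1 h2 h3 h4

theorem c70 (h : Good α) (h1 : α 57 = true) (h2 : α 238 = true) (h3 : α 1 = true) (h4 : α 204 = true) : False :=
  rf h true 0 2 1 57 238 1 204 (by decide +kernel) h1 h2 h3 h4

theorem c71 (h : Good α) (h1 : α 449 = false) (h2 : α 57 = false) (h3 : α 402 = false) (h4 : α 1 = false) : False :=
  rf h false 0 3 1 449 57 402 1 (by decide +kernel) h1 h2 h3 h4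

theorem c72 (h : Good α) (h1 : α 449 = true) (h2 : α 57 = true) (h3 : α 402 = true) (h4 : α 1 = true) : False :=
  rf h true 0 3 1 449 57 402 1 (by decide +kernel) h1 h2 h3 h4

theorem c73 (h : Good α) (h1 : α 57 = false) (h2 : α 444 = false) (h3 : α 1 = false) (h4 : α 409 = false) : False :=
  rf h false 0 3 1 57 444 1 409 (by decide +kernel) h1 h2 h3 h4

theorem c74 (h : Good α) (h1 : α 57 = true) (h2 : α 444 = true) (h3 : α 1 = true) (h4 : α 409 = true) : False :=
  rf h true 0 3 1 57 444 1 409 (by decide +kernel) h1 h2 h3 h4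

theorem c75 (h : Good α) (h1 : α 1 = false) (h2 : α 61 = false) (h3 : α 58 = false) (h4 : α 97 = false) : False :=
  rf h false 0 1 1 1 61 58 97 (by decide +kernel) h1 h2 h3 h4

theorem c76 (h : Good α) (h1 : α 1 = true) (h2 : α 61 = true) (h3 : α 58 = true) (h4 : α 97 = true) : False :=
  rf h true 0 1 1 1 61 58 97 (by decide +kernel) h1 h2 h3 h4

theorem c77 (h : Good α) (h1 : α 197 = false) (h2 : α 1 = false) (h3 : α 237 = false) (h4 : α 58 = false) : False :=
  rf h false 0 2 1 197 1 237 58 (by decide +kernel) h1 h2 h3 h4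

theorem c78 (h : Good α) (h1 : α 197 = true) (h2 : α 1 = true) (h3 : α 237 = true) (h4 : α 58 = true) : False :=
  rf h true 0 2 1 197 1 237 58 (by decide +kernel) h1 h2 h3 h4

theorem c79 (h : Good α) (h1 : α 1 = false) (h2 : α 58 = false) (h3 : α 201 = false) : False :=
  af h false 3 1 58 201 (by decide +kernel) h1 h2 h3

theorem c80 (h : Good α) (h1 : α 1 = true) (h2 : α 58 = true) (h3 : α 201 = true) : False :=
  af h true 3 1 58 201 (by decide +kernel) h1 h2 h3

theorem c81 (h : Good α) (h1 : α 1 = false) (h2 : α 204 = false) (h3 : α 58 = false) (h4 : α 250 = false) : False :=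
  rf h false 0 2 1 1 204 58 250 (by decide +kernel) h1 h2 h3 h4

theorem c82 (h : Good α) (h1 : α 1 = true) (h2 : α 204 = true) (h3 : α 58 = true) (h4 : α 250 = true) : False :=
  rf h true 0 2 1 1 204 58 250 (by decide +kernel) h1 h2 h3 h4

theorem c83 (h : Good α) (h1 : α 402 = false) (h2 : α 1 = false) (h3 : α 443 = false) (h4 : α 58 = false) : False :=
  rf h false 0 3 1 402 1 443 58 (by decide +kernel) h1 h2 h3 h4

theorem c84 (h : Good α) (h1 : α 402 = true) (h2 : α 1 = true) (h3 : α 443 = true) (h4 : α 58 = true) : False :=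
  rf h true 0 3 1 402 1 443 58 (by decide +kernel) h1 h2 h3 h4

theorem c85 (h : Good α) (h1 : α 1 = false) (h2 : α 409 = false) (h3 : α 58 = false) (h4 : α 450 = false) : False :=
  rf h false 0 3 1 1 409 58 450 (by decide +kernel) h1 h2 h3 h4

theorem c86 (h : Good α) (h1 : α 1 = true) (h2 : α 409 = true) (h3 : α 58 = true) (h4 : α 450 = true) : False :=
  rf h true 0 3 1 1 409 58 450 (by decide +kernel) h1 h2 h3 h4

theorem c87 (h : Good α) (h1 : α 1 = true) (h2 : α 59 = true) (h3 : α 193 = true) (h4 : α 234 = true) : False :=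
  rf h true 2 1 2 1 59 193 234 (by decide +kernel) h1 h2 h3 h4

theorem c88 (h : Good α) (h1 : α 194 = false) (h2 : α 241 = false) (h3 : α 1 = false) (h4 : α 59 = false) : False :=
  rf h false 2 1 2 194 241 1 59 (by decide +kernel) h1 h2 h3 h4

theorem c89 (h : Good α) (h1 : α 1 = false) (h2 : α 59 = false) (h3 : α 202 = false) : False :=
  af h false 2 1 59 202 (by decide +kernel) h1 h2 h3

theorem c90 (h : Good α) (h1 : α 1 = true) (h2 : α 59 = true) (h3 : α 202 = true) : False :=
  af h true 2 1 59 202 (by decide +kernel) h1 h2 h3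

theorem c91 (h : Good α) (h1 : α 401 = false) (h2 : α 433 = false) (h3 : α 1 = false) (h4 : α 59 = false) : False :=
  rf h false 2 1 3 401 433 1 59 (by decide +kernel) h1 h2 h3 h4

theorem c92 (h : Good α) (h1 : α 1 = true) (h2 : α 60 = true) (h3 : α 195 = true) (h4 : α 230 = true) : False :=
  rf h true 1 1 2 1 60 195 230 (by decide +kernel) h1 h2 h3 h4

theorem c93 (h : Good α) (h1 : α 196 = true) (h2 : α 232 = true) (h3 : α 1 = true) (h4 : α 60 = true) : False :=
  rf h true 1 1 2 196 232 1 60 (by decide +kernel) h1 h2 h3 h4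

theorem c94 (h : Good α) (h1 : α 1 = false) (h2 : α 60 = false) (h3 : α 203 = false) : False :=
  af h false 1 1 60 203 (by decide +kernel) h1 h2 h3

theorem c95 (h : Good α) (h1 : α 1 = true) (h2 : α 60 = true) (h3 : α 203 = true) : False :=
  af h true 1 1 60 203 (by decide +kernel) h1 h2 h3

theorem c96 (h : Good α) (h1 : α 1 = true) (h2 : α 60 = true) (h3 : α 400 = true) (h4 : α 435 = true) : False :=
  rf h true 1 1 3 1 60 400 435 (by decide +kernel) h1 h2 h3 h4

theorem c97 (h : Good α) (h1 : α 200 = false) (h2 : α 236 = false) (h3 : α 1 = false) (h4 : α 61 = false) : False :=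
  rf h false 0 1 2 200 236 1 61 (by decide +kernel) h1 h2 h3 h4

theorem c98 (h : Good α) (h1 : α 200 = true) (h2 : α 236 = true) (h3 : α 1 = true) (h4 : α 61 = true) : False :=
  rf h true 0 1 2 200 236 1 61 (by decide +kernel) h1 h2 h3 h4

theorem c99 (h : Good α) (h1 : α 1 = false) (h2 : α 61 = false) (h3 : α 201 = false) (h4 : α 242 = false) : False :=
  rf h false 0 1 2 1 61 201 242 (by decide +kernel) h1 h2 h3 h4

theorem c100 (h : Good α) (h1 : α 1 = true) (h2 : α 61 = true) (h3 : α 201 = true) (h4 : α 242 = true) : False :=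
  rf h true 0 1 2 1 61 201 242 (by decide +kernel) h1 h2 h3 h4

theorem c101 (h : Good α) (h1 : α 1 = false) (h2 : α 61 = false) (h3 : α 204 = false) : False :=
  af h false 0 1 61 204 (by decide +kernel) h1 h2 h3

theorem c102 (h : Good α) (h1 : α 1 = true) (h2 : α 61 = true) (h3 : α 204 = true) : False :=
  af h true 0 1 61 204 (by decide +kernel) h1 h2 h3

theorem c103 (h : Good α) (h1 : α 405 = false) (h2 : α 442 = false) (h3 : α 1 = false) (h4 : α 61 = false) : False :=
  rf h false 0 1 3 405 442 1 61 (by decide +kernel) h1 h2 h3 h4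

theorem c104 (h : Good α) (h1 : α 405 = true) (h2 : α 442 = true) (h3 : α 1 = true) (h4 : α 61 = true) : False :=
  rf h true 0 1 3 405 442 1 61 (by decide +kernel) h1 h2 h3 h4

theorem c105 (h : Good α) (h1 : α 1 = false) (h2 : α 61 = false) (h3 : α 406 = false) (h4 : α 447 = false) : False :=
  rf h false 0 1 3 1 61 406 447 (by decide +kernel) h1 h2 h3 h4

theorem c106 (h : Good α) (h1 : α 1 = true) (h2 : α 61 = true) (h3 : α 406 = true) (h4 : α 447 = true) : False :=
  rf h true 0 1 3 1 61 406 447 (by decide +kernel) h1 h2 h3 h4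

theorem c107 (h : Good α) (h1 : α 194 = false) (h2 : α 349 = false) (h3 : α 1 = false) (h4 : α 202 = false) : False :=
  rf h false 2 2 2 194 349 1 202 (by decide +kernel) h1 h2 h3 h4

theorem c108 (h : Good α) (h1 : α 194 = true) (h2 : α 536 = true) (h3 : α 1 = true) (h4 : α 407 = true) : False :=
  rf h true 2 3 2 194 536 1 407 (by decide +kernel) h1 h2 h3 h4

theorem c109 (h : Good α) (h1 : α 541 = true) (h2 : α 196 = true) (h3 : α 403 = true) (h4 : α 1 = true) : False :=
  rf h true 1 3 2 541 196 403 1 (by decide +kernel) h1 h2 h3 h4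

theorem c110 (h : Good α) (h1 : α 353 = true) (h2 : α 200 = true) (h3 : α 197 = true) (h4 : α 1 = true) : False :=
  rf h true 0 2 2 353 200 197 1 (by decide +kernel) h1 h2 h3 h4

theorem c111 (h : Good α) (h1 : α 197 = false) (h2 : α 1 = false) (h3 : α 351 = false) (h4 : α 201 = false) : False :=
  rf h false 0 2 2 197 1 351 201 (by decide +kernel) h1 h2 h3 h4

theorem c112 (h : Good α) (h1 : α 197 = true) (h2 : α 1 = true) (h3 : α 351 = true) (h4 : α 201 = true) : False :=
  rf h true 0 2 2 197 1 351 201 (by decide +kernel) h1 h2 h3 h4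

theorem c113 (h : Good α) (h1 : α 545 = false) (h2 : α 405 = false) (h3 : α 197 = false) (h4 : α 1 = false) : False :=
  rf h false 0 2 3 545 405 197 1 (by decide +kernel) h1 h2 h3 h4

theorem c114 (h : Good α) (h1 : α 545 = true) (h2 : α 405 = true) (h3 : α 197 = true) (h4 : α 1 = true) : False :=
  rf h true 0 2 3 545 405 197 1 (by decide +kernel) h1 h2 h3 h4

theorem c115 (h : Good α) (h1 : α 197 = false) (h2 : α 1 = false) (h3 : α 534 = false) (h4 : α 406 = false) : False :=
  rf h false 0 2 3 197 1 534 406 (by decide +kernel) h1 h2 h3 h4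

theorem c116 (h : Good α) (h1 : α 197 = true) (h2 : α 1 = true) (h3 : α 534 = true) (h4 : α 406 = true) : False :=
  rf h true 0 2 3 197 1 534 406 (by decide +kernel) h1 h2 h3 h4

theorem c117 (h : Good α) (h1 : α 200 = true) (h2 : α 352 = true) (h3 : α 1 = true) (h4 : α 204 = true) : False :=
  rf h true 0 2 2 200 352 1 204 (by decide +kernel) h1 h2 h3 h4

theorem c118 (h : Good α) (h1 : α 547 = true) (h2 : α 200 = true) (h3 : α 402 = true) (h4 : α 1 = true) : False :=
  rf h true 0 3 2 547 200 402 1 (by decide +kernel) h1 h2 h3 h4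

theorem c119 (h : Good α) (h1 : α 200 = false) (h2 : α 544 = false) (h3 : α 1 = false) (h4 : α 409 = false) : False :=
  rf h false 0 3 2 200 544 1 409 (by decide +kernel) h1 h2 h3 h4

theorem c120 (h : Good α) (h1 : α 1 = true) (h2 : α 204 = true) (h3 : α 201 = true) (h4 : α 354 = true) : False :=
  rf h true 0 2 2 1 204 201 354 (by decide +kernel) h1 h2 h3 h4

theorem c121 (h : Good α) (h1 : α 402 = true) (h2 : α 1 = true) (h3 : α 543 = true) (h4 : α 201 = true) : False :=
  rf h true 0 3 2 402 1 543 201 (by decide +kernel) h1 h2 h3 h4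

theorem c122 (h : Good α) (h1 : α 1 = false) (h2 : α 409 = false) (h3 : α 201 = false) (h4 : α 548 = false) : False :=
  rf h false 0 3 2 1 409 201 548 (by decide +kernel) h1 h2 h3 h4

theorem c123 (h : Good α) (h1 : α 1 = true) (h2 : α 409 = true) (h3 : α 201 = true) (h4 : α 548 = true) : False :=
  rf h true 0 3 2 1 409 201 548 (by decide +kernel) h1 h2 h3 h4

theorem c124 (h : Good α) (h1 : α 405 = true) (h2 : α 535 = true) (h3 : α 1 = true) (h4 : α 204 = true) : False :=
  rf h true 0 2 3 405 535 1 204 (by decide +kernel) h1 h2 h3 h4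

theorem c125 (h : Good α) (h1 : α 1 = true) (h2 : α 204 = true) (h3 : α 406 = true) (h4 : α 546 = true) : False :=
  rf h true 0 2 3 1 204 406 546 (by decide +kernel) h1 h2 h3 h4

theorem c126 (h : Good α) (h1 : α 148 = false) (h2 : α 29 = false) (h3 : α 2 = false) : False :=
  af h false 4 148 29 2 (by decide +kernel) h1 h2 h3

theorem c127 (h : Good α) (h1 : α 2 = true) (h2 : α 40 = true) (h3 : α 177 = true) : False :=
  af h true 0 2 40 177 (by decide +kernel) h1 h2 h3

theorem c128 (h : Good α) (h1 : α 374 = true) (h2 : α 2 = true) (h3 : α 566 = true) (h4 : α 229 = true) : False :=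
  rf h true 2 3 2 374 2 566 229 (by decide +kernel) h1 h2 h3 h4

theorem c129 (h : Good α) (h1 : α 3 = true) (h2 : α 32 = true) (h3 : α 147 = true) : False :=
  af h true 4 3 32 147 (by decide +kernel) h1 h2 h3

theorem c130 (h : Good α) (h1 : α 243 = false) (h2 : α 67 = false) (h3 : α 176 = false) (h4 : α 3 = false) : False :=
  rf h false 0 2 1 243 67 176 3 (by decide +kernel) h1 h2 h3 h4

theorem c131 (h : Good α) (h1 : α 154 = true) (h2 : α 36 = true) (h3 : α 4 = true) : False :=
  af h true 1 154 36 4 (by decide +kernel) h1 h2 h3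

theorem c132 (h : Good α) (h1 : α 41 = false) (h2 : α 100 = false) (h3 : α 4 = false) (h4 : α 72 = false) : False :=
  rf h false 0 1 1 41 100 4 72 (by decide +kernel) h1 h2 h3 h4

theorem c133 (h : Good α) (h1 : α 175 = false) (h2 : α 41 = false) (h3 : α 4 = false) : False :=
  af h false 3 175 41 4 (by decide +kernel) h1 h2 h3

theorem c134 (h : Good α) (h1 : α 41 = false) (h2 : α 263 = false) (h3 : α 4 = false) (h4 : α 252 = false) : False :=
  rf h false 0 2 1 41 263 4 252 (by decide +kernel) h1 h2 h3 h4

theorem c135 (h : Good α) (h1 : α 41 = false) (h2 : α 476 = false) (h3 : α 4 = false) (h4 : α 474 = false) : False :=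
  rf h false 0 3 1 41 476 4 474 (by decide +kernel) h1 h2 h3 h4

theorem c136 (h : Good α) (h1 : α 41 = true) (h2 : α 476 = true) (h3 : α 4 = true) (h4 : α 474 = true) : False :=
  rf h true 0 3 1 41 476 4 474 (by decide +kernel) h1 h2 h3 h4

theorem c137 (h : Good α) (h1 : α 4 = true) (h2 : α 46 = true) (h3 : α 158 = true) : False :=
  af h true 5 4 46 158 (by decide +kernel) h1 h2 h3

theorem c138 (h : Good α) (h1 : α 4 = false) (h2 : α 464 = false) (h3 : α 46 = false) (h4 : α 483 = false) : False :=
  rf h false 2 3 1 4 464 46 483 (by decide +kernel) h1 h2 h3 h4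

theorem c139 (h : Good α) (h1 : α 4 = true) (h2 : α 464 = true) (h3 : α 46 = true) (h4 : α 483 = true) : False :=
  rf h true 2 3 1 4 464 46 483 (by decide +kernel) h1 h2 h3 h4

theorem c140 (h : Good α) (h1 : α 369 = false) (h2 : α 414 = false) (h3 : α 4 = false) (h4 : α 72 = false) : False :=
  rf h false 0 1 3 369 414 4 72 (by decide +kernel) h1 h2 h3 h4

theorem c141 (h : Good α) (h1 : α 4 = false) (h2 : α 75 = false) (h3 : α 158 = false) (h4 : α 233 = false) : False :=
  rf h false 2 1 2 4 75 158 233 (by decide +kernel) h1 h2 h3 h4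

theorem c142 (h : Good α) (h1 : α 4 = true) (h2 : α 75 = true) (h3 : α 247 = true) : False :=
  af h true 2 4 75 247 (by decide +kernel) h1 h2 h3

theorem c143 (h : Good α) (h1 : α 4 = false) (h2 : α 75 = false) (h3 : α 362 = false) (h4 : α 419 = false) : False :=
  rf h false 2 1 3 4 75 362 419 (by decide +kernel) h1 h2 h3 h4

theorem c144 (h : Good α) (h1 : α 4 = false) (h2 : α 247 = false) (h3 : α 158 = false) (h4 : α 378 = false) : False :=
  rf h false 2 2 2 4 247 158 378 (by decide +kernel) h1 h2 h3 h4

theorem c145 (h : Good α) (h1 : α 175 = false) (h2 : α 575 = false) (h3 : α 4 = false) (h4 : α 474 = false) : False :=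
  rf h false 0 3 2 175 575 4 474 (by decide +kernel) h1 h2 h3 h4

theorem c146 (h : Good α) (h1 : α 4 = true) (h2 : α 247 = true) (h3 : α 362 = true) (h4 : α 561 = true) : False :=
  rf h true 2 2 3 4 247 362 561 (by decide +kernel) h1 h2 h3 h4

theorem c147 (h : Good α) (h1 : α 5 = false) (h2 : α 37 = false) (h3 : α 157 = false) : False :=
  af h false 1 5 37 157 (by decide +kernel) h1 h2 h3

theorem c148 (h : Good α) (h1 : α 5 = true) (h2 : α 37 = true) (h3 : α 157 = true) : False :=
  af h true 1 5 37 157 (by decide +kernel) h1 h2 h3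

theorem c149 (h : Good α) (h1 : α 5 = true) (h2 : α 42 = true) (h3 : α 178 = true) : False :=
  af h true 3 5 42 178 (by decide +kernel) h1 h2 h3

theorem c150 (h : Good α) (h1 : α 161 = false) (h2 : α 47 = false) (h3 : α 5 = false) : False :=
  af h false 5 161 47 5 (by decide +kernel) h1 h2 h3

theorem c151 (h : Good α) (h1 : α 422 = true) (h2 : α 363 = true) (h3 : α 78 = true) (h4 : α 5 = true) : False :=
  rf h true 2 1 3 422 363 78 5 (by decide +kernel) h1 h2 h3 h4

theorem c152 (h : Good α) (h1 : α 6 = true) (h2 : α 26 = true) (h3 : α 146 = true) : False :=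
  af h true 5 6 26 146 (by decide +kernel) h1 h2 h3

theorem c153 (h : Good α) (h1 : α 6 = false) (h2 : α 68 = false) (h3 : α 38 = false) (h4 : α 109 = false) : False :=
  rf h false 0 1 1 6 68 38 109 (by decide +kernel) h1 h2 h3 h4

theorem c154 (h : Good α) (h1 : α 6 = false) (h2 : α 38 = false) (h3 : α 163 = false) : False :=
  af h false 3 6 38 163 (by decide +kernel) h1 h2 h3

theorem c155 (h : Good α) (h1 : α 6 = true) (h2 : α 241 = true) (h3 : α 38 = true) (h4 : α 255 = true) : False :=
  rf h true 0 2 1 6 241 38 255 (by decide +kernel) h1 h2 h3 h4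

theorem c156 (h : Good α) (h1 : α 479 = true) (h2 : α 455 = true) (h3 : α 48 = true) (h4 : α 6 = true) : False :=
  rf h true 1 1 3 479 455 48 6 (by decide +kernel) h1 h2 h3 h4

theorem c157 (h : Good α) (h1 : α 239 = false) (h2 : α 63 = false) (h3 : α 179 = false) (h4 : α 6 = false) : False :=
  rf h false 1 2 1 239 63 179 6 (by decide +kernel) h1 h2 h3 h4

theorem c158 (h : Good α) (h1 : α 235 = false) (h2 : α 63 = false) (h3 : α 6 = false) : False :=
  af h false 4 235 63 6 (by decide +kernel) h1 h2 h3

theorem c159 (h : Good α) (h1 : α 6 = true) (h2 : α 68 = true) (h3 : α 241 = true) : False :=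
  af h true 0 6 68 241 (by decide +kernel) h1 h2 h3

theorem c160 (h : Good α) (h1 : α 6 = true) (h2 : α 68 = true) (h3 : α 365 = true) (h4 : α 427 = true) : False :=
  rf h true 0 1 3 6 68 365 427 (by decide +kernel) h1 h2 h3 h4

theorem c161 (h : Good α) (h1 : α 6 = false) (h2 : α 241 = false) (h3 : α 163 = false) (h4 : α 388 = false) : False :=
  rf h false 0 2 2 6 241 163 388 (by decide +kernel) h1 h2 h3 h4

theorem c162 (h : Good α) (h1 : α 577 = false) (h2 : α 455 = false) (h3 : α 179 = false) (h4 : α 6 = false) : False :=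
  rf h false 1 2 3 577 455 179 6 (by decide +kernel) h1 h2 h3 h4

theorem c163 (h : Good α) (h1 : α 564 = false) (h2 : α 235 = false) (h3 : α 368 = false) (h4 : α 6 = false) : False :=
  rf h false 1 3 2 564 235 368 6 (by decide +kernel) h1 h2 h3 h4

theorem c164 (h : Good α) (h1 : α 149 = false) (h2 : α 27 = false) (h3 : α 7 = false) : False :=
  af h false 5 149 27 7 (by decide +kernel) h1 h2 h3

theorem c165 (h : Good α) (h1 : α 164 = true) (h2 : α 39 = true) (h3 : α 7 = true) : False :=
  af h true 3 164 39 7 (by decide +kernel) h1 h2 h3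

theorem c166 (h : Good α) (h1 : α 477 = true) (h2 : α 39 = true) (h3 : α 467 = true) (h4 : α 7 = true) : False :=
  rf h true 0 3 1 477 39 467 7 (by decide +kernel) h1 h2 h3 h4

theorem c167 (h : Good α) (h1 : α 7 = true) (h2 : α 49 = true) (h3 : α 64 = true) (h4 : α 112 = true) : False :=
  rf h true 1 1 1 7 49 64 112 (by decide +kernel) h1 h2 h3 h4

theorem c168 (h : Good α) (h1 : α 7 = true) (h2 : α 64 = true) (h3 : α 234 = true) : False :=
  af h true 4 7 64 234 (by decide +kernel) h1 h2 h3

theorem c169 (h : Good α) (h1 : α 7 = true) (h2 : α 180 = true) (h3 : α 234 = true) (h4 : α 387 = true) : False :=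
  rf h true 1 2 2 7 180 234 387 (by decide +kernel) h1 h2 h3 h4

theorem c170 (h : Good α) (h1 : α 7 = false) (h2 : α 180 = false) (h3 : α 454 = false) (h4 : α 576 = false) : False :=
  rf h false 1 2 3 7 180 454 576 (by decide +kernel) h1 h2 h3 h4

theorem c171 (h : Good α) (h1 : α 7 = true) (h2 : α 370 = true) (h3 : α 234 = true) (h4 : α 565 = true) : False :=
  rf h true 1 3 2 7 370 234 565 (by decide +kernel) h1 h2 h3 h4

theorem c172 (h : Good α) (h1 : α 568 = true) (h2 : α 366 = true) (h3 : α 240 = true) (h4 : α 7 = true) : False :=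
  rf h true 0 2 3 568 366 240 7 (by decide +kernel) h1 h2 h3 h4

theorem c173 (h : Good α) (h1 : α 155 = true) (h2 : α 34 = true) (h3 : α 8 = true) : False :=
  af h true 2 155 34 8 (by decide +kernel) h1 h2 h3

theorem c174 (h : Good α) (h1 : α 47 = false) (h2 : α 117 = false) (h3 : α 8 = false) (h4 : α 85 = false) : False :=
  rf h false 1 1 1 47 117 8 85 (by decide +kernel) h1 h2 h3 h4

theorem c175 (h : Good α) (h1 : α 9 = false) (h2 : α 35 = false) (h3 : α 156 = false) : False :=
  af h false 2 9 35 156 (by decide +kernel) h1 h2 h3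

theorem c176 (h : Good α) (h1 : α 84 = true) (h2 : α 9 = true) (h3 : α 114 = true) (h4 : α 46 = true) : False :=
  rf h true 1 1 1 84 9 114 46 (by decide +kernel) h1 h2 h3 h4

theorem c177 (h : Good α) (h1 : α 460 = true) (h2 : α 9 = true) (h3 : α 477 = true) (h4 : α 46 = true) : False :=
  rf h true 1 3 1 460 9 477 46 (by decide +kernel) h1 h2 h3 h4

theorem c178 (h : Good α) (h1 : α 84 = false) (h2 : α 9 = false) (h3 : α 423 = false) (h4 : α 361 = false) : False :=
  rf h false 1 1 3 84 9 423 361 (by decide +kernel) h1 h2 h3 h4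

theorem c179 (h : Good α) (h1 : α 84 = true) (h2 : α 9 = true) (h3 : α 423 = true) (h4 : α 361 = true) : False :=
  rf h true 1 1 3 84 9 423 361 (by decide +kernel) h1 h2 h3 h4

theorem c180 (h : Good α) (h1 : α 243 = false) (h2 : α 9 = false) (h3 : α 555 = false) (h4 : α 361 = false) : False :=
  rf h false 1 2 3 243 9 555 361 (by decide +kernel) h1 h2 h3 h4

theorem c181 (h : Good α) (h1 : α 10 = true) (h2 : α 28 = true) (h3 : α 150 = true) : False :=
  af h true 3 10 28 150 (by decide +kernel) h1 h2 h3

theorem c182 (h : Good α) (h1 : α 71 = false) (h2 : α 104 = false) (h3 : α 10 = false) (h4 : α 40 = false) : False :=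
  rf h false 1 1 1 71 104 10 40 (by decide +kernel) h1 h2 h3 h4

theorem c183 (h : Good α) (h1 : α 10 = false) (h2 : α 40 = false) (h3 : α 167 = false) : False :=
  af h false 1 10 40 167 (by decide +kernel) h1 h2 h3

theorem c184 (h : Good α) (h1 : α 236 = false) (h2 : α 262 = false) (h3 : α 10 = false) (h4 : α 40 = false) : False :=
  rf h false 1 1 2 236 262 10 40 (by decide +kernel) h1 h2 h3 h4

theorem c185 (h : Good α) (h1 : α 236 = true) (h2 : α 262 = true) (h3 : α 10 = true) (h4 : α 40 = true) : False :=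
  rf h true 1 1 2 236 262 10 40 (by decide +kernel) h1 h2 h3 h4

theorem c186 (h : Good α) (h1 : α 452 = false) (h2 : α 482 = false) (h3 : α 10 = false) (h4 : α 40 = false) : False :=
  rf h false 1 1 3 452 482 10 40 (by decide +kernel) h1 h2 h3 h4

theorem c187 (h : Good α) (h1 : α 452 = true) (h2 : α 482 = true) (h3 : α 10 = true) (h4 : α 40 = true) : False :=
  rf h true 1 1 3 452 482 10 40 (by decide +kernel) h1 h2 h3 h4

theorem c188 (h : Good α) (h1 : α 80 = true) (h2 : α 10 = true) (h3 : α 118 = true) (h4 : α 44 = true) : False :=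
  rf h true 2 1 1 80 10 118 44 (by decide +kernel) h1 h2 h3 h4

theorem c189 (h : Good α) (h1 : α 10 = false) (h2 : α 44 = false) (h3 : α 170 = false) : False :=
  af h false 5 10 44 170 (by decide +kernel) h1 h2 h3

theorem c190 (h : Good α) (h1 : α 10 = true) (h2 : α 44 = true) (h3 : α 170 = true) : False :=
  af h true 5 10 44 170 (by decide +kernel) h1 h2 h3

theorem c191 (h : Good α) (h1 : α 239 = false) (h2 : α 10 = false) (h3 : α 271 = false) (h4 : α 44 = false) : False :=
  rf h false 2 2 1 239 10 271 44 (by decide +kernel) h1 h2 h3 h4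

theorem c192 (h : Good α) (h1 : α 239 = true) (h2 : α 10 = true) (h3 : α 271 = true) (h4 : α 44 = true) : False :=
  rf h true 2 2 1 239 10 271 44 (by decide +kernel) h1 h2 h3 h4

theorem c193 (h : Good α) (h1 : α 459 = true) (h2 : α 10 = true) (h3 : α 485 = true) (h4 : α 44 = true) : False :=
  rf h true 2 3 1 459 10 485 44 (by decide +kernel) h1 h2 h3 h4

theorem c194 (h : Good α) (h1 : α 71 = false) (h2 : α 241 = false) (h3 : α 10 = false) (h4 : α 167 = false) : False :=
  rf h false 1 2 1 71 241 10 167 (by decide +kernel) h1 h2 h3 h4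

theorem c195 (h : Good α) (h1 : α 236 = false) (h2 : α 71 = false) (h3 : α 10 = false) : False :=
  af h false 4 236 71 10 (by decide +kernel) h1 h2 h3

theorem c196 (h : Good α) (h1 : α 236 = true) (h2 : α 71 = true) (h3 : α 10 = true) : False :=
  af h true 4 236 71 10 (by decide +kernel) h1 h2 h3

theorem c197 (h : Good α) (h1 : α 80 = false) (h2 : α 10 = false) (h3 : α 251 = false) (h4 : α 170 = false) : False :=
  rf h false 2 1 2 80 10 251 170 (by decide +kernel) h1 h2 h3 h4

theorem c198 (h : Good α) (h1 : α 239 = false) (h2 : α 80 = false) (h3 : α 10 = false) : False :=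
  af h false 2 239 80 10 (by decide +kernel) h1 h2 h3

theorem c199 (h : Good α) (h1 : α 239 = true) (h2 : α 80 = true) (h3 : α 10 = true) : False :=
  af h true 2 239 80 10 (by decide +kernel) h1 h2 h3

theorem c200 (h : Good α) (h1 : α 236 = false) (h2 : α 382 = false) (h3 : α 10 = false) (h4 : α 167 = false) : False :=
  rf h false 1 2 2 236 382 10 167 (by decide +kernel) h1 h2 h3 h4

theorem c201 (h : Good α) (h1 : α 452 = false) (h2 : α 575 = false) (h3 : α 10 = false) (h4 : α 167 = false) : False :=
  rf h false 1 2 3 452 575 10 167 (by decide +kernel) h1 h2 h3 h4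

theorem c202 (h : Good α) (h1 : α 239 = false) (h2 : α 10 = false) (h3 : α 393 = false) (h4 : α 170 = false) : False :=
  rf h false 2 2 2 239 10 393 170 (by decide +kernel) h1 h2 h3 h4

theorem c203 (h : Good α) (h1 : α 236 = true) (h2 : α 552 = true) (h3 : α 10 = true) (h4 : α 359 = true) : False :=
  rf h true 1 3 2 236 552 10 359 (by decide +kernel) h1 h2 h3 h4

theorem c204 (h : Good α) (h1 : α 43 = false) (h2 : α 11 = false) (h3 : α 259 = false) (h4 : α 233 = false) : False :=
  rf h false 1 1 2 43 11 259 233 (by decide +kernel) h1 h2 h3 h4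

theorem c205 (h : Good α) (h1 : α 43 = true) (h2 : α 11 = true) (h3 : α 481 = true) (h4 : α 451 = true) : False :=
  rf h true 1 1 3 43 11 481 451 (by decide +kernel) h1 h2 h3 h4

theorem c206 (h : Good α) (h1 : α 45 = false) (h2 : α 274 = false) (h3 : α 11 = false) (h4 : α 242 = false) : False :=
  rf h false 2 2 1 45 274 11 242 (by decide +kernel) h1 h2 h3 h4

theorem c207 (h : Good α) (h1 : α 45 = false) (h2 : α 486 = false) (h3 : α 11 = false) (h4 : α 462 = false) : False :=
  rf h false 2 3 1 45 486 11 462 (by decide +kernel) h1 h2 h3 h4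

theorem c208 (h : Good α) (h1 : α 168 = false) (h2 : α 11 = false) (h3 : α 240 = false) (h4 : α 70 = false) : False :=
  rf h false 1 2 1 168 11 240 70 (by decide +kernel) h1 h2 h3 h4

theorem c209 (h : Good α) (h1 : α 11 = false) (h2 : α 70 = false) (h3 : α 233 = false) : False :=
  af h false 4 11 70 233 (by decide +kernel) h1 h2 h3

theorem c210 (h : Good α) (h1 : α 11 = true) (h2 : α 70 = true) (h3 : α 233 = true) : False :=
  af h true 4 11 70 233 (by decide +kernel) h1 h2 h3

theorem c211 (h : Good α) (h1 : α 171 = false) (h2 : α 252 = false) (h3 : α 11 = false) (h4 : α 81 = false) : False :=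
  rf h false 2 1 2 171 252 11 81 (by decide +kernel) h1 h2 h3 h4

theorem c212 (h : Good α) (h1 : α 11 = false) (h2 : α 81 = false) (h3 : α 242 = false) : False :=
  af h false 2 11 81 242 (by decide +kernel) h1 h2 h3

theorem c213 (h : Good α) (h1 : α 11 = true) (h2 : α 81 = true) (h3 : α 242 = true) : False :=
  af h true 2 11 81 242 (by decide +kernel) h1 h2 h3

theorem c214 (h : Good α) (h1 : α 168 = false) (h2 : α 11 = false) (h3 : α 381 = false) (h4 : α 233 = false) : False :=
  rf h false 1 2 2 168 11 381 233 (by decide +kernel) h1 h2 h3 h4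

theorem c215 (h : Good α) (h1 : α 171 = false) (h2 : α 581 = false) (h3 : α 11 = false) (h4 : α 462 = false) : False :=
  rf h false 2 3 2 171 581 11 462 (by decide +kernel) h1 h2 h3 h4

theorem c216 (h : Good α) (h1 : α 356 = true) (h2 : α 556 = true) (h3 : α 11 = true) (h4 : α 242 = true) : False :=
  rf h true 2 2 3 356 556 11 242 (by decide +kernel) h1 h2 h3 h4

theorem c217 (h : Good α) (h1 : α 12 = false) (h2 : α 30 = false) (h3 : α 152 = false) : False :=
  af h false 0 12 30 152 (by decide +kernel) h1 h2 h3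

theorem c218 (h : Good α) (h1 : α 12 = true) (h2 : α 38 = true) (h3 : α 457 = true) (h4 : α 481 = true) : False :=
  rf h true 2 1 3 12 38 457 481 (by decide +kernel) h1 h2 h3 h4

theorem c219 (h : Good α) (h1 : α 120 = false) (h2 : α 41 = false) (h3 : α 82 = false) (h4 : α 12 = false) : False :=
  rf h false 1 1 1 120 41 82 12 (by decide +kernel) h1 h2 h3 h4

theorem c220 (h : Good α) (h1 : α 272 = false) (h2 : α 41 = false) (h3 : α 249 = false) (h4 : α 12 = false) : False :=
  rf h false 1 2 1 272 41 249 12 (by decide +kernel) h1 h2 h3 h4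

theorem c221 (h : Good α) (h1 : α 272 = true) (h2 : α 41 = true) (h3 : α 249 = true) (h4 : α 12 = true) : False :=
  rf h true 1 2 1 272 41 249 12 (by decide +kernel) h1 h2 h3 h4

theorem c222 (h : Good α) (h1 : α 485 = true) (h2 : α 41 = true) (h3 : α 472 = true) (h4 : α 12 = true) : False :=
  rf h true 1 3 1 485 41 472 12 (by decide +kernel) h1 h2 h3 h4

theorem c223 (h : Good α) (h1 : α 12 = false) (h2 : α 74 = false) (h3 : α 237 = false) : False :=
  af h false 5 12 74 237 (by decide +kernel) h1 h2 h3

theorem c224 (h : Good α) (h1 : α 12 = true) (h2 : α 74 = true) (h3 : α 237 = true) : False :=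
  af h true 5 12 74 237 (by decide +kernel) h1 h2 h3

theorem c225 (h : Good α) (h1 : α 12 = false) (h2 : α 357 = false) (h3 : α 74 = false) (h4 : α 411 = false) : False :=
  rf h false 2 3 1 12 357 74 411 (by decide +kernel) h1 h2 h3 h4

theorem c226 (h : Good α) (h1 : α 249 = false) (h2 : α 82 = false) (h3 : α 12 = false) : False :=
  af h false 1 249 82 12 (by decide +kernel) h1 h2 h3

theorem c227 (h : Good α) (h1 : α 151 = true) (h2 : α 31 = true) (h3 : α 13 = true) : False :=
  af h true 0 151 31 13 (by decide +kernel) h1 h2 h3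

theorem c228 (h : Good α) (h1 : α 264 = true) (h2 : α 238 = true) (h3 : α 39 = true) (h4 : α 13 = true) : False :=
  rf h true 2 1 2 264 238 39 13 (by decide +kernel) h1 h2 h3 h4

theorem c229 (h : Good α) (h1 : α 13 = false) (h2 : α 250 = false) (h3 : α 42 = false) (h4 : α 273 = false) : False :=
  rf h false 1 2 1 13 250 42 273 (by decide +kernel) h1 h2 h3 h4

theorem c230 (h : Good α) (h1 : α 238 = false) (h2 : α 79 = false) (h3 : α 13 = false) : False :=
  af h false 5 238 79 13 (by decide +kernel) h1 h2 h3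

theorem c231 (h : Good α) (h1 : α 13 = false) (h2 : α 83 = false) (h3 : α 250 = false) : False :=
  af h false 1 13 83 250 (by decide +kernel) h1 h2 h3

theorem c232 (h : Good α) (h1 : α 13 = true) (h2 : α 83 = true) (h3 : α 250 = true) : False :=
  af h true 1 13 83 250 (by decide +kernel) h1 h2 h3

theorem c233 (h : Good α) (h1 : α 57 = false) (h2 : α 20 = false) (h3 : α 55 = false) (h4 : α 14 = false) : False :=
  rf h false 2 1 1 57 20 55 14 (by decide +kernel) h1 h2 h3 h4

theorem c234 (h : Good α) (h1 : α 57 = true) (h2 : α 20 = true) (h3 : α 55 = true) (h4 : α 14 = true) : False :=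
  rf h true 2 1 1 57 20 55 14 (by decide +kernel) h1 h2 h3 h4

theorem c235 (h : Good α) (h1 : α 20 = false) (h2 : α 14 = false) (h3 : α 99 = false) : False :=
  af h false 5 20 14 99 (by decide +kernel) h1 h2 h3

theorem c236 (h : Good α) (h1 : α 20 = true) (h2 : α 14 = true) (h3 : α 99 = true) : False :=
  af h true 5 20 14 99 (by decide +kernel) h1 h2 h3

theorem c237 (h : Good α) (h1 : α 104 = false) (h2 : α 20 = false) (h3 : α 14 = false) : False :=
  af h false 5 104 20 14 (by decide +kernel) h1 h2 h3

theorem c238 (h : Good α) (h1 : α 104 = true) (h2 : α 20 = true) (h3 : α 14 = true) : False :=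
  af h true 5 104 20 14 (by decide +kernel) h1 h2 h3

theorem c239 (h : Good α) (h1 : α 188 = true) (h2 : α 20 = true) (h3 : α 185 = true) (h4 : α 14 = true) : False :=
  rf h true 2 2 1 188 20 185 14 (by decide +kernel) h1 h2 h3 h4

theorem c240 (h : Good α) (h1 : α 398 = false) (h2 : α 20 = false) (h3 : α 394 = false) (h4 : α 14 = false) : False :=
  rf h false 2 3 1 398 20 394 14 (by decide +kernel) h1 h2 h3 h4

theorem c241 (h : Good α) (h1 : α 398 = true) (h2 : α 20 = true) (h3 : α 394 = true) (h4 : α 14 = true) : False :=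
  rf h true 2 3 1 398 20 394 14 (by decide +kernel) h1 h2 h3 h4

theorem c242 (h : Good α) (h1 : α 101 = true) (h2 : α 21 = true) (h3 : α 14 = true) : False :=
  af h true 4 101 21 14 (by decide +kernel) h1 h2 h3

theorem c243 (h : Good α) (h1 : α 21 = false) (h2 : α 14 = false) (h3 : α 102 = false) : False :=
  af h false 4 21 14 102 (by decide +kernel) h1 h2 h3

theorem c244 (h : Good α) (h1 : α 21 = false) (h2 : α 396 = false) (h3 : α 14 = false) (h4 : α 388 = false) : False :=
  rf h false 1 3 1 21 396 14 388 (by decide +kernel) h1 h2 h3 h4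

theorem c245 (h : Good α) (h1 : α 21 = true) (h2 : α 396 = true) (h3 : α 14 = true) (h4 : α 388 = true) : False :=
  rf h true 1 3 1 21 396 14 388 (by decide +kernel) h1 h2 h3 h4

theorem c246 (h : Good α) (h1 : α 34 = false) (h2 : α 47 = false) (h3 : α 14 = false) (h4 : α 37 = false) : False :=
  rf h false 0 1 1 34 47 14 37 (by decide +kernel) h1 h2 h3 h4

theorem c247 (h : Good α) (h1 : α 34 = false) (h2 : α 14 = false) (h3 : α 87 = false) : False :=
  af h false 3 34 14 87 (by decide +kernel) h1 h2 h3

theorem c248 (h : Good α) (h1 : α 34 = true) (h2 : α 14 = true) (h3 : α 87 = true) : False :=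
  af h true 3 34 14 87 (by decide +kernel) h1 h2 h3

theorem c249 (h : Good α) (h1 : α 138 = false) (h2 : α 34 = false) (h3 : α 14 = false) : False :=
  af h false 3 138 34 14 (by decide +kernel) h1 h2 h3

theorem c250 (h : Good α) (h1 : α 90 = true) (h2 : α 14 = true) (h3 : α 37 = true) : False :=
  af h true 0 90 14 37 (by decide +kernel) h1 h2 h3

theorem c251 (h : Good α) (h1 : α 14 = false) (h2 : α 37 = false) (h3 : α 145 = false) : False :=
  af h false 0 14 37 145 (by decide +kernel) h1 h2 h3

theorem c252 (h : Good α) (h1 : α 55 = false) (h2 : α 14 = false) (h3 : α 76 = false) : False :=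
  af h false 2 55 14 76 (by decide +kernel) h1 h2 h3

theorem c253 (h : Good α) (h1 : α 185 = false) (h2 : α 55 = false) (h3 : α 14 = false) : False :=
  af h false 2 185 55 14 (by decide +kernel) h1 h2 h3

theorem c254 (h : Good α) (h1 : α 185 = true) (h2 : α 55 = true) (h3 : α 14 = true) : False :=
  af h true 2 185 55 14 (by decide +kernel) h1 h2 h3

theorem c255 (h : Good α) (h1 : α 69 = true) (h2 : α 14 = true) (h3 : α 59 = true) : False :=
  af h true 1 69 14 59 (by decide +kernel) h1 h2 h3

theorem c256 (h : Good α) (h1 : α 101 = false) (h2 : α 149 = false) (h3 : α 14 = false) (h4 : α 59 = false) : False :=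
  rf h false 1 1 2 101 149 14 59 (by decide +kernel) h1 h2 h3 h4

theorem c257 (h : Good α) (h1 : α 14 = true) (h2 : α 59 = true) (h3 : α 102 = true) (h4 : α 150 = true) : False :=
  rf h true 1 1 1 14 59 102 150 (by decide +kernel) h1 h2 h3 h4

theorem c258 (h : Good α) (h1 : α 14 = true) (h2 : α 59 = true) (h3 : α 186 = true) : False :=
  af h true 1 14 59 186 (by decide +kernel) h1 h2 h3

theorem c259 (h : Good α) (h1 : α 297 = false) (h2 : α 325 = false) (h3 : α 14 = false) (h4 : α 59 = false) : False :=
  rf h false 1 1 3 297 325 14 59 (by decide +kernel) h1 h2 h3 h4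

theorem c260 (h : Good α) (h1 : α 297 = true) (h2 : α 325 = true) (h3 : α 14 = true) (h4 : α 59 = true) : False :=
  rf h true 1 1 3 297 325 14 59 (by decide +kernel) h1 h2 h3 h4

theorem c261 (h : Good α) (h1 : α 69 = false) (h2 : α 14 = false) (h3 : α 170 = false) (h4 : α 102 = false) : False :=
  rf h false 1 1 1 69 14 170 102 (by decide +kernel) h1 h2 h3 h4

theorem c262 (h : Good α) (h1 : α 104 = false) (h2 : α 177 = false) (h3 : α 14 = false) (h4 : α 76 = false) : False :=
  rf h false 2 1 2 104 177 14 76 (by decide +kernel) h1 h2 h3 h4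

theorem c263 (h : Good α) (h1 : α 495 = true) (h2 : α 14 = true) (h3 : α 555 = true) (h4 : α 87 = true) : False :=
  rf h true 0 3 1 495 14 555 87 (by decide +kernel) h1 h2 h3 h4

theorem c264 (h : Good α) (h1 : α 253 = false) (h2 : α 90 = false) (h3 : α 14 = false) : False :=
  af h false 0 253 90 14 (by decide +kernel) h1 h2 h3

theorem c265 (h : Good α) (h1 : α 253 = true) (h2 : α 90 = true) (h3 : α 14 = true) : False :=
  af h true 0 253 90 14 (by decide +kernel) h1 h2 h3

theorem c266 (h : Good α) (h1 : α 185 = false) (h2 : α 14 = false) (h3 : α 254 = false) (h4 : α 99 = false) : False :=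
  rf h false 2 2 1 185 14 254 99 (by decide +kernel) h1 h2 h3 h4

theorem c267 (h : Good α) (h1 : α 101 = true) (h2 : α 256 = true) (h3 : α 14 = true) (h4 : α 186 = true) : False :=
  rf h true 1 2 2 101 256 14 186 (by decide +kernel) h1 h2 h3 h4

theorem c268 (h : Good α) (h1 : α 101 = true) (h2 : α 474 = true) (h3 : α 14 = true) (h4 : α 388 = true) : False :=
  rf h true 1 3 2 101 474 14 388 (by decide +kernel) h1 h2 h3 h4

theorem c269 (h : Good α) (h1 : α 14 = false) (h2 : α 186 = false) (h3 : α 102 = false) (h4 : α 267 = false) : False :=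
  rf h false 1 2 1 14 186 102 267 (by decide +kernel) h1 h2 h3 h4

theorem c270 (h : Good α) (h1 : α 269 = false) (h2 : α 104 = false) (h3 : α 185 = false) (h4 : α 14 = false) : False :=
  rf h false 2 2 2 269 104 185 14 (by decide +kernel) h1 h2 h3 h4

theorem c271 (h : Good α) (h1 : α 368 = false) (h2 : α 138 = false) (h3 : α 253 = false) (h4 : α 14 = false) : False :=
  rf h false 0 2 2 368 138 253 14 (by decide +kernel) h1 h2 h3 h4

theorem c272 (h : Good α) (h1 : α 297 = false) (h2 : α 418 = false) (h3 : α 14 = false) (h4 : α 186 = false) : False :=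
  rf h false 1 2 3 297 418 14 186 (by decide +kernel) h1 h2 h3 h4

theorem c273 (h : Good α) (h1 : α 56 = false) (h2 : α 15 = false) (h3 : α 54 = false) (h4 : α 18 = false) : False :=
  rf h false 1 1 1 56 15 54 18 (by decide +kernel) h1 h2 h3 h4

theorem c274 (h : Good α) (h1 : α 15 = true) (h2 : α 72 = true) (h3 : α 18 = true) (h4 : α 75 = true) : False :=
  rf h true 1 1 1 15 72 18 75 (by decide +kernel) h1 h2 h3 h4

theorem c275 (h : Good α) (h1 : α 105 = false) (h2 : α 15 = false) (h3 : α 18 = false) : False :=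
  af h false 4 105 15 18 (by decide +kernel) h1 h2 h3

theorem c276 (h : Good α) (h1 : α 385 = true) (h2 : α 15 = true) (h3 : α 393 = true) (h4 : α 18 = true) : False :=
  rf h true 1 3 1 385 15 393 18 (by decide +kernel) h1 h2 h3 h4

theorem c277 (h : Good α) (h1 : α 15 = false) (h2 : α 60 = false) (h3 : α 19 = false) (h4 : α 58 = false) : False :=
  rf h false 2 1 1 15 60 19 58 (by decide +kernel) h1 h2 h3 h4

theorem c278 (h : Good α) (h1 : α 100 = false) (h2 : α 15 = false) (h3 : α 19 = false) : False :=
  af h false 5 100 15 19 (by decide +kernel) h1 h2 h3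

theorem c279 (h : Good α) (h1 : α 100 = true) (h2 : α 15 = true) (h3 : α 19 = true) : False :=
  af h true 5 100 15 19 (by decide +kernel) h1 h2 h3

theorem c280 (h : Good α) (h1 : α 15 = false) (h2 : α 19 = false) (h3 : α 103 = false) : False :=
  af h false 5 15 19 103 (by decide +kernel) h1 h2 h3

theorem c281 (h : Good α) (h1 : α 15 = true) (h2 : α 19 = true) (h3 : α 103 = true) : False :=
  af h true 5 15 19 103 (by decide +kernel) h1 h2 h3

theorem c282 (h : Good α) (h1 : α 15 = true) (h2 : α 395 = true) (h3 : α 19 = true) (h4 : α 399 = true) : False :=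
  rf h true 2 3 1 15 395 19 399 (by decide +kernel) h1 h2 h3 h4

theorem c283 (h : Good α) (h1 : α 36 = false) (h2 : α 15 = false) (h3 : α 46 = false) (h4 : α 35 = false) : False :=
  rf h false 0 1 1 36 15 46 35 (by decide +kernel) h1 h2 h3 h4

theorem c284 (h : Good α) (h1 : α 88 = false) (h2 : α 15 = false) (h3 : α 35 = false) : False :=
  af h false 3 88 15 35 (by decide +kernel) h1 h2 h3

theorem c285 (h : Good α) (h1 : α 88 = true) (h2 : α 15 = true) (h3 : α 35 = true) : False :=
  af h true 3 88 15 35 (by decide +kernel) h1 h2 h3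

theorem c286 (h : Good α) (h1 : α 15 = false) (h2 : α 35 = false) (h3 : α 139 = false) : False :=
  af h false 3 15 35 139 (by decide +kernel) h1 h2 h3

theorem c287 (h : Good α) (h1 : α 15 = true) (h2 : α 35 = true) (h3 : α 139 = true) : False :=
  af h true 3 15 35 139 (by decide +kernel) h1 h2 h3

theorem c288 (h : Good α) (h1 : α 15 = true) (h2 : α 256 = true) (h3 : α 35 = true) (h4 : α 284 = true) : False :=
  rf h true 0 2 1 15 256 35 284 (by decide +kernel) h1 h2 h3 h4

theorem c289 (h : Good α) (h1 : α 15 = true) (h2 : α 501 = true) (h3 : α 35 = true) (h4 : α 526 = true) : False :=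
  rf h true 0 3 1 15 501 35 526 (by decide +kernel) h1 h2 h3 h4

theorem c290 (h : Good α) (h1 : α 120 = false) (h2 : α 88 = false) (h3 : α 36 = false) (h4 : α 15 = false) : False :=
  rf h false 0 1 1 120 88 36 15 (by decide +kernel) h1 h2 h3 h4

theorem c291 (h : Good α) (h1 : α 36 = false) (h2 : α 15 = false) (h3 : α 93 = false) : False :=
  af h false 0 36 15 93 (by decide +kernel) h1 h2 h3

theorem c292 (h : Good α) (h1 : α 36 = true) (h2 : α 15 = true) (h3 : α 93 = true) : False :=
  af h true 0 36 15 93 (by decide +kernel) h1 h2 h3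

theorem c293 (h : Good α) (h1 : α 140 = false) (h2 : α 36 = false) (h3 : α 15 = false) : False :=
  af h false 0 140 36 15 (by decide +kernel) h1 h2 h3

theorem c294 (h : Good α) (h1 : α 56 = false) (h2 : α 15 = false) (h3 : α 72 = false) : False :=
  af h false 1 56 15 72 (by decide +kernel) h1 h2 h3

theorem c295 (h : Good α) (h1 : α 56 = true) (h2 : α 15 = true) (h3 : α 72 = true) : False :=
  af h true 1 56 15 72 (by decide +kernel) h1 h2 h3

theorem c296 (h : Good α) (h1 : α 56 = true) (h2 : α 15 = true) (h3 : α 146 = true) (h4 : α 98 = true) : False :=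
  rf h true 1 1 2 56 15 146 98 (by decide +kernel) h1 h2 h3 h4

theorem c297 (h : Good α) (h1 : α 185 = false) (h2 : α 56 = false) (h3 : α 15 = false) : False :=
  af h false 1 185 56 15 (by decide +kernel) h1 h2 h3

theorem c298 (h : Good α) (h1 : α 185 = true) (h2 : α 56 = true) (h3 : α 15 = true) : False :=
  af h true 1 185 56 15 (by decide +kernel) h1 h2 h3

theorem c299 (h : Good α) (h1 : α 15 = false) (h2 : α 60 = false) (h3 : α 186 = false) : False :=
  af h false 2 15 60 186 (by decide +kernel) h1 h2 h3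

theorem c300 (h : Good α) (h1 : α 88 = true) (h2 : α 337 = true) (h3 : α 15 = true) (h4 : α 256 = true) : False :=
  rf h true 0 2 1 88 337 15 256 (by decide +kernel) h1 h2 h3 h4

theorem c301 (h : Good α) (h1 : α 269 = true) (h2 : α 88 = true) (h3 : α 15 = true) : False :=
  af h true 3 269 88 15 (by decide +kernel) h1 h2 h3

theorem c302 (h : Good α) (h1 : α 15 = true) (h2 : α 93 = true) (h3 : α 256 = true) : False :=
  af h true 0 15 93 256 (by decide +kernel) h1 h2 h3

theorem c303 (h : Good α) (h1 : α 498 = true) (h2 : α 562 = true) (h3 : α 15 = true) (h4 : α 93 = true) : False :=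
  rf h true 0 1 3 498 562 15 93 (by decide +kernel) h1 h2 h3 h4

theorem c304 (h : Good α) (h1 : α 385 = false) (h2 : α 15 = false) (h3 : α 471 = false) (h4 : α 98 = false) : False :=
  rf h false 1 3 2 385 15 471 98 (by decide +kernel) h1 h2 h3 h4

theorem c305 (h : Good α) (h1 : α 100 = false) (h2 : α 255 = false) (h3 : α 15 = false) (h4 : α 186 = false) : False :=
  rf h false 2 2 1 100 255 15 186 (by decide +kernel) h1 h2 h3 h4

theorem c306 (h : Good α) (h1 : α 302 = false) (h2 : α 100 = false) (h3 : α 15 = false) : False :=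
  af h false 5 302 100 15 (by decide +kernel) h1 h2 h3

theorem c307 (h : Good α) (h1 : α 465 = false) (h2 : α 105 = false) (h3 : α 385 = false) (h4 : α 15 = false) : False :=
  rf h false 1 3 1 465 105 385 15 (by decide +kernel) h1 h2 h3 h4

theorem c308 (h : Good α) (h1 : α 465 = true) (h2 : α 105 = true) (h3 : α 385 = true) (h4 : α 15 = true) : False :=
  rf h true 1 3 1 465 105 385 15 (by decide +kernel) h1 h2 h3 h4

theorem c309 (h : Good α) (h1 : α 589 = true) (h2 : α 498 = true) (h3 : α 140 = true) (h4 : α 15 = true) : False :=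
  rf h true 0 2 3 589 498 140 15 (by decide +kernel) h1 h2 h3 h4

theorem c310 (h : Good α) (h1 : α 269 = false) (h2 : α 482 = false) (h3 : α 15 = false) (h4 : α 256 = false) : False :=
  rf h false 0 2 2 269 482 15 256 (by decide +kernel) h1 h2 h3 h4

theorem c311 (h : Good α) (h1 : α 269 = true) (h2 : α 482 = true) (h3 : α 15 = true) (h4 : α 256 = true) : False :=
  rf h true 0 2 2 269 482 15 256 (by decide +kernel) h1 h2 h3 h4

theorem c312 (h : Good α) (h1 : α 57 = false) (h2 : α 51 = false) (h3 : α 22 = false) (h4 : α 16 = false) : False :=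
  rf h false 1 1 1 57 51 22 16 (by decide +kernel) h1 h2 h3 h4

theorem c313 (h : Good α) (h1 : α 57 = true) (h2 : α 51 = true) (h3 : α 22 = true) (h4 : α 16 = true) : False :=
  rf h true 1 1 1 57 51 22 16 (by decide +kernel) h1 h2 h3 h4

theorem c314 (h : Good α) (h1 : α 22 = false) (h2 : α 16 = false) (h3 : α 109 = false) : False :=
  af h false 1 22 16 109 (by decide +kernel) h1 h2 h3

theorem c315 (h : Good α) (h1 : α 22 = true) (h2 : α 16 = true) (h3 : α 109 = true) : False :=
  af h true 1 22 16 109 (by decide +kernel) h1 h2 h3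

theorem c316 (h : Good α) (h1 : α 118 = false) (h2 : α 22 = false) (h3 : α 16 = false) : False :=
  af h false 1 118 22 16 (by decide +kernel) h1 h2 h3

theorem c317 (h : Good α) (h1 : α 118 = true) (h2 : α 22 = true) (h3 : α 16 = true) : False :=
  af h true 1 118 22 16 (by decide +kernel) h1 h2 h3

theorem c318 (h : Good α) (h1 : α 184 = true) (h2 : α 182 = true) (h3 : α 22 = true) (h4 : α 16 = true) : False :=
  rf h true 1 1 2 184 182 22 16 (by decide +kernel) h1 h2 h3 h4

theorem c319 (h : Good α) (h1 : α 383 = true) (h2 : α 377 = true) (h3 : α 22 = true) (h4 : α 16 = true) : False :=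
  rf h true 1 1 3 383 377 22 16 (by decide +kernel) h1 h2 h3 h4

theorem c320 (h : Good α) (h1 : α 24 = false) (h2 : α 16 = false) (h3 : α 54 = false) (h4 : α 52 = false) : False :=
  rf h false 2 1 1 24 16 54 52 (by decide +kernel) h1 h2 h3 h4

theorem c321 (h : Good α) (h1 : α 63 = true) (h2 : α 68 = true) (h3 : α 24 = true) (h4 : α 16 = true) : False :=
  rf h true 2 1 1 63 68 24 16 (by decide +kernel) h1 h2 h3 h4

theorem c322 (h : Good α) (h1 : α 24 = false) (h2 : α 16 = false) (h3 : α 108 = false) : False :=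
  af h false 2 24 16 108 (by decide +kernel) h1 h2 h3

theorem c323 (h : Good α) (h1 : α 24 = true) (h2 : α 16 = true) (h3 : α 108 = true) : False :=
  af h true 2 24 16 108 (by decide +kernel) h1 h2 h3

theorem c324 (h : Good α) (h1 : α 120 = false) (h2 : α 24 = false) (h3 : α 16 = false) : False :=
  af h false 2 120 24 16 (by decide +kernel) h1 h2 h3

theorem c325 (h : Good α) (h1 : α 120 = true) (h2 : α 24 = true) (h3 : α 16 = true) : False :=
  af h true 2 120 24 16 (by decide +kernel) h1 h2 h3

theorem c326 (h : Good α) (h1 : α 24 = true) (h2 : α 16 = true) (h3 : α 191 = true) (h4 : α 181 = true) : False :=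
  rf h true 2 1 2 24 16 191 181 (by decide +kernel) h1 h2 h3 h4

theorem c327 (h : Good α) (h1 : α 24 = true) (h2 : α 16 = true) (h3 : α 381 = true) (h4 : α 384 = true) : False :=
  rf h true 2 1 3 24 16 381 384 (by decide +kernel) h1 h2 h3 h4

theorem c328 (h : Good α) (h1 : α 26 = false) (h2 : α 16 = false) (h3 : α 89 = false) : False :=
  af h false 0 26 16 89 (by decide +kernel) h1 h2 h3

theorem c329 (h : Good α) (h1 : α 26 = true) (h2 : α 16 = true) (h3 : α 89 = true) : False :=
  af h true 0 26 16 89 (by decide +kernel) h1 h2 h3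

theorem c330 (h : Good α) (h1 : α 130 = true) (h2 : α 26 = true) (h3 : α 16 = true) : False :=
  af h true 0 130 26 16 (by decide +kernel) h1 h2 h3

theorem c331 (h : Good α) (h1 : α 26 = true) (h2 : α 16 = true) (h3 : α 517 = true) (h4 : α 502 = true) : False :=
  rf h true 0 1 3 26 16 517 502 (by decide +kernel) h1 h2 h3 h4

theorem c332 (h : Good α) (h1 : α 29 = false) (h2 : α 104 = false) (h3 : α 16 = false) (h4 : α 89 = false) : False :=
  rf h false 0 1 1 29 104 16 89 (by decide +kernel) h1 h2 h3 h4

theorem c333 (h : Good α) (h1 : α 29 = true) (h2 : α 104 = true) (h3 : α 16 = true) (h4 : α 89 = true) : False :=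
  rf h true 0 1 1 29 104 16 89 (by decide +kernel) h1 h2 h3 h4

theorem c334 (h : Good α) (h1 : α 29 = false) (h2 : α 16 = false) (h3 : α 95 = false) : False :=
  af h false 3 29 16 95 (by decide +kernel) h1 h2 h3

theorem c335 (h : Good α) (h1 : α 29 = true) (h2 : α 16 = true) (h3 : α 95 = true) : False :=
  af h true 3 29 16 95 (by decide +kernel) h1 h2 h3

theorem c336 (h : Good α) (h1 : α 134 = false) (h2 : α 29 = false) (h3 : α 16 = false) : False :=
  af h false 3 134 29 16 (by decide +kernel) h1 h2 h3

theorem c337 (h : Good α) (h1 : α 134 = true) (h2 : α 29 = true) (h3 : α 16 = true) : False :=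
  af h true 3 134 29 16 (by decide +kernel) h1 h2 h3

theorem c338 (h : Good α) (h1 : α 51 = true) (h2 : α 16 = true) (h3 : α 66 = true) : False :=
  af h true 4 51 16 66 (by decide +kernel) h1 h2 h3

theorem c339 (h : Good α) (h1 : α 182 = false) (h2 : α 51 = false) (h3 : α 16 = false) : False :=
  af h false 4 182 51 16 (by decide +kernel) h1 h2 h3

theorem c340 (h : Good α) (h1 : α 182 = true) (h2 : α 51 = true) (h3 : α 16 = true) : False :=
  af h true 4 182 51 16 (by decide +kernel) h1 h2 h3

theorem c341 (h : Good α) (h1 : α 329 = true) (h2 : α 51 = true) (h3 : α 310 = true) (h4 : α 16 = true) : False :=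
  rf h true 1 3 1 329 51 310 16 (by decide +kernel) h1 h2 h3 h4

theorem c342 (h : Good α) (h1 : α 68 = false) (h2 : α 16 = false) (h3 : α 52 = false) : False :=
  af h false 5 68 16 52 (by decide +kernel) h1 h2 h3

theorem c343 (h : Good α) (h1 : α 68 = true) (h2 : α 16 = true) (h3 : α 52 = true) : False :=
  af h true 5 68 16 52 (by decide +kernel) h1 h2 h3

theorem c344 (h : Good α) (h1 : α 16 = true) (h2 : α 108 = true) (h3 : α 52 = true) (h4 : α 150 = true) : False :=
  rf h true 2 1 1 16 108 52 150 (by decide +kernel) h1 h2 h3 h4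

theorem c345 (h : Good α) (h1 : α 120 = true) (h2 : α 16 = true) (h3 : α 154 = true) (h4 : α 52 = true) : False :=
  rf h true 2 2 1 120 16 154 52 (by decide +kernel) h1 h2 h3 h4

theorem c346 (h : Good α) (h1 : α 16 = false) (h2 : α 52 = false) (h3 : α 181 = false) : False :=
  af h false 5 16 52 181 (by decide +kernel) h1 h2 h3

theorem c347 (h : Good α) (h1 : α 16 = true) (h2 : α 52 = true) (h3 : α 181 = true) : False :=
  af h true 5 16 52 181 (by decide +kernel) h1 h2 h3

theorem c348 (h : Good α) (h1 : α 308 = true) (h2 : α 16 = true) (h3 : α 328 = true) (h4 : α 52 = true) : False :=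
  rf h true 2 3 1 308 16 328 52 (by decide +kernel) h1 h2 h3 h4

theorem c349 (h : Good α) (h1 : α 68 = false) (h2 : α 167 = false) (h3 : α 16 = false) (h4 : α 108 = false) : False :=
  rf h false 2 1 1 68 167 16 108 (by decide +kernel) h1 h2 h3 h4

theorem c350 (h : Good α) (h1 : α 175 = false) (h2 : α 68 = false) (h3 : α 120 = false) (h4 : α 16 = false) : False :=
  rf h false 2 2 1 175 68 120 16 (by decide +kernel) h1 h2 h3 h4

theorem c351 (h : Good α) (h1 : α 16 = true) (h2 : α 89 = true) (h3 : α 95 = true) (h4 : α 186 = true) : False :=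
  rf h true 0 1 1 16 89 95 186 (by decide +kernel) h1 h2 h3 h4

theorem c352 (h : Good α) (h1 : α 16 = true) (h2 : α 89 = true) (h3 : α 276 = true) : False :=
  af h true 0 16 89 276 (by decide +kernel) h1 h2 h3

theorem c353 (h : Good α) (h1 : α 16 = false) (h2 : α 95 = false) (h3 : α 265 = false) : False :=
  af h false 3 16 95 265 (by decide +kernel) h1 h2 h3

theorem c354 (h : Good α) (h1 : α 16 = true) (h2 : α 95 = true) (h3 : α 265 = true) : False :=
  af h true 3 16 95 265 (by decide +kernel) h1 h2 h3

theorem c355 (h : Good α) (h1 : α 16 = false) (h2 : α 108 = false) (h3 : α 181 = false) (h4 : α 260 = false) : False :=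
  rf h false 2 1 2 16 108 181 260 (by decide +kernel) h1 h2 h3 h4

theorem c356 (h : Good α) (h1 : α 16 = false) (h2 : α 108 = false) (h3 : α 291 = false) : False :=
  af h false 2 16 108 291 (by decide +kernel) h1 h2 h3

theorem c357 (h : Good α) (h1 : α 16 = true) (h2 : α 108 = true) (h3 : α 291 = true) : False :=
  af h true 2 16 108 291 (by decide +kernel) h1 h2 h3

theorem c358 (h : Good α) (h1 : α 16 = false) (h2 : α 108 = false) (h3 : α 384 = false) (h4 : α 454 = false) : False :=
  rf h false 2 1 3 16 108 384 454 (by decide +kernel) h1 h2 h3 h4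

theorem c359 (h : Good α) (h1 : α 16 = false) (h2 : α 109 = false) (h3 : α 292 = false) : False :=
  af h false 1 16 109 292 (by decide +kernel) h1 h2 h3

theorem c360 (h : Good α) (h1 : α 120 = false) (h2 : α 16 = false) (h3 : α 275 = false) (h4 : α 181 = false) : False :=
  rf h false 2 2 2 120 16 275 181 (by decide +kernel) h1 h2 h3 h4

theorem c361 (h : Good α) (h1 : α 120 = false) (h2 : α 16 = false) (h3 : α 467 = false) (h4 : α 384 = false) : False :=
  rf h false 2 2 3 120 16 467 384 (by decide +kernel) h1 h2 h3 h4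

theorem c362 (h : Good α) (h1 : α 17 = false) (h2 : α 23 = false) (h3 : α 50 = false) (h4 : α 58 = false) : False :=
  rf h false 1 1 1 17 23 50 58 (by decide +kernel) h1 h2 h3 h4

theorem c363 (h : Good α) (h1 : α 17 = true) (h2 : α 23 = true) (h3 : α 50 = true) (h4 : α 58 = true) : False :=
  rf h true 1 1 1 17 23 50 58 (by decide +kernel) h1 h2 h3 h4

theorem c364 (h : Good α) (h1 : α 110 = false) (h2 : α 17 = false) (h3 : α 23 = false) : False :=
  af h false 1 110 17 23 (by decide +kernel) h1 h2 h3

theorem c365 (h : Good α) (h1 : α 110 = true) (h2 : α 17 = true) (h3 : α 23 = true) : False :=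
  af h true 1 110 17 23 (by decide +kernel) h1 h2 h3

theorem c366 (h : Good α) (h1 : α 17 = false) (h2 : α 23 = false) (h3 : α 119 = false) : False :=
  af h false 1 17 23 119 (by decide +kernel) h1 h2 h3

theorem c367 (h : Good α) (h1 : α 17 = true) (h2 : α 23 = true) (h3 : α 119 = true) : False :=
  af h true 1 17 23 119 (by decide +kernel) h1 h2 h3

theorem c368 (h : Good α) (h1 : α 17 = true) (h2 : α 23 = true) (h3 : α 181 = true) (h4 : α 183 = true) : False :=
  rf h true 1 1 2 17 23 181 183 (by decide +kernel) h1 h2 h3 h4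

theorem c369 (h : Good α) (h1 : α 17 = true) (h2 : α 23 = true) (h3 : α 376 = true) (h4 : α 380 = true) : False :=
  rf h true 1 1 3 17 23 376 380 (by decide +kernel) h1 h2 h3 h4

theorem c370 (h : Good α) (h1 : α 111 = false) (h2 : α 17 = false) (h3 : α 25 = false) : False :=
  af h false 2 111 17 25 (by decide +kernel) h1 h2 h3

theorem c371 (h : Good α) (h1 : α 111 = true) (h2 : α 17 = true) (h3 : α 25 = true) : False :=
  af h true 2 111 17 25 (by decide +kernel) h1 h2 h3

theorem c372 (h : Good α) (h1 : α 17 = false) (h2 : α 25 = false) (h3 : α 121 = false) : False :=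
  af h false 2 17 25 121 (by decide +kernel) h1 h2 h3

theorem c373 (h : Good α) (h1 : α 17 = true) (h2 : α 25 = true) (h3 : α 121 = true) : False :=
  af h true 2 17 25 121 (by decide +kernel) h1 h2 h3

theorem c374 (h : Good α) (h1 : α 86 = true) (h2 : α 17 = true) (h3 : α 27 = true) : False :=
  af h true 0 86 17 27 (by decide +kernel) h1 h2 h3

theorem c375 (h : Good α) (h1 : α 17 = true) (h2 : α 27 = true) (h3 : α 133 = true) : False :=
  af h true 0 17 27 133 (by decide +kernel) h1 h2 h3

theorem c376 (h : Good α) (h1 : α 86 = false) (h2 : α 17 = false) (h3 : α 103 = false) (h4 : α 32 = false) : False :=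
  rf h false 0 1 1 86 17 103 32 (by decide +kernel) h1 h2 h3 h4

theorem c377 (h : Good α) (h1 : α 96 = false) (h2 : α 17 = false) (h3 : α 32 = false) : False :=
  af h false 3 96 17 32 (by decide +kernel) h1 h2 h3

theorem c378 (h : Good α) (h1 : α 96 = true) (h2 : α 17 = true) (h3 : α 32 = true) : False :=
  af h true 3 96 17 32 (by decide +kernel) h1 h2 h3

theorem c379 (h : Good α) (h1 : α 17 = false) (h2 : α 32 = false) (h3 : α 137 = false) : False :=
  af h false 3 17 32 137 (by decide +kernel) h1 h2 h3

theorem c380 (h : Good α) (h1 : α 275 = true) (h2 : α 17 = true) (h3 : α 285 = true) (h4 : α 32 = true) : False :=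
  rf h true 0 2 1 275 17 285 32 (by decide +kernel) h1 h2 h3 h4

theorem c381 (h : Good α) (h1 : α 67 = false) (h2 : α 17 = false) (h3 : α 50 = false) : False :=
  af h false 4 67 17 50 (by decide +kernel) h1 h2 h3

theorem c382 (h : Good α) (h1 : α 17 = false) (h2 : α 50 = false) (h3 : α 181 = false) : False :=
  af h false 4 17 50 181 (by decide +kernel) h1 h2 h3

theorem c383 (h : Good α) (h1 : α 17 = true) (h2 : α 50 = true) (h3 : α 181 = true) : False :=
  af h true 4 17 50 181 (by decide +kernel) h1 h2 h3

theorem c384 (h : Good α) (h1 : α 53 = true) (h2 : α 17 = true) (h3 : α 73 = true) : False :=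
  af h true 5 53 17 73 (by decide +kernel) h1 h2 h3

theorem c385 (h : Good α) (h1 : α 153 = true) (h2 : α 53 = true) (h3 : α 111 = true) (h4 : α 17 = true) : False :=
  rf h true 2 1 1 153 53 111 17 (by decide +kernel) h1 h2 h3 h4

theorem c386 (h : Good α) (h1 : α 53 = true) (h2 : α 157 = true) (h3 : α 17 = true) (h4 : α 121 = true) : False :=
  rf h true 2 2 1 53 157 17 121 (by decide +kernel) h1 h2 h3 h4

theorem c387 (h : Good α) (h1 : α 182 = false) (h2 : α 53 = false) (h3 : α 17 = false) : False :=
  af h false 5 182 53 17 (by decide +kernel) h1 h2 h3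

theorem c388 (h : Good α) (h1 : α 182 = true) (h2 : α 53 = true) (h3 : α 17 = true) : False :=
  af h true 5 182 53 17 (by decide +kernel) h1 h2 h3

theorem c389 (h : Good α) (h1 : α 53 = false) (h2 : α 333 = false) (h3 : α 17 = false) (h4 : α 309 = false) : False :=
  rf h false 2 3 1 53 333 17 309 (by decide +kernel) h1 h2 h3 h4

theorem c390 (h : Good α) (h1 : α 111 = true) (h2 : α 17 = true) (h3 : α 168 = true) (h4 : α 73 = true) : False :=
  rf h true 2 1 1 111 17 168 73 (by decide +kernel) h1 h2 h3 h4

theorem c391 (h : Good α) (h1 : α 344 = false) (h2 : α 266 = false) (h3 : α 86 = false) (h4 : α 17 = false) : False :=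
  rf h false 0 1 2 344 266 86 17 (by decide +kernel) h1 h2 h3 h4

theorem c392 (h : Good α) (h1 : α 275 = false) (h2 : α 86 = false) (h3 : α 17 = false) : False :=
  af h false 0 275 86 17 (by decide +kernel) h1 h2 h3

theorem c393 (h : Good α) (h1 : α 275 = true) (h2 : α 86 = true) (h3 : α 17 = true) : False :=
  af h true 0 275 86 17 (by decide +kernel) h1 h2 h3

theorem c394 (h : Good α) (h1 : α 564 = false) (h2 : α 503 = false) (h3 : α 86 = false) (h4 : α 17 = false) : False :=
  rf h false 0 1 3 564 503 86 17 (by decide +kernel) h1 h2 h3 h4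

theorem c395 (h : Good α) (h1 : α 564 = true) (h2 : α 503 = true) (h3 : α 86 = true) (h4 : α 17 = true) : False :=
  rf h true 0 1 3 564 503 86 17 (by decide +kernel) h1 h2 h3 h4

theorem c396 (h : Good α) (h1 : α 266 = false) (h2 : α 96 = false) (h3 : α 17 = false) : False :=
  af h false 3 266 96 17 (by decide +kernel) h1 h2 h3

theorem c397 (h : Good α) (h1 : α 266 = true) (h2 : α 96 = true) (h3 : α 17 = true) : False :=
  af h true 3 266 96 17 (by decide +kernel) h1 h2 h3

theorem c398 (h : Good α) (h1 : α 346 = false) (h2 : α 96 = false) (h3 : α 275 = false) (h4 : α 17 = false) : False :=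
  rf h false 0 2 1 346 96 275 17 (by decide +kernel) h1 h2 h3 h4

theorem c399 (h : Good α) (h1 : α 566 = true) (h2 : α 96 = true) (h3 : α 504 = true) (h4 : α 17 = true) : False :=
  rf h true 0 3 1 566 96 504 17 (by decide +kernel) h1 h2 h3 h4

theorem c400 (h : Good α) (h1 : α 294 = false) (h2 : α 110 = false) (h3 : α 17 = false) : False :=
  af h false 1 294 110 17 (by decide +kernel) h1 h2 h3

theorem c401 (h : Good α) (h1 : α 261 = true) (h2 : α 182 = true) (h3 : α 111 = true) (h4 : α 17 = true) : False :=
  rf h true 2 1 2 261 182 111 17 (by decide +kernel) h1 h2 h3 h4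

theorem c402 (h : Good α) (h1 : α 485 = false) (h2 : α 266 = false) (h3 : α 275 = false) (h4 : α 17 = false) : False :=
  rf h false 0 2 2 485 266 275 17 (by decide +kernel) h1 h2 h3 h4

theorem c403 (h : Good α) (h1 : α 24 = false) (h2 : α 51 = false) (h3 : α 18 = false) (h4 : α 60 = false) : False :=
  rf h false 0 1 1 24 51 18 60 (by decide +kernel) h1 h2 h3 h4

theorem c404 (h : Good α) (h1 : α 24 = true) (h2 : α 51 = true) (h3 : α 18 = true) (h4 : α 60 = true) : False :=
  rf h true 0 1 1 24 51 18 60 (by decide +kernel) h1 h2 h3 h4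

theorem c405 (h : Good α) (h1 : α 82 = true) (h2 : α 24 = true) (h3 : α 74 = true) (h4 : α 18 = true) : False :=
  rf h true 0 1 1 82 24 74 18 (by decide +kernel) h1 h2 h3 h4

theorem c406 (h : Good α) (h1 : α 107 = false) (h2 : α 24 = false) (h3 : α 18 = false) : False :=
  af h false 3 107 24 18 (by decide +kernel) h1 h2 h3

theorem c407 (h : Good α) (h1 : α 107 = true) (h2 : α 24 = true) (h3 : α 18 = true) : False :=
  af h true 3 107 24 18 (by decide +kernel) h1 h2 h3

theorem c408 (h : Good α) (h1 : α 24 = false) (h2 : α 18 = false) (h3 : α 115 = false) : False :=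
  af h false 3 24 18 115 (by decide +kernel) h1 h2 h3

theorem c409 (h : Good α) (h1 : α 24 = true) (h2 : α 18 = true) (h3 : α 115 = true) : False :=
  af h true 3 24 18 115 (by decide +kernel) h1 h2 h3

theorem c410 (h : Good α) (h1 : α 24 = true) (h2 : α 192 = true) (h3 : α 18 = true) (h4 : α 190 = true) : False :=
  rf h true 0 2 1 24 192 18 190 (by decide +kernel) h1 h2 h3 h4

theorem c411 (h : Good α) (h1 : α 24 = true) (h2 : α 391 = true) (h3 : α 18 = true) (h4 : α 397 = true) : False :=
  rf h true 0 3 1 24 391 18 397 (by decide +kernel) h1 h2 h3 h4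

theorem c412 (h : Good α) (h1 : α 41 = true) (h2 : α 30 = true) (h3 : α 36 = true) (h4 : α 18 = true) : False :=
  rf h true 2 1 1 41 30 36 18 (by decide +kernel) h1 h2 h3 h4

theorem c413 (h : Good α) (h1 : α 30 = false) (h2 : α 18 = false) (h3 : α 91 = false) : False :=
  af h false 5 30 18 91 (by decide +kernel) h1 h2 h3

theorem c414 (h : Good α) (h1 : α 30 = true) (h2 : α 18 = true) (h3 : α 91 = true) : False :=
  af h true 5 30 18 91 (by decide +kernel) h1 h2 h3

theorem c415 (h : Good α) (h1 : α 124 = false) (h2 : α 30 = false) (h3 : α 18 = false) : False :=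
  af h false 5 124 30 18 (by decide +kernel) h1 h2 h3

theorem c416 (h : Good α) (h1 : α 124 = true) (h2 : α 30 = true) (h3 : α 18 = true) : False :=
  af h true 5 124 30 18 (by decide +kernel) h1 h2 h3

theorem c417 (h : Good α) (h1 : α 30 = true) (h2 : α 282 = true) (h3 : α 18 = true) (h4 : α 267 = true) : False :=
  rf h true 2 2 1 30 282 18 267 (by decide +kernel) h1 h2 h3 h4

theorem c418 (h : Good α) (h1 : α 30 = true) (h2 : α 513 = true) (h3 : α 18 = true) (h4 : α 497 = true) : False :=
  rf h true 2 3 1 30 513 18 497 (by decide +kernel) h1 h2 h3 h4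

theorem c419 (h : Good α) (h1 : α 36 = false) (h2 : α 18 = false) (h3 : α 114 = false) (h4 : α 91 = false) : False :=
  rf h false 2 1 1 36 18 114 91 (by decide +kernel) h1 h2 h3 h4

theorem c420 (h : Good α) (h1 : α 36 = false) (h2 : α 18 = false) (h3 : α 95 = false) : False :=
  af h false 2 36 18 95 (by decide +kernel) h1 h2 h3

theorem c421 (h : Good α) (h1 : α 36 = true) (h2 : α 18 = true) (h3 : α 95 = true) : False :=
  af h true 2 36 18 95 (by decide +kernel) h1 h2 h3

theorem c422 (h : Good α) (h1 : α 141 = false) (h2 : α 36 = false) (h3 : α 18 = false) : False :=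
  af h false 2 141 36 18 (by decide +kernel) h1 h2 h3

theorem c423 (h : Good α) (h1 : α 141 = true) (h2 : α 36 = true) (h3 : α 18 = true) : False :=
  af h true 2 141 36 18 (by decide +kernel) h1 h2 h3

theorem c424 (h : Good α) (h1 : α 36 = false) (h2 : α 18 = false) (h3 : α 285 = false) (h4 : α 259 = false) : False :=
  rf h false 2 1 2 36 18 285 259 (by decide +kernel) h1 h2 h3 h4

theorem c425 (h : Good α) (h1 : α 36 = false) (h2 : α 18 = false) (h3 : α 518 = false) (h4 : α 489 = false) : False :=
  rf h false 2 1 3 36 18 518 489 (by decide +kernel) h1 h2 h3 h4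

theorem c426 (h : Good α) (h1 : α 36 = true) (h2 : α 18 = true) (h3 : α 518 = true) (h4 : α 489 = true) : False :=
  rf h true 2 1 3 36 18 518 489 (by decide +kernel) h1 h2 h3 h4

theorem c427 (h : Good α) (h1 : α 54 = false) (h2 : α 18 = false) (h3 : α 75 = false) : False :=
  af h false 1 54 18 75 (by decide +kernel) h1 h2 h3

theorem c428 (h : Good α) (h1 : α 54 = true) (h2 : α 18 = true) (h3 : α 75 = true) : False :=
  af h true 1 54 18 75 (by decide +kernel) h1 h2 h3

theorem c429 (h : Good α) (h1 : α 54 = true) (h2 : α 18 = true) (h3 : α 146 = true) (h4 : α 98 = true) : False :=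
  rf h true 1 1 1 54 18 146 98 (by decide +kernel) h1 h2 h3 h4

theorem c430 (h : Good α) (h1 : α 187 = false) (h2 : α 54 = false) (h3 : α 18 = false) : False :=
  af h false 1 187 54 18 (by decide +kernel) h1 h2 h3

theorem c431 (h : Good α) (h1 : α 187 = true) (h2 : α 54 = true) (h3 : α 18 = true) : False :=
  af h true 1 187 54 18 (by decide +kernel) h1 h2 h3

theorem c432 (h : Good α) (h1 : α 324 = true) (h2 : α 296 = true) (h3 : α 54 = true) (h4 : α 18 = true) : False :=
  rf h true 1 1 3 324 296 54 18 (by decide +kernel) h1 h2 h3 h4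

theorem c433 (h : Good α) (h1 : α 74 = false) (h2 : α 18 = false) (h3 : α 60 = false) : False :=
  af h false 0 74 18 60 (by decide +kernel) h1 h2 h3

theorem c434 (h : Good α) (h1 : α 74 = true) (h2 : α 18 = true) (h3 : α 60 = true) : False :=
  af h true 0 74 18 60 (by decide +kernel) h1 h2 h3

theorem c435 (h : Good α) (h1 : α 18 = false) (h2 : α 60 = false) (h3 : α 190 = false) : False :=
  af h false 0 18 60 190 (by decide +kernel) h1 h2 h3

theorem c436 (h : Good α) (h1 : α 300 = true) (h2 : α 319 = true) (h3 : α 18 = true) (h4 : α 60 = true) : False :=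
  rf h true 0 1 3 300 319 18 60 (by decide +kernel) h1 h2 h3 h4

theorem c437 (h : Good α) (h1 : α 173 = false) (h2 : α 107 = false) (h3 : α 74 = false) (h4 : α 18 = false) : False :=
  rf h false 0 1 2 173 107 74 18 (by decide +kernel) h1 h2 h3 h4

theorem c438 (h : Good α) (h1 : α 105 = false) (h2 : α 171 = false) (h3 : α 18 = false) (h4 : α 75 = false) : False :=
  rf h false 1 1 2 105 171 18 75 (by decide +kernel) h1 h2 h3 h4

theorem c439 (h : Good α) (h1 : α 18 = false) (h2 : α 95 = false) (h3 : α 91 = false) (h4 : α 183 = false) : False :=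
  rf h false 2 1 1 18 95 91 183 (by decide +kernel) h1 h2 h3 h4

theorem c440 (h : Good α) (h1 : α 18 = true) (h2 : α 95 = true) (h3 : α 91 = true) (h4 : α 183 = true) : False :=
  rf h true 2 1 1 18 95 91 183 (by decide +kernel) h1 h2 h3 h4

theorem c441 (h : Good α) (h1 : α 18 = false) (h2 : α 91 = false) (h3 : α 259 = false) : False :=
  af h false 5 18 91 259 (by decide +kernel) h1 h2 h3

theorem c442 (h : Good α) (h1 : α 18 = true) (h2 : α 91 = true) (h3 : α 259 = true) : False :=
  af h true 5 18 91 259 (by decide +kernel) h1 h2 h3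

theorem c443 (h : Good α) (h1 : α 18 = false) (h2 : α 267 = false) (h3 : α 91 = false) (h4 : α 340 = false) : False :=
  rf h false 2 2 1 18 267 91 340 (by decide +kernel) h1 h2 h3 h4

theorem c444 (h : Good α) (h1 : α 18 = true) (h2 : α 497 = true) (h3 : α 91 = true) (h4 : α 558 = true) : False :=
  rf h true 2 3 1 18 497 91 558 (by decide +kernel) h1 h2 h3 h4

theorem c445 (h : Good α) (h1 : α 124 = false) (h2 : α 215 = false) (h3 : α 18 = false) (h4 : α 95 = false) : False :=
  rf h false 2 1 2 124 215 18 95 (by decide +kernel) h1 h2 h3 h4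

theorem c446 (h : Good α) (h1 : α 18 = false) (h2 : α 95 = false) (h3 : α 267 = false) : False :=
  af h false 2 18 95 267 (by decide +kernel) h1 h2 h3

theorem c447 (h : Good α) (h1 : α 18 = true) (h2 : α 95 = true) (h3 : α 267 = true) : False :=
  af h true 2 18 95 267 (by decide +kernel) h1 h2 h3

theorem c448 (h : Good α) (h1 : α 18 = true) (h2 : α 95 = true) (h3 : α 489 = true) (h4 : α 560 = true) : False :=
  rf h true 2 1 3 18 95 489 560 (by decide +kernel) h1 h2 h3 h4

theorem c449 (h : Good α) (h1 : α 18 = false) (h2 : α 98 = false) (h3 : α 289 = false) : False :=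
  af h false 4 18 98 289 (by decide +kernel) h1 h2 h3

theorem c450 (h : Good α) (h1 : α 393 = false) (h2 : α 18 = false) (h3 : α 471 = false) (h4 : α 98 = false) : False :=
  rf h false 1 3 1 393 18 471 98 (by decide +kernel) h1 h2 h3 h4

theorem c451 (h : Good α) (h1 : α 107 = true) (h2 : α 262 = true) (h3 : α 18 = true) (h4 : α 190 = true) : False :=
  rf h true 0 2 2 107 262 18 190 (by decide +kernel) h1 h2 h3 h4

theorem c452 (h : Good α) (h1 : α 107 = false) (h2 : α 458 = false) (h3 : α 18 = false) (h4 : α 397 = false) : False :=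
  rf h false 0 3 2 107 458 18 397 (by decide +kernel) h1 h2 h3 h4

theorem c453 (h : Good α) (h1 : α 107 = true) (h2 : α 458 = true) (h3 : α 18 = true) (h4 : α 397 = true) : False :=
  rf h true 0 3 2 107 458 18 397 (by decide +kernel) h1 h2 h3 h4

theorem c454 (h : Good α) (h1 : α 18 = false) (h2 : α 190 = false) (h3 : α 115 = false) (h4 : α 274 = false) : False :=
  rf h false 0 2 1 18 190 115 274 (by decide +kernel) h1 h2 h3 h4

theorem c455 (h : Good α) (h1 : α 18 = false) (h2 : α 115 = false) (h3 : α 304 = false) : False :=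
  af h false 3 18 115 304 (by decide +kernel) h1 h2 h3

theorem c456 (h : Good α) (h1 : α 18 = true) (h2 : α 115 = true) (h3 : α 304 = true) : False :=
  af h true 3 18 115 304 (by decide +kernel) h1 h2 h3

theorem c457 (h : Good α) (h1 : α 18 = false) (h2 : α 397 = false) (h3 : α 115 = false) (h4 : α 473 = false) : False :=
  rf h false 0 3 1 18 397 115 473 (by decide +kernel) h1 h2 h3 h4

theorem c458 (h : Good α) (h1 : α 187 = true) (h2 : α 18 = true) (h3 : α 410 = true) (h4 : α 289 = true) : False :=
  rf h true 1 2 2 187 18 410 289 (by decide +kernel) h1 h2 h3 h4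

theorem c459 (h : Good α) (h1 : α 18 = true) (h2 : α 267 = true) (h3 : α 259 = true) (h4 : α 478 = true) : False :=
  rf h true 2 2 2 18 267 259 478 (by decide +kernel) h1 h2 h3 h4

theorem c460 (h : Good α) (h1 : α 19 = true) (h2 : α 23 = true) (h3 : α 113 = true) : False :=
  af h true 0 19 23 113 (by decide +kernel) h1 h2 h3

theorem c461 (h : Good α) (h1 : α 114 = false) (h2 : α 19 = false) (h3 : α 23 = false) : False :=
  af h false 0 114 19 23 (by decide +kernel) h1 h2 h3

theorem c462 (h : Good α) (h1 : α 386 = false) (h2 : α 379 = false) (h3 : α 19 = false) (h4 : α 23 = false) : False :=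
  rf h false 0 1 3 386 379 19 23 (by decide +kernel) h1 h2 h3 h4

theorem c463 (h : Good α) (h1 : α 386 = true) (h2 : α 379 = true) (h3 : α 19 = true) (h4 : α 23 = true) : False :=
  rf h true 0 1 3 386 379 19 23 (by decide +kernel) h1 h2 h3 h4

theorem c464 (h : Good α) (h1 : α 33 = false) (h2 : α 19 = false) (h3 : α 91 = false) : False :=
  af h false 4 33 19 91 (by decide +kernel) h1 h2 h3

theorem c465 (h : Good α) (h1 : α 33 = true) (h2 : α 19 = true) (h3 : α 91 = true) : False :=
  af h true 4 33 19 91 (by decide +kernel) h1 h2 h3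

theorem c466 (h : Good α) (h1 : α 126 = false) (h2 : α 33 = false) (h3 : α 19 = false) : False :=
  af h false 4 126 33 19 (by decide +kernel) h1 h2 h3

theorem c467 (h : Good α) (h1 : α 126 = true) (h2 : α 33 = true) (h3 : α 19 = true) : False :=
  af h true 4 126 33 19 (by decide +kernel) h1 h2 h3

theorem c468 (h : Good α) (h1 : α 86 = true) (h2 : α 19 = true) (h3 : α 35 = true) : False :=
  af h true 1 86 19 35 (by decide +kernel) h1 h2 h3

theorem c469 (h : Good α) (h1 : α 19 = false) (h2 : α 35 = false) (h3 : α 91 = false) (h4 : α 115 = false) : False :=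
  rf h false 1 1 1 19 35 91 115 (by decide +kernel) h1 h2 h3 h4

theorem c470 (h : Good α) (h1 : α 19 = true) (h2 : α 35 = true) (h3 : α 91 = true) (h4 : α 115 = true) : False :=
  rf h true 1 1 1 19 35 91 115 (by decide +kernel) h1 h2 h3 h4

theorem c471 (h : Good α) (h1 : α 19 = true) (h2 : α 35 = true) (h3 : α 487 = true) (h4 : α 516 = true) : False :=
  rf h true 1 1 3 19 35 487 516 (by decide +kernel) h1 h2 h3 h4

theorem c472 (h : Good α) (h1 : α 56 = false) (h2 : α 19 = false) (h3 : α 70 = false) : False :=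
  af h false 3 56 19 70 (by decide +kernel) h1 h2 h3

theorem c473 (h : Good α) (h1 : α 56 = true) (h2 : α 19 = true) (h3 : α 70 = true) : False :=
  af h true 3 56 19 70 (by decide +kernel) h1 h2 h3

theorem c474 (h : Good α) (h1 : α 56 = false) (h2 : α 149 = false) (h3 : α 19 = false) (h4 : α 113 = false) : False :=
  rf h false 0 2 1 56 149 19 113 (by decide +kernel) h1 h2 h3 h4

theorem c475 (h : Good α) (h1 : α 154 = true) (h2 : α 56 = true) (h3 : α 114 = true) (h4 : α 19 = true) : False :=
  rf h true 0 1 1 154 56 114 19 (by decide +kernel) h1 h2 h3 h4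

theorem c476 (h : Good α) (h1 : α 188 = false) (h2 : α 56 = false) (h3 : α 19 = false) : False :=
  af h false 3 188 56 19 (by decide +kernel) h1 h2 h3

theorem c477 (h : Good α) (h1 : α 188 = true) (h2 : α 56 = true) (h3 : α 19 = true) : False :=
  af h true 3 188 56 19 (by decide +kernel) h1 h2 h3

theorem c478 (h : Good α) (h1 : α 327 = false) (h2 : α 56 = false) (h3 : α 298 = false) (h4 : α 19 = false) : False :=
  rf h false 0 2 1 327 56 298 19 (by decide +kernel) h1 h2 h3 h4

theorem c479 (h : Good α) (h1 : α 56 = false) (h2 : α 335 = false) (h3 : α 19 = false) (h4 : α 307 = false) : False :=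
  rf h false 0 3 1 56 335 19 307 (by decide +kernel) h1 h2 h3 h4

theorem c480 (h : Good α) (h1 : α 56 = true) (h2 : α 335 = true) (h3 : α 19 = true) (h4 : α 307 = true) : False :=
  rf h true 0 3 1 56 335 19 307 (by decide +kernel) h1 h2 h3 h4

theorem c481 (h : Good α) (h1 : α 84 = false) (h2 : α 19 = false) (h3 : α 58 = false) : False :=
  af h false 2 84 19 58 (by decide +kernel) h1 h2 h3

theorem c482 (h : Good α) (h1 : α 84 = true) (h2 : α 19 = true) (h3 : α 58 = true) : False :=
  af h true 2 84 19 58 (by decide +kernel) h1 h2 h3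

theorem c483 (h : Good α) (h1 : α 19 = false) (h2 : α 58 = false) (h3 : α 189 = false) : False :=
  af h false 2 19 58 189 (by decide +kernel) h1 h2 h3

theorem c484 (h : Good α) (h1 : α 19 = true) (h2 : α 58 = true) (h3 : α 189 = true) : False :=
  af h true 2 19 58 189 (by decide +kernel) h1 h2 h3

theorem c485 (h : Good α) (h1 : α 19 = true) (h2 : α 113 = true) (h3 : α 70 = true) (h4 : α 180 = true) : False :=
  rf h true 0 2 1 19 113 70 180 (by decide +kernel) h1 h2 h3 h4

theorem c486 (h : Good α) (h1 : α 114 = false) (h2 : α 19 = false) (h3 : α 158 = false) (h4 : α 70 = false) : False :=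
  rf h false 0 1 1 114 19 158 70 (by decide +kernel) h1 h2 h3 h4

theorem c487 (h : Good α) (h1 : α 86 = true) (h2 : α 19 = true) (h3 : α 191 = true) (h4 : α 91 = true) : False :=
  rf h true 1 1 1 86 19 191 91 (by decide +kernel) h1 h2 h3 h4

theorem c488 (h : Good α) (h1 : α 254 = false) (h2 : α 86 = false) (h3 : α 19 = false) : False :=
  af h false 1 254 86 19 (by decide +kernel) h1 h2 h3

theorem c489 (h : Good α) (h1 : α 86 = false) (h2 : α 19 = false) (h3 : α 336 = false) (h4 : α 257 = false) : False :=
  rf h false 1 1 2 86 19 336 257 (by decide +kernel) h1 h2 h3 h4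

theorem c490 (h : Good α) (h1 : α 86 = true) (h2 : α 19 = true) (h3 : α 336 = true) (h4 : α 257 = true) : False :=
  rf h true 1 1 2 86 19 336 257 (by decide +kernel) h1 h2 h3 h4

theorem c491 (h : Good α) (h1 : α 86 = true) (h2 : α 19 = true) (h3 : α 549 = true) (h4 : α 487 = true) : False :=
  rf h true 1 1 3 86 19 549 487 (by decide +kernel) h1 h2 h3 h4

theorem c492 (h : Good α) (h1 : α 254 = false) (h2 : α 19 = false) (h3 : α 338 = false) (h4 : α 91 = false) : False :=
  rf h false 1 2 1 254 19 338 91 (by decide +kernel) h1 h2 h3 h4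

theorem c493 (h : Good α) (h1 : α 19 = false) (h2 : α 91 = false) (h3 : α 257 = false) : False :=
  af h false 4 19 91 257 (by decide +kernel) h1 h2 h3

theorem c494 (h : Good α) (h1 : α 19 = true) (h2 : α 91 = true) (h3 : α 257 = true) : False :=
  af h true 4 19 91 257 (by decide +kernel) h1 h2 h3

theorem c495 (h : Good α) (h1 : α 100 = false) (h2 : α 255 = false) (h3 : α 19 = false) (h4 : α 189 = false) : False :=
  rf h false 2 2 2 100 255 19 189 (by decide +kernel) h1 h2 h3 h4

theorem c496 (h : Good α) (h1 : α 100 = true) (h2 : α 255 = true) (h3 : α 19 = true) (h4 : α 189 = true) : False :=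
  rf h true 2 2 2 100 255 19 189 (by decide +kernel) h1 h2 h3 h4

theorem c497 (h : Good α) (h1 : α 100 = true) (h2 : α 461 = true) (h3 : α 19 = true) (h4 : α 399 = true) : False :=
  rf h true 2 3 2 100 461 19 399 (by decide +kernel) h1 h2 h3 h4

theorem c498 (h : Good α) (h1 : α 19 = false) (h2 : α 189 = false) (h3 : α 103 = false) (h4 : α 268 = false) : False :=
  rf h false 2 2 1 19 189 103 268 (by decide +kernel) h1 h2 h3 h4

theorem c499 (h : Good α) (h1 : α 19 = true) (h2 : α 189 = true) (h3 : α 103 = true) (h4 : α 268 = true) : False :=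
  rf h true 2 2 1 19 189 103 268 (by decide +kernel) h1 h2 h3 h4

theorem c500 (h : Good α) (h1 : α 19 = false) (h2 : α 103 = false) (h3 : α 293 = false) : False :=
  af h false 5 19 103 293 (by decide +kernel) h1 h2 h3

theorem c501 (h : Good α) (h1 : α 19 = true) (h2 : α 399 = true) (h3 : α 103 = true) (h4 : α 468 = true) : False :=
  rf h true 2 3 1 19 399 103 468 (by decide +kernel) h1 h2 h3 h4

theorem c502 (h : Good α) (h1 : α 188 = true) (h2 : α 264 = true) (h3 : α 19 = true) (h4 : α 113 = true) : False :=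
  rf h true 0 2 2 188 264 19 113 (by decide +kernel) h1 h2 h3 h4

theorem c503 (h : Good α) (h1 : α 386 = true) (h2 : α 452 = true) (h3 : α 19 = true) (h4 : α 113 = true) : False :=
  rf h true 0 2 3 386 452 19 113 (by decide +kernel) h1 h2 h3 h4

theorem c504 (h : Good α) (h1 : α 272 = false) (h2 : α 188 = false) (h3 : α 114 = false) (h4 : α 19 = false) : False :=
  rf h false 0 1 2 272 188 114 19 (by decide +kernel) h1 h2 h3 h4

theorem c505 (h : Good α) (h1 : α 298 = false) (h2 : α 114 = false) (h3 : α 19 = false) : False :=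
  af h false 0 298 114 19 (by decide +kernel) h1 h2 h3

theorem c506 (h : Good α) (h1 : α 298 = true) (h2 : α 114 = true) (h3 : α 19 = true) : False :=
  af h true 0 298 114 19 (by decide +kernel) h1 h2 h3

theorem c507 (h : Good α) (h1 : α 459 = false) (h2 : α 386 = false) (h3 : α 114 = false) (h4 : α 19 = false) : False :=
  rf h false 0 1 3 459 386 114 19 (by decide +kernel) h1 h2 h3 h4

theorem c508 (h : Good α) (h1 : α 188 = false) (h2 : α 424 = false) (h3 : α 19 = false) (h4 : α 307 = false) : False :=
  rf h false 0 3 2 188 424 19 307 (by decide +kernel) h1 h2 h3 h4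

theorem c509 (h : Good α) (h1 : α 188 = true) (h2 : α 424 = true) (h3 : α 19 = true) (h4 : α 307 = true) : False :=
  rf h true 0 3 2 188 424 19 307 (by decide +kernel) h1 h2 h3 h4

theorem c510 (h : Good α) (h1 : α 22 = false) (h2 : α 20 = false) (h3 : α 52 = false) (h4 : α 59 = false) : False :=
  rf h false 0 1 1 22 20 52 59 (by decide +kernel) h1 h2 h3 h4

theorem c511 (h : Good α) (h1 : α 80 = true) (h2 : α 71 = true) (h3 : α 22 = true) (h4 : α 20 = true) : False :=
  rf h true 0 1 1 80 71 22 20 (by decide +kernel) h1 h2 h3 h4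

theorem c512 (h : Good α) (h1 : α 106 = false) (h2 : α 22 = false) (h3 : α 20 = false) : False :=
  af h false 0 106 22 20 (by decide +kernel) h1 h2 h3

theorem c513 (h : Good α) (h1 : α 106 = true) (h2 : α 22 = true) (h3 : α 20 = true) : False :=
  af h true 0 106 22 20 (by decide +kernel) h1 h2 h3

theorem c514 (h : Good α) (h1 : α 22 = false) (h2 : α 20 = false) (h3 : α 117 = false) : False :=
  af h false 0 22 20 117 (by decide +kernel) h1 h2 h3

theorem c515 (h : Good α) (h1 : α 22 = true) (h2 : α 20 = true) (h3 : α 117 = true) : False :=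
  af h true 0 22 20 117 (by decide +kernel) h1 h2 h3

theorem c516 (h : Good α) (h1 : α 22 = false) (h2 : α 20 = false) (h3 : α 378 = false) (h4 : α 387 = false) : False :=
  rf h false 0 1 3 22 20 378 387 (by decide +kernel) h1 h2 h3 h4

theorem c517 (h : Good α) (h1 : α 22 = true) (h2 : α 20 = true) (h3 : α 378 = true) (h4 : α 387 = true) : False :=
  rf h true 0 1 3 22 20 378 387 (by decide +kernel) h1 h2 h3 h4

theorem c518 (h : Good α) (h1 : α 34 = true) (h2 : α 20 = true) (h3 : α 44 = true) (h4 : α 28 = true) : False :=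
  rf h true 1 1 1 34 20 44 28 (by decide +kernel) h1 h2 h3 h4

theorem c519 (h : Good α) (h1 : α 20 = false) (h2 : α 89 = false) (h3 : α 28 = false) (h4 : α 108 = false) : False :=
  rf h false 1 1 1 20 89 28 108 (by decide +kernel) h1 h2 h3 h4

theorem c520 (h : Good α) (h1 : α 20 = true) (h2 : α 89 = true) (h3 : α 28 = true) (h4 : α 108 = true) : False :=
  rf h true 1 1 1 20 89 28 108 (by decide +kernel) h1 h2 h3 h4

theorem c521 (h : Good α) (h1 : α 92 = false) (h2 : α 20 = false) (h3 : α 28 = false) : False :=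
  af h false 4 92 20 28 (by decide +kernel) h1 h2 h3

theorem c522 (h : Good α) (h1 : α 92 = true) (h2 : α 20 = true) (h3 : α 28 = true) : False :=
  af h true 4 92 20 28 (by decide +kernel) h1 h2 h3

theorem c523 (h : Good α) (h1 : α 20 = false) (h2 : α 28 = false) (h3 : α 123 = false) : False :=
  af h false 4 20 28 123 (by decide +kernel) h1 h2 h3

theorem c524 (h : Good α) (h1 : α 20 = true) (h2 : α 255 = true) (h3 : α 28 = true) (h4 : α 282 = true) : False :=
  rf h true 1 2 1 20 255 28 282 (by decide +kernel) h1 h2 h3 h4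

theorem c525 (h : Good α) (h1 : α 34 = false) (h2 : α 20 = false) (h3 : α 89 = false) : False :=
  af h false 1 34 20 89 (by decide +kernel) h1 h2 h3

theorem c526 (h : Good α) (h1 : α 34 = true) (h2 : α 20 = true) (h3 : α 89 = true) : False :=
  af h true 1 34 20 89 (by decide +kernel) h1 h2 h3

theorem c527 (h : Good α) (h1 : α 116 = false) (h2 : α 92 = false) (h3 : α 34 = false) (h4 : α 20 = false) : False :=
  rf h false 1 1 1 116 92 34 20 (by decide +kernel) h1 h2 h3 h4

theorem c528 (h : Good α) (h1 : α 116 = true) (h2 : α 92 = true) (h3 : α 34 = true) (h4 : α 20 = true) : False :=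
  rf h true 1 1 1 116 92 34 20 (by decide +kernel) h1 h2 h3 h4

theorem c529 (h : Good α) (h1 : α 142 = true) (h2 : α 34 = true) (h3 : α 20 = true) : False :=
  af h true 1 142 34 20 (by decide +kernel) h1 h2 h3

theorem c530 (h : Good α) (h1 : α 520 = true) (h2 : α 494 = true) (h3 : α 34 = true) (h4 : α 20 = true) : False :=
  rf h true 1 1 3 520 494 34 20 (by decide +kernel) h1 h2 h3 h4

theorem c531 (h : Good α) (h1 : α 57 = false) (h2 : α 20 = false) (h3 : α 85 = false) : False :=
  af h false 2 57 20 85 (by decide +kernel) h1 h2 h3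

theorem c532 (h : Good α) (h1 : α 57 = true) (h2 : α 20 = true) (h3 : α 85 = true) : False :=
  af h true 2 57 20 85 (by decide +kernel) h1 h2 h3

theorem c533 (h : Good α) (h1 : α 188 = false) (h2 : α 57 = false) (h3 : α 20 = false) : False :=
  af h false 2 188 57 20 (by decide +kernel) h1 h2 h3

theorem c534 (h : Good α) (h1 : α 188 = true) (h2 : α 57 = true) (h3 : α 20 = true) : False :=
  af h true 2 188 57 20 (by decide +kernel) h1 h2 h3

theorem c535 (h : Good α) (h1 : α 57 = false) (h2 : α 20 = false) (h3 : α 316 = false) (h4 : α 301 = false) : False :=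
  rf h false 2 1 3 57 20 316 301 (by decide +kernel) h1 h2 h3 h4

theorem c536 (h : Good α) (h1 : α 71 = false) (h2 : α 20 = false) (h3 : α 59 = false) : False :=
  af h false 3 71 20 59 (by decide +kernel) h1 h2 h3

theorem c537 (h : Good α) (h1 : α 71 = true) (h2 : α 20 = true) (h3 : α 59 = true) : False :=
  af h true 3 71 20 59 (by decide +kernel) h1 h2 h3

theorem c538 (h : Good α) (h1 : α 106 = true) (h2 : α 20 = true) (h3 : α 146 = true) (h4 : α 59 = true) : False :=
  rf h true 0 2 1 106 20 146 59 (by decide +kernel) h1 h2 h3 h4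

theorem c539 (h : Good α) (h1 : α 20 = false) (h2 : α 117 = false) (h3 : α 59 = false) (h4 : α 157 = false) : False :=
  rf h false 0 1 1 20 117 59 157 (by decide +kernel) h1 h2 h3 h4

theorem c540 (h : Good α) (h1 : α 20 = true) (h2 : α 117 = true) (h3 : α 59 = true) (h4 : α 157 = true) : False :=
  rf h true 0 1 1 20 117 59 157 (by decide +kernel) h1 h2 h3 h4

theorem c541 (h : Good α) (h1 : α 20 = false) (h2 : α 59 = false) (h3 : α 189 = false) : False :=
  af h false 3 20 59 189 (by decide +kernel) h1 h2 h3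

theorem c542 (h : Good α) (h1 : α 20 = true) (h2 : α 59 = true) (h3 : α 189 = true) : False :=
  af h true 3 20 59 189 (by decide +kernel) h1 h2 h3

theorem c543 (h : Good α) (h1 : α 306 = false) (h2 : α 20 = false) (h3 : α 326 = false) (h4 : α 59 = false) : False :=
  rf h false 0 3 1 306 20 326 59 (by decide +kernel) h1 h2 h3 h4

theorem c544 (h : Good α) (h1 : α 306 = true) (h2 : α 20 = true) (h3 : α 326 = true) (h4 : α 59 = true) : False :=
  rf h true 0 3 1 306 20 326 59 (by decide +kernel) h1 h2 h3 h4

theorem c545 (h : Good α) (h1 : α 179 = false) (h2 : α 71 = false) (h3 : α 106 = false) (h4 : α 20 = false) : False :=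
  rf h false 0 2 1 179 71 106 20 (by decide +kernel) h1 h2 h3 h4

theorem c546 (h : Good α) (h1 : α 71 = false) (h2 : α 161 = false) (h3 : α 20 = false) (h4 : α 117 = false) : False :=
  rf h false 0 1 1 71 161 20 117 (by decide +kernel) h1 h2 h3 h4

theorem c547 (h : Good α) (h1 : α 71 = true) (h2 : α 161 = true) (h3 : α 20 = true) (h4 : α 117 = true) : False :=
  rf h true 0 1 1 71 161 20 117 (by decide +kernel) h1 h2 h3 h4

theorem c548 (h : Good α) (h1 : α 20 = true) (h2 : α 85 = true) (h3 : α 99 = true) (h4 : α 159 = true) : False :=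
  rf h true 2 1 2 20 85 99 159 (by decide +kernel) h1 h2 h3 h4

theorem c549 (h : Good α) (h1 : α 104 = false) (h2 : α 177 = false) (h3 : α 20 = false) (h4 : α 85 = false) : False :=
  rf h false 2 1 1 104 177 20 85 (by decide +kernel) h1 h2 h3 h4

theorem c550 (h : Good α) (h1 : α 20 = false) (h2 : α 89 = false) (h3 : α 255 = false) : False :=
  af h false 1 20 89 255 (by decide +kernel) h1 h2 h3

theorem c551 (h : Good α) (h1 : α 20 = true) (h2 : α 89 = true) (h3 : α 255 = true) : False :=
  af h true 1 20 89 255 (by decide +kernel) h1 h2 h3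

theorem c552 (h : Good α) (h1 : α 264 = true) (h2 : α 337 = true) (h3 : α 20 = true) (h4 : α 89 = true) : False :=
  rf h true 1 1 2 264 337 20 89 (by decide +kernel) h1 h2 h3 h4

theorem c553 (h : Good α) (h1 : α 494 = false) (h2 : α 554 = false) (h3 : α 20 = false) (h4 : α 89 = false) : False :=
  rf h false 1 1 3 494 554 20 89 (by decide +kernel) h1 h2 h3 h4

theorem c554 (h : Good α) (h1 : α 494 = true) (h2 : α 554 = true) (h3 : α 20 = true) (h4 : α 89 = true) : False :=
  rf h true 1 1 3 494 554 20 89 (by decide +kernel) h1 h2 h3 h4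

theorem c555 (h : Good α) (h1 : α 264 = false) (h2 : α 92 = false) (h3 : α 20 = false) : False :=
  af h false 4 264 92 20 (by decide +kernel) h1 h2 h3

theorem c556 (h : Good α) (h1 : α 264 = true) (h2 : α 92 = true) (h3 : α 20 = true) : False :=
  af h true 4 264 92 20 (by decide +kernel) h1 h2 h3

theorem c557 (h : Good α) (h1 : α 92 = false) (h2 : α 556 = false) (h3 : α 20 = false) (h4 : α 491 = false) : False :=
  rf h false 1 3 1 92 556 20 491 (by decide +kernel) h1 h2 h3 h4

theorem c558 (h : Good α) (h1 : α 92 = true) (h2 : α 556 = true) (h3 : α 20 = true) (h4 : α 491 = true) : False :=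
  rf h true 1 3 1 92 556 20 491 (by decide +kernel) h1 h2 h3 h4

theorem c559 (h : Good α) (h1 : α 188 = true) (h2 : α 20 = true) (h3 : α 254 = true) (h4 : α 99 = true) : False :=
  rf h true 2 2 2 188 20 254 99 (by decide +kernel) h1 h2 h3 h4

theorem c560 (h : Good α) (h1 : α 398 = false) (h2 : α 20 = false) (h3 : α 460 = false) (h4 : α 99 = false) : False :=
  rf h false 2 3 2 398 20 460 99 (by decide +kernel) h1 h2 h3 h4

theorem c561 (h : Good α) (h1 : α 398 = true) (h2 : α 20 = true) (h3 : α 460 = true) (h4 : α 99 = true) : False :=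
  rf h true 2 3 2 398 20 460 99 (by decide +kernel) h1 h2 h3 h4

theorem c562 (h : Good α) (h1 : α 269 = false) (h2 : α 104 = false) (h3 : α 188 = false) (h4 : α 20 = false) : False :=
  rf h false 2 2 1 269 104 188 20 (by decide +kernel) h1 h2 h3 h4

theorem c563 (h : Good α) (h1 : α 469 = true) (h2 : α 104 = true) (h3 : α 398 = true) (h4 : α 20 = true) : False :=
  rf h true 2 3 1 469 104 398 20 (by decide +kernel) h1 h2 h3 h4

theorem c564 (h : Good α) (h1 : α 106 = false) (h2 : α 20 = false) (h3 : α 257 = false) (h4 : α 189 = false) : False :=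
  rf h false 0 2 2 106 20 257 189 (by decide +kernel) h1 h2 h3 h4

theorem c565 (h : Good α) (h1 : α 106 = true) (h2 : α 20 = true) (h3 : α 257 = true) (h4 : α 189 = true) : False :=
  rf h true 0 2 2 106 20 257 189 (by decide +kernel) h1 h2 h3 h4

theorem c566 (h : Good α) (h1 : α 106 = false) (h2 : α 20 = false) (h3 : α 451 = false) (h4 : α 387 = false) : False :=
  rf h false 0 2 3 106 20 451 387 (by decide +kernel) h1 h2 h3 h4

theorem c567 (h : Good α) (h1 : α 106 = true) (h2 : α 20 = true) (h3 : α 451 = true) (h4 : α 387 = true) : False :=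
  rf h true 0 2 3 106 20 451 387 (by decide +kernel) h1 h2 h3 h4

theorem c568 (h : Good α) (h1 : α 20 = false) (h2 : α 117 = false) (h3 : α 189 = false) (h4 : α 273 = false) : False :=
  rf h false 0 1 2 20 117 189 273 (by decide +kernel) h1 h2 h3 h4

theorem c569 (h : Good α) (h1 : α 20 = true) (h2 : α 117 = true) (h3 : α 189 = true) (h4 : α 273 = true) : False :=
  rf h true 0 1 2 20 117 189 273 (by decide +kernel) h1 h2 h3 h4

theorem c570 (h : Good α) (h1 : α 20 = false) (h2 : α 117 = false) (h3 : α 299 = false) : False :=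
  af h false 0 20 117 299 (by decide +kernel) h1 h2 h3

theorem c571 (h : Good α) (h1 : α 20 = true) (h2 : α 117 = true) (h3 : α 299 = true) : False :=
  af h true 0 20 117 299 (by decide +kernel) h1 h2 h3

theorem c572 (h : Good α) (h1 : α 20 = false) (h2 : α 117 = false) (h3 : α 387 = false) (h4 : α 462 = false) : False :=
  rf h false 0 1 3 20 117 387 462 (by decide +kernel) h1 h2 h3 h4

theorem c573 (h : Good α) (h1 : α 20 = true) (h2 : α 117 = true) (h3 : α 387 = true) (h4 : α 462 = true) : False :=
  rf h true 0 1 3 20 117 387 462 (by decide +kernel) h1 h2 h3 h4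

theorem c574 (h : Good α) (h1 : α 587 = true) (h2 : α 494 = true) (h3 : α 142 = true) (h4 : α 20 = true) : False :=
  rf h true 1 2 3 587 494 142 20 (by decide +kernel) h1 h2 h3 h4

theorem c575 (h : Good α) (h1 : α 306 = false) (h2 : α 20 = false) (h3 : α 423 = false) (h4 : α 189 = false) : False :=
  rf h false 0 3 2 306 20 423 189 (by decide +kernel) h1 h2 h3 h4

theorem c576 (h : Good α) (h1 : α 306 = true) (h2 : α 20 = true) (h3 : α 423 = true) (h4 : α 189 = true) : False :=
  rf h true 0 3 2 306 20 423 189 (by decide +kernel) h1 h2 h3 h4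

theorem c577 (h : Good α) (h1 : α 264 = false) (h2 : α 476 = false) (h3 : α 20 = false) (h4 : α 255 = false) : False :=
  rf h false 1 2 2 264 476 20 255 (by decide +kernel) h1 h2 h3 h4

theorem c578 (h : Good α) (h1 : α 264 = true) (h2 : α 476 = true) (h3 : α 20 = true) (h4 : α 255 = true) : False :=
  rf h true 1 2 2 264 476 20 255 (by decide +kernel) h1 h2 h3 h4

theorem c579 (h : Good α) (h1 : α 55 = true) (h2 : α 21 = true) (h3 : α 50 = true) (h4 : α 25 = true) : False :=
  rf h true 0 1 1 55 21 50 25 (by decide +kernel) h1 h2 h3 h4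

theorem c580 (h : Good α) (h1 : α 21 = false) (h2 : α 25 = false) (h3 : α 112 = false) : False :=
  af h false 3 21 25 112 (by decide +kernel) h1 h2 h3

theorem c581 (h : Good α) (h1 : α 21 = true) (h2 : α 25 = true) (h3 : α 112 = true) : False :=
  af h true 3 21 25 112 (by decide +kernel) h1 h2 h3

theorem c582 (h : Good α) (h1 : α 116 = false) (h2 : α 21 = false) (h3 : α 25 = false) : False :=
  af h false 3 116 21 25 (by decide +kernel) h1 h2 h3

theorem c583 (h : Good α) (h1 : α 116 = true) (h2 : α 21 = true) (h3 : α 25 = true) : False :=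
  af h true 3 116 21 25 (by decide +kernel) h1 h2 h3

theorem c584 (h : Good α) (h1 : α 187 = true) (h2 : α 21 = true) (h3 : α 191 = true) (h4 : α 25 = true) : False :=
  rf h true 0 2 1 187 21 191 25 (by decide +kernel) h1 h2 h3 h4

theorem c585 (h : Good α) (h1 : α 392 = false) (h2 : α 21 = false) (h3 : α 390 = false) (h4 : α 25 = false) : False :=
  rf h false 0 3 1 392 21 390 25 (by decide +kernel) h1 h2 h3 h4

theorem c586 (h : Good α) (h1 : α 392 = true) (h2 : α 21 = true) (h3 : α 390 = true) (h4 : α 25 = true) : False :=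
  rf h true 0 3 1 392 21 390 25 (by decide +kernel) h1 h2 h3 h4

theorem c587 (h : Good α) (h1 : α 92 = false) (h2 : α 21 = false) (h3 : α 31 = false) : False :=
  af h false 5 92 21 31 (by decide +kernel) h1 h2 h3

theorem c588 (h : Good α) (h1 : α 92 = true) (h2 : α 21 = true) (h3 : α 31 = true) : False :=
  af h true 5 92 21 31 (by decide +kernel) h1 h2 h3

theorem c589 (h : Good α) (h1 : α 21 = false) (h2 : α 31 = false) (h3 : α 125 = false) : False :=
  af h false 5 21 31 125 (by decide +kernel) h1 h2 h3

theorem c590 (h : Good α) (h1 : α 92 = true) (h2 : α 117 = true) (h3 : α 21 = true) (h4 : α 37 = true) : False :=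
  rf h true 2 1 1 92 117 21 37 (by decide +kernel) h1 h2 h3 h4

theorem c591 (h : Good α) (h1 : α 96 = false) (h2 : α 21 = false) (h3 : α 37 = false) : False :=
  af h false 2 96 21 37 (by decide +kernel) h1 h2 h3

theorem c592 (h : Good α) (h1 : α 21 = false) (h2 : α 37 = false) (h3 : α 144 = false) : False :=
  af h false 2 21 37 144 (by decide +kernel) h1 h2 h3

theorem c593 (h : Good α) (h1 : α 21 = true) (h2 : α 37 = true) (h3 : α 144 = true) : False :=
  af h true 2 21 37 144 (by decide +kernel) h1 h2 h3

theorem c594 (h : Good α) (h1 : α 187 = false) (h2 : α 55 = false) (h3 : α 21 = false) : False :=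
  af h false 0 187 55 21 (by decide +kernel) h1 h2 h3

theorem c595 (h : Good α) (h1 : α 187 = true) (h2 : α 55 = true) (h3 : α 21 = true) : False :=
  af h true 0 187 55 21 (by decide +kernel) h1 h2 h3

theorem c596 (h : Good α) (h1 : α 78 = false) (h2 : α 21 = false) (h3 : α 61 = false) : False :=
  af h false 1 78 21 61 (by decide +kernel) h1 h2 h3

theorem c597 (h : Good α) (h1 : α 78 = true) (h2 : α 21 = true) (h3 : α 61 = true) : False :=
  af h true 1 78 21 61 (by decide +kernel) h1 h2 h3

theorem c598 (h : Good α) (h1 : α 101 = false) (h2 : α 149 = false) (h3 : α 21 = false) (h4 : α 61 = false) : False :=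
  rf h false 1 1 1 101 149 21 61 (by decide +kernel) h1 h2 h3 h4

theorem c599 (h : Good α) (h1 : α 21 = true) (h2 : α 61 = true) (h3 : α 102 = true) (h4 : α 150 = true) : False :=
  rf h true 1 1 2 21 61 102 150 (by decide +kernel) h1 h2 h3 h4

theorem c600 (h : Good α) (h1 : α 21 = false) (h2 : α 61 = false) (h3 : α 190 = false) : False :=
  af h false 1 21 61 190 (by decide +kernel) h1 h2 h3

theorem c601 (h : Good α) (h1 : α 21 = true) (h2 : α 61 = true) (h3 : α 190 = true) : False :=
  af h true 1 21 61 190 (by decide +kernel) h1 h2 h3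

theorem c602 (h : Good α) (h1 : α 21 = false) (h2 : α 61 = false) (h3 : α 290 = false) (h4 : α 313 = false) : False :=
  rf h false 1 1 3 21 61 290 313 (by decide +kernel) h1 h2 h3 h4

theorem c603 (h : Good α) (h1 : α 78 = false) (h2 : α 21 = false) (h3 : α 170 = false) (h4 : α 102 = false) : False :=
  rf h false 1 1 2 78 21 170 102 (by decide +kernel) h1 h2 h3 h4

theorem c604 (h : Good α) (h1 : α 184 = true) (h2 : α 92 = true) (h3 : α 96 = true) (h4 : α 21 = true) : False :=
  rf h true 2 1 1 184 92 96 21 (by decide +kernel) h1 h2 h3 h4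

theorem c605 (h : Good α) (h1 : α 262 = false) (h2 : α 92 = false) (h3 : α 21 = false) : False :=
  af h false 5 262 92 21 (by decide +kernel) h1 h2 h3

theorem c606 (h : Good α) (h1 : α 262 = true) (h2 : α 92 = true) (h3 : α 21 = true) : False :=
  af h true 5 262 92 21 (by decide +kernel) h1 h2 h3

theorem c607 (h : Good α) (h1 : α 341 = false) (h2 : α 92 = false) (h3 : α 270 = false) (h4 : α 21 = false) : False :=
  rf h false 2 2 1 341 92 270 21 (by decide +kernel) h1 h2 h3 h4

theorem c608 (h : Good α) (h1 : α 559 = true) (h2 : α 92 = true) (h3 : α 499 = true) (h4 : α 21 = true) : False :=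
  rf h true 2 3 1 559 92 499 21 (by decide +kernel) h1 h2 h3 h4

theorem c609 (h : Good α) (h1 : α 270 = false) (h2 : α 96 = false) (h3 : α 21 = false) : False :=
  af h false 2 270 96 21 (by decide +kernel) h1 h2 h3

theorem c610 (h : Good α) (h1 : α 270 = true) (h2 : α 96 = true) (h3 : α 21 = true) : False :=
  af h true 2 270 96 21 (by decide +kernel) h1 h2 h3

theorem c611 (h : Good α) (h1 : α 101 = true) (h2 : α 256 = true) (h3 : α 21 = true) (h4 : α 190 = true) : False :=
  rf h true 1 2 1 101 256 21 190 (by decide +kernel) h1 h2 h3 h4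

theorem c612 (h : Good α) (h1 : α 297 = true) (h2 : α 101 = true) (h3 : α 21 = true) : False :=
  af h true 4 297 101 21 (by decide +kernel) h1 h2 h3

theorem c613 (h : Good α) (h1 : α 101 = true) (h2 : α 474 = true) (h3 : α 21 = true) (h4 : α 396 = true) : False :=
  rf h true 1 3 1 101 474 21 396 (by decide +kernel) h1 h2 h3 h4

theorem c614 (h : Good α) (h1 : α 21 = false) (h2 : α 190 = false) (h3 : α 102 = false) (h4 : α 267 = false) : False :=
  rf h false 1 2 2 21 190 102 267 (by decide +kernel) h1 h2 h3 h4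

theorem c615 (h : Good α) (h1 : α 21 = true) (h2 : α 396 = true) (h3 : α 102 = true) (h4 : α 464 = true) : False :=
  rf h true 1 3 2 21 396 102 464 (by decide +kernel) h1 h2 h3 h4

theorem c616 (h : Good α) (h1 : α 305 = false) (h2 : α 116 = false) (h3 : α 21 = false) : False :=
  af h false 3 305 116 21 (by decide +kernel) h1 h2 h3

theorem c617 (h : Good α) (h1 : α 305 = true) (h2 : α 116 = true) (h3 : α 21 = true) : False :=
  af h true 3 305 116 21 (by decide +kernel) h1 h2 h3

theorem c618 (h : Good α) (h1 : α 29 = true) (h2 : α 40 = true) (h3 : α 22 = true) (h4 : α 28 = true) : False :=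
  rf h true 2 1 1 29 40 22 28 (by decide +kernel) h1 h2 h3 h4

theorem c619 (h : Good α) (h1 : α 22 = false) (h2 : α 28 = false) (h3 : α 90 = false) (h4 : α 102 = false) : False :=
  rf h false 2 1 1 22 28 90 102 (by decide +kernel) h1 h2 h3 h4

theorem c620 (h : Good α) (h1 : α 94 = false) (h2 : α 22 = false) (h3 : α 28 = false) : False :=
  af h false 2 94 22 28 (by decide +kernel) h1 h2 h3

theorem c621 (h : Good α) (h1 : α 94 = true) (h2 : α 22 = true) (h3 : α 28 = true) : False :=
  af h true 2 94 22 28 (by decide +kernel) h1 h2 h3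

theorem c622 (h : Good α) (h1 : α 22 = false) (h2 : α 28 = false) (h3 : α 128 = false) : False :=
  af h false 2 22 28 128 (by decide +kernel) h1 h2 h3

theorem c623 (h : Good α) (h1 : α 22 = true) (h2 : α 28 = true) (h3 : α 128 = true) : False :=
  af h true 2 22 28 128 (by decide +kernel) h1 h2 h3

theorem c624 (h : Good α) (h1 : α 22 = false) (h2 : α 28 = false) (h3 : α 258 = false) (h4 : α 278 = false) : False :=
  rf h false 2 1 2 22 28 258 278 (by decide +kernel) h1 h2 h3 h4

theorem c625 (h : Good α) (h1 : α 22 = false) (h2 : α 28 = false) (h3 : α 496 = false) (h4 : α 512 = false) : False :=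
  rf h false 2 1 3 22 28 496 512 (by decide +kernel) h1 h2 h3 h4

theorem c626 (h : Good α) (h1 : α 29 = false) (h2 : α 22 = false) (h3 : α 90 = false) : False :=
  af h false 5 29 22 90 (by decide +kernel) h1 h2 h3

theorem c627 (h : Good α) (h1 : α 29 = true) (h2 : α 22 = true) (h3 : α 90 = true) : False :=
  af h true 5 29 22 90 (by decide +kernel) h1 h2 h3

theorem c628 (h : Good α) (h1 : α 107 = false) (h2 : α 29 = false) (h3 : α 94 = false) (h4 : α 22 = false) : False :=
  rf h false 2 1 1 107 29 94 22 (by decide +kernel) h1 h2 h3 h4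

theorem c629 (h : Good α) (h1 : α 135 = false) (h2 : α 29 = false) (h3 : α 22 = false) : False :=
  af h false 5 135 29 22 (by decide +kernel) h1 h2 h3

theorem c630 (h : Good α) (h1 : α 135 = true) (h2 : α 29 = true) (h3 : α 22 = true) : False :=
  af h true 5 135 29 22 (by decide +kernel) h1 h2 h3

theorem c631 (h : Good α) (h1 : α 286 = true) (h2 : α 29 = true) (h3 : α 272 = true) (h4 : α 22 = true) : False :=
  rf h true 2 2 1 286 29 272 22 (by decide +kernel) h1 h2 h3 h4

theorem c632 (h : Good α) (h1 : α 521 = false) (h2 : α 29 = false) (h3 : α 505 = false) (h4 : α 22 = false) : False :=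
  rf h false 2 3 1 521 29 505 22 (by decide +kernel) h1 h2 h3 h4

theorem c633 (h : Good α) (h1 : α 521 = true) (h2 : α 29 = true) (h3 : α 505 = true) (h4 : α 22 = true) : False :=
  rf h true 2 3 1 521 29 505 22 (by decide +kernel) h1 h2 h3 h4

theorem c634 (h : Good α) (h1 : α 80 = false) (h2 : α 22 = false) (h3 : α 52 = false) : False :=
  af h false 3 80 22 52 (by decide +kernel) h1 h2 h3

theorem c635 (h : Good α) (h1 : α 80 = true) (h2 : α 22 = true) (h3 : α 52 = true) : False :=
  af h true 3 80 22 52 (by decide +kernel) h1 h2 h3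

theorem c636 (h : Good α) (h1 : α 22 = false) (h2 : α 117 = false) (h3 : α 52 = false) (h4 : α 157 = false) : False :=
  rf h false 0 2 1 22 117 52 157 (by decide +kernel) h1 h2 h3 h4

theorem c637 (h : Good α) (h1 : α 22 = false) (h2 : α 52 = false) (h3 : α 183 = false) : False :=
  af h false 3 22 52 183 (by decide +kernel) h1 h2 h3

theorem c638 (h : Good α) (h1 : α 22 = true) (h2 : α 52 = true) (h3 : α 183 = true) : False :=
  af h true 3 22 52 183 (by decide +kernel) h1 h2 h3

theorem c639 (h : Good α) (h1 : α 22 = false) (h2 : α 299 = false) (h3 : α 52 = false) (h4 : α 334 = false) : False :=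
  rf h false 0 3 1 22 299 52 334 (by decide +kernel) h1 h2 h3 h4

theorem c640 (h : Good α) (h1 : α 22 = true) (h2 : α 299 = true) (h3 : α 52 = true) (h4 : α 334 = true) : False :=
  rf h true 0 3 1 22 299 52 334 (by decide +kernel) h1 h2 h3 h4

theorem c641 (h : Good α) (h1 : α 306 = false) (h2 : α 22 = false) (h3 : α 326 = false) (h4 : α 52 = false) : False :=
  rf h false 0 2 1 306 22 326 52 (by decide +kernel) h1 h2 h3 h4

theorem c642 (h : Good α) (h1 : α 57 = false) (h2 : α 22 = false) (h3 : α 62 = false) : False :=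
  af h false 4 57 22 62 (by decide +kernel) h1 h2 h3

theorem c643 (h : Good α) (h1 : α 57 = true) (h2 : α 22 = true) (h3 : α 62 = true) : False :=
  af h true 4 57 22 62 (by decide +kernel) h1 h2 h3

theorem c644 (h : Good α) (h1 : α 57 = true) (h2 : α 152 = true) (h3 : α 22 = true) (h4 : α 109 = true) : False :=
  rf h true 1 2 1 57 152 22 109 (by decide +kernel) h1 h2 h3 h4

theorem c645 (h : Good α) (h1 : α 155 = false) (h2 : α 57 = false) (h3 : α 118 = false) (h4 : α 22 = false) : False :=
  rf h false 1 1 1 155 57 118 22 (by decide +kernel) h1 h2 h3 h4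

theorem c646 (h : Good α) (h1 : α 184 = false) (h2 : α 57 = false) (h3 : α 22 = false) : False :=
  af h false 4 184 57 22 (by decide +kernel) h1 h2 h3

theorem c647 (h : Good α) (h1 : α 184 = true) (h2 : α 57 = true) (h3 : α 22 = true) : False :=
  af h true 4 184 57 22 (by decide +kernel) h1 h2 h3

theorem c648 (h : Good α) (h1 : α 57 = true) (h2 : α 322 = true) (h3 : α 22 = true) (h4 : α 292 = true) : False :=
  rf h true 1 3 1 57 322 22 292 (by decide +kernel) h1 h2 h3 h4

theorem c649 (h : Good α) (h1 : α 179 = true) (h2 : α 80 = true) (h3 : α 106 = true) (h4 : α 22 = true) : False :=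
  rf h true 0 1 1 179 80 106 22 (by decide +kernel) h1 h2 h3 h4

theorem c650 (h : Good α) (h1 : α 80 = false) (h2 : α 161 = false) (h3 : α 22 = false) (h4 : α 117 = false) : False :=
  rf h false 0 2 1 80 161 22 117 (by decide +kernel) h1 h2 h3 h4

theorem c651 (h : Good α) (h1 : α 22 = false) (h2 : α 90 = false) (h3 : α 258 = false) : False :=
  af h false 5 22 90 258 (by decide +kernel) h1 h2 h3

theorem c652 (h : Good α) (h1 : α 22 = true) (h2 : α 90 = true) (h3 : α 258 = true) : False :=
  af h true 5 22 90 258 (by decide +kernel) h1 h2 h3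

theorem c653 (h : Good α) (h1 : α 272 = false) (h2 : α 22 = false) (h3 : α 346 = false) (h4 : α 90 = false) : False :=
  rf h false 2 2 1 272 22 346 90 (by decide +kernel) h1 h2 h3 h4

theorem c654 (h : Good α) (h1 : α 505 = true) (h2 : α 22 = true) (h3 : α 567 = true) (h4 : α 90 = true) : False :=
  rf h true 2 3 1 505 22 567 90 (by decide +kernel) h1 h2 h3 h4

theorem c655 (h : Good α) (h1 : α 94 = false) (h2 : α 22 = false) (h3 : α 338 = false) (h4 : α 258 = false) : False :=
  rf h false 2 1 2 94 22 338 258 (by decide +kernel) h1 h2 h3 h4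

theorem c656 (h : Good α) (h1 : α 272 = false) (h2 : α 94 = false) (h3 : α 22 = false) : False :=
  af h false 2 272 94 22 (by decide +kernel) h1 h2 h3

theorem c657 (h : Good α) (h1 : α 272 = true) (h2 : α 94 = true) (h3 : α 22 = true) : False :=
  af h true 2 272 94 22 (by decide +kernel) h1 h2 h3

theorem c658 (h : Good α) (h1 : α 94 = false) (h2 : α 22 = false) (h3 : α 551 = false) (h4 : α 496 = false) : False :=
  rf h false 2 1 3 94 22 551 496 (by decide +kernel) h1 h2 h3 h4

theorem c659 (h : Good α) (h1 : α 106 = false) (h2 : α 22 = false) (h3 : α 257 = false) (h4 : α 183 = false) : False :=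
  rf h false 0 1 2 106 22 257 183 (by decide +kernel) h1 h2 h3 h4

theorem c660 (h : Good α) (h1 : α 106 = true) (h2 : α 22 = true) (h3 : α 257 = true) (h4 : α 183 = true) : False :=
  rf h true 0 1 2 106 22 257 183 (by decide +kernel) h1 h2 h3 h4

theorem c661 (h : Good α) (h1 : α 306 = false) (h2 : α 106 = false) (h3 : α 22 = false) : False :=
  af h false 0 306 106 22 (by decide +kernel) h1 h2 h3

theorem c662 (h : Good α) (h1 : α 306 = true) (h2 : α 106 = true) (h3 : α 22 = true) : False :=
  af h true 0 306 106 22 (by decide +kernel) h1 h2 h3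

theorem c663 (h : Good α) (h1 : α 106 = true) (h2 : α 22 = true) (h3 : α 451 = true) (h4 : α 378 = true) : False :=
  rf h true 0 1 3 106 22 451 378 (by decide +kernel) h1 h2 h3 h4

theorem c664 (h : Good α) (h1 : α 184 = false) (h2 : α 263 = false) (h3 : α 22 = false) (h4 : α 109 = false) : False :=
  rf h false 1 2 2 184 263 22 109 (by decide +kernel) h1 h2 h3 h4

theorem c665 (h : Good α) (h1 : α 22 = false) (h2 : α 117 = false) (h3 : α 183 = false) (h4 : α 273 = false) : False :=
  rf h false 0 2 2 22 117 183 273 (by decide +kernel) h1 h2 h3 h4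

theorem c666 (h : Good α) (h1 : α 22 = true) (h2 : α 117 = true) (h3 : α 183 = true) (h4 : α 273 = true) : False :=
  rf h true 0 2 2 22 117 183 273 (by decide +kernel) h1 h2 h3 h4

theorem c667 (h : Good α) (h1 : α 22 = true) (h2 : α 117 = true) (h3 : α 378 = true) (h4 : α 462 = true) : False :=
  rf h true 0 2 3 22 117 378 462 (by decide +kernel) h1 h2 h3 h4

theorem c668 (h : Good α) (h1 : α 266 = true) (h2 : α 184 = true) (h3 : α 118 = true) (h4 : α 22 = true) : False :=
  rf h true 1 1 2 266 184 118 22 (by decide +kernel) h1 h2 h3 h4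

theorem c669 (h : Good α) (h1 : α 466 = true) (h2 : α 383 = true) (h3 : α 118 = true) (h4 : α 22 = true) : False :=
  rf h true 1 1 3 466 383 118 22 (by decide +kernel) h1 h2 h3 h4

theorem c670 (h : Good α) (h1 : α 22 = false) (h2 : α 128 = false) (h3 : α 496 = false) (h4 : α 584 = false) : False :=
  rf h false 2 2 3 22 128 496 584 (by decide +kernel) h1 h2 h3 h4

theorem c671 (h : Good α) (h1 : α 22 = true) (h2 : α 299 = true) (h3 : α 183 = true) (h4 : α 430 = true) : False :=
  rf h true 0 3 2 22 299 183 430 (by decide +kernel) h1 h2 h3 h4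

theorem c672 (h : Good α) (h1 : α 306 = true) (h2 : α 22 = true) (h3 : α 423 = true) (h4 : α 183 = true) : False :=
  rf h true 0 2 2 306 22 423 183 (by decide +kernel) h1 h2 h3 h4

theorem c673 (h : Good α) (h1 : α 272 = true) (h2 : α 22 = true) (h3 : α 477 = true) (h4 : α 258 = true) : False :=
  rf h true 2 2 2 272 22 477 258 (by decide +kernel) h1 h2 h3 h4

theorem c674 (h : Good α) (h1 : α 93 = false) (h2 : α 23 = false) (h3 : α 32 = false) : False :=
  af h false 5 93 23 32 (by decide +kernel) h1 h2 h3

theorem c675 (h : Good α) (h1 : α 93 = true) (h2 : α 23 = true) (h3 : α 32 = true) : False :=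
  af h true 5 93 23 32 (by decide +kernel) h1 h2 h3

theorem c676 (h : Good α) (h1 : α 23 = false) (h2 : α 97 = false) (h3 : α 32 = false) (h4 : α 112 = false) : False :=
  rf h false 2 1 1 23 97 32 112 (by decide +kernel) h1 h2 h3 h4

theorem c677 (h : Good α) (h1 : α 23 = true) (h2 : α 97 = true) (h3 : α 32 = true) (h4 : α 112 = true) : False :=
  rf h true 2 1 1 23 97 32 112 (by decide +kernel) h1 h2 h3 h4

theorem c678 (h : Good α) (h1 : α 23 = false) (h2 : α 32 = false) (h3 : α 136 = false) : False :=
  af h false 5 23 32 136 (by decide +kernel) h1 h2 h3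

theorem c679 (h : Good α) (h1 : α 23 = true) (h2 : α 506 = true) (h3 : α 32 = true) (h4 : α 522 = true) : False :=
  rf h true 2 3 1 23 506 32 522 (by decide +kernel) h1 h2 h3 h4

theorem c680 (h : Good α) (h1 : α 105 = false) (h2 : α 93 = false) (h3 : α 33 = false) (h4 : α 23 = false) : False :=
  rf h false 2 1 1 105 93 33 23 (by decide +kernel) h1 h2 h3 h4

theorem c681 (h : Good α) (h1 : α 33 = false) (h2 : α 23 = false) (h3 : α 97 = false) : False :=
  af h false 2 33 23 97 (by decide +kernel) h1 h2 h3

theorem c682 (h : Good α) (h1 : α 33 = true) (h2 : α 23 = true) (h3 : α 97 = true) : False :=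
  af h true 2 33 23 97 (by decide +kernel) h1 h2 h3

theorem c683 (h : Good α) (h1 : α 129 = false) (h2 : α 33 = false) (h3 : α 23 = false) : False :=
  af h false 2 129 33 23 (by decide +kernel) h1 h2 h3

theorem c684 (h : Good α) (h1 : α 53 = false) (h2 : α 23 = false) (h3 : α 81 = false) : False :=
  af h false 3 53 23 81 (by decide +kernel) h1 h2 h3

theorem c685 (h : Good α) (h1 : α 53 = true) (h2 : α 23 = true) (h3 : α 81 = true) : False :=
  af h true 3 53 23 81 (by decide +kernel) h1 h2 h3

theorem c686 (h : Good α) (h1 : α 53 = false) (h2 : α 149 = false) (h3 : α 23 = false) (h4 : α 113 = false) : False :=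
  rf h false 0 1 1 53 149 23 113 (by decide +kernel) h1 h2 h3 h4

theorem c687 (h : Good α) (h1 : α 154 = true) (h2 : α 53 = true) (h3 : α 114 = true) (h4 : α 23 = true) : False :=
  rf h true 0 2 1 154 53 114 23 (by decide +kernel) h1 h2 h3 h4

theorem c688 (h : Good α) (h1 : α 184 = false) (h2 : α 53 = false) (h3 : α 23 = false) : False :=
  af h false 3 184 53 23 (by decide +kernel) h1 h2 h3

theorem c689 (h : Good α) (h1 : α 184 = true) (h2 : α 53 = true) (h3 : α 23 = true) : False :=
  af h true 3 184 53 23 (by decide +kernel) h1 h2 h3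

theorem c690 (h : Good α) (h1 : α 327 = false) (h2 : α 53 = false) (h3 : α 298 = false) (h4 : α 23 = false) : False :=
  rf h false 0 3 1 327 53 298 23 (by decide +kernel) h1 h2 h3 h4

theorem c691 (h : Good α) (h1 : α 327 = true) (h2 : α 53 = true) (h3 : α 298 = true) (h4 : α 23 = true) : False :=
  rf h true 0 3 1 327 53 298 23 (by decide +kernel) h1 h2 h3 h4

theorem c692 (h : Good α) (h1 : α 53 = true) (h2 : α 335 = true) (h3 : α 23 = true) (h4 : α 307 = true) : False :=
  rf h true 0 2 1 53 335 23 307 (by decide +kernel) h1 h2 h3 h4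

theorem c693 (h : Good α) (h1 : α 65 = false) (h2 : α 23 = false) (h3 : α 58 = false) : False :=
  af h false 4 65 23 58 (by decide +kernel) h1 h2 h3

theorem c694 (h : Good α) (h1 : α 65 = true) (h2 : α 23 = true) (h3 : α 58 = true) : False :=
  af h true 4 65 23 58 (by decide +kernel) h1 h2 h3

theorem c695 (h : Good α) (h1 : α 23 = false) (h2 : α 58 = false) (h3 : α 183 = false) : False :=
  af h false 4 23 58 183 (by decide +kernel) h1 h2 h3

theorem c696 (h : Good α) (h1 : α 23 = true) (h2 : α 58 = true) (h3 : α 183 = true) : False :=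
  af h true 4 23 58 183 (by decide +kernel) h1 h2 h3

theorem c697 (h : Good α) (h1 : α 169 = false) (h2 : α 65 = false) (h3 : α 110 = false) (h4 : α 23 = false) : False :=
  rf h false 1 2 1 169 65 110 23 (by decide +kernel) h1 h2 h3 h4

theorem c698 (h : Good α) (h1 : α 65 = true) (h2 : α 172 = true) (h3 : α 23 = true) (h4 : α 119 = true) : False :=
  rf h true 1 1 1 65 172 23 119 (by decide +kernel) h1 h2 h3 h4

theorem c699 (h : Good α) (h1 : α 23 = true) (h2 : α 113 = true) (h3 : α 81 = true) (h4 : α 180 = true) : False :=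
  rf h true 0 1 1 23 113 81 180 (by decide +kernel) h1 h2 h3 h4

theorem c700 (h : Good α) (h1 : α 114 = false) (h2 : α 23 = false) (h3 : α 158 = false) (h4 : α 81 = false) : False :=
  rf h false 0 2 1 114 23 158 81 (by decide +kernel) h1 h2 h3 h4

theorem c701 (h : Good α) (h1 : α 263 = false) (h2 : α 93 = false) (h3 : α 23 = false) : False :=
  af h false 5 263 93 23 (by decide +kernel) h1 h2 h3

theorem c702 (h : Good α) (h1 : α 263 = true) (h2 : α 93 = true) (h3 : α 23 = true) : False :=
  af h true 5 263 93 23 (by decide +kernel) h1 h2 h3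

theorem c703 (h : Good α) (h1 : α 93 = false) (h2 : α 347 = false) (h3 : α 23 = false) (h4 : α 273 = false) : False :=
  rf h false 2 2 1 93 347 23 273 (by decide +kernel) h1 h2 h3 h4

theorem c704 (h : Good α) (h1 : α 93 = true) (h2 : α 570 = true) (h3 : α 23 = true) (h4 : α 506 = true) : False :=
  rf h true 2 3 1 93 570 23 506 (by decide +kernel) h1 h2 h3 h4

theorem c705 (h : Good α) (h1 : α 263 = false) (h2 : α 343 = false) (h3 : α 23 = false) (h4 : α 97 = false) : False :=
  rf h false 2 1 2 263 343 23 97 (by decide +kernel) h1 h2 h3 h4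

theorem c706 (h : Good α) (h1 : α 23 = false) (h2 : α 97 = false) (h3 : α 273 = false) : False :=
  af h false 2 23 97 273 (by decide +kernel) h1 h2 h3

theorem c707 (h : Good α) (h1 : α 23 = true) (h2 : α 97 = true) (h3 : α 273 = true) : False :=
  af h true 2 23 97 273 (by decide +kernel) h1 h2 h3

theorem c708 (h : Good α) (h1 : α 500 = true) (h2 : α 552 = true) (h3 : α 23 = true) (h4 : α 97 = true) : False :=
  rf h true 2 1 3 500 552 23 97 (by decide +kernel) h1 h2 h3 h4

theorem c709 (h : Good α) (h1 : α 110 = false) (h2 : α 23 = false) (h3 : α 258 = false) (h4 : α 183 = false) : False :=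
  rf h false 1 2 2 110 23 258 183 (by decide +kernel) h1 h2 h3 h4

theorem c710 (h : Good α) (h1 : α 110 = true) (h2 : α 23 = true) (h3 : α 258 = true) (h4 : α 183 = true) : False :=
  rf h true 1 2 2 110 23 258 183 (by decide +kernel) h1 h2 h3 h4

theorem c711 (h : Good α) (h1 : α 184 = true) (h2 : α 264 = true) (h3 : α 23 = true) (h4 : α 113 = true) : False :=
  rf h true 0 1 2 184 264 23 113 (by decide +kernel) h1 h2 h3 h4

theorem c712 (h : Good α) (h1 : α 23 = true) (h2 : α 113 = true) (h3 : α 307 = true) : False :=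
  af h true 0 23 113 307 (by decide +kernel) h1 h2 h3

theorem c713 (h : Good α) (h1 : α 379 = true) (h2 : α 452 = true) (h3 : α 23 = true) (h4 : α 113 = true) : False :=
  rf h true 0 1 3 379 452 23 113 (by decide +kernel) h1 h2 h3 h4

theorem c714 (h : Good α) (h1 : α 272 = false) (h2 : α 184 = false) (h3 : α 114 = false) (h4 : α 23 = false) : False :=
  rf h false 0 2 2 272 184 114 23 (by decide +kernel) h1 h2 h3 h4

theorem c715 (h : Good α) (h1 : α 459 = false) (h2 : α 379 = false) (h3 : α 114 = false) (h4 : α 23 = false) : False :=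
  rf h false 0 2 3 459 379 114 23 (by decide +kernel) h1 h2 h3 h4

theorem c716 (h : Good α) (h1 : α 23 = false) (h2 : α 119 = false) (h3 : α 183 = false) (h4 : α 265 = false) : False :=
  rf h false 1 1 2 23 119 183 265 (by decide +kernel) h1 h2 h3 h4

theorem c717 (h : Good α) (h1 : α 23 = true) (h2 : α 119 = true) (h3 : α 183 = true) (h4 : α 265 = true) : False :=
  rf h true 1 1 2 23 119 183 265 (by decide +kernel) h1 h2 h3 h4

theorem c718 (h : Good α) (h1 : α 23 = true) (h2 : α 119 = true) (h3 : α 380 = true) (h4 : α 463 = true) : False :=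
  rf h true 1 1 3 23 119 380 463 (by decide +kernel) h1 h2 h3 h4

theorem c719 (h : Good α) (h1 : α 429 = true) (h2 : α 184 = true) (h3 : α 298 = true) (h4 : α 23 = true) : False :=
  rf h true 0 3 2 429 184 298 23 (by decide +kernel) h1 h2 h3 h4

theorem c720 (h : Good α) (h1 : α 88 = false) (h2 : α 24 = false) (h3 : α 26 = false) : False :=
  af h false 4 88 24 26 (by decide +kernel) h1 h2 h3

theorem c721 (h : Good α) (h1 : α 88 = true) (h2 : α 24 = true) (h3 : α 26 = true) : False :=
  af h true 4 88 24 26 (by decide +kernel) h1 h2 h3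

theorem c722 (h : Good α) (h1 : α 94 = false) (h2 : α 24 = false) (h3 : α 106 = false) (h4 : α 26 = false) : False :=
  rf h false 1 1 1 94 24 106 26 (by decide +kernel) h1 h2 h3 h4

theorem c723 (h : Good α) (h1 : α 24 = false) (h2 : α 26 = false) (h3 : α 122 = false) : False :=
  af h false 4 24 26 122 (by decide +kernel) h1 h2 h3

theorem c724 (h : Good α) (h1 : α 88 = true) (h2 : α 100 = true) (h3 : α 24 = true) (h4 : α 30 = true) : False :=
  rf h true 1 1 1 88 100 24 30 (by decide +kernel) h1 h2 h3 h4

theorem c725 (h : Good α) (h1 : α 94 = false) (h2 : α 24 = false) (h3 : α 30 = false) : False :=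
  af h false 1 94 24 30 (by decide +kernel) h1 h2 h3

theorem c726 (h : Good α) (h1 : α 94 = true) (h2 : α 24 = true) (h3 : α 30 = true) : False :=
  af h true 1 94 24 30 (by decide +kernel) h1 h2 h3

theorem c727 (h : Good α) (h1 : α 82 = true) (h2 : α 24 = true) (h3 : α 51 = true) : False :=
  af h true 0 82 24 51 (by decide +kernel) h1 h2 h3

theorem c728 (h : Good α) (h1 : α 107 = true) (h2 : α 148 = true) (h3 : α 24 = true) (h4 : α 51 = true) : False :=
  rf h true 0 1 1 107 148 24 51 (by decide +kernel) h1 h2 h3 h4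

theorem c729 (h : Good α) (h1 : α 24 = false) (h2 : α 51 = false) (h3 : α 192 = false) : False :=
  af h false 0 24 51 192 (by decide +kernel) h1 h2 h3

theorem c730 (h : Good α) (h1 : α 24 = true) (h2 : α 51 = true) (h3 : α 192 = true) : False :=
  af h true 0 24 51 192 (by decide +kernel) h1 h2 h3

theorem c731 (h : Good α) (h1 : α 24 = true) (h2 : α 51 = true) (h3 : α 304 = true) (h4 : α 331 = true) : False :=
  rf h true 0 1 3 24 51 304 331 (by decide +kernel) h1 h2 h3 h4

theorem c732 (h : Good α) (h1 : α 63 = false) (h2 : α 24 = false) (h3 : α 54 = false) : False :=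
  af h false 5 63 24 54 (by decide +kernel) h1 h2 h3

theorem c733 (h : Good α) (h1 : α 63 = true) (h2 : α 24 = true) (h3 : α 54 = true) : False :=
  af h true 5 63 24 54 (by decide +kernel) h1 h2 h3

theorem c734 (h : Good α) (h1 : α 24 = true) (h2 : α 108 = true) (h3 : α 54 = true) (h4 : α 150 = true) : False :=
  rf h true 2 2 1 24 108 54 150 (by decide +kernel) h1 h2 h3 h4

theorem c735 (h : Good α) (h1 : α 120 = true) (h2 : α 24 = true) (h3 : α 154 = true) (h4 : α 54 = true) : False :=
  rf h true 2 1 1 120 24 154 54 (by decide +kernel) h1 h2 h3 h4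

theorem c736 (h : Good α) (h1 : α 24 = false) (h2 : α 54 = false) (h3 : α 191 = false) : False :=
  af h false 5 24 54 191 (by decide +kernel) h1 h2 h3

theorem c737 (h : Good α) (h1 : α 24 = true) (h2 : α 54 = true) (h3 : α 191 = true) : False :=
  af h true 5 24 54 191 (by decide +kernel) h1 h2 h3

theorem c738 (h : Good α) (h1 : α 24 = false) (h2 : α 291 = false) (h3 : α 54 = false) (h4 : α 314 = false) : False :=
  rf h false 2 3 1 24 291 54 314 (by decide +kernel) h1 h2 h3 h4

theorem c739 (h : Good α) (h1 : α 24 = true) (h2 : α 291 = true) (h3 : α 54 = true) (h4 : α 314 = true) : False :=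
  rf h true 2 3 1 24 291 54 314 (by decide +kernel) h1 h2 h3 h4

theorem c740 (h : Good α) (h1 : α 175 = false) (h2 : α 63 = false) (h3 : α 120 = false) (h4 : α 24 = false) : False :=
  rf h false 2 1 1 175 63 120 24 (by decide +kernel) h1 h2 h3 h4

theorem c741 (h : Good α) (h1 : α 188 = true) (h2 : α 88 = true) (h3 : α 94 = true) (h4 : α 24 = true) : False :=
  rf h true 1 1 1 188 88 94 24 (by decide +kernel) h1 h2 h3 h4

theorem c742 (h : Good α) (h1 : α 88 = true) (h2 : α 209 = true) (h3 : α 24 = true) (h4 : α 131 = true) : False :=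
  rf h true 1 2 1 88 209 24 131 (by decide +kernel) h1 h2 h3 h4

theorem c743 (h : Good α) (h1 : α 261 = true) (h2 : α 88 = true) (h3 : α 24 = true) : False :=
  af h true 4 261 88 24 (by decide +kernel) h1 h2 h3

theorem c744 (h : Good α) (h1 : α 344 = true) (h2 : α 88 = true) (h3 : α 271 = true) (h4 : α 24 = true) : False :=
  rf h true 1 2 1 344 88 271 24 (by decide +kernel) h1 h2 h3 h4

theorem c745 (h : Good α) (h1 : α 94 = true) (h2 : α 24 = true) (h3 : α 205 = true) (h4 : α 122 = true) : False :=
  rf h true 1 1 2 94 24 205 122 (by decide +kernel) h1 h2 h3 h4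

theorem c746 (h : Good α) (h1 : α 341 = false) (h2 : α 261 = false) (h3 : α 94 = false) (h4 : α 24 = false) : False :=
  rf h false 1 1 2 341 261 94 24 (by decide +kernel) h1 h2 h3 h4

theorem c747 (h : Good α) (h1 : α 271 = false) (h2 : α 94 = false) (h3 : α 24 = false) : False :=
  af h false 1 271 94 24 (by decide +kernel) h1 h2 h3

theorem c748 (h : Good α) (h1 : α 271 = true) (h2 : α 94 = true) (h3 : α 24 = true) : False :=
  af h true 1 271 94 24 (by decide +kernel) h1 h2 h3

theorem c749 (h : Good α) (h1 : α 553 = true) (h2 : α 493 = true) (h3 : α 94 = true) (h4 : α 24 = true) : False :=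
  rf h true 1 1 3 553 493 94 24 (by decide +kernel) h1 h2 h3 h4

theorem c750 (h : Good α) (h1 : α 300 = false) (h2 : α 107 = false) (h3 : α 24 = false) : False :=
  af h false 3 300 107 24 (by decide +kernel) h1 h2 h3

theorem c751 (h : Good α) (h1 : α 300 = true) (h2 : α 107 = true) (h3 : α 24 = true) : False :=
  af h true 3 300 107 24 (by decide +kernel) h1 h2 h3

theorem c752 (h : Good α) (h1 : α 24 = false) (h2 : α 108 = false) (h3 : α 191 = false) (h4 : α 260 = false) : False :=
  rf h false 2 2 2 24 108 191 260 (by decide +kernel) h1 h2 h3 h4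

theorem c753 (h : Good α) (h1 : α 24 = false) (h2 : α 108 = false) (h3 : α 381 = false) (h4 : α 454 = false) : False :=
  rf h false 2 2 3 24 108 381 454 (by decide +kernel) h1 h2 h3 h4

theorem c754 (h : Good α) (h1 : α 24 = true) (h2 : α 108 = true) (h3 : α 381 = true) (h4 : α 454 = true) : False :=
  rf h true 2 2 3 24 108 381 454 (by decide +kernel) h1 h2 h3 h4

theorem c755 (h : Good α) (h1 : α 24 = false) (h2 : α 192 = false) (h3 : α 115 = false) (h4 : α 274 = false) : False :=
  rf h false 0 2 2 24 192 115 274 (by decide +kernel) h1 h2 h3 h4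

theorem c756 (h : Good α) (h1 : α 24 = true) (h2 : α 391 = true) (h3 : α 115 = true) (h4 : α 473 = true) : False :=
  rf h true 0 3 2 24 391 115 473 (by decide +kernel) h1 h2 h3 h4

theorem c757 (h : Good α) (h1 : α 120 = false) (h2 : α 24 = false) (h3 : α 275 = false) (h4 : α 191 = false) : False :=
  rf h false 2 1 2 120 24 275 191 (by decide +kernel) h1 h2 h3 h4

theorem c758 (h : Good α) (h1 : α 308 = false) (h2 : α 120 = false) (h3 : α 24 = false) : False :=
  af h false 2 308 120 24 (by decide +kernel) h1 h2 h3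

theorem c759 (h : Good α) (h1 : α 308 = true) (h2 : α 120 = true) (h3 : α 24 = true) : False :=
  af h true 2 308 120 24 (by decide +kernel) h1 h2 h3

theorem c760 (h : Good α) (h1 : α 120 = false) (h2 : α 24 = false) (h3 : α 467 = false) (h4 : α 381 = false) : False :=
  rf h false 2 1 3 120 24 467 381 (by decide +kernel) h1 h2 h3 h4

theorem c761 (h : Good α) (h1 : α 24 = true) (h2 : α 291 = true) (h3 : α 191 = true) (h4 : α 413 = true) : False :=
  rf h true 2 3 2 24 291 191 413 (by decide +kernel) h1 h2 h3 h4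

theorem c762 (h : Good α) (h1 : α 24 = true) (h2 : α 192 = true) (h3 : α 304 = true) (h4 : α 432 = true) : False :=
  rf h true 0 2 3 24 192 304 432 (by decide +kernel) h1 h2 h3 h4

theorem c763 (h : Good α) (h1 : α 27 = true) (h2 : α 25 = true) (h3 : α 87 = true) : False :=
  af h true 4 27 25 87 (by decide +kernel) h1 h2 h3

theorem c764 (h : Good α) (h1 : α 27 = true) (h2 : α 113 = true) (h3 : α 25 = true) (h4 : α 97 = true) : False :=
  rf h true 1 1 1 27 113 25 97 (by decide +kernel) h1 h2 h3 h4

theorem c765 (h : Good α) (h1 : α 127 = true) (h2 : α 27 = true) (h3 : α 25 = true) : False :=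
  af h true 4 127 27 25 (by decide +kernel) h1 h2 h3

theorem c766 (h : Good α) (h1 : α 31 = false) (h2 : α 25 = false) (h3 : α 97 = false) : False :=
  af h false 1 31 25 97 (by decide +kernel) h1 h2 h3

theorem c767 (h : Good α) (h1 : α 31 = true) (h2 : α 25 = true) (h3 : α 97 = true) : False :=
  af h true 1 31 25 97 (by decide +kernel) h1 h2 h3

theorem c768 (h : Good α) (h1 : α 132 = false) (h2 : α 31 = false) (h3 : α 25 = false) : False :=
  af h false 1 132 31 25 (by decide +kernel) h1 h2 h3

theorem c769 (h : Good α) (h1 : α 50 = false) (h2 : α 25 = false) (h3 : α 83 = false) : False :=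
  af h false 0 50 25 83 (by decide +kernel) h1 h2 h3

theorem c770 (h : Good α) (h1 : α 50 = true) (h2 : α 25 = true) (h3 : α 147 = true) (h4 : α 112 = true) : False :=
  rf h true 0 1 1 50 25 147 112 (by decide +kernel) h1 h2 h3 h4

theorem c771 (h : Good α) (h1 : α 191 = false) (h2 : α 50 = false) (h3 : α 25 = false) : False :=
  af h false 0 191 50 25 (by decide +kernel) h1 h2 h3

theorem c772 (h : Good α) (h1 : α 191 = true) (h2 : α 50 = true) (h3 : α 25 = true) : False :=
  af h true 0 191 50 25 (by decide +kernel) h1 h2 h3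

theorem c773 (h : Good α) (h1 : α 61 = true) (h2 : α 25 = true) (h3 : α 64 = true) : False :=
  af h true 5 61 25 64 (by decide +kernel) h1 h2 h3

theorem c774 (h : Good α) (h1 : α 61 = false) (h2 : α 157 = false) (h3 : α 25 = false) (h4 : α 121 = false) : False :=
  rf h false 2 1 1 61 157 25 121 (by decide +kernel) h1 h2 h3 h4

theorem c775 (h : Good α) (h1 : α 61 = true) (h2 : α 157 = true) (h3 : α 25 = true) (h4 : α 121 = true) : False :=
  rf h true 2 1 1 61 157 25 121 (by decide +kernel) h1 h2 h3 h4

theorem c776 (h : Good α) (h1 : α 192 = false) (h2 : α 61 = false) (h3 : α 25 = false) : False :=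
  af h false 5 192 61 25 (by decide +kernel) h1 h2 h3

theorem c777 (h : Good α) (h1 : α 192 = true) (h2 : α 61 = true) (h3 : α 25 = true) : False :=
  af h true 5 192 61 25 (by decide +kernel) h1 h2 h3

theorem c778 (h : Good α) (h1 : α 323 = false) (h2 : α 61 = false) (h3 : α 295 = false) (h4 : α 25 = false) : False :=
  rf h false 2 3 1 323 61 295 25 (by decide +kernel) h1 h2 h3 h4

theorem c779 (h : Good α) (h1 : α 323 = true) (h2 : α 61 = true) (h3 : α 295 = true) (h4 : α 25 = true) : False :=
  rf h true 2 3 1 323 61 295 25 (by decide +kernel) h1 h2 h3 h4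

theorem c780 (h : Good α) (h1 : α 25 = false) (h2 : α 97 = false) (h3 : α 87 = false) (h4 : α 189 = false) : False :=
  rf h false 1 1 1 25 97 87 189 (by decide +kernel) h1 h2 h3 h4

theorem c781 (h : Good α) (h1 : α 25 = false) (h2 : α 87 = false) (h3 : α 260 = false) : False :=
  af h false 4 25 87 260 (by decide +kernel) h1 h2 h3

theorem c782 (h : Good α) (h1 : α 25 = true) (h2 : α 274 = true) (h3 : α 87 = true) (h4 : α 345 = true) : False :=
  rf h true 1 2 1 25 274 87 345 (by decide +kernel) h1 h2 h3 h4

theorem c783 (h : Good α) (h1 : α 25 = true) (h2 : α 509 = true) (h3 : α 87 = true) (h4 : α 569 = true) : False :=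
  rf h true 1 3 1 25 509 87 569 (by decide +kernel) h1 h2 h3 h4

theorem c784 (h : Good α) (h1 : α 25 = false) (h2 : α 97 = false) (h3 : α 260 = false) (h4 : α 340 = false) : False :=
  rf h false 1 1 2 25 97 260 340 (by decide +kernel) h1 h2 h3 h4

theorem c785 (h : Good α) (h1 : α 25 = false) (h2 : α 97 = false) (h3 : α 274 = false) : False :=
  af h false 1 25 97 274 (by decide +kernel) h1 h2 h3

theorem c786 (h : Good α) (h1 : α 25 = true) (h2 : α 97 = true) (h3 : α 274 = true) : False :=
  af h true 1 25 97 274 (by decide +kernel) h1 h2 h3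

theorem c787 (h : Good α) (h1 : α 25 = true) (h2 : α 97 = true) (h3 : α 488 = true) (h4 : α 550 = true) : False :=
  rf h true 1 1 3 25 97 488 550 (by decide +kernel) h1 h2 h3 h4

theorem c788 (h : Good α) (h1 : α 261 = false) (h2 : α 192 = false) (h3 : α 111 = false) (h4 : α 25 = false) : False :=
  rf h false 2 2 2 261 192 111 25 (by decide +kernel) h1 h2 h3 h4

theorem c789 (h : Good α) (h1 : α 455 = true) (h2 : α 382 = true) (h3 : α 111 = true) (h4 : α 25 = true) : False :=
  rf h true 2 2 3 455 382 111 25 (by decide +kernel) h1 h2 h3 h4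

theorem c790 (h : Good α) (h1 : α 25 = true) (h2 : α 112 = true) (h3 : α 303 = true) : False :=
  af h true 3 25 112 303 (by decide +kernel) h1 h2 h3

theorem c791 (h : Good α) (h1 : α 472 = false) (h2 : α 116 = false) (h3 : α 390 = false) (h4 : α 25 = false) : False :=
  rf h false 0 3 2 472 116 390 25 (by decide +kernel) h1 h2 h3 h4

theorem c792 (h : Good α) (h1 : α 127 = true) (h2 : α 371 = true) (h3 : α 25 = true) (h4 : α 274 = true) : False :=
  rf h true 1 2 2 127 371 25 274 (by decide +kernel) h1 h2 h3 h4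

theorem c793 (h : Good α) (h1 : α 431 = true) (h2 : α 305 = true) (h3 : α 191 = true) (h4 : α 25 = true) : False :=
  rf h true 0 2 3 431 305 191 25 (by decide +kernel) h1 h2 h3 h4

theorem c794 (h : Good α) (h1 : α 106 = false) (h2 : α 26 = false) (h3 : α 38 = false) : False :=
  af h false 1 106 26 38 (by decide +kernel) h1 h2 h3

theorem c795 (h : Good α) (h1 : α 106 = true) (h2 : α 26 = true) (h3 : α 38 = true) : False :=
  af h true 1 106 26 38 (by decide +kernel) h1 h2 h3

theorem c796 (h : Good α) (h1 : α 261 = true) (h2 : α 279 = true) (h3 : α 26 = true) (h4 : α 38 = true) : False :=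
  rf h true 1 1 3 261 279 26 38 (by decide +kernel) h1 h2 h3 h4

theorem c797 (h : Good α) (h1 : α 48 = false) (h2 : α 26 = false) (h3 : α 98 = false) : False :=
  af h false 3 48 26 98 (by decide +kernel) h1 h2 h3

theorem c798 (h : Good α) (h1 : α 48 = true) (h2 : α 26 = true) (h3 : α 98 = true) : False :=
  af h true 3 48 26 98 (by decide +kernel) h1 h2 h3

theorem c799 (h : Good α) (h1 : α 48 = false) (h2 : α 288 = false) (h3 : α 26 = false) (h4 : α 276 = false) : False :=
  rf h false 0 3 1 48 288 26 276 (by decide +kernel) h1 h2 h3 h4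

theorem c800 (h : Good α) (h1 : α 26 = true) (h2 : α 66 = true) (h3 : α 146 = true) (h4 : α 195 = true) : False :=
  rf h true 2 1 1 26 66 146 195 (by decide +kernel) h1 h2 h3 h4

theorem c801 (h : Good α) (h1 : α 221 = true) (h2 : α 82 = true) (h3 : α 26 = true) : False :=
  af h true 2 221 82 26 (by decide +kernel) h1 h2 h3

theorem c802 (h : Good α) (h1 : α 188 = false) (h2 : α 88 = false) (h3 : α 106 = false) (h4 : α 26 = false) : False :=
  rf h false 1 1 2 188 88 106 26 (by decide +kernel) h1 h2 h3 h4

theorem c803 (h : Good α) (h1 : α 26 = false) (h2 : α 276 = false) (h3 : α 98 = false) (h4 : α 347 = false) : False :=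
  rf h false 0 3 1 26 276 98 347 (by decide +kernel) h1 h2 h3 h4

theorem c804 (h : Good α) (h1 : α 26 = false) (h2 : α 98 = false) (h3 : α 277 = false) : False :=
  af h false 3 26 98 277 (by decide +kernel) h1 h2 h3

theorem c805 (h : Good α) (h1 : α 106 = false) (h2 : α 26 = false) (h3 : α 205 = false) (h4 : α 122 = false) : False :=
  rf h false 1 1 1 106 26 205 122 (by decide +kernel) h1 h2 h3 h4

theorem c806 (h : Good α) (h1 : α 106 = true) (h2 : α 26 = true) (h3 : α 205 = true) (h4 : α 122 = true) : False :=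
  rf h true 1 1 1 106 26 205 122 (by decide +kernel) h1 h2 h3 h4

theorem c807 (h : Good α) (h1 : α 281 = false) (h2 : α 106 = false) (h3 : α 26 = false) : False :=
  af h false 1 281 106 26 (by decide +kernel) h1 h2 h3

theorem c808 (h : Good α) (h1 : α 553 = false) (h2 : α 493 = false) (h3 : α 106 = false) (h4 : α 26 = false) : False :=
  rf h false 1 1 4 553 493 106 26 (by decide +kernel) h1 h2 h3 h4

theorem c809 (h : Good α) (h1 : α 26 = false) (h2 : α 146 = false) (h3 : α 336 = false) : False :=
  af h false 5 26 146 336 (by decide +kernel) h1 h2 h3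

theorem c810 (h : Good α) (h1 : α 26 = true) (h2 : α 146 = true) (h3 : α 336 = true) : False :=
  af h true 5 26 146 336 (by decide +kernel) h1 h2 h3

theorem c811 (h : Good α) (h1 : α 484 = true) (h2 : α 261 = true) (h3 : α 281 = true) (h4 : α 26 = true) : False :=
  rf h true 1 2 3 484 261 281 26 (by decide +kernel) h1 h2 h3 h4

theorem c812 (h : Good α) (h1 : α 26 = true) (h2 : α 276 = true) (h3 : α 277 = true) (h4 : α 486 = true) : False :=
  rf h true 0 3 2 26 276 277 486 (by decide +kernel) h1 h2 h3 h4

theorem c813 (h : Good α) (h1 : α 39 = true) (h2 : α 27 = true) (h3 : α 99 = true) (h4 : α 87 = true) : False :=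
  rf h true 1 1 2 39 27 99 87 (by decide +kernel) h1 h2 h3 h4

theorem c814 (h : Good α) (h1 : α 39 = false) (h2 : α 27 = false) (h3 : α 113 = false) : False :=
  af h false 1 39 27 113 (by decide +kernel) h1 h2 h3

theorem c815 (h : Good α) (h1 : α 39 = true) (h2 : α 27 = true) (h3 : α 113 = true) : False :=
  af h true 1 39 27 113 (by decide +kernel) h1 h2 h3

theorem c816 (h : Good α) (h1 : α 39 = false) (h2 : α 27 = false) (h3 : α 278 = false) (h4 : α 260 = false) : False :=
  rf h false 1 1 3 39 27 278 260 (by decide +kernel) h1 h2 h3 h4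

theorem c817 (h : Good α) (h1 : α 39 = true) (h2 : α 27 = true) (h3 : α 278 = true) (h4 : α 260 = true) : False :=
  rf h true 1 1 3 39 27 278 260 (by decide +kernel) h1 h2 h3 h4

theorem c818 (h : Good α) (h1 : α 101 = true) (h2 : α 27 = true) (h3 : α 49 = true) : False :=
  af h true 3 101 27 49 (by decide +kernel) h1 h2 h3

theorem c819 (h : Good α) (h1 : α 275 = false) (h2 : α 27 = false) (h3 : α 285 = false) (h4 : α 49 = false) : False :=
  rf h false 0 3 1 275 27 285 49 (by decide +kernel) h1 h2 h3 h4

theorem c820 (h : Good α) (h1 : α 275 = true) (h2 : α 27 = true) (h3 : α 285 = true) (h4 : α 49 = true) : False :=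
  rf h true 0 3 1 275 27 285 49 (by decide +kernel) h1 h2 h3 h4

theorem c821 (h : Good α) (h1 : α 504 = false) (h2 : α 27 = false) (h3 : α 527 = false) (h4 : α 49 = false) : False :=
  rf h false 0 4 1 504 27 527 49 (by decide +kernel) h1 h2 h3 h4

theorem c822 (h : Good α) (h1 : α 196 = false) (h2 : α 149 = false) (h3 : α 67 = false) (h4 : α 27 = false) : False :=
  rf h false 2 1 1 196 149 67 27 (by decide +kernel) h1 h2 h3 h4

theorem c823 (h : Good α) (h1 : α 149 = false) (h2 : α 204 = false) (h3 : α 27 = false) (h4 : α 83 = false) : False :=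
  rf h false 2 1 1 149 204 27 83 (by decide +kernel) h1 h2 h3 h4

theorem c824 (h : Good α) (h1 : α 27 = true) (h2 : α 83 = true) (h3 : α 224 = true) : False :=
  af h true 2 27 83 224 (by decide +kernel) h1 h2 h3

theorem c825 (h : Good α) (h1 : α 344 = false) (h2 : α 280 = false) (h3 : α 86 = false) (h4 : α 27 = false) : False :=
  rf h false 0 2 2 344 280 86 27 (by decide +kernel) h1 h2 h3 h4

theorem c826 (h : Good α) (h1 : α 27 = false) (h2 : α 113 = false) (h3 : α 87 = false) (h4 : α 189 = false) : False :=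
  rf h false 1 1 2 27 113 87 189 (by decide +kernel) h1 h2 h3 h4

theorem c827 (h : Good α) (h1 : α 27 = true) (h2 : α 113 = true) (h3 : α 87 = true) (h4 : α 189 = true) : False :=
  rf h true 1 1 2 27 113 87 189 (by decide +kernel) h1 h2 h3 h4

theorem c828 (h : Good α) (h1 : α 346 = false) (h2 : α 101 = false) (h3 : α 275 = false) (h4 : α 27 = false) : False :=
  rf h false 0 3 1 346 101 275 27 (by decide +kernel) h1 h2 h3 h4

theorem c829 (h : Good α) (h1 : α 280 = true) (h2 : α 101 = true) (h3 : α 27 = true) : False :=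
  af h true 3 280 101 27 (by decide +kernel) h1 h2 h3

theorem c830 (h : Good α) (h1 : α 27 = false) (h2 : α 113 = false) (h3 : α 260 = false) (h4 : α 340 = false) : False :=
  rf h false 1 1 3 27 113 260 340 (by decide +kernel) h1 h2 h3 h4

theorem c831 (h : Good α) (h1 : α 27 = true) (h2 : α 113 = true) (h3 : α 284 = true) : False :=
  af h true 1 27 113 284 (by decide +kernel) h1 h2 h3

theorem c832 (h : Good α) (h1 : α 27 = true) (h2 : α 113 = true) (h3 : α 488 = true) (h4 : α 550 = true) : False :=
  rf h true 1 1 4 27 113 488 550 (by decide +kernel) h1 h2 h3 h4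

theorem c833 (h : Good α) (h1 : α 337 = false) (h2 : α 149 = false) (h3 : α 27 = false) : False :=
  af h false 5 337 149 27 (by decide +kernel) h1 h2 h3

theorem c834 (h : Good α) (h1 : α 27 = true) (h2 : α 284 = true) (h3 : α 260 = true) (h4 : α 483 = true) : False :=
  rf h true 1 2 3 27 284 260 483 (by decide +kernel) h1 h2 h3 h4

theorem c835 (h : Good α) (h1 : α 485 = true) (h2 : α 280 = true) (h3 : α 275 = true) (h4 : α 27 = true) : False :=
  rf h true 0 3 2 485 280 275 27 (by decide +kernel) h1 h2 h3 h4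

theorem c836 (h : Good α) (h1 : α 107 = true) (h2 : α 40 = true) (h3 : α 94 = true) (h4 : α 28 = true) : False :=
  rf h true 2 2 1 107 40 94 28 (by decide +kernel) h1 h2 h3 h4

theorem c837 (h : Good α) (h1 : α 40 = false) (h2 : α 28 = false) (h3 : α 102 = false) : False :=
  af h false 5 40 28 102 (by decide +kernel) h1 h2 h3

theorem c838 (h : Good α) (h1 : α 40 = true) (h2 : α 28 = true) (h3 : α 102 = true) : False :=
  af h true 5 40 28 102 (by decide +kernel) h1 h2 h3

theorem c839 (h : Good α) (h1 : α 286 = true) (h2 : α 40 = true) (h3 : α 272 = true) (h4 : α 28 = true) : False :=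
  rf h true 2 3 1 286 40 272 28 (by decide +kernel) h1 h2 h3 h4

theorem c840 (h : Good α) (h1 : α 521 = false) (h2 : α 40 = false) (h3 : α 505 = false) (h4 : α 28 = false) : False :=
  rf h false 2 4 1 521 40 505 28 (by decide +kernel) h1 h2 h3 h4

theorem c841 (h : Good α) (h1 : α 521 = true) (h2 : α 40 = true) (h3 : α 505 = true) (h4 : α 28 = true) : False :=
  rf h true 2 4 1 521 40 505 28 (by decide +kernel) h1 h2 h3 h4

theorem c842 (h : Good α) (h1 : α 116 = true) (h2 : α 92 = true) (h3 : α 44 = true) (h4 : α 28 = true) : False :=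
  rf h true 1 1 2 116 92 44 28 (by decide +kernel) h1 h2 h3 h4

theorem c843 (h : Good α) (h1 : α 44 = false) (h2 : α 28 = false) (h3 : α 108 = false) : False :=
  af h false 1 44 28 108 (by decide +kernel) h1 h2 h3

theorem c844 (h : Good α) (h1 : α 44 = true) (h2 : α 28 = true) (h3 : α 108 = true) : False :=
  af h true 1 44 28 108 (by decide +kernel) h1 h2 h3

theorem c845 (h : Good α) (h1 : α 280 = false) (h2 : α 264 = false) (h3 : α 44 = false) (h4 : α 28 = false) : False :=
  rf h false 1 1 3 280 264 44 28 (by decide +kernel) h1 h2 h3 h4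

theorem c846 (h : Good α) (h1 : α 280 = true) (h2 : α 264 = true) (h3 : α 44 = true) (h4 : α 28 = true) : False :=
  rf h true 1 1 3 280 264 44 28 (by decide +kernel) h1 h2 h3 h4

theorem c847 (h : Good α) (h1 : α 62 = false) (h2 : α 28 = false) (h3 : α 85 = false) : False :=
  af h false 0 62 28 85 (by decide +kernel) h1 h2 h3

theorem c848 (h : Good α) (h1 : α 62 = true) (h2 : α 28 = true) (h3 : α 85 = true) : False :=
  af h true 0 62 28 85 (by decide +kernel) h1 h2 h3

theorem c849 (h : Good α) (h1 : α 62 = true) (h2 : α 28 = true) (h3 : α 195 = true) (h4 : α 150 = true) : False :=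
  rf h true 0 1 1 62 28 195 150 (by decide +kernel) h1 h2 h3 h4

theorem c850 (h : Good α) (h1 : α 205 = false) (h2 : α 62 = false) (h3 : α 28 = false) : False :=
  af h false 0 205 62 28 (by decide +kernel) h1 h2 h3

theorem c851 (h : Good α) (h1 : α 205 = true) (h2 : α 62 = true) (h3 : α 28 = true) : False :=
  af h true 0 205 62 28 (by decide +kernel) h1 h2 h3

theorem c852 (h : Good α) (h1 : α 62 = false) (h2 : α 28 = false) (h3 : α 380 = false) (h4 : α 340 = false) : False :=
  rf h false 0 1 2 62 28 380 340 (by decide +kernel) h1 h2 h3 h4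

end Q110.RC
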