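import Pool.Agent.Q110.RC.Base

/-! # Generated part of the refutation used for `S(4)` -/

set_option linter.all false

namespace Q110.RC

variable {α : Nat → Bool}

theorem c853 (h : Good α) (h1 : α 28 = true) (h2 : α 85 = true) (h3 : α 150 = true) (h4 : α 202 = true) : False :=
  rf h true 0 1 1 28 85 150 202 (by decide +kernel) h1 h2 h3 h4

theorem c854 (h : Good α) (h1 : α 28 = false) (h2 : α 85 = false) (h3 : α 223 = false) : False :=
  af h false 0 28 85 223 (by decide +kernel) h1 h2 h3

theorem c855 (h : Good α) (h1 : α 28 = true) (h2 : α 85 = true) (h3 : α 223 = true) : False :=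
  af h true 0 28 85 223 (by decide +kernel) h1 h2 h3

theorem c856 (h : Good α) (h1 : α 28 = false) (h2 : α 85 = false) (h3 : α 340 = false) (h4 : α 399 = false) : False :=
  rf h false 0 1 2 28 85 340 399 (by decide +kernel) h1 h2 h3 h4

theorem c857 (h : Good α) (h1 : α 92 = false) (h2 : α 192 = false) (h3 : α 28 = false) (h4 : α 108 = false) : False :=
  rf h false 1 1 2 92 192 28 108 (by decide +kernel) h1 h2 h3 h4

theorem c858 (h : Good α) (h1 : α 92 = true) (h2 : α 192 = true) (h3 : α 28 = true) (h4 : α 108 = true) : False :=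
  rf h true 1 1 2 92 192 28 108 (by decide +kernel) h1 h2 h3 h4

theorem c859 (h : Good α) (h1 : α 92 = false) (h2 : α 343 = false) (h3 : α 28 = false) (h4 : α 282 = false) : False :=
  rf h false 1 2 2 92 343 28 282 (by decide +kernel) h1 h2 h3 h4

theorem c860 (h : Good α) (h1 : α 94 = false) (h2 : α 28 = false) (h3 : α 187 = false) (h4 : α 102 = false) : False :=
  rf h false 2 2 1 94 28 187 102 (by decide +kernel) h1 h2 h3 h4

theorem c861 (h : Good α) (h1 : α 94 = false) (h2 : α 28 = false) (h3 : α 338 = false) (h4 : α 278 = false) : False :=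
  rf h false 2 2 2 94 28 338 278 (by decide +kernel) h1 h2 h3 h4

theorem c862 (h : Good α) (h1 : α 94 = true) (h2 : α 28 = true) (h3 : α 338 = true) (h4 : α 278 = true) : False :=
  rf h true 2 2 2 94 28 338 278 (by decide +kernel) h1 h2 h3 h4

theorem c863 (h : Good α) (h1 : α 94 = false) (h2 : α 28 = false) (h3 : α 551 = false) (h4 : α 512 = false) : False :=
  rf h false 2 2 3 94 28 551 512 (by decide +kernel) h1 h2 h3 h4

theorem c864 (h : Good α) (h1 : α 272 = false) (h2 : α 28 = false) (h3 : α 346 = false) (h4 : α 102 = false) : False :=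
  rf h false 2 3 1 272 28 346 102 (by decide +kernel) h1 h2 h3 h4

theorem c865 (h : Good α) (h1 : α 28 = false) (h2 : α 102 = false) (h3 : α 278 = false) : False :=
  af h false 5 28 102 278 (by decide +kernel) h1 h2 h3

theorem c866 (h : Good α) (h1 : α 28 = true) (h2 : α 102 = true) (h3 : α 278 = true) : False :=
  af h true 5 28 102 278 (by decide +kernel) h1 h2 h3

theorem c867 (h : Good α) (h1 : α 505 = false) (h2 : α 28 = false) (h3 : α 567 = false) (h4 : α 102 = false) : False :=
  rf h false 2 4 1 505 28 567 102 (by decide +kernel) h1 h2 h3 h4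

theorem c868 (h : Good α) (h1 : α 28 = false) (h2 : α 108 = false) (h3 : α 123 = false) (h4 : α 206 = false) : False :=
  rf h false 1 1 1 28 108 123 206 (by decide +kernel) h1 h2 h3 h4

theorem c869 (h : Good α) (h1 : α 264 = false) (h2 : α 337 = false) (h3 : α 28 = false) (h4 : α 108 = false) : False :=
  rf h false 1 1 3 264 337 28 108 (by decide +kernel) h1 h2 h3 h4

theorem c870 (h : Good α) (h1 : α 28 = false) (h2 : α 108 = false) (h3 : α 282 = false) : False :=
  af h false 1 28 108 282 (by decide +kernel) h1 h2 h3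

theorem c871 (h : Good α) (h1 : α 28 = true) (h2 : α 108 = true) (h3 : α 282 = true) : False :=
  af h true 1 28 108 282 (by decide +kernel) h1 h2 h3

theorem c872 (h : Good α) (h1 : α 494 = false) (h2 : α 554 = false) (h3 : α 28 = false) (h4 : α 108 = false) : False :=
  rf h false 1 1 4 494 554 28 108 (by decide +kernel) h1 h2 h3 h4

theorem c873 (h : Good α) (h1 : α 205 = true) (h2 : α 28 = true) (h3 : α 312 = true) (h4 : α 150 = true) : False :=
  rf h true 0 2 1 205 28 312 150 (by decide +kernel) h1 h2 h3 h4

theorem c874 (h : Good α) (h1 : α 28 = true) (h2 : α 150 = true) (h3 : α 340 = true) : False :=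
  af h true 3 28 150 340 (by decide +kernel) h1 h2 h3

theorem c875 (h : Good α) (h1 : α 205 = false) (h2 : α 28 = false) (h3 : α 487 = false) (h4 : α 340 = false) : False :=
  rf h false 0 2 2 205 28 487 340 (by decide +kernel) h1 h2 h3 h4

theorem c876 (h : Good α) (h1 : α 28 = false) (h2 : α 223 = false) (h3 : α 340 = false) (h4 : α 506 = false) : False :=
  rf h false 0 2 2 28 223 340 506 (by decide +kernel) h1 h2 h3 h4

theorem c877 (h : Good α) (h1 : α 264 = false) (h2 : α 476 = false) (h3 : α 28 = false) (h4 : α 282 = false) : False :=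
  rf h false 1 2 3 264 476 28 282 (by decide +kernel) h1 h2 h3 h4

theorem c878 (h : Good α) (h1 : α 264 = true) (h2 : α 476 = true) (h3 : α 28 = true) (h4 : α 282 = true) : False :=
  rf h true 1 2 3 264 476 28 282 (by decide +kernel) h1 h2 h3 h4

theorem c879 (h : Good α) (h1 : α 272 = false) (h2 : α 28 = false) (h3 : α 477 = false) (h4 : α 278 = false) : False :=
  rf h false 2 3 2 272 28 477 278 (by decide +kernel) h1 h2 h3 h4

theorem c880 (h : Good α) (h1 : α 272 = true) (h2 : α 28 = true) (h3 : α 477 = true) (h4 : α 278 = true) : False :=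
  rf h true 2 3 2 272 28 477 278 (by decide +kernel) h1 h2 h3 h4

theorem c881 (h : Good α) (h1 : α 29 = false) (h2 : α 40 = false) (h3 : α 90 = false) (h4 : α 102 = false) : False :=
  rf h false 2 1 2 29 40 90 102 (by decide +kernel) h1 h2 h3 h4

theorem c882 (h : Good α) (h1 : α 29 = true) (h2 : α 40 = true) (h3 : α 90 = true) (h4 : α 102 = true) : False :=
  rf h true 2 1 2 29 40 90 102 (by decide +kernel) h1 h2 h3 h4

theorem c883 (h : Good α) (h1 : α 107 = false) (h2 : α 29 = false) (h3 : α 40 = false) : False :=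
  af h false 2 107 29 40 (by decide +kernel) h1 h2 h3

theorem c884 (h : Good α) (h1 : α 107 = true) (h2 : α 29 = true) (h3 : α 40 = true) : False :=
  af h true 2 107 29 40 (by decide +kernel) h1 h2 h3

theorem c885 (h : Good α) (h1 : α 29 = true) (h2 : α 40 = true) (h3 : α 258 = true) (h4 : α 278 = true) : False :=
  rf h true 2 1 3 29 40 258 278 (by decide +kernel) h1 h2 h3 h4

theorem c886 (h : Good α) (h1 : α 48 = true) (h2 : α 29 = true) (h3 : α 104 = true) : False :=
  af h true 0 48 29 104 (by decide +kernel) h1 h2 h3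

theorem c887 (h : Good α) (h1 : α 80 = false) (h2 : α 29 = false) (h3 : α 68 = false) : False :=
  af h false 1 80 29 68 (by decide +kernel) h1 h2 h3

theorem c888 (h : Good α) (h1 : α 80 = true) (h2 : α 29 = true) (h3 : α 68 = true) : False :=
  af h true 1 80 29 68 (by decide +kernel) h1 h2 h3

theorem c889 (h : Good α) (h1 : α 148 = false) (h2 : α 194 = false) (h3 : α 29 = false) (h4 : α 68 = false) : False :=
  rf h false 1 1 1 148 194 29 68 (by decide +kernel) h1 h2 h3 h4

theorem c890 (h : Good α) (h1 : α 29 = false) (h2 : α 68 = false) (h3 : α 215 = false) : False :=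
  af h false 1 29 68 215 (by decide +kernel) h1 h2 h3

theorem c891 (h : Good α) (h1 : α 200 = false) (h2 : α 148 = false) (h3 : α 80 = false) (h4 : α 29 = false) : False :=
  rf h false 1 1 1 200 148 80 29 (by decide +kernel) h1 h2 h3 h4

theorem c892 (h : Good α) (h1 : α 227 = false) (h2 : α 80 = false) (h3 : α 29 = false) : False :=
  af h false 1 227 80 29 (by decide +kernel) h1 h2 h3

theorem c893 (h : Good α) (h1 : α 379 = false) (h2 : α 342 = false) (h3 : α 80 = false) (h4 : α 29 = false) : False :=
  rf h false 1 1 2 379 342 80 29 (by decide +kernel) h1 h2 h3 h4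

theorem c894 (h : Good α) (h1 : α 286 = false) (h2 : α 29 = false) (h3 : α 346 = false) (h4 : α 90 = false) : False :=
  rf h false 2 2 2 286 29 346 90 (by decide +kernel) h1 h2 h3 h4

theorem c895 (h : Good α) (h1 : α 521 = true) (h2 : α 29 = true) (h3 : α 567 = true) (h4 : α 90 = true) : False :=
  rf h true 2 3 2 521 29 567 90 (by decide +kernel) h1 h2 h3 h4

theorem c896 (h : Good α) (h1 : α 29 = false) (h2 : α 104 = false) (h3 : α 265 = false) (h4 : α 345 = false) : False :=
  rf h false 0 1 3 29 104 265 345 (by decide +kernel) h1 h2 h3 h4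

theorem c897 (h : Good α) (h1 : α 29 = false) (h2 : α 104 = false) (h3 : α 288 = false) : False :=
  af h false 0 29 104 288 (by decide +kernel) h1 h2 h3

theorem c898 (h : Good α) (h1 : α 107 = false) (h2 : α 29 = false) (h3 : α 338 = false) (h4 : α 258 = false) : False :=
  rf h false 2 1 3 107 29 338 258 (by decide +kernel) h1 h2 h3 h4

theorem c899 (h : Good α) (h1 : α 286 = false) (h2 : α 107 = false) (h3 : α 29 = false) : False :=
  af h false 2 286 107 29 (by decide +kernel) h1 h2 h3

theorem c900 (h : Good α) (h1 : α 286 = true) (h2 : α 107 = true) (h3 : α 29 = true) : False :=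
  af h true 2 286 107 29 (by decide +kernel) h1 h2 h3

theorem c901 (h : Good α) (h1 : α 342 = false) (h2 : α 148 = false) (h3 : α 29 = false) : False :=
  af h false 4 342 148 29 (by decide +kernel) h1 h2 h3

theorem c902 (h : Good α) (h1 : α 342 = true) (h2 : α 148 = true) (h3 : α 29 = true) : False :=
  af h true 4 342 148 29 (by decide +kernel) h1 h2 h3

theorem c903 (h : Good α) (h1 : α 286 = true) (h2 : α 29 = true) (h3 : α 477 = true) (h4 : α 258 = true) : False :=
  rf h true 2 2 3 286 29 477 258 (by decide +kernel) h1 h2 h3 h4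

theorem c904 (h : Good α) (h1 : α 29 = true) (h2 : α 288 = true) (h3 : α 265 = true) (h4 : α 486 = true) : False :=
  rf h true 0 2 3 29 288 265 486 (by decide +kernel) h1 h2 h3 h4

theorem c905 (h : Good α) (h1 : α 100 = false) (h2 : α 30 = false) (h3 : α 38 = false) : False :=
  af h false 4 100 30 38 (by decide +kernel) h1 h2 h3

theorem c906 (h : Good α) (h1 : α 41 = false) (h2 : α 30 = false) (h3 : α 114 = false) (h4 : α 91 = false) : False :=
  rf h false 2 1 2 41 30 114 91 (by decide +kernel) h1 h2 h3 h4

theorem c907 (h : Good α) (h1 : α 41 = false) (h2 : α 30 = false) (h3 : α 109 = false) : False :=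
  af h false 2 41 30 109 (by decide +kernel) h1 h2 h3

theorem c908 (h : Good α) (h1 : α 41 = true) (h2 : α 30 = true) (h3 : α 109 = true) : False :=
  af h true 2 41 30 109 (by decide +kernel) h1 h2 h3

theorem c909 (h : Good α) (h1 : α 41 = false) (h2 : α 30 = false) (h3 : α 285 = false) (h4 : α 259 = false) : False :=
  rf h false 2 1 3 41 30 285 259 (by decide +kernel) h1 h2 h3 h4

theorem c910 (h : Good α) (h1 : α 41 = true) (h2 : α 30 = true) (h3 : α 285 = true) (h4 : α 259 = true) : False :=
  rf h true 2 1 3 41 30 285 259 (by decide +kernel) h1 h2 h3 h4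

theorem c911 (h : Good α) (h1 : α 41 = false) (h2 : α 30 = false) (h3 : α 518 = false) (h4 : α 489 = false) : False :=
  rf h false 2 1 4 41 30 518 489 (by decide +kernel) h1 h2 h3 h4

theorem c912 (h : Good α) (h1 : α 63 = false) (h2 : α 30 = false) (h3 : α 75 = false) : False :=
  af h false 3 63 30 75 (by decide +kernel) h1 h2 h3

theorem c913 (h : Good α) (h1 : α 63 = true) (h2 : α 30 = true) (h3 : α 75 = true) : False :=
  af h true 3 63 30 75 (by decide +kernel) h1 h2 h3

theorem c914 (h : Good α) (h1 : α 207 = false) (h2 : α 63 = false) (h3 : α 30 = false) : False :=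
  af h false 3 207 63 30 (by decide +kernel) h1 h2 h3

theorem c915 (h : Good α) (h1 : α 207 = true) (h2 : α 63 = true) (h3 : α 30 = true) : False :=
  af h true 3 207 63 30 (by decide +kernel) h1 h2 h3

theorem c916 (h : Good α) (h1 : α 30 = false) (h2 : α 75 = false) (h3 : α 225 = false) : False :=
  af h false 3 30 75 225 (by decide +kernel) h1 h2 h3

theorem c917 (h : Good α) (h1 : α 30 = true) (h2 : α 343 = true) (h3 : α 75 = true) (h4 : α 396 = true) : False :=
  rf h true 0 2 1 30 343 75 396 (by decide +kernel) h1 h2 h3 h4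

theorem c918 (h : Good α) (h1 : α 30 = false) (h2 : α 109 = false) (h3 : α 91 = false) (h4 : α 183 = false) : False :=
  rf h false 2 1 2 30 109 91 183 (by decide +kernel) h1 h2 h3 h4

theorem c919 (h : Good α) (h1 : α 30 = false) (h2 : α 282 = false) (h3 : α 91 = false) (h4 : α 340 = false) : False :=
  rf h false 2 2 2 30 282 91 340 (by decide +kernel) h1 h2 h3 h4

theorem c920 (h : Good α) (h1 : α 30 = true) (h2 : α 282 = true) (h3 : α 91 = true) (h4 : α 340 = true) : False :=
  rf h true 2 2 2 30 282 91 340 (by decide +kernel) h1 h2 h3 h4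

theorem c921 (h : Good α) (h1 : α 30 = false) (h2 : α 513 = false) (h3 : α 91 = false) (h4 : α 558 = false) : False :=
  rf h false 2 3 2 30 513 91 558 (by decide +kernel) h1 h2 h3 h4

theorem c922 (h : Good α) (h1 : α 188 = false) (h2 : α 100 = false) (h3 : α 94 = false) (h4 : α 30 = false) : False :=
  rf h false 1 2 1 188 100 94 30 (by decide +kernel) h1 h2 h3 h4

theorem c923 (h : Good α) (h1 : α 30 = false) (h2 : α 109 = false) (h3 : α 259 = false) (h4 : α 339 = false) : False :=
  rf h false 2 1 3 30 109 259 339 (by decide +kernel) h1 h2 h3 h4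

theorem c924 (h : Good α) (h1 : α 30 = false) (h2 : α 109 = false) (h3 : α 282 = false) : False :=
  af h false 2 30 109 282 (by decide +kernel) h1 h2 h3

theorem c925 (h : Good α) (h1 : α 30 = false) (h2 : α 109 = false) (h3 : α 489 = false) (h4 : α 560 = false) : False :=
  rf h false 2 1 4 30 109 489 560 (by decide +kernel) h1 h2 h3 h4

theorem c926 (h : Good α) (h1 : α 30 = true) (h2 : α 152 = true) (h3 : α 343 = true) : False :=
  af h true 0 30 152 343 (by decide +kernel) h1 h2 h3

theorem c927 (h : Good α) (h1 : α 30 = false) (h2 : α 282 = false) (h3 : α 259 = false) (h4 : α 478 = false) : False :=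
  rf h false 2 2 3 30 282 259 478 (by decide +kernel) h1 h2 h3 h4

theorem c928 (h : Good α) (h1 : α 30 = true) (h2 : α 282 = true) (h3 : α 259 = true) (h4 : α 478 = true) : False :=
  rf h true 2 2 3 30 282 259 478 (by decide +kernel) h1 h2 h3 h4

theorem c929 (h : Good α) (h1 : α 484 = false) (h2 : α 279 = false) (h3 : α 271 = false) (h4 : α 30 = false) : False :=
  rf h false 1 3 2 484 279 271 30 (by decide +kernel) h1 h2 h3 h4

theorem c930 (h : Good α) (h1 : α 39 = false) (h2 : α 113 = false) (h3 : α 31 = false) (h4 : α 97 = false) : False :=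
  rf h false 1 2 1 39 113 31 97 (by decide +kernel) h1 h2 h3 h4

theorem c931 (h : Good α) (h1 : α 39 = false) (h2 : α 31 = false) (h3 : α 99 = false) : False :=
  af h false 4 39 31 99 (by decide +kernel) h1 h2 h3

theorem c932 (h : Good α) (h1 : α 39 = true) (h2 : α 31 = true) (h3 : α 99 = true) : False :=
  af h true 4 39 31 99 (by decide +kernel) h1 h2 h3

theorem c933 (h : Good α) (h1 : α 39 = false) (h2 : α 284 = false) (h3 : α 31 = false) (h4 : α 274 = false) : False :=
  rf h false 1 3 1 39 284 31 274 (by decide +kernel) h1 h2 h3 h4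

theorem c934 (h : Good α) (h1 : α 39 = true) (h2 : α 284 = true) (h3 : α 31 = true) (h4 : α 274 = true) : False :=
  rf h true 1 3 1 39 284 31 274 (by decide +kernel) h1 h2 h3 h4

theorem c935 (h : Good α) (h1 : α 92 = false) (h2 : α 117 = false) (h3 : α 31 = false) (h4 : α 42 = false) : False :=
  rf h false 2 1 2 92 117 31 42 (by decide +kernel) h1 h2 h3 h4

theorem c936 (h : Good α) (h1 : α 262 = true) (h2 : α 288 = true) (h3 : α 31 = true) (h4 : α 42 = true) : False :=
  rf h true 2 1 3 262 288 31 42 (by decide +kernel) h1 h2 h3 h4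

theorem c937 (h : Good α) (h1 : α 78 = false) (h2 : α 31 = false) (h3 : α 64 = false) : False :=
  af h false 3 78 31 64 (by decide +kernel) h1 h2 h3

theorem c938 (h : Good α) (h1 : α 226 = false) (h2 : α 78 = false) (h3 : α 31 = false) : False :=
  af h false 3 226 78 31 (by decide +kernel) h1 h2 h3

theorem c939 (h : Good α) (h1 : α 226 = true) (h2 : α 78 = true) (h3 : α 31 = true) : False :=
  af h true 3 226 78 31 (by decide +kernel) h1 h2 h3

theorem c940 (h : Good α) (h1 : α 184 = false) (h2 : α 92 = false) (h3 : α 110 = false) (h4 : α 31 = false) : False :=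
  rf h false 2 1 2 184 92 110 31 (by decide +kernel) h1 h2 h3 h4

theorem c941 (h : Good α) (h1 : α 341 = false) (h2 : α 92 = false) (h3 : α 283 = false) (h4 : α 31 = false) : False :=
  rf h false 2 2 2 341 92 283 31 (by decide +kernel) h1 h2 h3 h4

theorem c942 (h : Good α) (h1 : α 31 = false) (h2 : α 97 = false) (h3 : α 99 = false) (h4 : α 189 = false) : False :=
  rf h false 1 2 1 31 97 99 189 (by decide +kernel) h1 h2 h3 h4

theorem c943 (h : Good α) (h1 : α 31 = false) (h2 : α 97 = false) (h3 : α 278 = false) (h4 : α 340 = false) : False :=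
  rf h false 1 2 2 31 97 278 340 (by decide +kernel) h1 h2 h3 h4

theorem c944 (h : Good α) (h1 : α 31 = true) (h2 : α 97 = true) (h3 : α 278 = true) (h4 : α 340 = true) : False :=
  rf h true 1 2 2 31 97 278 340 (by decide +kernel) h1 h2 h3 h4

theorem c945 (h : Good α) (h1 : α 31 = false) (h2 : α 97 = false) (h3 : α 511 = false) (h4 : α 550 = false) : False :=
  rf h false 1 2 3 31 97 511 550 (by decide +kernel) h1 h2 h3 h4

theorem c946 (h : Good α) (h1 : α 31 = true) (h2 : α 97 = true) (h3 : α 511 = true) (h4 : α 550 = true) : False :=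
  rf h true 1 2 3 31 97 511 550 (by decide +kernel) h1 h2 h3 h4

theorem c947 (h : Good α) (h1 : α 31 = true) (h2 : α 274 = true) (h3 : α 278 = true) (h4 : α 483 = true) : False :=
  rf h true 1 3 2 31 274 278 483 (by decide +kernel) h1 h2 h3 h4

theorem c948 (h : Good α) (h1 : α 43 = true) (h2 : α 32 = true) (h3 : α 112 = true) : False :=
  af h true 2 43 32 112 (by decide +kernel) h1 h2 h3

theorem c949 (h : Good α) (h1 : α 103 = false) (h2 : α 32 = false) (h3 : α 49 = false) : False :=
  af h false 0 103 32 49 (by decide +kernel) h1 h2 h3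

theorem c950 (h : Good α) (h1 : α 73 = false) (h2 : α 32 = false) (h3 : α 81 = false) : False :=
  af h false 1 73 32 81 (by decide +kernel) h1 h2 h3

theorem c951 (h : Good α) (h1 : α 32 = false) (h2 : α 81 = false) (h3 : α 228 = false) : False :=
  af h false 1 32 81 228 (by decide +kernel) h1 h2 h3

theorem c952 (h : Good α) (h1 : α 32 = false) (h2 : α 81 = false) (h3 : α 339 = false) (h4 : α 378 = false) : False :=
  rf h false 1 1 2 32 81 339 378 (by decide +kernel) h1 h2 h3 h4

theorem c953 (h : Good α) (h1 : α 285 = true) (h2 : α 103 = true) (h3 : α 32 = true) : False :=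
  af h true 0 285 103 32 (by decide +kernel) h1 h2 h3

theorem c954 (h : Good α) (h1 : α 564 = true) (h2 : α 503 = true) (h3 : α 103 = true) (h4 : α 32 = true) : False :=
  rf h true 0 1 4 564 503 103 32 (by decide +kernel) h1 h2 h3 h4

theorem c955 (h : Good α) (h1 : α 32 = false) (h2 : α 147 = false) (h3 : α 339 = false) : False :=
  af h false 4 32 147 339 (by decide +kernel) h1 h2 h3

theorem c956 (h : Good α) (h1 : α 32 = true) (h2 : α 147 = true) (h3 : α 339 = true) : False :=
  af h true 4 32 147 339 (by decide +kernel) h1 h2 h3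

theorem c957 (h : Good α) (h1 : α 263 = true) (h2 : α 480 = true) (h3 : α 32 = true) (h4 : α 287 = true) : False :=
  rf h true 2 2 3 263 480 32 287 (by decide +kernel) h1 h2 h3 h4

theorem c958 (h : Good α) (h1 : α 485 = true) (h2 : α 266 = true) (h3 : α 285 = true) (h4 : α 32 = true) : False :=
  rf h true 0 2 3 485 266 285 32 (by decide +kernel) h1 h2 h3 h4

theorem c959 (h : Good α) (h1 : α 33 = false) (h2 : α 97 = false) (h3 : α 43 = false) (h4 : α 112 = false) : False :=
  rf h false 2 2 1 33 97 43 112 (by decide +kernel) h1 h2 h3 h4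

theorem c960 (h : Good α) (h1 : α 105 = false) (h2 : α 33 = false) (h3 : α 43 = false) : False :=
  af h false 5 105 33 43 (by decide +kernel) h1 h2 h3

theorem c961 (h : Good α) (h1 : α 105 = true) (h2 : α 33 = true) (h3 : α 43 = true) : False :=
  af h true 5 105 33 43 (by decide +kernel) h1 h2 h3

theorem c962 (h : Good α) (h1 : α 33 = true) (h2 : α 273 = true) (h3 : α 43 = true) (h4 : α 287 = true) : False :=
  rf h true 2 3 1 33 273 43 287 (by decide +kernel) h1 h2 h3 h4

theorem c963 (h : Good α) (h1 : α 33 = true) (h2 : α 506 = true) (h3 : α 43 = true) (h4 : α 522 = true) : False :=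
  rf h true 2 4 1 33 506 43 522 (by decide +kernel) h1 h2 h3 h4

theorem c964 (h : Good α) (h1 : α 111 = true) (h2 : α 33 = true) (h3 : α 45 = true) : False :=
  af h true 1 111 33 45 (by decide +kernel) h1 h2 h3

theorem c965 (h : Good α) (h1 : α 33 = true) (h2 : α 45 = true) (h3 : α 257 = true) (h4 : α 277 = true) : False :=
  rf h true 1 1 3 33 45 257 277 (by decide +kernel) h1 h2 h3 h4

theorem c966 (h : Good α) (h1 : α 33 = true) (h2 : α 45 = true) (h3 : α 487 = true) (h4 : α 516 = true) : False :=
  rf h true 1 1 4 33 45 487 516 (by decide +kernel) h1 h2 h3 h4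

theorem c967 (h : Good α) (h1 : α 153 = true) (h2 : α 196 = true) (h3 : α 33 = true) (h4 : α 65 = true) : False :=
  rf h true 0 1 1 153 196 33 65 (by decide +kernel) h1 h2 h3 h4

theorem c968 (h : Good α) (h1 : α 33 = false) (h2 : α 65 = false) (h3 : α 212 = false) : False :=
  af h false 0 33 65 212 (by decide +kernel) h1 h2 h3

theorem c969 (h : Good α) (h1 : α 283 = false) (h2 : α 33 = false) (h3 : α 338 = false) (h4 : α 91 = false) : False :=
  rf h false 1 2 2 283 33 338 91 (by decide +kernel) h1 h2 h3 h4

theorem c970 (h : Good α) (h1 : α 105 = true) (h2 : α 190 = true) (h3 : α 33 = true) (h4 : α 97 = true) : False :=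
  rf h true 2 2 1 105 190 33 97 (by decide +kernel) h1 h2 h3 h4

theorem c971 (h : Good α) (h1 : α 279 = false) (h2 : α 343 = false) (h3 : α 33 = false) (h4 : α 97 = false) : False :=
  rf h false 2 2 2 279 343 33 97 (by decide +kernel) h1 h2 h3 h4

theorem c972 (h : Good α) (h1 : α 515 = true) (h2 : α 552 = true) (h3 : α 33 = true) (h4 : α 97 = true) : False :=
  rf h true 2 2 3 515 552 33 97 (by decide +kernel) h1 h2 h3 h4

theorem c973 (h : Good α) (h1 : α 105 = false) (h2 : α 347 = false) (h3 : α 33 = false) (h4 : α 273 = false) : False :=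
  rf h false 2 3 1 105 347 33 273 (by decide +kernel) h1 h2 h3 h4

theorem c974 (h : Good α) (h1 : α 279 = true) (h2 : α 105 = true) (h3 : α 33 = true) : False :=
  af h true 5 279 105 33 (by decide +kernel) h1 h2 h3

theorem c975 (h : Good α) (h1 : α 283 = true) (h2 : α 111 = true) (h3 : α 33 = true) : False :=
  af h true 1 283 111 33 (by decide +kernel) h1 h2 h3

theorem c976 (h : Good α) (h1 : α 153 = true) (h2 : α 325 = true) (h3 : α 33 = true) (h4 : α 212 = true) : False :=
  rf h true 0 2 1 153 325 33 212 (by decide +kernel) h1 h2 h3 h4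

theorem c977 (h : Good α) (h1 : α 341 = true) (h2 : α 153 = true) (h3 : α 33 = true) : False :=
  af h true 3 341 153 33 (by decide +kernel) h1 h2 h3

theorem c978 (h : Good α) (h1 : α 341 = false) (h2 : α 494 = false) (h3 : α 33 = false) (h4 : α 212 = false) : False :=
  rf h false 0 2 2 341 494 33 212 (by decide +kernel) h1 h2 h3 h4

theorem c979 (h : Good α) (h1 : α 283 = true) (h2 : α 33 = true) (h3 : α 475 = true) (h4 : α 257 = true) : False :=
  rf h true 1 2 3 283 33 475 257 (by decide +kernel) h1 h2 h3 h4

theorem c980 (h : Good α) (h1 : α 279 = true) (h2 : α 480 = true) (h3 : α 33 = true) (h4 : α 273 = true) : False :=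
  rf h true 2 3 2 279 480 33 273 (by decide +kernel) h1 h2 h3 h4

theorem c981 (h : Good α) (h1 : α 34 = true) (h2 : α 255 = true) (h3 : α 44 = true) (h4 : α 282 = true) : False :=
  rf h true 1 3 1 34 255 44 282 (by decide +kernel) h1 h2 h3 h4

theorem c982 (h : Good α) (h1 : α 34 = true) (h2 : α 491 = true) (h3 : α 44 = true) (h4 : α 510 = true) : False :=
  rf h true 1 4 1 34 491 44 510 (by decide +kernel) h1 h2 h3 h4

theorem c983 (h : Good α) (h1 : α 118 = false) (h2 : α 34 = false) (h3 : α 47 = false) : False :=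
  af h false 0 118 34 47 (by decide +kernel) h1 h2 h3

theorem c984 (h : Good α) (h1 : α 118 = true) (h2 : α 34 = true) (h3 : α 47 = true) : False :=
  af h true 0 118 34 47 (by decide +kernel) h1 h2 h3

theorem c985 (h : Good α) (h1 : α 34 = true) (h2 : α 47 = true) (h3 : α 268 = true) (h4 : α 287 = true) : False :=
  rf h true 0 1 3 34 47 268 287 (by decide +kernel) h1 h2 h3 h4

theorem c986 (h : Good α) (h1 : α 71 = false) (h2 : α 34 = false) (h3 : α 69 = false) : False :=
  af h false 5 71 34 69 (by decide +kernel) h1 h2 h3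

theorem c987 (h : Good α) (h1 : α 34 = false) (h2 : α 69 = false) (h3 : α 208 = false) : False :=
  af h false 5 34 69 208 (by decide +kernel) h1 h2 h3

theorem c988 (h : Good α) (h1 : α 217 = false) (h2 : α 71 = false) (h3 : α 34 = false) : False :=
  af h false 5 217 71 34 (by decide +kernel) h1 h2 h3

theorem c989 (h : Good α) (h1 : α 386 = false) (h2 : α 71 = false) (h3 : α 344 = false) (h4 : α 34 = false) : False :=
  rf h false 2 2 1 386 71 344 34 (by decide +kernel) h1 h2 h3 h4

theorem c990 (h : Good α) (h1 : α 386 = true) (h2 : α 71 = true) (h3 : α 344 = true) (h4 : α 34 = true) : False :=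
  rf h true 2 2 1 386 71 344 34 (by decide +kernel) h1 h2 h3 h4

theorem c991 (h : Good α) (h1 : α 281 = true) (h2 : α 34 = true) (h3 : α 336 = true) (h4 : α 87 = true) : False :=
  rf h true 0 2 2 281 34 336 87 (by decide +kernel) h1 h2 h3 h4

theorem c992 (h : Good α) (h1 : α 523 = true) (h2 : α 34 = true) (h3 : α 555 = true) (h4 : α 87 = true) : False :=
  rf h true 0 3 2 523 34 555 87 (by decide +kernel) h1 h2 h3 h4

theorem c993 (h : Good α) (h1 : α 280 = false) (h2 : α 116 = false) (h3 : α 34 = false) : False :=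
  af h false 4 280 116 34 (by decide +kernel) h1 h2 h3

theorem c994 (h : Good α) (h1 : α 280 = true) (h2 : α 116 = true) (h3 : α 34 = true) : False :=
  af h true 4 280 116 34 (by decide +kernel) h1 h2 h3

theorem c995 (h : Good α) (h1 : α 281 = true) (h2 : α 118 = true) (h3 : α 34 = true) : False :=
  af h true 0 281 118 34 (by decide +kernel) h1 h2 h3

theorem c996 (h : Good α) (h1 : α 344 = true) (h2 : α 155 = true) (h3 : α 34 = true) : False :=
  af h true 2 344 155 34 (by decide +kernel) h1 h2 h3

theorem c997 (h : Good α) (h1 : α 344 = false) (h2 : α 34 = false) (h3 : α 490 = false) (h4 : α 208 = false) : False :=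
  rf h false 2 2 2 344 34 490 208 (by decide +kernel) h1 h2 h3 h4

theorem c998 (h : Good α) (h1 : α 46 = false) (h2 : α 35 = false) (h3 : α 119 = false) : False :=
  af h false 0 46 35 119 (by decide +kernel) h1 h2 h3

theorem c999 (h : Good α) (h1 : α 46 = true) (h2 : α 35 = true) (h3 : α 119 = true) : False :=
  af h true 0 46 35 119 (by decide +kernel) h1 h2 h3

theorem c1000 (h : Good α) (h1 : α 286 = true) (h2 : α 269 = true) (h3 : α 46 = true) (h4 : α 35 = true) : False :=
  rf h true 0 1 3 286 269 46 35 (by decide +kernel) h1 h2 h3 h4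

theorem c1001 (h : Good α) (h1 : α 72 = false) (h2 : α 35 = false) (h3 : α 70 = false) : False :=
  af h false 5 72 35 70 (by decide +kernel) h1 h2 h3

theorem c1002 (h : Good α) (h1 : α 72 = true) (h2 : α 35 = true) (h3 : α 70 = true) : False :=
  af h true 5 72 35 70 (by decide +kernel) h1 h2 h3

theorem c1003 (h : Good α) (h1 : α 35 = false) (h2 : α 156 = false) (h3 : α 70 = false) (h4 : α 201 = false) : False :=
  rf h false 2 1 1 35 156 70 201 (by decide +kernel) h1 h2 h3 h4

theorem c1004 (h : Good α) (h1 : α 35 = true) (h2 : α 156 = true) (h3 : α 70 = true) (h4 : α 201 = true) : False :=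
  rf h true 2 1 1 35 156 70 201 (by decide +kernel) h1 h2 h3 h4

theorem c1005 (h : Good α) (h1 : α 35 = false) (h2 : α 70 = false) (h3 : α 216 = false) : False :=
  af h false 5 35 70 216 (by decide +kernel) h1 h2 h3

theorem c1006 (h : Good α) (h1 : α 35 = false) (h2 : α 345 = false) (h3 : α 70 = false) (h4 : α 387 = false) : False :=
  rf h false 2 2 1 35 345 70 387 (by decide +kernel) h1 h2 h3 h4

theorem c1007 (h : Good α) (h1 : α 209 = false) (h2 : α 72 = false) (h3 : α 35 = false) : False :=
  af h false 5 209 72 35 (by decide +kernel) h1 h2 h3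

theorem c1008 (h : Good α) (h1 : α 254 = false) (h2 : α 35 = false) (h3 : α 338 = false) (h4 : α 115 = false) : False :=
  rf h false 1 3 1 254 35 338 115 (by decide +kernel) h1 h2 h3 h4

theorem c1009 (h : Good α) (h1 : α 35 = false) (h2 : α 119 = false) (h3 : α 284 = false) : False :=
  af h false 0 35 119 284 (by decide +kernel) h1 h2 h3

theorem c1010 (h : Good α) (h1 : α 498 = true) (h2 : α 562 = true) (h3 : α 35 = true) (h4 : α 119 = true) : False :=
  rf h true 0 1 4 498 562 35 119 (by decide +kernel) h1 h2 h3 h4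

theorem c1011 (h : Good α) (h1 : α 35 = true) (h2 : α 156 = true) (h3 : α 345 = true) : False :=
  af h true 2 35 156 345 (by decide +kernel) h1 h2 h3

theorem c1012 (h : Good α) (h1 : α 254 = true) (h2 : α 35 = true) (h3 : α 475 = true) (h4 : α 277 = true) : False :=
  rf h true 1 3 2 254 35 475 277 (by decide +kernel) h1 h2 h3 h4

theorem c1013 (h : Good α) (h1 : α 41 = false) (h2 : α 36 = false) (h3 : α 114 = false) : False :=
  af h false 5 41 36 114 (by decide +kernel) h1 h2 h3

theorem c1014 (h : Good α) (h1 : α 41 = true) (h2 : α 36 = true) (h3 : α 114 = true) : False :=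
  af h true 5 41 36 114 (by decide +kernel) h1 h2 h3

theorem c1015 (h : Good α) (h1 : α 41 = false) (h2 : α 282 = false) (h3 : α 36 = false) (h4 : α 267 = false) : False :=
  rf h false 2 3 1 41 282 36 267 (by decide +kernel) h1 h2 h3 h4

theorem c1016 (h : Good α) (h1 : α 41 = true) (h2 : α 282 = true) (h3 : α 36 = true) (h4 : α 267 = true) : False :=
  rf h true 2 3 1 41 282 36 267 (by decide +kernel) h1 h2 h3 h4

theorem c1017 (h : Good α) (h1 : α 41 = true) (h2 : α 513 = true) (h3 : α 36 = true) (h4 : α 497 = true) : False :=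
  rf h true 2 4 1 41 513 36 497 (by decide +kernel) h1 h2 h3 h4

theorem c1018 (h : Good α) (h1 : α 36 = true) (h2 : α 93 = true) (h3 : α 46 = true) (h4 : α 119 = true) : False :=
  rf h true 0 2 1 36 93 46 119 (by decide +kernel) h1 h2 h3 h4

theorem c1019 (h : Good α) (h1 : α 120 = false) (h2 : α 36 = false) (h3 : α 46 = false) : False :=
  af h false 3 120 36 46 (by decide +kernel) h1 h2 h3

theorem c1020 (h : Good α) (h1 : α 36 = false) (h2 : α 256 = false) (h3 : α 46 = false) (h4 : α 284 = false) : False :=
  rf h false 0 3 1 36 256 46 284 (by decide +kernel) h1 h2 h3 h4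

theorem c1021 (h : Good α) (h1 : α 36 = true) (h2 : α 256 = true) (h3 : α 46 = true) (h4 : α 284 = true) : False :=
  rf h true 0 3 1 36 256 46 284 (by decide +kernel) h1 h2 h3 h4

theorem c1022 (h : Good α) (h1 : α 77 = false) (h2 : α 36 = false) (h3 : α 74 = false) : False :=
  af h false 4 77 36 74 (by decide +kernel) h1 h2 h3

theorem c1023 (h : Good α) (h1 : α 77 = true) (h2 : α 36 = true) (h3 : α 74 = true) : False :=
  af h true 4 77 36 74 (by decide +kernel) h1 h2 h3

theorem c1024 (h : Good α) (h1 : α 154 = true) (h2 : α 36 = true) (h3 : α 197 = true) (h4 : α 74 = true) : False :=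
  rf h true 1 1 1 154 36 197 74 (by decide +kernel) h1 h2 h3 h4

theorem c1025 (h : Good α) (h1 : α 36 = false) (h2 : α 74 = false) (h3 : α 213 = false) : False :=
  af h false 4 36 74 213 (by decide +kernel) h1 h2 h3

theorem c1026 (h : Good α) (h1 : α 36 = true) (h2 : α 74 = true) (h3 : α 213 = true) : False :=
  af h true 4 36 74 213 (by decide +kernel) h1 h2 h3

theorem c1027 (h : Good α) (h1 : α 346 = false) (h2 : α 36 = false) (h3 : α 392 = false) (h4 : α 74 = false) : False :=
  rf h false 1 2 1 346 36 392 74 (by decide +kernel) h1 h2 h3 h4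

theorem c1028 (h : Good α) (h1 : α 199 = true) (h2 : α 77 = true) (h3 : α 154 = true) (h4 : α 36 = true) : False :=
  rf h true 1 1 1 199 77 154 36 (by decide +kernel) h1 h2 h3 h4

theorem c1029 (h : Good α) (h1 : α 120 = false) (h2 : α 182 = false) (h3 : α 36 = false) (h4 : α 93 = false) : False :=
  rf h false 0 2 1 120 182 36 93 (by decide +kernel) h1 h2 h3 h4

theorem c1030 (h : Good α) (h1 : α 286 = false) (h2 : α 342 = false) (h3 : α 36 = false) (h4 : α 93 = false) : False :=
  rf h false 0 2 2 286 342 36 93 (by decide +kernel) h1 h2 h3 h4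

theorem c1031 (h : Good α) (h1 : α 524 = true) (h2 : α 562 = true) (h3 : α 36 = true) (h4 : α 93 = true) : False :=
  rf h true 0 2 3 524 562 36 93 (by decide +kernel) h1 h2 h3 h4

theorem c1032 (h : Good α) (h1 : α 36 = false) (h2 : α 95 = false) (h3 : α 114 = false) (h4 : α 183 = false) : False :=
  rf h false 2 2 1 36 95 114 183 (by decide +kernel) h1 h2 h3 h4

theorem c1033 (h : Good α) (h1 : α 36 = true) (h2 : α 95 = true) (h3 : α 285 = true) (h4 : α 339 = true) : False :=
  rf h true 2 2 2 36 95 285 339 (by decide +kernel) h1 h2 h3 h4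

theorem c1034 (h : Good α) (h1 : α 36 = true) (h2 : α 95 = true) (h3 : α 518 = true) (h4 : α 560 = true) : False :=
  rf h true 2 2 3 36 95 518 560 (by decide +kernel) h1 h2 h3 h4

theorem c1035 (h : Good α) (h1 : α 36 = false) (h2 : α 267 = false) (h3 : α 114 = false) (h4 : α 340 = false) : False :=
  rf h false 2 3 1 36 267 114 340 (by decide +kernel) h1 h2 h3 h4

theorem c1036 (h : Good α) (h1 : α 36 = false) (h2 : α 114 = false) (h3 : α 285 = false) : False :=
  af h false 5 36 114 285 (by decide +kernel) h1 h2 h3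

theorem c1037 (h : Good α) (h1 : α 36 = true) (h2 : α 114 = true) (h3 : α 285 = true) : False :=
  af h true 5 36 114 285 (by decide +kernel) h1 h2 h3

theorem c1038 (h : Good α) (h1 : α 286 = false) (h2 : α 120 = false) (h3 : α 36 = false) : False :=
  af h false 3 286 120 36 (by decide +kernel) h1 h2 h3

theorem c1039 (h : Good α) (h1 : α 286 = true) (h2 : α 120 = true) (h3 : α 36 = true) : False :=
  af h true 3 286 120 36 (by decide +kernel) h1 h2 h3

theorem c1040 (h : Good α) (h1 : α 120 = false) (h2 : α 557 = false) (h3 : α 36 = false) (h4 : α 501 = false) : False :=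
  rf h false 0 4 1 120 557 36 501 (by decide +kernel) h1 h2 h3 h4

theorem c1041 (h : Good α) (h1 : α 154 = true) (h2 : α 36 = true) (h3 : α 326 = true) (h4 : α 213 = true) : False :=
  rf h true 1 1 2 154 36 326 213 (by decide +kernel) h1 h2 h3 h4

theorem c1042 (h : Good α) (h1 : α 346 = true) (h2 : α 154 = true) (h3 : α 36 = true) : False :=
  af h true 1 346 154 36 (by decide +kernel) h1 h2 h3

theorem c1043 (h : Good α) (h1 : α 286 = false) (h2 : α 482 = false) (h3 : α 36 = false) (h4 : α 256 = false) : False :=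
  rf h false 0 3 2 286 482 36 256 (by decide +kernel) h1 h2 h3 h4

theorem c1044 (h : Good α) (h1 : α 286 = true) (h2 : α 482 = true) (h3 : α 36 = true) (h4 : α 256 = true) : False :=
  rf h true 0 3 2 286 482 36 256 (by decide +kernel) h1 h2 h3 h4

theorem c1045 (h : Good α) (h1 : α 36 = true) (h2 : α 267 = true) (h3 : α 285 = true) (h4 : α 478 = true) : False :=
  rf h true 2 3 2 36 267 285 478 (by decide +kernel) h1 h2 h3 h4

theorem c1046 (h : Good α) (h1 : α 96 = false) (h2 : α 37 = false) (h3 : α 110 = false) (h4 : α 42 = false) : False :=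
  rf h false 2 2 1 96 37 110 42 (by decide +kernel) h1 h2 h3 h4

theorem c1047 (h : Good α) (h1 : α 117 = true) (h2 : α 37 = true) (h3 : α 42 = true) : False :=
  af h true 5 117 37 42 (by decide +kernel) h1 h2 h3

theorem c1048 (h : Good α) (h1 : α 270 = true) (h2 : α 37 = true) (h3 : α 283 = true) (h4 : α 42 = true) : False :=
  rf h true 2 3 1 270 37 283 42 (by decide +kernel) h1 h2 h3 h4

theorem c1049 (h : Good α) (h1 : α 499 = false) (h2 : α 37 = false) (h3 : α 514 = false) (h4 : α 42 = false) : False :=
  rf h false 2 4 1 499 37 514 42 (by decide +kernel) h1 h2 h3 h4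

theorem c1050 (h : Good α) (h1 : α 47 = false) (h2 : α 37 = false) (h3 : α 121 = false) : False :=
  af h false 3 47 37 121 (by decide +kernel) h1 h2 h3

theorem c1051 (h : Good α) (h1 : α 281 = true) (h2 : α 47 = true) (h3 : α 253 = true) (h4 : α 37 = true) : False :=
  rf h true 0 3 1 281 47 253 37 (by decide +kernel) h1 h2 h3 h4

theorem c1052 (h : Good α) (h1 : α 37 = false) (h2 : α 76 = false) (h3 : α 214 = false) : False :=
  af h false 4 37 76 214 (by decide +kernel) h1 h2 h3

theorem c1053 (h : Good α) (h1 : α 37 = true) (h2 : α 76 = true) (h3 : α 214 = true) : False :=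
  af h true 4 37 76 214 (by decide +kernel) h1 h2 h3

theorem c1054 (h : Good α) (h1 : α 79 = false) (h2 : α 204 = false) (h3 : α 37 = false) (h4 : α 157 = false) : False :=
  rf h false 1 1 1 79 204 37 157 (by decide +kernel) h1 h2 h3 h4

theorem c1055 (h : Good α) (h1 : α 220 = false) (h2 : α 79 = false) (h3 : α 37 = false) : False :=
  af h false 4 220 79 37 (by decide +kernel) h1 h2 h3

theorem c1056 (h : Good α) (h1 : α 220 = true) (h2 : α 79 = true) (h3 : α 37 = true) : False :=
  af h true 4 220 79 37 (by decide +kernel) h1 h2 h3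

theorem c1057 (h : Good α) (h1 : α 90 = true) (h2 : α 37 = true) (h3 : α 181 = true) (h4 : α 121 = true) : False :=
  rf h true 0 2 1 90 37 181 121 (by decide +kernel) h1 h2 h3 h4

theorem c1058 (h : Good α) (h1 : α 90 = true) (h2 : α 37 = true) (h3 : α 339 = true) (h4 : α 287 = true) : False :=
  rf h true 0 2 2 90 37 339 287 (by decide +kernel) h1 h2 h3 h4

theorem c1059 (h : Good α) (h1 : α 184 = true) (h2 : α 117 = true) (h3 : α 96 = true) (h4 : α 37 = true) : False :=
  rf h true 2 2 1 184 117 96 37 (by decide +kernel) h1 h2 h3 h4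

theorem c1060 (h : Good α) (h1 : α 288 = false) (h2 : α 117 = false) (h3 : α 37 = false) : False :=
  af h false 5 288 117 37 (by decide +kernel) h1 h2 h3

theorem c1061 (h : Good α) (h1 : α 37 = false) (h2 : α 121 = false) (h3 : α 287 = false) : False :=
  af h false 3 37 121 287 (by decide +kernel) h1 h2 h3

theorem c1062 (h : Good α) (h1 : α 37 = true) (h2 : α 121 = true) (h3 : α 287 = true) : False :=
  af h true 3 37 121 287 (by decide +kernel) h1 h2 h3

theorem c1063 (h : Good α) (h1 : α 37 = false) (h2 : α 145 = false) (h3 : α 287 = false) (h4 : α 375 = false) : False :=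
  rf h false 0 1 2 37 145 287 375 (by decide +kernel) h1 h2 h3 h4

theorem c1064 (h : Good α) (h1 : α 37 = false) (h2 : α 157 = false) (h3 : α 214 = false) (h4 : α 314 = false) : False :=
  rf h false 1 1 2 37 157 214 314 (by decide +kernel) h1 h2 h3 h4

theorem c1065 (h : Good α) (h1 : α 37 = false) (h2 : α 157 = false) (h3 : α 347 = false) : False :=
  af h false 1 37 157 347 (by decide +kernel) h1 h2 h3

theorem c1066 (h : Good α) (h1 : α 37 = true) (h2 : α 157 = true) (h3 : α 347 = true) : False :=
  af h true 1 37 157 347 (by decide +kernel) h1 h2 h3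

theorem c1067 (h : Good α) (h1 : α 38 = false) (h2 : α 98 = false) (h3 : α 257 = false) : False :=
  af h false 5 38 98 257 (by decide +kernel) h1 h2 h3

theorem c1068 (h : Good α) (h1 : α 38 = true) (h2 : α 98 = true) (h3 : α 257 = true) : False :=
  af h true 5 38 98 257 (by decide +kernel) h1 h2 h3

theorem c1069 (h : Good α) (h1 : α 344 = true) (h2 : α 100 = true) (h3 : α 281 = true) (h4 : α 38 = true) : False :=
  rf h true 1 3 2 344 100 281 38 (by decide +kernel) h1 h2 h3 h4

theorem c1070 (h : Good α) (h1 : α 568 = true) (h2 : α 100 = true) (h3 : α 529 = true) (h4 : α 38 = true) : False :=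
  rf h true 1 4 2 568 100 529 38 (by decide +kernel) h1 h2 h3 h4

theorem c1071 (h : Good α) (h1 : α 341 = true) (h2 : α 279 = true) (h3 : α 106 = true) (h4 : α 38 = true) : False :=
  rf h true 1 2 3 341 279 106 38 (by decide +kernel) h1 h2 h3 h4

theorem c1072 (h : Good α) (h1 : α 38 = true) (h2 : α 109 = true) (h3 : α 255 = true) : False :=
  af h true 0 38 109 255 (by decide +kernel) h1 h2 h3

theorem c1073 (h : Good α) (h1 : α 38 = false) (h2 : α 163 = false) (h3 : α 365 = false) : False :=
  af h false 3 38 163 365 (by decide +kernel) h1 h2 h3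

theorem c1074 (h : Good α) (h1 : α 38 = true) (h2 : α 480 = true) (h3 : α 163 = true) (h4 : α 581 = true) : False :=
  rf h true 0 3 1 38 480 163 581 (by decide +kernel) h1 h2 h3 h4

theorem c1075 (h : Good α) (h1 : α 38 = false) (h2 : α 357 = false) (h3 : α 257 = false) (h4 : α 550 = false) : False :=
  rf h false 2 2 2 38 357 257 550 (by decide +kernel) h1 h2 h3 h4

theorem c1076 (h : Good α) (h1 : α 39 = false) (h2 : α 113 = false) (h3 : α 99 = false) (h4 : α 189 = false) : False :=
  rf h false 1 2 2 39 113 99 189 (by decide +kernel) h1 h2 h3 h4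

theorem c1077 (h : Good α) (h1 : α 39 = true) (h2 : α 284 = true) (h3 : α 99 = true) (h4 : α 345 = true) : False :=
  rf h true 1 3 2 39 284 99 345 (by decide +kernel) h1 h2 h3 h4

theorem c1078 (h : Good α) (h1 : α 264 = false) (h2 : α 101 = false) (h3 : α 39 = false) : False :=
  af h false 5 264 101 39 (by decide +kernel) h1 h2 h3

theorem c1079 (h : Good α) (h1 : α 264 = true) (h2 : α 101 = true) (h3 : α 39 = true) : False :=
  af h true 5 264 101 39 (by decide +kernel) h1 h2 h3

theorem c1080 (h : Good α) (h1 : α 254 = false) (h2 : α 110 = false) (h3 : α 39 = false) : False :=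
  af h false 0 254 110 39 (by decide +kernel) h1 h2 h3

theorem c1081 (h : Good α) (h1 : α 254 = true) (h2 : α 110 = true) (h3 : α 39 = true) : False :=
  af h true 0 254 110 39 (by decide +kernel) h1 h2 h3

theorem c1082 (h : Good α) (h1 : α 39 = false) (h2 : α 113 = false) (h3 : α 278 = false) (h4 : α 340 = false) : False :=
  rf h false 1 2 3 39 113 278 340 (by decide +kernel) h1 h2 h3 h4

theorem c1083 (h : Good α) (h1 : α 39 = true) (h2 : α 113 = true) (h3 : α 278 = true) (h4 : α 340 = true) : False :=
  rf h true 1 2 3 39 113 278 340 (by decide +kernel) h1 h2 h3 h4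

theorem c1084 (h : Good α) (h1 : α 39 = false) (h2 : α 113 = false) (h3 : α 511 = false) (h4 : α 550 = false) : False :=
  rf h false 1 2 4 39 113 511 550 (by decide +kernel) h1 h2 h3 h4

theorem c1085 (h : Good α) (h1 : α 39 = true) (h2 : α 113 = true) (h3 : α 511 = true) (h4 : α 550 = true) : False :=
  rf h true 1 2 4 39 113 511 550 (by decide +kernel) h1 h2 h3 h4

theorem c1086 (h : Good α) (h1 : α 385 = true) (h2 : α 164 = true) (h3 : α 254 = true) (h4 : α 39 = true) : False :=
  rf h true 0 2 1 385 164 254 39 (by decide +kernel) h1 h2 h3 h4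

theorem c1087 (h : Good α) (h1 : α 366 = false) (h2 : α 164 = false) (h3 : α 39 = false) : False :=
  af h false 3 366 164 39 (by decide +kernel) h1 h2 h3

theorem c1088 (h : Good α) (h1 : α 580 = false) (h2 : α 164 = false) (h3 : α 477 = false) (h4 : α 39 = false) : False :=
  rf h false 0 3 1 580 164 477 39 (by decide +kernel) h1 h2 h3 h4

theorem c1089 (h : Good α) (h1 : α 580 = true) (h2 : α 164 = true) (h3 : α 477 = true) (h4 : α 39 = true) : False :=
  rf h true 0 3 1 580 164 477 39 (by decide +kernel) h1 h2 h3 h4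

theorem c1090 (h : Good α) (h1 : α 573 = true) (h2 : α 482 = true) (h3 : α 169 = true) (h4 : α 39 = true) : False :=
  rf h true 2 1 3 573 482 169 39 (by decide +kernel) h1 h2 h3 h4

theorem c1091 (h : Good α) (h1 : α 107 = false) (h2 : α 40 = false) (h3 : α 187 = false) (h4 : α 102 = false) : False :=
  rf h false 2 2 2 107 40 187 102 (by decide +kernel) h1 h2 h3 h4

theorem c1092 (h : Good α) (h1 : α 286 = true) (h2 : α 40 = true) (h3 : α 346 = true) (h4 : α 102 = true) : False :=
  rf h true 2 3 2 286 40 346 102 (by decide +kernel) h1 h2 h3 h4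

theorem c1093 (h : Good α) (h1 : α 521 = false) (h2 : α 40 = false) (h3 : α 567 = false) (h4 : α 102 = false) : False :=
  rf h false 2 4 2 521 40 567 102 (by decide +kernel) h1 h2 h3 h4

theorem c1094 (h : Good α) (h1 : α 521 = true) (h2 : α 40 = true) (h3 : α 567 = true) (h4 : α 102 = true) : False :=
  rf h true 2 4 2 521 40 567 102 (by decide +kernel) h1 h2 h3 h4

theorem c1095 (h : Good α) (h1 : α 262 = false) (h2 : α 104 = false) (h3 : α 40 = false) : False :=
  af h false 4 262 104 40 (by decide +kernel) h1 h2 h3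

theorem c1096 (h : Good α) (h1 : α 262 = true) (h2 : α 104 = true) (h3 : α 40 = true) : False :=
  af h true 4 262 104 40 (by decide +kernel) h1 h2 h3

theorem c1097 (h : Good α) (h1 : α 107 = false) (h2 : α 40 = false) (h3 : α 338 = false) (h4 : α 278 = false) : False :=
  rf h false 2 2 3 107 40 338 278 (by decide +kernel) h1 h2 h3 h4

theorem c1098 (h : Good α) (h1 : α 107 = true) (h2 : α 40 = true) (h3 : α 338 = true) (h4 : α 278 = true) : False :=
  rf h true 2 2 3 107 40 338 278 (by decide +kernel) h1 h2 h3 h4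

theorem c1099 (h : Good α) (h1 : α 40 = false) (h2 : α 108 = false) (h3 : α 267 = false) : False :=
  af h false 3 40 108 267 (by decide +kernel) h1 h2 h3

theorem c1100 (h : Good α) (h1 : α 40 = true) (h2 : α 108 = true) (h3 : α 267 = true) : False :=
  af h true 3 40 108 267 (by decide +kernel) h1 h2 h3

theorem c1101 (h : Good α) (h1 : α 262 = false) (h2 : α 382 = false) (h3 : α 40 = false) (h4 : α 167 = false) : False :=
  rf h false 1 1 2 262 382 40 167 (by decide +kernel) h1 h2 h3 h4

theorem c1102 (h : Good α) (h1 : α 40 = false) (h2 : α 167 = false) (h3 : α 359 = false) : False :=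
  af h false 1 40 167 359 (by decide +kernel) h1 h2 h3

theorem c1103 (h : Good α) (h1 : α 40 = true) (h2 : α 167 = true) (h3 : α 359 = true) : False :=
  af h true 1 40 167 359 (by decide +kernel) h1 h2 h3

theorem c1104 (h : Good α) (h1 : α 482 = true) (h2 : α 575 = true) (h3 : α 40 = true) (h4 : α 167 = true) : False :=
  rf h true 1 1 3 482 575 40 167 (by decide +kernel) h1 h2 h3 h4

theorem c1105 (h : Good α) (h1 : α 40 = true) (h2 : α 177 = true) (h3 : α 483 = true) (h4 : α 582 = true) : False :=
  rf h true 0 1 3 40 177 483 582 (by decide +kernel) h1 h2 h3 h4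

theorem c1106 (h : Good α) (h1 : α 41 = false) (h2 : α 109 = false) (h3 : α 114 = false) (h4 : α 183 = false) : False :=
  rf h false 2 2 2 41 109 114 183 (by decide +kernel) h1 h2 h3 h4

theorem c1107 (h : Good α) (h1 : α 41 = true) (h2 : α 109 = true) (h3 : α 114 = true) (h4 : α 183 = true) : False :=
  rf h true 2 2 2 41 109 114 183 (by decide +kernel) h1 h2 h3 h4

theorem c1108 (h : Good α) (h1 : α 41 = true) (h2 : α 109 = true) (h3 : α 285 = true) (h4 : α 339 = true) : False :=
  rf h true 2 2 3 41 109 285 339 (by decide +kernel) h1 h2 h3 h4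

theorem c1109 (h : Good α) (h1 : α 41 = true) (h2 : α 109 = true) (h3 : α 518 = true) (h4 : α 560 = true) : False :=
  rf h true 2 2 4 41 109 518 560 (by decide +kernel) h1 h2 h3 h4

theorem c1110 (h : Good α) (h1 : α 41 = false) (h2 : α 282 = false) (h3 : α 114 = false) (h4 : α 340 = false) : False :=
  rf h false 2 3 2 41 282 114 340 (by decide +kernel) h1 h2 h3 h4

theorem c1111 (h : Good α) (h1 : α 41 = true) (h2 : α 282 = true) (h3 : α 114 = true) (h4 : α 340 = true) : False :=
  rf h true 2 3 2 41 282 114 340 (by decide +kernel) h1 h2 h3 h4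

theorem c1112 (h : Good α) (h1 : α 41 = false) (h2 : α 513 = false) (h3 : α 114 = false) (h4 : α 558 = false) : False :=
  rf h false 2 4 2 41 513 114 558 (by decide +kernel) h1 h2 h3 h4

theorem c1113 (h : Good α) (h1 : α 41 = true) (h2 : α 513 = true) (h3 : α 114 = true) (h4 : α 558 = true) : False :=
  rf h true 2 4 2 41 513 114 558 (by decide +kernel) h1 h2 h3 h4

theorem c1114 (h : Good α) (h1 : α 272 = false) (h2 : α 120 = false) (h3 : α 41 = false) : False :=
  af h false 1 272 120 41 (by decide +kernel) h1 h2 h3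

theorem c1115 (h : Good α) (h1 : α 272 = true) (h2 : α 120 = true) (h3 : α 41 = true) : False :=
  af h true 1 272 120 41 (by decide +kernel) h1 h2 h3

theorem c1116 (h : Good α) (h1 : α 398 = true) (h2 : α 160 = true) (h3 : α 272 = true) (h4 : α 41 = true) : False :=
  rf h true 1 2 1 398 160 272 41 (by decide +kernel) h1 h2 h3 h4

theorem c1117 (h : Good α) (h1 : α 369 = false) (h2 : α 175 = false) (h3 : α 41 = false) : False :=
  af h false 3 369 175 41 (by decide +kernel) h1 h2 h3

theorem c1118 (h : Good α) (h1 : α 175 = true) (h2 : α 575 = true) (h3 : α 41 = true) (h4 : α 476 = true) : False :=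
  rf h true 0 3 1 175 575 41 476 (by decide +kernel) h1 h2 h3 h4

theorem c1119 (h : Good α) (h1 : α 258 = false) (h2 : α 99 = false) (h3 : α 42 = false) : False :=
  af h false 0 258 99 42 (by decide +kernel) h1 h2 h3

theorem c1120 (h : Good α) (h1 : α 342 = true) (h2 : α 288 = true) (h3 : α 110 = true) (h4 : α 42 = true) : False :=
  rf h true 2 2 3 342 288 110 42 (by decide +kernel) h1 h2 h3 h4

theorem c1121 (h : Good α) (h1 : α 341 = true) (h2 : α 117 = true) (h3 : α 283 = true) (h4 : α 42 = true) : False :=
  rf h true 2 3 2 341 117 283 42 (by decide +kernel) h1 h2 h3 h4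

theorem c1122 (h : Good α) (h1 : α 42 = false) (h2 : α 273 = false) (h3 : α 358 = false) (h4 : α 558 = false) : False :=
  rf h false 1 2 2 42 273 358 558 (by decide +kernel) h1 h2 h3 h4

theorem c1123 (h : Good α) (h1 : α 270 = false) (h2 : α 111 = false) (h3 : α 43 = false) : False :=
  af h false 3 270 111 43 (by decide +kernel) h1 h2 h3

theorem c1124 (h : Good α) (h1 : α 279 = false) (h2 : α 343 = false) (h3 : α 43 = false) (h4 : α 112 = false) : False :=
  rf h false 2 2 3 279 343 43 112 (by decide +kernel) h1 h2 h3 h4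

theorem c1125 (h : Good α) (h1 : α 372 = false) (h2 : α 176 = false) (h3 : α 43 = false) : False :=
  af h false 0 372 176 43 (by decide +kernel) h1 h2 h3

theorem c1126 (h : Good α) (h1 : α 567 = false) (h2 : α 270 = false) (h3 : α 372 = false) (h4 : α 43 = false) : False :=
  rf h false 0 2 2 567 270 372 43 (by decide +kernel) h1 h2 h3 h4

theorem c1127 (h : Good α) (h1 : α 44 = false) (h2 : α 102 = false) (h3 : α 260 = false) : False :=
  af h false 3 44 102 260 (by decide +kernel) h1 h2 h3

theorem c1128 (h : Good α) (h1 : α 44 = true) (h2 : α 102 = true) (h3 : α 260 = true) : False :=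
  af h true 3 44 102 260 (by decide +kernel) h1 h2 h3

theorem c1129 (h : Good α) (h1 : α 520 = true) (h2 : α 554 = true) (h3 : α 44 = true) (h4 : α 108 = true) : False :=
  rf h true 1 2 4 520 554 44 108 (by decide +kernel) h1 h2 h3 h4

theorem c1130 (h : Good α) (h1 : α 116 = true) (h2 : α 343 = true) (h3 : α 44 = true) (h4 : α 282 = true) : False :=
  rf h true 1 3 2 116 343 44 282 (by decide +kernel) h1 h2 h3 h4

theorem c1131 (h : Good α) (h1 : α 118 = true) (h2 : α 44 = true) (h3 : α 251 = true) (h4 : α 170 = true) : False :=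
  rf h true 2 1 1 118 44 251 170 (by decide +kernel) h1 h2 h3 h4

theorem c1132 (h : Good α) (h1 : α 271 = false) (h2 : α 118 = false) (h3 : α 44 = false) : False :=
  af h false 2 271 118 44 (by decide +kernel) h1 h2 h3

theorem c1133 (h : Good α) (h1 : α 44 = false) (h2 : α 170 = false) (h3 : α 355 = false) : False :=
  af h false 5 44 170 355 (by decide +kernel) h1 h2 h3

theorem c1134 (h : Good α) (h1 : α 485 = true) (h2 : α 44 = true) (h3 : α 580 = true) (h4 : α 170 = true) : False :=
  rf h true 2 3 1 485 44 580 170 (by decide +kernel) h1 h2 h3 h4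

theorem c1135 (h : Good α) (h1 : α 261 = false) (h2 : α 105 = false) (h3 : α 45 = false) : False :=
  af h false 3 261 105 45 (by decide +kernel) h1 h2 h3

theorem c1136 (h : Good α) (h1 : α 114 = true) (h2 : α 46 = true) (h3 : α 237 = true) (h4 : α 162 = true) : False :=
  rf h true 1 1 1 114 46 237 162 (by decide +kernel) h1 h2 h3 h4

theorem c1137 (h : Good α) (h1 : α 275 = false) (h2 : α 114 = false) (h3 : α 46 = false) : False :=
  af h false 1 275 114 46 (by decide +kernel) h1 h2 h3

theorem c1138 (h : Good α) (h1 : α 114 = true) (h2 : α 46 = true) (h3 : α 423 = true) (h4 : α 361 = true) : False :=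
  rf h true 1 1 2 114 46 423 361 (by decide +kernel) h1 h2 h3 h4

theorem c1139 (h : Good α) (h1 : α 46 = true) (h2 : α 115 = true) (h3 : α 158 = true) (h4 : α 233 = true) : False :=
  rf h true 2 1 1 46 115 158 233 (by decide +kernel) h1 h2 h3 h4

theorem c1140 (h : Good α) (h1 : α 286 = true) (h2 : α 342 = true) (h3 : α 46 = true) (h4 : α 119 = true) : False :=
  rf h true 0 2 3 286 342 46 119 (by decide +kernel) h1 h2 h3 h4

theorem c1141 (h : Good α) (h1 : α 120 = false) (h2 : α 557 = false) (h3 : α 46 = false) (h4 : α 526 = false) : False :=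
  rf h false 0 4 2 120 557 46 526 (by decide +kernel) h1 h2 h3 h4

theorem c1142 (h : Good α) (h1 : α 46 = true) (h2 : α 265 = true) (h3 : α 158 = true) (h4 : α 378 = true) : False :=
  rf h true 2 2 1 46 265 158 378 (by decide +kernel) h1 h2 h3 h4

theorem c1143 (h : Good α) (h1 : α 46 = true) (h2 : α 158 = true) (h3 : α 362 = true) : False :=
  af h true 5 46 158 362 (by decide +kernel) h1 h2 h3

theorem c1144 (h : Good α) (h1 : α 46 = true) (h2 : α 483 = true) (h3 : α 158 = true) (h4 : α 576 = true) : False :=
  rf h true 2 3 1 46 483 158 576 (by decide +kernel) h1 h2 h3 h4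

theorem c1145 (h : Good α) (h1 : α 477 = true) (h2 : α 46 = true) (h3 : α 578 = true) (h4 : α 162 = true) : False :=
  rf h true 1 3 1 477 46 578 162 (by decide +kernel) h1 h2 h3 h4

theorem c1146 (h : Good α) (h1 : α 236 = false) (h2 : α 161 = false) (h3 : α 116 = false) (h4 : α 47 = false) : False :=
  rf h false 2 1 1 236 161 116 47 (by decide +kernel) h1 h2 h3 h4

theorem c1147 (h : Good α) (h1 : α 236 = true) (h2 : α 161 = true) (h3 : α 116 = true) (h4 : α 47 = true) : False :=
  rf h true 2 1 1 236 161 116 47 (by decide +kernel) h1 h2 h3 h4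

theorem c1148 (h : Good α) (h1 : α 266 = false) (h2 : α 116 = false) (h3 : α 47 = false) : False :=
  af h false 2 266 116 47 (by decide +kernel) h1 h2 h3

theorem c1149 (h : Good α) (h1 : α 165 = false) (h2 : α 238 = false) (h3 : α 47 = false) (h4 : α 117 = false) : False :=
  rf h false 1 1 1 165 238 47 117 (by decide +kernel) h1 h2 h3 h4

theorem c1150 (h : Good α) (h1 : α 47 = false) (h2 : α 117 = false) (h3 : α 276 = false) : False :=
  af h false 1 47 117 276 (by decide +kernel) h1 h2 h3

theorem c1151 (h : Good α) (h1 : α 47 = true) (h2 : α 117 = true) (h3 : α 276 = true) : False :=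
  af h true 1 47 117 276 (by decide +kernel) h1 h2 h3

theorem c1152 (h : Good α) (h1 : α 364 = false) (h2 : α 424 = false) (h3 : α 47 = false) (h4 : α 117 = false) : False :=
  rf h false 1 1 2 364 424 47 117 (by decide +kernel) h1 h2 h3 h4

theorem c1153 (h : Good α) (h1 : α 281 = true) (h2 : α 47 = true) (h3 : α 336 = true) (h4 : α 121 = true) : False :=
  rf h true 0 3 2 281 47 336 121 (by decide +kernel) h1 h2 h3 h4

theorem c1154 (h : Good α) (h1 : α 577 = true) (h2 : α 161 = true) (h3 : α 484 = true) (h4 : α 47 = true) : False :=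
  rf h true 2 3 1 577 161 484 47 (by decide +kernel) h1 h2 h3 h4

theorem c1155 (h : Good α) (h1 : α 48 = true) (h2 : α 104 = true) (h3 : α 277 = true) (h4 : α 345 = true) : False :=
  rf h true 0 2 3 48 104 277 345 (by decide +kernel) h1 h2 h3 h4

theorem c1156 (h : Good α) (h1 : α 173 = false) (h2 : α 48 = false) (h3 : α 249 = false) (h4 : α 106 = false) : False :=
  rf h false 2 1 1 173 48 249 106 (by decide +kernel) h1 h2 h3 h4

theorem c1157 (h : Good α) (h1 : α 173 = true) (h2 : α 48 = true) (h3 : α 249 = true) (h4 : α 106 = true) : False :=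
  rf h true 2 1 1 173 48 249 106 (by decide +kernel) h1 h2 h3 h4

theorem c1158 (h : Good α) (h1 : α 48 = false) (h2 : α 106 = false) (h3 : α 253 = false) : False :=
  af h false 5 48 106 253 (by decide +kernel) h1 h2 h3

theorem c1159 (h : Good α) (h1 : α 269 = false) (h2 : α 107 = false) (h3 : α 48 = false) : False :=
  af h false 4 269 107 48 (by decide +kernel) h1 h2 h3

theorem c1160 (h : Good α) (h1 : α 173 = true) (h2 : α 48 = true) (h3 : α 578 = true) (h4 : α 475 = true) : False :=
  rf h true 2 1 3 173 48 578 475 (by decide +kernel) h1 h2 h3 h4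

theorem c1161 (h : Good α) (h1 : α 368 = true) (h2 : α 179 = true) (h3 : α 48 = true) : False :=
  af h true 1 368 179 48 (by decide +kernel) h1 h2 h3

theorem c1162 (h : Good α) (h1 : α 577 = true) (h2 : α 479 = true) (h3 : α 179 = true) (h4 : α 48 = true) : False :=
  rf h true 1 1 3 577 479 179 48 (by decide +kernel) h1 h2 h3 h4

theorem c1163 (h : Good α) (h1 : α 346 = false) (h2 : α 101 = false) (h3 : α 285 = false) (h4 : α 49 = false) : False :=
  rf h false 0 3 2 346 101 285 49 (by decide +kernel) h1 h2 h3 h4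

theorem c1164 (h : Good α) (h1 : α 346 = true) (h2 : α 101 = true) (h3 : α 285 = true) (h4 : α 49 = true) : False :=
  rf h true 0 3 2 346 101 285 49 (by decide +kernel) h1 h2 h3 h4

theorem c1165 (h : Good α) (h1 : α 344 = false) (h2 : α 280 = false) (h3 : α 103 = false) (h4 : α 49 = false) : False :=
  rf h false 0 2 3 344 280 103 49 (by decide +kernel) h1 h2 h3 h4

theorem c1166 (h : Good α) (h1 : α 49 = false) (h2 : α 180 = false) (h3 : α 112 = false) (h4 : α 242 = false) : False :=
  rf h false 1 1 1 49 180 112 242 (by decide +kernel) h1 h2 h3 h4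

theorem c1167 (h : Good α) (h1 : α 49 = false) (h2 : α 112 = false) (h3 : α 268 = false) : False :=
  af h false 4 49 112 268 (by decide +kernel) h1 h2 h3

theorem c1168 (h : Good α) (h1 : α 49 = true) (h2 : α 112 = true) (h3 : α 268 = true) : False :=
  af h true 4 49 112 268 (by decide +kernel) h1 h2 h3

theorem c1169 (h : Good α) (h1 : α 256 = false) (h2 : α 113 = false) (h3 : α 49 = false) : False :=
  af h false 5 256 113 49 (by decide +kernel) h1 h2 h3

theorem c1170 (h : Good α) (h1 : α 256 = true) (h2 : α 113 = true) (h3 : α 49 = true) : False :=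
  af h true 5 256 113 49 (by decide +kernel) h1 h2 h3

theorem c1171 (h : Good α) (h1 : α 113 = false) (h2 : α 430 = false) (h3 : α 49 = false) (h4 : α 375 = false) : False :=
  rf h false 2 2 1 113 430 49 375 (by decide +kernel) h1 h2 h3 h4

theorem c1172 (h : Good α) (h1 : α 476 = false) (h2 : α 579 = false) (h3 : α 49 = false) (h4 : α 174 = false) : False :=
  rf h false 2 1 3 476 579 49 174 (by decide +kernel) h1 h2 h3 h4

theorem c1173 (h : Good α) (h1 : α 49 = false) (h2 : α 180 = false) (h3 : α 268 = false) (h4 : α 387 = false) : False :=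
  rf h false 1 1 2 49 180 268 387 (by decide +kernel) h1 h2 h3 h4

theorem c1174 (h : Good α) (h1 : α 49 = false) (h2 : α 180 = false) (h3 : α 478 = false) (h4 : α 576 = false) : False :=
  rf h false 1 1 3 49 180 478 576 (by decide +kernel) h1 h2 h3 h4

theorem c1175 (h : Good α) (h1 : α 49 = true) (h2 : α 180 = true) (h3 : α 478 = true) (h4 : α 576 = true) : False :=
  rf h true 1 1 3 49 180 478 576 (by decide +kernel) h1 h2 h3 h4

theorem c1176 (h : Good α) (h1 : α 51 = false) (h2 : α 89 = false) (h3 : α 50 = false) (h4 : α 87 = false) : False :=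
  rf h false 2 1 2 51 89 50 87 (by decide +kernel) h1 h2 h3 h4

theorem c1177 (h : Good α) (h1 : α 55 = false) (h2 : α 50 = false) (h3 : α 147 = false) : False :=
  af h false 3 55 50 147 (by decide +kernel) h1 h2 h3

theorem c1178 (h : Good α) (h1 : α 155 = false) (h2 : α 55 = false) (h3 : α 50 = false) : False :=
  af h false 3 155 55 50 (by decide +kernel) h1 h2 h3

theorem c1179 (h : Good α) (h1 : α 155 = true) (h2 : α 55 = true) (h3 : α 50 = true) : False :=
  af h true 3 155 55 50 (by decide +kernel) h1 h2 h3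

theorem c1180 (h : Good α) (h1 : α 67 = false) (h2 : α 65 = false) (h3 : α 50 = false) (h4 : α 58 = false) : False :=
  rf h false 1 1 2 67 65 50 58 (by decide +kernel) h1 h2 h3 h4

theorem c1181 (h : Good α) (h1 : α 151 = false) (h2 : α 50 = false) (h3 : α 58 = false) : False :=
  af h false 1 151 50 58 (by decide +kernel) h1 h2 h3

theorem c1182 (h : Good α) (h1 : α 151 = true) (h2 : α 50 = true) (h3 : α 58 = true) : False :=
  af h true 1 151 50 58 (by decide +kernel) h1 h2 h3

theorem c1183 (h : Good α) (h1 : α 50 = false) (h2 : α 58 = false) (h3 : α 156 = false) : False :=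
  af h false 1 50 58 156 (by decide +kernel) h1 h2 h3

theorem c1184 (h : Good α) (h1 : α 50 = true) (h2 : α 58 = true) (h3 : α 156 = true) : False :=
  af h true 1 50 58 156 (by decide +kernel) h1 h2 h3

theorem c1185 (h : Good α) (h1 : α 50 = false) (h2 : α 58 = false) (h3 : α 181 = false) (h4 : α 183 = false) : False :=
  rf h false 1 1 1 50 58 181 183 (by decide +kernel) h1 h2 h3 h4

theorem c1186 (h : Good α) (h1 : α 50 = true) (h2 : α 58 = true) (h3 : α 181 = true) (h4 : α 183 = true) : False :=
  rf h true 1 1 1 50 58 181 183 (by decide +kernel) h1 h2 h3 h4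

theorem c1187 (h : Good α) (h1 : α 235 = true) (h2 : α 194 = true) (h3 : α 86 = true) (h4 : α 50 = true) : False :=
  rf h true 2 1 3 235 194 86 50 (by decide +kernel) h1 h2 h3 h4

theorem c1188 (h : Good α) (h1 : α 243 = true) (h2 : α 86 = true) (h3 : α 50 = true) : False :=
  af h true 2 243 86 50 (by decide +kernel) h1 h2 h3

theorem c1189 (h : Good α) (h1 : α 194 = false) (h2 : α 241 = false) (h3 : α 50 = false) (h4 : α 87 = false) : False :=
  rf h false 2 1 3 194 241 50 87 (by decide +kernel) h1 h2 h3 h4

theorem c1190 (h : Good α) (h1 : α 194 = true) (h2 : α 241 = true) (h3 : α 50 = true) (h4 : α 87 = true) : False :=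
  rf h true 2 1 3 194 241 50 87 (by decide +kernel) h1 h2 h3 h4

theorem c1191 (h : Good α) (h1 : α 315 = true) (h2 : α 151 = true) (h3 : α 50 = true) : False :=
  af h true 1 315 151 50 (by decide +kernel) h1 h2 h3

theorem c1192 (h : Good α) (h1 : α 50 = false) (h2 : α 181 = false) (h3 : α 376 = false) : False :=
  af h false 4 50 181 376 (by decide +kernel) h1 h2 h3

theorem c1193 (h : Good α) (h1 : α 50 = true) (h2 : α 181 = true) (h3 : α 376 = true) : False :=
  af h true 4 50 181 376 (by decide +kernel) h1 h2 h3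

theorem c1194 (h : Good α) (h1 : α 431 = true) (h2 : α 330 = true) (h3 : α 191 = true) (h4 : α 50 = true) : False :=
  rf h true 0 1 3 431 330 191 50 (by decide +kernel) h1 h2 h3 h4

theorem c1195 (h : Good α) (h1 : α 390 = false) (h2 : α 191 = false) (h3 : α 50 = false) : False :=
  af h false 0 390 191 50 (by decide +kernel) h1 h2 h3

theorem c1196 (h : Good α) (h1 : α 390 = true) (h2 : α 191 = true) (h3 : α 50 = true) : False :=
  af h true 0 390 191 50 (by decide +kernel) h1 h2 h3

theorem c1197 (h : Good α) (h1 : α 348 = false) (h2 : α 194 = false) (h3 : α 243 = false) (h4 : α 50 = false) : False :=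
  rf h false 2 2 3 348 194 243 50 (by decide +kernel) h1 h2 h3 h4

theorem c1198 (h : Good α) (h1 : α 537 = true) (h2 : α 401 = true) (h3 : α 243 = true) (h4 : α 50 = true) : False :=
  rf h true 2 2 4 537 401 243 50 (by decide +kernel) h1 h2 h3 h4

theorem c1199 (h : Good α) (h1 : α 401 = true) (h2 : α 533 = true) (h3 : α 50 = true) (h4 : α 244 = true) : False :=
  rf h true 2 2 4 401 533 50 244 (by decide +kernel) h1 h2 h3 h4

theorem c1200 (h : Good α) (h1 : α 57 = false) (h2 : α 51 = false) (h3 : α 152 = false) : False :=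
  af h false 1 57 51 152 (by decide +kernel) h1 h2 h3

theorem c1201 (h : Good α) (h1 : α 155 = false) (h2 : α 57 = false) (h3 : α 51 = false) : False :=
  af h false 1 155 57 51 (by decide +kernel) h1 h2 h3

theorem c1202 (h : Good α) (h1 : α 155 = true) (h2 : α 57 = true) (h3 : α 51 = true) : False :=
  af h true 1 155 57 51 (by decide +kernel) h1 h2 h3

theorem c1203 (h : Good α) (h1 : α 184 = false) (h2 : α 182 = false) (h3 : α 57 = false) (h4 : α 51 = false) : False :=
  rf h false 1 1 1 184 182 57 51 (by decide +kernel) h1 h2 h3 h4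

theorem c1204 (h : Good α) (h1 : α 148 = false) (h2 : α 51 = false) (h3 : α 60 = false) : False :=
  af h false 3 148 51 60 (by decide +kernel) h1 h2 h3

theorem c1205 (h : Good α) (h1 : α 51 = false) (h2 : α 60 = false) (h3 : α 156 = false) : False :=
  af h false 3 51 60 156 (by decide +kernel) h1 h2 h3

theorem c1206 (h : Good α) (h1 : α 51 = true) (h2 : α 60 = true) (h3 : α 156 = true) : False :=
  af h true 3 51 60 156 (by decide +kernel) h1 h2 h3

theorem c1207 (h : Good α) (h1 : α 51 = false) (h2 : α 192 = false) (h3 : α 60 = false) (h4 : α 190 = false) : False :=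
  rf h false 0 1 1 51 192 60 190 (by decide +kernel) h1 h2 h3 h4

theorem c1208 (h : Good α) (h1 : α 88 = false) (h2 : α 51 = false) (h3 : α 89 = false) : False :=
  af h false 2 88 51 89 (by decide +kernel) h1 h2 h3

theorem c1209 (h : Good α) (h1 : α 88 = false) (h2 : α 51 = false) (h3 : α 240 = false) (h4 : α 193 = false) : False :=
  rf h false 2 1 3 88 51 240 193 (by decide +kernel) h1 h2 h3 h4

theorem c1210 (h : Good α) (h1 : α 245 = true) (h2 : α 88 = true) (h3 : α 51 = true) : False :=
  af h true 2 245 88 51 (by decide +kernel) h1 h2 h3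

theorem c1211 (h : Good α) (h1 : α 51 = false) (h2 : α 89 = false) (h3 : α 193 = false) (h4 : α 234 = false) : False :=
  rf h false 2 1 3 51 89 193 234 (by decide +kernel) h1 h2 h3 h4

theorem c1212 (h : Good α) (h1 : α 51 = true) (h2 : α 89 = true) (h3 : α 193 = true) (h4 : α 234 = true) : False :=
  rf h true 2 1 3 51 89 193 234 (by decide +kernel) h1 h2 h3 h4

theorem c1213 (h : Good α) (h1 : α 194 = true) (h2 : α 241 = true) (h3 : α 51 = true) (h4 : α 89 = true) : False :=
  rf h true 2 1 1 194 241 51 89 (by decide +kernel) h1 h2 h3 h4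

theorem c1214 (h : Good α) (h1 : α 51 = true) (h2 : α 89 = true) (h3 : α 246 = true) : False :=
  af h true 2 51 89 246 (by decide +kernel) h1 h2 h3

theorem c1215 (h : Good α) (h1 : α 319 = true) (h2 : α 148 = true) (h3 : α 51 = true) : False :=
  af h true 3 319 148 51 (by decide +kernel) h1 h2 h3

theorem c1216 (h : Good α) (h1 : α 51 = true) (h2 : α 192 = true) (h3 : α 331 = true) (h4 : α 432 = true) : False :=
  rf h true 0 1 3 51 192 331 432 (by decide +kernel) h1 h2 h3 h4

theorem c1217 (h : Good α) (h1 : α 51 = false) (h2 : α 192 = false) (h3 : α 391 = false) : False :=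
  af h false 0 51 192 391 (by decide +kernel) h1 h2 h3

theorem c1218 (h : Good α) (h1 : α 96 = false) (h2 : α 53 = false) (h3 : α 90 = false) (h4 : α 52 = false) : False :=
  rf h false 1 1 2 96 53 90 52 (by decide +kernel) h1 h2 h3 h4

theorem c1219 (h : Good α) (h1 : α 53 = false) (h2 : α 93 = false) (h3 : α 52 = false) (h4 : α 95 = false) : False :=
  rf h false 1 1 2 53 93 52 95 (by decide +kernel) h1 h2 h3 h4

theorem c1220 (h : Good α) (h1 : α 441 = false) (h2 : α 53 = false) (h3 : α 445 = false) (h4 : α 52 = false) : False :=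
  rf h false 1 3 2 441 53 445 52 (by decide +kernel) h1 h2 h3 h4

theorem c1221 (h : Good α) (h1 : α 63 = false) (h2 : α 68 = false) (h3 : α 54 = false) (h4 : α 52 = false) : False :=
  rf h false 2 1 2 63 68 54 52 (by decide +kernel) h1 h2 h3 h4

theorem c1222 (h : Good α) (h1 : α 54 = true) (h2 : α 52 = true) (h3 : α 150 = true) : False :=
  af h true 2 54 52 150 (by decide +kernel) h1 h2 h3

theorem c1223 (h : Good α) (h1 : α 54 = false) (h2 : α 52 = false) (h3 : α 191 = false) (h4 : α 181 = false) : False :=
  rf h false 2 1 1 54 52 191 181 (by decide +kernel) h1 h2 h3 h4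

theorem c1224 (h : Good α) (h1 : α 54 = false) (h2 : α 52 = false) (h3 : α 381 = false) (h4 : α 384 = false) : False :=
  rf h false 2 1 2 54 52 381 384 (by decide +kernel) h1 h2 h3 h4

theorem c1225 (h : Good α) (h1 : α 80 = false) (h2 : α 71 = false) (h3 : α 52 = false) (h4 : α 59 = false) : False :=
  rf h false 0 1 2 80 71 52 59 (by decide +kernel) h1 h2 h3 h4

theorem c1226 (h : Good α) (h1 : α 146 = false) (h2 : α 52 = false) (h3 : α 59 = false) : False :=
  af h false 0 146 52 59 (by decide +kernel) h1 h2 h3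

theorem c1227 (h : Good α) (h1 : α 52 = false) (h2 : α 59 = false) (h3 : α 157 = false) : False :=
  af h false 0 52 59 157 (by decide +kernel) h1 h2 h3

theorem c1228 (h : Good α) (h1 : α 52 = false) (h2 : α 59 = false) (h3 : α 183 = false) (h4 : α 189 = false) : False :=
  rf h false 0 1 1 52 59 183 189 (by decide +kernel) h1 h2 h3 h4

theorem c1229 (h : Good α) (h1 : α 68 = true) (h2 : α 167 = true) (h3 : α 52 = true) (h4 : α 150 = true) : False :=
  rf h true 2 1 2 68 167 52 150 (by decide +kernel) h1 h2 h3 h4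

theorem c1230 (h : Good α) (h1 : α 175 = true) (h2 : α 68 = true) (h3 : α 154 = true) (h4 : α 52 = true) : False :=
  rf h true 2 2 2 175 68 154 52 (by decide +kernel) h1 h2 h3 h4

theorem c1231 (h : Good α) (h1 : α 179 = true) (h2 : α 80 = true) (h3 : α 146 = true) (h4 : α 52 = true) : False :=
  rf h true 0 1 2 179 80 146 52 (by decide +kernel) h1 h2 h3 h4

theorem c1232 (h : Good α) (h1 : α 80 = true) (h2 : α 161 = true) (h3 : α 52 = true) (h4 : α 157 = true) : False :=
  rf h true 0 2 2 80 161 52 157 (by decide +kernel) h1 h2 h3 h4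

theorem c1233 (h : Good α) (h1 : α 90 = false) (h2 : α 52 = false) (h3 : α 95 = false) : False :=
  af h false 1 90 52 95 (by decide +kernel) h1 h2 h3

theorem c1234 (h : Good α) (h1 : α 90 = true) (h2 : α 52 = true) (h3 : α 95 = true) : False :=
  af h true 1 90 52 95 (by decide +kernel) h1 h2 h3

theorem c1235 (h : Good α) (h1 : α 231 = false) (h2 : α 196 = false) (h3 : α 90 = false) (h4 : α 52 = false) : False :=
  rf h false 1 1 3 231 196 90 52 (by decide +kernel) h1 h2 h3 h4

theorem c1236 (h : Good α) (h1 : α 231 = true) (h2 : α 196 = true) (h3 : α 90 = true) (h4 : α 52 = true) : False :=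
  rf h true 1 1 3 231 196 90 52 (by decide +kernel) h1 h2 h3 h4

theorem c1237 (h : Good α) (h1 : α 251 = false) (h2 : α 90 = false) (h3 : α 52 = false) : False :=
  af h false 1 251 90 52 (by decide +kernel) h1 h2 h3

theorem c1238 (h : Good α) (h1 : α 251 = true) (h2 : α 90 = true) (h3 : α 52 = true) : False :=
  af h true 1 251 90 52 (by decide +kernel) h1 h2 h3

theorem c1239 (h : Good α) (h1 : α 52 = false) (h2 : α 95 = false) (h3 : α 195 = false) (h4 : α 230 = false) : False :=
  rf h false 1 1 1 52 95 195 230 (by decide +kernel) h1 h2 h3 h4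

theorem c1240 (h : Good α) (h1 : α 52 = false) (h2 : α 95 = false) (h3 : α 247 = false) : False :=
  af h false 1 52 95 247 (by decide +kernel) h1 h2 h3

theorem c1241 (h : Good α) (h1 : α 326 = false) (h2 : α 146 = false) (h3 : α 52 = false) : False :=
  af h false 0 326 146 52 (by decide +kernel) h1 h2 h3

theorem c1242 (h : Good α) (h1 : α 326 = true) (h2 : α 146 = true) (h3 : α 52 = true) : False :=
  af h true 0 326 146 52 (by decide +kernel) h1 h2 h3

theorem c1243 (h : Good α) (h1 : α 146 = false) (h2 : α 52 = false) (h3 : α 451 = false) (h4 : α 378 = false) : False :=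
  rf h false 0 1 2 146 52 451 378 (by decide +kernel) h1 h2 h3 h4

theorem c1244 (h : Good α) (h1 : α 52 = true) (h2 : α 150 = true) (h3 : α 181 = true) (h4 : α 260 = true) : False :=
  rf h true 2 1 1 52 150 181 260 (by decide +kernel) h1 h2 h3 h4

theorem c1245 (h : Good α) (h1 : α 52 = true) (h2 : α 150 = true) (h3 : α 314 = true) : False :=
  af h true 2 52 150 314 (by decide +kernel) h1 h2 h3

theorem c1246 (h : Good α) (h1 : α 52 = true) (h2 : α 150 = true) (h3 : α 384 = true) (h4 : α 454 = true) : False :=
  rf h true 2 1 2 52 150 384 454 (by decide +kernel) h1 h2 h3 h4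

theorem c1247 (h : Good α) (h1 : α 154 = true) (h2 : α 52 = true) (h3 : α 275 = true) (h4 : α 181 = true) : False :=
  rf h true 2 2 1 154 52 275 181 (by decide +kernel) h1 h2 h3 h4

theorem c1248 (h : Good α) (h1 : α 154 = true) (h2 : α 52 = true) (h3 : α 467 = true) (h4 : α 384 = true) : False :=
  rf h true 2 2 2 154 52 467 384 (by decide +kernel) h1 h2 h3 h4

theorem c1249 (h : Good α) (h1 : α 52 = true) (h2 : α 157 = true) (h3 : α 183 = true) (h4 : α 273 = true) : False :=
  rf h true 0 2 1 52 157 183 273 (by decide +kernel) h1 h2 h3 h4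

theorem c1250 (h : Good α) (h1 : α 52 = false) (h2 : α 157 = false) (h3 : α 378 = false) (h4 : α 462 = false) : False :=
  rf h false 0 2 2 52 157 378 462 (by decide +kernel) h1 h2 h3 h4

theorem c1251 (h : Good α) (h1 : α 52 = false) (h2 : α 314 = false) (h3 : α 181 = false) (h4 : α 413 = false) : False :=
  rf h false 2 2 1 52 314 181 413 (by decide +kernel) h1 h2 h3 h4

theorem c1252 (h : Good α) (h1 : α 328 = true) (h2 : α 52 = true) (h3 : α 425 = true) (h4 : α 181 = true) : False :=
  rf h true 2 3 1 328 52 425 181 (by decide +kernel) h1 h2 h3 h4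

theorem c1253 (h : Good α) (h1 : α 52 = false) (h2 : α 181 = false) (h3 : α 384 = false) : False :=
  af h false 5 52 181 384 (by decide +kernel) h1 h2 h3

theorem c1254 (h : Good α) (h1 : α 52 = true) (h2 : α 181 = true) (h3 : α 384 = true) : False :=
  af h true 5 52 181 384 (by decide +kernel) h1 h2 h3

theorem c1255 (h : Good α) (h1 : α 326 = false) (h2 : α 52 = false) (h3 : α 423 = false) (h4 : α 183 = false) : False :=
  rf h false 0 2 1 326 52 423 183 (by decide +kernel) h1 h2 h3 h4

theorem c1256 (h : Good α) (h1 : α 52 = false) (h2 : α 334 = false) (h3 : α 183 = false) (h4 : α 430 = false) : False :=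
  rf h false 0 3 1 52 334 183 430 (by decide +kernel) h1 h2 h3 h4

theorem c1257 (h : Good α) (h1 : α 52 = true) (h2 : α 334 = true) (h3 : α 183 = true) (h4 : α 430 = true) : False :=
  rf h true 0 3 1 52 334 183 430 (by decide +kernel) h1 h2 h3 h4

theorem c1258 (h : Good α) (h1 : α 52 = false) (h2 : α 183 = false) (h3 : α 378 = false) : False :=
  af h false 3 52 183 378 (by decide +kernel) h1 h2 h3

theorem c1259 (h : Good α) (h1 : α 52 = true) (h2 : α 183 = true) (h3 : α 378 = true) : False :=
  af h true 3 52 183 378 (by decide +kernel) h1 h2 h3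

theorem c1260 (h : Good α) (h1 : α 56 = false) (h2 : α 53 = false) (h3 : α 149 = false) : False :=
  af h false 0 56 53 149 (by decide +kernel) h1 h2 h3

theorem c1261 (h : Good α) (h1 : α 154 = true) (h2 : α 56 = true) (h3 : α 53 = true) : False :=
  af h true 0 154 56 53 (by decide +kernel) h1 h2 h3

theorem c1262 (h : Good α) (h1 : α 153 = false) (h2 : α 53 = false) (h3 : α 61 = false) : False :=
  af h false 2 153 53 61 (by decide +kernel) h1 h2 h3

theorem c1263 (h : Good α) (h1 : α 153 = true) (h2 : α 53 = true) (h3 : α 61 = true) : False :=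
  af h true 2 153 53 61 (by decide +kernel) h1 h2 h3

theorem c1264 (h : Good α) (h1 : α 53 = true) (h2 : α 61 = true) (h3 : α 157 = true) : False :=
  af h true 2 53 61 157 (by decide +kernel) h1 h2 h3

theorem c1265 (h : Good α) (h1 : α 153 = true) (h2 : α 53 = true) (h3 : α 168 = true) (h4 : α 73 = true) : False :=
  rf h true 2 1 2 153 53 168 73 (by decide +kernel) h1 h2 h3 h4

theorem c1266 (h : Good α) (h1 : α 53 = false) (h2 : α 157 = false) (h3 : α 73 = false) (h4 : α 178 = false) : False :=
  rf h false 2 2 2 53 157 73 178 (by decide +kernel) h1 h2 h3 h4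

theorem c1267 (h : Good α) (h1 : α 53 = false) (h2 : α 149 = false) (h3 : α 81 = false) (h4 : α 180 = false) : False :=
  rf h false 0 1 2 53 149 81 180 (by decide +kernel) h1 h2 h3 h4

theorem c1268 (h : Good α) (h1 : α 154 = true) (h2 : α 53 = true) (h3 : α 158 = true) (h4 : α 81 = true) : False :=
  rf h true 0 2 2 154 53 158 81 (by decide +kernel) h1 h2 h3 h4

theorem c1269 (h : Good α) (h1 : α 96 = false) (h2 : α 53 = false) (h3 : α 93 = false) : False :=
  af h false 1 96 53 93 (by decide +kernel) h1 h2 h3

theorem c1270 (h : Good α) (h1 : α 96 = true) (h2 : α 53 = true) (h3 : α 93 = true) : False :=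
  af h true 1 96 53 93 (by decide +kernel) h1 h2 h3

theorem c1271 (h : Good α) (h1 : α 53 = false) (h2 : α 93 = false) (h3 : α 195 = false) (h4 : α 230 = false) : False :=
  rf h false 1 1 3 53 93 195 230 (by decide +kernel) h1 h2 h3 h4

theorem c1272 (h : Good α) (h1 : α 53 = true) (h2 : α 93 = true) (h3 : α 252 = true) : False :=
  af h true 1 53 93 252 (by decide +kernel) h1 h2 h3

theorem c1273 (h : Good α) (h1 : α 96 = false) (h2 : α 53 = false) (h3 : α 229 = false) (h4 : α 195 = false) : False :=
  rf h false 1 1 3 96 53 229 195 (by decide +kernel) h1 h2 h3 h4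

theorem c1274 (h : Good α) (h1 : α 96 = true) (h2 : α 53 = true) (h3 : α 229 = true) (h4 : α 195 = true) : False :=
  rf h true 1 1 3 96 53 229 195 (by decide +kernel) h1 h2 h3 h4

theorem c1275 (h : Good α) (h1 : α 231 = true) (h2 : α 196 = true) (h3 : α 96 = true) (h4 : α 53 = true) : False :=
  rf h true 1 1 1 231 196 96 53 (by decide +kernel) h1 h2 h3 h4

theorem c1276 (h : Good α) (h1 : α 248 = false) (h2 : α 96 = false) (h3 : α 53 = false) : False :=
  af h false 1 248 96 53 (by decide +kernel) h1 h2 h3

theorem c1277 (h : Good α) (h1 : α 248 = true) (h2 : α 96 = true) (h3 : α 53 = true) : False :=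
  af h true 1 248 96 53 (by decide +kernel) h1 h2 h3

theorem c1278 (h : Good α) (h1 : α 96 = true) (h2 : α 53 = true) (h3 : α 434 = true) (h4 : α 400 = true) : False :=
  rf h true 1 1 4 96 53 434 400 (by decide +kernel) h1 h2 h3 h4

theorem c1279 (h : Good α) (h1 : α 184 = false) (h2 : α 264 = false) (h3 : α 53 = false) (h4 : α 149 = false) : False :=
  rf h false 0 1 1 184 264 53 149 (by decide +kernel) h1 h2 h3 h4

theorem c1280 (h : Good α) (h1 : α 53 = false) (h2 : α 149 = false) (h3 : α 335 = false) : False :=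
  af h false 0 53 149 335 (by decide +kernel) h1 h2 h3

theorem c1281 (h : Good α) (h1 : α 379 = false) (h2 : α 452 = false) (h3 : α 53 = false) (h4 : α 149 = false) : False :=
  rf h false 0 1 2 379 452 53 149 (by decide +kernel) h1 h2 h3 h4

theorem c1282 (h : Good α) (h1 : α 261 = false) (h2 : α 182 = false) (h3 : α 153 = false) (h4 : α 53 = false) : False :=
  rf h false 2 1 1 261 182 153 53 (by decide +kernel) h1 h2 h3 h4

theorem c1283 (h : Good α) (h1 : α 261 = true) (h2 : α 182 = true) (h3 : α 153 = true) (h4 : α 53 = true) : False :=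
  rf h true 2 1 1 261 182 153 53 (by decide +kernel) h1 h2 h3 h4

theorem c1284 (h : Good α) (h1 : α 323 = true) (h2 : α 153 = true) (h3 : α 53 = true) : False :=
  af h true 2 323 153 53 (by decide +kernel) h1 h2 h3

theorem c1285 (h : Good α) (h1 : α 455 = true) (h2 : α 389 = true) (h3 : α 153 = true) (h4 : α 53 = true) : False :=
  rf h true 2 1 2 455 389 153 53 (by decide +kernel) h1 h2 h3 h4

theorem c1286 (h : Good α) (h1 : α 272 = true) (h2 : α 184 = true) (h3 : α 154 = true) (h4 : α 53 = true) : False :=
  rf h true 0 2 1 272 184 154 53 (by decide +kernel) h1 h2 h3 h4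

theorem c1287 (h : Good α) (h1 : α 459 = true) (h2 : α 379 = true) (h3 : α 154 = true) (h4 : α 53 = true) : False :=
  rf h true 0 2 2 459 379 154 53 (by decide +kernel) h1 h2 h3 h4

theorem c1288 (h : Good α) (h1 : α 182 = true) (h2 : α 276 = true) (h3 : α 53 = true) (h4 : α 157 = true) : False :=
  rf h true 2 2 1 182 276 53 157 (by decide +kernel) h1 h2 h3 h4

theorem c1289 (h : Good α) (h1 : α 182 = true) (h2 : α 426 = true) (h3 : α 53 = true) (h4 : α 333 = true) : False :=
  rf h true 2 3 1 182 426 53 333 (by decide +kernel) h1 h2 h3 h4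

theorem c1290 (h : Good α) (h1 : α 389 = false) (h2 : α 182 = false) (h3 : α 53 = false) : False :=
  af h false 5 389 182 53 (by decide +kernel) h1 h2 h3

theorem c1291 (h : Good α) (h1 : α 389 = true) (h2 : α 182 = true) (h3 : α 53 = true) : False :=
  af h true 5 389 182 53 (by decide +kernel) h1 h2 h3

theorem c1292 (h : Good α) (h1 : α 429 = false) (h2 : α 184 = false) (h3 : α 327 = false) (h4 : α 53 = false) : False :=
  rf h false 0 3 1 429 184 327 53 (by decide +kernel) h1 h2 h3 h4

theorem c1293 (h : Good α) (h1 : α 429 = true) (h2 : α 184 = true) (h3 : α 327 = true) (h4 : α 53 = true) : False :=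
  rf h true 0 3 1 429 184 327 53 (by decide +kernel) h1 h2 h3 h4

theorem c1294 (h : Good α) (h1 : α 379 = false) (h2 : α 184 = false) (h3 : α 53 = false) : False :=
  af h false 3 379 184 53 (by decide +kernel) h1 h2 h3

theorem c1295 (h : Good α) (h1 : α 379 = true) (h2 : α 184 = true) (h3 : α 53 = true) : False :=
  af h true 3 379 184 53 (by decide +kernel) h1 h2 h3

theorem c1296 (h : Good α) (h1 : α 56 = false) (h2 : α 54 = false) (h3 : α 146 = false) : False :=
  af h false 4 56 54 146 (by decide +kernel) h1 h2 h3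

theorem c1297 (h : Good α) (h1 : α 56 = true) (h2 : α 54 = true) (h3 : α 146 = true) : False :=
  af h true 4 56 54 146 (by decide +kernel) h1 h2 h3

theorem c1298 (h : Good α) (h1 : α 153 = false) (h2 : α 56 = false) (h3 : α 54 = false) : False :=
  af h false 4 153 56 54 (by decide +kernel) h1 h2 h3

theorem c1299 (h : Good α) (h1 : α 153 = true) (h2 : α 56 = true) (h3 : α 54 = true) : False :=
  af h true 4 153 56 54 (by decide +kernel) h1 h2 h3

theorem c1300 (h : Good α) (h1 : α 185 = false) (h2 : α 56 = false) (h3 : α 187 = false) (h4 : α 54 = false) : False :=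
  rf h false 1 1 1 185 56 187 54 (by decide +kernel) h1 h2 h3 h4

theorem c1301 (h : Good α) (h1 : α 54 = false) (h2 : α 61 = false) (h3 : α 91 = false) (h4 : α 97 = false) : False :=
  rf h false 0 2 1 54 61 91 97 (by decide +kernel) h1 h2 h3 h4

theorem c1302 (h : Good α) (h1 : α 94 = false) (h2 : α 92 = false) (h3 : α 54 = false) (h4 : α 61 = false) : False :=
  rf h false 0 2 1 94 92 54 61 (by decide +kernel) h1 h2 h3 h4

theorem c1303 (h : Good α) (h1 : α 54 = false) (h2 : α 61 = false) (h3 : α 233 = false) (h4 : α 242 = false) : False :=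
  rf h false 0 2 2 54 61 233 242 (by decide +kernel) h1 h2 h3 h4

theorem c1304 (h : Good α) (h1 : α 239 = false) (h2 : α 236 = false) (h3 : α 54 = false) (h4 : α 61 = false) : False :=
  rf h false 0 2 2 239 236 54 61 (by decide +kernel) h1 h2 h3 h4

theorem c1305 (h : Good α) (h1 : α 54 = false) (h2 : α 61 = false) (h3 : α 439 = false) (h4 : α 447 = false) : False :=
  rf h false 0 2 3 54 61 439 447 (by decide +kernel) h1 h2 h3 h4

theorem c1306 (h : Good α) (h1 : α 446 = false) (h2 : α 442 = false) (h3 : α 54 = false) (h4 : α 61 = false) : False :=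
  rf h false 0 2 3 446 442 54 61 (by decide +kernel) h1 h2 h3 h4

theorem c1307 (h : Good α) (h1 : α 63 = true) (h2 : α 167 = true) (h3 : α 54 = true) (h4 : α 150 = true) : False :=
  rf h true 2 2 2 63 167 54 150 (by decide +kernel) h1 h2 h3 h4

theorem c1308 (h : Good α) (h1 : α 175 = true) (h2 : α 63 = true) (h3 : α 154 = true) (h4 : α 54 = true) : False :=
  rf h true 2 1 2 175 63 154 54 (by decide +kernel) h1 h2 h3 h4

theorem c1309 (h : Good α) (h1 : α 94 = false) (h2 : α 54 = false) (h3 : α 91 = false) : False :=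
  af h false 3 94 54 91 (by decide +kernel) h1 h2 h3

theorem c1310 (h : Good α) (h1 : α 94 = true) (h2 : α 54 = true) (h3 : α 91 = true) : False :=
  af h true 3 94 54 91 (by decide +kernel) h1 h2 h3

theorem c1311 (h : Good α) (h1 : α 197 = false) (h2 : α 54 = false) (h3 : α 237 = false) (h4 : α 91 = false) : False :=
  rf h false 0 1 1 197 54 237 91 (by decide +kernel) h1 h2 h3 h4

theorem c1312 (h : Good α) (h1 : α 54 = false) (h2 : α 204 = false) (h3 : α 91 = false) (h4 : α 250 = false) : False :=
  rf h false 0 3 1 54 204 91 250 (by decide +kernel) h1 h2 h3 h4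

theorem c1313 (h : Good α) (h1 : α 54 = true) (h2 : α 204 = true) (h3 : α 91 = true) (h4 : α 250 = true) : False :=
  rf h true 0 3 1 54 204 91 250 (by decide +kernel) h1 h2 h3 h4

theorem c1314 (h : Good α) (h1 : α 54 = false) (h2 : α 91 = false) (h3 : α 233 = false) : False :=
  af h false 3 54 91 233 (by decide +kernel) h1 h2 h3

theorem c1315 (h : Good α) (h1 : α 54 = true) (h2 : α 91 = true) (h3 : α 233 = true) : False :=
  af h true 3 54 91 233 (by decide +kernel) h1 h2 h3

theorem c1316 (h : Good α) (h1 : α 402 = false) (h2 : α 54 = false) (h3 : α 443 = false) (h4 : α 91 = false) : False :=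
  rf h false 0 2 1 402 54 443 91 (by decide +kernel) h1 h2 h3 h4

theorem c1317 (h : Good α) (h1 : α 54 = false) (h2 : α 409 = false) (h3 : α 91 = false) (h4 : α 450 = false) : False :=
  rf h false 0 4 1 54 409 91 450 (by decide +kernel) h1 h2 h3 h4

theorem c1318 (h : Good α) (h1 : α 54 = true) (h2 : α 409 = true) (h3 : α 91 = true) (h4 : α 450 = true) : False :=
  rf h true 0 4 1 54 409 91 450 (by decide +kernel) h1 h2 h3 h4

theorem c1319 (h : Good α) (h1 : α 249 = false) (h2 : α 94 = false) (h3 : α 197 = false) (h4 : α 54 = false) : False :=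
  rf h false 0 1 1 249 94 197 54 (by decide +kernel) h1 h2 h3 h4

theorem c1320 (h : Good α) (h1 : α 94 = false) (h2 : α 238 = false) (h3 : α 54 = false) (h4 : α 204 = false) : False :=
  rf h false 0 3 1 94 238 54 204 (by decide +kernel) h1 h2 h3 h4

theorem c1321 (h : Good α) (h1 : α 94 = true) (h2 : α 238 = true) (h3 : α 54 = true) (h4 : α 204 = true) : False :=
  rf h true 0 3 1 94 238 54 204 (by decide +kernel) h1 h2 h3 h4

theorem c1322 (h : Good α) (h1 : α 239 = false) (h2 : α 94 = false) (h3 : α 54 = false) : False :=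
  af h false 3 239 94 54 (by decide +kernel) h1 h2 h3

theorem c1323 (h : Good α) (h1 : α 239 = true) (h2 : α 94 = true) (h3 : α 54 = true) : False :=
  af h true 3 239 94 54 (by decide +kernel) h1 h2 h3

theorem c1324 (h : Good α) (h1 : α 449 = false) (h2 : α 94 = false) (h3 : α 402 = false) (h4 : α 54 = false) : False :=
  rf h false 0 2 1 449 94 402 54 (by decide +kernel) h1 h2 h3 h4

theorem c1325 (h : Good α) (h1 : α 94 = false) (h2 : α 444 = false) (h3 : α 54 = false) (h4 : α 409 = false) : False :=
  rf h false 0 4 1 94 444 54 409 (by decide +kernel) h1 h2 h3 h4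

theorem c1326 (h : Good α) (h1 : α 187 = true) (h2 : α 54 = true) (h3 : α 253 = true) (h4 : α 146 = true) : False :=
  rf h true 1 1 1 187 54 253 146 (by decide +kernel) h1 h2 h3 h4

theorem c1327 (h : Good α) (h1 : α 54 = false) (h2 : α 146 = false) (h3 : α 312 = false) : False :=
  af h false 4 54 146 312 (by decide +kernel) h1 h2 h3

theorem c1328 (h : Good α) (h1 : α 54 = true) (h2 : α 150 = true) (h3 : α 191 = true) (h4 : α 260 = true) : False :=
  rf h true 2 2 1 54 150 191 260 (by decide +kernel) h1 h2 h3 h4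

theorem c1329 (h : Good α) (h1 : α 54 = true) (h2 : α 150 = true) (h3 : α 381 = true) (h4 : α 454 = true) : False :=
  rf h true 2 2 2 54 150 381 454 (by decide +kernel) h1 h2 h3 h4

theorem c1330 (h : Good α) (h1 : α 154 = true) (h2 : α 54 = true) (h3 : α 275 = true) (h4 : α 191 = true) : False :=
  rf h true 2 1 1 154 54 275 191 (by decide +kernel) h1 h2 h3 h4

theorem c1331 (h : Good α) (h1 : α 328 = true) (h2 : α 154 = true) (h3 : α 54 = true) : False :=
  af h true 2 328 154 54 (by decide +kernel) h1 h2 h3

theorem c1332 (h : Good α) (h1 : α 154 = true) (h2 : α 54 = true) (h3 : α 467 = true) (h4 : α 381 = true) : False :=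
  rf h true 2 1 2 154 54 467 381 (by decide +kernel) h1 h2 h3 h4

theorem c1333 (h : Good α) (h1 : α 417 = true) (h2 : α 324 = true) (h3 : α 187 = true) (h4 : α 54 = true) : False :=
  rf h true 1 1 3 417 324 187 54 (by decide +kernel) h1 h2 h3 h4

theorem c1334 (h : Good α) (h1 : α 393 = false) (h2 : α 187 = false) (h3 : α 54 = false) : False :=
  af h false 1 393 187 54 (by decide +kernel) h1 h2 h3

theorem c1335 (h : Good α) (h1 : α 393 = true) (h2 : α 187 = true) (h3 : α 54 = true) : False :=
  af h true 1 393 187 54 (by decide +kernel) h1 h2 h3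

theorem c1336 (h : Good α) (h1 : α 54 = true) (h2 : α 314 = true) (h3 : α 191 = true) (h4 : α 413 = true) : False :=
  rf h true 2 3 1 54 314 191 413 (by decide +kernel) h1 h2 h3 h4

theorem c1337 (h : Good α) (h1 : α 328 = false) (h2 : α 54 = false) (h3 : α 425 = false) (h4 : α 191 = false) : False :=
  rf h false 2 2 1 328 54 425 191 (by decide +kernel) h1 h2 h3 h4

theorem c1338 (h : Good α) (h1 : α 54 = false) (h2 : α 191 = false) (h3 : α 381 = false) : False :=
  af h false 5 54 191 381 (by decide +kernel) h1 h2 h3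

theorem c1339 (h : Good α) (h1 : α 54 = true) (h2 : α 191 = true) (h3 : α 381 = true) : False :=
  af h true 5 54 191 381 (by decide +kernel) h1 h2 h3

theorem c1340 (h : Good α) (h1 : α 197 = false) (h2 : α 54 = false) (h3 : α 351 = false) (h4 : α 233 = false) : False :=
  rf h false 0 1 2 197 54 351 233 (by decide +kernel) h1 h2 h3 h4

theorem c1341 (h : Good α) (h1 : α 353 = false) (h2 : α 239 = false) (h3 : α 197 = false) (h4 : α 54 = false) : False :=
  rf h false 0 1 2 353 239 197 54 (by decide +kernel) h1 h2 h3 h4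

theorem c1342 (h : Good α) (h1 : α 402 = false) (h2 : α 197 = false) (h3 : α 54 = false) : False :=
  af h false 0 402 197 54 (by decide +kernel) h1 h2 h3

theorem c1343 (h : Good α) (h1 : α 402 = true) (h2 : α 197 = true) (h3 : α 54 = true) : False :=
  af h true 0 402 197 54 (by decide +kernel) h1 h2 h3

theorem c1344 (h : Good α) (h1 : α 197 = false) (h2 : α 54 = false) (h3 : α 534 = false) (h4 : α 439 = false) : False :=
  rf h false 0 1 3 197 54 534 439 (by decide +kernel) h1 h2 h3 h4

theorem c1345 (h : Good α) (h1 : α 545 = false) (h2 : α 446 = false) (h3 : α 197 = false) (h4 : α 54 = false) : False :=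
  rf h false 0 1 3 545 446 197 54 (by decide +kernel) h1 h2 h3 h4

theorem c1346 (h : Good α) (h1 : α 54 = false) (h2 : α 204 = false) (h3 : α 233 = false) (h4 : α 354 = false) : False :=
  rf h false 0 3 2 54 204 233 354 (by decide +kernel) h1 h2 h3 h4

theorem c1347 (h : Good α) (h1 : α 54 = true) (h2 : α 204 = true) (h3 : α 233 = true) (h4 : α 354 = true) : False :=
  rf h true 0 3 2 54 204 233 354 (by decide +kernel) h1 h2 h3 h4

theorem c1348 (h : Good α) (h1 : α 239 = false) (h2 : α 352 = false) (h3 : α 54 = false) (h4 : α 204 = false) : False :=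
  rf h false 0 3 2 239 352 54 204 (by decide +kernel) h1 h2 h3 h4

theorem c1349 (h : Good α) (h1 : α 239 = true) (h2 : α 352 = true) (h3 : α 54 = true) (h4 : α 204 = true) : False :=
  rf h true 0 3 2 239 352 54 204 (by decide +kernel) h1 h2 h3 h4

theorem c1350 (h : Good α) (h1 : α 402 = true) (h2 : α 54 = true) (h3 : α 543 = true) (h4 : α 233 = true) : False :=
  rf h true 0 2 2 402 54 543 233 (by decide +kernel) h1 h2 h3 h4

theorem c1351 (h : Good α) (h1 : α 54 = false) (h2 : α 409 = false) (h3 : α 233 = false) (h4 : α 548 = false) : False :=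
  rf h false 0 4 2 54 409 233 548 (by decide +kernel) h1 h2 h3 h4

theorem c1352 (h : Good α) (h1 : α 239 = false) (h2 : α 544 = false) (h3 : α 54 = false) (h4 : α 409 = false) : False :=
  rf h false 0 4 2 239 544 54 409 (by decide +kernel) h1 h2 h3 h4

theorem c1353 (h : Good α) (h1 : α 148 = false) (h2 : α 57 = false) (h3 : α 55 = false) : False :=
  af h false 5 148 57 55 (by decide +kernel) h1 h2 h3

theorem c1354 (h : Good α) (h1 : α 57 = false) (h2 : α 55 = false) (h3 : α 151 = false) : False :=
  af h false 5 57 55 151 (by decide +kernel) h1 h2 h3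

theorem c1355 (h : Good α) (h1 : α 57 = true) (h2 : α 55 = true) (h3 : α 151 = true) : False :=
  af h true 5 57 55 151 (by decide +kernel) h1 h2 h3

theorem c1356 (h : Good α) (h1 : α 188 = false) (h2 : α 57 = false) (h3 : α 185 = false) (h4 : α 55 = false) : False :=
  rf h false 2 1 1 188 57 185 55 (by decide +kernel) h1 h2 h3 h4

theorem c1357 (h : Good α) (h1 : α 188 = true) (h2 : α 57 = true) (h3 : α 185 = true) (h4 : α 55 = true) : False :=
  rf h true 2 1 1 188 57 185 55 (by decide +kernel) h1 h2 h3 h4

theorem c1358 (h : Good α) (h1 : α 398 = false) (h2 : α 57 = false) (h3 : α 394 = false) (h4 : α 55 = false) : False :=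
  rf h false 2 2 1 398 57 394 55 (by decide +kernel) h1 h2 h3 h4

theorem c1359 (h : Good α) (h1 : α 96 = true) (h2 : α 55 = true) (h3 : α 90 = true) : False :=
  af h true 4 96 55 90 (by decide +kernel) h1 h2 h3

theorem c1360 (h : Good α) (h1 : α 55 = true) (h2 : α 90 = true) (h3 : α 229 = true) : False :=
  af h true 4 55 90 229 (by decide +kernel) h1 h2 h3

theorem c1361 (h : Good α) (h1 : α 96 = false) (h2 : α 252 = false) (h3 : α 55 = false) (h4 : α 203 = false) : False :=
  rf h false 1 3 1 96 252 55 203 (by decide +kernel) h1 h2 h3 h4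

theorem c1362 (h : Good α) (h1 : α 231 = false) (h2 : α 96 = false) (h3 : α 55 = false) : False :=
  af h false 4 231 96 55 (by decide +kernel) h1 h2 h3

theorem c1363 (h : Good α) (h1 : α 392 = false) (h2 : α 55 = false) (h3 : α 457 = false) (h4 : α 147 = false) : False :=
  rf h false 0 2 2 392 55 457 147 (by decide +kernel) h1 h2 h3 h4

theorem c1364 (h : Good α) (h1 : α 392 = true) (h2 : α 55 = true) (h3 : α 457 = true) (h4 : α 147 = true) : False :=
  rf h true 0 2 2 392 55 457 147 (by decide +kernel) h1 h2 h3 h4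

theorem c1365 (h : Good α) (h1 : α 330 = true) (h2 : α 155 = true) (h3 : α 55 = true) : False :=
  af h true 3 330 155 55 (by decide +kernel) h1 h2 h3

theorem c1366 (h : Good α) (h1 : α 394 = true) (h2 : α 185 = true) (h3 : α 55 = true) : False :=
  af h true 2 394 185 55 (by decide +kernel) h1 h2 h3

theorem c1367 (h : Good α) (h1 : α 187 = true) (h2 : α 55 = true) (h3 : α 419 = true) (h4 : α 318 = true) : False :=
  rf h true 0 1 3 187 55 419 318 (by decide +kernel) h1 h2 h3 h4

theorem c1368 (h : Good α) (h1 : α 392 = true) (h2 : α 187 = true) (h3 : α 55 = true) : False :=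
  af h true 0 392 187 55 (by decide +kernel) h1 h2 h3

theorem c1369 (h : Good α) (h1 : α 56 = false) (h2 : α 149 = false) (h3 : α 70 = false) (h4 : α 180 = false) : False :=
  rf h false 0 2 2 56 149 70 180 (by decide +kernel) h1 h2 h3 h4

theorem c1370 (h : Good α) (h1 : α 154 = true) (h2 : α 56 = true) (h3 : α 158 = true) (h4 : α 70 = true) : False :=
  rf h true 0 1 2 154 56 158 70 (by decide +kernel) h1 h2 h3 h4

theorem c1371 (h : Good α) (h1 : α 88 = false) (h2 : α 56 = false) (h3 : α 86 = false) : False :=
  af h false 5 88 56 86 (by decide +kernel) h1 h2 h3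

theorem c1372 (h : Good α) (h1 : α 88 = true) (h2 : α 56 = true) (h3 : α 86 = true) : False :=
  af h true 5 88 56 86 (by decide +kernel) h1 h2 h3

theorem c1373 (h : Good α) (h1 : α 56 = true) (h2 : α 202 = true) (h3 : α 86 = true) (h4 : α 244 = true) : False :=
  rf h true 2 3 1 56 202 86 244 (by decide +kernel) h1 h2 h3 h4

theorem c1374 (h : Good α) (h1 : α 56 = false) (h2 : α 86 = false) (h3 : α 240 = false) : False :=
  af h false 5 56 86 240 (by decide +kernel) h1 h2 h3

theorem c1375 (h : Good α) (h1 : α 56 = true) (h2 : α 86 = true) (h3 : α 240 = true) : False :=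
  af h true 5 56 86 240 (by decide +kernel) h1 h2 h3

theorem c1376 (h : Good α) (h1 : α 88 = true) (h2 : α 246 = true) (h3 : α 56 = true) (h4 : α 202 = true) : False :=
  rf h true 2 3 1 88 246 56 202 (by decide +kernel) h1 h2 h3 h4

theorem c1377 (h : Good α) (h1 : α 235 = false) (h2 : α 88 = false) (h3 : α 56 = false) : False :=
  af h false 5 235 88 56 (by decide +kernel) h1 h2 h3

theorem c1378 (h : Good α) (h1 : α 235 = true) (h2 : α 88 = true) (h3 : α 56 = true) : False :=
  af h true 5 235 88 56 (by decide +kernel) h1 h2 h3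

theorem c1379 (h : Good α) (h1 : α 185 = false) (h2 : α 56 = false) (h3 : α 253 = false) (h4 : α 146 = false) : False :=
  rf h false 1 1 2 185 56 253 146 (by decide +kernel) h1 h2 h3 h4

theorem c1380 (h : Good α) (h1 : α 185 = true) (h2 : α 56 = true) (h3 : α 253 = true) (h4 : α 146 = true) : False :=
  rf h true 1 1 2 185 56 253 146 (by decide +kernel) h1 h2 h3 h4

theorem c1381 (h : Good α) (h1 : α 188 = false) (h2 : α 264 = false) (h3 : α 56 = false) (h4 : α 149 = false) : False :=
  rf h false 0 2 1 188 264 56 149 (by decide +kernel) h1 h2 h3 h4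

theorem c1382 (h : Good α) (h1 : α 386 = false) (h2 : α 452 = false) (h3 : α 56 = false) (h4 : α 149 = false) : False :=
  rf h false 0 2 2 386 452 56 149 (by decide +kernel) h1 h2 h3 h4

theorem c1383 (h : Good α) (h1 : α 270 = true) (h2 : α 153 = true) (h3 : α 185 = true) (h4 : α 56 = true) : False :=
  rf h true 1 1 1 270 153 185 56 (by decide +kernel) h1 h2 h3 h4

theorem c1384 (h : Good α) (h1 : α 324 = true) (h2 : α 153 = true) (h3 : α 56 = true) : False :=
  af h true 4 324 153 56 (by decide +kernel) h1 h2 h3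

theorem c1385 (h : Good α) (h1 : α 272 = true) (h2 : α 188 = true) (h3 : α 154 = true) (h4 : α 56 = true) : False :=
  rf h true 0 1 1 272 188 154 56 (by decide +kernel) h1 h2 h3 h4

theorem c1386 (h : Good α) (h1 : α 327 = true) (h2 : α 154 = true) (h3 : α 56 = true) : False :=
  af h true 0 327 154 56 (by decide +kernel) h1 h2 h3

theorem c1387 (h : Good α) (h1 : α 459 = true) (h2 : α 386 = true) (h3 : α 154 = true) (h4 : α 56 = true) : False :=
  rf h true 0 1 2 459 386 154 56 (by decide +kernel) h1 h2 h3 h4

theorem c1388 (h : Good α) (h1 : α 185 = true) (h2 : α 56 = true) (h3 : α 410 = true) (h4 : α 312 = true) : False :=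
  rf h true 1 1 3 185 56 410 312 (by decide +kernel) h1 h2 h3 h4

theorem c1389 (h : Good α) (h1 : α 385 = false) (h2 : α 185 = false) (h3 : α 56 = false) : False :=
  af h false 1 385 185 56 (by decide +kernel) h1 h2 h3

theorem c1390 (h : Good α) (h1 : α 385 = true) (h2 : α 185 = true) (h3 : α 56 = true) : False :=
  af h true 1 385 185 56 (by decide +kernel) h1 h2 h3

theorem c1391 (h : Good α) (h1 : α 429 = false) (h2 : α 188 = false) (h3 : α 327 = false) (h4 : α 56 = false) : False :=
  rf h false 0 2 1 429 188 327 56 (by decide +kernel) h1 h2 h3 h4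

theorem c1392 (h : Good α) (h1 : α 188 = false) (h2 : α 424 = false) (h3 : α 56 = false) (h4 : α 335 = false) : False :=
  rf h false 0 3 1 188 424 56 335 (by decide +kernel) h1 h2 h3 h4

theorem c1393 (h : Good α) (h1 : α 188 = true) (h2 : α 424 = true) (h3 : α 56 = true) (h4 : α 335 = true) : False :=
  rf h true 0 3 1 188 424 56 335 (by decide +kernel) h1 h2 h3 h4

theorem c1394 (h : Good α) (h1 : α 386 = false) (h2 : α 188 = false) (h3 : α 56 = false) : False :=
  af h false 3 386 188 56 (by decide +kernel) h1 h2 h3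

theorem c1395 (h : Good α) (h1 : α 386 = true) (h2 : α 188 = true) (h3 : α 56 = true) : False :=
  af h true 3 386 188 56 (by decide +kernel) h1 h2 h3

theorem c1396 (h : Good α) (h1 : α 235 = false) (h2 : α 349 = false) (h3 : α 56 = false) (h4 : α 202 = false) : False :=
  rf h false 2 3 2 235 349 56 202 (by decide +kernel) h1 h2 h3 h4

theorem c1397 (h : Good α) (h1 : α 94 = false) (h2 : α 57 = false) (h3 : α 91 = false) (h4 : α 58 = false) : False :=
  rf h false 0 1 2 94 57 91 58 (by decide +kernel) h1 h2 h3 h4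

theorem c1398 (h : Good α) (h1 : α 94 = true) (h2 : α 57 = true) (h3 : α 91 = true) (h4 : α 58 = true) : False :=
  rf h true 0 1 2 94 57 91 58 (by decide +kernel) h1 h2 h3 h4

theorem c1399 (h : Good α) (h1 : α 57 = false) (h2 : α 92 = false) (h3 : α 58 = false) (h4 : α 97 = false) : False :=
  rf h false 0 1 2 57 92 58 97 (by decide +kernel) h1 h2 h3 h4

theorem c1400 (h : Good α) (h1 : α 57 = true) (h2 : α 92 = true) (h3 : α 58 = true) (h4 : α 97 = true) : False :=
  rf h true 0 1 2 57 92 58 97 (by decide +kernel) h1 h2 h3 h4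

theorem c1401 (h : Good α) (h1 : α 249 = false) (h2 : α 57 = false) (h3 : α 237 = false) (h4 : α 58 = false) : False :=
  rf h false 0 2 2 249 57 237 58 (by decide +kernel) h1 h2 h3 h4

theorem c1402 (h : Good α) (h1 : α 249 = true) (h2 : α 57 = true) (h3 : α 237 = true) (h4 : α 58 = true) : False :=
  rf h true 0 2 2 249 57 237 58 (by decide +kernel) h1 h2 h3 h4

theorem c1403 (h : Good α) (h1 : α 57 = false) (h2 : α 238 = false) (h3 : α 58 = false) (h4 : α 250 = false) : False :=
  rf h false 0 2 2 57 238 58 250 (by decide +kernel) h1 h2 h3 h4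

theorem c1404 (h : Good α) (h1 : α 57 = true) (h2 : α 238 = true) (h3 : α 58 = true) (h4 : α 250 = true) : False :=
  rf h true 0 2 2 57 238 58 250 (by decide +kernel) h1 h2 h3 h4

theorem c1405 (h : Good α) (h1 : α 449 = false) (h2 : α 57 = false) (h3 : α 443 = false) (h4 : α 58 = false) : False :=
  rf h false 0 3 2 449 57 443 58 (by decide +kernel) h1 h2 h3 h4

theorem c1406 (h : Good α) (h1 : α 449 = true) (h2 : α 57 = true) (h3 : α 443 = true) (h4 : α 58 = true) : False :=
  rf h true 0 3 2 449 57 443 58 (by decide +kernel) h1 h2 h3 h4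

theorem c1407 (h : Good α) (h1 : α 57 = false) (h2 : α 444 = false) (h3 : α 58 = false) (h4 : α 450 = false) : False :=
  rf h false 0 3 2 57 444 58 450 (by decide +kernel) h1 h2 h3 h4

theorem c1408 (h : Good α) (h1 : α 57 = true) (h2 : α 444 = true) (h3 : α 58 = true) (h4 : α 450 = true) : False :=
  rf h true 0 3 2 57 444 58 450 (by decide +kernel) h1 h2 h3 h4

theorem c1409 (h : Good α) (h1 : α 94 = false) (h2 : α 57 = false) (h3 : α 92 = false) : False :=
  af h false 0 94 57 92 (by decide +kernel) h1 h2 h3

theorem c1410 (h : Good α) (h1 : α 94 = true) (h2 : α 57 = true) (h3 : α 92 = true) : False :=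
  af h true 0 94 57 92 (by decide +kernel) h1 h2 h3

theorem c1411 (h : Good α) (h1 : α 200 = false) (h2 : α 236 = false) (h3 : α 57 = false) (h4 : α 92 = false) : False :=
  rf h false 0 1 1 200 236 57 92 (by decide +kernel) h1 h2 h3 h4

theorem c1412 (h : Good α) (h1 : α 200 = true) (h2 : α 236 = true) (h3 : α 57 = true) (h4 : α 92 = true) : False :=
  rf h true 0 1 1 200 236 57 92 (by decide +kernel) h1 h2 h3 h4

theorem c1413 (h : Good α) (h1 : α 57 = false) (h2 : α 92 = false) (h3 : α 201 = false) (h4 : α 242 = false) : False :=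
  rf h false 0 1 3 57 92 201 242 (by decide +kernel) h1 h2 h3 h4

theorem c1414 (h : Good α) (h1 : α 57 = true) (h2 : α 92 = true) (h3 : α 201 = true) (h4 : α 242 = true) : False :=
  rf h true 0 1 3 57 92 201 242 (by decide +kernel) h1 h2 h3 h4

theorem c1415 (h : Good α) (h1 : α 57 = false) (h2 : α 92 = false) (h3 : α 238 = false) : False :=
  af h false 0 57 92 238 (by decide +kernel) h1 h2 h3

theorem c1416 (h : Good α) (h1 : α 57 = true) (h2 : α 92 = true) (h3 : α 238 = true) : False :=
  af h true 0 57 92 238 (by decide +kernel) h1 h2 h3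

theorem c1417 (h : Good α) (h1 : α 57 = false) (h2 : α 92 = false) (h3 : α 406 = false) (h4 : α 447 = false) : False :=
  rf h false 0 1 4 57 92 406 447 (by decide +kernel) h1 h2 h3 h4

theorem c1418 (h : Good α) (h1 : α 57 = true) (h2 : α 92 = true) (h3 : α 406 = true) (h4 : α 447 = true) : False :=
  rf h true 0 1 4 57 92 406 447 (by decide +kernel) h1 h2 h3 h4

theorem c1419 (h : Good α) (h1 : α 239 = true) (h2 : α 200 = true) (h3 : α 94 = true) (h4 : α 57 = true) : False :=
  rf h true 0 1 1 239 200 94 57 (by decide +kernel) h1 h2 h3 h4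

theorem c1420 (h : Good α) (h1 : α 94 = false) (h2 : α 57 = false) (h3 : α 233 = false) (h4 : α 201 = false) : False :=
  rf h false 0 1 3 94 57 233 201 (by decide +kernel) h1 h2 h3 h4

theorem c1421 (h : Good α) (h1 : α 94 = true) (h2 : α 57 = true) (h3 : α 233 = true) (h4 : α 201 = true) : False :=
  rf h true 0 1 3 94 57 233 201 (by decide +kernel) h1 h2 h3 h4

theorem c1422 (h : Good α) (h1 : α 249 = false) (h2 : α 94 = false) (h3 : α 57 = false) : False :=
  af h false 0 249 94 57 (by decide +kernel) h1 h2 h3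

theorem c1423 (h : Good α) (h1 : α 249 = true) (h2 : α 94 = true) (h3 : α 57 = true) : False :=
  af h true 0 249 94 57 (by decide +kernel) h1 h2 h3

theorem c1424 (h : Good α) (h1 : α 446 = true) (h2 : α 405 = true) (h3 : α 94 = true) (h4 : α 57 = true) : False :=
  rf h true 0 1 2 446 405 94 57 (by decide +kernel) h1 h2 h3 h4

theorem c1425 (h : Good α) (h1 : α 94 = false) (h2 : α 57 = false) (h3 : α 439 = false) (h4 : α 406 = false) : False :=
  rf h false 0 1 4 94 57 439 406 (by decide +kernel) h1 h2 h3 h4

theorem c1426 (h : Good α) (h1 : α 94 = true) (h2 : α 57 = true) (h3 : α 439 = true) (h4 : α 406 = true) : False :=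
  rf h true 0 1 4 94 57 439 406 (by decide +kernel) h1 h2 h3 h4

theorem c1427 (h : Good α) (h1 : α 320 = false) (h2 : α 148 = false) (h3 : α 57 = false) : False :=
  af h false 5 320 148 57 (by decide +kernel) h1 h2 h3

theorem c1428 (h : Good α) (h1 : α 320 = true) (h2 : α 148 = true) (h3 : α 57 = true) : False :=
  af h true 5 320 148 57 (by decide +kernel) h1 h2 h3

theorem c1429 (h : Good α) (h1 : α 398 = false) (h2 : α 57 = false) (h3 : α 460 = false) (h4 : α 151 = false) : False :=
  rf h false 2 2 2 398 57 460 151 (by decide +kernel) h1 h2 h3 h4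

theorem c1430 (h : Good α) (h1 : α 329 = false) (h2 : α 155 = false) (h3 : α 57 = false) : False :=
  af h false 1 329 155 57 (by decide +kernel) h1 h2 h3

theorem c1431 (h : Good α) (h1 : α 184 = true) (h2 : α 416 = true) (h3 : α 57 = true) (h4 : α 322 = true) : False :=
  rf h true 1 3 1 184 416 57 322 (by decide +kernel) h1 h2 h3 h4

theorem c1432 (h : Good α) (h1 : α 383 = false) (h2 : α 184 = false) (h3 : α 57 = false) : False :=
  af h false 4 383 184 57 (by decide +kernel) h1 h2 h3

theorem c1433 (h : Good α) (h1 : α 383 = true) (h2 : α 184 = true) (h3 : α 57 = true) : False :=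
  af h true 4 383 184 57 (by decide +kernel) h1 h2 h3

theorem c1434 (h : Good α) (h1 : α 398 = false) (h2 : α 188 = false) (h3 : α 57 = false) : False :=
  af h false 2 398 188 57 (by decide +kernel) h1 h2 h3

theorem c1435 (h : Good α) (h1 : α 398 = true) (h2 : α 188 = true) (h3 : α 57 = true) : False :=
  af h true 2 398 188 57 (by decide +kernel) h1 h2 h3

theorem c1436 (h : Good α) (h1 : α 353 = true) (h2 : α 200 = true) (h3 : α 249 = true) (h4 : α 57 = true) : False :=
  rf h true 0 2 1 353 200 249 57 (by decide +kernel) h1 h2 h3 h4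

theorem c1437 (h : Good α) (h1 : α 405 = false) (h2 : α 200 = false) (h3 : α 57 = false) : False :=
  af h false 3 405 200 57 (by decide +kernel) h1 h2 h3

theorem c1438 (h : Good α) (h1 : α 405 = true) (h2 : α 200 = true) (h3 : α 57 = true) : False :=
  af h true 3 405 200 57 (by decide +kernel) h1 h2 h3

theorem c1439 (h : Good α) (h1 : α 200 = false) (h2 : α 544 = false) (h3 : α 57 = false) (h4 : α 444 = false) : False :=
  rf h false 0 3 1 200 544 57 444 (by decide +kernel) h1 h2 h3 h4

theorem c1440 (h : Good α) (h1 : α 547 = false) (h2 : α 200 = false) (h3 : α 449 = false) (h4 : α 57 = false) : False :=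
  rf h false 0 3 1 547 200 449 57 (by decide +kernel) h1 h2 h3 h4

theorem c1441 (h : Good α) (h1 : α 57 = false) (h2 : α 238 = false) (h3 : α 201 = false) (h4 : α 354 = false) : False :=
  rf h false 0 2 3 57 238 201 354 (by decide +kernel) h1 h2 h3 h4

theorem c1442 (h : Good α) (h1 : α 57 = true) (h2 : α 238 = true) (h3 : α 201 = true) (h4 : α 354 = true) : False :=
  rf h true 0 2 3 57 238 201 354 (by decide +kernel) h1 h2 h3 h4

theorem c1443 (h : Good α) (h1 : α 249 = false) (h2 : α 57 = false) (h3 : α 351 = false) (h4 : α 201 = false) : False :=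
  rf h false 0 2 3 249 57 351 201 (by decide +kernel) h1 h2 h3 h4

theorem c1444 (h : Good α) (h1 : α 249 = true) (h2 : α 57 = true) (h3 : α 351 = true) (h4 : α 201 = true) : False :=
  rf h true 0 2 3 249 57 351 201 (by decide +kernel) h1 h2 h3 h4

theorem c1445 (h : Good α) (h1 : α 405 = false) (h2 : α 535 = false) (h3 : α 57 = false) (h4 : α 238 = false) : False :=
  rf h false 0 2 2 405 535 57 238 (by decide +kernel) h1 h2 h3 h4

theorem c1446 (h : Good α) (h1 : α 57 = false) (h2 : α 238 = false) (h3 : α 406 = false) (h4 : α 546 = false) : False :=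
  rf h false 0 2 4 57 238 406 546 (by decide +kernel) h1 h2 h3 h4

theorem c1447 (h : Good α) (h1 : α 57 = true) (h2 : α 238 = true) (h3 : α 406 = true) (h4 : α 546 = true) : False :=
  rf h true 0 2 4 57 238 406 546 (by decide +kernel) h1 h2 h3 h4

theorem c1448 (h : Good α) (h1 : α 249 = false) (h2 : α 57 = false) (h3 : α 534 = false) (h4 : α 406 = false) : False :=
  rf h false 0 2 4 249 57 534 406 (by decide +kernel) h1 h2 h3 h4

theorem c1449 (h : Good α) (h1 : α 249 = true) (h2 : α 57 = true) (h3 : α 534 = true) (h4 : α 406 = true) : False :=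
  rf h true 0 2 4 249 57 534 406 (by decide +kernel) h1 h2 h3 h4

theorem c1450 (h : Good α) (h1 : α 77 = false) (h2 : α 60 = false) (h3 : α 84 = false) (h4 : α 58 = false) : False :=
  rf h false 2 2 1 77 60 84 58 (by decide +kernel) h1 h2 h3 h4

theorem c1451 (h : Good α) (h1 : α 60 = false) (h2 : α 58 = false) (h3 : α 147 = false) : False :=
  af h false 5 60 58 147 (by decide +kernel) h1 h2 h3

theorem c1452 (h : Good α) (h1 : α 60 = true) (h2 : α 58 = true) (h3 : α 147 = true) : False :=
  af h true 5 60 58 147 (by decide +kernel) h1 h2 h3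

theorem c1453 (h : Good α) (h1 : α 152 = false) (h2 : α 60 = false) (h3 : α 58 = false) : False :=
  af h false 5 152 60 58 (by decide +kernel) h1 h2 h3

theorem c1454 (h : Good α) (h1 : α 152 = true) (h2 : α 60 = true) (h3 : α 58 = true) : False :=
  af h true 5 152 60 58 (by decide +kernel) h1 h2 h3

theorem c1455 (h : Good α) (h1 : α 60 = false) (h2 : α 186 = false) (h3 : α 58 = false) (h4 : α 189 = false) : False :=
  rf h false 2 1 1 60 186 58 189 (by decide +kernel) h1 h2 h3 h4

theorem c1456 (h : Good α) (h1 : α 91 = false) (h2 : α 58 = false) (h3 : α 97 = false) : False :=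
  af h false 0 91 58 97 (by decide +kernel) h1 h2 h3

theorem c1457 (h : Good α) (h1 : α 91 = true) (h2 : α 58 = true) (h3 : α 97 = true) : False :=
  af h true 0 91 58 97 (by decide +kernel) h1 h2 h3

theorem c1458 (h : Good α) (h1 : α 239 = false) (h2 : α 200 = false) (h3 : α 91 = false) (h4 : α 58 = false) : False :=
  rf h false 0 1 3 239 200 91 58 (by decide +kernel) h1 h2 h3 h4

theorem c1459 (h : Good α) (h1 : α 239 = true) (h2 : α 200 = true) (h3 : α 91 = true) (h4 : α 58 = true) : False :=
  rf h true 0 1 3 239 200 91 58 (by decide +kernel) h1 h2 h3 h4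

theorem c1460 (h : Good α) (h1 : α 91 = false) (h2 : α 58 = false) (h3 : α 233 = false) (h4 : α 201 = false) : False :=
  rf h false 0 1 1 91 58 233 201 (by decide +kernel) h1 h2 h3 h4

theorem c1461 (h : Good α) (h1 : α 237 = false) (h2 : α 91 = false) (h3 : α 58 = false) : False :=
  af h false 0 237 91 58 (by decide +kernel) h1 h2 h3

theorem c1462 (h : Good α) (h1 : α 237 = true) (h2 : α 91 = true) (h3 : α 58 = true) : False :=
  af h true 0 237 91 58 (by decide +kernel) h1 h2 h3

theorem c1463 (h : Good α) (h1 : α 446 = false) (h2 : α 405 = false) (h3 : α 91 = false) (h4 : α 58 = false) : False :=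
  rf h false 0 1 4 446 405 91 58 (by decide +kernel) h1 h2 h3 h4

theorem c1464 (h : Good α) (h1 : α 91 = true) (h2 : α 58 = true) (h3 : α 439 = true) (h4 : α 406 = true) : False :=
  rf h true 0 1 2 91 58 439 406 (by decide +kernel) h1 h2 h3 h4

theorem c1465 (h : Good α) (h1 : α 200 = false) (h2 : α 236 = false) (h3 : α 58 = false) (h4 : α 97 = false) : False :=
  rf h false 0 1 3 200 236 58 97 (by decide +kernel) h1 h2 h3 h4

theorem c1466 (h : Good α) (h1 : α 200 = true) (h2 : α 236 = true) (h3 : α 58 = true) (h4 : α 97 = true) : False :=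
  rf h true 0 1 3 200 236 58 97 (by decide +kernel) h1 h2 h3 h4

theorem c1467 (h : Good α) (h1 : α 58 = false) (h2 : α 97 = false) (h3 : α 201 = false) (h4 : α 242 = false) : False :=
  rf h false 0 1 1 58 97 201 242 (by decide +kernel) h1 h2 h3 h4

theorem c1468 (h : Good α) (h1 : α 58 = false) (h2 : α 97 = false) (h3 : α 250 = false) : False :=
  af h false 0 58 97 250 (by decide +kernel) h1 h2 h3

theorem c1469 (h : Good α) (h1 : α 58 = true) (h2 : α 97 = true) (h3 : α 250 = true) : False :=
  af h true 0 58 97 250 (by decide +kernel) h1 h2 h3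

theorem c1470 (h : Good α) (h1 : α 405 = false) (h2 : α 442 = false) (h3 : α 58 = false) (h4 : α 97 = false) : False :=
  rf h false 0 1 4 405 442 58 97 (by decide +kernel) h1 h2 h3 h4

theorem c1471 (h : Good α) (h1 : α 58 = true) (h2 : α 97 = true) (h3 : α 406 = true) (h4 : α 447 = true) : False :=
  rf h true 0 1 2 58 97 406 447 (by decide +kernel) h1 h2 h3 h4

theorem c1472 (h : Good α) (h1 : α 58 = false) (h2 : α 189 = false) (h3 : α 147 = false) (h4 : α 268 = false) : False :=
  rf h false 2 1 1 58 189 147 268 (by decide +kernel) h1 h2 h3 h4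

theorem c1473 (h : Good α) (h1 : α 58 = true) (h2 : α 147 = true) (h3 : α 317 = true) : False :=
  af h true 5 58 147 317 (by decide +kernel) h1 h2 h3

theorem c1474 (h : Good α) (h1 : α 151 = false) (h2 : α 58 = false) (h3 : α 258 = false) (h4 : α 183 = false) : False :=
  rf h false 1 2 1 151 58 258 183 (by decide +kernel) h1 h2 h3 h4

theorem c1475 (h : Good α) (h1 : α 152 = false) (h2 : α 255 = false) (h3 : α 58 = false) (h4 : α 189 = false) : False :=
  rf h false 2 1 2 152 255 58 189 (by decide +kernel) h1 h2 h3 h4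

theorem c1476 (h : Good α) (h1 : α 152 = false) (h2 : α 461 = false) (h3 : α 58 = false) (h4 : α 399 = false) : False :=
  rf h false 2 2 2 152 461 58 399 (by decide +kernel) h1 h2 h3 h4

theorem c1477 (h : Good α) (h1 : α 58 = false) (h2 : α 156 = false) (h3 : α 183 = false) (h4 : α 265 = false) : False :=
  rf h false 1 1 1 58 156 183 265 (by decide +kernel) h1 h2 h3 h4

theorem c1478 (h : Good α) (h1 : α 58 = true) (h2 : α 156 = true) (h3 : α 183 = true) (h4 : α 265 = true) : False :=
  rf h true 1 1 1 58 156 183 265 (by decide +kernel) h1 h2 h3 h4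

theorem c1479 (h : Good α) (h1 : α 58 = true) (h2 : α 156 = true) (h3 : α 332 = true) : False :=
  af h true 1 58 156 332 (by decide +kernel) h1 h2 h3

theorem c1480 (h : Good α) (h1 : α 315 = false) (h2 : α 58 = false) (h3 : α 412 = false) (h4 : α 183 = false) : False :=
  rf h false 1 3 1 315 58 412 183 (by decide +kernel) h1 h2 h3 h4

theorem c1481 (h : Good α) (h1 : α 58 = false) (h2 : α 183 = false) (h3 : α 380 = false) : False :=
  af h false 4 58 183 380 (by decide +kernel) h1 h2 h3

theorem c1482 (h : Good α) (h1 : α 58 = true) (h2 : α 183 = true) (h3 : α 380 = true) : False :=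
  af h true 4 58 183 380 (by decide +kernel) h1 h2 h3

theorem c1483 (h : Good α) (h1 : α 321 = false) (h2 : α 421 = false) (h3 : α 58 = false) (h4 : α 189 = false) : False :=
  rf h false 2 1 3 321 421 58 189 (by decide +kernel) h1 h2 h3 h4

theorem c1484 (h : Good α) (h1 : α 58 = false) (h2 : α 189 = false) (h3 : α 399 = false) : False :=
  af h false 2 58 189 399 (by decide +kernel) h1 h2 h3

theorem c1485 (h : Good α) (h1 : α 58 = true) (h2 : α 189 = true) (h3 : α 399 = true) : False :=
  af h true 2 58 189 399 (by decide +kernel) h1 h2 h3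

theorem c1486 (h : Good α) (h1 : α 353 = false) (h2 : α 200 = false) (h3 : α 237 = false) (h4 : α 58 = false) : False :=
  rf h false 0 2 3 353 200 237 58 (by decide +kernel) h1 h2 h3 h4

theorem c1487 (h : Good α) (h1 : α 353 = true) (h2 : α 200 = true) (h3 : α 237 = true) (h4 : α 58 = true) : False :=
  rf h true 0 2 3 353 200 237 58 (by decide +kernel) h1 h2 h3 h4

theorem c1488 (h : Good α) (h1 : α 200 = false) (h2 : α 352 = false) (h3 : α 58 = false) (h4 : α 250 = false) : False :=
  rf h false 0 2 3 200 352 58 250 (by decide +kernel) h1 h2 h3 h4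

theorem c1489 (h : Good α) (h1 : α 200 = true) (h2 : α 352 = true) (h3 : α 58 = true) (h4 : α 250 = true) : False :=
  rf h true 0 2 3 200 352 58 250 (by decide +kernel) h1 h2 h3 h4

theorem c1490 (h : Good α) (h1 : α 58 = false) (h2 : α 250 = false) (h3 : α 201 = false) (h4 : α 354 = false) : False :=
  rf h false 0 2 1 58 250 201 354 (by decide +kernel) h1 h2 h3 h4

theorem c1491 (h : Good α) (h1 : α 58 = false) (h2 : α 201 = false) (h3 : α 406 = false) : False :=
  af h false 3 58 201 406 (by decide +kernel) h1 h2 h3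

theorem c1492 (h : Good α) (h1 : α 58 = true) (h2 : α 201 = true) (h3 : α 406 = true) : False :=
  af h true 3 58 201 406 (by decide +kernel) h1 h2 h3

theorem c1493 (h : Good α) (h1 : α 443 = false) (h2 : α 58 = false) (h3 : α 543 = false) (h4 : α 201 = false) : False :=
  rf h false 0 3 1 443 58 543 201 (by decide +kernel) h1 h2 h3 h4

theorem c1494 (h : Good α) (h1 : α 58 = false) (h2 : α 450 = false) (h3 : α 201 = false) (h4 : α 548 = false) : False :=
  rf h false 0 3 1 58 450 201 548 (by decide +kernel) h1 h2 h3 h4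

theorem c1495 (h : Good α) (h1 : α 545 = false) (h2 : α 405 = false) (h3 : α 237 = false) (h4 : α 58 = false) : False :=
  rf h false 0 2 4 545 405 237 58 (by decide +kernel) h1 h2 h3 h4

theorem c1496 (h : Good α) (h1 : α 545 = true) (h2 : α 405 = true) (h3 : α 237 = true) (h4 : α 58 = true) : False :=
  rf h true 0 2 4 545 405 237 58 (by decide +kernel) h1 h2 h3 h4

theorem c1497 (h : Good α) (h1 : α 237 = true) (h2 : α 58 = true) (h3 : α 534 = true) (h4 : α 406 = true) : False :=
  rf h true 0 2 2 237 58 534 406 (by decide +kernel) h1 h2 h3 h4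

theorem c1498 (h : Good α) (h1 : α 405 = false) (h2 : α 535 = false) (h3 : α 58 = false) (h4 : α 250 = false) : False :=
  rf h false 0 2 4 405 535 58 250 (by decide +kernel) h1 h2 h3 h4

theorem c1499 (h : Good α) (h1 : α 149 = false) (h2 : α 61 = false) (h3 : α 59 = false) : False :=
  af h false 4 149 61 59 (by decide +kernel) h1 h2 h3

theorem c1500 (h : Good α) (h1 : α 61 = true) (h2 : α 59 = true) (h3 : α 150 = true) : False :=
  af h true 4 61 59 150 (by decide +kernel) h1 h2 h3

theorem c1501 (h : Good α) (h1 : α 164 = false) (h2 : α 149 = false) (h3 : α 69 = false) (h4 : α 59 = false) : False :=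
  rf h false 1 2 2 164 149 69 59 (by decide +kernel) h1 h2 h3 h4

theorem c1502 (h : Good α) (h1 : α 71 = false) (h2 : α 161 = false) (h3 : α 59 = false) (h4 : α 157 = false) : False :=
  rf h false 0 1 2 71 161 59 157 (by decide +kernel) h1 h2 h3 h4

theorem c1503 (h : Good α) (h1 : α 71 = true) (h2 : α 161 = true) (h3 : α 59 = true) (h4 : α 157 = true) : False :=
  rf h true 0 1 2 71 161 59 157 (by decide +kernel) h1 h2 h3 h4

theorem c1504 (h : Good α) (h1 : α 89 = false) (h2 : α 59 = false) (h3 : α 87 = false) : False :=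
  af h false 5 89 59 87 (by decide +kernel) h1 h2 h3

theorem c1505 (h : Good α) (h1 : α 89 = true) (h2 : α 59 = true) (h3 : α 87 = true) : False :=
  af h true 5 89 59 87 (by decide +kernel) h1 h2 h3

theorem c1506 (h : Good α) (h1 : α 199 = false) (h2 : α 59 = false) (h3 : α 243 = false) (h4 : α 87 = false) : False :=
  rf h false 2 3 1 199 59 243 87 (by decide +kernel) h1 h2 h3 h4

theorem c1507 (h : Good α) (h1 : α 199 = true) (h2 : α 59 = true) (h3 : α 243 = true) (h4 : α 87 = true) : False :=
  rf h true 2 3 1 199 59 243 87 (by decide +kernel) h1 h2 h3 h4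

theorem c1508 (h : Good α) (h1 : α 59 = false) (h2 : α 87 = false) (h3 : α 234 = false) : False :=
  af h false 5 59 87 234 (by decide +kernel) h1 h2 h3

theorem c1509 (h : Good α) (h1 : α 59 = true) (h2 : α 87 = true) (h3 : α 234 = true) : False :=
  af h true 5 59 87 234 (by decide +kernel) h1 h2 h3

theorem c1510 (h : Good α) (h1 : α 241 = false) (h2 : α 89 = false) (h3 : α 59 = false) : False :=
  af h false 5 241 89 59 (by decide +kernel) h1 h2 h3

theorem c1511 (h : Good α) (h1 : α 241 = true) (h2 : α 89 = true) (h3 : α 59 = true) : False :=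
  af h true 5 241 89 59 (by decide +kernel) h1 h2 h3

theorem c1512 (h : Good α) (h1 : α 146 = false) (h2 : α 59 = false) (h3 : α 257 = false) (h4 : α 189 = false) : False :=
  rf h false 0 2 1 146 59 257 189 (by decide +kernel) h1 h2 h3 h4

theorem c1513 (h : Good α) (h1 : α 146 = true) (h2 : α 59 = true) (h3 : α 257 = true) (h4 : α 189 = true) : False :=
  rf h true 0 2 1 146 59 257 189 (by decide +kernel) h1 h2 h3 h4

theorem c1514 (h : Good α) (h1 : α 149 = false) (h2 : α 256 = false) (h3 : α 59 = false) (h4 : α 186 = false) : False :=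
  rf h false 1 1 2 149 256 59 186 (by decide +kernel) h1 h2 h3 h4

theorem c1515 (h : Good α) (h1 : α 59 = true) (h2 : α 186 = true) (h3 : α 150 = true) (h4 : α 267 = true) : False :=
  rf h true 1 1 1 59 186 150 267 (by decide +kernel) h1 h2 h3 h4

theorem c1516 (h : Good α) (h1 : α 59 = true) (h2 : α 150 = true) (h3 : α 313 = true) : False :=
  af h true 4 59 150 313 (by decide +kernel) h1 h2 h3

theorem c1517 (h : Good α) (h1 : α 59 = true) (h2 : α 388 = true) (h3 : α 150 = true) (h4 : α 464 = true) : False :=
  rf h true 1 2 1 59 388 150 464 (by decide +kernel) h1 h2 h3 h4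

theorem c1518 (h : Good α) (h1 : α 59 = true) (h2 : α 157 = true) (h3 : α 189 = true) (h4 : α 273 = true) : False :=
  rf h true 0 1 1 59 157 189 273 (by decide +kernel) h1 h2 h3 h4

theorem c1519 (h : Good α) (h1 : α 59 = true) (h2 : α 157 = true) (h3 : α 334 = true) : False :=
  af h true 0 59 157 334 (by decide +kernel) h1 h2 h3

theorem c1520 (h : Good α) (h1 : α 59 = true) (h2 : α 157 = true) (h3 : α 387 = true) (h4 : α 462 = true) : False :=
  rf h true 0 1 2 59 157 387 462 (by decide +kernel) h1 h2 h3 h4

theorem c1521 (h : Good α) (h1 : α 325 = true) (h2 : α 418 = true) (h3 : α 59 = true) (h4 : α 186 = true) : False :=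
  rf h true 1 1 3 325 418 59 186 (by decide +kernel) h1 h2 h3 h4

theorem c1522 (h : Good α) (h1 : α 59 = true) (h2 : α 186 = true) (h3 : α 388 = true) : False :=
  af h true 1 59 186 388 (by decide +kernel) h1 h2 h3

theorem c1523 (h : Good α) (h1 : α 326 = false) (h2 : α 59 = false) (h3 : α 423 = false) (h4 : α 189 = false) : False :=
  rf h false 0 3 1 326 59 423 189 (by decide +kernel) h1 h2 h3 h4

theorem c1524 (h : Good α) (h1 : α 326 = true) (h2 : α 59 = true) (h3 : α 423 = true) (h4 : α 189 = true) : False :=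
  rf h true 0 3 1 326 59 423 189 (by decide +kernel) h1 h2 h3 h4

theorem c1525 (h : Good α) (h1 : α 59 = true) (h2 : α 334 = true) (h3 : α 189 = true) (h4 : α 430 = true) : False :=
  rf h true 0 2 1 59 334 189 430 (by decide +kernel) h1 h2 h3 h4

theorem c1526 (h : Good α) (h1 : α 59 = false) (h2 : α 189 = false) (h3 : α 387 = false) : False :=
  af h false 3 59 189 387 (by decide +kernel) h1 h2 h3

theorem c1527 (h : Good α) (h1 : α 59 = true) (h2 : α 189 = true) (h3 : α 387 = true) : False :=
  af h true 3 59 189 387 (by decide +kernel) h1 h2 h3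

theorem c1528 (h : Good α) (h1 : α 59 = true) (h2 : α 202 = true) (h3 : α 407 = true) : False :=
  af h true 2 59 202 407 (by decide +kernel) h1 h2 h3

theorem c1529 (h : Good α) (h1 : α 93 = true) (h2 : α 60 = true) (h3 : α 95 = true) : False :=
  af h true 4 93 60 95 (by decide +kernel) h1 h2 h3

theorem c1530 (h : Good α) (h1 : α 248 = true) (h2 : α 93 = true) (h3 : α 198 = true) (h4 : α 60 = true) : False :=
  rf h true 1 3 1 248 93 198 60 (by decide +kernel) h1 h2 h3 h4

theorem c1531 (h : Good α) (h1 : α 232 = false) (h2 : α 93 = false) (h3 : α 60 = false) : False :=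
  af h false 4 232 93 60 (by decide +kernel) h1 h2 h3

theorem c1532 (h : Good α) (h1 : α 441 = false) (h2 : α 93 = false) (h3 : α 403 = false) (h4 : α 60 = false) : False :=
  rf h false 1 4 1 441 93 403 60 (by decide +kernel) h1 h2 h3 h4

theorem c1533 (h : Good α) (h1 : α 198 = true) (h2 : α 60 = true) (h3 : α 251 = true) (h4 : α 95 = true) : False :=
  rf h true 1 3 1 198 60 251 95 (by decide +kernel) h1 h2 h3 h4

theorem c1534 (h : Good α) (h1 : α 60 = true) (h2 : α 95 = true) (h3 : α 230 = true) : False :=
  af h true 4 60 95 230 (by decide +kernel) h1 h2 h3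

theorem c1535 (h : Good α) (h1 : α 148 = false) (h2 : α 458 = false) (h3 : α 60 = false) (h4 : α 397 = false) : False :=
  rf h false 0 2 2 148 458 60 397 (by decide +kernel) h1 h2 h3 h4

theorem c1536 (h : Good α) (h1 : α 321 = false) (h2 : α 152 = false) (h3 : α 60 = false) : False :=
  af h false 5 321 152 60 (by decide +kernel) h1 h2 h3

theorem c1537 (h : Good α) (h1 : α 60 = true) (h2 : α 190 = true) (h3 : α 156 = true) (h4 : α 274 = true) : False :=
  rf h true 0 1 1 60 190 156 274 (by decide +kernel) h1 h2 h3 h4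

theorem c1538 (h : Good α) (h1 : α 60 = true) (h2 : α 156 = true) (h3 : α 331 = true) : False :=
  af h true 3 60 156 331 (by decide +kernel) h1 h2 h3

theorem c1539 (h : Good α) (h1 : α 60 = false) (h2 : α 186 = false) (h3 : α 395 = false) : False :=
  af h false 2 60 186 395 (by decide +kernel) h1 h2 h3

theorem c1540 (h : Good α) (h1 : α 60 = false) (h2 : α 190 = false) (h3 : α 397 = false) : False :=
  af h false 0 60 190 397 (by decide +kernel) h1 h2 h3

theorem c1541 (h : Good α) (h1 : α 198 = false) (h2 : α 60 = false) (h3 : α 350 = false) (h4 : α 230 = false) : False :=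
  rf h false 1 3 2 198 60 350 230 (by decide +kernel) h1 h2 h3 h4

theorem c1542 (h : Good α) (h1 : α 164 = false) (h2 : α 149 = false) (h3 : α 78 = false) (h4 : α 61 = false) : False :=
  rf h false 1 2 1 164 149 78 61 (by decide +kernel) h1 h2 h3 h4

theorem c1543 (h : Good α) (h1 : α 78 = true) (h2 : α 61 = true) (h3 : α 170 = true) (h4 : α 150 = true) : False :=
  rf h true 1 2 2 78 61 170 150 (by decide +kernel) h1 h2 h3 h4

theorem c1544 (h : Good α) (h1 : α 92 = false) (h2 : α 61 = false) (h3 : α 97 = false) : False :=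
  af h false 3 92 61 97 (by decide +kernel) h1 h2 h3

theorem c1545 (h : Good α) (h1 : α 92 = true) (h2 : α 61 = true) (h3 : α 97 = true) : False :=
  af h true 3 92 61 97 (by decide +kernel) h1 h2 h3

theorem c1546 (h : Good α) (h1 : α 249 = false) (h2 : α 92 = false) (h3 : α 197 = false) (h4 : α 61 = false) : False :=
  rf h false 0 3 1 249 92 197 61 (by decide +kernel) h1 h2 h3 h4

theorem c1547 (h : Good α) (h1 : α 249 = true) (h2 : α 92 = true) (h3 : α 197 = true) (h4 : α 61 = true) : False :=
  rf h true 0 3 1 249 92 197 61 (by decide +kernel) h1 h2 h3 h4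

theorem c1548 (h : Good α) (h1 : α 236 = false) (h2 : α 92 = false) (h3 : α 61 = false) : False :=
  af h false 3 236 92 61 (by decide +kernel) h1 h2 h3

theorem c1549 (h : Good α) (h1 : α 236 = true) (h2 : α 92 = true) (h3 : α 61 = true) : False :=
  af h true 3 236 92 61 (by decide +kernel) h1 h2 h3

theorem c1550 (h : Good α) (h1 : α 449 = false) (h2 : α 92 = false) (h3 : α 402 = false) (h4 : α 61 = false) : False :=
  rf h false 0 4 1 449 92 402 61 (by decide +kernel) h1 h2 h3 h4

theorem c1551 (h : Good α) (h1 : α 449 = true) (h2 : α 92 = true) (h3 : α 402 = true) (h4 : α 61 = true) : False :=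
  rf h true 0 4 1 449 92 402 61 (by decide +kernel) h1 h2 h3 h4

theorem c1552 (h : Good α) (h1 : α 92 = true) (h2 : α 444 = true) (h3 : α 61 = true) (h4 : α 409 = true) : False :=
  rf h true 0 2 1 92 444 61 409 (by decide +kernel) h1 h2 h3 h4

theorem c1553 (h : Good α) (h1 : α 197 = false) (h2 : α 61 = false) (h3 : α 237 = false) (h4 : α 97 = false) : False :=
  rf h false 0 3 1 197 61 237 97 (by decide +kernel) h1 h2 h3 h4

theorem c1554 (h : Good α) (h1 : α 197 = true) (h2 : α 61 = true) (h3 : α 237 = true) (h4 : α 97 = true) : False :=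
  rf h true 0 3 1 197 61 237 97 (by decide +kernel) h1 h2 h3 h4

theorem c1555 (h : Good α) (h1 : α 61 = true) (h2 : α 204 = true) (h3 : α 97 = true) (h4 : α 250 = true) : False :=
  rf h true 0 1 1 61 204 97 250 (by decide +kernel) h1 h2 h3 h4

theorem c1556 (h : Good α) (h1 : α 61 = false) (h2 : α 97 = false) (h3 : α 242 = false) : False :=
  af h false 3 61 97 242 (by decide +kernel) h1 h2 h3

theorem c1557 (h : Good α) (h1 : α 61 = true) (h2 : α 97 = true) (h3 : α 242 = true) : False :=
  af h true 3 61 97 242 (by decide +kernel) h1 h2 h3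

theorem c1558 (h : Good α) (h1 : α 402 = true) (h2 : α 61 = true) (h3 : α 443 = true) (h4 : α 97 = true) : False :=
  rf h true 0 4 1 402 61 443 97 (by decide +kernel) h1 h2 h3 h4

theorem c1559 (h : Good α) (h1 : α 61 = true) (h2 : α 409 = true) (h3 : α 97 = true) (h4 : α 450 = true) : False :=
  rf h true 0 2 1 61 409 97 450 (by decide +kernel) h1 h2 h3 h4

theorem c1560 (h : Good α) (h1 : α 149 = false) (h2 : α 256 = false) (h3 : α 61 = false) (h4 : α 190 = false) : False :=
  rf h false 1 1 1 149 256 61 190 (by decide +kernel) h1 h2 h3 h4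

theorem c1561 (h : Good α) (h1 : α 325 = false) (h2 : α 149 = false) (h3 : α 61 = false) : False :=
  af h false 4 325 149 61 (by decide +kernel) h1 h2 h3

theorem c1562 (h : Good α) (h1 : α 149 = false) (h2 : α 474 = false) (h3 : α 61 = false) (h4 : α 396 = false) : False :=
  rf h false 1 2 1 149 474 61 396 (by decide +kernel) h1 h2 h3 h4

theorem c1563 (h : Good α) (h1 : α 61 = true) (h2 : α 190 = true) (h3 : α 150 = true) (h4 : α 267 = true) : False :=
  rf h true 1 1 2 61 190 150 267 (by decide +kernel) h1 h2 h3 h4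

theorem c1564 (h : Good α) (h1 : α 261 = true) (h2 : α 192 = true) (h3 : α 153 = true) (h4 : α 61 = true) : False :=
  rf h true 2 2 1 261 192 153 61 (by decide +kernel) h1 h2 h3 h4

theorem c1565 (h : Good α) (h1 : α 192 = false) (h2 : α 276 = false) (h3 : α 61 = false) (h4 : α 157 = false) : False :=
  rf h false 2 1 1 192 276 61 157 (by decide +kernel) h1 h2 h3 h4

theorem c1566 (h : Good α) (h1 : α 192 = true) (h2 : α 276 = true) (h3 : α 61 = true) (h4 : α 157 = true) : False :=
  rf h true 2 1 1 192 276 61 157 (by decide +kernel) h1 h2 h3 h4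

theorem c1567 (h : Good α) (h1 : α 61 = false) (h2 : α 157 = false) (h3 : α 333 = false) : False :=
  af h false 2 61 157 333 (by decide +kernel) h1 h2 h3

theorem c1568 (h : Good α) (h1 : α 61 = true) (h2 : α 157 = true) (h3 : α 333 = true) : False :=
  af h true 2 61 157 333 (by decide +kernel) h1 h2 h3

theorem c1569 (h : Good α) (h1 : α 382 = false) (h2 : α 470 = false) (h3 : α 61 = false) (h4 : α 157 = false) : False :=
  rf h false 2 1 2 382 470 61 157 (by decide +kernel) h1 h2 h3 h4

theorem c1570 (h : Good α) (h1 : α 61 = false) (h2 : α 190 = false) (h3 : α 396 = false) : False :=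
  af h false 1 61 190 396 (by decide +kernel) h1 h2 h3

theorem c1571 (h : Good α) (h1 : α 61 = true) (h2 : α 190 = true) (h3 : α 396 = true) : False :=
  af h true 1 61 190 396 (by decide +kernel) h1 h2 h3

theorem c1572 (h : Good α) (h1 : α 415 = false) (h2 : α 192 = false) (h3 : α 323 = false) (h4 : α 61 = false) : False :=
  rf h false 2 3 1 415 192 323 61 (by decide +kernel) h1 h2 h3 h4

theorem c1573 (h : Good α) (h1 : α 382 = false) (h2 : α 192 = false) (h3 : α 61 = false) : False :=
  af h false 5 382 192 61 (by decide +kernel) h1 h2 h3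

theorem c1574 (h : Good α) (h1 : α 382 = true) (h2 : α 192 = true) (h3 : α 61 = true) : False :=
  af h true 5 382 192 61 (by decide +kernel) h1 h2 h3

theorem c1575 (h : Good α) (h1 : α 353 = false) (h2 : α 236 = false) (h3 : α 197 = false) (h4 : α 61 = false) : False :=
  rf h false 0 3 2 353 236 197 61 (by decide +kernel) h1 h2 h3 h4

theorem c1576 (h : Good α) (h1 : α 353 = true) (h2 : α 236 = true) (h3 : α 197 = true) (h4 : α 61 = true) : False :=
  rf h true 0 3 2 353 236 197 61 (by decide +kernel) h1 h2 h3 h4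

theorem c1577 (h : Good α) (h1 : α 197 = false) (h2 : α 61 = false) (h3 : α 351 = false) (h4 : α 242 = false) : False :=
  rf h false 0 3 2 197 61 351 242 (by decide +kernel) h1 h2 h3 h4

theorem c1578 (h : Good α) (h1 : α 197 = true) (h2 : α 61 = true) (h3 : α 351 = true) (h4 : α 242 = true) : False :=
  rf h true 0 3 2 197 61 351 242 (by decide +kernel) h1 h2 h3 h4

theorem c1579 (h : Good α) (h1 : α 61 = true) (h2 : α 204 = true) (h3 : α 409 = true) : False :=
  af h true 0 61 204 409 (by decide +kernel) h1 h2 h3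

theorem c1580 (h : Good α) (h1 : α 61 = false) (h2 : α 204 = false) (h3 : α 447 = false) (h4 : α 546 = false) : False :=
  rf h false 0 1 3 61 204 447 546 (by decide +kernel) h1 h2 h3 h4

theorem c1581 (h : Good α) (h1 : α 547 = false) (h2 : α 236 = false) (h3 : α 402 = false) (h4 : α 61 = false) : False :=
  rf h false 0 4 2 547 236 402 61 (by decide +kernel) h1 h2 h3 h4

theorem c1582 (h : Good α) (h1 : α 547 = true) (h2 : α 236 = true) (h3 : α 402 = true) (h4 : α 61 = true) : False :=
  rf h true 0 4 2 547 236 402 61 (by decide +kernel) h1 h2 h3 h4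

theorem c1583 (h : Good α) (h1 : α 402 = false) (h2 : α 61 = false) (h3 : α 543 = false) (h4 : α 242 = false) : False :=
  rf h false 0 4 2 402 61 543 242 (by decide +kernel) h1 h2 h3 h4

theorem c1584 (h : Good α) (h1 : α 402 = true) (h2 : α 61 = true) (h3 : α 543 = true) (h4 : α 242 = true) : False :=
  rf h true 0 4 2 402 61 543 242 (by decide +kernel) h1 h2 h3 h4

theorem c1585 (h : Good α) (h1 : α 61 = true) (h2 : α 409 = true) (h3 : α 242 = true) (h4 : α 548 = true) : False :=
  rf h true 0 2 2 61 409 242 548 (by decide +kernel) h1 h2 h3 h4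

theorem c1586 (h : Good α) (h1 : α 184 = true) (h2 : α 182 = true) (h3 : α 62 = true) (h4 : α 66 = true) : False :=
  rf h true 1 1 3 184 182 62 66 (by decide +kernel) h1 h2 h3 h4

theorem c1587 (h : Good α) (h1 : α 106 = false) (h2 : α 62 = false) (h3 : α 123 = false) : False :=
  af h false 2 106 62 123 (by decide +kernel) h1 h2 h3

theorem c1588 (h : Good α) (h1 : α 106 = true) (h2 : α 62 = true) (h3 : α 123 = true) : False :=
  af h true 2 106 62 123 (by decide +kernel) h1 h2 h3

theorem c1589 (h : Good α) (h1 : α 249 = false) (h2 : α 106 = false) (h3 : α 62 = false) : False :=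
  af h false 2 249 106 62 (by decide +kernel) h1 h2 h3

theorem c1590 (h : Good α) (h1 : α 249 = true) (h2 : α 106 = true) (h3 : α 62 = true) : False :=
  af h true 2 249 106 62 (by decide +kernel) h1 h2 h3

theorem c1591 (h : Good α) (h1 : α 62 = false) (h2 : α 223 = false) (h3 : α 195 = false) (h4 : α 333 = false) : False :=
  rf h false 0 3 1 62 223 195 333 (by decide +kernel) h1 h2 h3 h4

theorem c1592 (h : Good α) (h1 : α 62 = true) (h2 : α 223 = true) (h3 : α 380 = true) (h4 : α 506 = true) : False :=
  rf h true 0 3 2 62 223 380 506 (by decide +kernel) h1 h2 h3 h4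

theorem c1593 (h : Good α) (h1 : α 429 = false) (h2 : α 62 = false) (h3 : α 566 = false) (h4 : α 229 = false) : False :=
  rf h false 2 3 1 429 62 566 229 (by decide +kernel) h1 h2 h3 h4

theorem c1594 (h : Good α) (h1 : α 62 = false) (h2 : α 229 = false) (h3 : α 453 = false) : False :=
  af h false 5 62 229 453 (by decide +kernel) h1 h2 h3

theorem c1595 (h : Good α) (h1 : α 63 = false) (h2 : α 68 = false) (h3 : α 167 = false) : False :=
  af h false 2 63 68 167 (by decide +kernel) h1 h2 h3

theorem c1596 (h : Good α) (h1 : α 63 = true) (h2 : α 68 = true) (h3 : α 167 = true) : False :=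
  af h true 2 63 68 167 (by decide +kernel) h1 h2 h3

theorem c1597 (h : Good α) (h1 : α 175 = false) (h2 : α 63 = false) (h3 : α 68 = false) : False :=
  af h false 2 175 63 68 (by decide +kernel) h1 h2 h3

theorem c1598 (h : Good α) (h1 : α 175 = true) (h2 : α 63 = true) (h3 : α 68 = true) : False :=
  af h true 2 175 63 68 (by decide +kernel) h1 h2 h3

theorem c1599 (h : Good α) (h1 : α 63 = true) (h2 : α 68 = true) (h3 : α 191 = true) (h4 : α 181 = true) : False :=
  rf h true 2 1 3 63 68 191 181 (by decide +kernel) h1 h2 h3 h4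

theorem c1600 (h : Good α) (h1 : α 63 = true) (h2 : α 68 = true) (h3 : α 381 = true) (h4 : α 384 = true) : False :=
  rf h true 2 1 4 63 68 381 384 (by decide +kernel) h1 h2 h3 h4

theorem c1601 (h : Good α) (h1 : α 63 = false) (h2 : α 194 = false) (h3 : α 75 = false) (h4 : α 203 = false) : False :=
  rf h false 0 1 2 63 194 75 203 (by decide +kernel) h1 h2 h3 h4

theorem c1602 (h : Good α) (h1 : α 63 = true) (h2 : α 382 = true) (h3 : α 75 = true) (h4 : α 396 = true) : False :=
  rf h true 0 2 2 63 382 75 396 (by decide +kernel) h1 h2 h3 h4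

theorem c1603 (h : Good α) (h1 : α 107 = false) (h2 : α 63 = false) (h3 : α 124 = false) : False :=
  af h false 1 107 63 124 (by decide +kernel) h1 h2 h3

theorem c1604 (h : Good α) (h1 : α 107 = true) (h2 : α 63 = true) (h3 : α 124 = true) : False :=
  af h true 1 107 63 124 (by decide +kernel) h1 h2 h3

theorem c1605 (h : Good α) (h1 : α 269 = false) (h2 : α 235 = false) (h3 : α 107 = false) (h4 : α 63 = false) : False :=
  rf h false 1 1 1 269 235 107 63 (by decide +kernel) h1 h2 h3 h4

theorem c1606 (h : Good α) (h1 : α 239 = false) (h2 : α 107 = false) (h3 : α 63 = false) : False :=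
  af h false 1 239 107 63 (by decide +kernel) h1 h2 h3

theorem c1607 (h : Good α) (h1 : α 239 = true) (h2 : α 107 = true) (h3 : α 63 = true) : False :=
  af h true 1 239 107 63 (by decide +kernel) h1 h2 h3

theorem c1608 (h : Good α) (h1 : α 455 = true) (h2 : α 515 = true) (h3 : α 63 = true) (h4 : α 124 = true) : False :=
  rf h true 1 1 2 455 515 63 124 (by decide +kernel) h1 h2 h3 h4

theorem c1609 (h : Good α) (h1 : α 63 = false) (h2 : α 167 = false) (h3 : α 191 = false) (h4 : α 260 = false) : False :=
  rf h false 2 2 3 63 167 191 260 (by decide +kernel) h1 h2 h3 h4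

theorem c1610 (h : Good α) (h1 : α 63 = true) (h2 : α 167 = true) (h3 : α 191 = true) (h4 : α 260 = true) : False :=
  rf h true 2 2 3 63 167 191 260 (by decide +kernel) h1 h2 h3 h4

theorem c1611 (h : Good α) (h1 : α 63 = false) (h2 : α 167 = false) (h3 : α 381 = false) (h4 : α 454 = false) : False :=
  rf h false 2 2 4 63 167 381 454 (by decide +kernel) h1 h2 h3 h4

theorem c1612 (h : Good α) (h1 : α 63 = true) (h2 : α 167 = true) (h3 : α 381 = true) (h4 : α 454 = true) : False :=
  rf h true 2 2 4 63 167 381 454 (by decide +kernel) h1 h2 h3 h4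

theorem c1613 (h : Good α) (h1 : α 175 = false) (h2 : α 63 = false) (h3 : α 275 = false) (h4 : α 191 = false) : False :=
  rf h false 2 1 3 175 63 275 191 (by decide +kernel) h1 h2 h3 h4

theorem c1614 (h : Good α) (h1 : α 175 = true) (h2 : α 63 = true) (h3 : α 275 = true) (h4 : α 191 = true) : False :=
  rf h true 2 1 3 175 63 275 191 (by decide +kernel) h1 h2 h3 h4

theorem c1615 (h : Good α) (h1 : α 175 = false) (h2 : α 63 = false) (h3 : α 467 = false) (h4 : α 381 = false) : False :=
  rf h false 2 1 4 175 63 467 381 (by decide +kernel) h1 h2 h3 h4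

theorem c1616 (h : Good α) (h1 : α 63 = false) (h2 : α 194 = false) (h3 : α 382 = false) : False :=
  af h false 0 63 194 382 (by decide +kernel) h1 h2 h3

theorem c1617 (h : Good α) (h1 : α 63 = true) (h2 : α 194 = true) (h3 : α 382 = true) : False :=
  af h true 0 63 194 382 (by decide +kernel) h1 h2 h3

theorem c1618 (h : Good α) (h1 : α 63 = true) (h2 : α 382 = true) (h3 : α 225 = true) (h4 : α 509 = true) : False :=
  rf h true 0 2 3 63 382 225 509 (by decide +kernel) h1 h2 h3 h4

theorem c1619 (h : Good α) (h1 : α 386 = true) (h2 : α 235 = true) (h3 : α 239 = true) (h4 : α 63 = true) : False :=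
  rf h true 1 2 1 386 235 239 63 (by decide +kernel) h1 h2 h3 h4

theorem c1620 (h : Good α) (h1 : α 564 = true) (h2 : α 235 = true) (h3 : α 431 = true) (h4 : α 63 = true) : False :=
  rf h true 1 3 1 564 235 431 63 (by decide +kernel) h1 h2 h3 h4

theorem c1621 (h : Good α) (h1 : α 455 = false) (h2 : α 235 = false) (h3 : α 63 = false) : False :=
  af h false 4 455 235 63 (by decide +kernel) h1 h2 h3

theorem c1622 (h : Good α) (h1 : α 455 = true) (h2 : α 235 = true) (h3 : α 63 = true) : False :=
  af h true 4 455 235 63 (by decide +kernel) h1 h2 h3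

theorem c1623 (h : Good α) (h1 : α 577 = false) (h2 : α 455 = false) (h3 : α 239 = false) (h4 : α 63 = false) : False :=
  rf h false 1 2 2 577 455 239 63 (by decide +kernel) h1 h2 h3 h4

theorem c1624 (h : Good α) (h1 : α 73 = false) (h2 : α 64 = false) (h3 : α 178 = false) : False :=
  af h false 2 73 64 178 (by decide +kernel) h1 h2 h3

theorem c1625 (h : Good α) (h1 : α 73 = true) (h2 : α 64 = true) (h3 : α 178 = true) : False :=
  af h true 2 73 64 178 (by decide +kernel) h1 h2 h3

theorem c1626 (h : Good α) (h1 : α 64 = true) (h2 : α 112 = true) (h3 : α 242 = true) : False :=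
  af h true 1 64 112 242 (by decide +kernel) h1 h2 h3

theorem c1627 (h : Good α) (h1 : α 261 = false) (h2 : α 192 = false) (h3 : α 168 = false) (h4 : α 64 = false) : False :=
  rf h false 2 2 3 261 192 168 64 (by decide +kernel) h1 h2 h3 h4

theorem c1628 (h : Good α) (h1 : α 261 = true) (h2 : α 192 = true) (h3 : α 168 = true) (h4 : α 64 = true) : False :=
  rf h true 2 2 3 261 192 168 64 (by decide +kernel) h1 h2 h3 h4

theorem c1629 (h : Good α) (h1 : α 329 = true) (h2 : α 226 = true) (h3 : α 193 = true) (h4 : α 64 = true) : False :=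
  rf h true 0 1 3 329 226 193 64 (by decide +kernel) h1 h2 h3 h4

theorem c1630 (h : Good α) (h1 : α 381 = true) (h2 : α 193 = true) (h3 : α 64 = true) : False :=
  af h true 0 381 193 64 (by decide +kernel) h1 h2 h3

theorem c1631 (h : Good α) (h1 : α 508 = true) (h2 : α 226 = true) (h3 : α 381 = true) (h4 : α 64 = true) : False :=
  rf h true 0 2 3 508 226 381 64 (by decide +kernel) h1 h2 h3 h4

theorem c1632 (h : Good α) (h1 : α 64 = false) (h2 : α 234 = false) (h3 : α 454 = false) : False :=
  af h false 4 64 234 454 (by decide +kernel) h1 h2 h3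

theorem c1633 (h : Good α) (h1 : α 64 = false) (h2 : α 242 = false) (h3 : α 454 = false) (h4 : α 576 = false) : False :=
  rf h false 1 2 2 64 242 454 576 (by decide +kernel) h1 h2 h3 h4

theorem c1634 (h : Good α) (h1 : α 67 = false) (h2 : α 65 = false) (h3 : α 172 = false) : False :=
  af h false 1 67 65 172 (by decide +kernel) h1 h2 h3

theorem c1635 (h : Good α) (h1 : α 67 = true) (h2 : α 65 = true) (h3 : α 181 = true) (h4 : α 183 = true) : False :=
  rf h true 1 1 3 67 65 181 183 (by decide +kernel) h1 h2 h3 h4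

theorem c1636 (h : Good α) (h1 : α 398 = true) (h2 : α 383 = true) (h3 : α 84 = true) (h4 : α 65 = true) : False :=
  rf h true 0 2 2 398 383 84 65 (by decide +kernel) h1 h2 h3 h4

theorem c1637 (h : Good α) (h1 : α 65 = false) (h2 : α 113 = false) (h3 : α 250 = false) : False :=
  af h false 2 65 113 250 (by decide +kernel) h1 h2 h3

theorem c1638 (h : Good α) (h1 : α 65 = true) (h2 : α 113 = true) (h3 : α 250 = true) : False :=
  af h true 2 65 113 250 (by decide +kernel) h1 h2 h3

theorem c1639 (h : Good α) (h1 : α 169 = false) (h2 : α 65 = false) (h3 : α 258 = false) (h4 : α 183 = false) : False :=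
  rf h false 1 2 3 169 65 258 183 (by decide +kernel) h1 h2 h3 h4

theorem c1640 (h : Good α) (h1 : α 169 = true) (h2 : α 65 = true) (h3 : α 258 = true) (h4 : α 183 = true) : False :=
  rf h true 1 2 3 169 65 258 183 (by decide +kernel) h1 h2 h3 h4

theorem c1641 (h : Good α) (h1 : α 65 = false) (h2 : α 172 = false) (h3 : α 183 = false) (h4 : α 265 = false) : False :=
  rf h false 1 1 3 65 172 183 265 (by decide +kernel) h1 h2 h3 h4

theorem c1642 (h : Good α) (h1 : α 65 = true) (h2 : α 172 = true) (h3 : α 183 = true) (h4 : α 265 = true) : False :=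
  rf h true 1 1 3 65 172 183 265 (by decide +kernel) h1 h2 h3 h4

theorem c1643 (h : Good α) (h1 : α 232 = true) (h2 : α 571 = true) (h3 : α 65 = true) (h4 : α 430 = true) : False :=
  rf h true 2 3 1 232 571 65 430 (by decide +kernel) h1 h2 h3 h4

theorem c1644 (h : Good α) (h1 : α 82 = false) (h2 : α 66 = false) (h3 : α 197 = false) (h4 : α 195 = false) : False :=
  rf h false 2 2 1 82 66 197 195 (by decide +kernel) h1 h2 h3 h4

theorem c1645 (h : Good α) (h1 : α 122 = false) (h2 : α 66 = false) (h3 : α 108 = false) : False :=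
  af h false 0 122 66 108 (by decide +kernel) h1 h2 h3

theorem c1646 (h : Good α) (h1 : α 66 = false) (h2 : α 108 = false) (h3 : α 246 = false) : False :=
  af h false 0 66 108 246 (by decide +kernel) h1 h2 h3

theorem c1647 (h : Good α) (h1 : α 66 = false) (h2 : α 195 = false) (h3 : α 376 = false) : False :=
  af h false 5 66 195 376 (by decide +kernel) h1 h2 h3

theorem c1648 (h : Good α) (h1 : α 66 = true) (h2 : α 195 = true) (h3 : α 376 = true) : False :=
  af h true 5 66 195 376 (by decide +kernel) h1 h2 h3

theorem c1649 (h : Good α) (h1 : α 66 = false) (h2 : α 230 = false) (h3 : α 463 = false) : False :=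
  af h false 3 66 230 463 (by decide +kernel) h1 h2 h3

theorem c1650 (h : Good α) (h1 : α 111 = false) (h2 : α 67 = false) (h3 : α 127 = false) : False :=
  af h false 0 111 67 127 (by decide +kernel) h1 h2 h3

theorem c1651 (h : Good α) (h1 : α 243 = false) (h2 : α 111 = false) (h3 : α 67 = false) : False :=
  af h false 0 243 111 67 (by decide +kernel) h1 h2 h3

theorem c1652 (h : Good α) (h1 : α 169 = true) (h2 : α 67 = true) (h3 : α 258 = true) (h4 : α 181 = true) : False :=
  rf h true 1 1 3 169 67 258 181 (by decide +kernel) h1 h2 h3 h4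

theorem c1653 (h : Good α) (h1 : α 67 = false) (h2 : α 172 = false) (h3 : α 376 = false) (h4 : α 463 = false) : False :=
  rf h false 1 2 4 67 172 376 463 (by decide +kernel) h1 h2 h3 h4

theorem c1654 (h : Good α) (h1 : α 196 = false) (h2 : α 334 = false) (h3 : α 67 = false) (h4 : α 224 = false) : False :=
  rf h false 2 3 1 196 334 67 224 (by decide +kernel) h1 h2 h3 h4

theorem c1655 (h : Good α) (h1 : α 377 = false) (h2 : α 196 = false) (h3 : α 67 = false) : False :=
  af h false 5 377 196 67 (by decide +kernel) h1 h2 h3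

theorem c1656 (h : Good α) (h1 : α 377 = true) (h2 : α 196 = true) (h3 : α 67 = true) : False :=
  af h true 5 377 196 67 (by decide +kernel) h1 h2 h3

theorem c1657 (h : Good α) (h1 : α 200 = false) (h2 : α 194 = false) (h3 : α 80 = false) (h4 : α 68 = false) : False :=
  rf h false 1 2 1 200 194 80 68 (by decide +kernel) h1 h2 h3 h4

theorem c1658 (h : Good α) (h1 : α 135 = false) (h2 : α 68 = false) (h3 : α 109 = false) : False :=
  af h false 3 135 68 109 (by decide +kernel) h1 h2 h3

theorem c1659 (h : Good α) (h1 : α 135 = true) (h2 : α 68 = true) (h3 : α 109 = true) : False :=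
  af h true 3 135 68 109 (by decide +kernel) h1 h2 h3

theorem c1660 (h : Good α) (h1 : α 68 = true) (h2 : α 109 = true) (h3 : α 247 = true) : False :=
  af h true 3 68 109 247 (by decide +kernel) h1 h2 h3

theorem c1661 (h : Good α) (h1 : α 68 = false) (h2 : α 167 = false) (h3 : α 181 = false) (h4 : α 260 = false) : False :=
  rf h false 2 1 3 68 167 181 260 (by decide +kernel) h1 h2 h3 h4

theorem c1662 (h : Good α) (h1 : α 68 = true) (h2 : α 167 = true) (h3 : α 181 = true) (h4 : α 260 = true) : False :=
  rf h true 2 1 3 68 167 181 260 (by decide +kernel) h1 h2 h3 h4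

theorem c1663 (h : Good α) (h1 : α 68 = false) (h2 : α 167 = false) (h3 : α 384 = false) (h4 : α 454 = false) : False :=
  rf h false 2 1 4 68 167 384 454 (by decide +kernel) h1 h2 h3 h4

theorem c1664 (h : Good α) (h1 : α 175 = false) (h2 : α 68 = false) (h3 : α 275 = false) (h4 : α 181 = false) : False :=
  rf h false 2 2 3 175 68 275 181 (by decide +kernel) h1 h2 h3 h4

theorem c1665 (h : Good α) (h1 : α 175 = true) (h2 : α 68 = true) (h3 : α 275 = true) (h4 : α 181 = true) : False :=
  rf h true 2 2 3 175 68 275 181 (by decide +kernel) h1 h2 h3 h4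

theorem c1666 (h : Good α) (h1 : α 175 = false) (h2 : α 68 = false) (h3 : α 467 = false) (h4 : α 384 = false) : False :=
  rf h false 2 2 4 175 68 467 384 (by decide +kernel) h1 h2 h3 h4

theorem c1667 (h : Good α) (h1 : α 389 = false) (h2 : α 194 = false) (h3 : α 68 = false) : False :=
  af h false 4 389 194 68 (by decide +kernel) h1 h2 h3

theorem c1668 (h : Good α) (h1 : α 389 = true) (h2 : α 194 = true) (h3 : α 68 = true) : False :=
  af h true 4 389 194 68 (by decide +kernel) h1 h2 h3

theorem c1669 (h : Good α) (h1 : α 503 = true) (h2 : α 389 = true) (h3 : α 227 = true) (h4 : α 68 = true) : False :=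
  rf h true 1 3 2 503 389 227 68 (by decide +kernel) h1 h2 h3 h4

theorem c1670 (h : Good α) (h1 : α 68 = true) (h2 : α 241 = true) (h3 : α 470 = true) : False :=
  af h true 0 68 241 470 (by decide +kernel) h1 h2 h3

theorem c1671 (h : Good α) (h1 : α 164 = true) (h2 : α 78 = true) (h3 : α 69 = true) : False :=
  af h true 4 164 78 69 (by decide +kernel) h1 h2 h3

theorem c1672 (h : Good α) (h1 : α 78 = true) (h2 : α 190 = true) (h3 : α 69 = true) (h4 : α 186 = true) : False :=
  rf h true 1 3 1 78 190 69 186 (by decide +kernel) h1 h2 h3 h4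

theorem c1673 (h : Good α) (h1 : α 69 = false) (h2 : α 99 = false) (h3 : α 234 = false) : False :=
  af h false 3 69 99 234 (by decide +kernel) h1 h2 h3

theorem c1674 (h : Good α) (h1 : α 69 = true) (h2 : α 99 = true) (h3 : α 234 = true) : False :=
  af h true 3 69 99 234 (by decide +kernel) h1 h2 h3

theorem c1675 (h : Good α) (h1 : α 164 = true) (h2 : α 256 = true) (h3 : α 69 = true) (h4 : α 186 = true) : False :=
  rf h true 1 3 2 164 256 69 186 (by decide +kernel) h1 h2 h3 h4

theorem c1676 (h : Good α) (h1 : α 69 = false) (h2 : α 186 = false) (h3 : α 170 = false) (h4 : α 267 = false) : False :=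
  rf h false 1 3 1 69 186 170 267 (by decide +kernel) h1 h2 h3 h4

theorem c1677 (h : Good α) (h1 : α 69 = false) (h2 : α 388 = false) (h3 : α 170 = false) (h4 : α 464 = false) : False :=
  rf h false 1 4 1 69 388 170 464 (by decide +kernel) h1 h2 h3 h4

theorem c1678 (h : Good α) (h1 : α 471 = true) (h2 : α 251 = true) (h3 : α 69 = true) : False :=
  af h true 0 471 251 69 (by decide +kernel) h1 h2 h3

theorem c1679 (h : Good α) (h1 : α 158 = false) (h2 : α 70 = false) (h3 : α 81 = false) : False :=
  af h false 0 158 70 81 (by decide +kernel) h1 h2 h3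

theorem c1680 (h : Good α) (h1 : α 70 = true) (h2 : α 81 = true) (h3 : α 180 = true) : False :=
  af h true 0 70 81 180 (by decide +kernel) h1 h2 h3

theorem c1681 (h : Good α) (h1 : α 188 = false) (h2 : α 184 = false) (h3 : α 70 = false) (h4 : α 81 = false) : False :=
  rf h false 0 1 3 188 184 70 81 (by decide +kernel) h1 h2 h3 h4

theorem c1682 (h : Good α) (h1 : α 188 = true) (h2 : α 184 = true) (h3 : α 70 = true) (h4 : α 81 = true) : False :=
  rf h true 0 1 3 188 184 70 81 (by decide +kernel) h1 h2 h3 h4

theorem c1683 (h : Good α) (h1 : α 386 = false) (h2 : α 379 = false) (h3 : α 70 = false) (h4 : α 81 = false) : False :=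
  rf h false 0 1 4 386 379 70 81 (by decide +kernel) h1 h2 h3 h4

theorem c1684 (h : Good α) (h1 : α 103 = false) (h2 : α 70 = false) (h3 : α 259 = false) (h4 : α 233 = false) : False :=
  rf h false 1 1 1 103 70 259 233 (by decide +kernel) h1 h2 h3 h4

theorem c1685 (h : Good α) (h1 : α 103 = true) (h2 : α 70 = true) (h3 : α 259 = true) (h4 : α 233 = true) : False :=
  rf h true 1 1 1 103 70 259 233 (by decide +kernel) h1 h2 h3 h4

theorem c1686 (h : Good α) (h1 : α 240 = false) (h2 : α 103 = false) (h3 : α 70 = false) : False :=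
  af h false 1 240 103 70 (by decide +kernel) h1 h2 h3

theorem c1687 (h : Good α) (h1 : α 70 = false) (h2 : α 139 = false) (h3 : α 233 = false) (h4 : α 304 = false) : False :=
  rf h false 1 1 1 70 139 233 304 (by decide +kernel) h1 h2 h3 h4

theorem c1688 (h : Good α) (h1 : α 272 = false) (h2 : α 188 = false) (h3 : α 158 = false) (h4 : α 70 = false) : False :=
  rf h false 0 1 3 272 188 158 70 (by decide +kernel) h1 h2 h3 h4

theorem c1689 (h : Good α) (h1 : α 459 = false) (h2 : α 386 = false) (h3 : α 158 = false) (h4 : α 70 = false) : False :=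
  rf h false 0 1 4 459 386 158 70 (by decide +kernel) h1 h2 h3 h4

theorem c1690 (h : Good α) (h1 : α 188 = false) (h2 : α 264 = false) (h3 : α 70 = false) (h4 : α 180 = false) : False :=
  rf h false 0 2 3 188 264 70 180 (by decide +kernel) h1 h2 h3 h4

theorem c1691 (h : Good α) (h1 : α 188 = true) (h2 : α 264 = true) (h3 : α 70 = true) (h4 : α 180 = true) : False :=
  rf h true 0 2 3 188 264 70 180 (by decide +kernel) h1 h2 h3 h4

theorem c1692 (h : Good α) (h1 : α 386 = true) (h2 : α 452 = true) (h3 : α 70 = true) (h4 : α 180 = true) : False :=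
  rf h true 0 2 4 386 452 70 180 (by decide +kernel) h1 h2 h3 h4

theorem c1693 (h : Good α) (h1 : α 70 = false) (h2 : α 201 = false) (h3 : α 387 = false) : False :=
  af h false 2 70 201 387 (by decide +kernel) h1 h2 h3

theorem c1694 (h : Good α) (h1 : α 70 = true) (h2 : α 201 = true) (h3 : α 387 = true) : False :=
  af h true 2 70 201 387 (by decide +kernel) h1 h2 h3

theorem c1695 (h : Good α) (h1 : α 240 = true) (h2 : α 70 = true) (h3 : α 381 = true) (h4 : α 233 = true) : False :=
  rf h true 1 2 1 240 70 381 233 (by decide +kernel) h1 h2 h3 h4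

theorem c1696 (h : Good α) (h1 : α 70 = false) (h2 : α 233 = false) (h3 : α 451 = false) : False :=
  af h false 4 70 233 451 (by decide +kernel) h1 h2 h3

theorem c1697 (h : Good α) (h1 : α 70 = true) (h2 : α 233 = true) (h3 : α 451 = true) : False :=
  af h true 4 70 233 451 (by decide +kernel) h1 h2 h3

theorem c1698 (h : Good α) (h1 : α 240 = false) (h2 : α 70 = false) (h3 : α 574 = false) (h4 : α 451 = false) : False :=
  rf h false 1 2 2 240 70 574 451 (by decide +kernel) h1 h2 h3 h4

theorem c1699 (h : Good α) (h1 : α 80 = false) (h2 : α 71 = false) (h3 : α 161 = false) : False :=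
  af h false 0 80 71 161 (by decide +kernel) h1 h2 h3

theorem c1700 (h : Good α) (h1 : α 80 = true) (h2 : α 71 = true) (h3 : α 161 = true) : False :=
  af h true 0 80 71 161 (by decide +kernel) h1 h2 h3

theorem c1701 (h : Good α) (h1 : α 179 = false) (h2 : α 80 = false) (h3 : α 71 = false) : False :=
  af h false 0 179 80 71 (by decide +kernel) h1 h2 h3

theorem c1702 (h : Good α) (h1 : α 179 = true) (h2 : α 80 = true) (h3 : α 71 = true) : False :=
  af h true 0 179 80 71 (by decide +kernel) h1 h2 h3

theorem c1703 (h : Good α) (h1 : α 80 = false) (h2 : α 71 = false) (h3 : α 183 = false) (h4 : α 189 = false) : False :=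
  rf h false 0 1 3 80 71 183 189 (by decide +kernel) h1 h2 h3 h4

theorem c1704 (h : Good α) (h1 : α 80 = true) (h2 : α 71 = true) (h3 : α 183 = true) (h4 : α 189 = true) : False :=
  rf h true 0 1 3 80 71 183 189 (by decide +kernel) h1 h2 h3 h4

end Q110.RC
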