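import Pool.Agent.Q110.RC.Base

/-! # Generated part of the refutation used for `S(4)` -/

set_option linter.all false

namespace Q110.RC

variable {α : Nat → Bool}

theorem c1705 (h : Good α) (h1 : α 80 = false) (h2 : α 71 = false) (h3 : α 378 = false) (h4 : α 387 = false) : False :=
  rf h false 0 1 4 80 71 378 387 (by decide +kernel) h1 h2 h3 h4

theorem c1706 (h : Good α) (h1 : α 80 = true) (h2 : α 71 = true) (h3 : α 378 = true) (h4 : α 387 = true) : False :=
  rf h true 0 1 4 80 71 378 387 (by decide +kernel) h1 h2 h3 h4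

theorem c1707 (h : Good α) (h1 : α 138 = false) (h2 : α 71 = false) (h3 : α 104 = false) : False :=
  af h false 1 138 71 104 (by decide +kernel) h1 h2 h3

theorem c1708 (h : Good α) (h1 : α 236 = false) (h2 : α 262 = false) (h3 : α 71 = false) (h4 : α 104 = false) : False :=
  rf h false 1 1 1 236 262 71 104 (by decide +kernel) h1 h2 h3 h4

theorem c1709 (h : Good α) (h1 : α 71 = false) (h2 : α 104 = false) (h3 : α 241 = false) : False :=
  af h false 1 71 104 241 (by decide +kernel) h1 h2 h3

theorem c1710 (h : Good α) (h1 : α 71 = true) (h2 : α 104 = true) (h3 : α 241 = true) : False :=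
  af h true 1 71 104 241 (by decide +kernel) h1 h2 h3

theorem c1711 (h : Good α) (h1 : α 452 = false) (h2 : α 482 = false) (h3 : α 71 = false) (h4 : α 104 = false) : False :=
  rf h false 1 1 2 452 482 71 104 (by decide +kernel) h1 h2 h3 h4

theorem c1712 (h : Good α) (h1 : α 452 = true) (h2 : α 482 = true) (h3 : α 71 = true) (h4 : α 104 = true) : False :=
  rf h true 1 1 2 452 482 71 104 (by decide +kernel) h1 h2 h3 h4

theorem c1713 (h : Good α) (h1 : α 71 = false) (h2 : α 161 = false) (h3 : α 189 = false) (h4 : α 273 = false) : False :=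
  rf h false 0 1 3 71 161 189 273 (by decide +kernel) h1 h2 h3 h4

theorem c1714 (h : Good α) (h1 : α 71 = true) (h2 : α 161 = true) (h3 : α 189 = true) (h4 : α 273 = true) : False :=
  rf h true 0 1 3 71 161 189 273 (by decide +kernel) h1 h2 h3 h4

theorem c1715 (h : Good α) (h1 : α 71 = false) (h2 : α 161 = false) (h3 : α 387 = false) (h4 : α 462 = false) : False :=
  rf h false 0 1 4 71 161 387 462 (by decide +kernel) h1 h2 h3 h4

theorem c1716 (h : Good α) (h1 : α 179 = false) (h2 : α 71 = false) (h3 : α 257 = false) (h4 : α 189 = false) : False :=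
  rf h false 0 2 3 179 71 257 189 (by decide +kernel) h1 h2 h3 h4

theorem c1717 (h : Good α) (h1 : α 179 = true) (h2 : α 71 = true) (h3 : α 257 = true) (h4 : α 189 = true) : False :=
  rf h true 0 2 3 179 71 257 189 (by decide +kernel) h1 h2 h3 h4

theorem c1718 (h : Good α) (h1 : α 179 = false) (h2 : α 71 = false) (h3 : α 451 = false) (h4 : α 387 = false) : False :=
  rf h false 0 2 4 179 71 451 387 (by decide +kernel) h1 h2 h3 h4

theorem c1719 (h : Good α) (h1 : α 179 = true) (h2 : α 71 = true) (h3 : α 451 = true) (h4 : α 387 = true) : False :=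
  rf h true 0 2 4 179 71 451 387 (by decide +kernel) h1 h2 h3 h4

theorem c1720 (h : Good α) (h1 : α 200 = true) (h2 : α 71 = true) (h3 : α 315 = true) (h4 : α 208 = true) : False :=
  rf h true 2 1 3 200 71 315 208 (by decide +kernel) h1 h2 h3 h4

theorem c1721 (h : Good α) (h1 : α 386 = false) (h2 : α 200 = false) (h3 : α 71 = false) : False :=
  af h false 2 386 200 71 (by decide +kernel) h1 h2 h3

theorem c1722 (h : Good α) (h1 : α 386 = true) (h2 : α 200 = true) (h3 : α 71 = true) : False :=
  af h true 2 386 200 71 (by decide +kernel) h1 h2 h3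

theorem c1723 (h : Good α) (h1 : α 236 = true) (h2 : α 552 = true) (h3 : α 71 = true) (h4 : α 421 = true) : False :=
  rf h true 1 3 1 236 552 71 421 (by decide +kernel) h1 h2 h3 h4

theorem c1724 (h : Good α) (h1 : α 452 = false) (h2 : α 236 = false) (h3 : α 71 = false) : False :=
  af h false 4 452 236 71 (by decide +kernel) h1 h2 h3

theorem c1725 (h : Good α) (h1 : α 452 = true) (h2 : α 236 = true) (h3 : α 71 = true) : False :=
  af h true 4 452 236 71 (by decide +kernel) h1 h2 h3

theorem c1726 (h : Good α) (h1 : α 72 = true) (h2 : α 75 = true) (h3 : α 163 = true) : False :=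
  af h true 4 72 75 163 (by decide +kernel) h1 h2 h3

theorem c1727 (h : Good α) (h1 : α 185 = true) (h2 : α 72 = true) (h3 : α 187 = true) (h4 : α 75 = true) : False :=
  rf h true 1 3 1 185 72 187 75 (by decide +kernel) h1 h2 h3 h4

theorem c1728 (h : Good α) (h1 : α 100 = false) (h2 : α 72 = false) (h3 : α 143 = false) : False :=
  af h false 3 100 72 143 (by decide +kernel) h1 h2 h3

theorem c1729 (h : Good α) (h1 : α 235 = false) (h2 : α 100 = false) (h3 : α 72 = false) : False :=
  af h false 3 235 100 72 (by decide +kernel) h1 h2 h3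

theorem c1730 (h : Good α) (h1 : α 235 = true) (h2 : α 100 = true) (h3 : α 72 = true) : False :=
  af h true 3 235 100 72 (by decide +kernel) h1 h2 h3

theorem c1731 (h : Good α) (h1 : α 100 = false) (h2 : α 476 = false) (h3 : α 72 = false) (h4 : α 474 = false) : False :=
  rf h false 0 2 1 100 476 72 474 (by decide +kernel) h1 h2 h3 h4

theorem c1732 (h : Good α) (h1 : α 235 = true) (h2 : α 575 = true) (h3 : α 72 = true) (h4 : α 474 = true) : False :=
  rf h true 0 2 2 235 575 72 474 (by decide +kernel) h1 h2 h3 h4

theorem c1733 (h : Good α) (h1 : α 72 = false) (h2 : α 252 = false) (h3 : α 474 = false) : False :=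
  af h false 0 72 252 474 (by decide +kernel) h1 h2 h3

theorem c1734 (h : Good α) (h1 : α 72 = true) (h2 : α 252 = true) (h3 : α 474 = true) : False :=
  af h true 0 72 252 474 (by decide +kernel) h1 h2 h3

theorem c1735 (h : Good α) (h1 : α 73 = false) (h2 : α 81 = false) (h3 : α 193 = false) (h4 : α 201 = false) : False :=
  rf h false 1 2 1 73 81 193 201 (by decide +kernel) h1 h2 h3 h4

theorem c1736 (h : Good α) (h1 : α 73 = true) (h2 : α 81 = true) (h3 : α 193 = true) (h4 : α 201 = true) : False :=
  rf h true 1 2 1 73 81 193 201 (by decide +kernel) h1 h2 h3 h4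

theorem c1737 (h : Good α) (h1 : α 110 = true) (h2 : α 73 = true) (h3 : α 136 = true) : False :=
  af h true 3 110 73 136 (by decide +kernel) h1 h2 h3

theorem c1738 (h : Good α) (h1 : α 248 = false) (h2 : α 110 = false) (h3 : α 73 = false) : False :=
  af h false 3 248 110 73 (by decide +kernel) h1 h2 h3

theorem c1739 (h : Good α) (h1 : α 248 = true) (h2 : α 110 = true) (h3 : α 73 = true) : False :=
  af h true 3 248 110 73 (by decide +kernel) h1 h2 h3

theorem c1740 (h : Good α) (h1 : α 261 = true) (h2 : α 182 = true) (h3 : α 168 = true) (h4 : α 73 = true) : False :=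
  rf h true 2 1 3 261 182 168 73 (by decide +kernel) h1 h2 h3 h4

theorem c1741 (h : Good α) (h1 : α 73 = false) (h2 : α 193 = false) (h3 : α 384 = false) : False :=
  af h false 4 73 193 384 (by decide +kernel) h1 h2 h3

theorem c1742 (h : Good α) (h1 : α 73 = true) (h2 : α 193 = true) (h3 : α 384 = true) : False :=
  af h true 4 73 193 384 (by decide +kernel) h1 h2 h3

theorem c1743 (h : Good α) (h1 : α 73 = true) (h2 : α 228 = true) (h3 : α 384 = true) (h4 : α 502 = true) : False :=
  rf h true 1 3 2 73 228 384 502 (by decide +kernel) h1 h2 h3 h4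

theorem c1744 (h : Good α) (h1 : α 467 = true) (h2 : α 240 = true) (h3 : α 73 = true) : False :=
  af h true 0 467 240 73 (by decide +kernel) h1 h2 h3

theorem c1745 (h : Good α) (h1 : α 580 = false) (h2 : α 248 = false) (h3 : α 467 = false) (h4 : α 73 = false) : False :=
  rf h false 0 2 2 580 248 467 73 (by decide +kernel) h1 h2 h3 h4

theorem c1746 (h : Good α) (h1 : α 199 = false) (h2 : α 77 = false) (h3 : α 197 = false) (h4 : α 74 = false) : False :=
  rf h false 1 1 2 199 77 197 74 (by decide +kernel) h1 h2 h3 h4

theorem c1747 (h : Good α) (h1 : α 173 = true) (h2 : α 82 = true) (h3 : α 74 = true) : False :=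
  af h true 3 173 82 74 (by decide +kernel) h1 h2 h3

theorem c1748 (h : Good α) (h1 : α 82 = true) (h2 : α 192 = true) (h3 : α 74 = true) (h4 : α 190 = true) : False :=
  rf h true 0 3 1 82 192 74 190 (by decide +kernel) h1 h2 h3 h4

theorem c1749 (h : Good α) (h1 : α 74 = false) (h2 : α 98 = false) (h3 : α 237 = false) (h4 : α 257 = false) : False :=
  rf h false 2 1 1 74 98 237 257 (by decide +kernel) h1 h2 h3 h4

theorem c1750 (h : Good α) (h1 : α 74 = true) (h2 : α 98 = true) (h3 : α 237 = true) (h4 : α 257 = true) : False :=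
  rf h true 2 1 1 74 98 237 257 (by decide +kernel) h1 h2 h3 h4

theorem c1751 (h : Good α) (h1 : α 140 = true) (h2 : α 74 = true) (h3 : α 298 = true) (h4 : α 237 = true) : False :=
  rf h true 2 1 1 140 74 298 237 (by decide +kernel) h1 h2 h3 h4

theorem c1752 (h : Good α) (h1 : α 74 = true) (h2 : α 190 = true) (h3 : α 162 = true) (h4 : α 274 = true) : False :=
  rf h true 0 3 1 74 190 162 274 (by decide +kernel) h1 h2 h3 h4

theorem c1753 (h : Good α) (h1 : α 74 = false) (h2 : α 397 = false) (h3 : α 162 = false) (h4 : α 473 = false) : False :=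
  rf h false 0 4 1 74 397 162 473 (by decide +kernel) h1 h2 h3 h4

theorem c1754 (h : Good α) (h1 : α 173 = false) (h2 : α 262 = false) (h3 : α 74 = false) (h4 : α 190 = false) : False :=
  rf h false 0 3 2 173 262 74 190 (by decide +kernel) h1 h2 h3 h4

theorem c1755 (h : Good α) (h1 : α 173 = true) (h2 : α 262 = true) (h3 : α 74 = true) (h4 : α 190 = true) : False :=
  rf h true 0 3 2 173 262 74 190 (by decide +kernel) h1 h2 h3 h4

theorem c1756 (h : Good α) (h1 : α 173 = false) (h2 : α 458 = false) (h3 : α 74 = false) (h4 : α 397 = false) : False :=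
  rf h false 0 4 2 173 458 74 397 (by decide +kernel) h1 h2 h3 h4

theorem c1757 (h : Good α) (h1 : α 197 = false) (h2 : α 74 = false) (h3 : α 326 = false) (h4 : α 213 = false) : False :=
  rf h false 1 1 1 197 74 326 213 (by decide +kernel) h1 h2 h3 h4

theorem c1758 (h : Good α) (h1 : α 323 = false) (h2 : α 219 = false) (h3 : α 197 = false) (h4 : α 74 = false) : False :=
  rf h false 1 1 3 323 219 197 74 (by decide +kernel) h1 h2 h3 h4

theorem c1759 (h : Good α) (h1 : α 392 = false) (h2 : α 197 = false) (h3 : α 74 = false) : False :=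
  af h false 1 392 197 74 (by decide +kernel) h1 h2 h3

theorem c1760 (h : Good α) (h1 : α 392 = true) (h2 : α 197 = true) (h3 : α 74 = true) : False :=
  af h true 1 392 197 74 (by decide +kernel) h1 h2 h3

theorem c1761 (h : Good α) (h1 : α 499 = true) (h2 : α 219 = true) (h3 : α 392 = true) (h4 : α 74 = true) : False :=
  rf h true 1 2 3 499 219 392 74 (by decide +kernel) h1 h2 h3 h4

theorem c1762 (h : Good α) (h1 : α 74 = true) (h2 : α 411 = true) (h3 : α 237 = true) (h4 : α 550 = true) : False :=
  rf h true 2 3 1 74 411 237 550 (by decide +kernel) h1 h2 h3 h4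

theorem c1763 (h : Good α) (h1 : α 74 = false) (h2 : α 237 = false) (h3 : α 457 = false) : False :=
  af h false 5 74 237 457 (by decide +kernel) h1 h2 h3

theorem c1764 (h : Good α) (h1 : α 74 = true) (h2 : α 237 = true) (h3 : α 457 = true) : False :=
  af h true 5 74 237 457 (by decide +kernel) h1 h2 h3

theorem c1765 (h : Good α) (h1 : α 131 = false) (h2 : α 75 = false) (h3 : α 115 = false) : False :=
  af h false 5 131 75 115 (by decide +kernel) h1 h2 h3

theorem c1766 (h : Good α) (h1 : α 75 = false) (h2 : α 115 = false) (h3 : α 233 = false) : False :=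
  af h false 5 75 115 233 (by decide +kernel) h1 h2 h3

theorem c1767 (h : Good α) (h1 : α 75 = true) (h2 : α 115 = true) (h3 : α 233 = true) : False :=
  af h true 5 75 115 233 (by decide +kernel) h1 h2 h3

theorem c1768 (h : Good α) (h1 : α 75 = false) (h2 : α 247 = false) (h3 : α 115 = false) (h4 : α 265 = false) : False :=
  rf h false 2 1 1 75 247 115 265 (by decide +kernel) h1 h2 h3 h4

theorem c1769 (h : Good α) (h1 : α 187 = false) (h2 : α 75 = false) (h3 : α 253 = false) (h4 : α 163 = false) : False :=
  rf h false 1 3 1 187 75 253 163 (by decide +kernel) h1 h2 h3 h4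

theorem c1770 (h : Good α) (h1 : α 75 = false) (h2 : α 203 = false) (h3 : α 225 = false) (h4 : α 332 = false) : False :=
  rf h false 0 1 1 75 203 225 332 (by decide +kernel) h1 h2 h3 h4

theorem c1771 (h : Good α) (h1 : α 75 = false) (h2 : α 203 = false) (h3 : α 396 = false) : False :=
  af h false 0 75 203 396 (by decide +kernel) h1 h2 h3

theorem c1772 (h : Good α) (h1 : α 75 = true) (h2 : α 203 = true) (h3 : α 396 = true) : False :=
  af h true 0 75 203 396 (by decide +kernel) h1 h2 h3

theorem c1773 (h : Good α) (h1 : α 207 = true) (h2 : α 492 = true) (h3 : α 75 = true) (h4 : α 396 = true) : False :=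
  rf h true 0 2 3 207 492 75 396 (by decide +kernel) h1 h2 h3 h4

theorem c1774 (h : Good α) (h1 : α 75 = true) (h2 : α 247 = true) (h3 : α 233 = true) (h4 : α 378 = true) : False :=
  rf h true 2 1 2 75 247 233 378 (by decide +kernel) h1 h2 h3 h4

theorem c1775 (h : Good α) (h1 : α 75 = true) (h2 : α 247 = true) (h3 : α 419 = true) (h4 : α 561 = true) : False :=
  rf h true 2 1 3 75 247 419 561 (by decide +kernel) h1 h2 h3 h4

theorem c1776 (h : Good α) (h1 : α 75 = false) (h2 : α 247 = false) (h3 : α 464 = false) : False :=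
  af h false 2 75 247 464 (by decide +kernel) h1 h2 h3

theorem c1777 (h : Good α) (h1 : α 75 = true) (h2 : α 247 = true) (h3 : α 464 = true) : False :=
  af h true 2 75 247 464 (by decide +kernel) h1 h2 h3

theorem c1778 (h : Good α) (h1 : α 188 = true) (h2 : α 85 = true) (h3 : α 185 = true) (h4 : α 76 = true) : False :=
  rf h true 2 3 1 188 85 185 76 (by decide +kernel) h1 h2 h3 h4

theorem c1779 (h : Good α) (h1 : α 102 = false) (h2 : α 76 = false) (h3 : α 144 = false) : False :=
  af h false 0 102 76 144 (by decide +kernel) h1 h2 h3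

theorem c1780 (h : Good α) (h1 : α 229 = false) (h2 : α 102 = false) (h3 : α 76 = false) : False :=
  af h false 0 229 102 76 (by decide +kernel) h1 h2 h3

theorem c1781 (h : Good α) (h1 : α 394 = false) (h2 : α 76 = false) (h3 : α 460 = false) (h4 : α 159 = false) : False :=
  rf h false 2 4 1 394 76 460 159 (by decide +kernel) h1 h2 h3 h4

theorem c1782 (h : Good α) (h1 : α 269 = true) (h2 : α 177 = true) (h3 : α 185 = true) (h4 : α 76 = true) : False :=
  rf h true 2 3 2 269 177 185 76 (by decide +kernel) h1 h2 h3 h4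

theorem c1783 (h : Good α) (h1 : α 76 = false) (h2 : α 202 = false) (h3 : α 214 = false) (h4 : α 314 = false) : False :=
  rf h false 1 1 1 76 202 214 314 (by decide +kernel) h1 h2 h3 h4

theorem c1784 (h : Good α) (h1 : α 220 = false) (h2 : α 335 = false) (h3 : α 76 = false) (h4 : α 202 = false) : False :=
  rf h false 1 1 3 220 335 76 202 (by decide +kernel) h1 h2 h3 h4

theorem c1785 (h : Good α) (h1 : α 410 = false) (h2 : α 76 = false) (h3 : α 549 = false) (h4 : α 244 = false) : False :=
  rf h false 0 3 1 410 76 549 244 (by decide +kernel) h1 h2 h3 h4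

theorem c1786 (h : Good α) (h1 : α 76 = false) (h2 : α 244 = false) (h3 : α 468 = false) : False :=
  af h false 3 76 244 468 (by decide +kernel) h1 h2 h3

theorem c1787 (h : Good α) (h1 : α 160 = true) (h2 : α 77 = true) (h3 : α 84 = true) : False :=
  af h true 5 160 77 84 (by decide +kernel) h1 h2 h3

theorem c1788 (h : Good α) (h1 : α 77 = false) (h2 : α 186 = false) (h3 : α 84 = false) (h4 : α 189 = false) : False :=
  rf h false 2 3 1 77 186 84 189 (by decide +kernel) h1 h2 h3 h4

theorem c1789 (h : Good α) (h1 : α 77 = true) (h2 : α 186 = true) (h3 : α 84 = true) (h4 : α 189 = true) : False :=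
  rf h true 2 3 1 77 186 84 189 (by decide +kernel) h1 h2 h3 h4

theorem c1790 (h : Good α) (h1 : α 141 = true) (h2 : α 77 = true) (h3 : α 105 = true) : False :=
  af h true 0 141 77 105 (by decide +kernel) h1 h2 h3

theorem c1791 (h : Good α) (h1 : α 199 = false) (h2 : α 77 = false) (h3 : α 326 = false) (h4 : α 213 = false) : False :=
  rf h false 1 1 3 199 77 326 213 (by decide +kernel) h1 h2 h3 h4

theorem c1792 (h : Good α) (h1 : α 469 = true) (h2 : α 245 = true) (h3 : α 77 = true) : False :=
  af h true 3 469 245 77 (by decide +kernel) h1 h2 h3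

theorem c1793 (h : Good α) (h1 : α 236 = false) (h2 : α 116 = false) (h3 : α 78 = false) : False :=
  af h false 5 236 116 78 (by decide +kernel) h1 h2 h3

theorem c1794 (h : Good α) (h1 : α 236 = true) (h2 : α 116 = true) (h3 : α 78 = true) : False :=
  af h true 5 236 116 78 (by decide +kernel) h1 h2 h3

theorem c1795 (h : Good α) (h1 : α 164 = true) (h2 : α 256 = true) (h3 : α 78 = true) (h4 : α 190 = true) : False :=
  rf h true 1 3 1 164 256 78 190 (by decide +kernel) h1 h2 h3 h4

theorem c1796 (h : Good α) (h1 : α 164 = true) (h2 : α 474 = true) (h3 : α 78 = true) (h4 : α 396 = true) : False :=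
  rf h true 1 4 1 164 474 78 396 (by decide +kernel) h1 h2 h3 h4

theorem c1797 (h : Good α) (h1 : α 78 = false) (h2 : α 190 = false) (h3 : α 170 = false) (h4 : α 267 = false) : False :=
  rf h false 1 3 2 78 190 170 267 (by decide +kernel) h1 h2 h3 h4

theorem c1798 (h : Good α) (h1 : α 393 = false) (h2 : α 198 = false) (h3 : α 78 = false) : False :=
  af h false 0 393 198 78 (by decide +kernel) h1 h2 h3

theorem c1799 (h : Good α) (h1 : α 393 = true) (h2 : α 78 = true) (h3 : α 489 = true) (h4 : α 210 = true) : False :=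
  rf h true 0 2 3 393 78 489 210 (by decide +kernel) h1 h2 h3 h4

theorem c1800 (h : Good α) (h1 : α 465 = false) (h2 : α 248 = false) (h3 : α 78 = false) : False :=
  af h false 2 465 248 78 (by decide +kernel) h1 h2 h3

theorem c1801 (h : Good α) (h1 : α 165 = false) (h2 : α 79 = false) (h3 : α 83 = false) : False :=
  af h false 3 165 79 83 (by decide +kernel) h1 h2 h3

theorem c1802 (h : Good α) (h1 : α 187 = true) (h2 : α 79 = true) (h3 : α 191 = true) (h4 : α 83 = true) : False :=
  rf h true 0 3 1 187 79 191 83 (by decide +kernel) h1 h2 h3 h4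

theorem c1803 (h : Good α) (h1 : α 101 = true) (h2 : α 79 = true) (h3 : α 145 = true) : False :=
  af h true 2 101 79 145 (by decide +kernel) h1 h2 h3

theorem c1804 (h : Good α) (h1 : α 231 = false) (h2 : α 101 = false) (h3 : α 79 = false) : False :=
  af h false 2 231 101 79 (by decide +kernel) h1 h2 h3

theorem c1805 (h : Good α) (h1 : α 392 = true) (h2 : α 79 = true) (h3 : α 457 = true) (h4 : α 174 = true) : False :=
  rf h true 0 4 2 392 79 457 174 (by decide +kernel) h1 h2 h3 h4

theorem c1806 (h : Good α) (h1 : α 79 = true) (h2 : α 204 = true) (h3 : α 214 = true) (h4 : α 314 = true) : False :=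
  rf h true 1 1 3 79 204 214 314 (by decide +kernel) h1 h2 h3 h4

theorem c1807 (h : Good α) (h1 : α 79 = false) (h2 : α 204 = false) (h3 : α 397 = false) : False :=
  af h false 1 79 204 397 (by decide +kernel) h1 h2 h3

theorem c1808 (h : Good α) (h1 : α 79 = true) (h2 : α 204 = true) (h3 : α 397 = true) : False :=
  af h true 1 79 204 397 (by decide +kernel) h1 h2 h3

theorem c1809 (h : Good α) (h1 : α 383 = false) (h2 : α 238 = false) (h3 : α 231 = false) (h4 : α 79 = false) : False :=
  rf h false 2 2 1 383 238 231 79 (by decide +kernel) h1 h2 h3 h4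

theorem c1810 (h : Good α) (h1 : α 553 = false) (h2 : α 238 = false) (h3 : α 417 = false) (h4 : α 79 = false) : False :=
  rf h false 2 3 1 553 238 417 79 (by decide +kernel) h1 h2 h3 h4

theorem c1811 (h : Good α) (h1 : α 458 = false) (h2 : α 238 = false) (h3 : α 79 = false) : False :=
  af h false 5 458 238 79 (by decide +kernel) h1 h2 h3

theorem c1812 (h : Good α) (h1 : α 458 = true) (h2 : α 238 = true) (h3 : α 79 = true) : False :=
  af h true 5 458 238 79 (by decide +kernel) h1 h2 h3

theorem c1813 (h : Good α) (h1 : α 134 = false) (h2 : α 80 = false) (h3 : α 118 = false) : False :=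
  af h false 5 134 80 118 (by decide +kernel) h1 h2 h3

theorem c1814 (h : Good α) (h1 : α 239 = false) (h2 : α 80 = false) (h3 : α 271 = false) (h4 : α 118 = false) : False :=
  rf h false 2 1 1 239 80 271 118 (by decide +kernel) h1 h2 h3 h4

theorem c1815 (h : Good α) (h1 : α 80 = false) (h2 : α 118 = false) (h3 : α 251 = false) : False :=
  af h false 5 80 118 251 (by decide +kernel) h1 h2 h3

theorem c1816 (h : Good α) (h1 : α 80 = false) (h2 : α 161 = false) (h3 : α 183 = false) (h4 : α 273 = false) : False :=
  rf h false 0 2 3 80 161 183 273 (by decide +kernel) h1 h2 h3 h4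

theorem c1817 (h : Good α) (h1 : α 80 = true) (h2 : α 161 = true) (h3 : α 183 = true) (h4 : α 273 = true) : False :=
  rf h true 0 2 3 80 161 183 273 (by decide +kernel) h1 h2 h3 h4

theorem c1818 (h : Good α) (h1 : α 80 = false) (h2 : α 161 = false) (h3 : α 378 = false) (h4 : α 462 = false) : False :=
  rf h false 0 2 4 80 161 378 462 (by decide +kernel) h1 h2 h3 h4

theorem c1819 (h : Good α) (h1 : α 80 = true) (h2 : α 161 = true) (h3 : α 378 = true) (h4 : α 462 = true) : False :=
  rf h true 0 2 4 80 161 378 462 (by decide +kernel) h1 h2 h3 h4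

theorem c1820 (h : Good α) (h1 : α 179 = false) (h2 : α 80 = false) (h3 : α 257 = false) (h4 : α 183 = false) : False :=
  rf h false 0 1 3 179 80 257 183 (by decide +kernel) h1 h2 h3 h4

theorem c1821 (h : Good α) (h1 : α 179 = true) (h2 : α 80 = true) (h3 : α 257 = true) (h4 : α 183 = true) : False :=
  rf h true 0 1 3 179 80 257 183 (by decide +kernel) h1 h2 h3 h4

theorem c1822 (h : Good α) (h1 : α 179 = false) (h2 : α 80 = false) (h3 : α 451 = false) (h4 : α 378 = false) : False :=
  rf h false 0 1 4 179 80 451 378 (by decide +kernel) h1 h2 h3 h4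

theorem c1823 (h : Good α) (h1 : α 200 = true) (h2 : α 321 = true) (h3 : α 80 = true) (h4 : α 215 = true) : False :=
  rf h true 1 3 1 200 321 80 215 (by decide +kernel) h1 h2 h3 h4

theorem c1824 (h : Good α) (h1 : α 330 = false) (h2 : α 200 = false) (h3 : α 227 = false) (h4 : α 80 = false) : False :=
  rf h false 1 1 1 330 200 227 80 (by decide +kernel) h1 h2 h3 h4

theorem c1825 (h : Good α) (h1 : α 379 = false) (h2 : α 200 = false) (h3 : α 80 = false) : False :=
  af h false 4 379 200 80 (by decide +kernel) h1 h2 h3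

theorem c1826 (h : Good α) (h1 : α 379 = true) (h2 : α 200 = true) (h3 : α 80 = true) : False :=
  af h true 4 379 200 80 (by decide +kernel) h1 h2 h3

theorem c1827 (h : Good α) (h1 : α 379 = true) (h2 : α 500 = true) (h3 : α 80 = true) (h4 : α 215 = true) : False :=
  rf h true 1 3 2 379 500 80 215 (by decide +kernel) h1 h2 h3 h4

theorem c1828 (h : Good α) (h1 : α 239 = false) (h2 : α 80 = false) (h3 : α 393 = false) (h4 : α 251 = false) : False :=
  rf h false 2 1 2 239 80 393 251 (by decide +kernel) h1 h2 h3 h4

theorem c1829 (h : Good α) (h1 : α 459 = false) (h2 : α 239 = false) (h3 : α 80 = false) : False :=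
  af h false 2 459 239 80 (by decide +kernel) h1 h2 h3

theorem c1830 (h : Good α) (h1 : α 459 = true) (h2 : α 239 = true) (h3 : α 80 = true) : False :=
  af h true 2 459 239 80 (by decide +kernel) h1 h2 h3

theorem c1831 (h : Good α) (h1 : α 459 = false) (h2 : α 80 = false) (h3 : α 580 = false) (h4 : α 251 = false) : False :=
  rf h false 2 2 2 459 80 580 251 (by decide +kernel) h1 h2 h3 h4

theorem c1832 (h : Good α) (h1 : α 119 = false) (h2 : α 81 = false) (h3 : α 137 = false) : False :=
  af h false 5 119 81 137 (by decide +kernel) h1 h2 h3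

theorem c1833 (h : Good α) (h1 : α 119 = false) (h2 : α 274 = false) (h3 : α 81 = false) (h4 : α 242 = false) : False :=
  rf h false 2 1 1 119 274 81 242 (by decide +kernel) h1 h2 h3 h4

theorem c1834 (h : Good α) (h1 : α 252 = false) (h2 : α 119 = false) (h3 : α 81 = false) : False :=
  af h false 5 252 119 81 (by decide +kernel) h1 h2 h3

theorem c1835 (h : Good α) (h1 : α 272 = false) (h2 : α 184 = false) (h3 : α 158 = false) (h4 : α 81 = false) : False :=
  rf h false 0 2 3 272 184 158 81 (by decide +kernel) h1 h2 h3 h4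

theorem c1836 (h : Good α) (h1 : α 272 = true) (h2 : α 184 = true) (h3 : α 158 = true) (h4 : α 81 = true) : False :=
  rf h true 0 2 3 272 184 158 81 (by decide +kernel) h1 h2 h3 h4

theorem c1837 (h : Good α) (h1 : α 459 = false) (h2 : α 379 = false) (h3 : α 158 = false) (h4 : α 81 = false) : False :=
  rf h false 0 2 4 459 379 158 81 (by decide +kernel) h1 h2 h3 h4

theorem c1838 (h : Good α) (h1 : α 459 = true) (h2 : α 379 = true) (h3 : α 158 = true) (h4 : α 81 = true) : False :=
  rf h true 0 2 4 459 379 158 81 (by decide +kernel) h1 h2 h3 h4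

theorem c1839 (h : Good α) (h1 : α 184 = true) (h2 : α 264 = true) (h3 : α 81 = true) (h4 : α 180 = true) : False :=
  rf h true 0 1 3 184 264 81 180 (by decide +kernel) h1 h2 h3 h4

theorem c1840 (h : Good α) (h1 : α 379 = false) (h2 : α 452 = false) (h3 : α 81 = false) (h4 : α 180 = false) : False :=
  rf h false 0 1 4 379 452 81 180 (by decide +kernel) h1 h2 h3 h4

theorem c1841 (h : Good α) (h1 : α 379 = true) (h2 : α 452 = true) (h3 : α 81 = true) (h4 : α 180 = true) : False :=
  rf h true 0 1 4 379 452 81 180 (by decide +kernel) h1 h2 h3 h4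

theorem c1842 (h : Good α) (h1 : α 218 = true) (h2 : α 81 = true) (h3 : α 316 = true) (h4 : α 201 = true) : False :=
  rf h true 1 3 1 218 81 316 201 (by decide +kernel) h1 h2 h3 h4

theorem c1843 (h : Good α) (h1 : α 81 = false) (h2 : α 201 = false) (h3 : α 378 = false) : False :=
  af h false 4 81 201 378 (by decide +kernel) h1 h2 h3

theorem c1844 (h : Good α) (h1 : α 81 = true) (h2 : α 201 = true) (h3 : α 378 = true) : False :=
  af h true 4 81 201 378 (by decide +kernel) h1 h2 h3

theorem c1845 (h : Good α) (h1 : α 416 = false) (h2 : α 556 = false) (h3 : α 81 = false) (h4 : α 242 = false) : False :=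
  rf h false 2 1 3 416 556 81 242 (by decide +kernel) h1 h2 h3 h4

theorem c1846 (h : Good α) (h1 : α 81 = false) (h2 : α 242 = false) (h3 : α 462 = false) : False :=
  af h false 2 81 242 462 (by decide +kernel) h1 h2 h3

theorem c1847 (h : Good α) (h1 : α 81 = true) (h2 : α 242 = true) (h3 : α 462 = true) : False :=
  af h true 2 81 242 462 (by decide +kernel) h1 h2 h3

theorem c1848 (h : Good α) (h1 : α 252 = false) (h2 : α 581 = false) (h3 : α 81 = false) (h4 : α 462 = false) : False :=
  rf h false 2 2 2 252 581 81 462 (by decide +kernel) h1 h2 h3 h4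

theorem c1849 (h : Good α) (h1 : α 245 = true) (h2 : α 120 = true) (h3 : α 82 = true) : False :=
  af h true 4 245 120 82 (by decide +kernel) h1 h2 h3

theorem c1850 (h : Good α) (h1 : α 272 = false) (h2 : α 120 = false) (h3 : α 249 = false) (h4 : α 82 = false) : False :=
  rf h false 1 1 1 272 120 249 82 (by decide +kernel) h1 h2 h3 h4

theorem c1851 (h : Good α) (h1 : α 82 = true) (h2 : α 192 = true) (h3 : α 162 = true) (h4 : α 274 = true) : False :=
  rf h true 0 3 2 82 192 162 274 (by decide +kernel) h1 h2 h3 h4

theorem c1852 (h : Good α) (h1 : α 173 = true) (h2 : α 262 = true) (h3 : α 82 = true) (h4 : α 192 = true) : False :=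
  rf h true 0 3 1 173 262 82 192 (by decide +kernel) h1 h2 h3 h4

theorem c1853 (h : Good α) (h1 : α 82 = false) (h2 : α 206 = false) (h3 : α 197 = false) (h4 : α 313 = false) : False :=
  rf h false 2 3 1 82 206 197 313 (by decide +kernel) h1 h2 h3 h4

theorem c1854 (h : Good α) (h1 : α 221 = false) (h2 : α 82 = false) (h3 : α 327 = false) (h4 : α 197 = false) : False :=
  rf h false 2 1 1 221 82 327 197 (by decide +kernel) h1 h2 h3 h4

theorem c1855 (h : Good α) (h1 : α 82 = false) (h2 : α 197 = false) (h3 : α 390 = false) : False :=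
  af h false 5 82 197 390 (by decide +kernel) h1 h2 h3

theorem c1856 (h : Good α) (h1 : α 82 = true) (h2 : α 197 = true) (h3 : α 390 = true) : False :=
  af h true 5 82 197 390 (by decide +kernel) h1 h2 h3

theorem c1857 (h : Good α) (h1 : α 472 = false) (h2 : α 249 = false) (h3 : α 82 = false) : False :=
  af h false 1 472 249 82 (by decide +kernel) h1 h2 h3

theorem c1858 (h : Good α) (h1 : α 133 = false) (h2 : α 83 = false) (h3 : α 121 = false) : False :=
  af h false 4 133 83 121 (by decide +kernel) h1 h2 h3

theorem c1859 (h : Good α) (h1 : α 83 = false) (h2 : α 250 = false) (h3 : α 121 = false) (h4 : α 273 = false) : False :=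
  rf h false 1 1 1 83 250 121 273 (by decide +kernel) h1 h2 h3 h4

theorem c1860 (h : Good α) (h1 : α 324 = false) (h2 : α 204 = false) (h3 : α 211 = false) (h4 : α 83 = false) : False :=
  rf h false 2 3 1 324 204 211 83 (by decide +kernel) h1 h2 h3 h4

theorem c1861 (h : Good α) (h1 : α 324 = true) (h2 : α 204 = true) (h3 : α 211 = true) (h4 : α 83 = true) : False :=
  rf h true 2 3 1 324 204 211 83 (by decide +kernel) h1 h2 h3 h4

theorem c1862 (h : Good α) (h1 : α 391 = false) (h2 : α 204 = false) (h3 : α 83 = false) : False :=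
  af h false 5 391 204 83 (by decide +kernel) h1 h2 h3

theorem c1863 (h : Good α) (h1 : α 391 = true) (h2 : α 204 = true) (h3 : α 83 = true) : False :=
  af h true 5 391 204 83 (by decide +kernel) h1 h2 h3

theorem c1864 (h : Good α) (h1 : α 83 = false) (h2 : α 250 = false) (h3 : α 413 = false) (h4 : α 558 = false) : False :=
  rf h false 1 1 3 83 250 413 558 (by decide +kernel) h1 h2 h3 h4

theorem c1865 (h : Good α) (h1 : α 83 = true) (h2 : α 250 = true) (h3 : α 413 = true) (h4 : α 558 = true) : False :=
  rf h true 1 1 3 83 250 413 558 (by decide +kernel) h1 h2 h3 h4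

theorem c1866 (h : Good α) (h1 : α 83 = true) (h2 : α 250 = true) (h3 : α 473 = true) : False :=
  af h true 1 83 250 473 (by decide +kernel) h1 h2 h3

theorem c1867 (h : Good α) (h1 : α 84 = false) (h2 : α 114 = false) (h3 : α 237 = false) : False :=
  af h false 4 84 114 237 (by decide +kernel) h1 h2 h3

theorem c1868 (h : Good α) (h1 : α 84 = true) (h2 : α 114 = true) (h3 : α 237 = true) : False :=
  af h true 4 84 114 237 (by decide +kernel) h1 h2 h3

theorem c1869 (h : Good α) (h1 : α 460 = false) (h2 : α 84 = false) (h3 : α 477 = false) (h4 : α 114 = false) : False :=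
  rf h false 1 2 1 460 84 477 114 (by decide +kernel) h1 h2 h3 h4

theorem c1870 (h : Good α) (h1 : α 460 = true) (h2 : α 84 = true) (h3 : α 477 = true) (h4 : α 114 = true) : False :=
  rf h true 1 2 1 460 84 477 114 (by decide +kernel) h1 h2 h3 h4

theorem c1871 (h : Good α) (h1 : α 160 = false) (h2 : α 255 = false) (h3 : α 84 = false) (h4 : α 189 = false) : False :=
  rf h false 2 3 2 160 255 84 189 (by decide +kernel) h1 h2 h3 h4

theorem c1872 (h : Good α) (h1 : α 84 = false) (h2 : α 189 = false) (h3 : α 176 = false) (h4 : α 268 = false) : False :=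
  rf h false 2 3 1 84 189 176 268 (by decide +kernel) h1 h2 h3 h4

theorem c1873 (h : Good α) (h1 : α 84 = true) (h2 : α 189 = true) (h3 : α 176 = true) (h4 : α 268 = true) : False :=
  rf h true 2 3 1 84 189 176 268 (by decide +kernel) h1 h2 h3 h4

theorem c1874 (h : Good α) (h1 : α 84 = false) (h2 : α 399 = false) (h3 : α 176 = false) (h4 : α 468 = false) : False :=
  rf h false 2 4 1 84 399 176 468 (by decide +kernel) h1 h2 h3 h4

theorem c1875 (h : Good α) (h1 : α 199 = true) (h2 : α 325 = true) (h3 : α 84 = true) (h4 : α 212 = true) : False :=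
  rf h true 0 3 1 199 325 84 212 (by decide +kernel) h1 h2 h3 h4

theorem c1876 (h : Good α) (h1 : α 328 = false) (h2 : α 199 = false) (h3 : α 222 = false) (h4 : α 84 = false) : False :=
  rf h false 0 1 1 328 199 222 84 (by decide +kernel) h1 h2 h3 h4

theorem c1877 (h : Good α) (h1 : α 398 = false) (h2 : α 199 = false) (h3 : α 84 = false) : False :=
  af h false 3 398 199 84 (by decide +kernel) h1 h2 h3

theorem c1878 (h : Good α) (h1 : α 398 = true) (h2 : α 494 = true) (h3 : α 84 = true) (h4 : α 212 = true) : False :=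
  rf h true 0 3 2 398 494 84 212 (by decide +kernel) h1 h2 h3 h4

theorem c1879 (h : Good α) (h1 : α 460 = false) (h2 : α 243 = false) (h3 : α 84 = false) : False :=
  af h false 1 460 243 84 (by decide +kernel) h1 h2 h3

theorem c1880 (h : Good α) (h1 : α 117 = true) (h2 : α 85 = true) (h3 : α 128 = true) : False :=
  af h true 4 117 85 128 (by decide +kernel) h1 h2 h3

theorem c1881 (h : Good α) (h1 : α 238 = false) (h2 : α 117 = false) (h3 : α 85 = false) : False :=
  af h false 4 238 117 85 (by decide +kernel) h1 h2 h3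

theorem c1882 (h : Good α) (h1 : α 238 = true) (h2 : α 117 = true) (h3 : α 85 = true) : False :=
  af h true 4 238 117 85 (by decide +kernel) h1 h2 h3

theorem c1883 (h : Good α) (h1 : α 117 = false) (h2 : α 480 = false) (h3 : α 85 = false) (h4 : α 461 = false) : False :=
  rf h false 1 2 1 117 480 85 461 (by decide +kernel) h1 h2 h3 h4

theorem c1884 (h : Good α) (h1 : α 85 = true) (h2 : α 246 = true) (h3 : α 128 = true) (h4 : α 291 = true) : False :=
  rf h true 1 1 1 85 246 128 291 (by decide +kernel) h1 h2 h3 h4

theorem c1885 (h : Good α) (h1 : α 469 = true) (h2 : α 177 = true) (h3 : α 398 = true) (h4 : α 85 = true) : False :=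
  rf h true 2 4 1 469 177 398 85 (by decide +kernel) h1 h2 h3 h4

theorem c1886 (h : Good α) (h1 : α 205 = false) (h2 : α 85 = false) (h3 : α 312 = false) (h4 : α 202 = false) : False :=
  rf h false 0 3 1 205 85 312 202 (by decide +kernel) h1 h2 h3 h4

theorem c1887 (h : Good α) (h1 : α 205 = true) (h2 : α 85 = true) (h3 : α 312 = true) (h4 : α 202 = true) : False :=
  rf h true 0 3 1 205 85 312 202 (by decide +kernel) h1 h2 h3 h4

theorem c1888 (h : Good α) (h1 : α 205 = false) (h2 : α 85 = false) (h3 : α 487 = false) (h4 : α 399 = false) : False :=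
  rf h false 0 3 2 205 85 487 399 (by decide +kernel) h1 h2 h3 h4

theorem c1889 (h : Good α) (h1 : α 205 = true) (h2 : α 85 = true) (h3 : α 487 = true) (h4 : α 399 = true) : False :=
  rf h true 0 3 2 205 85 487 399 (by decide +kernel) h1 h2 h3 h4

theorem c1890 (h : Good α) (h1 : α 238 = true) (h2 : α 391 = true) (h3 : α 85 = true) (h4 : α 246 = true) : False :=
  rf h true 1 1 2 238 391 85 246 (by decide +kernel) h1 h2 h3 h4

theorem c1891 (h : Good α) (h1 : α 238 = false) (h2 : α 579 = false) (h3 : α 85 = false) (h4 : α 461 = false) : False :=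
  rf h false 1 2 2 238 579 85 461 (by decide +kernel) h1 h2 h3 h4

theorem c1892 (h : Good α) (h1 : α 424 = true) (h2 : α 557 = true) (h3 : α 85 = true) (h4 : α 246 = true) : False :=
  rf h true 1 1 3 424 557 85 246 (by decide +kernel) h1 h2 h3 h4

theorem c1893 (h : Good α) (h1 : α 85 = true) (h2 : α 246 = true) (h3 : α 461 = true) : False :=
  af h true 1 85 246 461 (by decide +kernel) h1 h2 h3

theorem c1894 (h : Good α) (h1 : α 185 = false) (h2 : α 86 = false) (h3 : α 103 = false) : False :=
  af h false 3 185 86 103 (by decide +kernel) h1 h2 h3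

theorem c1895 (h : Good α) (h1 : α 185 = true) (h2 : α 86 = true) (h3 : α 103 = true) : False :=
  af h true 3 185 86 103 (by decide +kernel) h1 h2 h3

theorem c1896 (h : Good α) (h1 : α 86 = true) (h2 : α 103 = true) (h3 : α 216 = true) : False :=
  af h true 3 86 103 216 (by decide +kernel) h1 h2 h3

theorem c1897 (h : Good α) (h1 : α 275 = false) (h2 : α 86 = false) (h3 : α 285 = false) (h4 : α 103 = false) : False :=
  rf h false 0 1 1 275 86 285 103 (by decide +kernel) h1 h2 h3 h4

theorem c1898 (h : Good α) (h1 : α 211 = false) (h2 : α 111 = false) (h3 : α 86 = false) : False :=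
  af h false 4 211 111 86 (by decide +kernel) h1 h2 h3

theorem c1899 (h : Good α) (h1 : α 344 = true) (h2 : α 364 = true) (h3 : α 86 = true) (h4 : α 133 = true) : False :=
  rf h true 0 3 2 344 364 86 133 (by decide +kernel) h1 h2 h3 h4

theorem c1900 (h : Good α) (h1 : α 86 = true) (h2 : α 143 = true) (h3 : α 191 = true) (h4 : α 225 = true) : False :=
  rf h true 1 3 1 86 143 191 225 (by decide +kernel) h1 h2 h3 h4

theorem c1901 (h : Good α) (h1 : α 346 = false) (h2 : α 185 = false) (h3 : α 275 = false) (h4 : α 86 = false) : False :=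
  rf h false 0 1 1 346 185 275 86 (by decide +kernel) h1 h2 h3 h4

theorem c1902 (h : Good α) (h1 : α 344 = true) (h2 : α 185 = true) (h3 : α 86 = true) : False :=
  af h true 3 344 185 86 (by decide +kernel) h1 h2 h3

theorem c1903 (h : Good α) (h1 : α 254 = false) (h2 : α 86 = false) (h3 : α 338 = false) (h4 : α 191 = false) : False :=
  rf h false 1 1 1 254 86 338 191 (by decide +kernel) h1 h2 h3 h4

theorem c1904 (h : Good α) (h1 : α 86 = false) (h2 : α 191 = false) (h3 : α 336 = false) : False :=
  af h false 4 86 191 336 (by decide +kernel) h1 h2 h3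

theorem c1905 (h : Good α) (h1 : α 86 = true) (h2 : α 191 = true) (h3 : α 336 = true) : False :=
  af h true 4 86 191 336 (by decide +kernel) h1 h2 h3

theorem c1906 (h : Good α) (h1 : α 275 = false) (h2 : α 86 = false) (h3 : α 362 = false) (h4 : α 216 = false) : False :=
  rf h false 0 1 2 275 86 362 216 (by decide +kernel) h1 h2 h3 h4

theorem c1907 (h : Good α) (h1 : α 436 = false) (h2 : α 243 = false) (h3 : α 86 = false) : False :=
  af h false 2 436 243 86 (by decide +kernel) h1 h2 h3

theorem c1908 (h : Good α) (h1 : α 490 = true) (h2 : α 254 = true) (h3 : α 86 = true) : False :=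
  af h true 1 490 254 86 (by decide +kernel) h1 h2 h3

theorem c1909 (h : Good α) (h1 : α 485 = false) (h2 : α 344 = false) (h3 : α 275 = false) (h4 : α 86 = false) : False :=
  rf h false 0 1 2 485 344 275 86 (by decide +kernel) h1 h2 h3 h4

theorem c1910 (h : Good α) (h1 : α 504 = false) (h2 : α 275 = false) (h3 : α 86 = false) : False :=
  af h false 0 504 275 86 (by decide +kernel) h1 h2 h3

theorem c1911 (h : Good α) (h1 : α 245 = true) (h2 : α 89 = true) (h3 : α 243 = true) (h4 : α 87 = true) : False :=
  rf h true 2 3 2 245 89 243 87 (by decide +kernel) h1 h2 h3 h4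

theorem c1912 (h : Good α) (h1 : α 99 = false) (h2 : α 87 = false) (h3 : α 189 = false) : False :=
  af h false 1 99 87 189 (by decide +kernel) h1 h2 h3

theorem c1913 (h : Good α) (h1 : α 181 = false) (h2 : α 87 = false) (h3 : α 121 = false) : False :=
  af h false 0 181 87 121 (by decide +kernel) h1 h2 h3

theorem c1914 (h : Good α) (h1 : α 181 = true) (h2 : α 87 = true) (h3 : α 121 = true) : False :=
  af h true 0 181 87 121 (by decide +kernel) h1 h2 h3

theorem c1915 (h : Good α) (h1 : α 127 = false) (h2 : α 212 = false) (h3 : α 87 = false) (h4 : α 189 = false) : False :=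
  rf h false 1 1 3 127 212 87 189 (by decide +kernel) h1 h2 h3 h4

theorem c1916 (h : Good α) (h1 : α 127 = true) (h2 : α 371 = true) (h3 : α 87 = true) (h4 : α 345 = true) : False :=
  rf h true 1 2 3 127 371 87 345 (by decide +kernel) h1 h2 h3 h4

theorem c1917 (h : Good α) (h1 : α 181 = false) (h2 : α 87 = false) (h3 : α 339 = false) (h4 : α 268 = false) : False :=
  rf h false 0 1 1 181 87 339 268 (by decide +kernel) h1 h2 h3 h4

theorem c1918 (h : Good α) (h1 : α 336 = false) (h2 : α 181 = false) (h3 : α 87 = false) : False :=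
  af h false 0 336 181 87 (by decide +kernel) h1 h2 h3

theorem c1919 (h : Good α) (h1 : α 336 = true) (h2 : α 181 = true) (h3 : α 87 = true) : False :=
  af h true 0 336 181 87 (by decide +kernel) h1 h2 h3

theorem c1920 (h : Good α) (h1 : α 87 = false) (h2 : α 189 = false) (h3 : α 260 = false) (h4 : α 340 = false) : False :=
  rf h false 1 1 1 87 189 260 340 (by decide +kernel) h1 h2 h3 h4

theorem c1921 (h : Good α) (h1 : α 87 = false) (h2 : α 189 = false) (h3 : α 345 = false) : False :=
  af h false 1 87 189 345 (by decide +kernel) h1 h2 h3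

theorem c1922 (h : Good α) (h1 : α 241 = false) (h2 : α 536 = false) (h3 : α 87 = false) (h4 : α 437 = false) : False :=
  rf h false 2 2 3 241 536 87 437 (by decide +kernel) h1 h2 h3 h4

theorem c1923 (h : Good α) (h1 : α 87 = false) (h2 : α 260 = false) (h3 : α 488 = false) : False :=
  af h false 4 87 260 488 (by decide +kernel) h1 h2 h3

theorem c1924 (h : Good α) (h1 : α 88 = true) (h2 : α 89 = true) (h3 : α 240 = true) (h4 : α 234 = true) : False :=
  rf h true 2 2 3 88 89 240 234 (by decide +kernel) h1 h2 h3 h4

theorem c1925 (h : Good α) (h1 : α 188 = false) (h2 : α 88 = false) (h3 : α 100 = false) : False :=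
  af h false 1 188 88 100 (by decide +kernel) h1 h2 h3

theorem c1926 (h : Good α) (h1 : α 120 = false) (h2 : α 88 = false) (h3 : α 182 = false) : False :=
  af h false 0 120 88 182 (by decide +kernel) h1 h2 h3

theorem c1927 (h : Good α) (h1 : α 221 = false) (h2 : α 120 = false) (h3 : α 88 = false) : False :=
  af h false 0 221 120 88 (by decide +kernel) h1 h2 h3

theorem c1928 (h : Good α) (h1 : α 286 = false) (h2 : α 269 = false) (h3 : α 120 = false) (h4 : α 88 = false) : False :=
  rf h false 0 1 1 286 269 120 88 (by decide +kernel) h1 h2 h3 h4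

theorem c1929 (h : Good α) (h1 : α 524 = false) (h2 : α 498 = false) (h3 : α 120 = false) (h4 : α 88 = false) : False :=
  rf h false 0 1 2 524 498 120 88 (by decide +kernel) h1 h2 h3 h4

theorem c1930 (h : Good α) (h1 : α 188 = true) (h2 : α 88 = true) (h3 : α 205 = true) (h4 : α 122 = true) : False :=
  rf h true 1 1 3 188 88 205 122 (by decide +kernel) h1 h2 h3 h4

theorem c1931 (h : Good α) (h1 : α 88 = true) (h2 : α 182 = true) (h3 : α 139 = true) (h4 : α 228 = true) : False :=
  rf h true 0 1 3 88 182 139 228 (by decide +kernel) h1 h2 h3 h4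

theorem c1932 (h : Good α) (h1 : α 269 = false) (h2 : α 342 = false) (h3 : α 88 = false) (h4 : α 182 = false) : False :=
  rf h false 0 1 1 269 342 88 182 (by decide +kernel) h1 h2 h3 h4

theorem c1933 (h : Good α) (h1 : α 88 = false) (h2 : α 182 = false) (h3 : α 337 = false) : False :=
  af h false 0 88 182 337 (by decide +kernel) h1 h2 h3

theorem c1934 (h : Good α) (h1 : α 88 = true) (h2 : α 182 = true) (h3 : α 337 = true) : False :=
  af h true 0 88 182 337 (by decide +kernel) h1 h2 h3

theorem c1935 (h : Good α) (h1 : α 344 = false) (h2 : α 188 = false) (h3 : α 88 = false) : False :=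
  af h false 1 344 188 88 (by decide +kernel) h1 h2 h3

theorem c1936 (h : Good α) (h1 : α 344 = true) (h2 : α 188 = true) (h3 : α 88 = true) : False :=
  af h true 1 344 188 88 (by decide +kernel) h1 h2 h3

theorem c1937 (h : Good α) (h1 : α 493 = false) (h2 : α 261 = false) (h3 : α 88 = false) : False :=
  af h false 4 493 261 88 (by decide +kernel) h1 h2 h3

theorem c1938 (h : Good α) (h1 : α 498 = true) (h2 : α 269 = true) (h3 : α 88 = true) : False :=
  af h true 3 498 269 88 (by decide +kernel) h1 h2 h3

theorem c1939 (h : Good α) (h1 : α 104 = false) (h2 : α 89 = false) (h3 : α 186 = false) : False :=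
  af h false 3 104 89 186 (by decide +kernel) h1 h2 h3

theorem c1940 (h : Good α) (h1 : α 104 = true) (h2 : α 89 = true) (h3 : α 186 = true) : False :=
  af h true 3 104 89 186 (by decide +kernel) h1 h2 h3

theorem c1941 (h : Good α) (h1 : α 217 = true) (h2 : α 104 = true) (h3 : α 89 = true) : False :=
  af h true 3 217 104 89 (by decide +kernel) h1 h2 h3

theorem c1942 (h : Good α) (h1 : α 104 = false) (h2 : α 288 = false) (h3 : α 89 = false) (h4 : α 276 = false) : False :=
  rf h false 0 1 1 104 288 89 276 (by decide +kernel) h1 h2 h3 h4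

theorem c1943 (h : Good α) (h1 : α 192 = false) (h2 : α 89 = false) (h3 : α 108 = false) : False :=
  af h false 4 192 89 108 (by decide +kernel) h1 h2 h3

theorem c1944 (h : Good α) (h1 : α 89 = false) (h2 : α 108 = false) (h3 : α 206 = false) : False :=
  af h false 4 89 108 206 (by decide +kernel) h1 h2 h3

theorem c1945 (h : Good α) (h1 : α 89 = true) (h2 : α 108 = true) (h3 : α 206 = true) : False :=
  af h true 4 89 108 206 (by decide +kernel) h1 h2 h3

theorem c1946 (h : Good α) (h1 : α 89 = false) (h2 : α 186 = false) (h3 : α 345 = false) : False :=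
  af h false 3 89 186 345 (by decide +kernel) h1 h2 h3

theorem c1947 (h : Good α) (h1 : α 89 = true) (h2 : α 186 = true) (h3 : α 345 = true) : False :=
  af h true 3 89 186 345 (by decide +kernel) h1 h2 h3

theorem c1948 (h : Good α) (h1 : α 337 = false) (h2 : α 192 = false) (h3 : α 89 = false) : False :=
  af h false 4 337 192 89 (by decide +kernel) h1 h2 h3

theorem c1949 (h : Good α) (h1 : α 337 = true) (h2 : α 192 = true) (h3 : α 89 = true) : False :=
  af h true 4 337 192 89 (by decide +kernel) h1 h2 h3

theorem c1950 (h : Good α) (h1 : α 348 = true) (h2 : α 241 = true) (h3 : α 245 = true) (h4 : α 89 = true) : False :=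
  rf h true 2 3 1 348 241 245 89 (by decide +kernel) h1 h2 h3 h4

theorem c1951 (h : Good α) (h1 : α 433 = true) (h2 : α 241 = true) (h3 : α 89 = true) : False :=
  af h true 5 433 241 89 (by decide +kernel) h1 h2 h3

theorem c1952 (h : Good α) (h1 : α 89 = false) (h2 : α 246 = false) (h3 : α 438 = false) : False :=
  af h false 2 89 246 438 (by decide +kernel) h1 h2 h3

theorem c1953 (h : Good α) (h1 : α 89 = false) (h2 : α 255 = false) (h3 : α 491 = false) : False :=
  af h false 1 89 255 491 (by decide +kernel) h1 h2 h3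

theorem c1954 (h : Good α) (h1 : α 89 = true) (h2 : α 255 = true) (h3 : α 491 = true) : False :=
  af h true 1 89 255 491 (by decide +kernel) h1 h2 h3

theorem c1955 (h : Good α) (h1 : α 96 = true) (h2 : α 252 = true) (h3 : α 90 = true) (h4 : α 247 = true) : False :=
  rf h true 1 3 2 96 252 90 247 (by decide +kernel) h1 h2 h3 h4

theorem c1956 (h : Good α) (h1 : α 248 = true) (h2 : α 96 = true) (h3 : α 251 = true) (h4 : α 90 = true) : False :=
  rf h true 1 1 2 248 96 251 90 (by decide +kernel) h1 h2 h3 h4

theorem c1957 (h : Good α) (h1 : α 96 = false) (h2 : α 448 = false) (h3 : α 90 = false) (h4 : α 440 = false) : False :=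
  rf h false 1 4 2 96 448 90 440 (by decide +kernel) h1 h2 h3 h4

theorem c1958 (h : Good α) (h1 : α 187 = false) (h2 : α 90 = false) (h3 : α 102 = false) : False :=
  af h false 2 187 90 102 (by decide +kernel) h1 h2 h3

theorem c1959 (h : Good α) (h1 : α 187 = true) (h2 : α 90 = true) (h3 : α 102 = true) : False :=
  af h true 2 187 90 102 (by decide +kernel) h1 h2 h3

theorem c1960 (h : Good α) (h1 : α 90 = false) (h2 : α 102 = false) (h3 : α 214 = false) : False :=
  af h false 2 90 102 214 (by decide +kernel) h1 h2 h3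

theorem c1961 (h : Good α) (h1 : α 90 = true) (h2 : α 102 = true) (h3 : α 214 = true) : False :=
  af h true 2 90 102 214 (by decide +kernel) h1 h2 h3

theorem c1962 (h : Good α) (h1 : α 90 = true) (h2 : α 102 = true) (h3 : α 496 = true) (h4 : α 512 = true) : False :=
  rf h true 2 1 2 90 102 496 512 (by decide +kernel) h1 h2 h3 h4

theorem c1963 (h : Good α) (h1 : α 118 = true) (h2 : α 90 = true) (h3 : α 181 = true) : False :=
  af h true 3 118 90 181 (by decide +kernel) h1 h2 h3

theorem c1964 (h : Good α) (h1 : α 227 = false) (h2 : α 118 = false) (h3 : α 90 = false) : False :=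
  af h false 3 227 118 90 (by decide +kernel) h1 h2 h3

theorem c1965 (h : Good α) (h1 : α 227 = true) (h2 : α 118 = true) (h3 : α 90 = true) : False :=
  af h true 3 227 118 90 (by decide +kernel) h1 h2 h3

theorem c1966 (h : Good α) (h1 : α 207 = true) (h2 : α 135 = true) (h3 : α 187 = true) (h4 : α 90 = true) : False :=
  rf h true 2 1 3 207 135 187 90 (by decide +kernel) h1 h2 h3 h4

theorem c1967 (h : Good α) (h1 : α 369 = true) (h2 : α 135 = true) (h3 : α 346 = true) (h4 : α 90 = true) : False :=
  rf h true 2 2 3 369 135 346 90 (by decide +kernel) h1 h2 h3 h4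

theorem c1968 (h : Good α) (h1 : α 90 = true) (h2 : α 145 = true) (h3 : α 181 = true) (h4 : α 224 = true) : False :=
  rf h true 0 3 1 90 145 181 224 (by decide +kernel) h1 h2 h3 h4

theorem c1969 (h : Good α) (h1 : α 90 = true) (h2 : α 145 = true) (h3 : α 339 = true) (h4 : α 375 = true) : False :=
  rf h true 0 3 2 90 145 339 375 (by decide +kernel) h1 h2 h3 h4

theorem c1970 (h : Good α) (h1 : α 253 = false) (h2 : α 90 = false) (h3 : α 336 = false) (h4 : α 181 = false) : False :=
  rf h false 0 1 1 253 90 336 181 (by decide +kernel) h1 h2 h3 h4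

theorem c1971 (h : Good α) (h1 : α 90 = true) (h2 : α 181 = true) (h3 : α 339 = true) : False :=
  af h true 3 90 181 339 (by decide +kernel) h1 h2 h3

theorem c1972 (h : Good α) (h1 : α 346 = false) (h2 : α 187 = false) (h3 : α 90 = false) : False :=
  af h false 2 346 187 90 (by decide +kernel) h1 h2 h3

theorem c1973 (h : Good α) (h1 : α 346 = true) (h2 : α 187 = true) (h3 : α 90 = true) : False :=
  af h true 2 346 187 90 (by decide +kernel) h1 h2 h3

theorem c1974 (h : Good α) (h1 : α 90 = false) (h2 : α 229 = false) (h3 : α 434 = false) : False :=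
  af h false 4 90 229 434 (by decide +kernel) h1 h2 h3

theorem c1975 (h : Good α) (h1 : α 495 = false) (h2 : α 253 = false) (h3 : α 90 = false) : False :=
  af h false 0 495 253 90 (by decide +kernel) h1 h2 h3

theorem c1976 (h : Good α) (h1 : α 495 = true) (h2 : α 253 = true) (h3 : α 90 = true) : False :=
  af h true 0 495 253 90 (by decide +kernel) h1 h2 h3

theorem c1977 (h : Good α) (h1 : α 346 = false) (h2 : α 90 = false) (h3 : α 477 = false) (h4 : α 258 = false) : False :=
  rf h false 2 2 1 346 90 477 258 (by decide +kernel) h1 h2 h3 h4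

theorem c1978 (h : Good α) (h1 : α 90 = false) (h2 : α 258 = false) (h3 : α 496 = false) : False :=
  af h false 5 90 258 496 (by decide +kernel) h1 h2 h3

theorem c1979 (h : Good α) (h1 : α 90 = true) (h2 : α 258 = true) (h3 : α 496 = true) : False :=
  af h true 5 90 258 496 (by decide +kernel) h1 h2 h3

theorem c1980 (h : Good α) (h1 : α 94 = true) (h2 : α 92 = true) (h3 : α 91 = true) (h4 : α 97 = true) : False :=
  rf h true 0 2 2 94 92 91 97 (by decide +kernel) h1 h2 h3 h4

theorem c1981 (h : Good α) (h1 : α 249 = true) (h2 : α 94 = true) (h3 : α 237 = true) (h4 : α 91 = true) : False :=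
  rf h true 0 1 2 249 94 237 91 (by decide +kernel) h1 h2 h3 h4

theorem c1982 (h : Good α) (h1 : α 94 = false) (h2 : α 238 = false) (h3 : α 91 = false) (h4 : α 250 = false) : False :=
  rf h false 0 3 2 94 238 91 250 (by decide +kernel) h1 h2 h3 h4

theorem c1983 (h : Good α) (h1 : α 94 = true) (h2 : α 238 = true) (h3 : α 91 = true) (h4 : α 250 = true) : False :=
  rf h true 0 3 2 94 238 91 250 (by decide +kernel) h1 h2 h3 h4

theorem c1984 (h : Good α) (h1 : α 449 = false) (h2 : α 94 = false) (h3 : α 443 = false) (h4 : α 91 = false) : False :=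
  rf h false 0 2 2 449 94 443 91 (by decide +kernel) h1 h2 h3 h4

theorem c1985 (h : Good α) (h1 : α 94 = false) (h2 : α 444 = false) (h3 : α 91 = false) (h4 : α 450 = false) : False :=
  rf h false 0 4 2 94 444 91 450 (by decide +kernel) h1 h2 h3 h4

theorem c1986 (h : Good α) (h1 : α 94 = true) (h2 : α 444 = true) (h3 : α 91 = true) (h4 : α 450 = true) : False :=
  rf h true 0 4 2 94 444 91 450 (by decide +kernel) h1 h2 h3 h4

theorem c1987 (h : Good α) (h1 : α 91 = true) (h2 : α 97 = true) (h3 : α 233 = true) (h4 : α 242 = true) : False :=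
  rf h true 0 2 1 91 97 233 242 (by decide +kernel) h1 h2 h3 h4

theorem c1988 (h : Good α) (h1 : α 239 = false) (h2 : α 236 = false) (h3 : α 91 = false) (h4 : α 97 = false) : False :=
  rf h false 0 2 3 239 236 91 97 (by decide +kernel) h1 h2 h3 h4

theorem c1989 (h : Good α) (h1 : α 239 = true) (h2 : α 236 = true) (h3 : α 91 = true) (h4 : α 97 = true) : False :=
  rf h true 0 2 3 239 236 91 97 (by decide +kernel) h1 h2 h3 h4

theorem c1990 (h : Good α) (h1 : α 446 = false) (h2 : α 442 = false) (h3 : α 91 = false) (h4 : α 97 = false) : False :=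
  rf h false 0 2 4 446 442 91 97 (by decide +kernel) h1 h2 h3 h4

theorem c1991 (h : Good α) (h1 : α 446 = true) (h2 : α 442 = true) (h3 : α 91 = true) (h4 : α 97 = true) : False :=
  rf h true 0 2 4 446 442 91 97 (by decide +kernel) h1 h2 h3 h4

theorem c1992 (h : Good α) (h1 : α 114 = false) (h2 : α 91 = false) (h3 : α 183 = false) : False :=
  af h false 2 114 91 183 (by decide +kernel) h1 h2 h3

theorem c1993 (h : Good α) (h1 : α 114 = true) (h2 : α 91 = true) (h3 : α 183 = true) : False :=
  af h true 2 114 91 183 (by decide +kernel) h1 h2 h3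

theorem c1994 (h : Good α) (h1 : α 222 = false) (h2 : α 114 = false) (h3 : α 91 = false) : False :=
  af h false 2 222 114 91 (by decide +kernel) h1 h2 h3

theorem c1995 (h : Good α) (h1 : α 222 = true) (h2 : α 114 = true) (h3 : α 91 = true) : False :=
  af h true 2 222 114 91 (by decide +kernel) h1 h2 h3

theorem c1996 (h : Good α) (h1 : α 114 = false) (h2 : α 91 = false) (h3 : α 285 = false) (h4 : α 259 = false) : False :=
  rf h false 2 1 1 114 91 285 259 (by decide +kernel) h1 h2 h3 h4

theorem c1997 (h : Good α) (h1 : α 114 = true) (h2 : α 91 = true) (h3 : α 285 = true) (h4 : α 259 = true) : False :=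
  rf h true 2 1 1 114 91 285 259 (by decide +kernel) h1 h2 h3 h4

theorem c1998 (h : Good α) (h1 : α 191 = false) (h2 : α 91 = false) (h3 : α 115 = false) : False :=
  af h false 1 191 91 115 (by decide +kernel) h1 h2 h3

theorem c1999 (h : Good α) (h1 : α 191 = true) (h2 : α 91 = true) (h3 : α 115 = true) : False :=
  af h true 1 191 91 115 (by decide +kernel) h1 h2 h3

theorem c2000 (h : Good α) (h1 : α 91 = false) (h2 : α 115 = false) (h3 : α 225 = false) : False :=
  af h false 1 91 115 225 (by decide +kernel) h1 h2 h3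

theorem c2001 (h : Good α) (h1 : α 124 = false) (h2 : α 215 = false) (h3 : α 91 = false) (h4 : α 183 = false) : False :=
  rf h false 2 1 3 124 215 91 183 (by decide +kernel) h1 h2 h3 h4

theorem c2002 (h : Good α) (h1 : α 124 = true) (h2 : α 215 = true) (h3 : α 91 = true) (h4 : α 183 = true) : False :=
  rf h true 2 1 3 124 215 91 183 (by decide +kernel) h1 h2 h3 h4

theorem c2003 (h : Good α) (h1 : α 124 = false) (h2 : α 359 = false) (h3 : α 91 = false) (h4 : α 340 = false) : False :=
  rf h false 2 2 3 124 359 91 340 (by decide +kernel) h1 h2 h3 h4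

theorem c2004 (h : Good α) (h1 : α 211 = true) (h2 : α 126 = true) (h3 : α 191 = true) (h4 : α 91 = true) : False :=
  rf h true 1 1 3 211 126 191 91 (by decide +kernel) h1 h2 h3 h4

theorem c2005 (h : Good α) (h1 : α 91 = false) (h2 : α 183 = false) (h3 : α 259 = false) (h4 : α 339 = false) : False :=
  rf h false 2 1 1 91 183 259 339 (by decide +kernel) h1 h2 h3 h4

theorem c2006 (h : Good α) (h1 : α 91 = false) (h2 : α 183 = false) (h3 : α 340 = false) : False :=
  af h false 2 91 183 340 (by decide +kernel) h1 h2 h3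

theorem c2007 (h : Good α) (h1 : α 91 = true) (h2 : α 183 = true) (h3 : α 340 = true) : False :=
  af h true 2 91 183 340 (by decide +kernel) h1 h2 h3

theorem c2008 (h : Good α) (h1 : α 91 = true) (h2 : α 183 = true) (h3 : α 489 = true) (h4 : α 560 = true) : False :=
  rf h true 2 1 2 91 183 489 560 (by decide +kernel) h1 h2 h3 h4

theorem c2009 (h : Good α) (h1 : α 191 = false) (h2 : α 91 = false) (h3 : α 336 = false) (h4 : α 257 = false) : False :=
  rf h false 1 1 1 191 91 336 257 (by decide +kernel) h1 h2 h3 h4

theorem c2010 (h : Good α) (h1 : α 338 = false) (h2 : α 191 = false) (h3 : α 91 = false) : False :=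
  af h false 1 338 191 91 (by decide +kernel) h1 h2 h3

theorem c2011 (h : Good α) (h1 : α 338 = true) (h2 : α 191 = true) (h3 : α 91 = true) : False :=
  af h true 1 338 191 91 (by decide +kernel) h1 h2 h3

theorem c2012 (h : Good α) (h1 : α 191 = true) (h2 : α 91 = true) (h3 : α 549 = true) (h4 : α 487 = true) : False :=
  rf h true 1 1 2 191 91 549 487 (by decide +kernel) h1 h2 h3 h4

theorem c2013 (h : Good α) (h1 : α 237 = true) (h2 : α 91 = true) (h3 : α 351 = true) (h4 : α 233 = true) : False :=
  rf h true 0 1 1 237 91 351 233 (by decide +kernel) h1 h2 h3 h4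

theorem c2014 (h : Good α) (h1 : α 91 = false) (h2 : α 250 = false) (h3 : α 233 = false) (h4 : α 354 = false) : False :=
  rf h false 0 3 1 91 250 233 354 (by decide +kernel) h1 h2 h3 h4

theorem c2015 (h : Good α) (h1 : α 91 = true) (h2 : α 250 = true) (h3 : α 233 = true) (h4 : α 354 = true) : False :=
  rf h true 0 3 1 91 250 233 354 (by decide +kernel) h1 h2 h3 h4

theorem c2016 (h : Good α) (h1 : α 91 = false) (h2 : α 233 = false) (h3 : α 439 = false) : False :=
  af h false 3 91 233 439 (by decide +kernel) h1 h2 h3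

theorem c2017 (h : Good α) (h1 : α 91 = true) (h2 : α 233 = true) (h3 : α 439 = true) : False :=
  af h true 3 91 233 439 (by decide +kernel) h1 h2 h3

theorem c2018 (h : Good α) (h1 : α 443 = false) (h2 : α 91 = false) (h3 : α 543 = false) (h4 : α 233 = false) : False :=
  rf h false 0 2 1 443 91 543 233 (by decide +kernel) h1 h2 h3 h4

theorem c2019 (h : Good α) (h1 : α 91 = false) (h2 : α 450 = false) (h3 : α 233 = false) (h4 : α 548 = false) : False :=
  rf h false 0 4 1 91 450 233 548 (by decide +kernel) h1 h2 h3 h4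

theorem c2020 (h : Good α) (h1 : α 91 = true) (h2 : α 450 = true) (h3 : α 233 = true) (h4 : α 548 = true) : False :=
  rf h true 0 4 1 91 450 233 548 (by decide +kernel) h1 h2 h3 h4

theorem c2021 (h : Good α) (h1 : α 353 = false) (h2 : α 239 = false) (h3 : α 237 = false) (h4 : α 91 = false) : False :=
  rf h false 0 1 3 353 239 237 91 (by decide +kernel) h1 h2 h3 h4

theorem c2022 (h : Good α) (h1 : α 353 = true) (h2 : α 239 = true) (h3 : α 237 = true) (h4 : α 91 = true) : False :=
  rf h true 0 1 3 353 239 237 91 (by decide +kernel) h1 h2 h3 h4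

theorem c2023 (h : Good α) (h1 : α 237 = true) (h2 : α 91 = true) (h3 : α 534 = true) (h4 : α 439 = true) : False :=
  rf h true 0 1 2 237 91 534 439 (by decide +kernel) h1 h2 h3 h4

theorem c2024 (h : Good α) (h1 : α 443 = false) (h2 : α 237 = false) (h3 : α 91 = false) : False :=
  af h false 0 443 237 91 (by decide +kernel) h1 h2 h3

theorem c2025 (h : Good α) (h1 : α 443 = true) (h2 : α 237 = true) (h3 : α 91 = true) : False :=
  af h true 0 443 237 91 (by decide +kernel) h1 h2 h3

theorem c2026 (h : Good α) (h1 : α 545 = false) (h2 : α 446 = false) (h3 : α 237 = false) (h4 : α 91 = false) : False :=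
  rf h false 0 1 4 545 446 237 91 (by decide +kernel) h1 h2 h3 h4

theorem c2027 (h : Good α) (h1 : α 545 = true) (h2 : α 446 = true) (h3 : α 237 = true) (h4 : α 91 = true) : False :=
  rf h true 0 1 4 545 446 237 91 (by decide +kernel) h1 h2 h3 h4

theorem c2028 (h : Good α) (h1 : α 547 = false) (h2 : α 239 = false) (h3 : α 443 = false) (h4 : α 91 = false) : False :=
  rf h false 0 2 3 547 239 443 91 (by decide +kernel) h1 h2 h3 h4

theorem c2029 (h : Good α) (h1 : α 547 = true) (h2 : α 239 = true) (h3 : α 443 = true) (h4 : α 91 = true) : False :=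
  rf h true 0 2 3 547 239 443 91 (by decide +kernel) h1 h2 h3 h4

theorem c2030 (h : Good α) (h1 : α 91 = false) (h2 : α 250 = false) (h3 : α 439 = false) (h4 : α 546 = false) : False :=
  rf h false 0 3 2 91 250 439 546 (by decide +kernel) h1 h2 h3 h4

theorem c2031 (h : Good α) (h1 : α 91 = true) (h2 : α 250 = true) (h3 : α 439 = true) (h4 : α 546 = true) : False :=
  rf h true 0 3 2 91 250 439 546 (by decide +kernel) h1 h2 h3 h4

theorem c2032 (h : Good α) (h1 : α 338 = false) (h2 : α 91 = false) (h3 : α 475 = false) (h4 : α 257 = false) : False :=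
  rf h false 1 2 1 338 91 475 257 (by decide +kernel) h1 h2 h3 h4

theorem c2033 (h : Good α) (h1 : α 338 = true) (h2 : α 91 = true) (h3 : α 475 = true) (h4 : α 257 = true) : False :=
  rf h true 1 2 1 338 91 475 257 (by decide +kernel) h1 h2 h3 h4

theorem c2034 (h : Good α) (h1 : α 91 = false) (h2 : α 257 = false) (h3 : α 487 = false) : False :=
  af h false 4 91 257 487 (by decide +kernel) h1 h2 h3

theorem c2035 (h : Good α) (h1 : α 91 = true) (h2 : α 257 = true) (h3 : α 487 = true) : False :=
  af h true 4 91 257 487 (by decide +kernel) h1 h2 h3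

theorem c2036 (h : Good α) (h1 : α 91 = false) (h2 : α 340 = false) (h3 : α 259 = false) (h4 : α 478 = false) : False :=
  rf h false 2 2 1 91 340 259 478 (by decide +kernel) h1 h2 h3 h4

theorem c2037 (h : Good α) (h1 : α 91 = true) (h2 : α 340 = true) (h3 : α 259 = true) (h4 : α 478 = true) : False :=
  rf h true 2 2 1 91 340 259 478 (by decide +kernel) h1 h2 h3 h4

theorem c2038 (h : Good α) (h1 : α 91 = false) (h2 : α 259 = false) (h3 : α 489 = false) : False :=
  af h false 5 91 259 489 (by decide +kernel) h1 h2 h3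

theorem c2039 (h : Good α) (h1 : α 91 = true) (h2 : α 259 = true) (h3 : α 489 = true) : False :=
  af h true 5 91 259 489 (by decide +kernel) h1 h2 h3

theorem c2040 (h : Good α) (h1 : α 94 = false) (h2 : α 92 = false) (h3 : α 233 = false) (h4 : α 242 = false) : False :=
  rf h false 0 2 3 94 92 233 242 (by decide +kernel) h1 h2 h3 h4

theorem c2041 (h : Good α) (h1 : α 94 = true) (h2 : α 92 = true) (h3 : α 233 = true) (h4 : α 242 = true) : False :=
  rf h true 0 2 3 94 92 233 242 (by decide +kernel) h1 h2 h3 h4

theorem c2042 (h : Good α) (h1 : α 239 = false) (h2 : α 236 = false) (h3 : α 94 = false) (h4 : α 92 = false) : False :=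
  rf h false 0 2 1 239 236 94 92 (by decide +kernel) h1 h2 h3 h4

theorem c2043 (h : Good α) (h1 : α 239 = true) (h2 : α 236 = true) (h3 : α 94 = true) (h4 : α 92 = true) : False :=
  rf h true 0 2 1 239 236 94 92 (by decide +kernel) h1 h2 h3 h4

theorem c2044 (h : Good α) (h1 : α 94 = false) (h2 : α 92 = false) (h3 : α 439 = false) (h4 : α 447 = false) : False :=
  rf h false 0 2 4 94 92 439 447 (by decide +kernel) h1 h2 h3 h4

theorem c2045 (h : Good α) (h1 : α 94 = true) (h2 : α 92 = true) (h3 : α 439 = true) (h4 : α 447 = true) : False :=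
  rf h true 0 2 4 94 92 439 447 (by decide +kernel) h1 h2 h3 h4

theorem c2046 (h : Good α) (h1 : α 249 = false) (h2 : α 92 = false) (h3 : α 237 = false) (h4 : α 97 = false) : False :=
  rf h false 0 3 2 249 92 237 97 (by decide +kernel) h1 h2 h3 h4

theorem c2047 (h : Good α) (h1 : α 249 = true) (h2 : α 92 = true) (h3 : α 237 = true) (h4 : α 97 = true) : False :=
  rf h true 0 3 2 249 92 237 97 (by decide +kernel) h1 h2 h3 h4

theorem c2048 (h : Good α) (h1 : α 449 = false) (h2 : α 92 = false) (h3 : α 443 = false) (h4 : α 97 = false) : False :=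
  rf h false 0 4 2 449 92 443 97 (by decide +kernel) h1 h2 h3 h4

theorem c2049 (h : Good α) (h1 : α 449 = true) (h2 : α 92 = true) (h3 : α 443 = true) (h4 : α 97 = true) : False :=
  rf h true 0 4 2 449 92 443 97 (by decide +kernel) h1 h2 h3 h4

theorem c2050 (h : Good α) (h1 : α 92 = true) (h2 : α 444 = true) (h3 : α 97 = true) (h4 : α 450 = true) : False :=
  rf h true 0 2 2 92 444 97 450 (by decide +kernel) h1 h2 h3 h4

theorem c2051 (h : Good α) (h1 : α 116 = false) (h2 : α 92 = false) (h3 : α 192 = false) : False :=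
  af h false 1 116 92 192 (by decide +kernel) h1 h2 h3

theorem c2052 (h : Good α) (h1 : α 116 = true) (h2 : α 92 = true) (h3 : α 192 = true) : False :=
  af h true 1 116 92 192 (by decide +kernel) h1 h2 h3

theorem c2053 (h : Good α) (h1 : α 226 = false) (h2 : α 116 = false) (h3 : α 92 = false) : False :=
  af h false 1 226 116 92 (by decide +kernel) h1 h2 h3

theorem c2054 (h : Good α) (h1 : α 226 = true) (h2 : α 116 = true) (h3 : α 92 = true) : False :=
  af h true 1 226 116 92 (by decide +kernel) h1 h2 h3

theorem c2055 (h : Good α) (h1 : α 280 = false) (h2 : α 264 = false) (h3 : α 116 = false) (h4 : α 92 = false) : False :=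
  rf h false 1 1 1 280 264 116 92 (by decide +kernel) h1 h2 h3 h4

theorem c2056 (h : Good α) (h1 : α 184 = false) (h2 : α 92 = false) (h3 : α 117 = false) : False :=
  af h false 2 184 92 117 (by decide +kernel) h1 h2 h3

theorem c2057 (h : Good α) (h1 : α 184 = true) (h2 : α 92 = true) (h3 : α 117 = true) : False :=
  af h true 2 184 92 117 (by decide +kernel) h1 h2 h3

theorem c2058 (h : Good α) (h1 : α 92 = false) (h2 : α 117 = false) (h3 : α 223 = false) : False :=
  af h false 2 92 117 223 (by decide +kernel) h1 h2 h3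

theorem c2059 (h : Good α) (h1 : α 92 = true) (h2 : α 117 = true) (h3 : α 223 = true) : False :=
  af h true 2 92 117 223 (by decide +kernel) h1 h2 h3

theorem c2060 (h : Good α) (h1 : α 92 = false) (h2 : α 192 = false) (h3 : α 123 = false) (h4 : α 206 = false) : False :=
  rf h false 1 1 3 92 192 123 206 (by decide +kernel) h1 h2 h3 h4

theorem c2061 (h : Good α) (h1 : α 92 = true) (h2 : α 192 = true) (h3 : α 123 = true) (h4 : α 206 = true) : False :=
  rf h true 1 1 3 92 192 123 206 (by decide +kernel) h1 h2 h3 h4

theorem c2062 (h : Good α) (h1 : α 92 = true) (h2 : α 343 = true) (h3 : α 123 = true) (h4 : α 357 = true) : False :=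
  rf h true 1 2 3 92 343 123 357 (by decide +kernel) h1 h2 h3 h4

theorem c2063 (h : Good α) (h1 : α 184 = false) (h2 : α 92 = false) (h3 : α 218 = false) (h4 : α 125 = false) : False :=
  rf h false 2 1 3 184 92 218 125 (by decide +kernel) h1 h2 h3 h4

theorem c2064 (h : Good α) (h1 : α 342 = false) (h2 : α 262 = false) (h3 : α 184 = false) (h4 : α 92 = false) : False :=
  rf h false 2 1 1 342 262 184 92 (by decide +kernel) h1 h2 h3 h4

theorem c2065 (h : Good α) (h1 : α 341 = false) (h2 : α 184 = false) (h3 : α 92 = false) : False :=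
  af h false 2 341 184 92 (by decide +kernel) h1 h2 h3

theorem c2066 (h : Good α) (h1 : α 341 = true) (h2 : α 184 = true) (h3 : α 92 = true) : False :=
  af h true 2 341 184 92 (by decide +kernel) h1 h2 h3

theorem c2067 (h : Good α) (h1 : α 264 = false) (h2 : α 337 = false) (h3 : α 92 = false) (h4 : α 192 = false) : False :=
  rf h false 1 1 1 264 337 92 192 (by decide +kernel) h1 h2 h3 h4

theorem c2068 (h : Good α) (h1 : α 264 = true) (h2 : α 337 = true) (h3 : α 92 = true) (h4 : α 192 = true) : False :=
  rf h true 1 1 1 264 337 92 192 (by decide +kernel) h1 h2 h3 h4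

theorem c2069 (h : Good α) (h1 : α 92 = false) (h2 : α 192 = false) (h3 : α 343 = false) : False :=
  af h false 1 92 192 343 (by decide +kernel) h1 h2 h3

theorem c2070 (h : Good α) (h1 : α 92 = true) (h2 : α 192 = true) (h3 : α 343 = true) : False :=
  af h true 1 92 192 343 (by decide +kernel) h1 h2 h3

theorem c2071 (h : Good α) (h1 : α 353 = false) (h2 : α 236 = false) (h3 : α 249 = false) (h4 : α 92 = false) : False :=
  rf h false 0 3 1 353 236 249 92 (by decide +kernel) h1 h2 h3 h4

theorem c2072 (h : Good α) (h1 : α 353 = true) (h2 : α 236 = true) (h3 : α 249 = true) (h4 : α 92 = true) : False :=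
  rf h true 0 3 1 353 236 249 92 (by decide +kernel) h1 h2 h3 h4

theorem c2073 (h : Good α) (h1 : α 442 = false) (h2 : α 236 = false) (h3 : α 92 = false) : False :=
  af h false 3 442 236 92 (by decide +kernel) h1 h2 h3

theorem c2074 (h : Good α) (h1 : α 442 = true) (h2 : α 236 = true) (h3 : α 92 = true) : False :=
  af h true 3 442 236 92 (by decide +kernel) h1 h2 h3

theorem c2075 (h : Good α) (h1 : α 547 = false) (h2 : α 236 = false) (h3 : α 449 = false) (h4 : α 92 = false) : False :=
  rf h false 0 4 1 547 236 449 92 (by decide +kernel) h1 h2 h3 h4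

theorem c2076 (h : Good α) (h1 : α 547 = true) (h2 : α 236 = true) (h3 : α 449 = true) (h4 : α 92 = true) : False :=
  rf h true 0 4 1 547 236 449 92 (by decide +kernel) h1 h2 h3 h4

theorem c2077 (h : Good α) (h1 : α 92 = false) (h2 : α 238 = false) (h3 : α 242 = false) (h4 : α 354 = false) : False :=
  rf h false 0 1 3 92 238 242 354 (by decide +kernel) h1 h2 h3 h4

theorem c2078 (h : Good α) (h1 : α 92 = true) (h2 : α 238 = true) (h3 : α 242 = true) (h4 : α 354 = true) : False :=
  rf h true 0 1 3 92 238 242 354 (by decide +kernel) h1 h2 h3 h4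

theorem c2079 (h : Good α) (h1 : α 92 = false) (h2 : α 238 = false) (h3 : α 444 = false) : False :=
  af h false 0 92 238 444 (by decide +kernel) h1 h2 h3

theorem c2080 (h : Good α) (h1 : α 92 = true) (h2 : α 238 = true) (h3 : α 444 = true) : False :=
  af h true 0 92 238 444 (by decide +kernel) h1 h2 h3

theorem c2081 (h : Good α) (h1 : α 92 = false) (h2 : α 444 = false) (h3 : α 242 = false) (h4 : α 548 = false) : False :=
  rf h false 0 2 3 92 444 242 548 (by decide +kernel) h1 h2 h3 h4

theorem c2082 (h : Good α) (h1 : α 92 = true) (h2 : α 444 = true) (h3 : α 242 = true) (h4 : α 548 = true) : False :=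
  rf h true 0 2 3 92 444 242 548 (by decide +kernel) h1 h2 h3 h4

theorem c2083 (h : Good α) (h1 : α 545 = false) (h2 : α 442 = false) (h3 : α 249 = false) (h4 : α 92 = false) : False :=
  rf h false 0 3 2 545 442 249 92 (by decide +kernel) h1 h2 h3 h4

theorem c2084 (h : Good α) (h1 : α 545 = true) (h2 : α 442 = true) (h3 : α 249 = true) (h4 : α 92 = true) : False :=
  rf h true 0 3 2 545 442 249 92 (by decide +kernel) h1 h2 h3 h4

theorem c2085 (h : Good α) (h1 : α 264 = false) (h2 : α 476 = false) (h3 : α 92 = false) (h4 : α 343 = false) : False :=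
  rf h false 1 2 1 264 476 92 343 (by decide +kernel) h1 h2 h3 h4

theorem c2086 (h : Good α) (h1 : α 494 = false) (h2 : α 264 = false) (h3 : α 92 = false) : False :=
  af h false 4 494 264 92 (by decide +kernel) h1 h2 h3

theorem c2087 (h : Good α) (h1 : α 494 = true) (h2 : α 264 = true) (h3 : α 92 = true) : False :=
  af h true 4 494 264 92 (by decide +kernel) h1 h2 h3

theorem c2088 (h : Good α) (h1 : α 248 = true) (h2 : α 93 = true) (h3 : α 251 = true) (h4 : α 95 = true) : False :=
  rf h true 1 3 2 248 93 251 95 (by decide +kernel) h1 h2 h3 h4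

theorem c2089 (h : Good α) (h1 : α 182 = false) (h2 : α 93 = false) (h3 : α 119 = false) : False :=
  af h false 3 182 93 119 (by decide +kernel) h1 h2 h3

theorem c2090 (h : Good α) (h1 : α 182 = true) (h2 : α 93 = true) (h3 : α 119 = true) : False :=
  af h true 3 182 93 119 (by decide +kernel) h1 h2 h3

theorem c2091 (h : Good α) (h1 : α 93 = true) (h2 : α 119 = true) (h3 : α 228 = true) : False :=
  af h true 3 93 119 228 (by decide +kernel) h1 h2 h3

theorem c2092 (h : Good α) (h1 : α 93 = false) (h2 : α 256 = false) (h3 : α 119 = false) (h4 : α 284 = false) : False :=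
  rf h false 0 1 1 93 256 119 284 (by decide +kernel) h1 h2 h3 h4

theorem c2093 (h : Good α) (h1 : α 93 = true) (h2 : α 256 = true) (h3 : α 119 = true) (h4 : α 284 = true) : False :=
  rf h true 0 1 1 93 256 119 284 (by decide +kernel) h1 h2 h3 h4

theorem c2094 (h : Good α) (h1 : α 374 = false) (h2 : α 342 = false) (h3 : α 140 = false) (h4 : α 93 = false) : False :=
  rf h false 0 3 2 374 342 140 93 (by decide +kernel) h1 h2 h3 h4

theorem c2095 (h : Good α) (h1 : α 342 = false) (h2 : α 182 = false) (h3 : α 93 = false) : False :=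
  af h false 3 342 182 93 (by decide +kernel) h1 h2 h3

theorem c2096 (h : Good α) (h1 : α 93 = false) (h2 : α 190 = false) (h3 : α 347 = false) : False :=
  af h false 2 93 190 347 (by decide +kernel) h1 h2 h3

theorem c2097 (h : Good α) (h1 : α 93 = false) (h2 : α 252 = false) (h3 : α 448 = false) : False :=
  af h false 1 93 252 448 (by decide +kernel) h1 h2 h3

theorem c2098 (h : Good α) (h1 : α 342 = false) (h2 : α 482 = false) (h3 : α 93 = false) (h4 : α 256 = false) : False :=
  rf h false 0 1 2 342 482 93 256 (by decide +kernel) h1 h2 h3 h4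

theorem c2099 (h : Good α) (h1 : α 93 = true) (h2 : α 256 = true) (h3 : α 501 = true) : False :=
  af h true 0 93 256 501 (by decide +kernel) h1 h2 h3

theorem c2100 (h : Good α) (h1 : α 188 = false) (h2 : α 94 = false) (h3 : α 106 = false) : False :=
  af h false 4 188 94 106 (by decide +kernel) h1 h2 h3

theorem c2101 (h : Good α) (h1 : α 188 = true) (h2 : α 94 = true) (h3 : α 106 = true) : False :=
  af h true 4 188 94 106 (by decide +kernel) h1 h2 h3

theorem c2102 (h : Good α) (h1 : α 94 = false) (h2 : α 106 = false) (h3 : α 205 = false) : False :=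
  af h false 4 94 106 205 (by decide +kernel) h1 h2 h3

theorem c2103 (h : Good α) (h1 : α 94 = true) (h2 : α 106 = true) (h3 : α 205 = true) : False :=
  af h true 4 94 106 205 (by decide +kernel) h1 h2 h3

theorem c2104 (h : Good α) (h1 : α 271 = false) (h2 : α 94 = false) (h3 : α 281 = false) (h4 : α 106 = false) : False :=
  rf h false 1 1 1 271 94 281 106 (by decide +kernel) h1 h2 h3 h4

theorem c2105 (h : Good α) (h1 : α 107 = false) (h2 : α 94 = false) (h3 : α 187 = false) : False :=
  af h false 5 107 94 187 (by decide +kernel) h1 h2 h3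

theorem c2106 (h : Good α) (h1 : α 107 = true) (h2 : α 94 = true) (h3 : α 187 = true) : False :=
  af h true 5 107 94 187 (by decide +kernel) h1 h2 h3

theorem c2107 (h : Good α) (h1 : α 207 = false) (h2 : α 107 = false) (h3 : α 94 = false) : False :=
  af h false 5 207 107 94 (by decide +kernel) h1 h2 h3

theorem c2108 (h : Good α) (h1 : α 207 = true) (h2 : α 107 = true) (h3 : α 94 = true) : False :=
  af h true 5 207 107 94 (by decide +kernel) h1 h2 h3

theorem c2109 (h : Good α) (h1 : α 286 = true) (h2 : α 107 = true) (h3 : α 272 = true) (h4 : α 94 = true) : False :=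
  rf h true 2 1 1 286 107 272 94 (by decide +kernel) h1 h2 h3 h4

theorem c2110 (h : Good α) (h1 : α 94 = true) (h2 : α 128 = true) (h3 : α 187 = true) (h4 : α 214 = true) : False :=
  rf h true 2 3 1 94 128 187 214 (by decide +kernel) h1 h2 h3 h4

theorem c2111 (h : Good α) (h1 : α 94 = true) (h2 : α 128 = true) (h3 : α 338 = true) (h4 : α 358 = true) : False :=
  rf h true 2 3 2 94 128 338 358 (by decide +kernel) h1 h2 h3 h4

theorem c2112 (h : Good α) (h1 : α 272 = false) (h2 : α 94 = false) (h3 : α 346 = false) (h4 : α 187 = false) : False :=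
  rf h false 2 1 1 272 94 346 187 (by decide +kernel) h1 h2 h3 h4

theorem c2113 (h : Good α) (h1 : α 94 = false) (h2 : α 187 = false) (h3 : α 338 = false) : False :=
  af h false 5 94 187 338 (by decide +kernel) h1 h2 h3

theorem c2114 (h : Good α) (h1 : α 94 = true) (h2 : α 187 = true) (h3 : α 338 = true) : False :=
  af h true 5 94 187 338 (by decide +kernel) h1 h2 h3

theorem c2115 (h : Good α) (h1 : α 344 = false) (h2 : α 188 = false) (h3 : α 271 = false) (h4 : α 94 = false) : False :=
  rf h false 1 1 1 344 188 271 94 (by decide +kernel) h1 h2 h3 h4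

theorem c2116 (h : Good α) (h1 : α 344 = true) (h2 : α 188 = true) (h3 : α 271 = true) (h4 : α 94 = true) : False :=
  rf h true 1 1 1 344 188 271 94 (by decide +kernel) h1 h2 h3 h4

theorem c2117 (h : Good α) (h1 : α 341 = false) (h2 : α 188 = false) (h3 : α 94 = false) : False :=
  af h false 4 341 188 94 (by decide +kernel) h1 h2 h3

theorem c2118 (h : Good α) (h1 : α 341 = true) (h2 : α 188 = true) (h3 : α 94 = true) : False :=
  af h true 4 341 188 94 (by decide +kernel) h1 h2 h3

theorem c2119 (h : Good α) (h1 : α 568 = true) (h2 : α 188 = true) (h3 : α 508 = true) (h4 : α 94 = true) : False :=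
  rf h true 1 2 1 568 188 508 94 (by decide +kernel) h1 h2 h3 h4

theorem c2120 (h : Good α) (h1 : α 369 = false) (h2 : α 207 = false) (h3 : α 272 = false) (h4 : α 94 = false) : False :=
  rf h false 2 1 2 369 207 272 94 (by decide +kernel) h1 h2 h3 h4

theorem c2121 (h : Good α) (h1 : α 249 = false) (h2 : α 94 = false) (h3 : α 351 = false) (h4 : α 233 = false) : False :=
  rf h false 0 1 3 249 94 351 233 (by decide +kernel) h1 h2 h3 h4

theorem c2122 (h : Good α) (h1 : α 249 = true) (h2 : α 94 = true) (h3 : α 351 = true) (h4 : α 233 = true) : False :=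
  rf h true 0 1 3 249 94 351 233 (by decide +kernel) h1 h2 h3 h4

theorem c2123 (h : Good α) (h1 : α 449 = false) (h2 : α 94 = false) (h3 : α 543 = false) (h4 : α 233 = false) : False :=
  rf h false 0 2 3 449 94 543 233 (by decide +kernel) h1 h2 h3 h4

theorem c2124 (h : Good α) (h1 : α 449 = true) (h2 : α 94 = true) (h3 : α 543 = true) (h4 : α 233 = true) : False :=
  rf h true 0 2 3 449 94 543 233 (by decide +kernel) h1 h2 h3 h4

theorem c2125 (h : Good α) (h1 : α 239 = false) (h2 : α 352 = false) (h3 : α 94 = false) (h4 : α 238 = false) : False :=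
  rf h false 0 3 1 239 352 94 238 (by decide +kernel) h1 h2 h3 h4

theorem c2126 (h : Good α) (h1 : α 239 = true) (h2 : α 352 = true) (h3 : α 94 = true) (h4 : α 238 = true) : False :=
  rf h true 0 3 1 239 352 94 238 (by decide +kernel) h1 h2 h3 h4

theorem c2127 (h : Good α) (h1 : α 446 = true) (h2 : α 535 = true) (h3 : α 94 = true) (h4 : α 238 = true) : False :=
  rf h true 0 3 2 446 535 94 238 (by decide +kernel) h1 h2 h3 h4

theorem c2128 (h : Good α) (h1 : α 353 = true) (h2 : α 239 = true) (h3 : α 249 = true) (h4 : α 94 = true) : False :=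
  rf h true 0 1 1 353 239 249 94 (by decide +kernel) h1 h2 h3 h4

theorem c2129 (h : Good α) (h1 : α 239 = false) (h2 : α 544 = false) (h3 : α 94 = false) (h4 : α 444 = false) : False :=
  rf h false 0 4 1 239 544 94 444 (by decide +kernel) h1 h2 h3 h4

theorem c2130 (h : Good α) (h1 : α 446 = false) (h2 : α 239 = false) (h3 : α 94 = false) : False :=
  af h false 3 446 239 94 (by decide +kernel) h1 h2 h3

theorem c2131 (h : Good α) (h1 : α 446 = true) (h2 : α 239 = true) (h3 : α 94 = true) : False :=
  af h true 3 446 239 94 (by decide +kernel) h1 h2 h3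

theorem c2132 (h : Good α) (h1 : α 249 = false) (h2 : α 94 = false) (h3 : α 534 = false) (h4 : α 439 = false) : False :=
  rf h false 0 1 4 249 94 534 439 (by decide +kernel) h1 h2 h3 h4

theorem c2133 (h : Good α) (h1 : α 249 = true) (h2 : α 94 = true) (h3 : α 534 = true) (h4 : α 439 = true) : False :=
  rf h true 0 1 4 249 94 534 439 (by decide +kernel) h1 h2 h3 h4

theorem c2134 (h : Good α) (h1 : α 449 = false) (h2 : α 249 = false) (h3 : α 94 = false) : False :=
  af h false 0 449 249 94 (by decide +kernel) h1 h2 h3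

theorem c2135 (h : Good α) (h1 : α 449 = true) (h2 : α 249 = true) (h3 : α 94 = true) : False :=
  af h true 0 449 249 94 (by decide +kernel) h1 h2 h3

theorem c2136 (h : Good α) (h1 : α 484 = false) (h2 : α 341 = false) (h3 : α 271 = false) (h4 : α 94 = false) : False :=
  rf h false 1 1 2 484 341 271 94 (by decide +kernel) h1 h2 h3 h4

theorem c2137 (h : Good α) (h1 : α 508 = false) (h2 : α 271 = false) (h3 : α 94 = false) : False :=
  af h false 1 508 271 94 (by decide +kernel) h1 h2 h3

theorem c2138 (h : Good α) (h1 : α 272 = false) (h2 : α 94 = false) (h3 : α 477 = false) (h4 : α 338 = false) : False :=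
  rf h false 2 1 2 272 94 477 338 (by decide +kernel) h1 h2 h3 h4

theorem c2139 (h : Good α) (h1 : α 272 = true) (h2 : α 94 = true) (h3 : α 477 = true) (h4 : α 338 = true) : False :=
  rf h true 2 1 2 272 94 477 338 (by decide +kernel) h1 h2 h3 h4

theorem c2140 (h : Good α) (h1 : α 505 = false) (h2 : α 272 = false) (h3 : α 94 = false) : False :=
  af h false 2 505 272 94 (by decide +kernel) h1 h2 h3

theorem c2141 (h : Good α) (h1 : α 505 = true) (h2 : α 272 = true) (h3 : α 94 = true) : False :=
  af h true 2 505 272 94 (by decide +kernel) h1 h2 h3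

theorem c2142 (h : Good α) (h1 : α 98 = true) (h2 : α 95 = true) (h3 : α 186 = true) : False :=
  af h true 0 98 95 186 (by decide +kernel) h1 h2 h3

theorem c2143 (h : Good α) (h1 : α 109 = false) (h2 : α 95 = false) (h3 : α 183 = false) : False :=
  af h false 5 109 95 183 (by decide +kernel) h1 h2 h3

theorem c2144 (h : Good α) (h1 : α 109 = true) (h2 : α 95 = true) (h3 : α 183 = true) : False :=
  af h true 5 109 95 183 (by decide +kernel) h1 h2 h3

theorem c2145 (h : Good α) (h1 : α 215 = false) (h2 : α 109 = false) (h3 : α 95 = false) : False :=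
  af h false 5 215 109 95 (by decide +kernel) h1 h2 h3

theorem c2146 (h : Good α) (h1 : α 141 = true) (h2 : α 95 = true) (h3 : α 222 = true) (h4 : α 183 = true) : False :=
  rf h true 2 3 1 141 95 222 183 (by decide +kernel) h1 h2 h3 h4

theorem c2147 (h : Good α) (h1 : α 141 = true) (h2 : α 95 = true) (h3 : α 372 = true) (h4 : α 339 = true) : False :=
  rf h true 2 3 2 141 95 372 339 (by decide +kernel) h1 h2 h3 h4

theorem c2148 (h : Good α) (h1 : α 95 = false) (h2 : α 267 = false) (h3 : α 183 = false) (h4 : α 340 = false) : False :=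
  rf h false 2 1 1 95 267 183 340 (by decide +kernel) h1 h2 h3 h4

theorem c2149 (h : Good α) (h1 : α 95 = true) (h2 : α 267 = true) (h3 : α 183 = true) (h4 : α 340 = true) : False :=
  rf h true 2 1 1 95 267 183 340 (by decide +kernel) h1 h2 h3 h4

theorem c2150 (h : Good α) (h1 : α 95 = false) (h2 : α 183 = false) (h3 : α 339 = false) : False :=
  af h false 5 95 183 339 (by decide +kernel) h1 h2 h3

theorem c2151 (h : Good α) (h1 : α 95 = true) (h2 : α 183 = true) (h3 : α 339 = true) : False :=
  af h true 5 95 183 339 (by decide +kernel) h1 h2 h3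

theorem c2152 (h : Good α) (h1 : α 95 = true) (h2 : α 186 = true) (h3 : α 347 = true) : False :=
  af h true 0 95 186 347 (by decide +kernel) h1 h2 h3

theorem c2153 (h : Good α) (h1 : α 95 = true) (h2 : α 247 = true) (h3 : α 440 = true) : False :=
  af h true 1 95 247 440 (by decide +kernel) h1 h2 h3

theorem c2154 (h : Good α) (h1 : α 95 = false) (h2 : α 265 = false) (h3 : α 502 = false) : False :=
  af h false 3 95 265 502 (by decide +kernel) h1 h2 h3

theorem c2155 (h : Good α) (h1 : α 95 = true) (h2 : α 265 = true) (h3 : α 502 = true) : False :=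
  af h true 3 95 265 502 (by decide +kernel) h1 h2 h3

theorem c2156 (h : Good α) (h1 : α 95 = false) (h2 : α 267 = false) (h3 : α 497 = false) : False :=
  af h false 2 95 267 497 (by decide +kernel) h1 h2 h3

theorem c2157 (h : Good α) (h1 : α 95 = true) (h2 : α 267 = true) (h3 : α 497 = true) : False :=
  af h true 2 95 267 497 (by decide +kernel) h1 h2 h3

theorem c2158 (h : Good α) (h1 : α 185 = true) (h2 : α 96 = true) (h3 : α 101 = true) : False :=
  af h true 0 185 96 101 (by decide +kernel) h1 h2 h3

theorem c2159 (h : Good α) (h1 : α 96 = true) (h2 : α 101 = true) (h3 : α 220 = true) : False :=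
  af h true 0 96 101 220 (by decide +kernel) h1 h2 h3

theorem c2160 (h : Good α) (h1 : α 184 = false) (h2 : α 96 = false) (h3 : α 110 = false) : False :=
  af h false 5 184 96 110 (by decide +kernel) h1 h2 h3

theorem c2161 (h : Good α) (h1 : α 184 = true) (h2 : α 96 = true) (h3 : α 110 = true) : False :=
  af h true 5 184 96 110 (by decide +kernel) h1 h2 h3

theorem c2162 (h : Good α) (h1 : α 96 = true) (h2 : α 110 = true) (h3 : α 218 = true) : False :=
  af h true 5 96 110 218 (by decide +kernel) h1 h2 h3

theorem c2163 (h : Good α) (h1 : α 185 = true) (h2 : α 96 = true) (h3 : α 216 = true) (h4 : α 137 = true) : False :=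
  rf h true 0 1 3 185 96 216 137 (by decide +kernel) h1 h2 h3 h4

theorem c2164 (h : Good α) (h1 : α 346 = true) (h2 : α 96 = true) (h3 : α 362 = true) (h4 : α 137 = true) : False :=
  rf h true 0 2 3 346 96 362 137 (by decide +kernel) h1 h2 h3 h4

theorem c2165 (h : Good α) (h1 : α 184 = true) (h2 : α 223 = true) (h3 : α 96 = true) (h4 : α 144 = true) : False :=
  rf h true 2 3 1 184 223 96 144 (by decide +kernel) h1 h2 h3 h4

theorem c2166 (h : Good α) (h1 : α 341 = false) (h2 : α 184 = false) (h3 : α 270 = false) (h4 : α 96 = false) : False :=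
  rf h false 2 1 1 341 184 270 96 (by decide +kernel) h1 h2 h3 h4

theorem c2167 (h : Good α) (h1 : α 342 = false) (h2 : α 184 = false) (h3 : α 96 = false) : False :=
  af h false 5 342 184 96 (by decide +kernel) h1 h2 h3

theorem c2168 (h : Good α) (h1 : α 342 = true) (h2 : α 184 = true) (h3 : α 96 = true) : False :=
  af h true 5 342 184 96 (by decide +kernel) h1 h2 h3

theorem c2169 (h : Good α) (h1 : α 346 = false) (h2 : α 185 = false) (h3 : α 96 = false) : False :=
  af h false 0 346 185 96 (by decide +kernel) h1 h2 h3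

theorem c2170 (h : Good α) (h1 : α 346 = true) (h2 : α 185 = true) (h3 : α 96 = true) : False :=
  af h true 0 346 185 96 (by decide +kernel) h1 h2 h3

theorem c2171 (h : Good α) (h1 : α 248 = true) (h2 : α 96 = true) (h3 : α 350 = true) (h4 : α 229 = true) : False :=
  rf h true 1 1 3 248 96 350 229 (by decide +kernel) h1 h2 h3 h4

theorem c2172 (h : Good α) (h1 : α 441 = true) (h2 : α 248 = true) (h3 : α 96 = true) : False :=
  af h true 1 441 248 96 (by decide +kernel) h1 h2 h3

theorem c2173 (h : Good α) (h1 : α 190 = false) (h2 : α 97 = false) (h3 : α 112 = false) : False :=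
  af h false 5 190 97 112 (by decide +kernel) h1 h2 h3

theorem c2174 (h : Good α) (h1 : α 190 = true) (h2 : α 97 = true) (h3 : α 112 = true) : False :=
  af h true 5 190 97 112 (by decide +kernel) h1 h2 h3

theorem c2175 (h : Good α) (h1 : α 113 = false) (h2 : α 97 = false) (h3 : α 189 = false) : False :=
  af h false 4 113 97 189 (by decide +kernel) h1 h2 h3

theorem c2176 (h : Good α) (h1 : α 113 = true) (h2 : α 97 = true) (h3 : α 189 = true) : False :=
  af h true 4 113 97 189 (by decide +kernel) h1 h2 h3

theorem c2177 (h : Good α) (h1 : α 212 = false) (h2 : α 113 = false) (h3 : α 97 = false) : False :=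
  af h false 4 212 113 97 (by decide +kernel) h1 h2 h3

theorem c2178 (h : Good α) (h1 : α 212 = true) (h2 : α 113 = true) (h3 : α 97 = true) : False :=
  af h true 4 212 113 97 (by decide +kernel) h1 h2 h3

theorem c2179 (h : Good α) (h1 : α 113 = false) (h2 : α 284 = false) (h3 : α 97 = false) (h4 : α 274 = false) : False :=
  rf h false 1 1 1 113 284 97 274 (by decide +kernel) h1 h2 h3 h4

theorem c2180 (h : Good α) (h1 : α 132 = true) (h2 : α 97 = true) (h3 : α 355 = true) (h4 : α 340 = true) : False :=
  rf h true 1 3 2 132 97 355 340 (by decide +kernel) h1 h2 h3 h4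

theorem c2181 (h : Good α) (h1 : α 97 = false) (h2 : α 274 = false) (h3 : α 189 = false) (h4 : α 345 = false) : False :=
  rf h false 1 1 1 97 274 189 345 (by decide +kernel) h1 h2 h3 h4

theorem c2182 (h : Good α) (h1 : α 97 = false) (h2 : α 189 = false) (h3 : α 340 = false) : False :=
  af h false 4 97 189 340 (by decide +kernel) h1 h2 h3

theorem c2183 (h : Good α) (h1 : α 97 = true) (h2 : α 189 = true) (h3 : α 340 = true) : False :=
  af h true 4 97 189 340 (by decide +kernel) h1 h2 h3

theorem c2184 (h : Good α) (h1 : α 343 = false) (h2 : α 190 = false) (h3 : α 97 = false) : False :=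
  af h false 5 343 190 97 (by decide +kernel) h1 h2 h3

theorem c2185 (h : Good α) (h1 : α 343 = true) (h2 : α 190 = true) (h3 : α 97 = true) : False :=
  af h true 5 343 190 97 (by decide +kernel) h1 h2 h3

theorem c2186 (h : Good α) (h1 : α 190 = true) (h2 : α 570 = true) (h3 : α 97 = true) (h4 : α 506 = true) : False :=
  rf h true 2 2 1 190 570 97 506 (by decide +kernel) h1 h2 h3 h4

theorem c2187 (h : Good α) (h1 : α 236 = false) (h2 : α 352 = false) (h3 : α 97 = false) (h4 : α 250 = false) : False :=
  rf h false 0 1 3 236 352 97 250 (by decide +kernel) h1 h2 h3 h4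

theorem c2188 (h : Good α) (h1 : α 236 = true) (h2 : α 352 = true) (h3 : α 97 = true) (h4 : α 250 = true) : False :=
  rf h true 0 1 3 236 352 97 250 (by decide +kernel) h1 h2 h3 h4

theorem c2189 (h : Good α) (h1 : α 236 = true) (h2 : α 544 = true) (h3 : α 97 = true) (h4 : α 450 = true) : False :=
  rf h true 0 2 3 236 544 97 450 (by decide +kernel) h1 h2 h3 h4

theorem c2190 (h : Good α) (h1 : α 237 = false) (h2 : α 97 = false) (h3 : α 351 = false) (h4 : α 242 = false) : False :=
  rf h false 0 3 1 237 97 351 242 (by decide +kernel) h1 h2 h3 h4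

theorem c2191 (h : Good α) (h1 : α 237 = true) (h2 : α 97 = true) (h3 : α 351 = true) (h4 : α 242 = true) : False :=
  rf h true 0 3 1 237 97 351 242 (by decide +kernel) h1 h2 h3 h4

theorem c2192 (h : Good α) (h1 : α 237 = true) (h2 : α 97 = true) (h3 : α 534 = true) (h4 : α 447 = true) : False :=
  rf h true 0 3 2 237 97 534 447 (by decide +kernel) h1 h2 h3 h4

theorem c2193 (h : Good α) (h1 : α 443 = false) (h2 : α 97 = false) (h3 : α 543 = false) (h4 : α 242 = false) : False :=
  rf h false 0 4 1 443 97 543 242 (by decide +kernel) h1 h2 h3 h4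

theorem c2194 (h : Good α) (h1 : α 443 = true) (h2 : α 97 = true) (h3 : α 543 = true) (h4 : α 242 = true) : False :=
  rf h true 0 4 1 443 97 543 242 (by decide +kernel) h1 h2 h3 h4

theorem c2195 (h : Good α) (h1 : α 97 = false) (h2 : α 242 = false) (h3 : α 447 = false) : False :=
  af h false 3 97 242 447 (by decide +kernel) h1 h2 h3

theorem c2196 (h : Good α) (h1 : α 97 = true) (h2 : α 242 = true) (h3 : α 447 = true) : False :=
  af h true 3 97 242 447 (by decide +kernel) h1 h2 h3

theorem c2197 (h : Good α) (h1 : α 442 = false) (h2 : α 535 = false) (h3 : α 97 = false) (h4 : α 250 = false) : False :=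
  rf h false 0 1 4 442 535 97 250 (by decide +kernel) h1 h2 h3 h4

theorem c2198 (h : Good α) (h1 : α 97 = true) (h2 : α 250 = true) (h3 : α 447 = true) (h4 : α 546 = true) : False :=
  rf h true 0 1 2 97 250 447 546 (by decide +kernel) h1 h2 h3 h4

theorem c2199 (h : Good α) (h1 : α 97 = false) (h2 : α 250 = false) (h3 : α 450 = false) : False :=
  af h false 0 97 250 450 (by decide +kernel) h1 h2 h3

theorem c2200 (h : Good α) (h1 : α 97 = true) (h2 : α 250 = true) (h3 : α 450 = true) : False :=
  af h true 0 97 250 450 (by decide +kernel) h1 h2 h3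

theorem c2201 (h : Good α) (h1 : α 343 = false) (h2 : α 480 = false) (h3 : α 97 = false) (h4 : α 273 = false) : False :=
  rf h false 2 1 2 343 480 97 273 (by decide +kernel) h1 h2 h3 h4

theorem c2202 (h : Good α) (h1 : α 97 = false) (h2 : α 273 = false) (h3 : α 506 = false) : False :=
  af h false 2 97 273 506 (by decide +kernel) h1 h2 h3

theorem c2203 (h : Good α) (h1 : α 97 = true) (h2 : α 273 = true) (h3 : α 506 = true) : False :=
  af h true 2 97 273 506 (by decide +kernel) h1 h2 h3

theorem c2204 (h : Good α) (h1 : α 97 = false) (h2 : α 274 = false) (h3 : α 340 = false) (h4 : α 483 = false) : False :=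
  rf h false 1 1 2 97 274 340 483 (by decide +kernel) h1 h2 h3 h4

theorem c2205 (h : Good α) (h1 : α 97 = true) (h2 : α 274 = true) (h3 : α 340 = true) (h4 : α 483 = true) : False :=
  rf h true 1 1 2 97 274 340 483 (by decide +kernel) h1 h2 h3 h4

theorem c2206 (h : Good α) (h1 : α 97 = false) (h2 : α 274 = false) (h3 : α 509 = false) : False :=
  af h false 1 97 274 509 (by decide +kernel) h1 h2 h3

theorem c2207 (h : Good α) (h1 : α 153 = true) (h2 : α 105 = true) (h3 : α 146 = true) (h4 : α 98 = true) : False :=
  rf h true 1 1 3 153 105 146 98 (by decide +kernel) h1 h2 h3 h4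

theorem c2208 (h : Good α) (h1 : α 270 = false) (h2 : α 105 = false) (h3 : α 253 = false) (h4 : α 98 = false) : False :=
  rf h false 1 2 3 270 105 253 98 (by decide +kernel) h1 h2 h3 h4

theorem c2209 (h : Good α) (h1 : α 146 = true) (h2 : α 98 = true) (h3 : α 163 = true) : False :=
  af h true 1 146 98 163 (by decide +kernel) h1 h2 h3

theorem c2210 (h : Good α) (h1 : α 253 = false) (h2 : α 146 = false) (h3 : α 98 = false) : False :=
  af h false 1 253 146 98 (by decide +kernel) h1 h2 h3

theorem c2211 (h : Good α) (h1 : α 253 = true) (h2 : α 146 = true) (h3 : α 98 = true) : False :=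
  af h true 1 253 146 98 (by decide +kernel) h1 h2 h3

theorem c2212 (h : Good α) (h1 : α 98 = true) (h2 : α 186 = true) (h3 : α 277 = true) (h4 : α 345 = true) : False :=
  rf h true 0 2 1 98 186 277 345 (by decide +kernel) h1 h2 h3 h4

theorem c2213 (h : Good α) (h1 : α 98 = false) (h2 : α 230 = false) (h3 : α 257 = false) (h4 : α 380 = false) : False :=
  rf h false 2 1 1 98 230 257 380 (by decide +kernel) h1 h2 h3 h4

theorem c2214 (h : Good α) (h1 : α 98 = false) (h2 : α 257 = false) (h3 : α 481 = false) : False :=
  af h false 5 98 257 481 (by decide +kernel) h1 h2 h3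

theorem c2215 (h : Good α) (h1 : α 98 = false) (h2 : α 277 = false) (h3 : α 517 = false) : False :=
  af h false 3 98 277 517 (by decide +kernel) h1 h2 h3

theorem c2216 (h : Good α) (h1 : α 254 = false) (h2 : α 151 = false) (h3 : α 99 = false) : False :=
  af h false 2 254 151 99 (by decide +kernel) h1 h2 h3

theorem c2217 (h : Good α) (h1 : α 254 = true) (h2 : α 151 = true) (h3 : α 99 = true) : False :=
  af h true 2 254 151 99 (by decide +kernel) h1 h2 h3

theorem c2218 (h : Good α) (h1 : α 99 = false) (h2 : α 189 = false) (h3 : α 278 = false) (h4 : α 340 = false) : False :=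
  rf h false 1 2 1 99 189 278 340 (by decide +kernel) h1 h2 h3 h4

theorem c2219 (h : Good α) (h1 : α 99 = true) (h2 : α 189 = true) (h3 : α 278 = true) (h4 : α 340 = true) : False :=
  rf h true 1 2 1 99 189 278 340 (by decide +kernel) h1 h2 h3 h4

theorem c2220 (h : Good α) (h1 : α 475 = true) (h2 : α 258 = true) (h3 : α 99 = true) : False :=
  af h true 0 475 258 99 (by decide +kernel) h1 h2 h3

theorem c2221 (h : Good α) (h1 : α 99 = true) (h2 : α 345 = true) (h3 : α 278 = true) (h4 : α 483 = true) : False :=
  rf h true 1 3 1 99 345 278 483 (by decide +kernel) h1 h2 h3 h4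

theorem c2222 (h : Good α) (h1 : α 99 = true) (h2 : α 278 = true) (h3 : α 511 = true) : False :=
  af h true 4 99 278 511 (by decide +kernel) h1 h2 h3

theorem c2223 (h : Good α) (h1 : α 100 = true) (h2 : α 152 = true) (h3 : α 103 = true) (h4 : α 147 = true) : False :=
  rf h true 2 1 3 100 152 103 147 (by decide +kernel) h1 h2 h3 h4

theorem c2224 (h : Good α) (h1 : α 100 = true) (h2 : α 152 = true) (h3 : α 255 = true) : False :=
  af h true 2 100 152 255 (by decide +kernel) h1 h2 h3

theorem c2225 (h : Good α) (h1 : α 414 = true) (h2 : α 235 = true) (h3 : α 100 = true) : False :=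
  af h true 3 414 235 100 (by decide +kernel) h1 h2 h3

theorem c2226 (h : Good α) (h1 : α 100 = false) (h2 : α 263 = false) (h3 : α 476 = false) : False :=
  af h false 0 100 263 476 (by decide +kernel) h1 h2 h3

theorem c2227 (h : Good α) (h1 : α 164 = false) (h2 : α 101 = false) (h3 : α 149 = false) : False :=
  af h false 1 164 101 149 (by decide +kernel) h1 h2 h3

theorem c2228 (h : Good α) (h1 : α 101 = false) (h2 : α 149 = false) (h3 : α 256 = false) : False :=
  af h false 1 101 149 256 (by decide +kernel) h1 h2 h3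

theorem c2229 (h : Good α) (h1 : α 101 = false) (h2 : α 149 = false) (h3 : α 290 = false) (h4 : α 313 = false) : False :=
  rf h false 1 1 4 101 149 290 313 (by decide +kernel) h1 h2 h3 h4

theorem c2230 (h : Good α) (h1 : α 344 = true) (h2 : α 280 = true) (h3 : α 185 = true) (h4 : α 101 = true) : False :=
  rf h true 0 2 1 344 280 185 101 (by decide +kernel) h1 h2 h3 h4

theorem c2231 (h : Good α) (h1 : α 564 = true) (h2 : α 519 = true) (h3 : α 185 = true) (h4 : α 101 = true) : False :=
  rf h true 0 2 2 564 519 185 101 (by decide +kernel) h1 h2 h3 h4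

theorem c2232 (h : Good α) (h1 : α 280 = true) (h2 : α 364 = true) (h3 : α 101 = true) (h4 : α 220 = true) : False :=
  rf h true 0 1 1 280 364 101 220 (by decide +kernel) h1 h2 h3 h4

theorem c2233 (h : Good α) (h1 : α 383 = true) (h2 : α 264 = true) (h3 : α 231 = true) (h4 : α 101 = true) : False :=
  rf h true 2 1 1 383 264 231 101 (by decide +kernel) h1 h2 h3 h4

theorem c2234 (h : Good α) (h1 : α 101 = true) (h2 : α 256 = true) (h3 : α 290 = true) (h4 : α 411 = true) : False :=
  rf h true 1 2 4 101 256 290 411 (by decide +kernel) h1 h2 h3 h4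

theorem c2235 (h : Good α) (h1 : α 482 = true) (h2 : α 264 = true) (h3 : α 101 = true) : False :=
  af h true 5 482 264 101 (by decide +kernel) h1 h2 h3

theorem c2236 (h : Good α) (h1 : α 485 = false) (h2 : α 280 = false) (h3 : α 346 = false) (h4 : α 101 = false) : False :=
  rf h false 0 3 1 485 280 346 101 (by decide +kernel) h1 h2 h3 h4

theorem c2237 (h : Good α) (h1 : α 485 = true) (h2 : α 280 = true) (h3 : α 346 = true) (h4 : α 101 = true) : False :=
  rf h true 0 3 1 485 280 346 101 (by decide +kernel) h1 h2 h3 h4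

theorem c2238 (h : Good α) (h1 : α 519 = false) (h2 : α 280 = false) (h3 : α 101 = false) : False :=
  af h false 3 519 280 101 (by decide +kernel) h1 h2 h3

theorem c2239 (h : Good α) (h1 : α 519 = true) (h2 : α 280 = true) (h3 : α 101 = true) : False :=
  af h true 3 519 280 101 (by decide +kernel) h1 h2 h3

theorem c2240 (h : Good α) (h1 : α 170 = true) (h2 : α 102 = true) (h3 : α 150 = true) : False :=
  af h true 1 170 102 150 (by decide +kernel) h1 h2 h3

theorem c2241 (h : Good α) (h1 : α 102 = true) (h2 : α 150 = true) (h3 : α 267 = true) : False :=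
  af h true 1 102 150 267 (by decide +kernel) h1 h2 h3

theorem c2242 (h : Good α) (h1 : α 297 = true) (h2 : α 325 = true) (h3 : α 102 = true) (h4 : α 150 = true) : False :=
  rf h true 1 1 4 297 325 102 150 (by decide +kernel) h1 h2 h3 h4

theorem c2243 (h : Good α) (h1 : α 187 = false) (h2 : α 102 = false) (h3 : α 338 = false) (h4 : α 278 = false) : False :=
  rf h false 2 2 1 187 102 338 278 (by decide +kernel) h1 h2 h3 h4

theorem c2244 (h : Good α) (h1 : α 229 = false) (h2 : α 102 = false) (h3 : α 376 = false) (h4 : α 260 = false) : False :=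
  rf h false 0 1 1 229 102 376 260 (by decide +kernel) h1 h2 h3 h4

theorem c2245 (h : Good α) (h1 : α 410 = false) (h2 : α 229 = false) (h3 : α 102 = false) : False :=
  af h false 0 410 229 102 (by decide +kernel) h1 h2 h3

theorem c2246 (h : Good α) (h1 : α 102 = false) (h2 : α 260 = false) (h3 : α 478 = false) : False :=
  af h false 3 102 260 478 (by decide +kernel) h1 h2 h3

theorem c2247 (h : Good α) (h1 : α 102 = true) (h2 : α 260 = true) (h3 : α 478 = true) : False :=
  af h true 3 102 260 478 (by decide +kernel) h1 h2 h3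

theorem c2248 (h : Good α) (h1 : α 297 = false) (h2 : α 418 = false) (h3 : α 102 = false) (h4 : α 267 = false) : False :=
  rf h false 1 2 4 297 418 102 267 (by decide +kernel) h1 h2 h3 h4

theorem c2249 (h : Good α) (h1 : α 346 = true) (h2 : α 102 = true) (h3 : α 477 = true) (h4 : α 278 = true) : False :=
  rf h true 2 3 1 346 102 477 278 (by decide +kernel) h1 h2 h3 h4

theorem c2250 (h : Good α) (h1 : α 102 = false) (h2 : α 278 = false) (h3 : α 512 = false) : False :=
  af h false 5 102 278 512 (by decide +kernel) h1 h2 h3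

theorem c2251 (h : Good α) (h1 : α 102 = true) (h2 : α 278 = true) (h3 : α 512 = true) : False :=
  af h true 5 102 278 512 (by decide +kernel) h1 h2 h3

theorem c2252 (h : Good α) (h1 : α 176 = false) (h2 : α 103 = false) (h3 : α 147 = false) : False :=
  af h false 2 176 103 147 (by decide +kernel) h1 h2 h3

theorem c2253 (h : Good α) (h1 : α 176 = true) (h2 : α 103 = true) (h3 : α 147 = true) : False :=
  af h true 2 176 103 147 (by decide +kernel) h1 h2 h3

theorem c2254 (h : Good α) (h1 : α 103 = false) (h2 : α 147 = false) (h3 : α 268 = false) : False :=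
  af h false 2 103 147 268 (by decide +kernel) h1 h2 h3

theorem c2255 (h : Good α) (h1 : α 346 = false) (h2 : α 185 = false) (h3 : α 285 = false) (h4 : α 103 = false) : False :=
  rf h false 0 1 2 346 185 285 103 (by decide +kernel) h1 h2 h3 h4

theorem c2256 (h : Good α) (h1 : α 240 = true) (h2 : α 103 = true) (h3 : α 381 = true) (h4 : α 259 = true) : False :=
  rf h true 1 1 1 240 103 381 259 (by decide +kernel) h1 h2 h3 h4

theorem c2257 (h : Good α) (h1 : α 103 = false) (h2 : α 259 = false) (h3 : α 481 = false) : False :=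
  af h false 4 103 259 481 (by decide +kernel) h1 h2 h3

theorem c2258 (h : Good α) (h1 : α 103 = true) (h2 : α 259 = true) (h3 : α 481 = true) : False :=
  af h true 4 103 259 481 (by decide +kernel) h1 h2 h3

theorem c2259 (h : Good α) (h1 : α 302 = true) (h2 : α 421 = true) (h3 : α 103 = true) (h4 : α 268 = true) : False :=
  rf h true 2 2 4 302 421 103 268 (by decide +kernel) h1 h2 h3 h4

theorem c2260 (h : Good α) (h1 : α 485 = false) (h2 : α 344 = false) (h3 : α 285 = false) (h4 : α 103 = false) : False :=
  rf h false 0 1 3 485 344 285 103 (by decide +kernel) h1 h2 h3 h4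

theorem c2261 (h : Good α) (h1 : α 485 = true) (h2 : α 344 = true) (h3 : α 285 = true) (h4 : α 103 = true) : False :=
  rf h true 0 1 3 485 344 285 103 (by decide +kernel) h1 h2 h3 h4

theorem c2262 (h : Good α) (h1 : α 527 = true) (h2 : α 285 = true) (h3 : α 103 = true) : False :=
  af h true 0 527 285 103 (by decide +kernel) h1 h2 h3

theorem c2263 (h : Good α) (h1 : α 148 = false) (h2 : α 104 = false) (h3 : α 177 = false) : False :=
  af h false 2 148 104 177 (by decide +kernel) h1 h2 h3

theorem c2264 (h : Good α) (h1 : α 269 = true) (h2 : α 148 = true) (h3 : α 104 = true) : False :=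
  af h true 2 269 148 104 (by decide +kernel) h1 h2 h3

theorem c2265 (h : Good α) (h1 : α 104 = false) (h2 : α 288 = false) (h3 : α 186 = false) (h4 : α 347 = false) : False :=
  rf h false 0 1 2 104 288 186 347 (by decide +kernel) h1 h2 h3 h4

theorem c2266 (h : Good α) (h1 : α 104 = true) (h2 : α 288 = true) (h3 : α 186 = true) (h4 : α 347 = true) : False :=
  rf h true 0 1 2 104 288 186 347 (by decide +kernel) h1 h2 h3 h4

theorem c2267 (h : Good α) (h1 : α 262 = false) (h2 : α 552 = false) (h3 : α 104 = false) (h4 : α 421 = false) : False :=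
  rf h false 1 2 1 262 552 104 421 (by decide +kernel) h1 h2 h3 h4

theorem c2268 (h : Good α) (h1 : α 482 = false) (h2 : α 262 = false) (h3 : α 104 = false) : False :=
  af h false 4 482 262 104 (by decide +kernel) h1 h2 h3

theorem c2269 (h : Good α) (h1 : α 482 = true) (h2 : α 262 = true) (h3 : α 104 = true) : False :=
  af h true 4 482 262 104 (by decide +kernel) h1 h2 h3

theorem c2270 (h : Good α) (h1 : α 104 = false) (h2 : α 288 = false) (h3 : α 528 = false) : False :=
  af h false 0 104 288 528 (by decide +kernel) h1 h2 h3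

theorem c2271 (h : Good α) (h1 : α 153 = true) (h2 : α 105 = true) (h3 : α 171 = true) : False :=
  af h true 1 153 105 171 (by decide +kernel) h1 h2 h3

theorem c2272 (h : Good α) (h1 : α 270 = true) (h2 : α 153 = true) (h3 : α 105 = true) : False :=
  af h true 1 270 153 105 (by decide +kernel) h1 h2 h3

theorem c2273 (h : Good α) (h1 : α 105 = false) (h2 : α 232 = false) (h3 : α 418 = false) : False :=
  af h false 0 105 232 418 (by decide +kernel) h1 h2 h3

theorem c2274 (h : Good α) (h1 : α 479 = false) (h2 : α 261 = false) (h3 : α 105 = false) : False :=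
  af h false 3 479 261 105 (by decide +kernel) h1 h2 h3

theorem c2275 (h : Good α) (h1 : α 106 = true) (h2 : α 117 = true) (h3 : α 146 = true) (h4 : α 157 = true) : False :=
  rf h true 0 3 1 106 117 146 157 (by decide +kernel) h1 h2 h3 h4

theorem c2276 (h : Good α) (h1 : α 179 = false) (h2 : α 161 = false) (h3 : α 106 = false) (h4 : α 117 = false) : False :=
  rf h false 0 3 1 179 161 106 117 (by decide +kernel) h1 h2 h3 h4

theorem c2277 (h : Good α) (h1 : α 106 = false) (h2 : α 117 = false) (h3 : α 257 = false) (h4 : α 273 = false) : False :=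
  rf h false 0 3 2 106 117 257 273 (by decide +kernel) h1 h2 h3 h4

theorem c2278 (h : Good α) (h1 : α 106 = true) (h2 : α 123 = true) (h3 : α 253 = true) (h4 : α 290 = true) : False :=
  rf h true 2 2 1 106 123 253 290 (by decide +kernel) h1 h2 h3 h4

theorem c2279 (h : Good α) (h1 : α 106 = false) (h2 : α 123 = false) (h3 : α 475 = false) (h4 : α 511 = false) : False :=
  rf h false 2 2 2 106 123 475 511 (by decide +kernel) h1 h2 h3 h4

theorem c2280 (h : Good α) (h1 : α 179 = false) (h2 : α 106 = false) (h3 : α 146 = false) : False :=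
  af h false 3 179 106 146 (by decide +kernel) h1 h2 h3

theorem c2281 (h : Good α) (h1 : α 179 = true) (h2 : α 106 = true) (h3 : α 146 = true) : False :=
  af h true 3 179 106 146 (by decide +kernel) h1 h2 h3

theorem c2282 (h : Good α) (h1 : α 106 = false) (h2 : α 146 = false) (h3 : α 257 = false) : False :=
  af h false 3 106 146 257 (by decide +kernel) h1 h2 h3

theorem c2283 (h : Good α) (h1 : α 106 = true) (h2 : α 146 = true) (h3 : α 257 = true) : False :=
  af h true 3 106 146 257 (by decide +kernel) h1 h2 h3

theorem c2284 (h : Good α) (h1 : α 106 = true) (h2 : α 299 = true) (h3 : α 146 = true) (h4 : α 334 = true) : False :=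
  rf h true 0 4 1 106 299 146 334 (by decide +kernel) h1 h2 h3 h4

theorem c2285 (h : Good α) (h1 : α 306 = false) (h2 : α 106 = false) (h3 : α 326 = false) (h4 : α 146 = false) : False :=
  rf h false 0 1 1 306 106 326 146 (by decide +kernel) h1 h2 h3 h4

theorem c2286 (h : Good α) (h1 : α 249 = false) (h2 : α 106 = false) (h3 : α 392 = false) (h4 : α 253 = false) : False :=
  rf h false 2 1 1 249 106 392 253 (by decide +kernel) h1 h2 h3 h4

theorem c2287 (h : Good α) (h1 : α 429 = false) (h2 : α 249 = false) (h3 : α 106 = false) : False :=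
  af h false 2 429 249 106 (by decide +kernel) h1 h2 h3

theorem c2288 (h : Good α) (h1 : α 429 = true) (h2 : α 249 = true) (h3 : α 106 = true) : False :=
  af h true 2 429 249 106 (by decide +kernel) h1 h2 h3

theorem c2289 (h : Good α) (h1 : α 249 = false) (h2 : α 106 = false) (h3 : α 578 = false) (h4 : α 475 = false) : False :=
  rf h false 2 1 2 249 106 578 475 (by decide +kernel) h1 h2 h3 h4

theorem c2290 (h : Good α) (h1 : α 106 = false) (h2 : α 253 = false) (h3 : α 475 = false) : False :=
  af h false 5 106 253 475 (by decide +kernel) h1 h2 h3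

theorem c2291 (h : Good α) (h1 : α 106 = false) (h2 : α 299 = false) (h3 : α 257 = false) (h4 : α 430 = false) : False :=
  rf h false 0 4 2 106 299 257 430 (by decide +kernel) h1 h2 h3 h4

theorem c2292 (h : Good α) (h1 : α 106 = true) (h2 : α 299 = true) (h3 : α 257 = true) (h4 : α 430 = true) : False :=
  rf h true 0 4 2 106 299 257 430 (by decide +kernel) h1 h2 h3 h4

theorem c2293 (h : Good α) (h1 : α 306 = false) (h2 : α 106 = false) (h3 : α 423 = false) (h4 : α 257 = false) : False :=
  rf h false 0 1 2 306 106 423 257 (by decide +kernel) h1 h2 h3 h4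

theorem c2294 (h : Good α) (h1 : α 306 = true) (h2 : α 106 = true) (h3 : α 423 = true) (h4 : α 257 = true) : False :=
  rf h true 0 1 2 306 106 423 257 (by decide +kernel) h1 h2 h3 h4

theorem c2295 (h : Good α) (h1 : α 107 = true) (h2 : α 148 = true) (h3 : α 115 = true) (h4 : α 156 = true) : False :=
  rf h true 0 1 3 107 148 115 156 (by decide +kernel) h1 h2 h3 h4

theorem c2296 (h : Good α) (h1 : α 173 = false) (h2 : α 107 = false) (h3 : α 162 = false) (h4 : α 115 = false) : False :=
  rf h false 0 1 3 173 107 162 115 (by decide +kernel) h1 h2 h3 h4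

theorem c2297 (h : Good α) (h1 : α 107 = false) (h2 : α 262 = false) (h3 : α 115 = false) (h4 : α 274 = false) : False :=
  rf h false 0 2 3 107 262 115 274 (by decide +kernel) h1 h2 h3 h4

theorem c2298 (h : Good α) (h1 : α 173 = false) (h2 : α 107 = false) (h3 : α 148 = false) : False :=
  af h false 0 173 107 148 (by decide +kernel) h1 h2 h3

theorem c2299 (h : Good α) (h1 : α 173 = true) (h2 : α 107 = true) (h3 : α 148 = true) : False :=
  af h true 0 173 107 148 (by decide +kernel) h1 h2 h3

theorem c2300 (h : Good α) (h1 : α 286 = false) (h2 : α 107 = false) (h3 : α 346 = false) (h4 : α 187 = false) : False :=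
  rf h false 2 1 2 286 107 346 187 (by decide +kernel) h1 h2 h3 h4

theorem c2301 (h : Good α) (h1 : α 386 = false) (h2 : α 269 = false) (h3 : α 239 = false) (h4 : α 107 = false) : False :=
  rf h false 1 1 1 386 269 239 107 (by decide +kernel) h1 h2 h3 h4

theorem c2302 (h : Good α) (h1 : α 386 = true) (h2 : α 269 = true) (h3 : α 239 = true) (h4 : α 107 = true) : False :=
  rf h true 1 1 1 386 269 239 107 (by decide +kernel) h1 h2 h3 h4

theorem c2303 (h : Good α) (h1 : α 431 = false) (h2 : α 239 = false) (h3 : α 107 = false) : False :=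
  af h false 1 431 239 107 (by decide +kernel) h1 h2 h3

theorem c2304 (h : Good α) (h1 : α 577 = false) (h2 : α 479 = false) (h3 : α 239 = false) (h4 : α 107 = false) : False :=
  rf h false 1 1 2 577 479 239 107 (by decide +kernel) h1 h2 h3 h4

theorem c2305 (h : Good α) (h1 : α 479 = false) (h2 : α 269 = false) (h3 : α 107 = false) : False :=
  af h false 4 479 269 107 (by decide +kernel) h1 h2 h3

theorem c2306 (h : Good α) (h1 : α 286 = false) (h2 : α 107 = false) (h3 : α 477 = false) (h4 : α 338 = false) : False :=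
  rf h false 2 1 3 286 107 477 338 (by decide +kernel) h1 h2 h3 h4

theorem c2307 (h : Good α) (h1 : α 286 = true) (h2 : α 107 = true) (h3 : α 477 = true) (h4 : α 338 = true) : False :=
  rf h true 2 1 3 286 107 477 338 (by decide +kernel) h1 h2 h3 h4

theorem c2308 (h : Good α) (h1 : α 521 = false) (h2 : α 286 = false) (h3 : α 107 = false) : False :=
  af h false 2 521 286 107 (by decide +kernel) h1 h2 h3

theorem c2309 (h : Good α) (h1 : α 521 = true) (h2 : α 286 = true) (h3 : α 107 = true) : False :=
  af h true 2 521 286 107 (by decide +kernel) h1 h2 h3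

theorem c2310 (h : Good α) (h1 : α 120 = true) (h2 : α 108 = true) (h3 : α 154 = true) (h4 : α 150 = true) : False :=
  rf h true 2 3 1 120 108 154 150 (by decide +kernel) h1 h2 h3 h4

theorem c2311 (h : Good α) (h1 : α 175 = false) (h2 : α 167 = false) (h3 : α 120 = false) (h4 : α 108 = false) : False :=
  rf h false 2 3 1 175 167 120 108 (by decide +kernel) h1 h2 h3 h4

theorem c2312 (h : Good α) (h1 : α 120 = false) (h2 : α 108 = false) (h3 : α 275 = false) (h4 : α 260 = false) : False :=
  rf h false 2 3 2 120 108 275 260 (by decide +kernel) h1 h2 h3 h4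

theorem c2313 (h : Good α) (h1 : α 167 = true) (h2 : α 108 = true) (h3 : α 150 = true) : False :=
  af h true 5 167 108 150 (by decide +kernel) h1 h2 h3

theorem c2314 (h : Good α) (h1 : α 108 = true) (h2 : α 150 = true) (h3 : α 260 = true) : False :=
  af h true 5 108 150 260 (by decide +kernel) h1 h2 h3

theorem c2315 (h : Good α) (h1 : α 108 = true) (h2 : α 291 = true) (h3 : α 150 = true) (h4 : α 314 = true) : False :=
  rf h true 2 1 1 108 291 150 314 (by decide +kernel) h1 h2 h3 h4

theorem c2316 (h : Good α) (h1 : α 308 = true) (h2 : α 108 = true) (h3 : α 328 = true) (h4 : α 150 = true) : False :=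
  rf h true 2 4 1 308 108 328 150 (by decide +kernel) h1 h2 h3 h4

theorem c2317 (h : Good α) (h1 : α 108 = false) (h2 : α 291 = false) (h3 : α 260 = false) (h4 : α 413 = false) : False :=
  rf h false 2 1 2 108 291 260 413 (by decide +kernel) h1 h2 h3 h4

theorem c2318 (h : Good α) (h1 : α 308 = false) (h2 : α 108 = false) (h3 : α 425 = false) (h4 : α 260 = false) : False :=
  rf h false 2 4 2 308 108 425 260 (by decide +kernel) h1 h2 h3 h4

theorem c2319 (h : Good α) (h1 : α 108 = false) (h2 : α 267 = false) (h3 : α 483 = false) : False :=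
  af h false 3 108 267 483 (by decide +kernel) h1 h2 h3

theorem c2320 (h : Good α) (h1 : α 337 = true) (h2 : α 476 = true) (h3 : α 108 = true) (h4 : α 282 = true) : False :=
  rf h true 1 1 3 337 476 108 282 (by decide +kernel) h1 h2 h3 h4

theorem c2321 (h : Good α) (h1 : α 108 = false) (h2 : α 282 = false) (h3 : α 510 = false) : False :=
  af h false 1 108 282 510 (by decide +kernel) h1 h2 h3

theorem c2322 (h : Good α) (h1 : α 108 = true) (h2 : α 282 = true) (h3 : α 510 = true) : False :=
  af h true 1 108 282 510 (by decide +kernel) h1 h2 h3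

theorem c2323 (h : Good α) (h1 : α 263 = false) (h2 : α 152 = false) (h3 : α 109 = false) : False :=
  af h false 4 263 152 109 (by decide +kernel) h1 h2 h3

theorem c2324 (h : Good α) (h1 : α 263 = true) (h2 : α 152 = true) (h3 : α 109 = true) : False :=
  af h true 4 263 152 109 (by decide +kernel) h1 h2 h3

theorem c2325 (h : Good α) (h1 : α 109 = false) (h2 : α 282 = false) (h3 : α 183 = false) (h4 : α 340 = false) : False :=
  rf h false 2 1 2 109 282 183 340 (by decide +kernel) h1 h2 h3 h4

theorem c2326 (h : Good α) (h1 : α 109 = true) (h2 : α 282 = true) (h3 : α 183 = true) (h4 : α 340 = true) : False :=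
  rf h true 2 1 2 109 282 183 340 (by decide +kernel) h1 h2 h3 h4

theorem c2327 (h : Good α) (h1 : α 109 = true) (h2 : α 247 = true) (h3 : α 427 = true) : False :=
  af h true 3 109 247 427 (by decide +kernel) h1 h2 h3

theorem c2328 (h : Good α) (h1 : α 109 = false) (h2 : α 255 = false) (h3 : α 480 = false) : False :=
  af h false 0 109 255 480 (by decide +kernel) h1 h2 h3

theorem c2329 (h : Good α) (h1 : α 109 = true) (h2 : α 255 = true) (h3 : α 480 = true) : False :=
  af h true 0 109 255 480 (by decide +kernel) h1 h2 h3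

theorem c2330 (h : Good α) (h1 : α 109 = true) (h2 : α 282 = true) (h3 : α 339 = true) (h4 : α 478 = true) : False :=
  rf h true 2 1 3 109 282 339 478 (by decide +kernel) h1 h2 h3 h4

theorem c2331 (h : Good α) (h1 : α 109 = false) (h2 : α 282 = false) (h3 : α 513 = false) : False :=
  af h false 2 109 282 513 (by decide +kernel) h1 h2 h3

theorem c2332 (h : Good α) (h1 : α 109 = true) (h2 : α 282 = true) (h3 : α 513 = true) : False :=
  af h true 2 109 282 513 (by decide +kernel) h1 h2 h3

theorem c2333 (h : Good α) (h1 : α 110 = true) (h2 : α 119 = true) (h3 : α 151 = true) (h4 : α 156 = true) : False :=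
  rf h true 1 3 1 110 119 151 156 (by decide +kernel) h1 h2 h3 h4

theorem c2334 (h : Good α) (h1 : α 169 = false) (h2 : α 172 = false) (h3 : α 110 = false) (h4 : α 119 = false) : False :=
  rf h false 1 3 1 169 172 110 119 (by decide +kernel) h1 h2 h3 h4

theorem c2335 (h : Good α) (h1 : α 110 = false) (h2 : α 119 = false) (h3 : α 258 = false) (h4 : α 265 = false) : False :=
  rf h false 1 3 2 110 119 258 265 (by decide +kernel) h1 h2 h3 h4

theorem c2336 (h : Good α) (h1 : α 477 = true) (h2 : α 110 = true) (h3 : α 518 = true) (h4 : α 136 = true) : False :=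
  rf h true 0 2 2 477 110 518 136 (by decide +kernel) h1 h2 h3 h4

theorem c2337 (h : Good α) (h1 : α 169 = true) (h2 : α 110 = true) (h3 : α 151 = true) : False :=
  af h true 4 169 110 151 (by decide +kernel) h1 h2 h3

theorem c2338 (h : Good α) (h1 : α 110 = true) (h2 : α 151 = true) (h3 : α 258 = true) : False :=
  af h true 4 110 151 258 (by decide +kernel) h1 h2 h3

theorem c2339 (h : Good α) (h1 : α 428 = false) (h2 : α 248 = false) (h3 : α 110 = false) : False :=
  af h false 3 428 248 110 (by decide +kernel) h1 h2 h3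

theorem c2340 (h : Good α) (h1 : α 580 = false) (h2 : α 248 = false) (h3 : α 477 = false) (h4 : α 110 = false) : False :=
  rf h false 0 2 1 580 248 477 110 (by decide +kernel) h1 h2 h3 h4

theorem c2341 (h : Good α) (h1 : α 477 = false) (h2 : α 254 = false) (h3 : α 110 = false) : False :=
  af h false 0 477 254 110 (by decide +kernel) h1 h2 h3

theorem c2342 (h : Good α) (h1 : α 477 = true) (h2 : α 254 = true) (h3 : α 110 = true) : False :=
  af h true 0 477 254 110 (by decide +kernel) h1 h2 h3

theorem c2343 (h : Good α) (h1 : α 514 = true) (h2 : α 283 = true) (h3 : α 110 = true) : False :=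
  af h true 2 514 283 110 (by decide +kernel) h1 h2 h3

theorem c2344 (h : Good α) (h1 : α 153 = true) (h2 : α 157 = true) (h3 : α 111 = true) (h4 : α 121 = true) : False :=
  rf h true 2 3 1 153 157 111 121 (by decide +kernel) h1 h2 h3 h4

theorem c2345 (h : Good α) (h1 : α 270 = false) (h2 : α 297 = false) (h3 : α 111 = false) (h4 : α 127 = false) : False :=
  rf h false 0 2 1 270 297 111 127 (by decide +kernel) h1 h2 h3 h4

theorem c2346 (h : Good α) (h1 : α 153 = false) (h2 : α 111 = false) (h3 : α 168 = false) : False :=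
  af h false 5 153 111 168 (by decide +kernel) h1 h2 h3

theorem c2347 (h : Good α) (h1 : α 261 = false) (h2 : α 153 = false) (h3 : α 111 = false) : False :=
  af h false 5 261 153 111 (by decide +kernel) h1 h2 h3

theorem c2348 (h : Good α) (h1 : α 261 = true) (h2 : α 153 = true) (h3 : α 111 = true) : False :=
  af h true 5 261 153 111 (by decide +kernel) h1 h2 h3

theorem c2349 (h : Good α) (h1 : α 425 = true) (h2 : α 243 = true) (h3 : α 111 = true) : False :=
  af h true 0 425 243 111 (by decide +kernel) h1 h2 h3

theorem c2350 (h : Good α) (h1 : α 415 = false) (h2 : α 261 = false) (h3 : α 295 = false) (h4 : α 111 = false) : False :=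
  rf h false 2 1 2 415 261 295 111 (by decide +kernel) h1 h2 h3 h4

theorem c2351 (h : Good α) (h1 : α 484 = false) (h2 : α 270 = false) (h3 : α 111 = false) : False :=
  af h false 3 484 270 111 (by decide +kernel) h1 h2 h3

theorem c2352 (h : Good α) (h1 : α 155 = true) (h2 : α 116 = true) (h3 : α 147 = true) (h4 : α 112 = true) : False :=
  rf h true 0 1 3 155 116 147 112 (by decide +kernel) h1 h2 h3 h4

theorem c2353 (h : Good α) (h1 : α 147 = true) (h2 : α 112 = true) (h3 : α 174 = true) : False :=
  af h true 0 147 112 174 (by decide +kernel) h1 h2 h3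

theorem c2354 (h : Good α) (h1 : α 190 = false) (h2 : α 570 = false) (h3 : α 112 = false) (h4 : α 522 = false) : False :=
  rf h false 2 2 2 190 570 112 522 (by decide +kernel) h1 h2 h3 h4

theorem c2355 (h : Good α) (h1 : α 112 = false) (h2 : α 242 = false) (h3 : α 268 = false) (h4 : α 387 = false) : False :=
  rf h false 1 1 1 112 242 268 387 (by decide +kernel) h1 h2 h3 h4

theorem c2356 (h : Good α) (h1 : α 112 = true) (h2 : α 242 = true) (h3 : α 268 = true) (h4 : α 387 = true) : False :=
  rf h true 1 1 1 112 242 268 387 (by decide +kernel) h1 h2 h3 h4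

theorem c2357 (h : Good α) (h1 : α 112 = false) (h2 : α 242 = false) (h3 : α 432 = false) : False :=
  af h false 1 112 242 432 (by decide +kernel) h1 h2 h3

theorem c2358 (h : Good α) (h1 : α 112 = true) (h2 : α 242 = true) (h3 : α 432 = true) : False :=
  af h true 1 112 242 432 (by decide +kernel) h1 h2 h3

theorem c2359 (h : Good α) (h1 : α 112 = false) (h2 : α 242 = false) (h3 : α 478 = false) (h4 : α 576 = false) : False :=
  rf h false 1 1 2 112 242 478 576 (by decide +kernel) h1 h2 h3 h4

theorem c2360 (h : Good α) (h1 : α 112 = true) (h2 : α 268 = true) (h3 : α 478 = true) : False :=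
  af h true 4 112 268 478 (by decide +kernel) h1 h2 h3

theorem c2361 (h : Good α) (h1 : α 343 = true) (h2 : α 480 = true) (h3 : α 112 = true) (h4 : α 287 = true) : False :=
  rf h true 2 1 3 343 480 112 287 (by decide +kernel) h1 h2 h3 h4

theorem c2362 (h : Good α) (h1 : α 112 = false) (h2 : α 287 = false) (h3 : α 522 = false) : False :=
  af h false 2 112 287 522 (by decide +kernel) h1 h2 h3

theorem c2363 (h : Good α) (h1 : α 149 = false) (h2 : α 113 = false) (h3 : α 180 = false) : False :=
  af h false 3 149 113 180 (by decide +kernel) h1 h2 h3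

theorem c2364 (h : Good α) (h1 : α 264 = false) (h2 : α 149 = false) (h3 : α 113 = false) : False :=
  af h false 3 264 149 113 (by decide +kernel) h1 h2 h3

theorem c2365 (h : Good α) (h1 : α 327 = false) (h2 : α 149 = false) (h3 : α 298 = false) (h4 : α 113 = false) : False :=
  rf h false 0 4 1 327 149 298 113 (by decide +kernel) h1 h2 h3 h4

theorem c2366 (h : Good α) (h1 : α 149 = false) (h2 : α 335 = false) (h3 : α 113 = false) (h4 : α 307 = false) : False :=
  rf h false 0 1 1 149 335 113 307 (by decide +kernel) h1 h2 h3 h4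

theorem c2367 (h : Good α) (h1 : α 113 = false) (h2 : α 284 = false) (h3 : α 189 = false) (h4 : α 345 = false) : False :=
  rf h false 1 1 2 113 284 189 345 (by decide +kernel) h1 h2 h3 h4

theorem c2368 (h : Good α) (h1 : α 256 = true) (h2 : α 397 = true) (h3 : α 113 = true) (h4 : α 250 = true) : False :=
  rf h true 2 1 1 256 397 113 250 (by decide +kernel) h1 h2 h3 h4

theorem c2369 (h : Good α) (h1 : α 113 = false) (h2 : α 250 = false) (h3 : α 430 = false) : False :=
  af h false 2 113 250 430 (by decide +kernel) h1 h2 h3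

theorem c2370 (h : Good α) (h1 : α 113 = true) (h2 : α 250 = true) (h3 : α 430 = true) : False :=
  af h true 2 113 250 430 (by decide +kernel) h1 h2 h3

theorem c2371 (h : Good α) (h1 : α 476 = false) (h2 : α 579 = false) (h3 : α 113 = false) (h4 : α 250 = false) : False :=
  rf h false 2 1 2 476 579 113 250 (by decide +kernel) h1 h2 h3 h4

theorem c2372 (h : Good α) (h1 : α 476 = false) (h2 : α 256 = false) (h3 : α 113 = false) : False :=
  af h false 5 476 256 113 (by decide +kernel) h1 h2 h3

theorem c2373 (h : Good α) (h1 : α 476 = true) (h2 : α 256 = true) (h3 : α 113 = true) : False :=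
  af h true 5 476 256 113 (by decide +kernel) h1 h2 h3

theorem c2374 (h : Good α) (h1 : α 429 = true) (h2 : α 264 = true) (h3 : α 298 = true) (h4 : α 113 = true) : False :=
  rf h true 0 4 2 429 264 298 113 (by decide +kernel) h1 h2 h3 h4

theorem c2375 (h : Good α) (h1 : α 264 = true) (h2 : α 424 = true) (h3 : α 113 = true) (h4 : α 307 = true) : False :=
  rf h true 0 1 2 264 424 113 307 (by decide +kernel) h1 h2 h3 h4

theorem c2376 (h : Good α) (h1 : α 113 = false) (h2 : α 284 = false) (h3 : α 340 = false) (h4 : α 483 = false) : False :=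
  rf h false 1 1 3 113 284 340 483 (by decide +kernel) h1 h2 h3 h4

theorem c2377 (h : Good α) (h1 : α 113 = true) (h2 : α 284 = true) (h3 : α 340 = true) (h4 : α 483 = true) : False :=
  rf h true 1 1 3 113 284 340 483 (by decide +kernel) h1 h2 h3 h4

theorem c2378 (h : Good α) (h1 : α 113 = false) (h2 : α 284 = false) (h3 : α 530 = false) : False :=
  af h false 1 113 284 530 (by decide +kernel) h1 h2 h3

theorem c2379 (h : Good α) (h1 : α 154 = true) (h2 : α 114 = true) (h3 : α 158 = true) : False :=
  af h true 3 154 114 158 (by decide +kernel) h1 h2 h3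

theorem c2380 (h : Good α) (h1 : α 272 = true) (h2 : α 154 = true) (h3 : α 114 = true) : False :=
  af h true 3 272 154 114 (by decide +kernel) h1 h2 h3

theorem c2381 (h : Good α) (h1 : α 327 = true) (h2 : α 154 = true) (h3 : α 298 = true) (h4 : α 114 = true) : False :=
  rf h true 0 1 1 327 154 298 114 (by decide +kernel) h1 h2 h3 h4

theorem c2382 (h : Good α) (h1 : α 154 = true) (h2 : α 335 = true) (h3 : α 114 = true) (h4 : α 307 = true) : False :=
  rf h true 0 4 1 154 335 114 307 (by decide +kernel) h1 h2 h3 h4

theorem c2383 (h : Good α) (h1 : α 114 = false) (h2 : α 183 = false) (h3 : α 285 = false) (h4 : α 339 = false) : False :=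
  rf h false 2 2 1 114 183 285 339 (by decide +kernel) h1 h2 h3 h4

theorem c2384 (h : Good α) (h1 : α 114 = true) (h2 : α 183 = true) (h3 : α 285 = true) (h4 : α 339 = true) : False :=
  rf h true 2 2 1 114 183 285 339 (by decide +kernel) h1 h2 h3 h4

theorem c2385 (h : Good α) (h1 : α 114 = false) (h2 : α 183 = false) (h3 : α 518 = false) (h4 : α 560 = false) : False :=
  rf h false 2 2 2 114 183 518 560 (by decide +kernel) h1 h2 h3 h4

theorem c2386 (h : Good α) (h1 : α 222 = true) (h2 : α 114 = true) (h3 : α 372 = true) (h4 : α 285 = true) : False :=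
  rf h true 2 1 1 222 114 372 285 (by decide +kernel) h1 h2 h3 h4

theorem c2387 (h : Good α) (h1 : α 275 = false) (h2 : α 114 = false) (h3 : α 390 = false) (h4 : α 237 = false) : False :=
  rf h false 1 1 1 275 114 390 237 (by decide +kernel) h1 h2 h3 h4

theorem c2388 (h : Good α) (h1 : α 114 = false) (h2 : α 237 = false) (h3 : α 423 = false) : False :=
  af h false 4 114 237 423 (by decide +kernel) h1 h2 h3

theorem c2389 (h : Good α) (h1 : α 114 = true) (h2 : α 237 = true) (h3 : α 423 = true) : False :=
  af h true 4 114 237 423 (by decide +kernel) h1 h2 h3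

theorem c2390 (h : Good α) (h1 : α 477 = false) (h2 : α 114 = false) (h3 : α 578 = false) (h4 : α 237 = false) : False :=
  rf h false 1 2 1 477 114 578 237 (by decide +kernel) h1 h2 h3 h4

theorem c2391 (h : Good α) (h1 : α 477 = true) (h2 : α 114 = true) (h3 : α 578 = true) (h4 : α 237 = true) : False :=
  rf h true 1 2 1 477 114 578 237 (by decide +kernel) h1 h2 h3 h4

theorem c2392 (h : Good α) (h1 : α 429 = false) (h2 : α 272 = false) (h3 : α 298 = false) (h4 : α 114 = false) : False :=
  rf h false 0 1 2 429 272 298 114 (by decide +kernel) h1 h2 h3 h4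

theorem c2393 (h : Good α) (h1 : α 272 = false) (h2 : α 424 = false) (h3 : α 114 = false) (h4 : α 307 = false) : False :=
  rf h false 0 4 2 272 424 114 307 (by decide +kernel) h1 h2 h3 h4

theorem c2394 (h : Good α) (h1 : α 275 = false) (h2 : α 114 = false) (h3 : α 555 = false) (h4 : α 423 = false) : False :=
  rf h false 1 1 2 275 114 555 423 (by decide +kernel) h1 h2 h3 h4

theorem c2395 (h : Good α) (h1 : α 477 = false) (h2 : α 275 = false) (h3 : α 114 = false) : False :=
  af h false 1 477 275 114 (by decide +kernel) h1 h2 h3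

theorem c2396 (h : Good α) (h1 : α 477 = true) (h2 : α 275 = true) (h3 : α 114 = true) : False :=
  af h true 1 477 275 114 (by decide +kernel) h1 h2 h3

theorem c2397 (h : Good α) (h1 : α 114 = false) (h2 : α 340 = false) (h3 : α 285 = false) (h4 : α 478 = false) : False :=
  rf h false 2 3 1 114 340 285 478 (by decide +kernel) h1 h2 h3 h4

theorem c2398 (h : Good α) (h1 : α 114 = true) (h2 : α 340 = true) (h3 : α 285 = true) (h4 : α 478 = true) : False :=
  rf h true 2 3 1 114 340 285 478 (by decide +kernel) h1 h2 h3 h4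

theorem c2399 (h : Good α) (h1 : α 114 = false) (h2 : α 285 = false) (h3 : α 518 = false) : False :=
  af h false 5 114 285 518 (by decide +kernel) h1 h2 h3

theorem c2400 (h : Good α) (h1 : α 114 = true) (h2 : α 285 = true) (h3 : α 518 = true) : False :=
  af h true 5 114 285 518 (by decide +kernel) h1 h2 h3

theorem c2401 (h : Good α) (h1 : α 162 = false) (h2 : α 115 = false) (h3 : α 156 = false) : False :=
  af h false 0 162 115 156 (by decide +kernel) h1 h2 h3

theorem c2402 (h : Good α) (h1 : α 115 = true) (h2 : α 156 = true) (h3 : α 274 = true) : False :=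
  af h true 0 115 156 274 (by decide +kernel) h1 h2 h3

theorem c2403 (h : Good α) (h1 : α 115 = false) (h2 : α 265 = false) (h3 : α 233 = false) (h4 : α 378 = false) : False :=
  rf h false 2 1 1 115 265 233 378 (by decide +kernel) h1 h2 h3 h4

theorem c2404 (h : Good α) (h1 : α 115 = false) (h2 : α 233 = false) (h3 : α 419 = false) : False :=
  af h false 5 115 233 419 (by decide +kernel) h1 h2 h3

theorem c2405 (h : Good α) (h1 : α 115 = true) (h2 : α 233 = true) (h3 : α 419 = true) : False :=
  af h true 5 115 233 419 (by decide +kernel) h1 h2 h3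

theorem c2406 (h : Good α) (h1 : α 115 = false) (h2 : α 483 = false) (h3 : α 233 = false) (h4 : α 576 = false) : False :=
  rf h false 2 2 1 115 483 233 576 (by decide +kernel) h1 h2 h3 h4

theorem c2407 (h : Good α) (h1 : α 115 = false) (h2 : α 265 = false) (h3 : α 483 = false) : False :=
  af h false 2 115 265 483 (by decide +kernel) h1 h2 h3

theorem c2408 (h : Good α) (h1 : α 115 = false) (h2 : α 274 = false) (h3 : α 304 = false) (h4 : α 432 = false) : False :=
  rf h false 0 2 1 115 274 304 432 (by decide +kernel) h1 h2 h3 h4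

theorem c2409 (h : Good α) (h1 : α 115 = false) (h2 : α 277 = false) (h3 : α 516 = false) : False :=
  af h false 4 115 277 516 (by decide +kernel) h1 h2 h3

theorem c2410 (h : Good α) (h1 : α 155 = true) (h2 : α 116 = true) (h3 : α 165 = true) : False :=
  af h true 0 155 116 165 (by decide +kernel) h1 h2 h3

theorem c2411 (h : Good α) (h1 : α 271 = false) (h2 : α 155 = false) (h3 : α 116 = false) : False :=
  af h false 0 271 155 116 (by decide +kernel) h1 h2 h3

theorem c2412 (h : Good α) (h1 : α 379 = false) (h2 : α 236 = false) (h3 : α 266 = false) (h4 : α 116 = false) : False :=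
  rf h false 2 1 1 379 236 266 116 (by decide +kernel) h1 h2 h3 h4

theorem c2413 (h : Good α) (h1 : α 422 = false) (h2 : α 236 = false) (h3 : α 116 = false) : False :=
  af h false 5 422 236 116 (by decide +kernel) h1 h2 h3

theorem c2414 (h : Good α) (h1 : α 484 = false) (h2 : α 266 = false) (h3 : α 116 = false) : False :=
  af h false 2 484 266 116 (by decide +kernel) h1 h2 h3

theorem c2415 (h : Good α) (h1 : α 271 = false) (h2 : α 116 = false) (h3 : α 419 = false) (h4 : α 303 = false) : False :=
  rf h false 0 2 4 271 116 419 303 (by decide +kernel) h1 h2 h3 h4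

theorem c2416 (h : Good α) (h1 : α 280 = false) (h2 : α 476 = false) (h3 : α 116 = false) (h4 : α 343 = false) : False :=
  rf h false 1 3 1 280 476 116 343 (by decide +kernel) h1 h2 h3 h4

theorem c2417 (h : Good α) (h1 : α 520 = false) (h2 : α 280 = false) (h3 : α 116 = false) : False :=
  af h false 4 520 280 116 (by decide +kernel) h1 h2 h3

theorem c2418 (h : Good α) (h1 : α 520 = true) (h2 : α 280 = true) (h3 : α 116 = true) : False :=
  af h true 4 520 280 116 (by decide +kernel) h1 h2 h3

theorem c2419 (h : Good α) (h1 : α 161 = false) (h2 : α 117 = false) (h3 : α 157 = false) : False :=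
  af h false 3 161 117 157 (by decide +kernel) h1 h2 h3

theorem c2420 (h : Good α) (h1 : α 161 = true) (h2 : α 117 = true) (h3 : α 157 = true) : False :=
  af h true 3 161 117 157 (by decide +kernel) h1 h2 h3

theorem c2421 (h : Good α) (h1 : α 117 = false) (h2 : α 157 = false) (h3 : α 273 = false) : False :=
  af h false 3 117 157 273 (by decide +kernel) h1 h2 h3

theorem c2422 (h : Good α) (h1 : α 117 = true) (h2 : α 157 = true) (h3 : α 273 = true) : False :=
  af h true 3 117 157 273 (by decide +kernel) h1 h2 h3

theorem c2423 (h : Good α) (h1 : α 117 = false) (h2 : α 299 = false) (h3 : α 157 = false) (h4 : α 334 = false) : False :=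
  rf h false 0 1 1 117 299 157 334 (by decide +kernel) h1 h2 h3 h4

theorem c2424 (h : Good α) (h1 : α 306 = false) (h2 : α 117 = false) (h3 : α 326 = false) (h4 : α 157 = false) : False :=
  rf h false 0 4 1 306 117 326 157 (by decide +kernel) h1 h2 h3 h4

theorem c2425 (h : Good α) (h1 : α 306 = true) (h2 : α 117 = true) (h3 : α 326 = true) (h4 : α 157 = true) : False :=
  rf h true 0 4 1 306 117 326 157 (by decide +kernel) h1 h2 h3 h4

theorem c2426 (h : Good α) (h1 : α 238 = false) (h2 : α 391 = false) (h3 : α 117 = false) (h4 : α 276 = false) : False :=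
  rf h false 1 1 1 238 391 117 276 (by decide +kernel) h1 h2 h3 h4

theorem c2427 (h : Good α) (h1 : α 424 = false) (h2 : α 238 = false) (h3 : α 117 = false) : False :=
  af h false 4 424 238 117 (by decide +kernel) h1 h2 h3

theorem c2428 (h : Good α) (h1 : α 424 = true) (h2 : α 238 = true) (h3 : α 117 = true) : False :=
  af h true 4 424 238 117 (by decide +kernel) h1 h2 h3

theorem c2429 (h : Good α) (h1 : α 117 = false) (h2 : α 299 = false) (h3 : α 273 = false) (h4 : α 430 = false) : False :=
  rf h false 0 1 2 117 299 273 430 (by decide +kernel) h1 h2 h3 h4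

theorem c2430 (h : Good α) (h1 : α 117 = true) (h2 : α 299 = true) (h3 : α 273 = true) (h4 : α 430 = true) : False :=
  rf h true 0 1 2 117 299 273 430 (by decide +kernel) h1 h2 h3 h4

theorem c2431 (h : Good α) (h1 : α 306 = false) (h2 : α 117 = false) (h3 : α 423 = false) (h4 : α 273 = false) : False :=
  rf h false 0 4 2 306 117 423 273 (by decide +kernel) h1 h2 h3 h4

theorem c2432 (h : Good α) (h1 : α 306 = true) (h2 : α 117 = true) (h3 : α 423 = true) (h4 : α 273 = true) : False :=
  rf h true 0 4 2 306 117 423 273 (by decide +kernel) h1 h2 h3 h4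

theorem c2433 (h : Good α) (h1 : α 424 = false) (h2 : α 557 = false) (h3 : α 117 = false) (h4 : α 276 = false) : False :=
  rf h false 1 1 2 424 557 117 276 (by decide +kernel) h1 h2 h3 h4

theorem c2434 (h : Good α) (h1 : α 117 = false) (h2 : α 276 = false) (h3 : α 480 = false) : False :=
  af h false 1 117 276 480 (by decide +kernel) h1 h2 h3

theorem c2435 (h : Good α) (h1 : α 117 = true) (h2 : α 276 = true) (h3 : α 480 = true) : False :=
  af h true 1 117 276 480 (by decide +kernel) h1 h2 h3

theorem c2436 (h : Good α) (h1 : α 479 = false) (h2 : α 288 = false) (h3 : α 341 = false) (h4 : α 117 = false) : False :=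
  rf h false 2 3 1 479 288 341 117 (by decide +kernel) h1 h2 h3 h4

theorem c2437 (h : Good α) (h1 : α 479 = true) (h2 : α 288 = true) (h3 : α 341 = true) (h4 : α 117 = true) : False :=
  rf h true 2 3 1 479 288 341 117 (by decide +kernel) h1 h2 h3 h4

theorem c2438 (h : Good α) (h1 : α 266 = true) (h2 : α 155 = true) (h3 : α 118 = true) : False :=
  af h true 4 266 155 118 (by decide +kernel) h1 h2 h3

theorem c2439 (h : Good α) (h1 : α 155 = false) (h2 : α 322 = false) (h3 : α 118 = false) (h4 : α 292 = false) : False :=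
  rf h false 1 4 1 155 322 118 292 (by decide +kernel) h1 h2 h3 h4

theorem c2440 (h : Good α) (h1 : α 118 = true) (h2 : α 251 = true) (h3 : α 412 = true) : False :=
  af h true 5 118 251 412 (by decide +kernel) h1 h2 h3

theorem c2441 (h : Good α) (h1 : α 428 = false) (h2 : α 266 = false) (h3 : α 310 = false) (h4 : α 118 = false) : False :=
  rf h false 1 1 2 428 266 310 118 (by decide +kernel) h1 h2 h3 h4

theorem c2442 (h : Good α) (h1 : α 485 = false) (h2 : α 271 = false) (h3 : α 118 = false) : False :=
  af h false 2 485 271 118 (by decide +kernel) h1 h2 h3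

theorem c2443 (h : Good α) (h1 : α 281 = true) (h2 : α 118 = true) (h3 : α 481 = true) (h4 : α 339 = true) : False :=
  rf h true 0 1 3 281 118 481 339 (by decide +kernel) h1 h2 h3 h4

theorem c2444 (h : Good α) (h1 : α 172 = false) (h2 : α 119 = false) (h3 : α 156 = false) : False :=
  af h false 4 172 119 156 (by decide +kernel) h1 h2 h3

theorem c2445 (h : Good α) (h1 : α 172 = true) (h2 : α 119 = true) (h3 : α 156 = true) : False :=
  af h true 4 172 119 156 (by decide +kernel) h1 h2 h3

theorem c2446 (h : Good α) (h1 : α 119 = false) (h2 : α 156 = false) (h3 : α 265 = false) : False :=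
  af h false 4 119 156 265 (by decide +kernel) h1 h2 h3

theorem c2447 (h : Good α) (h1 : α 294 = true) (h2 : α 119 = true) (h3 : α 315 = true) (h4 : α 156 = true) : False :=
  rf h true 1 4 1 294 119 315 156 (by decide +kernel) h1 h2 h3 h4

theorem c2448 (h : Good α) (h1 : α 119 = true) (h2 : α 274 = true) (h3 : α 486 = true) : False :=
  af h true 2 119 274 486 (by decide +kernel) h1 h2 h3

theorem c2449 (h : Good α) (h1 : α 119 = false) (h2 : α 284 = false) (h3 : α 526 = false) : False :=
  af h false 0 119 284 526 (by decide +kernel) h1 h2 h3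

theorem c2450 (h : Good α) (h1 : α 272 = false) (h2 : α 120 = false) (h3 : α 306 = false) (h4 : α 130 = false) : False :=
  rf h false 1 1 2 272 120 306 130 (by decide +kernel) h1 h2 h3 h4

theorem c2451 (h : Good α) (h1 : α 175 = true) (h2 : α 120 = true) (h3 : α 154 = true) : False :=
  af h true 5 175 120 154 (by decide +kernel) h1 h2 h3

theorem c2452 (h : Good α) (h1 : α 120 = true) (h2 : α 154 = true) (h3 : α 275 = true) : False :=
  af h true 5 120 154 275 (by decide +kernel) h1 h2 h3

theorem c2453 (h : Good α) (h1 : α 120 = true) (h2 : α 291 = true) (h3 : α 154 = true) (h4 : α 314 = true) : False :=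
  rf h true 2 4 1 120 291 154 314 (by decide +kernel) h1 h2 h3 h4

theorem c2454 (h : Good α) (h1 : α 308 = true) (h2 : α 120 = true) (h3 : α 328 = true) (h4 : α 154 = true) : False :=
  rf h true 2 1 1 308 120 328 154 (by decide +kernel) h1 h2 h3 h4

theorem c2455 (h : Good α) (h1 : α 398 = false) (h2 : α 245 = false) (h3 : α 272 = false) (h4 : α 120 = false) : False :=
  rf h false 1 1 1 398 245 272 120 (by decide +kernel) h1 h2 h3 h4

theorem c2456 (h : Good α) (h1 : α 415 = true) (h2 : α 245 = true) (h3 : α 120 = true) : False :=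
  af h true 4 415 245 120 (by decide +kernel) h1 h2 h3

theorem c2457 (h : Good α) (h1 : α 485 = false) (h2 : α 272 = false) (h3 : α 120 = false) : False :=
  af h false 1 485 272 120 (by decide +kernel) h1 h2 h3

theorem c2458 (h : Good α) (h1 : α 485 = true) (h2 : α 272 = true) (h3 : α 120 = true) : False :=
  af h true 1 485 272 120 (by decide +kernel) h1 h2 h3

theorem c2459 (h : Good α) (h1 : α 120 = false) (h2 : α 291 = false) (h3 : α 275 = false) (h4 : α 413 = false) : False :=
  rf h false 2 4 2 120 291 275 413 (by decide +kernel) h1 h2 h3 h4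

theorem c2460 (h : Good α) (h1 : α 308 = false) (h2 : α 120 = false) (h3 : α 425 = false) (h4 : α 275 = false) : False :=
  rf h false 2 1 2 308 120 425 275 (by decide +kernel) h1 h2 h3 h4

theorem c2461 (h : Good α) (h1 : α 286 = true) (h2 : α 482 = true) (h3 : α 120 = true) (h4 : α 337 = true) : False :=
  rf h true 0 3 1 286 482 120 337 (by decide +kernel) h1 h2 h3 h4

theorem c2462 (h : Good α) (h1 : α 524 = false) (h2 : α 286 = false) (h3 : α 120 = false) : False :=
  af h false 3 524 286 120 (by decide +kernel) h1 h2 h3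

theorem c2463 (h : Good α) (h1 : α 133 = false) (h2 : α 307 = false) (h3 : α 121 = false) (h4 : α 273 = false) : False :=
  rf h false 1 1 2 133 307 121 273 (by decide +kernel) h1 h2 h3 h4

theorem c2464 (h : Good α) (h1 : α 276 = false) (h2 : α 157 = false) (h3 : α 121 = false) : False :=
  af h false 5 276 157 121 (by decide +kernel) h1 h2 h3

theorem c2465 (h : Good α) (h1 : α 276 = true) (h2 : α 157 = true) (h3 : α 121 = true) : False :=
  af h true 5 276 157 121 (by decide +kernel) h1 h2 h3

theorem c2466 (h : Good α) (h1 : α 121 = false) (h2 : α 273 = false) (h3 : α 486 = false) : False :=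
  af h false 1 121 273 486 (by decide +kernel) h1 h2 h3

theorem c2467 (h : Good α) (h1 : α 121 = true) (h2 : α 273 = true) (h3 : α 486 = true) : False :=
  af h true 1 121 273 486 (by decide +kernel) h1 h2 h3

theorem c2468 (h : Good α) (h1 : α 336 = true) (h2 : α 121 = true) (h3 : α 481 = true) (h4 : α 287 = true) : False :=
  rf h true 0 3 1 336 121 481 287 (by decide +kernel) h1 h2 h3 h4

theorem c2469 (h : Good α) (h1 : α 121 = false) (h2 : α 287 = false) (h3 : α 525 = false) : False :=
  af h false 3 121 287 525 (by decide +kernel) h1 h2 h3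

theorem c2470 (h : Good α) (h1 : α 122 = true) (h2 : α 246 = true) (h3 : α 289 = true) (h4 : α 395 = true) : False :=
  rf h true 0 3 1 122 246 289 395 (by decide +kernel) h1 h2 h3 h4

theorem c2471 (h : Good α) (h1 : α 122 = false) (h2 : α 312 = false) (h3 : α 549 = false) : False :=
  af h false 5 122 312 549 (by decide +kernel) h1 h2 h3

theorem c2472 (h : Good α) (h1 : α 122 = true) (h2 : α 312 = true) (h3 : α 549 = true) : False :=
  af h true 5 122 312 549 (by decide +kernel) h1 h2 h3

theorem c2473 (h : Good α) (h1 : α 123 = false) (h2 : α 128 = false) (h3 : α 313 = false) (h4 : α 314 = false) : False :=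
  rf h false 0 1 1 123 128 313 314 (by decide +kernel) h1 h2 h3 h4

theorem c2474 (h : Good α) (h1 : α 264 = true) (h2 : α 337 = true) (h3 : α 123 = true) (h4 : α 206 = true) : False :=
  rf h true 1 1 4 264 337 123 206 (by decide +kernel) h1 h2 h3 h4

theorem c2475 (h : Good α) (h1 : α 249 = true) (h2 : α 123 = true) (h3 : α 392 = true) (h4 : α 290 = true) : False :=
  rf h true 2 3 1 249 123 392 290 (by decide +kernel) h1 h2 h3 h4

theorem c2476 (h : Good α) (h1 : α 249 = false) (h2 : α 123 = false) (h3 : α 578 = false) (h4 : α 511 = false) : False :=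
  rf h false 2 3 2 249 123 578 511 (by decide +kernel) h1 h2 h3 h4

theorem c2477 (h : Good α) (h1 : α 264 = true) (h2 : α 476 = true) (h3 : α 123 = true) (h4 : α 357 = true) : False :=
  rf h true 1 2 4 264 476 123 357 (by decide +kernel) h1 h2 h3 h4

theorem c2478 (h : Good α) (h1 : α 123 = true) (h2 : α 290 = true) (h3 : α 511 = true) : False :=
  af h true 5 123 290 511 (by decide +kernel) h1 h2 h3

theorem c2479 (h : Good α) (h1 : α 123 = false) (h2 : α 313 = false) (h3 : α 550 = false) : False :=
  af h false 3 123 313 550 (by decide +kernel) h1 h2 h3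

theorem c2480 (h : Good α) (h1 : α 124 = false) (h2 : α 321 = false) (h3 : α 131 = false) (h4 : α 322 = false) : False :=
  rf h false 0 1 1 124 321 131 322 (by decide +kernel) h1 h2 h3 h4

theorem c2481 (h : Good α) (h1 : α 124 = true) (h2 : α 215 = true) (h3 : α 359 = true) : False :=
  af h true 2 124 215 359 (by decide +kernel) h1 h2 h3

theorem c2482 (h : Good α) (h1 : α 386 = false) (h2 : α 302 = false) (h3 : α 239 = false) (h4 : α 124 = false) : False :=
  rf h false 1 3 1 386 302 239 124 (by decide +kernel) h1 h2 h3 h4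

theorem c2483 (h : Good α) (h1 : α 386 = true) (h2 : α 302 = true) (h3 : α 239 = true) (h4 : α 124 = true) : False :=
  rf h true 1 3 1 386 302 239 124 (by decide +kernel) h1 h2 h3 h4

theorem c2484 (h : Good α) (h1 : α 124 = false) (h2 : α 321 = false) (h3 : α 552 = false) : False :=
  af h false 0 124 321 552 (by decide +kernel) h1 h2 h3

theorem c2485 (h : Good α) (h1 : α 124 = true) (h2 : α 321 = true) (h3 : α 552 = true) : False :=
  af h true 0 124 321 552 (by decide +kernel) h1 h2 h3

theorem c2486 (h : Good α) (h1 : α 125 = true) (h2 : α 242 = true) (h3 : α 301 = true) (h4 : α 387 = true) : False :=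
  rf h true 1 3 1 125 242 301 387 (by decide +kernel) h1 h2 h3 h4

theorem c2487 (h : Good α) (h1 : α 125 = true) (h2 : α 242 = true) (h3 : α 512 = true) (h4 : α 576 = true) : False :=
  rf h true 1 3 2 125 242 512 576 (by decide +kernel) h1 h2 h3 h4

theorem c2488 (h : Good α) (h1 : α 551 = false) (h2 : α 316 = false) (h3 : α 125 = false) : False :=
  af h false 0 551 316 125 (by decide +kernel) h1 h2 h3

theorem c2489 (h : Good α) (h1 : α 296 = false) (h2 : α 397 = false) (h3 : α 126 = false) (h4 : α 250 = false) : False :=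
  rf h false 2 3 1 296 397 126 250 (by decide +kernel) h1 h2 h3 h4

theorem c2490 (h : Good α) (h1 : α 127 = false) (h2 : α 212 = false) (h3 : α 260 = false) (h4 : α 340 = false) : False :=
  rf h false 1 1 4 127 212 260 340 (by decide +kernel) h1 h2 h3 h4

theorem c2491 (h : Good α) (h1 : α 394 = false) (h2 : α 297 = false) (h3 : α 243 = false) (h4 : α 127 = false) : False :=
  rf h false 0 3 1 394 297 243 127 (by decide +kernel) h1 h2 h3 h4

theorem c2492 (h : Good α) (h1 : α 127 = false) (h2 : α 371 = false) (h3 : α 260 = false) (h4 : α 483 = false) : False :=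
  rf h false 1 2 4 127 371 260 483 (by decide +kernel) h1 h2 h3 h4

theorem c2493 (h : Good α) (h1 : α 127 = true) (h2 : α 371 = true) (h3 : α 260 = true) (h4 : α 483 = true) : False :=
  rf h true 1 2 4 127 371 260 483 (by decide +kernel) h1 h2 h3 h4

theorem c2494 (h : Good α) (h1 : α 554 = true) (h2 : α 325 = true) (h3 : α 127 = true) : False :=
  af h true 5 554 325 127 (by decide +kernel) h1 h2 h3

theorem c2495 (h : Good α) (h1 : α 272 = false) (h2 : α 128 = false) (h3 : α 346 = false) (h4 : α 214 = false) : False :=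
  rf h false 2 4 1 272 128 346 214 (by decide +kernel) h1 h2 h3 h4

theorem c2496 (h : Good α) (h1 : α 238 = false) (h2 : α 391 = false) (h3 : α 128 = false) (h4 : α 291 = false) : False :=
  rf h false 1 1 3 238 391 128 291 (by decide +kernel) h1 h2 h3 h4

theorem c2497 (h : Good α) (h1 : α 238 = true) (h2 : α 391 = true) (h3 : α 128 = true) (h4 : α 291 = true) : False :=
  rf h true 1 1 3 238 391 128 291 (by decide +kernel) h1 h2 h3 h4

theorem c2498 (h : Good α) (h1 : α 238 = false) (h2 : α 579 = false) (h3 : α 128 = false) (h4 : α 513 = false) : False :=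
  rf h false 1 2 3 238 579 128 513 (by decide +kernel) h1 h2 h3 h4

theorem c2499 (h : Good α) (h1 : α 272 = true) (h2 : α 128 = true) (h3 : α 477 = true) (h4 : α 358 = true) : False :=
  rf h true 2 4 2 272 128 477 358 (by decide +kernel) h1 h2 h3 h4

theorem c2500 (h : Good α) (h1 : α 128 = false) (h2 : α 314 = false) (h3 : α 558 = false) : False :=
  af h false 3 128 314 558 (by decide +kernel) h1 h2 h3

theorem c2501 (h : Good α) (h1 : α 128 = true) (h2 : α 314 = true) (h3 : α 558 = true) : False :=
  af h true 3 128 314 558 (by decide +kernel) h1 h2 h3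

theorem c2502 (h : Good α) (h1 : α 295 = true) (h2 : α 129 = true) (h3 : α 390 = true) (h4 : α 237 = true) : False :=
  rf h true 1 1 3 295 129 390 237 (by decide +kernel) h1 h2 h3 h4

theorem c2503 (h : Good α) (h1 : α 398 = false) (h2 : α 245 = false) (h3 : α 306 = false) (h4 : α 130 = false) : False :=
  rf h false 1 1 3 398 245 306 130 (by decide +kernel) h1 h2 h3 h4

theorem c2504 (h : Good α) (h1 : α 131 = true) (h2 : α 292 = true) (h3 : α 233 = true) (h4 : α 378 = true) : False :=
  rf h true 2 1 3 131 292 233 378 (by decide +kernel) h1 h2 h3 h4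

theorem c2505 (h : Good α) (h1 : α 131 = false) (h2 : α 510 = false) (h3 : α 233 = false) (h4 : α 576 = false) : False :=
  rf h false 2 2 3 131 510 233 576 (by decide +kernel) h1 h2 h3 h4

theorem c2506 (h : Good α) (h1 : α 346 = false) (h2 : α 220 = false) (h3 : α 275 = false) (h4 : α 133 = false) : False :=
  rf h false 0 4 1 346 220 275 133 (by decide +kernel) h1 h2 h3 h4

theorem c2507 (h : Good α) (h1 : α 133 = false) (h2 : α 307 = false) (h3 : α 244 = false) (h4 : α 399 = false) : False :=
  rf h false 1 1 3 133 307 244 399 (by decide +kernel) h1 h2 h3 h4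

theorem c2508 (h : Good α) (h1 : α 133 = false) (h2 : α 307 = false) (h3 : α 526 = false) : False :=
  af h false 1 133 307 526 (by decide +kernel) h1 h2 h3

theorem c2509 (h : Good α) (h1 : α 133 = true) (h2 : α 307 = true) (h3 : α 526 = true) : False :=
  af h true 1 133 307 526 (by decide +kernel) h1 h2 h3

theorem c2510 (h : Good α) (h1 : α 557 = false) (h2 : α 335 = false) (h3 : α 133 = false) : False :=
  af h false 5 557 335 133 (by decide +kernel) h1 h2 h3

theorem c2511 (h : Good α) (h1 : α 557 = true) (h2 : α 335 = true) (h3 : α 133 = true) : False :=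
  af h true 5 557 335 133 (by decide +kernel) h1 h2 h3

theorem c2512 (h : Good α) (h1 : α 300 = true) (h2 : α 134 = true) (h3 : α 393 = true) (h4 : α 251 = true) : False :=
  rf h true 2 1 3 300 134 393 251 (by decide +kernel) h1 h2 h3 h4

theorem c2513 (h : Good α) (h1 : α 524 = true) (h2 : α 300 = true) (h3 : α 134 = true) : False :=
  af h true 2 524 300 134 (by decide +kernel) h1 h2 h3

theorem c2514 (h : Good α) (h1 : α 562 = false) (h2 : α 319 = false) (h3 : α 134 = false) : False :=
  af h false 4 562 319 134 (by decide +kernel) h1 h2 h3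

theorem c2515 (h : Good α) (h1 : α 562 = true) (h2 : α 319 = true) (h3 : α 134 = true) : False :=
  af h true 4 562 319 134 (by decide +kernel) h1 h2 h3

theorem c2516 (h : Good α) (h1 : α 369 = false) (h2 : α 135 = false) (h3 : α 477 = false) (h4 : α 258 = false) : False :=
  rf h false 2 2 4 369 135 477 258 (by decide +kernel) h1 h2 h3 h4

theorem c2517 (h : Good α) (h1 : α 385 = true) (h2 : α 248 = true) (h3 : α 293 = true) (h4 : α 136 = true) : False :=
  rf h true 0 1 3 385 248 293 136 (by decide +kernel) h1 h2 h3 h4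

theorem c2518 (h : Good α) (h1 : α 137 = false) (h2 : α 318 = false) (h3 : α 561 = false) : False :=
  af h false 4 137 318 561 (by decide +kernel) h1 h2 h3

theorem c2519 (h : Good α) (h1 : α 519 = true) (h2 : α 575 = true) (h3 : α 138 = true) (h4 : α 241 = true) : False :=
  rf h true 1 3 2 519 575 138 241 (by decide +kernel) h1 h2 h3 h4

theorem c2520 (h : Good α) (h1 : α 564 = true) (h2 : α 330 = true) (h3 : α 138 = true) : False :=
  af h true 2 564 330 138 (by decide +kernel) h1 h2 h3

theorem c2521 (h : Good α) (h1 : α 221 = true) (h2 : α 337 = true) (h3 : α 140 = true) (h4 : α 256 = true) : False :=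
  rf h true 0 4 1 221 337 140 256 (by decide +kernel) h1 h2 h3 h4

theorem c2522 (h : Good α) (h1 : α 140 = true) (h2 : α 230 = true) (h3 : α 298 = true) (h4 : α 380 = true) : False :=
  rf h true 2 3 1 140 230 298 380 (by decide +kernel) h1 h2 h3 h4

theorem c2523 (h : Good α) (h1 : α 140 = true) (h2 : α 411 = true) (h3 : α 298 = true) (h4 : α 550 = true) : False :=
  rf h true 2 4 1 140 411 298 550 (by decide +kernel) h1 h2 h3 h4

theorem c2524 (h : Good α) (h1 : α 140 = false) (h2 : α 298 = false) (h3 : α 527 = false) : False :=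
  af h false 5 140 298 527 (by decide +kernel) h1 h2 h3

theorem c2525 (h : Good α) (h1 : α 566 = false) (h2 : α 327 = false) (h3 : α 140 = false) : False :=
  af h false 1 566 327 140 (by decide +kernel) h1 h2 h3

theorem c2526 (h : Good α) (h1 : α 566 = true) (h2 : α 327 = true) (h3 : α 140 = true) : False :=
  af h true 1 566 327 140 (by decide +kernel) h1 h2 h3

theorem c2527 (h : Good α) (h1 : α 141 = false) (h2 : α 267 = false) (h3 : α 222 = false) (h4 : α 340 = false) : False :=
  rf h false 2 4 1 141 267 222 340 (by decide +kernel) h1 h2 h3 h4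

theorem c2528 (h : Good α) (h1 : α 141 = false) (h2 : α 267 = false) (h3 : α 372 = false) (h4 : α 478 = false) : False :=
  rf h false 2 4 2 141 267 372 478 (by decide +kernel) h1 h2 h3 h4

theorem c2529 (h : Good α) (h1 : α 567 = false) (h2 : α 328 = false) (h3 : α 141 = false) : False :=
  af h false 1 567 328 141 (by decide +kernel) h1 h2 h3

theorem c2530 (h : Good α) (h1 : α 226 = false) (h2 : α 343 = false) (h3 : α 142 = false) (h4 : α 255 = false) : False :=
  rf h false 1 4 1 226 343 142 255 (by decide +kernel) h1 h2 h3 h4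

theorem c2531 (h : Good α) (h1 : α 235 = true) (h2 : α 575 = true) (h3 : α 143 = true) (h4 : α 530 = true) : False :=
  rf h true 0 2 3 235 575 143 530 (by decide +kernel) h1 h2 h3 h4

theorem c2532 (h : Good α) (h1 : α 414 = true) (h2 : α 563 = true) (h3 : α 143 = true) (h4 : α 311 = true) : False :=
  rf h true 0 1 4 414 563 143 311 (by decide +kernel) h1 h2 h3 h4

theorem c2533 (h : Good α) (h1 : α 143 = false) (h2 : α 332 = false) (h3 : α 569 = false) : False :=
  af h false 2 143 332 569 (by decide +kernel) h1 h2 h3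

theorem c2534 (h : Good α) (h1 : α 341 = true) (h2 : α 223 = true) (h3 : α 270 = true) (h4 : α 144 = true) : False :=
  rf h true 2 4 1 341 223 270 144 (by decide +kernel) h1 h2 h3 h4

theorem c2535 (h : Good α) (h1 : α 229 = true) (h2 : α 144 = true) (h3 : α 376 = true) (h4 : α 309 = true) : False :=
  rf h true 0 3 1 229 144 376 309 (by decide +kernel) h1 h2 h3 h4

theorem c2536 (h : Good α) (h1 : α 144 = false) (h2 : α 333 = false) (h3 : α 570 = false) : False :=
  af h false 1 144 333 570 (by decide +kernel) h1 h2 h3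

theorem c2537 (h : Good α) (h1 : α 383 = false) (h2 : α 299 = false) (h3 : α 231 = false) (h4 : α 145 = false) : False :=
  rf h false 2 3 1 383 299 231 145 (by decide +kernel) h1 h2 h3 h4

theorem c2538 (h : Good α) (h1 : α 253 = false) (h2 : α 145 = false) (h3 : α 481 = false) (h4 : α 375 = false) : False :=
  rf h false 0 4 2 253 145 481 375 (by decide +kernel) h1 h2 h3 h4

theorem c2539 (h : Good α) (h1 : α 145 = false) (h2 : α 334 = false) (h3 : α 571 = false) : False :=
  af h false 1 145 334 571 (by decide +kernel) h1 h2 h3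

theorem c2540 (h : Good α) (h1 : α 153 = true) (h2 : α 171 = true) (h3 : α 146 = true) (h4 : α 163 = true) : False :=
  rf h true 1 2 3 153 171 146 163 (by decide +kernel) h1 h2 h3 h4

theorem c2541 (h : Good α) (h1 : α 270 = true) (h2 : α 153 = true) (h3 : α 253 = true) (h4 : α 146 = true) : False :=
  rf h true 1 1 3 270 153 253 146 (by decide +kernel) h1 h2 h3 h4

theorem c2542 (h : Good α) (h1 : α 179 = true) (h2 : α 161 = true) (h3 : α 146 = true) (h4 : α 157 = true) : False :=
  rf h true 0 3 2 179 161 146 157 (by decide +kernel) h1 h2 h3 h4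

theorem c2543 (h : Good α) (h1 : α 146 = false) (h2 : α 157 = false) (h3 : α 257 = false) (h4 : α 273 = false) : False :=
  rf h false 0 3 1 146 157 257 273 (by decide +kernel) h1 h2 h3 h4

theorem c2544 (h : Good α) (h1 : α 146 = true) (h2 : α 157 = true) (h3 : α 257 = true) (h4 : α 273 = true) : False :=
  rf h true 0 3 1 146 157 257 273 (by decide +kernel) h1 h2 h3 h4

theorem c2545 (h : Good α) (h1 : α 146 = true) (h2 : α 157 = true) (h3 : α 451 = true) (h4 : α 462 = true) : False :=
  rf h true 0 3 2 146 157 451 462 (by decide +kernel) h1 h2 h3 h4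

theorem c2546 (h : Good α) (h1 : α 197 = false) (h2 : α 146 = false) (h3 : α 195 = false) : False :=
  af h false 2 197 146 195 (by decide +kernel) h1 h2 h3

theorem c2547 (h : Good α) (h1 : α 197 = true) (h2 : α 146 = true) (h3 : α 195 = true) : False :=
  af h true 2 197 146 195 (by decide +kernel) h1 h2 h3

theorem c2548 (h : Good α) (h1 : α 327 = false) (h2 : α 197 = false) (h3 : α 146 = false) : False :=
  af h false 2 327 197 146 (by decide +kernel) h1 h2 h3

theorem c2549 (h : Good α) (h1 : α 327 = true) (h2 : α 197 = true) (h3 : α 146 = true) : False :=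
  af h true 2 327 197 146 (by decide +kernel) h1 h2 h3

theorem c2550 (h : Good α) (h1 : α 471 = true) (h2 : α 253 = true) (h3 : α 146 = true) : False :=
  af h true 1 471 253 146 (by decide +kernel) h1 h2 h3

theorem c2551 (h : Good α) (h1 : α 326 = true) (h2 : α 146 = true) (h3 : α 423 = true) (h4 : α 257 = true) : False :=
  rf h true 0 1 1 326 146 423 257 (by decide +kernel) h1 h2 h3 h4

theorem c2552 (h : Good α) (h1 : α 146 = true) (h2 : α 334 = true) (h3 : α 257 = true) (h4 : α 430 = true) : False :=
  rf h true 0 4 1 146 334 257 430 (by decide +kernel) h1 h2 h3 h4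

theorem c2553 (h : Good α) (h1 : α 146 = false) (h2 : α 257 = false) (h3 : α 451 = false) : False :=
  af h false 3 146 257 451 (by decide +kernel) h1 h2 h3

theorem c2554 (h : Good α) (h1 : α 146 = true) (h2 : α 257 = true) (h3 : α 451 = true) : False :=
  af h true 3 146 257 451 (by decide +kernel) h1 h2 h3

theorem c2555 (h : Good α) (h1 : α 146 = false) (h2 : α 313 = false) (h3 : α 336 = false) (h4 : α 488 = false) : False :=
  rf h false 2 2 1 146 313 336 488 (by decide +kernel) h1 h2 h3 h4

theorem c2556 (h : Good α) (h1 : α 146 = true) (h2 : α 336 = true) (h3 : α 574 = true) : False :=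
  af h true 5 146 336 574 (by decide +kernel) h1 h2 h3

end Q110.RC
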