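import Pool.Agent.Q110.RC.Base

/-! # Generated part of the refutation used for `S(4)` -/

set_option linter.all false

namespace Q110.RC

variable {α : Nat → Bool}

theorem c2557 (h : Good α) (h1 : α 160 = true) (h2 : α 152 = true) (h3 : α 176 = true) (h4 : α 147 = true) : False :=
  rf h true 2 2 3 160 152 176 147 (by decide +kernel) h1 h2 h3 h4

theorem c2558 (h : Good α) (h1 : α 271 = true) (h2 : α 155 = true) (h3 : α 259 = true) (h4 : α 147 = true) : False :=
  rf h true 0 1 3 271 155 259 147 (by decide +kernel) h1 h2 h3 h4

theorem c2559 (h : Good α) (h1 : α 193 = false) (h2 : α 147 = false) (h3 : α 201 = false) : False :=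
  af h false 1 193 147 201 (by decide +kernel) h1 h2 h3

theorem c2560 (h : Good α) (h1 : α 193 = true) (h2 : α 147 = true) (h3 : α 201 = true) : False :=
  af h true 1 193 147 201 (by decide +kernel) h1 h2 h3

theorem c2561 (h : Good α) (h1 : α 457 = false) (h2 : α 259 = false) (h3 : α 147 = false) : False :=
  af h false 0 457 259 147 (by decide +kernel) h1 h2 h3

theorem c2562 (h : Good α) (h1 : α 147 = true) (h2 : α 268 = true) (h3 : α 468 = true) : False :=
  af h true 2 147 268 468 (by decide +kernel) h1 h2 h3

theorem c2563 (h : Good α) (h1 : α 269 = true) (h2 : α 148 = true) (h3 : α 254 = true) (h4 : α 151 = true) : False :=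
  rf h true 2 1 3 269 148 254 151 (by decide +kernel) h1 h2 h3 h4

theorem c2564 (h : Good α) (h1 : α 148 = true) (h2 : α 262 = true) (h3 : α 156 = true) (h4 : α 274 = true) : False :=
  rf h true 0 1 3 148 262 156 274 (by decide +kernel) h1 h2 h3 h4

theorem c2565 (h : Good α) (h1 : α 200 = false) (h2 : α 148 = false) (h3 : α 194 = false) : False :=
  af h false 1 200 148 194 (by decide +kernel) h1 h2 h3

theorem c2566 (h : Good α) (h1 : α 200 = true) (h2 : α 148 = true) (h3 : α 194 = true) : False :=
  af h true 1 200 148 194 (by decide +kernel) h1 h2 h3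

theorem c2567 (h : Good α) (h1 : α 148 = false) (h2 : α 194 = false) (h3 : α 321 = false) : False :=
  af h false 1 148 194 321 (by decide +kernel) h1 h2 h3

theorem c2568 (h : Good α) (h1 : α 330 = true) (h2 : α 200 = true) (h3 : α 148 = true) : False :=
  af h true 1 330 200 148 (by decide +kernel) h1 h2 h3

theorem c2569 (h : Good α) (h1 : α 148 = false) (h2 : α 262 = false) (h3 : α 458 = false) : False :=
  af h false 0 148 262 458 (by decide +kernel) h1 h2 h3

theorem c2570 (h : Good α) (h1 : α 148 = true) (h2 : α 262 = true) (h3 : α 458 = true) : False :=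
  af h true 0 148 262 458 (by decide +kernel) h1 h2 h3

theorem c2571 (h : Good α) (h1 : α 269 = true) (h2 : α 148 = true) (h3 : α 420 = true) (h4 : α 316 = true) : False :=
  rf h true 2 1 4 269 148 420 316 (by decide +kernel) h1 h2 h3 h4

theorem c2572 (h : Good α) (h1 : α 573 = true) (h2 : α 342 = true) (h3 : α 148 = true) : False :=
  af h true 4 573 342 148 (by decide +kernel) h1 h2 h3

theorem c2573 (h : Good α) (h1 : α 196 = false) (h2 : α 149 = false) (h3 : α 204 = false) : False :=
  af h false 2 196 149 204 (by decide +kernel) h1 h2 h3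

theorem c2574 (h : Good α) (h1 : α 324 = false) (h2 : α 196 = false) (h3 : α 149 = false) : False :=
  af h false 2 324 196 149 (by decide +kernel) h1 h2 h3

theorem c2575 (h : Good α) (h1 : α 377 = false) (h2 : α 337 = false) (h3 : α 196 = false) (h4 : α 149 = false) : False :=
  rf h false 2 1 1 377 337 196 149 (by decide +kernel) h1 h2 h3 h4

theorem c2576 (h : Good α) (h1 : α 149 = false) (h2 : α 204 = false) (h3 : α 334 = false) : False :=
  af h false 2 149 204 334 (by decide +kernel) h1 h2 h3

theorem c2577 (h : Good α) (h1 : α 337 = false) (h2 : α 391 = false) (h3 : α 149 = false) (h4 : α 204 = false) : False :=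
  rf h false 2 1 1 337 391 149 204 (by decide +kernel) h1 h2 h3 h4

theorem c2578 (h : Good α) (h1 : α 149 = false) (h2 : α 256 = false) (h3 : α 313 = false) (h4 : α 411 = false) : False :=
  rf h false 1 1 4 149 256 313 411 (by decide +kernel) h1 h2 h3 h4

theorem c2579 (h : Good α) (h1 : α 149 = false) (h2 : α 256 = false) (h3 : α 474 = false) : False :=
  af h false 1 149 256 474 (by decide +kernel) h1 h2 h3

theorem c2580 (h : Good α) (h1 : α 429 = false) (h2 : α 264 = false) (h3 : α 327 = false) (h4 : α 149 = false) : False :=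
  rf h false 0 4 1 429 264 327 149 (by decide +kernel) h1 h2 h3 h4

theorem c2581 (h : Good α) (h1 : α 264 = false) (h2 : α 424 = false) (h3 : α 149 = false) (h4 : α 335 = false) : False :=
  rf h false 0 1 1 264 424 149 335 (by decide +kernel) h1 h2 h3 h4

theorem c2582 (h : Good α) (h1 : α 452 = false) (h2 : α 264 = false) (h3 : α 149 = false) : False :=
  af h false 3 452 264 149 (by decide +kernel) h1 h2 h3

theorem c2583 (h : Good α) (h1 : α 149 = false) (h2 : α 335 = false) (h3 : α 542 = false) : False :=
  af h false 0 149 335 542 (by decide +kernel) h1 h2 h3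

theorem c2584 (h : Good α) (h1 : α 575 = false) (h2 : α 337 = false) (h3 : α 149 = false) : False :=
  af h false 5 575 337 149 (by decide +kernel) h1 h2 h3

theorem c2585 (h : Good α) (h1 : α 175 = true) (h2 : α 167 = true) (h3 : α 154 = true) (h4 : α 150 = true) : False :=
  rf h true 2 3 2 175 167 154 150 (by decide +kernel) h1 h2 h3 h4

theorem c2586 (h : Good α) (h1 : α 154 = true) (h2 : α 150 = true) (h3 : α 275 = true) (h4 : α 260 = true) : False :=
  rf h true 2 3 1 154 150 275 260 (by decide +kernel) h1 h2 h3 h4

theorem c2587 (h : Good α) (h1 : α 154 = true) (h2 : α 150 = true) (h3 : α 467 = true) (h4 : α 454 = true) : False :=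
  rf h true 2 3 2 154 150 467 454 (by decide +kernel) h1 h2 h3 h4

theorem c2588 (h : Good α) (h1 : α 195 = true) (h2 : α 150 = true) (h3 : α 202 = true) : False :=
  af h true 0 195 150 202 (by decide +kernel) h1 h2 h3

theorem c2589 (h : Good α) (h1 : α 195 = true) (h2 : α 150 = true) (h3 : α 380 = true) (h4 : α 340 = true) : False :=
  rf h true 0 1 1 195 150 380 340 (by decide +kernel) h1 h2 h3 h4

theorem c2590 (h : Good α) (h1 : α 150 = true) (h2 : α 202 = true) (h3 : α 333 = true) : False :=
  af h true 0 150 202 333 (by decide +kernel) h1 h2 h3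

theorem c2591 (h : Good α) (h1 : α 150 = true) (h2 : α 202 = true) (h3 : α 340 = true) (h4 : α 399 = true) : False :=
  rf h true 0 1 1 150 202 340 399 (by decide +kernel) h1 h2 h3 h4

theorem c2592 (h : Good α) (h1 : α 150 = true) (h2 : α 314 = true) (h3 : α 260 = true) (h4 : α 413 = true) : False :=
  rf h true 2 1 1 150 314 260 413 (by decide +kernel) h1 h2 h3 h4

theorem c2593 (h : Good α) (h1 : α 328 = true) (h2 : α 150 = true) (h3 : α 425 = true) (h4 : α 260 = true) : False :=
  rf h true 2 4 1 328 150 425 260 (by decide +kernel) h1 h2 h3 h4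

theorem c2594 (h : Good α) (h1 : α 150 = true) (h2 : α 260 = true) (h3 : α 454 = true) : False :=
  af h true 5 150 260 454 (by decide +kernel) h1 h2 h3

theorem c2595 (h : Good α) (h1 : α 150 = true) (h2 : α 267 = true) (h3 : α 464 = true) : False :=
  af h true 1 150 267 464 (by decide +kernel) h1 h2 h3

theorem c2596 (h : Good α) (h1 : α 312 = true) (h2 : α 150 = true) (h3 : α 487 = true) (h4 : α 340 = true) : False :=
  rf h true 0 2 1 312 150 487 340 (by decide +kernel) h1 h2 h3 h4

theorem c2597 (h : Good α) (h1 : α 150 = true) (h2 : α 340 = true) (h3 : α 576 = true) : False :=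
  af h true 3 150 340 576 (by decide +kernel) h1 h2 h3

theorem c2598 (h : Good α) (h1 : α 169 = true) (h2 : α 172 = true) (h3 : α 151 = true) (h4 : α 156 = true) : False :=
  rf h true 1 3 2 169 172 151 156 (by decide +kernel) h1 h2 h3 h4

theorem c2599 (h : Good α) (h1 : α 151 = true) (h2 : α 156 = true) (h3 : α 258 = true) (h4 : α 265 = true) : False :=
  rf h true 1 3 1 151 156 258 265 (by decide +kernel) h1 h2 h3 h4

theorem c2600 (h : Good α) (h1 : α 338 = false) (h2 : α 151 = false) (h3 : α 381 = false) (h4 : α 193 = false) : False :=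
  rf h false 0 1 1 338 151 381 193 (by decide +kernel) h1 h2 h3 h4

theorem c2601 (h : Good α) (h1 : α 393 = false) (h2 : α 198 = false) (h3 : α 338 = false) (h4 : α 151 = false) : False :=
  rf h false 0 1 1 393 198 338 151 (by decide +kernel) h1 h2 h3 h4

theorem c2602 (h : Good α) (h1 : α 460 = true) (h2 : α 254 = true) (h3 : α 151 = true) : False :=
  af h true 2 460 254 151 (by decide +kernel) h1 h2 h3

theorem c2603 (h : Good α) (h1 : α 151 = true) (h2 : α 258 = true) (h3 : α 453 = true) : False :=
  af h true 4 151 258 453 (by decide +kernel) h1 h2 h3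

theorem c2604 (h : Good α) (h1 : α 338 = false) (h2 : α 151 = false) (h3 : α 489 = false) (h4 : α 317 = false) : False :=
  rf h false 0 1 2 338 151 489 317 (by decide +kernel) h1 h2 h3 h4

theorem c2605 (h : Good α) (h1 : α 578 = false) (h2 : α 338 = false) (h3 : α 151 = false) : False :=
  af h false 0 578 338 151 (by decide +kernel) h1 h2 h3

theorem c2606 (h : Good α) (h1 : α 578 = true) (h2 : α 338 = true) (h3 : α 151 = true) : False :=
  af h true 0 578 338 151 (by decide +kernel) h1 h2 h3

theorem c2607 (h : Good α) (h1 : α 266 = true) (h2 : α 263 = true) (h3 : α 155 = true) (h4 : α 152 = true) : False :=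
  rf h true 1 3 1 266 263 155 152 (by decide +kernel) h1 h2 h3 h4

theorem c2608 (h : Good α) (h1 : α 194 = true) (h2 : α 152 = true) (h3 : α 203 = true) : False :=
  af h true 3 194 152 203 (by decide +kernel) h1 h2 h3

theorem c2609 (h : Good α) (h1 : α 320 = false) (h2 : α 194 = false) (h3 : α 152 = false) : False :=
  af h false 3 320 194 152 (by decide +kernel) h1 h2 h3

theorem c2610 (h : Good α) (h1 : α 320 = true) (h2 : α 194 = true) (h3 : α 152 = true) : False :=
  af h true 3 320 194 152 (by decide +kernel) h1 h2 h3

theorem c2611 (h : Good α) (h1 : α 194 = true) (h2 : α 382 = true) (h3 : α 152 = true) (h4 : α 343 = true) : False :=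
  rf h true 0 1 1 194 382 152 343 (by decide +kernel) h1 h2 h3 h4

theorem c2612 (h : Good α) (h1 : α 152 = false) (h2 : α 203 = false) (h3 : α 332 = false) : False :=
  af h false 3 152 203 332 (by decide +kernel) h1 h2 h3

theorem c2613 (h : Good α) (h1 : α 428 = true) (h2 : α 263 = true) (h3 : α 329 = true) (h4 : α 152 = true) : False :=
  rf h true 1 4 1 428 263 329 152 (by decide +kernel) h1 h2 h3 h4

theorem c2614 (h : Good α) (h1 : α 152 = true) (h2 : α 343 = true) (h3 : α 579 = true) : False :=
  af h true 0 152 343 579 (by decide +kernel) h1 h2 h3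

theorem c2615 (h : Good α) (h1 : α 153 = true) (h2 : α 157 = true) (h3 : α 168 = true) (h4 : α 178 = true) : False :=
  rf h true 2 3 2 153 157 168 178 (by decide +kernel) h1 h2 h3 h4

theorem c2616 (h : Good α) (h1 : α 261 = true) (h2 : α 276 = true) (h3 : α 153 = true) (h4 : α 157 = true) : False :=
  rf h true 2 3 1 261 276 153 157 (by decide +kernel) h1 h2 h3 h4

theorem c2617 (h : Good α) (h1 : α 455 = true) (h2 : α 470 = true) (h3 : α 153 = true) (h4 : α 157 = true) : False :=
  rf h true 2 3 2 455 470 153 157 (by decide +kernel) h1 h2 h3 h4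

theorem c2618 (h : Good α) (h1 : α 153 = true) (h2 : α 196 = true) (h3 : α 325 = true) : False :=
  af h true 0 153 196 325 (by decide +kernel) h1 h2 h3

theorem c2619 (h : Good α) (h1 : α 341 = false) (h2 : α 383 = false) (h3 : α 153 = false) (h4 : α 196 = false) : False :=
  rf h false 0 1 1 341 383 153 196 (by decide +kernel) h1 h2 h3 h4

theorem c2620 (h : Good α) (h1 : α 328 = false) (h2 : α 199 = false) (h3 : α 153 = false) : False :=
  af h false 0 328 199 153 (by decide +kernel) h1 h2 h3

theorem c2621 (h : Good α) (h1 : α 455 = true) (h2 : α 261 = true) (h3 : α 153 = true) : False :=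
  af h true 5 455 261 153 (by decide +kernel) h1 h2 h3

theorem c2622 (h : Good α) (h1 : α 270 = true) (h2 : α 153 = true) (h3 : α 410 = true) (h4 : α 312 = true) : False :=
  rf h true 1 1 4 270 153 410 312 (by decide +kernel) h1 h2 h3 h4

theorem c2623 (h : Good α) (h1 : α 465 = true) (h2 : α 270 = true) (h3 : α 153 = true) : False :=
  af h true 1 465 270 153 (by decide +kernel) h1 h2 h3

theorem c2624 (h : Good α) (h1 : α 341 = false) (h2 : α 494 = false) (h3 : α 153 = false) (h4 : α 325 = false) : False :=
  rf h false 0 2 1 341 494 153 325 (by decide +kernel) h1 h2 h3 h4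

theorem c2625 (h : Good α) (h1 : α 341 = true) (h2 : α 494 = true) (h3 : α 153 = true) (h4 : α 325 = true) : False :=
  rf h true 0 2 1 341 494 153 325 (by decide +kernel) h1 h2 h3 h4

theorem c2626 (h : Good α) (h1 : α 505 = false) (h2 : α 341 = false) (h3 : α 328 = false) (h4 : α 153 = false) : False :=
  rf h false 0 2 1 505 341 328 153 (by decide +kernel) h1 h2 h3 h4

theorem c2627 (h : Good α) (h1 : α 505 = true) (h2 : α 341 = true) (h3 : α 328 = true) (h4 : α 153 = true) : False :=
  rf h true 0 2 1 505 341 328 153 (by decide +kernel) h1 h2 h3 h4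

theorem c2628 (h : Good α) (h1 : α 577 = true) (h2 : α 341 = true) (h3 : α 153 = true) : False :=
  af h true 3 577 341 153 (by decide +kernel) h1 h2 h3

theorem c2629 (h : Good α) (h1 : α 199 = true) (h2 : α 154 = true) (h3 : α 197 = true) : False :=
  af h true 4 199 154 197 (by decide +kernel) h1 h2 h3

theorem c2630 (h : Good α) (h1 : α 154 = true) (h2 : α 197 = true) (h3 : α 326 = true) : False :=
  af h true 4 154 197 326 (by decide +kernel) h1 h2 h3

theorem c2631 (h : Good α) (h1 : α 346 = true) (h2 : α 154 = true) (h3 : α 392 = true) (h4 : α 197 = true) : False :=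
  rf h true 1 1 1 346 154 392 197 (by decide +kernel) h1 h2 h3 h4

theorem c2632 (h : Good α) (h1 : α 323 = true) (h2 : α 199 = true) (h3 : α 154 = true) : False :=
  af h true 4 323 199 154 (by decide +kernel) h1 h2 h3

theorem c2633 (h : Good α) (h1 : α 394 = true) (h2 : α 199 = true) (h3 : α 346 = true) (h4 : α 154 = true) : False :=
  rf h true 1 1 1 394 199 346 154 (by decide +kernel) h1 h2 h3 h4

theorem c2634 (h : Good α) (h1 : α 429 = true) (h2 : α 272 = true) (h3 : α 327 = true) (h4 : α 154 = true) : False :=
  rf h true 0 1 1 429 272 327 154 (by decide +kernel) h1 h2 h3 h4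

theorem c2635 (h : Good α) (h1 : α 272 = true) (h2 : α 424 = true) (h3 : α 154 = true) (h4 : α 335 = true) : False :=
  rf h true 0 4 1 272 424 154 335 (by decide +kernel) h1 h2 h3 h4

theorem c2636 (h : Good α) (h1 : α 459 = true) (h2 : α 272 = true) (h3 : α 154 = true) : False :=
  af h true 3 459 272 154 (by decide +kernel) h1 h2 h3

theorem c2637 (h : Good α) (h1 : α 154 = true) (h2 : α 314 = true) (h3 : α 275 = true) (h4 : α 413 = true) : False :=
  rf h true 2 4 1 154 314 275 413 (by decide +kernel) h1 h2 h3 h4

theorem c2638 (h : Good α) (h1 : α 328 = true) (h2 : α 154 = true) (h3 : α 425 = true) (h4 : α 275 = true) : False :=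
  rf h true 2 1 1 328 154 425 275 (by decide +kernel) h1 h2 h3 h4

theorem c2639 (h : Good α) (h1 : α 154 = true) (h2 : α 275 = true) (h3 : α 467 = true) : False :=
  af h true 5 154 275 467 (by decide +kernel) h1 h2 h3

theorem c2640 (h : Good α) (h1 : α 538 = true) (h2 : α 327 = true) (h3 : α 154 = true) : False :=
  af h true 0 538 327 154 (by decide +kernel) h1 h2 h3

theorem c2641 (h : Good α) (h1 : α 580 = true) (h2 : α 346 = true) (h3 : α 154 = true) : False :=
  af h true 1 580 346 154 (by decide +kernel) h1 h2 h3

theorem c2642 (h : Good α) (h1 : α 200 = false) (h2 : α 155 = false) (h3 : α 198 = false) : False :=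
  af h false 5 200 155 198 (by decide +kernel) h1 h2 h3

theorem c2643 (h : Good α) (h1 : α 466 = false) (h2 : α 266 = false) (h3 : α 155 = false) : False :=
  af h false 4 466 266 155 (by decide +kernel) h1 h2 h3

theorem c2644 (h : Good α) (h1 : α 203 = false) (h2 : α 156 = false) (h3 : α 201 = false) : False :=
  af h false 5 203 156 201 (by decide +kernel) h1 h2 h3

theorem c2645 (h : Good α) (h1 : α 203 = true) (h2 : α 156 = true) (h3 : α 201 = true) : False :=
  af h true 5 203 156 201 (by decide +kernel) h1 h2 h3

theorem c2646 (h : Good α) (h1 : α 156 = true) (h2 : α 345 = true) (h3 : α 201 = true) (h4 : α 387 = true) : False :=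
  rf h true 2 1 1 156 345 201 387 (by decide +kernel) h1 h2 h3 h4

theorem c2647 (h : Good α) (h1 : α 322 = false) (h2 : α 203 = false) (h3 : α 156 = false) : False :=
  af h false 5 322 203 156 (by decide +kernel) h1 h2 h3

theorem c2648 (h : Good α) (h1 : α 156 = false) (h2 : α 265 = false) (h3 : α 463 = false) : False :=
  af h false 4 156 265 463 (by decide +kernel) h1 h2 h3

theorem c2649 (h : Good α) (h1 : α 156 = false) (h2 : α 274 = false) (h3 : α 473 = false) : False :=
  af h false 0 156 274 473 (by decide +kernel) h1 h2 h3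

theorem c2650 (h : Good α) (h1 : α 156 = true) (h2 : α 274 = true) (h3 : α 473 = true) : False :=
  af h true 0 156 274 473 (by decide +kernel) h1 h2 h3

theorem c2651 (h : Good α) (h1 : α 204 = false) (h2 : α 157 = false) (h3 : α 202 = false) : False :=
  af h false 4 204 157 202 (by decide +kernel) h1 h2 h3

theorem c2652 (h : Good α) (h1 : α 204 = true) (h2 : α 157 = true) (h3 : α 202 = true) : False :=
  af h true 4 204 157 202 (by decide +kernel) h1 h2 h3

theorem c2653 (h : Good α) (h1 : α 157 = false) (h2 : α 202 = false) (h3 : α 314 = false) : False :=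
  af h false 4 157 202 314 (by decide +kernel) h1 h2 h3

theorem c2654 (h : Good α) (h1 : α 157 = false) (h2 : α 347 = false) (h3 : α 202 = false) (h4 : α 395 = false) : False :=
  rf h false 1 1 1 157 347 202 395 (by decide +kernel) h1 h2 h3 h4

theorem c2655 (h : Good α) (h1 : α 335 = true) (h2 : α 204 = true) (h3 : α 157 = true) : False :=
  af h true 4 335 204 157 (by decide +kernel) h1 h2 h3

theorem c2656 (h : Good α) (h1 : α 204 = true) (h2 : α 397 = true) (h3 : α 157 = true) (h4 : α 347 = true) : False :=
  rf h true 1 1 1 204 397 157 347 (by decide +kernel) h1 h2 h3 h4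

theorem c2657 (h : Good α) (h1 : α 326 = false) (h2 : α 157 = false) (h3 : α 423 = false) (h4 : α 273 = false) : False :=
  rf h false 0 4 1 326 157 423 273 (by decide +kernel) h1 h2 h3 h4

theorem c2658 (h : Good α) (h1 : α 326 = true) (h2 : α 157 = true) (h3 : α 423 = true) (h4 : α 273 = true) : False :=
  rf h true 0 4 1 326 157 423 273 (by decide +kernel) h1 h2 h3 h4

theorem c2659 (h : Good α) (h1 : α 157 = true) (h2 : α 334 = true) (h3 : α 273 = true) (h4 : α 430 = true) : False :=
  rf h true 0 1 1 157 334 273 430 (by decide +kernel) h1 h2 h3 h4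

theorem c2660 (h : Good α) (h1 : α 157 = false) (h2 : α 273 = false) (h3 : α 462 = false) : False :=
  af h false 3 157 273 462 (by decide +kernel) h1 h2 h3

theorem c2661 (h : Good α) (h1 : α 157 = true) (h2 : α 273 = true) (h3 : α 462 = true) : False :=
  af h true 3 157 273 462 (by decide +kernel) h1 h2 h3

theorem c2662 (h : Good α) (h1 : α 415 = true) (h2 : α 276 = true) (h3 : α 323 = true) (h4 : α 157 = true) : False :=
  rf h true 2 4 1 415 276 323 157 (by decide +kernel) h1 h2 h3 h4

theorem c2663 (h : Good α) (h1 : α 470 = true) (h2 : α 276 = true) (h3 : α 157 = true) : False :=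
  af h true 5 470 276 157 (by decide +kernel) h1 h2 h3

theorem c2664 (h : Good α) (h1 : α 157 = true) (h2 : α 347 = true) (h3 : α 314 = true) (h4 : α 497 = true) : False :=
  rf h true 1 1 2 157 347 314 497 (by decide +kernel) h1 h2 h3 h4

theorem c2665 (h : Good α) (h1 : α 157 = true) (h2 : α 333 = true) (h3 : α 540 = true) : False :=
  af h true 2 157 333 540 (by decide +kernel) h1 h2 h3

theorem c2666 (h : Good α) (h1 : α 157 = true) (h2 : α 347 = true) (h3 : α 581 = true) : False :=
  af h true 1 157 347 581 (by decide +kernel) h1 h2 h3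

theorem c2667 (h : Good α) (h1 : α 158 = false) (h2 : α 233 = false) (h3 : α 362 = false) (h4 : α 419 = false) : False :=
  rf h false 2 1 1 158 233 362 419 (by decide +kernel) h1 h2 h3 h4

theorem c2668 (h : Good α) (h1 : α 158 = false) (h2 : α 233 = false) (h3 : α 378 = false) : False :=
  af h false 2 158 233 378 (by decide +kernel) h1 h2 h3

theorem c2669 (h : Good α) (h1 : α 158 = true) (h2 : α 233 = true) (h3 : α 378 = true) : False :=
  af h true 2 158 233 378 (by decide +kernel) h1 h2 h3

theorem c2670 (h : Good α) (h1 : α 285 = false) (h2 : α 158 = false) (h3 : α 457 = false) (h4 : α 351 = false) : False :=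
  rf h false 1 1 1 285 158 457 351 (by decide +kernel) h1 h2 h3 h4

theorem c2671 (h : Good α) (h1 : α 285 = true) (h2 : α 158 = true) (h3 : α 457 = true) (h4 : α 351 = true) : False :=
  rf h true 1 1 1 285 158 457 351 (by decide +kernel) h1 h2 h3 h4

theorem c2672 (h : Good α) (h1 : α 467 = false) (h2 : α 285 = false) (h3 : α 158 = false) : False :=
  af h false 1 467 285 158 (by decide +kernel) h1 h2 h3

theorem c2673 (h : Good α) (h1 : α 467 = true) (h2 : α 285 = true) (h3 : α 158 = true) : False :=
  af h true 1 467 285 158 (by decide +kernel) h1 h2 h3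

theorem c2674 (h : Good α) (h1 : α 398 = false) (h2 : α 245 = false) (h3 : α 160 = false) : False :=
  af h false 1 398 245 160 (by decide +kernel) h1 h2 h3

theorem c2675 (h : Good α) (h1 : α 559 = false) (h2 : α 360 = false) (h3 : α 398 = false) (h4 : α 160 = false) : False :=
  rf h false 1 2 1 559 360 398 160 (by decide +kernel) h1 h2 h3 h4

theorem c2676 (h : Good α) (h1 : α 379 = false) (h2 : α 236 = false) (h3 : α 161 = false) : False :=
  af h false 2 379 236 161 (by decide +kernel) h1 h2 h3

theorem c2677 (h : Good α) (h1 : α 379 = true) (h2 : α 236 = true) (h3 : α 161 = true) : False :=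
  af h true 2 379 236 161 (by decide +kernel) h1 h2 h3

theorem c2678 (h : Good α) (h1 : α 161 = false) (h2 : α 288 = false) (h3 : α 470 = false) : False :=
  af h false 1 161 288 470 (by decide +kernel) h1 h2 h3

theorem c2679 (h : Good α) (h1 : α 390 = false) (h2 : α 237 = false) (h3 : α 162 = false) : False :=
  af h false 1 390 237 162 (by decide +kernel) h1 h2 h3

theorem c2680 (h : Good α) (h1 : α 163 = false) (h2 : α 277 = false) (h3 : α 451 = false) : False :=
  af h false 5 163 277 451 (by decide +kernel) h1 h2 h3

theorem c2681 (h : Good α) (h1 : α 452 = false) (h2 : α 280 = false) (h3 : α 164 = false) : False :=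
  af h false 5 452 280 164 (by decide +kernel) h1 h2 h3

theorem c2682 (h : Good α) (h1 : α 452 = true) (h2 : α 280 = true) (h3 : α 164 = true) : False :=
  af h true 5 452 280 164 (by decide +kernel) h1 h2 h3

theorem c2683 (h : Good α) (h1 : α 165 = true) (h2 : α 238 = true) (h3 : α 391 = true) : False :=
  af h true 1 165 238 391 (by decide +kernel) h1 h2 h3

theorem c2684 (h : Good α) (h1 : α 452 = false) (h2 : α 352 = false) (h3 : α 280 = false) (h4 : α 165 = false) : False :=
  rf h false 2 1 1 452 352 280 165 (by decide +kernel) h1 h2 h3 h4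

theorem c2685 (h : Good α) (h1 : α 466 = false) (h2 : α 280 = false) (h3 : α 165 = false) : False :=
  af h false 2 466 280 165 (by decide +kernel) h1 h2 h3

theorem c2686 (h : Good α) (h1 : α 166 = true) (h2 : α 230 = true) (h3 : α 380 = true) : False :=
  af h true 5 166 230 380 (by decide +kernel) h1 h2 h3

theorem c2687 (h : Good α) (h1 : α 166 = false) (h2 : α 282 = false) (h3 : α 461 = false) : False :=
  af h false 0 166 282 461 (by decide +kernel) h1 h2 h3

theorem c2688 (h : Good α) (h1 : α 382 = false) (h2 : α 241 = false) (h3 : α 167 = false) : False :=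
  af h false 4 382 241 167 (by decide +kernel) h1 h2 h3

theorem c2689 (h : Good α) (h1 : α 167 = true) (h2 : α 349 = true) (h3 : α 282 = true) (h4 : α 461 = true) : False :=
  rf h true 0 1 1 167 349 282 461 (by decide +kernel) h1 h2 h3 h4

theorem c2690 (h : Good α) (h1 : α 167 = false) (h2 : α 282 = false) (h3 : α 464 = false) : False :=
  af h false 3 167 282 464 (by decide +kernel) h1 h2 h3

theorem c2691 (h : Good α) (h1 : α 382 = false) (h2 : α 552 = false) (h3 : α 167 = false) (h4 : α 359 = false) : False :=
  rf h false 1 1 2 382 552 167 359 (by decide +kernel) h1 h2 h3 h4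

theorem c2692 (h : Good α) (h1 : α 168 = true) (h2 : α 240 = true) (h3 : α 381 = true) : False :=
  af h true 4 168 240 381 (by decide +kernel) h1 h2 h3

theorem c2693 (h : Good α) (h1 : α 465 = false) (h2 : α 283 = false) (h3 : α 168 = false) : False :=
  af h false 3 465 283 168 (by decide +kernel) h1 h2 h3

theorem c2694 (h : Good α) (h1 : α 465 = true) (h2 : α 283 = true) (h3 : α 168 = true) : False :=
  af h true 3 465 283 168 (by decide +kernel) h1 h2 h3

theorem c2695 (h : Good α) (h1 : α 170 = false) (h2 : α 278 = false) (h3 : α 454 = false) : False :=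
  af h false 3 170 278 454 (by decide +kernel) h1 h2 h3

theorem c2696 (h : Good α) (h1 : α 170 = true) (h2 : α 278 = true) (h3 : α 454 = true) : False :=
  af h true 3 170 278 454 (by decide +kernel) h1 h2 h3

theorem c2697 (h : Good α) (h1 : α 171 = true) (h2 : α 252 = true) (h3 : α 396 = true) : False :=
  af h true 2 171 252 396 (by decide +kernel) h1 h2 h3

theorem c2698 (h : Good α) (h1 : α 377 = false) (h2 : α 232 = false) (h3 : α 172 = false) : False :=
  af h false 3 377 232 172 (by decide +kernel) h1 h2 h3

theorem c2699 (h : Good α) (h1 : α 173 = false) (h2 : α 249 = false) (h3 : α 392 = false) : False :=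
  af h false 5 173 249 392 (by decide +kernel) h1 h2 h3

theorem c2700 (h : Good α) (h1 : α 173 = true) (h2 : α 249 = true) (h3 : α 392 = true) : False :=
  af h true 5 173 249 392 (by decide +kernel) h1 h2 h3

theorem c2701 (h : Good α) (h1 : α 459 = false) (h2 : α 286 = false) (h3 : α 353 = false) (h4 : α 173 = false) : False :=
  rf h false 1 1 1 459 286 353 173 (by decide +kernel) h1 h2 h3 h4

theorem c2702 (h : Good α) (h1 : α 459 = true) (h2 : α 286 = true) (h3 : α 353 = true) (h4 : α 173 = true) : False :=
  rf h true 1 1 1 459 286 353 173 (by decide +kernel) h1 h2 h3 h4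

theorem c2703 (h : Good α) (h1 : α 174 = false) (h2 : α 287 = false) (h3 : α 468 = false) : False :=
  af h false 4 174 287 468 (by decide +kernel) h1 h2 h3

theorem c2704 (h : Good α) (h1 : α 369 = false) (h2 : α 414 = false) (h3 : α 175 = false) (h4 : α 235 = false) : False :=
  rf h false 0 1 1 369 414 175 235 (by decide +kernel) h1 h2 h3 h4

theorem c2705 (h : Good α) (h1 : α 175 = false) (h2 : α 235 = false) (h3 : α 389 = false) : False :=
  af h false 0 175 235 389 (by decide +kernel) h1 h2 h3

theorem c2706 (h : Good α) (h1 : α 175 = true) (h2 : α 235 = true) (h3 : α 389 = true) : False :=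
  af h true 0 175 235 389 (by decide +kernel) h1 h2 h3

theorem c2707 (h : Good α) (h1 : α 459 = false) (h2 : α 286 = false) (h3 : α 175 = false) : False :=
  af h false 1 459 286 175 (by decide +kernel) h1 h2 h3

theorem c2708 (h : Good α) (h1 : α 459 = true) (h2 : α 286 = true) (h3 : α 175 = true) : False :=
  af h true 1 459 286 175 (by decide +kernel) h1 h2 h3

theorem c2709 (h : Good α) (h1 : α 394 = false) (h2 : α 243 = false) (h3 : α 176 = false) : False :=
  af h false 3 394 243 176 (by decide +kernel) h1 h2 h3

theorem c2710 (h : Good α) (h1 : α 394 = true) (h2 : α 243 = true) (h3 : α 176 = true) : False :=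
  af h true 3 394 243 176 (by decide +kernel) h1 h2 h3

theorem c2711 (h : Good α) (h1 : α 176 = false) (h2 : α 285 = false) (h3 : α 457 = false) : False :=
  af h false 4 176 285 457 (by decide +kernel) h1 h2 h3

theorem c2712 (h : Good α) (h1 : α 176 = true) (h2 : α 285 = true) (h3 : α 457 = true) : False :=
  af h true 4 176 285 457 (by decide +kernel) h1 h2 h3

theorem c2713 (h : Good α) (h1 : α 384 = false) (h2 : α 234 = false) (h3 : α 178 = false) : False :=
  af h false 0 384 234 178 (by decide +kernel) h1 h2 h3

theorem c2714 (h : Good α) (h1 : α 386 = false) (h2 : α 239 = false) (h3 : α 179 = false) : False :=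
  af h false 4 386 239 179 (by decide +kernel) h1 h2 h3

theorem c2715 (h : Good α) (h1 : α 386 = true) (h2 : α 239 = true) (h3 : α 179 = true) : False :=
  af h true 4 386 239 179 (by decide +kernel) h1 h2 h3

theorem c2716 (h : Good α) (h1 : α 179 = false) (h2 : α 281 = false) (h3 : α 471 = false) : False :=
  af h false 5 179 281 471 (by decide +kernel) h1 h2 h3

theorem c2717 (h : Good α) (h1 : α 180 = false) (h2 : α 242 = false) (h3 : α 387 = false) : False :=
  af h false 4 180 242 387 (by decide +kernel) h1 h2 h3

theorem c2718 (h : Good α) (h1 : α 180 = true) (h2 : α 242 = true) (h3 : α 387 = true) : False :=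
  af h true 4 180 242 387 (by decide +kernel) h1 h2 h3

theorem c2719 (h : Good α) (h1 : α 284 = false) (h2 : α 473 = false) (h3 : α 180 = false) (h4 : α 354 = false) : False :=
  rf h false 2 1 1 284 473 180 354 (by decide +kernel) h1 h2 h3 h4

theorem c2720 (h : Good α) (h1 : α 474 = false) (h2 : α 284 = false) (h3 : α 180 = false) : False :=
  af h false 5 474 284 180 (by decide +kernel) h1 h2 h3

theorem c2721 (h : Good α) (h1 : α 474 = true) (h2 : α 284 = true) (h3 : α 180 = true) : False :=
  af h true 5 474 284 180 (by decide +kernel) h1 h2 h3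

theorem c2722 (h : Good α) (h1 : α 258 = false) (h2 : α 181 = false) (h3 : α 183 = false) : False :=
  af h false 1 258 181 183 (by decide +kernel) h1 h2 h3

theorem c2723 (h : Good α) (h1 : α 258 = true) (h2 : α 181 = true) (h3 : α 183 = true) : False :=
  af h true 1 258 181 183 (by decide +kernel) h1 h2 h3

theorem c2724 (h : Good α) (h1 : α 181 = false) (h2 : α 183 = false) (h3 : α 265 = false) : False :=
  af h false 1 181 183 265 (by decide +kernel) h1 h2 h3

theorem c2725 (h : Good α) (h1 : α 181 = true) (h2 : α 183 = true) (h3 : α 265 = true) : False :=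
  af h true 1 181 183 265 (by decide +kernel) h1 h2 h3

theorem c2726 (h : Good α) (h1 : α 181 = true) (h2 : α 183 = true) (h3 : α 376 = true) (h4 : α 380 = true) : False :=
  rf h true 1 1 1 181 183 376 380 (by decide +kernel) h1 h2 h3 h4

theorem c2727 (h : Good α) (h1 : α 191 = false) (h2 : α 181 = false) (h3 : α 260 = false) : False :=
  af h false 2 191 181 260 (by decide +kernel) h1 h2 h3

theorem c2728 (h : Good α) (h1 : α 191 = true) (h2 : α 181 = true) (h3 : α 260 = true) : False :=
  af h true 2 191 181 260 (by decide +kernel) h1 h2 h3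

theorem c2729 (h : Good α) (h1 : α 275 = false) (h2 : α 191 = false) (h3 : α 181 = false) : False :=
  af h false 2 275 191 181 (by decide +kernel) h1 h2 h3

theorem c2730 (h : Good α) (h1 : α 275 = true) (h2 : α 191 = true) (h3 : α 181 = true) : False :=
  af h true 2 275 191 181 (by decide +kernel) h1 h2 h3

theorem c2731 (h : Good α) (h1 : α 181 = false) (h2 : α 260 = false) (h3 : α 384 = false) (h4 : α 454 = false) : False :=
  rf h false 2 1 1 181 260 384 454 (by decide +kernel) h1 h2 h3 h4

theorem c2732 (h : Good α) (h1 : α 181 = false) (h2 : α 260 = false) (h3 : α 413 = false) : False :=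
  af h false 2 181 260 413 (by decide +kernel) h1 h2 h3

theorem c2733 (h : Good α) (h1 : α 181 = true) (h2 : α 260 = true) (h3 : α 413 = true) : False :=
  af h true 2 181 260 413 (by decide +kernel) h1 h2 h3

theorem c2734 (h : Good α) (h1 : α 181 = false) (h2 : α 265 = false) (h3 : α 376 = false) (h4 : α 463 = false) : False :=
  rf h false 1 2 1 181 265 376 463 (by decide +kernel) h1 h2 h3 h4

theorem c2735 (h : Good α) (h1 : α 275 = false) (h2 : α 181 = false) (h3 : α 467 = false) (h4 : α 384 = false) : False :=
  rf h false 2 2 1 275 181 467 384 (by decide +kernel) h1 h2 h3 h4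

theorem c2736 (h : Good α) (h1 : α 555 = false) (h2 : α 336 = false) (h3 : α 181 = false) : False :=
  af h false 0 555 336 181 (by decide +kernel) h1 h2 h3

theorem c2737 (h : Good α) (h1 : α 555 = true) (h2 : α 336 = true) (h3 : α 181 = true) : False :=
  af h true 0 555 336 181 (by decide +kernel) h1 h2 h3

theorem c2738 (h : Good α) (h1 : α 181 = false) (h2 : α 339 = false) (h3 : α 561 = false) : False :=
  af h false 3 181 339 561 (by decide +kernel) h1 h2 h3

theorem c2739 (h : Good α) (h1 : α 181 = true) (h2 : α 339 = true) (h3 : α 561 = true) : False :=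
  af h true 3 181 339 561 (by decide +kernel) h1 h2 h3

theorem c2740 (h : Good α) (h1 : α 184 = true) (h2 : α 182 = true) (h3 : α 263 = true) : False :=
  af h true 1 184 182 263 (by decide +kernel) h1 h2 h3

theorem c2741 (h : Good α) (h1 : α 266 = false) (h2 : α 184 = false) (h3 : α 182 = false) : False :=
  af h false 1 266 184 182 (by decide +kernel) h1 h2 h3

theorem c2742 (h : Good α) (h1 : α 266 = true) (h2 : α 184 = true) (h3 : α 182 = true) : False :=
  af h true 1 266 184 182 (by decide +kernel) h1 h2 h3

theorem c2743 (h : Good α) (h1 : α 261 = false) (h2 : α 182 = false) (h3 : α 192 = false) : False :=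
  af h false 2 261 182 192 (by decide +kernel) h1 h2 h3

theorem c2744 (h : Good α) (h1 : α 182 = false) (h2 : α 192 = false) (h3 : α 276 = false) : False :=
  af h false 2 182 192 276 (by decide +kernel) h1 h2 h3

theorem c2745 (h : Good α) (h1 : α 342 = false) (h2 : α 482 = false) (h3 : α 182 = false) (h4 : α 337 = false) : False :=
  rf h false 0 1 1 342 482 182 337 (by decide +kernel) h1 h2 h3 h4

theorem c2746 (h : Good α) (h1 : α 182 = true) (h2 : α 337 = true) (h3 : α 557 = true) : False :=
  af h true 0 182 337 557 (by decide +kernel) h1 h2 h3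

theorem c2747 (h : Good α) (h1 : α 562 = false) (h2 : α 342 = false) (h3 : α 182 = false) : False :=
  af h false 3 562 342 182 (by decide +kernel) h1 h2 h3

theorem c2748 (h : Good α) (h1 : α 257 = false) (h2 : α 183 = false) (h3 : α 189 = false) : False :=
  af h false 0 257 183 189 (by decide +kernel) h1 h2 h3

theorem c2749 (h : Good α) (h1 : α 257 = true) (h2 : α 183 = true) (h3 : α 189 = true) : False :=
  af h true 0 257 183 189 (by decide +kernel) h1 h2 h3

theorem c2750 (h : Good α) (h1 : α 183 = false) (h2 : α 189 = false) (h3 : α 273 = false) : False :=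
  af h false 0 183 189 273 (by decide +kernel) h1 h2 h3

theorem c2751 (h : Good α) (h1 : α 183 = true) (h2 : α 189 = true) (h3 : α 273 = true) : False :=
  af h true 0 183 189 273 (by decide +kernel) h1 h2 h3

theorem c2752 (h : Good α) (h1 : α 222 = true) (h2 : α 183 = true) (h3 : α 372 = true) (h4 : α 339 = true) : False :=
  rf h true 2 3 1 222 183 372 339 (by decide +kernel) h1 h2 h3 h4

theorem c2753 (h : Good α) (h1 : α 222 = true) (h2 : α 183 = true) (h3 : α 585 = true) (h4 : α 560 = true) : False :=
  rf h true 2 3 2 222 183 585 560 (by decide +kernel) h1 h2 h3 h4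

theorem c2754 (h : Good α) (h1 : α 257 = false) (h2 : α 183 = false) (h3 : α 451 = false) (h4 : α 378 = false) : False :=
  rf h false 0 1 1 257 183 451 378 (by decide +kernel) h1 h2 h3 h4

theorem c2755 (h : Good α) (h1 : α 257 = true) (h2 : α 183 = true) (h3 : α 451 = true) (h4 : α 378 = true) : False :=
  rf h true 0 1 1 257 183 451 378 (by decide +kernel) h1 h2 h3 h4

theorem c2756 (h : Good α) (h1 : α 423 = false) (h2 : α 257 = false) (h3 : α 183 = false) : False :=
  af h false 0 423 257 183 (by decide +kernel) h1 h2 h3

theorem c2757 (h : Good α) (h1 : α 423 = true) (h2 : α 257 = true) (h3 : α 183 = true) : False :=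
  af h true 0 423 257 183 (by decide +kernel) h1 h2 h3

theorem c2758 (h : Good α) (h1 : α 183 = false) (h2 : α 265 = false) (h3 : α 427 = false) : False :=
  af h false 1 183 265 427 (by decide +kernel) h1 h2 h3

theorem c2759 (h : Good α) (h1 : α 183 = false) (h2 : α 273 = false) (h3 : α 378 = false) (h4 : α 462 = false) : False :=
  rf h false 0 2 1 183 273 378 462 (by decide +kernel) h1 h2 h3 h4

theorem c2760 (h : Good α) (h1 : α 183 = true) (h2 : α 273 = true) (h3 : α 378 = true) (h4 : α 462 = true) : False :=
  rf h true 0 2 1 183 273 378 462 (by decide +kernel) h1 h2 h3 h4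

theorem c2761 (h : Good α) (h1 : α 183 = true) (h2 : α 340 = true) (h3 : α 339 = true) (h4 : α 478 = true) : False :=
  rf h true 2 1 1 183 340 339 478 (by decide +kernel) h1 h2 h3 h4

theorem c2762 (h : Good α) (h1 : α 183 = false) (h2 : α 339 = false) (h3 : α 560 = false) : False :=
  af h false 5 183 339 560 (by decide +kernel) h1 h2 h3

theorem c2763 (h : Good α) (h1 : α 183 = false) (h2 : α 340 = false) (h3 : α 558 = false) : False :=
  af h false 2 183 340 558 (by decide +kernel) h1 h2 h3

theorem c2764 (h : Good α) (h1 : α 183 = true) (h2 : α 340 = true) (h3 : α 558 = true) : False :=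
  af h true 2 183 340 558 (by decide +kernel) h1 h2 h3

theorem c2765 (h : Good α) (h1 : α 188 = false) (h2 : α 184 = false) (h3 : α 264 = false) : False :=
  af h false 0 188 184 264 (by decide +kernel) h1 h2 h3

theorem c2766 (h : Good α) (h1 : α 188 = true) (h2 : α 184 = true) (h3 : α 264 = true) : False :=
  af h true 0 188 184 264 (by decide +kernel) h1 h2 h3

theorem c2767 (h : Good α) (h1 : α 272 = false) (h2 : α 188 = false) (h3 : α 184 = false) : False :=
  af h false 0 272 188 184 (by decide +kernel) h1 h2 h3

theorem c2768 (h : Good α) (h1 : α 379 = true) (h2 : α 452 = true) (h3 : α 184 = true) (h4 : α 264 = true) : False :=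
  rf h true 0 1 1 379 452 184 264 (by decide +kernel) h1 h2 h3 h4

theorem c2769 (h : Good α) (h1 : α 184 = true) (h2 : α 264 = true) (h3 : α 424 = true) : False :=
  af h true 0 184 264 424 (by decide +kernel) h1 h2 h3

theorem c2770 (h : Good α) (h1 : α 428 = true) (h2 : α 266 = true) (h3 : α 184 = true) : False :=
  af h true 1 428 266 184 (by decide +kernel) h1 h2 h3

theorem c2771 (h : Good α) (h1 : α 459 = false) (h2 : α 379 = false) (h3 : α 272 = false) (h4 : α 184 = false) : False :=
  rf h false 0 2 1 459 379 272 184 (by decide +kernel) h1 h2 h3 h4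

theorem c2772 (h : Good α) (h1 : α 559 = false) (h2 : α 341 = false) (h3 : α 184 = false) : False :=
  af h false 2 559 341 184 (by decide +kernel) h1 h2 h3

theorem c2773 (h : Good α) (h1 : α 185 = false) (h2 : α 187 = false) (h3 : α 253 = false) : False :=
  af h false 4 185 187 253 (by decide +kernel) h1 h2 h3

theorem c2774 (h : Good α) (h1 : α 185 = true) (h2 : α 187 = true) (h3 : α 253 = true) : False :=
  af h true 4 185 187 253 (by decide +kernel) h1 h2 h3

theorem c2775 (h : Good α) (h1 : α 188 = false) (h2 : α 185 = false) (h3 : α 254 = false) : False :=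
  af h false 5 188 185 254 (by decide +kernel) h1 h2 h3

theorem c2776 (h : Good α) (h1 : α 188 = true) (h2 : α 185 = true) (h3 : α 254 = true) : False :=
  af h true 5 188 185 254 (by decide +kernel) h1 h2 h3

theorem c2777 (h : Good α) (h1 : α 269 = false) (h2 : α 188 = false) (h3 : α 185 = false) : False :=
  af h false 5 269 188 185 (by decide +kernel) h1 h2 h3

theorem c2778 (h : Good α) (h1 : α 269 = true) (h2 : α 188 = true) (h3 : α 185 = true) : False :=
  af h true 5 269 188 185 (by decide +kernel) h1 h2 h3

theorem c2779 (h : Good α) (h1 : α 344 = true) (h2 : α 364 = true) (h3 : α 185 = true) (h4 : α 220 = true) : False :=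
  rf h true 0 3 1 344 364 185 220 (by decide +kernel) h1 h2 h3 h4

theorem c2780 (h : Good α) (h1 : α 564 = true) (h2 : α 583 = true) (h3 : α 185 = true) (h4 : α 220 = true) : False :=
  rf h true 0 3 2 564 583 185 220 (by decide +kernel) h1 h2 h3 h4

theorem c2781 (h : Good α) (h1 : α 394 = false) (h2 : α 185 = false) (h3 : α 460 = false) (h4 : α 254 = false) : False :=
  rf h false 2 1 1 394 185 460 254 (by decide +kernel) h1 h2 h3 h4

theorem c2782 (h : Good α) (h1 : α 185 = false) (h2 : α 254 = false) (h3 : α 420 = false) : False :=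
  af h false 5 185 254 420 (by decide +kernel) h1 h2 h3

theorem c2783 (h : Good α) (h1 : α 417 = false) (h2 : α 270 = false) (h3 : α 185 = false) : False :=
  af h false 4 417 270 185 (by decide +kernel) h1 h2 h3

theorem c2784 (h : Good α) (h1 : α 564 = false) (h2 : α 344 = false) (h3 : α 185 = false) : False :=
  af h false 3 564 344 185 (by decide +kernel) h1 h2 h3

theorem c2785 (h : Good α) (h1 : α 564 = true) (h2 : α 344 = true) (h3 : α 185 = true) : False :=
  af h true 3 564 344 185 (by decide +kernel) h1 h2 h3

theorem c2786 (h : Good α) (h1 : α 566 = false) (h2 : α 346 = false) (h3 : α 185 = false) : False :=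
  af h false 0 566 346 185 (by decide +kernel) h1 h2 h3

theorem c2787 (h : Good α) (h1 : α 255 = false) (h2 : α 186 = false) (h3 : α 189 = false) : False :=
  af h false 5 255 186 189 (by decide +kernel) h1 h2 h3

theorem c2788 (h : Good α) (h1 : α 255 = true) (h2 : α 186 = true) (h3 : α 189 = true) : False :=
  af h true 5 255 186 189 (by decide +kernel) h1 h2 h3

theorem c2789 (h : Good α) (h1 : α 186 = true) (h2 : α 189 = true) (h3 : α 268 = true) : False :=
  af h true 5 186 189 268 (by decide +kernel) h1 h2 h3

theorem c2790 (h : Good α) (h1 : α 256 = true) (h2 : α 190 = true) (h3 : α 186 = true) : False :=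
  af h true 4 256 190 186 (by decide +kernel) h1 h2 h3

theorem c2791 (h : Good α) (h1 : α 190 = false) (h2 : α 186 = false) (h3 : α 267 = false) : False :=
  af h false 4 190 186 267 (by decide +kernel) h1 h2 h3

theorem c2792 (h : Good α) (h1 : α 213 = true) (h2 : α 186 = true) (h3 : α 361 = true) (h4 : α 345 = true) : False :=
  rf h true 0 3 1 213 186 361 345 (by decide +kernel) h1 h2 h3 h4

theorem c2793 (h : Good α) (h1 : α 186 = false) (h2 : α 267 = false) (h3 : α 411 = false) : False :=
  af h false 4 186 267 411 (by decide +kernel) h1 h2 h3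

theorem c2794 (h : Good α) (h1 : α 187 = true) (h2 : α 191 = true) (h3 : α 259 = true) : False :=
  af h true 3 187 191 259 (by decide +kernel) h1 h2 h3

theorem c2795 (h : Good α) (h1 : α 271 = false) (h2 : α 187 = false) (h3 : α 191 = false) : False :=
  af h false 3 271 187 191 (by decide +kernel) h1 h2 h3

theorem c2796 (h : Good α) (h1 : α 271 = true) (h2 : α 187 = true) (h3 : α 191 = true) : False :=
  af h true 3 271 187 191 (by decide +kernel) h1 h2 h3

theorem c2797 (h : Good α) (h1 : α 369 = true) (h2 : α 207 = true) (h3 : α 346 = true) (h4 : α 187 = true) : False :=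
  rf h true 2 1 3 369 207 346 187 (by decide +kernel) h1 h2 h3 h4

theorem c2798 (h : Good α) (h1 : α 586 = true) (h2 : α 207 = true) (h3 : α 567 = true) (h4 : α 187 = true) : False :=
  rf h true 2 2 3 586 207 567 187 (by decide +kernel) h1 h2 h3 h4

theorem c2799 (h : Good α) (h1 : α 187 = true) (h2 : α 214 = true) (h3 : α 551 = true) (h4 : α 584 = true) : False :=
  rf h true 2 3 2 187 214 551 584 (by decide +kernel) h1 h2 h3 h4

theorem c2800 (h : Good α) (h1 : α 187 = false) (h2 : α 253 = false) (h3 : α 410 = false) : False :=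
  af h false 4 187 253 410 (by decide +kernel) h1 h2 h3

theorem c2801 (h : Good α) (h1 : α 187 = true) (h2 : α 253 = true) (h3 : α 410 = true) : False :=
  af h true 4 187 253 410 (by decide +kernel) h1 h2 h3

theorem c2802 (h : Good α) (h1 : α 392 = false) (h2 : α 187 = false) (h3 : α 457 = false) (h4 : α 259 = false) : False :=
  rf h false 0 1 2 392 187 457 259 (by decide +kernel) h1 h2 h3 h4

theorem c2803 (h : Good α) (h1 : α 431 = false) (h2 : α 271 = false) (h3 : α 187 = false) : False :=
  af h false 3 431 271 187 (by decide +kernel) h1 h2 h3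

theorem c2804 (h : Good α) (h1 : α 431 = true) (h2 : α 271 = true) (h3 : α 187 = true) : False :=
  af h true 3 431 271 187 (by decide +kernel) h1 h2 h3

theorem c2805 (h : Good α) (h1 : α 346 = false) (h2 : α 187 = false) (h3 : α 477 = false) (h4 : α 338 = false) : False :=
  rf h false 2 1 1 346 187 477 338 (by decide +kernel) h1 h2 h3 h4

theorem c2806 (h : Good α) (h1 : α 346 = true) (h2 : α 187 = true) (h3 : α 477 = true) (h4 : α 338 = true) : False :=
  rf h true 2 1 1 346 187 477 338 (by decide +kernel) h1 h2 h3 h4

theorem c2807 (h : Good α) (h1 : α 567 = false) (h2 : α 346 = false) (h3 : α 187 = false) : False :=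
  af h false 2 567 346 187 (by decide +kernel) h1 h2 h3

theorem c2808 (h : Good α) (h1 : α 567 = true) (h2 : α 346 = true) (h3 : α 187 = true) : False :=
  af h true 2 567 346 187 (by decide +kernel) h1 h2 h3

theorem c2809 (h : Good α) (h1 : α 344 = true) (h2 : α 188 = true) (h3 : α 367 = true) (h4 : α 205 = true) : False :=
  rf h true 1 1 3 344 188 367 205 (by decide +kernel) h1 h2 h3 h4

theorem c2810 (h : Good α) (h1 : α 568 = true) (h2 : α 188 = true) (h3 : α 588 = true) (h4 : α 205 = true) : False :=
  rf h true 1 2 3 568 188 588 205 (by decide +kernel) h1 h2 h3 h4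

theorem c2811 (h : Good α) (h1 : α 398 = true) (h2 : α 188 = true) (h3 : α 460 = true) (h4 : α 254 = true) : False :=
  rf h true 2 1 2 398 188 460 254 (by decide +kernel) h1 h2 h3 h4

theorem c2812 (h : Good α) (h1 : α 386 = true) (h2 : α 452 = true) (h3 : α 188 = true) (h4 : α 264 = true) : False :=
  rf h true 0 2 1 386 452 188 264 (by decide +kernel) h1 h2 h3 h4

theorem c2813 (h : Good α) (h1 : α 414 = false) (h2 : α 269 = false) (h3 : α 188 = false) : False :=
  af h false 5 414 269 188 (by decide +kernel) h1 h2 h3

theorem c2814 (h : Good α) (h1 : α 414 = true) (h2 : α 269 = true) (h3 : α 188 = true) : False :=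
  af h true 5 414 269 188 (by decide +kernel) h1 h2 h3

theorem c2815 (h : Good α) (h1 : α 459 = false) (h2 : α 386 = false) (h3 : α 272 = false) (h4 : α 188 = false) : False :=
  rf h false 0 1 1 459 386 272 188 (by decide +kernel) h1 h2 h3 h4

theorem c2816 (h : Good α) (h1 : α 429 = false) (h2 : α 272 = false) (h3 : α 188 = false) : False :=
  af h false 0 429 272 188 (by decide +kernel) h1 h2 h3

theorem c2817 (h : Good α) (h1 : α 484 = false) (h2 : α 341 = false) (h3 : α 344 = false) (h4 : α 188 = false) : False :=
  rf h false 1 1 1 484 341 344 188 (by decide +kernel) h1 h2 h3 h4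

theorem c2818 (h : Good α) (h1 : α 553 = false) (h2 : α 341 = false) (h3 : α 188 = false) : False :=
  af h false 4 553 341 188 (by decide +kernel) h1 h2 h3

theorem c2819 (h : Good α) (h1 : α 553 = true) (h2 : α 341 = true) (h3 : α 188 = true) : False :=
  af h true 4 553 341 188 (by decide +kernel) h1 h2 h3

theorem c2820 (h : Good α) (h1 : α 568 = true) (h2 : α 344 = true) (h3 : α 188 = true) : False :=
  af h true 1 568 344 188 (by decide +kernel) h1 h2 h3

theorem c2821 (h : Good α) (h1 : α 212 = true) (h2 : α 371 = true) (h3 : α 189 = true) (h4 : α 345 = true) : False :=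
  rf h true 1 1 3 212 371 189 345 (by decide +kernel) h1 h2 h3 h4

theorem c2822 (h : Good α) (h1 : α 257 = false) (h2 : α 189 = false) (h3 : α 451 = false) (h4 : α 387 = false) : False :=
  rf h false 0 2 1 257 189 451 387 (by decide +kernel) h1 h2 h3 h4

theorem c2823 (h : Good α) (h1 : α 189 = false) (h2 : α 273 = false) (h3 : α 387 = false) (h4 : α 462 = false) : False :=
  rf h false 0 1 1 189 273 387 462 (by decide +kernel) h1 h2 h3 h4

theorem c2824 (h : Good α) (h1 : α 189 = false) (h2 : α 273 = false) (h3 : α 430 = false) : False :=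
  af h false 0 189 273 430 (by decide +kernel) h1 h2 h3

theorem c2825 (h : Good α) (h1 : α 189 = true) (h2 : α 273 = true) (h3 : α 430 = true) : False :=
  af h true 0 189 273 430 (by decide +kernel) h1 h2 h3

theorem c2826 (h : Good α) (h1 : α 189 = false) (h2 : α 345 = false) (h3 : α 340 = false) (h4 : α 483 = false) : False :=
  rf h false 1 1 1 189 345 340 483 (by decide +kernel) h1 h2 h3 h4

theorem c2827 (h : Good α) (h1 : α 189 = true) (h2 : α 345 = true) (h3 : α 340 = true) (h4 : α 483 = true) : False :=
  rf h true 1 1 1 189 345 340 483 (by decide +kernel) h1 h2 h3 h4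

theorem c2828 (h : Good α) (h1 : α 189 = false) (h2 : α 340 = false) (h3 : α 550 = false) : False :=
  af h false 4 189 340 550 (by decide +kernel) h1 h2 h3

theorem c2829 (h : Good α) (h1 : α 262 = false) (h2 : α 192 = false) (h3 : α 190 = false) : False :=
  af h false 3 262 192 190 (by decide +kernel) h1 h2 h3

theorem c2830 (h : Good α) (h1 : α 262 = true) (h2 : α 192 = true) (h3 : α 190 = true) : False :=
  af h true 3 262 192 190 (by decide +kernel) h1 h2 h3

theorem c2831 (h : Good α) (h1 : α 192 = false) (h2 : α 190 = false) (h3 : α 274 = false) : False :=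
  af h false 3 192 190 274 (by decide +kernel) h1 h2 h3

theorem c2832 (h : Good α) (h1 : α 192 = true) (h2 : α 190 = true) (h3 : α 274 = true) : False :=
  af h true 3 192 190 274 (by decide +kernel) h1 h2 h3

theorem c2833 (h : Good α) (h1 : α 360 = false) (h2 : α 343 = false) (h3 : α 219 = false) (h4 : α 190 = false) : False :=
  rf h false 2 3 1 360 343 219 190 (by decide +kernel) h1 h2 h3 h4

theorem c2834 (h : Good α) (h1 : α 418 = true) (h2 : α 256 = true) (h3 : α 190 = true) : False :=
  af h true 4 418 256 190 (by decide +kernel) h1 h2 h3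

theorem c2835 (h : Good α) (h1 : α 262 = false) (h2 : α 458 = false) (h3 : α 190 = false) (h4 : α 397 = false) : False :=
  rf h false 0 1 2 262 458 190 397 (by decide +kernel) h1 h2 h3 h4

theorem c2836 (h : Good α) (h1 : α 190 = false) (h2 : α 396 = false) (h3 : α 267 = false) (h4 : α 464 = false) : False :=
  rf h false 1 1 2 190 396 267 464 (by decide +kernel) h1 h2 h3 h4

theorem c2837 (h : Good α) (h1 : α 190 = false) (h2 : α 274 = false) (h3 : α 432 = false) : False :=
  af h false 3 190 274 432 (by decide +kernel) h1 h2 h3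

theorem c2838 (h : Good α) (h1 : α 190 = true) (h2 : α 274 = true) (h3 : α 432 = true) : False :=
  af h true 3 190 274 432 (by decide +kernel) h1 h2 h3

theorem c2839 (h : Good α) (h1 : α 552 = false) (h2 : α 343 = false) (h3 : α 190 = false) : False :=
  af h false 5 552 343 190 (by decide +kernel) h1 h2 h3

theorem c2840 (h : Good α) (h1 : α 191 = false) (h2 : α 259 = false) (h3 : α 419 = false) : False :=
  af h false 3 191 259 419 (by decide +kernel) h1 h2 h3

theorem c2841 (h : Good α) (h1 : α 191 = true) (h2 : α 259 = true) (h3 : α 419 = true) : False :=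
  af h true 3 191 259 419 (by decide +kernel) h1 h2 h3

theorem c2842 (h : Good α) (h1 : α 191 = false) (h2 : α 260 = false) (h3 : α 381 = false) (h4 : α 454 = false) : False :=
  rf h false 2 2 1 191 260 381 454 (by decide +kernel) h1 h2 h3 h4

theorem c2843 (h : Good α) (h1 : α 472 = true) (h2 : α 271 = true) (h3 : α 390 = true) (h4 : α 191 = true) : False :=
  rf h true 0 1 2 472 271 390 191 (by decide +kernel) h1 h2 h3 h4

theorem c2844 (h : Good α) (h1 : α 275 = false) (h2 : α 191 = false) (h3 : α 467 = false) (h4 : α 381 = false) : False :=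
  rf h false 2 1 1 275 191 467 381 (by decide +kernel) h1 h2 h3 h4

theorem c2845 (h : Good α) (h1 : α 425 = false) (h2 : α 275 = false) (h3 : α 191 = false) : False :=
  af h false 2 425 275 191 (by decide +kernel) h1 h2 h3

theorem c2846 (h : Good α) (h1 : α 425 = true) (h2 : α 275 = true) (h3 : α 191 = true) : False :=
  af h true 2 425 275 191 (by decide +kernel) h1 h2 h3

theorem c2847 (h : Good α) (h1 : α 191 = false) (h2 : α 336 = false) (h3 : α 549 = false) : False :=
  af h false 4 191 336 549 (by decide +kernel) h1 h2 h3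

theorem c2848 (h : Good α) (h1 : α 191 = true) (h2 : α 336 = true) (h3 : α 549 = true) : False :=
  af h true 4 191 336 549 (by decide +kernel) h1 h2 h3

theorem c2849 (h : Good α) (h1 : α 192 = true) (h2 : α 343 = true) (h3 : α 206 = true) (h4 : α 357 = true) : False :=
  rf h true 1 1 3 192 343 206 357 (by decide +kernel) h1 h2 h3 h4

theorem c2850 (h : Good α) (h1 : α 366 = true) (h2 : α 337 = true) (h3 : α 226 = true) (h4 : α 192 = true) : False :=
  rf h true 1 3 1 366 337 226 192 (by decide +kernel) h1 h2 h3 h4

theorem c2851 (h : Good α) (h1 : α 587 = false) (h2 : α 554 = false) (h3 : α 226 = false) (h4 : α 192 = false) : False :=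
  rf h false 1 3 2 587 554 226 192 (by decide +kernel) h1 h2 h3 h4

theorem c2852 (h : Good α) (h1 : α 422 = true) (h2 : α 262 = true) (h3 : α 192 = true) : False :=
  af h true 3 422 262 192 (by decide +kernel) h1 h2 h3

theorem c2853 (h : Good α) (h1 : α 192 = true) (h2 : α 391 = true) (h3 : α 274 = true) (h4 : α 473 = true) : False :=
  rf h true 0 1 2 192 391 274 473 (by decide +kernel) h1 h2 h3 h4

theorem c2854 (h : Good α) (h1 : α 192 = false) (h2 : α 276 = false) (h3 : α 426 = false) : False :=
  af h false 2 192 276 426 (by decide +kernel) h1 h2 h3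

theorem c2855 (h : Good α) (h1 : α 337 = false) (h2 : α 476 = false) (h3 : α 192 = false) (h4 : α 343 = false) : False :=
  rf h false 1 1 1 337 476 192 343 (by decide +kernel) h1 h2 h3 h4

theorem c2856 (h : Good α) (h1 : α 554 = true) (h2 : α 337 = true) (h3 : α 192 = true) : False :=
  af h true 4 554 337 192 (by decide +kernel) h1 h2 h3

theorem c2857 (h : Good α) (h1 : α 192 = false) (h2 : α 343 = false) (h3 : α 556 = false) : False :=
  af h false 1 192 343 556 (by decide +kernel) h1 h2 h3

theorem c2858 (h : Good α) (h1 : α 192 = true) (h2 : α 343 = true) (h3 : α 556 = true) : False :=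
  af h true 1 192 343 556 (by decide +kernel) h1 h2 h3

theorem c2859 (h : Good α) (h1 : α 393 = false) (h2 : α 198 = false) (h3 : α 381 = false) (h4 : α 193 = false) : False :=
  rf h false 0 1 2 393 198 381 193 (by decide +kernel) h1 h2 h3 h4

theorem c2860 (h : Good α) (h1 : α 240 = false) (h2 : α 193 = false) (h3 : α 234 = false) : False :=
  af h false 2 240 193 234 (by decide +kernel) h1 h2 h3

theorem c2861 (h : Good α) (h1 : α 193 = false) (h2 : α 331 = false) (h3 : α 384 = false) (h4 : α 502 = false) : False :=
  rf h false 1 3 1 193 331 384 502 (by decide +kernel) h1 h2 h3 h4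

theorem c2862 (h : Good α) (h1 : α 379 = false) (h2 : α 389 = false) (h3 : α 200 = false) (h4 : α 194 = false) : False :=
  rf h false 1 2 1 379 389 200 194 (by decide +kernel) h1 h2 h3 h4

theorem c2863 (h : Good α) (h1 : α 235 = false) (h2 : α 194 = false) (h3 : α 241 = false) : False :=
  af h false 2 235 194 241 (by decide +kernel) h1 h2 h3

theorem c2864 (h : Good α) (h1 : α 194 = true) (h2 : α 241 = true) (h3 : α 349 = true) : False :=
  af h true 2 194 241 349 (by decide +kernel) h1 h2 h3

theorem c2865 (h : Good α) (h1 : α 194 = false) (h2 : α 321 = false) (h3 : α 531 = false) : False :=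
  af h false 1 194 321 531 (by decide +kernel) h1 h2 h3

theorem c2866 (h : Good α) (h1 : α 194 = false) (h2 : α 382 = false) (h3 : α 332 = false) (h4 : α 509 = false) : False :=
  rf h false 0 1 3 194 382 332 509 (by decide +kernel) h1 h2 h3 h4

theorem c2867 (h : Good α) (h1 : α 194 = true) (h2 : α 382 = true) (h3 : α 332 = true) (h4 : α 509 = true) : False :=
  rf h true 0 1 3 194 382 332 509 (by decide +kernel) h1 h2 h3 h4

theorem c2868 (h : Good α) (h1 : α 196 = true) (h2 : α 232 = true) (h3 : α 195 = true) (h4 : α 230 = true) : False :=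
  rf h true 1 1 4 196 232 195 230 (by decide +kernel) h1 h2 h3 h4

theorem c2869 (h : Good α) (h1 : α 195 = false) (h2 : α 202 = false) (h3 : α 380 = false) (h4 : α 399 = false) : False :=
  rf h false 0 2 1 195 202 380 399 (by decide +kernel) h1 h2 h3 h4

theorem c2870 (h : Good α) (h1 : α 195 = false) (h2 : α 333 = false) (h3 : α 380 = false) (h4 : α 506 = false) : False :=
  rf h false 0 3 1 195 333 380 506 (by decide +kernel) h1 h2 h3 h4

theorem c2871 (h : Good α) (h1 : α 195 = true) (h2 : α 333 = true) (h3 : α 380 = true) (h4 : α 506 = true) : False :=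
  rf h true 0 3 1 195 333 380 506 (by decide +kernel) h1 h2 h3 h4

theorem c2872 (h : Good α) (h1 : α 398 = false) (h2 : α 383 = false) (h3 : α 199 = false) (h4 : α 196 = false) : False :=
  rf h false 0 2 1 398 383 199 196 (by decide +kernel) h1 h2 h3 h4

theorem c2873 (h : Good α) (h1 : α 231 = false) (h2 : α 196 = false) (h3 : α 232 = false) : False :=
  af h false 1 231 196 232 (by decide +kernel) h1 h2 h3

theorem c2874 (h : Good α) (h1 : α 231 = true) (h2 : α 196 = true) (h3 : α 232 = true) : False :=
  af h true 1 231 196 232 (by decide +kernel) h1 h2 h3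

theorem c2875 (h : Good α) (h1 : α 377 = false) (h2 : α 507 = false) (h3 : α 196 = false) (h4 : α 334 = false) : False :=
  rf h false 2 3 1 377 507 196 334 (by decide +kernel) h1 h2 h3 h4

theorem c2876 (h : Good α) (h1 : α 394 = false) (h2 : α 199 = false) (h3 : α 392 = false) (h4 : α 197 = false) : False :=
  rf h false 1 1 2 394 199 392 197 (by decide +kernel) h1 h2 h3 h4

theorem c2877 (h : Good α) (h1 : α 197 = false) (h2 : α 204 = false) (h3 : α 237 = false) (h4 : α 250 = false) : False :=
  rf h false 0 4 1 197 204 237 250 (by decide +kernel) h1 h2 h3 h4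

theorem c2878 (h : Good α) (h1 : α 197 = true) (h2 : α 204 = true) (h3 : α 237 = true) (h4 : α 250 = true) : False :=
  rf h true 0 4 1 197 204 237 250 (by decide +kernel) h1 h2 h3 h4

theorem c2879 (h : Good α) (h1 : α 249 = false) (h2 : α 238 = false) (h3 : α 197 = false) (h4 : α 204 = false) : False :=
  rf h false 0 4 1 249 238 197 204 (by decide +kernel) h1 h2 h3 h4

theorem c2880 (h : Good α) (h1 : α 249 = true) (h2 : α 238 = true) (h3 : α 197 = true) (h4 : α 204 = true) : False :=
  rf h true 0 4 1 249 238 197 204 (by decide +kernel) h1 h2 h3 h4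

theorem c2881 (h : Good α) (h1 : α 197 = false) (h2 : α 204 = false) (h3 : α 351 = false) (h4 : α 354 = false) : False :=
  rf h false 0 4 2 197 204 351 354 (by decide +kernel) h1 h2 h3 h4

theorem c2882 (h : Good α) (h1 : α 197 = true) (h2 : α 204 = true) (h3 : α 351 = true) (h4 : α 354 = true) : False :=
  rf h true 0 4 2 197 204 351 354 (by decide +kernel) h1 h2 h3 h4

theorem c2883 (h : Good α) (h1 : α 353 = false) (h2 : α 352 = false) (h3 : α 197 = false) (h4 : α 204 = false) : False :=
  rf h false 0 4 2 353 352 197 204 (by decide +kernel) h1 h2 h3 h4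

theorem c2884 (h : Good α) (h1 : α 353 = true) (h2 : α 352 = true) (h3 : α 197 = true) (h4 : α 204 = true) : False :=
  rf h true 0 4 2 353 352 197 204 (by decide +kernel) h1 h2 h3 h4

theorem c2885 (h : Good α) (h1 : α 249 = false) (h2 : α 197 = false) (h3 : α 237 = false) : False :=
  af h false 3 249 197 237 (by decide +kernel) h1 h2 h3

theorem c2886 (h : Good α) (h1 : α 249 = true) (h2 : α 197 = true) (h3 : α 237 = true) : False :=
  af h true 3 249 197 237 (by decide +kernel) h1 h2 h3

theorem c2887 (h : Good α) (h1 : α 197 = false) (h2 : α 237 = false) (h3 : α 351 = false) : False :=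
  af h false 3 197 237 351 (by decide +kernel) h1 h2 h3

theorem c2888 (h : Good α) (h1 : α 197 = true) (h2 : α 237 = true) (h3 : α 351 = true) : False :=
  af h true 3 197 237 351 (by decide +kernel) h1 h2 h3

theorem c2889 (h : Good α) (h1 : α 353 = false) (h2 : α 249 = false) (h3 : α 197 = false) : False :=
  af h false 3 353 249 197 (by decide +kernel) h1 h2 h3

theorem c2890 (h : Good α) (h1 : α 353 = true) (h2 : α 249 = true) (h3 : α 197 = true) : False :=
  af h true 3 353 249 197 (by decide +kernel) h1 h2 h3

theorem c2891 (h : Good α) (h1 : α 449 = false) (h2 : α 249 = false) (h3 : α 402 = false) (h4 : α 197 = false) : False :=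
  rf h false 0 1 1 449 249 402 197 (by decide +kernel) h1 h2 h3 h4

theorem c2892 (h : Good α) (h1 : α 449 = true) (h2 : α 249 = true) (h3 : α 402 = true) (h4 : α 197 = true) : False :=
  rf h true 0 1 1 449 249 402 197 (by decide +kernel) h1 h2 h3 h4

theorem c2893 (h : Good α) (h1 : α 499 = false) (h2 : α 323 = false) (h3 : α 392 = false) (h4 : α 197 = false) : False :=
  rf h false 1 1 3 499 323 392 197 (by decide +kernel) h1 h2 h3 h4

theorem c2894 (h : Good α) (h1 : α 532 = true) (h2 : α 327 = true) (h3 : α 197 = true) : False :=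
  af h true 2 532 327 197 (by decide +kernel) h1 h2 h3

theorem c2895 (h : Good α) (h1 : α 248 = true) (h2 : α 198 = true) (h3 : α 251 = true) : False :=
  af h true 4 248 198 251 (by decide +kernel) h1 h2 h3

theorem c2896 (h : Good α) (h1 : α 245 = true) (h2 : α 199 = true) (h3 : α 243 = true) : False :=
  af h true 5 245 199 243 (by decide +kernel) h1 h2 h3

theorem c2897 (h : Good α) (h1 : α 398 = true) (h2 : α 494 = true) (h3 : α 199 = true) (h4 : α 325 = true) : False :=
  rf h true 0 3 1 398 494 199 325 (by decide +kernel) h1 h2 h3 h4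

theorem c2898 (h : Good α) (h1 : α 394 = false) (h2 : α 199 = false) (h3 : α 495 = false) (h4 : α 326 = false) : False :=
  rf h false 1 1 3 394 199 495 326 (by decide +kernel) h1 h2 h3 h4

theorem c2899 (h : Good α) (h1 : α 505 = false) (h2 : α 398 = false) (h3 : α 328 = false) (h4 : α 199 = false) : False :=
  rf h false 0 1 1 505 398 328 199 (by decide +kernel) h1 h2 h3 h4

theorem c2900 (h : Good α) (h1 : α 532 = false) (h2 : α 328 = false) (h3 : α 199 = false) : False :=
  af h false 0 532 328 199 (by decide +kernel) h1 h2 h3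

theorem c2901 (h : Good α) (h1 : α 239 = false) (h2 : α 200 = false) (h3 : α 233 = false) (h4 : α 201 = false) : False :=
  rf h false 0 1 4 239 200 233 201 (by decide +kernel) h1 h2 h3 h4

theorem c2902 (h : Good α) (h1 : α 239 = true) (h2 : α 200 = true) (h3 : α 233 = true) (h4 : α 201 = true) : False :=
  rf h true 0 1 4 239 200 233 201 (by decide +kernel) h1 h2 h3 h4

theorem c2903 (h : Good α) (h1 : α 200 = false) (h2 : α 236 = false) (h3 : α 201 = false) (h4 : α 242 = false) : False :=
  rf h false 0 1 4 200 236 201 242 (by decide +kernel) h1 h2 h3 h4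

theorem c2904 (h : Good α) (h1 : α 200 = true) (h2 : α 236 = true) (h3 : α 201 = true) (h4 : α 242 = true) : False :=
  rf h true 0 1 4 200 236 201 242 (by decide +kernel) h1 h2 h3 h4

theorem c2905 (h : Good α) (h1 : α 353 = false) (h2 : α 200 = false) (h3 : α 351 = false) (h4 : α 201 = false) : False :=
  rf h false 0 2 4 353 200 351 201 (by decide +kernel) h1 h2 h3 h4

theorem c2906 (h : Good α) (h1 : α 353 = true) (h2 : α 200 = true) (h3 : α 351 = true) (h4 : α 201 = true) : False :=
  rf h true 0 2 4 353 200 351 201 (by decide +kernel) h1 h2 h3 h4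

theorem c2907 (h : Good α) (h1 : α 200 = false) (h2 : α 352 = false) (h3 : α 201 = false) (h4 : α 354 = false) : False :=
  rf h false 0 2 4 200 352 201 354 (by decide +kernel) h1 h2 h3 h4

theorem c2908 (h : Good α) (h1 : α 200 = true) (h2 : α 352 = true) (h3 : α 201 = true) (h4 : α 354 = true) : False :=
  rf h true 0 2 4 200 352 201 354 (by decide +kernel) h1 h2 h3 h4

theorem c2909 (h : Good α) (h1 : α 239 = false) (h2 : α 200 = false) (h3 : α 236 = false) : False :=
  af h false 0 239 200 236 (by decide +kernel) h1 h2 h3

theorem c2910 (h : Good α) (h1 : α 239 = true) (h2 : α 200 = true) (h3 : α 236 = true) : False :=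
  af h true 0 239 200 236 (by decide +kernel) h1 h2 h3

theorem c2911 (h : Good α) (h1 : α 200 = false) (h2 : α 236 = false) (h3 : α 352 = false) : False :=
  af h false 0 200 236 352 (by decide +kernel) h1 h2 h3

theorem c2912 (h : Good α) (h1 : α 200 = true) (h2 : α 236 = true) (h3 : α 352 = true) : False :=
  af h true 0 200 236 352 (by decide +kernel) h1 h2 h3

theorem c2913 (h : Good α) (h1 : α 353 = false) (h2 : α 239 = false) (h3 : α 200 = false) : False :=
  af h false 0 353 239 200 (by decide +kernel) h1 h2 h3

theorem c2914 (h : Good α) (h1 : α 353 = true) (h2 : α 239 = true) (h3 : α 200 = true) : False :=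
  af h true 0 353 239 200 (by decide +kernel) h1 h2 h3

theorem c2915 (h : Good α) (h1 : α 498 = false) (h2 : α 319 = false) (h3 : α 386 = false) (h4 : α 200 = false) : False :=
  rf h false 2 1 1 498 319 386 200 (by decide +kernel) h1 h2 h3 h4

theorem c2916 (h : Good α) (h1 : α 379 = false) (h2 : α 500 = false) (h3 : α 200 = false) (h4 : α 321 = false) : False :=
  rf h false 1 3 1 379 500 200 321 (by decide +kernel) h1 h2 h3 h4

theorem c2917 (h : Good α) (h1 : α 503 = false) (h2 : α 379 = false) (h3 : α 330 = false) (h4 : α 200 = false) : False :=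
  rf h false 1 1 1 503 379 330 200 (by decide +kernel) h1 h2 h3 h4

theorem c2918 (h : Good α) (h1 : α 203 = false) (h2 : α 388 = false) (h3 : α 201 = false) (h4 : α 387 = false) : False :=
  rf h false 2 1 2 203 388 201 387 (by decide +kernel) h1 h2 h3 h4

theorem c2919 (h : Good α) (h1 : α 233 = false) (h2 : α 201 = false) (h3 : α 242 = false) : False :=
  af h false 0 233 201 242 (by decide +kernel) h1 h2 h3

theorem c2920 (h : Good α) (h1 : α 233 = true) (h2 : α 201 = true) (h3 : α 242 = true) : False :=
  af h true 0 233 201 242 (by decide +kernel) h1 h2 h3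

theorem c2921 (h : Good α) (h1 : α 351 = false) (h2 : α 233 = false) (h3 : α 201 = false) : False :=
  af h false 0 351 233 201 (by decide +kernel) h1 h2 h3

theorem c2922 (h : Good α) (h1 : α 351 = true) (h2 : α 233 = true) (h3 : α 201 = true) : False :=
  af h true 0 351 233 201 (by decide +kernel) h1 h2 h3

theorem c2923 (h : Good α) (h1 : α 201 = false) (h2 : α 242 = false) (h3 : α 354 = false) : False :=
  af h false 0 201 242 354 (by decide +kernel) h1 h2 h3

theorem c2924 (h : Good α) (h1 : α 201 = true) (h2 : α 242 = true) (h3 : α 354 = true) : False :=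
  af h true 0 201 242 354 (by decide +kernel) h1 h2 h3

theorem c2925 (h : Good α) (h1 : α 201 = false) (h2 : α 242 = false) (h3 : α 406 = false) (h4 : α 447 = false) : False :=
  rf h false 0 1 1 201 242 406 447 (by decide +kernel) h1 h2 h3 h4

theorem c2926 (h : Good α) (h1 : α 316 = true) (h2 : α 201 = true) (h3 : α 496 = true) (h4 : α 378 = true) : False :=
  rf h true 1 3 1 316 201 496 378 (by decide +kernel) h1 h2 h3 h4

theorem c2927 (h : Good α) (h1 : α 322 = false) (h2 : α 491 = false) (h3 : α 201 = false) (h4 : α 387 = false) : False :=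
  rf h false 2 1 3 322 491 201 387 (by decide +kernel) h1 h2 h3 h4

theorem c2928 (h : Good α) (h1 : α 246 = false) (h2 : α 202 = false) (h3 : α 244 = false) : False :=
  af h false 5 246 202 244 (by decide +kernel) h1 h2 h3

theorem c2929 (h : Good α) (h1 : α 246 = true) (h2 : α 202 = true) (h3 : α 244 = true) : False :=
  af h true 5 246 202 244 (by decide +kernel) h1 h2 h3

theorem c2930 (h : Good α) (h1 : α 349 = false) (h2 : α 246 = false) (h3 : α 202 = false) : False :=
  af h false 5 349 246 202 (by decide +kernel) h1 h2 h3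

theorem c2931 (h : Good α) (h1 : α 312 = true) (h2 : α 202 = true) (h3 : α 487 = true) (h4 : α 399 = true) : False :=
  rf h true 0 3 1 312 202 487 399 (by decide +kernel) h1 h2 h3 h4

theorem c2932 (h : Good α) (h1 : α 202 = false) (h2 : α 395 = false) (h3 : α 314 = false) (h4 : α 497 = false) : False :=
  rf h false 1 1 1 202 395 314 497 (by decide +kernel) h1 h2 h3 h4

theorem c2933 (h : Good α) (h1 : α 252 = false) (h2 : α 203 = false) (h3 : α 247 = false) : False :=
  af h false 4 252 203 247 (by decide +kernel) h1 h2 h3

theorem c2934 (h : Good α) (h1 : α 252 = true) (h2 : α 203 = true) (h3 : α 247 = true) : False :=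
  af h true 4 252 203 247 (by decide +kernel) h1 h2 h3

theorem c2935 (h : Good α) (h1 : α 531 = true) (h2 : α 322 = true) (h3 : α 203 = true) : False :=
  af h true 5 531 322 203 (by decide +kernel) h1 h2 h3

theorem c2936 (h : Good α) (h1 : α 238 = false) (h2 : α 204 = false) (h3 : α 250 = false) : False :=
  af h false 3 238 204 250 (by decide +kernel) h1 h2 h3

theorem c2937 (h : Good α) (h1 : α 238 = true) (h2 : α 204 = true) (h3 : α 250 = true) : False :=
  af h true 3 238 204 250 (by decide +kernel) h1 h2 h3

theorem c2938 (h : Good α) (h1 : α 352 = false) (h2 : α 238 = false) (h3 : α 204 = false) : False :=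
  af h false 3 352 238 204 (by decide +kernel) h1 h2 h3

theorem c2939 (h : Good α) (h1 : α 352 = true) (h2 : α 238 = true) (h3 : α 204 = true) : False :=
  af h true 3 352 238 204 (by decide +kernel) h1 h2 h3

theorem c2940 (h : Good α) (h1 : α 204 = false) (h2 : α 250 = false) (h3 : α 354 = false) : False :=
  af h false 3 204 250 354 (by decide +kernel) h1 h2 h3

theorem c2941 (h : Good α) (h1 : α 204 = true) (h2 : α 250 = true) (h3 : α 354 = true) : False :=
  af h true 3 204 250 354 (by decide +kernel) h1 h2 h3

theorem c2942 (h : Good α) (h1 : α 204 = true) (h2 : α 409 = true) (h3 : α 250 = true) (h4 : α 450 = true) : False :=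
  rf h true 0 1 1 204 409 250 450 (by decide +kernel) h1 h2 h3 h4

theorem c2943 (h : Good α) (h1 : α 204 = false) (h2 : α 397 = false) (h3 : α 314 = false) (h4 : α 497 = false) : False :=
  rf h false 1 1 3 204 397 314 497 (by decide +kernel) h1 h2 h3 h4

theorem c2944 (h : Good α) (h1 : α 493 = false) (h2 : α 391 = false) (h3 : α 324 = false) (h4 : α 204 = false) : False :=
  rf h false 2 3 1 493 391 324 204 (by decide +kernel) h1 h2 h3 h4

theorem c2945 (h : Good α) (h1 : α 493 = true) (h2 : α 391 = true) (h3 : α 324 = true) (h4 : α 204 = true) : False :=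
  rf h true 2 3 1 493 391 324 204 (by decide +kernel) h1 h2 h3 h4

theorem c2946 (h : Good α) (h1 : α 306 = true) (h2 : α 205 = true) (h3 : α 495 = true) (h4 : α 410 = true) : False :=
  rf h true 2 1 1 306 205 495 410 (by decide +kernel) h1 h2 h3 h4

theorem c2947 (h : Good α) (h1 : α 449 = false) (h2 : α 306 = false) (h3 : α 205 = false) : False :=
  af h false 2 449 306 205 (by decide +kernel) h1 h2 h3

theorem c2948 (h : Good α) (h1 : α 449 = true) (h2 : α 306 = true) (h3 : α 205 = true) : False :=
  af h true 2 449 306 205 (by decide +kernel) h1 h2 h3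

theorem c2949 (h : Good α) (h1 : α 205 = false) (h2 : α 312 = false) (h3 : α 487 = false) : False :=
  af h false 3 205 312 487 (by decide +kernel) h1 h2 h3

theorem c2950 (h : Good α) (h1 : α 205 = true) (h2 : α 312 = true) (h3 : α 487 = true) : False :=
  af h true 3 205 312 487 (by decide +kernel) h1 h2 h3

theorem c2951 (h : Good α) (h1 : α 206 = false) (h2 : α 291 = false) (h3 : α 438 = false) : False :=
  af h false 0 206 291 438 (by decide +kernel) h1 h2 h3

theorem c2952 (h : Good α) (h1 : α 446 = false) (h2 : α 300 = false) (h3 : α 207 = false) : False :=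
  af h false 1 446 300 207 (by decide +kernel) h1 h2 h3

theorem c2953 (h : Good α) (h1 : α 446 = true) (h2 : α 300 = true) (h3 : α 207 = true) : False :=
  af h true 1 446 300 207 (by decide +kernel) h1 h2 h3

theorem c2954 (h : Good α) (h1 : α 369 = false) (h2 : α 207 = false) (h3 : α 477 = false) (h4 : α 338 = false) : False :=
  rf h false 2 1 4 369 207 477 338 (by decide +kernel) h1 h2 h3 h4

theorem c2955 (h : Good α) (h1 : α 210 = false) (h2 : α 303 = false) (h3 : α 447 = false) : False :=
  af h false 1 210 303 447 (by decide +kernel) h1 h2 h3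

theorem c2956 (h : Good α) (h1 : α 436 = false) (h2 : α 295 = false) (h3 : α 211 = false) : False :=
  af h false 0 436 295 211 (by decide +kernel) h1 h2 h3

theorem c2957 (h : Good α) (h1 : α 328 = false) (h2 : α 325 = false) (h3 : α 222 = false) (h4 : α 212 = false) : False :=
  rf h false 0 4 1 328 325 222 212 (by decide +kernel) h1 h2 h3 h4

theorem c2958 (h : Good α) (h1 : α 505 = true) (h2 : α 494 = true) (h3 : α 222 = true) (h4 : α 212 = true) : False :=
  rf h true 0 4 2 505 494 222 212 (by decide +kernel) h1 h2 h3 h4

theorem c2959 (h : Good α) (h1 : α 418 = false) (h2 : α 501 = false) (h3 : α 212 = false) (h4 : α 307 = false) : False :=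
  rf h false 2 1 1 418 501 212 307 (by decide +kernel) h1 h2 h3 h4

theorem c2960 (h : Good α) (h1 : α 212 = false) (h2 : α 307 = false) (h3 : α 450 = false) : False :=
  af h false 2 212 307 450 (by decide +kernel) h1 h2 h3

theorem c2961 (h : Good α) (h1 : α 212 = true) (h2 : α 307 = true) (h3 : α 450 = true) : False :=
  af h true 2 212 307 450 (by decide +kernel) h1 h2 h3

theorem c2962 (h : Good α) (h1 : α 494 = true) (h2 : α 325 = true) (h3 : α 212 = true) : False :=
  af h true 3 494 325 212 (by decide +kernel) h1 h2 h3

theorem c2963 (h : Good α) (h1 : α 212 = true) (h2 : α 371 = true) (h3 : α 340 = true) (h4 : α 483 = true) : False :=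
  rf h true 1 1 4 212 371 340 483 (by decide +kernel) h1 h2 h3 h4

theorem c2964 (h : Good α) (h1 : α 499 = true) (h2 : α 219 = true) (h3 : α 495 = true) (h4 : α 213 = true) : False :=
  rf h true 1 2 4 499 219 495 213 (by decide +kernel) h1 h2 h3 h4

theorem c2965 (h : Good α) (h1 : α 213 = false) (h2 : α 289 = false) (h3 : α 435 = false) : False :=
  af h false 2 213 289 435 (by decide +kernel) h1 h2 h3

theorem c2966 (h : Good α) (h1 : α 220 = false) (h2 : α 335 = false) (h3 : α 214 = false) (h4 : α 314 = false) : False :=
  rf h false 1 1 4 220 335 214 314 (by decide +kernel) h1 h2 h3 h4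

theorem c2967 (h : Good α) (h1 : α 346 = false) (h2 : α 214 = false) (h3 : α 477 = false) (h4 : α 358 = false) : False :=
  rf h false 2 4 1 346 214 477 358 (by decide +kernel) h1 h2 h3 h4

theorem c2968 (h : Good α) (h1 : α 494 = false) (h2 : α 424 = false) (h3 : α 297 = false) (h4 : α 220 = false) : False :=
  rf h false 2 1 1 494 424 297 220 (by decide +kernel) h1 h2 h3 h4

theorem c2969 (h : Good α) (h1 : α 505 = true) (h2 : α 308 = true) (h3 : α 429 = true) (h4 : α 221 = true) : False :=
  rf h true 1 1 1 505 308 429 221 (by decide +kernel) h1 h2 h3 h4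

theorem c2970 (h : Good α) (h1 : α 589 = false) (h2 : α 374 = false) (h3 : α 221 = false) : False :=
  af h false 3 589 374 221 (by decide +kernel) h1 h2 h3

theorem c2971 (h : Good α) (h1 : α 222 = false) (h2 : α 298 = false) (h3 : α 443 = false) : False :=
  af h false 4 222 298 443 (by decide +kernel) h1 h2 h3

theorem c2972 (h : Good α) (h1 : α 222 = true) (h2 : α 298 = true) (h3 : α 443 = true) : False :=
  af h true 4 222 298 443 (by decide +kernel) h1 h2 h3

theorem c2973 (h : Good α) (h1 : α 505 = false) (h2 : α 328 = false) (h3 : α 222 = false) : False :=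
  af h false 3 505 328 222 (by decide +kernel) h1 h2 h3

theorem c2974 (h : Good α) (h1 : α 505 = true) (h2 : α 328 = true) (h3 : α 222 = true) : False :=
  af h true 3 505 328 222 (by decide +kernel) h1 h2 h3

theorem c2975 (h : Good α) (h1 : α 222 = true) (h2 : α 340 = true) (h3 : α 372 = true) (h4 : α 478 = true) : False :=
  rf h true 2 4 1 222 340 372 478 (by decide +kernel) h1 h2 h3 h4

theorem c2976 (h : Good α) (h1 : α 444 = false) (h2 : α 299 = false) (h3 : α 223 = false) : False :=
  af h false 4 444 299 223 (by decide +kernel) h1 h2 h3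

theorem c2977 (h : Good α) (h1 : α 479 = true) (h2 : α 373 = true) (h3 : α 341 = true) (h4 : α 223 = true) : False :=
  rf h true 2 4 1 479 373 341 223 (by decide +kernel) h1 h2 h3 h4

theorem c2978 (h : Good α) (h1 : α 225 = true) (h2 : α 304 = true) (h3 : α 439 = true) : False :=
  af h true 5 225 304 439 (by decide +kernel) h1 h2 h3

theorem c2979 (h : Good α) (h1 : α 442 = false) (h2 : α 305 = false) (h3 : α 226 = false) : False :=
  af h false 5 442 305 226 (by decide +kernel) h1 h2 h3

theorem c2980 (h : Good α) (h1 : α 229 = false) (h2 : α 230 = false) (h3 : α 434 = false) (h4 : α 435 = false) : False :=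
  rf h false 1 2 1 229 230 434 435 (by decide +kernel) h1 h2 h3 h4

theorem c2981 (h : Good α) (h1 : α 541 = false) (h2 : α 231 = false) (h3 : α 539 = false) (h4 : α 229 = false) : False :=
  rf h false 1 2 4 541 231 539 229 (by decide +kernel) h1 h2 h3 h4

theorem c2982 (h : Good α) (h1 : α 253 = false) (h2 : α 229 = false) (h3 : α 290 = false) : False :=
  af h false 2 253 229 290 (by decide +kernel) h1 h2 h3

theorem c2983 (h : Good α) (h1 : α 392 = false) (h2 : α 253 = false) (h3 : α 229 = false) : False :=
  af h false 2 392 253 229 (by decide +kernel) h1 h2 h3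

theorem c2984 (h : Good α) (h1 : α 289 = true) (h2 : α 230 = true) (h3 : α 267 = true) : False :=
  af h true 0 289 230 267 (by decide +kernel) h1 h2 h3

theorem c2985 (h : Good α) (h1 : α 230 = false) (h2 : α 267 = false) (h3 : α 463 = false) (h4 : α 483 = false) : False :=
  rf h false 0 1 1 230 267 463 483 (by decide +kernel) h1 h2 h3 h4

theorem c2986 (h : Good α) (h1 : α 230 = true) (h2 : α 380 = true) (h3 : α 572 = true) : False :=
  af h true 5 230 380 572 (by decide +kernel) h1 h2 h3

theorem c2987 (h : Good α) (h1 : α 394 = false) (h2 : α 270 = false) (h3 : α 231 = false) : False :=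
  af h false 0 394 270 231 (by decide +kernel) h1 h2 h3

theorem c2988 (h : Good α) (h1 : α 573 = false) (h2 : α 383 = false) (h3 : α 231 = false) : False :=
  af h false 5 573 383 231 (by decide +kernel) h1 h2 h3

theorem c2989 (h : Good α) (h1 : α 232 = true) (h2 : α 256 = true) (h3 : α 397 = true) : False :=
  af h true 2 232 256 397 (by decide +kernel) h1 h2 h3

theorem c2990 (h : Good α) (h1 : α 239 = false) (h2 : α 236 = false) (h3 : α 233 = false) (h4 : α 242 = false) : False :=
  rf h false 0 2 4 239 236 233 242 (by decide +kernel) h1 h2 h3 h4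

theorem c2991 (h : Good α) (h1 : α 239 = true) (h2 : α 236 = true) (h3 : α 233 = true) (h4 : α 242 = true) : False :=
  rf h true 0 2 4 239 236 233 242 (by decide +kernel) h1 h2 h3 h4

theorem c2992 (h : Good α) (h1 : α 353 = true) (h2 : α 239 = true) (h3 : α 351 = true) (h4 : α 233 = true) : False :=
  rf h true 0 1 4 353 239 351 233 (by decide +kernel) h1 h2 h3 h4

theorem c2993 (h : Good α) (h1 : α 547 = false) (h2 : α 239 = false) (h3 : α 543 = false) (h4 : α 233 = false) : False :=
  rf h false 0 2 4 547 239 543 233 (by decide +kernel) h1 h2 h3 h4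

theorem c2994 (h : Good α) (h1 : α 547 = true) (h2 : α 239 = true) (h3 : α 543 = true) (h4 : α 233 = true) : False :=
  rf h true 0 2 4 547 239 543 233 (by decide +kernel) h1 h2 h3 h4

theorem c2995 (h : Good α) (h1 : α 259 = false) (h2 : α 233 = false) (h3 : α 304 = false) : False :=
  af h false 1 259 233 304 (by decide +kernel) h1 h2 h3

theorem c2996 (h : Good α) (h1 : α 259 = true) (h2 : α 233 = true) (h3 : α 304 = true) : False :=
  af h true 1 259 233 304 (by decide +kernel) h1 h2 h3

theorem c2997 (h : Good α) (h1 : α 381 = false) (h2 : α 259 = false) (h3 : α 233 = false) : False :=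
  af h false 1 381 259 233 (by decide +kernel) h1 h2 h3

theorem c2998 (h : Good α) (h1 : α 381 = true) (h2 : α 259 = true) (h3 : α 233 = true) : False :=
  af h true 1 381 259 233 (by decide +kernel) h1 h2 h3

theorem c2999 (h : Good α) (h1 : α 259 = false) (h2 : α 233 = false) (h3 : α 481 = false) (h4 : α 451 = false) : False :=
  rf h false 1 1 1 259 233 481 451 (by decide +kernel) h1 h2 h3 h4

theorem c3000 (h : Good α) (h1 : α 543 = false) (h2 : α 351 = false) (h3 : α 233 = false) : False :=
  af h false 0 543 351 233 (by decide +kernel) h1 h2 h3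

theorem c3001 (h : Good α) (h1 : α 543 = true) (h2 : α 351 = true) (h3 : α 233 = true) : False :=
  af h true 0 543 351 233 (by decide +kernel) h1 h2 h3

theorem c3002 (h : Good α) (h1 : α 233 = false) (h2 : α 354 = false) (h3 : α 439 = false) (h4 : α 546 = false) : False :=
  rf h false 0 3 1 233 354 439 546 (by decide +kernel) h1 h2 h3 h4

theorem c3003 (h : Good α) (h1 : α 233 = true) (h2 : α 354 = true) (h3 : α 439 = true) (h4 : α 546 = true) : False :=
  rf h true 0 3 1 233 354 439 546 (by decide +kernel) h1 h2 h3 h4

theorem c3004 (h : Good α) (h1 : α 233 = false) (h2 : α 378 = false) (h3 : α 576 = false) : False :=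
  af h false 2 233 378 576 (by decide +kernel) h1 h2 h3

theorem c3005 (h : Good α) (h1 : α 233 = true) (h2 : α 378 = true) (h3 : α 576 = true) : False :=
  af h true 2 233 378 576 (by decide +kernel) h1 h2 h3

theorem c3006 (h : Good α) (h1 : α 381 = false) (h2 : α 233 = false) (h3 : α 574 = false) (h4 : α 451 = false) : False :=
  rf h false 1 2 1 381 233 574 451 (by decide +kernel) h1 h2 h3 h4

theorem c3007 (h : Good α) (h1 : α 574 = true) (h2 : α 384 = true) (h3 : α 234 = true) : False :=
  af h true 0 574 384 234 (by decide +kernel) h1 h2 h3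

theorem c3008 (h : Good α) (h1 : α 234 = false) (h2 : α 387 = false) (h3 : α 454 = false) (h4 : α 576 = false) : False :=
  rf h false 1 2 1 234 387 454 576 (by decide +kernel) h1 h2 h3 h4

theorem c3009 (h : Good α) (h1 : α 269 = false) (h2 : α 235 = false) (h3 : α 302 = false) : False :=
  af h false 1 269 235 302 (by decide +kernel) h1 h2 h3

theorem c3010 (h : Good α) (h1 : α 386 = false) (h2 : α 269 = false) (h3 : α 235 = false) : False :=
  af h false 1 386 269 235 (by decide +kernel) h1 h2 h3

theorem c3011 (h : Good α) (h1 : α 386 = true) (h2 : α 269 = true) (h3 : α 235 = true) : False :=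
  af h true 1 386 269 235 (by decide +kernel) h1 h2 h3

theorem c3012 (h : Good α) (h1 : α 577 = false) (h2 : α 455 = false) (h3 : α 386 = false) (h4 : α 235 = false) : False :=
  rf h false 1 2 1 577 455 386 235 (by decide +kernel) h1 h2 h3 h4

theorem c3013 (h : Good α) (h1 : α 235 = false) (h2 : α 389 = false) (h3 : α 575 = false) : False :=
  af h false 0 235 389 575 (by decide +kernel) h1 h2 h3

theorem c3014 (h : Good α) (h1 : α 235 = true) (h2 : α 389 = true) (h3 : α 575 = true) : False :=
  af h true 0 235 389 575 (by decide +kernel) h1 h2 h3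

theorem c3015 (h : Good α) (h1 : α 236 = false) (h2 : α 352 = false) (h3 : α 242 = false) (h4 : α 354 = false) : False :=
  rf h false 0 1 4 236 352 242 354 (by decide +kernel) h1 h2 h3 h4

theorem c3016 (h : Good α) (h1 : α 236 = true) (h2 : α 544 = true) (h3 : α 242 = true) (h4 : α 548 = true) : False :=
  rf h true 0 2 4 236 544 242 548 (by decide +kernel) h1 h2 h3 h4

theorem c3017 (h : Good α) (h1 : α 305 = false) (h2 : α 236 = false) (h3 : α 262 = false) : False :=
  af h false 1 305 236 262 (by decide +kernel) h1 h2 h3

theorem c3018 (h : Good α) (h1 : α 305 = true) (h2 : α 236 = true) (h3 : α 262 = true) : False :=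
  af h true 1 305 236 262 (by decide +kernel) h1 h2 h3

theorem c3019 (h : Good α) (h1 : α 236 = false) (h2 : α 262 = false) (h3 : α 382 = false) : False :=
  af h false 1 236 262 382 (by decide +kernel) h1 h2 h3

theorem c3020 (h : Good α) (h1 : α 452 = false) (h2 : α 482 = false) (h3 : α 236 = false) (h4 : α 262 = false) : False :=
  rf h false 1 1 1 452 482 236 262 (by decide +kernel) h1 h2 h3 h4

theorem c3021 (h : Good α) (h1 : α 442 = true) (h2 : α 535 = true) (h3 : α 236 = true) (h4 : α 352 = true) : False :=
  rf h true 0 1 1 442 535 236 352 (by decide +kernel) h1 h2 h3 h4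

theorem c3022 (h : Good α) (h1 : α 236 = true) (h2 : α 352 = true) (h3 : α 544 = true) : False :=
  af h true 0 236 352 544 (by decide +kernel) h1 h2 h3

theorem c3023 (h : Good α) (h1 : α 545 = true) (h2 : α 442 = true) (h3 : α 353 = true) (h4 : α 236 = true) : False :=
  rf h true 0 3 1 545 442 353 236 (by decide +kernel) h1 h2 h3 h4

theorem c3024 (h : Good α) (h1 : α 577 = false) (h2 : α 379 = false) (h3 : α 236 = false) : False :=
  af h false 2 577 379 236 (by decide +kernel) h1 h2 h3

theorem c3025 (h : Good α) (h1 : α 577 = true) (h2 : α 379 = true) (h3 : α 236 = true) : False :=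
  af h true 2 577 379 236 (by decide +kernel) h1 h2 h3

theorem c3026 (h : Good α) (h1 : α 452 = true) (h2 : α 575 = true) (h3 : α 236 = true) (h4 : α 382 = true) : False :=
  rf h true 1 2 1 452 575 236 382 (by decide +kernel) h1 h2 h3 h4

theorem c3027 (h : Good α) (h1 : α 249 = false) (h2 : α 238 = false) (h3 : α 237 = false) (h4 : α 250 = false) : False :=
  rf h false 0 4 2 249 238 237 250 (by decide +kernel) h1 h2 h3 h4

theorem c3028 (h : Good α) (h1 : α 249 = true) (h2 : α 238 = true) (h3 : α 237 = true) (h4 : α 250 = true) : False :=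
  rf h true 0 4 2 249 238 237 250 (by decide +kernel) h1 h2 h3 h4

theorem c3029 (h : Good α) (h1 : α 449 = true) (h2 : α 249 = true) (h3 : α 443 = true) (h4 : α 237 = true) : False :=
  rf h true 0 1 2 449 249 443 237 (by decide +kernel) h1 h2 h3 h4

theorem c3030 (h : Good α) (h1 : α 237 = false) (h2 : α 250 = false) (h3 : α 351 = false) (h4 : α 354 = false) : False :=
  rf h false 0 4 1 237 250 351 354 (by decide +kernel) h1 h2 h3 h4

theorem c3031 (h : Good α) (h1 : α 237 = true) (h2 : α 250 = true) (h3 : α 351 = true) (h4 : α 354 = true) : False :=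
  rf h true 0 4 1 237 250 351 354 (by decide +kernel) h1 h2 h3 h4

theorem c3032 (h : Good α) (h1 : α 237 = false) (h2 : α 250 = false) (h3 : α 534 = false) (h4 : α 546 = false) : False :=
  rf h false 0 4 2 237 250 534 546 (by decide +kernel) h1 h2 h3 h4

theorem c3033 (h : Good α) (h1 : α 237 = true) (h2 : α 250 = true) (h3 : α 534 = true) (h4 : α 546 = true) : False :=
  rf h true 0 4 2 237 250 534 546 (by decide +kernel) h1 h2 h3 h4

theorem c3034 (h : Good α) (h1 : α 298 = false) (h2 : α 237 = false) (h3 : α 257 = false) : False :=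
  af h false 2 298 237 257 (by decide +kernel) h1 h2 h3

theorem c3035 (h : Good α) (h1 : α 298 = true) (h2 : α 237 = true) (h3 : α 257 = true) : False :=
  af h true 2 298 237 257 (by decide +kernel) h1 h2 h3

theorem c3036 (h : Good α) (h1 : α 237 = false) (h2 : α 257 = false) (h3 : α 380 = false) : False :=
  af h false 2 237 257 380 (by decide +kernel) h1 h2 h3

theorem c3037 (h : Good α) (h1 : α 237 = true) (h2 : α 257 = true) (h3 : α 380 = true) : False :=
  af h true 2 237 257 380 (by decide +kernel) h1 h2 h3

theorem c3038 (h : Good α) (h1 : α 237 = false) (h2 : α 257 = false) (h3 : α 457 = false) (h4 : α 481 = false) : False :=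
  rf h false 2 1 1 237 257 457 481 (by decide +kernel) h1 h2 h3 h4

theorem c3039 (h : Good α) (h1 : α 443 = false) (h2 : α 237 = false) (h3 : α 543 = false) (h4 : α 351 = false) : False :=
  rf h false 0 1 1 443 237 543 351 (by decide +kernel) h1 h2 h3 h4

theorem c3040 (h : Good α) (h1 : α 443 = true) (h2 : α 237 = true) (h3 : α 543 = true) (h4 : α 351 = true) : False :=
  rf h true 0 1 1 443 237 543 351 (by decide +kernel) h1 h2 h3 h4

theorem c3041 (h : Good α) (h1 : α 237 = false) (h2 : α 351 = false) (h3 : α 534 = false) : False :=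
  af h false 3 237 351 534 (by decide +kernel) h1 h2 h3

theorem c3042 (h : Good α) (h1 : α 237 = true) (h2 : α 351 = true) (h3 : α 534 = true) : False :=
  af h true 3 237 351 534 (by decide +kernel) h1 h2 h3

theorem c3043 (h : Good α) (h1 : α 547 = false) (h2 : α 353 = false) (h3 : α 443 = false) (h4 : α 237 = false) : False :=
  rf h false 0 1 3 547 353 443 237 (by decide +kernel) h1 h2 h3 h4

theorem c3044 (h : Good α) (h1 : α 547 = true) (h2 : α 353 = true) (h3 : α 443 = true) (h4 : α 237 = true) : False :=
  rf h true 0 1 3 547 353 443 237 (by decide +kernel) h1 h2 h3 h4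

theorem c3045 (h : Good α) (h1 : α 390 = true) (h2 : α 237 = true) (h3 : α 555 = true) (h4 : α 423 = true) : False :=
  rf h true 1 1 1 390 237 555 423 (by decide +kernel) h1 h2 h3 h4

theorem c3046 (h : Good α) (h1 : α 578 = false) (h2 : α 390 = false) (h3 : α 237 = false) : False :=
  af h false 1 578 390 237 (by decide +kernel) h1 h2 h3

theorem c3047 (h : Good α) (h1 : α 578 = true) (h2 : α 390 = true) (h3 : α 237 = true) : False :=
  af h true 1 578 390 237 (by decide +kernel) h1 h2 h3

theorem c3048 (h : Good α) (h1 : α 353 = false) (h2 : α 352 = false) (h3 : α 249 = false) (h4 : α 238 = false) : False :=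
  rf h false 0 4 1 353 352 249 238 (by decide +kernel) h1 h2 h3 h4

theorem c3049 (h : Good α) (h1 : α 353 = true) (h2 : α 352 = true) (h3 : α 249 = true) (h4 : α 238 = true) : False :=
  rf h true 0 4 1 353 352 249 238 (by decide +kernel) h1 h2 h3 h4

theorem c3050 (h : Good α) (h1 : α 545 = false) (h2 : α 535 = false) (h3 : α 249 = false) (h4 : α 238 = false) : False :=
  rf h false 0 4 2 545 535 249 238 (by decide +kernel) h1 h2 h3 h4

theorem c3051 (h : Good α) (h1 : α 545 = true) (h2 : α 535 = true) (h3 : α 249 = true) (h4 : α 238 = true) : False :=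
  rf h true 0 4 2 545 535 249 238 (by decide +kernel) h1 h2 h3 h4

theorem c3052 (h : Good α) (h1 : α 264 = false) (h2 : α 238 = false) (h3 : α 299 = false) : False :=
  af h false 2 264 238 299 (by decide +kernel) h1 h2 h3

theorem c3053 (h : Good α) (h1 : α 264 = true) (h2 : α 238 = true) (h3 : α 299 = true) : False :=
  af h true 2 264 238 299 (by decide +kernel) h1 h2 h3

theorem c3054 (h : Good α) (h1 : α 383 = false) (h2 : α 264 = false) (h3 : α 238 = false) : False :=
  af h false 2 383 264 238 (by decide +kernel) h1 h2 h3

theorem c3055 (h : Good α) (h1 : α 383 = true) (h2 : α 264 = true) (h3 : α 238 = true) : False :=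
  af h true 2 383 264 238 (by decide +kernel) h1 h2 h3

theorem c3056 (h : Good α) (h1 : α 535 = false) (h2 : α 352 = false) (h3 : α 238 = false) : False :=
  af h false 3 535 352 238 (by decide +kernel) h1 h2 h3

theorem c3057 (h : Good α) (h1 : α 535 = true) (h2 : α 352 = true) (h3 : α 238 = true) : False :=
  af h true 3 535 352 238 (by decide +kernel) h1 h2 h3

theorem c3058 (h : Good α) (h1 : α 238 = false) (h2 : α 391 = false) (h3 : α 579 = false) : False :=
  af h false 1 238 391 579 (by decide +kernel) h1 h2 h3

theorem c3059 (h : Good α) (h1 : α 238 = true) (h2 : α 391 = true) (h3 : α 579 = true) : False :=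
  af h true 1 238 391 579 (by decide +kernel) h1 h2 h3

theorem c3060 (h : Good α) (h1 : α 300 = false) (h2 : α 239 = false) (h3 : α 271 = false) : False :=
  af h false 5 300 239 271 (by decide +kernel) h1 h2 h3

theorem c3061 (h : Good α) (h1 : α 239 = false) (h2 : α 271 = false) (h3 : α 393 = false) : False :=
  af h false 5 239 271 393 (by decide +kernel) h1 h2 h3

theorem c3062 (h : Good α) (h1 : α 239 = true) (h2 : α 271 = true) (h3 : α 393 = true) : False :=
  af h true 5 239 271 393 (by decide +kernel) h1 h2 h3

theorem c3063 (h : Good α) (h1 : α 459 = true) (h2 : α 239 = true) (h3 : α 485 = true) (h4 : α 271 = true) : False :=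
  rf h true 2 1 1 459 239 485 271 (by decide +kernel) h1 h2 h3 h4

theorem c3064 (h : Good α) (h1 : α 545 = true) (h2 : α 446 = true) (h3 : α 353 = true) (h4 : α 239 = true) : False :=
  rf h true 0 1 1 545 446 353 239 (by decide +kernel) h1 h2 h3 h4

theorem c3065 (h : Good α) (h1 : α 547 = false) (h2 : α 353 = false) (h3 : α 239 = false) : False :=
  af h false 0 547 353 239 (by decide +kernel) h1 h2 h3

theorem c3066 (h : Good α) (h1 : α 547 = true) (h2 : α 353 = true) (h3 : α 239 = true) : False :=
  af h true 0 547 353 239 (by decide +kernel) h1 h2 h3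

theorem c3067 (h : Good α) (h1 : α 577 = false) (h2 : α 386 = false) (h3 : α 239 = false) : False :=
  af h false 4 577 386 239 (by decide +kernel) h1 h2 h3

theorem c3068 (h : Good α) (h1 : α 577 = true) (h2 : α 386 = true) (h3 : α 239 = true) : False :=
  af h true 4 577 386 239 (by decide +kernel) h1 h2 h3

theorem c3069 (h : Good α) (h1 : α 459 = false) (h2 : α 239 = false) (h3 : α 580 = false) (h4 : α 393 = false) : False :=
  rf h false 2 1 2 459 239 580 393 (by decide +kernel) h1 h2 h3 h4

theorem c3070 (h : Good α) (h1 : α 254 = false) (h2 : α 240 = false) (h3 : α 293 = false) : False :=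
  af h false 3 254 240 293 (by decide +kernel) h1 h2 h3

theorem c3071 (h : Good α) (h1 : α 254 = true) (h2 : α 240 = true) (h3 : α 293 = true) : False :=
  af h true 3 254 240 293 (by decide +kernel) h1 h2 h3

theorem c3072 (h : Good α) (h1 : α 385 = false) (h2 : α 254 = false) (h3 : α 240 = false) : False :=
  af h false 3 385 254 240 (by decide +kernel) h1 h2 h3

theorem c3073 (h : Good α) (h1 : α 240 = false) (h2 : α 381 = false) (h3 : α 574 = false) : False :=
  af h false 4 240 381 574 (by decide +kernel) h1 h2 h3

theorem c3074 (h : Good α) (h1 : α 580 = false) (h2 : α 385 = false) (h3 : α 467 = false) (h4 : α 240 = false) : False :=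
  rf h false 0 1 2 580 385 467 240 (by decide +kernel) h1 h2 h3 h4

theorem c3075 (h : Good α) (h1 : α 241 = false) (h2 : α 255 = false) (h3 : α 388 = false) : False :=
  af h false 3 241 255 388 (by decide +kernel) h1 h2 h3

theorem c3076 (h : Good α) (h1 : α 575 = true) (h2 : α 382 = true) (h3 : α 241 = true) : False :=
  af h true 4 575 382 241 (by decide +kernel) h1 h2 h3

theorem c3077 (h : Good α) (h1 : α 274 = false) (h2 : α 242 = false) (h3 : α 303 = false) : False :=
  af h false 5 274 242 303 (by decide +kernel) h1 h2 h3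

theorem c3078 (h : Good α) (h1 : α 396 = false) (h2 : α 274 = false) (h3 : α 242 = false) : False :=
  af h false 5 396 274 242 (by decide +kernel) h1 h2 h3

theorem c3079 (h : Good α) (h1 : α 396 = true) (h2 : α 274 = true) (h3 : α 242 = true) : False :=
  af h true 5 396 274 242 (by decide +kernel) h1 h2 h3

theorem c3080 (h : Good α) (h1 : α 274 = true) (h2 : α 486 = true) (h3 : α 242 = true) (h4 : α 462 = true) : False :=
  rf h true 2 1 1 274 486 242 462 (by decide +kernel) h1 h2 h3 h4

theorem c3081 (h : Good α) (h1 : α 351 = false) (h2 : α 242 = false) (h3 : α 534 = false) (h4 : α 447 = false) : False :=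
  rf h false 0 3 1 351 242 534 447 (by decide +kernel) h1 h2 h3 h4

theorem c3082 (h : Good α) (h1 : α 242 = true) (h2 : α 354 = true) (h3 : α 447 = true) (h4 : α 546 = true) : False :=
  rf h true 0 1 1 242 354 447 546 (by decide +kernel) h1 h2 h3 h4

theorem c3083 (h : Good α) (h1 : α 242 = true) (h2 : α 354 = true) (h3 : α 548 = true) : False :=
  af h true 0 242 354 548 (by decide +kernel) h1 h2 h3

theorem c3084 (h : Good α) (h1 : α 242 = false) (h2 : α 387 = false) (h3 : α 576 = false) : False :=
  af h false 4 242 387 576 (by decide +kernel) h1 h2 h3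

theorem c3085 (h : Good α) (h1 : α 242 = true) (h2 : α 387 = true) (h3 : α 576 = true) : False :=
  af h true 4 242 387 576 (by decide +kernel) h1 h2 h3

theorem c3086 (h : Good α) (h1 : α 295 = false) (h2 : α 243 = false) (h3 : α 275 = false) : False :=
  af h false 4 295 243 275 (by decide +kernel) h1 h2 h3

theorem c3087 (h : Good α) (h1 : α 295 = true) (h2 : α 243 = true) (h3 : α 275 = true) : False :=
  af h true 4 295 243 275 (by decide +kernel) h1 h2 h3

theorem c3088 (h : Good α) (h1 : α 243 = false) (h2 : α 275 = false) (h3 : α 390 = false) : False :=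
  af h false 4 243 275 390 (by decide +kernel) h1 h2 h3

theorem c3089 (h : Good α) (h1 : α 376 = false) (h2 : α 260 = false) (h3 : α 244 = false) : False :=
  af h false 0 376 260 244 (by decide +kernel) h1 h2 h3

theorem c3090 (h : Good α) (h1 : α 376 = true) (h2 : α 260 = true) (h3 : α 244 = true) : False :=
  af h true 0 376 260 244 (by decide +kernel) h1 h2 h3

theorem c3091 (h : Good α) (h1 : α 348 = true) (h2 : α 349 = true) (h3 : α 245 = true) (h4 : α 246 = true) : False :=
  rf h true 2 4 1 348 349 245 246 (by decide +kernel) h1 h2 h3 h4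

theorem c3092 (h : Good α) (h1 : α 308 = false) (h2 : α 245 = false) (h3 : α 261 = false) : False :=
  af h false 0 308 245 261 (by decide +kernel) h1 h2 h3

theorem c3093 (h : Good α) (h1 : α 276 = false) (h2 : α 246 = false) (h3 : α 291 = false) : False :=
  af h false 4 276 246 291 (by decide +kernel) h1 h2 h3

theorem c3094 (h : Good α) (h1 : α 247 = true) (h2 : α 265 = true) (h3 : α 378 = true) : False :=
  af h true 5 247 265 378 (by decide +kernel) h1 h2 h3

theorem c3095 (h : Good α) (h1 : α 247 = false) (h2 : α 464 = false) (h3 : α 378 = false) (h4 : α 576 = false) : False :=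
  rf h false 2 1 2 247 464 378 576 (by decide +kernel) h1 h2 h3 h4

theorem c3096 (h : Good α) (h1 : α 379 = false) (h2 : α 266 = false) (h3 : α 248 = false) : False :=
  af h false 5 379 266 248 (by decide +kernel) h1 h2 h3

theorem c3097 (h : Good α) (h1 : α 580 = false) (h2 : α 385 = false) (h3 : α 248 = false) : False :=
  af h false 0 580 385 248 (by decide +kernel) h1 h2 h3

theorem c3098 (h : Good α) (h1 : α 272 = false) (h2 : α 249 = false) (h3 : α 306 = false) : False :=
  af h false 4 272 249 306 (by decide +kernel) h1 h2 h3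

theorem c3099 (h : Good α) (h1 : α 272 = true) (h2 : α 249 = true) (h3 : α 306 = true) : False :=
  af h true 4 272 249 306 (by decide +kernel) h1 h2 h3

theorem c3100 (h : Good α) (h1 : α 398 = false) (h2 : α 272 = false) (h3 : α 249 = false) : False :=
  af h false 4 398 272 249 (by decide +kernel) h1 h2 h3

theorem c3101 (h : Good α) (h1 : α 398 = true) (h2 : α 272 = true) (h3 : α 249 = true) : False :=
  af h true 4 398 272 249 (by decide +kernel) h1 h2 h3

theorem c3102 (h : Good α) (h1 : α 449 = false) (h2 : α 249 = false) (h3 : α 543 = false) (h4 : α 351 = false) : False :=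
  rf h false 0 1 3 449 249 543 351 (by decide +kernel) h1 h2 h3 h4

theorem c3103 (h : Good α) (h1 : α 449 = true) (h2 : α 249 = true) (h3 : α 543 = true) (h4 : α 351 = true) : False :=
  rf h true 0 1 3 449 249 543 351 (by decide +kernel) h1 h2 h3 h4

theorem c3104 (h : Good α) (h1 : α 545 = false) (h2 : α 353 = false) (h3 : α 249 = false) : False :=
  af h false 3 545 353 249 (by decide +kernel) h1 h2 h3

theorem c3105 (h : Good α) (h1 : α 545 = true) (h2 : α 353 = true) (h3 : α 249 = true) : False :=
  af h true 3 545 353 249 (by decide +kernel) h1 h2 h3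

theorem c3106 (h : Good α) (h1 : α 429 = true) (h2 : α 249 = true) (h3 : α 566 = true) (h4 : α 392 = true) : False :=
  rf h true 2 1 1 429 249 566 392 (by decide +kernel) h1 h2 h3 h4

theorem c3107 (h : Good α) (h1 : α 249 = false) (h2 : α 392 = false) (h3 : α 578 = false) : False :=
  af h false 5 249 392 578 (by decide +kernel) h1 h2 h3

theorem c3108 (h : Good α) (h1 : α 249 = true) (h2 : α 392 = true) (h3 : α 578 = true) : False :=
  af h true 5 249 392 578 (by decide +kernel) h1 h2 h3

theorem c3109 (h : Good α) (h1 : α 307 = false) (h2 : α 250 = false) (h3 : α 273 = false) : False :=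
  af h false 4 307 250 273 (by decide +kernel) h1 h2 h3

theorem c3110 (h : Good α) (h1 : α 307 = true) (h2 : α 250 = true) (h3 : α 273 = true) : False :=
  af h true 4 307 250 273 (by decide +kernel) h1 h2 h3

theorem c3111 (h : Good α) (h1 : α 250 = false) (h2 : α 273 = false) (h3 : α 399 = false) : False :=
  af h false 4 250 273 399 (by decide +kernel) h1 h2 h3

theorem c3112 (h : Good α) (h1 : α 250 = true) (h2 : α 273 = true) (h3 : α 399 = true) : False :=
  af h true 4 250 273 399 (by decide +kernel) h1 h2 h3

theorem c3113 (h : Good α) (h1 : α 250 = false) (h2 : α 473 = false) (h3 : α 273 = false) (h4 : α 486 = false) : False :=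
  rf h false 1 1 1 250 473 273 486 (by decide +kernel) h1 h2 h3 h4

theorem c3114 (h : Good α) (h1 : α 250 = true) (h2 : α 473 = true) (h3 : α 273 = true) (h4 : α 486 = true) : False :=
  rf h true 1 1 1 250 473 273 486 (by decide +kernel) h1 h2 h3 h4

theorem c3115 (h : Good α) (h1 : α 250 = false) (h2 : α 354 = false) (h3 : α 546 = false) : False :=
  af h false 3 250 354 546 (by decide +kernel) h1 h2 h3

theorem c3116 (h : Good α) (h1 : α 250 = true) (h2 : α 354 = true) (h3 : α 546 = true) : False :=
  af h true 3 250 354 546 (by decide +kernel) h1 h2 h3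

theorem c3117 (h : Good α) (h1 : α 579 = true) (h2 : α 397 = true) (h3 : α 250 = true) : False :=
  af h true 5 579 397 250 (by decide +kernel) h1 h2 h3

theorem c3118 (h : Good α) (h1 : α 251 = true) (h2 : α 258 = true) (h3 : α 384 = true) : False :=
  af h true 3 251 258 384 (by decide +kernel) h1 h2 h3

theorem c3119 (h : Good α) (h1 : α 263 = true) (h2 : α 252 = true) (h3 : α 311 = true) : False :=
  af h true 3 263 252 311 (by decide +kernel) h1 h2 h3

theorem c3120 (h : Good α) (h1 : α 263 = true) (h2 : α 476 = true) (h3 : α 252 = true) (h4 : α 474 = true) : False :=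
  rf h true 0 1 1 263 476 252 474 (by decide +kernel) h1 h2 h3 h4

theorem c3121 (h : Good α) (h1 : α 252 = true) (h2 : α 396 = true) (h3 : α 581 = true) : False :=
  af h true 2 252 396 581 (by decide +kernel) h1 h2 h3

theorem c3122 (h : Good α) (h1 : α 368 = true) (h2 : α 281 = true) (h3 : α 253 = true) : False :=
  af h true 3 368 281 253 (by decide +kernel) h1 h2 h3

theorem c3123 (h : Good α) (h1 : α 253 = false) (h2 : α 336 = false) (h3 : α 481 = false) : False :=
  af h false 3 253 336 481 (by decide +kernel) h1 h2 h3

theorem c3124 (h : Good α) (h1 : α 253 = true) (h2 : α 336 = true) (h3 : α 481 = true) : False :=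
  af h true 3 253 336 481 (by decide +kernel) h1 h2 h3

theorem c3125 (h : Good α) (h1 : α 566 = false) (h2 : α 392 = false) (h3 : α 253 = false) : False :=
  af h false 2 566 392 253 (by decide +kernel) h1 h2 h3

theorem c3126 (h : Good α) (h1 : α 469 = false) (h2 : α 269 = false) (h3 : α 460 = false) (h4 : α 254 = false) : False :=
  rf h false 2 1 3 469 269 460 254 (by decide +kernel) h1 h2 h3 h4

theorem c3127 (h : Good α) (h1 : α 283 = false) (h2 : α 254 = false) (h3 : α 338 = false) : False :=
  af h false 4 283 254 338 (by decide +kernel) h1 h2 h3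

theorem c3128 (h : Good α) (h1 : α 254 = false) (h2 : α 338 = false) (h3 : α 475 = false) : False :=
  af h false 4 254 338 475 (by decide +kernel) h1 h2 h3

theorem c3129 (h : Good α) (h1 : α 568 = false) (h2 : α 385 = false) (h3 : α 254 = false) : False :=
  af h false 3 568 385 254 (by decide +kernel) h1 h2 h3

theorem c3130 (h : Good α) (h1 : α 343 = false) (h2 : α 255 = false) (h3 : α 282 = false) : False :=
  af h false 4 343 255 282 (by decide +kernel) h1 h2 h3

theorem c3131 (h : Good α) (h1 : α 343 = true) (h2 : α 255 = true) (h3 : α 282 = true) : False :=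
  af h true 4 343 255 282 (by decide +kernel) h1 h2 h3

theorem c3132 (h : Good α) (h1 : α 255 = false) (h2 : α 282 = false) (h3 : α 357 = false) : False :=
  af h false 4 255 282 357 (by decide +kernel) h1 h2 h3

theorem c3133 (h : Good α) (h1 : α 476 = false) (h2 : α 343 = false) (h3 : α 255 = false) : False :=
  af h false 4 476 343 255 (by decide +kernel) h1 h2 h3

theorem c3134 (h : Good α) (h1 : α 476 = true) (h2 : α 343 = true) (h3 : α 255 = true) : False :=
  af h true 4 476 343 255 (by decide +kernel) h1 h2 h3

theorem c3135 (h : Good α) (h1 : α 255 = false) (h2 : α 388 = false) (h3 : α 569 = false) : False :=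
  af h false 3 255 388 569 (by decide +kernel) h1 h2 h3

theorem c3136 (h : Good α) (h1 : α 256 = false) (h2 : α 284 = false) (h3 : α 370 = false) : False :=
  af h false 3 256 284 370 (by decide +kernel) h1 h2 h3

theorem c3137 (h : Good α) (h1 : α 257 = false) (h2 : α 273 = false) (h3 : α 451 = false) (h4 : α 462 = false) : False :=
  rf h false 0 3 1 257 273 451 462 (by decide +kernel) h1 h2 h3 h4

theorem c3138 (h : Good α) (h1 : α 336 = false) (h2 : α 257 = false) (h3 : α 277 = false) : False :=
  af h false 1 336 257 277 (by decide +kernel) h1 h2 h3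

theorem c3139 (h : Good α) (h1 : α 336 = true) (h2 : α 257 = true) (h3 : α 277 = true) : False :=
  af h true 1 336 257 277 (by decide +kernel) h1 h2 h3

theorem c3140 (h : Good α) (h1 : α 257 = true) (h2 : α 277 = true) (h3 : α 365 = true) : False :=
  af h true 1 257 277 365 (by decide +kernel) h1 h2 h3

theorem c3141 (h : Good α) (h1 : α 475 = false) (h2 : α 336 = false) (h3 : α 257 = false) : False :=
  af h false 1 475 336 257 (by decide +kernel) h1 h2 h3

theorem c3142 (h : Good α) (h1 : α 336 = false) (h2 : α 257 = false) (h3 : α 549 = false) (h4 : α 487 = false) : False :=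
  rf h false 1 1 1 336 257 549 487 (by decide +kernel) h1 h2 h3 h4

theorem c3143 (h : Good α) (h1 : α 257 = false) (h2 : α 380 = false) (h3 : α 550 = false) : False :=
  af h false 2 257 380 550 (by decide +kernel) h1 h2 h3

theorem c3144 (h : Good α) (h1 : α 257 = true) (h2 : α 380 = true) (h3 : α 550 = true) : False :=
  af h true 2 257 380 550 (by decide +kernel) h1 h2 h3

theorem c3145 (h : Good α) (h1 : α 258 = false) (h2 : α 265 = false) (h3 : α 453 = false) (h4 : α 463 = false) : False :=
  rf h false 1 3 1 258 265 453 463 (by decide +kernel) h1 h2 h3 h4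

theorem c3146 (h : Good α) (h1 : α 338 = false) (h2 : α 258 = false) (h3 : α 278 = false) : False :=
  af h false 2 338 258 278 (by decide +kernel) h1 h2 h3

theorem c3147 (h : Good α) (h1 : α 338 = true) (h2 : α 258 = true) (h3 : α 278 = true) : False :=
  af h true 2 338 258 278 (by decide +kernel) h1 h2 h3

theorem c3148 (h : Good α) (h1 : α 258 = true) (h2 : α 278 = true) (h3 : α 358 = true) : False :=
  af h true 2 258 278 358 (by decide +kernel) h1 h2 h3

theorem c3149 (h : Good α) (h1 : α 477 = false) (h2 : α 338 = false) (h3 : α 258 = false) : False :=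
  af h false 2 477 338 258 (by decide +kernel) h1 h2 h3

theorem c3150 (h : Good α) (h1 : α 477 = true) (h2 : α 338 = true) (h3 : α 258 = true) : False :=
  af h true 2 477 338 258 (by decide +kernel) h1 h2 h3

theorem c3151 (h : Good α) (h1 : α 258 = false) (h2 : α 384 = false) (h3 : α 560 = false) : False :=
  af h false 3 258 384 560 (by decide +kernel) h1 h2 h3

theorem c3152 (h : Good α) (h1 : α 258 = true) (h2 : α 384 = true) (h3 : α 560 = true) : False :=
  af h true 3 258 384 560 (by decide +kernel) h1 h2 h3

theorem c3153 (h : Good α) (h1 : α 285 = false) (h2 : α 259 = false) (h3 : α 339 = false) : False :=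
  af h false 2 285 259 339 (by decide +kernel) h1 h2 h3

theorem c3154 (h : Good α) (h1 : α 285 = true) (h2 : α 259 = true) (h3 : α 339 = true) : False :=
  af h true 2 285 259 339 (by decide +kernel) h1 h2 h3

theorem c3155 (h : Good α) (h1 : α 372 = false) (h2 : α 285 = false) (h3 : α 259 = false) : False :=
  af h false 2 372 285 259 (by decide +kernel) h1 h2 h3

theorem c3156 (h : Good α) (h1 : α 372 = true) (h2 : α 285 = true) (h3 : α 259 = true) : False :=
  af h true 2 372 285 259 (by decide +kernel) h1 h2 h3

theorem c3157 (h : Good α) (h1 : α 259 = false) (h2 : α 339 = false) (h3 : α 478 = false) : False :=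
  af h false 2 259 339 478 (by decide +kernel) h1 h2 h3

theorem c3158 (h : Good α) (h1 : α 551 = false) (h2 : α 381 = false) (h3 : α 259 = false) : False :=
  af h false 1 551 381 259 (by decide +kernel) h1 h2 h3

theorem c3159 (h : Good α) (h1 : α 551 = true) (h2 : α 381 = true) (h3 : α 259 = true) : False :=
  af h true 1 551 381 259 (by decide +kernel) h1 h2 h3

theorem c3160 (h : Good α) (h1 : α 275 = false) (h2 : α 260 = false) (h3 : α 467 = false) (h4 : α 454 = false) : False :=
  rf h false 2 3 1 275 260 467 454 (by decide +kernel) h1 h2 h3 h4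

theorem c3161 (h : Good α) (h1 : α 278 = false) (h2 : α 260 = false) (h3 : α 340 = false) : False :=
  af h false 1 278 260 340 (by decide +kernel) h1 h2 h3

theorem c3162 (h : Good α) (h1 : α 278 = true) (h2 : α 260 = true) (h3 : α 340 = true) : False :=
  af h true 1 278 260 340 (by decide +kernel) h1 h2 h3

theorem c3163 (h : Good α) (h1 : α 260 = false) (h2 : α 340 = false) (h3 : α 483 = false) : False :=
  af h false 1 260 340 483 (by decide +kernel) h1 h2 h3

theorem c3164 (h : Good α) (h1 : α 260 = true) (h2 : α 340 = true) (h3 : α 483 = true) : False :=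
  af h true 1 260 340 483 (by decide +kernel) h1 h2 h3

theorem c3165 (h : Good α) (h1 : α 549 = false) (h2 : α 376 = false) (h3 : α 260 = false) : False :=
  af h false 0 549 376 260 (by decide +kernel) h1 h2 h3

theorem c3166 (h : Good α) (h1 : α 549 = true) (h2 : α 376 = true) (h3 : α 260 = true) : False :=
  af h true 0 549 376 260 (by decide +kernel) h1 h2 h3

theorem c3167 (h : Good α) (h1 : α 341 = false) (h2 : α 261 = false) (h3 : α 279 = false) : False :=
  af h false 1 341 261 279 (by decide +kernel) h1 h2 h3

theorem c3168 (h : Good α) (h1 : α 261 = false) (h2 : α 279 = false) (h3 : α 356 = false) : False :=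
  af h false 1 261 279 356 (by decide +kernel) h1 h2 h3

theorem c3169 (h : Good α) (h1 : α 261 = false) (h2 : α 377 = false) (h3 : α 554 = false) : False :=
  af h false 0 261 377 554 (by decide +kernel) h1 h2 h3

theorem c3170 (h : Good α) (h1 : α 342 = false) (h2 : α 262 = false) (h3 : α 288 = false) : False :=
  af h false 2 342 262 288 (by decide +kernel) h1 h2 h3

theorem c3171 (h : Good α) (h1 : α 262 = false) (h2 : α 288 = false) (h3 : α 373 = false) : False :=
  af h false 2 262 288 373 (by decide +kernel) h1 h2 h3

theorem c3172 (h : Good α) (h1 : α 479 = false) (h2 : α 342 = false) (h3 : α 262 = false) : False :=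
  af h false 2 479 342 262 (by decide +kernel) h1 h2 h3

theorem c3173 (h : Good α) (h1 : α 279 = false) (h2 : α 263 = false) (h3 : α 343 = false) : False :=
  af h false 2 279 263 343 (by decide +kernel) h1 h2 h3

theorem c3174 (h : Good α) (h1 : α 360 = true) (h2 : α 279 = true) (h3 : α 263 = true) : False :=
  af h true 2 360 279 263 (by decide +kernel) h1 h2 h3

theorem c3175 (h : Good α) (h1 : α 263 = true) (h2 : α 343 = true) (h3 : α 480 = true) : False :=
  af h true 2 263 343 480 (by decide +kernel) h1 h2 h3

theorem c3176 (h : Good α) (h1 : α 563 = false) (h2 : α 389 = false) (h3 : α 263 = false) : False :=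
  af h false 3 563 389 263 (by decide +kernel) h1 h2 h3

theorem c3177 (h : Good α) (h1 : α 366 = false) (h2 : α 280 = false) (h3 : α 264 = false) : False :=
  af h false 1 366 280 264 (by decide +kernel) h1 h2 h3

theorem c3178 (h : Good α) (h1 : α 520 = false) (h2 : α 494 = false) (h3 : α 280 = false) (h4 : α 264 = false) : False :=
  rf h false 1 1 1 520 494 280 264 (by decide +kernel) h1 h2 h3 h4

theorem c3179 (h : Good α) (h1 : α 264 = true) (h2 : α 337 = true) (h3 : α 476 = true) : False :=
  af h true 1 264 337 476 (by decide +kernel) h1 h2 h3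

theorem c3180 (h : Good α) (h1 : α 553 = true) (h2 : α 383 = true) (h3 : α 264 = true) : False :=
  af h true 2 553 383 264 (by decide +kernel) h1 h2 h3

theorem c3181 (h : Good α) (h1 : α 361 = false) (h2 : α 277 = false) (h3 : α 265 = false) : False :=
  af h false 0 361 277 265 (by decide +kernel) h1 h2 h3

theorem c3182 (h : Good α) (h1 : α 265 = false) (h2 : α 345 = false) (h3 : α 486 = false) : False :=
  af h false 0 265 345 486 (by decide +kernel) h1 h2 h3

theorem c3183 (h : Good α) (h1 : α 265 = true) (h2 : α 483 = true) (h3 : α 378 = true) (h4 : α 576 = true) : False :=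
  rf h true 2 1 1 265 483 378 576 (by decide +kernel) h1 h2 h3 h4

theorem c3184 (h : Good α) (h1 : α 265 = false) (h2 : α 378 = false) (h3 : α 561 = false) : False :=
  af h false 5 265 378 561 (by decide +kernel) h1 h2 h3

theorem c3185 (h : Good α) (h1 : α 344 = false) (h2 : α 266 = false) (h3 : α 280 = false) : False :=
  af h false 0 344 266 280 (by decide +kernel) h1 h2 h3

theorem c3186 (h : Good α) (h1 : α 266 = false) (h2 : α 280 = false) (h3 : α 364 = false) : False :=
  af h false 0 266 280 364 (by decide +kernel) h1 h2 h3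

theorem c3187 (h : Good α) (h1 : α 485 = false) (h2 : α 344 = false) (h3 : α 266 = false) : False :=
  af h false 0 485 344 266 (by decide +kernel) h1 h2 h3

theorem c3188 (h : Good α) (h1 : α 485 = true) (h2 : α 344 = true) (h3 : α 266 = true) : False :=
  af h true 0 485 344 266 (by decide +kernel) h1 h2 h3

theorem c3189 (h : Good α) (h1 : α 562 = false) (h2 : α 379 = false) (h3 : α 266 = false) : False :=
  af h false 5 562 379 266 (by decide +kernel) h1 h2 h3

theorem c3190 (h : Good α) (h1 : α 562 = true) (h2 : α 379 = true) (h3 : α 266 = true) : False :=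
  af h true 5 562 379 266 (by decide +kernel) h1 h2 h3

theorem c3191 (h : Good α) (h1 : α 282 = false) (h2 : α 267 = false) (h3 : α 340 = false) : False :=
  af h false 5 282 267 340 (by decide +kernel) h1 h2 h3

theorem c3192 (h : Good α) (h1 : α 282 = true) (h2 : α 267 = true) (h3 : α 340 = true) : False :=
  af h true 5 282 267 340 (by decide +kernel) h1 h2 h3

theorem c3193 (h : Good α) (h1 : α 359 = false) (h2 : α 282 = false) (h3 : α 267 = false) : False :=
  af h false 5 359 282 267 (by decide +kernel) h1 h2 h3

theorem c3194 (h : Good α) (h1 : α 359 = true) (h2 : α 282 = true) (h3 : α 267 = true) : False :=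
  af h true 5 359 282 267 (by decide +kernel) h1 h2 h3

theorem c3195 (h : Good α) (h1 : α 267 = false) (h2 : α 340 = false) (h3 : α 478 = false) : False :=
  af h false 5 267 340 478 (by decide +kernel) h1 h2 h3

theorem c3196 (h : Good α) (h1 : α 267 = true) (h2 : α 340 = true) (h3 : α 478 = true) : False :=
  af h true 5 267 340 478 (by decide +kernel) h1 h2 h3

theorem c3197 (h : Good α) (h1 : α 267 = true) (h2 : α 395 = true) (h3 : α 570 = true) : False :=
  af h true 0 267 395 570 (by decide +kernel) h1 h2 h3

theorem c3198 (h : Good α) (h1 : α 268 = false) (h2 : α 387 = false) (h3 : α 565 = false) : False :=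
  af h false 1 268 387 565 (by decide +kernel) h1 h2 h3

theorem c3199 (h : Good α) (h1 : α 286 = false) (h2 : α 269 = false) (h3 : α 342 = false) : False :=
  af h false 0 286 269 342 (by decide +kernel) h1 h2 h3

theorem c3200 (h : Good α) (h1 : α 286 = true) (h2 : α 269 = true) (h3 : α 342 = true) : False :=
  af h true 0 286 269 342 (by decide +kernel) h1 h2 h3

theorem c3201 (h : Good α) (h1 : α 374 = false) (h2 : α 286 = false) (h3 : α 269 = false) : False :=
  af h false 0 374 286 269 (by decide +kernel) h1 h2 h3

theorem c3202 (h : Good α) (h1 : α 269 = false) (h2 : α 342 = false) (h3 : α 482 = false) : False :=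
  af h false 0 269 342 482 (by decide +kernel) h1 h2 h3

theorem c3203 (h : Good α) (h1 : α 564 = false) (h2 : α 386 = false) (h3 : α 269 = false) : False :=
  af h false 1 564 386 269 (by decide +kernel) h1 h2 h3

theorem c3204 (h : Good α) (h1 : α 564 = true) (h2 : α 386 = true) (h3 : α 269 = true) : False :=
  af h true 1 564 386 269 (by decide +kernel) h1 h2 h3

theorem c3205 (h : Good α) (h1 : α 341 = false) (h2 : α 270 = false) (h3 : α 283 = false) : False :=
  af h false 5 341 270 283 (by decide +kernel) h1 h2 h3

theorem c3206 (h : Good α) (h1 : α 479 = false) (h2 : α 341 = false) (h3 : α 270 = false) : False :=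
  af h false 5 479 341 270 (by decide +kernel) h1 h2 h3

theorem c3207 (h : Good α) (h1 : α 479 = true) (h2 : α 341 = true) (h3 : α 270 = true) : False :=
  af h true 5 479 341 270 (by decide +kernel) h1 h2 h3

theorem c3208 (h : Good α) (h1 : α 567 = true) (h2 : α 394 = true) (h3 : α 270 = true) : False :=
  af h true 0 567 394 270 (by decide +kernel) h1 h2 h3

theorem c3209 (h : Good α) (h1 : α 271 = false) (h2 : α 281 = false) (h3 : α 367 = false) : False :=
  af h false 4 271 281 367 (by decide +kernel) h1 h2 h3

theorem c3210 (h : Good α) (h1 : α 485 = true) (h2 : α 271 = true) (h3 : α 580 = true) (h4 : α 393 = true) : False :=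
  rf h true 2 1 1 485 271 580 393 (by decide +kernel) h1 h2 h3 h4

theorem c3211 (h : Good α) (h1 : α 286 = false) (h2 : α 272 = false) (h3 : α 346 = false) : False :=
  af h false 5 286 272 346 (by decide +kernel) h1 h2 h3

theorem c3212 (h : Good α) (h1 : α 369 = true) (h2 : α 286 = true) (h3 : α 272 = true) : False :=
  af h true 5 369 286 272 (by decide +kernel) h1 h2 h3

theorem c3213 (h : Good α) (h1 : α 485 = false) (h2 : α 272 = false) (h3 : α 523 = false) (h4 : α 306 = false) : False :=
  rf h false 1 1 2 485 272 523 306 (by decide +kernel) h1 h2 h3 h4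

theorem c3214 (h : Good α) (h1 : α 272 = false) (h2 : α 346 = false) (h3 : α 477 = false) : False :=
  af h false 5 272 346 477 (by decide +kernel) h1 h2 h3

theorem c3215 (h : Good α) (h1 : α 272 = true) (h2 : α 346 = true) (h3 : α 477 = true) : False :=
  af h true 5 272 346 477 (by decide +kernel) h1 h2 h3

theorem c3216 (h : Good α) (h1 : α 559 = false) (h2 : α 398 = false) (h3 : α 272 = false) : False :=
  af h false 4 559 398 272 (by decide +kernel) h1 h2 h3

theorem c3217 (h : Good α) (h1 : α 347 = false) (h2 : α 273 = false) (h3 : α 287 = false) : False :=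
  af h false 5 347 273 287 (by decide +kernel) h1 h2 h3

theorem c3218 (h : Good α) (h1 : α 480 = false) (h2 : α 347 = false) (h3 : α 273 = false) : False :=
  af h false 5 480 347 273 (by decide +kernel) h1 h2 h3

theorem c3219 (h : Good α) (h1 : α 480 = true) (h2 : α 347 = true) (h3 : α 273 = true) : False :=
  af h true 5 480 347 273 (by decide +kernel) h1 h2 h3

theorem c3220 (h : Good α) (h1 : α 273 = true) (h2 : α 399 = true) (h3 : α 558 = true) : False :=
  af h true 4 273 399 558 (by decide +kernel) h1 h2 h3

theorem c3221 (h : Good α) (h1 : α 284 = false) (h2 : α 274 = false) (h3 : α 345 = false) : False :=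
  af h false 4 284 274 345 (by decide +kernel) h1 h2 h3

theorem c3222 (h : Good α) (h1 : α 284 = true) (h2 : α 274 = true) (h3 : α 345 = true) : False :=
  af h true 4 284 274 345 (by decide +kernel) h1 h2 h3

theorem c3223 (h : Good α) (h1 : α 371 = false) (h2 : α 284 = false) (h3 : α 274 = false) : False :=
  af h false 4 371 284 274 (by decide +kernel) h1 h2 h3

theorem c3224 (h : Good α) (h1 : α 274 = true) (h2 : α 509 = true) (h3 : α 345 = true) (h4 : α 569 = true) : False :=
  rf h true 1 1 1 274 509 345 569 (by decide +kernel) h1 h2 h3 h4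

theorem c3225 (h : Good α) (h1 : α 556 = false) (h2 : α 396 = false) (h3 : α 274 = false) : False :=
  af h false 5 556 396 274 (by decide +kernel) h1 h2 h3

theorem c3226 (h : Good α) (h1 : α 346 = false) (h2 : α 275 = false) (h3 : α 285 = false) : False :=
  af h false 3 346 275 285 (by decide +kernel) h1 h2 h3

theorem c3227 (h : Good α) (h1 : α 346 = true) (h2 : α 275 = true) (h3 : α 285 = true) : False :=
  af h true 3 346 275 285 (by decide +kernel) h1 h2 h3

theorem c3228 (h : Good α) (h1 : α 275 = false) (h2 : α 285 = false) (h3 : α 362 = false) : False :=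
  af h false 3 275 285 362 (by decide +kernel) h1 h2 h3

theorem c3229 (h : Good α) (h1 : α 485 = false) (h2 : α 346 = false) (h3 : α 275 = false) : False :=
  af h false 3 485 346 275 (by decide +kernel) h1 h2 h3

theorem c3230 (h : Good α) (h1 : α 485 = true) (h2 : α 346 = true) (h3 : α 275 = true) : False :=
  af h true 3 485 346 275 (by decide +kernel) h1 h2 h3

theorem c3231 (h : Good α) (h1 : α 477 = false) (h2 : α 275 = false) (h3 : α 578 = false) (h4 : α 390 = false) : False :=
  rf h false 1 1 1 477 275 578 390 (by decide +kernel) h1 h2 h3 h4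

theorem c3232 (h : Good α) (h1 : α 275 = false) (h2 : α 390 = false) (h3 : α 555 = false) : False :=
  af h false 4 275 390 555 (by decide +kernel) h1 h2 h3

theorem c3233 (h : Good α) (h1 : α 363 = false) (h2 : α 288 = false) (h3 : α 276 = false) : False :=
  af h false 3 363 288 276 (by decide +kernel) h1 h2 h3

theorem c3234 (h : Good α) (h1 : α 276 = false) (h2 : α 480 = false) (h3 : α 291 = false) (h4 : α 513 = false) : False :=
  rf h false 1 1 2 276 480 291 513 (by decide +kernel) h1 h2 h3 h4

theorem c3235 (h : Good α) (h1 : α 276 = false) (h2 : α 347 = false) (h3 : α 486 = false) : False :=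
  af h false 3 276 347 486 (by decide +kernel) h1 h2 h3

theorem c3236 (h : Good α) (h1 : α 276 = true) (h2 : α 347 = true) (h3 : α 486 = true) : False :=
  af h true 3 276 347 486 (by decide +kernel) h1 h2 h3

theorem c3237 (h : Good α) (h1 : α 391 = false) (h2 : α 579 = false) (h3 : α 276 = false) (h4 : α 480 = false) : False :=
  rf h false 1 1 1 391 579 276 480 (by decide +kernel) h1 h2 h3 h4

theorem c3238 (h : Good α) (h1 : α 557 = false) (h2 : α 391 = false) (h3 : α 276 = false) : False :=
  af h false 4 557 391 276 (by decide +kernel) h1 h2 h3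

theorem c3239 (h : Good α) (h1 : α 337 = true) (h2 : α 557 = true) (h3 : α 284 = true) (h4 : α 526 = true) : False :=
  rf h true 0 1 2 337 557 284 526 (by decide +kernel) h1 h2 h3 h4

theorem c3240 (h : Good α) (h1 : α 285 = true) (h2 : α 339 = true) (h3 : α 518 = true) (h4 : α 560 = true) : False :=
  rf h true 2 2 1 285 339 518 560 (by decide +kernel) h1 h2 h3 h4

theorem c3241 (h : Good α) (h1 : α 566 = true) (h2 : α 346 = true) (h3 : α 527 = true) (h4 : α 285 = true) : False :=
  rf h true 0 1 2 566 346 527 285 (by decide +kernel) h1 h2 h3 h4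

theorem c3242 (h : Good α) (h1 : α 289 = false) (h2 : α 395 = false) (h3 : α 516 = false) (h4 : α 582 = false) : False :=
  rf h false 0 3 1 289 395 516 582 (by decide +kernel) h1 h2 h3 h4

theorem c3243 (h : Good α) (h1 : α 429 = true) (h2 : α 327 = true) (h3 : α 298 = true) : False :=
  af h true 3 429 327 298 (by decide +kernel) h1 h2 h3

theorem c3244 (h : Good α) (h1 : α 302 = true) (h2 : α 321 = true) (h3 : α 421 = true) : False :=
  af h true 2 302 321 421 (by decide +kernel) h1 h2 h3

theorem c3245 (h : Good α) (h1 : α 577 = false) (h2 : α 515 = false) (h3 : α 386 = false) (h4 : α 302 = false) : False :=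
  rf h false 1 3 1 577 515 386 302 (by decide +kernel) h1 h2 h3 h4

theorem c3246 (h : Good α) (h1 : α 381 = false) (h2 : α 304 = false) (h3 : α 574 = false) (h4 : α 517 = false) : False :=
  rf h false 1 3 1 381 304 574 517 (by decide +kernel) h1 h2 h3 h4

theorem c3247 (h : Good α) (h1 : α 431 = false) (h2 : α 330 = false) (h3 : α 305 = false) : False :=
  af h false 0 431 330 305 (by decide +kernel) h1 h2 h3

theorem c3248 (h : Good α) (h1 : α 519 = true) (h2 : α 575 = true) (h3 : α 305 = true) (h4 : α 382 = true) : False :=
  rf h true 1 3 1 519 575 305 382 (by decide +kernel) h1 h2 h3 h4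

theorem c3249 (h : Good α) (h1 : α 306 = true) (h2 : α 326 = true) (h3 : α 423 = true) : False :=
  af h true 3 306 326 423 (by decide +kernel) h1 h2 h3

theorem c3250 (h : Good α) (h1 : α 521 = false) (h2 : α 573 = false) (h3 : α 308 = false) (h4 : α 377 = false) : False :=
  rf h false 0 3 1 521 573 308 377 (by decide +kernel) h1 h2 h3 h4

theorem c3251 (h : Good α) (h1 : α 311 = false) (h2 : α 332 = false) (h3 : α 427 = false) : False :=
  af h false 4 311 332 427 (by decide +kernel) h1 h2 h3

theorem c3252 (h : Good α) (h1 : α 402 = false) (h2 : α 326 = false) (h3 : α 312 = false) : False :=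
  af h false 2 402 326 312 (by decide +kernel) h1 h2 h3

theorem c3253 (h : Good α) (h1 : α 326 = false) (h2 : α 312 = false) (h3 : α 555 = false) (h4 : α 549 = false) : False :=
  rf h false 2 1 1 326 312 555 549 (by decide +kernel) h1 h2 h3 h4

theorem c3254 (h : Good α) (h1 : α 400 = false) (h2 : α 313 = false) (h3 : α 314 = false) : False :=
  af h false 0 400 313 314 (by decide +kernel) h1 h2 h3

theorem c3255 (h : Good α) (h1 : α 313 = false) (h2 : α 314 = false) (h3 : α 407 = false) : False :=
  af h false 0 313 314 407 (by decide +kernel) h1 h2 h3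

theorem c3256 (h : Good α) (h1 : α 313 = false) (h2 : α 314 = false) (h3 : α 550 = false) (h4 : α 558 = false) : False :=
  rf h false 0 1 1 313 314 550 558 (by decide +kernel) h1 h2 h3 h4

theorem c3257 (h : Good α) (h1 : α 314 = false) (h2 : α 407 = false) (h3 : α 540 = false) : False :=
  af h false 0 314 407 540 (by decide +kernel) h1 h2 h3

theorem c3258 (h : Good α) (h1 : α 321 = false) (h2 : α 322 = false) (h3 : α 408 = false) : False :=
  af h false 3 321 322 408 (by decide +kernel) h1 h2 h3

theorem c3259 (h : Good α) (h1 : α 499 = false) (h2 : α 323 = false) (h3 : α 495 = false) (h4 : α 326 = false) : False :=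
  rf h false 1 1 4 499 323 495 326 (by decide +kernel) h1 h2 h3 h4

theorem c3260 (h : Good α) (h1 : α 505 = false) (h2 : α 494 = false) (h3 : α 328 = false) (h4 : α 325 = false) : False :=
  rf h false 0 4 1 505 494 328 325 (by decide +kernel) h1 h2 h3 h4

theorem c3261 (h : Good α) (h1 : α 325 = true) (h2 : α 335 = true) (h3 : α 409 = true) : False :=
  af h true 2 325 335 409 (by decide +kernel) h1 h2 h3

theorem c3262 (h : Good α) (h1 : α 538 = false) (h2 : α 402 = false) (h3 : α 326 = false) : False :=
  af h false 2 538 402 326 (by decide +kernel) h1 h2 h3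

theorem c3263 (h : Good α) (h1 : α 328 = false) (h2 : α 327 = false) (h3 : α 402 = false) : False :=
  af h false 4 328 327 402 (by decide +kernel) h1 h2 h3

theorem c3264 (h : Good α) (h1 : α 404 = false) (h2 : α 328 = false) (h3 : α 327 = false) : False :=
  af h false 4 404 328 327 (by decide +kernel) h1 h2 h3

theorem c3265 (h : Good α) (h1 : α 405 = false) (h2 : α 330 = false) (h3 : α 329 = false) : False :=
  af h false 5 405 330 329 (by decide +kernel) h1 h2 h3

theorem c3266 (h : Good α) (h1 : α 564 = true) (h2 : α 330 = true) (h3 : α 568 = true) (h4 : α 329 = true) : False :=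
  rf h true 2 1 1 564 330 568 329 (by decide +kernel) h1 h2 h3 h4

theorem c3267 (h : Good α) (h1 : α 332 = false) (h2 : α 331 = false) (h3 : α 406 = false) : False :=
  af h false 5 332 331 406 (by decide +kernel) h1 h2 h3

theorem c3268 (h : Good α) (h1 : α 409 = false) (h2 : α 334 = false) (h3 : α 333 = false) : False :=
  af h false 4 409 334 333 (by decide +kernel) h1 h2 h3

theorem c3269 (h : Good α) (h1 : α 409 = true) (h2 : α 334 = true) (h3 : α 333 = true) : False :=
  af h true 4 409 334 333 (by decide +kernel) h1 h2 h3

theorem c3270 (h : Good α) (h1 : α 334 = false) (h2 : α 571 = false) (h3 : α 333 = false) (h4 : α 570 = false) : False :=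
  rf h false 1 1 1 334 571 333 570 (by decide +kernel) h1 h2 h3 h4

theorem c3271 (h : Good α) (h1 : α 542 = true) (h2 : α 409 = true) (h3 : α 334 = true) : False :=
  af h true 4 542 409 334 (by decide +kernel) h1 h2 h3

theorem c3272 (h : Good α) (h1 : α 390 = false) (h2 : α 336 = false) (h3 : α 376 = false) : False :=
  af h false 2 390 336 376 (by decide +kernel) h1 h2 h3

theorem c3273 (h : Good α) (h1 : α 336 = true) (h2 : α 376 = true) (h3 : α 488 = true) : False :=
  af h true 2 336 376 488 (by decide +kernel) h1 h2 h3

theorem c3274 (h : Good α) (h1 : α 504 = true) (h2 : α 390 = true) (h3 : α 336 = true) : False :=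
  af h true 2 504 390 336 (by decide +kernel) h1 h2 h3

theorem c3275 (h : Good α) (h1 : α 337 = true) (h2 : α 391 = true) (h3 : α 507 = true) : False :=
  af h true 2 337 391 507 (by decide +kernel) h1 h2 h3

theorem c3276 (h : Good α) (h1 : α 393 = true) (h2 : α 338 = true) (h3 : α 381 = true) : False :=
  af h true 3 393 338 381 (by decide +kernel) h1 h2 h3

theorem c3277 (h : Good α) (h1 : α 338 = false) (h2 : α 381 = false) (h3 : α 489 = false) : False :=
  af h false 3 338 381 489 (by decide +kernel) h1 h2 h3

theorem c3278 (h : Good α) (h1 : α 338 = true) (h2 : α 381 = true) (h3 : α 489 = true) : False :=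
  af h true 3 338 381 489 (by decide +kernel) h1 h2 h3

theorem c3279 (h : Good α) (h1 : α 384 = true) (h2 : α 339 = true) (h3 : α 378 = true) : False :=
  af h true 1 384 339 378 (by decide +kernel) h1 h2 h3

theorem c3280 (h : Good α) (h1 : α 339 = false) (h2 : α 378 = false) (h3 : α 502 = false) : False :=
  af h false 1 339 378 502 (by decide +kernel) h1 h2 h3

theorem c3281 (h : Good α) (h1 : α 339 = true) (h2 : α 378 = true) (h3 : α 502 = true) : False :=
  af h true 1 339 378 502 (by decide +kernel) h1 h2 h3

theorem c3282 (h : Good α) (h1 : α 496 = false) (h2 : α 384 = false) (h3 : α 339 = false) : False :=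
  af h false 1 496 384 339 (by decide +kernel) h1 h2 h3

theorem c3283 (h : Good α) (h1 : α 496 = true) (h2 : α 384 = true) (h3 : α 339 = true) : False :=
  af h true 1 496 384 339 (by decide +kernel) h1 h2 h3

theorem c3284 (h : Good α) (h1 : α 380 = false) (h2 : α 340 = false) (h3 : α 399 = false) : False :=
  af h false 0 380 340 399 (by decide +kernel) h1 h2 h3

theorem c3285 (h : Good α) (h1 : α 380 = true) (h2 : α 340 = true) (h3 : α 399 = true) : False :=
  af h true 0 380 340 399 (by decide +kernel) h1 h2 h3

theorem c3286 (h : Good α) (h1 : α 487 = false) (h2 : α 380 = false) (h3 : α 340 = false) : False :=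
  af h false 0 487 380 340 (by decide +kernel) h1 h2 h3

theorem c3287 (h : Good α) (h1 : α 487 = true) (h2 : α 380 = true) (h3 : α 340 = true) : False :=
  af h true 0 487 380 340 (by decide +kernel) h1 h2 h3

theorem c3288 (h : Good α) (h1 : α 340 = false) (h2 : α 399 = false) (h3 : α 506 = false) : False :=
  af h false 0 340 399 506 (by decide +kernel) h1 h2 h3

theorem c3289 (h : Good α) (h1 : α 340 = true) (h2 : α 399 = true) (h3 : α 506 = true) : False :=
  af h true 0 340 399 506 (by decide +kernel) h1 h2 h3

theorem c3290 (h : Good α) (h1 : α 341 = false) (h2 : α 383 = false) (h3 : α 494 = false) : False :=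
  af h false 0 341 383 494 (by decide +kernel) h1 h2 h3

theorem c3291 (h : Good α) (h1 : α 505 = false) (h2 : α 398 = false) (h3 : α 341 = false) : False :=
  af h false 0 505 398 341 (by decide +kernel) h1 h2 h3

theorem c3292 (h : Good α) (h1 : α 505 = true) (h2 : α 398 = true) (h3 : α 341 = true) : False :=
  af h true 0 505 398 341 (by decide +kernel) h1 h2 h3

theorem c3293 (h : Good α) (h1 : α 379 = false) (h2 : α 342 = false) (h3 : α 389 = false) : False :=
  af h false 1 379 342 389 (by decide +kernel) h1 h2 h3

theorem c3294 (h : Good α) (h1 : α 379 = true) (h2 : α 342 = true) (h3 : α 389 = true) : False :=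
  af h true 1 379 342 389 (by decide +kernel) h1 h2 h3

theorem c3295 (h : Good α) (h1 : α 503 = false) (h2 : α 379 = false) (h3 : α 342 = false) : False :=
  af h false 1 503 379 342 (by decide +kernel) h1 h2 h3

theorem c3296 (h : Good α) (h1 : α 503 = true) (h2 : α 379 = true) (h3 : α 342 = true) : False :=
  af h true 1 503 379 342 (by decide +kernel) h1 h2 h3

theorem c3297 (h : Good α) (h1 : α 382 = false) (h2 : α 343 = false) (h3 : α 396 = false) : False :=
  af h false 3 382 343 396 (by decide +kernel) h1 h2 h3

theorem c3298 (h : Good α) (h1 : α 382 = true) (h2 : α 343 = true) (h3 : α 396 = true) : False :=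
  af h true 3 382 343 396 (by decide +kernel) h1 h2 h3

theorem c3299 (h : Good α) (h1 : α 492 = false) (h2 : α 382 = false) (h3 : α 343 = false) : False :=
  af h false 3 492 382 343 (by decide +kernel) h1 h2 h3

theorem c3300 (h : Good α) (h1 : α 343 = true) (h2 : α 396 = true) (h3 : α 509 = true) : False :=
  af h true 3 343 396 509 (by decide +kernel) h1 h2 h3

theorem c3301 (h : Good α) (h1 : α 386 = false) (h2 : α 344 = false) (h3 : α 385 = false) : False :=
  af h false 5 386 344 385 (by decide +kernel) h1 h2 h3

theorem c3302 (h : Good α) (h1 : α 386 = true) (h2 : α 344 = true) (h3 : α 385 = true) : False :=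
  af h true 5 386 344 385 (by decide +kernel) h1 h2 h3

theorem c3303 (h : Good α) (h1 : α 498 = false) (h2 : α 386 = false) (h3 : α 344 = false) : False :=
  af h false 5 498 386 344 (by decide +kernel) h1 h2 h3

theorem c3304 (h : Good α) (h1 : α 388 = false) (h2 : α 345 = false) (h3 : α 387 = false) : False :=
  af h false 5 388 345 387 (by decide +kernel) h1 h2 h3

theorem c3305 (h : Good α) (h1 : α 394 = false) (h2 : α 346 = false) (h3 : α 392 = false) : False :=
  af h false 4 394 346 392 (by decide +kernel) h1 h2 h3

theorem c3306 (h : Good α) (h1 : α 346 = false) (h2 : α 392 = false) (h3 : α 495 = false) : False :=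
  af h false 4 346 392 495 (by decide +kernel) h1 h2 h3

theorem c3307 (h : Good α) (h1 : α 346 = true) (h2 : α 392 = true) (h3 : α 495 = true) : False :=
  af h true 4 346 392 495 (by decide +kernel) h1 h2 h3

theorem c3308 (h : Good α) (h1 : α 499 = true) (h2 : α 394 = true) (h3 : α 346 = true) : False :=
  af h true 4 499 394 346 (by decide +kernel) h1 h2 h3

theorem c3309 (h : Good α) (h1 : α 537 = false) (h2 : α 533 = false) (h3 : α 348 = false) (h4 : α 349 = false) : False :=
  rf h false 2 4 1 537 533 348 349 (by decide +kernel) h1 h2 h3 h4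

theorem c3310 (h : Good α) (h1 : α 547 = false) (h2 : α 353 = false) (h3 : α 543 = false) (h4 : α 351 = false) : False :=
  rf h false 0 1 4 547 353 543 351 (by decide +kernel) h1 h2 h3 h4

theorem c3311 (h : Good α) (h1 : α 351 = true) (h2 : α 354 = true) (h3 : α 534 = true) (h4 : α 546 = true) : False :=
  rf h true 0 4 1 351 354 534 546 (by decide +kernel) h1 h2 h3 h4

theorem c3312 (h : Good α) (h1 : α 545 = true) (h2 : α 535 = true) (h3 : α 353 = true) (h4 : α 352 = true) : False :=
  rf h true 0 4 1 545 535 353 352 (by decide +kernel) h1 h2 h3 h4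

theorem c3313 (h : Good α) (h1 : α 352 = false) (h2 : α 544 = false) (h3 : α 354 = false) (h4 : α 548 = false) : False :=
  rf h false 0 1 4 352 544 354 548 (by decide +kernel) h1 h2 h3 h4

theorem c3314 (h : Good α) (h1 : α 357 = true) (h2 : α 411 = true) (h3 : α 550 = true) : False :=
  af h true 5 357 411 550 (by decide +kernel) h1 h2 h3

theorem c3315 (h : Good α) (h1 : α 358 = false) (h2 : α 413 = false) (h3 : α 558 = false) : False :=
  af h false 1 358 413 558 (by decide +kernel) h1 h2 h3

theorem c3316 (h : Good α) (h1 : α 552 = false) (h2 : α 421 = false) (h3 : α 359 = false) : False :=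
  af h false 4 552 421 359 (by decide +kernel) h1 h2 h3

theorem c3317 (h : Good α) (h1 : α 362 = true) (h2 : α 419 = true) (h3 : α 561 = true) : False :=
  af h true 2 362 419 561 (by decide +kernel) h1 h2 h3

theorem c3318 (h : Good α) (h1 : α 568 = false) (h2 : α 428 = false) (h3 : α 366 = false) : False :=
  af h false 0 568 428 366 (by decide +kernel) h1 h2 h3

theorem c3319 (h : Good α) (h1 : α 554 = false) (h2 : α 418 = false) (h3 : α 371 = false) : False :=
  af h false 3 554 418 371 (by decide +kernel) h1 h2 h3

theorem c3320 (h : Good α) (h1 : α 567 = false) (h2 : α 425 = false) (h3 : α 372 = false) : False :=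
  af h false 3 567 425 372 (by decide +kernel) h1 h2 h3

theorem c3321 (h : Good α) (h1 : α 374 = true) (h2 : α 429 = true) (h3 : α 566 = true) : False :=
  af h true 5 374 429 566 (by decide +kernel) h1 h2 h3

theorem c3322 (h : Good α) (h1 : α 571 = true) (h2 : α 430 = true) (h3 : α 375 = true) : False :=
  af h true 5 571 430 375 (by decide +kernel) h1 h2 h3

theorem c3323 (h : Good α) (h1 : α 453 = true) (h2 : α 376 = true) (h3 : α 380 = true) : False :=
  af h true 1 453 376 380 (by decide +kernel) h1 h2 h3

theorem c3324 (h : Good α) (h1 : α 383 = true) (h2 : α 377 = true) (h3 : α 456 = true) : False :=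
  af h true 1 383 377 456 (by decide +kernel) h1 h2 h3

theorem c3325 (h : Good α) (h1 : α 451 = false) (h2 : α 378 = false) (h3 : α 387 = false) : False :=
  af h false 0 451 378 387 (by decide +kernel) h1 h2 h3

theorem c3326 (h : Good α) (h1 : α 451 = true) (h2 : α 378 = true) (h3 : α 387 = true) : False :=
  af h true 0 451 378 387 (by decide +kernel) h1 h2 h3

theorem c3327 (h : Good α) (h1 : α 378 = true) (h2 : α 387 = true) (h3 : α 462 = true) : False :=
  af h true 0 378 387 462 (by decide +kernel) h1 h2 h3

theorem c3328 (h : Good α) (h1 : α 386 = true) (h2 : α 379 = true) (h3 : α 452 = true) : False :=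
  af h true 0 386 379 452 (by decide +kernel) h1 h2 h3

theorem c3329 (h : Good α) (h1 : α 459 = false) (h2 : α 386 = false) (h3 : α 379 = false) : False :=
  af h false 0 459 386 379 (by decide +kernel) h1 h2 h3

theorem c3330 (h : Good α) (h1 : α 381 = false) (h2 : α 384 = false) (h3 : α 454 = false) : False :=
  af h false 2 381 384 454 (by decide +kernel) h1 h2 h3

theorem c3331 (h : Good α) (h1 : α 381 = true) (h2 : α 384 = true) (h3 : α 454 = true) : False :=
  af h true 2 381 384 454 (by decide +kernel) h1 h2 h3

theorem c3332 (h : Good α) (h1 : α 467 = false) (h2 : α 381 = false) (h3 : α 384 = false) : False :=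
  af h false 2 467 381 384 (by decide +kernel) h1 h2 h3

theorem c3333 (h : Good α) (h1 : α 455 = false) (h2 : α 389 = false) (h3 : α 382 = false) : False :=
  af h false 2 455 389 382 (by decide +kernel) h1 h2 h3

theorem c3334 (h : Good α) (h1 : α 389 = false) (h2 : α 382 = false) (h3 : α 470 = false) : False :=
  af h false 2 389 382 470 (by decide +kernel) h1 h2 h3

theorem c3335 (h : Good α) (h1 : α 474 = true) (h2 : α 396 = true) (h3 : α 388 = true) : False :=
  af h true 4 474 396 388 (by decide +kernel) h1 h2 h3

theorem c3336 (h : Good α) (h1 : α 392 = false) (h2 : α 390 = false) (h3 : α 457 = false) : False :=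
  af h false 3 392 390 457 (by decide +kernel) h1 h2 h3

theorem c3337 (h : Good α) (h1 : α 392 = true) (h2 : α 390 = true) (h3 : α 457 = true) : False :=
  af h true 3 392 390 457 (by decide +kernel) h1 h2 h3

theorem c3338 (h : Good α) (h1 : α 458 = false) (h2 : α 391 = false) (h3 : α 397 = false) : False :=
  af h false 3 458 391 397 (by decide +kernel) h1 h2 h3

theorem c3339 (h : Good α) (h1 : α 398 = false) (h2 : α 394 = false) (h3 : α 460 = false) : False :=
  af h false 5 398 394 460 (by decide +kernel) h1 h2 h3

theorem c3340 (h : Good α) (h1 : α 398 = true) (h2 : α 394 = true) (h3 : α 460 = true) : False :=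
  af h true 5 398 394 460 (by decide +kernel) h1 h2 h3

theorem c3341 (h : Good α) (h1 : α 469 = false) (h2 : α 398 = false) (h3 : α 394 = false) : False :=
  af h false 5 469 398 394 (by decide +kernel) h1 h2 h3

theorem c3342 (h : Good α) (h1 : α 469 = true) (h2 : α 398 = true) (h3 : α 394 = true) : False :=
  af h true 5 469 398 394 (by decide +kernel) h1 h2 h3

theorem c3343 (h : Good α) (h1 : α 395 = true) (h2 : α 399 = true) (h3 : α 468 = true) : False :=
  af h true 5 395 399 468 (by decide +kernel) h1 h2 h3

theorem c3344 (h : Good α) (h1 : α 449 = false) (h2 : α 402 = false) (h3 : α 443 = false) : False :=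
  af h false 3 449 402 443 (by decide +kernel) h1 h2 h3

theorem c3345 (h : Good α) (h1 : α 449 = true) (h2 : α 402 = true) (h3 : α 443 = true) : False :=
  af h true 3 449 402 443 (by decide +kernel) h1 h2 h3

theorem c3346 (h : Good α) (h1 : α 402 = false) (h2 : α 443 = false) (h3 : α 543 = false) : False :=
  af h false 3 402 443 543 (by decide +kernel) h1 h2 h3

theorem c3347 (h : Good α) (h1 : α 402 = true) (h2 : α 443 = true) (h3 : α 543 = true) : False :=
  af h true 3 402 443 543 (by decide +kernel) h1 h2 h3

theorem c3348 (h : Good α) (h1 : α 547 = false) (h2 : α 449 = false) (h3 : α 402 = false) : False :=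
  af h false 3 547 449 402 (by decide +kernel) h1 h2 h3

theorem c3349 (h : Good α) (h1 : α 547 = true) (h2 : α 449 = true) (h3 : α 402 = true) : False :=
  af h true 3 547 449 402 (by decide +kernel) h1 h2 h3

theorem c3350 (h : Good α) (h1 : α 403 = true) (h2 : α 445 = true) (h3 : α 539 = true) : False :=
  af h true 4 403 445 539 (by decide +kernel) h1 h2 h3

theorem c3351 (h : Good α) (h1 : α 446 = false) (h2 : α 405 = false) (h3 : α 442 = false) : False :=
  af h false 0 446 405 442 (by decide +kernel) h1 h2 h3

theorem c3352 (h : Good α) (h1 : α 446 = true) (h2 : α 405 = true) (h3 : α 442 = true) : False :=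
  af h true 0 446 405 442 (by decide +kernel) h1 h2 h3

theorem c3353 (h : Good α) (h1 : α 405 = true) (h2 : α 442 = true) (h3 : α 535 = true) : False :=
  af h true 0 405 442 535 (by decide +kernel) h1 h2 h3

theorem c3354 (h : Good α) (h1 : α 545 = false) (h2 : α 446 = false) (h3 : α 405 = false) : False :=
  af h false 0 545 446 405 (by decide +kernel) h1 h2 h3

theorem c3355 (h : Good α) (h1 : α 439 = false) (h2 : α 406 = false) (h3 : α 447 = false) : False :=
  af h false 0 439 406 447 (by decide +kernel) h1 h2 h3

theorem c3356 (h : Good α) (h1 : α 439 = true) (h2 : α 406 = true) (h3 : α 447 = true) : False :=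
  af h true 0 439 406 447 (by decide +kernel) h1 h2 h3

theorem c3357 (h : Good α) (h1 : α 534 = false) (h2 : α 439 = false) (h3 : α 406 = false) : False :=
  af h false 0 534 439 406 (by decide +kernel) h1 h2 h3

theorem c3358 (h : Good α) (h1 : α 534 = true) (h2 : α 439 = true) (h3 : α 406 = true) : False :=
  af h true 0 534 439 406 (by decide +kernel) h1 h2 h3

theorem c3359 (h : Good α) (h1 : α 406 = false) (h2 : α 447 = false) (h3 : α 546 = false) : False :=
  af h false 0 406 447 546 (by decide +kernel) h1 h2 h3

theorem c3360 (h : Good α) (h1 : α 406 = true) (h2 : α 447 = true) (h3 : α 546 = true) : False :=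
  af h true 0 406 447 546 (by decide +kernel) h1 h2 h3

theorem c3361 (h : Good α) (h1 : α 444 = false) (h2 : α 409 = false) (h3 : α 450 = false) : False :=
  af h false 3 444 409 450 (by decide +kernel) h1 h2 h3

theorem c3362 (h : Good α) (h1 : α 544 = false) (h2 : α 444 = false) (h3 : α 409 = false) : False :=
  af h false 3 544 444 409 (by decide +kernel) h1 h2 h3

theorem c3363 (h : Good α) (h1 : α 544 = true) (h2 : α 444 = true) (h3 : α 409 = true) : False :=
  af h true 3 544 444 409 (by decide +kernel) h1 h2 h3

theorem c3364 (h : Good α) (h1 : α 409 = false) (h2 : α 450 = false) (h3 : α 548 = false) : False :=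
  af h false 3 409 450 548 (by decide +kernel) h1 h2 h3

theorem c3365 (h : Good α) (h1 : α 445 = true) (h2 : α 412 = true) (h3 : α 496 = true) : False :=
  af h true 3 445 412 496 (by decide +kernel) h1 h2 h3

theorem c3366 (h : Good α) (h1 : α 488 = false) (h2 : α 413 = false) (h3 : α 437 = false) : False :=
  af h false 0 488 413 437 (by decide +kernel) h1 h2 h3

theorem c3367 (h : Good α) (h1 : α 489 = false) (h2 : α 419 = false) (h3 : α 439 = false) : False :=
  af h false 1 489 419 439 (by decide +kernel) h1 h2 h3

theorem c3368 (h : Good α) (h1 : α 489 = true) (h2 : α 419 = true) (h3 : α 439 = true) : False :=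
  af h true 1 489 419 439 (by decide +kernel) h1 h2 h3

theorem c3369 (h : Good α) (h1 : α 443 = false) (h2 : α 423 = false) (h3 : α 487 = false) : False :=
  af h false 2 443 423 487 (by decide +kernel) h1 h2 h3

theorem c3370 (h : Good α) (h1 : α 443 = true) (h2 : α 423 = true) (h3 : α 487 = true) : False :=
  af h true 2 443 423 487 (by decide +kernel) h1 h2 h3

theorem c3371 (h : Good α) (h1 : α 494 = false) (h2 : α 424 = false) (h3 : α 444 = false) : False :=
  af h false 2 494 424 444 (by decide +kernel) h1 h2 h3

theorem c3372 (h : Good α) (h1 : α 505 = false) (h2 : α 429 = false) (h3 : α 449 = false) : False :=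
  af h false 4 505 429 449 (by decide +kernel) h1 h2 h3

theorem c3373 (h : Good α) (h1 : α 505 = true) (h2 : α 429 = true) (h3 : α 449 = true) : False :=
  af h true 4 505 429 449 (by decide +kernel) h1 h2 h3

theorem c3374 (h : Good α) (h1 : α 450 = false) (h2 : α 430 = false) (h3 : α 506 = false) : False :=
  af h false 4 450 430 506 (by decide +kernel) h1 h2 h3

theorem c3375 (h : Good α) (h1 : α 450 = true) (h2 : α 430 = true) (h3 : α 506 = true) : False :=
  af h true 4 450 430 506 (by decide +kernel) h1 h2 h3

theorem c3376 (h : Good α) (h1 : α 509 = false) (h2 : α 432 = false) (h3 : α 447 = false) : False :=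
  af h false 5 509 432 447 (by decide +kernel) h1 h2 h3

theorem c3377 (h : Good α) (h1 : α 481 = true) (h2 : α 451 = true) (h3 : α 517 = true) : False :=
  af h true 1 481 451 517 (by decide +kernel) h1 h2 h3

theorem c3378 (h : Good α) (h1 : α 574 = true) (h2 : α 481 = true) (h3 : α 451 = true) : False :=
  af h true 1 574 481 451 (by decide +kernel) h1 h2 h3

theorem c3379 (h : Good α) (h1 : α 519 = false) (h2 : α 452 = false) (h3 : α 482 = false) : False :=
  af h false 1 519 452 482 (by decide +kernel) h1 h2 h3

theorem c3380 (h : Good α) (h1 : α 452 = true) (h2 : α 482 = true) (h3 : α 575 = true) : False :=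
  af h true 1 452 482 575 (by decide +kernel) h1 h2 h3

theorem c3381 (h : Good α) (h1 : α 578 = false) (h2 : α 475 = false) (h3 : α 453 = false) : False :=
  af h false 2 578 475 453 (by decide +kernel) h1 h2 h3

theorem c3382 (h : Good α) (h1 : α 512 = false) (h2 : α 454 = false) (h3 : α 478 = false) : False :=
  af h false 1 512 454 478 (by decide +kernel) h1 h2 h3

theorem c3383 (h : Good α) (h1 : α 512 = true) (h2 : α 454 = true) (h3 : α 478 = true) : False :=
  af h true 1 512 454 478 (by decide +kernel) h1 h2 h3

theorem c3384 (h : Good α) (h1 : α 454 = false) (h2 : α 478 = false) (h3 : α 576 = false) : False :=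
  af h false 1 454 478 576 (by decide +kernel) h1 h2 h3

theorem c3385 (h : Good α) (h1 : α 479 = false) (h2 : α 455 = false) (h3 : α 515 = false) : False :=
  af h false 1 479 455 515 (by decide +kernel) h1 h2 h3

theorem c3386 (h : Good α) (h1 : α 456 = false) (h2 : α 476 = false) (h3 : α 579 = false) : False :=
  af h false 2 456 476 579 (by decide +kernel) h1 h2 h3

theorem c3387 (h : Good α) (h1 : α 527 = false) (h2 : α 457 = false) (h3 : α 481 = false) : False :=
  af h false 2 527 457 481 (by decide +kernel) h1 h2 h3

theorem c3388 (h : Good α) (h1 : α 482 = true) (h2 : α 458 = true) (h3 : α 528 = true) : False :=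
  af h true 2 482 458 528 (by decide +kernel) h1 h2 h3

theorem c3389 (h : Good α) (h1 : α 573 = false) (h2 : α 482 = false) (h3 : α 458 = false) : False :=
  af h false 2 573 482 458 (by decide +kernel) h1 h2 h3

theorem c3390 (h : Good α) (h1 : α 524 = true) (h2 : α 459 = true) (h3 : α 485 = true) : False :=
  af h true 5 524 459 485 (by decide +kernel) h1 h2 h3

theorem c3391 (h : Good α) (h1 : α 459 = false) (h2 : α 485 = false) (h3 : α 580 = false) : False :=
  af h false 5 459 485 580 (by decide +kernel) h1 h2 h3

theorem c3392 (h : Good α) (h1 : α 459 = true) (h2 : α 485 = true) (h3 : α 580 = true) : False :=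
  af h true 5 459 485 580 (by decide +kernel) h1 h2 h3

theorem c3393 (h : Good α) (h1 : α 486 = true) (h2 : α 462 = true) (h3 : α 525 = true) : False :=
  af h true 5 486 462 525 (by decide +kernel) h1 h2 h3

theorem c3394 (h : Good α) (h1 : α 464 = false) (h2 : α 483 = false) (h3 : α 576 = false) : False :=
  af h false 5 464 483 576 (by decide +kernel) h1 h2 h3

theorem c3395 (h : Good α) (h1 : α 577 = true) (h2 : α 484 = true) (h3 : α 465 = true) : False :=
  af h true 5 577 484 465 (by decide +kernel) h1 h2 h3

theorem c3396 (h : Good α) (h1 : α 484 = false) (h2 : α 466 = false) (h3 : α 520 = false) : False :=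
  af h false 0 484 466 520 (by decide +kernel) h1 h2 h3

theorem c3397 (h : Good α) (h1 : α 477 = false) (h2 : α 467 = false) (h3 : α 518 = false) : False :=
  af h false 3 477 467 518 (by decide +kernel) h1 h2 h3

theorem c3398 (h : Good α) (h1 : α 477 = true) (h2 : α 467 = true) (h3 : α 518 = true) : False :=
  af h true 3 477 467 518 (by decide +kernel) h1 h2 h3

theorem c3399 (h : Good α) (h1 : α 580 = false) (h2 : α 477 = false) (h3 : α 467 = false) : False :=
  af h false 3 580 477 467 (by decide +kernel) h1 h2 h3

theorem c3400 (h : Good α) (h1 : α 572 = false) (h2 : α 478 = false) (h3 : α 468 = false) : False :=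
  af h false 0 572 478 468 (by decide +kernel) h1 h2 h3

theorem c3401 (h : Good α) (h1 : α 521 = false) (h2 : α 469 = false) (h3 : α 479 = false) : False :=
  af h false 0 521 469 479 (by decide +kernel) h1 h2 h3

theorem c3402 (h : Good α) (h1 : α 575 = true) (h2 : α 476 = true) (h3 : α 474 = true) : False :=
  af h true 3 575 476 474 (by decide +kernel) h1 h2 h3

theorem c3403 (h : Good α) (h1 : α 585 = false) (h2 : α 518 = false) (h3 : α 489 = false) : False :=
  af h false 2 585 518 489 (by decide +kernel) h1 h2 h3

theorem c3404 (h : Good α) (h1 : α 515 = false) (h2 : α 500 = false) (h3 : α 552 = false) : False :=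
  af h false 2 515 500 552 (by decide +kernel) h1 h2 h3

theorem c3405 (h : Good α) (h1 : α 503 = false) (h2 : α 519 = false) (h3 : α 583 = false) : False :=
  af h false 0 503 519 583 (by decide +kernel) h1 h2 h3

theorem c3406 (h : Good α) (h1 : α 586 = false) (h2 : α 521 = false) (h3 : α 505 = false) : False :=
  af h false 5 586 521 505 (by decide +kernel) h1 h2 h3

theorem c3407 (h : Good α) (h1 : α 508 = false) (h2 : α 529 = false) (h3 : α 588 = false) : False :=
  af h false 4 508 529 588 (by decide +kernel) h1 h2 h3

end Q110.RC
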