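import Pool.Agent.Q110.RC.In0
import Pool.Agent.Q110.RC.In1
import Pool.Agent.Q110.RC.In2
import Pool.Agent.Q110.RC.In3

/-! # Generated part of the refutation used for `S(4)` -/

set_option linter.all false

namespace Q110.RC

variable {α : Nat → Bool}

theorem l3411 (h : Good α) (x354f : α 354 = false) (x92f : α 92 = false) (x204t : α 204 = true) (x236f : α 236 = false) (x242f : α 242 = false) : False :=
  have x352t : α 352 = true := tt fun y => c3015 h x236f y x242f x354f
  have x238t : α 238 = true := tt fun y => c2077 h x92f y x242f x354f
  c2939 h x352t x238t x204t

theorem l3412 (h : Good α) (x242f : α 242 = false) (x197f : α 197 = false) (x201f : α 201 = false) (x543t : α 543 = true) (x61f : α 61 = false) : False :=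
  have x351t : α 351 = true := tt fun y => c1577 h x197f x61f y x242f
  have x233t : α 233 = true := tt fun y => c2919 h y x201f x242f
  c3001 h x543t x351t x233t

theorem l3413 (h : Good α) (x576t : α 576 = true) (x233t : α 233 = true) (x242t : α 242 = true) (x201f : α 201 = false) : False :=
  have x387f : α 387 = false := ff fun y => c3085 h x242t y x576t
  have x378f : α 378 = false := ff fun y => c3005 h x233t y x576t
  have x70t : α 70 = true := tt fun y => c1693 h y x201f x387f
  have x451t : α 451 = true := tt fun y => c3325 h y x378f x387f
  c1697 h x70t x233t x451t

theorem l3414 (h : Good α) (x222f : α 222 = false) (x91f : α 91 = false) (x237t : α 237 = true) (x443f : α 443 = false) : False :=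
  have x114t : α 114 = true := tt fun y => c1994 h x222f y x91f
  have x298t : α 298 = true := tt fun y => c2971 h x222f y x443f
  have x19f : α 19 = false := ff fun y => c506 h x298t x114t y
  have x257f : α 257 = false := ff fun y => c3035 h x298t x237t y
  c493 h x19f x91f x257f

theorem l3415 (h : Good α) (x183f : α 183 = false) (x568t : α 568 = true) (x252f : α 252 = false) (x334f : α 334 = false) (x200f : α 200 = false) (x238t : α 238 = true) (x449f : α 449 = false) (x92f : α 92 = false) (x97t : α 97 = true) (x91f : α 91 = false) (x237t : α 237 = true) (x233t : α 233 = true) (x54f : α 54 = false) (x201f : α 201 = false) (x1t : α 1 = true) (x59t : α 59 = true) : False :=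
  have x150t := h.u3
  have x149f := h.u2
  have x94t : α 94 = true := tt fun y => c1309 h y x54f x91f
  have x56f : α 56 = false := ff fun y => c57 h y x1t x59t
  have x153t : α 153 = true := tt fun y => c1298 h y x56f x54f
  have x146t : α 146 = true := tt fun y => c1296 h x56f x54f y
  have x53t : α 53 = true := tt fun y => c1260 h x56f y x149f
  have x52f : α 52 = false := ff fun y => c21 h x53t x1t y
  have x378t : α 378 = true := tt fun y => c1258 h x52f x183f y
  have x340t : α 340 = true := tt fun y => c2006 h x91f x183f y
  have x22t : α 22 = true := tt fun y => c637 h y x52f x183f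
  have x114t : α 114 = true := tt fun y => c1992 h y x91f x183f
  have x28f : α 28 = false := ff fun y => c874 h y x150t x340t
  have x189f : α 189 = false := ff fun y => c2183 h x97t y x340t
  have x423f : α 423 = false := ff fun y => c2389 h x114t x237t y
  have x20t : α 20 = true := tt fun y => c521 h x92f y x28f
  have x257t : α 257 = true := tt fun y => c2748 h y x183f x189f
  have x273t : α 273 = true := tt fun y => c2750 h x183f x189f y
  have x326t : α 326 = true := tt fun y => c1255 h y x52f x423f x183f
  have x71f : α 71 = false := ff fun y => c537 h y x20t x59t
  have x306f : α 306 = false := ff fun y => c544 h y x20t x326t x59t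
  have x387f : α 387 = false := ff fun y => c517 h x22t x20t x378t y
  have x117f : α 117 = false := ff fun y => c515 h x22t x20t y
  have x451f : α 451 = false := ff fun y => c2554 h x146t x257t y
  have x157f : α 157 = false := ff fun y => c2544 h x146t y x257t x273t
  have x80t : α 80 = true := tt fun y => c1703 h y x71f x183f x189f
  have x386t : α 386 = true := tt fun y => c1721 h y x200f x71f
  have x205t : α 205 = true := tt fun y => c2947 h x449f x306f y
  have x70t : α 70 = true := tt fun y => c1693 h y x201f x387f
  have x184t : α 184 = true := tt fun y => c2056 h y x92f x117f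
  have x161t : α 161 = true := tt fun y => c2419 h y x117f x157f
  have x299t : α 299 = true := tt fun y => c2423 h x117f y x157f x334f
  have x11f : α 11 = false := ff fun y => c210 h y x70t x233t
  have x462f : α 462 = false := ff fun y => c1819 h x80t x161t x378t y
  have x264f : α 264 = false := ff fun y => c3053 h y x238t x299t
  have x452t : α 452 = true := tt fun y => c2582 h y x264f x149f
  have x113t : α 113 = true := tt fun y => c2364 h x264f x149f y
  have x188t : α 188 = true := tt fun y => c1381 h y x264f x56f x149f
  have x19f : α 19 = false := ff fun y => c503 h x386t x452t y x113t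
  have x508f : α 508 = false := ff fun y => c2119 h x568t x188t y x94t
  have x588f : α 588 = false := ff fun y => c2810 h x568t x188t y x205t
  have x81f : α 81 = false := ff fun y => c1682 h x188t x184t x70t y
  have x33t : α 33 = true := tt fun y => c464 h y x19f x91f
  have x529t : α 529 = true := tt fun y => c3407 h x508f y x588f
  have x171t : α 171 = true := tt fun y => c211 h y x252f x11f x81f
  have x163f : α 163 = false := ff fun y => c2540 h x153t x171t x146t y
  have x277t : α 277 = true := tt fun y => c2680 h x163f y x451f
  have x365f : α 365 = false := ff fun y => c3140 h x257t x277t y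
  have x45f : α 45 = false := ff fun y => c965 h x33t y x257t x277t
  have x38t : α 38 = true := tt fun y => c1073 h y x163f x365f
  have x486t : α 486 = true := tt fun y => c207 h x45f y x11f x462f
  have x100f : α 100 = false := ff fun y => c1070 h x568t y x529t x38t
  have x121f : α 121 = false := ff fun y => c2467 h y x273t x486t
  have x255t : α 255 = true := tt fun y => c495 h x100f y x19f x189f
  have x276t : α 276 = true := tt fun y => c2464 h y x157f x121f
  have x109f : α 109 = false := ff fun y => c1072 h x38t y x255t
  have x26f : α 26 = false := ff fun y => c812 h y x276t x277t x486t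
  have x30t : α 30 = true := tt fun y => c918 h y x109f x91f x183f
  have x24f : α 24 = false := ff fun y => c726 h x94t y x30t
  have x88t : α 88 = true := tt fun y => c720 h y x24f x26f
  have x122t : α 122 = true := tt fun y => c723 h x24f x26f y
  c1930 h x188t x88t x205t x122t

theorem l3416 (h : Good α) (x19f : α 19 = false) (x257t : α 257 = true) (x330f : α 330 = false) (x564t : α 564 = true) (x23f : α 23 = false) (x183t : α 183 = true) (x252f : α 252 = false) (x335f : α 335 = false) (x200f : α 200 = false) (x238t : α 238 = true) (x92f : α 92 = false) (x91f : α 91 = false) (x233t : α 233 = true) (x54f : α 54 = false) (x201f : α 201 = false) (x56f : α 56 = false) (x61f : α 61 = false) : False :=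
  have x149f := h.u2
  have x146t : α 146 = true := tt fun y => c1296 h x56f x54f y
  have x106f : α 106 = false := ff fun y => c2283 h y x146t x257t
  have x451f : α 451 = false := ff fun y => c2554 h x146t x257t y
  have x97t : α 97 = true := tt fun y => c1301 h x54f x61f x91f y
  have x94t : α 94 = true := tt fun y => c1309 h y x54f x91f
  have x153t : α 153 = true := tt fun y => c1298 h y x56f x54f
  have x53t : α 53 = true := tt fun y => c1260 h x56f y x149f
  have x70t : α 70 = true := tt fun y => c472 h x56f x19f y
  have x188t : α 188 = true := tt fun y => c476 h y x56f x19f
  have x33t : α 33 = true := tt fun y => c464 h y x19f x91f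
  have x11f : α 11 = false := ff fun y => c210 h y x70t x233t
  have x341f : α 341 = false := ff fun y => c2118 h y x188t x94t
  have x184t : α 184 = true := tt fun y => c2065 h x341f y x92f
  have x379f : α 379 = false := ff fun y => c1295 h y x184t x53t
  have x264f : α 264 = false := ff fun y => c2766 h x188t x184t y
  have x81f : α 81 = false := ff fun y => c1682 h x188t x184t x70t y
  have x503t : α 503 = true := tt fun y => c2917 h y x379f x330f x200f
  have x80t : α 80 = true := tt fun y => c1825 h x379f x200f y
  have x424t : α 424 = true := tt fun y => c2581 h x264f y x149f x335f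
  have x378t : α 378 = true := tt fun y => c1843 h x81f x201f y
  have x119t : α 119 = true := tt fun y => c1834 h x252f y x81f
  have x171t : α 171 = true := tt fun y => c211 h y x252f x11f x81f
  have x179f : α 179 = false := ff fun y => c1821 h y x80t x257t x183t
  have x117f : α 117 = false := ff fun y => c2428 h x424t x238t y
  have x105f : α 105 = false := ff fun y => c2271 h x153t y x171t
  have x163f : α 163 = false := ff fun y => c2540 h x153t x171t x146t y
  have x161t : α 161 = true := tt fun y => c2276 h x179f y x106f x117f
  have x277t : α 277 = true := tt fun y => c2680 h x163f y x451f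
  have x273f : α 273 = false := ff fun y => c1817 h x80t x161t x183t y
  have x462f : α 462 = false := ff fun y => c1819 h x80t x161t x378t y
  have x365f : α 365 = false := ff fun y => c3140 h x257t x277t y
  have x45f : α 45 = false := ff fun y => c965 h x33t y x257t x277t
  have x157t : α 157 = true := tt fun y => c2660 h y x273f x462f
  have x581t : α 581 = true := tt fun y => c1848 h x252f y x81f x462f
  have x38t : α 38 = true := tt fun y => c1073 h y x163f x365f
  have x261t : α 261 = true := tt fun y => c1135 h y x105f x45f
  have x347f : α 347 = false := ff fun y => c2666 h x157t y x581t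
  have x98f : α 98 = false := ff fun y => c1068 h x38t y x257t
  have x276f : α 276 = false := ff fun y => c2616 h x261t y x153t x157t
  have x480t : α 480 = true := tt fun y => c3218 h y x347f x273f
  have x287t : α 287 = true := tt fun y => c3217 h x347f x273f y
  have x93t : α 93 = true := tt fun y => c703 h y x347f x23f x273f
  have x26t : α 26 = true := tt fun y => c803 h y x276f x98f x347f
  have x228f : α 228 = false := ff fun y => c2091 h x93t x119t y
  have x279f : α 279 = false := ff fun y => c796 h x261t y x26t x38t
  have x32t : α 32 = true := tt fun y => c951 h y x81f x228f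
  have x103f : α 103 = false := ff fun y => c954 h x564t x503t y x32t
  have x263f : α 263 = false := ff fun y => c957 h y x480t x32t x287t
  have x15t : α 15 = true := tt fun y => c280 h y x19f x103f
  have x343t : α 343 = true := tt fun y => c3173 h x279f x263f y
  have x256f : α 256 = false := ff fun y => c302 h x15t x93t y
  have x190f : α 190 = false := ff fun y => c2185 h x343t y x97t
  c1560 h x149f x256f x61f x190f

theorem l3417 (h : Good α) (x80f : α 80 = false) (x239f : α 239 = false) (x200f : α 200 = false) (x53t : α 53 = true) : False :=
  have x154t := h.u1
  have x379t : α 379 = true := tt fun y => c1825 h y x200f x80f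
  have x459t : α 459 = true := tt fun y => c1829 h y x239f x80f
  c1287 h x459t x379t x154t x53t

theorem l3418 (h : Good α) (x379t : α 379 = true) (x386t : α 386 = true) (x238t : α 238 = true) (x57f : α 57 = false) (x53t : α 53 = true) : False :=
  have x149f := h.u2
  have x184f : α 184 = false := ff fun y => c1295 h x379t y x53t
  have x452f : α 452 = false := ff fun y => c3328 h x386t x379t y
  have x383t : α 383 = true := tt fun y => c1432 h y x184f x57f
  have x264t : α 264 = true := tt fun y => c2582 h x452f y x149f
  c3055 h x383t x264t x238t

theorem l3419 (h : Good α) (x264t : α 264 = true) (x335f : α 335 = false) (x238t : α 238 = true) (x57f : α 57 = false) (x56f : α 56 = false) : False :=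
  have x383f : α 383 = false := ff fun y => c3055 h y x264t x238t
  have x184t : α 184 = true := tt fun y => c1432 h x383f y x57f
  have x188f : α 188 = false := ff fun y => c2766 h y x184t x264t
  have x424f : α 424 = false := ff fun y => c2769 h x184t x264t y
  c1392 h x188f x424f x56f x335f

theorem l3420 (h : Good α) (x564t : α 564 = true) (x287t : α 287 = true) (x23f : α 23 = false) (x183t : α 183 = true) (x568t : α 568 = true) (x252f : α 252 = false) (x19f : α 19 = false) (x335f : α 335 = false) (x200f : α 200 = false) (x92f : α 92 = false) (x91f : α 91 = false) (x233t : α 233 = true) (x54f : α 54 = false) (x57f : α 57 = false) (x201f : α 201 = false) (x56f : α 56 = false) (x61f : α 61 = false) : False :=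
  have x149f := h.u2
  have x257t : α 257 = true := tt fun y => c493 h x19f x91f y
  have x97t : α 97 = true := tt fun y => c1301 h x54f x61f x91f y
  have x238t : α 238 = true := tt fun y => c1415 h x57f x92f y
  have x264f : α 264 = false := ff fun y => l3419 h y x335f x238t x57f x56f
  have x113t : α 113 = true := tt fun y => c2364 h x264f x149f y
  have x189f : α 189 = false := ff fun y => c2176 h x113t x97t y
  have x236t : α 236 = true := tt fun y => c1548 h y x92f x61f
  have x452t : α 452 = true := tt fun y => c2582 h y x264f x149f
  have x71f : α 71 = false := ff fun y => c1725 h x452t x236t y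
  have x424t : α 424 = true := tt fun y => c2581 h x264f y x149f x335f
  have x117f : α 117 = false := ff fun y => c2428 h x424t x238t y
  have x188t : α 188 = true := tt fun y => c1381 h y x264f x56f x149f
  have x20t : α 20 = true := tt fun y => c555 h x264f x92f y
  have x330t : α 330 = true := tt fun y => l3416 h x19f x257t y x564t x23f x183t x252f x335f x200f x238t x92f x91f x233t x54f x201f x56f x61f
  have x138f : α 138 = false := ff fun y => c2520 h x564t x330t y
  have x329f : α 329 = false := ff fun y => c3266 h x564t x330t x568t y
  have x104t : α 104 = true := tt fun y => c1707 h x138f x71f y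
  have x155t : α 155 = true := tt fun y => c1430 h x329f y x57f
  have x14f : α 14 = false := ff fun y => c238 h x104t x20t y
  have x55f : α 55 = false := ff fun y => c1365 h x330t x155t y
  have x34t : α 34 = true := tt fun y => c249 h x138f y x14f
  have x76t : α 76 = true := tt fun y => c252 h x55f x14f y
  have x185t : α 185 = true := tt fun y => c253 h y x55f x14f
  have x8f : α 8 = false := ff fun y => c173 h x155t x34t y
  have x85f : α 85 = false := ff fun y => c1778 h x188t y x185t x76t
  have x254f : α 254 = false := ff fun y => c2776 h x188t x185t y
  have x47t : α 47 = true := tt fun y => c174 h y x117f x8f x85f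
  have x86t : α 86 = true := tt fun y => c488 h x254f y x19f
  have x268f : α 268 = false := ff fun y => c985 h x34t x47t y x287t
  have x103f : α 103 = false := ff fun y => c1895 h x185t x86t y
  c498 h x19f x189f x103f x268f

theorem l3421 (h : Good α) (x568t : α 568 = true) (x203t : α 203 = true) (x19f : α 19 = false) (x334f : α 334 = false) (x335f : α 335 = false) (x80t : α 80 = true) (x449f : α 449 = false) (x92f : α 92 = false) (x237t : α 237 = true) (x233t : α 233 = true) (x54f : α 54 = false) (x58t : α 58 = true) (x1t : α 1 = true) (x61f : α 61 = false) : False :=
  have x149f := h.u2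
  have x59t : α 59 = true := tt fun y => c1499 h x149f x61f y
  have x56f : α 56 = false := ff fun y => c57 h y x1t x59t
  have x153t : α 153 = true := tt fun y => c1298 h y x56f x54f
  have x53t : α 53 = true := tt fun y => c1260 h x56f y x149f
  have x252f : α 252 = false := ff fun y => c33 h x53t y x1t x203t
  have x70t : α 70 = true := tt fun y => c472 h x56f x19f y
  have x11f : α 11 = false := ff fun y => c210 h y x70t x233t
  have x57f : α 57 = false := ff fun y => c62 h y x1t x58t
  have x238t : α 238 = true := tt fun y => c1415 h x57f x92f y
  have x264f : α 264 = false := ff fun y => l3419 h y x335f x238t x57f x56f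
  have x188t : α 188 = true := tt fun y => c1381 h y x264f x56f x149f
  have x325t : α 325 = true := tt fun y => c1561 h y x149f x61f
  have x494t : α 494 = true := tt fun y => c2086 h y x264f x92f
  have x341f : α 341 = false := ff fun y => c2625 h y x494t x153t x325t
  have x184t : α 184 = true := tt fun y => c2065 h x341f y x92f
  have x81f : α 81 = false := ff fun y => c1682 h x188t x184t x70t y
  have x171t : α 171 = true := tt fun y => c211 h y x252f x11f x81f
  have x105f : α 105 = false := ff fun y => c2271 h x153t y x171t
  have x91f : α 91 = false := ff fun y => c1462 h x237t y x58t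
  have x33t : α 33 = true := tt fun y => c464 h y x19f x91f
  have x257t : α 257 = true := tt fun y => c493 h x19f x91f y
  have x451f : α 451 = false := ff fun y => c1697 h x70t x233t y
  have x146t : α 146 = true := tt fun y => c1296 h x56f x54f y
  have x163f : α 163 = false := ff fun y => c2540 h x153t x171t x146t y
  have x277t : α 277 = true := tt fun y => c2680 h x163f y x451f
  have x45f : α 45 = false := ff fun y => c965 h x33t y x257t x277t
  have x261t : α 261 = true := tt fun y => c1135 h y x105f x45f
  have x182f : α 182 = false := ff fun y => c1283 h x261t y x153t x53t
  have x111f : α 111 = false := ff fun y => c2348 h x261t x153t y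
  have x455f : α 455 = false := ff fun y => c2621 h y x261t x153t
  have x365f : α 365 = false := ff fun y => c3140 h x257t x277t y
  have x38t : α 38 = true := tt fun y => c1073 h y x163f x365f
  have x98f : α 98 = false := ff fun y => c1068 h x38t y x257t
  have x119t : α 119 = true := tt fun y => c1834 h x252f y x81f
  have x201f : α 201 = false := ff fun y => c80 h x1t x58t y
  have x378t : α 378 = true := tt fun y => c1843 h x81f x201f y
  have x20t : α 20 = true := tt fun y => c555 h x264f x92f y
  have x106f : α 106 = false := ff fun y => c538 h y x20t x146t x59t
  have x424t : α 424 = true := tt fun y => c2581 h x264f y x149f x335f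
  have x117f : α 117 = false := ff fun y => c2428 h x424t x238t y
  have x97t : α 97 = true := tt fun y => c1301 h x54f x61f x91f y
  have x236t : α 236 = true := tt fun y => c1548 h y x92f x61f
  have x200f : α 200 = false := ff fun y => c1466 h y x236t x58t x97t
  have x94t : α 94 = true := tt fun y => c1309 h y x54f x91f
  have x183t : α 183 = true := tt fun y => l3415 h y x568t x252f x334f x200f x238t x449f x92f x97t x91f x237t x233t x54f x201f x1t x59t
  have x23f : α 23 = false := ff fun y => c696 h y x58t x183t
  have x344f : α 344 = false := ff fun y => c2820 h x568t y x188t
  have x179f : α 179 = false := ff fun y => c1821 h y x80t x257t x183t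
  have x161t : α 161 = true := tt fun y => c2276 h x179f y x106f x117f
  have x273f : α 273 = false := ff fun y => c1817 h x80t x161t x183t y
  have x462f : α 462 = false := ff fun y => c1819 h x80t x161t x378t y
  have x157t : α 157 = true := tt fun y => c2660 h y x273f x462f
  have x581t : α 581 = true := tt fun y => c1848 h x252f y x81f x462f
  have x347f : α 347 = false := ff fun y => c2666 h x157t y x581t
  have x486t : α 486 = true := tt fun y => c207 h x45f y x11f x462f
  have x480t : α 480 = true := tt fun y => c3218 h y x347f x273f
  have x287t : α 287 = true := tt fun y => c3217 h x347f x273f y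
  have x93t : α 93 = true := tt fun y => c703 h y x347f x23f x273f
  have x274f : α 274 = false := ff fun y => c2448 h x119t y x486t
  have x276f : α 276 = false := ff fun y => c2616 h x261t y x153t x157t
  have x228f : α 228 = false := ff fun y => c2091 h x93t x119t y
  have x26t : α 26 = true := tt fun y => c803 h y x276f x98f x347f
  have x192t : α 192 = true := tt fun y => c2744 h x182f y x276f
  have x32t : α 32 = true := tt fun y => c951 h y x81f x228f
  have x6f : α 6 = false := ff fun y => c152 h y x26t x146t
  have x279f : α 279 = false := ff fun y => c796 h x261t y x26t x38t
  have x564f : α 564 = false := ff fun y => l3420 h y x287t x23f x183t x568t x252f x19f x335f x200f x92f x91f x233t x54f x57f x201f x56f x61f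
  have x185t : α 185 = true := tt fun y => c2784 h x564f x344f y
  have x47t : α 47 = true := tt fun y => c1150 h y x117f x276f
  have x263f : α 263 = false := ff fun y => c957 h y x480t x32t x287t
  have x577t : α 577 = true := tt fun y => c162 h y x455f x179f x6f
  have x254f : α 254 = false := ff fun y => c2776 h x188t x185t y
  have x343t : α 343 = true := tt fun y => c3173 h x279f x263f y
  have x484f : α 484 = false := ff fun y => c1154 h x577t x161t y x47t
  have x338t : α 338 = true := tt fun y => c492 h x254f x19f y x91f
  have x556f : α 556 = false := ff fun y => c2858 h x192t x343t y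
  have x270t : α 270 = true := tt fun y => c2351 h x484f y x111f
  have x187f : α 187 = false := ff fun y => c2114 h x94t y x338t
  have x396t : α 396 = true := tt fun y => c3225 h x556f y x274f
  have x253f : α 253 = false := ff fun y => c2541 h x270t x153t y x146t
  have x75t : α 75 = true := tt fun y => c1769 h x187f y x253f x163f
  c1772 h x75t x203t x396t

theorem l3422 (h : Good α) (x183t : α 183 = true) (x98f : α 98 = false) (x261t : α 261 = true) (x252f : α 252 = false) (x378t : α 378 = true) (x81f : α 81 = false) (x33t : α 33 = true) (x257t : α 257 = true) (x117f : α 117 = false) (x264f : α 264 = false) (x80t : α 80 = true) (x92f : α 92 = false) (x153t : α 153 = true) (x146t : α 146 = true) (x61f : α 61 = false) : False :=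
  have x149f := h.u2
  have x111f : α 111 = false := ff fun y => c2348 h x261t x153t y
  have x455f : α 455 = false := ff fun y => c2621 h y x261t x153t
  have x59t : α 59 = true := tt fun y => c1499 h x149f x61f y
  have x20t : α 20 = true := tt fun y => c555 h x264f x92f y
  have x106f : α 106 = false := ff fun y => c538 h y x20t x146t x59t
  have x325t : α 325 = true := tt fun y => c1561 h y x149f x61f
  have x494t : α 494 = true := tt fun y => c2086 h y x264f x92f
  have x341f : α 341 = false := ff fun y => c2625 h y x494t x153t x325t
  have x452t : α 452 = true := tt fun y => c2582 h y x264f x149f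
  have x236t : α 236 = true := tt fun y => c1548 h y x92f x61f
  have x179f : α 179 = false := ff fun y => c1821 h y x80t x257t x183t
  have x161t : α 161 = true := tt fun y => c2276 h x179f y x106f x117f
  have x273f : α 273 = false := ff fun y => c1817 h x80t x161t x183t y
  have x462f : α 462 = false := ff fun y => c1819 h x80t x161t x378t y
  have x157t : α 157 = true := tt fun y => c2660 h y x273f x462f
  have x581t : α 581 = true := tt fun y => c1848 h x252f y x81f x462f
  have x276f : α 276 = false := ff fun y => c2616 h x261t y x153t x157t
  have x347f : α 347 = false := ff fun y => c2666 h x157t y x581t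
  have x26t : α 26 = true := tt fun y => c803 h y x276f x98f x347f
  have x47t : α 47 = true := tt fun y => c1150 h y x117f x276f
  have x6f : α 6 = false := ff fun y => c152 h y x26t x146t
  have x116f : α 116 = false := ff fun y => c1147 h x236t x161t y x47t
  have x577t : α 577 = true := tt fun y => c162 h y x455f x179f x6f
  have x226t : α 226 = true := tt fun y => c2053 h y x116f x92f
  have x280t : α 280 = true := tt fun y => c2055 h y x264f x116f x92f
  have x484f : α 484 = false := ff fun y => c1154 h x577t x161t y x47t
  have x164f : α 164 = false := ff fun y => c2682 h x452t x280t y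
  have x270t : α 270 = true := tt fun y => c2351 h x484f y x111f
  have x78t : α 78 = true := tt fun y => c1542 h x164f x149f y x61f
  have x253f : α 253 = false := ff fun y => c2541 h x270t x153t y x146t
  have x31f : α 31 = false := ff fun y => c939 h x226t x78t y
  have x475t : α 475 = true := tt fun y => c2290 h x106f x253f y
  have x283t : α 283 = true := tt fun y => c941 h x341f x92f y x31f
  c979 h x283t x33t x475t x257t

theorem l3423 (h : Good α) (x203t : α 203 = true) (x19f : α 19 = false) (x334f : α 334 = false) (x335f : α 335 = false) (x80t : α 80 = true) (x449f : α 449 = false) (x92f : α 92 = false) (x237t : α 237 = true) (x233t : α 233 = true) (x54f : α 54 = false) (x58t : α 58 = true) (x1t : α 1 = true) (x61f : α 61 = false) : False :=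
  have x149f := h.u2
  have x201f : α 201 = false := ff fun y => c80 h x1t x58t y
  have x59t : α 59 = true := tt fun y => c1499 h x149f x61f y
  have x56f : α 56 = false := ff fun y => c57 h y x1t x59t
  have x57f : α 57 = false := ff fun y => c62 h y x1t x58t
  have x238t : α 238 = true := tt fun y => c1415 h x57f x92f y
  have x264f : α 264 = false := ff fun y => l3419 h y x335f x238t x57f x56f
  have x188t : α 188 = true := tt fun y => c1381 h y x264f x56f x149f
  have x153t : α 153 = true := tt fun y => c1298 h y x56f x54f
  have x325t : α 325 = true := tt fun y => c1561 h y x149f x61f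
  have x494t : α 494 = true := tt fun y => c2086 h y x264f x92f
  have x341f : α 341 = false := ff fun y => c2625 h y x494t x153t x325t
  have x184t : α 184 = true := tt fun y => c2065 h x341f y x92f
  have x70t : α 70 = true := tt fun y => c472 h x56f x19f y
  have x81f : α 81 = false := ff fun y => c1682 h x188t x184t x70t y
  have x378t : α 378 = true := tt fun y => c1843 h x81f x201f y
  have x451f : α 451 = false := ff fun y => c1697 h x70t x233t y
  have x11f : α 11 = false := ff fun y => c210 h y x70t x233t
  have x91f : α 91 = false := ff fun y => c1462 h x237t y x58t
  have x33t : α 33 = true := tt fun y => c464 h y x19f x91f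
  have x257t : α 257 = true := tt fun y => c493 h x19f x91f y
  have x146t : α 146 = true := tt fun y => c1296 h x56f x54f y
  have x20t : α 20 = true := tt fun y => c555 h x264f x92f y
  have x106f : α 106 = false := ff fun y => c538 h y x20t x146t x59t
  have x97t : α 97 = true := tt fun y => c1301 h x54f x61f x91f y
  have x113t : α 113 = true := tt fun y => c2364 h x264f x149f y
  have x189f : α 189 = false := ff fun y => c2176 h x113t x97t y
  have x424t : α 424 = true := tt fun y => c2581 h x264f y x149f x335f
  have x117f : α 117 = false := ff fun y => c2428 h x424t x238t y
  have x53t : α 53 = true := tt fun y => c1260 h x56f y x149f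
  have x252f : α 252 = false := ff fun y => c33 h x53t y x1t x203t
  have x171t : α 171 = true := tt fun y => c211 h y x252f x11f x81f
  have x105f : α 105 = false := ff fun y => c2271 h x153t y x171t
  have x163f : α 163 = false := ff fun y => c2540 h x153t x171t x146t y
  have x277t : α 277 = true := tt fun y => c2680 h x163f y x451f
  have x365f : α 365 = false := ff fun y => c3140 h x257t x277t y
  have x45f : α 45 = false := ff fun y => c965 h x33t y x257t x277t
  have x38t : α 38 = true := tt fun y => c1073 h y x163f x365f
  have x261t : α 261 = true := tt fun y => c1135 h y x105f x45f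
  have x98f : α 98 = false := ff fun y => c1068 h x38t y x257t
  have x568f : α 568 = false := ff fun y => l3421 h y x203t x19f x334f x335f x80t x449f x92f x237t x233t x54f x58t x1t x61f
  have x183f : α 183 = false := ff fun y => l3422 h y x98f x261t x252f x378t x81f x33t x257t x117f x264f x80t x92f x153t x146t x61f
  have x273t : α 273 = true := tt fun y => c2750 h x183f x189f y
  have x157f : α 157 = false := ff fun y => c2544 h x146t y x257t x273t
  have x161t : α 161 = true := tt fun y => c2419 h y x117f x157f
  have x462f : α 462 = false := ff fun y => c1819 h x80t x161t x378t y
  have x486t : α 486 = true := tt fun y => c207 h x45f y x11f x462f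
  have x121f : α 121 = false := ff fun y => c2467 h y x273t x486t
  have x276t : α 276 = true := tt fun y => c2464 h y x157f x121f
  have x25t : α 25 = true := tt fun y => c774 h x61f x157f y x121f
  have x26f : α 26 = false := ff fun y => c812 h y x276t x277t x486t
  have x347f : α 347 = false := ff fun y => c3236 h x276t y x486t
  have x27f : α 27 = false := ff fun y => c764 h y x113t x25t x97t
  have x31f : α 31 = false := ff fun y => c767 h y x25t x97t
  have x281t : α 281 = true := tt fun y => c807 h y x106f x26f
  have x37t : α 37 = true := tt fun y => c1065 h y x157f x347f
  have x337t : α 337 = true := tt fun y => c833 h y x149f x27f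
  have x21t : α 21 = true := tt fun y => c587 h x92f y x31f
  have x42t : α 42 = true := tt fun y => c935 h x92f x117f x31f y
  have x283t : α 283 = true := tt fun y => c941 h x341f x92f y x31f
  have x116f : α 116 = false := ff fun y => c583 h y x21t x25t
  have x270f : α 270 = false := ff fun y => c1048 h y x37t x283t x42t
  have x192t : α 192 = true := tt fun y => c2051 h x116f x92f y
  have x226t : α 226 = true := tt fun y => c2053 h y x116f x92f
  have x253t : α 253 = true := tt fun y => c2208 h x270f x105f y x98f
  have x366f : α 366 = false := ff fun y => c2850 h y x337t x226t x192t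
  have x47f : α 47 = false := ff fun y => c1051 h x281t y x253t x37t
  have x428t : α 428 = true := tt fun y => c3318 h x568f y x366f
  have x266t : α 266 = true := tt fun y => c1148 h y x116f x47f
  c2770 h x428t x266t x184t

theorem l3424 (h : Good α) (x183f : α 183 = false) (x203f : α 203 = false) (x378t : α 378 = true) (x180f : α 180 = false) (x19f : α 19 = false) (x20t : α 20 = true) (x113t : α 113 = true) (x576f : α 576 = false) (x97t : α 97 = true) (x91f : α 91 = false) (x233t : α 233 = true) (x201f : α 201 = false) (x52f : α 52 = false) (x59t : α 59 = true) : False :=
  have x150t := h.u3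
  have x156t : α 156 = true := tt fun y => c2644 h x203f y x201f
  have x340t : α 340 = true := tt fun y => c2006 h x91f x183f y
  have x22t : α 22 = true := tt fun y => c637 h y x52f x183f
  have x387f : α 387 = false := ff fun y => c517 h x22t x20t x378t y
  have x388t : α 388 = true := tt fun y => c2918 h x203f y x201f x387f
  have x464f : α 464 = false := ff fun y => c1517 h x59t x388t x150t y
  have x483t : α 483 = true := tt fun y => c3394 h x464f y x576f
  have x274f : α 274 = false := ff fun y => c2205 h x97t y x340t x483t
  have x284f : α 284 = false := ff fun y => c2377 h x113t y x340t x483t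
  have x474t : α 474 = true := tt fun y => c2720 h y x284f x180f
  have x345t : α 345 = true := tt fun y => c3221 h x284f x274f y
  have x396f : α 396 = false := ff fun y => c3335 h x474t y x388t
  have x35f : α 35 = false := ff fun y => c1011 h y x156t x345t
  have x75t : α 75 = true := tt fun y => c1771 h y x203f x396f
  have x115t : α 115 = true := tt fun y => c469 h x19f x35f x91f y
  c1767 h x75t x115t x233t

theorem l3425 (h : Good α) (x396f : α 396 = false) (x203f : α 203 = false) (x23f : α 23 = false) (x378t : α 378 = true) (x264f : α 264 = false) (x92f : α 92 = false) (x97t : α 97 = true) (x233t : α 233 = true) (x53t : α 53 = true) (x61f : α 61 = false) : False :=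
  have x149f := h.u2
  have x474t : α 474 = true := tt fun y => c1562 h x149f y x61f x396f
  have x190t : α 190 = true := tt fun y => c1570 h x61f y x396f
  have x75t : α 75 = true := tt fun y => c1771 h y x203f x396f
  have x343f : α 343 = false := ff fun y => c2185 h y x190t x97t
  have x247f : α 247 = false := ff fun y => c1774 h x75t y x233t x378t
  have x476t : α 476 = true := tt fun y => c2085 h x264f y x92f x343f
  have x252t : α 252 = true := tt fun y => c2933 h y x203f x247f
  have x263f : α 263 = false := ff fun y => c3120 h y x476t x252t x474t
  have x93f : α 93 = false := ff fun y => c1272 h x53t y x252t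
  c701 h x263f x93f x23f

theorem l3426 (h : Good α) (x252t : α 252 = true) (x396t : α 396 = true) (x462f : α 462 = false) (x11f : α 11 = false) : False :=
  have x171f : α 171 = false := ff fun y => c2697 h y x252t x396t
  have x581f : α 581 = false := ff fun y => c3121 h x252t x396t y
  c215 h x171f x581f x11f x462f

theorem l3427 (h : Good α) (x450f : α 450 = false) (x80t : α 80 = true) (x576f : α 576 = false) (x548f : α 548 = false) (x449f : α 449 = false) (x92f : α 92 = false) (x237t : α 237 = true) (x233t : α 233 = true) (x54f : α 54 = false) (x58t : α 58 = true) (x1t : α 1 = true) (x61f : α 61 = false) : False :=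
  have x149f := h.u2
  have x91f : α 91 = false := ff fun y => c1462 h x237t y x58t
  have x97t : α 97 = true := tt fun y => c1301 h x54f x61f x91f y
  have x236t : α 236 = true := tt fun y => c1548 h y x92f x61f
  have x200f : α 200 = false := ff fun y => c1466 h y x236t x58t x97t
  have x57f : α 57 = false := ff fun y => c62 h y x1t x58t
  have x238t : α 238 = true := tt fun y => c1415 h x57f x92f y
  have x59t : α 59 = true := tt fun y => c1499 h x149f x61f y
  have x56f : α 56 = false := ff fun y => c57 h y x1t x59t
  have x153t : α 153 = true := tt fun y => c1298 h y x56f x54f
  have x146t : α 146 = true := tt fun y => c1296 h x56f x54f y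
  have x201f : α 201 = false := ff fun y => c80 h x1t x58t y
  have x53t : α 53 = true := tt fun y => c1260 h x56f y x149f
  have x52f : α 52 = false := ff fun y => c21 h x53t x1t y
  have x325t : α 325 = true := tt fun y => c1561 h y x149f x61f
  have x409t : α 409 = true := tt fun y => c3364 h y x450f x548f
  have x335f : α 335 = false := ff fun y => c3261 h x325t y x409t
  have x542t : α 542 = true := tt fun y => c2583 h x149f x335f y
  have x334f : α 334 = false := ff fun y => c3271 h x542t x409t y
  have x264f : α 264 = false := ff fun y => l3419 h y x335f x238t x57f x56f
  have x494t : α 494 = true := tt fun y => c2086 h y x264f x92f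
  have x424t : α 424 = true := tt fun y => c2581 h x264f y x149f x335f
  have x452t : α 452 = true := tt fun y => c2582 h y x264f x149f
  have x113t : α 113 = true := tt fun y => c2364 h x264f x149f y
  have x20t : α 20 = true := tt fun y => c555 h x264f x92f y
  have x188t : α 188 = true := tt fun y => c1381 h y x264f x56f x149f
  have x212f : α 212 = false := ff fun y => c2962 h x494t x325t y
  have x341f : α 341 = false := ff fun y => c2625 h y x494t x153t x325t
  have x117f : α 117 = false := ff fun y => c2428 h x424t x238t y
  have x71f : α 71 = false := ff fun y => c1725 h x452t x236t y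
  have x106f : α 106 = false := ff fun y => c538 h y x20t x146t x59t
  have x307t : α 307 = true := tt fun y => c2960 h x212f y x450f
  have x184t : α 184 = true := tt fun y => c2065 h x341f y x92f
  have x386t : α 386 = true := tt fun y => c1721 h y x200f x71f
  have x19f : α 19 = false := ff fun y => c509 h x188t x424t y x307t
  have x70t : α 70 = true := tt fun y => c472 h x56f x19f y
  have x257t : α 257 = true := tt fun y => c493 h x19f x91f y
  have x33t : α 33 = true := tt fun y => c464 h y x19f x91f
  have x11f : α 11 = false := ff fun y => c210 h y x70t x233t
  have x451f : α 451 = false := ff fun y => c1697 h x70t x233t y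
  have x180f : α 180 = false := ff fun y => c1692 h x386t x452t x70t y
  have x81f : α 81 = false := ff fun y => c1682 h x188t x184t x70t y
  have x378t : α 378 = true := tt fun y => c1843 h x81f x201f y
  have x23f : α 23 = false := ff fun y => c712 h y x113t x307t
  have x203f : α 203 = false := ff fun y => l3423 h y x19f x334f x335f x80t x449f x92f x237t x233t x54f x58t x1t x61f
  have x183t : α 183 = true := tt fun y => l3424 h y x203f x378t x180f x19f x20t x113t x576f x97t x91f x233t x201f x52f x59t
  have x179f : α 179 = false := ff fun y => c1821 h y x80t x257t x183t
  have x161t : α 161 = true := tt fun y => c2276 h x179f y x106f x117f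
  have x462f : α 462 = false := ff fun y => c1819 h x80t x161t x378t y
  have x396t : α 396 = true := tt fun y => l3425 h y x203f x23f x378t x264f x92f x97t x233t x53t x61f
  have x252f : α 252 = false := ff fun y => l3426 h y x396t x462f x11f
  have x171t : α 171 = true := tt fun y => c211 h y x252f x11f x81f
  have x105f : α 105 = false := ff fun y => c2271 h x153t y x171t
  have x163f : α 163 = false := ff fun y => c2540 h x153t x171t x146t y
  have x277t : α 277 = true := tt fun y => c2680 h x163f y x451f
  have x365f : α 365 = false := ff fun y => c3140 h x257t x277t y
  have x45f : α 45 = false := ff fun y => c965 h x33t y x257t x277t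
  have x38t : α 38 = true := tt fun y => c1073 h y x163f x365f
  have x261t : α 261 = true := tt fun y => c1135 h y x105f x45f
  have x98f : α 98 = false := ff fun y => c1068 h x38t y x257t
  l3422 h x183t x98f x261t x252f x378t x81f x33t x257t x117f x264f x80t x92f x153t x146t x61f

theorem l3428 (h : Good α) (x233t : α 233 = true) (x197f : α 197 = false) (x242t : α 242 = true) (x54f : α 54 = false) (x58t : α 58 = true) (x543t : α 543 = true) (x1t : α 1 = true) (x61f : α 61 = false) : False :=
  have x149f := h.u2
  have x57f : α 57 = false := ff fun y => c62 h y x1t x58t
  have x201f : α 201 = false := ff fun y => c80 h x1t x58t y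
  have x59t : α 59 = true := tt fun y => c1499 h x149f x61f y
  have x56f : α 56 = false := ff fun y => c57 h y x1t x59t
  have x53t : α 53 = true := tt fun y => c1260 h x56f y x149f
  have x196f : α 196 = false := ff fun y => c32 h y x53t x1t
  have x204t : α 204 = true := tt fun y => c2573 h x196f x149f y
  have x351f : α 351 = false := ff fun y => c3001 h x543t y x233t
  have x237t : α 237 = true := tt fun y => c2887 h x197f y x351f
  have x249t : α 249 = true := tt fun y => c1443 h y x57f x351f x201f
  have x91f : α 91 = false := ff fun y => c1462 h x237t y x58t
  have x94t : α 94 = true := tt fun y => c1309 h y x54f x91f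
  have x97t : α 97 = true := tt fun y => c1301 h x54f x61f x91f y
  have x92f : α 92 = false := ff fun y => c2041 h x94t y x233t x242t
  have x449f : α 449 = false := ff fun y => c2135 h y x249t x94t
  have x236t : α 236 = true := tt fun y => c1548 h y x92f x61f
  have x238t : α 238 = true := tt fun y => c1415 h x57f x92f y
  have x200f : α 200 = false := ff fun y => c1466 h y x236t x58t x97t
  have x239f : α 239 = false := ff fun y => c2991 h y x236t x233t x242t
  have x352f : α 352 = false := ff fun y => c2939 h y x238t x204t
  have x354t : α 354 = true := tt fun y => c2907 h x200f x352f x201f y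
  have x548f : α 548 = false := ff fun y => c3083 h x242t x354t y
  have x576f : α 576 = false := ff fun y => l3413 h y x233t x242t x201f
  have x80t : α 80 = true := tt fun y => l3417 h y x239f x200f x53t
  have x450t : α 450 = true := tt fun y => l3427 h y x80t x576f x548f x449f x92f x237t x233t x54f x58t x1t x61f
  have x544f : α 544 = false := ff fun y => c2189 h x236t y x97t x450t
  have x409f : α 409 = false := ff fun y => c86 h x1t y x58t x450t
  c1352 h x239f x544f x54f x409f

theorem l3429 (h : Good α) (x197f : α 197 = false) (x242t : α 242 = true) (x61f : α 61 = false) (x54f : α 54 = false) (x58t : α 58 = true) (x543t : α 543 = true) (x1t : α 1 = true) : False :=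
  have x233f : α 233 = false := ff fun y => l3428 h y x197f x242t x54f x58t x543t x1t x61f
  have x91t : α 91 = true := tt fun y => c1314 h x54f y x233f
  have x97f : α 97 = false := ff fun y => c1457 h x91t x58t y
  have x237f : α 237 = false := ff fun y => c1462 h y x91t x58t
  c1553 h x197f x61f x237f x97f

theorem l3430 (h : Good α) (x233f : α 233 = false) (x197t : α 197 = true) (x242t : α 242 = true) (x54f : α 54 = false) (x58t : α 58 = true) (x1t : α 1 = true) (x61f : α 61 = false) : False :=
  have x149f := h.u2
  have x57f : α 57 = false := ff fun y => c62 h y x1t x58t
  have x59t : α 59 = true := tt fun y => c1499 h x149f x61f y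
  have x56f : α 56 = false := ff fun y => c57 h y x1t x59t
  have x53t : α 53 = true := tt fun y => c1260 h x56f y x149f
  have x196f : α 196 = false := ff fun y => c32 h y x53t x1t
  have x204t : α 204 = true := tt fun y => c2573 h x196f x149f y
  have x250f : α 250 = false := ff fun y => c82 h x1t x204t x58t y
  have x201f : α 201 = false := ff fun y => c80 h x1t x58t y
  have x351t : α 351 = true := tt fun y => c2921 h y x233f x201f
  have x91t : α 91 = true := tt fun y => c1314 h x54f y x233f
  have x354f : α 354 = false := ff fun y => c2882 h x197t x204t x351t y
  have x97f : α 97 = false := ff fun y => c1457 h x91t x58t y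
  have x238t : α 238 = true := tt fun y => c1441 h x57f y x201f x354f
  have x92t : α 92 = true := tt fun y => c1544 h y x61f x97f
  have x450t : α 450 = true := tt fun y => c2199 h x97f x250f y
  have x444f : α 444 = false := ff fun y => c2080 h x92t x238t y
  have x352f : α 352 = false := ff fun y => c2939 h y x238t x204t
  have x409f : α 409 = false := ff fun y => c86 h x1t y x58t x450t
  have x236t : α 236 = true := tt fun y => c2187 h y x352f x97f x250f
  have x544t : α 544 = true := tt fun y => c3362 h y x444f x409f
  have x548t : α 548 = true := tt fun y => c1351 h x54f x409f x233f y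
  c3016 h x236t x544t x242t x548t

theorem l3431 (h : Good α) (x242t : α 242 = true) (x54f : α 54 = false) (x58t : α 58 = true) (x543t : α 543 = true) (x1t : α 1 = true) (x61f : α 61 = false) : False :=
  have x149f := h.u2
  have x57f : α 57 = false := ff fun y => c62 h y x1t x58t
  have x59t : α 59 = true := tt fun y => c1499 h x149f x61f y
  have x56f : α 56 = false := ff fun y => c57 h y x1t x59t
  have x53t : α 53 = true := tt fun y => c1260 h x56f y x149f
  have x196f : α 196 = false := ff fun y => c32 h y x53t x1t
  have x204t : α 204 = true := tt fun y => c2573 h x196f x149f y
  have x250f : α 250 = false := ff fun y => c82 h x1t x204t x58t y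
  have x201f : α 201 = false := ff fun y => c80 h x1t x58t y
  have x197t : α 197 = true := tt fun y => l3429 h y x242t x61f x54f x58t x543t x1t
  have x237f : α 237 = false := ff fun y => c78 h x197t x1t y x58t
  have x233t : α 233 = true := tt fun y => l3430 h y x197t x242t x54f x58t x1t x61f
  have x351f : α 351 = false := ff fun y => c3001 h x543t y x233t
  have x354t : α 354 = true := tt fun y => c3030 h x237f x250f x351f y
  have x249t : α 249 = true := tt fun y => c1443 h y x57f x351f x201f
  have x534t : α 534 = true := tt fun y => c3041 h x237f x351f y
  have x238f : α 238 = false := ff fun y => c2880 h x249t y x197t x204t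
  have x406f : α 406 = false := ff fun y => c116 h x197t x1t x534t y
  have x546t : α 546 = true := tt fun y => c1446 h x57f x238f x406f y
  have x439f : α 439 = false := ff fun y => c3003 h x233t x354t y x546t
  have x447f : α 447 = false := ff fun y => c3082 h x242t x354t y x546t
  c3355 h x439f x406f x447f

theorem l3432 (h : Good α) (x54f : α 54 = false) (x58t : α 58 = true) (x543t : α 543 = true) (x1t : α 1 = true) (x61f : α 61 = false) : False :=
  have x57f : α 57 = false := ff fun y => c62 h y x1t x58t
  have x201f : α 201 = false := ff fun y => c80 h x1t x58t y
  have x242f : α 242 = false := ff fun y => l3431 h y x54f x58t x543t x1t x61f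
  have x97t : α 97 = true := tt fun y => c1556 h x61f y x242f
  have x233t : α 233 = true := tt fun y => c1303 h x54f x61f y x242f
  have x197t : α 197 = true := tt fun y => l3412 h x242f y x201f x543t x61f
  have x91f : α 91 = false := ff fun y => c1457 h y x58t x97t
  have x351f : α 351 = false := ff fun y => c3001 h x543t y x233t
  have x237f : α 237 = false := ff fun y => c78 h x197t x1t y x58t
  have x94t : α 94 = true := tt fun y => c1309 h y x54f x91f
  have x443t : α 443 = true := tt fun y => c2024 h y x237f x91f
  have x249t : α 249 = true := tt fun y => c1443 h y x57f x351f x201f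
  have x449f : α 449 = false := ff fun y => c2124 h y x94t x543t x233t
  have x402f : α 402 = false := ff fun y => c3347 h y x443t x543t
  have x353f : α 353 = false := ff fun y => c2890 h y x249t x197t
  have x547t : α 547 = true := tt fun y => c3348 h y x449f x402f
  have x239t : α 239 = true := tt fun y => c2021 h x353f y x237f x91f
  c2994 h x547t x239t x543t x233t

theorem l3433 (h : Good α) (x183t : α 183 = true) (x273t : α 273 = true) (x71f : α 71 = false) (x378t : α 378 = true) (x80t : α 80 = true) (x97f : α 97 = false) (x94f : α 94 = false) : False :=
  have x150t := h.u3
  have x189f : α 189 = false := ff fun y => c2751 h x183t y x273t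
  have x161f : α 161 = false := ff fun y => c1817 h x80t y x183t x273t
  have x340t : α 340 = true := tt fun y => c2182 h x97f x189f y
  have x28f : α 28 = false := ff fun y => c874 h y x150t x340t
  have x22t : α 22 = true := tt fun y => c620 h x94f y x28f
  have x117f : α 117 = false := ff fun y => c666 h x22t y x183t x273t
  have x20t : α 20 = true := tt fun y => c546 h x71f x161f y x117f
  have x462f : α 462 = false := ff fun y => c2760 h x183t x273t x378t y
  have x387t : α 387 = true := tt fun y => c1715 h x71f x161f y x462f
  c517 h x22t x20t x378t x387t

theorem l3434 (h : Good α) (x451t : α 451 = true) (x378t : α 378 = true) (x233t : α 233 = true) (x201f : α 201 = false) : False :=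
  have x387f : α 387 = false := ff fun y => c3326 h x451t x378t y
  have x70f : α 70 = false := ff fun y => c1697 h y x233t x451t
  c1693 h x70f x201f x387f

theorem l3435 (h : Good α) (x75t : α 75 = true) (x233t : α 233 = true) (x91f : α 91 = false) (x54t : α 54 = true) : False :=
  have x18f : α 18 = false := ff fun y => c428 h x54t y x75t
  have x115f : α 115 = false := ff fun y => c1767 h x75t y x233t
  have x259t : α 259 = true := tt fun y => c441 h x18f x91f y
  have x304t : α 304 = true := tt fun y => c455 h x18f x115f y
  c2996 h x259t x233t x304t

theorem l3436 (h : Good α) (x115f : α 115 = false) (x190t : α 190 = true) (x25t : α 25 = true) (x509t : α 509 = true) (x274f : α 274 = false) (x304f : α 304 = false) (x60f : α 60 = false) (x331t : α 331 = true) (x50f : α 50 = false) (x332f : α 332 = false) (x203f : α 203 = false) (x75f : α 75 = false) (x200t : α 200 = true) (x94f : α 94 = false) (x91f : α 91 = false) (x54t : α 54 = true) (x57f : α 57 = false) (x56f : α 56 = false) (x59t : α 59 = true) : False :=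
  have x150t := h.u3
  have x149f := h.u2
  have x154t := h.u1
  have x225t : α 225 = true := tt fun y => c1770 h x75f x203f y x332f
  have x92t : α 92 = true := tt fun y => c1409 h x94f x57f y
  have x53t : α 53 = true := tt fun y => c1260 h x56f y x149f
  have x191t : α 191 = true := tt fun y => c1998 h y x91f x115f
  have x18t : α 18 = true := tt fun y => c455 h y x115f x304f
  have x432t : α 432 = true := tt fun y => c2408 h x115f x274f x304f y
  have x275f : α 275 = false := ff fun y => c1330 h x154t x54t y x191t
  have x260f : α 260 = false := ff fun y => c1328 h x54t x150t x191t y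
  have x24f : α 24 = false := ff fun y => c737 h y x54t x191t
  have x187f : α 187 = false := ff fun y => c431 h y x54t x18t
  have x192t : α 192 = true := tt fun y => c755 h x24f y x115f x274f
  have x338t : α 338 = true := tt fun y => c2113 h x94f x187f y
  have x107t : α 107 = true := tt fun y => c2105 h y x94f x187f
  have x262f : α 262 = false := ff fun y => c2830 h y x192t x190t
  have x51f : α 51 = false := ff fun y => c1216 h y x192t x331t x432t
  have x148t : α 148 = true := tt fun y => c1204 h y x51f x60f
  have x194f : α 194 = false := ff fun y => c2566 h x200t x148t y
  have x63t : α 63 = true := tt fun y => c1601 h y x194f x75f x203f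
  have x167f : α 167 = false := ff fun y => c1307 h x63t y x54t x150t
  have x382f : α 382 = false := ff fun y => c1618 h x63t y x225t x509t
  have x40t : α 40 = true := tt fun y => c1101 h x262f x382f y x167f
  have x241t : α 241 = true := tt fun y => c2688 h x382f y x167f
  have x278f : α 278 = false := ff fun y => c1098 h x107t x40t x338t y
  have x89f : α 89 = false := ff fun y => c1511 h x241t y x59t
  have x87t : α 87 = true := tt fun y => c1176 h x51f x89f x50f y
  have x88t : α 88 = true := tt fun y => c1208 h y x51f x89f
  have x569f : α 569 = false := ff fun y => c783 h x25t x509t x87t y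
  have x27f : α 27 = false := ff fun y => c763 h y x25t x87t
  have x143t : α 143 = true := tt fun y => c2533 h y x332f x569f
  have x7t : α 7 = true := tt fun y => c164 h x149f x27f y
  have x337t : α 337 = true := tt fun y => c833 h y x149f x27f
  have x39t : α 39 = true := tt fun y => c816 h y x27f x278f x260f
  have x86f : α 86 = false := ff fun y => c1900 h y x143t x191t x225t
  have x264f : α 264 = false := ff fun y => c2068 h y x337t x92t x192t
  have x182f : α 182 = false := ff fun y => c1934 h x88t y x337t
  have x164f : α 164 = false := ff fun y => c165 h y x39t x7t
  have x188t : α 188 = true := tt fun y => c1381 h y x264f x56f x149f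
  have x184t : α 184 = true := tt fun y => c1203 h y x182f x57f x51f
  have x101t : α 101 = true := tt fun y => c2227 h x164f y x149f
  have x344f : α 344 = false := ff fun y => c1936 h y x188t x88t
  have x272f : α 272 = false := ff fun y => c1286 h y x184t x154t x53t
  have x485t : α 485 = true := tt fun y => c1909 h y x344f x275f x86f
  have x280t : α 280 = true := tt fun y => c825 h x344f y x86f x27f
  have x346t : α 346 = true := tt fun y => c2112 h x272f x94f y x187f
  c2237 h x485t x280t x346t x101t

theorem l3437 (h : Good α) (x18t : α 18 = true) (x115t : α 115 = true) (x509t : α 509 = true) (x203f : α 203 = false) (x80t : α 80 = true) (x97f : α 97 = false) (x233t : α 233 = true) (x54t : α 54 = true) (x58t : α 58 = true) (x1t : α 1 = true) (x61f : α 61 = false) : False :=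
  have x149f := h.u2
  have x150t := h.u3
  have x91f : α 91 = false := ff fun y => c38 h x54t x1t y x58t
  have x75f : α 75 = false := ff fun y => l3435 h y x233t x91f x54t
  have x396t : α 396 = true := tt fun y => c1771 h x75f x203f y
  have x343f : α 343 = false := ff fun y => c3300 h y x396t x509t
  have x190t : α 190 = true := tt fun y => c2184 h x343f y x97f
  have x201f : α 201 = false := ff fun y => c80 h x1t x58t y
  have x156t : α 156 = true := tt fun y => c2644 h x203f y x201f
  have x332f : α 332 = false := ff fun y => c1479 h x58t x156t y
  have x225t : α 225 = true := tt fun y => c1770 h x75f x203f y x332f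
  have x152t : α 152 = true := tt fun y => c2612 h y x203f x332f
  have x59t : α 59 = true := tt fun y => c1499 h x149f x61f y
  have x56f : α 56 = false := ff fun y => c57 h y x1t x59t
  have x53t : α 53 = true := tt fun y => c1260 h x56f y x149f
  have x196f : α 196 = false := ff fun y => c32 h y x53t x1t
  have x204t : α 204 = true := tt fun y => c2573 h x196f x149f y
  have x354f : α 354 = false := ff fun y => c1347 h x54t x204t x233t y
  have x57f : α 57 = false := ff fun y => c62 h y x1t x58t
  have x238t : α 238 = true := tt fun y => c1441 h x57f y x201f x354f
  have x352f : α 352 = false := ff fun y => c2939 h y x238t x204t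
  have x200t : α 200 = true := tt fun y => c2907 h y x352f x201f x354f
  have x94f : α 94 = false := ff fun y => c1321 h y x238t x54t x204t
  have x250f : α 250 = false := ff fun y => c82 h x1t x204t x58t y
  have x324t : α 324 = true := tt fun y => c2574 h y x196f x149f
  have x52f : α 52 = false := ff fun y => c21 h x53t x1t y
  have x187f : α 187 = false := ff fun y => c431 h y x54t x18t
  have x296f : α 296 = false := ff fun y => c432 h x324t y x54t x18t
  have x24f : α 24 = false := ff fun y => c409 h y x18t x115t
  have x107t : α 107 = true := tt fun y => c2105 h y x94f x187f
  have x30t : α 30 = true := tt fun y => c725 h x94f x24f y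
  have x262f : α 262 = false := ff fun y => c451 h x107t y x18t x190t
  have x148f : α 148 = false := ff fun y => c2295 h x107t y x115t x156t
  have x124f : α 124 = false := ff fun y => c416 h y x30t x18t
  have x320t : α 320 = true := tt fun y => c1427 h y x148f x57f
  have x458t : α 458 = true := tt fun y => c2569 h x148f x262f y
  have x194f : α 194 = false := ff fun y => c2610 h x320t y x152t
  have x397f : α 397 = false := ff fun y => c453 h x107t x458t x18t y
  have x63t : α 63 = true := tt fun y => c1601 h y x194f x75f x203f
  have x321t : α 321 = true := tt fun y => c2567 h x148f x194f y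
  have x126t : α 126 = true := tt fun y => c2489 h x296f x397f y x250f
  have x167f : α 167 = false := ff fun y => c1307 h x63t y x54t x150t
  have x382f : α 382 = false := ff fun y => c1618 h x63t y x225t x509t
  have x215f : α 215 = false := ff fun y => c1823 h x200t x321t x80t y
  have x40t : α 40 = true := tt fun y => c1101 h x262f x382f y x167f
  have x241t : α 241 = true := tt fun y => c2688 h x382f y x167f
  have x183t : α 183 = true := tt fun y => c2001 h x124f x215f x91f y
  have x29f : α 29 = false := ff fun y => c884 h x107t y x40t
  have x23f : α 23 = false := ff fun y => c696 h y x58t x183t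
  have x2t : α 2 = true := tt fun y => c126 h x148f x29f y
  have x68t : α 68 = true := tt fun y => c889 h x148f x194f x29f y
  have x33t : α 33 = true := tt fun y => c681 h y x23f x97f
  have x273t : α 273 = true := tt fun y => c706 h x23f x97f y
  have x177f : α 177 = false := ff fun y => c127 h x2t x40t y
  have x470f : α 470 = false := ff fun y => c1670 h x68t x241t y
  have x19f : α 19 = false := ff fun y => c467 h x126t x33t y
  have x104t : α 104 = true := tt fun y => c2263 h x148f y x177f
  have x157t : α 157 = true := tt fun y => c1569 h x382f x470f x61f y
  have x70t : α 70 = true := tt fun y => c472 h x56f x19f y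
  have x257t : α 257 = true := tt fun y => c493 h x19f x91f y
  have x71f : α 71 = false := ff fun y => c1710 h y x104t x241t
  have x451f : α 451 = false := ff fun y => c1697 h x70t x233t y
  have x146f : α 146 = false := ff fun y => c2544 h y x157t x257t x273t
  have x378f : α 378 = false := ff fun y => l3433 h x183t x273t x71f y x80t x97f x94f
  c1243 h x146f x52f x451f x378f

theorem l3438 (h : Good α) (x107t : α 107 = true) (x74t : α 74 = true) (x18f : α 18 = false) (x115t : α 115 = true) (x509t : α 509 = true) (x156t : α 156 = true) (x203f : α 203 = false) (x80t : α 80 = true) (x75f : α 75 = false) (x97f : α 97 = false) (x92t : α 92 = true) (x200t : α 200 = true) (x237t : α 237 = true) (x91f : α 91 = false) (x197f : α 197 = false) (x57f : α 57 = false) (x58t : α 58 = true) (x61f : α 61 = false) : False :=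
  have x150t := h.u3
  have x149f := h.u2
  have x396t : α 396 = true := tt fun y => c1771 h x75f x203f y
  have x343f : α 343 = false := ff fun y => c3300 h y x396t x509t
  have x190t : α 190 = true := tt fun y => c2184 h x343f y x97f
  have x332f : α 332 = false := ff fun y => c1479 h x58t x156t y
  have x225t : α 225 = true := tt fun y => c1770 h x75f x203f y x332f
  have x152t : α 152 = true := tt fun y => c2612 h y x203f x332f
  have x59t : α 59 = true := tt fun y => c1499 h x149f x61f y
  have x313f : α 313 = false := ff fun y => c1516 h x59t x150t y
  have x148f : α 148 = false := ff fun y => c2295 h x107t y x115t x156t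
  have x320t : α 320 = true := tt fun y => c1427 h y x148f x57f
  have x194f : α 194 = false := ff fun y => c2610 h x320t y x152t
  have x63t : α 63 = true := tt fun y => c1601 h y x194f x75f x203f
  have x321t : α 321 = true := tt fun y => c2567 h x148f x194f y
  have x382f : α 382 = false := ff fun y => c1618 h x63t y x225t x509t
  have x124f : α 124 = false := ff fun y => c1604 h x107t x63t y
  have x215f : α 215 = false := ff fun y => c1823 h x200t x321t x80t y
  have x192t : α 192 = true := tt fun y => c1573 h x382f y x61f
  have x95t : α 95 = true := tt fun y => c445 h x124f x215f x18f y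
  have x183t : α 183 = true := tt fun y => c2001 h x124f x215f x91f y
  have x82f : α 82 = false := ff fun y => c1748 h y x192t x74t x190t
  have x23f : α 23 = false := ff fun y => c696 h y x58t x183t
  have x206t : α 206 = true := tt fun y => c1853 h x82f y x197f x313f
  have x273t : α 273 = true := tt fun y => c706 h x23f x97f y
  have x123f : α 123 = false := ff fun y => c2061 h x92t x192t y x206t
  have x189f : α 189 = false := ff fun y => c2751 h x183t y x273t
  have x550t : α 550 = true := tt fun y => c2479 h x123f x313f y
  have x340t : α 340 = true := tt fun y => c2182 h x97f x189f y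
  have x411f : α 411 = false := ff fun y => c1762 h x74t y x237t x550t
  have x267f : α 267 = false := ff fun y => c2149 h x95t y x183t x340t
  have x186t : α 186 = true := tt fun y => c2793 h y x267f x411f
  have x256t : α 256 = true := tt fun y => c2578 h x149f y x313f x411f
  c2790 h x256t x190t x186t

theorem l3439 (h : Good α) (x203f : α 203 = false) (x80t : α 80 = true) (x97f : α 97 = false) (x237t : α 237 = true) (x233t : α 233 = true) (x242t : α 242 = true) (x54t : α 54 = true) (x58t : α 58 = true) (x1t : α 1 = true) (x61f : α 61 = false) : False :=
  have x149f := h.u2
  have x91f : α 91 = false := ff fun y => c38 h x54t x1t y x58t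
  have x75f : α 75 = false := ff fun y => l3435 h y x233t x91f x54t
  have x59t : α 59 = true := tt fun y => c1499 h x149f x61f y
  have x56f : α 56 = false := ff fun y => c57 h y x1t x59t
  have x53t : α 53 = true := tt fun y => c1260 h x56f y x149f
  have x196f : α 196 = false := ff fun y => c32 h y x53t x1t
  have x204t : α 204 = true := tt fun y => c2573 h x196f x149f y
  have x354f : α 354 = false := ff fun y => c1347 h x54t x204t x233t y
  have x201f : α 201 = false := ff fun y => c80 h x1t x58t y
  have x57f : α 57 = false := ff fun y => c62 h y x1t x58t
  have x238t : α 238 = true := tt fun y => c1441 h x57f y x201f x354f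
  have x352f : α 352 = false := ff fun y => c2939 h y x238t x204t
  have x200t : α 200 = true := tt fun y => c2907 h y x352f x201f x354f
  have x239f : α 239 = false := ff fun y => c44 h y x200t x54t x1t
  have x94f : α 94 = false := ff fun y => c1321 h y x238t x54t x204t
  have x92t : α 92 = true := tt fun y => c1409 h x94f x57f y
  have x250f : α 250 = false := ff fun y => c82 h x1t x204t x58t y
  have x546t : α 546 = true := tt fun y => c3115 h x250f x354f y
  have x406f : α 406 = false := ff fun y => c125 h x1t x204t y x546t
  have x439t : α 439 = true := tt fun y => c1425 h x94f x57f y x406f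
  have x197f : α 197 = false := ff fun y => c42 h y x54t x1t
  have x156t : α 156 = true := tt fun y => c2644 h x203f y x201f
  have x332f : α 332 = false := ff fun y => c1479 h x58t x156t y
  have x50f : α 50 = false := ff fun y => c1184 h y x58t x156t
  have x331t : α 331 = true := tt fun y => c3267 h x332f y x406f
  have x60f : α 60 = false := ff fun y => c1538 h y x156t x331t
  have x225t : α 225 = true := tt fun y => c1770 h x75f x203f y x332f
  have x396t : α 396 = true := tt fun y => c1771 h x75f x203f y
  have x304f : α 304 = false := ff fun y => c2978 h x225t y x439t
  have x274f : α 274 = false := ff fun y => c3079 h x396t y x242t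
  have x509t : α 509 = true := tt fun y => c2206 h x97f x274f y
  have x25t : α 25 = true := tt fun y => c785 h y x97f x274f
  have x343f : α 343 = false := ff fun y => c3300 h y x396t x509t
  have x190t : α 190 = true := tt fun y => c2184 h x343f y x97f
  have x115t : α 115 = true := tt fun y => l3436 h y x190t x25t x509t x274f x304f x60f x331t x50f x332f x203f x75f x200t x94f x91f x54t x57f x56f x59t
  have x18f : α 18 = false := ff fun y => l3437 h y x115t x509t x203f x80t x97f x233t x54t x58t x1t x61f
  have x74t : α 74 = true := tt fun y => c433 h y x18f x60f
  have x107f : α 107 = false := ff fun y => l3438 h y x74t x18f x115t x509t x156t x203f x80t x75f x97f x92t x200t x237t x91f x197f x57f x58t x61f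
  have x63t : α 63 = true := tt fun y => c1606 h x239f x107f y
  have x24t : α 24 = true := tt fun y => c406 h x107f y x18f
  c733 h x63t x24t x54t

theorem l3440 (h : Good α) (x107f : α 107 = false) (x18f : α 18 = false) (x239f : α 239 = false) (x54t : α 54 = true) : False :=
  have x63t : α 63 = true := tt fun y => c1606 h x239f x107f y
  have x24t : α 24 = true := tt fun y => c406 h x107f y x18f
  c733 h x63t x24t x54t

theorem l3441 (h : Good α) (x120t : α 120 = true) (x63f : α 63 = false) (x24f : α 24 = false) (x381f : α 381 = false) : False :=
  have x150t := h.u3
  have x154t := h.u1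
  have x108f : α 108 = false := ff fun y => c2310 h x120t y x154t x150t
  have x175f : α 175 = false := ff fun y => c2451 h y x120t x154t
  have x454t : α 454 = true := tt fun y => c753 h x24f x108f x381f y
  have x467t : α 467 = true := tt fun y => c1615 h x175f x63f y x381f
  c2587 h x154t x150t x467t x454t

theorem l3442 (h : Good α) (x63f : α 63 = false) (x24f : α 24 = false) (x381f : α 381 = false) : False :=
  have x154t := h.u1
  have x150t := h.u3
  have x120f : α 120 = false := ff fun y => l3441 h y x63f x24f x381f
  have x467t : α 467 = true := tt fun y => c760 h x120f x24f y x381f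
  have x175t : α 175 = true := tt fun y => c740 h y x63f x120f x24f
  have x454f : α 454 = false := ff fun y => c2587 h x154t x150t x467t y
  have x167f : α 167 = false := ff fun y => c2585 h x175t y x154t x150t
  c1611 h x63f x167f x381f x454f

theorem l3443 (h : Good α) (x183t : α 183 = true) (x80t : α 80 = true) (x236t : α 236 = true) (x97f : α 97 = false) (x326t : α 326 = true) (x94f : α 94 = false) (x238t : α 238 = true) (x58t : α 58 = true) (x1t : α 1 = true) (x59t : α 59 = true) : False :=
  have x150t := h.u3
  have x149f := h.u2
  have x57f : α 57 = false := ff fun y => c62 h y x1t x58t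
  have x56f : α 56 = false := ff fun y => c57 h y x1t x59t
  have x53t : α 53 = true := tt fun y => c1260 h x56f y x149f
  have x196f : α 196 = false := ff fun y => c32 h y x53t x1t
  have x204t : α 204 = true := tt fun y => c2573 h x196f x149f y
  have x23f : α 23 = false := ff fun y => c696 h y x58t x183t
  have x273t : α 273 = true := tt fun y => c706 h x23f x97f y
  have x189f : α 189 = false := ff fun y => c2751 h x183t y x273t
  have x161f : α 161 = false := ff fun y => c1817 h x80t y x183t x273t
  have x340t : α 340 = true := tt fun y => c2182 h x97f x189f y
  have x28f : α 28 = false := ff fun y => c874 h y x150t x340t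
  have x22t : α 22 = true := tt fun y => c620 h x94f y x28f
  have x117f : α 117 = false := ff fun y => c666 h x22t y x183t x273t
  have x157t : α 157 = true := tt fun y => c2419 h x161f x117f y
  have x335f : α 335 = false := ff fun y => c2655 h y x204t x157t
  have x423f : α 423 = false := ff fun y => c2658 h x326t x157t y x273t
  have x264f : α 264 = false := ff fun y => l3419 h y x335f x238t x57f x56f
  have x452t : α 452 = true := tt fun y => c2582 h y x264f x149f
  have x71f : α 71 = false := ff fun y => c1725 h x452t x236t y
  have x20t : α 20 = true := tt fun y => c546 h x71f x161f y x117f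
  have x106f : α 106 = false := ff fun y => c513 h y x22t x20t
  have x306f : α 306 = false := ff fun y => c544 h y x20t x326t x59t
  have x179t : α 179 = true := tt fun y => c2276 h y x161f x106f x117f
  have x257t : α 257 = true := tt fun y => c2293 h x306f x106f x423f y
  c1821 h x179t x80t x257t x183t

theorem l3444 (h : Good α) (x18f : α 18 = false) (x257t : α 257 = true) (x272f : α 272 = false) (x158f : α 158 = false) (x60f : α 60 = false) (x92t : α 92 = true) (x351f : α 351 = false) (x91f : α 91 = false) (x54t : α 54 = true) (x1t : α 1 = true) (x59t : α 59 = true) : False :=
  have x150t := h.u3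
  have x154t := h.u1
  have x149f := h.u2
  have x197f : α 197 = false := ff fun y => c42 h y x54t x1t
  have x237t : α 237 = true := tt fun y => c2887 h x197f y x351f
  have x313f : α 313 = false := ff fun y => c1516 h x59t x150t y
  have x190t : α 190 = true := tt fun y => c435 h x18f x60f y
  have x74t : α 74 = true := tt fun y => c433 h y x18f x60f
  have x259t : α 259 = true := tt fun y => c441 h x18f x91f y
  have x30t : α 30 = true := tt fun y => c413 h y x18f x91f
  have x457f : α 457 = false := ff fun y => c1764 h x74t x237t y
  have x285t : α 285 = true := tt fun y => c2670 h y x158f x457f x351f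
  have x41f : α 41 = false := ff fun y => c910 h y x30t x285t x259t
  have x98f : α 98 = false := ff fun y => c1750 h x74t y x237t x257t
  have x120t : α 120 = true := tt fun y => c1114 h x272f y x41f
  have x289t : α 289 = true := tt fun y => c449 h x18f x98f y
  have x108f : α 108 = false := ff fun y => c2310 h x120t y x154t x150t
  have x24f : α 24 = false := ff fun y => c735 h x120t y x154t x54t
  have x16t : α 16 = true := tt fun y => c322 h x24f y x108f
  have x51t : α 51 = true := tt fun y => c403 h x24f y x18f x60f
  have x66f : α 66 = false := ff fun y => c338 h x51t x16t y
  have x89f : α 89 = false := ff fun y => c13 h x51t y x1t x59t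
  have x122t : α 122 = true := tt fun y => c1645 h y x66f x108f
  have x246t : α 246 = true := tt fun y => c1646 h x66f x108f y
  have x192t : α 192 = true := tt fun y => c1943 h y x89f x108f
  have x206t : α 206 = true := tt fun y => c1944 h x89f x108f y
  have x395f : α 395 = false := ff fun y => c2470 h x122t x246t x289t y
  have x123f : α 123 = false := ff fun y => c2061 h x92t x192t y x206t
  have x186t : α 186 = true := tt fun y => c1539 h x60f y x395f
  have x550t : α 550 = true := tt fun y => c2479 h x123f x313f y
  have x256f : α 256 = false := ff fun y => c2790 h y x190t x186t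
  have x411f : α 411 = false := ff fun y => c1762 h x74t y x237t x550t
  c2578 h x149f x256f x313f x411f

theorem l3445 (h : Good α) (x115t : α 115 = true) (x107t : α 107 = true) (x18t : α 18 = true) (x23f : α 23 = false) (x22t : α 22 = true) (x378t : α 378 = true) (x183f : α 183 = false) (x60f : α 60 = false) (x203t : α 203 = true) (x80t : α 80 = true) (x405f : α 405 = false) (x97f : α 97 = false) (x200t : α 200 = true) (x94f : α 94 = false) (x233t : α 233 = true) (x91f : α 91 = false) : False :=
  have x24f : α 24 = false := ff fun y => c409 h y x18t x115t
  have x30t : α 30 = true := tt fun y => c725 h x94f x24f y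
  have x124f : α 124 = false := ff fun y => c416 h y x30t x18t
  have x215t : α 215 = true := tt fun y => c2001 h x124f y x91f x183f
  have x321f : α 321 = false := ff fun y => c1823 h x200t y x80t x215t
  have x152t : α 152 = true := tt fun y => c1536 h x321f y x60f
  have x194f : α 194 = false := ff fun y => c2608 h y x152t x203t
  have x343f : α 343 = false := ff fun y => c926 h x30t x152t y
  have x148t : α 148 = true := tt fun y => c2567 h y x194f x321f
  have x531t : α 531 = true := tt fun y => c2865 h x194f x321f y
  have x263t : α 263 = true := tt fun y => c705 h y x343f x23f x97f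
  have x330f : α 330 = false := ff fun y => c2568 h y x200t x148t
  have x156f : α 156 = false := ff fun y => c2295 h x107t x148t x115t y
  have x322f : α 322 = false := ff fun y => c2935 h x531t y x203t
  have x109f : α 109 = false := ff fun y => c2324 h x263t x152t y
  have x329t : α 329 = true := tt fun y => c3265 h x405f x330f y
  have x51t : α 51 = true := tt fun y => c1205 h y x60f x156f
  have x131t : α 131 = true := tt fun y => c2480 h x124f x321f y x322f
  have x428f : α 428 = false := ff fun y => c2613 h y x263t x329t x152t
  have x292f : α 292 = false := ff fun y => c2504 h x131t y x233t x378t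
  have x16t : α 16 = true := tt fun y => c359 h y x109f x292f
  have x118f : α 118 = false := ff fun y => c317 h y x22t x16t
  have x310f : α 310 = false := ff fun y => c341 h x329t x51t y x16t
  have x155t : α 155 = true := tt fun y => c2439 h y x322f x118f x292f
  have x266t : α 266 = true := tt fun y => c2441 h x428f y x310f x118f
  c2607 h x266t x263t x155t x152t

theorem l3446 (h : Good α) (x80t : α 80 = true) (x326t : α 326 = true) (x351f : α 351 = false) (x233t : α 233 = true) (x242t : α 242 = true) (x54t : α 54 = true) (x58t : α 58 = true) (x1t : α 1 = true) (x61f : α 61 = false) : False :=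
  have x149f := h.u2
  have x154t := h.u1
  have x91f : α 91 = false := ff fun y => c38 h x54t x1t y x58t
  have x75f : α 75 = false := ff fun y => l3435 h y x233t x91f x54t
  have x59t : α 59 = true := tt fun y => c1499 h x149f x61f y
  have x56f : α 56 = false := ff fun y => c57 h y x1t x59t
  have x53t : α 53 = true := tt fun y => c1260 h x56f y x149f
  have x196f : α 196 = false := ff fun y => c32 h y x53t x1t
  have x204t : α 204 = true := tt fun y => c2573 h x196f x149f y
  have x57f : α 57 = false := ff fun y => c62 h y x1t x58t
  have x201f : α 201 = false := ff fun y => c80 h x1t x58t y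
  have x354f : α 354 = false := ff fun y => c1347 h x54t x204t x233t y
  have x238t : α 238 = true := tt fun y => c1441 h x57f y x201f x354f
  have x94f : α 94 = false := ff fun y => c1321 h y x238t x54t x204t
  have x352f : α 352 = false := ff fun y => c2939 h y x238t x204t
  have x200t : α 200 = true := tt fun y => c2907 h y x352f x201f x354f
  have x239f : α 239 = false := ff fun y => c44 h y x200t x54t x1t
  have x446t : α 446 = true := tt fun y => c2130 h y x239f x94f
  have x405f : α 405 = false := ff fun y => c48 h x446t y x54t x1t
  have x197f : α 197 = false := ff fun y => c42 h y x54t x1t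
  have x237t : α 237 = true := tt fun y => c2887 h x197f y x351f
  have x353f : α 353 = false := ff fun y => c1487 h y x200t x237t x58t
  have x236t : α 236 = true := tt fun y => c1575 h x353f y x197f x61f
  have x249t : α 249 = true := tt fun y => c1443 h y x57f x351f x201f
  have x92t : α 92 = true := tt fun y => c1409 h x94f x57f y
  have x97f : α 97 = false := ff fun y => c2047 h x249t x92t x237t y
  have x52f : α 52 = false := ff fun y => c21 h x53t x1t y
  have x203t : α 203 = true := tt fun y => l3439 h y x80t x97f x237t x233t x242t x54t x58t x1t x61f
  have x252f : α 252 = false := ff fun y => c33 h x53t y x1t x203t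
  have x60f : α 60 = false := ff fun y => c95 h x1t y x203t
  have x183f : α 183 = false := ff fun y => l3443 h y x80t x236t x97f x326t x94f x238t x58t x1t x59t
  have x378t : α 378 = true := tt fun y => c1258 h x52f x183f y
  have x22t : α 22 = true := tt fun y => c637 h y x52f x183f
  have x114t : α 114 = true := tt fun y => c1992 h y x91f x183f
  have x158f : α 158 = false := ff fun y => c2669 h y x233t x378t
  have x272f : α 272 = false := ff fun y => c2380 h y x154t x114t
  have x23f : α 23 = false := ff fun y => c687 h x154t x53t x114t y
  have x423f : α 423 = false := ff fun y => c2389 h x114t x237t y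
  have x257t : α 257 = true := tt fun y => c2756 h x423f y x183f
  have x18t : α 18 = true := tt fun y => l3444 h y x257t x272f x158f x60f x92t x351f x91f x54t x1t x59t
  have x187f : α 187 = false := ff fun y => c431 h y x54t x18t
  have x107t : α 107 = true := tt fun y => c2105 h y x94f x187f
  have x346t : α 346 = true := tt fun y => c2112 h x272f x94f y x187f
  have x115f : α 115 = false := ff fun y => l3445 h y x107t x18t x23f x22t x378t x183f x60f x203t x80t x405f x97f x200t x94f x233t x91f
  have x24f : α 24 = false := ff fun y => c407 h x107t y x18t
  have x131t : α 131 = true := tt fun y => c1765 h y x75f x115f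
  have x191t : α 191 = true := tt fun y => c1998 h y x91f x115f
  have x30t : α 30 = true := tt fun y => c725 h x94f x24f y
  have x292f : α 292 = false := ff fun y => c2504 h x131t y x233t x378t
  have x381f : α 381 = false := ff fun y => c1339 h x54t x191t y
  have x124f : α 124 = false := ff fun y => c416 h y x30t x18t
  have x63t : α 63 = true := tt fun y => l3442 h y x24f x381f
  have x215t : α 215 = true := tt fun y => c2001 h x124f y x91f x183f
  have x207f : α 207 = false := ff fun y => c915 h y x63t x30t
  have x321f : α 321 = false := ff fun y => c1823 h x200t y x80t x215t
  have x369t : α 369 = true := tt fun y => c2120 h y x207f x272f x94f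
  have x152t : α 152 = true := tt fun y => c1536 h x321f y x60f
  have x194f : α 194 = false := ff fun y => c2608 h y x152t x203t
  have x343f : α 343 = false := ff fun y => c926 h x30t x152t y
  have x531t : α 531 = true := tt fun y => c2865 h x194f x321f y
  have x263t : α 263 = true := tt fun y => c705 h y x343f x23f x97f
  have x322f : α 322 = false := ff fun y => c2935 h x531t y x203t
  have x109f : α 109 = false := ff fun y => c2324 h x263t x152t y
  have x408t : α 408 = true := tt fun y => c3258 h x321f x322f y
  have x95t : α 95 = true := tt fun y => c2143 h x109f y x183f
  have x16t : α 16 = true := tt fun y => c359 h y x109f x292f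
  have x448f : α 448 = false := ff fun y => c34 h x53t y x1t x408t
  have x265f : α 265 = false := ff fun y => c354 h x16t x95t y
  have x93t : α 93 = true := tt fun y => c2097 h y x252f x448f
  have x247t : α 247 = true := tt fun y => c1768 h x75f y x115f x265f
  have x181t : α 181 = true := tt fun y => c2724 h y x183f x265f
  have x96f : α 96 = false := ff fun y => c1270 h y x53t x93t
  have x440f : α 440 = false := ff fun y => c2153 h x95t x247t y
  have x68f : α 68 = false := ff fun y => c1599 h x63t y x191t x181t
  have x90t : α 90 = true := tt fun y => c1957 h x96f x448f y x440f
  have x135t : α 135 = true := tt fun y => c1658 h y x68f x109f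
  c1967 h x369t x135t x346t x90t

theorem l3447 (h : Good α) (x187f : α 187 = false) (x195t : α 195 = true) (x429f : α 429 = false) (x62f : α 62 = false) (x298f : α 298 = false) (x158f : α 158 = false) (x189t : α 189 = true) (x340t : α 340 = true) (x272f : α 272 = false) (x28f : α 28 = false) (x94f : α 94 = false) (x327t : α 327 = true) (x57f : α 57 = false) (x1t : α 1 = true) (x59t : α 59 = true) : False :=
  have x150t := h.u3
  have x154t := h.u1
  have x20f : α 20 = false := ff fun y => c542 h y x59t x189t
  have x102t : α 102 = true := tt fun y => c860 h x94f x28f x187f y
  have x346t : α 346 = true := tt fun y => c2112 h x272f x94f y x187f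
  have x170f : α 170 = false := ff fun y => c2240 h y x102t x150t
  have x14f : α 14 = false := ff fun y => c257 h y x59t x102t x150t
  have x99t : α 99 = true := tt fun y => c235 h x20f x14f y
  have x55t : α 55 = true := tt fun y => c233 h x57f x20f y x14f
  have x278f : α 278 = false := ff fun y => c2219 h x99t x189t y x340t
  have x229f : α 229 = false := ff fun y => c53 h x55t x1t y x195t
  have x454t : α 454 = true := tt fun y => c2695 h x170f x278f y
  have x566t : α 566 = true := tt fun y => c1593 h x429f x62f y x229f
  have x467f : α 467 = false := ff fun y => c2587 h x154t x150t y x454t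
  have x140f : α 140 = false := ff fun y => c2526 h x566t x327t y
  have x285t : α 285 = true := tt fun y => c2672 h x467f y x158f
  have x527t : α 527 = true := tt fun y => c2524 h x140f x298f y
  c3241 h x566t x346t x527t x285t

theorem l3448 (h : Good α) (x183f : α 183 = false) (x71f : α 71 = false) (x80f : α 80 = false) (x327t : α 327 = true) (x351f : α 351 = false) (x233t : α 233 = true) (x54t : α 54 = true) (x58t : α 58 = true) (x1t : α 1 = true) (x59t : α 59 = true) : False :=
  have x150t := h.u3
  have x149f := h.u2
  have x154t := h.u1
  have x56f : α 56 = false := ff fun y => c57 h y x1t x59t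
  have x53t : α 53 = true := tt fun y => c1260 h x56f y x149f
  have x196f : α 196 = false := ff fun y => c32 h y x53t x1t
  have x204t : α 204 = true := tt fun y => c2573 h x196f x149f y
  have x354f : α 354 = false := ff fun y => c1347 h x54t x204t x233t y
  have x201f : α 201 = false := ff fun y => c80 h x1t x58t y
  have x57f : α 57 = false := ff fun y => c62 h y x1t x58t
  have x238t : α 238 = true := tt fun y => c1441 h x57f y x201f x354f
  have x352f : α 352 = false := ff fun y => c2939 h y x238t x204t
  have x200t : α 200 = true := tt fun y => c2907 h y x352f x201f x354f
  have x239f : α 239 = false := ff fun y => c44 h y x200t x54t x1t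
  have x459t : α 459 = true := tt fun y => c1829 h y x239f x80f
  have x272f : α 272 = false := ff fun y => c2636 h x459t y x154t
  have x10t : α 10 = true := tt fun y => c198 h x239f x80f y
  have x28f : α 28 = false := ff fun y => c181 h x10t y x150t
  have x94f : α 94 = false := ff fun y => c1321 h y x238t x54t x204t
  have x92t : α 92 = true := tt fun y => c1409 h x94f x57f y
  have x249t : α 249 = true := tt fun y => c1443 h y x57f x351f x201f
  have x197f : α 197 = false := ff fun y => c42 h y x54t x1t
  have x237t : α 237 = true := tt fun y => c2887 h x197f y x351f
  have x91f : α 91 = false := ff fun y => c38 h x54t x1t y x58t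
  have x52f : α 52 = false := ff fun y => c21 h x53t x1t y
  have x202f : α 202 = false := ff fun y => c90 h x1t x59t y
  have x378t : α 378 = true := tt fun y => c1258 h x52f x183f y
  have x340t : α 340 = true := tt fun y => c2006 h x91f x183f y
  have x114t : α 114 = true := tt fun y => c1992 h y x91f x183f
  have x189t : α 189 = true := tt fun y => c1703 h x80f x71f x183f y
  have x158f : α 158 = false := ff fun y => c2669 h y x233t x378t
  have x451f : α 451 = false := ff fun y => l3434 h y x378t x233t x201f
  have x423f : α 423 = false := ff fun y => c2389 h x114t x237t y
  have x298f : α 298 = false := ff fun y => c2381 h x327t x154t y x114t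
  have x387f : α 387 = false := ff fun y => c1527 h x59t x189t y
  have x20f : α 20 = false := ff fun y => c542 h y x59t x189t
  have x399f : α 399 = false := ff fun y => c1485 h x58t x189t y
  have x257t : α 257 = true := tt fun y => c2756 h x423f y x183f
  have x106t : α 106 = true := tt fun y => c566 h y x20f x451f x387f
  have x380f : α 380 = false := ff fun y => c3037 h x237t x257t y
  have x62f : α 62 = false := ff fun y => c1590 h x249t x106t y
  have x429f : α 429 = false := ff fun y => c2288 h y x249t x106t
  have x195t : α 195 = true := tt fun y => c2869 h y x202f x380f x399f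
  have x187t : α 187 = true := tt fun y => l3447 h y x195t x429f x62f x298f x158f x189t x340t x272f x28f x94f x327t x57f x1t x59t
  have x393f : α 393 = false := ff fun y => c1335 h y x187t x54t
  have x18f : α 18 = false := ff fun y => c431 h x187t x54t y
  have x251t : α 251 = true := tt fun y => c1828 h x239f x80f x393f y
  have x259t : α 259 = true := tt fun y => c441 h x18f x91f y
  have x60t : α 60 = true := tt fun y => l3444 h x18f x257t x272f x158f y x92t x351f x91f x54t x1t x59t
  have x95t : α 95 = true := tt fun y => c439 h x18f y x91f x183f
  have x198f : α 198 = false := ff fun y => c1533 h y x60t x251t x95t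
  have x381f : α 381 = false := ff fun y => c2998 h y x259t x233t
  have x55f : α 55 = false := ff fun y => c52 h y x1t x60t
  have x147f : α 147 = false := ff fun y => c1452 h x60t x58t y
  have x193t : α 193 = true := tt fun y => c2859 h x393f x198f x381f y
  have x50t : α 50 = true := tt fun y => c1177 h x55f y x147f
  c8 h x1t x50t x193t

theorem l3449 (h : Good α) (x60t : α 60 = true) (x58t : α 58 = true) (x1t : α 1 = true) : False :=
  have x201f : α 201 = false := ff fun y => c80 h x1t x58t y
  have x203f : α 203 = false := ff fun y => c95 h x1t x60t y
  have x152f : α 152 = false := ff fun y => c1454 h y x60t x58t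
  have x156t : α 156 = true := tt fun y => c2644 h x203f y x201f
  have x332t : α 332 = true := tt fun y => c2612 h x152f x203f y
  c1479 h x58t x156t x332t

theorem l3450 (h : Good α) (x158f : α 158 = false) (x18f : α 18 = false) (x340t : α 340 = true) (x380f : α 380 = false) (x272f : α 272 = false) (x28f : α 28 = false) (x92t : α 92 = true) (x351f : α 351 = false) (x60f : α 60 = false) (x91f : α 91 = false) (x54t : α 54 = true) (x1t : α 1 = true) (x59t : α 59 = true) : False :=
  have x149f := h.u2
  have x154t := h.u1
  have x150t := h.u3
  have x197f : α 197 = false := ff fun y => c42 h y x54t x1t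
  have x237t : α 237 = true := tt fun y => c2887 h x197f y x351f
  have x74t : α 74 = true := tt fun y => c433 h y x18f x60f
  have x457f : α 457 = false := ff fun y => c1764 h x74t x237t y
  have x190t : α 190 = true := tt fun y => c435 h x18f x60f y
  have x30t : α 30 = true := tt fun y => c413 h y x18f x91f
  have x259t : α 259 = true := tt fun y => c441 h x18f x91f y
  have x313f : α 313 = false := ff fun y => c1516 h x59t x150t y
  have x257f : α 257 = false := ff fun y => l3444 h x18f y x272f x158f x60f x92t x351f x91f x54t x1t x59t
  have x285t : α 285 = true := tt fun y => c2670 h y x158f x457f x351f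
  have x550t : α 550 = true := tt fun y => c3143 h x257f x380f y
  have x41f : α 41 = false := ff fun y => c910 h y x30t x285t x259t
  have x411f : α 411 = false := ff fun y => c1762 h x74t y x237t x550t
  have x120t : α 120 = true := tt fun y => c1114 h x272f y x41f
  have x256t : α 256 = true := tt fun y => c2578 h x149f y x313f x411f
  have x108f : α 108 = false := ff fun y => c2310 h x120t y x154t x150t
  have x186f : α 186 = false := ff fun y => c2790 h x256t x190t y
  have x282t : α 282 = true := tt fun y => c870 h x28f x108f y
  have x267t : α 267 = true := tt fun y => c2793 h x186f y x411f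
  c3192 h x282t x267t x340t

theorem l3451 (h : Good α) (x158t : α 158 = true) (x233t : α 233 = true) (x201f : α 201 = false) (x53t : α 53 = true) : False :=
  have x154t := h.u1
  have x378f : α 378 = false := ff fun y => c2669 h x158t x233t y
  have x81f : α 81 = false := ff fun y => c1268 h x154t x53t x158t y
  c1843 h x81f x201f x378f

theorem l3452 (h : Good α) (x378f : α 378 = false) (x71f : α 71 = false) (x80f : α 80 = false) (x233t : α 233 = true) (x242t : α 242 = true) (x201f : α 201 = false) (x52f : α 52 = false) (x56f : α 56 = false) : False :=
  have x149f := h.u2
  have x179t : α 179 = true := tt fun y => c1701 h y x80f x71f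
  have x161t : α 161 = true := tt fun y => c1699 h x80f x71f y
  have x81t : α 81 = true := tt fun y => c1843 h y x201f x378f
  have x387t : α 387 = true := tt fun y => c1705 h x80f x71f x378f y
  have x462f : α 462 = false := ff fun y => c1847 h x81t x242t y
  have x180f : α 180 = false := ff fun y => c2718 h y x242t x387t
  have x157t : α 157 = true := tt fun y => c1250 h x52f y x378f x462f
  have x70t : α 70 = true := tt fun y => c1369 h x56f x149f y x180f
  have x146f : α 146 = false := ff fun y => c2542 h x179t x161t y x157t
  have x451f : α 451 = false := ff fun y => c1697 h x70t x233t y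
  c1243 h x146f x52f x451f x378f

theorem l3453 (h : Good α) (x285t : α 285 = true) (x114t : α 114 = true) (x180f : α 180 = false) (x346t : α 346 = true) (x113t : α 113 = true) (x340t : α 340 = true) (x576f : α 576 = false) : False :=
  have x149f := h.u2
  have x478f : α 478 = false := ff fun y => c2398 h x114t x340t x285t y
  have x49t : α 49 = true := tt fun y => c1174 h y x180f x478f x576f
  have x101f : α 101 = false := ff fun y => c1164 h x346t y x285t x49t
  have x256f : α 256 = false := ff fun y => c1170 h y x113t x49t
  c2228 h x101f x149f x256f

theorem l3454 (h : Good α) (x285f : α 285 = false) (x346t : α 346 = true) (x102t : α 102 = true) (x158f : α 158 = false) (x249t : α 249 = true) (x351f : α 351 = false) (x197f : α 197 = false) : False :=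
  have x150t := h.u3
  have x154t := h.u1
  have x170f : α 170 = false := ff fun y => c2240 h y x102t x150t
  have x237t : α 237 = true := tt fun y => c2887 h x197f y x351f
  have x457t : α 457 = true := tt fun y => c2670 h x285f x158f y x351f
  have x467t : α 467 = true := tt fun y => c2672 h y x285f x158f
  have x74f : α 74 = false := ff fun y => c1764 h y x237t x457t
  have x275f : α 275 = false := ff fun y => c2639 h x154t y x467t
  have x454f : α 454 = false := ff fun y => c2587 h x154t x150t x467t y
  have x392t : α 392 = true := tt fun y => c1759 h y x197f x74f
  have x278t : α 278 = true := tt fun y => c2695 h x170f y x454f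
  have x578f : α 578 = false := ff fun y => c3108 h x249t x392t y
  have x390f : α 390 = false := ff fun y => c3337 h x392t y x457t
  have x477f : α 477 = false := ff fun y => c2249 h x346t x102t y x278t
  c3231 h x477f x275f x578f x390f

theorem l3455 (h : Good α) (x180f : α 180 = false) (x81t : α 81 = true) (x285t : α 285 = true) (x346t : α 346 = true) (x113t : α 113 = true) (x340t : α 340 = true) (x23f : α 23 = false) (x272f : α 272 = false) (x92t : α 92 = true) (x94f : α 94 = false) (x576f : α 576 = false) (x56f : α 56 = false) : False :=
  have x149f := h.u2
  have x70t : α 70 = true := tt fun y => c1369 h x56f x149f y x180f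
  have x114f : α 114 = false := ff fun y => l3453 h x285t y x180f x346t x113t x340t x576f
  have x184t : α 184 = true := tt fun y => c714 h x272f y x114f x23f
  have x341f : α 341 = false := ff fun y => c2066 h y x184t x92t
  have x188f : α 188 = false := ff fun y => c1682 h y x184t x70t x81t
  c2117 h x341f x188f x94f

theorem l3456 (h : Good α) (x81t : α 81 = true) (x285t : α 285 = true) (x346t : α 346 = true) (x113t : α 113 = true) (x340t : α 340 = true) (x23f : α 23 = false) (x272f : α 272 = false) (x92t : α 92 = true) (x94f : α 94 = false) (x576f : α 576 = false) (x242t : α 242 = true) (x201f : α 201 = false) (x56f : α 56 = false) : False :=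
  have x180t : α 180 = true := tt fun y => l3455 h y x81t x285t x346t x113t x340t x23f x272f x92t x94f x576f x56f
  have x387f : α 387 = false := ff fun y => c2718 h x180t x242t y
  have x70f : α 70 = false := ff fun y => c1680 h y x81t x180t
  c1693 h x70f x201f x387f

theorem l3457 (h : Good α) (x233t : α 233 = true) (x58t : α 58 = true) (x543t : α 543 = true) (x1t : α 1 = true) (x61f : α 61 = false) : False :=
  have x150t := h.u3
  have x154t := h.u1
  have x149f := h.u2
  have x60f : α 60 = false := ff fun y => l3449 h y x58t x1t
  have x201f : α 201 = false := ff fun y => c80 h x1t x58t y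
  have x54t : α 54 = true := tt fun y => l3432 h y x58t x543t x1t x61f
  have x197f : α 197 = false := ff fun y => c42 h y x54t x1t
  have x242t : α 242 = true := tt fun y => l3412 h y x197f x201f x543t x61f
  have x91f : α 91 = false := ff fun y => c38 h x54t x1t y x58t
  have x328f : α 328 = false := ff fun y => c1331 h y x154t x54t
  have x57f : α 57 = false := ff fun y => c62 h y x1t x58t
  have x59t : α 59 = true := tt fun y => c1499 h x149f x61f y
  have x56f : α 56 = false := ff fun y => c57 h y x1t x59t
  have x53t : α 53 = true := tt fun y => c1260 h x56f y x149f
  have x196f : α 196 = false := ff fun y => c32 h y x53t x1t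
  have x204t : α 204 = true := tt fun y => c2573 h x196f x149f y
  have x402f : α 402 = false := ff fun y => c1350 h y x54t x543t x233t
  have x351f : α 351 = false := ff fun y => c3001 h x543t y x233t
  have x354f : α 354 = false := ff fun y => c1347 h x54t x204t x233t y
  have x576f : α 576 = false := ff fun y => l3413 h y x233t x242t x201f
  have x327t : α 327 = true := tt fun y => c3263 h x328f y x402f
  have x237t : α 237 = true := tt fun y => c2887 h x197f y x351f
  have x249t : α 249 = true := tt fun y => c1443 h y x57f x351f x201f
  have x238t : α 238 = true := tt fun y => c1441 h x57f y x201f x354f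
  have x538f : α 538 = false := ff fun y => c2640 h y x327t x154t
  have x352f : α 352 = false := ff fun y => c2939 h y x238t x204t
  have x94f : α 94 = false := ff fun y => c1321 h y x238t x54t x204t
  have x326t : α 326 = true := tt fun y => c3262 h x538f x402f y
  have x200t : α 200 = true := tt fun y => c2907 h y x352f x201f x354f
  have x92t : α 92 = true := tt fun y => c1409 h x94f x57f y
  have x239f : α 239 = false := ff fun y => c44 h y x200t x54t x1t
  have x353f : α 353 = false := ff fun y => c1487 h y x200t x237t x58t
  have x97f : α 97 = false := ff fun y => c2047 h x249t x92t x237t y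
  have x236t : α 236 = true := tt fun y => c1575 h x353f y x197f x61f
  have x80f : α 80 = false := ff fun y => l3446 h y x326t x351f x233t x242t x54t x58t x1t x61f
  have x10t : α 10 = true := tt fun y => c198 h x239f x80f y
  have x459t : α 459 = true := tt fun y => c1829 h y x239f x80f
  have x28f : α 28 = false := ff fun y => c181 h x10t y x150t
  have x71f : α 71 = false := ff fun y => c196 h x236t y x10t
  have x272f : α 272 = false := ff fun y => c2636 h x459t y x154t
  have x379f : α 379 = false := ff fun y => c1287 h x459t y x154t x53t
  have x183t : α 183 = true := tt fun y => l3448 h y x71f x80f x327t x351f x233t x54t x58t x1t x59t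
  have x23f : α 23 = false := ff fun y => c696 h y x58t x183t
  have x380f : α 380 = false := ff fun y => c1482 h x58t x183t y
  have x273t : α 273 = true := tt fun y => c706 h x23f x97f y
  have x189f : α 189 = false := ff fun y => c2751 h x183t y x273t
  have x340t : α 340 = true := tt fun y => c2182 h x97f x189f y
  have x113t : α 113 = true := tt fun y => c2175 h y x97f x189f
  have x158f : α 158 = false := ff fun y => l3451 h y x233t x201f x53t
  have x18t : α 18 = true := tt fun y => l3450 h x158f y x340t x380f x272f x28f x92t x351f x60f x91f x54t x1t x59t
  have x187f : α 187 = false := ff fun y => c431 h y x54t x18t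
  have x102t : α 102 = true := tt fun y => c860 h x94f x28f x187f y
  have x346t : α 346 = true := tt fun y => c2112 h x272f x94f y x187f
  have x285t : α 285 = true := tt fun y => l3454 h y x346t x102t x158f x249t x351f x197f
  have x81f : α 81 = false := ff fun y => l3456 h y x285t x346t x113t x340t x23f x272f x92t x94f x576f x242t x201f x56f
  have x70t : α 70 = true := tt fun y => c1679 h x158f y x81f
  have x114t : α 114 = true := tt fun y => c700 h y x23f x158f x81f
  have x184t : α 184 = true := tt fun y => c1835 h x272f y x158f x81f
  have x180t : α 180 = true := tt fun y => l3453 h x285t x114t y x346t x113t x340t x576f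
  have x341f : α 341 = false := ff fun y => c2066 h y x184t x92t
  have x19f : α 19 = false := ff fun y => c485 h y x113t x70t x180t
  have x188t : α 188 = true := tt fun y => c2117 h x341f y x94f
  have x386t : α 386 = true := tt fun y => c462 h y x379f x19f x23f
  have x264f : α 264 = false := ff fun y => c2766 h x188t x184t y
  have x452f : α 452 = false := ff fun y => c1692 h x386t y x70t x180t
  c2582 h x452f x264f x149f

theorem l3458 (h : Good α) (x184t : α 184 = true) (x386f : α 386 = false) (x19f : α 19 = false) (x53t : α 53 = true) : False :=
  have x379f : α 379 = false := ff fun y => c1295 h y x184t x53t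
  have x23f : α 23 = false := ff fun y => c689 h x184t x53t y
  c462 h x386f x379f x19f x23f

theorem l3459 (h : Good α) (x184f : α 184 = false) (x272f : α 272 = false) (x81f : α 81 = false) (x91f : α 91 = false) (x58t : α 58 = true) : False :=
  have x154t := h.u1
  have x158t : α 158 = true := tt fun y => c1835 h x272f x184f y x81f
  have x114f : α 114 = false := ff fun y => c2379 h x154t y x158t
  have x23t : α 23 = true := tt fun y => c714 h x272f x184f x114f y
  have x183t : α 183 = true := tt fun y => c1992 h x114f x91f y
  c696 h x23t x58t x183t

theorem l3460 (h : Good α) (x184t : α 184 = true) (x70t : α 70 = true) (x180t : α 180 = true) (x92t : α 92 = true) (x238f : α 238 = false) (x53t : α 53 = true) : False :=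
  have x149f := h.u2
  have x117f : α 117 = false := ff fun y => c2057 h x184t x92t y
  have x424t : α 424 = true := tt fun y => c2427 h y x238f x117f
  have x264f : α 264 = false := ff fun y => c2769 h x184t y x424t
  have x452t : α 452 = true := tt fun y => c2582 h y x264f x149f
  have x113t : α 113 = true := tt fun y => c2364 h x264f x149f y
  have x386f : α 386 = false := ff fun y => c1692 h y x452t x70t x180t
  have x19f : α 19 = false := ff fun y => c485 h y x113t x70t x180t
  l3458 h x184t x386f x19f x53t

theorem l3461 (h : Good α) (x180t : α 180 = true) (x238f : α 238 = false) (x94t : α 94 = true) (x242t : α 242 = true) (x91f : α 91 = false) (x57f : α 57 = false) (x201f : α 201 = false) (x58t : α 58 = true) (x53t : α 53 = true) : False :=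
  have x92t : α 92 = true := tt fun y => c1415 h x57f y x238f
  have x387f : α 387 = false := ff fun y => c2718 h x180t x242t y
  have x70t : α 70 = true := tt fun y => c1693 h y x201f x387f
  have x81f : α 81 = false := ff fun y => c1680 h x70t y x180t
  have x184f : α 184 = false := ff fun y => l3460 h y x70t x180t x92t x238f x53t
  have x22t : α 22 = true := tt fun y => c646 h x184f x57f y
  have x272t : α 272 = true := tt fun y => l3459 h x184f y x81f x91f x58t
  c657 h x272t x94t x22t

theorem l3462 (h : Good α) (x272t : α 272 = true) (x94t : α 94 = true) (x57f : α 57 = false) (x53t : α 53 = true) : False :=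
  have x154t := h.u1
  have x184f : α 184 = false := ff fun y => c1286 h x272t y x154t x53t
  have x22f : α 22 = false := ff fun y => c657 h x272t x94t y
  c646 h x184f x57f x22f

theorem l3463 (h : Good α) (x379t : α 379 = true) (x200t : α 200 = true) (x239f : α 239 = false) (x53t : α 53 = true) : False :=
  have x154t := h.u1
  have x459f : α 459 = false := ff fun y => c1287 h y x379t x154t x53t
  have x80f : α 80 = false := ff fun y => c1826 h x379t x200t y
  c1829 h x459f x239f x80f

theorem l3464 (h : Good α) (x285t : α 285 = true) (x340t : α 340 = true) (x10t : α 10 = true) (x459t : α 459 = true) (x114t : α 114 = true) (x28f : α 28 = false) (x272f : α 272 = false) (x180f : α 180 = false) (x54t : α 54 = true) : False :=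
  have x149f := h.u2
  have x154t := h.u1
  have x150t := h.u3
  have x576f : α 576 = false := ff fun y => c2597 h x150t x340t y
  have x113t : α 113 = true := tt fun y => c2363 h x149f y x180f
  have x346f : α 346 = false := ff fun y => l3453 h x285t x114t x180f y x113t x340t x576f
  have x478f : α 478 = false := ff fun y => c2398 h x114t x340t x285t y
  have x286t : α 286 = true := tt fun y => c3211 h y x272f x346f
  have x477t : α 477 = true := tt fun y => c3214 h x272f x346f y
  have x454t : α 454 = true := tt fun y => c3384 h y x478f x576f
  have x175f : α 175 = false := ff fun y => c2708 h x459t x286t y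
  have x275f : α 275 = false := ff fun y => c2396 h x477t y x114t
  have x467f : α 467 = false := ff fun y => c2587 h x154t x150t y x454t
  have x381f : α 381 = false := ff fun y => c1329 h x54t x150t y x454t
  have x63t : α 63 = true := tt fun y => c1615 h x175f y x467f x381f
  have x485t : α 485 = true := tt fun y => c3229 h y x346f x275f
  have x24f : α 24 = false := ff fun y => c733 h x63t y x54t
  have x44f : α 44 = false := ff fun y => c193 h x459t x10t x485t y
  have x120t : α 120 = true := tt fun y => c760 h y x24f x467f x381f
  have x108t : α 108 = true := tt fun y => c843 h x44f x28f y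
  c2310 h x120t x108t x154t x150t

theorem l3465 (h : Good α) (x340t : α 340 = true) (x451f : α 451 = false) (x10t : α 10 = true) (x387f : α 387 = false) (x459t : α 459 = true) (x114t : α 114 = true) (x158f : α 158 = false) (x28f : α 28 = false) (x272f : α 272 = false) (x180f : α 180 = false) (x233f : α 233 = false) (x54t : α 54 = true) : False :=
  have x150t := h.u3
  have x154t := h.u1
  have x576f : α 576 = false := ff fun y => c2597 h x150t x340t y
  have x285f : α 285 = false := ff fun y => l3464 h y x340t x10t x459t x114t x28f x272f x180f x54t
  have x467t : α 467 = true := tt fun y => c2672 h y x285f x158f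
  have x454f : α 454 = false := ff fun y => c2587 h x154t x150t x467t y
  have x381f : α 381 = false := ff fun y => c1332 h x154t x54t x467t y
  have x384t : α 384 = true := tt fun y => c3330 h x381f y x454f
  have x234t : α 234 = true := tt fun y => c3008 h y x387f x454f x576f
  have x574t : α 574 = true := tt fun y => c3006 h x381f x233f y x451f
  c3007 h x574t x384t x234t

theorem l3466 (h : Good α) (x97t : α 97 = true) (x249t : α 249 = true) (x92t : α 92 = true) (x242t : α 242 = true) (x91f : α 91 = false) (x543t : α 543 = true) : False :=
  have x443f : α 443 = false := ff fun y => c2194 h y x97t x543t x242t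
  have x237f : α 237 = false := ff fun y => c2047 h x249t x92t y x97t
  c2024 h x443f x237f x91f

theorem l3467 (h : Good α) (x58t : α 58 = true) (x543t : α 543 = true) (x1t : α 1 = true) (x61f : α 61 = false) : False :=
  have x149f := h.u2
  have x59t : α 59 = true := tt fun y => c1499 h x149f x61f y
  have x56f : α 56 = false := ff fun y => c57 h y x1t x59t
  have x53t : α 53 = true := tt fun y => c1260 h x56f y x149f
  have x196f : α 196 = false := ff fun y => c32 h y x53t x1t
  have x204t : α 204 = true := tt fun y => c2573 h x196f x149f y
  have x201f : α 201 = false := ff fun y => c80 h x1t x58t y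
  have x250f : α 250 = false := ff fun y => c82 h x1t x204t x58t y
  have x57f : α 57 = false := ff fun y => c62 h y x1t x58t
  have x54t : α 54 = true := tt fun y => l3432 h y x58t x543t x1t x61f
  have x197f : α 197 = false := ff fun y => c42 h y x54t x1t
  have x91f : α 91 = false := ff fun y => c38 h x54t x1t y x58t
  have x242t : α 242 = true := tt fun y => l3412 h y x197f x201f x543t x61f
  have x233f : α 233 = false := ff fun y => l3457 h y x58t x543t x1t x61f
  have x351t : α 351 = true := tt fun y => c2921 h y x233f x201f
  have x354t : α 354 = true := tt fun y => c2014 h x91f x250f x233f y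
  have x439t : α 439 = true := tt fun y => c2016 h x91f x233f y
  have x94t : α 94 = true := tt fun y => c1420 h y x57f x233f x201f
  have x406f : α 406 = false := ff fun y => c50 h x54t x1t x439t y
  have x238f : α 238 = false := ff fun y => c1321 h x94t y x54t x204t
  have x239f : α 239 = false := ff fun y => c1323 h y x94t x54t
  have x546t : α 546 = true := tt fun y => c1446 h x57f x238f x406f y
  have x92t : α 92 = true := tt fun y => c1415 h x57f y x238f
  have x200t : α 200 = true := tt fun y => c2901 h x239f y x233f x201f
  have x534f : α 534 = false := ff fun y => c3311 h x351t x354t y x546t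
  have x249t : α 249 = true := tt fun y => c1448 h y x57f x534f x406f
  have x449f : α 449 = false := ff fun y => c3103 h y x249t x543t x351t
  have x97f : α 97 = false := ff fun y => l3466 h y x249t x92t x242t x91f x543t
  have x237t : α 237 = true := tt fun y => c1553 h x197f x61f y x97f
  have x443f : α 443 = false := ff fun y => c3040 h y x237t x543t x351t
  have x402t : α 402 = true := tt fun y => c3344 h x449f y x443f
  have x547t : α 547 = true := tt fun y => c2028 h y x239f x443f x91f
  c118 h x547t x200t x402t x1t

theorem l3468 (h : Good α) (x91f : α 91 = false) (x57f : α 57 = false) (x242t : α 242 = true) (x54t : α 54 = true) (x201f : α 201 = false) (x58f : α 58 = false) (x543t : α 543 = true) : False :=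
  have x97t : α 97 = true := tt fun y => c1456 h x91f x58f y
  have x233t : α 233 = true := tt fun y => c1460 h x91f x58f y x201f
  have x94t : α 94 = true := tt fun y => c1397 h y x57f x91f x58f
  have x443f : α 443 = false := ff fun y => c2194 h y x97t x543t x242t
  have x402f : α 402 = false := ff fun y => c1350 h y x54t x543t x233t
  have x449f : α 449 = false := ff fun y => c2124 h y x94t x543t x233t
  c3344 h x449f x402f x443f

theorem l3469 (h : Good α) (x57f : α 57 = false) (x242t : α 242 = true) (x543t : α 543 = true) (x54t : α 54 = true) (x201f : α 201 = false) (x58f : α 58 = false) : False :=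
  have x91t : α 91 = true := tt fun y => l3468 h y x57f x242t x54t x201f x58f x543t
  have x94f : α 94 = false := ff fun y => c1310 h y x54t x91t
  have x233f : α 233 = false := ff fun y => c1315 h x54t x91t y
  c1420 h x94f x57f x233f x201f

theorem l3470 (h : Good α) (x91t : α 91 = true) (x200f : α 200 = false) (x54t : α 54 = true) (x201f : α 201 = false) (x58f : α 58 = false) (x204t : α 204 = true) : False :=
  have x250f : α 250 = false := ff fun y => c1313 h x54t x204t x91t y
  have x233f : α 233 = false := ff fun y => c1315 h x54t x91t y
  have x352t : α 352 = true := tt fun y => c1488 h x200f y x58f x250f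
  have x239t : α 239 = true := tt fun y => c2901 h y x200f x233f x201f
  c1349 h x239t x352t x54t x204t

theorem l3471 (h : Good α) (x54t : α 54 = true) (x201f : α 201 = false) (x543t : α 543 = true) (x1t : α 1 = true) (x61f : α 61 = false) : False :=
  have x149f := h.u2
  have x58f : α 58 = false := ff fun y => l3467 h y x543t x1t x61f
  have x59t : α 59 = true := tt fun y => c1499 h x149f x61f y
  have x56f : α 56 = false := ff fun y => c57 h y x1t x59t
  have x53t : α 53 = true := tt fun y => c1260 h x56f y x149f
  have x196f : α 196 = false := ff fun y => c32 h y x53t x1t
  have x204t : α 204 = true := tt fun y => c2573 h x196f x149f y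
  have x197f : α 197 = false := ff fun y => c42 h y x54t x1t
  have x242t : α 242 = true := tt fun y => l3412 h y x197f x201f x543t x61f
  have x57t : α 57 = true := tt fun y => l3469 h y x242t x543t x54t x201f x58f
  have x200f : α 200 = false := ff fun y => c68 h y x57t x1t
  have x91f : α 91 = false := ff fun y => l3470 h y x200f x54t x201f x58f x204t
  have x233t : α 233 = true := tt fun y => c1460 h x91f x58f y x201f
  have x239t : α 239 = true := tt fun y => c1458 h y x200f x91f x58f
  have x402f : α 402 = false := ff fun y => c1350 h y x54t x543t x233t
  have x547f : α 547 = false := ff fun y => c2994 h y x239t x543t x233t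
  have x236f : α 236 = false := ff fun y => c2991 h x239t y x233t x242t
  c1581 h x547f x236f x402f x61f

theorem l3472 (h : Good α) (x91f : α 91 = false) (x57t : α 57 = true) (x54f : α 54 = false) (x546f : α 546 = false) (x406t : α 406 = true) (x58f : α 58 = false) (x204t : α 204 = true) (x61f : α 61 = false) : False :=
  have x94t : α 94 = true := tt fun y => c1309 h y x54f x91f
  have x237t : α 237 = true := tt fun y => c1461 h y x91f x58f
  have x249f : α 249 = false := ff fun y => c1423 h y x94t x57t
  have x92f : α 92 = false := ff fun y => c1410 h x94t x57t y
  have x439f : α 439 = false := ff fun y => c1426 h x94t x57t y x406t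
  have x197t : α 197 = true := tt fun y => c1546 h x249f x92f y x61f
  have x250t : α 250 = true := tt fun y => c2030 h x91f y x439f x546f
  c2878 h x197t x204t x237t x250t

theorem l3473 (h : Good α) (x250t : α 250 = true) (x197t : α 197 = true) (x200f : α 200 = false) (x201f : α 201 = false) (x58f : α 58 = false) (x204t : α 204 = true) : False :=
  have x354f : α 354 = false := ff fun y => c2941 h x204t x250t y
  have x237f : α 237 = false := ff fun y => c2878 h x197t x204t y x250t
  have x352t : α 352 = true := tt fun y => c2907 h x200f y x201f x354f
  have x353t : α 353 = true := tt fun y => c1486 h y x200f x237f x58f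
  c2884 h x353t x352t x197t x204t

theorem l3474 (h : Good α) (x197t : α 197 = true) (x200f : α 200 = false) (x204t : α 204 = true) (x201f : α 201 = false) (x58f : α 58 = false) : False :=
  have x250f : α 250 = false := ff fun y => l3473 h y x197t x200f x201f x58f x204t
  have x352t : α 352 = true := tt fun y => c1488 h x200f y x58f x250f
  have x354t : α 354 = true := tt fun y => c1490 h x58f x250f x201f y
  have x353f : α 353 = false := ff fun y => c2884 h y x352t x197t x204t
  have x351f : α 351 = false := ff fun y => c2882 h x197t x204t y x354t
  c2905 h x353f x200f x351f x201f

theorem l3475 (h : Good α) (x250f : α 250 = false) (x242t : α 242 = true) (x91t : α 91 = true) (x54f : α 54 = false) (x546f : α 546 = false) (x201f : α 201 = false) (x58f : α 58 = false) (x61f : α 61 = false) : False :=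
  have x406t : α 406 = true := tt fun y => c1491 h x58f x201f y
  have x97t : α 97 = true := tt fun y => c1468 h x58f y x250f
  have x233f : α 233 = false := ff fun y => c1987 h x91t x97t y x242t
  have x447f : α 447 = false := ff fun y => c2196 h x97t x242t y
  have x351t : α 351 = true := tt fun y => c2921 h y x233f x201f
  have x439t : α 439 = true := tt fun y => c1305 h x54f x61f y x447f
  have x237f : α 237 = false := ff fun y => c2191 h y x97t x351t x242t
  have x534f : α 534 = false := ff fun y => c3358 h y x439t x406t
  c3032 h x237f x250f x534f x546f

theorem l3476 (h : Good α) (x275t : α 275 = true) (x314t : α 314 = true) (x113f : α 113 = false) (x189f : α 189 = false) (x340f : α 340 = false) (x1t : α 1 = true) (x59t : α 59 = true) : False :=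
  have x150t := h.u3
  have x154t := h.u1
  have x413f : α 413 = false := ff fun y => c2637 h x154t x314t x275t y
  have x260f : α 260 = false := ff fun y => c2586 h x154t x150t x275t y
  have x181t : α 181 = true := tt fun y => c2732 h y x260f x413f
  have x87t : α 87 = true := tt fun y => c1920 h y x189f x260f x340f
  have x27t : α 27 = true := tt fun y => c830 h y x113f x260f x340f
  have x191f : α 191 = false := ff fun y => c2730 h x275t y x181t
  have x50f : α 50 = false := ff fun y => c6 h x1t x59t y x87t
  have x25f : α 25 = false := ff fun y => c763 h x27t y x87t
  c771 h x191f x50f x25f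

theorem l3477 (h : Good α) (x189f : α 189 = false) (x340f : α 340 = false) (x236f : α 236 = false) (x237f : α 237 = false) (x92t : α 92 = true) (x249t : α 249 = true) (x94f : α 94 = false) (x239t : α 239 = true) (x250t : α 250 = true) (x449f : α 449 = false) (x242t : α 242 = true) (x91t : α 91 = true) (x238f : α 238 = false) (x146t : α 146 = true) (x201f : α 201 = false) (x58f : α 58 = false) (x1t : α 1 = true) (x61f : α 61 = false) : False :=
  have x150t := h.u3
  have x149f := h.u2
  have x59t : α 59 = true := tt fun y => c1499 h x149f x61f y
  have x56f : α 56 = false := ff fun y => c57 h y x1t x59t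
  have x53t : α 53 = true := tt fun y => c1260 h x56f y x149f
  have x52f : α 52 = false := ff fun y => c21 h x53t x1t y
  have x202f : α 202 = false := ff fun y => c90 h x1t x59t y
  have x399t : α 399 = true := tt fun y => c1484 h x58f x189f y
  have x19t : α 19 = true := tt fun y => c483 h y x58f x189f
  have x273f : α 273 = false := ff fun y => c3112 h x250t y x399t
  have x257f : α 257 = false := ff fun y => c494 h x19t x91t y
  have x430t : α 430 = true := tt fun y => c2824 h x189f x273f y
  have x183t : α 183 = true := tt fun y => c2750 h y x189f x273f
  have x298t : α 298 = true := tt fun y => c3034 h y x237f x257f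
  have x113f : α 113 = false := ff fun y => c2370 h y x250t x430t
  have x114f : α 114 = false := ff fun y => c1993 h y x91t x183t
  have x180t : α 180 = true := tt fun y => c2363 h x149f x113f y
  have x264t : α 264 = true := tt fun y => c2364 h y x149f x113f
  have x387f : α 387 = false := ff fun y => c2718 h x180t x242t y
  have x20f : α 20 = false := ff fun y => c556 h x264t x92t y
  have x70t : α 70 = true := tt fun y => c1693 h y x201f x387f
  have x462t : α 462 = true := tt fun y => c2823 h x189f x273f x387f y
  have x451t : α 451 = true := tt fun y => c2822 h x257f x189f y x387f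
  have x117t : α 117 = true := tt fun y => c568 h x20f y x189f x273f
  have x106t : α 106 = true := tt fun y => c564 h y x20f x257f x189f
  have x81f : α 81 = false := ff fun y => c1680 h x70t y x180t
  have x184f : α 184 = false := ff fun y => l3460 h y x70t x180t x92t x238f x53t
  have x188f : α 188 = false := ff fun y => c1691 h y x264t x70t x180t
  have x157f : α 157 = false := ff fun y => c2545 h x146t y x451t x462t
  have x429f : α 429 = false := ff fun y => c2288 h y x249t x106t
  have x378t : α 378 = true := tt fun y => c1843 h x81f x201f y
  have x386t : α 386 = true := tt fun y => c1394 h y x188f x56f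
  have x272t : α 272 = true := tt fun y => c2767 h y x188f x184f
  have x314t : α 314 = true := tt fun y => c2653 h x157f x202f y
  have x505t : α 505 = true := tt fun y => c3372 h y x429f x449f
  have x327t : α 327 = true := tt fun y => c1391 h x429f x188f y x56f
  have x22f : α 22 = false := ff fun y => c667 h y x117t x378t x462t
  have x23f : α 23 = false := ff fun y => c691 h x327t x53t x298t y
  have x80t : α 80 = true := tt fun y => c634 h y x22f x52f
  have x28t : α 28 = true := tt fun y => c620 h x94f x22f y
  have x158t : α 158 = true := tt fun y => c700 h x114f x23f y x81f
  have x10f : α 10 = false := ff fun y => c199 h x239t x80t y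
  have x161f : α 161 = false := ff fun y => c1819 h x80t y x378t x462t
  have x275f : α 275 = false := ff fun y => l3476 h y x314t x113f x189f x340f x1t x59t
  have x46t : α 46 = true := tt fun y => c1137 h x275f x114f y
  have x477t : α 477 = true := tt fun y => c2395 h y x275f x114f
  have x362f : α 362 = false := ff fun y => c1143 h x46t x158t y
  have x346f : α 346 = false := ff fun y => c3215 h x272t y x477t
  have x278f : α 278 = false := ff fun y => c880 h x272t x28t x477t y
  have x285t : α 285 = true := tt fun y => c3228 h x275f y x362f
  have x485t : α 485 = true := tt fun y => c3229 h y x346f x275f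
  have x99t : α 99 = true := tt fun y => c2218 h y x189f x278f x340f
  have x260t : α 260 = true := tt fun y => c3161 h x278f y x340f
  have x39t : α 39 = true := tt fun y => c1082 h y x113f x278f x340f
  have x120f : α 120 = false := ff fun y => c2458 h x485t x272t y
  have x454f : α 454 = false := ff fun y => c2594 h x150t x260t y
  have x101f : α 101 = false := ff fun y => c1079 h x264t y x39t
  have x164t : α 164 = true := tt fun y => c2227 h y x101f x149f
  have x256t : α 256 = true := tt fun y => c2228 h x101f x149f y
  have x21t : α 21 = true := tt fun y => c598 h x101f x149f y x61f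
  have x27t : α 27 = true := tt fun y => c828 h x346f x101f x275f y
  have x262f : α 262 = false := ff fun y => c606 h y x92t x21t
  have x37f : α 37 = false := ff fun y => c590 h x92t x117t x21t y
  have x87f : α 87 = false := ff fun y => c813 h x39t x27t x99t y
  have x305t : α 305 = true := tt fun y => c3017 h y x236f x262f
  have x40t : α 40 = true := tt fun y => c184 h x236f x262f x10f y
  have x5t : α 5 = true := tt fun y => c147 h y x37f x157f
  have x347t : α 347 = true := tt fun y => c1065 h x37f x157f y
  have x345t : α 345 = true := tt fun y => c1921 h x87f x189f y
  have x116f : α 116 = false := ff fun y => c617 h x305t y x21t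
  have x521f : α 521 = false := ff fun y => c841 h y x40t x505t x28t
  have x286f : α 286 = false := ff fun y => c839 h y x40t x272t x28t
  have x284f : α 284 = false := ff fun y => c1077 h x39t y x99t x345t
  have x78t : α 78 = true := tt fun y => c1793 h x236f x116f y
  have x422t : α 422 = true := tt fun y => c2413 h y x236f x116f
  have x47t : α 47 = true := tt fun y => c1146 h x236f x161f x116f y
  have x107t : α 107 = true := tt fun y => c2308 h x521f x286f y
  have x36t : α 36 = true := tt fun y => c1038 h x286f x120f y
  have x483t : α 483 = true := tt fun y => c2376 h x113f x284f x340f y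
  have x190f : α 190 = false := ff fun y => c1795 h x164t x256t x78t y
  have x363f : α 363 = false := ff fun y => c151 h x422t y x78t x5t
  have x276f : α 276 = false := ff fun y => c1151 h x47t x117t y
  have x269f : α 269 = false := ff fun y => c2302 h x386t y x239t x107t
  have x576f : α 576 = false := ff fun y => c1144 h x46t x483t x158t y
  have x288t : α 288 = true := tt fun y => c3233 h x363f y x276f
  have x104t : α 104 = true := tt fun y => c562 h x269f y x188f x20f
  have x478t : α 478 = true := tt fun y => c3384 h x454f y x576f
  have x186f : α 186 = false := ff fun y => c2266 h x104t x288t y x347t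
  have x267f : α 267 = false := ff fun y => c1045 h x36t y x285t x478t
  c2791 h x190f x186f x267f

theorem l3478 (h : Good α) (x73t : α 73 = true) (x390t : α 390 = true) (x275f : α 275 = false) (x346f : α 346 = false) (x285t : α 285 = true) (x157t : α 157 = true) (x117f : α 117 = false) (x23f : α 23 = false) (x273f : α 273 = false) (x184f : α 184 = false) (x153t : α 153 = true) (x54f : α 54 = false) (x58f : α 58 = false) (x52f : α 52 = false) (x53t : α 53 = true) : False :=
  have x485t : α 485 = true := tt fun y => c3229 h y x346f x275f
  have x183t : α 183 = true := tt fun y => c695 h x23f x58f y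
  have x65t : α 65 = true := tt fun y => c693 h y x23f x58f
  have x17f : α 17 = false := ff fun y => c384 h x53t y x73t
  have x50t : α 50 = true := tt fun y => c362 h x17f x23f y x58f
  have x110t : α 110 = true := tt fun y => c364 h y x17f x23f
  have x96t : α 96 = true := tt fun y => c398 h x346f y x275f x17f
  have x86t : α 86 = true := tt fun y => c392 h x275f y x17f
  have x243f : α 243 = false := ff fun y => c1188 h y x86t x50t
  have x191f : α 191 = false := ff fun y => c1196 h x390t y x50t
  have x136f : α 136 = false := ff fun y => c1737 h x110t x73t y
  have x93f : α 93 = false := ff fun y => c1270 h x96t x53t y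
  have x181t : α 181 = true := tt fun y => c1223 h x54f x52f x191f y
  have x32t : α 32 = true := tt fun y => c678 h x23f y x136f
  have x263t : α 263 = true := tt fun y => c701 h y x93f x23f
  have x347t : α 347 = true := tt fun y => c703 h x93f y x23f x273f
  have x67f : α 67 = false := ff fun y => c1635 h y x65t x181t x183t
  have x266f : α 266 = false := ff fun y => c958 h x485t y x285t x32t
  have x37f : α 37 = false := ff fun y => c1066 h y x157t x347t
  have x111t : α 111 = true := tt fun y => c1651 h x243f y x67f
  have x182t : α 182 = true := tt fun y => c2741 h x266f x184f y
  have x121f : α 121 = false := ff fun y => c2344 h x153t x157t x111t y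
  have x276f : α 276 = false := ff fun y => c1288 h x182t y x53t x157t
  have x287t : α 287 = true := tt fun y => c1061 h x37f x121f y
  have x480t : α 480 = true := tt fun y => c2434 h x117f x276f y
  c957 h x263t x480t x32t x287t

theorem l3479 (h : Good α) (x275f : α 275 = false) (x346f : α 346 = false) (x285t : α 285 = true) (x157t : α 157 = true) (x117f : α 117 = false) (x23f : α 23 = false) (x114f : α 114 = false) (x273f : α 273 = false) (x184f : α 184 = false) (x81f : α 81 = false) (x237f : α 237 = false) (x153t : α 153 = true) (x54f : α 54 = false) (x201f : α 201 = false) (x58f : α 58 = false) (x53t : α 53 = true) (x1t : α 1 = true) : False :=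
  have x52f : α 52 = false := ff fun y => c21 h x53t x1t y
  have x390t : α 390 = true := tt fun y => c2387 h x275f x114f y x237f
  have x485t : α 485 = true := tt fun y => c3229 h y x346f x275f
  have x73f : α 73 = false := ff fun y => l3478 h y x390t x275f x346f x285t x157t x117f x23f x273f x184f x153t x54f x58f x52f x53t
  have x193t : α 193 = true := tt fun y => c1735 h x73f x81f y x201f
  have x32t : α 32 = true := tt fun y => c950 h x73f y x81f
  have x50f : α 50 = false := ff fun y => c8 h x1t y x193t
  have x266f : α 266 = false := ff fun y => c958 h x485t y x285t x32t
  have x17t : α 17 = true := tt fun y => c362 h y x23f x50f x58f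
  have x182t : α 182 = true := tt fun y => c2741 h x266f x184f y
  c388 h x182t x53t x17t

theorem l3480 (h : Good α) (x17t : α 17 = true) (x275t : α 275 = true) (x285t : α 285 = true) (x81f : α 81 = false) (x53t : α 53 = true) : False :=
  have x73f : α 73 = false := ff fun y => c384 h x53t x17t y
  have x32f : α 32 = false := ff fun y => c380 h x275t x17t x285t y
  c950 h x73f x32f x81f

theorem l3481 (h : Good α) (x275t : α 275 = true) (x285t : α 285 = true) (x328f : α 328 = false) (x23f : α 23 = false) (x84t : α 84 = true) (x113f : α 113 = false) (x189t : α 189 = true) (x340f : α 340 = false) (x54f : α 54 = false) (x201f : α 201 = false) (x58f : α 58 = false) (x1t : α 1 = true) (x59t : α 59 = true) : False :=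
  have x149f := h.u2
  have x150t := h.u3
  have x154t := h.u1
  have x183t : α 183 = true := tt fun y => c695 h x23f x58f y
  have x65t : α 65 = true := tt fun y => c693 h y x23f x58f
  have x180t : α 180 = true := tt fun y => c2363 h x149f x113f y
  have x387f : α 387 = false := ff fun y => c1527 h x59t x189t y
  have x70t : α 70 = true := tt fun y => c1693 h y x201f x387f
  have x81f : α 81 = false := ff fun y => c1680 h x70t y x180t
  have x56f : α 56 = false := ff fun y => c57 h y x1t x59t
  have x53t : α 53 = true := tt fun y => c1260 h x56f y x149f
  have x52f : α 52 = false := ff fun y => c21 h x53t x1t y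
  have x260f : α 260 = false := ff fun y => c2586 h x154t x150t x275t y
  have x27t : α 27 = true := tt fun y => c830 h y x113f x260f x340f
  have x49f : α 49 = false := ff fun y => c820 h x275t x27t x285t y
  have x17f : α 17 = false := ff fun y => l3480 h y x275t x285t x81f x53t
  have x50t : α 50 = true := tt fun y => c362 h x17f x23f y x58f
  have x110t : α 110 = true := tt fun y => c364 h y x17f x23f
  have x87f : α 87 = false := ff fun y => c6 h x1t x59t x50t y
  have x193f : α 193 = false := ff fun y => c8 h x1t x50t y
  have x25t : α 25 = true := tt fun y => c781 h y x87f x260f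
  have x147t : α 147 = true := tt fun y => c2559 h x193f y x201f
  have x73t : α 73 = true := tt fun y => c1735 h y x81f x193f x201f
  have x191f : α 191 = false := ff fun y => c772 h y x50t x25t
  have x127f : α 127 = false := ff fun y => c765 h y x27t x25t
  have x112f : α 112 = false := ff fun y => c770 h x50t x25t x147t y
  have x136f : α 136 = false := ff fun y => c1737 h x110t x73t y
  have x425t : α 425 = true := tt fun y => c1337 h x328f x54f y x191f
  have x181t : α 181 = true := tt fun y => c1223 h x54f x52f x191f y
  have x268t : α 268 = true := tt fun y => c1167 h x49f x112f y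
  have x32t : α 32 = true := tt fun y => c678 h x23f y x136f
  have x67f : α 67 = false := ff fun y => c1635 h y x65t x181t x183t
  have x176f : α 176 = false := ff fun y => c1873 h x84t x189t y x268t
  have x3f : α 3 = false := ff fun y => c129 h y x32t x147t
  have x111t : α 111 = true := tt fun y => c1650 h y x67f x127f
  have x243t : α 243 = true := tt fun y => c130 h y x67f x176f x3f
  c2349 h x425t x243t x111t

theorem l3482 (h : Good α) (x285t : α 285 = true) (x157t : α 157 = true) (x117f : α 117 = false) (x328f : α 328 = false) (x23f : α 23 = false) (x273f : α 273 = false) (x184f : α 184 = false) (x113f : α 113 = false) (x189t : α 189 = true) (x340f : α 340 = false) (x237f : α 237 = false) (x54f : α 54 = false) (x201f : α 201 = false) (x58f : α 58 = false) (x1t : α 1 = true) (x59t : α 59 = true) : False :=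
  have x149f := h.u2
  have x56f : α 56 = false := ff fun y => c57 h y x1t x59t
  have x19t : α 19 = true := tt fun y => c474 h x56f x149f y x113f
  have x146t : α 146 = true := tt fun y => c1296 h x56f x54f y
  have x257f : α 257 = false := ff fun y => c1513 h x146t x59t y x189t
  have x298t : α 298 = true := tt fun y => c3034 h y x237f x257f
  have x114f : α 114 = false := ff fun y => c506 h x298t y x19t
  have x84t : α 84 = true := tt fun y => c1867 h y x114f x237f
  have x180t : α 180 = true := tt fun y => c2363 h x149f x113f y
  have x264t : α 264 = true := tt fun y => c2364 h y x149f x113f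
  have x387f : α 387 = false := ff fun y => c1527 h x59t x189t y
  have x70t : α 70 = true := tt fun y => c1693 h y x201f x387f
  have x188f : α 188 = false := ff fun y => c1691 h y x264t x70t x180t
  have x272t : α 272 = true := tt fun y => c2767 h y x188f x184f
  have x81f : α 81 = false := ff fun y => c1680 h x70t y x180t
  have x153t : α 153 = true := tt fun y => c1298 h y x56f x54f
  have x53t : α 53 = true := tt fun y => c1260 h x56f y x149f
  have x275f : α 275 = false := ff fun y => l3481 h y x285t x328f x23f x84t x113f x189t x340f x54f x201f x58f x1t x59t
  have x477t : α 477 = true := tt fun y => c2395 h y x275f x114f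
  have x346t : α 346 = true := tt fun y => l3479 h x275f y x285t x157t x117f x23f x114f x273f x184f x81f x237f x153t x54f x201f x58f x53t x1t
  c3215 h x272t x346t x477t

theorem l3483 (h : Good α) (x50t : α 50 = true) (x477t : α 477 = true) (x27t : α 27 = true) (x260f : α 260 = false) (x518t : α 518 = true) (x157t : α 157 = true) (x462t : α 462 = true) (x183t : α 183 = true) (x65t : α 65 = true) (x23f : α 23 = false) (x22t : α 22 = true) (x398f : α 398 = false) (x84t : α 84 = true) (x273f : α 273 = false) (x81f : α 81 = false) (x340f : α 340 = false) (x54f : α 54 = false) (x201f : α 201 = false) (x1t : α 1 = true) (x61f : α 61 = false) : False :=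
  have x149f := h.u2
  have x378t : α 378 = true := tt fun y => c1843 h x81f x201f y
  have x117f : α 117 = false := ff fun y => c667 h x22t y x378t x462t
  have x59t : α 59 = true := tt fun y => c1499 h x149f x61f y
  have x56f : α 56 = false := ff fun y => c57 h y x1t x59t
  have x153t : α 153 = true := tt fun y => c1298 h y x56f x54f
  have x53t : α 53 = true := tt fun y => c1260 h x56f y x149f
  have x196f : α 196 = false := ff fun y => c32 h y x53t x1t
  have x52f : α 52 = false := ff fun y => c21 h x53t x1t y
  have x325t : α 325 = true := tt fun y => c1561 h y x149f x61f
  have x87f : α 87 = false := ff fun y => c6 h x1t x59t x50t y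
  have x51f : α 51 = false := ff fun y => c2 h y x1t x50t
  have x193f : α 193 = false := ff fun y => c8 h x1t x50t y
  have x25t : α 25 = true := tt fun y => c781 h y x87f x260f
  have x73t : α 73 = true := tt fun y => c1735 h y x81f x193f x201f
  have x191f : α 191 = false := ff fun y => c772 h y x50t x25t
  have x127f : α 127 = false := ff fun y => c765 h y x27t x25t
  have x17f : α 17 = false := ff fun y => c384 h x53t y x73t
  have x181t : α 181 = true := tt fun y => c1223 h x54f x52f x191f y
  have x212t : α 212 = true := tt fun y => c2490 h x127f y x260f x340f
  have x110t : α 110 = true := tt fun y => c364 h y x17f x23f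
  have x119t : α 119 = true := tt fun y => c366 h x17f x23f y
  have x67f : α 67 = false := ff fun y => c1635 h y x65t x181t x183t
  have x199f : α 199 = false := ff fun y => c1875 h y x325t x84t x212t
  have x136f : α 136 = false := ff fun y => c2336 h x477t x110t x518t y
  have x377t : α 377 = true := tt fun y => c1655 h y x196f x67f
  have x111t : α 111 = true := tt fun y => c1650 h y x67f x127f
  have x383t : α 383 = true := tt fun y => c2872 h x398f y x199f x196f
  have x32t : α 32 = true := tt fun y => c678 h x23f y x136f
  have x121f : α 121 = false := ff fun y => c2344 h x153t x157t x111t y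
  have x16f : α 16 = false := ff fun y => c319 h x383t x377t x22t y
  have x486t : α 486 = true := tt fun y => c2466 h x121f x273f y
  have x182t : α 182 = true := tt fun y => c339 h y x51f x16f
  have x525f : α 525 = false := ff fun y => c3393 h x486t x462t y
  have x276f : α 276 = false := ff fun y => c1288 h x182t y x53t x157t
  have x93f : α 93 = false := ff fun y => c2090 h x182t y x119t
  have x287t : α 287 = true := tt fun y => c2469 h x121f y x525f
  have x480t : α 480 = true := tt fun y => c2434 h x117f x276f y
  have x263t : α 263 = true := tt fun y => c701 h y x93f x23f
  c957 h x263t x480t x32t x287t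

theorem l3484 (h : Good α) (x17t : α 17 = true) (x27t : α 27 = true) (x275t : α 275 = true) (x157t : α 157 = true) (x153t : α 153 = true) (x324t : α 324 = true) (x204t : α 204 = true) (x53t : α 53 = true) : False :=
  have x133f : α 133 = false := ff fun y => c375 h x17t x27t y
  have x86f : α 86 = false := ff fun y => c393 h x275t y x17t
  have x121f : α 121 = false := ff fun y => c386 h x53t x157t x17t y
  have x111f : α 111 = false := ff fun y => c385 h x153t x53t y x17t
  have x83t : α 83 = true := tt fun y => c1858 h x133f y x121f
  have x211t : α 211 = true := tt fun y => c1898 h y x111f x86f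
  c1861 h x324t x204t x211t x83t

theorem l3485 (h : Good α) (x340f : α 340 = false) (x236f : α 236 = false) (x237f : α 237 = false) (x94f : α 94 = false) (x239t : α 239 = true) (x449f : α 449 = false) (x242t : α 242 = true) (x197f : α 197 = false) (x91t : α 91 = true) (x238f : α 238 = false) (x54f : α 54 = false) (x201f : α 201 = false) (x58f : α 58 = false) (x1t : α 1 = true) (x61f : α 61 = false) : False :=
  have x149f := h.u2
  have x150t := h.u3
  have x154t := h.u1
  have x325t : α 325 = true := tt fun y => c1561 h y x149f x61f
  have x92t : α 92 = true := tt fun y => c1302 h x94f y x54f x61f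
  have x59t : α 59 = true := tt fun y => c1499 h x149f x61f y
  have x56f : α 56 = false := ff fun y => c57 h y x1t x59t
  have x53t : α 53 = true := tt fun y => c1260 h x56f y x149f
  have x196f : α 196 = false := ff fun y => c32 h y x53t x1t
  have x204t : α 204 = true := tt fun y => c2573 h x196f x149f y
  have x406t : α 406 = true := tt fun y => c1491 h x58f x201f y
  have x546f : α 546 = false := ff fun y => c125 h x1t x204t x406t y
  have x250t : α 250 = true := tt fun y => l3475 h y x242t x91t x54f x546f x201f x58f x61f
  have x97t : α 97 = true := tt fun y => c1553 h x197f x61f x237f y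
  have x450f : α 450 = false := ff fun y => c2200 h x97t x250t y
  have x548t : α 548 = true := tt fun y => c1494 h x58f x450f x201f y
  have x444f : α 444 = false := ff fun y => c2082 h x92t y x242t x548t
  have x409t : α 409 = true := tt fun y => c1325 h x94f x444f x54f y
  have x335f : α 335 = false := ff fun y => c3261 h x325t y x409t
  have x249t : α 249 = true := tt fun y => c1319 h y x94f x197f x54f
  have x153t : α 153 = true := tt fun y => c1298 h y x56f x54f
  have x146t : α 146 = true := tt fun y => c1296 h x56f x54f y
  have x324t : α 324 = true := tt fun y => c2574 h y x196f x149f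
  have x52f : α 52 = false := ff fun y => c21 h x53t x1t y
  have x189t : α 189 = true := tt fun y => l3477 h y x340f x236f x237f x92t x249t x94f x239t x250t x449f x242t x91t x238f x146t x201f x58f x1t x61f
  have x387f : α 387 = false := ff fun y => c1527 h x59t x189t y
  have x113f : α 113 = false := ff fun y => c2176 h y x97t x189t
  have x257f : α 257 = false := ff fun y => c1513 h x146t x59t y x189t
  have x70t : α 70 = true := tt fun y => c1693 h y x201f x387f
  have x180t : α 180 = true := tt fun y => c2363 h x149f x113f y
  have x264t : α 264 = true := tt fun y => c2364 h y x149f x113f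
  have x307t : α 307 = true := tt fun y => c2366 h x149f x335f x113f y
  have x19t : α 19 = true := tt fun y => c474 h x56f x149f y x113f
  have x298t : α 298 = true := tt fun y => c3034 h y x237f x257f
  have x81f : α 81 = false := ff fun y => c1680 h x70t y x180t
  have x184f : α 184 = false := ff fun y => l3460 h y x70t x180t x92t x238f x53t
  have x188f : α 188 = false := ff fun y => c1691 h y x264t x70t x180t
  have x273f : α 273 = false := ff fun y => c3110 h x307t x250t y
  have x114f : α 114 = false := ff fun y => c506 h x298t y x19t
  have x378t : α 378 = true := tt fun y => c1843 h x81f x201f y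
  have x386t : α 386 = true := tt fun y => c1394 h y x188f x56f
  have x341t : α 341 = true := tt fun y => c2117 h y x188f x94f
  have x272t : α 272 = true := tt fun y => c2767 h y x188f x184f
  have x106t : α 106 = true := tt fun y => c2100 h x188f x94f y
  have x84t : α 84 = true := tt fun y => c1867 h y x114f x237f
  have x423t : α 423 = true := tt fun y => c2388 h x114f x237f y
  have x577f : α 577 = false := ff fun y => c3068 h y x386t x239t
  have x306f : α 306 = false := ff fun y => c3099 h x272t x249t y
  have x398f : α 398 = false := ff fun y => c3101 h y x272t x249t
  have x429f : α 429 = false := ff fun y => c2288 h y x249t x106t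
  have x326f : α 326 = false := ff fun y => c1524 h y x59t x423t x189t
  have x379t : α 379 = true := tt fun y => c3024 h x577f y x236f
  have x505t : α 505 = true := tt fun y => c3372 h y x429f x449f
  have x22t : α 22 = true := tt fun y => c641 h x306f y x326f x52f
  have x23f : α 23 = false := ff fun y => c463 h x386t x379t x19t y
  have x328f : α 328 = false := ff fun y => c2627 h x505t x341t y x153t
  have x451f : α 451 = false := ff fun y => c663 h x106t x22t y x378t
  have x65t : α 65 = true := tt fun y => c693 h y x23f x58f
  have x183t : α 183 = true := tt fun y => c695 h x23f x58f y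
  have x462t : α 462 = true := tt fun y => c3137 h x257f x273f x451f y
  have x117f : α 117 = false := ff fun y => c667 h x22t y x378t x462t
  have x157t : α 157 = true := tt fun y => c2424 h x306f x117f x326f y
  have x285f : α 285 = false := ff fun y => l3482 h y x157t x117f x328f x23f x273f x184f x113f x189t x340f x237f x54f x201f x58f x1t x59t
  have x518t : α 518 = true := tt fun y => c2399 h x114f x285f y
  have x36t : α 36 = true := tt fun y => c1036 h y x114f x285f
  have x346f : α 346 = false := ff fun y => c1042 h y x154t x36t
  have x275t : α 275 = true := tt fun y => c3226 h x346f y x285f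
  have x260f : α 260 = false := ff fun y => c2586 h x154t x150t x275t y
  have x27t : α 27 = true := tt fun y => c830 h y x113f x260f x340f
  have x17f : α 17 = false := ff fun y => l3484 h y x27t x275t x157t x153t x324t x204t x53t
  have x50t : α 50 = true := tt fun y => c362 h x17f x23f y x58f
  have x87f : α 87 = false := ff fun y => c6 h x1t x59t x50t y
  have x477f : α 477 = false := ff fun y => l3483 h x50t y x27t x260f x518t x157t x462t x183t x65t x23f x22t x398f x84t x273f x81f x340f x54f x201f x1t x61f
  have x25t : α 25 = true := tt fun y => c781 h y x87f x260f
  have x578t : α 578 = true := tt fun y => c2390 h x477f x114f y x237f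
  have x127f : α 127 = false := ff fun y => c765 h y x27t x25t
  have x392f : α 392 = false := ff fun y => c3108 h x249t y x578t
  have x212t : α 212 = true := tt fun y => c2490 h x127f y x260f x340f
  have x74t : α 74 = true := tt fun y => c1759 h x392f x197f y
  have x199f : α 199 = false := ff fun y => c1875 h y x325t x84t x212t
  have x77f : α 77 = false := ff fun y => c1023 h y x36t x74t
  have x213f : α 213 = false := ff fun y => c1026 h x36t x74t y
  c1791 h x199f x77f x326f x213f

theorem l3486 (h : Good α) (x237f : α 237 = false) (x94f : α 94 = false) (x239t : α 239 = true) (x352t : α 352 = true) (x449f : α 449 = false) (x242t : α 242 = true) (x197f : α 197 = false) (x91t : α 91 = true) (x238f : α 238 = false) (x54f : α 54 = false) (x201f : α 201 = false) (x58f : α 58 = false) (x1t : α 1 = true) (x61f : α 61 = false) : False :=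
  have x149f := h.u2
  have x59t : α 59 = true := tt fun y => c1499 h x149f x61f y
  have x56f : α 56 = false := ff fun y => c57 h y x1t x59t
  have x53t : α 53 = true := tt fun y => c1260 h x56f y x149f
  have x196f : α 196 = false := ff fun y => c32 h y x53t x1t
  have x204t : α 204 = true := tt fun y => c2573 h x196f x149f y
  have x406t : α 406 = true := tt fun y => c1491 h x58f x201f y
  have x546f : α 546 = false := ff fun y => c125 h x1t x204t x406t y
  have x250t : α 250 = true := tt fun y => l3475 h y x242t x91t x54f x546f x201f x58f x61f
  have x97t : α 97 = true := tt fun y => c1553 h x197f x61f x237f y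
  have x236f : α 236 = false := ff fun y => c2188 h y x352t x97t x250t
  have x340t : α 340 = true := tt fun y => l3485 h y x236f x237f x94f x239t x449f x242t x197f x91t x238f x54f x201f x58f x1t x61f
  have x183f : α 183 = false := ff fun y => c2007 h x91t y x340t
  have x189f : α 189 = false := ff fun y => c2183 h x97t y x340t
  have x380t : α 380 = true := tt fun y => c1481 h x58f x183f y
  have x399t : α 399 = true := tt fun y => c1484 h x58f x189f y
  c3285 h x380t x340t x399t

theorem l3487 (h : Good α) (x285f : α 285 = false) (x114f : α 114 = false) (x22t : α 22 = true) (x378t : α 378 = true) (x340t : α 340 = true) (x439t : α 439 = true) (x91t : α 91 = true) (x54f : α 54 = false) (x52f : α 52 = false) : False :=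
  have x150t := h.u3
  have x154t := h.u1
  have x183f : α 183 = false := ff fun y => c2007 h x91t y x340t
  have x28f : α 28 = false := ff fun y => c874 h y x150t x340t
  have x518t : α 518 = true := tt fun y => c2399 h x114f x285f y
  have x36t : α 36 = true := tt fun y => c1036 h y x114f x285f
  have x339t : α 339 = true := tt fun y => c2383 h x114f x183f x285f y
  have x346f : α 346 = false := ff fun y => c1042 h y x154t x36t
  have x384f : α 384 = false := ff fun y => c3279 h y x339t x378t
  have x275t : α 275 = true := tt fun y => c3226 h x346f y x285f
  have x181t : α 181 = true := tt fun y => c1253 h x52f y x384f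
  have x467f : α 467 = false := ff fun y => c2639 h x154t x275t y
  have x120f : α 120 = false := ff fun y => c2452 h y x154t x275t
  have x191f : α 191 = false := ff fun y => c2730 h x275t y x181t
  have x90f : α 90 = false := ff fun y => c1971 h y x181t x339t
  have x16t : α 16 = true := tt fun y => c361 h x120f y x467f x384f
  have x24t : α 24 = true := tt fun y => c736 h y x54f x191f
  have x95t : α 95 = true := tt fun y => c1233 h x90f x52f y
  have x109f : α 109 = false := ff fun y => c315 h x22t x16t y
  have x108f : α 108 = false := ff fun y => c323 h x24t x16t y
  have x560f : α 560 = false := ff fun y => c1034 h x36t x95t x518t y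
  have x282t : α 282 = true := tt fun y => c870 h x28f x108f y
  have x30f : α 30 = false := ff fun y => c920 h y x282t x91t x340t
  have x489t : α 489 = true := tt fun y => c925 h x30f x109f y x560f
  have x419f : α 419 = false := ff fun y => c3368 h x489t y x439t
  have x259f : α 259 = false := ff fun y => c2039 h x91t y x489t
  c2840 h x191f x259f x419f

theorem l3488 (h : Good α) (x95t : α 95 = true) (x36t : α 36 = true) (x518t : α 518 = true) (x285t : α 285 = true) (x183f : α 183 = false) : False :=
  have x560f : α 560 = false := ff fun y => c1034 h x36t x95t x518t y
  have x339f : α 339 = false := ff fun y => c1033 h x36t x95t x285t y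
  c2762 h x183f x339f x560f

theorem l3489 (h : Good α) (x95f : α 95 = false) (x378t : α 378 = true) (x183f : α 183 = false) (x52f : α 52 = false) : False :=
  have x247t : α 247 = true := tt fun y => c1240 h x52f x95f y
  have x339t : α 339 = true := tt fun y => c2150 h x95f x183f y
  have x90t : α 90 = true := tt fun y => c1233 h y x52f x95f
  have x265f : α 265 = false := ff fun y => c3094 h x247t y x378t
  have x181f : α 181 = false := ff fun y => c1971 h x90t y x339t
  c2724 h x181f x183f x265f

theorem l3490 (h : Good α) (x339t : α 339 = true) (x41t : α 41 = true) (x518t : α 518 = true) (x275t : α 275 = true) (x285t : α 285 = true) (x378t : α 378 = true) (x340t : α 340 = true) (x439t : α 439 = true) (x91t : α 91 = true) (x54f : α 54 = false) (x52f : α 52 = false) : False :=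
  have x150t := h.u3
  have x154t := h.u1
  have x120f : α 120 = false := ff fun y => c2452 h y x154t x275t
  have x467f : α 467 = false := ff fun y => c2639 h x154t x275t y
  have x28f : α 28 = false := ff fun y => c874 h y x150t x340t
  have x384f : α 384 = false := ff fun y => c3279 h y x339t x378t
  have x259f : α 259 = false := ff fun y => c3154 h x285t y x339t
  have x560f : α 560 = false := ff fun y => c3240 h x285t x339t x518t y
  have x109f : α 109 = false := ff fun y => c1108 h x41t y x285t x339t
  have x181t : α 181 = true := tt fun y => c1253 h x52f y x384f
  have x16t : α 16 = true := tt fun y => c361 h x120f y x467f x384f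
  have x191f : α 191 = false := ff fun y => c2730 h x275t y x181t
  have x24t : α 24 = true := tt fun y => c736 h y x54f x191f
  have x419t : α 419 = true := tt fun y => c2840 h x191f x259f y
  have x108f : α 108 = false := ff fun y => c323 h x24t x16t y
  have x489f : α 489 = false := ff fun y => c3368 h y x419t x439t
  have x282t : α 282 = true := tt fun y => c870 h x28f x108f y
  have x30t : α 30 = true := tt fun y => c925 h y x109f x489f x560f
  c920 h x30t x282t x91t x340t

theorem l3491 (h : Good α) (x16t : α 16 = true) (x24t : α 24 = true) (x381t : α 381 = true) (x109f : α 109 = false) (x339f : α 339 = false) (x260f : α 260 = false) (x95t : α 95 = true) (x20f : α 20 = false) (x340t : α 340 = true) (x94f : α 94 = false) (x91t : α 91 = true) (x146t : α 146 = true) (x52f : α 52 = false) (x59t : α 59 = true) : False :=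
  have x150t := h.u3
  have x28f : α 28 = false := ff fun y => c874 h y x150t x340t
  have x384f : α 384 = false := ff fun y => c327 h x24t x16t x381t y
  have x108f : α 108 = false := ff fun y => c323 h x24t x16t y
  have x496t : α 496 = true := tt fun y => c3282 h y x384f x339f
  have x282t : α 282 = true := tt fun y => c870 h x28f x108f y
  have x89t : α 89 = true := tt fun y => c519 h x20f y x28f x108f
  have x267f : α 267 = false := ff fun y => c3192 h x282t y x340t
  have x30f : α 30 = false := ff fun y => c920 h y x282t x91t x340t
  have x186f : α 186 = false := ff fun y => c351 h x16t x89t x95t y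
  have x259t : α 259 = true := tt fun y => c923 h x30f x109f y x339f
  have x478f : α 478 = false := ff fun y => c2037 h x91t x340t x259t y
  have x551f : α 551 = false := ff fun y => c3159 h y x381t x259t
  have x18f : α 18 = false := ff fun y => c442 h y x91t x259t
  have x102t : α 102 = true := tt fun y => c2246 h y x260f x478f
  have x512t : α 512 = true := tt fun y => c863 h x94f x28f x551f y
  have x170f : α 170 = false := ff fun y => c2240 h y x102t x150t
  have x14f : α 14 = false := ff fun y => c257 h y x59t x102t x150t
  have x90f : α 90 = false := ff fun y => c1962 h y x102t x496t x512t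
  have x278f : α 278 = false := ff fun y => c2251 h x102t y x512t
  have x69t : α 69 = true := tt fun y => c1676 h y x186f x170f x267f
  have x253t : α 253 = true := tt fun y => c264 h y x90f x14f
  have x251t : α 251 = true := tt fun y => c1237 h y x90f x52f
  have x338t : α 338 = true := tt fun y => c861 h x94f x28f y x278f
  have x471f : α 471 = false := ff fun y => c1678 h y x251t x69t
  have x98f : α 98 = false := ff fun y => c2211 h x253t x146t y
  have x393f : α 393 = false := ff fun y => c3276 h y x338t x381t
  c450 h x393f x18f x471f x98f

theorem l3492 (h : Good α) (x191f : α 191 = false) (x109f : α 109 = false) (x339f : α 339 = false) (x275t : α 275 = true) (x95t : α 95 = true) (x20f : α 20 = false) (x340t : α 340 = true) (x94f : α 94 = false) (x91t : α 91 = true) (x146t : α 146 = true) (x54f : α 54 = false) (x52f : α 52 = false) (x59t : α 59 = true) : False :=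
  have x154t := h.u1
  have x150t := h.u3
  have x260f : α 260 = false := ff fun y => c2586 h x154t x150t x275t y
  have x120f : α 120 = false := ff fun y => c2452 h y x154t x275t
  have x467f : α 467 = false := ff fun y => c2639 h x154t x275t y
  have x28f : α 28 = false := ff fun y => c874 h y x150t x340t
  have x576f : α 576 = false := ff fun y => c2597 h x150t x340t y
  have x381t : α 381 = true := tt fun y => c1338 h x54f x191f y
  have x24t : α 24 = true := tt fun y => c736 h y x54f x191f
  have x16f : α 16 = false := ff fun y => l3491 h y x24t x381t x109f x339f x260f x95t x20f x340t x94f x91t x146t x52f x59t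
  have x68t : α 68 = true := tt fun y => c342 h y x16f x52f
  have x384t : α 384 = true := tt fun y => c361 h x120f x16f x467f y
  have x63f : α 63 = false := ff fun y => c1600 h y x68t x381t x384t
  have x454f : α 454 = false := ff fun y => c3331 h x381t x384t y
  have x167t : α 167 = true := tt fun y => c1609 h x63f y x191f x260f
  have x478t : α 478 = true := tt fun y => c3384 h x454f y x576f
  have x108f : α 108 = false := ff fun y => c2313 h x167t y x150t
  have x259f : α 259 = false := ff fun y => c2037 h x91t x340t y x478t
  have x282t : α 282 = true := tt fun y => c870 h x28f x108f y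
  have x30t : α 30 = true := tt fun y => c923 h y x109f x259f x339f
  c920 h x30t x282t x91t x340t

theorem l3493 (h : Good α) (x518t : α 518 = true) (x275t : α 275 = true) (x20f : α 20 = false) (x114f : α 114 = false) (x378t : α 378 = true) (x340t : α 340 = true) (x94f : α 94 = false) (x439t : α 439 = true) (x91t : α 91 = true) (x146t : α 146 = true) (x54f : α 54 = false) (x52f : α 52 = false) (x59t : α 59 = true) : False :=
  have x150t := h.u3
  have x183f : α 183 = false := ff fun y => c2007 h x91t y x340t
  have x95t : α 95 = true := tt fun y => l3489 h y x378t x183f x52f
  have x28f : α 28 = false := ff fun y => c874 h y x150t x340t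
  have x22t : α 22 = true := tt fun y => c620 h x94f y x28f
  have x285t : α 285 = true := tt fun y => l3487 h y x114f x22t x378t x340t x439t x91t x54f x52f
  have x36f : α 36 = false := ff fun y => l3488 h x95t y x518t x285t x183f
  have x41t : α 41 = true := tt fun y => c1013 h y x36f x114f
  have x339f : α 339 = false := ff fun y => l3490 h y x41t x518t x275t x285t x378t x340t x439t x91t x54f x52f
  have x560t : α 560 = true := tt fun y => c2762 h x183f x339f y
  have x109f : α 109 = false := ff fun y => c1109 h x41t y x518t x560t
  have x191t : α 191 = true := tt fun y => l3492 h y x109f x339f x275t x95t x20f x340t x94f x91t x146t x54f x52f x59t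
  have x181f : α 181 = false := ff fun y => c2730 h x275t x191t y
  have x384t : α 384 = true := tt fun y => c1253 h x52f x181f y
  have x258t : α 258 = true := tt fun y => c2722 h y x181f x183f
  c3152 h x258t x384t x560t

theorem l3494 (h : Good α) (x181f : α 181 = false) (x560t : α 560 = true) (x183f : α 183 = false) (x52f : α 52 = false) : False :=
  have x384t : α 384 = true := tt fun y => c1253 h x52f x181f y
  have x258t : α 258 = true := tt fun y => c2722 h y x181f x183f
  c3152 h x258t x384t x560t

theorem l3495 (h : Good α) (x109t : α 109 = true) (x381t : α 381 = true) (x191f : α 191 = false) (x260f : α 260 = false) (x120f : α 120 = false) (x467f : α 467 = false) (x399f : α 399 = false) (x22t : α 22 = true) (x28f : α 28 = false) (x57t : α 57 = true) (x58f : α 58 = false) (x52f : α 52 = false) (x202f : α 202 = false) : False :=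
  have x150t := h.u3
  have x62f : α 62 = false := ff fun y => c643 h x57t x22t y
  have x85t : α 85 = true := tt fun y => c847 h x62f x28f y
  have x16f : α 16 = false := ff fun y => c315 h x22t y x109t
  have x152f : α 152 = false := ff fun y => c644 h x57t y x22t x109t
  have x68t : α 68 = true := tt fun y => c342 h y x16f x52f
  have x384t : α 384 = true := tt fun y => c361 h x120f x16f x467f y
  have x461t : α 461 = true := tt fun y => c1476 h x152f y x58f x399f
  have x63f : α 63 = false := ff fun y => c1600 h y x68t x381t x384t
  have x246f : α 246 = false := ff fun y => c1893 h x85t y x461t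
  have x167t : α 167 = true := tt fun y => c1609 h x63f y x191f x260f
  have x349t : α 349 = true := tt fun y => c2930 h y x246f x202f
  have x108f : α 108 = false := ff fun y => c2313 h x167t y x150t
  have x282f : α 282 = false := ff fun y => c2689 h x167t x349t y x461t
  c870 h x28f x108f x282f

theorem l3496 (h : Good α) (x275t : α 275 = true) (x378t : α 378 = true) (x340t : α 340 = true) (x92t : α 92 = true) (x94f : α 94 = false) (x439t : α 439 = true) (x242t : α 242 = true) (x91t : α 91 = true) (x57t : α 57 = true) (x54f : α 54 = false) (x58f : α 58 = false) (x1t : α 1 = true) (x59t : α 59 = true) : False :=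
  have x149f := h.u2
  have x150t := h.u3
  have x154t := h.u1
  have x56f : α 56 = false := ff fun y => c57 h y x1t x59t
  have x53t : α 53 = true := tt fun y => c1260 h x56f y x149f
  have x52f : α 52 = false := ff fun y => c21 h x53t x1t y
  have x183f : α 183 = false := ff fun y => c2007 h x91t y x340t
  have x95t : α 95 = true := tt fun y => l3489 h y x378t x183f x52f
  have x28f : α 28 = false := ff fun y => c874 h y x150t x340t
  have x22t : α 22 = true := tt fun y => c620 h x94f y x28f
  have x23t : α 23 = true := tt fun y => c695 h y x58f x183f
  have x114f : α 114 = false := ff fun y => c687 h x154t x53t y x23t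
  have x285t : α 285 = true := tt fun y => l3487 h y x114f x22t x378t x340t x439t x91t x54f x52f
  have x380t : α 380 = true := tt fun y => c1481 h x58f x183f y
  have x399f : α 399 = false := ff fun y => c3285 h x380t x340t y
  have x189t : α 189 = true := tt fun y => c1484 h x58f y x399f
  have x387f : α 387 = false := ff fun y => c1527 h x59t x189t y
  have x62f : α 62 = false := ff fun y => c643 h x57t x22t y
  have x85t : α 85 = true := tt fun y => c847 h x62f x28f y
  have x20f : α 20 = false := ff fun y => c532 h x57t y x85t
  have x195f : α 195 = false := ff fun y => c2589 h y x150t x380t x340t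
  have x146t : α 146 = true := tt fun y => c1296 h x56f x54f y
  have x202f : α 202 = false := ff fun y => c90 h x1t x59t y
  have x467f : α 467 = false := ff fun y => c2639 h x154t x275t y
  have x120f : α 120 = false := ff fun y => c2452 h y x154t x275t
  have x260f : α 260 = false := ff fun y => c2586 h x154t x150t x275t y
  have x518f : α 518 = false := ff fun y => l3493 h y x275t x20f x114f x378t x340t x94f x439t x91t x146t x54f x52f x59t
  have x560t : α 560 = true := tt fun y => c2385 h x114f x183f x518f y
  have x181t : α 181 = true := tt fun y => l3494 h y x560t x183f x52f
  have x191f : α 191 = false := ff fun y => c2730 h x275t y x181t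
  have x381t : α 381 = true := tt fun y => c1338 h x54f x191f y
  have x24t : α 24 = true := tt fun y => c736 h y x54f x191f
  have x109f : α 109 = false := ff fun y => l3495 h y x381t x191f x260f x120f x467f x399f x22t x28f x57t x58f x52f x202f
  have x339t : α 339 = true := tt fun y => l3492 h x191f x109f y x275t x95t x20f x340t x94f x91t x146t x54f x52f x59t
  have x384f : α 384 = false := ff fun y => c3279 h y x339t x378t
  have x259f : α 259 = false := ff fun y => c3154 h x285t y x339t
  have x36f : α 36 = false := ff fun y => c1033 h y x95t x285t x339t
  have x16t : α 16 = true := tt fun y => c361 h x120f y x467f x384f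
  have x419t : α 419 = true := tt fun y => c2840 h x191f x259f y
  have x29f : α 29 = false := ff fun y => c335 h y x16t x95t
  have x265f : α 265 = false := ff fun y => c354 h x16t x95t y
  have x108f : α 108 = false := ff fun y => c323 h x24t x16t y
  have x489f : α 489 = false := ff fun y => c3368 h y x419t x439t
  have x282t : α 282 = true := tt fun y => c870 h x28f x108f y
  have x89t : α 89 = true := tt fun y => c519 h x20f y x28f x108f
  have x18t : α 18 = true := tt fun y => c425 h x36f y x518f x489f
  have x267f : α 267 = false := ff fun y => c3192 h x282t y x340t
  have x186f : α 186 = false := ff fun y => c351 h x16t x89t x95t y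
  have x276f : α 276 = false := ff fun y => c352 h x16t x89t y
  have x107f : α 107 = false := ff fun y => c407 h y x24t x18t
  have x115f : α 115 = false := ff fun y => c409 h x24t x18t y
  have x40t : α 40 = true := tt fun y => c1099 h y x108f x267f
  have x483t : α 483 = true := tt fun y => c2319 h x108f x267f y
  have x190t : α 190 = true := tt fun y => c2791 h y x186f x267f
  have x345f : α 345 = false := ff fun y => c2827 h x189t y x340t x483t
  have x192f : α 192 = false := ff fun y => c410 h x24t y x18t x190t
  have x486t : α 486 = true := tt fun y => c3182 h x265f x345f y
  have x104t : α 104 = true := tt fun y => c896 h x29f y x265f x345f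
  have x182t : α 182 = true := tt fun y => c2744 h y x192f x276f
  have x426t : α 426 = true := tt fun y => c2854 h x192f x276f y
  have x262f : α 262 = false := ff fun y => c1096 h y x104t x40t
  have x333f : α 333 = false := ff fun y => c1289 h x182t x426t x53t y
  have x274t : α 274 = true := tt fun y => c2297 h x107f x262f x115f y
  have x223t : α 223 = true := tt fun y => c1591 h x62f y x195f x333f
  have x462f : α 462 = false := ff fun y => c3080 h x274t x486t x242t y
  have x117f : α 117 = false := ff fun y => c2059 h x92t y x223t
  c572 h x20f x117f x387f x462f

theorem l3497 (h : Good α) (x16t : α 16 = true) (x24t : α 24 = true) (x275f : α 275 = false) (x340t : α 340 = true) : False :=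
  have x150t := h.u3
  have x28f : α 28 = false := ff fun y => c874 h y x150t x340t
  have x120f : α 120 = false := ff fun y => c325 h y x24t x16t
  have x108f : α 108 = false := ff fun y => c323 h x24t x16t y
  have x260t : α 260 = true := tt fun y => c2312 h x120f x108f x275f y
  have x44t : α 44 = true := tt fun y => c843 h y x28f x108f
  have x278f : α 278 = false := ff fun y => c3162 h y x260t x340t
  have x102f : α 102 = false := ff fun y => c1128 h x44t y x260t
  c865 h x28f x102f x278f

theorem l3498 (h : Good α) (x108f : α 108 = false) (x491t : α 491 = true) (x109f : α 109 = false) (x489f : α 489 = false) (x36f : α 36 = false) (x339t : α 339 = true) (x384f : α 384 = false) (x16f : α 16 = false) (x24t : α 24 = true) (x285t : α 285 = true) (x20f : α 20 = false) (x340t : α 340 = true) (x91t : α 91 = true) (x153t : α 153 = true) (x1t : α 1 = true) (x61f : α 61 = false) : False :=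
  have x149f := h.u2
  have x150t := h.u3
  have x154t := h.u1
  have x28f : α 28 = false := ff fun y => c874 h y x150t x340t
  have x59t : α 59 = true := tt fun y => c1499 h x149f x61f y
  have x56f : α 56 = false := ff fun y => c57 h y x1t x59t
  have x53t : α 53 = true := tt fun y => c1260 h x56f y x149f
  have x323f : α 323 = false := ff fun y => c1284 h y x153t x53t
  have x282t : α 282 = true := tt fun y => c870 h x28f x108f y
  have x89t : α 89 = true := tt fun y => c519 h x20f y x28f x108f
  have x454t : α 454 = true := tt fun y => c358 h x16f x108f x384f y
  have x267f : α 267 = false := ff fun y => c3192 h x282t y x340t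
  have x30f : α 30 = false := ff fun y => c920 h y x282t x91t x340t
  have x241f : α 241 = false := ff fun y => c1511 h y x89t x59t
  have x51f : α 51 = false := ff fun y => c13 h y x89t x1t x59t
  have x255f : α 255 = false := ff fun y => c1954 h x89t y x491t
  have x467f : α 467 = false := ff fun y => c2587 h x154t x150t y x454t
  have x560t : α 560 = true := tt fun y => c925 h x30f x109f x489f y
  have x182t : α 182 = true := tt fun y => c339 h y x51f x16f
  have x388t : α 388 = true := tt fun y => c3075 h x241f x255f y
  have x120t : α 120 = true := tt fun y => c361 h y x16f x467f x384f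
  have x518f : α 518 = false := ff fun y => c3240 h x285t x339t y x560t
  have x261f : α 261 = false := ff fun y => c1283 h y x182t x153t x53t
  have x186f : α 186 = false := ff fun y => c1522 h x59t y x388t
  have x308f : α 308 = false := ff fun y => c759 h y x120t x24t
  have x18t : α 18 = true := tt fun y => c425 h x36f y x518f x489f
  have x245t : α 245 = true := tt fun y => c3092 h x308f y x261f
  have x190t : α 190 = true := tt fun y => c2791 h y x186f x267f
  have x415f : α 415 = false := ff fun y => c2456 h y x245t x120t
  have x192f : α 192 = false := ff fun y => c410 h x24t y x18t x190t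
  c1572 h x415f x192f x323f x61f

theorem l3499 (h : Good α) (x339t : α 339 = true) (x384f : α 384 = false) (x16f : α 16 = false) (x24t : α 24 = true) (x381t : α 381 = true) (x191f : α 191 = false) (x477t : α 477 = true) (x285t : α 285 = true) (x387f : α 387 = false) (x114f : α 114 = false) (x81f : α 81 = false) (x22t : α 22 = true) (x340t : α 340 = true) (x439t : α 439 = true) (x233f : α 233 = false) (x91t : α 91 = true) (x57t : α 57 = true) (x153t : α 153 = true) (x201f : α 201 = false) (x1t : α 1 = true) (x61f : α 61 = false) : False :=
  have x149f := h.u2
  have x154t := h.u1
  have x150t := h.u3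
  have x59t : α 59 = true := tt fun y => c1499 h x149f x61f y
  have x56f : α 56 = false := ff fun y => c57 h y x1t x59t
  have x53t : α 53 = true := tt fun y => c1260 h x56f y x149f
  have x52f : α 52 = false := ff fun y => c21 h x53t x1t y
  have x183f : α 183 = false := ff fun y => c2007 h x91t y x340t
  have x576f : α 576 = false := ff fun y => c2597 h x150t x340t y
  have x378t : α 378 = true := tt fun y => c3004 h x233f y x576f
  have x95t : α 95 = true := tt fun y => l3489 h y x378t x183f x52f
  have x28f : α 28 = false := ff fun y => c874 h y x150t x340t
  have x62f : α 62 = false := ff fun y => c643 h x57t x22t y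
  have x85t : α 85 = true := tt fun y => c847 h x62f x28f y
  have x20f : α 20 = false := ff fun y => c532 h x57t y x85t
  have x502f : α 502 = false := ff fun y => c3281 h x339t x378t y
  have x259f : α 259 = false := ff fun y => c3154 h x285t y x339t
  have x36f : α 36 = false := ff fun y => c1033 h y x95t x285t x339t
  have x304t : α 304 = true := tt fun y => c2995 h x259f x233f y
  have x419t : α 419 = true := tt fun y => c2840 h x191f x259f y
  have x41t : α 41 = true := tt fun y => c1013 h y x36f x114f
  have x225f : α 225 = false := ff fun y => c2978 h y x304t x439t
  have x489f : α 489 = false := ff fun y => c3368 h y x419t x439t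
  have x109f : α 109 = false := ff fun y => c1108 h x41t y x285t x339t
  have x292t : α 292 = true := tt fun y => c359 h x16f x109f y
  have x322f : α 322 = false := ff fun y => c648 h x57t y x22t x292t
  have x491t : α 491 = true := tt fun y => c2927 h x322f y x201f x387f
  have x108t : α 108 = true := tt fun y => l3498 h y x491t x109f x489f x36f x339t x384f x16f x24t x285t x20f x340t x91t x153t x1t x61f
  have x454f : α 454 = false := ff fun y => c754 h x24t x108t x381t y
  have x120f : α 120 = false := ff fun y => c2310 h y x108t x154t x150t
  have x234t : α 234 = true := tt fun y => c3008 h y x387f x454f x576f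
  have x467t : α 467 = true := tt fun y => c361 h x120f x16f y x384f
  have x193f : α 193 = false := ff fun y => c87 h x1t x59t y x234t
  have x518f : α 518 = false := ff fun y => c3398 h x477t x467t y
  have x147t : α 147 = true := tt fun y => c2559 h x193f y x201f
  have x73t : α 73 = true := tt fun y => c1735 h y x81f x193f x201f
  have x331t : α 331 = true := tt fun y => c2861 h x193f y x384f x502f
  have x18t : α 18 = true := tt fun y => c425 h x36f y x518f x489f
  have x32f : α 32 = false := ff fun y => c956 h y x147t x339t
  have x240f : α 240 = false := ff fun y => c1744 h x467t y x73t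
  have x17f : α 17 = false := ff fun y => c384 h x53t y x73t
  have x51f : α 51 = false := ff fun y => c731 h x24t y x304t x331t
  have x30f : α 30 = false := ff fun y => c414 h y x18t x91t
  have x96t : α 96 = true := tt fun y => c377 h y x17f x32f
  have x88t : α 88 = true := tt fun y => c1209 h y x51f x240f x193f
  have x282t : α 282 = true := tt fun y => c924 h x30f x109f y
  have x75t : α 75 = true := tt fun y => c916 h x30f y x225f
  have x93f : α 93 = false := ff fun y => c1270 h x96t x53t y
  have x510f : α 510 = false := ff fun y => c2322 h x108t x282t y
  have x15t : α 15 = true := tt fun y => c291 h x36f y x93f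
  have x131t : α 131 = true := tt fun y => c2505 h y x510f x233f x576f
  have x72f : α 72 = false := ff fun y => c274 h x15t y x18t x75t
  have x35f : α 35 = false := ff fun y => c285 h x88t x15t y
  have x209f : α 209 = false := ff fun y => c742 h x88t y x24t x131t
  c1007 h x209f x72f x35f

theorem l3500 (h : Good α) (x108t : α 108 = true) (x339f : α 339 = false) (x384f : α 384 = false) (x16f : α 16 = false) (x24t : α 24 = true) (x381t : α 381 = true) (x191f : α 191 = false) (x477t : α 477 = true) (x285t : α 285 = true) (x81f : α 81 = false) (x340t : α 340 = true) (x249t : α 249 = true) (x94f : α 94 = false) (x239t : α 239 = true) (x439t : α 439 = true) (x91t : α 91 = true) (x57t : α 57 = true) : False :=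
  have x154t := h.u1
  have x150t := h.u3
  have x28f : α 28 = false := ff fun y => c874 h y x150t x340t
  have x22t : α 22 = true := tt fun y => c620 h x94f y x28f
  have x184f : α 184 = false := ff fun y => c647 h y x57t x22t
  have x576f : α 576 = false := ff fun y => c2597 h x150t x340t y
  have x454f : α 454 = false := ff fun y => c754 h x24t x108t x381t y
  have x120f : α 120 = false := ff fun y => c2310 h y x108t x154t x150t
  have x167f : α 167 = false := ff fun y => c2313 h y x108t x150t
  have x260f : α 260 = false := ff fun y => c2314 h x108t x150t y
  have x478t : α 478 = true := tt fun y => c3384 h x454f y x576f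
  have x467t : α 467 = true := tt fun y => c361 h x120f x16f y x384f
  have x63t : α 63 = true := tt fun y => c1609 h y x167f x191f x260f
  have x259f : α 259 = false := ff fun y => c2037 h x91t x340t y x478t
  have x158f : α 158 = false := ff fun y => c2673 h x467t x285t y
  have x518f : α 518 = false := ff fun y => c3398 h x477t x467t y
  have x107f : α 107 = false := ff fun y => c1607 h x239t y x63t
  have x419t : α 419 = true := tt fun y => c2840 h x191f x259f y
  have x272t : α 272 = true := tt fun y => c1835 h y x184f x158f x81f
  have x207t : α 207 = true := tt fun y => c2107 h y x107f x94f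
  have x489f : α 489 = false := ff fun y => c3368 h y x419t x439t
  have x30f : α 30 = false := ff fun y => c915 h x207t x63t y
  have x41t : α 41 = true := tt fun y => c911 h y x30f x518f x489f
  have x109t : α 109 = true := tt fun y => c923 h x30f y x259f x339f
  have x12f : α 12 = false := ff fun y => c221 h x272t x41t x249t y
  have x152f : α 152 = false := ff fun y => c644 h x57t y x22t x109t
  c217 h x12f x30f x152f

theorem l3501 (h : Good α) (x386f : α 386 = false) (x236t : α 236 = true) (x200f : α 200 = false) (x56f : α 56 = false) : False :=
  have x149f := h.u2
  have x452t : α 452 = true := tt fun y => c1382 h x386f y x56f x149f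
  have x71t : α 71 = true := tt fun y => c1721 h x386f x200f y
  c1725 h x452t x236t x71t

theorem l3502 (h : Good α) (x63t : α 63 = true) (x16f : α 16 = false) (x24t : α 24 = true) (x381t : α 381 = true) (x191f : α 191 = false) (x477t : α 477 = true) (x285t : α 285 = true) (x387f : α 387 = false) (x114f : α 114 = false) (x81f : α 81 = false) (x340t : α 340 = true) (x386t : α 386 = true) (x249t : α 249 = true) (x94f : α 94 = false) (x439t : α 439 = true) (x233f : α 233 = false) (x91t : α 91 = true) (x57t : α 57 = true) (x153t : α 153 = true) (x201f : α 201 = false) (x1t : α 1 = true) (x61f : α 61 = false) : False :=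
  have x150t := h.u3
  have x149f := h.u2
  have x59t : α 59 = true := tt fun y => c1499 h x149f x61f y
  have x56f : α 56 = false := ff fun y => c57 h y x1t x59t
  have x53t : α 53 = true := tt fun y => c1260 h x56f y x149f
  have x52f : α 52 = false := ff fun y => c21 h x53t x1t y
  have x68t : α 68 = true := tt fun y => c342 h y x16f x52f
  have x28f : α 28 = false := ff fun y => c874 h y x150t x340t
  have x22t : α 22 = true := tt fun y => c620 h x94f y x28f
  have x62f : α 62 = false := ff fun y => c643 h x57t x22t y
  have x85t : α 85 = true := tt fun y => c847 h x62f x28f y
  have x20f : α 20 = false := ff fun y => c532 h x57t y x85t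
  have x200f : α 200 = false := ff fun y => c68 h y x57t x1t
  have x239t : α 239 = true := tt fun y => c2901 h y x200f x233f x201f
  have x175f : α 175 = false := ff fun y => c1598 h y x63t x68t
  have x384f : α 384 = false := ff fun y => c1600 h x63t x68t x381t y
  have x235f : α 235 = false := ff fun y => c1619 h x386t y x239t x63t
  have x339f : α 339 = false := ff fun y => l3499 h y x384f x16f x24t x381t x191f x477t x285t x387f x114f x81f x22t x340t x439t x233f x91t x57t x153t x201f x1t x61f
  have x389t : α 389 = true := tt fun y => c2705 h x175f x235f y
  have x108f : α 108 = false := ff fun y => l3500 h y x339f x384f x16f x24t x381t x191f x477t x285t x81f x340t x249t x94f x239t x439t x91t x57t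
  have x194f : α 194 = false := ff fun y => c1668 h x389t y x68t
  have x89t : α 89 = true := tt fun y => c519 h x20f y x28f x108f
  have x241t : α 241 = true := tt fun y => c2863 h x235f x194f y
  c1511 h x241t x89t x59t

theorem l3503 (h : Good α) (x260t : α 260 = true) (x340t : α 340 = true) : False :=
  have x150t := h.u3
  have x576f : α 576 = false := ff fun y => c2597 h x150t x340t y
  have x454f : α 454 = false := ff fun y => c2594 h x150t x260t y
  have x483f : α 483 = false := ff fun y => c3164 h x260t x340t y
  have x108f : α 108 = false := ff fun y => c2314 h y x150t x260t
  have x478t : α 478 = true := tt fun y => c3384 h x454f y x576f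
  have x267t : α 267 = true := tt fun y => c2319 h x108f y x483f
  c3196 h x267t x340t x478t

theorem l3504 (h : Good α) (x191f : α 191 = false) (x63f : α 63 = false) (x260f : α 260 = false) (x275f : α 275 = false) : False :=
  have x150t := h.u3
  have x154t := h.u1
  have x175t : α 175 = true := tt fun y => c1613 h y x63f x275f x191f
  have x167t : α 167 = true := tt fun y => c1609 h x63f y x191f x260f
  c2585 h x175t x167t x154t x150t

theorem l3505 (h : Good α) (x191t : α 191 = true) (x20f : α 20 = false) (x189t : α 189 = true) (x340t : α 340 = true) (x94f : α 94 = false) (x233f : α 233 = false) (x91t : α 91 = true) (x61f : α 61 = false) : False :=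
  have x150t := h.u3
  have x149f := h.u2
  have x260f : α 260 = false := ff fun y => l3503 h y x340t
  have x59t : α 59 = true := tt fun y => c1499 h x149f x61f y
  have x387f : α 387 = false := ff fun y => c1527 h x59t x189t y
  have x28f : α 28 = false := ff fun y => c874 h y x150t x340t
  have x576f : α 576 = false := ff fun y => c2597 h x150t x340t y
  have x325t : α 325 = true := tt fun y => c1561 h y x149f x61f
  have x338f : α 338 = false := ff fun y => c2011 h y x191t x91t
  have x115f : α 115 = false := ff fun y => c1999 h x191t x91t y
  have x187t : α 187 = true := tt fun y => c2113 h x94f y x338f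
  have x278t : α 278 = true := tt fun y => c861 h x94f x28f x338f y
  have x483t : α 483 = true := tt fun y => c2406 h x115f y x233f x576f
  have x99f : α 99 = false := ff fun y => c2219 h y x189t x278t x340t
  have x345f : α 345 = false := ff fun y => c2827 h x189t y x340t x483t
  have x14t : α 14 = true := tt fun y => c235 h x20f y x99f
  have x388t : α 388 = true := tt fun y => c3304 h y x345f x387f
  have x69f : α 69 = false := ff fun y => c255 h y x14t x59t
  have x102f : α 102 = false := ff fun y => c257 h x14t x59t y x150t
  have x186f : α 186 = false := ff fun y => c258 h x14t x59t y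
  have x297f : α 297 = false := ff fun y => c260 h y x325t x14t x59t
  have x234t : α 234 = true := tt fun y => c1673 h x69f x99f y
  have x478t : α 478 = true := tt fun y => c2246 h x102f x260f y
  have x87f : α 87 = false := ff fun y => c1509 h x59t y x234t
  have x267f : α 267 = false := ff fun y => c3196 h y x340t x478t
  have x25t : α 25 = true := tt fun y => c781 h y x87f x260f
  have x190t : α 190 = true := tt fun y => c2791 h y x186f x267f
  have x418t : α 418 = true := tt fun y => c2248 h x297f y x102f x267f
  have x21f : α 21 = false := ff fun y => c584 h x187t y x191t x25t
  have x256f : α 256 = false := ff fun y => c2834 h x418t y x190t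
  have x101t : α 101 = true := tt fun y => c598 h y x149f x21f x61f
  have x474t : α 474 = true := tt fun y => c2579 h x149f x256f y
  c268 h x101t x474t x14t x388t

theorem l3506 (h : Good α) (x340t : α 340 = true) (x386t : α 386 = true) (x233f : α 233 = false) (x242t : α 242 = true) (x57t : α 57 = true) (x54f : α 54 = false) (x201f : α 201 = false) (x58f : α 58 = false) (x1t : α 1 = true) (x61f : α 61 = false) : False :=
  have x149f := h.u2
  have x150t := h.u3
  have x154t := h.u1
  have x406t : α 406 = true := tt fun y => c1491 h x58f x201f y
  have x59t : α 59 = true := tt fun y => c1499 h x149f x61f y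
  have x56f : α 56 = false := ff fun y => c57 h y x1t x59t
  have x53t : α 53 = true := tt fun y => c1260 h x56f y x149f
  have x196f : α 196 = false := ff fun y => c32 h y x53t x1t
  have x204t : α 204 = true := tt fun y => c2573 h x196f x149f y
  have x546f : α 546 = false := ff fun y => c125 h x1t x204t x406t y
  have x91t : α 91 = true := tt fun y => l3472 h y x57t x54f x546f x406t x58f x204t x61f
  have x250t : α 250 = true := tt fun y => l3475 h y x242t x91t x54f x546f x201f x58f x61f
  have x354f : α 354 = false := ff fun y => c2941 h x204t x250t y
  have x439t : α 439 = true := tt fun y => c3002 h x233f x354f y x546f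
  have x94f : α 94 = false := ff fun y => c1426 h y x57t x439t x406t
  have x92t : α 92 = true := tt fun y => c1302 h x94f y x54f x61f
  have x200f : α 200 = false := ff fun y => c68 h y x57t x1t
  have x197f : α 197 = false := ff fun y => l3474 h y x200f x204t x201f x58f
  have x249t : α 249 = true := tt fun y => c1319 h y x94f x197f x54f
  have x153t : α 153 = true := tt fun y => c1298 h y x56f x54f
  have x52f : α 52 = false := ff fun y => c21 h x53t x1t y
  have x576f : α 576 = false := ff fun y => c2597 h x150t x340t y
  have x28f : α 28 = false := ff fun y => c874 h y x150t x340t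
  have x183f : α 183 = false := ff fun y => c2007 h x91t y x340t
  have x378t : α 378 = true := tt fun y => c3004 h x233f y x576f
  have x22t : α 22 = true := tt fun y => c620 h x94f y x28f
  have x380t : α 380 = true := tt fun y => c1481 h x58f x183f y
  have x23t : α 23 = true := tt fun y => c695 h y x58f x183f
  have x62f : α 62 = false := ff fun y => c643 h x57t x22t y
  have x399f : α 399 = false := ff fun y => c3285 h x380t x340t y
  have x81f : α 81 = false := ff fun y => c685 h x53t x23t y
  have x114f : α 114 = false := ff fun y => c687 h x154t x53t y x23t
  have x85t : α 85 = true := tt fun y => c847 h x62f x28f y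
  have x189t : α 189 = true := tt fun y => c1484 h x58f y x399f
  have x20f : α 20 = false := ff fun y => c532 h x57t y x85t
  have x387f : α 387 = false := ff fun y => c1527 h x59t x189t y
  have x285t : α 285 = true := tt fun y => l3487 h y x114f x22t x378t x340t x439t x91t x54f x52f
  have x275f : α 275 = false := ff fun y => l3496 h y x378t x340t x92t x94f x439t x242t x91t x57t x54f x58f x1t x59t
  have x477t : α 477 = true := tt fun y => c2395 h y x275f x114f
  have x260f : α 260 = false := ff fun y => l3503 h y x340t
  have x191f : α 191 = false := ff fun y => l3505 h y x20f x189t x340t x94f x233f x91t x61f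
  have x381t : α 381 = true := tt fun y => c1338 h x54f x191f y
  have x24t : α 24 = true := tt fun y => c736 h y x54f x191f
  have x63t : α 63 = true := tt fun y => l3504 h x191f y x260f x275f
  have x16f : α 16 = false := ff fun y => l3497 h y x24t x275f x340t
  l3502 h x63t x16f x24t x381t x191f x477t x285t x387f x114f x81f x340t x386t x249t x94f x439t x233f x91t x57t x153t x201f x1t x61f

theorem l3507 (h : Good α) (x16f : α 16 = false) (x26f : α 26 = false) (x235f : α 235 = false) (x63t : α 63 = true) (x52f : α 52 = false) (x59t : α 59 = true) : False :=
  have x68t : α 68 = true := tt fun y => c342 h y x16f x52f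
  have x89t : α 89 = true := tt fun y => c328 h x26f x16f y
  have x167f : α 167 = false := ff fun y => c1596 h x63t x68t y
  have x241f : α 241 = false := ff fun y => c1511 h y x89t x59t
  have x382t : α 382 = true := tt fun y => c2688 h y x241f x167f
  have x194t : α 194 = true := tt fun y => c2863 h x235f y x241f
  c1617 h x63t x194t x382t

theorem l3508 (h : Good α) (x241t : α 241 = true) (x68f : α 68 = false) (x30f : α 30 = false) (x349t : α 349 = true) (x20f : α 20 = false) (x179f : α 179 = false) (x577f : α 577 = false) (x200f : α 200 = false) (x57t : α 57 = true) (x153t : α 153 = true) (x53t : α 53 = true) (x59t : α 59 = true) : False :=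
  have x194f : α 194 = false := ff fun y => c2864 h y x241t x349t
  have x89f : α 89 = false := ff fun y => c1511 h x241t y x59t
  have x148t : α 148 = true := tt fun y => c2565 h x200f y x194f
  have x389t : α 389 = true := tt fun y => c1667 h y x194f x68f
  have x255t : α 255 = true := tt fun y => c550 h x20f x89f y
  have x320f : α 320 = false := ff fun y => c1428 h y x148t x57t
  have x455f : α 455 = false := ff fun y => c1285 h y x389t x153t x53t
  have x152t : α 152 = true := tt fun y => c2609 h x320f x194f y
  have x6t : α 6 = true := tt fun y => c162 h x577f x455f x179f y
  have x100f : α 100 = false := ff fun y => c2224 h y x152t x255t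
  have x38f : α 38 = false := ff fun y => c155 h x6t x241t y x255t
  c905 h x100f x30f x38f

theorem l3509 (h : Good α) (x63t : α 63 = true) (x20f : α 20 = false) (x386t : α 386 = true) (x446t : α 446 = true) (x97f : α 97 = false) (x94f : α 94 = false) (x239t : α 239 = true) (x57t : α 57 = true) (x54f : α 54 = false) (x1t : α 1 = true) (x61f : α 61 = false) : False :=
  have x149f := h.u2
  have x179f : α 179 = false := ff fun y => c2715 h x386t x239t y
  have x577f : α 577 = false := ff fun y => c3068 h y x386t x239t
  have x92t : α 92 = true := tt fun y => c1302 h x94f y x54f x61f
  have x200f : α 200 = false := ff fun y => c68 h y x57t x1t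
  have x59t : α 59 = true := tt fun y => c1499 h x149f x61f y
  have x56f : α 56 = false := ff fun y => c57 h y x1t x59t
  have x153t : α 153 = true := tt fun y => c1298 h y x56f x54f
  have x53t : α 53 = true := tt fun y => c1260 h x56f y x149f
  have x52f : α 52 = false := ff fun y => c21 h x53t x1t y
  have x202f : α 202 = false := ff fun y => c90 h x1t x59t y
  have x107f : α 107 = false := ff fun y => c1607 h x239t y x63t
  have x235f : α 235 = false := ff fun y => c1619 h x386t y x239t x63t
  have x207t : α 207 = true := tt fun y => c2107 h y x107f x94f
  have x88t : α 88 = true := tt fun y => c1377 h x235f y x56f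
  have x349t : α 349 = true := tt fun y => c1396 h x235f y x56f x202f
  have x300f : α 300 = false := ff fun y => c2953 h x446t y x207t
  have x30f : α 30 = false := ff fun y => c915 h x207t x63t y
  have x24t : α 24 = true := tt fun y => c750 h x300f x107f y
  have x26f : α 26 = false := ff fun y => c721 h x88t x24t y
  have x16t : α 16 = true := tt fun y => l3507 h y x26f x235f x63t x52f x59t
  have x68f : α 68 = false := ff fun y => c321 h x63t y x24t x16t
  have x241f : α 241 = false := ff fun y => l3508 h y x68f x30f x349t x20f x179f x577f x200f x57t x153t x53t x59t
  have x194t : α 194 = true := tt fun y => c2863 h x235f y x241f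
  have x382f : α 382 = false := ff fun y => c1617 h x63t x194t y
  have x192t : α 192 = true := tt fun y => c1573 h x382f y x61f
  have x343f : α 343 = false := ff fun y => c2070 h x92t x192t y
  have x190t : α 190 = true := tt fun y => c2184 h x343f y x97f
  have x396t : α 396 = true := tt fun y => c3297 h x382f x343f y
  have x492t : α 492 = true := tt fun y => c3299 h y x382f x343f
  have x18f : α 18 = false := ff fun y => c410 h x24t x192t y x190t
  have x75f : α 75 = false := ff fun y => c1773 h x207t x492t y x396t
  c427 h x54f x18f x75f

theorem l3510 (h : Good α) (x107f : α 107 = false) (x75t : α 75 = true) (x235f : α 235 = false) (x63f : α 63 = false) (x94f : α 94 = false) (x56f : α 56 = false) : False :=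
  have x88t : α 88 = true := tt fun y => c1377 h x235f y x56f
  have x187t : α 187 = true := tt fun y => c2105 h x107f x94f y
  have x269t : α 269 = true := tt fun y => c1605 h y x235f x107f x63f
  have x15f : α 15 = false := ff fun y => c301 h x269t x88t y
  have x72t : α 72 = true := tt fun y => c294 h x56f x15f y
  have x185t : α 185 = true := tt fun y => c297 h y x56f x15f
  c1727 h x185t x72t x187t x75t

theorem l3511 (h : Good α) (x30f : α 30 = false) (x235f : α 235 = false) (x24t : α 24 = true) (x63f : α 63 = false) (x386t : α 386 = true) (x94f : α 94 = false) (x239t : α 239 = true) (x56f : α 56 = false) : False :=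
  have x75t : α 75 = true := tt fun y => c912 h x63f x30f y
  have x107t : α 107 = true := tt fun y => l3510 h y x75t x235f x63f x94f x56f
  have x269f : α 269 = false := ff fun y => c2302 h x386t y x239t x107t
  have x18f : α 18 = false := ff fun y => c407 h x107t x24t y
  have x302t : α 302 = true := tt fun y => c3009 h x269f x235f y
  have x124t : α 124 = true := tt fun y => c415 h y x30f x18f
  c2483 h x386t x302t x239t x124t

theorem l3512 (h : Good α) (x409f : α 409 = false) (x92t : α 92 = true) (x94f : α 94 = false) (x233f : α 233 = false) (x242t : α 242 = true) (x54f : α 54 = false) : False :=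
  have x548t : α 548 = true := tt fun y => c1351 h x54f x409f x233f y
  have x444t : α 444 = true := tt fun y => c1325 h x94f y x54f x409f
  c2082 h x92t x444t x242t x548t

theorem l3513 (h : Good α) (x235f : α 235 = false) (x335f : α 335 = false) (x444f : α 444 = false) (x68t : α 68 = true) (x63f : α 63 = false) (x70t : α 70 = true) (x386t : α 386 = true) (x236t : α 236 = true) (x92t : α 92 = true) (x94f : α 94 = false) (x239t : α 239 = true) (x91t : α 91 = true) (x54f : α 54 = false) (x56f : α 56 = false) : False :=
  have x150t := h.u3
  have x154t := h.u1
  have x149f := h.u2
  have x24t : α 24 = true := tt fun y => c732 h x63f y x54f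
  have x153t : α 153 = true := tt fun y => c1298 h y x56f x54f
  have x53t : α 53 = true := tt fun y => c1260 h x56f y x149f
  have x455t : α 455 = true := tt fun y => c1621 h y x235f x63f
  have x6t : α 6 = true := tt fun y => c158 h x235f x63f y
  have x88t : α 88 = true := tt fun y => c1377 h x235f y x56f
  have x30t : α 30 = true := tt fun y => l3511 h y x235f x24t x63f x386t x94f x239t x56f
  have x389f : α 389 = false := ff fun y => c1285 h x455t y x153t x53t
  have x241f : α 241 = false := ff fun y => c159 h x6t x68t y
  have x18f : α 18 = false := ff fun y => c414 h x30t y x91t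
  have x100f : α 100 = false := ff fun y => c724 h x88t y x24t x30t
  have x175t : α 175 = true := tt fun y => c2705 h y x235f x389f
  have x575t : α 575 = true := tt fun y => c3013 h x235f x389f y
  have x15t : α 15 = true := tt fun y => c273 h x56f y x54f x18f
  have x75t : α 75 = true := tt fun y => c427 h x54f x18f y
  have x187t : α 187 = true := tt fun y => c430 h y x54f x18f
  have x72t : α 72 = true := tt fun y => c1729 h x235f x100f y
  have x167f : α 167 = false := ff fun y => c2585 h x175t y x154t x150t
  have x269f : α 269 = false := ff fun y => c301 h y x88t x15t
  have x185f : α 185 = false := ff fun y => c1727 h y x72t x187t x75t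
  have x382t : α 382 = true := tt fun y => c2688 h y x241f x167f
  have x188t : α 188 = true := tt fun y => c2777 h x269f y x185f
  have x452f : α 452 = false := ff fun y => c3026 h y x575t x236t x382t
  have x264t : α 264 = true := tt fun y => c2582 h x452f y x149f
  have x494f : α 494 = false := ff fun y => c2087 h y x264t x92t
  have x180f : α 180 = false := ff fun y => c1691 h x188t x264t x70t y
  have x424t : α 424 = true := tt fun y => c3371 h x494f y x444f
  have x113t : α 113 = true := tt fun y => c2363 h x149f y x180f
  have x307f : α 307 = false := ff fun y => c2375 h x264t x424t x113t y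
  have x19f : α 19 = false := ff fun y => c502 h x188t x264t y x113t
  c479 h x56f x335f x19f x307f

theorem l3514 (h : Good α) (x382f : α 382 = false) (x479t : α 479 = true) (x6t : α 6 = true) (x480t : α 480 = true) (x341t : α 341 = true) (x273f : α 273 = false) (x389f : α 389 = false) (x26f : α 26 = false) (x153t : α 153 = true) : False :=
  have x455t : α 455 = true := tt fun y => c3333 h y x389f x382f
  have x470t : α 470 = true := tt fun y => c3334 h x389f x382f y
  have x48f : α 48 = false := ff fun y => c156 h x479t x455t y x6t
  have x157f : α 157 = false := ff fun y => c2617 h x455t x470t x153t y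
  have x117t : α 117 = true := tt fun y => c2421 h y x157f x273f
  have x276f : α 276 = false := ff fun y => c2435 h x117t y x480t
  have x288f : α 288 = false := ff fun y => c2437 h x479t y x341t x117t
  c799 h x48f x288f x26f x276f

theorem l3515 (h : Good α) (x396t : α 396 = true) (x72f : α 72 = false) (x100f : α 100 = false) (x26f : α 26 = false) (x261f : α 261 = false) (x88t : α 88 = true) (x75t : α 75 = true) (x15t : α 15 = true) (x30t : α 30 = true) (x235t : α 235 = true) (x335f : α 335 = false) (x68t : α 68 = true) (x257f : α 257 = false) (x387f : α 387 = false) (x386t : α 386 = true) (x97f : α 97 = false) (x94f : α 94 = false) (x250t : α 250 = true) (x242t : α 242 = true) (x200f : α 200 = false) (x153t : α 153 = true) (x146t : α 146 = true) (x201f : α 201 = false) (x56f : α 56 = false) (x325t : α 325 = true) : False :=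
  have x149f := h.u2
  have x143t : α 143 = true := tt fun y => c1728 h x100f x72f y
  have x269f : α 269 = false := ff fun y => c3011 h x386t y x235t
  have x70t : α 70 = true := tt fun y => c1693 h y x201f x387f
  have x274f : α 274 = false := ff fun y => c3079 h x396t y x242t
  have x203f : α 203 = false := ff fun y => c1772 h x75t y x396t
  have x343f : α 343 = false := ff fun y => c917 h x30t y x75t x396t
  have x509t : α 509 = true := tt fun y => c2206 h x97f x274f y
  have x388t : α 388 = true := tt fun y => c2918 h x203f y x201f x387f
  have x474f : α 474 = false := ff fun y => c3335 h y x396t x388t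
  have x256t : α 256 = true := tt fun y => c2579 h x149f y x474f
  have x476t : α 476 = true := tt fun y => c1731 h x100f y x72f x474f
  have x252t : α 252 = true := tt fun y => c1733 h x72f y x474f
  have x337f : α 337 = false := ff fun y => c300 h x88t y x15t x256t
  have x113f : α 113 = false := ff fun y => c2373 h x476t x256t y
  have x575t : α 575 = true := tt fun y => c2584 h y x337f x149f
  have x212t : α 212 = true := tt fun y => c2177 h y x113f x97f
  have x180t : α 180 = true := tt fun y => c2363 h x149f x113f y
  have x264t : α 264 = true := tt fun y => c2364 h y x149f x113f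
  have x307t : α 307 = true := tt fun y => c2366 h x149f x335f x113f y
  have x19t : α 19 = true := tt fun y => c474 h x56f x149f y x113f
  have x389f : α 389 = false := ff fun y => c3014 h x235t y x575t
  have x33f : α 33 = false := ff fun y => c976 h x153t x325t y x212t
  have x188f : α 188 = false := ff fun y => c1691 h y x264t x70t x180t
  have x273f : α 273 = false := ff fun y => c3110 h x307t x250t y
  have x23t : α 23 = true := tt fun y => c681 h x33f y x97f
  have x279t : α 279 = true := tt fun y => c971 h y x343f x33f x97f
  have x341t : α 341 = true := tt fun y => c2117 h y x188f x94f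
  have x106t : α 106 = true := tt fun y => c2100 h x188f x94f y
  have x414t : α 414 = true := tt fun y => c2813 h y x269f x188f
  have x480t : α 480 = true := tt fun y => c2201 h x343f y x97f x273f
  have x379f : α 379 = false := ff fun y => c463 h x386t y x19t x23t
  have x38f : α 38 = false := ff fun y => c1071 h x341t x279t x106t y
  have x194t : α 194 = true := tt fun y => c2862 h x379f x389f x200f y
  have x98t : α 98 = true := tt fun y => c1067 h x38f y x257f
  have x163f : α 163 = false := ff fun y => c2209 h x146t x98t y
  have x105f : α 105 = false := ff fun y => c2207 h x153t y x146t x98t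
  have x6t : α 6 = true := tt fun y => c154 h y x38f x163f
  have x365t : α 365 = true := tt fun y => c1073 h x38f x163f y
  have x479t : α 479 = true := tt fun y => c2274 h y x261f x105f
  have x427f : α 427 = false := ff fun y => c160 h x6t x68t x365t y
  have x382t : α 382 = true := tt fun y => l3514 h y x479t x6t x480t x341t x273f x389f x26f x153t
  have x332f : α 332 = false := ff fun y => c2867 h x194t x382t y x509t
  have x311t : α 311 = true := tt fun y => c3251 h y x332f x427f
  have x263f : α 263 = false := ff fun y => c3119 h y x252t x311t
  have x563f : α 563 = false := ff fun y => c2532 h x414t y x143t x311t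
  c3176 h x563f x389f x263f

theorem l3516 (h : Good α) (x113f : α 113 = false) (x190t : α 190 = true) (x474t : α 474 = true) (x143t : α 143 = true) (x261f : α 261 = false) (x88t : α 88 = true) (x235t : α 235 = true) (x97f : α 97 = false) : False :=
  have x149f := h.u2
  have x180t : α 180 = true := tt fun y => c2363 h x149f x113f y
  have x284f : α 284 = false := ff fun y => c2721 h x474t y x180t
  have x530t : α 530 = true := tt fun y => c2378 h x113f x284f y
  have x274t : α 274 = true := tt fun y => c2179 h x113f x284f x97f y
  have x575f : α 575 = false := ff fun y => c2531 h x235t y x143t x530t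
  have x192f : α 192 = false := ff fun y => c2832 h y x190t x274t
  have x337t : α 337 = true := tt fun y => c2584 h x575f y x149f
  have x182t : α 182 = true := tt fun y => c2743 h x261f y x192f
  c1934 h x88t x182t x337t

theorem l3517 (h : Good α) (x113t : α 113 = true) (x335f : α 335 = false) (x250t : α 250 = true) (x58f : α 58 = false) (x56f : α 56 = false) : False :=
  have x65f : α 65 = false := ff fun y => c1638 h y x113t x250t
  have x23t : α 23 = true := tt fun y => c693 h x65f y x58f
  have x19f : α 19 = false := ff fun y => c460 h y x23t x113t
  have x307f : α 307 = false := ff fun y => c712 h x23t x113t y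
  c479 h x56f x335f x19f x307f

theorem l3518 (h : Good α) (x30t : α 30 = true) (x113f : α 113 = false) (x235t : α 235 = true) (x335f : α 335 = false) (x68t : α 68 = true) (x24t : α 24 = true) (x257f : α 257 = false) (x387f : α 387 = false) (x386t : α 386 = true) (x97f : α 97 = false) (x94f : α 94 = false) (x250t : α 250 = true) (x242t : α 242 = true) (x91t : α 91 = true) (x200f : α 200 = false) (x54f : α 54 = false) (x201f : α 201 = false) (x56f : α 56 = false) (x61f : α 61 = false) : False :=
  have x149f := h.u2
  have x269f : α 269 = false := ff fun y => c3011 h x386t y x235t
  have x180t : α 180 = true := tt fun y => c2363 h x149f x113f y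
  have x70t : α 70 = true := tt fun y => c1693 h y x201f x387f
  have x264t : α 264 = true := tt fun y => c2364 h y x149f x113f
  have x188f : α 188 = false := ff fun y => c1691 h y x264t x70t x180t
  have x185t : α 185 = true := tt fun y => c2777 h x269f x188f y
  have x19t : α 19 = true := tt fun y => c474 h x56f x149f y x113f
  have x153t : α 153 = true := tt fun y => c1298 h y x56f x54f
  have x146t : α 146 = true := tt fun y => c1296 h x56f x54f y
  have x325t : α 325 = true := tt fun y => c1561 h y x149f x61f
  have x18f : α 18 = false := ff fun y => c414 h x30t y x91t
  have x15t : α 15 = true := tt fun y => c273 h x56f y x54f x18f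
  have x75t : α 75 = true := tt fun y => c427 h x54f x18f y
  have x187t : α 187 = true := tt fun y => c430 h y x54f x18f
  have x100f : α 100 = false := ff fun y => c279 h y x15t x19t
  have x88t : α 88 = true := tt fun y => c1925 h x188f y x100f
  have x72f : α 72 = false := ff fun y => c1727 h x185t y x187t x75t
  have x261f : α 261 = false := ff fun y => c743 h y x88t x24t
  have x26f : α 26 = false := ff fun y => c721 h x88t x24t y
  have x143t : α 143 = true := tt fun y => c1728 h x100f x72f y
  have x396f : α 396 = false := ff fun y => l3515 h y x72f x100f x26f x261f x88t x75t x15t x30t x235t x335f x68t x257f x387f x386t x97f x94f x250t x242t x200f x153t x146t x201f x56f x325t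
  have x474t : α 474 = true := tt fun y => c1562 h x149f y x61f x396f
  have x190t : α 190 = true := tt fun y => c1570 h x61f y x396f
  l3516 h x113f x190t x474t x143t x261f x88t x235t x97f

theorem l3519 (h : Good α) (x351t : α 351 = true) (x57t : α 57 = true) (x201f : α 201 = false) (x543t : α 543 = true) (x1t : α 1 = true) (x61f : α 61 = false) : False :=
  have x149f := h.u2
  have x200f : α 200 = false := ff fun y => c68 h y x57t x1t
  have x59t : α 59 = true := tt fun y => c1499 h x149f x61f y
  have x56f : α 56 = false := ff fun y => c57 h y x1t x59t
  have x53t : α 53 = true := tt fun y => c1260 h x56f y x149f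
  have x196f : α 196 = false := ff fun y => c32 h y x53t x1t
  have x204t : α 204 = true := tt fun y => c2573 h x196f x149f y
  have x58f : α 58 = false := ff fun y => l3467 h y x543t x1t x61f
  have x406t : α 406 = true := tt fun y => c1491 h x58f x201f y
  have x546f : α 546 = false := ff fun y => c125 h x1t x204t x406t y
  have x54f : α 54 = false := ff fun y => l3471 h y x201f x543t x1t x61f
  have x91t : α 91 = true := tt fun y => l3472 h y x57t x54f x546f x406t x58f x204t x61f
  have x197f : α 197 = false := ff fun y => l3474 h y x200f x204t x201f x58f
  have x242t : α 242 = true := tt fun y => l3412 h y x197f x201f x543t x61f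
  have x250t : α 250 = true := tt fun y => l3475 h y x242t x91t x54f x546f x201f x58f x61f
  have x354f : α 354 = false := ff fun y => c2941 h x204t x250t y
  have x352t : α 352 = true := tt fun y => c2907 h x200f y x201f x354f
  have x402t : α 402 = true := tt fun y => c1342 h y x197f x54f
  have x449f : α 449 = false := ff fun y => c72 h y x57t x402t x1t
  have x238f : α 238 = false := ff fun y => c70 h x57t y x1t x204t
  have x146t : α 146 = true := tt fun y => c1296 h x56f x54f y
  have x52f : α 52 = false := ff fun y => c21 h x53t x1t y
  have x325t : α 325 = true := tt fun y => c1561 h y x149f x61f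
  have x233f : α 233 = false := ff fun y => c3001 h x543t x351t y
  have x439t : α 439 = true := tt fun y => c3002 h x233f x354f y x546f
  have x239t : α 239 = true := tt fun y => c2901 h y x200f x233f x201f
  have x94f : α 94 = false := ff fun y => c1426 h y x57t x439t x406t
  have x92t : α 92 = true := tt fun y => c1302 h x94f y x54f x61f
  have x237t : α 237 = true := tt fun y => l3486 h y x94f x239t x352t x449f x242t x197f x91t x238f x54f x201f x58f x1t x61f
  have x97f : α 97 = false := ff fun y => c2191 h x237t y x351t x242t
  have x236t : α 236 = true := tt fun y => c1465 h x200f y x58f x97f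
  have x442f : α 442 = false := ff fun y => c2074 h y x236t x92t
  have x446t : α 446 = true := tt fun y => c1306 h y x442f x54f x61f
  have x386t : α 386 = true := tt fun y => l3501 h y x236t x200f x56f
  have x340f : α 340 = false := ff fun y => l3506 h y x386t x233f x242t x57t x54f x201f x58f x1t x61f
  have x189t : α 189 = true := tt fun y => c2182 h x97f y x340f
  have x387f : α 387 = false := ff fun y => c1527 h x59t x189t y
  have x20f : α 20 = false := ff fun y => c542 h y x59t x189t
  have x257f : α 257 = false := ff fun y => c1513 h x146t x59t y x189t
  have x70t : α 70 = true := tt fun y => c1693 h y x201f x387f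
  have x63f : α 63 = false := ff fun y => l3509 h y x20f x386t x446t x97f x94f x239t x57t x54f x1t x61f
  have x24t : α 24 = true := tt fun y => c732 h x63f y x54f
  have x68t : α 68 = true := tt fun y => c1221 h x63f y x54f x52f
  have x409t : α 409 = true := tt fun y => l3512 h y x92t x94f x233f x242t x54f
  have x444f : α 444 = false := ff fun y => c74 h x57t y x1t x409t
  have x335f : α 335 = false := ff fun y => c3261 h x325t y x409t
  have x235t : α 235 = true := tt fun y => l3513 h y x335f x444f x68t x63f x70t x386t x236t x92t x94f x239t x91t x54f x56f
  have x269f : α 269 = false := ff fun y => c3011 h x386t y x235t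
  have x113f : α 113 = false := ff fun y => l3517 h y x335f x250t x58f x56f
  have x180t : α 180 = true := tt fun y => c2363 h x149f x113f y
  have x264t : α 264 = true := tt fun y => c2364 h y x149f x113f
  have x188f : α 188 = false := ff fun y => c1691 h y x264t x70t x180t
  have x414t : α 414 = true := tt fun y => c2813 h y x269f x188f
  have x30f : α 30 = false := ff fun y => l3518 h y x113f x235t x335f x68t x24t x257f x387f x386t x97f x94f x250t x242t x91t x200f x54f x201f x56f x61f
  have x100t : α 100 = true := tt fun y => c922 h x188f y x94f x30f
  c2225 h x414t x235t x100t

theorem l3520 (h : Good α) (x57t : α 57 = true) (x201f : α 201 = false) (x543t : α 543 = true) (x1t : α 1 = true) (x61f : α 61 = false) : False :=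
  have x149f := h.u2
  have x54f : α 54 = false := ff fun y => l3471 h y x201f x543t x1t x61f
  have x59t : α 59 = true := tt fun y => c1499 h x149f x61f y
  have x56f : α 56 = false := ff fun y => c57 h y x1t x59t
  have x53t : α 53 = true := tt fun y => c1260 h x56f y x149f
  have x196f : α 196 = false := ff fun y => c32 h y x53t x1t
  have x204t : α 204 = true := tt fun y => c2573 h x196f x149f y
  have x58f : α 58 = false := ff fun y => l3467 h y x543t x1t x61f
  have x406t : α 406 = true := tt fun y => c1491 h x58f x201f y
  have x546f : α 546 = false := ff fun y => c125 h x1t x204t x406t y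
  have x200f : α 200 = false := ff fun y => c68 h y x57t x1t
  have x91t : α 91 = true := tt fun y => l3472 h y x57t x54f x546f x406t x58f x204t x61f
  have x197f : α 197 = false := ff fun y => l3474 h y x200f x204t x201f x58f
  have x242t : α 242 = true := tt fun y => l3412 h y x197f x201f x543t x61f
  have x351f : α 351 = false := ff fun y => l3519 h y x57t x201f x543t x1t x61f
  have x233t : α 233 = true := tt fun y => c1340 h x197f x54f x351f y
  have x97f : α 97 = false := ff fun y => c1987 h x91t y x233t x242t
  have x439f : α 439 = false := ff fun y => c2017 h x91t x233t y
  have x92t : α 92 = true := tt fun y => c1544 h y x61f x97f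
  have x447t : α 447 = true := tt fun y => c1305 h x54f x61f x439f y
  c1418 h x57t x92t x406t x447t

theorem l3521 (h : Good α) (x250t : α 250 = true) (x57f : α 57 = false) (x201f : α 201 = false) (x204t : α 204 = true) : False :=
  have x354f : α 354 = false := ff fun y => c2941 h x204t x250t y
  have x238f : α 238 = false := ff fun y => c2937 h y x204t x250t
  c1441 h x57f x238f x201f x354f

theorem l3522 (h : Good α) (x242t : α 242 = true) (x250f : α 250 = false) (x57f : α 57 = false) (x54f : α 54 = false) (x546f : α 546 = false) (x201f : α 201 = false) (x58f : α 58 = false) (x543t : α 543 = true) (x61f : α 61 = false) : False :=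
  have x97t : α 97 = true := tt fun y => c1468 h x58f y x250f
  have x443f : α 443 = false := ff fun y => c2194 h y x97t x543t x242t
  have x91f : α 91 = false := ff fun y => l3475 h x250f x242t y x54f x546f x201f x58f x61f
  have x449t : α 449 = true := tt fun y => c1405 h y x57f x443f x58f
  have x94t : α 94 = true := tt fun y => c1309 h y x54f x91f
  have x233t : α 233 = true := tt fun y => c1314 h x54f x91f y
  c2124 h x449t x94t x543t x233t

theorem l3523 (h : Good α) (x201f : α 201 = false) (x543t : α 543 = true) (x1t : α 1 = true) (x61f : α 61 = false) : False :=
  have x149f := h.u2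
  have x58f : α 58 = false := ff fun y => l3467 h y x543t x1t x61f
  have x59t : α 59 = true := tt fun y => c1499 h x149f x61f y
  have x56f : α 56 = false := ff fun y => c57 h y x1t x59t
  have x53t : α 53 = true := tt fun y => c1260 h x56f y x149f
  have x196f : α 196 = false := ff fun y => c32 h y x53t x1t
  have x204t : α 204 = true := tt fun y => c2573 h x196f x149f y
  have x406t : α 406 = true := tt fun y => c1491 h x58f x201f y
  have x546f : α 546 = false := ff fun y => c125 h x1t x204t x406t y
  have x54f : α 54 = false := ff fun y => l3471 h y x201f x543t x1t x61f
  have x57f : α 57 = false := ff fun y => l3520 h y x201f x543t x1t x61f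
  have x250f : α 250 = false := ff fun y => l3521 h y x57f x201f x204t
  have x238t : α 238 = true := tt fun y => c1403 h x57f y x58f x250f
  have x242f : α 242 = false := ff fun y => l3522 h y x250f x57f x54f x546f x201f x58f x543t x61f
  have x233t : α 233 = true := tt fun y => c1303 h x54f x61f y x242f
  have x197t : α 197 = true := tt fun y => l3412 h x242f y x201f x543t x61f
  have x351f : α 351 = false := ff fun y => c3001 h x543t y x233t
  have x249f : α 249 = false := ff fun y => c2880 h y x238t x197t x204t
  c1443 h x249f x57f x351f x201f

theorem l3524 (h : Good α) (x54f : α 54 = false) (x250f : α 250 = false) (x57f : α 57 = false) (x543t : α 543 = true) (x1t : α 1 = true) (x61f : α 61 = false) : False :=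
  have x149f := h.u2
  have x58f : α 58 = false := ff fun y => l3467 h y x543t x1t x61f
  have x59t : α 59 = true := tt fun y => c1499 h x149f x61f y
  have x56f : α 56 = false := ff fun y => c57 h y x1t x59t
  have x53t : α 53 = true := tt fun y => c1260 h x56f y x149f
  have x196f : α 196 = false := ff fun y => c32 h y x53t x1t
  have x204t : α 204 = true := tt fun y => c2573 h x196f x149f y
  have x238t : α 238 = true := tt fun y => c1403 h x57f y x58f x250f
  have x352f : α 352 = false := ff fun y => c2939 h y x238t x204t
  have x200t : α 200 = true := tt fun y => c1488 h y x352f x58f x250f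
  have x201t : α 201 = true := tt fun y => l3523 h y x543t x1t x61f
  have x354f : α 354 = false := ff fun y => c120 h x1t x204t x201t y
  have x546t : α 546 = true := tt fun y => c3115 h x250f x354f y
  have x406f : α 406 = false := ff fun y => c125 h x1t x204t y x546t
  have x97t : α 97 = true := tt fun y => c1468 h x58f y x250f
  have x402f : α 402 = false := ff fun y => c121 h y x1t x543t x201t
  have x197t : α 197 = true := tt fun y => c1342 h x402f y x54f
  have x249f : α 249 = false := ff fun y => c2880 h y x238t x197t x204t
  have x353f : α 353 = false := ff fun y => c110 h y x200t x197t x1t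
  have x237t : α 237 = true := tt fun y => c1401 h x249f x57f y x58f
  have x534t : α 534 = true := tt fun y => c1448 h x249f x57f y x406f
  have x94t : α 94 = true := tt fun y => c1422 h x249f y x57f
  have x545t : α 545 = true := tt fun y => c3104 h y x353f x249f
  have x447f : α 447 = false := ff fun y => c2192 h x237t x97t x534t y
  have x405f : α 405 = false := ff fun y => c114 h x545t y x197t x1t
  have x439t : α 439 = true := tt fun y => c1305 h x54f x61f y x447f
  have x535t : α 535 = true := tt fun y => c1498 h x405f y x58f x250f
  have x91f : α 91 = false := ff fun y => c2023 h x237t y x534t x439t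
  have x446f : α 446 = false := ff fun y => c2127 h y x535t x94t x238t
  c1463 h x446f x405f x91f x58f

theorem l3525 (h : Good α) (x250f : α 250 = false) (x57f : α 57 = false) (x543t : α 543 = true) (x1t : α 1 = true) (x61f : α 61 = false) : False :=
  have x149f := h.u2
  have x58f : α 58 = false := ff fun y => l3467 h y x543t x1t x61f
  have x59t : α 59 = true := tt fun y => c1499 h x149f x61f y
  have x56f : α 56 = false := ff fun y => c57 h y x1t x59t
  have x53t : α 53 = true := tt fun y => c1260 h x56f y x149f
  have x196f : α 196 = false := ff fun y => c32 h y x53t x1t
  have x204t : α 204 = true := tt fun y => c2573 h x196f x149f y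
  have x97t : α 97 = true := tt fun y => c1468 h x58f y x250f
  have x238t : α 238 = true := tt fun y => c1403 h x57f y x58f x250f
  have x352f : α 352 = false := ff fun y => c2939 h y x238t x204t
  have x200t : α 200 = true := tt fun y => c1488 h y x352f x58f x250f
  have x54t : α 54 = true := tt fun y => l3524 h y x250f x57f x543t x1t x61f
  have x94f : α 94 = false := ff fun y => c1321 h y x238t x54t x204t
  have x239f : α 239 = false := ff fun y => c44 h y x200t x54t x1t
  have x249t : α 249 = true := tt fun y => c1422 h y x94f x57f
  have x92t : α 92 = true := tt fun y => c1409 h x94f x57f y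
  have x446t : α 446 = true := tt fun y => c2130 h y x239f x94f
  have x237f : α 237 = false := ff fun y => c2047 h x249t x92t y x97t
  have x405f : α 405 = false := ff fun y => c48 h x446t y x54t x1t
  have x545t : α 545 = true := tt fun y => c1495 h y x405f x237f x58f
  have x535t : α 535 = true := tt fun y => c1498 h x405f y x58f x250f
  c3051 h x545t x535t x249t x238t

theorem l3526 (h : Good α) (x54t : α 54 = true) (x250t : α 250 = true) (x57f : α 57 = false) (x201t : α 201 = true) (x58f : α 58 = false) (x204t : α 204 = true) (x1t : α 1 = true) : False :=
  have x238f : α 238 = false := ff fun y => c2937 h y x204t x250t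
  have x92t : α 92 = true := tt fun y => c1415 h x57f y x238f
  have x233f : α 233 = false := ff fun y => c46 h x54t x1t y x201t
  have x91f : α 91 = false := ff fun y => c1313 h x54t x204t y x250t
  have x97t : α 97 = true := tt fun y => c1456 h x91f x58f y
  have x237t : α 237 = true := tt fun y => c1461 h y x91f x58f
  have x439t : α 439 = true := tt fun y => c2016 h x91f x233f y
  have x249f : α 249 = false := ff fun y => c2047 h y x92t x237t x97t
  have x406f : α 406 = false := ff fun y => c50 h x54t x1t x439t y
  have x534t : α 534 = true := tt fun y => c1448 h x249f x57f y x406f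
  have x546t : α 546 = true := tt fun y => c1446 h x57f x238f x406f y
  c3033 h x237t x250t x534t x546t

theorem l3527 (h : Good α) (x57f : α 57 = false) (x543t : α 543 = true) (x1t : α 1 = true) (x61f : α 61 = false) : False :=
  have x149f := h.u2
  have x201t : α 201 = true := tt fun y => l3523 h y x543t x1t x61f
  have x402f : α 402 = false := ff fun y => c121 h y x1t x543t x201t
  have x58f : α 58 = false := ff fun y => l3467 h y x543t x1t x61f
  have x59t : α 59 = true := tt fun y => c1499 h x149f x61f y
  have x56f : α 56 = false := ff fun y => c57 h y x1t x59t
  have x53t : α 53 = true := tt fun y => c1260 h x56f y x149f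
  have x196f : α 196 = false := ff fun y => c32 h y x53t x1t
  have x204t : α 204 = true := tt fun y => c2573 h x196f x149f y
  have x250t : α 250 = true := tt fun y => l3525 h y x57f x543t x1t x61f
  have x238f : α 238 = false := ff fun y => c2937 h y x204t x250t
  have x92t : α 92 = true := tt fun y => c1415 h x57f y x238f
  have x54f : α 54 = false := ff fun y => l3526 h y x250t x57f x201t x58f x204t x1t
  have x197t : α 197 = true := tt fun y => c1342 h x402f y x54f
  have x237f : α 237 = false := ff fun y => c2878 h x197t x204t y x250t
  have x351f : α 351 = false := ff fun y => c112 h x197t x1t y x201t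
  have x249t : α 249 = true := tt fun y => c1401 h y x57f x237f x58f
  have x91t : α 91 = true := tt fun y => c1461 h x237f y x58f
  have x534t : α 534 = true := tt fun y => c3041 h x237f x351f y
  have x353f : α 353 = false := ff fun y => c2890 h y x249t x197t
  have x406f : α 406 = false := ff fun y => c116 h x197t x1t x534t y
  have x200t : α 200 = true := tt fun y => c1486 h x353f y x237f x58f
  have x546t : α 546 = true := tt fun y => c1446 h x57f x238f x406f y
  have x352f : α 352 = false := ff fun y => c117 h x200t y x1t x204t
  have x439f : α 439 = false := ff fun y => c2031 h x91t x250t y x546t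
  have x535t : α 535 = true := tt fun y => c3056 h y x352f x238f
  have x447t : α 447 = true := tt fun y => c3355 h x439f x406f y
  have x405f : α 405 = false := ff fun y => c124 h y x535t x1t x204t
  have x97f : α 97 = false := ff fun y => c2198 h y x250t x447t x546t
  have x545t : α 545 = true := tt fun y => c1495 h y x405f x237f x58f
  have x442t : α 442 = true := tt fun y => c1470 h x405f y x58f x97f
  c2084 h x545t x442t x249t x92t

theorem l3528 (h : Good α) (x54f : α 54 = false) (x250t : α 250 = true) (x543t : α 543 = true) (x1t : α 1 = true) (x61f : α 61 = false) : False :=
  have x149f := h.u2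
  have x59t : α 59 = true := tt fun y => c1499 h x149f x61f y
  have x56f : α 56 = false := ff fun y => c57 h y x1t x59t
  have x53t : α 53 = true := tt fun y => c1260 h x56f y x149f
  have x196f : α 196 = false := ff fun y => c32 h y x53t x1t
  have x204t : α 204 = true := tt fun y => c2573 h x196f x149f y
  have x57t : α 57 = true := tt fun y => l3527 h y x543t x1t x61f
  have x238f : α 238 = false := ff fun y => c70 h x57t y x1t x204t
  have x200f : α 200 = false := ff fun y => c68 h y x57t x1t
  have x201t : α 201 = true := tt fun y => l3523 h y x543t x1t x61f
  have x402f : α 402 = false := ff fun y => c121 h y x1t x543t x201t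
  have x354f : α 354 = false := ff fun y => c120 h x1t x204t x201t y
  have x58f : α 58 = false := ff fun y => l3467 h y x543t x1t x61f
  have x197t : α 197 = true := tt fun y => c1342 h x402f y x54f
  have x237f : α 237 = false := ff fun y => c2878 h x197t x204t y x250t
  have x353t : α 353 = true := tt fun y => c1486 h y x200f x237f x58f
  have x352f : α 352 = false := ff fun y => c2884 h x353t y x197t x204t
  have x535t : α 535 = true := tt fun y => c3056 h y x352f x238f
  have x236t : α 236 = true := tt fun y => c2911 h x200f y x352f
  have x405f : α 405 = false := ff fun y => c124 h y x535t x1t x204t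
  have x545t : α 545 = true := tt fun y => c1495 h y x405f x237f x58f
  have x442f : α 442 = false := ff fun y => c3023 h x545t y x353t x236t
  have x446t : α 446 = true := tt fun y => c1306 h y x442f x54f x61f
  have x239f : α 239 = false := ff fun y => c3064 h x545t x446t x353t y
  have x94t : α 94 = true := tt fun y => c1322 h x239f y x54f
  have x92f : α 92 = false := ff fun y => c1410 h x94t x57t y
  have x233f : α 233 = false := ff fun y => c1421 h x94t x57t y x201t
  have x444t : α 444 = true := tt fun y => c2079 h x92f x238f y
  have x242t : α 242 = true := tt fun y => c2077 h x92f x238f y x354f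
  have x409f : α 409 = false := ff fun y => c74 h x57t x444t x1t y
  have x544t : α 544 = true := tt fun y => c1352 h x239f y x54f x409f
  have x548t : α 548 = true := tt fun y => c1351 h x54f x409f x233f y
  c3016 h x236t x544t x242t x548t

theorem l3529 (h : Good α) (x272f : α 272 = false) (x114f : α 114 = false) (x449t : α 449 = true) (x327t : α 327 = true) (x94f : α 94 = false) (x57t : α 57 = true) (x53t : α 53 = true) : False :=
  have x505t : α 505 = true := tt fun y => c2140 h y x272f x94f
  have x22t : α 22 = true := tt fun y => c656 h x272f x94f y
  have x429f : α 429 = false := ff fun y => c3373 h x505t y x449t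
  have x184f : α 184 = false := ff fun y => c647 h y x57t x22t
  have x298t : α 298 = true := tt fun y => c2392 h x429f x272f y x114f
  have x23t : α 23 = true := tt fun y => c714 h x272f x184f x114f y
  c691 h x327t x53t x298t x23t

theorem l3530 (h : Good α) (x120f : α 120 = false) (x191f : α 191 = false) (x24f : α 24 = false) (x63f : α 63 = false) : False :=
  have x150t := h.u3
  have x154t := h.u1
  have x275t : α 275 = true := tt fun y => c757 h x120f x24f y x191f
  have x175t : α 175 = true := tt fun y => c740 h y x63f x120f x24f
  have x260f : α 260 = false := ff fun y => c2586 h x154t x150t x275t y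
  have x167f : α 167 = false := ff fun y => c2585 h x175t y x154t x150t
  c1609 h x63f x167f x191f x260f

theorem l3531 (h : Good α) (x191f : α 191 = false) (x24f : α 24 = false) (x63f : α 63 = false) : False :=
  have x154t := h.u1
  have x120t : α 120 = true := tt fun y => l3530 h y x191f x24f x63f
  have x175f : α 175 = false := ff fun y => c2451 h y x120t x154t
  have x275f : α 275 = false := ff fun y => c2452 h x120t x154t y
  c1613 h x175f x63f x275f x191f

theorem l3532 (h : Good α) (x24f : α 24 = false) (x63f : α 63 = false) (x54t : α 54 = true) : False :=
  have x381t : α 381 = true := tt fun y => l3442 h x63f x24f y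
  have x191f : α 191 = false := ff fun y => c1339 h x54t y x381t
  l3531 h x191f x24f x63f

theorem l3533 (h : Good α) (x113t : α 113 = true) (x97t : α 97 = true) (x250t : α 250 = true) (x58f : α 58 = false) (x56f : α 56 = false) : False :=
  have x149f := h.u2
  have x450f : α 450 = false := ff fun y => c2200 h x97t x250t y
  have x53t : α 53 = true := tt fun y => c1260 h x56f y x149f
  have x65f : α 65 = false := ff fun y => c1638 h y x113t x250t
  have x212f : α 212 = false := ff fun y => c2178 h y x113t x97t
  have x335t : α 335 = true := tt fun y => l3517 h x113t y x250t x58f x56f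
  have x23t : α 23 = true := tt fun y => c693 h x65f y x58f
  have x307t : α 307 = true := tt fun y => c2960 h x212f y x450f
  c692 h x53t x335t x23t x307t

theorem l3534 (h : Good α) (x389t : α 389 = true) (x379t : α 379 = true) (x184f : α 184 = false) (x53t : α 53 = true) : False :=
  have x182f : α 182 = false := ff fun y => c1291 h x389t y x53t
  have x342f : α 342 = false := ff fun y => c3294 h x379t y x389t
  have x266t : α 266 = true := tt fun y => c2741 h y x184f x182f
  have x562t : α 562 = true := tt fun y => c2747 h y x342f x182f
  c3190 h x562t x379t x266t

theorem l3535 (h : Good α) (x114t : α 114 = true) (x94f : α 94 = false) (x233f : α 233 = false) (x57t : α 57 = true) (x201t : α 201 = true) : False :=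
  have x154t := h.u1
  have x158f : α 158 = false := ff fun y => c2379 h x154t x114t y
  have x272f : α 272 = false := ff fun y => c2380 h y x154t x114t
  have x378t : α 378 = true := tt fun y => c2668 h x158f x233f y
  have x22t : α 22 = true := tt fun y => c656 h x272f x94f y
  have x81f : α 81 = false := ff fun y => c1844 h y x201t x378t
  have x184f : α 184 = false := ff fun y => c647 h y x57t x22t
  c1835 h x272f x184f x158f x81f

theorem l3536 (h : Good α) (x63t : α 63 = true) (x239t : α 239 = true) (x94f : α 94 = false) (x54t : α 54 = true) : False :=
  have x107f : α 107 = false := ff fun y => c1607 h x239t y x63t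
  have x24f : α 24 = false := ff fun y => c733 h x63t y x54t
  have x187t : α 187 = true := tt fun y => c2105 h x107f x94f y
  have x18t : α 18 = true := tt fun y => c406 h x107f x24f y
  c431 h x187t x54t x18t

theorem l3537 (h : Good α) (x235f : α 235 = false) (x302f : α 302 = false) (x107f : α 107 = false) (x30t : α 30 = true) (x24t : α 24 = true) (x63f : α 63 = false) (x56f : α 56 = false) : False :=
  have x88t : α 88 = true := tt fun y => c1377 h x235f y x56f
  have x269t : α 269 = true := tt fun y => c1605 h y x235f x107f x63f
  have x100f : α 100 = false := ff fun y => c724 h x88t y x24t x30t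
  have x15f : α 15 = false := ff fun y => c301 h x269t x88t y
  c306 h x302f x100f x15f

theorem l3538 (h : Good α) (x106f : α 106 = false) (x20f : α 20 = false) (x257f : α 257 = false) (x306f : α 306 = false) (x326t : α 326 = true) (x59t : α 59 = true) : False :=
  have x189t : α 189 = true := tt fun y => c564 h x106f x20f x257f y
  have x423t : α 423 = true := tt fun y => c2293 h x306f x106f y x257f
  c1524 h x326t x59t x423t x189t

theorem l3539 (h : Good α) (x20f : α 20 = false) (x458t : α 458 = true) (x257f : α 257 = false) (x48t : α 48 = true) (x107f : α 107 = false) (x184f : α 184 = false) (x272t : α 272 = true) (x249t : α 249 = true) (x92f : α 92 = false) (x326t : α 326 = true) (x59t : α 59 = true) : False :=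
  have x306f : α 306 = false := ff fun y => c3099 h x272t x249t y
  have x28t : α 28 = true := tt fun y => c521 h x92f x20f y
  have x106t : α 106 = true := tt fun y => l3538 h y x20f x257f x306f x326t x59t
  have x173f : α 173 = false := ff fun y => c1157 h y x48t x249t x106t
  have x148t : α 148 = true := tt fun y => c2298 h x173f x107f y
  have x262f : α 262 = false := ff fun y => c2570 h x148t y x458t
  have x342t : α 342 = true := tt fun y => c2064 h y x262f x184f x92f
  have x29f : α 29 = false := ff fun y => c902 h x342t x148t y
  have x286t : α 286 = true := tt fun y => c899 h y x107f x29f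
  have x40t : α 40 = true := tt fun y => c883 h x107f x29f y
  c839 h x286t x40t x272t x28t

theorem l3540 (h : Good α) (x20t : α 20 = true) (x257f : α 257 = false) (x179f : α 179 = false) (x59t : α 59 = true) : False :=
  have x71f : α 71 = false := ff fun y => c537 h y x20t x59t
  have x189f : α 189 = false := ff fun y => c542 h x20t x59t y
  c1716 h x179f x71f x257f x189f

theorem l3541 (h : Good α) (x458f : α 458 = false) (x107f : α 107 = false) (x18f : α 18 = false) (x238f : α 238 = false) (x204t : α 204 = true) : False :=
  have x397t : α 397 = true := tt fun y => c452 h x107f x458f x18f y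
  have x79t : α 79 = true := tt fun y => c1811 h x458f x238f y
  c1808 h x79t x204t x397t

theorem l3542 (h : Good α) (x257f : α 257 = false) (x458t : α 458 = true) (x48t : α 48 = true) (x107f : α 107 = false) (x184f : α 184 = false) (x272t : α 272 = true) (x249t : α 249 = true) (x92f : α 92 = false) (x179f : α 179 = false) (x326t : α 326 = true) (x59t : α 59 = true) : False :=
  have x20f : α 20 = false := ff fun y => l3540 h y x257f x179f x59t
  l3539 h x20f x458t x257f x48t x107f x184f x272t x249t x92f x326t x59t

theorem l3543 (h : Good α) (x107f : α 107 = false) (x272t : α 272 = true) (x387f : α 387 = false) (x249t : α 249 = true) (x92f : α 92 = false) (x30t : α 30 = true) (x18f : α 18 = false) (x183t : α 183 = true) (x326t : α 326 = true) (x239t : α 239 = true) (x237t : α 237 = true) (x54t : α 54 = true) (x57t : α 57 = true) (x1t : α 1 = true) (x59t : α 59 = true) : False :=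
  have x154t := h.u1
  have x149f := h.u2
  have x56f : α 56 = false := ff fun y => c57 h y x1t x59t
  have x53t : α 53 = true := tt fun y => c1260 h x56f y x149f
  have x184f : α 184 = false := ff fun y => c1286 h x272t y x154t x53t
  have x341t : α 341 = true := tt fun y => c2065 h y x184f x92f
  have x306f : α 306 = false := ff fun y => c3099 h x272t x249t y
  have x94f : α 94 = false := ff fun y => c36 h y x57t x54t x1t
  have x63f : α 63 = false := ff fun y => l3536 h y x239t x94f x54t
  have x24t : α 24 = true := tt fun y => l3532 h y x63f x54t
  have x200f : α 200 = false := ff fun y => c68 h y x57t x1t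
  have x196f : α 196 = false := ff fun y => c32 h y x53t x1t
  have x204t : α 204 = true := tt fun y => c2573 h x196f x149f y
  have x352f : α 352 = false := ff fun y => c1349 h x239t y x54t x204t
  have x236t : α 236 = true := tt fun y => c2911 h x200f y x352f
  have x386t : α 386 = true := tt fun y => l3501 h y x236t x200f x56f
  have x179f : α 179 = false := ff fun y => c2715 h x386t x239t y
  have x238f : α 238 = false := ff fun y => c70 h x57t y x1t x204t
  have x324t : α 324 = true := tt fun y => c2574 h y x196f x149f
  have x187t : α 187 = true := tt fun y => c2105 h x107f x94f y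
  have x124t : α 124 = true := tt fun y => c1603 h x107f x63f y
  have x417f : α 417 = false := ff fun y => c1333 h y x324t x187t x54t
  have x302f : α 302 = false := ff fun y => c2483 h x386t y x239t x124t
  have x235t : α 235 = true := tt fun y => l3537 h y x302f x107f x30t x24t x63f x56f
  have x269f : α 269 = false := ff fun y => c3011 h x386t y x235t
  have x48t : α 48 = true := tt fun y => c1159 h x269f x107f y
  have x479t : α 479 = true := tt fun y => c2305 h y x269f x107f
  have x270f : α 270 = false := ff fun y => c3207 h x479t x341t y
  have x185t : α 185 = true := tt fun y => c2783 h x417f x270f y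
  have x253f : α 253 = false := ff fun y => c2774 h x185t x187t y
  have x458t : α 458 = true := tt fun y => l3541 h y x107f x18f x238f x204t
  have x257t : α 257 = true := tt fun y => l3542 h y x458t x48t x107f x184f x272t x249t x92f x179f x326t x59t
  have x189f : α 189 = false := ff fun y => c2749 h x257t x183t y
  have x423f : α 423 = false := ff fun y => c2757 h y x257t x183t
  have x20t : α 20 = true := tt fun y => c575 h x306f y x423f x189f
  have x71f : α 71 = false := ff fun y => c537 h y x20t x59t
  have x188f : α 188 = false := ff fun y => c534 h y x57t x20t
  have x451t : α 451 = true := tt fun y => c1718 h x179f x71f y x387f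
  have x106t : α 106 = true := tt fun y => c2100 h x188f x94f y
  have x146f : α 146 = false := ff fun y => c2554 h y x257t x451t
  have x173f : α 173 = false := ff fun y => c1157 h y x48t x249t x106t
  have x98t : α 98 = true := tt fun y => c2210 h x253f x146f y
  have x74t : α 74 = true := tt fun y => c437 h x173f x107f y x18f
  c1750 h x74t x98t x237t x257t

theorem l3544 (h : Good α) (x257t : α 257 = true) (x117t : α 117 = true) (x306f : α 306 = false) (x24t : α 24 = true) (x183t : α 183 = true) (x113f : α 113 = false) (x94f : α 94 = false) (x54t : α 54 = true) (x1t : α 1 = true) (x59t : α 59 = true) : False :=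
  have x154t := h.u1
  have x150t := h.u3
  have x191f : α 191 = false := ff fun y => c737 h x24t x54t y
  have x120f : α 120 = false := ff fun y => c735 h y x24t x154t x54t
  have x108f : α 108 = false := ff fun y => c734 h x24t y x54t x150t
  have x202f : α 202 = false := ff fun y => c90 h x1t x59t y
  have x189f : α 189 = false := ff fun y => c2749 h x257t x183t y
  have x423f : α 423 = false := ff fun y => c2757 h y x257t x183t
  have x20t : α 20 = true := tt fun y => c575 h x306f y x423f x189f
  have x22f : α 22 = false := ff fun y => c515 h y x20t x117t
  have x157f : α 157 = false := ff fun y => c540 h x20t x117t x59t y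
  have x28t : α 28 = true := tt fun y => c620 h x94f x22f y
  have x314t : α 314 = true := tt fun y => c2653 h x157f x202f y
  have x340f : α 340 = false := ff fun y => c874 h x28t x150t y
  have x291f : α 291 = false := ff fun y => c739 h x24t y x54t x314t
  have x275f : α 275 = false := ff fun y => l3476 h y x314t x113f x189f x340f x1t x59t
  have x413t : α 413 = true := tt fun y => c2459 h x120f x291f x275f y
  have x260t : α 260 = true := tt fun y => c2312 h x120f x108f x275f y
  have x181t : α 181 = true := tt fun y => c2729 h x275f x191f y
  c2733 h x181t x260t x413t

theorem l3545 (h : Good α) (x275f : α 275 = false) (x378t : α 378 = true) (x22f : α 22 = false) (x267t : α 267 = true) (x28t : α 28 = true) (x272t : α 272 = true) (x242t : α 242 = true) (x36t : α 36 = true) (x259t : α 259 = true) (x191f : α 191 = false) (x120f : α 120 = false) (x108f : α 108 = false) (x63f : α 63 = false) (x114f : α 114 = false) (x94f : α 94 = false) (x201t : α 201 = true) : False :=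
  have x150t := h.u3
  have x154t := h.u1
  have x102f : α 102 = false := ff fun y => c2241 h y x150t x267t
  have x346f : α 346 = false := ff fun y => c1042 h y x154t x36t
  have x260t : α 260 = true := tt fun y => c2312 h x120f x108f x275f y
  have x477t : α 477 = true := tt fun y => c2395 h y x275f x114f
  have x175t : α 175 = true := tt fun y => c1613 h y x63f x275f x191f
  have x285t : α 285 = true := tt fun y => c3226 h x346f x275f y
  have x454f : α 454 = false := ff fun y => c2594 h x150t x260t y
  have x278f : α 278 = false := ff fun y => c880 h x272t x28t x477t y
  have x167f : α 167 = false := ff fun y => c2585 h x175t y x154t x150t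
  have x478f : α 478 = false := ff fun y => c1045 h x36t x267t x285t y
  have x381t : α 381 = true := tt fun y => c1611 h x63f x167f y x454f
  have x512t : α 512 = true := tt fun y => c2250 h x102f x278f y
  have x576t : α 576 = true := tt fun y => c3384 h x454f x478f y
  have x551f : α 551 = false := ff fun y => c3159 h y x381t x259t
  have x125f : α 125 = false := ff fun y => c2487 h y x242t x512t x576t
  have x496t : α 496 = true := tt fun y => c658 h x94f x22f x551f y
  have x316t : α 316 = true := tt fun y => c2488 h x551f y x125f
  c2926 h x316t x201t x496t x378t

theorem l3546 (h : Good α) (x260f : α 260 = false) (x189f : α 189 = false) (x340f : α 340 = false) (x336t : α 336 = true) (x191f : α 191 = false) : False :=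
  have x181t : α 181 = true := tt fun y => c2727 h x191f y x260f
  have x87t : α 87 = true := tt fun y => c1920 h y x189f x260f x340f
  c1919 h x336t x181t x87t

theorem l3547 (h : Good α) (x189f : α 189 = false) (x186f : α 186 = false) (x267t : α 267 = true) (x28t : α 28 = true) (x336t : α 336 = true) (x269f : α 269 = false) (x107t : α 107 = true) (x184f : α 184 = false) (x272t : α 272 = true) (x242t : α 242 = true) (x92f : α 92 = false) (x36t : α 36 = true) (x30t : α 30 = true) (x259t : α 259 = true) (x338t : α 338 = true) (x191f : α 191 = false) (x120f : α 120 = false) (x24t : α 24 = true) (x63f : α 63 = false) (x114f : α 114 = false) (x113f : α 113 = false) (x58f : α 58 = false) (x1t : α 1 = true) : False :=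
  have x149f := h.u2
  have x150t := h.u3
  have x154t := h.u1
  have x102f : α 102 = false := ff fun y => c2241 h y x150t x267t
  have x464f : α 464 = false := ff fun y => c2595 h x150t x267t y
  have x340f : α 340 = false := ff fun y => c874 h x28t x150t y
  have x346f : α 346 = false := ff fun y => c1042 h y x154t x36t
  have x4f : α 4 = false := ff fun y => c131 h x154t x36t y
  have x264t : α 264 = true := tt fun y => c2364 h y x149f x113f
  have x60t : α 60 = true := tt fun y => c1455 h y x186f x58f x189f
  have x203f : α 203 = false := ff fun y => c95 h x1t x60t y
  have x55f : α 55 = false := ff fun y => c52 h y x1t x60t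
  have x260t : α 260 = true := tt fun y => l3546 h y x189f x340f x336t x191f
  have x454f : α 454 = false := ff fun y => c2594 h x150t x260t y
  have x275f : α 275 = false := ff fun y => c2586 h x154t x150t y x260t
  have x477t : α 477 = true := tt fun y => c2395 h y x275f x114f
  have x175t : α 175 = true := tt fun y => c1613 h y x63f x275f x191f
  have x285t : α 285 = true := tt fun y => c3226 h x346f x275f y
  have x286f : α 286 = false := ff fun y => c2307 h y x107t x477t x338t
  have x278f : α 278 = false := ff fun y => c880 h x272t x28t x477t y
  have x167f : α 167 = false := ff fun y => c2585 h x175t y x154t x150t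
  have x41f : α 41 = false := ff fun y => c910 h y x30t x285t x259t
  have x478f : α 478 = false := ff fun y => c1045 h x36t x267t x285t y
  have x88t : α 88 = true := tt fun y => c1928 h x286f x269f x120f y
  have x99t : α 99 = true := tt fun y => c2218 h y x189f x278f x340f
  have x512t : α 512 = true := tt fun y => c2250 h x102f x278f y
  have x39t : α 39 = true := tt fun y => c1082 h y x113f x278f x340f
  have x282t : α 282 = true := tt fun y => c2690 h x167f y x464f
  have x576t : α 576 = true := tt fun y => c3384 h x454f x478f y
  have x100f : α 100 = false := ff fun y => c724 h x88t y x24t x30t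
  have x125f : α 125 = false := ff fun y => c2487 h y x242t x512t x576t
  have x31f : α 31 = false := ff fun y => c932 h x39t y x99t
  have x476f : α 476 = false := ff fun y => c878 h x264t y x28t x282t
  have x72t : α 72 = true := tt fun y => c132 h x41f x100f x4f y
  have x218t : α 218 = true := tt fun y => c2063 h x184f x92f y x125f
  have x110t : α 110 = true := tt fun y => c940 h x184f x92f y x31f
  have x474t : α 474 = true := tt fun y => c135 h x41f x476f x4f y
  have x96f : α 96 = false := ff fun y => c2162 h y x110t x218t
  have x252f : α 252 = false := ff fun y => c1734 h x72t y x474t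
  c1361 h x96f x252f x55f x203f

theorem l3548 (h : Good α) (x275f : α 275 = false) (x423f : α 423 = false) (x336t : α 336 = true) (x191f : α 191 = false) (x114f : α 114 = false) : False :=
  have x181t : α 181 = true := tt fun y => c2729 h x275f x191f y
  have x555t : α 555 = true := tt fun y => c2394 h x275f x114f y x423f
  c2737 h x555t x336t x181t

theorem l3549 (h : Good α) (x92f : α 92 = false) (x250t : α 250 = true) (x543t : α 543 = true) (x1t : α 1 = true) (x61f : α 61 = false) : False :=
  have x150t := h.u3
  have x154t := h.u1
  have x149f := h.u2
  have x201t : α 201 = true := tt fun y => l3523 h y x543t x1t x61f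
  have x57t : α 57 = true := tt fun y => l3527 h y x543t x1t x61f
  have x54t : α 54 = true := tt fun y => l3528 h y x250t x543t x1t x61f
  have x233f : α 233 = false := ff fun y => c46 h x54t x1t y x201t
  have x94f : α 94 = false := ff fun y => c36 h y x57t x54t x1t
  have x114f : α 114 = false := ff fun y => l3535 h y x94f x233f x57t x201t
  have x59t : α 59 = true := tt fun y => c1499 h x149f x61f y
  have x56f : α 56 = false := ff fun y => c57 h y x1t x59t
  have x53t : α 53 = true := tt fun y => c1260 h x56f y x149f
  have x196f : α 196 = false := ff fun y => c32 h y x53t x1t
  have x204t : α 204 = true := tt fun y => c2573 h x196f x149f y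
  have x91f : α 91 = false := ff fun y => c1313 h x54t x204t y x250t
  have x200f : α 200 = false := ff fun y => c68 h y x57t x1t
  have x58f : α 58 = false := ff fun y => l3467 h y x543t x1t x61f
  have x239t : α 239 = true := tt fun y => c1458 h y x200f x91f x58f
  have x63f : α 63 = false := ff fun y => l3536 h y x239t x94f x54t
  have x24t : α 24 = true := tt fun y => l3532 h y x63f x54t
  have x191f : α 191 = false := ff fun y => c737 h x24t x54t y
  have x115t : α 115 = true := tt fun y => c1998 h x191f x91f y
  have x18f : α 18 = false := ff fun y => c409 h x24t y x115t
  have x36t : α 36 = true := tt fun y => c419 h y x18f x114f x91f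
  have x30t : α 30 = true := tt fun y => c413 h y x18f x91f
  have x259t : α 259 = true := tt fun y => c441 h x18f x91f y
  have x338t : α 338 = true := tt fun y => c2010 h y x191f x91f
  have x120f : α 120 = false := ff fun y => c735 h y x24t x154t x54t
  have x108f : α 108 = false := ff fun y => c734 h x24t y x54t x150t
  have x183t : α 183 = true := tt fun y => c1992 h x114f x91f y
  have x97t : α 97 = true := tt fun y => c1456 h x91f x58f y
  have x113f : α 113 = false := ff fun y => l3533 h y x97t x250t x58f x56f
  have x19t : α 19 = true := tt fun y => c474 h x56f x149f y x113f
  have x264t : α 264 = true := tt fun y => c2364 h y x149f x113f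
  have x180t : α 180 = true := tt fun y => c2363 h x149f x113f y
  have x352f : α 352 = false := ff fun y => c1349 h x239t y x54t x204t
  have x236t : α 236 = true := tt fun y => c2911 h x200f y x352f
  have x386t : α 386 = true := tt fun y => l3501 h y x236t x200f x56f
  have x179f : α 179 = false := ff fun y => c2715 h x386t x239t y
  have x402f : α 402 = false := ff fun y => c121 h y x1t x543t x201t
  have x328f : α 328 = false := ff fun y => c1331 h y x154t x54t
  have x327t : α 327 = true := tt fun y => c3263 h x328f y x402f
  have x538f : α 538 = false := ff fun y => c2640 h y x327t x154t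
  have x326t : α 326 = true := tt fun y => c3262 h x538f x402f y
  have x237t : α 237 = true := tt fun y => c1461 h y x91f x58f
  have x197f : α 197 = false := ff fun y => c42 h y x54t x1t
  have x313f : α 313 = false := ff fun y => c1516 h x59t x150t y
  have x242t : α 242 = true := tt fun y => c2040 h x94f x92f x233f y
  have x449t : α 449 = true := tt fun y => c1550 h y x92f x402f x61f
  have x249t : α 249 = true := tt fun y => c1546 h y x92f x197f x61f
  have x387f : α 387 = false := ff fun y => c2718 h x180t x242t y
  have x272t : α 272 = true := tt fun y => l3529 h y x114f x449t x327t x94f x57t x53t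
  have x459f : α 459 = false := ff fun y => c2636 h y x272t x154t
  have x306f : α 306 = false := ff fun y => c3099 h x272t x249t y
  have x184f : α 184 = false := ff fun y => c1286 h x272t y x154t x53t
  have x341t : α 341 = true := tt fun y => c2065 h y x184f x92f
  have x117t : α 117 = true := tt fun y => c2056 h x184f x92f y
  have x107t : α 107 = true := tt fun y => l3543 h y x272t x387f x249t x92f x30t x18f x183t x326t x239t x237t x54t x57t x1t x59t
  have x269f : α 269 = false := ff fun y => c2302 h x386t y x239t x107t
  have x257f : α 257 = false := ff fun y => l3544 h y x117t x306f x24t x183t x113f x94f x54t x1t x59t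
  have x487t : α 487 = true := tt fun y => c2034 h x91f x257f y
  have x336t : α 336 = true := tt fun y => c2009 h x191f x91f y x257f
  have x20f : α 20 = false := ff fun y => l3540 h y x257f x179f x59t
  have x28t : α 28 = true := tt fun y => c521 h x92f x20f y
  have x106t : α 106 = true := tt fun y => l3538 h y x20f x257f x306f x326t x59t
  have x10f : α 10 = false := ff fun y => c181 h y x28t x150t
  have x340f : α 340 = false := ff fun y => c874 h x28t x150t y
  have x267t : α 267 = true := tt fun y => c443 h x18f y x91f x340f
  have x102f : α 102 = false := ff fun y => c2241 h y x150t x267t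
  have x186f : α 186 = false := ff fun y => c1515 h x59t y x150t x267t
  have x189t : α 189 = true := tt fun y => l3547 h y x186f x267t x28t x336t x269f x107t x184f x272t x242t x92f x36t x30t x259t x338t x191f x120f x24t x63f x114f x113f x58f x1t
  have x423f : α 423 = false := ff fun y => c1524 h x326t x59t y x189t
  have x275t : α 275 = true := tt fun y => l3548 h y x423f x336t x191f x114f
  have x260f : α 260 = false := ff fun y => c2586 h x154t x150t x275t y
  have x181t : α 181 = true := tt fun y => c2727 h x191f y x260f
  have x167t : α 167 = true := tt fun y => c1609 h x63f y x191f x260f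
  have x478t : α 478 = true := tt fun y => c2246 h x102f x260f y
  have x44t : α 44 = true := tt fun y => c1127 h y x102f x260f
  have x278t : α 278 = true := tt fun y => c3161 h y x260f x340f
  have x87f : α 87 = false := ff fun y => c1919 h x336t x181t y
  have x175f : α 175 = false := ff fun y => c2585 h y x167t x154t x150t
  have x282f : α 282 = false := ff fun y => c928 h x30t y x259t x478t
  have x280f : α 280 = false := ff fun y => c846 h y x264t x44t x28t
  have x40f : α 40 = false := ff fun y => c1098 h x107t y x338t x278t
  have x488t : α 488 = true := tt fun y => c1923 h x87f x260f y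
  have x25t : α 25 = true := tt fun y => c781 h y x87f x260f
  have x286t : α 286 = true := tt fun y => c2707 h x459f y x175f
  have x510t : α 510 = true := tt fun y => c2321 h x108f x282f y
  have x376f : α 376 = false := ff fun y => c3273 h x336t y x488t
  have x31f : α 31 = false := ff fun y => c767 h y x25t x97t
  have x550f : α 550 = false := ff fun y => c787 h x25t x97t x488t y
  have x549t : α 549 = true := tt fun y => c3165 h y x376f x260f
  have x21t : α 21 = true := tt fun y => c587 h x92f y x31f
  have x123t : α 123 = true := tt fun y => c2479 h y x313f x550f
  have x86f : α 86 = false := ff fun y => c491 h y x19t x549t x487t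
  have x116f : α 116 = false := ff fun y => c583 h y x21t x25t
  have x88t : α 88 = true := tt fun y => c1371 h y x56f x86f
  have x192t : α 192 = true := tt fun y => c2051 h x116f x92f y
  have x34t : α 34 = true := tt fun y => c527 h x116f x92f y x20f
  have x261f : α 261 = false := ff fun y => c743 h y x88t x24t
  have x491f : α 491 = false := ff fun y => c982 h x34t y x44t x510t
  have x556t : α 556 = true := tt fun y => c557 h x92f y x20f x491f
  have x343f : α 343 = false := ff fun y => c2858 h x192t y x556t
  have x476t : α 476 = true := tt fun y => c2416 h x280f y x116f x343f
  have x337f : α 337 = false := ff fun y => c3179 h x264t y x476t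
  have x357f : α 357 = false := ff fun y => c2477 h x264t x476t x123t y
  have x575t : α 575 = true := tt fun y => c2584 h y x337f x149f
  have x38t : α 38 = true := tt fun y => c1075 h y x357f x257f x550f
  have x474f : α 474 = false := ff fun y => c3402 h x575t x476t y
  have x279f : α 279 = false := ff fun y => c1071 h x341t y x106t x38t
  have x256t : α 256 = true := tt fun y => c2579 h x149f y x474f
  have x356t : α 356 = true := tt fun y => c3168 h x261f x279f y
  have x482f : α 482 = false := ff fun y => c1044 h x286t y x36t x256t
  have x11f : α 11 = false := ff fun y => c216 h x356t x556t y x242t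
  have x452t : α 452 = true := tt fun y => c186 h y x482f x10f x40f
  have x70t : α 70 = true := tt fun y => c209 h x11f y x233f
  c1692 h x386t x452t x70t x180t

theorem l3550 (h : Good α) (x257f : α 257 = false) (x381t : α 381 = true) (x41t : α 41 = true) (x260f : α 260 = false) (x242f : α 242 = false) (x92t : α 92 = true) (x191f : α 191 = false) (x108f : α 108 = false) (x24t : α 24 = true) (x114f : α 114 = false) (x19t : α 19 = true) (x264t : α 264 = true) (x180t : α 180 = true) (x97t : α 97 = true) (x91f : α 91 = false) (x56f : α 56 = false) (x59t : α 59 = true) : False :=
  have x150t := h.u3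
  have x115t : α 115 = true := tt fun y => c1998 h x191f x91f y
  have x18f : α 18 = false := ff fun y => c409 h x24t y x115t
  have x259t : α 259 = true := tt fun y => c441 h x18f x91f y
  have x30t : α 30 = true := tt fun y => c413 h y x18f x91f
  have x285f : α 285 = false := ff fun y => c910 h x41t x30t y x259t
  have x181t : α 181 = true := tt fun y => c2727 h x191f y x260f
  have x36t : α 36 = true := tt fun y => c419 h y x18f x114f x91f
  have x487t : α 487 = true := tt fun y => c2034 h x91f x257f y
  have x336t : α 336 = true := tt fun y => c2009 h x191f x91f y x257f
  have x87f : α 87 = false := ff fun y => c1919 h x336t x181t y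
  have x488t : α 488 = true := tt fun y => c1923 h x87f x260f y
  have x25t : α 25 = true := tt fun y => c781 h y x87f x260f
  have x376f : α 376 = false := ff fun y => c3273 h x336t y x488t
  have x550f : α 550 = false := ff fun y => c787 h x25t x97t x488t y
  have x549t : α 549 = true := tt fun y => c3165 h y x376f x260f
  have x380t : α 380 = true := tt fun y => c3143 h x257f y x550f
  have x86f : α 86 = false := ff fun y => c491 h y x19t x549t x487t
  have x340f : α 340 = false := ff fun y => c3287 h x487t x380t y
  have x88t : α 88 = true := tt fun y => c1371 h y x56f x86f
  have x240t : α 240 = true := tt fun y => c1374 h x56f x86f y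
  have x267t : α 267 = true := tt fun y => c443 h x18f y x91f x340f
  have x189t : α 189 = true := tt fun y => l3546 h x260f y x340f x336t x191f
  have x478t : α 478 = true := tt fun y => c2397 h x114f x340f x285f y
  have x103f : α 103 = false := ff fun y => c2256 h x240t y x381t x259t
  have x102f : α 102 = false := ff fun y => c2241 h y x150t x267t
  have x282f : α 282 = false := ff fun y => c1016 h x41t y x36t x267t
  have x387f : α 387 = false := ff fun y => c1527 h x59t x189t y
  have x44t : α 44 = true := tt fun y => c1127 h y x102f x260f
  have x28t : α 28 = true := tt fun y => c870 h y x108f x282f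
  have x576t : α 576 = true := tt fun y => c3084 h x242f x387f y
  have x116f : α 116 = false := ff fun y => c842 h y x92t x44t x28t
  have x280f : α 280 = false := ff fun y => c846 h y x264t x44t x28t
  have x49f : α 49 = false := ff fun y => c1175 h y x180t x478t x576t
  have x34t : α 34 = true := tt fun y => c993 h x280f x116f y
  have x344t : α 344 = true := tt fun y => c1165 h y x280f x103f x49f
  have x155f : α 155 = false := ff fun y => c996 h x344t y x34t
  have x271f : α 271 = false := ff fun y => c744 h x344t x88t y x24t
  c2411 h x271f x155f x116f

theorem l3551 (h : Good α) (x275t : α 275 = true) (x106t : α 106 = true) (x242f : α 242 = false) (x92t : α 92 = true) (x191f : α 191 = false) (x108f : α 108 = false) (x24t : α 24 = true) (x63f : α 63 = false) (x114f : α 114 = false) (x113f : α 113 = false) (x326t : α 326 = true) (x97t : α 97 = true) (x94f : α 94 = false) (x91f : α 91 = false) (x1t : α 1 = true) (x59t : α 59 = true) : False :=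
  have x149f := h.u2
  have x154t := h.u1
  have x150t := h.u3
  have x264t : α 264 = true := tt fun y => c2364 h y x149f x113f
  have x20f : α 20 = false := ff fun y => c556 h x264t x92t y
  have x115t : α 115 = true := tt fun y => c1998 h x191f x91f y
  have x18f : α 18 = false := ff fun y => c409 h x24t y x115t
  have x36t : α 36 = true := tt fun y => c419 h y x18f x114f x91f
  have x4f : α 4 = false := ff fun y => c131 h x154t x36t y
  have x183t : α 183 = true := tt fun y => c1992 h x114f x91f y
  have x56f : α 56 = false := ff fun y => c57 h y x1t x59t
  have x19t : α 19 = true := tt fun y => c474 h x56f x149f y x113f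
  have x180t : α 180 = true := tt fun y => c2363 h x149f x113f y
  have x202f : α 202 = false := ff fun y => c90 h x1t x59t y
  have x467f : α 467 = false := ff fun y => c2639 h x154t x275t y
  have x260f : α 260 = false := ff fun y => c2586 h x154t x150t x275t y
  have x167t : α 167 = true := tt fun y => c1609 h x63f y x191f x260f
  have x175f : α 175 = false := ff fun y => c2585 h y x167t x154t x150t
  have x41t : α 41 = true := tt fun y => c133 h x175f y x4f
  have x381t : α 381 = true := tt fun y => c1615 h x175f x63f x467f y
  have x257t : α 257 = true := tt fun y => l3550 h y x381t x41t x260f x242f x92t x191f x108f x24t x114f x19t x264t x180t x97t x91f x56f x59t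
  have x189f : α 189 = false := ff fun y => c2749 h x257t x183t y
  have x423f : α 423 = false := ff fun y => c2757 h y x257t x183t
  have x22f : α 22 = false := ff fun y => c660 h x106t y x257t x183t
  have x306t : α 306 = true := tt fun y => c575 h y x20f x423f x189f
  have x28t : α 28 = true := tt fun y => c620 h x94f x22f y
  have x117t : α 117 = true := tt fun y => c514 h x22f x20f y
  have x340f : α 340 = false := ff fun y => c874 h x28t x150t y
  have x157f : α 157 = false := ff fun y => c2425 h x306t x117t x326t y
  have x314f : α 314 = false := ff fun y => l3476 h x275t y x113f x189f x340f x1t x59t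
  c2653 h x157f x202f x314f

theorem l3552 (h : Good α) (x257t : α 257 = true) (x273f : α 273 = false) (x334f : α 334 = false) (x106t : α 106 = true) (x183t : α 183 = true) (x52f : α 52 = false) : False :=
  have x189f : α 189 = false := ff fun y => c2749 h x257t x183t y
  have x22f : α 22 = false := ff fun y => c660 h x106t y x257t x183t
  have x430t : α 430 = true := tt fun y => c2824 h x189f x273f y
  have x299t : α 299 = true := tt fun y => c639 h x22f y x52f x334f
  c2292 h x106t x299t x257t x430t

theorem l3553 (h : Good α) (x250t : α 250 = true) (x543t : α 543 = true) (x1t : α 1 = true) (x61f : α 61 = false) : False :=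
  have x154t := h.u1
  have x150t := h.u3
  have x149f := h.u2
  have x57t : α 57 = true := tt fun y => l3527 h y x543t x1t x61f
  have x200f : α 200 = false := ff fun y => c68 h y x57t x1t
  have x201t : α 201 = true := tt fun y => l3523 h y x543t x1t x61f
  have x402f : α 402 = false := ff fun y => c121 h y x1t x543t x201t
  have x58f : α 58 = false := ff fun y => l3467 h y x543t x1t x61f
  have x59t : α 59 = true := tt fun y => c1499 h x149f x61f y
  have x56f : α 56 = false := ff fun y => c57 h y x1t x59t
  have x53t : α 53 = true := tt fun y => c1260 h x56f y x149f
  have x196f : α 196 = false := ff fun y => c32 h y x53t x1t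
  have x204t : α 204 = true := tt fun y => c2573 h x196f x149f y
  have x52f : α 52 = false := ff fun y => c21 h x53t x1t y
  have x202f : α 202 = false := ff fun y => c90 h x1t x59t y
  have x313f : α 313 = false := ff fun y => c1516 h x59t x150t y
  have x54t : α 54 = true := tt fun y => l3528 h y x250t x543t x1t x61f
  have x328f : α 328 = false := ff fun y => c1331 h y x154t x54t
  have x197f : α 197 = false := ff fun y => c42 h y x54t x1t
  have x233f : α 233 = false := ff fun y => c46 h x54t x1t y x201t
  have x91f : α 91 = false := ff fun y => c1313 h x54t x204t y x250t
  have x94f : α 94 = false := ff fun y => c36 h y x57t x54t x1t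
  have x327t : α 327 = true := tt fun y => c3263 h x328f y x402f
  have x97t : α 97 = true := tt fun y => c1456 h x91f x58f y
  have x237t : α 237 = true := tt fun y => c1461 h y x91f x58f
  have x239t : α 239 = true := tt fun y => c1458 h y x200f x91f x58f
  have x538f : α 538 = false := ff fun y => c2640 h y x327t x154t
  have x326t : α 326 = true := tt fun y => c3262 h x538f x402f y
  have x113f : α 113 = false := ff fun y => l3533 h y x97t x250t x58f x56f
  have x264t : α 264 = true := tt fun y => c2364 h y x149f x113f
  have x114f : α 114 = false := ff fun y => l3535 h y x94f x233f x57t x201t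
  have x183t : α 183 = true := tt fun y => c1992 h x114f x91f y
  have x63f : α 63 = false := ff fun y => l3536 h y x239t x94f x54t
  have x24t : α 24 = true := tt fun y => l3532 h y x63f x54t
  have x108f : α 108 = false := ff fun y => c734 h x24t y x54t x150t
  have x120f : α 120 = false := ff fun y => c735 h y x24t x154t x54t
  have x191f : α 191 = false := ff fun y => c737 h x24t x54t y
  have x115t : α 115 = true := tt fun y => c1998 h x191f x91f y
  have x18f : α 18 = false := ff fun y => c409 h x24t y x115t
  have x36t : α 36 = true := tt fun y => c419 h y x18f x114f x91f
  have x213f : α 213 = false := ff fun y => c1041 h x154t x36t x326t y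
  have x346f : α 346 = false := ff fun y => c1042 h y x154t x36t
  have x92t : α 92 = true := tt fun y => l3549 h y x250t x543t x1t x61f
  have x20f : α 20 = false := ff fun y => c556 h x264t x92t y
  have x242f : α 242 = false := ff fun y => c1414 h x57t x92t x201t y
  have x249f : α 249 = false := ff fun y => c2047 h y x92t x237t x97t
  have x449t : α 449 = true := tt fun y => c2891 h y x249f x402f x197f
  have x272t : α 272 = true := tt fun y => l3529 h y x114f x449t x327t x94f x57t x53t
  have x429f : α 429 = false := ff fun y => c2634 h y x272t x327t x154t
  have x106t : α 106 = true := tt fun y => c2287 h x429f x249f y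
  have x275f : α 275 = false := ff fun y => l3551 h y x106t x242f x92t x191f x108f x24t x63f x114f x113f x326t x97t x94f x91f x1t x59t
  have x260t : α 260 = true := tt fun y => c2312 h x120f x108f x275f y
  have x181t : α 181 = true := tt fun y => c2729 h x275f x191f y
  have x340f : α 340 = false := ff fun y => l3503 h x260t y
  have x413f : α 413 = false := ff fun y => c2733 h x181t x260t y
  have x267t : α 267 = true := tt fun y => c443 h x18f y x91f x340f
  have x291t : α 291 = true := tt fun y => c2459 h x120f y x275f x413f
  have x186f : α 186 = false := ff fun y => c1515 h x59t y x150t x267t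
  have x314f : α 314 = false := ff fun y => c739 h x24t x291t x54t y
  have x157t : α 157 = true := tt fun y => c2653 h y x202f x314f
  have x400t : α 400 = true := tt fun y => c3254 h y x313f x314f
  have x334f : α 334 = false := ff fun y => c1519 h x59t x157t y
  have x335f : α 335 = false := ff fun y => c2655 h y x204t x157t
  have x307t : α 307 = true := tt fun y => c2366 h x149f x335f x113f y
  have x273f : α 273 = false := ff fun y => c3110 h x307t x250t y
  have x257f : α 257 = false := ff fun y => l3552 h y x273f x334f x106t x183t x52f
  have x336t : α 336 = true := tt fun y => c2009 h x191f x91f y x257f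
  have x555f : α 555 = false := ff fun y => c2737 h y x336t x181t
  have x87f : α 87 = false := ff fun y => c1919 h x336t x181t y
  have x423t : α 423 = true := tt fun y => l3548 h x275f y x336t x191f x114f
  have x390t : α 390 = true := tt fun y => c3232 h x275f y x555f
  have x189f : α 189 = false := ff fun y => c1524 h x326t x59t x423t y
  have x504f : α 504 = false := ff fun y => c3274 h y x390t x336t
  have x60t : α 60 = true := tt fun y => c1455 h y x186f x58f x189f
  have x117t : α 117 = true := tt fun y => c568 h x20f y x189f x273f
  have x27t : α 27 = true := tt fun y => c826 h y x113f x87f x189f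
  have x86t : α 86 = true := tt fun y => c1910 h x504f x275f y
  have x435f : α 435 = false := ff fun y => c96 h x1t x60t x400t y
  have x146f : α 146 = false := ff fun y => c2275 h x106t x117t y x157t
  have x17f : α 17 = false := ff fun y => c374 h x86t y x27t
  have x289t : α 289 = true := tt fun y => c2965 h x213f y x435f
  have x195t : α 195 = true := tt fun y => c2546 h x197f x146f y
  have x96t : α 96 = true := tt fun y => c398 h x346f y x275f x17f
  have x230f : α 230 = false := ff fun y => c2984 h x289t y x267t
  have x229f : α 229 = false := ff fun y => c1274 h x96t x53t y x195t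
  have x434f : α 434 = false := ff fun y => c1278 h x96t x53t y x400t
  c2980 h x229f x230f x434f x435f

theorem l3554 (h : Good α) (x91f : α 91 = false) (x250f : α 250 = false) (x238f : α 238 = false) (x57t : α 57 = true) (x354f : α 354 = false) (x201t : α 201 = true) : False :=
  have x94t : α 94 = true := tt fun y => c1982 h y x238f x91f x250f
  have x233t : α 233 = true := tt fun y => c2014 h x91f x250f y x354f
  c1421 h x94t x57t x233t x201t

theorem l3555 (h : Good α) (x94t : α 94 = true) (x91t : α 91 = true) (x352t : α 352 = true) (x97t : α 97 = true) (x200f : α 200 = false) (x57t : α 57 = true) (x402f : α 402 = false) (x204t : α 204 = true) (x61f : α 61 = false) : False :=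
  have x54f : α 54 = false := ff fun y => c1310 h x94t y x91t
  have x92f : α 92 = false := ff fun y => c1410 h x94t x57t y
  have x197t : α 197 = true := tt fun y => c1342 h x402f y x54f
  have x236t : α 236 = true := tt fun y => c1548 h y x92f x61f
  have x353f : α 353 = false := ff fun y => c2884 h y x352t x197t x204t
  have x239f : α 239 = false := ff fun y => c1989 h y x236t x91t x97t
  c2913 h x353f x239f x200f

theorem l3556 (h : Good α) (x54f : α 54 = false) (x543t : α 543 = true) (x1t : α 1 = true) (x61f : α 61 = false) : False :=
  have x149f := h.u2
  have x59t : α 59 = true := tt fun y => c1499 h x149f x61f y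
  have x56f : α 56 = false := ff fun y => c57 h y x1t x59t
  have x53t : α 53 = true := tt fun y => c1260 h x56f y x149f
  have x196f : α 196 = false := ff fun y => c32 h y x53t x1t
  have x204t : α 204 = true := tt fun y => c2573 h x196f x149f y
  have x201t : α 201 = true := tt fun y => l3523 h y x543t x1t x61f
  have x402f : α 402 = false := ff fun y => c121 h y x1t x543t x201t
  have x57t : α 57 = true := tt fun y => l3527 h y x543t x1t x61f
  have x200f : α 200 = false := ff fun y => c68 h y x57t x1t
  have x58f : α 58 = false := ff fun y => l3467 h y x543t x1t x61f
  have x250f : α 250 = false := ff fun y => l3553 h y x543t x1t x61f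
  have x97t : α 97 = true := tt fun y => c1468 h x58f y x250f
  have x352t : α 352 = true := tt fun y => c1488 h x200f y x58f x250f
  have x354f : α 354 = false := ff fun y => c120 h x1t x204t x201t y
  have x238f : α 238 = false := ff fun y => c70 h x57t y x1t x204t
  have x91t : α 91 = true := tt fun y => l3554 h y x250f x238f x57t x354f x201t
  have x94f : α 94 = false := ff fun y => l3555 h y x91t x352t x97t x200f x57t x402f x204t x61f
  have x197t : α 197 = true := tt fun y => c1342 h x402f y x54f
  have x239t : α 239 = true := tt fun y => c1322 h y x94f x54f
  have x249f : α 249 = false := ff fun y => c66 h y x57t x197t x1t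
  have x351f : α 351 = false := ff fun y => c112 h x197t x1t y x201t
  have x236f : α 236 = false := ff fun y => c1989 h x239t y x91t x97t
  have x233t : α 233 = true := tt fun y => c2121 h x249f x94f x351f y
  have x547t : α 547 = true := tt fun y => c1581 h y x236f x402f x61f
  c2994 h x547t x239t x543t x233t

theorem l3557 (h : Good α) (x113f : α 113 = false) (x407t : α 407 = true) (x181t : α 181 = true) (x175t : α 175 = true) (x275f : α 275 = false) (x63f : α 63 = false) (x273f : α 273 = false) (x334f : α 334 = false) (x157t : α 157 = true) (x33f : α 33 = false) (x183t : α 183 = true) (x19t : α 19 = true) (x189f : α 189 = false) (x92t : α 92 = true) (x237t : α 237 = true) (x386t : α 386 = true) (x239f : α 239 = false) (x250f : α 250 = false) (x200f : α 200 = false) (x53t : α 53 = true) (x1t : α 1 = true) : False :=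
  have x154t := h.u1
  have x150t := h.u3
  have x149f := h.u2
  have x167f : α 167 = false := ff fun y => c2585 h x175t y x154t x150t
  have x68t : α 68 = true := tt fun y => c1595 h x63f y x167f
  have x80t : α 80 = true := tt fun y => l3417 h y x239f x200f x53t
  have x196f : α 196 = false := ff fun y => c32 h y x53t x1t
  have x264t : α 264 = true := tt fun y => c2364 h y x149f x113f
  have x65t : α 65 = true := tt fun y => c1637 h y x113f x250f
  have x20f : α 20 = false := ff fun y => c556 h x264t x92t y
  have x67f : α 67 = false := ff fun y => c1635 h y x65t x181t x183t
  have x117t : α 117 = true := tt fun y => c568 h x20f y x189f x273f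
  have x27t : α 27 = true := tt fun y => c822 h x196f x149f x67f y
  have x224t : α 224 = true := tt fun y => c1654 h x196f x334f x67f y
  have x161f : α 161 = false := ff fun y => c2420 h y x117t x157t
  have x83f : α 83 = false := ff fun y => c824 h x27t y x224t
  have x71t : α 71 = true := tt fun y => c1713 h y x161f x189f x273f
  have x121t : α 121 = true := tt fun y => c1859 h x83f x250f y x273f
  have x179f : α 179 = false := ff fun y => c1702 h y x80t x71t
  have x17f : α 17 = false := ff fun y => c386 h x53t x157t y x121t
  have x87f : α 87 = false := ff fun y => c1914 h x181t y x121t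
  have x6t : α 6 = true := tt fun y => c157 h x239f x63f x179f y
  have x86t : α 86 = true := tt fun y => c392 h x275f y x17f
  have x50t : α 50 = true := tt fun y => c381 h x67f x17f y
  have x241f : α 241 = false := ff fun y => c159 h x6t x68t y
  have x243f : α 243 = false := ff fun y => c1188 h y x86t x50t
  have x437f : α 437 = false := ff fun y => c10 h x1t x407t x50t y
  have x295t : α 295 = true := tt fun y => c3086 h y x243f x275f
  have x390t : α 390 = true := tt fun y => c3088 h x243f x275f y
  have x536t : α 536 = true := tt fun y => c1922 h x241f y x87f x437f
  have x129f : α 129 = false := ff fun y => c2502 h x295t y x390t x237t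
  have x194f : α 194 = false := ff fun y => c108 h y x536t x1t x407t
  have x23t : α 23 = true := tt fun y => c683 h x129f x33f y
  have x235t : α 235 = true := tt fun y => c2863 h y x194f x241f
  have x379f : α 379 = false := ff fun y => c463 h x386t y x19t x23t
  have x389f : α 389 = false := ff fun y => c2706 h x175t x235t y
  c2862 h x379f x389f x200f x194f

theorem l3558 (h : Good α) (x113t : α 113 = true) (x307t : α 307 = true) (x335f : α 335 = false) (x19t : α 19 = true) (x386t : α 386 = true) (x56f : α 56 = false) : False :=
  have x149f := h.u2
  have x452f : α 452 = false := ff fun y => c503 h x386t y x19t x113t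
  have x264t : α 264 = true := tt fun y => c2582 h x452f y x149f
  have x188f : α 188 = false := ff fun y => c502 h y x264t x19t x113t
  have x424f : α 424 = false := ff fun y => c2375 h x264t y x113t x307t
  c1392 h x188f x424f x56f x335f

theorem l3559 (h : Good α) (x63f : α 63 = false) (x120f : α 120 = false) (x275f : α 275 = false) (x273f : α 273 = false) (x113f : α 113 = false) (x540f : α 540 = false) (x334f : α 334 = false) (x157t : α 157 = true) (x33f : α 33 = false) (x183t : α 183 = true) (x19t : α 19 = true) (x189f : α 189 = false) (x92t : α 92 = true) (x237t : α 237 = true) (x386t : α 386 = true) (x239f : α 239 = false) (x54t : α 54 = true) (x250f : α 250 = false) (x200f : α 200 = false) (x53t : α 53 = true) (x1t : α 1 = true) : False :=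
  have x150t := h.u3
  have x24t : α 24 = true := tt fun y => l3532 h y x63f x54t
  have x108f : α 108 = false := ff fun y => c734 h x24t y x54t x150t
  have x191f : α 191 = false := ff fun y => c737 h x24t x54t y
  have x260t : α 260 = true := tt fun y => c2312 h x120f x108f x275f y
  have x175t : α 175 = true := tt fun y => c1613 h y x63f x275f x191f
  have x181t : α 181 = true := tt fun y => c2729 h x275f x191f y
  have x413f : α 413 = false := ff fun y => c2733 h x181t x260t y
  have x407f : α 407 = false := ff fun y => l3557 h x113f y x181t x175t x275f x63f x273f x334f x157t x33f x183t x19t x189f x92t x237t x386t x239f x250f x200f x53t x1t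
  have x291t : α 291 = true := tt fun y => c2459 h x120f y x275f x413f
  have x314t : α 314 = true := tt fun y => c3257 h y x407f x540f
  c739 h x24t x291t x54t x314t

theorem l3560 (h : Good α) (x275f : α 275 = false) (x273f : α 273 = false) (x113f : α 113 = false) (x540f : α 540 = false) (x334f : α 334 = false) (x157t : α 157 = true) (x183t : α 183 = true) (x19t : α 19 = true) (x189f : α 189 = false) (x92t : α 92 = true) (x272t : α 272 = true) (x237t : α 237 = true) (x386t : α 386 = true) (x114f : α 114 = false) (x239f : α 239 = false) (x54t : α 54 = true) (x94f : α 94 = false) (x91t : α 91 = true) (x250f : α 250 = false) (x200f : α 200 = false) (x53t : α 53 = true) (x1t : α 1 = true) : False :=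
  have x33f : α 33 = false := ff fun y => c465 h y x19t x91t
  have x477t : α 477 = true := tt fun y => c2395 h y x275f x114f
  have x346f : α 346 = false := ff fun y => c3215 h x272t y x477t
  have x485t : α 485 = true := tt fun y => c3229 h y x346f x275f
  have x120f : α 120 = false := ff fun y => c2458 h x485t x272t y
  have x63t : α 63 = true := tt fun y => l3559 h y x120f x275f x273f x113f x540f x334f x157t x33f x183t x19t x189f x92t x237t x386t x239f x54t x250f x200f x53t x1t
  have x24f : α 24 = false := ff fun y => c733 h x63t y x54t
  have x30t : α 30 = true := tt fun y => c725 h x94f x24f y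
  have x191t : α 191 = true := tt fun y => c757 h x120f x24f x275f y
  have x18f : α 18 = false := ff fun y => c414 h x30t y x91t
  have x115f : α 115 = false := ff fun y => c1999 h x191t x91t y
  c408 h x24f x18f x115f

theorem l3561 (h : Good α) (x275t : α 275 = true) (x113f : α 113 = false) (x340f : α 340 = false) (x189f : α 189 = false) (x54t : α 54 = true) (x1t : α 1 = true) (x59t : α 59 = true) : False :=
  have x150t := h.u3
  have x154t := h.u1
  have x260f : α 260 = false := ff fun y => c2586 h x154t x150t x275t y
  have x191f : α 191 = false := ff fun y => c1330 h x154t x54t x275t y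
  have x87t : α 87 = true := tt fun y => c1920 h y x189f x260f x340f
  have x27t : α 27 = true := tt fun y => c830 h y x113f x260f x340f
  have x50f : α 50 = false := ff fun y => c6 h x1t x59t y x87t
  have x25f : α 25 = false := ff fun y => c763 h x27t y x87t
  c771 h x191f x50f x25f

theorem l3562 (h : Good α) (x113f : α 113 = false) (x540f : α 540 = false) (x157t : α 157 = true) (x183t : α 183 = true) (x19t : α 19 = true) (x189f : α 189 = false) (x106t : α 106 = true) (x92t : α 92 = true) (x272t : α 272 = true) (x237t : α 237 = true) (x326t : α 326 = true) (x114f : α 114 = false) (x239f : α 239 = false) (x54t : α 54 = true) (x94f : α 94 = false) (x91t : α 91 = true) (x250f : α 250 = false) (x200f : α 200 = false) (x1t : α 1 = true) (x59t : α 59 = true) : False :=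
  have x149f := h.u2
  have x334f : α 334 = false := ff fun y => c1519 h x59t x157t y
  have x340f : α 340 = false := ff fun y => c2007 h x91t x183t y
  have x56f : α 56 = false := ff fun y => c57 h y x1t x59t
  have x236t : α 236 = true := tt fun y => c2909 h x239f x200f y
  have x386t : α 386 = true := tt fun y => l3501 h y x236t x200f x56f
  have x53t : α 53 = true := tt fun y => c1260 h x56f y x149f
  have x264t : α 264 = true := tt fun y => c2364 h y x149f x113f
  have x20f : α 20 = false := ff fun y => c556 h x264t x92t y
  have x275f : α 275 = false := ff fun y => l3561 h y x113f x340f x189f x54t x1t x59t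
  have x273t : α 273 = true := tt fun y => l3560 h x275f y x113f x540f x334f x157t x183t x19t x189f x92t x272t x237t x386t x114f x239f x54t x94f x91t x250f x200f x53t x1t
  have x423f : α 423 = false := ff fun y => c2658 h x326t x157t y x273t
  have x117f : α 117 = false := ff fun y => c2422 h y x157t x273t
  have x306t : α 306 = true := tt fun y => c575 h y x20f x423f x189f
  have x22t : α 22 = true := tt fun y => c514 h y x20f x117f
  c662 h x306t x106t x22t

theorem l3563 (h : Good α) (x157t : α 157 = true) (x183t : α 183 = true) (x19t : α 19 = true) (x189f : α 189 = false) (x450f : α 450 = false) (x106t : α 106 = true) (x92t : α 92 = true) (x272t : α 272 = true) (x237t : α 237 = true) (x409f : α 409 = false) (x326t : α 326 = true) (x114f : α 114 = false) (x239f : α 239 = false) (x54t : α 54 = true) (x94f : α 94 = false) (x91t : α 91 = true) (x97t : α 97 = true) (x250f : α 250 = false) (x200f : α 200 = false) (x1t : α 1 = true) (x59t : α 59 = true) : False :=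
  have x149f := h.u2
  have x56f : α 56 = false := ff fun y => c57 h y x1t x59t
  have x236t : α 236 = true := tt fun y => c2909 h x239f x200f y
  have x386t : α 386 = true := tt fun y => l3501 h y x236t x200f x56f
  have x53t : α 53 = true := tt fun y => c1260 h x56f y x149f
  have x196f : α 196 = false := ff fun y => c32 h y x53t x1t
  have x204t : α 204 = true := tt fun y => c2573 h x196f x149f y
  have x334f : α 334 = false := ff fun y => c1519 h x59t x157t y
  have x335f : α 335 = false := ff fun y => c2655 h y x204t x157t
  have x333t : α 333 = true := tt fun y => c3268 h x409f x334f y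
  have x540f : α 540 = false := ff fun y => c2665 h x157t x333t y
  have x113t : α 113 = true := tt fun y => l3562 h y x540f x157t x183t x19t x189f x106t x92t x272t x237t x326t x114f x239f x54t x94f x91t x250f x200f x1t x59t
  have x212f : α 212 = false := ff fun y => c2178 h y x113t x97t
  have x307f : α 307 = false := ff fun y => l3558 h x113t y x335f x19t x386t x56f
  c2960 h x212f x307f x450f

theorem l3564 (h : Good α) (x273t : α 273 = true) (x117t : α 117 = true) (x334f : α 334 = false) (x183t : α 183 = true) (x450f : α 450 = false) (x97t : α 97 = true) (x52f : α 52 = false) : False :=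
  have x506f : α 506 = false := ff fun y => c2203 h x97t x273t y
  have x22f : α 22 = false := ff fun y => c666 h y x117t x183t x273t
  have x430t : α 430 = true := tt fun y => c3374 h x450f y x506f
  have x299t : α 299 = true := tt fun y => c639 h x22f y x52f x334f
  c2430 h x117t x299t x273t x430t

theorem l3565 (h : Good α) (x275f : α 275 = false) (x28t : α 28 = true) (x314t : α 314 = true) (x340f : α 340 = false) (x272t : α 272 = true) (x114f : α 114 = false) (x54t : α 54 = true) : False :=
  have x150t := h.u3
  have x477t : α 477 = true := tt fun y => c2395 h y x275f x114f
  have x346f : α 346 = false := ff fun y => c3215 h x272t y x477t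
  have x278f : α 278 = false := ff fun y => c880 h x272t x28t x477t y
  have x485t : α 485 = true := tt fun y => c3229 h y x346f x275f
  have x260t : α 260 = true := tt fun y => c3161 h x278f y x340f
  have x120f : α 120 = false := ff fun y => c2458 h x485t x272t y
  have x191f : α 191 = false := ff fun y => c1328 h x54t x150t y x260t
  have x413f : α 413 = false := ff fun y => c2592 h x150t x314t x260t y
  have x24t : α 24 = true := tt fun y => c757 h x120f y x275f x191f
  have x291t : α 291 = true := tt fun y => c2459 h x120f y x275f x413f
  c739 h x24t x291t x54t x314t

theorem l3566 (h : Good α) (x260f : α 260 = false) (x20f : α 20 = false) (x494f : α 494 = false) (x212f : α 212 = false) (x340f : α 340 = false) (x189f : α 189 = false) (x61f : α 61 = false) : False :=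
  have x149f := h.u2
  have x325t : α 325 = true := tt fun y => c1561 h y x149f x61f
  have x59t : α 59 = true := tt fun y => c1499 h x149f x61f y
  have x87t : α 87 = true := tt fun y => c1920 h y x189f x260f x340f
  have x127t : α 127 = true := tt fun y => c2490 h y x212f x260f x340f
  have x89f : α 89 = false := ff fun y => c1505 h y x59t x87t
  have x554f : α 554 = false := ff fun y => c2494 h y x325t x127t
  c553 h x494f x554f x20f x89f

theorem l3567 (h : Good α) (x113t : α 113 = true) (x314t : α 314 = true) (x340f : α 340 = false) (x19t : α 19 = true) (x189f : α 189 = false) (x92t : α 92 = true) (x272t : α 272 = true) (x386t : α 386 = true) (x114f : α 114 = false) (x54t : α 54 = true) (x97t : α 97 = true) (x61f : α 61 = false) : False :=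
  have x149f := h.u2
  have x154t := h.u1
  have x150t := h.u3
  have x325t : α 325 = true := tt fun y => c1561 h y x149f x61f
  have x59t : α 59 = true := tt fun y => c1499 h x149f x61f y
  have x212f : α 212 = false := ff fun y => c2178 h y x113t x97t
  have x452f : α 452 = false := ff fun y => c503 h x386t y x19t x113t
  have x264t : α 264 = true := tt fun y => c2582 h x452f y x149f
  have x494f : α 494 = false := ff fun y => c2087 h y x264t x92t
  have x20f : α 20 = false := ff fun y => c556 h x264t x92t y
  have x260t : α 260 = true := tt fun y => l3566 h y x20f x494f x212f x340f x189f x61f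
  have x275f : α 275 = false := ff fun y => c2586 h x154t x150t y x260t
  have x108f : α 108 = false := ff fun y => c2314 h y x150t x260t
  have x28f : α 28 = false := ff fun y => l3565 h x275f y x314t x340f x272t x114f x54t
  have x89t : α 89 = true := tt fun y => c519 h x20f y x28f x108f
  have x554t : α 554 = true := tt fun y => c872 h x494f y x28f x108f
  have x87f : α 87 = false := ff fun y => c1505 h x89t x59t y
  have x127f : α 127 = false := ff fun y => c2494 h x554t x325t y
  c1915 h x127f x212f x87f x189f

theorem l3568 (h : Good α) (x260t : α 260 = true) (x120f : α 120 = false) (x275f : α 275 = false) (x314t : α 314 = true) (x54t : α 54 = true) : False :=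
  have x150t := h.u3
  have x191f : α 191 = false := ff fun y => c1328 h x54t x150t y x260t
  have x413f : α 413 = false := ff fun y => c2592 h x150t x314t x260t y
  have x24t : α 24 = true := tt fun y => c757 h x120f y x275f x191f
  have x291t : α 291 = true := tt fun y => c2459 h x120f y x275f x413f
  c739 h x24t x291t x54t x314t

theorem l3569 (h : Good α) (x120f : α 120 = false) (x275f : α 275 = false) (x54t : α 54 = true) (x314t : α 314 = true) : False :=
  have x150t := h.u3
  have x260f : α 260 = false := ff fun y => l3568 h y x120f x275f x314t x54t
  have x108t : α 108 = true := tt fun y => c2312 h x120f y x275f x260f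
  have x24f : α 24 = false := ff fun y => c734 h y x108t x54t x150t
  have x291f : α 291 = false := ff fun y => c2315 h x108t y x150t x314t
  have x191t : α 191 = true := tt fun y => c757 h x120f x24f x275f y
  have x413t : α 413 = true := tt fun y => c2459 h x120f x291f x275f y
  c1336 h x54t x314t x191t x413t

theorem l3570 (h : Good α) (x189f : α 189 = false) (x257f : α 257 = false) (x249f : α 249 = false) (x543t : α 543 = true) (x1t : α 1 = true) (x61f : α 61 = false) : False :=
  have x154t := h.u1
  have x149f := h.u2
  have x59t : α 59 = true := tt fun y => c1499 h x149f x61f y
  have x56f : α 56 = false := ff fun y => c57 h y x1t x59t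
  have x53t : α 53 = true := tt fun y => c1260 h x56f y x149f
  have x196f : α 196 = false := ff fun y => c32 h y x53t x1t
  have x204t : α 204 = true := tt fun y => c2573 h x196f x149f y
  have x201t : α 201 = true := tt fun y => l3523 h y x543t x1t x61f
  have x402f : α 402 = false := ff fun y => c121 h y x1t x543t x201t
  have x57t : α 57 = true := tt fun y => l3527 h y x543t x1t x61f
  have x200f : α 200 = false := ff fun y => c68 h y x57t x1t
  have x58f : α 58 = false := ff fun y => l3467 h y x543t x1t x61f
  have x250f : α 250 = false := ff fun y => l3553 h y x543t x1t x61f
  have x97t : α 97 = true := tt fun y => c1468 h x58f y x250f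
  have x352t : α 352 = true := tt fun y => c1488 h x200f y x58f x250f
  have x354f : α 354 = false := ff fun y => c120 h x1t x204t x201t y
  have x238f : α 238 = false := ff fun y => c70 h x57t y x1t x204t
  have x91t : α 91 = true := tt fun y => l3554 h y x250f x238f x57t x354f x201t
  have x94f : α 94 = false := ff fun y => l3555 h y x91t x352t x97t x200f x57t x402f x204t x61f
  have x54t : α 54 = true := tt fun y => l3556 h y x543t x1t x61f
  have x239f : α 239 = false := ff fun y => c1349 h y x352t x54t x204t
  have x236t : α 236 = true := tt fun y => c2909 h x239f x200f y
  have x544f : α 544 = false := ff fun y => c3022 h x236t x352t y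
  have x444t : α 444 = true := tt fun y => c2129 h x239f x544f x94f y
  have x197f : α 197 = false := ff fun y => c42 h y x54t x1t
  have x92t : α 92 = true := tt fun y => c1546 h x249f y x197f x61f
  have x450f : α 450 = false := ff fun y => c2050 h x92t x444t x97t y
  have x328f : α 328 = false := ff fun y => c1331 h y x154t x54t
  have x327t : α 327 = true := tt fun y => c3263 h x328f y x402f
  have x233f : α 233 = false := ff fun y => c46 h x54t x1t y x201t
  have x114f : α 114 = false := ff fun y => l3535 h y x94f x233f x57t x201t
  have x446t : α 446 = true := tt fun y => c2130 h y x239f x94f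
  have x405f : α 405 = false := ff fun y => c48 h x446t y x54t x1t
  have x353t : α 353 = true := tt fun y => c2913 h y x239f x200f
  have x535t : α 535 = true := tt fun y => c1498 h x405f y x58f x250f
  have x545f : α 545 = false := ff fun y => c3312 h y x535t x353t x352t
  have x237t : α 237 = true := tt fun y => c1495 h x545f x405f y x58f
  have x443f : α 443 = false := ff fun y => c2025 h y x237t x91t
  have x449t : α 449 = true := tt fun y => c3344 h y x402f x443f
  have x272t : α 272 = true := tt fun y => l3529 h y x114f x449t x327t x94f x57t x53t
  have x429f : α 429 = false := ff fun y => c2634 h y x272t x327t x154t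
  have x106t : α 106 = true := tt fun y => c2287 h x429f x249f y
  have x409f : α 409 = false := ff fun y => c74 h x57t x444t x1t y
  have x538f : α 538 = false := ff fun y => c2640 h y x327t x154t
  have x326t : α 326 = true := tt fun y => c3262 h x538f x402f y
  have x386t : α 386 = true := tt fun y => l3501 h y x236t x200f x56f
  have x202f : α 202 = false := ff fun y => c90 h x1t x59t y
  have x19t : α 19 = true := tt fun y => c483 h y x58f x189f
  have x183t : α 183 = true := tt fun y => c2748 h x257f y x189f
  have x340f : α 340 = false := ff fun y => c2007 h x91t x183t y
  have x157f : α 157 = false := ff fun y => l3563 h y x183t x19t x189f x450f x106t x92t x272t x237t x409f x326t x114f x239f x54t x94f x91t x97t x250f x200f x1t x59t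
  have x314t : α 314 = true := tt fun y => c2653 h x157f x202f y
  have x113f : α 113 = false := ff fun y => l3567 h y x314t x340f x19t x189f x92t x272t x386t x114f x54t x97t x61f
  have x275f : α 275 = false := ff fun y => l3561 h y x113f x340f x189f x54t x1t x59t
  have x477t : α 477 = true := tt fun y => c2395 h y x275f x114f
  have x346f : α 346 = false := ff fun y => c3215 h x272t y x477t
  have x485t : α 485 = true := tt fun y => c3229 h y x346f x275f
  have x120f : α 120 = false := ff fun y => c2458 h x485t x272t y
  l3569 h x120f x275f x54t x314t

theorem l3571 (h : Good α) (x24f : α 24 = false) (x120f : α 120 = false) (x275f : α 275 = false) (x94f : α 94 = false) (x91t : α 91 = true) : False :=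
  have x30t : α 30 = true := tt fun y => c725 h x94f x24f y
  have x191t : α 191 = true := tt fun y => c757 h x120f x24f x275f y
  have x18f : α 18 = false := ff fun y => c414 h x30t y x91t
  have x115f : α 115 = false := ff fun y => c1999 h x191t x91t y
  c408 h x24f x18f x115f

theorem l3572 (h : Good α) (x275f : α 275 = false) (x487t : α 487 = true) (x19t : α 19 = true) (x423f : α 423 = false) (x272t : α 272 = true) (x114f : α 114 = false) (x54t : α 54 = true) (x94f : α 94 = false) (x91t : α 91 = true) : False :=
  have x477t : α 477 = true := tt fun y => c2395 h y x275f x114f
  have x346f : α 346 = false := ff fun y => c3215 h x272t y x477t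
  have x485t : α 485 = true := tt fun y => c3229 h y x346f x275f
  have x120f : α 120 = false := ff fun y => c2458 h x485t x272t y
  have x24t : α 24 = true := tt fun y => l3571 h y x120f x275f x94f x91t
  have x191f : α 191 = false := ff fun y => c737 h x24t x54t y
  have x336f : α 336 = false := ff fun y => l3548 h x275f x423f y x191f x114f
  have x86t : α 86 = true := tt fun y => c1904 h y x191f x336f
  have x549t : α 549 = true := tt fun y => c2847 h x191f x336f y
  c491 h x86t x19t x549t x487t

theorem l3573 (h : Good α) (x344f : α 344 = false) (x280f : α 280 = false) (x485t : α 485 = true) (x86f : α 86 = false) (x103f : α 103 = false) (x17f : α 17 = false) (x180t : α 180 = true) (x576t : α 576 = true) (x340f : α 340 = false) (x114f : α 114 = false) : False :=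
  have x32t : α 32 = true := tt fun y => c376 h x86f x17f x103f y
  have x266t : α 266 = true := tt fun y => c391 h x344f y x86f x17f
  have x49t : α 49 = true := tt fun y => c1165 h x344f x280f x103f y
  have x285f : α 285 = false := ff fun y => c958 h x485t x266t y x32t
  have x478f : α 478 = false := ff fun y => c1175 h x49t x180t y x576t
  c2397 h x114f x340f x285f x478f

theorem l3574 (h : Good α) (x485t : α 485 = true) (x88t : α 88 = true) (x86f : α 86 = false) (x103f : α 103 = false) (x17f : α 17 = false) (x27t : α 27 = true) (x275t : α 275 = true) (x71f : α 71 = false) (x180t : α 180 = true) (x576t : α 576 = true) (x340f : α 340 = false) (x20f : α 20 = false) (x92t : α 92 = true) (x236t : α 236 = true) (x114f : α 114 = false) (x94f : α 94 = false) (x53t : α 53 = true) (x61f : α 61 = false) : False :=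
  have x149f := h.u2
  have x185t : α 185 = true := tt fun y => c1894 h y x86f x103f
  have x280f : α 280 = false := ff fun y => c835 h x485t y x275t x27t
  have x344t : α 344 = true := tt fun y => l3573 h y x280f x485t x86f x103f x17f x180t x576t x340f x114f
  have x564f : α 564 = false := ff fun y => c2785 h y x344t x185t
  have x188f : α 188 = false := ff fun y => c1936 h x344t y x88t
  have x266f : α 266 = false := ff fun y => c3188 h x485t x344t y
  have x503t : α 503 = true := tt fun y => c394 h x564f y x86f x17f
  have x341t : α 341 = true := tt fun y => c2117 h y x188f x94f
  have x96t : α 96 = true := tt fun y => c396 h x266f y x17f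
  have x248f : α 248 = false := ff fun y => c1277 h y x96t x53t
  have x101f : α 101 = false := ff fun y => c2158 h x185t x96t y
  have x379t : α 379 = true := tt fun y => c3096 h y x266f x248f
  have x21t : α 21 = true := tt fun y => c598 h x101f x149f y x61f
  have x161f : α 161 = false := ff fun y => c2677 h x379t x236t y
  have x342f : α 342 = false := ff fun y => c3296 h x503t x379t y
  have x262f : α 262 = false := ff fun y => c606 h y x92t x21t
  have x117t : α 117 = true := tt fun y => c546 h x71f x161f x20f y
  have x288t : α 288 = true := tt fun y => c3170 h x342f x262f y
  have x479t : α 479 = true := tt fun y => c3172 h y x342f x262f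
  c2437 h x479t x288t x341t x117t

theorem l3575 (h : Good α) (x39f : α 39 = false) (x550f : α 550 = false) (x31f : α 31 = false) (x278t : α 278 = true) (x113f : α 113 = false) : False :=
  have x99t : α 99 = true := tt fun y => c931 h x39f x31f y
  have x511t : α 511 = true := tt fun y => c1084 h x39f x113f y x550f
  c2222 h x99t x278t x511t

theorem l3576 (h : Good α) (x257f : α 257 = false) (x249f : α 249 = false) (x543t : α 543 = true) (x1t : α 1 = true) (x61f : α 61 = false) : False :=
  have x150t := h.u3
  have x154t := h.u1
  have x149f := h.u2
  have x57t : α 57 = true := tt fun y => l3527 h y x543t x1t x61f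
  have x201t : α 201 = true := tt fun y => l3523 h y x543t x1t x61f
  have x54t : α 54 = true := tt fun y => l3556 h y x543t x1t x61f
  have x197f : α 197 = false := ff fun y => c42 h y x54t x1t
  have x92t : α 92 = true := tt fun y => c1546 h x249f y x197f x61f
  have x242f : α 242 = false := ff fun y => c1414 h x57t x92t x201t y
  have x402f : α 402 = false := ff fun y => c121 h y x1t x543t x201t
  have x328f : α 328 = false := ff fun y => c1331 h y x154t x54t
  have x327t : α 327 = true := tt fun y => c3263 h x328f y x402f
  have x59t : α 59 = true := tt fun y => c1499 h x149f x61f y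
  have x56f : α 56 = false := ff fun y => c57 h y x1t x59t
  have x53t : α 53 = true := tt fun y => c1260 h x56f y x149f
  have x196f : α 196 = false := ff fun y => c32 h y x53t x1t
  have x204t : α 204 = true := tt fun y => c2573 h x196f x149f y
  have x200f : α 200 = false := ff fun y => c68 h y x57t x1t
  have x58f : α 58 = false := ff fun y => l3467 h y x543t x1t x61f
  have x250f : α 250 = false := ff fun y => l3553 h y x543t x1t x61f
  have x97t : α 97 = true := tt fun y => c1468 h x58f y x250f
  have x352t : α 352 = true := tt fun y => c1488 h x200f y x58f x250f
  have x354f : α 354 = false := ff fun y => c120 h x1t x204t x201t y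
  have x238f : α 238 = false := ff fun y => c70 h x57t y x1t x204t
  have x91t : α 91 = true := tt fun y => l3554 h y x250f x238f x57t x354f x201t
  have x94f : α 94 = false := ff fun y => l3555 h y x91t x352t x97t x200f x57t x402f x204t x61f
  have x233f : α 233 = false := ff fun y => c46 h x54t x1t y x201t
  have x114f : α 114 = false := ff fun y => l3535 h y x94f x233f x57t x201t
  have x239f : α 239 = false := ff fun y => c1349 h y x352t x54t x204t
  have x446t : α 446 = true := tt fun y => c2130 h y x239f x94f
  have x405f : α 405 = false := ff fun y => c48 h x446t y x54t x1t
  have x353t : α 353 = true := tt fun y => c2913 h y x239f x200f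
  have x535t : α 535 = true := tt fun y => c1498 h x405f y x58f x250f
  have x545f : α 545 = false := ff fun y => c3312 h y x535t x353t x352t
  have x237t : α 237 = true := tt fun y => c1495 h x545f x405f y x58f
  have x443f : α 443 = false := ff fun y => c2025 h y x237t x91t
  have x449t : α 449 = true := tt fun y => c3344 h y x402f x443f
  have x272t : α 272 = true := tt fun y => l3529 h y x114f x449t x327t x94f x57t x53t
  have x429f : α 429 = false := ff fun y => c2634 h y x272t x327t x154t
  have x106t : α 106 = true := tt fun y => c2287 h x429f x249f y
  have x459f : α 459 = false := ff fun y => c2636 h y x272t x154t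
  have x538f : α 538 = false := ff fun y => c2640 h y x327t x154t
  have x326t : α 326 = true := tt fun y => c3262 h x538f x402f y
  have x80t : α 80 = true := tt fun y => l3417 h y x239f x200f x53t
  have x236t : α 236 = true := tt fun y => c2909 h x239f x200f y
  have x313f : α 313 = false := ff fun y => c1516 h x59t x150t y
  have x189t : α 189 = true := tt fun y => l3570 h y x257f x249f x543t x1t x61f
  have x387f : α 387 = false := ff fun y => c1527 h x59t x189t y
  have x20f : α 20 = false := ff fun y => c542 h y x59t x189t
  have x113f : α 113 = false := ff fun y => c2176 h y x97t x189t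
  have x340f : α 340 = false := ff fun y => c2183 h x97t x189t y
  have x423f : α 423 = false := ff fun y => c1524 h x326t x59t y x189t
  have x576t : α 576 = true := tt fun y => c3084 h x242f x387f y
  have x180t : α 180 = true := tt fun y => c2717 h y x242f x387f
  have x264t : α 264 = true := tt fun y => c2364 h y x149f x113f
  have x19t : α 19 = true := tt fun y => c474 h x56f x149f y x113f
  have x65t : α 65 = true := tt fun y => c1637 h y x113f x250f
  have x430t : α 430 = true := tt fun y => c2369 h x113f x250f y
  have x183t : α 183 = true := tt fun y => c2756 h x423f x257f y
  have x487t : α 487 = true := tt fun y => c3369 h x443f x423f y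
  have x334f : α 334 = false := ff fun y => c1525 h x59t y x189t x430t
  have x273f : α 273 = false := ff fun y => c2825 h x189t y x430t
  have x71f : α 71 = false := ff fun y => c1704 h x80t y x183t x189t
  have x275t : α 275 = true := tt fun y => l3572 h y x487t x19t x423f x272t x114f x54t x94f x91t
  have x260f : α 260 = false := ff fun y => c2586 h x154t x150t x275t y
  have x191f : α 191 = false := ff fun y => c1330 h x154t x54t x275t y
  have x27t : α 27 = true := tt fun y => c830 h y x113f x260f x340f
  have x278t : α 278 = true := tt fun y => c3161 h y x260f x340f
  have x181t : α 181 = true := tt fun y => c2727 h x191f y x260f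
  have x258f : α 258 = false := ff fun y => c2723 h y x181t x183t
  have x67f : α 67 = false := ff fun y => c1635 h y x65t x181t x183t
  have x224t : α 224 = true := tt fun y => c1654 h x196f x334f x67f y
  have x83f : α 83 = false := ff fun y => c824 h x27t y x224t
  have x121t : α 121 = true := tt fun y => c1859 h x83f x250f y x273f
  have x87f : α 87 = false := ff fun y => c1914 h x181t y x121t
  have x488t : α 488 = true := tt fun y => c1923 h x87f x260f y
  have x25t : α 25 = true := tt fun y => c781 h y x87f x260f
  have x31f : α 31 = false := ff fun y => c767 h y x25t x97t
  have x274f : α 274 = false := ff fun y => c786 h x25t x97t y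
  have x550f : α 550 = false := ff fun y => c787 h x25t x97t x488t y
  have x17f : α 17 = false := ff fun y => c373 h y x25t x121t
  have x303t : α 303 = true := tt fun y => c3077 h x274f x242f y
  have x123t : α 123 = true := tt fun y => c2479 h y x313f x550f
  have x380t : α 380 = true := tt fun y => c3143 h x257f y x550f
  have x112f : α 112 = false := ff fun y => c790 h x25t y x303t
  have x376f : α 376 = false := ff fun y => c2726 h x181t x183t y x380t
  have x268t : α 268 = true := tt fun y => c2355 h x112f x242f y x387f
  have x549t : α 549 = true := tt fun y => c3165 h y x376f x260f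
  have x103f : α 103 = false := ff fun y => c499 h x19t x189t y x268t
  have x86f : α 86 = false := ff fun y => c491 h y x19t x549t x487t
  have x88t : α 88 = true := tt fun y => c1371 h y x56f x86f
  have x336t : α 336 = true := tt fun y => c1904 h x86f x191f y
  have x485f : α 485 = false := ff fun y => l3574 h y x88t x86f x103f x17f x27t x275t x71f x180t x576t x340f x20f x92t x236t x114f x94f x53t x61f
  have x580t : α 580 = true := tt fun y => c3391 h x459f x485f y
  have x346f : α 346 = false := ff fun y => c2641 h x580t y x154t
  have x39t : α 39 = true := tt fun y => l3575 h y x550f x31f x278t x113f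
  have x101f : α 101 = false := ff fun y => c1079 h x264t y x39t
  have x164t : α 164 = true := tt fun y => c2227 h y x101f x149f
  have x290t : α 290 = true := tt fun y => c2229 h x101f x149f y x313f
  have x477f : α 477 = false := ff fun y => c1089 h x580t x164t y x39t
  have x253f : α 253 = false := ff fun y => c2278 h x106t x123t y x290t
  have x90t : α 90 = true := tt fun y => c1977 h x346f y x477f x258f
  have x145f : α 145 = false := ff fun y => c1968 h x90t y x181t x224t
  have x37f : α 37 = false := ff fun y => c1057 h x90t y x181t x121t
  have x571t : α 571 = true := tt fun y => c2539 h x145f x334f y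
  have x375f : α 375 = false := ff fun y => c3322 h x571t x430t y
  have x481t : α 481 = true := tt fun y => c2538 h x253f x145f y x375f
  have x287t : α 287 = true := tt fun y => c1063 h x37f x145f y x375f
  c2468 h x336t x121t x481t x287t

theorem l3577 (h : Good α) (x257t : α 257 = true) (x237t : α 237 = true) (x114f : α 114 = false) (x91t : α 91 = true) : False :=
  have x19f : α 19 = false := ff fun y => c494 h y x91t x257t
  have x298f : α 298 = false := ff fun y => c3035 h y x237t x257t
  c505 h x298f x114f x19f

theorem l3578 (h : Good α) (x19f : α 19 = false) (x97t : α 97 = true) (x58f : α 58 = false) (x56f : α 56 = false) : False :=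
  have x149f := h.u2
  have x113t : α 113 = true := tt fun y => c474 h x56f x149f x19f y
  have x189t : α 189 = true := tt fun y => c483 h x19f x58f y
  c2176 h x113t x97t x189t

theorem l3579 (h : Good α) (x189t : α 189 = true) (x19t : α 19 = true) (x92f : α 92 = false) (x257f : α 257 = false) (x272t : α 272 = true) (x443f : α 443 = false) (x326t : α 326 = true) (x114f : α 114 = false) (x54t : α 54 = true) (x94f : α 94 = false) (x91t : α 91 = true) (x97t : α 97 = true) (x250f : α 250 = false) (x196f : α 196 = false) (x59t : α 59 = true) : False :=
  have x150t := h.u3
  have x154t := h.u1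
  have x20f : α 20 = false := ff fun y => c542 h y x59t x189t
  have x113f : α 113 = false := ff fun y => c2176 h y x97t x189t
  have x340f : α 340 = false := ff fun y => c2183 h x97t x189t y
  have x423f : α 423 = false := ff fun y => c1524 h x326t x59t y x189t
  have x28t : α 28 = true := tt fun y => c521 h x92f x20f y
  have x65t : α 65 = true := tt fun y => c1637 h y x113f x250f
  have x430t : α 430 = true := tt fun y => c2369 h x113f x250f y
  have x183t : α 183 = true := tt fun y => c2756 h x423f x257f y
  have x487t : α 487 = true := tt fun y => c3369 h x443f x423f y
  have x334f : α 334 = false := ff fun y => c1525 h x59t y x189t x430t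
  have x273f : α 273 = false := ff fun y => c2825 h x189t y x430t
  have x275t : α 275 = true := tt fun y => l3572 h y x487t x19t x423f x272t x114f x54t x94f x91t
  have x467f : α 467 = false := ff fun y => c2639 h x154t x275t y
  have x260f : α 260 = false := ff fun y => c2586 h x154t x150t x275t y
  have x191f : α 191 = false := ff fun y => c1330 h x154t x54t x275t y
  have x27t : α 27 = true := tt fun y => c830 h y x113f x260f x340f
  have x278t : α 278 = true := tt fun y => c3161 h y x260f x340f
  have x181t : α 181 = true := tt fun y => c2727 h x191f y x260f
  have x477f : α 477 = false := ff fun y => c880 h x272t x28t y x278t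
  have x258f : α 258 = false := ff fun y => c2723 h y x181t x183t
  have x67f : α 67 = false := ff fun y => c1635 h y x65t x181t x183t
  have x580t : α 580 = true := tt fun y => c3399 h y x477f x467f
  have x224t : α 224 = true := tt fun y => c1654 h x196f x334f x67f y
  have x346f : α 346 = false := ff fun y => c2641 h x580t y x154t
  have x83f : α 83 = false := ff fun y => c824 h x27t y x224t
  have x90t : α 90 = true := tt fun y => c1977 h x346f y x477f x258f
  have x121t : α 121 = true := tt fun y => c1859 h x83f x250f y x273f
  have x145f : α 145 = false := ff fun y => c1968 h x90t y x181t x224t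
  have x37f : α 37 = false := ff fun y => c1057 h x90t y x181t x121t
  have x571t : α 571 = true := tt fun y => c2539 h x145f x334f y
  have x14t : α 14 = true := tt fun y => c251 h y x37f x145f
  have x375f : α 375 = false := ff fun y => c3322 h x571t x430t y
  have x253f : α 253 = false := ff fun y => c265 h y x90t x14t
  have x481t : α 481 = true := tt fun y => c2538 h x253f x145f y x375f
  have x287t : α 287 = true := tt fun y => c1063 h x37f x145f y x375f
  have x336f : α 336 = false := ff fun y => c2468 h y x121t x481t x287t
  have x86t : α 86 = true := tt fun y => c1904 h y x191f x336f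
  have x549t : α 549 = true := tt fun y => c2847 h x191f x336f y
  c491 h x86t x19t x549t x487t

theorem l3580 (h : Good α) (x113f : α 113 = false) (x183t : α 183 = true) (x189f : α 189 = false) (x92f : α 92 = false) (x272t : α 272 = true) (x114f : α 114 = false) (x239f : α 239 = false) (x54t : α 54 = true) (x94f : α 94 = false) (x91t : α 91 = true) (x1t : α 1 = true) (x59t : α 59 = true) : False :=
  have x154t := h.u1
  have x150t := h.u3
  have x149f := h.u2
  have x340f : α 340 = false := ff fun y => c2007 h x91t x183t y
  have x56f : α 56 = false := ff fun y => c57 h y x1t x59t
  have x53t : α 53 = true := tt fun y => c1260 h x56f y x149f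
  have x184f : α 184 = false := ff fun y => c1286 h x272t y x154t x53t
  have x117t : α 117 = true := tt fun y => c2056 h x184f x92f y
  have x459f : α 459 = false := ff fun y => c2636 h y x272t x154t
  have x202f : α 202 = false := ff fun y => c90 h x1t x59t y
  have x264t : α 264 = true := tt fun y => c2364 h y x149f x113f
  have x275f : α 275 = false := ff fun y => l3561 h y x113f x340f x189f x54t x1t x59t
  have x477t : α 477 = true := tt fun y => c2395 h y x275f x114f
  have x346f : α 346 = false := ff fun y => c3215 h x272t y x477t
  have x485t : α 485 = true := tt fun y => c3229 h y x346f x275f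
  have x120f : α 120 = false := ff fun y => c2458 h x485t x272t y
  have x314f : α 314 = false := ff fun y => l3569 h x120f x275f x54t y
  have x24t : α 24 = true := tt fun y => l3571 h y x120f x275f x94f x91t
  have x157t : α 157 = true := tt fun y => c2653 h y x202f x314f
  have x63f : α 63 = false := ff fun y => c733 h y x24t x54t
  have x108f : α 108 = false := ff fun y => c734 h x24t y x54t x150t
  have x191f : α 191 = false := ff fun y => c737 h x24t x54t y
  have x20f : α 20 = false := ff fun y => c540 h y x117t x59t x157t
  have x175t : α 175 = true := tt fun y => c1613 h y x63f x275f x191f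
  have x260t : α 260 = true := tt fun y => c2312 h x120f x108f x275f y
  have x181t : α 181 = true := tt fun y => c2729 h x275f x191f y
  have x28t : α 28 = true := tt fun y => c521 h x92f x20f y
  have x167f : α 167 = false := ff fun y => c2585 h x175t y x154t x150t
  have x454f : α 454 = false := ff fun y => c2594 h x150t x260t y
  have x258f : α 258 = false := ff fun y => c2723 h y x181t x183t
  have x278f : α 278 = false := ff fun y => c880 h x272t x28t x477t y
  have x381t : α 381 = true := tt fun y => c1611 h x63f x167f y x454f
  have x39t : α 39 = true := tt fun y => c1082 h y x113f x278f x340f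
  have x338t : α 338 = true := tt fun y => c3146 h y x258f x278f
  have x393f : α 393 = false := ff fun y => c3276 h y x338t x381t
  have x101f : α 101 = false := ff fun y => c1079 h x264t y x39t
  have x580t : α 580 = true := tt fun y => c3069 h x459f x239f y x393f
  have x164t : α 164 = true := tt fun y => c2227 h y x101f x149f
  c1089 h x580t x164t x477t x39t

theorem l3581 (h : Good α) (x260t : α 260 = true) (x65t : α 65 = true) (x113t : α 113 = true) (x550t : α 550 = true) (x183t : α 183 = true) (x272t : α 272 = true) (x114f : α 114 = false) (x54t : α 54 = true) (x97t : α 97 = true) (x196f : α 196 = false) (x1t : α 1 = true) (x313f : α 313 = false) : False :=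
  have x154t := h.u1
  have x150t := h.u3
  have x149f := h.u2
  have x275f : α 275 = false := ff fun y => c2586 h x154t x150t y x260t
  have x191f : α 191 = false := ff fun y => c1328 h x54t x150t y x260t
  have x477t : α 477 = true := tt fun y => c2395 h y x275f x114f
  have x181t : α 181 = true := tt fun y => c2729 h x275f x191f y
  have x346f : α 346 = false := ff fun y => c3215 h x272t y x477t
  have x413f : α 413 = false := ff fun y => c2733 h x181t x260t y
  have x67f : α 67 = false := ff fun y => c1635 h y x65t x181t x183t
  have x485t : α 485 = true := tt fun y => c3229 h y x346f x275f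
  have x27t : α 27 = true := tt fun y => c822 h x196f x149f x67f y
  have x120f : α 120 = false := ff fun y => c2458 h x485t x272t y
  have x25f : α 25 = false := ff fun y => c764 h x27t x113t y x97t
  have x488f : α 488 = false := ff fun y => c832 h x27t x113t y x550t
  have x314f : α 314 = false := ff fun y => l3569 h x120f x275f x54t y
  have x50t : α 50 = true := tt fun y => c771 h x191f y x25f
  have x437t : α 437 = true := tt fun y => c3366 h x488f x413f y
  have x407t : α 407 = true := tt fun y => c3255 h x313f x314f y
  c10 h x1t x407t x50t x437t

theorem l3582 (h : Good α) (x543t : α 543 = true) (x1t : α 1 = true) (x61f : α 61 = false) : False :=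
  have x150t := h.u3
  have x149f := h.u2
  have x154t := h.u1
  have x59t : α 59 = true := tt fun y => c1499 h x149f x61f y
  have x56f : α 56 = false := ff fun y => c57 h y x1t x59t
  have x53t : α 53 = true := tt fun y => c1260 h x56f y x149f
  have x196f : α 196 = false := ff fun y => c32 h y x53t x1t
  have x204t : α 204 = true := tt fun y => c2573 h x196f x149f y
  have x313f : α 313 = false := ff fun y => c1516 h x59t x150t y
  have x58f : α 58 = false := ff fun y => l3467 h y x543t x1t x61f
  have x201t : α 201 = true := tt fun y => l3523 h y x543t x1t x61f
  have x354f : α 354 = false := ff fun y => c120 h x1t x204t x201t y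
  have x402f : α 402 = false := ff fun y => c121 h y x1t x543t x201t
  have x57t : α 57 = true := tt fun y => l3527 h y x543t x1t x61f
  have x200f : α 200 = false := ff fun y => c68 h y x57t x1t
  have x238f : α 238 = false := ff fun y => c70 h x57t y x1t x204t
  have x250f : α 250 = false := ff fun y => l3553 h y x543t x1t x61f
  have x97t : α 97 = true := tt fun y => c1468 h x58f y x250f
  have x352t : α 352 = true := tt fun y => c1488 h x200f y x58f x250f
  have x91t : α 91 = true := tt fun y => l3554 h y x250f x238f x57t x354f x201t
  have x94f : α 94 = false := ff fun y => l3555 h y x91t x352t x97t x200f x57t x402f x204t x61f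
  have x54t : α 54 = true := tt fun y => l3556 h y x543t x1t x61f
  have x328f : α 328 = false := ff fun y => c1331 h y x154t x54t
  have x233f : α 233 = false := ff fun y => c46 h x54t x1t y x201t
  have x239f : α 239 = false := ff fun y => c1349 h y x352t x54t x204t
  have x327t : α 327 = true := tt fun y => c3263 h x328f y x402f
  have x114f : α 114 = false := ff fun y => l3535 h y x94f x233f x57t x201t
  have x446t : α 446 = true := tt fun y => c2130 h y x239f x94f
  have x353t : α 353 = true := tt fun y => c2913 h y x239f x200f
  have x538f : α 538 = false := ff fun y => c2640 h y x327t x154t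
  have x405f : α 405 = false := ff fun y => c48 h x446t y x54t x1t
  have x326t : α 326 = true := tt fun y => c3262 h x538f x402f y
  have x535t : α 535 = true := tt fun y => c1498 h x405f y x58f x250f
  have x545f : α 545 = false := ff fun y => c3312 h y x535t x353t x352t
  have x237t : α 237 = true := tt fun y => c1495 h x545f x405f y x58f
  have x443f : α 443 = false := ff fun y => c2025 h y x237t x91t
  have x449t : α 449 = true := tt fun y => c3344 h y x402f x443f
  have x272t : α 272 = true := tt fun y => l3529 h y x114f x449t x327t x94f x57t x53t
  have x257f : α 257 = false := ff fun y => l3577 h y x237t x114f x91t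
  have x249t : α 249 = true := tt fun y => l3576 h x257f y x543t x1t x61f
  have x92f : α 92 = false := ff fun y => c2047 h x249t y x237t x97t
  have x19t : α 19 = true := tt fun y => l3578 h y x97t x58f x56f
  have x33f : α 33 = false := ff fun y => c465 h y x19t x91t
  have x189f : α 189 = false := ff fun y => l3579 h y x19t x92f x257f x272t x443f x326t x114f x54t x94f x91t x97t x250f x196f x59t
  have x183t : α 183 = true := tt fun y => c2748 h x257f y x189f
  have x340f : α 340 = false := ff fun y => c2007 h x91t x183t y
  have x550t : α 550 = true := tt fun y => c2828 h x189f x340f y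
  have x113t : α 113 = true := tt fun y => l3580 h y x183t x189f x92f x272t x114f x239f x54t x94f x91t x1t x59t
  have x212f : α 212 = false := ff fun y => c2178 h y x113t x97t
  have x65t : α 65 = true := tt fun y => c968 h x33f y x212f
  have x260f : α 260 = false := ff fun y => l3581 h y x65t x113t x550t x183t x272t x114f x54t x97t x196f x1t x313f
  have x87t : α 87 = true := tt fun y => c1920 h y x189f x260f x340f
  have x89f : α 89 = false := ff fun y => c1505 h y x59t x87t
  have x234f : α 234 = false := ff fun y => c1509 h x59t x87t y
  have x50f : α 50 = false := ff fun y => c6 h x1t x59t y x87t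
  have x151t : α 151 = true := tt fun y => c1181 h y x50f x58f
  have x55f : α 55 = false := ff fun y => c1355 h x57t y x151t
  have x155t : α 155 = true := tt fun y => c1178 h y x55f x50f
  have x147t : α 147 = true := tt fun y => c1177 h x55f x50f y
  have x51f : α 51 = false := ff fun y => c1202 h x155t x57t y
  have x193f : α 193 = false := ff fun y => c2560 h y x147t x201t
  c1211 h x51f x89f x193f x234f

theorem l3583 (h : Good α) (x233f : α 233 = false) (x201t : α 201 = true) (x238f : α 238 = false) (x57t : α 57 = true) (x91t : α 91 = true) (x94f : α 94 = false) (x250f : α 250 = false) (x543f : α 543 = false) (x1t : α 1 = true) : False :=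
  have x351t : α 351 = true := tt fun y => c3000 h x543f y x233f
  have x449t : α 449 = true := tt fun y => c2123 h y x94f x543f x233f
  have x249f : α 249 = false := ff fun y => c1444 h y x57t x351t x201t
  have x402f : α 402 = false := ff fun y => c72 h x449t x57t y x1t
  have x237t : α 237 = true := tt fun y => c3027 h x249f x238f y x250f
  have x443t : α 443 = true := tt fun y => c3346 h x402f y x543f
  c2025 h x443t x237t x91t

theorem l3584 (h : Good α) (x201t : α 201 = true) (x57t : α 57 = true) (x91t : α 91 = true) (x94f : α 94 = false) (x97t : α 97 = true) (x250f : α 250 = false) (x543f : α 543 = false) (x204t : α 204 = true) (x1t : α 1 = true) : False :=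
  have x238f : α 238 = false := ff fun y => c70 h x57t y x1t x204t
  have x354f : α 354 = false := ff fun y => c120 h x1t x204t x201t y
  have x546t : α 546 = true := tt fun y => c3115 h x250f x354f y
  have x406f : α 406 = false := ff fun y => c125 h x1t x204t y x546t
  have x233t : α 233 = true := tt fun y => l3583 h y x201t x238f x57t x91t x94f x250f x543f x1t
  have x351f : α 351 = false := ff fun y => c2922 h y x233t x201t
  have x439f : α 439 = false := ff fun y => c2017 h x91t x233t y
  have x237t : α 237 = true := tt fun y => c3030 h y x250f x351f x354f
  have x447t : α 447 = true := tt fun y => c3355 h x439f x406f y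
  have x534t : α 534 = true := tt fun y => c3357 h y x439f x406f
  c2192 h x237t x97t x534t x447t

theorem l3585 (h : Good α) (x57t : α 57 = true) (x91t : α 91 = true) (x94f : α 94 = false) (x97t : α 97 = true) (x250f : α 250 = false) (x543f : α 543 = false) (x204t : α 204 = true) (x1t : α 1 = true) : False :=
  have x58f : α 58 = false := ff fun y => c1457 h x91t y x97t
  have x200f : α 200 = false := ff fun y => c68 h y x57t x1t
  have x201f : α 201 = false := ff fun y => l3584 h y x57t x91t x94f x97t x250f x543f x204t x1t
  have x443t : α 443 = true := tt fun y => c1493 h y x58f x543f x201f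
  have x406t : α 406 = true := tt fun y => c1491 h x58f x201f y
  have x54f : α 54 = false := ff fun y => l3470 h x91t x200f y x201f x58f x204t
  have x197f : α 197 = false := ff fun y => l3474 h y x200f x204t x201f x58f
  have x237f : α 237 = false := ff fun y => c2025 h x443t y x91t
  have x546f : α 546 = false := ff fun y => c125 h x1t x204t x406t y
  have x249t : α 249 = true := tt fun y => c1319 h y x94f x197f x54f
  have x534t : α 534 = true := tt fun y => c3032 h x237f x250f y x546f
  c1449 h x249t x57t x534t x406t

theorem l3586 (h : Good α) (x233t : α 233 = true) (x351t : α 351 = true) (x200t : α 200 = true) (x197f : α 197 = false) (x91t : α 91 = true) (x94f : α 94 = false) (x61f : α 61 = false) : False :=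
  have x54f : α 54 = false := ff fun y => c1315 h y x91t x233t
  have x239t : α 239 = true := tt fun y => c1322 h y x94f x54f
  have x353f : α 353 = false := ff fun y => c2992 h y x239t x351t x233t
  have x236f : α 236 = false := ff fun y => c2910 h x239t x200t y
  c1575 h x353f x236f x197f x61f

theorem l3587 (h : Good α) (x91t : α 91 = true) (x94f : α 94 = false) (x97t : α 97 = true) (x250f : α 250 = false) (x1t : α 1 = true) (x61f : α 61 = false) : False :=
  have x149f := h.u2
  have x543f : α 543 = false := ff fun y => l3582 h y x1t x61f
  have x59t : α 59 = true := tt fun y => c1499 h x149f x61f y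
  have x56f : α 56 = false := ff fun y => c57 h y x1t x59t
  have x53t : α 53 = true := tt fun y => c1260 h x56f y x149f
  have x196f : α 196 = false := ff fun y => c32 h y x53t x1t
  have x204t : α 204 = true := tt fun y => c2573 h x196f x149f y
  have x58f : α 58 = false := ff fun y => c1457 h x91t y x97t
  have x57f : α 57 = false := ff fun y => l3585 h y x91t x94f x97t x250f x543f x204t x1t
  have x238t : α 238 = true := tt fun y => c1403 h x57f y x58f x250f
  have x249t : α 249 = true := tt fun y => c1422 h y x94f x57f
  have x92t : α 92 = true := tt fun y => c1409 h x94f x57f y
  have x352f : α 352 = false := ff fun y => c2939 h y x238t x204t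
  have x197f : α 197 = false := ff fun y => c2880 h x249t x238t y x204t
  have x237f : α 237 = false := ff fun y => c2047 h x249t x92t y x97t
  have x200t : α 200 = true := tt fun y => c1488 h y x352f x58f x250f
  have x351t : α 351 = true := tt fun y => c2887 h x197f x237f y
  have x233f : α 233 = false := ff fun y => l3586 h y x351t x200t x197f x91t x94f x61f
  have x201t : α 201 = true := tt fun y => c1420 h x94f x57f x233f y
  have x449t : α 449 = true := tt fun y => c2123 h y x94f x543f x233f
  have x353f : α 353 = false := ff fun y => c2906 h y x200t x351t x201t
  have x443f : α 443 = false := ff fun y => c2049 h x449t x92t y x97t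
  have x236t : α 236 = true := tt fun y => c1575 h x353f y x197f x61f
  have x547t : α 547 = true := tt fun y => c3043 h y x353f x443f x237f
  c2076 h x547t x236t x449t x92t

theorem l3588 (h : Good α) (x114f : α 114 = false) (x237f : α 237 = false) (x58t : α 58 = true) (x91f : α 91 = false) : False :=
  have x183t : α 183 = true := tt fun y => c1992 h x114f x91f y
  have x23f : α 23 = false := ff fun y => c696 h y x58t x183t
  have x84t : α 84 = true := tt fun y => c1867 h y x114f x237f
  have x19t : α 19 = true := tt fun y => c461 h x114f y x23f
  c482 h x84t x19t x58t

theorem l3589 (h : Good α) (x186f : α 186 = false) (x399t : α 399 = true) (x19t : α 19 = true) (x60f : α 60 = false) : False :=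
  have x15t : α 15 = true := tt fun y => c299 h y x60f x186f
  have x395t : α 395 = true := tt fun y => c1539 h x60f x186f y
  c282 h x15t x395t x19t x399t

theorem l3590 (h : Good α) (x340f : α 340 = false) (x28f : α 28 = false) (x80f : α 80 = false) (x19t : α 19 = true) (x205t : α 205 = true) (x380f : α 380 = false) (x22t : α 22 = true) (x242t : α 242 = true) (x57f : α 57 = false) (x91f : α 91 = false) (x94f : α 94 = false) (x212f : α 212 = false) (x189f : α 189 = false) (x1t : α 1 = true) (x61f : α 61 = false) : False :=
  have x149f := h.u2
  have x150t := h.u3
  have x58t : α 58 = true := tt fun y => c1397 h x94f x57f x91f y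
  have x201f : α 201 = false := ff fun y => c80 h x1t x58t y
  have x233t : α 233 = true := tt fun y => c1420 h x94f x57f y x201f
  have x60f : α 60 = false := ff fun y => l3449 h y x58t x1t
  have x54t : α 54 = true := tt fun y => c1309 h x94f y x91f
  have x59t : α 59 = true := tt fun y => c1499 h x149f x61f y
  have x56f : α 56 = false := ff fun y => c57 h y x1t x59t
  have x53t : α 53 = true := tt fun y => c1260 h x56f y x149f
  have x52f : α 52 = false := ff fun y => c21 h x53t x1t y
  have x325t : α 325 = true := tt fun y => c1561 h y x149f x61f
  have x487t : α 487 = true := tt fun y => c3286 h y x380f x340f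
  have x399t : α 399 = true := tt fun y => c3284 h x380f x340f y
  have x85f : α 85 = false := ff fun y => c1889 h x205t y x487t x399t
  have x20t : α 20 = true := tt fun y => c531 h x57f y x85f
  have x71f : α 71 = false := ff fun y => c537 h y x20t x59t
  have x378t : α 378 = true := tt fun y => l3452 h y x71f x80f x233t x242t x201f x52f x56f
  have x387f : α 387 = false := ff fun y => c517 h x22t x20t x378t y
  have x186t : α 186 = true := tt fun y => l3589 h y x399t x19t x60f
  have x418f : α 418 = false := ff fun y => c1521 h x325t y x59t x186t
  have x388f : α 388 = false := ff fun y => c1522 h x59t x186t y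
  have x267f : α 267 = false := ff fun y => c1515 h x59t x186t x150t y
  have x345t : α 345 = true := tt fun y => c3304 h x388f y x387f
  have x18t : α 18 = true := tt fun y => c443 h y x267f x91f x340f
  have x478t : α 478 = true := tt fun y => c3195 h x267f x340f y
  have x187f : α 187 = false := ff fun y => c431 h y x54t x18t
  have x102t : α 102 = true := tt fun y => c860 h x94f x28f x187f y
  have x260f : α 260 = false := ff fun y => c2247 h x102t y x478t
  have x87t : α 87 = true := tt fun y => c1920 h y x189f x260f x340f
  have x127t : α 127 = true := tt fun y => c2490 h y x212f x260f x340f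
  have x554f : α 554 = false := ff fun y => c2494 h y x325t x127t
  have x371f : α 371 = false := ff fun y => c1916 h x127t y x87t x345t
  c3319 h x554f x418f x371f

theorem l3591 (h : Good α) (x285f : α 285 = false) (x340t : α 340 = true) (x10t : α 10 = true) (x459t : α 459 = true) (x264f : α 264 = false) (x183t : α 183 = true) (x576f : α 576 = false) (x272f : α 272 = false) (x158f : α 158 = false) (x54t : α 54 = true) (x94f : α 94 = false) (x113t : α 113 = true) : False :=
  have x154t := h.u1
  have x150t := h.u3
  have x149f := h.u2
  have x260f : α 260 = false := ff fun y => l3503 h y x340t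
  have x28f : α 28 = false := ff fun y => c181 h x10t y x150t
  have x467t : α 467 = true := tt fun y => c2672 h y x285f x158f
  have x275f : α 275 = false := ff fun y => c2639 h x154t y x467t
  have x454f : α 454 = false := ff fun y => c2587 h x154t x150t x467t y
  have x381f : α 381 = false := ff fun y => c1332 h x154t x54t x467t y
  have x346t : α 346 = true := tt fun y => c3226 h y x275f x285f
  have x478t : α 478 = true := tt fun y => c3384 h x454f y x576f
  have x191t : α 191 = true := tt fun y => c2842 h y x260f x381f x454f
  have x339f : α 339 = false := ff fun y => c2761 h x183t x340t y x478t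
  have x24f : α 24 = false := ff fun y => c737 h y x54t x191t
  have x259t : α 259 = true := tt fun y => c3153 h x285f y x339f
  have x30t : α 30 = true := tt fun y => c725 h x94f x24f y
  have x108t : α 108 = true := tt fun y => c753 h x24f y x381f x454f
  have x282f : α 282 = false := ff fun y => c928 h x30t y x259t x478t
  have x120f : α 120 = false := ff fun y => c2310 h y x108t x154t x150t
  have x476t : α 476 = true := tt fun y => c877 h x264f y x28f x282f
  have x485t : α 485 = true := tt fun y => c2457 h y x272f x120f
  have x256f : α 256 = false := ff fun y => c2373 h x476t y x113t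
  have x44f : α 44 = false := ff fun y => c193 h x459t x10t x485t y
  have x101t : α 101 = true := tt fun y => c2228 h y x149f x256f
  have x280t : α 280 = true := tt fun y => c845 h y x264f x44f x28f
  c2237 h x485t x280t x346t x101t

theorem l3592 (h : Good α) (x19t : α 19 = true) (x183t : α 183 = true) (x379f : α 379 = false) (x257t : α 257 = true) (x239f : α 239 = false) (x242t : α 242 = true) (x114t : α 114 = true) (x57f : α 57 = false) (x91f : α 91 = false) (x94f : α 94 = false) (x212f : α 212 = false) (x113t : α 113 = true) (x189f : α 189 = false) (x1t : α 1 = true) (x61f : α 61 = false) : False :=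
  have x154t := h.u1
  have x149f := h.u2
  have x150t := h.u3
  have x272f : α 272 = false := ff fun y => c2380 h y x154t x114t
  have x22t : α 22 = true := tt fun y => c656 h x272f x94f y
  have x106f : α 106 = false := ff fun y => c660 h y x22t x257t x183t
  have x205t : α 205 = true := tt fun y => c2102 h x94f x106f y
  have x188t : α 188 = true := tt fun y => c2100 h y x94f x106f
  have x58t : α 58 = true := tt fun y => c1397 h x94f x57f x91f y
  have x380f : α 380 = false := ff fun y => c1482 h x58t x183t y
  have x201f : α 201 = false := ff fun y => c80 h x1t x58t y
  have x233t : α 233 = true := tt fun y => c1420 h x94f x57f y x201f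
  have x576f : α 576 = false := ff fun y => l3413 h y x233t x242t x201f
  have x59t : α 59 = true := tt fun y => c1499 h x149f x61f y
  have x56f : α 56 = false := ff fun y => c57 h y x1t x59t
  have x53t : α 53 = true := tt fun y => c1260 h x56f y x149f
  have x158f : α 158 = false := ff fun y => l3451 h y x233t x201f x53t
  have x54t : α 54 = true := tt fun y => c1309 h x94f y x91f
  have x264f : α 264 = false := ff fun y => c502 h x188t y x19t x113t
  have x452t : α 452 = true := tt fun y => c2582 h y x264f x149f
  have x386f : α 386 = false := ff fun y => c503 h y x452t x19t x113t
  have x179t : α 179 = true := tt fun y => c2714 h x386f x239f y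
  have x459t : α 459 = true := tt fun y => c3329 h y x386f x379f
  have x80f : α 80 = false := ff fun y => c1821 h x179t y x257t x183t
  have x10t : α 10 = true := tt fun y => c198 h x239f x80f y
  have x28f : α 28 = false := ff fun y => c181 h x10t y x150t
  have x340t : α 340 = true := tt fun y => l3590 h y x28f x80f x19t x205t x380f x22t x242t x57f x91f x94f x212f x189f x1t x61f
  have x285t : α 285 = true := tt fun y => l3591 h y x340t x10t x459t x264f x183t x576f x272f x158f x54t x94f x113t
  have x180t : α 180 = true := tt fun y => l3464 h x285t x340t x10t x459t x114t x28f x272f y x54t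
  have x70f : α 70 = false := ff fun y => c485 h x19t x113t y x180t
  have x387f : α 387 = false := ff fun y => c2718 h x180t x242t y
  c1693 h x70f x201f x387f

theorem l3593 (h : Good α) (x459t : α 459 = true) (x340t : α 340 = true) (x180f : α 180 = false) (x264f : α 264 = false) (x10t : α 10 = true) (x183t : α 183 = true) (x576f : α 576 = false) (x158f : α 158 = false) (x114t : α 114 = true) (x54t : α 54 = true) (x94f : α 94 = false) (x113t : α 113 = true) : False :=
  have x154t := h.u1
  have x150t := h.u3
  have x28f : α 28 = false := ff fun y => c181 h x10t y x150t
  have x272f : α 272 = false := ff fun y => c2380 h y x154t x114t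
  have x285t : α 285 = true := tt fun y => l3591 h y x340t x10t x459t x264f x183t x576f x272f x158f x54t x94f x113t
  l3464 h x285t x340t x10t x459t x114t x28f x272f x180f x54t

theorem l3594 (h : Good α) (x459f : α 459 = false) (x70t : α 70 = true) (x188t : α 188 = true) (x379f : α 379 = false) (x272f : α 272 = false) (x158f : α 158 = false) : False :=
  have x184t : α 184 = true := tt fun y => c2771 h x459f x379f x272f y
  have x81t : α 81 = true := tt fun y => c1837 h x459f x379f x158f y
  c1682 h x188t x184t x70t x81t

theorem l3595 (h : Good α) (x454t : α 454 = true) (x518f : α 518 = false) (x340f : α 340 = false) (x28f : α 28 = false) (x114t : α 114 = true) (x54t : α 54 = true) (x94f : α 94 = false) : False :=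
  have x154t := h.u1
  have x150t := h.u3
  have x272f : α 272 = false := ff fun y => c2380 h y x154t x114t
  have x467f : α 467 = false := ff fun y => c2587 h x154t x150t y x454t
  have x260f : α 260 = false := ff fun y => c2594 h x150t y x454t
  have x381f : α 381 = false := ff fun y => c1329 h x54t x150t y x454t
  have x477t : α 477 = true := tt fun y => c3397 h y x467f x518f
  have x278t : α 278 = true := tt fun y => c3161 h y x260f x340f
  have x275f : α 275 = false := ff fun y => c2396 h x477t y x114t
  have x191t : α 191 = true := tt fun y => c2844 h x275f y x467f x381f
  have x24f : α 24 = false := ff fun y => c737 h y x54t x191t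
  have x271t : α 271 = true := tt fun y => c747 h y x94f x24f
  have x187f : α 187 = false := ff fun y => c2796 h x271t y x191t
  have x102t : α 102 = true := tt fun y => c860 h x94f x28f x187f y
  have x346t : α 346 = true := tt fun y => c2112 h x272f x94f y x187f
  c2249 h x346t x102t x477t x278t

theorem l3596 (h : Good α) (x454f : α 454 = false) (x387f : α 387 = false) (x20t : α 20 = true) (x340f : α 340 = false) (x10t : α 10 = true) (x576f : α 576 = false) (x189f : α 189 = false) (x59t : α 59 = true) : False :=
  have x150t := h.u3
  have x28f : α 28 = false := ff fun y => c181 h x10t y x150t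
  have x234t : α 234 = true := tt fun y => c3008 h y x387f x454f x576f
  have x478t : α 478 = true := tt fun y => c3384 h x454f y x576f
  have x87f : α 87 = false := ff fun y => c1509 h x59t y x234t
  have x260t : α 260 = true := tt fun y => c1920 h x87f x189f y x340f
  have x99t : α 99 = true := tt fun y => c1912 h y x87f x189f
  have x108f : α 108 = false := ff fun y => c2314 h y x150t x260t
  have x102f : α 102 = false := ff fun y => c2247 h y x260t x478t
  have x14f : α 14 = false := ff fun y => c236 h x20t y x99t
  have x69f : α 69 = false := ff fun y => c1674 h y x99t x234t
  have x44t : α 44 = true := tt fun y => c843 h y x28f x108f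
  have x170t : α 170 = true := tt fun y => c261 h x69f x14f y x102f
  c190 h x10t x44t x170t

theorem l3597 (h : Good α) (x183t : α 183 = true) (x257t : α 257 = true) (x326t : α 326 = true) (x236f : α 236 = false) (x200t : α 200 = true) (x242t : α 242 = true) (x114t : α 114 = true) (x57f : α 57 = false) (x91f : α 91 = false) (x94f : α 94 = false) (x212f : α 212 = false) (x113t : α 113 = true) (x189f : α 189 = false) (x1t : α 1 = true) (x61f : α 61 = false) : False :=
  have x149f := h.u2
  have x150t := h.u3
  have x154t := h.u1
  have x59t : α 59 = true := tt fun y => c1499 h x149f x61f y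
  have x56f : α 56 = false := ff fun y => c57 h y x1t x59t
  have x53t : α 53 = true := tt fun y => c1260 h x56f y x149f
  have x54t : α 54 = true := tt fun y => c1309 h x94f y x91f
  have x239f : α 239 = false := ff fun y => c44 h y x200t x54t x1t
  have x379f : α 379 = false := ff fun y => l3463 h y x200t x239f x53t
  have x161t : α 161 = true := tt fun y => c2676 h x379f x236f y
  have x58t : α 58 = true := tt fun y => c1397 h x94f x57f x91f y
  have x201f : α 201 = false := ff fun y => c80 h x1t x58t y
  have x233t : α 233 = true := tt fun y => c1420 h x94f x57f y x201f
  have x576f : α 576 = false := ff fun y => l3413 h y x233t x242t x201f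
  have x272f : α 272 = false := ff fun y => c2380 h y x154t x114t
  have x22t : α 22 = true := tt fun y => c656 h x272f x94f y
  have x23f : α 23 = false := ff fun y => c687 h x154t x53t x114t y
  have x158f : α 158 = false := ff fun y => l3451 h y x233t x201f x53t
  have x52f : α 52 = false := ff fun y => c21 h x53t x1t y
  have x380f : α 380 = false := ff fun y => c1482 h x58t x183t y
  have x106f : α 106 = false := ff fun y => c660 h y x22t x257t x183t
  have x423f : α 423 = false := ff fun y => c2757 h y x257t x183t
  have x188t : α 188 = true := tt fun y => c2100 h y x94f x106f
  have x205t : α 205 = true := tt fun y => c2102 h x94f x106f y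
  have x19f : α 19 = false := ff fun y => l3592 h y x183t x379f x257t x239f x242t x114t x57f x91f x94f x212f x113t x189f x1t x61f
  have x70t : α 70 = true := tt fun y => c472 h x56f x19f y
  have x386t : α 386 = true := tt fun y => c462 h y x379f x19f x23f
  have x71f : α 71 = false := ff fun y => c1722 h x386t x200t y
  have x10t : α 10 = true := tt fun y => c195 h x236f x71f y
  have x452t : α 452 = true := tt fun y => c1724 h y x236f x71f
  have x28f : α 28 = false := ff fun y => c181 h x10t y x150t
  have x264f : α 264 = false := ff fun y => c2812 h x386t x452t x188t y
  have x180f : α 180 = false := ff fun y => c1692 h x386t x452t x70t y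
  have x459t : α 459 = true := tt fun y => l3594 h y x70t x188t x379f x272f x158f
  have x340f : α 340 = false := ff fun y => l3593 h x459t y x180f x264f x10t x183t x576f x158f x114t x54t x94f x113t
  have x487t : α 487 = true := tt fun y => c3286 h y x380f x340f
  have x399t : α 399 = true := tt fun y => c3284 h x380f x340f y
  have x85f : α 85 = false := ff fun y => c1889 h x205t y x487t x399t
  have x20t : α 20 = true := tt fun y => c531 h x57f y x85f
  have x117f : α 117 = false := ff fun y => c515 h x22t x20t y
  have x306f : α 306 = false := ff fun y => c544 h y x20t x326t x59t
  have x273t : α 273 = true := tt fun y => c2431 h x306f x117f x423f y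
  have x80f : α 80 = false := ff fun y => c1817 h y x161t x183t x273t
  have x378t : α 378 = true := tt fun y => l3452 h y x71f x80f x233t x242t x201f x52f x56f
  have x387f : α 387 = false := ff fun y => c517 h x22t x20t x378t y
  have x454t : α 454 = true := tt fun y => l3596 h y x387f x20t x340f x10t x576f x189f x59t
  have x467f : α 467 = false := ff fun y => c2587 h x154t x150t y x454t
  have x518t : α 518 = true := tt fun y => l3595 h x454t y x340f x28f x114t x54t x94f
  have x285t : α 285 = true := tt fun y => c2672 h x467f y x158f
  c2400 h x114t x285t x518t

theorem l3598 (h : Good α) (x180f : α 180 = false) (x459t : α 459 = true) (x10t : α 10 = true) (x273t : α 273 = true) (x378t : α 378 = true) (x183f : α 183 = false) (x257t : α 257 = true) (x576f : α 576 = false) (x158f : α 158 = false) (x114t : α 114 = true) (x233t : α 233 = true) (x91f : α 91 = false) (x94f : α 94 = false) (x97t : α 97 = true) (x56f : α 56 = false) (x202f : α 202 = false) (x313f : α 313 = false) : False :=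
  have x149f := h.u2
  have x154t := h.u1
  have x150t := h.u3
  have x340t : α 340 = true := tt fun y => c2006 h x91f x183f y
  have x260f : α 260 = false := ff fun y => l3503 h y x340t
  have x28f : α 28 = false := ff fun y => c874 h y x150t x340t
  have x272f : α 272 = false := ff fun y => c2380 h y x154t x114t
  have x54t : α 54 = true := tt fun y => c1309 h x94f y x91f
  have x70t : α 70 = true := tt fun y => c1369 h x56f x149f y x180f
  have x285f : α 285 = false := ff fun y => l3464 h y x340t x10t x459t x114t x28f x272f x180f x54t
  have x467t : α 467 = true := tt fun y => c2672 h y x285f x158f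
  have x275f : α 275 = false := ff fun y => c2639 h x154t y x467t
  have x454f : α 454 = false := ff fun y => c2587 h x154t x150t x467t y
  have x381f : α 381 = false := ff fun y => c1332 h x154t x54t x467t y
  have x346t : α 346 = true := tt fun y => c3226 h y x275f x285f
  have x478t : α 478 = true := tt fun y => c3384 h x454f y x576f
  have x384t : α 384 = true := tt fun y => c3330 h x381f y x454f
  have x191t : α 191 = true := tt fun y => c2842 h y x260f x381f x454f
  have x36f : α 36 = false := ff fun y => c1042 h x346t x154t y
  have x267f : α 267 = false := ff fun y => c3196 h y x340t x478t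
  have x339f : α 339 = false := ff fun y => c3279 h x384t y x378t
  have x24f : α 24 = false := ff fun y => c737 h y x54t x191t
  have x259t : α 259 = true := tt fun y => c2005 h x91f x183f y x339f
  have x30t : α 30 = true := tt fun y => c725 h x94f x24f y
  have x108t : α 108 = true := tt fun y => c753 h x24f y x381f x454f
  have x103f : α 103 = false := ff fun y => c1685 h y x70t x259t x233t
  have x187f : α 187 = false := ff fun y => c2794 h y x191t x259t
  have x282f : α 282 = false := ff fun y => c928 h x30t y x259t x478t
  have x120f : α 120 = false := ff fun y => c2310 h y x108t x154t x150t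
  have x86t : α 86 = true := tt fun y => c1897 h x275f y x285f x103f
  have x102t : α 102 = true := tt fun y => c860 h x94f x28f x187f y
  have x41t : α 41 = true := tt fun y => c1015 h y x282f x36f x267f
  have x314f : α 314 = false := ff fun y => l3569 h x120f x275f x54t y
  have x485t : α 485 = true := tt fun y => c2457 h y x272f x120f
  have x336f : α 336 = false := ff fun y => c1905 h x86t x191t y
  have x170f : α 170 = false := ff fun y => c2240 h y x102t x150t
  have x109f : α 109 = false := ff fun y => c908 h x41t x30t y
  have x157t : α 157 = true := tt fun y => c2653 h y x202f x314f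
  have x44f : α 44 = false := ff fun y => c193 h x459t x10t x485t y
  have x278t : α 278 = true := tt fun y => c2695 h x170f y x454f
  have x513t : α 513 = true := tt fun y => c2331 h x109f x282f y
  have x146f : α 146 = false := ff fun y => c2544 h y x157t x257t x273t
  have x355t : α 355 = true := tt fun y => c1133 h x44f x170f y
  have x31f : α 31 = false := ff fun y => c944 h y x97t x278t x340t
  have x558f : α 558 = false := ff fun y => c1113 h x41t x513t x114t y
  have x488t : α 488 = true := tt fun y => c2555 h x146f x313f x336f y
  have x132f : α 132 = false := ff fun y => c2180 h y x97t x355t x340t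
  have x550t : α 550 = true := tt fun y => c3256 h x313f x314f y x558f
  have x25f : α 25 = false := ff fun y => c787 h y x97t x488t x550t
  c768 h x132f x31f x25f

theorem l3599 (h : Good α) (x180t : α 180 = true) (x379f : α 379 = false) (x242t : α 242 = true) (x23f : α 23 = false) (x201f : α 201 = false) (x113t : α 113 = true) (x56f : α 56 = false) : False :=
  have x149f := h.u2
  have x387f : α 387 = false := ff fun y => c2718 h x180t x242t y
  have x70t : α 70 = true := tt fun y => c1693 h y x201f x387f
  have x19f : α 19 = false := ff fun y => c485 h y x113t x70t x180t
  have x188t : α 188 = true := tt fun y => c476 h y x56f x19f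
  have x386t : α 386 = true := tt fun y => c462 h y x379f x19f x23f
  have x264f : α 264 = false := ff fun y => c1691 h x188t y x70t x180t
  have x452f : α 452 = false := ff fun y => c1692 h x386t y x70t x180t
  c2582 h x452f x264f x149f

theorem l3600 (h : Good α) (x459f : α 459 = false) (x70t : α 70 = true) (x379f : α 379 = false) (x272f : α 272 = false) (x158f : α 158 = false) (x92t : α 92 = true) (x94f : α 94 = false) : False :=
  have x184t : α 184 = true := tt fun y => c2771 h x459f x379f x272f y
  have x188f : α 188 = false := ff fun y => l3594 h x459f x70t y x379f x272f x158f
  have x341f : α 341 = false := ff fun y => c2066 h y x184t x92t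
  c2117 h x341f x188f x94f

theorem l3601 (h : Good α) (x94f : α 94 = false) (x113t : α 113 = true) (x189f : α 189 = false) (x97t : α 97 = true) (x250f : α 250 = false) (x1t : α 1 = true) (x61f : α 61 = false) : False :=
  have x150t := h.u3
  have x154t := h.u1
  have x149f := h.u2
  have x212f : α 212 = false := ff fun y => c2178 h y x113t x97t
  have x543f : α 543 = false := ff fun y => l3582 h y x1t x61f
  have x59t : α 59 = true := tt fun y => c1499 h x149f x61f y
  have x56f : α 56 = false := ff fun y => c57 h y x1t x59t
  have x53t : α 53 = true := tt fun y => c1260 h x56f y x149f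
  have x196f : α 196 = false := ff fun y => c32 h y x53t x1t
  have x204t : α 204 = true := tt fun y => c2573 h x196f x149f y
  have x52f : α 52 = false := ff fun y => c21 h x53t x1t y
  have x202f : α 202 = false := ff fun y => c90 h x1t x59t y
  have x313f : α 313 = false := ff fun y => c1516 h x59t x150t y
  have x91f : α 91 = false := ff fun y => l3587 h y x94f x97t x250f x1t x61f
  have x238t : α 238 = true := tt fun y => c1982 h x94f y x91f x250f
  have x54t : α 54 = true := tt fun y => c1309 h x94f y x91f
  have x352f : α 352 = false := ff fun y => c2939 h y x238t x204t
  have x57f : α 57 = false := ff fun y => c70 h y x238t x1t x204t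
  have x328f : α 328 = false := ff fun y => c1331 h y x154t x54t
  have x249t : α 249 = true := tt fun y => c1422 h y x94f x57f
  have x92t : α 92 = true := tt fun y => c1409 h x94f x57f y
  have x58t : α 58 = true := tt fun y => c1397 h x94f x57f x91f y
  have x444f : α 444 = false := ff fun y => c2080 h x92t x238t y
  have x237f : α 237 = false := ff fun y => c2047 h x249t x92t y x97t
  have x201f : α 201 = false := ff fun y => c80 h x1t x58t y
  have x450t : α 450 = true := tt fun y => c1985 h x94f x444f x91f y
  have x443t : α 443 = true := tt fun y => c2024 h y x237f x91f
  have x233t : α 233 = true := tt fun y => c1420 h x94f x57f y x201f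
  have x409f : α 409 = false := ff fun y => c86 h x1t y x58t x450t
  have x114t : α 114 = true := tt fun y => l3588 h y x237f x58t x91f
  have x402f : α 402 = false := ff fun y => c84 h y x1t x443t x58t
  have x354f : α 354 = false := ff fun y => c1347 h x54t x204t x233t y
  have x158f : α 158 = false := ff fun y => l3451 h y x233t x201f x53t
  have x544t : α 544 = true := tt fun y => c3362 h y x444f x409f
  have x272f : α 272 = false := ff fun y => c2380 h y x154t x114t
  have x23f : α 23 = false := ff fun y => c687 h x154t x53t x114t y
  have x242t : α 242 = true := tt fun y => c1583 h x402f x61f x543f y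
  have x327t : α 327 = true := tt fun y => c3263 h x328f y x402f
  have x200t : α 200 = true := tt fun y => c2907 h y x352f x201f x354f
  have x236f : α 236 = false := ff fun y => c2189 h y x544t x97t x450t
  have x576f : α 576 = false := ff fun y => l3413 h y x233t x242t x201f
  have x538f : α 538 = false := ff fun y => c2640 h y x327t x154t
  have x298f : α 298 = false := ff fun y => c2381 h x327t x154t y x114t
  have x239f : α 239 = false := ff fun y => c44 h y x200t x54t x1t
  have x326t : α 326 = true := tt fun y => c3262 h x538f x402f y
  have x257t : α 257 = true := tt fun y => c3034 h x298f x237f y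
  have x379f : α 379 = false := ff fun y => l3463 h y x200t x239f x53t
  have x161t : α 161 = true := tt fun y => c2676 h x379f x236f y
  have x183f : α 183 = false := ff fun y => l3597 h y x257t x326t x236f x200t x242t x114t x57f x91f x94f x212f x113t x189f x1t x61f
  have x378t : α 378 = true := tt fun y => c1258 h x52f x183f y
  have x273t : α 273 = true := tt fun y => c2750 h x183f x189f y
  have x180f : α 180 = false := ff fun y => l3599 h y x379f x242t x23f x201f x113t x56f
  have x70t : α 70 = true := tt fun y => c1369 h x56f x149f y x180f
  have x459t : α 459 = true := tt fun y => l3600 h y x70t x379f x272f x158f x92t x94f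
  have x10f : α 10 = false := ff fun y => l3598 h x180f x459t y x273t x378t x183f x257t x576f x158f x114t x233t x91f x94f x97t x56f x202f x313f
  have x71t : α 71 = true := tt fun y => c195 h x236f y x10f
  have x80t : α 80 = true := tt fun y => c198 h x239f y x10f
  c1700 h x80t x71t x161t

theorem l3602 (h : Good α) (x200t : α 200 = true) (x233t : α 233 = true) (x58t : α 58 = true) (x379f : α 379 = false) (x10f : α 10 = false) (x94t : α 94 = true) (x97t : α 97 = true) (x1t : α 1 = true) (x61f : α 61 = false) : False :=
  have x91f : α 91 = false := ff fun y => c1457 h y x58t x97t
  have x543f : α 543 = false := ff fun y => l3582 h y x1t x61f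
  have x236f : α 236 = false := ff fun y => c1466 h x200t y x58t x97t
  have x92t : α 92 = true := tt fun y => c1548 h x236f y x61f
  have x71t : α 71 = true := tt fun y => c195 h x236f y x10f
  have x161t : α 161 = true := tt fun y => c2676 h x379f x236f y
  have x242f : α 242 = false := ff fun y => c2041 h x94t x92t x233t y
  have x80f : α 80 = false := ff fun y => c1700 h y x71t x161t
  have x402t : α 402 = true := tt fun y => c1583 h y x61f x543f x242f
  have x239t : α 239 = true := tt fun y => c198 h y x80f x10f
  have x443f : α 443 = false := ff fun y => c84 h x402t x1t y x58t
  have x353f : α 353 = false := ff fun y => c2914 h y x239t x200t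
  have x237t : α 237 = true := tt fun y => c2024 h x443f y x91f
  have x197t : α 197 = true := tt fun y => c1575 h x353f x236f y x61f
  c78 h x197t x1t x237t x58t

theorem l3603 (h : Good α) (x454f : α 454 = false) (x264f : α 264 = false) (x222t : α 222 = true) (x54f : α 54 = false) (x242f : α 242 = false) (x19f : α 19 = false) (x233t : α 233 = true) (x340t : α 340 = true) (x576f : α 576 = false) (x180f : α 180 = false) (x114t : α 114 = true) (x113t : α 113 = true) (x189f : α 189 = false) (x56f : α 56 = false) : False :=
  have x154t := h.u1
  have x149f := h.u2
  have x188t : α 188 = true := tt fun y => c476 h y x56f x19f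
  have x70t : α 70 = true := tt fun y => c1369 h x56f x149f y x180f
  have x158f : α 158 = false := ff fun y => c2379 h x154t x114t y
  have x478t : α 478 = true := tt fun y => c3384 h x454f y x576f
  have x7t : α 7 = true := tt fun y => c170 h y x180f x454f x576f
  have x285f : α 285 = false := ff fun y => c2398 h x114t x340t y x478t
  have x372f : α 372 = false := ff fun y => c2975 h x222t x340t y x478t
  have x467t : α 467 = true := tt fun y => c2672 h y x285f x158f
  have x259t : α 259 = true := tt fun y => c3155 h x372f x285f y
  have x275f : α 275 = false := ff fun y => c2639 h x154t y x467t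
  have x381f : α 381 = false := ff fun y => c2998 h y x259t x233t
  have x103f : α 103 = false := ff fun y => c1685 h y x70t x259t x233t
  have x346t : α 346 = true := tt fun y => c3226 h y x275f x285f
  have x191t : α 191 = true := tt fun y => c1338 h x54f y x381f
  have x86t : α 86 = true := tt fun y => c1897 h x275f y x285f x103f
  have x15t : α 15 = true := tt fun y => c280 h y x19f x103f
  have x268t : α 268 = true := tt fun y => c498 h x19f x189f x103f y
  have x187f : α 187 = false := ff fun y => c2794 h y x191t x259t
  have x112f : α 112 = false := ff fun y => c2360 h y x268t x478t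
  have x393t : α 393 = true := tt fun y => c1334 h y x187f x54f
  have x18t : α 18 = true := tt fun y => c430 h x187f x54f y
  have x185t : α 185 = true := tt fun y => c1300 h y x56f x187f x54f
  have x49t : α 49 = true := tt fun y => c1166 h y x180f x112f x242f
  have x385f : α 385 = false := ff fun y => c276 h y x15t x393t x18t
  have x344f : α 344 = false := ff fun y => c1902 h y x185t x86t
  have x254f : α 254 = false := ff fun y => c2776 h x188t x185t y
  have x256f : α 256 = false := ff fun y => c1170 h y x113t x49t
  have x240t : α 240 = true := tt fun y => c3072 h x385f x254f y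
  have x568t : α 568 = true := tt fun y => c3129 h y x385f x254f
  have x485t : α 485 = true := tt fun y => c2260 h y x344f x285f x103f
  have x101t : α 101 = true := tt fun y => c2228 h y x149f x256f
  have x366f : α 366 = false := ff fun y => c172 h x568t y x240t x7t
  have x280f : α 280 = false := ff fun y => c2237 h x485t y x346t x101t
  c3177 h x366f x280f x264f

theorem l3604 (h : Good α) (x92t : α 92 = true) (x19f : α 19 = false) (x353t : α 353 = true) (x236t : α 236 = true) (x405t : α 405 = true) (x233t : α 233 = true) (x183f : α 183 = false) (x576f : α 576 = false) (x180f : α 180 = false) (x114t : α 114 = true) (x94t : α 94 = true) (x113t : α 113 = true) (x189f : α 189 = false) (x97t : α 97 = true) (x1t : α 1 = true) (x61f : α 61 = false) : False :=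
  have x150t := h.u3
  have x154t := h.u1
  have x149f := h.u2
  have x59t : α 59 = true := tt fun y => c1499 h x149f x61f y
  have x56f : α 56 = false := ff fun y => c57 h y x1t x59t
  have x188t : α 188 = true := tt fun y => c476 h y x56f x19f
  have x53t : α 53 = true := tt fun y => c1260 h x56f y x149f
  have x196f : α 196 = false := ff fun y => c32 h y x53t x1t
  have x204t : α 204 = true := tt fun y => c2573 h x196f x149f y
  have x535f : α 535 = false := ff fun y => c124 h x405t y x1t x204t
  have x70t : α 70 = true := tt fun y => c1369 h x56f x149f y x180f
  have x11f : α 11 = false := ff fun y => c210 h y x70t x233t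
  have x23f : α 23 = false := ff fun y => c687 h x154t x53t x114t y
  have x58t : α 58 = true := tt fun y => c695 h x23f y x183f
  have x91f : α 91 = false := ff fun y => c1457 h y x58t x97t
  have x340t : α 340 = true := tt fun y => c2006 h x91f x183f y
  have x57f : α 57 = false := ff fun y => c62 h y x1t x58t
  have x201f : α 201 = false := ff fun y => c80 h x1t x58t y
  have x158f : α 158 = false := ff fun y => c2379 h x154t x114t y
  have x543f : α 543 = false := ff fun y => l3582 h y x1t x61f
  have x242f : α 242 = false := ff fun y => c2041 h x94t x92t x233t y
  have x249f : α 249 = false := ff fun y => c2072 h x353t x236t y x92t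
  have x402t : α 402 = true := tt fun y => c1583 h y x61f x543f x242f
  have x354t : α 354 = true := tt fun y => c2923 h x201f x242f y
  have x81t : α 81 = true := tt fun y => c212 h x11f y x242f
  have x443f : α 443 = false := ff fun y => c84 h x402t x1t y x58t
  have x54f : α 54 = false := ff fun y => c1347 h y x204t x233t x354t
  have x184f : α 184 = false := ff fun y => c1682 h x188t y x70t x81t
  have x237t : α 237 = true := tt fun y => c2024 h x443f y x91f
  have x222t : α 222 = true := tt fun y => l3414 h y x91f x237t x443f
  have x383t : α 383 = true := tt fun y => c1432 h y x184f x57f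
  have x545f : α 545 = false := ff fun y => c1496 h y x405t x237t x58t
  have x238t : α 238 = true := tt fun y => c3050 h x545f x535f x249f y
  have x264f : α 264 = false := ff fun y => c3055 h x383t y x238t
  have x454t : α 454 = true := tt fun y => l3603 h y x264f x222t x54f x242f x19f x233t x340t x576f x180f x114t x113t x189f x56f
  have x467f : α 467 = false := ff fun y => c2587 h x154t x150t y x454t
  have x285t : α 285 = true := tt fun y => c2672 h x467f y x158f
  have x478f : α 478 = false := ff fun y => c2398 h x114t x340t x285t y
  have x112t : α 112 = true := tt fun y => c2359 h y x242f x478f x576f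
  have x49t : α 49 = true := tt fun y => c1174 h y x180f x478f x576f
  have x190f : α 190 = false := ff fun y => c2174 h y x97t x112t
  have x256f : α 256 = false := ff fun y => c1170 h y x113t x49t
  c1560 h x149f x256f x61f x190f

theorem l3605 (h : Good α) (x233f : α 233 = false) (x91f : α 91 = false) (x379f : α 379 = false) (x10f : α 10 = false) (x94t : α 94 = true) (x97t : α 97 = true) (x250f : α 250 = false) (x204t : α 204 = true) (x1t : α 1 = true) : False :=
  have x54t : α 54 = true := tt fun y => c1314 h y x91f x233f
  have x354t : α 354 = true := tt fun y => c2014 h x91f x250f x233f y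
  have x238f : α 238 = false := ff fun y => c1321 h x94t y x54t x204t
  have x57f : α 57 = false := ff fun y => c36 h x94t y x54t x1t
  have x239f : α 239 = false := ff fun y => c1323 h y x94t x54t
  have x201f : α 201 = false := ff fun y => c120 h x1t x204t y x354t
  have x58t : α 58 = true := tt fun y => c1403 h x57f x238f y x250f
  have x200t : α 200 = true := tt fun y => c2901 h x239f y x233f x201f
  have x80t : α 80 = true := tt fun y => c198 h x239f y x10f
  have x236f : α 236 = false := ff fun y => c1466 h x200t y x58t x97t
  have x71t : α 71 = true := tt fun y => c195 h x236f y x10f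
  have x161t : α 161 = true := tt fun y => c2676 h x379f x236f y
  c1700 h x80t x71t x161t

theorem l3606 (h : Good α) (x54t : α 54 = true) (x233t : α 233 = true) (x94t : α 94 = true) (x204t : α 204 = true) (x1t : α 1 = true) : False :=
  have x238f : α 238 = false := ff fun y => c1321 h x94t y x54t x204t
  have x57f : α 57 = false := ff fun y => c36 h x94t y x54t x1t
  have x354f : α 354 = false := ff fun y => c1347 h x54t x204t x233t y
  have x201f : α 201 = false := ff fun y => c46 h x54t x1t x233t y
  c1441 h x57f x238f x201f x354f

theorem l3607 (h : Good α) (x201f : α 201 = false) (x406f : α 406 = false) (x354f : α 354 = false) (x238f : α 238 = false) (x1t : α 1 = true) : False :=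
  have x58t : α 58 = true := tt fun y => c1491 h y x201f x406f
  have x57t : α 57 = true := tt fun y => c1441 h y x238f x201f x354f
  c62 h x57t x1t x58t

theorem l3608 (h : Good α) (x201t : α 201 = true) (x238f : α 238 = false) (x233t : α 233 = true) (x94t : α 94 = true) (x250f : α 250 = false) (x1t : α 1 = true) : False :=
  have x58f : α 58 = false := ff fun y => c80 h x1t y x201t
  have x57f : α 57 = false := ff fun y => c1421 h x94t y x233t x201t
  c1403 h x57f x238f x58f x250f

theorem l3609 (h : Good α) (x354f : α 354 = false) (x201f : α 201 = false) (x238f : α 238 = false) (x250f : α 250 = false) (x204t : α 204 = true) (x1t : α 1 = true) : False :=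
  have x546t : α 546 = true := tt fun y => c3115 h x250f x354f y
  have x406t : α 406 = true := tt fun y => l3607 h x201f y x354f x238f x1t
  c125 h x1t x204t x406t x546t

theorem l3610 (h : Good α) (x406t : α 406 = true) (x238f : α 238 = false) (x91f : α 91 = false) (x379f : α 379 = false) (x10f : α 10 = false) (x94t : α 94 = true) (x97t : α 97 = true) (x250f : α 250 = false) (x1t : α 1 = true) (x61f : α 61 = false) : False :=
  have x149f := h.u2
  have x59t : α 59 = true := tt fun y => c1499 h x149f x61f y
  have x56f : α 56 = false := ff fun y => c57 h y x1t x59t
  have x53t : α 53 = true := tt fun y => c1260 h x56f y x149f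
  have x196f : α 196 = false := ff fun y => c32 h y x53t x1t
  have x204t : α 204 = true := tt fun y => c2573 h x196f x149f y
  have x233t : α 233 = true := tt fun y => l3605 h y x91f x379f x10f x94t x97t x250f x204t x1t
  have x546f : α 546 = false := ff fun y => c125 h x1t x204t x406t y
  have x439t : α 439 = true := tt fun y => c2030 h x91f x250f y x546f
  have x57f : α 57 = false := ff fun y => c1426 h x94t y x439t x406t
  have x534f : α 534 = false := ff fun y => c3358 h y x439t x406t
  have x58t : α 58 = true := tt fun y => c1403 h x57f x238f y x250f
  have x92t : α 92 = true := tt fun y => c1415 h x57f y x238f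
  have x237t : α 237 = true := tt fun y => c3032 h y x250f x534f x546f
  have x200f : α 200 = false := ff fun y => l3602 h y x233t x58t x379f x10f x94t x97t x1t x61f
  have x249f : α 249 = false := ff fun y => c2047 h y x92t x237t x97t
  have x405t : α 405 = true := tt fun y => c1437 h y x200f x57f
  have x535f : α 535 = false := ff fun y => c124 h x405t y x1t x204t
  have x545f : α 545 = false := ff fun y => c1496 h y x405t x237t x58t
  c3050 h x545f x535f x249f x238f

theorem l3611 (h : Good α) (x238f : α 238 = false) (x91f : α 91 = false) (x379f : α 379 = false) (x10f : α 10 = false) (x94t : α 94 = true) (x97t : α 97 = true) (x250f : α 250 = false) (x1t : α 1 = true) (x61f : α 61 = false) : False :=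
  have x149f := h.u2
  have x59t : α 59 = true := tt fun y => c1499 h x149f x61f y
  have x56f : α 56 = false := ff fun y => c57 h y x1t x59t
  have x53t : α 53 = true := tt fun y => c1260 h x56f y x149f
  have x196f : α 196 = false := ff fun y => c32 h y x53t x1t
  have x204t : α 204 = true := tt fun y => c2573 h x196f x149f y
  have x233t : α 233 = true := tt fun y => l3605 h y x91f x379f x10f x94t x97t x250f x204t x1t
  have x543f : α 543 = false := ff fun y => l3582 h y x1t x61f
  have x201f : α 201 = false := ff fun y => l3608 h y x238f x233t x94t x250f x1t
  have x354t : α 354 = true := tt fun y => l3609 h y x201f x238f x250f x204t x1t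
  have x406f : α 406 = false := ff fun y => l3610 h y x238f x91f x379f x10f x94t x97t x250f x1t x61f
  have x58t : α 58 = true := tt fun y => c1491 h y x201f x406f
  have x57f : α 57 = false := ff fun y => c62 h y x1t x58t
  have x92t : α 92 = true := tt fun y => c1415 h x57f y x238f
  have x546t : α 546 = true := tt fun y => c1446 h x57f x238f x406f y
  have x242f : α 242 = false := ff fun y => c2041 h x94t x92t x233t y
  have x439f : α 439 = false := ff fun y => c3003 h x233t x354t y x546t
  have x402t : α 402 = true := tt fun y => c1583 h y x61f x543f x242f
  have x447t : α 447 = true := tt fun y => c2925 h x201f x242f x406f y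
  have x534t : α 534 = true := tt fun y => c3357 h y x439f x406f
  have x443f : α 443 = false := ff fun y => c84 h x402t x1t y x58t
  have x237f : α 237 = false := ff fun y => c2192 h y x97t x534t x447t
  c2024 h x443f x237f x91f

theorem l3612 (h : Good α) (x499f : α 499 = false) (x346t : α 346 = true) (x326f : α 326 = false) (x197f : α 197 = false) (x323f : α 323 = false) : False :=
  have x392t : α 392 = true := tt fun y => c2893 h x499f x323f y x197f
  have x495t : α 495 = true := tt fun y => c3259 h x499f x323f y x326f
  c3307 h x346t x392t x495t

theorem l3613 (h : Good α) (x457t : α 457 = true) (x346t : α 346 = true) (x147t : α 147 = true) (x326f : α 326 = false) (x494t : α 494 = true) (x323f : α 323 = false) (x325t : α 325 = true) (x57f : α 57 = false) (x197f : α 197 = false) (x237t : α 237 = true) : False :=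
  have x499t : α 499 = true := tt fun y => l3612 h y x346t x326f x197f x323f
  have x394f : α 394 = false := ff fun y => c3308 h x499t y x346t
  have x74f : α 74 = false := ff fun y => c1764 h y x237t x457t
  have x213t : α 213 = true := tt fun y => c1757 h x197f x74f x326f y
  have x392t : α 392 = true := tt fun y => c1759 h y x197f x74f
  have x219t : α 219 = true := tt fun y => c1758 h x323f y x197f x74f
  have x495f : α 495 = false := ff fun y => c2964 h x499t x219t y x213t
  have x55f : α 55 = false := ff fun y => c1364 h x392t y x457t x147t
  have x199t : α 199 = true := tt fun y => c2898 h x394f y x495f x326f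
  have x398t : α 398 = true := tt fun y => c1358 h y x57f x394f x55f
  c2897 h x398t x494t x199t x325t

theorem l3614 (h : Good α) (x346t : α 346 = true) (x199f : α 199 = false) (x326f : α 326 = false) (x323f : α 323 = false) (x197f : α 197 = false) : False :=
  have x499t : α 499 = true := tt fun y => l3612 h y x346t x326f x197f x323f
  have x394f : α 394 = false := ff fun y => c3308 h x499t y x346t
  have x495t : α 495 = true := tt fun y => c2898 h x394f x199f y x326f
  have x392t : α 392 = true := tt fun y => c2876 h x394f x199f y x197f
  c3307 h x346t x392t x495t

theorem l3615 (h : Good α) (x91t : α 91 = true) (x58t : α 58 = true) (x61f : α 61 = false) (x197f : α 197 = false) : False :=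
  have x97f : α 97 = false := ff fun y => c1457 h x91t x58t y
  have x237f : α 237 = false := ff fun y => c1462 h y x91t x58t
  c1553 h x197f x61f x237f x97f

theorem l3616 (h : Good α) (x4t : α 4 = true) (x36t : α 36 = true) : False :=
  have x154t := h.u1
  c131 h x154t x36t x4t

theorem l3617 (h : Good α) (x7f : α 7 = false) (x27f : α 27 = false) : False :=
  have x149f := h.u2
  c164 h x149f x27f x7f

theorem l3618 (h : Good α) (x10t : α 10 = true) (x28t : α 28 = true) : False :=
  have x150t := h.u3
  c181 h x10t x28t x150t

theorem l3619 (h : Good α) (x101f : α 101 = false) (x14f : α 14 = false) (x59f : α 59 = false) : False :=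
  have x149f := h.u2
  c256 h x101f x149f x14f x59f

theorem l3620 (h : Good α) (x102t : α 102 = true) (x14t : α 14 = true) (x59t : α 59 = true) : False :=
  have x150t := h.u3
  c257 h x14t x59t x102t x150t

theorem l3621 (h : Good α) (x108t : α 108 = true) (x16t : α 16 = true) (x52t : α 52 = true) : False :=
  have x150t := h.u3
  c344 h x16t x108t x52t x150t

theorem l3622 (h : Good α) (x120t : α 120 = true) (x16t : α 16 = true) (x52t : α 52 = true) : False :=
  have x154t := h.u1
  c345 h x120t x16t x154t x52t

theorem l3623 (h : Good α) (x113f : α 113 = false) (x19f : α 19 = false) (x56f : α 56 = false) : False :=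
  have x149f := h.u2
  c474 h x56f x149f x19f x113f

theorem l3624 (h : Good α) (x114t : α 114 = true) (x19t : α 19 = true) (x56t : α 56 = true) : False :=
  have x154t := h.u1
  c475 h x154t x56t x114t x19t

theorem l3625 (h : Good α) (x21f : α 21 = false) (x101f : α 101 = false) (x61f : α 61 = false) : False :=
  have x149f := h.u2
  c598 h x101f x149f x21f x61f

theorem l3626 (h : Good α) (x21t : α 21 = true) (x102t : α 102 = true) (x61t : α 61 = true) : False :=
  have x150t := h.u3
  c599 h x21t x61t x102t x150t

end Q110.RC
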