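import Pool.Agent.Q110.RC.Lem0

/-! # Generated part of the refutation used for `S(4)` -/

set_option linter.all false

namespace Q110.RC

variable {α : Nat → Bool}

theorem l3627 (h : Good α) (x23f : α 23 = false) (x113f : α 113 = false) (x53f : α 53 = false) : False :=
  have x149f := h.u2
  c686 h x53f x149f x23f x113f

theorem l3628 (h : Good α) (x23t : α 23 = true) (x114t : α 114 = true) (x53t : α 53 = true) : False :=
  have x154t := h.u1
  c687 h x154t x53t x114t x23t

theorem l3629 (h : Good α) (x24t : α 24 = true) (x108t : α 108 = true) (x54t : α 54 = true) : False :=
  have x150t := h.u3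
  c734 h x24t x108t x54t x150t

theorem l3630 (h : Good α) (x24t : α 24 = true) (x120t : α 120 = true) (x54t : α 54 = true) : False :=
  have x154t := h.u1
  c735 h x120t x24t x154t x54t

theorem l3631 (h : Good α) (x27f : α 27 = false) (x83f : α 83 = false) (x204f : α 204 = false) : False :=
  have x149f := h.u2
  c823 h x149f x204f x27f x83f

theorem l3632 (h : Good α) (x27f : α 27 = false) (x337f : α 337 = false) : False :=
  have x149f := h.u2
  c833 h x337f x149f x27f

theorem l3633 (h : Good α) (x195t : α 195 = true) (x28t : α 28 = true) (x62t : α 62 = true) : False :=
  have x150t := h.u3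
  c849 h x62t x28t x195t x150t

theorem l3634 (h : Good α) (x28t : α 28 = true) (x85t : α 85 = true) (x202t : α 202 = true) : False :=
  have x150t := h.u3
  c853 h x28t x85t x150t x202t

theorem l3635 (h : Good α) (x312t : α 312 = true) (x28t : α 28 = true) (x205t : α 205 = true) : False :=
  have x150t := h.u3
  c873 h x205t x28t x312t x150t

theorem l3636 (h : Good α) (x28t : α 28 = true) (x340t : α 340 = true) : False :=
  have x150t := h.u3
  c874 h x28t x150t x340t

theorem l3637 (h : Good α) (x36t : α 36 = true) (x74t : α 74 = true) (x197t : α 197 = true) : False :=
  have x154t := h.u1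
  c1024 h x154t x36t x197t x74t

theorem l3638 (h : Good α) (x199t : α 199 = true) (x36t : α 36 = true) (x77t : α 77 = true) : False :=
  have x154t := h.u1
  c1028 h x199t x77t x154t x36t

theorem l3639 (h : Good α) (x36t : α 36 = true) (x346t : α 346 = true) : False :=
  have x154t := h.u1
  c1042 h x346t x154t x36t

theorem l3640 (h : Good α) (x54t : α 54 = true) (x52t : α 52 = true) : False :=
  have x150t := h.u3
  c1222 h x54t x52t x150t

theorem l3641 (h : Good α) (x68t : α 68 = true) (x167t : α 167 = true) (x52t : α 52 = true) : False :=
  have x150t := h.u3
  c1229 h x68t x167t x52t x150t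

theorem l3642 (h : Good α) (x68t : α 68 = true) (x175t : α 175 = true) (x52t : α 52 = true) : False :=
  have x154t := h.u1
  c1230 h x175t x68t x154t x52t

theorem l3643 (h : Good α) (x181t : α 181 = true) (x260t : α 260 = true) (x52t : α 52 = true) : False :=
  have x150t := h.u3
  c1244 h x52t x150t x181t x260t

theorem l3644 (h : Good α) (x52t : α 52 = true) (x314t : α 314 = true) : False :=
  have x150t := h.u3
  c1245 h x52t x150t x314t

theorem l3645 (h : Good α) (x384t : α 384 = true) (x454t : α 454 = true) (x52t : α 52 = true) : False :=
  have x150t := h.u3
  c1246 h x52t x150t x384t x454t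

theorem l3646 (h : Good α) (x181t : α 181 = true) (x275t : α 275 = true) (x52t : α 52 = true) : False :=
  have x154t := h.u1
  c1247 h x154t x52t x275t x181t

theorem l3647 (h : Good α) (x384t : α 384 = true) (x467t : α 467 = true) (x52t : α 52 = true) : False :=
  have x154t := h.u1
  c1248 h x154t x52t x467t x384t

theorem l3648 (h : Good α) (x53f : α 53 = false) (x56f : α 56 = false) : False :=
  have x149f := h.u2
  c1260 h x56f x53f x149f

theorem l3649 (h : Good α) (x53t : α 53 = true) (x56t : α 56 = true) : False :=
  have x154t := h.u1
  c1261 h x154t x56t x53t

theorem l3650 (h : Good α) (x81f : α 81 = false) (x180f : α 180 = false) (x53f : α 53 = false) : False :=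
  have x149f := h.u2
  c1267 h x53f x149f x81f x180f

theorem l3651 (h : Good α) (x81t : α 81 = true) (x158t : α 158 = true) (x53t : α 53 = true) : False :=
  have x154t := h.u1
  c1268 h x154t x53t x158t x81t

theorem l3652 (h : Good α) (x184f : α 184 = false) (x264f : α 264 = false) (x53f : α 53 = false) : False :=
  have x149f := h.u2
  c1279 h x184f x264f x53f x149f

theorem l3653 (h : Good α) (x53f : α 53 = false) (x335f : α 335 = false) : False :=
  have x149f := h.u2
  c1280 h x53f x149f x335f

theorem l3654 (h : Good α) (x379f : α 379 = false) (x452f : α 452 = false) (x53f : α 53 = false) : False :=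
  have x149f := h.u2
  c1281 h x379f x452f x53f x149f

theorem l3655 (h : Good α) (x184t : α 184 = true) (x272t : α 272 = true) (x53t : α 53 = true) : False :=
  have x154t := h.u1
  c1286 h x272t x184t x154t x53t

theorem l3656 (h : Good α) (x63t : α 63 = true) (x175t : α 175 = true) (x54t : α 54 = true) : False :=
  have x154t := h.u1
  c1308 h x175t x63t x154t x54t

theorem l3657 (h : Good α) (x191t : α 191 = true) (x260t : α 260 = true) (x54t : α 54 = true) : False :=
  have x150t := h.u3
  c1328 h x54t x150t x191t x260t

theorem l3658 (h : Good α) (x381t : α 381 = true) (x454t : α 454 = true) (x54t : α 54 = true) : False :=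
  have x150t := h.u3
  c1329 h x54t x150t x381t x454t

theorem l3659 (h : Good α) (x191t : α 191 = true) (x275t : α 275 = true) (x54t : α 54 = true) : False :=
  have x154t := h.u1
  c1330 h x154t x54t x275t x191t

theorem l3660 (h : Good α) (x54t : α 54 = true) (x328t : α 328 = true) : False :=
  have x154t := h.u1
  c1331 h x328t x154t x54t

theorem l3661 (h : Good α) (x381t : α 381 = true) (x467t : α 467 = true) (x54t : α 54 = true) : False :=
  have x154t := h.u1
  c1332 h x154t x54t x467t x381t

theorem l3662 (h : Good α) (x70f : α 70 = false) (x180f : α 180 = false) (x56f : α 56 = false) : False :=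
  have x149f := h.u2
  c1369 h x56f x149f x70f x180f

theorem l3663 (h : Good α) (x70t : α 70 = true) (x158t : α 158 = true) (x56t : α 56 = true) : False :=
  have x154t := h.u1
  c1370 h x154t x56t x158t x70t

theorem l3664 (h : Good α) (x188f : α 188 = false) (x264f : α 264 = false) (x56f : α 56 = false) : False :=
  have x149f := h.u2
  c1381 h x188f x264f x56f x149f

theorem l3665 (h : Good α) (x386f : α 386 = false) (x452f : α 452 = false) (x56f : α 56 = false) : False :=
  have x149f := h.u2
  c1382 h x386f x452f x56f x149f

theorem l3666 (h : Good α) (x188t : α 188 = true) (x272t : α 272 = true) (x56t : α 56 = true) : False :=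
  have x154t := h.u1
  c1385 h x272t x188t x154t x56t

theorem l3667 (h : Good α) (x56t : α 56 = true) (x327t : α 327 = true) : False :=
  have x154t := h.u1
  c1386 h x327t x154t x56t

theorem l3668 (h : Good α) (x386t : α 386 = true) (x459t : α 459 = true) (x56t : α 56 = true) : False :=
  have x154t := h.u1
  c1387 h x459t x386t x154t x56t

theorem l3669 (h : Good α) (x59f : α 59 = false) (x61f : α 61 = false) : False :=
  have x149f := h.u2
  c1499 h x149f x61f x59f

theorem l3670 (h : Good α) (x59t : α 59 = true) (x61t : α 61 = true) : False :=
  have x150t := h.u3
  c1500 h x61t x59t x150t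

theorem l3671 (h : Good α) (x69f : α 69 = false) (x164f : α 164 = false) (x59f : α 59 = false) : False :=
  have x149f := h.u2
  c1501 h x164f x149f x69f x59f

theorem l3672 (h : Good α) (x256f : α 256 = false) (x186f : α 186 = false) (x59f : α 59 = false) : False :=
  have x149f := h.u2
  c1514 h x149f x256f x59f x186f

theorem l3673 (h : Good α) (x186t : α 186 = true) (x267t : α 267 = true) (x59t : α 59 = true) : False :=
  have x150t := h.u3
  c1515 h x59t x186t x150t x267t

theorem l3674 (h : Good α) (x59t : α 59 = true) (x313t : α 313 = true) : False :=
  have x150t := h.u3
  c1516 h x59t x150t x313t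

theorem l3675 (h : Good α) (x78t : α 78 = true) (x170t : α 170 = true) (x61t : α 61 = true) : False :=
  have x150t := h.u3
  c1543 h x78t x61t x170t x150t

theorem l3676 (h : Good α) (x190f : α 190 = false) (x256f : α 256 = false) (x61f : α 61 = false) : False :=
  have x149f := h.u2
  c1560 h x149f x256f x61f x190f

theorem l3677 (h : Good α) (x61f : α 61 = false) (x325f : α 325 = false) : False :=
  have x149f := h.u2
  c1561 h x325f x149f x61f

theorem l3678 (h : Good α) (x267t : α 267 = true) (x190t : α 190 = true) (x61t : α 61 = true) : False :=
  have x150t := h.u3
  c1563 h x61t x190t x150t x267t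

theorem l3679 (h : Good α) (x101f : α 101 = false) (x164f : α 164 = false) : False :=
  have x149f := h.u2
  c2227 h x164f x101f x149f

theorem l3680 (h : Good α) (x101f : α 101 = false) (x256f : α 256 = false) : False :=
  have x149f := h.u2
  c2228 h x101f x149f x256f

theorem l3681 (h : Good α) (x290f : α 290 = false) (x101f : α 101 = false) (x313f : α 313 = false) : False :=
  have x149f := h.u2
  c2229 h x101f x149f x290f x313f

theorem l3682 (h : Good α) (x102t : α 102 = true) (x170t : α 170 = true) : False :=
  have x150t := h.u3
  c2240 h x170t x102t x150t

theorem l3683 (h : Good α) (x102t : α 102 = true) (x267t : α 267 = true) : False :=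
  have x150t := h.u3
  c2241 h x102t x150t x267t

theorem l3684 (h : Good α) (x297t : α 297 = true) (x102t : α 102 = true) (x325t : α 325 = true) : False :=
  have x150t := h.u3
  c2242 h x297t x325t x102t x150t

theorem l3685 (h : Good α) (x108t : α 108 = true) (x120t : α 120 = true) : False :=
  have x150t := h.u3
  have x154t := h.u1
  c2310 h x120t x108t x154t x150t

theorem l3686 (h : Good α) (x108t : α 108 = true) (x167t : α 167 = true) : False :=
  have x150t := h.u3
  c2313 h x167t x108t x150t

theorem l3687 (h : Good α) (x108t : α 108 = true) (x260t : α 260 = true) : False :=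
  have x150t := h.u3
  c2314 h x108t x150t x260t

theorem l3688 (h : Good α) (x291t : α 291 = true) (x108t : α 108 = true) (x314t : α 314 = true) : False :=
  have x150t := h.u3
  c2315 h x108t x291t x150t x314t

theorem l3689 (h : Good α) (x308t : α 308 = true) (x108t : α 108 = true) (x328t : α 328 = true) : False :=
  have x150t := h.u3
  c2316 h x308t x108t x328t x150t

theorem l3690 (h : Good α) (x113f : α 113 = false) (x180f : α 180 = false) : False :=
  have x149f := h.u2
  c2363 h x149f x113f x180f

theorem l3691 (h : Good α) (x113f : α 113 = false) (x264f : α 264 = false) : False :=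
  have x149f := h.u2
  c2364 h x264f x149f x113f

theorem l3692 (h : Good α) (x113f : α 113 = false) (x327f : α 327 = false) (x298f : α 298 = false) : False :=
  have x149f := h.u2
  c2365 h x327f x149f x298f x113f

theorem l3693 (h : Good α) (x307f : α 307 = false) (x113f : α 113 = false) (x335f : α 335 = false) : False :=
  have x149f := h.u2
  c2366 h x149f x335f x113f x307f

theorem l3694 (h : Good α) (x114t : α 114 = true) (x158t : α 158 = true) : False :=
  have x154t := h.u1
  c2379 h x154t x114t x158t

theorem l3695 (h : Good α) (x114t : α 114 = true) (x272t : α 272 = true) : False :=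
  have x154t := h.u1
  c2380 h x272t x154t x114t

theorem l3696 (h : Good α) (x298t : α 298 = true) (x327t : α 327 = true) (x114t : α 114 = true) : False :=
  have x154t := h.u1
  c2381 h x327t x154t x298t x114t

theorem l3697 (h : Good α) (x335t : α 335 = true) (x307t : α 307 = true) (x114t : α 114 = true) : False :=
  have x154t := h.u1
  c2382 h x154t x335t x114t x307t

theorem l3698 (h : Good α) (x120t : α 120 = true) (x175t : α 175 = true) : False :=
  have x154t := h.u1
  c2451 h x175t x120t x154t

theorem l3699 (h : Good α) (x120t : α 120 = true) (x275t : α 275 = true) : False :=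
  have x154t := h.u1
  c2452 h x120t x154t x275t

theorem l3700 (h : Good α) (x291t : α 291 = true) (x314t : α 314 = true) (x120t : α 120 = true) : False :=
  have x154t := h.u1
  c2453 h x120t x291t x154t x314t

theorem l3701 (h : Good α) (x308t : α 308 = true) (x328t : α 328 = true) (x120t : α 120 = true) : False :=
  have x154t := h.u1
  c2454 h x308t x120t x328t x154t

theorem l3702 (h : Good α) (x196f : α 196 = false) (x204f : α 204 = false) : False :=
  have x149f := h.u2
  c2573 h x196f x149f x204f

theorem l3703 (h : Good α) (x196f : α 196 = false) (x324f : α 324 = false) : False :=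
  have x149f := h.u2
  c2574 h x324f x196f x149f

theorem l3704 (h : Good α) (x377f : α 377 = false) (x337f : α 337 = false) (x196f : α 196 = false) : False :=
  have x149f := h.u2
  c2575 h x377f x337f x196f x149f

theorem l3705 (h : Good α) (x204f : α 204 = false) (x334f : α 334 = false) : False :=
  have x149f := h.u2
  c2576 h x149f x204f x334f

theorem l3706 (h : Good α) (x337f : α 337 = false) (x391f : α 391 = false) (x204f : α 204 = false) : False :=
  have x149f := h.u2
  c2577 h x337f x391f x149f x204f

theorem l3707 (h : Good α) (x256f : α 256 = false) (x411f : α 411 = false) (x313f : α 313 = false) : False :=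
  have x149f := h.u2
  c2578 h x149f x256f x313f x411f

theorem l3708 (h : Good α) (x256f : α 256 = false) (x474f : α 474 = false) : False :=
  have x149f := h.u2
  c2579 h x149f x256f x474f

theorem l3709 (h : Good α) (x429f : α 429 = false) (x327f : α 327 = false) (x264f : α 264 = false) : False :=
  have x149f := h.u2
  c2580 h x429f x264f x327f x149f

theorem l3710 (h : Good α) (x424f : α 424 = false) (x335f : α 335 = false) (x264f : α 264 = false) : False :=
  have x149f := h.u2
  c2581 h x264f x424f x149f x335f

theorem l3711 (h : Good α) (x264f : α 264 = false) (x452f : α 452 = false) : False :=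
  have x149f := h.u2
  c2582 h x452f x264f x149f

theorem l3712 (h : Good α) (x335f : α 335 = false) (x542f : α 542 = false) : False :=
  have x149f := h.u2
  c2583 h x149f x335f x542f

theorem l3713 (h : Good α) (x337f : α 337 = false) (x575f : α 575 = false) : False :=
  have x149f := h.u2
  c2584 h x575f x337f x149f

theorem l3714 (h : Good α) (x167t : α 167 = true) (x175t : α 175 = true) : False :=
  have x154t := h.u1
  have x150t := h.u3
  c2585 h x175t x167t x154t x150t

theorem l3715 (h : Good α) (x260t : α 260 = true) (x275t : α 275 = true) : False :=
  have x154t := h.u1
  have x150t := h.u3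
  c2586 h x154t x150t x275t x260t

theorem l3716 (h : Good α) (x454t : α 454 = true) (x467t : α 467 = true) : False :=
  have x154t := h.u1
  have x150t := h.u3
  c2587 h x154t x150t x467t x454t

theorem l3717 (h : Good α) (x195t : α 195 = true) (x202t : α 202 = true) : False :=
  have x150t := h.u3
  c2588 h x195t x150t x202t

theorem l3718 (h : Good α) (x202t : α 202 = true) (x333t : α 333 = true) : False :=
  have x150t := h.u3
  c2590 h x150t x202t x333t

theorem l3719 (h : Good α) (x202t : α 202 = true) (x340t : α 340 = true) (x399t : α 399 = true) : False :=
  have x150t := h.u3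
  c2591 h x150t x202t x340t x399t

theorem l3720 (h : Good α) (x425t : α 425 = true) (x260t : α 260 = true) (x328t : α 328 = true) : False :=
  have x150t := h.u3
  c2593 h x328t x150t x425t x260t

theorem l3721 (h : Good α) (x260t : α 260 = true) (x454t : α 454 = true) : False :=
  have x150t := h.u3
  c2594 h x150t x260t x454t

theorem l3722 (h : Good α) (x267t : α 267 = true) (x464t : α 464 = true) : False :=
  have x150t := h.u3
  c2595 h x150t x267t x464t

theorem l3723 (h : Good α) (x312t : α 312 = true) (x340t : α 340 = true) (x487t : α 487 = true) : False :=
  have x150t := h.u3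
  c2596 h x312t x150t x487t x340t

theorem l3724 (h : Good α) (x340t : α 340 = true) (x576t : α 576 = true) : False :=
  have x150t := h.u3
  c2597 h x150t x340t x576t

theorem l3725 (h : Good α) (x197t : α 197 = true) (x199t : α 199 = true) : False :=
  have x154t := h.u1
  c2629 h x199t x154t x197t

theorem l3726 (h : Good α) (x197t : α 197 = true) (x326t : α 326 = true) : False :=
  have x154t := h.u1
  c2630 h x154t x197t x326t

theorem l3727 (h : Good α) (x346t : α 346 = true) (x392t : α 392 = true) (x197t : α 197 = true) : False :=
  have x154t := h.u1
  c2631 h x346t x154t x392t x197t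

theorem l3728 (h : Good α) (x199t : α 199 = true) (x323t : α 323 = true) : False :=
  have x154t := h.u1
  c2632 h x323t x199t x154t

theorem l3729 (h : Good α) (x199t : α 199 = true) (x394t : α 394 = true) (x346t : α 346 = true) : False :=
  have x154t := h.u1
  c2633 h x394t x199t x346t x154t

theorem l3730 (h : Good α) (x429t : α 429 = true) (x272t : α 272 = true) (x327t : α 327 = true) : False :=
  have x154t := h.u1
  c2634 h x429t x272t x327t x154t

theorem l3731 (h : Good α) (x424t : α 424 = true) (x335t : α 335 = true) (x272t : α 272 = true) : False :=
  have x154t := h.u1
  c2635 h x272t x424t x154t x335t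

theorem l3732 (h : Good α) (x272t : α 272 = true) (x459t : α 459 = true) : False :=
  have x154t := h.u1
  c2636 h x459t x272t x154t

theorem l3733 (h : Good α) (x413t : α 413 = true) (x275t : α 275 = true) (x314t : α 314 = true) : False :=
  have x154t := h.u1
  c2637 h x154t x314t x275t x413t

theorem l3734 (h : Good α) (x425t : α 425 = true) (x275t : α 275 = true) (x328t : α 328 = true) : False :=
  have x154t := h.u1
  c2638 h x328t x154t x425t x275t

theorem l3735 (h : Good α) (x275t : α 275 = true) (x467t : α 467 = true) : False :=
  have x154t := h.u1
  c2639 h x154t x275t x467t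

theorem l3736 (h : Good α) (x327t : α 327 = true) (x538t : α 538 = true) : False :=
  have x154t := h.u1
  c2640 h x538t x327t x154t

theorem l3737 (h : Good α) (x346t : α 346 = true) (x580t : α 580 = true) : False :=
  have x154t := h.u1
  c2641 h x580t x346t x154t

theorem l3738 (h : Good α) (x190t : α 190 = true) (x61t : α 61 = true) (x97t : α 97 = true) : False :=
  have x92f : α 92 = false := ff fun y => c1545 h y x61t x97t
  have x21f : α 21 = false := ff fun y => c601 h y x61t x190t
  have x343f : α 343 = false := ff fun y => c2185 h y x190t x97t
  have x262t : α 262 = true := tt fun y => c605 h y x92f x21f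
  have x192t : α 192 = true := tt fun y => c2069 h x92f y x343f
  c2830 h x262t x192t x190t

theorem l3739 (h : Good α) (x249t : α 249 = true) (x250t : α 250 = true) (x92f : α 92 = false) (x237t : α 237 = true) (x94t : α 94 = true) : False :=
  have x57f : α 57 = false := ff fun y => c1423 h x249t x94t y
  have x238f : α 238 = false := ff fun y => c3028 h x249t y x237t x250t
  c1415 h x57f x92f x238f

theorem l3740 (h : Good α) (x272t : α 272 = true) (x346t : α 346 = true) : False :=
  have x580f : α 580 = false := ff fun y => l3737 h x346t y
  have x459f : α 459 = false := ff fun y => l3732 h x272t y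
  have x114f : α 114 = false := ff fun y => l3695 h y x272t
  have x477f : α 477 = false := ff fun y => c3215 h x272t x346t y
  have x485t : α 485 = true := tt fun y => c3391 h x459f y x580f
  have x275t : α 275 = true := tt fun y => c2395 h x477f y x114f
  c3230 h x485t x346t x275t

theorem l3741 (h : Good α) (x94t : α 94 = true) (x61t : α 61 = true) (x91f : α 91 = false) (x58f : α 58 = false) (x249t : α 249 = true) : False :=
  have x237t : α 237 = true := tt fun y => c1461 h y x91f x58f
  have x97t : α 97 = true := tt fun y => c1456 h x91f x58f y
  have x92f : α 92 = false := ff fun y => c2047 h x249t y x237t x97t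
  have x57f : α 57 = false := ff fun y => c1423 h x249t x94t y
  have x250f : α 250 = false := ff fun y => l3739 h x249t y x92f x237t x94t
  have x1t : α 1 = true := tt fun y => c61 h x57f y x58f
  have x204f : α 204 = false := ff fun y => c102 h x1t x61t y
  have x54f : α 54 = false := ff fun y => c40 h y x1t x61t
  c1312 h x54f x204f x91f x250f

theorem l3742 (h : Good α) (x61t : α 61 = true) (x91f : α 91 = false) (x58f : α 58 = false) (x249t : α 249 = true) : False :=
  have x59f : α 59 = false := ff fun y => l3670 h y x61t
  have x94f : α 94 = false := ff fun y => l3741 h y x61t x91f x58f x249t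
  have x54t : α 54 = true := tt fun y => c1309 h x94f y x91f
  have x52f : α 52 = false := ff fun y => l3640 h x54t y
  have x1f : α 1 = false := ff fun y => c40 h x54t y x61t
  have x157t : α 157 = true := tt fun y => c1227 h x52f x59f y
  have x53t : α 53 = true := tt fun y => c20 h y x1f x52f
  c1264 h x53t x61t x157t

theorem l3743 (h : Good α) (x201t : α 201 = true) (x233t : α 233 = true) (x57t : α 57 = true) (x61f : α 61 = false) (x197f : α 197 = false) (x249t : α 249 = true) : False :=
  have x242f : α 242 = false := ff fun y => c2920 h x233t x201t y
  have x351f : α 351 = false := ff fun y => c1444 h x249t x57t y x201t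
  c1577 h x197f x61f x351f x242f

theorem l3744 (h : Good α) (x94f : α 94 = false) (x91f : α 91 = false) (x58f : α 58 = false) (x306t : α 306 = true) (x272f : α 272 = false) (x249t : α 249 = true) : False :=
  have x237t : α 237 = true := tt fun y => c1461 h y x91f x58f
  have x97t : α 97 = true := tt fun y => c1456 h x91f x58f y
  have x92f : α 92 = false := ff fun y => c2047 h x249t y x237t x97t
  have x61f : α 61 = false := ff fun y => l3742 h y x91f x58f x249t
  have x236t : α 236 = true := tt fun y => c1548 h y x92f x61f
  have x197f : α 197 = false := ff fun y => c2886 h x249t y x237t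
  have x54t : α 54 = true := tt fun y => c1302 h x94f x92f y x61f
  have x57t : α 57 = true := tt fun y => c1409 h x94f y x92f
  have x22t : α 22 = true := tt fun y => c656 h x272f x94f y
  have x106f : α 106 = false := ff fun y => c662 h x306t y x22t
  have x205t : α 205 = true := tt fun y => c2102 h x94f x106f y
  have x449f : α 449 = false := ff fun y => c2948 h y x306t x205t
  have x443t : α 443 = true := tt fun y => c1984 h x449f x94f y x91f
  have x402t : α 402 = true := tt fun y => c1550 h x449f x92f y x61f
  have x543f : α 543 = false := ff fun y => c3347 h x402t x443t y
  have x233t : α 233 = true := tt fun y => c2123 h x449f x94f x543f y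
  have x201f : α 201 = false := ff fun y => l3743 h y x233t x57t x61f x197f x249t
  have x1t : α 1 = true := tt fun y => c79 h y x58f x201f
  have x406t : α 406 = true := tt fun y => c1491 h x58f x201f y
  have x200f : α 200 = false := ff fun y => c68 h y x57t x1t
  have x439f : α 439 = false := ff fun y => c50 h x54t x1t y x406t
  have x239t : α 239 = true := tt fun y => c1458 h y x200f x91f x58f
  have x447t : α 447 = true := tt fun y => c2044 h x94f x92f x439f y
  have x242f : α 242 = false := ff fun y => c2991 h x239t x236t x233t y
  have x546f : α 546 = false := ff fun y => c3360 h x406t x447t y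
  have x351t : α 351 = true := tt fun y => c1577 h x197f x61f y x242f
  have x354t : α 354 = true := tt fun y => c2923 h x201f x242f y
  have x250t : α 250 = true := tt fun y => c2030 h x91f y x439f x546f
  c3031 h x237t x250t x351t x354t

theorem l3745 (h : Good α) (x91f : α 91 = false) (x58f : α 58 = false) (x306t : α 306 = true) (x346t : α 346 = true) (x249t : α 249 = true) : False :=
  have x272f : α 272 = false := ff fun y => l3740 h y x346t
  have x97t : α 97 = true := tt fun y => c1456 h x91f x58f y
  have x237t : α 237 = true := tt fun y => c1461 h y x91f x58f
  have x92f : α 92 = false := ff fun y => c2047 h x249t y x237t x97t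
  have x197f : α 197 = false := ff fun y => c2886 h x249t y x237t
  have x61f : α 61 = false := ff fun y => l3742 h y x91f x58f x249t
  have x59t : α 59 = true := tt fun y => l3669 h y x61f
  have x325t : α 325 = true := tt fun y => l3677 h x61f y
  have x236t : α 236 = true := tt fun y => c1548 h y x92f x61f
  have x94t : α 94 = true := tt fun y => l3744 h y x91f x58f x306t x272f x249t
  have x57f : α 57 = false := ff fun y => c1423 h x249t x94t y
  have x250f : α 250 = false := ff fun y => l3739 h x249t y x92f x237t x94t
  have x1t : α 1 = true := tt fun y => c61 h x57f y x58f
  have x238t : α 238 = true := tt fun y => c1415 h x57f x92f y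
  have x56f : α 56 = false := ff fun y => c57 h y x1t x59t
  have x53t : α 53 = true := tt fun y => l3648 h y x56f
  have x19t : α 19 = true := tt fun y => l3578 h y x97t x58f x56f
  have x196f : α 196 = false := ff fun y => c32 h y x53t x1t
  have x204t : α 204 = true := tt fun y => l3702 h x196f y
  have x54f : α 54 = false := ff fun y => c1321 h x94t x238t y x204t
  have x352f : α 352 = false := ff fun y => c2939 h y x238t x204t
  have x153t : α 153 = true := tt fun y => c1298 h y x56f x54f
  have x233t : α 233 = true := tt fun y => c1314 h x54f x91f y
  have x200t : α 200 = true := tt fun y => c1488 h y x352f x58f x250f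
  have x323f : α 323 = false := ff fun y => c1284 h y x153t x53t
  have x351f : α 351 = false := ff fun y => c2122 h x249t x94t y x233t
  have x239f : α 239 = false := ff fun y => c2910 h y x200t x236t
  have x242t : α 242 = true := tt fun y => c1577 h x197f x61f x351f y
  have x379f : α 379 = false := ff fun y => l3463 h y x200t x239f x53t
  have x201f : α 201 = false := ff fun y => c2920 h x233t y x242t
  have x576f : α 576 = false := ff fun y => l3413 h y x233t x242t x201f
  have x354t : α 354 = true := tt fun y => c1490 h x58f x250f x201f y
  have x158f : α 158 = false := ff fun y => l3451 h y x233t x201f x53t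
  have x548f : α 548 = false := ff fun y => c3083 h x242t x354t y
  have x450t : α 450 = true := tt fun y => c1494 h x58f y x201f x548f
  have x544f : α 544 = false := ff fun y => c2189 h x236t y x97t x450t
  have x409t : α 409 = true := tt fun y => c1352 h x239f x544f x54f y
  have x335f : α 335 = false := ff fun y => c3261 h x325t y x409t
  have x264f : α 264 = false := ff fun y => l3419 h y x335f x238t x57f x56f
  have x424t : α 424 = true := tt fun y => l3710 h y x335f x264f
  have x113t : α 113 = true := tt fun y => l3691 h y x264f
  have x188t : α 188 = true := tt fun y => l3664 h y x264f x56f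
  have x494t : α 494 = true := tt fun y => c2086 h y x264f x92f
  have x20t : α 20 = true := tt fun y => c555 h x264f x92f y
  have x117f : α 117 = false := ff fun y => c2428 h x424t x238t y
  have x189f : α 189 = false := ff fun y => c2176 h x113t x97t y
  have x212f : α 212 = false := ff fun y => c2178 h y x113t x97t
  have x23f : α 23 = false := ff fun y => c460 h x19t y x113t
  have x180f : α 180 = false := ff fun y => l3599 h y x379f x242t x23f x201f x113t x56f
  have x326f : α 326 = false := ff fun y => c544 h x306t x20t y x59t
  have x184t : α 184 = true := tt fun y => c2056 h y x92f x117f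
  have x70t : α 70 = true := tt fun y => l3662 h y x180f x56f
  have x199t : α 199 = true := tt fun y => l3614 h x346t y x326f x323f x197f
  have x81f : α 81 = false := ff fun y => c1682 h x188t x184t x70t y
  have x394f : α 394 = false := ff fun y => l3729 h x199t y x346t
  have x398f : α 398 = false := ff fun y => c2897 h y x494t x199t x325t
  have x114t : α 114 = true := tt fun y => c700 h y x23f x158f x81f
  have x55t : α 55 = true := tt fun y => c1358 h x398f x57f x394f y
  have x469t : α 469 = true := tt fun y => c3341 h y x398f x394f
  have x84f : α 84 = false := ff fun y => c1868 h y x114t x237t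
  have x60f : α 60 = false := ff fun y => c52 h x55t x1t y
  have x77t : α 77 = true := tt fun y => c1450 h y x60f x84f x58f
  have x147t : α 147 = true := tt fun y => c1451 h x60f x58f y
  have x152t : α 152 = true := tt fun y => c1453 h y x60f x58f
  have x186t : α 186 = true := tt fun y => c1455 h x60f y x58f x189f
  have x245f : α 245 = false := ff fun y => c1792 h x469t y x77t
  have x457f : α 457 = false := ff fun y => l3613 h y x346t x147t x326f x494t x323f x325t x57f x197f x237t
  have x418f : α 418 = false := ff fun y => c1521 h x325t y x59t x186t
  have x267f : α 267 = false := ff fun y => l3673 h x186t y x59t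
  have x120t : α 120 = true := tt fun y => c2455 h x398f x245f x272f y
  have x160t : α 160 = true := tt fun y => c2674 h x398f x245f y
  have x285t : α 285 = true := tt fun y => c2670 h y x158f x457f x351f
  have x108f : α 108 = false := ff fun y => l3685 h y x120t
  have x176f : α 176 = false := ff fun y => c2557 h x160t x152t y x147t
  have x340f : α 340 = false := ff fun y => l3453 h x285t x114t x180f x346t x113t y x576f
  have x483t : α 483 = true := tt fun y => c2319 h x108f x267f y
  have x243t : α 243 = true := tt fun y => c2709 h x394f y x176f
  have x87f : α 87 = false := ff fun y => c1507 h x199t x59t x243t y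
  have x260t : α 260 = true := tt fun y => c1920 h x87f x189f y x340f
  have x127t : α 127 = true := tt fun y => c1915 h y x212f x87f x189f
  have x371f : α 371 = false := ff fun y => c2493 h x127t y x260t x483t
  have x554f : α 554 = false := ff fun y => c2494 h y x325t x127t
  c3319 h x554f x418f x371f

theorem l3746 (h : Good α) (x92f : α 92 = false) (x94t : α 94 = true) (x61f : α 61 = false) (x91t : α 91 = true) (x58f : α 58 = false) (x249t : α 249 = true) : False :=
  have x57f : α 57 = false := ff fun y => c1423 h x249t x94t y
  have x1t : α 1 = true := tt fun y => c61 h x57f y x58f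
  have x59t : α 59 = true := tt fun y => l3669 h y x61f
  have x56f : α 56 = false := ff fun y => c57 h y x1t x59t
  have x53t : α 53 = true := tt fun y => l3648 h y x56f
  have x196f : α 196 = false := ff fun y => c32 h y x53t x1t
  have x204t : α 204 = true := tt fun y => l3702 h x196f y
  have x543f : α 543 = false := ff fun y => l3527 h x57f y x1t x61f
  have x237f : α 237 = false := ff fun y => c1981 h x249t x94t y x91t
  have x449f : α 449 = false := ff fun y => c2135 h y x249t x94t
  have x97t : α 97 = true := tt fun y => c1544 h x92f x61f y
  have x236t : α 236 = true := tt fun y => c1548 h y x92f x61f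
  have x238t : α 238 = true := tt fun y => c1415 h x57f x92f y
  have x402t : α 402 = true := tt fun y => c1550 h x449f x92f y x61f
  have x239f : α 239 = false := ff fun y => c1989 h y x236t x91t x97t
  have x250f : α 250 = false := ff fun y => c2937 h x238t x204t y
  have x197f : α 197 = false := ff fun y => c2880 h x249t x238t y x204t
  have x352f : α 352 = false := ff fun y => c2939 h y x238t x204t
  have x351t : α 351 = true := tt fun y => c2887 h x197f x237f y
  have x200t : α 200 = true := tt fun y => c1488 h y x352f x58f x250f
  have x233f : α 233 = false := ff fun y => c2122 h x249t x94t x351t y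
  have x547f : α 547 = false := ff fun y => c118 h y x200t x402t x1t
  c2993 h x547f x239f x543f x233f

theorem l3747 (h : Good α) (x94t : α 94 = true) (x61f : α 61 = false) (x91t : α 91 = true) (x58f : α 58 = false) (x249t : α 249 = true) : False :=
  have x59t : α 59 = true := tt fun y => l3669 h y x61f
  have x57f : α 57 = false := ff fun y => c1423 h x249t x94t y
  have x237f : α 237 = false := ff fun y => c1981 h x249t x94t y x91t
  have x1t : α 1 = true := tt fun y => c61 h x57f y x58f
  have x543f : α 543 = false := ff fun y => l3527 h x57f y x1t x61f
  have x56f : α 56 = false := ff fun y => c57 h y x1t x59t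
  have x53t : α 53 = true := tt fun y => l3648 h y x56f
  have x196f : α 196 = false := ff fun y => c32 h y x53t x1t
  have x204t : α 204 = true := tt fun y => l3702 h x196f y
  have x92t : α 92 = true := tt fun y => l3746 h y x94t x61f x91t x58f x249t
  have x97f : α 97 = false := ff fun y => c1980 h x94t x92t x91t y
  have x242t : α 242 = true := tt fun y => c1556 h x61f x97f y
  have x250t : α 250 = true := tt fun y => c1468 h x58f x97f y
  have x197t : α 197 = true := tt fun y => c1553 h y x61f x237f x97f
  have x233f : α 233 = false := ff fun y => c2041 h x94t x92t y x242t
  have x201t : α 201 = true := tt fun y => l3521 h x250t x57f y x204t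
  have x351f : α 351 = false := ff fun y => c112 h x197t x1t y x201t
  c3000 h x543f x351f x233f

theorem l3748 (h : Good α) (x250f : α 250 = false) (x1t : α 1 = true) (x94f : α 94 = false) (x61f : α 61 = false) (x91t : α 91 = true) (x58f : α 58 = false) : False :=
  have x97t : α 97 = true := tt fun y => c1468 h x58f y x250f
  l3587 h x91t x94f x97t x250f x1t x61f

theorem l3749 (h : Good α) (x57f : α 57 = false) (x250t : α 250 = true) (x204t : α 204 = true) (x239t : α 239 = true) (x233t : α 233 = true) (x449f : α 449 = false) (x91t : α 91 = true) (x58f : α 58 = false) : False :=
  have x443t : α 443 = true := tt fun y => c1405 h x449f x57f y x58f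
  have x201t : α 201 = true := tt fun y => l3521 h x250t x57f y x204t
  have x547f : α 547 = false := ff fun y => c2029 h y x239t x443t x91t
  have x200f : α 200 = false := ff fun y => c2902 h x239t y x233t x201t
  c1440 h x547f x200f x449f x57f

theorem l3750 (h : Good α) (x1t : α 1 = true) (x449f : α 449 = false) (x61f : α 61 = false) (x91t : α 91 = true) (x58f : α 58 = false) (x249t : α 249 = true) : False :=
  have x94f : α 94 = false := ff fun y => l3747 h y x61f x91t x58f x249t
  have x59t : α 59 = true := tt fun y => l3669 h y x61f
  have x543f : α 543 = false := ff fun y => l3582 h y x1t x61f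
  have x56f : α 56 = false := ff fun y => c57 h y x1t x59t
  have x233t : α 233 = true := tt fun y => c2123 h x449f x94f x543f y
  have x53t : α 53 = true := tt fun y => l3648 h y x56f
  have x54f : α 54 = false := ff fun y => c1315 h y x91t x233t
  have x439f : α 439 = false := ff fun y => c2017 h x91t x233t y
  have x196f : α 196 = false := ff fun y => c32 h y x53t x1t
  have x92t : α 92 = true := tt fun y => c1302 h x94f y x54f x61f
  have x239t : α 239 = true := tt fun y => c1322 h y x94f x54f
  have x447t : α 447 = true := tt fun y => c1305 h x54f x61f x439f y
  have x204t : α 204 = true := tt fun y => l3702 h x196f y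
  have x250t : α 250 = true := tt fun y => l3748 h y x1t x94f x61f x91t x58f
  have x57t : α 57 = true := tt fun y => l3749 h y x250t x204t x239t x233t x449f x91t x58f
  have x197f : α 197 = false := ff fun y => c66 h x249t x57t y x1t
  have x201f : α 201 = false := ff fun y => l3743 h y x233t x57t x61f x197f x249t
  have x406f : α 406 = false := ff fun y => c1418 h x57t x92t y x447t
  c1491 h x58f x201f x406f

theorem l3751 (h : Good α) (x24f : α 24 = false) (x108f : α 108 = false) (x146t : α 146 = true) (x56f : α 56 = false) (x195t : α 195 = true) (x57t : α 57 = true) (x1f : α 1 = false) (x106f : α 106 = false) (x22t : α 22 = true) (x94f : α 94 = false) : False :=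
  have x205t : α 205 = true := tt fun y => c2102 h x94f x106f y
  have x188t : α 188 = true := tt fun y => c2100 h y x94f x106f
  have x16t : α 16 = true := tt fun y => c322 h x24f y x108f
  have x26t : α 26 = true := tt fun y => c722 h x94f x24f x106f y
  have x51f : α 51 = false := ff fun y => c313 h x57t y x22t x16t
  have x66f : α 66 = false := ff fun y => c800 h x26t y x146t x195t
  have x88t : α 88 = true := tt fun y => c11 h y x51f x56f x1f
  have x122t : α 122 = true := tt fun y => c1645 h y x66f x108f
  c1930 h x188t x88t x205t x122t

theorem l3752 (h : Good α) (x24t : α 24 = true) (x459t : α 459 = true) (x275f : α 275 = false) (x54t : α 54 = true) (x36f : α 36 = false) : False :=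
  have x63f : α 63 = false := ff fun y => c733 h y x24t x54t
  have x120f : α 120 = false := ff fun y => l3630 h x24t y x54t
  have x191f : α 191 = false := ff fun y => c737 h x24t x54t y
  have x286t : α 286 = true := tt fun y => c1038 h y x120f x36f
  have x175t : α 175 = true := tt fun y => c1613 h y x63f x275f x191f
  c2708 h x459t x286t x175t

theorem l3753 (h : Good α) (x61f : α 61 = false) (x58f : α 58 = false) (x306t : α 306 = true) (x346t : α 346 = true) (x249t : α 249 = true) : False :=
  have x91t : α 91 = true := tt fun y => l3745 h y x58f x306t x346t x249t
  have x272f : α 272 = false := ff fun y => l3740 h y x346t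
  have x36f : α 36 = false := ff fun y => l3639 h y x346t
  have x94f : α 94 = false := ff fun y => l3747 h y x61f x91t x58f x249t
  have x22t : α 22 = true := tt fun y => c656 h x272f x94f y
  have x106f : α 106 = false := ff fun y => c662 h x306t y x22t
  have x205t : α 205 = true := tt fun y => c2102 h x94f x106f y
  have x449f : α 449 = false := ff fun y => c2948 h y x306t x205t
  have x1f : α 1 = false := ff fun y => l3750 h y x449f x61f x91t x58f x249t
  have x54t : α 54 = true := tt fun y => c39 h y x1f x61f
  have x97t : α 97 = true := tt fun y => c75 h x1f x61f x58f y
  have x201t : α 201 = true := tt fun y => c79 h x1f x58f y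
  have x57t : α 57 = true := tt fun y => c61 h y x1f x58f
  have x52f : α 52 = false := ff fun y => l3640 h x54t y
  have x233f : α 233 = false := ff fun y => c1315 h x54t x91t y
  have x351f : α 351 = false := ff fun y => c1444 h x249t x57t y x201t
  have x184f : α 184 = false := ff fun y => c647 h y x57t x22t
  have x195t : α 195 = true := tt fun y => c25 h x1f x52f y
  have x53t : α 53 = true := tt fun y => c20 h y x1f x52f
  have x114f : α 114 = false := ff fun y => l3535 h y x94f x233f x57t x201t
  have x56f : α 56 = false := ff fun y => l3649 h x53t y
  have x23t : α 23 = true := tt fun y => c714 h x272f x184f x114f y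
  have x285t : α 285 = true := tt fun y => c1036 h x36f x114f y
  have x199t : α 199 = true := tt fun y => c59 h y x56f x1f
  have x19t : α 19 = true := tt fun y => l3578 h y x97t x58f x56f
  have x275f : α 275 = false := ff fun y => c3227 h x346t y x285t
  have x197f : α 197 = false := ff fun y => l3725 h y x199t
  have x257f : α 257 = false := ff fun y => c494 h x19t x91t y
  have x237t : α 237 = true := tt fun y => c2887 h x197f y x351f
  have x242t : α 242 = true := tt fun y => c1577 h x197f x61f x351f y
  have x146t : α 146 = true := tt fun y => c2282 h x106f y x257f
  have x92f : α 92 = false := ff fun y => c2047 h x249t y x237t x97t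
  have x236t : α 236 = true := tt fun y => c1548 h y x92f x61f
  have x200f : α 200 = false := ff fun y => c2904 h y x236t x201t x242t
  have x386t : α 386 = true := tt fun y => l3501 h y x236t x200f x56f
  have x379f : α 379 = false := ff fun y => c463 h x386t y x19t x23t
  have x459t : α 459 = true := tt fun y => c2771 h y x379f x272f x184f
  have x24f : α 24 = false := ff fun y => l3752 h y x459t x275f x54t x36f
  have x120t : α 120 = true := tt fun y => l3571 h x24f y x275f x94f x91t
  have x108t : α 108 = true := tt fun y => l3751 h x24f y x146t x56f x195t x57t x1f x106f x22t x94f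
  l3685 h x108t x120t

theorem l3754 (h : Good α) (x1f : α 1 = false) (x449f : α 449 = false) (x94f : α 94 = false) (x61t : α 61 = true) (x58f : α 58 = false) (x249t : α 249 = true) : False :=
  have x59f : α 59 = false := ff fun y => l3670 h y x61t
  have x56t : α 56 = true := tt fun y => c56 h y x1f x59f
  have x201t : α 201 = true := tt fun y => c79 h x1f x58f y
  have x53f : α 53 = false := ff fun y => l3649 h y x56t
  have x52t : α 52 = true := tt fun y => c20 h x53f x1f y
  have x54f : α 54 = false := ff fun y => l3640 h y x52t
  have x197t : α 197 = true := tt fun y => c41 h y x54f x1f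
  have x402t : α 402 = true := tt fun y => c1324 h x449f x94f y x54f
  have x239t : α 239 = true := tt fun y => c1322 h y x94f x54f
  have x237f : α 237 = false := ff fun y => c2886 h x249t x197t y
  have x353f : α 353 = false := ff fun y => c2890 h y x249t x197t
  have x92f : α 92 = false := ff fun y => c1547 h x249t y x197t x61t
  have x200t : α 200 = true := tt fun y => c1486 h x353f y x237f x58f
  have x233f : α 233 = false := ff fun y => c2902 h x239t x200t y x201t
  have x543t : α 543 = true := tt fun y => c2123 h x449f x94f y x233f
  have x242t : α 242 = true := tt fun y => c2040 h x94f x92f x233f y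
  c1584 h x402t x61t x543t x242t

theorem l3755 (h : Good α) (x57t : α 57 = true) (x351f : α 351 = false) (x201t : α 201 = true) (x238t : α 238 = true) (x204f : α 204 = false) (x1t : α 1 = true) (x249t : α 249 = true) : False :=
  have x197f : α 197 = false := ff fun y => c66 h x249t x57t y x1t
  have x354f : α 354 = false := ff fun y => c1442 h x57t x238t x201t y
  c2881 h x197f x204f x351f x354f

theorem l3756 (h : Good α) (x201t : α 201 = true) (x239t : α 239 = true) (x402t : α 402 = true) (x238t : α 238 = true) (x204f : α 204 = false) (x1t : α 1 = true) (x449f : α 449 = false) (x94f : α 94 = false) (x91t : α 91 = true) (x58f : α 58 = false) (x249t : α 249 = true) : False :=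
  have x543f : α 543 = false := ff fun y => c121 h x402t x1t y x201t
  have x233t : α 233 = true := tt fun y => c2123 h x449f x94f x543f y
  have x200f : α 200 = false := ff fun y => c2902 h x239t y x233t x201t
  have x351f : α 351 = false := ff fun y => c2922 h y x233t x201t
  have x57f : α 57 = false := ff fun y => l3755 h y x351f x201t x238t x204f x1t x249t
  have x443t : α 443 = true := tt fun y => c1405 h x449f x57f y x58f
  have x547t : α 547 = true := tt fun y => c1440 h y x200f x449f x57f
  c2029 h x547t x239t x443t x91t

theorem l3757 (h : Good α) (x485t : α 485 = true) (x10t : α 10 = true) (x459t : α 459 = true) (x28f : α 28 = false) (x264f : α 264 = false) (x346t : α 346 = true) : False :=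
  have x452t : α 452 = true := tt fun y => l3711 h x264f y
  have x44f : α 44 = false := ff fun y => c193 h x459t x10t x485t y
  have x280t : α 280 = true := tt fun y => c845 h y x264f x44f x28f
  have x164f : α 164 = false := ff fun y => c2682 h x452t x280t y
  have x101f : α 101 = false := ff fun y => c2237 h x485t x280t x346t y
  l3679 h x101f x164f

theorem l3758 (h : Good α) (x92t : α 92 = true) (x23t : α 23 = true) (x299f : α 299 = false) (x189t : α 189 = true) (x424f : α 424 = false) (x386f : α 386 = false) (x53f : α 53 = false) (x239t : α 239 = true) (x238t : α 238 = true) (x22t : α 22 = true) (x61t : α 61 = true) (x58f : α 58 = false) (x346t : α 346 = true) : False :=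
  have x272f : α 272 = false := ff fun y => l3740 h y x346t
  have x97f : α 97 = false := ff fun y => c1545 h x92t x61t y
  have x236f : α 236 = false := ff fun y => c1549 h y x92t x61t
  have x444f : α 444 = false := ff fun y => c2080 h x92t x238t y
  have x250t : α 250 = true := tt fun y => c1468 h x58f x97f y
  have x494t : α 494 = true := tt fun y => c3371 h y x424f x444f
  have x223t : α 223 = true := tt fun y => c2976 h x444f x299f y
  have x264f : α 264 = false := ff fun y => c2087 h x494t y x92t
  have x117f : α 117 = false := ff fun y => c2059 h x92t y x223t
  have x452t : α 452 = true := tt fun y => l3711 h x264f y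
  have x113t : α 113 = true := tt fun y => l3691 h y x264f
  have x184t : α 184 = true := tt fun y => l3652 h y x264f x53f
  have x20t : α 20 = true := tt fun y => c570 h y x117f x299f
  have x430f : α 430 = false := ff fun y => c2370 h x113t x250t y
  have x379f : α 379 = false := ff fun y => c713 h y x452t x23t x113t
  have x28f : α 28 = false := ff fun y => c522 h x92t x20t y
  have x273t : α 273 = true := tt fun y => c2429 h x117f x299f y x430f
  have x161t : α 161 = true := tt fun y => c2676 h x379f x236f y
  have x459t : α 459 = true := tt fun y => c3329 h y x386f x379f
  have x71f : α 71 = false := ff fun y => c1714 h y x161t x189t x273t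
  have x10t : α 10 = true := tt fun y => c195 h x236f x71f y
  have x485f : α 485 = false := ff fun y => l3757 h y x10t x459t x28f x264f x346t
  have x120t : α 120 = true := tt fun y => c2457 h x485f x272f y
  have x108f : α 108 = false := ff fun y => l3685 h y x120t
  have x282t : α 282 = true := tt fun y => c870 h x28f x108f y
  have x44t : α 44 = true := tt fun y => c843 h y x28f x108f
  have x271f : α 271 = false := ff fun y => c192 h x239t x10t y x44t
  have x118t : α 118 = true := tt fun y => c2442 h x485f x271f y
  have x266f : α 266 = false := ff fun y => c668 h y x184t x118t x22t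
  have x116t : α 116 = true := tt fun y => c2412 h x379f x236f x266f y
  have x343f : α 343 = false := ff fun y => c1130 h x116t y x44t x282t
  have x192f : α 192 = false := ff fun y => c2052 h x116t x92t y
  have x226f : α 226 = false := ff fun y => c2054 h y x116t x92t
  have x89t : α 89 = true := tt fun y => c1943 h x192f y x108f
  have x255f : α 255 = false := ff fun y => c551 h x20t x89t y
  have x554f : α 554 = false := ff fun y => c554 h x494t y x20t x89t
  have x142t : α 142 = true := tt fun y => c2530 h x226f x343f y x255f
  have x587t : α 587 = true := tt fun y => c2851 h y x554f x226f x192f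
  c574 h x587t x494t x142t x20t

theorem l3759 (h : Good α) (x233f : α 233 = false) (x201f : α 201 = false) (x402t : α 402 = true) (x449f : α 449 = false) (x94f : α 94 = false) (x61t : α 61 = true) : False :=
  have x543t : α 543 = true := tt fun y => c2123 h x449f x94f y x233f
  have x242t : α 242 = true := tt fun y => c2919 h x233f x201f y
  c1584 h x402t x61t x543t x242t

theorem l3760 (h : Good α) (x116t : α 116 = true) (x20t : α 20 = true) (x108f : α 108 = false) (x494t : α 494 = true) (x92t : α 92 = true) : False :=
  have x28f : α 28 = false := ff fun y => c522 h x92t x20t y
  have x44t : α 44 = true := tt fun y => c843 h y x28f x108f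
  have x282t : α 282 = true := tt fun y => c870 h x28f x108f y
  have x192f : α 192 = false := ff fun y => c2052 h x116t x92t y
  have x226f : α 226 = false := ff fun y => c2054 h y x116t x92t
  have x343f : α 343 = false := ff fun y => c1130 h x116t y x44t x282t
  have x89t : α 89 = true := tt fun y => c1943 h x192f y x108f
  have x255f : α 255 = false := ff fun y => c551 h x20t x89t y
  have x554f : α 554 = false := ff fun y => c554 h x494t y x20t x89t
  have x142t : α 142 = true := tt fun y => c2530 h x226f x343f y x255f
  have x587t : α 587 = true := tt fun y => c2851 h y x554f x226f x192f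
  c574 h x587t x494t x142t x20t

theorem l3761 (h : Good α) (x266t : α 266 = true) (x95t : α 95 = true) (x80f : α 80 = false) (x23t : α 23 = true) (x184t : α 184 = true) (x53f : α 53 = false) (x22t : α 22 = true) : False :=
  have x428f : α 428 = false := ff fun y => c2770 h y x266t x184t
  have x182f : α 182 = false := ff fun y => c2742 h x266t x184t y
  have x118f : α 118 = false := ff fun y => c668 h x266t x184t y x22t
  have x17t : α 17 = true := tt fun y => c387 h x182f x53f y
  have x251t : α 251 = true := tt fun y => c1815 h x80f x118f y
  have x110f : α 110 = false := ff fun y => c365 h y x17t x23t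
  have x119f : α 119 = false := ff fun y => c367 h x17t x23t y
  have x248t : α 248 = true := tt fun y => c2339 h x428f y x110f
  have x93t : α 93 = true := tt fun y => c2089 h x182f y x119f
  c2088 h x248t x93t x251t x95t

theorem l3762 (h : Good α) (x251f : α 251 = false) (x183f : α 183 = false) (x80f : α 80 = false) (x52f : α 52 = false) (x22t : α 22 = true) : False :=
  have x90t : α 90 = true := tt fun y => c1237 h x251f y x52f
  have x118t : α 118 = true := tt fun y => c1815 h x80f y x251f
  have x258f : α 258 = false := ff fun y => c652 h x22t x90t y
  have x181f : α 181 = false := ff fun y => c1963 h x118t x90t y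
  c2722 h x258f x181f x183f

theorem l3763 (h : Good α) (x258f : α 258 = false) (x377f : α 377 = false) (x156t : α 156 = true) (x151t : α 151 = true) (x182t : α 182 = true) (x376f : α 376 = false) (x369f : α 369 = false) (x187t : α 187 = true) (x135f : α 135 = false) (x445t : α 445 = true) (x21f : α 21 = false) (x90f : α 90 = false) (x198f : α 198 = false) (x93f : α 93 = false) (x248t : α 248 = true) (x183f : α 183 = false) (x65f : α 65 = false) (x184t : α 184 = true) (x333f : α 333 = false) (x196t : α 196 = true) (x1t : α 1 = true) (x346t : α 346 = true) : False :=
  have x53f : α 53 = false := ff fun y => c32 h x196t y x1t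
  have x96t : α 96 = true := tt fun y => c1269 h y x53f x93f
  have x441f : α 441 = false := ff fun y => c2172 h y x248t x96t
  have x169t : α 169 = true := tt fun y => c1639 h y x65f x258f x183f
  have x477t : α 477 = true := tt fun y => c2516 h x369f x135f y x258f
  have x172f : α 172 = false := ff fun y => c2598 h x169t y x151t x156t
  have x338f : α 338 = false := ff fun y => c2806 h x346t x187t x477t y
  have x232t : α 232 = true := tt fun y => c2698 h x377f y x172f
  have x278t : α 278 = true := tt fun y => c3146 h x338f x258f y
  have x231f : α 231 = false := ff fun y => c2874 h y x196t x232t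
  have x60f : α 60 = false := ff fun y => c93 h x196t x232t x1t y
  have x102f : α 102 = false := ff fun y => c2249 h x346t y x477t x278t
  have x403t : α 403 = true := tt fun y => c1532 h x441f x93f y x60f
  have x214t : α 214 = true := tt fun y => c1960 h x90f x102f y
  have x541f : α 541 = false := ff fun y => c109 h y x196t x403t x1t
  have x539f : α 539 = false := ff fun y => c3350 h x403t x445t y
  have x229t : α 229 = true := tt fun y => c2981 h x541f x231f x539f y
  have x350f : α 350 = false := ff fun y => c2171 h x248t x96t y x229t
  have x230t : α 230 = true := tt fun y => c1541 h x198f x60f x350f y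
  have x195f : α 195 = false := ff fun y => c2868 h x196t x232t y x230t
  have x66t : α 66 = true := tt fun y => c1647 h y x195f x376f
  have x62f : α 62 = false := ff fun y => c1586 h x184t x182t y x66t
  have x223t : α 223 = true := tt fun y => c1591 h x62f y x195f x333f
  have x144f : α 144 = false := ff fun y => c2165 h x184t x223t x96t y
  have x37t : α 37 = true := tt fun y => c592 h x21f y x144f
  have x76t : α 76 = true := tt fun y => c1779 h x102f y x144f
  c1053 h x37t x76t x214t

theorem l3764 (h : Good α) (x17t : α 17 = true) (x29t : α 29 = true) (x21f : α 21 = false) (x90f : α 90 = false) (x198f : α 198 = false) (x93f : α 93 = false) (x248t : α 248 = true) (x183f : α 183 = false) (x257t : α 257 = true) (x52f : α 52 = false) (x65f : α 65 = false) (x184t : α 184 = true) (x333f : α 333 = false) (x196t : α 196 = true) (x1t : α 1 = true) (x94f : α 94 = false) (x91t : α 91 = true) (x58f : α 58 = false) (x346t : α 346 = true) : False :=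
  have x36f : α 36 = false := ff fun y => l3639 h y x346t
  have x53f : α 53 = false := ff fun y => c32 h x196t y x1t
  have x96t : α 96 = true := tt fun y => c1269 h y x53f x93f
  have x342f : α 342 = false := ff fun y => c2168 h y x184t x96t
  have x286t : α 286 = true := tt fun y => c1030 h y x342f x36f x93f
  have x107f : α 107 = false := ff fun y => c900 h x286t y x29t
  have x187t : α 187 = true := tt fun y => c2105 h x107f x94f y
  have x207t : α 207 = true := tt fun y => c2107 h y x107f x94f
  have x369f : α 369 = false := ff fun y => c2797 h y x207t x346t x187t
  have x272f : α 272 = false := ff fun y => l3740 h y x346t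
  have x22t : α 22 = true := tt fun y => c656 h x272f x94f y
  have x135f : α 135 = false := ff fun y => c630 h y x29t x22t
  have x441f : α 441 = false := ff fun y => c2172 h y x248t x96t
  have x445t : α 445 = true := tt fun y => c1220 h x441f x53f y x52f
  have x380t : α 380 = true := tt fun y => c1481 h x58f x183f y
  have x23t : α 23 = true := tt fun y => c693 h x65f y x58f
  have x119f : α 119 = false := ff fun y => c367 h x17t x23t y
  have x376f : α 376 = false := ff fun y => c369 h x17t x23t y x380t
  have x182t : α 182 = true := tt fun y => c2089 h y x93f x119f
  have x16f : α 16 = false := ff fun y => c318 h x184t x182t x22t y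
  have x181t : α 181 = true := tt fun y => c346 h x16f x52f y
  have x50f : α 50 = false := ff fun y => c383 h x17t y x181t
  have x151t : α 151 = true := tt fun y => c1181 h y x50f x58f
  have x156t : α 156 = true := tt fun y => c1183 h x50f x58f y
  have x67t : α 67 = true := tt fun y => c1180 h y x65f x50f x58f
  have x377f : α 377 = false := ff fun y => c1656 h y x196t x67t
  have x258t : α 258 = true := tt fun y => l3763 h y x377f x156t x151t x182t x376f x369f x187t x135f x445t x21f x90f x198f x93f x248t x183f x65f x184t x333f x196t x1t x346t
  have x477f : α 477 = false := ff fun y => c903 h x286t x29t y x258t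
  have x453f : α 453 = false := ff fun y => c2603 h x151t x258t y
  have x338t : α 338 = true := tt fun y => c2138 h x272f x94f x477f y
  have x475f : α 475 = false := ff fun y => c2033 h x338t x91t y x257t
  have x578f : α 578 = false := ff fun y => c2606 h y x338t x151t
  c3381 h x578f x475f x453f

theorem l3765 (h : Good α) (x258t : α 258 = true) (x29t : α 29 = true) (x286t : α 286 = true) (x198f : α 198 = false) (x251t : α 251 = true) (x52f : α 52 = false) (x54f : α 54 = false) (x94f : α 94 = false) (x61t : α 61 = true) (x346t : α 346 = true) : False :=
  have x272f : α 272 = false := ff fun y => l3740 h y x346t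
  have x580f : α 580 = false := ff fun y => l3737 h x346t y
  have x477f : α 477 = false := ff fun y => c903 h x286t x29t y x258t
  have x384f : α 384 = false := ff fun y => c3118 h x251t x258t y
  have x467t : α 467 = true := tt fun y => c3399 h x580f x477f y
  have x338t : α 338 = true := tt fun y => c2138 h x272f x94f x477f y
  have x381t : α 381 = true := tt fun y => c1224 h x54f x52f y x384f
  have x454f : α 454 = false := ff fun y => l3716 h y x467t
  have x278f : α 278 = false := ff fun y => c3147 h x338t x258t y
  have x393f : α 393 = false := ff fun y => c3276 h y x338t x381t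
  have x170t : α 170 = true := tt fun y => c2695 h y x278f x454f
  have x78t : α 78 = true := tt fun y => c1798 h x393f x198f y
  l3675 h x78t x170t x61t

theorem l3766 (h : Good α) (x94f : α 94 = false) (x58f : α 58 = false) (x306t : α 306 = true) (x346t : α 346 = true) (x249t : α 249 = true) : False :=
  have x61t : α 61 = true := tt fun y => l3753 h y x58f x306t x346t x249t
  have x59f : α 59 = false := ff fun y => l3670 h y x61t
  have x91t : α 91 = true := tt fun y => l3745 h y x58f x306t x346t x249t
  have x272f : α 272 = false := ff fun y => l3740 h y x346t
  have x36f : α 36 = false := ff fun y => l3639 h y x346t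
  have x22t : α 22 = true := tt fun y => c656 h x272f x94f y
  have x106f : α 106 = false := ff fun y => c662 h x306t y x22t
  have x188t : α 188 = true := tt fun y => c2100 h y x94f x106f
  have x205t : α 205 = true := tt fun y => c2102 h x94f x106f y
  have x449f : α 449 = false := ff fun y => c2948 h y x306t x205t
  have x1t : α 1 = true := tt fun y => l3754 h y x449f x94f x61t x58f x249t
  have x204f : α 204 = false := ff fun y => c102 h x1t x61t y
  have x54f : α 54 = false := ff fun y => c40 h y x1t x61t
  have x334t : α 334 = true := tt fun y => l3705 h x204f y
  have x196t : α 196 = true := tt fun y => l3702 h y x204f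
  have x238t : α 238 = true := tt fun y => c1320 h x94f y x54f x204f
  have x402t : α 402 = true := tt fun y => c1324 h x449f x94f y x54f
  have x239t : α 239 = true := tt fun y => c1322 h y x94f x54f
  have x53f : α 53 = false := ff fun y => c32 h x196t y x1t
  have x56t : α 56 = true := tt fun y => l3648 h x53f y
  have x335t : α 335 = true := tt fun y => l3653 h x53f y
  have x327f : α 327 = false := ff fun y => l3667 h x56t y
  have x386f : α 386 = false := ff fun y => c1395 h y x188t x56t
  have x19f : α 19 = false := ff fun y => c477 h x188t x56t y
  have x424f : α 424 = false := ff fun y => c1393 h x188t y x56t x335t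
  have x189t : α 189 = true := tt fun y => c483 h x19f x58f y
  have x201f : α 201 = false := ff fun y => l3756 h y x239t x402t x238t x204f x1t x449f x94f x91t x58f x249t
  have x406t : α 406 = true := tt fun y => c1491 h x58f x201f y
  have x447f : α 447 = false := ff fun y => c106 h x1t x61t x406t y
  have x233t : α 233 = true := tt fun y => l3759 h y x201f x402t x449f x94f x61t
  have x439f : α 439 = false := ff fun y => c2017 h x91t x233t y
  have x92t : α 92 = true := tt fun y => c2044 h x94f y x439f x447f
  have x97f : α 97 = false := ff fun y => c1545 h x92t x61t y
  have x236f : α 236 = false := ff fun y => c1549 h y x92t x61t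
  have x444f : α 444 = false := ff fun y => c2080 h x92t x238t y
  have x250t : α 250 = true := tt fun y => c1468 h x58f x97f y
  have x409t : α 409 = true := tt fun y => c1325 h x94f x444f x54f y
  have x494t : α 494 = true := tt fun y => c3371 h y x424f x444f
  have x237f : α 237 = false := ff fun y => c3028 h x249t x238t y x250t
  have x333f : α 333 = false := ff fun y => c3269 h x409t x334t y
  have x264f : α 264 = false := ff fun y => c2087 h x494t y x92t
  have x452t : α 452 = true := tt fun y => l3711 h x264f y
  have x113t : α 113 = true := tt fun y => l3691 h y x264f
  have x184t : α 184 = true := tt fun y => l3652 h y x264f x53f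
  have x429t : α 429 = true := tt fun y => l3709 h y x327f x264f
  have x65f : α 65 = false := ff fun y => c1638 h y x113t x250t
  have x341f : α 341 = false := ff fun y => c2066 h y x184t x92t
  have x117f : α 117 = false := ff fun y => c2057 h x184t x92t y
  have x23t : α 23 = true := tt fun y => c693 h x65f y x58f
  have x299t : α 299 = true := tt fun y => l3758 h x92t x23t y x189t x424f x386f x53f x239t x238t x22t x61t x58f x346t
  have x379f : α 379 = false := ff fun y => c713 h y x452t x23t x113t
  have x307f : α 307 = false := ff fun y => c712 h x23t x113t y
  have x298f : α 298 = false := ff fun y => c719 h x429t x184t y x23t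
  have x52f : α 52 = false := ff fun y => c640 h x22t x299t y x334t
  have x161t : α 161 = true := tt fun y => c2676 h x379f x236f y
  have x577t : α 577 = true := tt fun y => c3024 h y x379f x236f
  have x459t : α 459 = true := tt fun y => c3329 h y x386f x379f
  have x114t : α 114 = true := tt fun y => c2393 h x272f x424f y x307f
  have x257t : α 257 = true := tt fun y => c3034 h x298f x237f y
  have x157t : α 157 = true := tt fun y => c1227 h x52f x59f y
  have x80f : α 80 = false := ff fun y => c1830 h x459t x239t y
  have x183f : α 183 = false := ff fun y => c1993 h x114t x91t y
  have x378t : α 378 = true := tt fun y => c1258 h x52f x183f y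
  have x95t : α 95 = true := tt fun y => l3489 h y x378t x183f x52f
  have x266f : α 266 = false := ff fun y => l3761 h y x95t x80f x23t x184t x53f x22t
  have x248t : α 248 = true := tt fun y => c3096 h x379f x266f y
  have x251t : α 251 = true := tt fun y => l3762 h y x183f x80f x52f x22t
  have x93f : α 93 = false := ff fun y => c2088 h x248t y x251t x95t
  have x198f : α 198 = false := ff fun y => c2895 h x248t y x251t
  have x96t : α 96 = true := tt fun y => c1269 h y x53f x93f
  have x90f : α 90 = false := ff fun y => c1956 h x248t x96t x251t y
  have x441f : α 441 = false := ff fun y => c2172 h y x248t x96t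
  have x21f : α 21 = false := ff fun y => c604 h x184t x92t x96t y
  have x342f : α 342 = false := ff fun y => c2168 h y x184t x96t
  have x445t : α 445 = true := tt fun y => c1220 h x441f x53f y x52f
  have x286t : α 286 = true := tt fun y => c1030 h y x342f x36f x93f
  have x389t : α 389 = true := tt fun y => c3293 h x379f x342f y
  have x503t : α 503 = true := tt fun y => c3295 h y x379f x342f
  have x29t : α 29 = true := tt fun y => c893 h x379f x342f x80f y
  have x135f : α 135 = false := ff fun y => c630 h y x29t x22t
  have x107f : α 107 = false := ff fun y => c900 h x286t y x29t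
  have x187t : α 187 = true := tt fun y => c2105 h x107f x94f y
  have x207t : α 207 = true := tt fun y => c2107 h y x107f x94f
  have x369f : α 369 = false := ff fun y => c2797 h y x207t x346t x187t
  have x17f : α 17 = false := ff fun y => l3764 h y x29t x21f x90f x198f x93f x248t x183f x257t x52f x65f x184t x333f x196t x1t x94f x91t x58f x346t
  have x182t : α 182 = true := tt fun y => c2095 h x342f y x93f
  have x16f : α 16 = false := ff fun y => c335 h x29t y x95t
  have x309t : α 309 = true := tt fun y => c389 h x53f x333f x17f y
  have x68t : α 68 = true := tt fun y => c342 h y x16f x52f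
  have x227f : α 227 = false := ff fun y => c1669 h x503t x389t y x68t
  have x118t : α 118 = true := tt fun y => c1964 h x227f y x90f
  have x412f : α 412 = false := ff fun y => c2440 h x118t x251t y
  have x315t : α 315 = true := tt fun y => c1480 h y x58f x412f x183f
  have x258f : α 258 = false := ff fun y => l3765 h y x29t x286t x198f x251t x52f x54f x94f x61t x346t
  have x151t : α 151 = true := tt fun y => c1474 h y x58f x258f x183f
  have x169t : α 169 = true := tt fun y => c1639 h y x65f x258f x183f
  have x477t : α 477 = true := tt fun y => c2516 h x369f x135f y x258f
  have x50f : α 50 = false := ff fun y => c1191 h x315t x151t y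
  have x275f : α 275 = false := ff fun y => c2396 h x477t y x114t
  have x338f : α 338 = false := ff fun y => c2806 h x346t x187t x477t y
  have x156t : α 156 = true := tt fun y => c1183 h x50f x58f y
  have x67t : α 67 = true := tt fun y => c1180 h y x65f x50f x58f
  have x485t : α 485 = true := tt fun y => c402 h y x266f x275f x17f
  have x278t : α 278 = true := tt fun y => c3146 h x338f x258f y
  have x172f : α 172 = false := ff fun y => c2598 h x169t y x151t x156t
  have x377f : α 377 = false := ff fun y => c1656 h y x196t x67t
  have x271f : α 271 = false := ff fun y => c3063 h x459t x239t x485t y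
  have x102f : α 102 = false := ff fun y => c2249 h x346t y x477t x278t
  have x232t : α 232 = true := tt fun y => c2698 h x377f y x172f
  have x376t : α 376 = true := tt fun y => l3763 h x258f x377f x156t x151t x182t y x369f x187t x135f x445t x21f x90f x198f x93f x248t x183f x65f x184t x333f x196t x1t x346t
  have x484t : α 484 = true := tt fun y => c2136 h y x341f x271f x94f
  have x214t : α 214 = true := tt fun y => c1960 h x90f x102f y
  have x231f : α 231 = false := ff fun y => c2874 h y x196t x232t
  have x60f : α 60 = false := ff fun y => c93 h x196t x232t x1t y
  have x47f : α 47 = false := ff fun y => c1154 h x577t x161t x484t y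
  have x403t : α 403 = true := tt fun y => c1532 h x441f x93f y x60f
  have x276t : α 276 = true := tt fun y => c1150 h x47f x117f y
  have x541f : α 541 = false := ff fun y => c109 h y x196t x403t x1t
  have x539f : α 539 = false := ff fun y => c3350 h x403t x445t y
  have x121f : α 121 = false := ff fun y => c2465 h x276t x157t y
  have x229t : α 229 = true := tt fun y => c2981 h x541f x231f x539f y
  have x37t : α 37 = true := tt fun y => c1050 h x47f y x121f
  have x144f : α 144 = false := ff fun y => c2535 h x229t y x376t x309t
  have x76f : α 76 = false := ff fun y => c1053 h x37t y x214t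
  c1779 h x102f x76f x144f

theorem l3767 (h : Good α) (x264f : α 264 = false) (x379t : α 379 = true) (x23t : α 23 = true) : False :=
  have x452t : α 452 = true := tt fun y => l3711 h x264f y
  have x113t : α 113 = true := tt fun y => l3691 h y x264f
  c713 h x379t x452t x23t x113t

theorem l3768 (h : Good α) (x184t : α 184 = true) (x264t : α 264 = true) (x23t : α 23 = true) (x327f : α 327 = false) (x272f : α 272 = false) : False :=
  have x113f : α 113 = false := ff fun y => c711 h x184t x264t x23t y
  have x188f : α 188 = false := ff fun y => c2766 h y x184t x264t
  have x298t : α 298 = true := tt fun y => l3692 h x113f x327f y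
  have x429t : α 429 = true := tt fun y => c2816 h y x272f x188f
  c719 h x429t x184t x298t x23t

theorem l3769 (h : Good α) (x379t : α 379 = true) (x183f : α 183 = false) (x157t : α 157 = true) (x57f : α 57 = false) (x61t : α 61 = true) (x58f : α 58 = false) (x272f : α 272 = false) : False :=
  have x23t : α 23 = true := tt fun y => c695 h y x58f x183f
  have x1t : α 1 = true := tt fun y => c61 h x57f y x58f
  have x204f : α 204 = false := ff fun y => c102 h x1t x61t y
  have x196t : α 196 = true := tt fun y => l3702 h y x204f
  have x53f : α 53 = false := ff fun y => c32 h x196t y x1t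
  have x56t : α 56 = true := tt fun y => l3648 h x53f y
  have x327f : α 327 = false := ff fun y => l3667 h x56t y
  have x335t : α 335 = true := tt fun y => l3653 h x53f y
  have x264t : α 264 = true := tt fun y => l3767 h y x379t x23t
  have x184f : α 184 = false := ff fun y => l3768 h y x264t x23t x327f x272f
  have x383t : α 383 = true := tt fun y => c1432 h y x184f x57f
  have x188t : α 188 = true := tt fun y => c2767 h x272f y x184f
  have x238f : α 238 = false := ff fun y => c3055 h x383t x264t y
  have x424f : α 424 = false := ff fun y => c1393 h x188t y x56t x335t
  have x92t : α 92 = true := tt fun y => c1415 h x57f y x238f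
  have x117t : α 117 = true := tt fun y => c2427 h x424f x238f y
  have x97f : α 97 = false := ff fun y => c1545 h x92t x61t y
  have x236f : α 236 = false := ff fun y => c1549 h y x92t x61t
  have x161f : α 161 = false := ff fun y => c2420 h y x117t x157t
  have x273f : α 273 = false := ff fun y => c2422 h x117t x157t y
  have x200t : α 200 = true := tt fun y => c1465 h y x236f x58f x97f
  have x80t : α 80 = true := tt fun y => c1816 h y x161f x183f x273f
  c1826 h x379t x200t x80t

theorem l3770 (h : Good α) (x466f : α 466 = false) (x116t : α 116 = true) (x266f : α 266 = false) (x577t : α 577 = true) (x161t : α 161 = true) (x117f : α 117 = false) (x238f : α 238 = false) : False :=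
  have x155t : α 155 = true := tt fun y => c2643 h x466f x266f y
  have x165f : α 165 = false := ff fun y => c2410 h x155t x116t y
  have x280t : α 280 = true := tt fun y => c2685 h x466f y x165f
  have x47t : α 47 = true := tt fun y => c1149 h x165f x238f y x117f
  have x520f : α 520 = false := ff fun y => c2418 h y x280t x116t
  have x484f : α 484 = false := ff fun y => c1154 h x577t x161t y x47t
  c3396 h x484f x466f x520f

theorem l3771 (h : Good α) (x93f : α 93 = false) (x383t : α 383 = true) (x117f : α 117 = false) (x236f : α 236 = false) (x238f : α 238 = false) (x379f : α 379 = false) (x22t : α 22 = true) (x52f : α 52 = false) (x53f : α 53 = false) (x57f : α 57 = false) (x346t : α 346 = true) : False :=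
  have x56t : α 56 = true := tt fun y => l3648 h x53f y
  have x335t : α 335 = true := tt fun y => l3653 h x53f y
  have x424t : α 424 = true := tt fun y => c2427 h y x238f x117f
  have x188f : α 188 = false := ff fun y => c1393 h y x424t x56t x335t
  have x577t : α 577 = true := tt fun y => c3024 h y x379f x236f
  have x161t : α 161 = true := tt fun y => c2676 h x379f x236f y
  have x184t : α 184 = true := tt fun y => c1294 h x379f y x53f
  have x96t : α 96 = true := tt fun y => c1269 h y x53f x93f
  have x185f : α 185 = false := ff fun y => c2170 h x346t y x96t
  have x342f : α 342 = false := ff fun y => c2168 h y x184t x96t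
  have x182t : α 182 = true := tt fun y => c2095 h x342f y x93f
  have x389t : α 389 = true := tt fun y => c3293 h x379f x342f y
  have x503t : α 503 = true := tt fun y => c3295 h y x379f x342f
  have x266f : α 266 = false := ff fun y => c2742 h y x184t x182t
  have x16f : α 16 = false := ff fun y => c318 h x184t x182t x22t y
  have x68t : α 68 = true := tt fun y => c342 h y x16f x52f
  have x227f : α 227 = false := ff fun y => c1669 h x503t x389t y x68t
  have x116t : α 116 = true := tt fun y => c2412 h x379f x236f x266f y
  have x55t : α 55 = true := tt fun y => c1356 h x188f x57f x185f y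
  have x466t : α 466 = true := tt fun y => l3770 h y x116t x266f x577t x161t x117f x238f
  have x90f : α 90 = false := ff fun y => c1359 h x96t x55t y
  have x118f : α 118 = false := ff fun y => c669 h x466t x383t y x22t
  c1964 h x227f x118f x90f

theorem l3772 (h : Good α) (x183f : α 183 = false) (x52f : α 52 = false) (x237f : α 237 = false) (x57f : α 57 = false) (x94t : α 94 = true) (x61t : α 61 = true) (x91t : α 91 = true) (x58f : α 58 = false) (x346t : α 346 = true) : False :=
  have x59f : α 59 = false := ff fun y => l3670 h y x61t
  have x146t : α 146 = true := tt fun y => c1226 h y x52f x59f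
  have x157t : α 157 = true := tt fun y => c1227 h x52f x59f y
  have x1t : α 1 = true := tt fun y => c61 h x57f y x58f
  have x204f : α 204 = false := ff fun y => c102 h x1t x61t y
  have x196t : α 196 = true := tt fun y => l3702 h y x204f
  have x53f : α 53 = false := ff fun y => c32 h x196t y x1t
  have x56t : α 56 = true := tt fun y => l3648 h x53f y
  have x327f : α 327 = false := ff fun y => l3667 h x56t y
  have x335t : α 335 = true := tt fun y => l3653 h x53f y
  have x272f : α 272 = false := ff fun y => l3740 h y x346t
  have x378t : α 378 = true := tt fun y => c1258 h x52f x183f y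
  have x22t : α 22 = true := tt fun y => c637 h y x52f x183f
  have x23t : α 23 = true := tt fun y => c695 h y x58f x183f
  have x189t : α 189 = true := tt fun y => c1228 h x52f x59f x183f y
  have x95t : α 95 = true := tt fun y => l3489 h y x378t x183f x52f
  have x379f : α 379 = false := ff fun y => l3769 h y x183f x157t x57f x61t x58f x272f
  have x184t : α 184 = true := tt fun y => c1294 h x379f y x53f
  have x264f : α 264 = false := ff fun y => l3768 h x184t y x23t x327f x272f
  have x113t : α 113 = true := tt fun y => l3691 h y x264f
  have x429t : α 429 = true := tt fun y => l3709 h y x327f x264f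
  have x97f : α 97 = false := ff fun y => c2176 h x113t y x189t
  have x298f : α 298 = false := ff fun y => c719 h x429t x184t y x23t
  have x250t : α 250 = true := tt fun y => c1468 h x58f x97f y
  have x92t : α 92 = true := tt fun y => c1399 h x57f y x58f x97f
  have x257t : α 257 = true := tt fun y => c3034 h x298f x237f y
  have x238f : α 238 = false := ff fun y => c1983 h x94t y x91t x250t
  have x236f : α 236 = false := ff fun y => c1549 h y x92t x61t
  have x117f : α 117 = false := ff fun y => c2057 h x184t x92t y
  have x451f : α 451 = false := ff fun y => c2554 h x146t x257t y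
  have x383t : α 383 = true := tt fun y => c3054 h y x264f x238f
  have x161t : α 161 = true := tt fun y => c2676 h x379f x236f y
  have x424t : α 424 = true := tt fun y => c2427 h y x238f x117f
  have x179f : α 179 = false := ff fun y => c2542 h y x161t x146t x157t
  have x188f : α 188 = false := ff fun y => c1393 h y x424t x56t x335t
  have x20t : α 20 = true := tt fun y => c533 h x188f x57f y
  have x387f : α 387 = false := ff fun y => c517 h x22t x20t x378t y
  have x71t : α 71 = true := tt fun y => c1718 h x179f y x451f x387f
  have x93t : α 93 = true := tt fun y => l3771 h y x383t x117f x236f x238f x379f x22t x52f x53f x57f x346t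
  have x80f : α 80 = false := ff fun y => c511 h y x71t x22t x20t
  have x251t : α 251 = true := tt fun y => l3762 h y x183f x80f x52f x22t
  have x266f : α 266 = false := ff fun y => l3761 h y x95t x80f x23t x184t x53f x22t
  have x248f : α 248 = false := ff fun y => c2088 h y x93t x251t x95t
  c3096 h x379f x266f x248f

theorem l3773 (h : Good α) (x97t : α 97 = true) (x94t : α 94 = true) (x61t : α 61 = true) (x91t : α 91 = true) (x58f : α 58 = false) (x249t : α 249 = true) : False :=
  have x57f : α 57 = false := ff fun y => c1423 h x249t x94t y
  have x1t : α 1 = true := tt fun y => c61 h x57f y x58f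
  have x204f : α 204 = false := ff fun y => c102 h x1t x61t y
  have x449f : α 449 = false := ff fun y => c2135 h y x249t x94t
  have x443t : α 443 = true := tt fun y => c1405 h x449f x57f y x58f
  have x237f : α 237 = false := ff fun y => c1981 h x249t x94t y x91t
  have x54f : α 54 = false := ff fun y => c1310 h x94t y x91t
  have x92f : α 92 = false := ff fun y => c1980 h x94t y x91t x97t
  have x242f : α 242 = false := ff fun y => c1557 h x61t x97t y
  have x402f : α 402 = false := ff fun y => c1558 h y x61t x443t x97t
  have x238t : α 238 = true := tt fun y => c1415 h x57f x92f y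
  have x201t : α 201 = true := tt fun y => c1413 h x57f x92f y x242f
  have x197t : α 197 = true := tt fun y => c1342 h x402f y x54f
  have x547t : α 547 = true := tt fun y => c3348 h y x449f x402f
  have x250f : α 250 = false := ff fun y => c1983 h x94t x238t x91t y
  have x351f : α 351 = false := ff fun y => c112 h x197t x1t y x201t
  have x353f : α 353 = false := ff fun y => c2890 h y x249t x197t
  have x239f : α 239 = false := ff fun y => c2029 h x547t y x443t x91t
  have x354t : α 354 = true := tt fun y => c3030 h x237f x250f x351f y
  have x200t : α 200 = true := tt fun y => c1486 h x353f y x237f x58f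
  have x352t : α 352 = true := tt fun y => c1348 h x239f y x54f x204f
  c2908 h x200t x352t x201t x354t

theorem l3774 (h : Good α) (x189f : α 189 = false) (x242t : α 242 = true) (x92t : α 92 = true) (x56t : α 56 = true) (x59f : α 59 = false) (x58f : α 58 = false) : False :=
  have x387t : α 387 = true := tt fun y => c1526 h x59f x189f y
  have x20t : α 20 = true := tt fun y => c541 h y x59f x189f
  have x19t : α 19 = true := tt fun y => c483 h y x58f x189f
  have x180f : α 180 = false := ff fun y => c2718 h y x242t x387t
  have x264f : α 264 = false := ff fun y => c556 h y x92t x20t
  have x70f : α 70 = false := ff fun y => c473 h x56t x19t y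
  have x188f : α 188 = false := ff fun y => c477 h y x56t x19t
  c1690 h x188f x264f x70f x180f

theorem l3775 (h : Good α) (x264f : α 264 = false) (x189t : α 189 = true) (x239t : α 239 = true) (x146t : α 146 = true) (x92t : α 92 = true) (x250t : α 250 = true) (x237f : α 237 = false) (x57f : α 57 = false) (x94t : α 94 = true) (x61t : α 61 = true) (x91t : α 91 = true) (x58f : α 58 = false) (x346t : α 346 = true) : False :=
  have x236f : α 236 = false := ff fun y => c1549 h y x92t x61t
  have x238f : α 238 = false := ff fun y => c1983 h x94t y x91t x250t
  have x1t : α 1 = true := tt fun y => c61 h x57f y x58f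
  have x204f : α 204 = false := ff fun y => c102 h x1t x61t y
  have x196t : α 196 = true := tt fun y => l3702 h y x204f
  have x53f : α 53 = false := ff fun y => c32 h x196t y x1t
  have x56t : α 56 = true := tt fun y => l3648 h x53f y
  have x327f : α 327 = false := ff fun y => l3667 h x56t y
  have x335t : α 335 = true := tt fun y => l3653 h x53f y
  have x334t : α 334 = true := tt fun y => l3705 h x204f y
  have x272f : α 272 = false := ff fun y => l3740 h y x346t
  have x113t : α 113 = true := tt fun y => l3691 h y x264f
  have x184t : α 184 = true := tt fun y => l3652 h y x264f x53f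
  have x429t : α 429 = true := tt fun y => l3709 h y x327f x264f
  have x299t : α 299 = true := tt fun y => c3052 h x264f x238f y
  have x65f : α 65 = false := ff fun y => c1638 h y x113t x250t
  have x117f : α 117 = false := ff fun y => c2057 h x184t x92t y
  have x23t : α 23 = true := tt fun y => c693 h x65f y x58f
  have x424t : α 424 = true := tt fun y => c2427 h y x238f x117f
  have x85t : α 85 = true := tt fun y => c1881 h x238f x117f y
  have x298f : α 298 = false := ff fun y => c719 h x429t x184t y x23t
  have x19f : α 19 = false := ff fun y => c460 h y x23t x113t
  have x379f : α 379 = false := ff fun y => l3767 h x264f y x23t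
  have x188f : α 188 = false := ff fun y => c1393 h y x424t x56t x335t
  have x257t : α 257 = true := tt fun y => c3034 h x298f x237f y
  have x161t : α 161 = true := tt fun y => c2676 h x379f x236f y
  have x577t : α 577 = true := tt fun y => c3024 h y x379f x236f
  have x20t : α 20 = true := tt fun y => c533 h x188f x57f y
  have x183f : α 183 = false := ff fun y => c2749 h x257t y x189t
  have x386f : α 386 = false := ff fun y => c3068 h x577t y x239t
  have x28f : α 28 = false := ff fun y => c522 h x92t x20t y
  have x380t : α 380 = true := tt fun y => c1481 h x58f x183f y
  have x52t : α 52 = true := tt fun y => l3772 h x183f y x237f x57f x94t x61t x91t x58f x346t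
  have x459t : α 459 = true := tt fun y => c3329 h y x386f x379f
  have x22f : α 22 = false := ff fun y => c640 h y x299t x52t x334t
  have x273t : α 273 = true := tt fun y => c665 h x22f x117f x183f y
  have x62t : α 62 = true := tt fun y => c642 h x57f x22f y
  have x128t : α 128 = true := tt fun y => c622 h x22f x28f y
  have x157f : α 157 = false := ff fun y => c2544 h x146t y x257t x273t
  have x71f : α 71 = false := ff fun y => c1714 h y x161t x189t x273t
  have x202t : α 202 = true := tt fun y => c2651 h x204f x157f y
  have x10t : α 10 = true := tt fun y => c195 h x236f x71f y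
  have x485f : α 485 = false := ff fun y => l3757 h y x10t x459t x28f x264f x346t
  have x120t : α 120 = true := tt fun y => c2457 h x485f x272f y
  have x108f : α 108 = false := ff fun y => l3685 h y x120t
  have x16f : α 16 = false := ff fun y => l3622 h x120t y x52t
  have x291t : α 291 = true := tt fun y => c356 h x16f x108f y
  have x51t : α 51 = true := tt fun y => c312 h x57f y x22f x16f
  have x246f : α 246 = false := ff fun y => c1884 h x85t y x128t x291t
  have x88f : α 88 = false := ff fun y => c12 h y x51t x56t x1t
  have x50f : α 50 = false := ff fun y => c2 h x51t x1t y
  have x66t : α 66 = true := tt fun y => c1646 h y x108f x246f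
  have x100t : α 100 = true := tt fun y => c1925 h x188f x88f y
  have x156t : α 156 = true := tt fun y => c1183 h x50f x58f y
  have x181t : α 181 = true := tt fun y => c1185 h x50f x58f y x183f
  have x182f : α 182 = false := ff fun y => c1586 h x184t y x62t x66t
  have x60f : α 60 = false := ff fun y => c1206 h x51t y x156t
  have x260f : α 260 = false := ff fun y => l3643 h x181t y x52t
  have x17t : α 17 = true := tt fun y => c387 h x182f x53f y
  have x15t : α 15 = true := tt fun y => c277 h y x60f x19f x58f
  have x147t : α 147 = true := tt fun y => c1451 h x60f x58f y
  have x152t : α 152 = true := tt fun y => c1453 h y x60f x58f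
  have x376f : α 376 = false := ff fun y => c369 h x17t x23t y x380t
  have x185f : α 185 = false := ff fun y => c298 h y x56t x15t
  have x103f : α 103 = false := ff fun y => c2223 h x100t x152t y x147t
  have x244t : α 244 = true := tt fun y => c3089 h x376f x260f y
  have x86t : α 86 = true := tt fun y => c1894 h x185f y x103f
  c1373 h x56t x202t x86t x244t

theorem l3776 (h : Good α) (x58f : α 58 = false) (x306t : α 306 = true) (x249t : α 249 = true) (x346t : α 346 = true) : False :=
  have x91t : α 91 = true := tt fun y => l3745 h y x58f x306t x346t x249t
  have x61t : α 61 = true := tt fun y => l3753 h y x58f x306t x346t x249t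
  have x59f : α 59 = false := ff fun y => l3670 h y x61t
  have x94t : α 94 = true := tt fun y => l3766 h y x58f x306t x346t x249t
  have x57f : α 57 = false := ff fun y => c1423 h x249t x94t y
  have x449f : α 449 = false := ff fun y => c2135 h y x249t x94t
  have x54f : α 54 = false := ff fun y => c1310 h x94t y x91t
  have x237f : α 237 = false := ff fun y => c1981 h x249t x94t y x91t
  have x1t : α 1 = true := tt fun y => c61 h x57f y x58f
  have x443t : α 443 = true := tt fun y => c1405 h x449f x57f y x58f
  have x204f : α 204 = false := ff fun y => c102 h x1t x61t y
  have x196t : α 196 = true := tt fun y => l3702 h y x204f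
  have x53f : α 53 = false := ff fun y => c32 h x196t y x1t
  have x56t : α 56 = true := tt fun y => l3648 h x53f y
  have x335t : α 335 = true := tt fun y => l3653 h x53f y
  have x327f : α 327 = false := ff fun y => l3667 h x56t y
  have x97f : α 97 = false := ff fun y => l3773 h y x94t x61t x91t x58f x249t
  have x250t : α 250 = true := tt fun y => c1468 h x58f x97f y
  have x92t : α 92 = true := tt fun y => c1399 h x57f y x58f x97f
  have x238f : α 238 = false := ff fun y => c1983 h x94t y x91t x250t
  have x197f : α 197 = false := ff fun y => c1547 h x249t x92t y x61t
  have x236f : α 236 = false := ff fun y => c1549 h y x92t x61t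
  have x352t : α 352 = true := tt fun y => c2938 h y x238f x204f
  have x402t : α 402 = true := tt fun y => c1342 h y x197f x54f
  have x146t : α 146 = true := tt fun y => c2548 h x327f x197f y
  have x351t : α 351 = true := tt fun y => c2887 h x197f x237f y
  have x200t : α 200 = true := tt fun y => c1465 h y x236f x58f x97f
  have x543f : α 543 = false := ff fun y => c3347 h x402t x443t y
  have x547f : α 547 = false := ff fun y => c118 h y x200t x402t x1t
  have x233f : α 233 = false := ff fun y => c2122 h x249t x94t x351t y
  have x239t : α 239 = true := tt fun y => c2993 h x547f y x543f x233f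
  have x354t : α 354 = true := tt fun y => c1346 h x54f x204f x233f y
  have x201f : α 201 = false := ff fun y => c2908 h x200t x352t y x354t
  have x242t : α 242 = true := tt fun y => c1467 h x58f x97f x201f y
  have x548f : α 548 = false := ff fun y => c3083 h x242t x354t y
  have x409t : α 409 = true := tt fun y => c1351 h x54f y x233f x548f
  have x444f : α 444 = false := ff fun y => c1552 h x92t y x61t x409t
  have x189t : α 189 = true := tt fun y => l3774 h y x242t x92t x56t x59f x58f
  have x264t : α 264 = true := tt fun y => l3775 h y x189t x239t x146t x92t x250t x237f x57f x94t x61t x91t x58f x346t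
  have x20f : α 20 = false := ff fun y => c556 h x264t x92t y
  have x494f : α 494 = false := ff fun y => c2087 h y x264t x92t
  have x188t : α 188 = true := tt fun y => c533 h y x57f x20f
  have x424t : α 424 = true := tt fun y => c3371 h x494f y x444f
  c1393 h x188t x424t x56t x335t

theorem l3777 (h : Good α) (x53f : α 53 = false) (x146t : α 146 = true) (x238f : α 238 = false) (x188t : α 188 = true) (x494f : α 494 = false) (x242t : α 242 = true) (x197f : α 197 = false) (x61t : α 61 = true) (x92t : α 92 = true) : False :=
  have x56t : α 56 = true := tt fun y => l3648 h x53f y
  have x335t : α 335 = true := tt fun y => l3653 h x53f y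
  have x54f : α 54 = false := ff fun y => c1297 h x56t y x146t
  have x424f : α 424 = false := ff fun y => c1393 h x188t y x56t x335t
  have x1t : α 1 = true := tt fun y => c41 h x197f x54f y
  have x444t : α 444 = true := tt fun y => c3371 h x494f x424f y
  have x204f : α 204 = false := ff fun y => c102 h x1t x61t y
  have x548f : α 548 = false := ff fun y => c2082 h x92t x444t x242t y
  have x409f : α 409 = false := ff fun y => c1552 h x92t x444t x61t y
  have x94t : α 94 = true := tt fun y => c1320 h y x238f x54f x204f
  have x233t : α 233 = true := tt fun y => c1351 h x54f x409f y x548f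
  c2041 h x94t x92t x233t x242t

theorem l3778 (h : Good α) (x53t : α 53 = true) (x61t : α 61 = true) : False :=
  have x59f : α 59 = false := ff fun y => l3670 h y x61t
  have x56f : α 56 = false := ff fun y => l3649 h x53t y
  have x153f : α 153 = false := ff fun y => c1263 h y x53t x61t
  have x1t : α 1 = true := tt fun y => c56 h x56f y x59f
  have x54t : α 54 = true := tt fun y => c1298 h x153f x56f y
  c40 h x54t x1t x61t

theorem l3779 (h : Good α) (x238f : α 238 = false) (x188t : α 188 = true) (x242t : α 242 = true) (x197f : α 197 = false) (x61t : α 61 = true) (x92t : α 92 = true) : False :=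
  have x53f : α 53 = false := ff fun y => l3778 h y x61t
  have x56t : α 56 = true := tt fun y => l3648 h x53f y
  have x335t : α 335 = true := tt fun y => l3653 h x53f y
  have x424f : α 424 = false := ff fun y => c1393 h x188t y x56t x335t
  have x327f : α 327 = false := ff fun y => l3667 h x56t y
  have x146t : α 146 = true := tt fun y => c2548 h x327f x197f y
  have x494t : α 494 = true := tt fun y => l3777 h x53f x146t x238f x188t y x242t x197f x61t x92t
  have x117t : α 117 = true := tt fun y => c2427 h x424f x238f y
  have x264f : α 264 = false := ff fun y => c2087 h x494t y x92t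
  have x184f : α 184 = false := ff fun y => c2057 h y x92t x117t
  l3652 h x184f x264f x53f

theorem l3780 (h : Good α) (x16f : α 16 = false) (x187t : α 187 = true) (x342f : α 342 = false) (x261t : α 261 = true) (x389t : α 389 = true) (x182f : α 182 = false) (x52f : α 52 = false) (x20f : α 20 = false) (x200f : α 200 = false) (x94f : α 94 = false) (x264f : α 264 = false) (x386f : α 386 = false) (x188t : α 188 = true) (x19f : α 19 = false) (x189t : α 189 = true) (x60f : α 60 = false) (x54f : α 54 = false) (x327f : α 327 = false) (x197f : α 197 = false) (x346t : α 346 = true) : False :=
  have x562t : α 562 = true := tt fun y => c2747 h y x342f x182f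
  have x93t : α 93 = true := tt fun y => c2095 h x342f x182f y
  have x36f : α 36 = false := ff fun y => l3639 h y x346t
  have x68t : α 68 = true := tt fun y => c342 h y x16f x52f
  have x24t : α 24 = true := tt fun y => c320 h y x16f x54f x52f
  have x51t : α 51 = true := tt fun y => c339 h x182f y x16f
  have x194f : α 194 = false := ff fun y => c1668 h x389t y x68t
  have x88f : α 88 = false := ff fun y => c743 h x261t y x24t
  have x82f : α 82 = false := ff fun y => c727 h y x24t x51t
  have x148t : α 148 = true := tt fun y => c2565 h x200f y x194f
  have x120t : α 120 = true := tt fun y => c1926 h y x88f x182f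
  have x337t : α 337 = true := tt fun y => c1933 h x88f x182f y
  have x269t : α 269 = true := tt fun y => c1932 h y x342f x88f x182f
  have x221t : α 221 = true := tt fun y => c1854 h y x82f x327f x197f
  have x107f : α 107 = false := ff fun y => c728 h y x148t x24t x51t
  have x319f : α 319 = false := ff fun y => c1215 h y x148t x51t
  have x175f : α 175 = false := ff fun y => l3698 h x120t y
  have x414f : α 414 = false := ff fun y => c2814 h y x269t x188t
  have x207t : α 207 = true := tt fun y => c2107 h y x107f x94f
  have x498t : α 498 = true := tt fun y => c2915 h y x319f x386f x200f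
  have x369f : α 369 = false := ff fun y => c2797 h y x207t x346t x187t
  have x15f : α 15 = false := ff fun y => c303 h x498t x562t y x93t
  have x41t : α 41 = true := tt fun y => c1117 h x369f x175f y
  have x235t : α 235 = true := tt fun y => c2704 h x369f x414f x175f y
  have x140t : α 140 = true := tt fun y => c293 h y x36f x15f
  have x186t : α 186 = true := tt fun y => c299 h x15f x60f y
  have x100t : α 100 = true := tt fun y => c278 h y x15f x19f
  have x72f : α 72 = false := ff fun y => c1730 h x235t x100t y
  have x256f : α 256 = false := ff fun y => c2521 h x221t x337t x140t y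
  have x255f : α 255 = false := ff fun y => c2788 h y x186t x189t
  have x4t : α 4 = true := tt fun y => c140 h x369f x414f y x72f
  have x474t : α 474 = true := tt fun y => l3708 h x256f y
  have x476t : α 476 = true := tt fun y => c577 h x264f y x20f x255f
  c136 h x41t x476t x4t x474t

theorem l3781 (h : Good α) (x182f : α 182 = false) (x95t : α 95 = true) (x52f : α 52 = false) (x20f : α 20 = false) (x183f : α 183 = false) (x23f : α 23 = false) (x153f : α 153 = false) (x200f : α 200 = false) (x65f : α 65 = false) (x94f : α 94 = false) (x264f : α 264 = false) (x188t : α 188 = true) (x19f : α 19 = false) (x189t : α 189 = true) (x60f : α 60 = false) (x201f : α 201 = false) (x53f : α 53 = false) (x197f : α 197 = false) (x346t : α 346 = true) : False :=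
  have x272f : α 272 = false := ff fun y => l3740 h y x346t
  have x22t : α 22 = true := tt fun y => c656 h x272f x94f y
  have x56t : α 56 = true := tt fun y => l3648 h x53f y
  have x327f : α 327 = false := ff fun y => l3667 h x56t y
  have x146t : α 146 = true := tt fun y => c2548 h x327f x197f y
  have x54f : α 54 = false := ff fun y => c1297 h x56t y x146t
  have x239t : α 239 = true := tt fun y => c1322 h y x94f x54f
  have x386f : α 386 = false := ff fun y => c1395 h y x188t x56t
  have x114t : α 114 = true := tt fun y => c461 h y x19f x23f
  have x158f : α 158 = false := ff fun y => l3694 h x114t y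
  have x184t : α 184 = true := tt fun y => l3652 h y x264f x53f
  have x81t : α 81 = true := tt fun y => c684 h x53f x23f y
  have x70f : α 70 = false := ff fun y => c1682 h x188t x184t y x81t
  have x459t : α 459 = true := tt fun y => c1689 h y x386f x158f x70f
  have x80f : α 80 = false := ff fun y => c1830 h x459t x239t y
  have x251t : α 251 = true := tt fun y => l3762 h y x183f x80f x52f x22t
  have x379t : α 379 = true := tt fun y => c462 h x386f y x19f x23f
  have x580f : α 580 = false := ff fun y => l3737 h x346t y
  have x389t : α 389 = true := tt fun y => c1290 h y x182f x53f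
  have x261t : α 261 = true := tt fun y => c1282 h y x182f x153f x53f
  have x342f : α 342 = false := ff fun y => c3294 h x379t y x389t
  have x93t : α 93 = true := tt fun y => c2095 h x342f x182f y
  have x562t : α 562 = true := tt fun y => c2747 h y x342f x182f
  have x248f : α 248 = false := ff fun y => c2088 h y x93t x251t x95t
  have x96t : α 96 = true := tt fun y => c1276 h x248f y x53f
  have x110f : α 110 = false := ff fun y => c2161 h x184t x96t y
  have x258t : α 258 = true := tt fun y => c709 h x110f x23f y x183f
  have x169t : α 169 = true := tt fun y => c697 h y x65f x110f x23f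
  have x477t : α 477 = true := tt fun y => c2340 h x580f x248f y x110f
  have x384f : α 384 = false := ff fun y => c3118 h x251t x258t y
  have x338f : α 338 = false := ff fun y => c3150 h x477t y x258t
  have x181t : α 181 = true := tt fun y => c1253 h x52f y x384f
  have x187t : α 187 = true := tt fun y => c2113 h x94f y x338f
  have x67f : α 67 = false := ff fun y => c1652 h x169t y x258t x181t
  have x172t : α 172 = true := tt fun y => c1634 h x67f x65f y
  have x16t : α 16 = true := tt fun y => l3780 h y x187t x342f x261t x389t x182f x52f x20f x200f x94f x264f x386f x188t x19f x189t x60f x54f x327f x197f x346t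
  have x118f : α 118 = false := ff fun y => c317 h y x22t x16t
  have x265f : α 265 = false := ff fun y => c354 h x16t x95t y
  have x134t : α 134 = true := tt fun y => c1813 h y x80f x118f
  have x119t : α 119 = true := tt fun y => c716 h x23f y x183f x265f
  have x319f : α 319 = false := ff fun y => c2515 h x562t y x134t
  have x156f : α 156 = false := ff fun y => c2445 h x172t x119t y
  have x498t : α 498 = true := tt fun y => c2915 h y x319f x386f x200f
  have x35t : α 35 = true := tt fun y => c1003 h y x156f x70f x201f
  c1010 h x498t x562t x35t x119t

theorem l3782 (h : Good α) (x261t : α 261 = true) (x73t : α 73 = true) (x17t : α 17 = true) (x182t : α 182 = true) (x153f : α 153 = false) : False :=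
  have x111f : α 111 = false := ff fun y => c401 h x261t x182t y x17t
  have x168f : α 168 = false := ff fun y => c1740 h x261t x182t y x73t
  c2346 h x153f x111f x168f

theorem l3783 (h : Good α) (x153f : α 153 = false) (x200f : α 200 = false) (x106f : α 106 = false) (x430f : α 430 = false) (x65f : α 65 = false) (x91t : α 91 = true) (x94f : α 94 = false) (x264f : α 264 = false) (x188t : α 188 = true) (x242t : α 242 = true) (x19f : α 19 = false) (x189t : α 189 = true) (x334t : α 334 = true) (x443f : α 443 = false) (x60f : α 60 = false) (x201f : α 201 = false) (x53f : α 53 = false) (x197f : α 197 = false) (x97f : α 97 = false) (x92t : α 92 = true) (x346t : α 346 = true) : False :=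
  have x56t : α 56 = true := tt fun y => l3648 h x53f y
  have x386f : α 386 = false := ff fun y => c1395 h y x188t x56t
  have x71t : α 71 = true := tt fun y => c1721 h x386f x200f y
  have x184t : α 184 = true := tt fun y => l3652 h y x264f x53f
  have x117f : α 117 = false := ff fun y => c2057 h x184t x92t y
  have x327f : α 327 = false := ff fun y => l3667 h x56t y
  have x146t : α 146 = true := tt fun y => c2548 h x327f x197f y
  have x54f : α 54 = false := ff fun y => c1297 h x56t y x146t
  have x239t : α 239 = true := tt fun y => c1322 h y x94f x54f
  have x272f : α 272 = false := ff fun y => l3740 h y x346t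
  have x22t : α 22 = true := tt fun y => c656 h x272f x94f y
  have x505t : α 505 = true := tt fun y => c2140 h y x272f x94f
  have x429t : α 429 = true := tt fun y => l3709 h y x327f x264f
  have x1t : α 1 = true := tt fun y => c41 h x197f x54f y
  have x199f : α 199 = false := ff fun y => c60 h y x56t x1t
  have x328t : α 328 = true := tt fun y => c2620 h y x199f x153f
  have x222f : α 222 = false := ff fun y => c2974 h x505t x328t y
  have x298t : α 298 = true := tt fun y => c2971 h x222f y x443f
  have x23f : α 23 = false := ff fun y => c719 h x429t x184t x298t y
  have x81t : α 81 = true := tt fun y => c684 h x53f x23f y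
  have x114t : α 114 = true := tt fun y => c461 h y x19f x23f
  have x273t : α 273 = true := tt fun y => c706 h x23f x97f y
  have x462f : α 462 = false := ff fun y => c1847 h x81t x242t y
  have x70f : α 70 = false := ff fun y => c1682 h x188t x184t y x81t
  have x158f : α 158 = false := ff fun y => l3694 h x114t y
  have x183f : α 183 = false := ff fun y => c1993 h x114t x91t y
  have x161f : α 161 = false := ff fun y => c1714 h x71t y x189t x273t
  have x387t : α 387 = true := tt fun y => c1693 h x70f x201f y
  have x459t : α 459 = true := tt fun y => c1689 h y x386f x158f x70f
  have x179t : α 179 = true := tt fun y => c2276 h y x161f x106f x117f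
  have x80f : α 80 = false := ff fun y => c1830 h x459t x239t y
  have x257f : α 257 = false := ff fun y => c1717 h x179t x71t y x189t
  have x378t : α 378 = true := tt fun y => c1818 h x80f x161f y x462f
  have x299t : α 299 = true := tt fun y => c2291 h x106f y x257f x430f
  have x20f : α 20 = false := ff fun y => c517 h x22t y x378t x387t
  have x52f : α 52 = false := ff fun y => c640 h x22t x299t y x334t
  have x251t : α 251 = true := tt fun y => l3762 h y x183f x80f x52f x22t
  have x95t : α 95 = true := tt fun y => l3489 h y x378t x183f x52f
  have x182t : α 182 = true := tt fun y => l3781 h y x95t x52f x20f x183f x23f x153f x200f x65f x94f x264f x188t x19f x189t x60f x201f x53f x197f x346t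
  have x263f : α 263 = false := ff fun y => c2740 h x184t x182t y
  have x93t : α 93 = true := tt fun y => c701 h x263f y x23f
  have x343t : α 343 = true := tt fun y => c705 h x263f y x23f x97f
  have x248f : α 248 = false := ff fun y => c2088 h y x93t x251t x95t
  have x119f : α 119 = false := ff fun y => c2090 h x182t x93t y
  have x192f : α 192 = false := ff fun y => c2070 h x92t y x343t
  have x96t : α 96 = true := tt fun y => c1276 h x248f y x53f
  have x17t : α 17 = true := tt fun y => c366 h y x23f x119f
  have x110f : α 110 = false := ff fun y => c2161 h x184t x96t y
  have x32f : α 32 = false := ff fun y => c378 h x96t x17t y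
  have x73t : α 73 = true := tt fun y => c1738 h x248f x110f y
  have x112t : α 112 = true := tt fun y => c676 h x23f x97f x32f y
  have x64f : α 64 = false := ff fun y => c1626 h y x112t x242t
  have x261f : α 261 = false := ff fun y => l3782 h y x73t x17t x182t x153f
  have x111t : α 111 = true := tt fun y => c2347 h x261f x153f y
  have x168t : α 168 = true := tt fun y => c1627 h x261f x192f y x64f
  c390 h x111t x17t x168t x73t

theorem l3784 (h : Good α) (x183f : α 183 = false) (x261f : α 261 = false) (x263f : α 263 = false) (x52f : α 52 = false) (x20f : α 20 = false) (x71t : α 71 = true) (x200f : α 200 = false) (x106f : α 106 = false) (x264f : α 264 = false) (x233t : α 233 = true) (x201f : α 201 = false) (x197f : α 197 = false) (x61t : α 61 = true) (x92t : α 92 = true) (x306t : α 306 = true) (x346t : α 346 = true) : False :=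
  have x53f : α 53 = false := ff fun y => l3778 h y x61t
  have x184t : α 184 = true := tt fun y => l3652 h y x264f x53f
  have x341f : α 341 = false := ff fun y => c2066 h y x184t x92t
  have x279t : α 279 = true := tt fun y => c3167 h x341f x261f y
  have x117f : α 117 = false := ff fun y => c2057 h x184t x92t y
  have x59f : α 59 = false := ff fun y => l3670 h y x61t
  have x157t : α 157 = true := tt fun y => c539 h x20f x117f x59f y
  have x56t : α 56 = true := tt fun y => l3648 h x53f y
  have x327f : α 327 = false := ff fun y => l3667 h x56t y
  have x146t : α 146 = true := tt fun y => c2548 h x327f x197f y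
  have x54f : α 54 = false := ff fun y => c1297 h x56t y x146t
  have x1t : α 1 = true := tt fun y => c41 h x197f x54f y
  have x199f : α 199 = false := ff fun y => c60 h y x56t x1t
  have x97f : α 97 = false := ff fun y => c1545 h x92t x61t y
  have x378t : α 378 = true := tt fun y => c1258 h x52f x183f y
  have x451f : α 451 = false := ff fun y => l3434 h y x378t x233t x201f
  have x387t : α 387 = true := tt fun y => c566 h x106f x20f x451f y
  have x80f : α 80 = false := ff fun y => c1706 h y x71t x378t x387t
  have x379t : α 379 = true := tt fun y => c1825 h y x200f x80f
  have x23f : α 23 = false := ff fun y => l3767 h x264f x379t y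
  have x33t : α 33 = true := tt fun y => c681 h y x23f x97f
  have x273t : α 273 = true := tt fun y => c706 h x23f x97f y
  have x343t : α 343 = true := tt fun y => c705 h x263f y x23f x97f
  have x105f : α 105 = false := ff fun y => c974 h x279t y x33t
  have x257f : α 257 = false := ff fun y => c2544 h x146t x157t y x273t
  have x480f : α 480 = false := ff fun y => c980 h x279t y x33t x273t
  have x192f : α 192 = false := ff fun y => c2070 h x92t y x343t
  have x45t : α 45 = true := tt fun y => c1135 h x261f x105f y
  have x423t : α 423 = true := tt fun y => c2756 h y x257f x183f
  have x276t : α 276 = true := tt fun y => c2434 h x117f y x480f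
  have x111f : α 111 = false := ff fun y => c964 h y x33t x45t
  have x326f : α 326 = false := ff fun y => c3249 h x306t y x423t
  have x25t : α 25 = true := tt fun y => c788 h x261f x192f x111f y
  have x323t : α 323 = true := tt fun y => l3614 h x346t x199f x326f y x197f
  have x295f : α 295 = false := ff fun y => c779 h x323t x61t y x25t
  have x415f : α 415 = false := ff fun y => c2662 h y x276t x323t x157t
  c2350 h x415f x261f x295f x111f

theorem l3785 (h : Good α) (x183t : α 183 = true) (x91t : α 91 = true) (x19f : α 19 = false) (x58t : α 58 = true) : False :=
  have x23f : α 23 = false := ff fun y => c696 h y x58t x183t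
  have x114f : α 114 = false := ff fun y => c1993 h y x91t x183t
  c461 h x114f x19f x23f

theorem l3786 (h : Good α) (x261f : α 261 = false) (x52f : α 52 = false) (x20f : α 20 = false) (x183f : α 183 = false) (x71t : α 71 = true) (x200f : α 200 = false) (x106f : α 106 = false) (x264f : α 264 = false) (x233t : α 233 = true) (x201f : α 201 = false) (x197f : α 197 = false) (x61t : α 61 = true) (x92t : α 92 = true) (x306t : α 306 = true) (x346t : α 346 = true) : False :=
  have x97f : α 97 = false := ff fun y => c1545 h x92t x61t y
  have x378t : α 378 = true := tt fun y => c1258 h x52f x183f y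
  have x451f : α 451 = false := ff fun y => l3434 h y x378t x233t x201f
  have x387t : α 387 = true := tt fun y => c566 h x106f x20f x451f y
  have x80f : α 80 = false := ff fun y => c1706 h y x71t x378t x387t
  have x379t : α 379 = true := tt fun y => c1825 h y x200f x80f
  have x23f : α 23 = false := ff fun y => l3767 h x264f x379t y
  have x273t : α 273 = true := tt fun y => c706 h x23f x97f y
  have x33t : α 33 = true := tt fun y => c681 h y x23f x97f
  have x53f : α 53 = false := ff fun y => l3778 h y x61t
  have x184t : α 184 = true := tt fun y => l3652 h y x264f x53f
  have x117f : α 117 = false := ff fun y => c2057 h x184t x92t y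
  have x59f : α 59 = false := ff fun y => l3670 h y x61t
  have x157t : α 157 = true := tt fun y => c539 h x20f x117f x59f y
  have x341f : α 341 = false := ff fun y => c2066 h y x184t x92t
  have x279t : α 279 = true := tt fun y => c3167 h x341f x261f y
  have x263t : α 263 = true := tt fun y => l3784 h x183f x261f y x52f x20f x71t x200f x106f x264f x233t x201f x197f x61t x92t x306t x346t
  have x480f : α 480 = false := ff fun y => c980 h x279t y x33t x273t
  have x182f : α 182 = false := ff fun y => c2740 h x184t y x263t
  have x276t : α 276 = true := tt fun y => c2434 h x117f y x480f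
  have x192t : α 192 = true := tt fun y => c2743 h x261f x182f y
  c1566 h x192t x276t x61t x157t

theorem l3787 (h : Good α) (x20f : α 20 = false) (x183f : α 183 = false) (x153t : α 153 = true) (x71t : α 71 = true) (x200f : α 200 = false) (x106f : α 106 = false) (x22t : α 22 = true) (x264f : α 264 = false) (x354f : α 354 = false) (x424f : α 424 = false) (x242t : α 242 = true) (x201f : α 201 = false) (x197f : α 197 = false) (x61t : α 61 = true) (x92t : α 92 = true) (x306t : α 306 = true) (x346t : α 346 = true) : False :=
  have x53f : α 53 = false := ff fun y => l3778 h y x61t
  have x184t : α 184 = true := tt fun y => l3652 h y x264f x53f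
  have x117f : α 117 = false := ff fun y => c2057 h x184t x92t y
  have x113t : α 113 = true := tt fun y => l3691 h y x264f
  have x56t : α 56 = true := tt fun y => l3648 h x53f y
  have x327f : α 327 = false := ff fun y => l3667 h x56t y
  have x146t : α 146 = true := tt fun y => c2548 h x327f x197f y
  have x54f : α 54 = false := ff fun y => c1297 h x56t y x146t
  have x1t : α 1 = true := tt fun y => c41 h x197f x54f y
  have x204f : α 204 = false := ff fun y => c102 h x1t x61t y
  have x233t : α 233 = true := tt fun y => c1346 h x54f x204f y x354f
  have x250t : α 250 = true := tt fun y => c2940 h x204f y x354f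
  have x334t : α 334 = true := tt fun y => l3705 h x204f y
  have x97f : α 97 = false := ff fun y => c1545 h x92t x61t y
  have x59f : α 59 = false := ff fun y => l3670 h y x61t
  have x299t : α 299 = true := tt fun y => c570 h x20f x117f y
  have x157t : α 157 = true := tt fun y => c539 h x20f x117f x59f y
  have x52f : α 52 = false := ff fun y => c640 h x22t x299t y x334t
  have x378t : α 378 = true := tt fun y => c1258 h x52f x183f y
  have x451f : α 451 = false := ff fun y => l3434 h y x378t x233t x201f
  have x387t : α 387 = true := tt fun y => c566 h x106f x20f x451f y
  have x180f : α 180 = false := ff fun y => c2718 h y x242t x387t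
  have x80f : α 80 = false := ff fun y => c1706 h y x71t x378t x387t
  have x379t : α 379 = true := tt fun y => c1825 h y x200f x80f
  have x23f : α 23 = false := ff fun y => l3767 h x264f x379t y
  have x273t : α 273 = true := tt fun y => c706 h x23f x97f y
  have x261t : α 261 = true := tt fun y => l3786 h y x52f x20f x183f x71t x200f x106f x264f x233t x201f x197f x61t x92t x306t x346t
  have x192f : α 192 = false := ff fun y => c1564 h x261t y x153t x61t
  have x276f : α 276 = false := ff fun y => c2616 h x261t y x153t x157t
  have x182t : α 182 = true := tt fun y => c2744 h y x192f x276f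
  have x480t : α 480 = true := tt fun y => c2434 h x117f x276f y
  have x557t : α 557 = true := tt fun y => c2433 h x424f y x117f x276f
  have x347f : α 347 = false := ff fun y => c3219 h x480t y x273t
  have x337f : α 337 = false := ff fun y => c2746 h x182t y x557t
  have x486t : α 486 = true := tt fun y => c3235 h x276f x347f y
  have x27t : α 27 = true := tt fun y => l3632 h y x337f
  have x473f : α 473 = false := ff fun y => c3114 h x250t y x273t x486t
  have x284f : α 284 = false := ff fun y => c831 h x27t x113t y
  c2719 h x284f x473f x180f x354f

theorem l3788 (h : Good α) (x188t : α 188 = true) (x242t : α 242 = true) (x189t : α 189 = true) (x61t : α 61 = true) (x92t : α 92 = true) (x306t : α 306 = true) (x346t : α 346 = true) (x249t : α 249 = true) : False :=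
  have x58t : α 58 = true := tt fun y => l3776 h y x306t x249t x346t
  have x19f : α 19 = false := ff fun y => c484 h y x58t x189t
  have x197f : α 197 = false := ff fun y => c1547 h x249t x92t y x61t
  have x53f : α 53 = false := ff fun y => l3778 h y x61t
  have x56t : α 56 = true := tt fun y => l3648 h x53f y
  have x327f : α 327 = false := ff fun y => l3667 h x56t y
  have x146t : α 146 = true := tt fun y => c2548 h x327f x197f y
  have x54f : α 54 = false := ff fun y => c1297 h x56t y x146t
  have x1t : α 1 = true := tt fun y => c41 h x197f x54f y
  have x204f : α 204 = false := ff fun y => c102 h x1t x61t y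
  have x334t : α 334 = true := tt fun y => l3705 h x204f y
  have x402t : α 402 = true := tt fun y => c1342 h y x197f x54f
  have x443f : α 443 = false := ff fun y => c84 h x402t x1t y x58t
  have x60f : α 60 = false := ff fun y => l3449 h y x58t x1t
  have x201f : α 201 = false := ff fun y => c80 h x1t x58t y
  have x335t : α 335 = true := tt fun y => l3653 h x53f y
  have x97f : α 97 = false := ff fun y => c1545 h x92t x61t y
  have x272f : α 272 = false := ff fun y => l3740 h y x346t
  have x386f : α 386 = false := ff fun y => c1395 h y x188t x56t
  have x424f : α 424 = false := ff fun y => c1393 h x188t y x56t x335t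
  have x238t : α 238 = true := tt fun y => l3779 h y x188t x242t x197f x61t x92t
  have x444f : α 444 = false := ff fun y => c2080 h x92t x238t y
  have x354f : α 354 = false := ff fun y => c2078 h x92t x238t x242t y
  have x494t : α 494 = true := tt fun y => c3371 h y x424f x444f
  have x351t : α 351 = true := tt fun y => c2881 h x197f x204f y x354f
  have x250t : α 250 = true := tt fun y => c2940 h x204f y x354f
  have x233t : α 233 = true := tt fun y => c1346 h x54f x204f y x354f
  have x264f : α 264 = false := ff fun y => c2087 h x494t y x92t
  have x237f : α 237 = false := ff fun y => c3028 h x249t x238t y x250t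
  have x94f : α 94 = false := ff fun y => c2122 h x249t y x351t x233t
  have x113t : α 113 = true := tt fun y => l3691 h y x264f
  have x429t : α 429 = true := tt fun y => l3709 h y x327f x264f
  have x91t : α 91 = true := tt fun y => c2024 h x443f x237f y
  have x22t : α 22 = true := tt fun y => c656 h x272f x94f y
  have x239t : α 239 = true := tt fun y => c1322 h y x94f x54f
  have x65f : α 65 = false := ff fun y => c1638 h y x113t x250t
  have x430f : α 430 = false := ff fun y => c2370 h x113t x250t y
  have x106f : α 106 = false := ff fun y => c2288 h x429t x249t y
  have x200f : α 200 = false := ff fun y => c1459 h x239t y x91t x58t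
  have x71t : α 71 = true := tt fun y => c1721 h x386f x200f y
  have x153t : α 153 = true := tt fun y => l3783 h y x200f x106f x430f x65f x91t x94f x264f x188t x242t x19f x189t x334t x443f x60f x201f x53f x197f x97f x92t x346t
  have x183f : α 183 = false := ff fun y => l3785 h y x91t x19f x58t
  have x20t : α 20 = true := tt fun y => l3787 h y x183f x153t x71t x200f x106f x22t x264f x354f x424f x242t x201f x197f x61t x92t x306t x346t
  have x423f : α 423 = false := ff fun y => c576 h x306t x20t y x189t
  have x257t : α 257 = true := tt fun y => c2756 h x423f y x183f
  have x487t : α 487 = true := tt fun y => c3369 h x443f x423f y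
  c2035 h x91t x257t x487t

theorem l3789 (h : Good α) (x242t : α 242 = true) (x189t : α 189 = true) (x57f : α 57 = false) (x61t : α 61 = true) (x92t : α 92 = true) (x306t : α 306 = true) (x346t : α 346 = true) (x249t : α 249 = true) : False :=
  have x58t : α 58 = true := tt fun y => l3776 h y x306t x249t x346t
  have x19f : α 19 = false := ff fun y => c484 h y x58t x189t
  have x197f : α 197 = false := ff fun y => c1547 h x249t x92t y x61t
  have x53f : α 53 = false := ff fun y => l3778 h y x61t
  have x56t : α 56 = true := tt fun y => l3648 h x53f y
  have x327f : α 327 = false := ff fun y => l3667 h x56t y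
  have x146t : α 146 = true := tt fun y => c2548 h x327f x197f y
  have x54f : α 54 = false := ff fun y => c1297 h x56t y x146t
  have x1t : α 1 = true := tt fun y => c41 h x197f x54f y
  have x402t : α 402 = true := tt fun y => c1342 h y x197f x54f
  have x443f : α 443 = false := ff fun y => c84 h x402t x1t y x58t
  have x272f : α 272 = false := ff fun y => l3740 h y x346t
  have x188f : α 188 = false := ff fun y => l3788 h y x242t x189t x61t x92t x306t x346t x249t
  have x184t : α 184 = true := tt fun y => c2767 h x272f x188f y
  have x20t : α 20 = true := tt fun y => c533 h x188f x57f y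
  have x341f : α 341 = false := ff fun y => c2066 h y x184t x92t
  have x423f : α 423 = false := ff fun y => c576 h x306t x20t y x189t
  have x94t : α 94 = true := tt fun y => c2117 h x341f x188f y
  have x487t : α 487 = true := tt fun y => c3369 h x443f x423f y
  have x233f : α 233 = false := ff fun y => c2041 h x94t x92t y x242t
  have x91t : α 91 = true := tt fun y => c1314 h x54f y x233f
  have x183f : α 183 = false := ff fun y => l3785 h y x91t x19f x58t
  have x257f : α 257 = false := ff fun y => c2035 h x91t y x487t
  c2756 h x423f x257f x183f

theorem l3790 (h : Good α) (x242f : α 242 = false) (x204f : α 204 = false) (x54f : α 54 = false) (x236f : α 236 = false) (x197f : α 197 = false) (x97f : α 97 = false) (x58t : α 58 = true) : False :=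
  have x1t : α 1 = true := tt fun y => c41 h x197f x54f y
  have x402t : α 402 = true := tt fun y => c1342 h y x197f x54f
  have x443f : α 443 = false := ff fun y => c84 h x402t x1t y x58t
  have x201f : α 201 = false := ff fun y => c80 h x1t x58t y
  have x233t : α 233 = true := tt fun y => c2919 h y x201f x242f
  have x543t : α 543 = true := tt fun y => c2193 h x443f x97f y x242f
  have x200t : α 200 = true := tt fun y => c2903 h y x236f x201f x242f
  have x351f : α 351 = false := ff fun y => c3001 h x543t y x233t
  have x237t : α 237 = true := tt fun y => c2887 h x197f y x351f
  have x91f : α 91 = false := ff fun y => c1462 h x237t y x58t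
  have x353f : α 353 = false := ff fun y => c1487 h y x200t x237t x58t
  have x250t : α 250 = true := tt fun y => c1312 h x54f x204f x91f y
  have x352t : α 352 = true := tt fun y => c2883 h x353f y x197f x204f
  c1489 h x200t x352t x58t x250t

theorem l3791 (h : Good α) (x94f : α 94 = false) (x341f : α 341 = false) (x28f : α 28 = false) (x264f : α 264 = false) (x576f : α 576 = false) (x180f : α 180 = false) (x113t : α 113 = true) (x340t : α 340 = true) (x189f : α 189 = false) (x204f : α 204 = false) (x335t : α 335 = true) (x56t : α 56 = true) (x197f : α 197 = false) (x59f : α 59 = false) (x58t : α 58 = true) (x346t : α 346 = true) : False :=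
  have x260f : α 260 = false := ff fun y => l3503 h y x340t
  have x20t : α 20 = true := tt fun y => c541 h y x59f x189f
  have x387t : α 387 = true := tt fun y => c1526 h x59f x189f y
  have x327f : α 327 = false := ff fun y => l3667 h x56t y
  have x146t : α 146 = true := tt fun y => c2548 h x327f x197f y
  have x54f : α 54 = false := ff fun y => c1297 h x56t y x146t
  have x272f : α 272 = false := ff fun y => l3740 h y x346t
  have x36f : α 36 = false := ff fun y => l3639 h y x346t
  have x91t : α 91 = true := tt fun y => c1309 h x94f x54f y
  have x22t : α 22 = true := tt fun y => c656 h x272f x94f y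
  have x188t : α 188 = true := tt fun y => c2117 h x341f y x94f
  have x237f : α 237 = false := ff fun y => c1462 h y x91t x58t
  have x183f : α 183 = false := ff fun y => c2007 h x91t y x340t
  have x378f : α 378 = false := ff fun y => c517 h x22t x20t y x387t
  have x424f : α 424 = false := ff fun y => c1393 h x188t y x56t x335t
  have x250t : α 250 = true := tt fun y => c2877 h x197f x204f x237f y
  have x52t : α 52 = true := tt fun y => c1228 h y x59f x183f x189f
  have x273t : α 273 = true := tt fun y => c2750 h x183f x189f y
  have x307f : α 307 = false := ff fun y => c3110 h y x250t x273t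
  have x114t : α 114 = true := tt fun y => c2393 h x272f x424f y x307f
  have x158f : α 158 = false := ff fun y => l3694 h x114t y
  have x285f : α 285 = false := ff fun y => l3453 h y x114t x180f x346t x113t x340t x576f
  have x467t : α 467 = true := tt fun y => c2672 h y x285f x158f
  have x454f : α 454 = false := ff fun y => l3716 h y x467t
  have x384f : α 384 = false := ff fun y => l3647 h y x467t x52t
  have x478t : α 478 = true := tt fun y => c3384 h x454f y x576f
  have x181t : α 181 = true := tt fun y => c2731 h y x260f x384f x454f
  have x259f : α 259 = false := ff fun y => c2037 h x91t x340t y x478t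
  have x16f : α 16 = false := ff fun y => c347 h y x52t x181t
  have x18t : α 18 = true := tt fun y => c424 h x36f y x285f x259f
  have x108t : α 108 = true := tt fun y => c358 h x16f y x384f x454f
  have x30f : α 30 = false := ff fun y => c414 h y x18t x91t
  have x167f : α 167 = false := ff fun y => l3686 h x108t y
  have x41t : α 41 = true := tt fun y => c909 h y x30f x285f x259f
  have x68t : α 68 = true := tt fun y => c1663 h y x167f x384f x454f
  have x282f : α 282 = false := ff fun y => c1111 h x41t y x114t x340t
  have x109t : α 109 = true := tt fun y => c924 h x30f y x282f
  have x476t : α 476 = true := tt fun y => c877 h x264f y x28f x282f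
  have x247f : α 247 = false := ff fun y => c1660 h x68t x109t y
  have x256f : α 256 = false := ff fun y => c2373 h x476t y x113t
  have x4t : α 4 = true := tt fun y => c144 h y x247f x158f x378f
  have x474t : α 474 = true := tt fun y => l3708 h x256f y
  c136 h x41t x476t x4t x474t

theorem l3792 (h : Good α) (x57f : α 57 = false) (x61t : α 61 = true) (x92t : α 92 = true) (x306t : α 306 = true) (x346t : α 346 = true) (x249t : α 249 = true) : False :=
  have x58t : α 58 = true := tt fun y => l3776 h y x306t x249t x346t
  have x97f : α 97 = false := ff fun y => c1545 h x92t x61t y
  have x197f : α 197 = false := ff fun y => c1547 h x249t x92t y x61t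
  have x236f : α 236 = false := ff fun y => c1549 h y x92t x61t
  have x53f : α 53 = false := ff fun y => l3778 h y x61t
  have x56t : α 56 = true := tt fun y => l3648 h x53f y
  have x327f : α 327 = false := ff fun y => l3667 h x56t y
  have x146t : α 146 = true := tt fun y => c2548 h x327f x197f y
  have x54f : α 54 = false := ff fun y => c1297 h x56t y x146t
  have x1t : α 1 = true := tt fun y => c41 h x197f x54f y
  have x204f : α 204 = false := ff fun y => c102 h x1t x61t y
  have x242t : α 242 = true := tt fun y => l3790 h y x204f x54f x236f x197f x97f x58t
  have x335t : α 335 = true := tt fun y => l3653 h x53f y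
  have x59f : α 59 = false := ff fun y => l3670 h y x61t
  have x272f : α 272 = false := ff fun y => l3740 h y x346t
  have x189f : α 189 = false := ff fun y => l3789 h x242t y x57f x61t x92t x306t x346t x249t
  have x387t : α 387 = true := tt fun y => c1526 h x59f x189f y
  have x20t : α 20 = true := tt fun y => c541 h y x59f x189f
  have x340t : α 340 = true := tt fun y => c2182 h x97f x189f y
  have x113t : α 113 = true := tt fun y => c2175 h y x97f x189f
  have x180f : α 180 = false := ff fun y => c2718 h y x242t x387t
  have x576f : α 576 = false := ff fun y => c3085 h x242t x387t y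
  have x264f : α 264 = false := ff fun y => c556 h y x92t x20t
  have x28f : α 28 = false := ff fun y => c522 h x92t x20t y
  have x260f : α 260 = false := ff fun y => l3503 h y x340t
  have x81t : α 81 = true := tt fun y => l3650 h y x180f x53f
  have x184t : α 184 = true := tt fun y => l3652 h y x264f x53f
  have x429t : α 429 = true := tt fun y => l3709 h y x327f x264f
  have x11f : α 11 = false := ff fun y => c213 h y x81t x242t
  have x341f : α 341 = false := ff fun y => c2066 h y x184t x92t
  have x106f : α 106 = false := ff fun y => c2288 h x429t x249t y
  have x94t : α 94 = true := tt fun y => l3791 h y x341f x28f x264f x576f x180f x113t x340t x189f x204f x335t x56t x197f x59f x58t x346t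
  have x233f : α 233 = false := ff fun y => c2041 h x94t x92t y x242t
  have x91t : α 91 = true := tt fun y => c1314 h x54f y x233f
  have x378t : α 378 = true := tt fun y => c3004 h x233f y x576f
  have x70t : α 70 = true := tt fun y => c209 h x11f y x233f
  have x183f : α 183 = false := ff fun y => c2007 h x91t y x340t
  have x451f : α 451 = false := ff fun y => c3326 h y x378t x387t
  have x22f : α 22 = false := ff fun y => c517 h y x20t x378t x387t
  have x158f : α 158 = false := ff fun y => l3663 h x70t y x56t
  have x19f : α 19 = false := ff fun y => c473 h x56t y x70t
  have x188f : α 188 = false := ff fun y => c1682 h y x184t x70t x81t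
  have x52t : α 52 = true := tt fun y => c1228 h y x59f x183f x189f
  have x62t : α 62 = true := tt fun y => c642 h x57f x22f y
  have x114t : α 114 = true := tt fun y => c504 h x272f x188f y x19f
  have x195f : α 195 = false := ff fun y => c26 h x1t x52t y
  have x285f : α 285 = false := ff fun y => l3453 h y x114t x180f x346t x113t x340t x576f
  have x467t : α 467 = true := tt fun y => c2672 h y x285f x158f
  have x454f : α 454 = false := ff fun y => l3716 h y x467t
  have x384f : α 384 = false := ff fun y => l3647 h y x467t x52t
  have x478t : α 478 = true := tt fun y => c3384 h x454f y x576f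
  have x181t : α 181 = true := tt fun y => c2731 h y x260f x384f x454f
  have x259f : α 259 = false := ff fun y => c2037 h x91t x340t y x478t
  have x16f : α 16 = false := ff fun y => c347 h y x52t x181t
  have x481t : α 481 = true := tt fun y => c2999 h x259f x233f y x451f
  have x339t : α 339 = true := tt fun y => c3153 h x285f x259f y
  have x118t : α 118 = true := tt fun y => c316 h y x22f x16f
  have x51t : α 51 = true := tt fun y => c312 h x57f y x22f x16f
  have x108t : α 108 = true := tt fun y => c358 h x16f y x384f x454f
  have x281f : α 281 = false := ff fun y => c2443 h y x118t x481t x339t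
  have x88f : α 88 = false := ff fun y => c12 h y x51t x56t x1t
  have x120f : α 120 = false := ff fun y => l3685 h x108t y
  have x26t : α 26 = true := tt fun y => c807 h x281f x106f y
  have x182t : α 182 = true := tt fun y => c1926 h x120f x88f y
  have x221t : α 221 = true := tt fun y => c1927 h y x120f x88f
  have x66f : α 66 = false := ff fun y => c1586 h x184t x182t x62t y
  have x82f : α 82 = false := ff fun y => c801 h x221t y x26t
  c1644 h x82f x66f x197f x195f

theorem l3793 (h : Good α) (x61t : α 61 = true) (x92t : α 92 = true) (x306t : α 306 = true) (x346t : α 346 = true) (x249t : α 249 = true) : False :=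
  have x58t : α 58 = true := tt fun y => l3776 h y x306t x249t x346t
  have x197f : α 197 = false := ff fun y => c1547 h x249t x92t y x61t
  have x53f : α 53 = false := ff fun y => l3778 h y x61t
  have x56t : α 56 = true := tt fun y => l3648 h x53f y
  have x327f : α 327 = false := ff fun y => l3667 h x56t y
  have x146t : α 146 = true := tt fun y => c2548 h x327f x197f y
  have x54f : α 54 = false := ff fun y => c1297 h x56t y x146t
  have x1t : α 1 = true := tt fun y => c41 h x197f x54f y
  have x57t : α 57 = true := tt fun y => l3792 h y x61t x92t x306t x346t x249t
  c62 h x57t x1t x58t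

theorem l3794 (h : Good α) (x197f : α 197 = false) (x54f : α 54 = false) (x61f : α 61 = false) (x92t : α 92 = true) (x58t : α 58 = true) (x249t : α 249 = true) : False :=
  have x91f : α 91 = false := ff fun y => l3615 h y x58t x61f x197f
  have x97t : α 97 = true := tt fun y => c1301 h x54f x61f x91f y
  have x237t : α 237 = true := tt fun y => c1311 h x197f x54f y x91f
  c2047 h x249t x92t x237t x97t

theorem l3795 (h : Good α) (x54f : α 54 = false) (x61f : α 61 = false) (x92t : α 92 = true) (x58t : α 58 = true) (x249t : α 249 = true) : False :=
  have x59t : α 59 = true := tt fun y => l3669 h y x61f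
  have x1t : α 1 = true := tt fun y => c39 h x54f y x61f
  have x543f : α 543 = false := ff fun y => l3556 h x54f y x1t x61f
  have x56f : α 56 = false := ff fun y => c57 h y x1t x59t
  have x201f : α 201 = false := ff fun y => c80 h x1t x58t y
  have x57f : α 57 = false := ff fun y => c62 h y x1t x58t
  have x53t : α 53 = true := tt fun y => l3648 h y x56f
  have x196f : α 196 = false := ff fun y => c32 h y x53t x1t
  have x204t : α 204 = true := tt fun y => l3702 h x196f y
  have x197t : α 197 = true := tt fun y => l3794 h y x54f x61f x92t x58t x249t
  have x237f : α 237 = false := ff fun y => c78 h x197t x1t y x58t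
  have x238f : α 238 = false := ff fun y => c2880 h x249t y x197t x204t
  have x354t : α 354 = true := tt fun y => c1441 h x57f x238f x201f y
  have x351f : α 351 = false := ff fun y => c2882 h x197t x204t y x354t
  have x233t : α 233 = true := tt fun y => c2921 h x351f y x201f
  have x534t : α 534 = true := tt fun y => c3041 h x237f x351f y
  have x443t : α 443 = true := tt fun y => c3039 h y x237f x543f x351f
  have x406f : α 406 = false := ff fun y => c116 h x197t x1t x534t y
  have x402f : α 402 = false := ff fun y => c84 h y x1t x443t x58t
  have x546t : α 546 = true := tt fun y => c1446 h x57f x238f x406f y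
  have x242t : α 242 = true := tt fun y => c1583 h x402f x61f x543f y
  have x439f : α 439 = false := ff fun y => c3003 h x233t x354t y x546t
  have x447f : α 447 = false := ff fun y => c3082 h x242t x354t y x546t
  c1305 h x54f x61f x439f x447f

theorem l3796 (h : Good α) (x197t : α 197 = true) (x54t : α 54 = true) : False :=
  have x328f : α 328 = false := ff fun y => l3660 h x54t y
  have x199f : α 199 = false := ff fun y => l3725 h x197t y
  have x402f : α 402 = false := ff fun y => c1343 h y x197t x54t
  have x532t : α 532 = true := tt fun y => c2900 h y x328f x199f
  have x327t : α 327 = true := tt fun y => c3263 h x328f y x402f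
  c2894 h x532t x327t x197t

theorem l3797 (h : Good α) (x94f : α 94 = false) (x97t : α 97 = true) (x250f : α 250 = false) (x85t : α 85 = true) (x1t : α 1 = true) (x20f : α 20 = false) (x91f : α 91 = false) (x61f : α 61 = false) : False :=
  have x238t : α 238 = true := tt fun y => c1982 h x94f y x91f x250f
  have x117f : α 117 = false := ff fun y => c1882 h x238t y x85t
  have x299t : α 299 = true := tt fun y => c570 h x20f x117f y
  have x264f : α 264 = false := ff fun y => c3053 h y x238t x299t
  have x113t : α 113 = true := tt fun y => l3691 h y x264f
  have x189f : α 189 = false := ff fun y => c2176 h x113t x97t y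
  l3601 h x94f x113t x189f x97t x250f x1t x61f

theorem l3798 (h : Good α) (x264f : α 264 = false) (x459t : α 459 = true) (x10t : α 10 = true) (x28f : α 28 = false) (x1t : α 1 = true) (x20f : α 20 = false) (x54t : α 54 = true) (x59t : α 59 = true) (x346t : α 346 = true) : False :=
  have x272f : α 272 = false := ff fun y => l3740 h y x346t
  have x485f : α 485 = false := ff fun y => l3757 h y x10t x459t x28f x264f x346t
  have x120t : α 120 = true := tt fun y => c2457 h x485f x272f y
  have x108f : α 108 = false := ff fun y => l3685 h y x120t
  have x24f : α 24 = false := ff fun y => l3630 h y x120t x54t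
  have x337t : α 337 = true := tt fun y => c869 h x264f y x28f x108f
  have x89t : α 89 = true := tt fun y => c519 h x20f y x28f x108f
  have x51f : α 51 = false := ff fun y => c13 h y x89t x1t x59t
  have x192f : α 192 = false := ff fun y => c1949 h x337t y x89t
  c729 h x24f x51f x192f

theorem l3799 (h : Good α) (x237f : α 237 = false) (x242t : α 242 = true) (x204t : α 204 = true) (x1t : α 1 = true) (x20f : α 20 = false) (x56f : α 56 = false) (x61f : α 61 = false) (x92t : α 92 = true) (x58t : α 58 = true) (x346t : α 346 = true) (x249t : α 249 = true) : False :=
  have x57f : α 57 = false := ff fun y => c62 h y x1t x58t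
  have x201f : α 201 = false := ff fun y => c80 h x1t x58t y
  have x250f : α 250 = false := ff fun y => l3521 h y x57f x201f x204t
  have x188t : α 188 = true := tt fun y => c533 h y x57f x20f
  have x85t : α 85 = true := tt fun y => c531 h x57f x20f y
  have x53t : α 53 = true := tt fun y => l3648 h y x56f
  have x54t : α 54 = true := tt fun y => l3795 h y x61f x92t x58t x249t
  have x197f : α 197 = false := ff fun y => l3796 h y x54t
  have x91f : α 91 = false := ff fun y => l3615 h y x58t x61f x197f
  have x59t : α 59 = true := tt fun y => l3669 h y x61f
  have x272f : α 272 = false := ff fun y => l3740 h y x346t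
  have x97t : α 97 = true := tt fun y => c1553 h x197f x61f x237f y
  have x114t : α 114 = true := tt fun y => l3588 h y x237f x58t x91f
  have x158f : α 158 = false := ff fun y => l3694 h x114t y
  have x23f : α 23 = false := ff fun y => l3628 h y x114t x53t
  have x94t : α 94 = true := tt fun y => l3797 h y x97t x250f x85t x1t x20f x91f x61f
  have x233f : α 233 = false := ff fun y => c2041 h x94t x92t y x242t
  have x106f : α 106 = false := ff fun y => c2101 h x188t x94t y
  have x239f : α 239 = false := ff fun y => c1323 h y x94t x54t
  have x238f : α 238 = false := ff fun y => c1321 h x94t y x54t x204t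
  have x22t : α 22 = true := tt fun y => c512 h x106f y x20f
  have x353t : α 353 = true := tt fun y => c2021 h y x239f x237f x91f
  have x200t : α 200 = true := tt fun y => c2901 h x239f y x233f x201f
  have x379f : α 379 = false := ff fun y => l3463 h y x200t x239f x53t
  have x180f : α 180 = false := ff fun y => l3461 h y x238f x94t x242t x91f x57f x201f x58t x53t
  have x28f : α 28 = false := ff fun y => c621 h x94t x22t y
  have x236f : α 236 = false := ff fun y => c2072 h x353t y x249t x92t
  have x10t : α 10 = true := tt fun y => l3611 h x238f x91f x379f y x94t x97t x250f x1t x61f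
  have x113t : α 113 = true := tt fun y => l3690 h y x180f
  have x70t : α 70 = true := tt fun y => l3662 h y x180f x56f
  have x459t : α 459 = true := tt fun y => l3594 h y x70t x188t x379f x272f x158f
  have x264t : α 264 = true := tt fun y => l3798 h y x459t x10t x28f x1t x20f x54t x59t x346t
  have x19f : α 19 = false := ff fun y => c502 h x188t x264t y x113t
  have x386t : α 386 = true := tt fun y => c462 h y x379f x19f x23f
  have x71f : α 71 = false := ff fun y => c1722 h x386t x200t y
  have x452f : α 452 = false := ff fun y => c2812 h x386t y x188t x264t
  c1724 h x452f x236f x71f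

theorem l3800 (h : Good α) (x89t : α 89 = true) (x200t : α 200 = true) (x1t : α 1 = true) (x59t : α 59 = true) (x58t : α 58 = true) : False :=
  have x60f : α 60 = false := ff fun y => l3449 h y x58t x1t
  have x87f : α 87 = false := ff fun y => c1505 h x89t x59t y
  have x241f : α 241 = false := ff fun y => c1511 h y x89t x59t
  have x51f : α 51 = false := ff fun y => c13 h y x89t x1t x59t
  have x148t : α 148 = true := tt fun y => c1204 h y x51f x60f
  have x156t : α 156 = true := tt fun y => c1205 h x51f x60f y
  have x194f : α 194 = false := ff fun y => c2566 h x200t x148t y
  have x50f : α 50 = false := ff fun y => c1184 h y x58t x156t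
  c1189 h x194f x241f x50f x87f

theorem l3801 (h : Good α) (x51f : α 51 = false) (x115t : α 115 = true) (x454f : α 454 = false) (x191t : α 191 = true) (x89f : α 89 = false) (x239f : α 239 = false) (x200t : α 200 = true) (x405f : α 405 = false) (x442f : α 442 = false) (x97f : α 97 = false) (x60f : α 60 = false) (x59t : α 59 = true) (x58t : α 58 = true) : False :=
  have x148t : α 148 = true := tt fun y => c1204 h y x51f x60f
  have x156t : α 156 = true := tt fun y => c1205 h x51f x60f y
  have x330f : α 330 = false := ff fun y => c2568 h y x200t x148t
  have x50f : α 50 = false := ff fun y => c1184 h y x58t x156t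
  have x274f : α 274 = false := ff fun y => c2402 h x115t x156t y
  have x107f : α 107 = false := ff fun y => c2295 h y x148t x115t x156t
  have x329t : α 329 = true := tt fun y => c3265 h x405f x330f y
  have x87t : α 87 = true := tt fun y => c1176 h x51f x89f x50f y
  have x25t : α 25 = true := tt fun y => c785 h y x97f x274f
  have x431t : α 431 = true := tt fun y => c2303 h y x239f x107f
  have x234f : α 234 = false := ff fun y => c1509 h x59t x87t y
  have x305f : α 305 = false := ff fun y => c793 h x431t y x191t x25t
  have x193t : α 193 = true := tt fun y => c1211 h x51f x89f y x234f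
  have x64t : α 64 = true := tt fun y => c1632 h y x234f x454f
  have x226t : α 226 = true := tt fun y => c2979 h x442f x305f y
  c1629 h x329t x226t x193t x64t

theorem l3802 (h : Good α) (x238f : α 238 = false) (x442f : α 442 = false) (x97f : α 97 = false) (x204t : α 204 = true) (x1t : α 1 = true) (x153t : α 153 = true) (x20f : α 20 = false) (x91f : α 91 = false) (x54t : α 54 = true) (x59t : α 59 = true) (x92t : α 92 = true) (x58t : α 58 = true) (x346t : α 346 = true) : False :=
  have x57f : α 57 = false := ff fun y => c62 h y x1t x58t
  have x201f : α 201 = false := ff fun y => c80 h x1t x58t y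
  have x250f : α 250 = false := ff fun y => l3521 h y x57f x201f x204t
  have x535t : α 535 = true := tt fun y => c2197 h x442f y x97f x250f
  have x405f : α 405 = false := ff fun y => c124 h y x535t x1t x204t
  have x200t : α 200 = true := tt fun y => c1437 h x405f y x57f
  have x89f : α 89 = false := ff fun y => l3800 h y x200t x1t x59t x58t
  have x239f : α 239 = false := ff fun y => c44 h y x200t x54t x1t
  have x188t : α 188 = true := tt fun y => c533 h y x57f x20f
  have x60f : α 60 = false := ff fun y => l3449 h y x58t x1t
  have x202f : α 202 = false := ff fun y => c90 h x1t x59t y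
  have x313f : α 313 = false := ff fun y => l3674 h x59t y
  have x272f : α 272 = false := ff fun y => l3740 h y x346t
  have x354t : α 354 = true := tt fun y => c1441 h x57f x238f x201f y
  have x94t : α 94 = true := tt fun y => c1982 h y x238f x91f x250f
  have x233f : α 233 = false := ff fun y => c1347 h x54t x204t y x354t
  have x106f : α 106 = false := ff fun y => c2101 h x188t x94t y
  have x22t : α 22 = true := tt fun y => c512 h x106f y x20f
  have x28f : α 28 = false := ff fun y => c621 h x94t x22t y
  have x123t : α 123 = true := tt fun y => c523 h x20f x28f y
  have x108t : α 108 = true := tt fun y => c519 h x20f x89f x28f y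
  have x120f : α 120 = false := ff fun y => l3685 h x108t y
  have x24f : α 24 = false := ff fun y => l3629 h y x108t x54t
  have x485t : α 485 = true := tt fun y => c2457 h y x272f x120f
  have x16t : α 16 = true := tt fun y => c324 h x120f x24f y
  have x275f : α 275 = false := ff fun y => c3230 h x485t x346t y
  have x291f : α 291 = false := ff fun y => c357 h x16t x108t y
  have x314f : α 314 = false := ff fun y => l3569 h x120f x275f x54t y
  have x191t : α 191 = true := tt fun y => c757 h x120f x24f x275f y
  have x157t : α 157 = true := tt fun y => c2653 h y x202f x314f
  have x407t : α 407 = true := tt fun y => c3255 h x313f x314f y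
  have x381f : α 381 = false := ff fun y => c1339 h x54t x191t y
  have x259t : α 259 = true := tt fun y => c2997 h x381f y x233f
  have x467t : α 467 = true := tt fun y => c760 h x120f x24f y x381f
  have x419f : α 419 = false := ff fun y => c2841 h x191t x259t y
  have x454f : α 454 = false := ff fun y => l3716 h y x467t
  have x115t : α 115 = true := tt fun y => c2404 h y x233f x419f
  have x51t : α 51 = true := tt fun y => l3801 h y x115t x454f x191t x89f x239f x200t x405f x442f x97f x60f x59t x58t
  have x182f : α 182 = false := ff fun y => c340 h y x51t x16t
  have x438f : α 438 = false := ff fun y => c19 h x51t y x1t x407t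
  have x206t : α 206 = true := tt fun y => c2951 h y x291f x438f
  have x192f : α 192 = false := ff fun y => c2061 h x92t y x123t x206t
  have x261t : α 261 = true := tt fun y => c2743 h y x182f x192f
  have x276t : α 276 = true := tt fun y => c2744 h x182f x192f y
  c2616 h x261t x276t x153t x157t

theorem l3803 (h : Good α) (x120f : α 120 = false) (x51t : α 51 = true) (x264f : α 264 = false) (x238t : α 238 = true) (x89f : α 89 = false) (x85t : α 85 = true) (x204t : α 204 = true) (x202f : α 202 = false) (x1t : α 1 = true) (x153t : α 153 = true) (x53t : α 53 = true) (x54t : α 54 = true) (x313f : α 313 = false) (x346t : α 346 = true) : False :=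
  have x272f : α 272 = false := ff fun y => l3740 h y x346t
  have x94f : α 94 = false := ff fun y => c1321 h y x238t x54t x204t
  have x505t : α 505 = true := tt fun y => c2140 h y x272f x94f
  have x485t : α 485 = true := tt fun y => c2457 h y x272f x120f
  have x275f : α 275 = false := ff fun y => c3230 h x485t x346t y
  have x314f : α 314 = false := ff fun y => l3569 h x120f x275f x54t y
  have x157t : α 157 = true := tt fun y => c2653 h y x202f x314f
  have x407t : α 407 = true := tt fun y => c3255 h x313f x314f y
  have x335f : α 335 = false := ff fun y => c2655 h y x204t x157t
  have x438f : α 438 = false := ff fun y => c19 h x51t y x1t x407t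
  have x424t : α 424 = true := tt fun y => l3710 h y x335f x264f
  have x246t : α 246 = true := tt fun y => c1952 h x89f y x438f
  have x391f : α 391 = false := ff fun y => c1890 h x238t y x85t x246t
  have x557f : α 557 = false := ff fun y => c1892 h x424t y x85t x246t
  have x276t : α 276 = true := tt fun y => c3238 h x557f x391f y
  have x182f : α 182 = false := ff fun y => c1288 h y x276t x53t x157t
  have x261f : α 261 = false := ff fun y => c2616 h y x276t x153t x157t
  have x88t : α 88 = true := tt fun y => c1926 h x120f y x182f
  have x192t : α 192 = true := tt fun y => c2743 h x261f x182f y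
  have x245f : α 245 = false := ff fun y => c1210 h y x88t x51t
  have x24f : α 24 = false := ff fun y => c730 h y x51t x192t
  have x398t : α 398 = true := tt fun y => c2455 h y x245f x272f x120f
  have x341t : α 341 = true := tt fun y => c746 h y x261f x94f x24f
  c3292 h x505t x398t x341t

theorem l3804 (h : Good α) (x108f : α 108 = false) (x205t : α 205 = true) (x106f : α 106 = false) (x89f : α 89 = false) (x20f : α 20 = false) (x92t : α 92 = true) : False :=
  have x28t : α 28 = true := tt fun y => c519 h x20f x89f y x108f
  have x206t : α 206 = true := tt fun y => c1944 h x89f x108f y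
  have x192t : α 192 = true := tt fun y => c1943 h y x89f x108f
  have x62f : α 62 = false := ff fun y => c851 h x205t y x28t
  have x123f : α 123 = false := ff fun y => c2061 h x92t x192t y x206t
  c1587 h x106f x62f x123f

theorem l3805 (h : Good α) (x199f : α 199 = false) (x402f : α 402 = false) (x92t : α 92 = true) (x306t : α 306 = true) (x346t : α 346 = true) (x249t : α 249 = true) : False :=
  have x61f : α 61 = false := ff fun y => l3793 h y x92t x306t x346t x249t
  have x59t : α 59 = true := tt fun y => l3669 h y x61f
  have x58t : α 58 = true := tt fun y => l3776 h y x306t x249t x346t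
  have x54t : α 54 = true := tt fun y => l3795 h y x61f x92t x58t x249t
  have x328f : α 328 = false := ff fun y => l3660 h x54t y
  have x327t : α 327 = true := tt fun y => c3263 h x328f y x402f
  have x538f : α 538 = false := ff fun y => l3736 h x327t y
  have x326t : α 326 = true := tt fun y => c3262 h x538f x402f y
  have x20f : α 20 = false := ff fun y => c544 h x306t y x326t x59t
  have x56f : α 56 = false := ff fun y => l3667 h y x327t
  have x53t : α 53 = true := tt fun y => l3648 h y x56f
  have x197f : α 197 = false := ff fun y => l3796 h y x54t
  have x91f : α 91 = false := ff fun y => l3615 h y x58t x61f x197f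
  have x313f : α 313 = false := ff fun y => l3674 h x59t y
  have x325t : α 325 = true := tt fun y => l3677 h x61f y
  have x272f : α 272 = false := ff fun y => l3740 h y x346t
  have x36f : α 36 = false := ff fun y => l3639 h y x346t
  have x153t : α 153 = true := tt fun y => c2620 h x328f x199f y
  have x1t : α 1 = true := tt fun y => c59 h x199f x56f y
  have x196f : α 196 = false := ff fun y => c2618 h x153t y x325t
  have x543f : α 543 = false := ff fun y => l3582 h y x1t x61f
  have x202f : α 202 = false := ff fun y => c90 h x1t x59t y
  have x201f : α 201 = false := ff fun y => c80 h x1t x58t y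
  have x57f : α 57 = false := ff fun y => c62 h y x1t x58t
  have x60f : α 60 = false := ff fun y => l3449 h y x58t x1t
  have x204t : α 204 = true := tt fun y => l3702 h x196f y
  have x443t : α 443 = true := tt fun y => c3346 h x402f y x543f
  have x242t : α 242 = true := tt fun y => c1583 h x402f x61f x543f y
  have x85t : α 85 = true := tt fun y => c531 h x57f x20f y
  have x250f : α 250 = false := ff fun y => l3521 h y x57f x201f x204t
  have x237t : α 237 = true := tt fun y => l3799 h y x242t x204t x1t x20f x56f x61f x92t x58t x346t x249t
  have x97f : α 97 = false := ff fun y => c2047 h x249t x92t x237t y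
  have x449f : α 449 = false := ff fun y => c3029 h y x249t x443t x237t
  have x547t : α 547 = true := tt fun y => c3348 h y x449f x402f
  have x353f : α 353 = false := ff fun y => c3044 h x547t y x443t x237t
  have x236t : α 236 = true := tt fun y => c1575 h x353f y x197f x61f
  have x442f : α 442 = false := ff fun y => c2074 h y x236t x92t
  have x535t : α 535 = true := tt fun y => c2197 h x442f y x97f x250f
  have x405f : α 405 = false := ff fun y => c124 h y x535t x1t x204t
  have x200t : α 200 = true := tt fun y => c1437 h x405f y x57f
  have x89f : α 89 = false := ff fun y => l3800 h y x200t x1t x59t x58t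
  have x238t : α 238 = true := tt fun y => l3802 h y x442f x97f x204t x1t x153t x20f x91f x54t x59t x92t x58t x346t
  have x94f : α 94 = false := ff fun y => c1321 h y x238t x54t x204t
  have x117f : α 117 = false := ff fun y => c1882 h x238t y x85t
  have x22t : α 22 = true := tt fun y => c656 h x272f x94f y
  have x299t : α 299 = true := tt fun y => c570 h x20f x117f y
  have x106f : α 106 = false := ff fun y => c662 h x306t y x22t
  have x264f : α 264 = false := ff fun y => c3053 h y x238t x299t
  have x205t : α 205 = true := tt fun y => c2102 h x94f x106f y
  have x108t : α 108 = true := tt fun y => l3804 h y x205t x106f x89f x20f x92t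
  have x120f : α 120 = false := ff fun y => l3685 h x108t y
  have x167f : α 167 = false := ff fun y => l3686 h x108t y
  have x24f : α 24 = false := ff fun y => l3629 h y x108t x54t
  have x286t : α 286 = true := tt fun y => c1038 h y x120f x36f
  have x51f : α 51 = false := ff fun y => l3803 h x120f y x264f x238t x89f x85t x204t x202f x1t x153t x53t x54t x313f x346t
  have x30t : α 30 = true := tt fun y => c725 h x94f x24f y
  have x63t : α 63 = true := tt fun y => l3532 h x24f y x54t
  have x152t : α 152 = true := tt fun y => c1200 h x57f x51f y
  have x148t : α 148 = true := tt fun y => c1204 h y x51f x60f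
  have x156t : α 156 = true := tt fun y => c1205 h x51f x60f y
  have x192t : α 192 = true := tt fun y => c729 h x24f x51f y
  have x18t : α 18 = true := tt fun y => c403 h x24f x51f y x60f
  have x343f : α 343 = false := ff fun y => c926 h x30t x152t y
  have x207f : α 207 = false := ff fun y => c915 h y x63t x30t
  have x28f : α 28 = false := ff fun y => c858 h x92t x192t y x108t
  have x187f : α 187 = false := ff fun y => c431 h y x54t x18t
  have x190t : α 190 = true := tt fun y => c2184 h x343f y x97f
  have x107t : α 107 = true := tt fun y => c2107 h x207f y x94f
  have x102t : α 102 = true := tt fun y => c860 h x94f x28f x187f y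
  have x262f : α 262 = false := ff fun y => c2830 h y x192t x190t
  have x274f : α 274 = false := ff fun y => c2832 h x192t x190t y
  have x115f : α 115 = false := ff fun y => c2295 h x107t x148t y x156t
  have x40f : α 40 = false := ff fun y => c1092 h x286t y x346t x102t
  have x509t : α 509 = true := tt fun y => c2206 h x97f x274f y
  have x225t : α 225 = true := tt fun y => c2000 h x91f x115f y
  have x382t : α 382 = true := tt fun y => c1101 h x262f y x40f x167f
  c1618 h x63t x382t x225t x509t

theorem l3806 (h : Good α) (x94f : α 94 = false) (x106f : α 106 = false) (x120f : α 120 = false) (x379f : α 379 = false) (x89f : α 89 = false) (x449f : α 449 = false) (x97f : α 97 = false) (x242t : α 242 = true) (x57f : α 57 = false) (x201f : α 201 = false) (x543f : α 543 = false) (x1t : α 1 = true) (x20f : α 20 = false) (x56f : α 56 = false) (x91f : α 91 = false) (x54t : α 54 = true) (x59t : α 59 = true) (x92t : α 92 = true) (x346t : α 346 = true) : False :=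
  have x53t : α 53 = true := tt fun y => l3648 h y x56f
  have x196f : α 196 = false := ff fun y => c32 h y x53t x1t
  have x204t : α 204 = true := tt fun y => l3702 h x196f y
  have x202f : α 202 = false := ff fun y => c90 h x1t x59t y
  have x272f : α 272 = false := ff fun y => l3740 h y x346t
  have x485t : α 485 = true := tt fun y => c2457 h y x272f x120f
  have x275f : α 275 = false := ff fun y => c3230 h x485t x346t y
  have x314f : α 314 = false := ff fun y => l3569 h x120f x275f x54t y
  have x157t : α 157 = true := tt fun y => c2653 h y x202f x314f
  have x335f : α 335 = false := ff fun y => c2655 h y x204t x157t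
  have x36f : α 36 = false := ff fun y => l3639 h y x346t
  have x286t : α 286 = true := tt fun y => c1038 h y x120f x36f
  have x250f : α 250 = false := ff fun y => l3521 h y x57f x201f x204t
  have x238t : α 238 = true := tt fun y => c1982 h x94f y x91f x250f
  have x233t : α 233 = true := tt fun y => c2123 h x449f x94f x543f y
  have x205t : α 205 = true := tt fun y => c2102 h x94f x106f y
  have x264f : α 264 = false := ff fun y => l3419 h y x335f x238t x57f x56f
  have x158f : α 158 = false := ff fun y => l3451 h y x233t x201f x53t
  have x108t : α 108 = true := tt fun y => l3804 h y x205t x106f x89f x20f x92t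
  have x113t : α 113 = true := tt fun y => l3691 h y x264f
  have x167f : α 167 = false := ff fun y => l3686 h x108t y
  have x24f : α 24 = false := ff fun y => l3629 h y x108t x54t
  have x30t : α 30 = true := tt fun y => c725 h x94f x24f y
  have x271t : α 271 = true := tt fun y => c747 h y x94f x24f
  have x63t : α 63 = true := tt fun y => l3532 h x24f y x54t
  have x191t : α 191 = true := tt fun y => c757 h x120f x24f x275f y
  have x207f : α 207 = false := ff fun y => c915 h y x63t x30t
  have x187f : α 187 = false := ff fun y => c2796 h x271t y x191t
  have x107t : α 107 = true := tt fun y => c2107 h x207f y x94f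
  have x338t : α 338 = true := tt fun y => c2113 h x94f x187f y
  have x477f : α 477 = false := ff fun y => c2307 h x286t x107t y x338t
  have x114t : α 114 = true := tt fun y => c2395 h x477f x275f y
  have x23f : α 23 = false := ff fun y => l3628 h y x114t x53t
  have x273t : α 273 = true := tt fun y => c706 h x23f x97f y
  have x180f : α 180 = false := ff fun y => l3599 h y x379f x242t x23f x201f x113t x56f
  have x189f : α 189 = false := ff fun y => c1518 h x59t x157t y x273t
  have x70t : α 70 = true := tt fun y => l3662 h y x180f x56f
  have x340t : α 340 = true := tt fun y => c2182 h x97f x189f y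
  have x459t : α 459 = true := tt fun y => l3600 h y x70t x379f x272f x158f x92t x94f
  have x28f : α 28 = false := ff fun y => l3636 h y x340t
  have x10f : α 10 = false := ff fun y => l3798 h x264f x459t y x28f x1t x20f x54t x59t x346t
  have x102t : α 102 = true := tt fun y => c860 h x94f x28f x187f y
  have x40t : α 40 = true := tt fun y => c183 h x10f y x167f
  c1092 h x286t x40t x346t x102t

theorem l3807 (h : Good α) (x120f : α 120 = false) (x442f : α 442 = false) (x449f : α 449 = false) (x97f : α 97 = false) (x242t : α 242 = true) (x543f : α 543 = false) (x1t : α 1 = true) (x199t : α 199 = true) (x326t : α 326 = true) (x56f : α 56 = false) (x91f : α 91 = false) (x54t : α 54 = true) (x325t : α 325 = true) (x59t : α 59 = true) (x92t : α 92 = true) (x58t : α 58 = true) (x306t : α 306 = true) (x346t : α 346 = true) : False :=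
  have x53t : α 53 = true := tt fun y => l3648 h y x56f
  have x57f : α 57 = false := ff fun y => c62 h y x1t x58t
  have x196f : α 196 = false := ff fun y => c32 h y x53t x1t
  have x204t : α 204 = true := tt fun y => l3702 h x196f y
  have x201f : α 201 = false := ff fun y => c80 h x1t x58t y
  have x250f : α 250 = false := ff fun y => l3521 h y x57f x201f x204t
  have x535t : α 535 = true := tt fun y => c2197 h x442f y x97f x250f
  have x405f : α 405 = false := ff fun y => c124 h y x535t x1t x204t
  have x200t : α 200 = true := tt fun y => c1437 h x405f y x57f
  have x239f : α 239 = false := ff fun y => c44 h y x200t x54t x1t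
  have x379f : α 379 = false := ff fun y => l3463 h y x200t x239f x53t
  have x89f : α 89 = false := ff fun y => l3800 h y x200t x1t x59t x58t
  have x20f : α 20 = false := ff fun y => c544 h x306t y x326t x59t
  have x188t : α 188 = true := tt fun y => c533 h y x57f x20f
  have x85t : α 85 = true := tt fun y => c531 h x57f x20f y
  have x60f : α 60 = false := ff fun y => l3449 h y x58t x1t
  have x202f : α 202 = false := ff fun y => c90 h x1t x59t y
  have x313f : α 313 = false := ff fun y => l3674 h x59t y
  have x272f : α 272 = false := ff fun y => l3740 h y x346t
  have x36f : α 36 = false := ff fun y => l3639 h y x346t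
  have x485t : α 485 = true := tt fun y => c2457 h y x272f x120f
  have x275f : α 275 = false := ff fun y => c3230 h x485t x346t y
  have x314f : α 314 = false := ff fun y => l3569 h x120f x275f x54t y
  have x157t : α 157 = true := tt fun y => c2653 h y x202f x314f
  have x407t : α 407 = true := tt fun y => c3255 h x313f x314f y
  have x334f : α 334 = false := ff fun y => c1519 h x59t x157t y
  have x117f : α 117 = false := ff fun y => c2425 h x306t y x326t x157t
  have x22t : α 22 = true := tt fun y => c514 h y x20f x117f
  have x106f : α 106 = false := ff fun y => c662 h x306t y x22t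
  have x94t : α 94 = true := tt fun y => l3806 h y x106f x120f x379f x89f x449f x97f x242t x57f x201f x543f x1t x20f x56f x91f x54t x59t x92t x346t
  have x233f : α 233 = false := ff fun y => c2041 h x94t x92t y x242t
  have x238f : α 238 = false := ff fun y => c1321 h x94t y x54t x204t
  have x341f : α 341 = false := ff fun y => c2118 h y x188t x94t
  have x28f : α 28 = false := ff fun y => c621 h x94t x22t y
  have x153f : α 153 = false := ff fun y => l3802 h x238f x442f x97f x204t x1t y x20f x91f x54t x59t x92t x58t x346t
  have x424t : α 424 = true := tt fun y => c2427 h y x238f x117f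
  have x123t : α 123 = true := tt fun y => c523 h x20f x28f y
  have x108t : α 108 = true := tt fun y => c519 h x20f x89f x28f y
  have x383t : α 383 = true := tt fun y => c2619 h x341f y x153f x196f
  have x24f : α 24 = false := ff fun y => l3629 h y x108t x54t
  have x16t : α 16 = true := tt fun y => c324 h x120f x24f y
  have x191t : α 191 = true := tt fun y => c757 h x120f x24f x275f y
  have x291f : α 291 = false := ff fun y => c357 h x16t x108t y
  have x377f : α 377 = false := ff fun y => c319 h x383t y x22t x16t
  have x381f : α 381 = false := ff fun y => c1339 h x54t x191t y
  have x337t : α 337 = true := tt fun y => l3704 h x377f y x196f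
  have x507t : α 507 = true := tt fun y => c2875 h x377f y x196f x334f
  have x259t : α 259 = true := tt fun y => c2997 h x381f y x233f
  have x467t : α 467 = true := tt fun y => c760 h x120f x24f y x381f
  have x391f : α 391 = false := ff fun y => c3275 h x337t y x507t
  have x419f : α 419 = false := ff fun y => c2841 h x191t x259t y
  have x454f : α 454 = false := ff fun y => l3716 h y x467t
  have x276t : α 276 = true := tt fun y => c2426 h x238f x391f x117f y
  have x115t : α 115 = true := tt fun y => c2404 h y x233f x419f
  have x182f : α 182 = false := ff fun y => c1288 h y x276t x53t x157t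
  have x51t : α 51 = true := tt fun y => l3801 h y x115t x454f x191t x89f x239f x200t x405f x442f x97f x60f x59t x58t
  have x93t : α 93 = true := tt fun y => c1029 h x120f x182f x36f y
  have x245f : α 245 = false := ff fun y => c17 h y x51t x199t x1t
  have x438f : α 438 = false := ff fun y => c19 h x51t y x1t x407t
  have x398t : α 398 = true := tt fun y => c2455 h y x245f x272f x120f
  have x246t : α 246 = true := tt fun y => c1952 h x89f y x438f
  have x206t : α 206 = true := tt fun y => c2951 h y x291f x438f
  have x494f : α 494 = false := ff fun y => c2897 h x398t y x199t x325t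
  have x557f : α 557 = false := ff fun y => c1892 h x424t y x85t x246t
  have x264f : α 264 = false := ff fun y => c2474 h y x337t x123t x206t
  have x554t : α 554 = true := tt fun y => c553 h x494f y x20f x89f
  have x501t : α 501 = true := tt fun y => c1040 h x120f x557f x36f y
  have x256f : α 256 = false := ff fun y => c2099 h x93t y x501t
  have x101t : α 101 = true := tt fun y => l3680 h y x256f
  have x280f : α 280 = false := ff fun y => c2237 h x485t y x346t x101t
  have x44t : α 44 = true := tt fun y => c845 h x280f x264f y x28f
  have x520t : α 520 = true := tt fun y => c3178 h y x494f x280f x264f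
  c1129 h x520t x554t x44t x108t

theorem l3808 (h : Good α) (x1t : α 1 = true) (x402f : α 402 = false) (x92t : α 92 = true) (x306t : α 306 = true) (x346t : α 346 = true) (x249t : α 249 = true) : False :=
  have x199t : α 199 = true := tt fun y => l3805 h y x402f x92t x306t x346t x249t
  have x61f : α 61 = false := ff fun y => l3793 h y x92t x306t x346t x249t
  have x59t : α 59 = true := tt fun y => l3669 h y x61f
  have x58t : α 58 = true := tt fun y => l3776 h y x306t x249t x346t
  have x54t : α 54 = true := tt fun y => l3795 h y x61f x92t x58t x249t
  have x328f : α 328 = false := ff fun y => l3660 h x54t y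
  have x327t : α 327 = true := tt fun y => c3263 h x328f y x402f
  have x538f : α 538 = false := ff fun y => l3736 h x327t y
  have x326t : α 326 = true := tt fun y => c3262 h x538f x402f y
  have x20f : α 20 = false := ff fun y => c544 h x306t y x326t x59t
  have x56f : α 56 = false := ff fun y => l3667 h y x327t
  have x53t : α 53 = true := tt fun y => l3648 h y x56f
  have x197f : α 197 = false := ff fun y => l3796 h y x54t
  have x91f : α 91 = false := ff fun y => l3615 h y x58t x61f x197f
  have x325t : α 325 = true := tt fun y => l3677 h x61f y
  have x543f : α 543 = false := ff fun y => l3582 h y x1t x61f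
  have x201f : α 201 = false := ff fun y => c80 h x1t x58t y
  have x57f : α 57 = false := ff fun y => c62 h y x1t x58t
  have x196f : α 196 = false := ff fun y => c32 h y x53t x1t
  have x443t : α 443 = true := tt fun y => c3346 h x402f y x543f
  have x242t : α 242 = true := tt fun y => c1583 h x402f x61f x543f y
  have x85t : α 85 = true := tt fun y => c531 h x57f x20f y
  have x204t : α 204 = true := tt fun y => l3702 h x196f y
  have x237t : α 237 = true := tt fun y => l3799 h y x242t x204t x1t x20f x56f x61f x92t x58t x346t x249t
  have x250f : α 250 = false := ff fun y => l3521 h y x57f x201f x204t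
  have x97f : α 97 = false := ff fun y => c2047 h x249t x92t x237t y
  have x449f : α 449 = false := ff fun y => c3029 h y x249t x443t x237t
  have x547t : α 547 = true := tt fun y => c3348 h y x449f x402f
  have x353f : α 353 = false := ff fun y => c3044 h x547t y x443t x237t
  have x236t : α 236 = true := tt fun y => c1575 h x353f y x197f x61f
  have x442f : α 442 = false := ff fun y => c2074 h y x236t x92t
  have x535t : α 535 = true := tt fun y => c2197 h x442f y x97f x250f
  have x405f : α 405 = false := ff fun y => c124 h y x535t x1t x204t
  have x200t : α 200 = true := tt fun y => c1437 h x405f y x57f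
  have x89f : α 89 = false := ff fun y => l3800 h y x200t x1t x59t x58t
  have x120t : α 120 = true := tt fun y => l3807 h y x442f x449f x97f x242t x543f x1t x199t x326t x56f x91f x54t x325t x59t x92t x58t x306t x346t
  have x108f : α 108 = false := ff fun y => l3685 h y x120t
  have x28t : α 28 = true := tt fun y => c519 h x20f x89f y x108f
  have x206t : α 206 = true := tt fun y => c1944 h x89f x108f y
  have x192t : α 192 = true := tt fun y => c1943 h y x89f x108f
  have x62f : α 62 = false := ff fun y => c848 h y x28t x85t
  have x123f : α 123 = false := ff fun y => c2061 h x92t x192t y x206t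
  have x22t : α 22 = true := tt fun y => c642 h x57f y x62f
  have x106t : α 106 = true := tt fun y => c1587 h y x62f x123f
  c662 h x306t x106t x22t

theorem l3809 (h : Good α) (x106t : α 106 = true) (x306t : α 306 = true) (x272f : α 272 = false) (x249t : α 249 = true) : False :=
  have x429f : α 429 = false := ff fun y => c2288 h y x249t x106t
  have x22f : α 22 = false := ff fun y => c662 h x306t x106t y
  have x188t : α 188 = true := tt fun y => c2816 h x429f x272f y
  have x94t : α 94 = true := tt fun y => c656 h x272f y x22f
  c2101 h x188t x94t x106t

theorem l3810 (h : Good α) (x449t : α 449 = true) (x106f : α 106 = false) (x306t : α 306 = true) (x249t : α 249 = true) : False :=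
  have x94f : α 94 = false := ff fun y => c2135 h x449t x249t y
  have x205f : α 205 = false := ff fun y => c2948 h x449t x306t y
  c2102 h x94f x106f x205f

theorem l3811 (h : Good α) (x57t : α 57 = true) (x61f : α 61 = false) (x92t : α 92 = true) (x58t : α 58 = true) (x249t : α 249 = true) : False :=
  have x54t : α 54 = true := tt fun y => l3795 h y x61f x92t x58t x249t
  have x197f : α 197 = false := ff fun y => l3796 h y x54t
  have x97f : α 97 = false := ff fun y => c1400 h x57t x92t x58t y
  have x237f : α 237 = false := ff fun y => c1402 h x249t x57t y x58t
  c1553 h x197f x61f x237f x97f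

theorem l3812 (h : Good α) (x387f : α 387 = false) (x20f : α 20 = false) (x233t : α 233 = true) (x201f : α 201 = false) (x106f : α 106 = false) : False :=
  have x70t : α 70 = true := tt fun y => c1693 h y x201f x387f
  have x451t : α 451 = true := tt fun y => c566 h x106f x20f y x387f
  c1697 h x70t x233t x451t

theorem l3813 (h : Good α) (x108f : α 108 = false) (x28f : α 28 = false) (x189f : α 189 = false) (x20f : α 20 = false) (x71f : α 71 = false) (x59t : α 59 = true) : False :=
  have x89t : α 89 = true := tt fun y => c519 h x20f y x28f x108f
  have x282t : α 282 = true := tt fun y => c870 h x28f x108f y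
  have x44t : α 44 = true := tt fun y => c843 h y x28f x108f
  have x87f : α 87 = false := ff fun y => c1505 h x89t x59t y
  have x241f : α 241 = false := ff fun y => c1511 h y x89t x59t
  have x345t : α 345 = true := tt fun y => c1921 h x87f x189f y
  have x104t : α 104 = true := tt fun y => c1709 h x71f y x241f
  have x186f : α 186 = false := ff fun y => c1947 h x89t y x345t
  have x217f : α 217 = false := ff fun y => c1941 h y x104t x89t
  have x255t : α 255 = true := tt fun y => c2787 h y x186f x189f
  have x34t : α 34 = true := tt fun y => c988 h x217f x71f y
  c981 h x34t x255t x44t x282t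

theorem l3814 (h : Good α) (x28f : α 28 = false) (x459t : α 459 = true) (x189f : α 189 = false) (x20f : α 20 = false) (x71f : α 71 = false) (x264f : α 264 = false) (x94f : α 94 = false) (x54t : α 54 = true) (x59t : α 59 = true) (x346t : α 346 = true) : False :=
  have x272f : α 272 = false := ff fun y => l3740 h y x346t
  have x36f : α 36 = false := ff fun y => l3639 h y x346t
  have x108t : α 108 = true := tt fun y => l3813 h y x28f x189f x20f x71f x59t
  have x120f : α 120 = false := ff fun y => l3685 h x108t y
  have x167f : α 167 = false := ff fun y => l3686 h x108t y
  have x24f : α 24 = false := ff fun y => l3629 h y x108t x54t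
  have x485t : α 485 = true := tt fun y => c2457 h y x272f x120f
  have x286t : α 286 = true := tt fun y => c1038 h y x120f x36f
  have x271t : α 271 = true := tt fun y => c747 h y x94f x24f
  have x275f : α 275 = false := ff fun y => c3230 h x485t x346t y
  have x10f : α 10 = false := ff fun y => l3757 h x485t y x459t x28f x264f x346t
  have x191t : α 191 = true := tt fun y => c757 h x120f x24f x275f y
  have x40t : α 40 = true := tt fun y => c183 h x10f y x167f
  have x187f : α 187 = false := ff fun y => c2796 h x271t y x191t
  have x102f : α 102 = false := ff fun y => c1092 h x286t x40t x346t y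
  c860 h x94f x28f x187f x102f

theorem l3815 (h : Good α) (x20f : α 20 = false) (x71f : α 71 = false) (x264f : α 264 = false) (x158f : α 158 = false) (x233t : α 233 = true) (x94f : α 94 = false) (x379f : α 379 = false) (x201f : α 201 = false) (x242t : α 242 = true) (x97f : α 97 = false) (x56f : α 56 = false) (x54t : α 54 = true) (x59t : α 59 = true) (x92t : α 92 = true) (x106f : α 106 = false) (x346t : α 346 = true) : False :=
  have x272f : α 272 = false := ff fun y => l3740 h y x346t
  have x387t : α 387 = true := tt fun y => l3812 h y x20f x233t x201f x106f
  have x189f : α 189 = false := ff fun y => c1527 h x59t y x387t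
  have x180f : α 180 = false := ff fun y => c2718 h y x242t x387t
  have x340t : α 340 = true := tt fun y => c2182 h x97f x189f y
  have x70t : α 70 = true := tt fun y => l3662 h y x180f x56f
  have x459t : α 459 = true := tt fun y => l3600 h y x70t x379f x272f x158f x92t x94f
  have x28t : α 28 = true := tt fun y => l3814 h y x459t x189f x20f x71f x264f x94f x54t x59t x346t
  l3636 h x28t x340t

theorem l3816 (h : Good α) (x387t : α 387 = true) (x340t : α 340 = true) (x20t : α 20 = true) (x264f : α 264 = false) (x576f : α 576 = false) (x158f : α 158 = false) (x94f : α 94 = false) (x379f : α 379 = false) (x201f : α 201 = false) (x242t : α 242 = true) (x56f : α 56 = false) (x54t : α 54 = true) (x92t : α 92 = true) (x58t : α 58 = true) (x346t : α 346 = true) : False :=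
  have x260f : α 260 = false := ff fun y => l3503 h y x340t
  have x28f : α 28 = false := ff fun y => c522 h x92t x20t y
  have x113t : α 113 = true := tt fun y => l3691 h y x264f
  have x272f : α 272 = false := ff fun y => l3740 h y x346t
  have x22t : α 22 = true := tt fun y => c656 h x272f x94f y
  have x52f : α 52 = false := ff fun y => l3640 h x54t y
  have x36f : α 36 = false := ff fun y => l3639 h y x346t
  have x180f : α 180 = false := ff fun y => c2718 h y x242t x387t
  have x378f : α 378 = false := ff fun y => c517 h x22t x20t y x387t
  have x70t : α 70 = true := tt fun y => l3662 h y x180f x56f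
  have x183t : α 183 = true := tt fun y => c1258 h x52f y x378f
  have x81t : α 81 = true := tt fun y => c1843 h y x201f x378f
  have x459t : α 459 = true := tt fun y => l3600 h y x70t x379f x272f x158f x92t x94f
  have x23f : α 23 = false := ff fun y => c696 h y x58t x183t
  have x285f : α 285 = false := ff fun y => l3455 h x180f x81t y x346t x113t x340t x23f x272f x92t x94f x576f x56f
  have x467t : α 467 = true := tt fun y => c2672 h y x285f x158f
  have x10f : α 10 = false := ff fun y => l3591 h x285f x340t y x459t x264f x183t x576f x272f x158f x54t x94f x113t
  have x275f : α 275 = false := ff fun y => l3735 h y x467t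
  have x454f : α 454 = false := ff fun y => l3716 h y x467t
  have x381f : α 381 = false := ff fun y => l3661 h y x467t x54t
  have x24f : α 24 = false := ff fun y => l3752 h y x459t x275f x54t x36f
  have x191t : α 191 = true := tt fun y => c2842 h y x260f x381f x454f
  have x108t : α 108 = true := tt fun y => c753 h x24f y x381f x454f
  have x271t : α 271 = true := tt fun y => c747 h y x94f x24f
  have x187f : α 187 = false := ff fun y => c2796 h x271t y x191t
  have x120f : α 120 = false := ff fun y => l3685 h x108t y
  have x167f : α 167 = false := ff fun y => l3686 h x108t y
  have x102t : α 102 = true := tt fun y => c860 h x94f x28f x187f y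
  have x286t : α 286 = true := tt fun y => c1038 h y x120f x36f
  have x40t : α 40 = true := tt fun y => c183 h x10f y x167f
  c1092 h x286t x40t x346t x102t

theorem l3817 (h : Good α) (x108t : α 108 = true) (x459t : α 459 = true) (x28f : α 28 = false) (x264f : α 264 = false) (x94f : α 94 = false) (x54t : α 54 = true) (x346t : α 346 = true) : False :=
  have x272f : α 272 = false := ff fun y => l3740 h y x346t
  have x36f : α 36 = false := ff fun y => l3639 h y x346t
  have x120f : α 120 = false := ff fun y => l3685 h x108t y
  have x167f : α 167 = false := ff fun y => l3686 h x108t y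
  have x24f : α 24 = false := ff fun y => l3629 h y x108t x54t
  have x485t : α 485 = true := tt fun y => c2457 h y x272f x120f
  have x286t : α 286 = true := tt fun y => c1038 h y x120f x36f
  have x271t : α 271 = true := tt fun y => c747 h y x94f x24f
  have x275f : α 275 = false := ff fun y => c3230 h x485t x346t y
  have x10f : α 10 = false := ff fun y => l3757 h x485t y x459t x28f x264f x346t
  have x191t : α 191 = true := tt fun y => c757 h x120f x24f x275f y
  have x40t : α 40 = true := tt fun y => c183 h x10f y x167f
  have x187f : α 187 = false := ff fun y => c2796 h x271t y x191t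
  have x102f : α 102 = false := ff fun y => c1092 h x286t x40t x346t y
  c860 h x94f x28f x187f x102f

theorem l3818 (h : Good α) (x89f : α 89 = false) (x123t : α 123 = true) (x108f : α 108 = false) (x92t : α 92 = true) : False :=
  have x206t : α 206 = true := tt fun y => c1944 h x89f x108f y
  have x192t : α 192 = true := tt fun y => c1943 h y x89f x108f
  c2061 h x92t x192t x123t x206t

theorem l3819 (h : Good α) (x89t : α 89 = true) (x20t : α 20 = true) (x59t : α 59 = true) : False :=
  have x189f : α 189 = false := ff fun y => c542 h x20t x59t y
  have x255f : α 255 = false := ff fun y => c551 h x20t x89t y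
  have x241f : α 241 = false := ff fun y => c1511 h y x89t x59t
  have x186t : α 186 = true := tt fun y => c2787 h x255f y x189f
  have x388t : α 388 = true := tt fun y => c3075 h x241f x255f y
  c1522 h x59t x186t x388t

theorem l3820 (h : Good α) (x34f : α 34 = false) (x21f : α 21 = false) (x371t : α 371 = true) (x345t : α 345 = true) (x71f : α 71 = false) (x394f : α 394 = false) (x199t : α 199 = true) (x61f : α 61 = false) : False :=
  have x325t : α 325 = true := tt fun y => l3677 h x61f y
  have x59t : α 59 = true := tt fun y => l3669 h y x61f
  have x69t : α 69 = true := tt fun y => c986 h x71f x34f y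
  have x14f : α 14 = false := ff fun y => c255 h x69t y x59t
  have x102t : α 102 = true := tt fun y => c243 h x21f x14f y
  have x87t : α 87 = true := tt fun y => c247 h x34f x14f y
  have x297f : α 297 = false := ff fun y => l3684 h y x102t x325t
  have x243f : α 243 = false := ff fun y => c1507 h x199t x59t y x87t
  have x127f : α 127 = false := ff fun y => c1916 h y x371t x87t x345t
  c2491 h x394f x297f x243f x127f

theorem l3821 (h : Good α) (x94f : α 94 = false) (x97f : α 97 = false) (x1f : α 1 = false) (x57f : α 57 = false) (x54t : α 54 = true) (x61f : α 61 = false) (x92t : α 92 = true) (x106f : α 106 = false) (x58t : α 58 = true) (x306t : α 306 = true) (x346t : α 346 = true) : False :=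
  have x52f : α 52 = false := ff fun y => l3640 h x54t y
  have x53t : α 53 = true := tt fun y => c20 h y x1f x52f
  have x200t : α 200 = true := tt fun y => c67 h y x57f x1f
  have x197f : α 197 = false := ff fun y => l3796 h y x54t
  have x237t : α 237 = true := tt fun y => c1553 h x197f x61f y x97f
  have x353f : α 353 = false := ff fun y => c1487 h y x200t x237t x58t
  have x236t : α 236 = true := tt fun y => c1575 h x353f y x197f x61f
  have x239f : α 239 = false := ff fun y => c2910 h y x200t x236t
  have x379f : α 379 = false := ff fun y => l3463 h y x200t x239f x53t
  have x352f : α 352 = false := ff fun y => c2912 h x200t x236t y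
  have x242t : α 242 = true := tt fun y => c1556 h x61f x97f y
  have x201f : α 201 = false := ff fun y => c2904 h x200t x236t y x242t
  have x56f : α 56 = false := ff fun y => l3649 h x53t y
  have x199t : α 199 = true := tt fun y => c59 h y x56f x1f
  have x394f : α 394 = false := ff fun y => l3729 h x199t y x346t
  have x323f : α 323 = false := ff fun y => l3728 h x199t y
  have x91f : α 91 = false := ff fun y => l3615 h y x58t x61f x197f
  have x325t : α 325 = true := tt fun y => l3677 h x61f y
  have x59t : α 59 = true := tt fun y => l3669 h y x61f
  have x272f : α 272 = false := ff fun y => l3740 h y x346t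
  have x36f : α 36 = false := ff fun y => l3639 h y x346t
  have x233t : α 233 = true := tt fun y => c1420 h x94f x57f y x201f
  have x238t : α 238 = true := tt fun y => c2125 h x239f x352f x94f y
  have x158f : α 158 = false := ff fun y => l3451 h y x233t x201f x53t
  have x576f : α 576 = false := ff fun y => l3413 h y x233t x242t x201f
  have x444f : α 444 = false := ff fun y => c2080 h x92t x238t y
  have x409t : α 409 = true := tt fun y => c73 h x57f x444f x1f y
  have x335f : α 335 = false := ff fun y => c3261 h x325t y x409t
  have x264f : α 264 = false := ff fun y => l3419 h y x335f x238t x57f x56f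
  have x452t : α 452 = true := tt fun y => l3711 h x264f y
  have x113t : α 113 = true := tt fun y => l3691 h y x264f
  have x71f : α 71 = false := ff fun y => c1725 h x452t x236t y
  have x20t : α 20 = true := tt fun y => l3815 h y x71f x264f x158f x233t x94f x379f x201f x242t x97f x56f x54t x59t x92t x106f x346t
  have x189f : α 189 = false := ff fun y => c542 h x20t x59t y
  have x326f : α 326 = false := ff fun y => c544 h x306t x20t y x59t
  have x28f : α 28 = false := ff fun y => c522 h x92t x20t y
  have x340t : α 340 = true := tt fun y => c2182 h x97f x189f y
  have x499t : α 499 = true := tt fun y => l3612 h y x346t x326f x197f x323f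
  have x387f : α 387 = false := ff fun y => l3816 h y x340t x20t x264f x576f x158f x94f x379f x201f x242t x56f x54t x92t x58t x346t
  have x70t : α 70 = true := tt fun y => c1693 h y x201f x387f
  have x459t : α 459 = true := tt fun y => l3600 h y x70t x379f x272f x158f x92t x94f
  have x451f : α 451 = false := ff fun y => c1697 h x70t x233t y
  have x257t : α 257 = true := tt fun y => c2822 h y x189f x451f x387f
  have x378t : α 378 = true := tt fun y => c3325 h x451f y x387f
  have x179t : α 179 = true := tt fun y => c1718 h y x71f x451f x387f
  have x108f : α 108 = false := ff fun y => l3817 h y x459t x28f x264f x94f x54t x346t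
  have x337t : α 337 = true := tt fun y => c869 h x264f y x28f x108f
  have x282t : α 282 = true := tt fun y => c870 h x28f x108f y
  have x44t : α 44 = true := tt fun y => c843 h y x28f x108f
  have x267f : α 267 = false := ff fun y => c3192 h x282t y x340t
  have x40t : α 40 = true := tt fun y => c1099 h y x108f x267f
  have x483t : α 483 = true := tt fun y => c2319 h x108f x267f y
  have x284f : α 284 = false := ff fun y => c2377 h x113t y x340t x483t
  have x89f : α 89 = false := ff fun y => l3819 h y x20t x59t
  have x192t : α 192 = true := tt fun y => c1943 h y x89f x108f
  have x343f : α 343 = false := ff fun y => c2070 h x92t x192t y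
  have x116f : α 116 = false := ff fun y => c2052 h y x92t x192t
  have x554f : α 554 = false := ff fun y => c2856 h y x337t x192t
  have x190t : α 190 = true := tt fun y => c2184 h x343f y x97f
  have x494t : α 494 = true := tt fun y => c872 h y x554f x28f x108f
  have x274f : α 274 = false := ff fun y => c2832 h x192t x190t y
  have x398f : α 398 = false := ff fun y => c2897 h y x494t x199t x325t
  have x345t : α 345 = true := tt fun y => c2181 h x97f x274f x189f y
  have x371t : α 371 = true := tt fun y => c3223 h y x284f x274f
  have x559t : α 559 = true := tt fun y => c3216 h y x398f x272f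
  have x21f : α 21 = false := ff fun y => c608 h x559t x92t x499t y
  have x101t : α 101 = true := tt fun y => l3625 h x21f y x61f
  have x78t : α 78 = true := tt fun y => c596 h y x21f x61f
  have x34t : α 34 = true := tt fun y => l3820 h y x21f x371t x345t x71f x394f x199t x61f
  have x142f : α 142 = false := ff fun y => c529 h y x34t x20t
  have x520f : α 520 = false := ff fun y => c530 h y x494t x34t x20t
  have x255f : α 255 = false := ff fun y => c981 h x34t y x44t x282t
  have x226t : α 226 = true := tt fun y => c2530 h y x343f x142f x255f
  have x280t : α 280 = true := tt fun y => c2417 h x520f y x116f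
  have x186t : α 186 = true := tt fun y => c2787 h x255f y x189f
  have x31f : α 31 = false := ff fun y => c939 h x226t x78t y
  have x485f : α 485 = false := ff fun y => c2237 h y x280t x346t x101t
  have x27f : α 27 = false := ff fun y => c829 h x280t x101t y
  have x388f : α 388 = false := ff fun y => c1522 h x59t x186t y
  have x14f : α 14 = false := ff fun y => c258 h y x59t x186t
  have x256f : α 256 = false := ff fun y => c2790 h y x190t x186t
  have x69f : α 69 = false := ff fun y => c1672 h x78t x190t y x186t
  have x99t : α 99 = true := tt fun y => c942 h x31f x97f y x189f
  have x39t : α 39 = true := tt fun y => c933 h y x284f x31f x274f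
  have x120t : α 120 = true := tt fun y => c2457 h x485f x272f y
  have x7t : α 7 = true := tt fun y => l3617 h y x27f
  have x102t : α 102 = true := tt fun y => c243 h x21f x14f y
  have x46t : α 46 = true := tt fun y => c1020 h x36f x256f y x284f
  have x278f : α 278 = false := ff fun y => c2221 h x99t x345t y x483t
  have x175f : α 175 = false := ff fun y => l3698 h x120t y
  have x24f : α 24 = false := ff fun y => l3630 h y x120t x54t
  have x170f : α 170 = false := ff fun y => l3682 h x102t y
  have x286f : α 286 = false := ff fun y => c1092 h y x40t x346t x102t
  have x477t : α 477 = true := tt fun y => c879 h x272f x28f y x278f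
  have x454t : α 454 = true := tt fun y => c2695 h x170f x278f y
  have x30t : α 30 = true := tt fun y => c725 h x94f x24f y
  have x464t : α 464 = true := tt fun y => c1677 h x69f x388f x170f y
  have x482t : α 482 = true := tt fun y => c1043 h x286f y x36f x256f
  have x467f : α 467 = false := ff fun y => c166 h x477t x39t y x7t
  have x381f : α 381 = false := ff fun y => l3658 h y x454t x54t
  have x4f : α 4 = false := ff fun y => c139 h y x464t x46t x483t
  have x10f : α 10 = false := ff fun y => c187 h x452t x482t y x40t
  have x285t : α 285 = true := tt fun y => c2672 h x467f y x158f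
  have x384t : α 384 = true := tt fun y => c3332 h x467f x381f y
  have x41t : α 41 = true := tt fun y => c133 h x175f y x4f
  have x80t : α 80 = true := tt fun y => c198 h x239f y x10f
  have x259f : α 259 = false := ff fun y => c910 h x41t x30t x285t y
  have x339f : α 339 = false := ff fun y => c3279 h x384t y x378t
  have x183f : α 183 = false := ff fun y => c1821 h x179t x80t x257t y
  c2005 h x91f x183f x259f x339f

theorem l3822 (h : Good α) (x274f : α 274 = false) (x345t : α 345 = true) (x142f : α 142 = false) (x282t : α 282 = true) (x102t : α 102 = true) (x255f : α 255 = false) (x189f : α 189 = false) (x113t : α 113 = true) (x237t : α 237 = true) (x97f : α 97 = false) (x199t : α 199 = true) (x91f : α 91 = false) (x61f : α 61 = false) (x92t : α 92 = true) (x106f : α 106 = false) (x306t : α 306 = true) (x346t : α 346 = true) : False :=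
  have x170f : α 170 = false := ff fun y => l3682 h x102t y
  have x59t : α 59 = true := tt fun y => l3669 h y x61f
  have x186t : α 186 = true := tt fun y => c2787 h x255f y x189f
  have x388f : α 388 = false := ff fun y => c1522 h x59t x186t y
  have x241t : α 241 = true := tt fun y => c3075 h y x255f x388f
  have x89f : α 89 = false := ff fun y => c1511 h x241t y x59t
  have x20t : α 20 = true := tt fun y => c550 h y x89f x255f
  have x491t : α 491 = true := tt fun y => c1953 h x89f x255f y
  have x556f : α 556 = false := ff fun y => c558 h x92t y x20t x491t
  have x569t : α 569 = true := tt fun y => c3135 h x255f x388f y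
  have x267f : α 267 = false := ff fun y => l3673 h x186t y x59t
  have x340t : α 340 = true := tt fun y => c2182 h x97f x189f y
  have x28f : α 28 = false := ff fun y => l3636 h y x340t
  have x394f : α 394 = false := ff fun y => l3729 h x199t y x346t
  have x313f : α 313 = false := ff fun y => l3674 h x59t y
  have x325t : α 325 = true := tt fun y => l3677 h x61f y
  have x272f : α 272 = false := ff fun y => l3740 h y x346t
  have x36f : α 36 = false := ff fun y => l3639 h y x346t
  have x509t : α 509 = true := tt fun y => c2206 h x97f x274f y
  have x25t : α 25 = true := tt fun y => c785 h y x97f x274f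
  have x396t : α 396 = true := tt fun y => c3225 h x556f y x274f
  have x87f : α 87 = false := ff fun y => c783 h x25t x509t y x569t
  have x343f : α 343 = false := ff fun y => c3300 h y x396t x509t
  have x99t : α 99 = true := tt fun y => c1912 h y x87f x189f
  have x192t : α 192 = true := tt fun y => c2857 h y x343f x556f
  have x190t : α 190 = true := tt fun y => c2184 h x343f y x97f
  have x476t : α 476 = true := tt fun y => c3133 h y x343f x255f
  have x226t : α 226 = true := tt fun y => c2530 h y x343f x142f x255f
  have x256f : α 256 = false := ff fun y => c2790 h y x190t x186t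
  have x474t : α 474 = true := tt fun y => l3708 h x256f y
  have x101t : α 101 = true := tt fun y => l3680 h y x256f
  have x411t : α 411 = true := tt fun y => l3707 h x256f y x313f
  have x575f : α 575 = false := ff fun y => c3402 h y x476t x474t
  have x21f : α 21 = false := ff fun y => c613 h x101t x474t y x396t
  have x337t : α 337 = true := tt fun y => l3713 h y x575f
  have x78t : α 78 = true := tt fun y => c596 h y x21f x61f
  have x554f : α 554 = false := ff fun y => c2856 h y x337t x192t
  have x108f : α 108 = false := ff fun y => c2320 h x337t x476t y x282t
  have x366f : α 366 = false := ff fun y => c2850 h y x337t x226t x192t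
  have x69f : α 69 = false := ff fun y => c1672 h x78t x190t y x186t
  have x164f : α 164 = false := ff fun y => c1796 h y x474t x78t x396t
  have x494t : α 494 = true := tt fun y => c872 h y x554f x28f x108f
  have x40t : α 40 = true := tt fun y => c1099 h y x108f x267f
  have x483t : α 483 = true := tt fun y => c2319 h x108f x267f y
  have x123f : α 123 = false := ff fun y => l3818 h x89f y x108f x92t
  have x39t : α 39 = true := tt fun y => c1087 h x366f x164f y
  have x464t : α 464 = true := tt fun y => c1677 h x69f x388f x170f y
  have x398f : α 398 = false := ff fun y => c2897 h y x494t x199t x325t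
  have x286f : α 286 = false := ff fun y => c1092 h y x40t x346t x102t
  have x284f : α 284 = false := ff fun y => c2377 h x113t y x340t x483t
  have x278f : α 278 = false := ff fun y => c2221 h x99t x345t y x483t
  have x550t : α 550 = true := tt fun y => c2479 h x123f x313f y
  have x511f : α 511 = false := ff fun y => c1085 h x39t x113t y x550t
  have x460t : α 460 = true := tt fun y => c3339 h x398f x394f y
  have x469t : α 469 = true := tt fun y => c3341 h y x398f x394f
  have x120t : α 120 = true := tt fun y => c1038 h x286f y x36f
  have x46t : α 46 = true := tt fun y => c1020 h x36f x256f y x284f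
  have x477t : α 477 = true := tt fun y => c879 h x272f x28f y x278f
  have x74f : α 74 = false := ff fun y => c1762 h y x411t x237t x550t
  have x475t : α 475 = true := tt fun y => c2279 h x106f x123f y x511f
  have x175f : α 175 = false := ff fun y => l3698 h x120t y
  have x4f : α 4 = false := ff fun y => c139 h y x464t x46t x483t
  have x9f : α 9 = false := ff fun y => c177 h x460t y x477t x46t
  have x77t : α 77 = true := tt fun y => c1022 h y x36f x74f
  have x213t : α 213 = true := tt fun y => c1025 h x36f x74f y
  have x258f : α 258 = false := ff fun y => c2220 h x475t y x99t
  have x41t : α 41 = true := tt fun y => c133 h x175f y x4f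
  have x245f : α 245 = false := ff fun y => c1792 h x469t y x77t
  have x361f : α 361 = false := ff fun y => c2792 h x213t x186t y x345t
  have x22t : α 22 = true := tt fun y => c624 h y x28f x258f x278f
  have x114f : α 114 = false := ff fun y => c1111 h x41t x282t y x340t
  have x160t : α 160 = true := tt fun y => c2674 h x398f x245f y
  have x183t : α 183 = true := tt fun y => c1992 h x114f x91f y
  have x84f : α 84 = false := ff fun y => c1787 h x160t x77t y
  have x423f : α 423 = false := ff fun y => c672 h x306t x22t y x183t
  c178 h x84f x9f x423f x361f

theorem l3823 (h : Good α) (x345t : α 345 = true) (x142f : α 142 = false) (x282t : α 282 = true) (x102t : α 102 = true) (x255f : α 255 = false) (x189f : α 189 = false) (x113t : α 113 = true) (x447f : α 447 = false) (x237t : α 237 = true) (x97f : α 97 = false) (x199t : α 199 = true) (x91f : α 91 = false) (x61f : α 61 = false) (x92t : α 92 = true) (x106f : α 106 = false) (x306t : α 306 = true) (x346t : α 346 = true) : False :=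
  have x59t : α 59 = true := tt fun y => l3669 h y x61f
  have x186t : α 186 = true := tt fun y => c2787 h x255f y x189f
  have x388f : α 388 = false := ff fun y => c1522 h x59t x186t y
  have x569t : α 569 = true := tt fun y => c3135 h x255f x388f y
  have x242t : α 242 = true := tt fun y => c1556 h x61f x97f y
  have x274t : α 274 = true := tt fun y => l3822 h y x345t x142f x282t x102t x255f x189f x113t x237t x97f x199t x91f x61f x92t x106f x306t x346t
  have x396f : α 396 = false := ff fun y => c3079 h y x274t x242t
  have x509f : α 509 = false := ff fun y => c3224 h x274t y x345t x569t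
  have x190t : α 190 = true := tt fun y => c1570 h x61f y x396f
  have x432t : α 432 = true := tt fun y => c3376 h x509f y x447f
  c2838 h x190t x274t x432t

theorem l3824 (h : Good α) (x345f : α 345 = false) (x297f : α 297 = false) (x418f : α 418 = false) (x189f : α 189 = false) (x97f : α 97 = false) (x394f : α 394 = false) (x199t : α 199 = true) (x61f : α 61 = false) : False :=
  have x242t : α 242 = true := tt fun y => c1556 h x61f x97f y
  have x325t : α 325 = true := tt fun y => l3677 h x61f y
  have x59t : α 59 = true := tt fun y => l3669 h y x61f
  have x87t : α 87 = true := tt fun y => c1921 h y x189f x345f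
  have x274t : α 274 = true := tt fun y => c2181 h x97f y x189f x345f
  have x243f : α 243 = false := ff fun y => c1507 h x199t x59t y x87t
  have x396f : α 396 = false := ff fun y => c3079 h y x274t x242t
  have x127t : α 127 = true := tt fun y => c2491 h x394f x297f x243f y
  have x190t : α 190 = true := tt fun y => c1570 h x61f y x396f
  have x554f : α 554 = false := ff fun y => c2494 h y x325t x127t
  have x192f : α 192 = false := ff fun y => c2832 h y x190t x274t
  have x371t : α 371 = true := tt fun y => c3319 h x554f x418f y
  have x25t : α 25 = true := tt fun y => c776 h x192f x61f y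
  c792 h x127t x371t x25t x274t

theorem l3825 (h : Good α) (x87t : α 87 = true) (x345t : α 345 = true) (x297f : α 297 = false) (x418f : α 418 = false) (x394f : α 394 = false) (x199t : α 199 = true) (x61f : α 61 = false) : False :=
  have x325t : α 325 = true := tt fun y => l3677 h x61f y
  have x59t : α 59 = true := tt fun y => l3669 h y x61f
  have x243f : α 243 = false := ff fun y => c1507 h x199t x59t y x87t
  have x127t : α 127 = true := tt fun y => c2491 h x394f x297f x243f y
  have x554f : α 554 = false := ff fun y => c2494 h y x325t x127t
  have x371f : α 371 = false := ff fun y => c1916 h x127t y x87t x345t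
  c3319 h x554f x418f x371f

theorem l3826 (h : Good α) (x282f : α 282 = false) (x264f : α 264 = false) (x255f : α 255 = false) (x28f : α 28 = false) (x113t : α 113 = true) (x313f : α 313 = false) (x92t : α 92 = true) : False :=
  have x476t : α 476 = true := tt fun y => c877 h x264f y x28f x282f
  have x343t : α 343 = true := tt fun y => c3130 h y x255f x282f
  have x357t : α 357 = true := tt fun y => c3132 h x255f x282f y
  have x256f : α 256 = false := ff fun y => c2373 h x476t y x113t
  have x123f : α 123 = false := ff fun y => c2062 h x92t x343t y x357t
  have x411t : α 411 = true := tt fun y => l3707 h x256f y x313f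
  have x550t : α 550 = true := tt fun y => c2479 h x123f x313f y
  c3314 h x357t x411t x550t

theorem l3827 (h : Good α) (x102t : α 102 = true) (x255f : α 255 = false) (x189f : α 189 = false) (x113t : α 113 = true) (x447f : α 447 = false) (x237t : α 237 = true) (x97f : α 97 = false) (x199t : α 199 = true) (x91f : α 91 = false) (x61f : α 61 = false) (x92t : α 92 = true) (x106f : α 106 = false) (x306t : α 306 = true) (x346t : α 346 = true) : False :=
  have x59t : α 59 = true := tt fun y => l3669 h y x61f
  have x313f : α 313 = false := ff fun y => l3674 h x59t y
  have x340t : α 340 = true := tt fun y => c2182 h x97f x189f y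
  have x28f : α 28 = false := ff fun y => l3636 h y x340t
  have x186t : α 186 = true := tt fun y => c2787 h x255f y x189f
  have x388f : α 388 = false := ff fun y => c1522 h x59t x186t y
  have x241t : α 241 = true := tt fun y => c3075 h y x255f x388f
  have x89f : α 89 = false := ff fun y => c1511 h x241t y x59t
  have x20t : α 20 = true := tt fun y => c550 h y x89f x255f
  have x264f : α 264 = false := ff fun y => c556 h y x92t x20t
  have x282t : α 282 = true := tt fun y => l3826 h y x264f x255f x28f x113t x313f x92t
  have x14f : α 14 = false := ff fun y => c258 h y x59t x186t
  have x325t : α 325 = true := tt fun y => l3677 h x61f y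
  have x418f : α 418 = false := ff fun y => c1521 h x325t y x59t x186t
  have x394f : α 394 = false := ff fun y => l3729 h x199t y x346t
  have x297f : α 297 = false := ff fun y => l3684 h y x102t x325t
  have x345t : α 345 = true := tt fun y => l3824 h y x297f x418f x189f x97f x394f x199t x61f
  have x87f : α 87 = false := ff fun y => l3825 h y x345t x297f x418f x394f x199t x61f
  have x142t : α 142 = true := tt fun y => l3823 h x345t y x282t x102t x255f x189f x113t x447f x237t x97f x199t x91f x61f x92t x106f x306t x346t
  have x34t : α 34 = true := tt fun y => c247 h y x14f x87f
  c529 h x142t x34t x20t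

theorem l3828 (h : Good α) (x255f : α 255 = false) (x189f : α 189 = false) (x113t : α 113 = true) (x447f : α 447 = false) (x237t : α 237 = true) (x97f : α 97 = false) (x199t : α 199 = true) (x91f : α 91 = false) (x61f : α 61 = false) (x92t : α 92 = true) (x106f : α 106 = false) (x306t : α 306 = true) (x346t : α 346 = true) : False :=
  have x340t : α 340 = true := tt fun y => c2182 h x97f x189f y
  have x28f : α 28 = false := ff fun y => l3636 h y x340t
  have x325t : α 325 = true := tt fun y => l3677 h x61f y
  have x59t : α 59 = true := tt fun y => l3669 h y x61f
  have x186t : α 186 = true := tt fun y => c2787 h x255f y x189f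
  have x418f : α 418 = false := ff fun y => c1521 h x325t y x59t x186t
  have x388f : α 388 = false := ff fun y => c1522 h x59t x186t y
  have x267f : α 267 = false := ff fun y => l3673 h x186t y x59t
  have x14f : α 14 = false := ff fun y => c258 h y x59t x186t
  have x241t : α 241 = true := tt fun y => c3075 h y x255f x388f
  have x89f : α 89 = false := ff fun y => c1511 h x241t y x59t
  have x20t : α 20 = true := tt fun y => c550 h y x89f x255f
  have x264f : α 264 = false := ff fun y => c556 h y x92t x20t
  have x102f : α 102 = false := ff fun y => l3827 h y x255f x189f x113t x447f x237t x97f x199t x91f x61f x92t x106f x306t x346t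
  have x278t : α 278 = true := tt fun y => c865 h x28f x102f y
  have x21t : α 21 = true := tt fun y => c243 h y x14f x102f
  have x297t : α 297 = true := tt fun y => c2248 h y x418f x102f x267f
  have x39f : α 39 = false := ff fun y => c1083 h y x113t x278t x340t
  have x101f : α 101 = false := ff fun y => c612 h x297t y x21t
  c1078 h x264f x101f x39f

theorem l3829 (h : Good α) (x297t : α 297 = true) (x101t : α 101 = true) (x102f : α 102 = false) (x61f : α 61 = false) : False :=
  have x325t : α 325 = true := tt fun y => l3677 h x61f y
  have x59t : α 59 = true := tt fun y => l3669 h y x61f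
  have x14f : α 14 = false := ff fun y => c260 h x297t x325t y x59t
  have x21f : α 21 = false := ff fun y => c612 h x297t x101t y
  c243 h x21f x14f x102f

theorem l3830 (h : Good α) (x20t : α 20 = true) (x267f : α 267 = false) (x39f : α 39 = false) (x102f : α 102 = false) (x61f : α 61 = false) (x92t : α 92 = true) : False :=
  have x325t : α 325 = true := tt fun y => l3677 h x61f y
  have x59t : α 59 = true := tt fun y => l3669 h y x61f
  have x264f : α 264 = false := ff fun y => c556 h y x92t x20t
  have x89f : α 89 = false := ff fun y => l3819 h y x20t x59t
  have x101t : α 101 = true := tt fun y => c1078 h x264f y x39f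
  have x297f : α 297 = false := ff fun y => l3829 h y x101t x102f x61f
  have x418t : α 418 = true := tt fun y => c2248 h x297f y x102f x267f
  have x186f : α 186 = false := ff fun y => c1521 h x325t x418t x59t y
  have x104t : α 104 = true := tt fun y => c1939 h y x89f x186f
  have x14t : α 14 = true := tt fun y => c269 h y x186f x102f x267f
  c238 h x104t x20t x14t

theorem l3831 (h : Good α) (x418t : α 418 = true) (x187f : α 187 = false) (x267f : α 267 = false) (x102f : α 102 = false) (x61f : α 61 = false) : False :=
  have x90t : α 90 = true := tt fun y => c1958 h x187f y x102f
  have x325t : α 325 = true := tt fun y => l3677 h x61f y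
  have x59t : α 59 = true := tt fun y => l3669 h y x61f
  have x186f : α 186 = false := ff fun y => c1521 h x325t x418t x59t y
  have x190t : α 190 = true := tt fun y => c2791 h y x186f x267f
  have x14t : α 14 = true := tt fun y => c269 h y x186f x102f x267f
  have x256f : α 256 = false := ff fun y => c2834 h x418t y x190t
  have x253f : α 253 = false := ff fun y => c265 h y x90t x14t
  have x101t : α 101 = true := tt fun y => l3680 h y x256f
  have x185t : α 185 = true := tt fun y => c2773 h y x187f x253f
  have x21f : α 21 = false := ff fun y => c242 h x101t y x14t
  have x55f : α 55 = false := ff fun y => c254 h x185t y x14t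
  c594 h x187f x55f x21f

theorem l3832 (h : Good α) (x102f : α 102 = false) (x71f : α 71 = false) (x189f : α 189 = false) (x113t : α 113 = true) (x233f : α 233 = false) (x97f : α 97 = false) (x54t : α 54 = true) (x61f : α 61 = false) (x92t : α 92 = true) (x346t : α 346 = true) : False :=
  have x340t : α 340 = true := tt fun y => c2182 h x97f x189f y
  have x260f : α 260 = false := ff fun y => l3503 h y x340t
  have x28f : α 28 = false := ff fun y => l3636 h y x340t
  have x325t : α 325 = true := tt fun y => l3677 h x61f y
  have x59t : α 59 = true := tt fun y => l3669 h y x61f
  have x272f : α 272 = false := ff fun y => l3740 h y x346t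
  have x278t : α 278 = true := tt fun y => c865 h x28f x102f y
  have x478t : α 478 = true := tt fun y => c2246 h x102f x260f y
  have x39f : α 39 = false := ff fun y => c1083 h y x113t x278t x340t
  have x267f : α 267 = false := ff fun y => c3196 h y x340t x478t
  have x20f : α 20 = false := ff fun y => l3830 h y x267f x39f x102f x61f x92t
  have x108t : α 108 = true := tt fun y => l3813 h y x28f x189f x20f x71f x59t
  have x120f : α 120 = false := ff fun y => l3685 h x108t y
  have x24f : α 24 = false := ff fun y => l3629 h y x108t x54t
  have x485t : α 485 = true := tt fun y => c2457 h y x272f x120f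
  have x275f : α 275 = false := ff fun y => c3230 h x485t x346t y
  have x191t : α 191 = true := tt fun y => c757 h x120f x24f x275f y
  have x381f : α 381 = false := ff fun y => c1339 h x54t x191t y
  have x259t : α 259 = true := tt fun y => c2997 h x381f y x233f
  have x187f : α 187 = false := ff fun y => c2794 h y x191t x259t
  have x418f : α 418 = false := ff fun y => l3831 h y x187f x267f x102f x61f
  have x297t : α 297 = true := tt fun y => c2248 h y x418f x102f x267f
  have x14f : α 14 = false := ff fun y => c260 h x297t x325t y x59t
  have x101f : α 101 = false := ff fun y => l3829 h x297t y x102f x61f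
  have x186t : α 186 = true := tt fun y => c269 h x14f y x102f x267f
  have x21t : α 21 = true := tt fun y => c243 h y x14f x102f
  have x256t : α 256 = true := tt fun y => l3680 h x101f y
  have x31f : α 31 = false := ff fun y => c588 h x92t x21t y
  have x190f : α 190 = false := ff fun y => c2790 h x256t y x186t
  have x25t : α 25 = true := tt fun y => c766 h x31f y x97f
  have x112t : α 112 = true := tt fun y => c2173 h x190f x97f y
  c581 h x21t x25t x112t

theorem l3833 (h : Good α) (x101f : α 101 = false) (x102t : α 102 = true) (x97f : α 97 = false) (x61f : α 61 = false) (x92t : α 92 = true) : False :=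
  have x325t : α 325 = true := tt fun y => l3677 h x61f y
  have x297f : α 297 = false := ff fun y => l3684 h y x102t x325t
  have x59t : α 59 = true := tt fun y => l3669 h y x61f
  have x14f : α 14 = false := ff fun y => l3620 h x102t y x59t
  have x256t : α 256 = true := tt fun y => l3680 h x101f y
  have x21t : α 21 = true := tt fun y => l3625 h y x101f x61f
  have x31f : α 31 = false := ff fun y => c588 h x92t x21t y
  have x25t : α 25 = true := tt fun y => c766 h x31f y x97f
  have x112f : α 112 = false := ff fun y => c581 h x21t x25t y
  have x190t : α 190 = true := tt fun y => c2173 h y x97f x112f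
  have x418f : α 418 = false := ff fun y => c2834 h y x256t x190t
  have x186f : α 186 = false := ff fun y => c2790 h x256t x190t y
  c272 h x297f x418f x14f x186f

theorem l3834 (h : Good α) (x20f : α 20 = false) (x16t : α 16 = true) (x68f : α 68 = false) (x167f : α 167 = false) (x102t : α 102 = true) (x71f : α 71 = false) (x28f : α 28 = false) (x189f : α 189 = false) (x236t : α 236 = true) (x200t : α 200 = true) (x59t : α 59 = true) (x106f : α 106 = false) (x346t : α 346 = true) : False :=
  have x36f : α 36 = false := ff fun y => l3639 h y x346t
  have x22t : α 22 = true := tt fun y => c512 h x106f y x20f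
  have x108t : α 108 = true := tt fun y => l3813 h y x28f x189f x20f x71f x59t
  have x109f : α 109 = false := ff fun y => c315 h x22t x16t y
  have x120f : α 120 = false := ff fun y => l3685 h x108t y
  have x135t : α 135 = true := tt fun y => c1658 h y x68f x109f
  have x286t : α 286 = true := tt fun y => c1038 h y x120f x36f
  have x29f : α 29 = false := ff fun y => c630 h x135t y x22t
  have x40f : α 40 = false := ff fun y => c1092 h x286t y x346t x102t
  have x80t : α 80 = true := tt fun y => c887 h y x29f x68f
  have x215t : α 215 = true := tt fun y => c890 h x29f x68f y
  have x10t : α 10 = true := tt fun y => c183 h y x40f x167f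
  have x359t : α 359 = true := tt fun y => c1102 h x40f x167f y
  have x124f : α 124 = false := ff fun y => c2481 h y x215t x359t
  have x321f : α 321 = false := ff fun y => c1823 h x200t y x80t x215t
  have x552f : α 552 = false := ff fun y => c203 h x236t y x10t x359t
  c2484 h x124f x321f x552f

theorem l3835 (h : Good α) (x20t : α 20 = true) (x21t : α 21 = true) (x99t : α 99 = true) (x238f : α 238 = false) (x394f : α 394 = false) (x323f : α 323 = false) (x56f : α 56 = false) (x197f : α 197 = false) (x59t : α 59 = true) (x92t : α 92 = true) (x306t : α 306 = true) (x346t : α 346 = true) : False :=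
  have x272f : α 272 = false := ff fun y => l3740 h y x346t
  have x326f : α 326 = false := ff fun y => c544 h x306t x20t y x59t
  have x264f : α 264 = false := ff fun y => c556 h y x92t x20t
  have x499t : α 499 = true := tt fun y => l3612 h y x346t x326f x197f x323f
  have x188t : α 188 = true := tt fun y => l3664 h y x264f x56f
  have x299t : α 299 = true := tt fun y => c3052 h x264f x238f y
  have x559f : α 559 = false := ff fun y => c608 h y x92t x499t x21t
  have x254f : α 254 = false := ff fun y => c559 h x188t x20t y x99t
  have x117f : α 117 = false := ff fun y => c571 h x20t y x299t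
  have x398t : α 398 = true := tt fun y => c3216 h x559f y x272f
  have x85t : α 85 = true := tt fun y => c1881 h x238f x117f y
  have x460f : α 460 = false := ff fun y => c561 h x398t x20t y x99t
  have x159f : α 159 = false := ff fun y => c548 h x20t x85t x99t y
  have x76t : α 76 = true := tt fun y => c1781 h x394f y x460f x159f
  have x185t : α 185 = true := tt fun y => c2781 h x394f y x460f x254f
  c1778 h x188t x85t x185t x76t

theorem l3836 (h : Good α) (x21t : α 21 = true) (x25t : α 25 = true) (x87f : α 87 = false) (x102t : α 102 = true) (x71f : α 71 = false) (x28f : α 28 = false) (x189f : α 189 = false) (x238f : α 238 = false) (x236t : α 236 = true) (x1f : α 1 = false) (x57f : α 57 = false) (x54t : α 54 = true) (x59t : α 59 = true) (x92t : α 92 = true) (x106f : α 106 = false) (x306t : α 306 = true) (x346t : α 346 = true) : False :=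
  have x99t : α 99 = true := tt fun y => c1912 h y x87f x189f
  have x14f : α 14 = false := ff fun y => l3620 h x102t y x59t
  have x52f : α 52 = false := ff fun y => l3640 h x54t y
  have x53t : α 53 = true := tt fun y => c20 h y x1f x52f
  have x56f : α 56 = false := ff fun y => l3649 h x53t y
  have x199t : α 199 = true := tt fun y => c59 h y x56f x1f
  have x394f : α 394 = false := ff fun y => l3729 h x199t y x346t
  have x323f : α 323 = false := ff fun y => l3728 h x199t y
  have x200t : α 200 = true := tt fun y => c67 h y x57f x1f
  have x197f : α 197 = false := ff fun y => l3796 h y x54t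
  have x272f : α 272 = false := ff fun y => l3740 h y x346t
  have x20f : α 20 = false := ff fun y => l3835 h y x21t x99t x238f x394f x323f x56f x197f x59t x92t x306t x346t
  have x108t : α 108 = true := tt fun y => l3813 h y x28f x189f x20f x71f x59t
  have x55t : α 55 = true := tt fun y => c233 h x57f x20f y x14f
  have x120f : α 120 = false := ff fun y => l3685 h x108t y
  have x167f : α 167 = false := ff fun y => l3686 h x108t y
  have x24f : α 24 = false := ff fun y => l3629 h y x108t x54t
  have x50f : α 50 = false := ff fun y => c579 h x55t x21t y x25t
  have x485t : α 485 = true := tt fun y => c2457 h y x272f x120f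
  have x16t : α 16 = true := tt fun y => c324 h x120f x24f y
  have x63t : α 63 = true := tt fun y => l3532 h x24f y x54t
  have x86t : α 86 = true := tt fun y => c3 h x56f x1f y x50f
  have x275f : α 275 = false := ff fun y => c3230 h x485t x346t y
  have x68t : α 68 = true := tt fun y => l3834 h x20f x16t y x167f x102t x71f x28f x189f x236t x200t x59t x106f x346t
  have x191t : α 191 = true := tt fun y => c757 h x120f x24f x275f y
  have x181f : α 181 = false := ff fun y => c1599 h x63t x68t x191t y
  have x336f : α 336 = false := ff fun y => c1905 h x86t x191t y
  c1918 h x336f x181f x87f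

theorem l3837 (h : Good α) (x108t : α 108 = true) (x343f : α 343 = false) (x262f : α 262 = false) (x474t : α 474 = true) (x116f : α 116 = false) (x396t : α 396 = true) (x101t : α 101 = true) (x102t : α 102 = true) (x233f : α 233 = false) (x54t : α 54 = true) (x346t : α 346 = true) : False :=
  have x272f : α 272 = false := ff fun y => l3740 h y x346t
  have x36f : α 36 = false := ff fun y => l3639 h y x346t
  have x120f : α 120 = false := ff fun y => l3685 h x108t y
  have x167f : α 167 = false := ff fun y => l3686 h x108t y
  have x24f : α 24 = false := ff fun y => l3629 h y x108t x54t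
  have x41t : α 41 = true := tt fun y => c1114 h x272f x120f y
  have x485t : α 485 = true := tt fun y => c2457 h y x272f x120f
  have x46t : α 46 = true := tt fun y => c1019 h x120f x36f y
  have x286t : α 286 = true := tt fun y => c1038 h y x120f x36f
  have x63t : α 63 = true := tt fun y => l3532 h x24f y x54t
  have x275f : α 275 = false := ff fun y => c3230 h x485t x346t y
  have x280f : α 280 = false := ff fun y => c2237 h x485t y x346t x101t
  have x40f : α 40 = false := ff fun y => c1092 h x286t y x346t x102t
  have x191t : α 191 = true := tt fun y => c757 h x120f x24f x275f y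
  have x476t : α 476 = true := tt fun y => c2416 h x280f y x116f x343f
  have x382t : α 382 = true := tt fun y => c1101 h x262f y x40f x167f
  have x381f : α 381 = false := ff fun y => c1339 h x54t x191t y
  have x4f : α 4 = false := ff fun y => c136 h x41t x476t y x474t
  have x75f : α 75 = false := ff fun y => c1602 h x63t x382t y x396t
  have x259t : α 259 = true := tt fun y => c2997 h x381f y x233f
  have x158t : α 158 = true := tt fun y => c141 h x4f x75f y x233f
  have x419f : α 419 = false := ff fun y => c2841 h x191t x259t y
  have x362f : α 362 = false := ff fun y => c1143 h x46t x158t y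
  c143 h x4f x75f x362f x419f

theorem l3838 (h : Good α) (x418f : α 418 = false) (x102t : α 102 = true) (x71f : α 71 = false) (x255t : α 255 = true) (x189f : α 189 = false) (x238f : α 238 = false) (x233f : α 233 = false) (x236t : α 236 = true) (x97f : α 97 = false) (x1f : α 1 = false) (x57f : α 57 = false) (x54t : α 54 = true) (x61f : α 61 = false) (x92t : α 92 = true) (x106f : α 106 = false) (x306t : α 306 = true) (x346t : α 346 = true) : False :=
  have x101t : α 101 = true := tt fun y => l3833 h y x102t x97f x61f x92t
  have x325t : α 325 = true := tt fun y => l3677 h x61f y
  have x297f : α 297 = false := ff fun y => l3684 h y x102t x325t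
  have x59t : α 59 = true := tt fun y => l3669 h y x61f
  have x14f : α 14 = false := ff fun y => l3620 h x102t y x59t
  have x340t : α 340 = true := tt fun y => c2182 h x97f x189f y
  have x28f : α 28 = false := ff fun y => l3636 h y x340t
  have x242t : α 242 = true := tt fun y => c1556 h x61f x97f y
  have x52f : α 52 = false := ff fun y => l3640 h x54t y
  have x53t : α 53 = true := tt fun y => c20 h y x1f x52f
  have x56f : α 56 = false := ff fun y => l3649 h x53t y
  have x199t : α 199 = true := tt fun y => c59 h y x56f x1f
  have x394f : α 394 = false := ff fun y => l3729 h x199t y x346t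
  have x186t : α 186 = true := tt fun y => c272 h x297f x418f x14f y
  have x345t : α 345 = true := tt fun y => l3824 h y x297f x418f x189f x97f x394f x199t x61f
  have x388f : α 388 = false := ff fun y => c1522 h x59t x186t y
  have x87f : α 87 = false := ff fun y => l3825 h y x345t x297f x418f x394f x199t x61f
  have x25t : α 25 = true := tt fun y => c780 h y x97f x87f x189f
  have x34t : α 34 = true := tt fun y => c247 h y x14f x87f
  have x21f : α 21 = false := ff fun y => l3836 h y x25t x87f x102t x71f x28f x189f x238f x236t x1f x57f x54t x59t x92t x106f x306t x346t
  have x78t : α 78 = true := tt fun y => c596 h y x21f x61f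
  have x190t : α 190 = true := tt fun y => c600 h x21f x61f y
  have x396t : α 396 = true := tt fun y => c244 h x21f y x14f x388f
  have x116f : α 116 = false := ff fun y => c1794 h x236t y x78t
  have x256f : α 256 = false := ff fun y => c2790 h y x190t x186t
  have x274f : α 274 = false := ff fun y => c3079 h x396t y x242t
  have x305t : α 305 = true := tt fun y => c616 h y x116f x21f
  have x474t : α 474 = true := tt fun y => l3708 h x256f y
  have x509t : α 509 = true := tt fun y => c2206 h x97f x274f y
  have x262f : α 262 = false := ff fun y => c3018 h x305t x236t y
  have x343f : α 343 = false := ff fun y => c3300 h y x396t x509t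
  have x108f : α 108 = false := ff fun y => l3837 h y x343f x262f x474t x116f x396t x101t x102t x233f x54t x346t
  have x282t : α 282 = true := tt fun y => c870 h x28f x108f y
  have x44t : α 44 = true := tt fun y => c843 h y x28f x108f
  c981 h x34t x255t x44t x282t

theorem l3839 (h : Good α) (x108f : α 108 = false) (x25t : α 25 = true) (x21f : α 21 = false) (x186f : α 186 = false) (x14f : α 14 = false) (x267f : α 267 = false) (x71f : α 71 = false) (x255t : α 255 = true) (x340t : α 340 = true) (x189f : α 189 = false) (x113t : α 113 = true) (x394f : α 394 = false) (x199t : α 199 = true) (x61f : α 61 = false) : False :=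
  have x28f : α 28 = false := ff fun y => l3636 h y x340t
  have x59t : α 59 = true := tt fun y => l3669 h y x61f
  have x282t : α 282 = true := tt fun y => c870 h x28f x108f y
  have x44t : α 44 = true := tt fun y => c843 h y x28f x108f
  have x20t : α 20 = true := tt fun y => l3813 h x108f x28f x189f y x71f x59t
  have x483t : α 483 = true := tt fun y => c2319 h x108f x267f y
  have x34f : α 34 = false := ff fun y => c981 h y x255t x44t x282t
  have x89f : α 89 = false := ff fun y => l3819 h y x20t x59t
  have x284f : α 284 = false := ff fun y => c2377 h x113t y x340t x483t
  have x87t : α 87 = true := tt fun y => c247 h x34f x14f y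
  have x345t : α 345 = true := tt fun y => c1946 h x89f x186f y
  have x274f : α 274 = false := ff fun y => c782 h x25t y x87t x345t
  have x371f : α 371 = false := ff fun y => l3820 h x34f x21f y x345t x71f x394f x199t x61f
  c3223 h x371f x284f x274f

theorem l3840 (h : Good α) (x21f : α 21 = false) (x186f : α 186 = false) (x102t : α 102 = true) (x71f : α 71 = false) (x255t : α 255 = true) (x340t : α 340 = true) (x189f : α 189 = false) (x113t : α 113 = true) (x236t : α 236 = true) (x199t : α 199 = true) (x54t : α 54 = true) (x61f : α 61 = false) (x346t : α 346 = true) : False :=
  have x170f : α 170 = false := ff fun y => l3682 h x102t y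
  have x267f : α 267 = false := ff fun y => l3683 h x102t y
  have x69t : α 69 = true := tt fun y => c1676 h y x186f x170f x267f
  have x59t : α 59 = true := tt fun y => l3669 h y x61f
  have x14f : α 14 = false := ff fun y => l3620 h x102t y x59t
  have x394f : α 394 = false := ff fun y => l3729 h x199t y x346t
  have x272f : α 272 = false := ff fun y => l3740 h y x346t
  have x580f : α 580 = false := ff fun y => l3737 h x346t y
  have x78t : α 78 = true := tt fun y => c596 h y x21f x61f
  have x116f : α 116 = false := ff fun y => c1794 h x236t y x78t
  have x164f : α 164 = false := ff fun y => c1671 h y x78t x69t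
  have x25t : α 25 = true := tt fun y => c582 h x116f x21f y
  have x108t : α 108 = true := tt fun y => l3839 h y x25t x21f x186f x14f x267f x71f x255t x340t x189f x113t x394f x199t x61f
  have x120f : α 120 = false := ff fun y => l3685 h x108t y
  have x24f : α 24 = false := ff fun y => l3629 h y x108t x54t
  have x485t : α 485 = true := tt fun y => c2457 h y x272f x120f
  have x275f : α 275 = false := ff fun y => c3230 h x485t x346t y
  have x191t : α 191 = true := tt fun y => c757 h x120f x24f x275f y
  have x381f : α 381 = false := ff fun y => c1339 h x54t x191t y
  have x467t : α 467 = true := tt fun y => c760 h x120f x24f y x381f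
  have x454f : α 454 = false := ff fun y => l3716 h y x467t
  have x278t : α 278 = true := tt fun y => c2695 h x170f y x454f
  have x477f : α 477 = false := ff fun y => c2249 h x346t x102t y x278t
  have x39f : α 39 = false := ff fun y => c1083 h y x113t x278t x340t
  c1088 h x580f x164f x477f x39f

theorem l3841 (h : Good α) (x71f : α 71 = false) (x255t : α 255 = true) (x189f : α 189 = false) (x113t : α 113 = true) (x238f : α 238 = false) (x233f : α 233 = false) (x236t : α 236 = true) (x97f : α 97 = false) (x1f : α 1 = false) (x57f : α 57 = false) (x54t : α 54 = true) (x61f : α 61 = false) (x92t : α 92 = true) (x106f : α 106 = false) (x306t : α 306 = true) (x346t : α 346 = true) : False :=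
  have x340t : α 340 = true := tt fun y => c2182 h x97f x189f y
  have x28f : α 28 = false := ff fun y => l3636 h y x340t
  have x52f : α 52 = false := ff fun y => l3640 h x54t y
  have x53t : α 53 = true := tt fun y => c20 h y x1f x52f
  have x56f : α 56 = false := ff fun y => l3649 h x53t y
  have x199t : α 199 = true := tt fun y => c59 h y x56f x1f
  have x394f : α 394 = false := ff fun y => l3729 h x199t y x346t
  have x323f : α 323 = false := ff fun y => l3728 h x199t y
  have x197f : α 197 = false := ff fun y => l3796 h y x54t
  have x325t : α 325 = true := tt fun y => l3677 h x61f y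
  have x59t : α 59 = true := tt fun y => l3669 h y x61f
  have x102t : α 102 = true := tt fun y => l3832 h y x71f x189f x113t x233f x97f x54t x61f x92t x346t
  have x14f : α 14 = false := ff fun y => l3620 h x102t y x59t
  have x297f : α 297 = false := ff fun y => l3684 h y x102t x325t
  have x418t : α 418 = true := tt fun y => l3838 h y x102t x71f x255t x189f x238f x233f x236t x97f x1f x57f x54t x61f x92t x106f x306t x346t
  have x186f : α 186 = false := ff fun y => c1521 h x325t x418t x59t y
  have x21t : α 21 = true := tt fun y => l3840 h y x186f x102t x71f x255t x340t x189f x113t x236t x199t x54t x61f x346t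
  have x31f : α 31 = false := ff fun y => c588 h x92t x21t y
  have x25t : α 25 = true := tt fun y => c766 h x31f y x97f
  have x99t : α 99 = true := tt fun y => c942 h x31f x97f y x189f
  have x87t : α 87 = true := tt fun y => l3836 h x21t x25t y x102t x71f x28f x189f x238f x236t x1f x57f x54t x59t x92t x106f x306t x346t
  have x20f : α 20 = false := ff fun y => l3835 h y x21t x99t x238f x394f x323f x56f x197f x59t x92t x306t x346t
  have x89f : α 89 = false := ff fun y => c1505 h y x59t x87t
  have x243f : α 243 = false := ff fun y => c1507 h x199t x59t y x87t
  have x398t : α 398 = true := tt fun y => c240 h y x20f x394f x14f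
  have x127t : α 127 = true := tt fun y => c2491 h x394f x297f x243f y
  have x494f : α 494 = false := ff fun y => c2897 h x398t y x199t x325t
  have x554f : α 554 = false := ff fun y => c2494 h y x325t x127t
  c553 h x494f x554f x20f x89f

theorem l3842 (h : Good α) (x71t : α 71 = true) (x236t : α 236 = true) (x56f : α 56 = false) (x200t : α 200 = true) : False :=
  have x452f : α 452 = false := ff fun y => c1725 h y x236t x71t
  have x386f : α 386 = false := ff fun y => c1722 h y x200t x71t
  l3665 h x386f x452f x56f

end Q110.RC
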