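import Pool.Agent.Q110.RC.Lem1

/-! # Generated part of the refutation used for `S(4)` -/

set_option linter.all false

namespace Q110.RC

variable {α : Nat → Bool}

theorem l3843 (h : Good α) (x189f : α 189 = false) (x113t : α 113 = true) (x238f : α 238 = false) (x233f : α 233 = false) (x236t : α 236 = true) (x97f : α 97 = false) (x1f : α 1 = false) (x57f : α 57 = false) (x91f : α 91 = false) (x54t : α 54 = true) (x61f : α 61 = false) (x92t : α 92 = true) (x106f : α 106 = false) (x306t : α 306 = true) (x346t : α 346 = true) : False :=
  have x200t : α 200 = true := tt fun y => c67 h y x57f x1f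
  have x52f : α 52 = false := ff fun y => l3640 h x54t y
  have x53t : α 53 = true := tt fun y => c20 h y x1f x52f
  have x56f : α 56 = false := ff fun y => l3649 h x53t y
  have x71f : α 71 = false := ff fun y => l3842 h y x236t x56f x200t
  have x197f : α 197 = false := ff fun y => l3796 h y x54t
  have x237t : α 237 = true := tt fun y => c1553 h x197f x61f y x97f
  have x242t : α 242 = true := tt fun y => c1556 h x61f x97f y
  have x201f : α 201 = false := ff fun y => c2904 h x200t x236t y x242t
  have x351t : α 351 = true := tt fun y => c111 h x197f x1f y x201f
  have x534f : α 534 = false := ff fun y => c3042 h x237t x351t y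
  have x406t : α 406 = true := tt fun y => c115 h x197f x1f x534f y
  have x439t : α 439 = true := tt fun y => c2016 h x91f x233f y
  have x447f : α 447 = false := ff fun y => c3356 h x439t x406t y
  have x199t : α 199 = true := tt fun y => c59 h y x56f x1f
  have x255t : α 255 = true := tt fun y => l3828 h y x189f x113t x447f x237t x97f x199t x91f x61f x92t x106f x306t x346t
  l3841 h x71f x255t x189f x113t x238f x233f x236t x97f x1f x57f x54t x61f x92t x106f x306t x346t

theorem l3844 (h : Good α) (x97f : α 97 = false) (x1f : α 1 = false) (x57f : α 57 = false) (x54t : α 54 = true) (x61f : α 61 = false) (x92t : α 92 = true) (x106f : α 106 = false) (x58t : α 58 = true) (x306t : α 306 = true) (x346t : α 346 = true) : False :=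
  have x200t : α 200 = true := tt fun y => c67 h y x57f x1f
  have x52f : α 52 = false := ff fun y => l3640 h x54t y
  have x53t : α 53 = true := tt fun y => c20 h y x1f x52f
  have x204t : α 204 = true := tt fun y => c101 h x1f x61f y
  have x197f : α 197 = false := ff fun y => l3796 h y x54t
  have x91f : α 91 = false := ff fun y => l3615 h y x58t x61f x197f
  have x325t : α 325 = true := tt fun y => l3677 h x61f y
  have x242t : α 242 = true := tt fun y => c1556 h x61f x97f y
  have x237t : α 237 = true := tt fun y => c1553 h x197f x61f y x97f
  have x353f : α 353 = false := ff fun y => c1487 h y x200t x237t x58t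
  have x236t : α 236 = true := tt fun y => c1575 h x353f y x197f x61f
  have x201f : α 201 = false := ff fun y => c2904 h x200t x236t y x242t
  have x250f : α 250 = false := ff fun y => l3521 h y x57f x201f x204t
  have x94t : α 94 = true := tt fun y => l3821 h y x97f x1f x57f x54t x61f x92t x106f x58t x306t x346t
  have x233f : α 233 = false := ff fun y => c2041 h x94t x92t y x242t
  have x238f : α 238 = false := ff fun y => c1321 h x94t y x54t x204t
  have x354t : α 354 = true := tt fun y => c2014 h x91f x250f x233f y
  have x180f : α 180 = false := ff fun y => l3461 h y x238f x94t x242t x91f x57f x201f x58t x53t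
  have x548f : α 548 = false := ff fun y => c3083 h x242t x354t y
  have x113t : α 113 = true := tt fun y => l3690 h y x180f
  have x409t : α 409 = true := tt fun y => c122 h x1f y x201f x548f
  have x335f : α 335 = false := ff fun y => c3261 h x325t y x409t
  have x542t : α 542 = true := tt fun y => l3712 h x335f y
  have x334f : α 334 = false := ff fun y => c3271 h x542t x409t y
  have x189t : α 189 = true := tt fun y => l3843 h y x113t x238f x233f x236t x97f x1f x57f x91f x54t x61f x92t x106f x306t x346t
  have x19f : α 19 = false := ff fun y => c484 h y x58t x189t
  have x399f : α 399 = false := ff fun y => c1485 h x58t x189t y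
  have x257t : α 257 = true := tt fun y => c493 h x19f x91f y
  have x273t : α 273 = true := tt fun y => c3111 h x250f y x399f
  have x183f : α 183 = false := ff fun y => c2749 h x257t y x189t
  have x430f : α 430 = false := ff fun y => c2825 h x189t x273t y
  c1256 h x52f x334f x183f x430f

theorem l3845 (h : Good α) (x189t : α 189 = true) (x97t : α 97 = true) (x56f : α 56 = false) (x58t : α 58 = true) : False :=
  have x19f : α 19 = false := ff fun y => c484 h y x58t x189t
  have x113f : α 113 = false := ff fun y => c2176 h y x97t x189t
  l3623 h x113f x19f x56f

theorem l3846 (h : Good α) (x113f : α 113 = false) (x242t : α 242 = true) (x201f : α 201 = false) (x57f : α 57 = false) (x92t : α 92 = true) : False :=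
  have x180t : α 180 = true := tt fun y => l3690 h x113f y
  have x264t : α 264 = true := tt fun y => l3691 h x113f y
  have x387f : α 387 = false := ff fun y => c2718 h x180t x242t y
  have x20f : α 20 = false := ff fun y => c556 h x264t x92t y
  have x70t : α 70 = true := tt fun y => c1693 h y x201f x387f
  have x188t : α 188 = true := tt fun y => c533 h y x57f x20f
  c1691 h x188t x264t x70t x180t

theorem l3847 (h : Good α) (x264t : α 264 = true) (x188t : α 188 = true) (x113t : α 113 = true) (x379f : α 379 = false) (x23f : α 23 = false) (x236f : α 236 = false) (x200t : α 200 = true) : False :=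
  have x19f : α 19 = false := ff fun y => c502 h x188t x264t y x113t
  have x386t : α 386 = true := tt fun y => c462 h y x379f x19f x23f
  have x71f : α 71 = false := ff fun y => c1722 h x386t x200t y
  have x452f : α 452 = false := ff fun y => c2812 h x386t y x188t x264t
  c1724 h x452f x236f x71f

theorem l3848 (h : Good α) (x71f : α 71 = false) (x264f : α 264 = false) (x459t : α 459 = true) (x20f : α 20 = false) (x189f : α 189 = false) (x236f : α 236 = false) (x59t : α 59 = true) (x346t : α 346 = true) : False :=
  have x272f : α 272 = false := ff fun y => l3740 h y x346t
  have x10t : α 10 = true := tt fun y => c195 h x236f x71f y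
  have x28f : α 28 = false := ff fun y => l3618 h x10t y
  have x485f : α 485 = false := ff fun y => l3757 h y x10t x459t x28f x264f x346t
  have x108t : α 108 = true := tt fun y => l3813 h y x28f x189f x20f x71f x59t
  have x120t : α 120 = true := tt fun y => c2457 h x485f x272f y
  l3685 h x108t x120t

theorem l3849 (h : Good α) (x20f : α 20 = false) (x70t : α 70 = true) (x113t : α 113 = true) (x189f : α 189 = false) (x379f : α 379 = false) (x23f : α 23 = false) (x158f : α 158 = false) (x236f : α 236 = false) (x200t : α 200 = true) (x57f : α 57 = false) (x54t : α 54 = true) (x61f : α 61 = false) (x346t : α 346 = true) : False :=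
  have x161t : α 161 = true := tt fun y => c2676 h x379f x236f y
  have x197f : α 197 = false := ff fun y => l3796 h y x54t
  have x353t : α 353 = true := tt fun y => c1575 h y x236f x197f x61f
  have x239f : α 239 = false := ff fun y => c2914 h x353t y x200t
  have x59t : α 59 = true := tt fun y => l3669 h y x61f
  have x272f : α 272 = false := ff fun y => l3740 h y x346t
  have x188t : α 188 = true := tt fun y => c533 h y x57f x20f
  have x459t : α 459 = true := tt fun y => l3594 h y x70t x188t x379f x272f x158f
  have x264f : α 264 = false := ff fun y => l3847 h y x188t x113t x379f x23f x236f x200t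
  have x71t : α 71 = true := tt fun y => l3848 h y x264f x459t x20f x189f x236f x59t x346t
  have x157f : α 157 = false := ff fun y => c1503 h x71t x161t x59t y
  have x80f : α 80 = false := ff fun y => c1700 h y x71t x161t
  have x10t : α 10 = true := tt fun y => c198 h x239f x80f y
  have x28f : α 28 = false := ff fun y => l3618 h x10t y
  have x485f : α 485 = false := ff fun y => l3757 h y x10t x459t x28f x264f x346t
  have x120t : α 120 = true := tt fun y => c2457 h x485f x272f y
  have x108f : α 108 = false := ff fun y => l3685 h y x120t
  have x24f : α 24 = false := ff fun y => l3630 h y x120t x54t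
  have x89t : α 89 = true := tt fun y => c519 h x20f y x28f x108f
  have x337t : α 337 = true := tt fun y => c869 h x264f y x28f x108f
  have x16t : α 16 = true := tt fun y => c322 h x24f y x108f
  have x192f : α 192 = false := ff fun y => c1949 h x337t y x89t
  have x276f : α 276 = false := ff fun y => c352 h x16t x89t y
  c1565 h x192f x276f x61f x157f

theorem l3850 (h : Good α) (x1f : α 1 = false) (x92t : α 92 = true) (x306t : α 306 = true) (x346t : α 346 = true) (x249t : α 249 = true) : False :=
  have x58t : α 58 = true := tt fun y => l3776 h y x306t x249t x346t
  have x61f : α 61 = false := ff fun y => l3793 h y x92t x306t x346t x249t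
  have x57f : α 57 = false := ff fun y => l3811 h y x61f x92t x58t x249t
  have x54t : α 54 = true := tt fun y => l3795 h y x61f x92t x58t x249t
  have x197f : α 197 = false := ff fun y => l3796 h y x54t
  have x91f : α 91 = false := ff fun y => l3615 h y x58t x61f x197f
  have x52f : α 52 = false := ff fun y => l3640 h x54t y
  have x59t : α 59 = true := tt fun y => l3669 h y x61f
  have x313f : α 313 = false := ff fun y => l3674 h x59t y
  have x325t : α 325 = true := tt fun y => l3677 h x61f y
  have x272f : α 272 = false := ff fun y => l3740 h y x346t
  have x106f : α 106 = false := ff fun y => l3809 h y x306t x272f x249t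
  have x36f : α 36 = false := ff fun y => l3639 h y x346t
  have x53t : α 53 = true := tt fun y => c20 h y x1f x52f
  have x200t : α 200 = true := tt fun y => c67 h y x57f x1f
  have x56f : α 56 = false := ff fun y => l3649 h x53t y
  have x199t : α 199 = true := tt fun y => c59 h y x56f x1f
  have x323f : α 323 = false := ff fun y => l3728 h x199t y
  have x97t : α 97 = true := tt fun y => l3844 h y x1f x57f x54t x61f x92t x106f x58t x306t x346t
  have x237f : α 237 = false := ff fun y => c2047 h x249t x92t y x97t
  have x236f : α 236 = false := ff fun y => c1466 h x200t y x58t x97t
  have x351t : α 351 = true := tt fun y => c2887 h x197f x237f y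
  have x114t : α 114 = true := tt fun y => l3588 h y x237f x58t x91f
  have x353t : α 353 = true := tt fun y => c1575 h y x236f x197f x61f
  have x158f : α 158 = false := ff fun y => l3694 h x114t y
  have x23f : α 23 = false := ff fun y => l3628 h y x114t x53t
  have x239f : α 239 = false := ff fun y => c2914 h x353t y x200t
  have x201f : α 201 = false := ff fun y => c2906 h x353t x200t x351t y
  have x379f : α 379 = false := ff fun y => l3463 h y x200t x239f x53t
  have x242t : α 242 = true := tt fun y => c99 h x1f x61f x201f y
  have x189f : α 189 = false := ff fun y => l3845 h y x97t x56f x58t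
  have x113t : α 113 = true := tt fun y => l3846 h y x242t x201f x57f x92t
  have x180f : α 180 = false := ff fun y => l3599 h y x379f x242t x23f x201f x113t x56f
  have x70t : α 70 = true := tt fun y => l3662 h y x180f x56f
  have x20t : α 20 = true := tt fun y => l3849 h y x70t x113t x189f x379f x23f x158f x236f x200t x57f x54t x61f x346t
  have x71f : α 71 = false := ff fun y => c537 h y x20t x59t
  have x326f : α 326 = false := ff fun y => c544 h x306t x20t y x59t
  have x264f : α 264 = false := ff fun y => c556 h y x92t x20t
  have x28f : α 28 = false := ff fun y => c522 h x92t x20t y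
  have x89f : α 89 = false := ff fun y => l3819 h y x20t x59t
  have x10t : α 10 = true := tt fun y => c195 h x236f x71f y
  have x452t : α 452 = true := tt fun y => c1724 h y x236f x71f
  have x499t : α 499 = true := tt fun y => l3612 h y x346t x326f x197f x323f
  have x188t : α 188 = true := tt fun y => l3664 h y x264f x56f
  have x459t : α 459 = true := tt fun y => l3594 h y x70t x188t x379f x272f x158f
  have x485f : α 485 = false := ff fun y => l3757 h y x10t x459t x28f x264f x346t
  have x120t : α 120 = true := tt fun y => c2457 h x485f x272f y
  have x108f : α 108 = false := ff fun y => l3685 h y x120t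
  have x337t : α 337 = true := tt fun y => c869 h x264f y x28f x108f
  have x192t : α 192 = true := tt fun y => c1943 h y x89f x108f
  have x116f : α 116 = false := ff fun y => c2052 h y x92t x192t
  have x554f : α 554 = false := ff fun y => c2856 h y x337t x192t
  have x422t : α 422 = true := tt fun y => c2413 h y x236f x116f
  have x494t : α 494 = true := tt fun y => c872 h y x554f x28f x108f
  have x262f : α 262 = false := ff fun y => c2852 h x422t y x192t
  have x398f : α 398 = false := ff fun y => c2897 h y x494t x199t x325t
  have x104t : α 104 = true := tt fun y => c1708 h x236f x262f x71f y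
  have x559t : α 559 = true := tt fun y => c3216 h y x398f x272f
  have x14f : α 14 = false := ff fun y => c238 h x104t x20t y
  have x21f : α 21 = false := ff fun y => c608 h x559t x92t x499t y
  have x101t : α 101 = true := tt fun y => l3625 h x21f y x61f
  have x190t : α 190 = true := tt fun y => c600 h x21f x61f y
  have x290t : α 290 = true := tt fun y => c602 h x21f x61f y x313f
  have x102t : α 102 = true := tt fun y => c243 h x21f x14f y
  have x267f : α 267 = false := ff fun y => l3683 h x102t y
  have x40t : α 40 = true := tt fun y => c1099 h y x108f x267f
  have x286f : α 286 = false := ff fun y => c1092 h y x40t x346t x102t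
  have x482f : α 482 = false := ff fun y => c187 h x452t y x10t x40t
  have x256t : α 256 = true := tt fun y => c1043 h x286f x482f x36f y
  have x411f : α 411 = false := ff fun y => c2234 h x101t x256t x290t y
  have x186f : α 186 = false := ff fun y => c2790 h x256t x190t y
  c2793 h x186f x267f x411f

theorem l3851 (h : Good α) (x92t : α 92 = true) (x306t : α 306 = true) (x346t : α 346 = true) (x249t : α 249 = true) : False :=
  have x272f : α 272 = false := ff fun y => l3740 h y x346t
  have x106f : α 106 = false := ff fun y => l3809 h y x306t x272f x249t
  have x449f : α 449 = false := ff fun y => l3810 h y x106f x306t x249t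
  have x58t : α 58 = true := tt fun y => l3776 h y x306t x249t x346t
  have x61f : α 61 = false := ff fun y => l3793 h y x92t x306t x346t x249t
  have x59t : α 59 = true := tt fun y => l3669 h y x61f
  have x54t : α 54 = true := tt fun y => l3795 h y x61f x92t x58t x249t
  have x197f : α 197 = false := ff fun y => l3796 h y x54t
  have x91f : α 91 = false := ff fun y => l3615 h y x58t x61f x197f
  have x1t : α 1 = true := tt fun y => l3850 h y x92t x306t x346t x249t
  have x543f : α 543 = false := ff fun y => l3582 h y x1t x61f
  have x56f : α 56 = false := ff fun y => c57 h y x1t x59t
  have x402t : α 402 = true := tt fun y => l3808 h x1t y x92t x306t x346t x249t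
  have x53t : α 53 = true := tt fun y => l3648 h y x56f
  have x443f : α 443 = false := ff fun y => c84 h x402t x1t y x58t
  have x196f : α 196 = false := ff fun y => c32 h y x53t x1t
  have x233t : α 233 = true := tt fun y => c2018 h x443f x91f x543f y
  have x94t : α 94 = true := tt fun y => c1984 h x449f y x443f x91f
  have x204t : α 204 = true := tt fun y => l3702 h x196f y
  l3606 h x54t x233t x94t x204t x1t

theorem l3852 (h : Good α) (x1t : α 1 = true) (x56f : α 56 = false) (x61f : α 61 = false) (x92f : α 92 = false) (x449f : α 449 = false) (x58t : α 58 = true) : False :=
  have x97t : α 97 = true := tt fun y => c1544 h x92f x61f y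
  have x236t : α 236 = true := tt fun y => c1548 h y x92f x61f
  have x200f : α 200 = false := ff fun y => c1466 h y x236t x58t x97t
  have x386t : α 386 = true := tt fun y => l3501 h y x236t x200f x56f
  have x53t : α 53 = true := tt fun y => l3648 h y x56f
  have x91f : α 91 = false := ff fun y => c1457 h y x58t x97t
  have x402t : α 402 = true := tt fun y => c1550 h x449f x92f y x61f
  have x543f : α 543 = false := ff fun y => l3582 h y x1t x61f
  have x201f : α 201 = false := ff fun y => c80 h x1t x58t y
  have x57f : α 57 = false := ff fun y => c62 h y x1t x58t
  have x443f : α 443 = false := ff fun y => c84 h x402t x1t y x58t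
  have x196f : α 196 = false := ff fun y => c32 h y x53t x1t
  have x242t : α 242 = true := tt fun y => c1413 h x57f x92f x201f y
  have x94t : α 94 = true := tt fun y => c1409 h y x57f x92f
  have x238t : α 238 = true := tt fun y => c1415 h x57f x92f y
  have x237t : α 237 = true := tt fun y => c2024 h x443f y x91f
  have x233t : α 233 = true := tt fun y => c2018 h x443f x91f x543f y
  have x204t : α 204 = true := tt fun y => l3702 h x196f y
  have x352f : α 352 = false := ff fun y => c2939 h y x238t x204t
  have x54f : α 54 = false := ff fun y => c1321 h x94t x238t y x204t
  have x379f : α 379 = false := ff fun y => l3418 h y x386t x238t x57f x53t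
  have x576f : α 576 = false := ff fun y => l3413 h y x233t x242t x201f
  have x239f : α 239 = false := ff fun y => c2991 h y x236t x233t x242t
  have x354t : α 354 = true := tt fun y => c2907 h x200f x352f x201f y
  have x80t : α 80 = true := tt fun y => c1825 h x379f x200f y
  have x548f : α 548 = false := ff fun y => c3083 h x242t x354t y
  have x450t : α 450 = true := tt fun y => l3427 h y x80t x576f x548f x449f x92f x237t x233t x54f x58t x1t x61f
  have x409f : α 409 = false := ff fun y => c86 h x1t y x58t x450t
  have x544f : α 544 = false := ff fun y => c2189 h x236t y x97t x450t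
  c1352 h x239f x544f x54f x409f

theorem l3853 (h : Good α) (x1f : α 1 = false) (x61f : α 61 = false) (x92f : α 92 = false) (x449f : α 449 = false) (x58t : α 58 = true) (x249t : α 249 = true) : False :=
  have x97t : α 97 = true := tt fun y => c1544 h x92f x61f y
  have x236t : α 236 = true := tt fun y => c1548 h y x92f x61f
  have x200f : α 200 = false := ff fun y => c1466 h y x236t x58t x97t
  have x250f : α 250 = false := ff fun y => c1469 h x58t x97t y
  have x91f : α 91 = false := ff fun y => c1457 h y x58t x97t
  have x402t : α 402 = true := tt fun y => c1550 h x449f x92f y x61f
  have x204t : α 204 = true := tt fun y => c101 h x1f x61f y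
  have x54t : α 54 = true := tt fun y => c39 h y x1f x61f
  have x57t : α 57 = true := tt fun y => c63 h y x92f x1f x61f
  have x197f : α 197 = false := ff fun y => l3796 h y x54t
  have x237f : α 237 = false := ff fun y => c1402 h x249t x57t y x58t
  have x94f : α 94 = false := ff fun y => c1423 h x249t y x57t
  have x351t : α 351 = true := tt fun y => c2887 h x197f x237f y
  have x443t : α 443 = true := tt fun y => c2024 h y x237f x91f
  have x238t : α 238 = true := tt fun y => c1982 h x94f y x91f x250f
  have x201f : α 201 = false := ff fun y => c1444 h x249t x57t x351t y
  have x543f : α 543 = false := ff fun y => c3347 h x402t x443t y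
  have x352f : α 352 = false := ff fun y => c2939 h y x238t x204t
  have x233t : α 233 = true := tt fun y => c2123 h x449f x94f x543f y
  have x354t : α 354 = true := tt fun y => c2907 h x200f x352f x201f y
  c1347 h x54t x204t x233t x354t

theorem l3854 (h : Good α) (x61f : α 61 = false) (x92f : α 92 = false) (x449f : α 449 = false) (x58t : α 58 = true) (x249t : α 249 = true) : False :=
  have x59t : α 59 = true := tt fun y => l3669 h y x61f
  have x1t : α 1 = true := tt fun y => l3853 h y x61f x92f x449f x58t x249t
  have x56f : α 56 = false := ff fun y => c57 h y x1t x59t
  l3852 h x1t x56f x61f x92f x449f x58t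

theorem l3855 (h : Good α) (x71f : α 71 = false) (x260f : α 260 = false) (x28f : α 28 = false) (x80f : α 80 = false) (x264f : α 264 = false) (x459t : α 459 = true) (x236f : α 236 = false) (x328t : α 328 = true) (x59f : α 59 = false) (x346t : α 346 = true) : False :=
  have x272f : α 272 = false := ff fun y => l3740 h y x346t
  have x52t : α 52 = true := tt fun y => c1225 h x80f x71f y x59f
  have x10t : α 10 = true := tt fun y => c195 h x236f x71f y
  have x485f : α 485 = false := ff fun y => l3757 h y x10t x459t x28f x264f x346t
  have x120t : α 120 = true := tt fun y => c2457 h x485f x272f y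
  have x108f : α 108 = false := ff fun y => l3685 h y x120t
  have x16f : α 16 = false := ff fun y => l3622 h x120t y x52t
  have x308f : α 308 = false := ff fun y => l3701 h y x328t x120t
  have x181t : α 181 = true := tt fun y => c355 h x16f x108f y x260f
  have x425t : α 425 = true := tt fun y => c2318 h x308f x108f y x260f
  c1252 h x328t x52t x425t x181t

theorem l3856 (h : Good α) (x108f : α 108 = false) (x28f : α 28 = false) (x236f : α 236 = false) (x97f : α 97 = false) (x61t : α 61 = true) (x92f : α 92 = false) : False :=
  have x192t : α 192 = true := tt fun y => c857 h x92f y x28f x108f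
  have x282t : α 282 = true := tt fun y => c870 h x28f x108f y
  have x44t : α 44 = true := tt fun y => c843 h y x28f x108f
  have x382f : α 382 = false := ff fun y => c1574 h y x192t x61t
  have x262t : α 262 = true := tt fun y => c3019 h x236f y x382f
  have x422f : α 422 = false := ff fun y => c2852 h y x262t x192t
  have x190f : α 190 = false := ff fun y => c2830 h x262t x192t y
  have x116t : α 116 = true := tt fun y => c2413 h x422f x236f y
  have x343t : α 343 = true := tt fun y => c2184 h y x190f x97f
  c1130 h x116t x343t x44t x282t

theorem l3857 (h : Good α) (x379f : α 379 = false) (x19f : α 19 = false) (x239t : α 239 = true) (x91f : α 91 = false) (x236f : α 236 = false) (x326f : α 326 = false) (x328t : α 328 = true) (x97f : α 97 = false) (x61t : α 61 = true) (x92f : α 92 = false) (x58t : α 58 = true) (x306t : α 306 = true) (x346t : α 346 = true) : False :=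
  have x53f : α 53 = false := ff fun y => l3778 h y x61t
  have x56t : α 56 = true := tt fun y => l3648 h x53f y
  have x327f : α 327 = false := ff fun y => l3667 h x56t y
  have x59f : α 59 = false := ff fun y => l3670 h y x61t
  have x272f : α 272 = false := ff fun y => l3740 h y x346t
  have x184t : α 184 = true := tt fun y => c1294 h x379f y x53f
  have x577t : α 577 = true := tt fun y => c3024 h y x379f x236f
  have x386f : α 386 = false := ff fun y => c3068 h x577t y x239t
  have x23t : α 23 = true := tt fun y => c462 h x386f x379f x19f y
  have x183f : α 183 = false := ff fun y => c696 h x23t x58t y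
  have x264f : α 264 = false := ff fun y => l3768 h x184t y x23t x327f x272f
  have x340t : α 340 = true := tt fun y => c2006 h x91f x183f y
  have x20t : α 20 = true := tt fun y => c555 h x264f x92f y
  have x28f : α 28 = false := ff fun y => l3636 h y x340t
  have x108t : α 108 = true := tt fun y => l3856 h y x28f x236f x97f x61t x92f
  have x120f : α 120 = false := ff fun y => l3685 h x108t y
  have x308f : α 308 = false := ff fun y => l3689 h y x108t x328t
  have x485t : α 485 = true := tt fun y => c2457 h y x272f x120f
  have x24t : α 24 = true := tt fun y => c758 h x308f x120f y
  have x275f : α 275 = false := ff fun y => c3230 h x485t x346t y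
  have x16f : α 16 = false := ff fun y => l3497 h y x24t x275f x340t
  have x425t : α 425 = true := tt fun y => c2460 h x308f x120f y x275f
  have x181t : α 181 = true := tt fun y => c360 h x120f x16f x275f y
  have x52f : α 52 = false := ff fun y => c1252 h x328t y x425t x181t
  have x189t : α 189 = true := tt fun y => c1228 h x52f x59f x183f y
  have x423t : α 423 = true := tt fun y => c1255 h x326f x52f y x183f
  c576 h x306t x20t x423t x189t

theorem l3858 (h : Good α) (x28f : α 28 = false) (x80f : α 80 = false) (x379t : α 379 = true) (x257t : α 257 = true) (x236f : α 236 = false) (x328t : α 328 = true) (x97f : α 97 = false) (x61t : α 61 = true) (x92f : α 92 = false) (x346t : α 346 = true) : False :=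
  have x53f : α 53 = false := ff fun y => l3778 h y x61t
  have x56t : α 56 = true := tt fun y => l3648 h x53f y
  have x327f : α 327 = false := ff fun y => l3667 h x56t y
  have x59f : α 59 = false := ff fun y => l3670 h y x61t
  have x272f : α 272 = false := ff fun y => l3740 h y x346t
  have x20t : α 20 = true := tt fun y => c521 h x92f y x28f
  have x108t : α 108 = true := tt fun y => l3856 h y x28f x236f x97f x61t x92f
  have x120f : α 120 = false := ff fun y => l3685 h x108t y
  have x308f : α 308 = false := ff fun y => l3689 h y x108t x328t
  have x485t : α 485 = true := tt fun y => c2457 h y x272f x120f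
  have x24t : α 24 = true := tt fun y => c758 h x308f x120f y
  have x275f : α 275 = false := ff fun y => c3230 h x485t x346t y
  have x16f : α 16 = false := ff fun y => c323 h x24t y x108t
  have x425t : α 425 = true := tt fun y => c2460 h x308f x120f y x275f
  have x181t : α 181 = true := tt fun y => c360 h x120f x16f x275f y
  have x52f : α 52 = false := ff fun y => c1252 h x328t y x425t x181t
  have x157t : α 157 = true := tt fun y => c1227 h x52f x59f y
  have x146t : α 146 = true := tt fun y => c1226 h y x52f x59f
  have x22t : α 22 = true := tt fun y => c634 h x80f y x52f
  have x273f : α 273 = false := ff fun y => c2544 h x146t x157t x257t y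
  have x117f : α 117 = false := ff fun y => c515 h x22t x20t y
  have x23t : α 23 = true := tt fun y => c706 h y x97f x273f
  have x184t : α 184 = true := tt fun y => c2056 h y x92f x117f
  have x264f : α 264 = false := ff fun y => l3768 h x184t y x23t x327f x272f
  l3767 h x264f x379t x23t

theorem l3859 (h : Good α) (x91f : α 91 = false) (x236f : α 236 = false) (x200t : α 200 = true) (x353f : α 353 = false) (x237f : α 237 = false) (x326f : α 326 = false) (x328t : α 328 = true) (x97f : α 97 = false) (x61t : α 61 = true) (x92f : α 92 = false) (x58t : α 58 = true) (x306t : α 306 = true) (x346t : α 346 = true) : False :=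
  have x53f : α 53 = false := ff fun y => l3778 h y x61t
  have x56t : α 56 = true := tt fun y => l3648 h x53f y
  have x114t : α 114 = true := tt fun y => l3588 h y x237f x58t x91f
  have x239t : α 239 = true := tt fun y => c2021 h x353f y x237f x91f
  have x19f : α 19 = false := ff fun y => l3624 h x114t y x56t
  have x257t : α 257 = true := tt fun y => c493 h x19f x91f y
  have x379t : α 379 = true := tt fun y => l3857 h y x19f x239t x91f x236f x326f x328t x97f x61t x92f x58t x306t x346t
  have x80f : α 80 = false := ff fun y => c1826 h x379t x200t y
  have x28t : α 28 = true := tt fun y => l3858 h y x80f x379t x257t x236f x328t x97f x61t x92f x346t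
  have x340f : α 340 = false := ff fun y => l3636 h x28t y
  have x183t : α 183 = true := tt fun y => c2006 h x91f y x340f
  have x189t : α 189 = true := tt fun y => c2182 h x97f y x340f
  c2749 h x257t x183t x189t

theorem l3860 (h : Good α) (x10f : α 10 = false) (x239f : α 239 = false) (x236f : α 236 = false) (x200t : α 200 = true) : False :=
  have x80t : α 80 = true := tt fun y => c198 h x239f y x10f
  have x71t : α 71 = true := tt fun y => c195 h x236f y x10f
  have x379f : α 379 = false := ff fun y => c1826 h y x200t x80t
  have x161f : α 161 = false := ff fun y => c1700 h x80t x71t y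
  c2676 h x379f x236f x161f

theorem l3861 (h : Good α) (x1t : α 1 = true) (x306t : α 306 = true) (x346t : α 346 = true) (x249t : α 249 = true) : False :=
  have x58t : α 58 = true := tt fun y => l3776 h y x306t x249t x346t
  have x272f : α 272 = false := ff fun y => l3740 h y x346t
  have x106f : α 106 = false := ff fun y => l3809 h y x306t x272f x249t
  have x449f : α 449 = false := ff fun y => l3810 h y x106f x306t x249t
  have x92f : α 92 = false := ff fun y => l3851 h y x306t x346t x249t
  have x61t : α 61 = true := tt fun y => l3854 h y x92f x449f x58t x249t
  have x53f : α 53 = false := ff fun y => l3778 h y x61t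
  have x56t : α 56 = true := tt fun y => l3648 h x53f y
  have x327f : α 327 = false := ff fun y => l3667 h x56t y
  have x54f : α 54 = false := ff fun y => c40 h y x1t x61t
  have x201f : α 201 = false := ff fun y => c80 h x1t x58t y
  have x57f : α 57 = false := ff fun y => c62 h y x1t x58t
  have x97f : α 97 = false := ff fun y => c76 h x1t x61t x58t y
  have x242t : α 242 = true := tt fun y => c1413 h x57f x92f x201f y
  have x94t : α 94 = true := tt fun y => c1409 h y x57f x92f
  have x443t : α 443 = true := tt fun y => c2048 h x449f x92f y x97f
  have x402f : α 402 = false := ff fun y => c84 h y x1t x443t x58t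
  have x197t : α 197 = true := tt fun y => c1342 h x402f y x54f
  have x328t : α 328 = true := tt fun y => c3263 h y x327f x402f
  have x547t : α 547 = true := tt fun y => c3348 h y x449f x402f
  have x326f : α 326 = false := ff fun y => l3726 h x197t y
  have x237f : α 237 = false := ff fun y => c78 h x197t x1t y x58t
  have x353f : α 353 = false := ff fun y => c2890 h y x249t x197t
  have x351f : α 351 = false := ff fun y => c1578 h x197t x61t y x242t
  have x200t : α 200 = true := tt fun y => c2905 h x353f y x351f x201f
  have x236f : α 236 = false := ff fun y => c98 h x200t y x1t x61t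
  have x91t : α 91 = true := tt fun y => l3859 h y x236f x200t x353f x237f x326f x328t x97f x61t x92f x58t x306t x346t
  have x239f : α 239 = false := ff fun y => c2029 h x547t y x443t x91t
  have x10t : α 10 = true := tt fun y => l3860 h y x239f x236f x200t
  have x28f : α 28 = false := ff fun y => l3618 h x10t y
  have x20t : α 20 = true := tt fun y => c521 h x92f y x28f
  have x108t : α 108 = true := tt fun y => l3856 h y x28f x236f x97f x61t x92f
  have x120f : α 120 = false := ff fun y => l3685 h x108t y
  have x308f : α 308 = false := ff fun y => l3689 h y x108t x328t
  have x485t : α 485 = true := tt fun y => c2457 h y x272f x120f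
  have x24t : α 24 = true := tt fun y => c758 h x308f x120f y
  have x275f : α 275 = false := ff fun y => c3230 h x485t x346t y
  have x271f : α 271 = false := ff fun y => c748 h y x94t x24t
  have x16f : α 16 = false := ff fun y => c323 h x24t y x108t
  have x425t : α 425 = true := tt fun y => c2460 h x308f x120f y x275f
  have x300t : α 300 = true := tt fun y => c3060 h y x239f x271f
  have x393t : α 393 = true := tt fun y => c3061 h x239f x271f y
  have x181t : α 181 = true := tt fun y => c360 h x120f x16f x275f y
  have x107f : α 107 = false := ff fun y => c751 h x300t y x24t
  have x52f : α 52 = false := ff fun y => c1252 h x328t y x425t x181t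
  have x63t : α 63 = true := tt fun y => c1606 h x239f x107f y
  have x68t : α 68 = true := tt fun y => c342 h y x16f x52f
  have x191f : α 191 = false := ff fun y => c1599 h x63t x68t y x181t
  have x187t : α 187 = true := tt fun y => c2795 h x271f y x191f
  have x90f : α 90 = false := ff fun y => c1973 h x346t x187t y
  have x251t : α 251 = true := tt fun y => c1237 h y x90f x52f
  have x134f : α 134 = false := ff fun y => c2512 h x300t y x393t x251t
  have x29t : α 29 = true := tt fun y => c336 h x134f y x16f
  have x80f : α 80 = false := ff fun y => c888 h y x29t x68t
  have x459t : α 459 = true := tt fun y => c1829 h y x239f x80f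
  have x22t : α 22 = true := tt fun y => c634 h x80f y x52f
  have x264t : α 264 = true := tt fun y => l3757 h x485t x10t x459t x28f y x346t
  have x117f : α 117 = false := ff fun y => c515 h x22t x20t y
  have x184t : α 184 = true := tt fun y => c2056 h y x92f x117f
  have x188f : α 188 = false := ff fun y => c2766 h y x184t x264t
  have x23f : α 23 = false := ff fun y => l3768 h x184t x264t y x327f x272f
  have x429t : α 429 = true := tt fun y => c2816 h y x272f x188f
  have x113t : α 113 = true := tt fun y => l3627 h x23f y x53f
  have x298t : α 298 = true := tt fun y => c690 h x327f x53f y x23f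
  c2374 h x429t x264t x298t x113t

theorem l3862 (h : Good α) (x264t : α 264 = true) (x238t : α 238 = true) (x57f : α 57 = false) (x53f : α 53 = false) (x272f : α 272 = false) : False :=
  have x56t : α 56 = true := tt fun y => l3648 h x53f y
  have x327f : α 327 = false := ff fun y => l3667 h x56t y
  have x383f : α 383 = false := ff fun y => c3055 h y x264t x238t
  have x184t : α 184 = true := tt fun y => c1432 h x383f y x57f
  have x188f : α 188 = false := ff fun y => c2766 h y x184t x264t
  have x23f : α 23 = false := ff fun y => l3768 h x184t x264t y x327f x272f
  have x429t : α 429 = true := tt fun y => c2816 h y x272f x188f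
  have x113t : α 113 = true := tt fun y => l3627 h x23f y x53f
  have x298t : α 298 = true := tt fun y => c690 h x327f x53f y x23f
  c2374 h x429t x264t x298t x113t

theorem l3863 (h : Good α) (x239f : α 239 = false) (x28f : α 28 = false) (x236f : α 236 = false) (x200t : α 200 = true) (x306t : α 306 = true) (x346t : α 346 = true) (x249t : α 249 = true) : False :=
  have x1f : α 1 = false := ff fun y => l3861 h y x306t x346t x249t
  have x58t : α 58 = true := tt fun y => l3776 h y x306t x249t x346t
  have x272f : α 272 = false := ff fun y => l3740 h y x346t
  have x106f : α 106 = false := ff fun y => l3809 h y x306t x272f x249t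
  have x449f : α 449 = false := ff fun y => l3810 h y x106f x306t x249t
  have x92f : α 92 = false := ff fun y => l3851 h y x306t x346t x249t
  have x61t : α 61 = true := tt fun y => l3854 h y x92f x449f x58t x249t
  have x53f : α 53 = false := ff fun y => l3778 h y x61t
  have x52t : α 52 = true := tt fun y => c20 h x53f x1f y
  have x54f : α 54 = false := ff fun y => l3640 h y x52t
  have x197t : α 197 = true := tt fun y => c41 h y x54f x1f
  have x353f : α 353 = false := ff fun y => c2890 h y x249t x197t
  have x237f : α 237 = false := ff fun y => c2886 h x249t x197t y
  have x94t : α 94 = true := tt fun y => c1322 h x239f y x54f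
  have x91t : α 91 = true := tt fun y => c2021 h x353f x239f x237f y
  have x10t : α 10 = true := tt fun y => l3860 h y x239f x236f x200t
  have x57f : α 57 = false := ff fun y => c1423 h x249t x94t y
  have x97f : α 97 = false := ff fun y => c1457 h x91t x58t y
  have x238t : α 238 = true := tt fun y => c1415 h x57f x92f y
  have x108t : α 108 = true := tt fun y => l3856 h y x28f x236f x97f x61t x92f
  have x120f : α 120 = false := ff fun y => l3685 h x108t y
  have x167f : α 167 = false := ff fun y => l3686 h x108t y
  have x16f : α 16 = false := ff fun y => l3621 h x108t y x52t
  have x485t : α 485 = true := tt fun y => c2457 h y x272f x120f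
  have x24t : α 24 = true := tt fun y => c324 h x120f y x16f
  have x275f : α 275 = false := ff fun y => c3230 h x485t x346t y
  have x271f : α 271 = false := ff fun y => c748 h y x94t x24t
  have x181t : α 181 = true := tt fun y => c360 h x120f x16f x275f y
  have x300t : α 300 = true := tt fun y => c3060 h y x239f x271f
  have x384f : α 384 = false := ff fun y => c1254 h x52t x181t y
  have x107f : α 107 = false := ff fun y => c751 h x300t y x24t
  have x467t : α 467 = true := tt fun y => c361 h x120f x16f y x384f
  have x63t : α 63 = true := tt fun y => c1606 h x239f x107f y
  have x454f : α 454 = false := ff fun y => l3716 h y x467t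
  have x68t : α 68 = true := tt fun y => c1663 h y x167f x384f x454f
  have x191f : α 191 = false := ff fun y => c1599 h x63t x68t y x181t
  have x187t : α 187 = true := tt fun y => c2795 h x271f y x191f
  have x90f : α 90 = false := ff fun y => c1973 h x346t x187t y
  have x264f : α 264 = false := ff fun y => l3862 h y x238t x57f x53f x272f
  have x459f : α 459 = false := ff fun y => l3757 h x485t x10t y x28f x264f x346t
  have x80t : α 80 = true := tt fun y => c1829 h x459f x239f y
  have x22f : α 22 = false := ff fun y => c635 h x80t y x52t
  have x29f : α 29 = false := ff fun y => c888 h x80t y x68t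
  c626 h x29f x22f x90f

theorem l3864 (h : Good α) (x459f : α 459 = false) (x188t : α 188 = true) (x264f : α 264 = false) (x158f : α 158 = false) (x53f : α 53 = false) : False :=
  have x56t : α 56 = true := tt fun y => l3648 h x53f y
  have x386f : α 386 = false := ff fun y => c1395 h y x188t x56t
  have x184t : α 184 = true := tt fun y => l3652 h y x264f x53f
  have x379t : α 379 = true := tt fun y => c3329 h x459f x386f y
  have x70t : α 70 = true := tt fun y => c1689 h x459f x386f x158f y
  have x23f : α 23 = false := ff fun y => l3767 h x264f x379t y
  have x81f : α 81 = false := ff fun y => c1682 h x188t x184t x70t y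
  c684 h x53f x23f x81f

theorem l3865 (h : Good α) (x28f : α 28 = false) (x236f : α 236 = false) (x200t : α 200 = true) (x306t : α 306 = true) (x346t : α 346 = true) (x249t : α 249 = true) : False :=
  have x1f : α 1 = false := ff fun y => l3861 h y x306t x346t x249t
  have x58t : α 58 = true := tt fun y => l3776 h y x306t x249t x346t
  have x272f : α 272 = false := ff fun y => l3740 h y x346t
  have x106f : α 106 = false := ff fun y => l3809 h y x306t x272f x249t
  have x449f : α 449 = false := ff fun y => l3810 h y x106f x306t x249t
  have x92f : α 92 = false := ff fun y => l3851 h y x306t x346t x249t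
  have x61t : α 61 = true := tt fun y => l3854 h y x92f x449f x58t x249t
  have x53f : α 53 = false := ff fun y => l3778 h y x61t
  have x52t : α 52 = true := tt fun y => c20 h x53f x1f y
  have x54f : α 54 = false := ff fun y => l3640 h y x52t
  have x197t : α 197 = true := tt fun y => c41 h y x54f x1f
  have x237f : α 237 = false := ff fun y => c2886 h x249t x197t y
  have x56t : α 56 = true := tt fun y => l3648 h x53f y
  have x36f : α 36 = false := ff fun y => l3639 h y x346t
  have x20t : α 20 = true := tt fun y => c521 h x92f y x28f
  have x239t : α 239 = true := tt fun y => l3863 h y x28f x236f x200t x306t x346t x249t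
  have x91f : α 91 = false := ff fun y => c1459 h x239t x200t y x58t
  have x233t : α 233 = true := tt fun y => c1314 h x54f x91f y
  have x94t : α 94 = true := tt fun y => c1309 h y x54f x91f
  have x114t : α 114 = true := tt fun y => l3588 h y x237f x58t x91f
  have x201f : α 201 = false := ff fun y => c2902 h x239t x200t x233t y
  have x57f : α 57 = false := ff fun y => c1423 h x249t x94t y
  have x158f : α 158 = false := ff fun y => l3694 h x114t y
  have x19f : α 19 = false := ff fun y => l3624 h x114t y x56t
  have x242t : α 242 = true := tt fun y => c1413 h x57f x92f x201f y
  have x238t : α 238 = true := tt fun y => c1415 h x57f x92f y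
  have x97f : α 97 = false := ff fun y => c1557 h x61t y x242t
  have x576f : α 576 = false := ff fun y => l3413 h y x233t x242t x201f
  have x264f : α 264 = false := ff fun y => l3862 h y x238t x57f x53f x272f
  have x108t : α 108 = true := tt fun y => l3856 h y x28f x236f x97f x61t x92f
  have x113t : α 113 = true := tt fun y => l3691 h y x264f
  have x184t : α 184 = true := tt fun y => l3652 h y x264f x53f
  have x120f : α 120 = false := ff fun y => l3685 h x108t y
  have x167f : α 167 = false := ff fun y => l3686 h x108t y
  have x260f : α 260 = false := ff fun y => l3687 h x108t y
  have x16f : α 16 = false := ff fun y => l3621 h x108t y x52t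
  have x41t : α 41 = true := tt fun y => c1114 h x272f x120f y
  have x485t : α 485 = true := tt fun y => c2457 h y x272f x120f
  have x46t : α 46 = true := tt fun y => c1019 h x120f x36f y
  have x286t : α 286 = true := tt fun y => c1038 h y x120f x36f
  have x24t : α 24 = true := tt fun y => c324 h x120f y x16f
  have x275f : α 275 = false := ff fun y => c3230 h x485t x346t y
  have x30f : α 30 = false := ff fun y => c726 h x94t x24t y
  have x181t : α 181 = true := tt fun y => c360 h x120f x16f x275f y
  have x18t : α 18 = true := tt fun y => c413 h x30f y x91f
  have x384f : α 384 = false := ff fun y => c1254 h x52t x181t y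
  have x107f : α 107 = false := ff fun y => c407 h y x24t x18t
  have x115f : α 115 = false := ff fun y => c409 h x24t x18t y
  have x467t : α 467 = true := tt fun y => c361 h x120f x16f y x384f
  have x191t : α 191 = true := tt fun y => c1998 h y x91f x115f
  have x35t : α 35 = true := tt fun y => c469 h x19f y x91f x115f
  have x454f : α 454 = false := ff fun y => l3716 h y x467t
  have x269f : α 269 = false := ff fun y => c1000 h x286t y x46t x35t
  have x119f : α 119 = false := ff fun y => c999 h x46t x35t y
  have x381t : α 381 = true := tt fun y => c3330 h y x384f x454f
  have x68t : α 68 = true := tt fun y => c1663 h y x167f x384f x454f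
  have x478t : α 478 = true := tt fun y => c3384 h x454f y x576f
  have x259f : α 259 = false := ff fun y => c2998 h x381t y x233t
  have x63f : α 63 = false := ff fun y => c1599 h y x68t x191t x181t
  have x75t : α 75 = true := tt fun y => c912 h x63f x30f y
  have x235t : α 235 = true := tt fun y => c1605 h x269f y x107f x63f
  have x88f : α 88 = false := ff fun y => c1378 h x235t y x56t
  have x182t : α 182 = true := tt fun y => c1926 h x120f x88f y
  have x15t : α 15 = true := tt fun y => c290 h x120f x88f x36f y
  have x185f : α 185 = false := ff fun y => c298 h y x56t x15t
  have x188t : α 188 = true := tt fun y => c2777 h x269f y x185f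
  have x459t : α 459 = true := tt fun y => l3864 h y x188t x264f x158f x53f
  have x10f : α 10 = false := ff fun y => l3757 h x485t y x459t x28f x264f x346t
  have x40t : α 40 = true := tt fun y => c183 h x10f y x167f
  have x382t : α 382 = true := tt fun y => c200 h x236f y x10f x167f
  have x267f : α 267 = false := ff fun y => c1100 h x40t x108t y
  have x102f : α 102 = false := ff fun y => c1092 h x286t x40t x346t y
  have x192f : α 192 = false := ff fun y => c1574 h x382t y x61t
  have x44t : α 44 = true := tt fun y => c1127 h y x102f x260f
  have x337t : α 337 = true := tt fun y => c2067 h x264f y x92f x192f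
  have x343t : α 343 = true := tt fun y => c2069 h x92f x192f y
  have x116t : α 116 = true := tt fun y => c2051 h y x92f x192f
  have x557f : α 557 = false := ff fun y => c2746 h x182t x337t y
  have x282f : α 282 = false := ff fun y => c1130 h x116t x343t x44t y
  have x501t : α 501 = true := tt fun y => c1040 h x120f x557f x36f y
  have x340t : α 340 = true := tt fun y => c3191 h x282f x267f y
  have x476t : α 476 = true := tt fun y => c877 h x264f y x28f x282f
  have x464t : α 464 = true := tt fun y => c2690 h x167f x282f y
  have x526f : α 526 = false := ff fun y => c289 h x15t x501t x35t y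
  have x285f : α 285 = false := ff fun y => c2398 h x114t x340t y x478t
  have x256f : α 256 = false := ff fun y => c2373 h x476t y x113t
  have x247f : α 247 = false := ff fun y => c1777 h x75t y x464t
  have x284t : α 284 = true := tt fun y => c2449 h x119f y x526f
  have x339t : α 339 = true := tt fun y => c3153 h x285f x259f y
  have x474t : α 474 = true := tt fun y => l3708 h x256f y
  have x180f : α 180 = false := ff fun y => c2721 h x474t x284t y
  have x90f : α 90 = false := ff fun y => c1971 h y x181t x339t
  have x4f : α 4 = false := ff fun y => c136 h x41t x476t y x474t
  have x81t : α 81 = true := tt fun y => l3650 h y x180f x53f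
  have x22t : α 22 = true := tt fun y => c619 h y x28f x90f x102f
  have x378t : α 378 = true := tt fun y => c144 h x4f x247f x158f y
  have x70f : α 70 = false := ff fun y => c1682 h x188t x184t y x81t
  have x387f : α 387 = false := ff fun y => c517 h x22t x20t x378t y
  c1693 h x70f x201f x387f

theorem l3866 (h : Good α) (x236f : α 236 = false) (x200t : α 200 = true) (x306t : α 306 = true) (x346t : α 346 = true) (x249t : α 249 = true) : False :=
  have x1f : α 1 = false := ff fun y => l3861 h y x306t x346t x249t
  have x58t : α 58 = true := tt fun y => l3776 h y x306t x249t x346t
  have x272f : α 272 = false := ff fun y => l3740 h y x346t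
  have x106f : α 106 = false := ff fun y => l3809 h y x306t x272f x249t
  have x449f : α 449 = false := ff fun y => l3810 h y x106f x306t x249t
  have x92f : α 92 = false := ff fun y => l3851 h y x306t x346t x249t
  have x61t : α 61 = true := tt fun y => l3854 h y x92f x449f x58t x249t
  have x53f : α 53 = false := ff fun y => l3778 h y x61t
  have x52t : α 52 = true := tt fun y => c20 h x53f x1f y
  have x54f : α 54 = false := ff fun y => l3640 h y x52t
  have x197t : α 197 = true := tt fun y => c41 h y x54f x1f
  have x237f : α 237 = false := ff fun y => c2886 h x249t x197t y
  have x56t : α 56 = true := tt fun y => l3648 h x53f y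
  have x28t : α 28 = true := tt fun y => l3865 h y x236f x200t x306t x346t x249t
  have x10f : α 10 = false := ff fun y => l3618 h y x28t
  have x340f : α 340 = false := ff fun y => l3636 h x28t y
  have x239t : α 239 = true := tt fun y => l3860 h x10f y x236f x200t
  have x91f : α 91 = false := ff fun y => c1459 h x239t x200t y x58t
  have x233t : α 233 = true := tt fun y => c1314 h x54f x91f y
  have x94t : α 94 = true := tt fun y => c1309 h y x54f x91f
  have x114t : α 114 = true := tt fun y => l3588 h y x237f x58t x91f
  have x183t : α 183 = true := tt fun y => c2006 h x91f y x340f
  have x201f : α 201 = false := ff fun y => c2902 h x239t x200t x233t y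
  have x57f : α 57 = false := ff fun y => c1423 h x249t x94t y
  have x19f : α 19 = false := ff fun y => l3624 h x114t y x56t
  have x242t : α 242 = true := tt fun y => c1413 h x57f x92f x201f y
  have x257t : α 257 = true := tt fun y => c493 h x19f x91f y
  have x97f : α 97 = false := ff fun y => c1557 h x61t y x242t
  have x189f : α 189 = false := ff fun y => c2749 h x257t x183t y
  c2182 h x97f x189f x340f

theorem l3867 (h : Good α) (x200t : α 200 = true) (x306t : α 306 = true) (x346t : α 346 = true) (x249t : α 249 = true) : False :=
  have x1f : α 1 = false := ff fun y => l3861 h y x306t x346t x249t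
  have x58t : α 58 = true := tt fun y => l3776 h y x306t x249t x346t
  have x272f : α 272 = false := ff fun y => l3740 h y x346t
  have x106f : α 106 = false := ff fun y => l3809 h y x306t x272f x249t
  have x449f : α 449 = false := ff fun y => l3810 h y x106f x306t x249t
  have x92f : α 92 = false := ff fun y => l3851 h y x306t x346t x249t
  have x61t : α 61 = true := tt fun y => l3854 h y x92f x449f x58t x249t
  have x53f : α 53 = false := ff fun y => l3778 h y x61t
  have x52t : α 52 = true := tt fun y => c20 h x53f x1f y
  have x54f : α 54 = false := ff fun y => l3640 h y x52t
  have x197t : α 197 = true := tt fun y => c41 h y x54f x1f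
  have x236t : α 236 = true := tt fun y => l3866 h y x200t x306t x346t x249t
  have x352f : α 352 = false := ff fun y => c2912 h x200t x236t y
  have x239f : α 239 = false := ff fun y => c2910 h y x200t x236t
  have x204t : α 204 = true := tt fun y => c1348 h x239f x352f x54f y
  have x94t : α 94 = true := tt fun y => c1322 h x239f y x54f
  have x238f : α 238 = false := ff fun y => c2880 h x249t y x197t x204t
  have x57f : α 57 = false := ff fun y => c1423 h x249t x94t y
  c1415 h x57f x92f x238f

theorem l3868 (h : Good α) (x306t : α 306 = true) (x346t : α 346 = true) (x249t : α 249 = true) : False :=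
  have x272f : α 272 = false := ff fun y => l3740 h y x346t
  have x58t : α 58 = true := tt fun y => l3776 h y x306t x249t x346t
  have x106f : α 106 = false := ff fun y => l3809 h y x306t x272f x249t
  have x449f : α 449 = false := ff fun y => l3810 h y x106f x306t x249t
  have x92f : α 92 = false := ff fun y => l3851 h y x306t x346t x249t
  have x61t : α 61 = true := tt fun y => l3854 h y x92f x449f x58t x249t
  have x53f : α 53 = false := ff fun y => l3778 h y x61t
  have x1f : α 1 = false := ff fun y => l3861 h y x306t x346t x249t
  have x52t : α 52 = true := tt fun y => c20 h x53f x1f y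
  have x54f : α 54 = false := ff fun y => l3640 h y x52t
  have x197t : α 197 = true := tt fun y => c41 h y x54f x1f
  have x237f : α 237 = false := ff fun y => c2886 h x249t x197t y
  have x353f : α 353 = false := ff fun y => c2890 h y x249t x197t
  have x200f : α 200 = false := ff fun y => l3867 h y x306t x346t x249t
  have x239t : α 239 = true := tt fun y => c2913 h x353f y x200f
  have x57t : α 57 = true := tt fun y => c67 h x200f y x1f
  have x94f : α 94 = false := ff fun y => c1423 h x249t y x57t
  have x91t : α 91 = true := tt fun y => c1309 h x94f x54f y
  have x402t : α 402 = true := tt fun y => c1324 h x449f x94f y x54f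
  have x97f : α 97 = false := ff fun y => c1457 h x91t x58t y
  have x443t : α 443 = true := tt fun y => c2048 h x449f x92f y x97f
  have x547f : α 547 = false := ff fun y => c2029 h y x239t x443t x91t
  have x543f : α 543 = false := ff fun y => c3347 h x402t x443t y
  have x351t : α 351 = true := tt fun y => c3310 h x547f x353f x543f y
  have x233t : α 233 = true := tt fun y => c2123 h x449f x94f x543f y
  have x242f : α 242 = false := ff fun y => c1578 h x197t x61t x351t y
  have x201f : α 201 = false := ff fun y => c1444 h x249t x57t x351t y
  have x439f : α 439 = false := ff fun y => c2017 h x91t x233t y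
  have x447t : α 447 = true := tt fun y => c2195 h x97f x242f y
  have x354t : α 354 = true := tt fun y => c2923 h x201f x242f y
  have x406t : α 406 = true := tt fun y => c49 h x54f x1f x439f y
  have x546f : α 546 = false := ff fun y => c3360 h x406t x447t y
  have x250f : α 250 = false := ff fun y => c2015 h x91t y x233t x354t
  have x534f : α 534 = false := ff fun y => c1449 h x249t x57t y x406t
  c3032 h x237f x250f x534f x546f

theorem l3869 (h : Good α) (x54f : α 54 = false) (x239t : α 239 = true) (x92f : α 92 = false) (x20f : α 20 = false) (x57t : α 57 = true) (x306f : α 306 = false) (x249t : α 249 = true) : False :=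
  have x94f : α 94 = false := ff fun y => c1423 h x249t y x57t
  have x61t : α 61 = true := tt fun y => c1302 h x94f x92f x54f y
  have x91t : α 91 = true := tt fun y => c1309 h x94f x54f y
  have x59f : α 59 = false := ff fun y => l3670 h y x61t
  have x326t : α 326 = true := tt fun y => c543 h x306f x20f y x59f
  have x197f : α 197 = false := ff fun y => l3726 h y x326t
  have x1t : α 1 = true := tt fun y => c41 h x197f x54f y
  have x402t : α 402 = true := tt fun y => c1342 h y x197f x54f
  have x204f : α 204 = false := ff fun y => c102 h x1t x61t y
  have x58f : α 58 = false := ff fun y => c62 h x57t x1t y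
  have x449f : α 449 = false := ff fun y => c72 h y x57t x402t x1t
  have x238t : α 238 = true := tt fun y => c1320 h x94f y x54f x204f
  have x201f : α 201 = false := ff fun y => l3756 h y x239t x402t x238t x204f x1t x449f x94f x91t x58f x249t
  have x406t : α 406 = true := tt fun y => c1491 h x58f x201f y
  have x233t : α 233 = true := tt fun y => l3759 h y x201f x402t x449f x94f x61t
  have x447f : α 447 = false := ff fun y => c106 h x1t x61t x406t y
  have x439f : α 439 = false := ff fun y => c2017 h x91t x233t y
  c2044 h x94f x92f x439f x447f

theorem l3870 (h : Good α) (x61t : α 61 = true) (x54t : α 54 = true) : False :=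
  have x52f : α 52 = false := ff fun y => l3640 h x54t y
  have x53f : α 53 = false := ff fun y => l3778 h y x61t
  have x1f : α 1 = false := ff fun y => c40 h x54t y x61t
  c20 h x53f x1f x52f

theorem l3871 (h : Good α) (x239t : α 239 = true) (x92f : α 92 = false) (x57t : α 57 = true) (x346t : α 346 = true) (x249t : α 249 = true) : False :=
  have x272f : α 272 = false := ff fun y => l3740 h y x346t
  have x94f : α 94 = false := ff fun y => c1423 h x249t y x57t
  have x22t : α 22 = true := tt fun y => c656 h x272f x94f y
  have x184f : α 184 = false := ff fun y => c647 h y x57t x22t
  have x188t : α 188 = true := tt fun y => c2767 h x272f y x184f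
  have x20f : α 20 = false := ff fun y => c534 h x188t x57t y
  have x306f : α 306 = false := ff fun y => l3868 h y x346t x249t
  have x36f : α 36 = false := ff fun y => l3639 h y x346t
  have x580f : α 580 = false := ff fun y => l3737 h x346t y
  have x54t : α 54 = true := tt fun y => l3869 h y x239t x92f x20f x57t x306f x249t
  have x63f : α 63 = false := ff fun y => l3536 h y x239t x94f x54t
  have x24t : α 24 = true := tt fun y => l3532 h y x63f x54t
  have x108f : α 108 = false := ff fun y => l3629 h x24t y x54t
  have x120f : α 120 = false := ff fun y => l3630 h x24t y x54t
  have x191f : α 191 = false := ff fun y => c737 h x24t x54t y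
  have x485t : α 485 = true := tt fun y => c2457 h y x272f x120f
  have x286t : α 286 = true := tt fun y => c1038 h y x120f x36f
  have x275f : α 275 = false := ff fun y => c3230 h x485t x346t y
  have x260t : α 260 = true := tt fun y => c2312 h x120f x108f x275f y
  have x175t : α 175 = true := tt fun y => c1613 h y x63f x275f x191f
  have x454f : α 454 = false := ff fun y => l3721 h x260t y
  have x167f : α 167 = false := ff fun y => l3714 h y x175t
  have x381t : α 381 = true := tt fun y => c1611 h x63f x167f y x454f
  have x467f : α 467 = false := ff fun y => l3661 h x381t y x54t
  have x477t : α 477 = true := tt fun y => c3399 h x580f y x467f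
  have x61f : α 61 = false := ff fun y => l3870 h y x54t
  have x97t : α 97 = true := tt fun y => c1544 h x92f x61f y
  have x236t : α 236 = true := tt fun y => c1548 h y x92f x61f
  have x91f : α 91 = false := ff fun y => c1989 h x239t x236t y x97t
  have x338t : α 338 = true := tt fun y => c2010 h y x191f x91f
  have x107f : α 107 = false := ff fun y => c2307 h x286t y x477t x338t
  have x187f : α 187 = false := ff fun y => c2806 h x346t y x477t x338t
  c2105 h x107f x94f x187f

theorem l3872 (h : Good α) (x91f : α 91 = false) (x200f : α 200 = false) (x239f : α 239 = false) (x92f : α 92 = false) (x57t : α 57 = true) (x249t : α 249 = true) : False :=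
  have x94f : α 94 = false := ff fun y => c1423 h x249t y x57t
  have x54t : α 54 = true := tt fun y => c1322 h x239f x94f y
  have x61f : α 61 = false := ff fun y => l3870 h y x54t
  have x58t : α 58 = true := tt fun y => c1458 h x239f x200f x91f y
  have x237f : α 237 = false := ff fun y => c1402 h x249t x57t y x58t
  have x449t : α 449 = true := tt fun y => l3854 h x61f x92f y x58t x249t
  have x443t : α 443 = true := tt fun y => c2024 h y x237f x91f
  c1406 h x449t x57t x443t x58t

theorem l3873 (h : Good α) (x200f : α 200 = false) (x92f : α 92 = false) (x57t : α 57 = true) (x346t : α 346 = true) (x249t : α 249 = true) : False :=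
  have x94f : α 94 = false := ff fun y => c1423 h x249t y x57t
  have x239f : α 239 = false := ff fun y => l3871 h y x92f x57t x346t x249t
  have x54t : α 54 = true := tt fun y => c1322 h x239f x94f y
  have x61f : α 61 = false := ff fun y => l3870 h y x54t
  have x97t : α 97 = true := tt fun y => c1544 h x92f x61f y
  have x59t : α 59 = true := tt fun y => l3669 h y x61f
  have x197f : α 197 = false := ff fun y => l3796 h y x54t
  have x52f : α 52 = false := ff fun y => l3640 h x54t y
  have x236t : α 236 = true := tt fun y => c2042 h x239f y x94f x92f
  have x272f : α 272 = false := ff fun y => l3740 h y x346t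
  have x22t : α 22 = true := tt fun y => c656 h x272f x94f y
  have x184f : α 184 = false := ff fun y => c647 h y x57t x22t
  have x188t : α 188 = true := tt fun y => c2767 h x272f y x184f
  have x20f : α 20 = false := ff fun y => c534 h x188t x57t y
  have x28t : α 28 = true := tt fun y => c521 h x92f x20f y
  have x340f : α 340 = false := ff fun y => l3636 h x28t y
  have x264t : α 264 = true := tt fun y => c555 h y x92f x20f
  have x36f : α 36 = false := ff fun y => l3639 h y x346t
  have x91t : α 91 = true := tt fun y => l3872 h y x200f x239f x92f x57t x249t
  have x233f : α 233 = false := ff fun y => c1315 h x54t x91t y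
  have x242t : α 242 = true := tt fun y => c2040 h x94f x92f x233f y
  have x201t : α 201 = true := tt fun y => c2901 h x239f x200f x233f y
  have x114f : α 114 = false := ff fun y => l3535 h y x94f x233f x57t x201t
  have x354f : α 354 = false := ff fun y => c2924 h x201t x242t y
  have x351f : α 351 = false := ff fun y => c1444 h x249t x57t y x201t
  have x285t : α 285 = true := tt fun y => c1036 h x36f x114f y
  have x41t : α 41 = true := tt fun y => c1013 h y x36f x114f
  have x267t : α 267 = true := tt fun y => c1035 h x36f y x114f x340f
  have x23t : α 23 = true := tt fun y => c714 h x272f x184f x114f y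
  have x204t : α 204 = true := tt fun y => c2881 h x197f y x351f x354f
  have x543t : α 543 = true := tt fun y => c3000 h y x351f x233f
  have x275f : α 275 = false := ff fun y => c3227 h x346t y x285t
  have x186f : α 186 = false := ff fun y => l3673 h y x267t x59t
  have x273f : α 273 = false := ff fun y => c707 h x23t x97t y
  have x250f : α 250 = false := ff fun y => c1313 h x54t x204t x91t y
  have x1f : α 1 = false := ff fun y => l3582 h x543t y x61f
  have x307t : α 307 = true := tt fun y => c3109 h y x250f x273f
  have x399t : α 399 = true := tt fun y => c3111 h x250f x273f y
  have x53t : α 53 = true := tt fun y => c20 h y x1f x52f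
  have x113f : α 113 = false := ff fun y => c712 h x23t y x307t
  have x56f : α 56 = false := ff fun y => l3649 h x53t y
  have x180t : α 180 = true := tt fun y => l3690 h x113f y
  have x19t : α 19 = true := tt fun y => l3623 h x113f y x56f
  have x386t : α 386 = true := tt fun y => l3501 h y x236t x200f x56f
  have x70f : α 70 = false := ff fun y => c1691 h x188t x264t y x180t
  have x60t : α 60 = true := tt fun y => l3589 h x186f x399t x19t y
  have x379f : α 379 = false := ff fun y => c463 h x386t y x19t x23t
  have x459t : α 459 = true := tt fun y => c2771 h y x379f x272f x184f
  have x24f : α 24 = false := ff fun y => l3752 h y x459t x275f x54t x36f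
  have x30t : α 30 = true := tt fun y => c725 h x94f x24f y
  have x18f : α 18 = false := ff fun y => c414 h x30t y x91t
  have x259f : α 259 = false := ff fun y => c910 h x41t x30t x285t y
  have x95t : α 95 = true := tt fun y => c420 h x36f x18f y
  have x103t : α 103 = true := tt fun y => c1684 h y x70f x259f x233f
  have x93f : α 93 = false := ff fun y => c1529 h y x60t x95t
  have x15f : α 15 = false := ff fun y => c281 h y x19t x103t
  c291 h x36f x15f x93f

theorem l3874 (h : Good α) (x92f : α 92 = false) (x57t : α 57 = true) (x346t : α 346 = true) (x249t : α 249 = true) : False :=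
  have x94f : α 94 = false := ff fun y => c1423 h x249t y x57t
  have x239f : α 239 = false := ff fun y => l3871 h y x92f x57t x346t x249t
  have x54t : α 54 = true := tt fun y => c1322 h x239f x94f y
  have x236t : α 236 = true := tt fun y => c2042 h x239f y x94f x92f
  have x197f : α 197 = false := ff fun y => l3796 h y x54t
  have x61f : α 61 = false := ff fun y => l3870 h y x54t
  have x97t : α 97 = true := tt fun y => c1544 h x92f x61f y
  have x200t : α 200 = true := tt fun y => l3873 h y x92f x57t x346t x249t
  have x352f : α 352 = false := ff fun y => c2912 h x200t x236t y
  have x58f : α 58 = false := ff fun y => c1466 h x200t x236t y x97t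
  have x1f : α 1 = false := ff fun y => c68 h x200t x57t y
  have x405f : α 405 = false := ff fun y => c1438 h y x200t x57t
  have x238t : α 238 = true := tt fun y => c2125 h x239f x352f x94f y
  have x237t : α 237 = true := tt fun y => c77 h x197f x1f y x58f
  have x545t : α 545 = true := tt fun y => c113 h y x405f x197f x1f
  have x250f : α 250 = false := ff fun y => c3028 h x249t x238t x237t y
  have x535f : α 535 = false := ff fun y => c3051 h x545t y x249t x238t
  c1498 h x405f x535f x58f x250f

theorem l3875 (h : Good α) (x200t : α 200 = true) (x54t : α 54 = true) (x92t : α 92 = true) (x57t : α 57 = true) (x249t : α 249 = true) : False :=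
  have x61f : α 61 = false := ff fun y => l3870 h y x54t
  have x197f : α 197 = false := ff fun y => l3796 h y x54t
  have x353f : α 353 = false := ff fun y => c1436 h y x200t x249t x57t
  have x236f : α 236 = false := ff fun y => c1412 h x200t y x57t x92t
  c1575 h x353f x236f x197f x61f

theorem l3876 (h : Good α) (x239f : α 239 = false) (x92t : α 92 = true) (x57t : α 57 = true) (x249t : α 249 = true) : False :=
  have x94f : α 94 = false := ff fun y => c1423 h x249t y x57t
  have x54t : α 54 = true := tt fun y => c1322 h x239f x94f y
  have x200f : α 200 = false := ff fun y => l3875 h y x54t x92t x57t x249t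
  have x353t : α 353 = true := tt fun y => c2913 h y x239f x200f
  have x236t : α 236 = true := tt fun y => c2909 h x239f x200f y
  c2072 h x353t x236t x249t x92t

theorem l3877 (h : Good α) (x54t : α 54 = true) (x200f : α 200 = false) (x57t : α 57 = true) (x346t : α 346 = true) (x249t : α 249 = true) : False :=
  have x92t : α 92 = true := tt fun y => l3874 h y x57t x346t x249t
  have x239t : α 239 = true := tt fun y => l3876 h y x92t x57t x249t
  have x94f : α 94 = false := ff fun y => c1423 h x249t y x57t
  have x272f : α 272 = false := ff fun y => l3740 h y x346t
  have x63f : α 63 = false := ff fun y => l3536 h y x239t x94f x54t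
  have x61f : α 61 = false := ff fun y => l3870 h y x54t
  have x24t : α 24 = true := tt fun y => l3532 h y x63f x54t
  have x59t : α 59 = true := tt fun y => l3669 h y x61f
  have x58f : α 58 = false := ff fun y => l3811 h x57t x61f x92t y x249t
  have x120f : α 120 = false := ff fun y => l3630 h x24t y x54t
  have x313f : α 313 = false := ff fun y => l3674 h x59t y
  have x485t : α 485 = true := tt fun y => c2457 h y x272f x120f
  have x275f : α 275 = false := ff fun y => c3230 h x485t x346t y
  have x314f : α 314 = false := ff fun y => l3569 h x120f x275f x54t y
  have x407t : α 407 = true := tt fun y => c3255 h x313f x314f y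
  have x202f : α 202 = false := ff fun y => c1528 h x59t y x407t
  have x157t : α 157 = true := tt fun y => c2653 h y x202f x314f
  have x334f : α 334 = false := ff fun y => c1519 h x59t x157t y
  have x204t : α 204 = true := tt fun y => l3705 h y x334f
  have x352f : α 352 = false := ff fun y => c1349 h x239t y x54t x204t
  have x250t : α 250 = true := tt fun y => c1488 h x200f x352f x58f y
  have x91f : α 91 = false := ff fun y => c1313 h x54t x204t y x250t
  have x97t : α 97 = true := tt fun y => c1456 h x91f x58f y
  have x237t : α 237 = true := tt fun y => c1461 h y x91f x58f
  c2047 h x249t x92t x237t x97t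

theorem l3878 (h : Good α) (x61f : α 61 = false) (x54f : α 54 = false) (x92t : α 92 = true) (x57t : α 57 = true) (x249t : α 249 = true) : False :=
  have x94f : α 94 = false := ff fun y => c1423 h x249t y x57t
  have x91t : α 91 = true := tt fun y => c1309 h x94f x54f y
  have x58f : α 58 = false := ff fun y => l3795 h x54f x61f x92t y x249t
  have x1t : α 1 = true := tt fun y => c39 h x54f y x61f
  have x449t : α 449 = true := tt fun y => l3750 h x1t y x61f x91t x58f x249t
  have x197f : α 197 = false := ff fun y => c66 h x249t x57t y x1t
  have x402f : α 402 = false := ff fun y => c72 h x449t x57t y x1t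
  c1342 h x402f x197f x54f

theorem l3879 (h : Good α) (x54f : α 54 = false) (x92t : α 92 = true) (x249t : α 249 = true) (x57t : α 57 = true) : False :=
  have x61t : α 61 = true := tt fun y => l3878 h y x54f x92t x57t x249t
  have x197f : α 197 = false := ff fun y => c1547 h x249t x92t y x61t
  have x1f : α 1 = false := ff fun y => c64 h x57t x92t y x61t
  c41 h x197f x54f x1f

theorem l3880 (h : Good α) (x57t : α 57 = true) (x346t : α 346 = true) (x249t : α 249 = true) : False :=
  have x92t : α 92 = true := tt fun y => l3874 h y x57t x346t x249t
  have x54t : α 54 = true := tt fun y => l3879 h y x92t x249t x57t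
  have x200f : α 200 = false := ff fun y => l3875 h y x54t x92t x57t x249t
  l3877 h x54t x200f x57t x346t x249t

theorem l3881 (h : Good α) (x91t : α 91 = true) (x58f : α 58 = false) (x1t : α 1 = true) (x54t : α 54 = true) (x249t : α 249 = true) : False :=
  have x61f : α 61 = false := ff fun y => l3870 h y x54t
  have x59t : α 59 = true := tt fun y => l3669 h y x61f
  have x56f : α 56 = false := ff fun y => c57 h y x1t x59t
  have x53t : α 53 = true := tt fun y => l3648 h y x56f
  have x196f : α 196 = false := ff fun y => c32 h y x53t x1t
  have x204t : α 204 = true := tt fun y => l3702 h x196f y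
  have x94f : α 94 = false := ff fun y => l3747 h y x61f x91t x58f x249t
  have x250f : α 250 = false := ff fun y => c1313 h x54t x204t x91t y
  l3748 h x250f x1t x94f x61f x91t x58f

theorem l3882 (h : Good α) (x58f : α 58 = false) (x1t : α 1 = true) (x54t : α 54 = true) (x92t : α 92 = true) (x249t : α 249 = true) : False :=
  have x91f : α 91 = false := ff fun y => l3881 h y x58f x1t x54t x249t
  have x97t : α 97 = true := tt fun y => c1456 h x91f x58f y
  have x237t : α 237 = true := tt fun y => c1461 h y x91f x58f
  c2047 h x249t x92t x237t x97t

theorem l3883 (h : Good α) (x97t : α 97 = true) (x200f : α 200 = false) (x54t : α 54 = true) (x92t : α 92 = true) (x57f : α 57 = false) (x249t : α 249 = true) : False :=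
  have x1t : α 1 = true := tt fun y => c67 h x200f x57f y
  have x61f : α 61 = false := ff fun y => l3870 h y x54t
  have x59t : α 59 = true := tt fun y => l3669 h y x61f
  have x56f : α 56 = false := ff fun y => c57 h y x1t x59t
  have x53t : α 53 = true := tt fun y => l3648 h y x56f
  have x196f : α 196 = false := ff fun y => c32 h y x53t x1t
  have x204t : α 204 = true := tt fun y => l3702 h x196f y
  have x58t : α 58 = true := tt fun y => l3882 h y x1t x54t x92t x249t
  have x250f : α 250 = false := ff fun y => c82 h x1t x204t x58t y
  have x197f : α 197 = false := ff fun y => l3796 h y x54t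
  have x91f : α 91 = false := ff fun y => l3615 h y x58t x61f x197f
  have x201f : α 201 = false := ff fun y => c80 h x1t x58t y
  have x405t : α 405 = true := tt fun y => c1437 h y x200f x57f
  have x446f : α 446 = false := ff fun y => c48 h y x405t x54t x1t
  have x543f : α 543 = false := ff fun y => l3582 h y x1t x61f
  have x237f : α 237 = false := ff fun y => c2047 h x249t x92t y x97t
  have x189f : α 189 = false := ff fun y => l3845 h y x97t x56f x58t
  have x443t : α 443 = true := tt fun y => c2024 h y x237f x91f
  have x545t : α 545 = true := tt fun y => c2026 h y x446f x237f x91f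
  have x402f : α 402 = false := ff fun y => c84 h y x1t x443t x58t
  have x353f : α 353 = false := ff fun y => c3105 h x545t y x249t
  have x242t : α 242 = true := tt fun y => c1583 h x402f x61f x543f y
  have x239t : α 239 = true := tt fun y => c2913 h x353f y x200f
  have x113t : α 113 = true := tt fun y => l3846 h y x242t x201f x57f x92t
  have x94f : α 94 = false := ff fun y => c1323 h x239t y x54t
  l3601 h x94f x113t x189f x97t x250f x1t x61f

theorem l3884 (h : Good α) (x200f : α 200 = false) (x54t : α 54 = true) (x92t : α 92 = true) (x57f : α 57 = false) (x249t : α 249 = true) : False :=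
  have x61f : α 61 = false := ff fun y => l3870 h y x54t
  have x59t : α 59 = true := tt fun y => l3669 h y x61f
  have x197f : α 197 = false := ff fun y => l3796 h y x54t
  have x1t : α 1 = true := tt fun y => c67 h x200f x57f y
  have x405t : α 405 = true := tt fun y => c1437 h y x200f x57f
  have x56f : α 56 = false := ff fun y => c57 h y x1t x59t
  have x446f : α 446 = false := ff fun y => c48 h y x405t x54t x1t
  have x53t : α 53 = true := tt fun y => l3648 h y x56f
  have x196f : α 196 = false := ff fun y => c32 h y x53t x1t
  have x204t : α 204 = true := tt fun y => l3702 h x196f y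
  have x58t : α 58 = true := tt fun y => l3882 h y x1t x54t x92t x249t
  have x91f : α 91 = false := ff fun y => l3615 h y x58t x61f x197f
  have x97f : α 97 = false := ff fun y => l3883 h y x200f x54t x92t x57f x249t
  have x442t : α 442 = true := tt fun y => c1990 h x446f y x91f x97f
  have x236f : α 236 = false := ff fun y => c2074 h x442t y x92t
  have x239t : α 239 = true := tt fun y => c2909 h y x200f x236f
  have x352t : α 352 = true := tt fun y => c2911 h x200f x236f y
  c1349 h x239t x352t x54t x204t

theorem l3885 (h : Good α) (x24t : α 24 = true) (x260f : α 260 = false) (x54t : α 54 = true) (x346t : α 346 = true) : False :=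
  have x272f : α 272 = false := ff fun y => l3740 h y x346t
  have x108f : α 108 = false := ff fun y => l3629 h x24t y x54t
  have x120f : α 120 = false := ff fun y => l3630 h x24t y x54t
  have x485t : α 485 = true := tt fun y => c2457 h y x272f x120f
  have x275t : α 275 = true := tt fun y => c2312 h x120f x108f y x260f
  c3230 h x485t x346t x275t

theorem l3886 (h : Good α) (x275t : α 275 = true) (x158f : α 158 = false) (x346t : α 346 = true) : False :=
  have x467f : α 467 = false := ff fun y => l3735 h x275t y
  have x285f : α 285 = false := ff fun y => c3227 h x346t x275t y
  c2672 h x467f x285f x158f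

theorem l3887 (h : Good α) (x285f : α 285 = false) (x24f : α 24 = false) (x28f : α 28 = false) (x189f : α 189 = false) (x158f : α 158 = false) (x94f : α 94 = false) (x113t : α 113 = true) (x237t : α 237 = true) (x242t : α 242 = true) (x379f : α 379 = false) (x201f : α 201 = false) (x56f : α 56 = false) (x54t : α 54 = true) (x92t : α 92 = true) (x306f : α 306 = false) (x346t : α 346 = true) : False :=
  have x53t : α 53 = true := tt fun y => l3648 h y x56f
  have x272f : α 272 = false := ff fun y => l3740 h y x346t
  have x36f : α 36 = false := ff fun y => l3639 h y x346t
  have x114t : α 114 = true := tt fun y => c1036 h x36f y x285f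
  have x467t : α 467 = true := tt fun y => c2672 h y x285f x158f
  have x23f : α 23 = false := ff fun y => l3628 h y x114t x53t
  have x423f : α 423 = false := ff fun y => c2389 h x114t x237t y
  have x454f : α 454 = false := ff fun y => l3716 h y x467t
  have x381f : α 381 = false := ff fun y => l3661 h y x467t x54t
  have x180f : α 180 = false := ff fun y => l3599 h y x379f x242t x23f x201f x113t x56f
  have x20t : α 20 = true := tt fun y => c575 h x306f y x423f x189f
  have x108t : α 108 = true := tt fun y => c753 h x24f y x381f x454f
  have x70t : α 70 = true := tt fun y => l3662 h y x180f x56f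
  have x264f : α 264 = false := ff fun y => c556 h y x92t x20t
  have x459f : α 459 = false := ff fun y => l3817 h x108t y x28f x264f x94f x54t x346t
  l3600 h x459f x70t x379f x272f x158f x92t x94f

theorem l3888 (h : Good α) (x467t : α 467 = true) (x285t : α 285 = true) (x24f : α 24 = false) (x340t : α 340 = true) (x275f : α 275 = false) (x576f : α 576 = false) (x94f : α 94 = false) (x54t : α 54 = true) (x36f : α 36 = false) : False :=
  have x63t : α 63 = true := tt fun y => l3532 h x24f y x54t
  have x30t : α 30 = true := tt fun y => c725 h x94f x24f y
  have x207f : α 207 = false := ff fun y => c915 h y x63t x30t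
  have x107t : α 107 = true := tt fun y => c2107 h x207f y x94f
  have x271t : α 271 = true := tt fun y => c747 h y x94f x24f
  have x260f : α 260 = false := ff fun y => l3503 h y x340t
  have x454f : α 454 = false := ff fun y => l3716 h y x467t
  have x381f : α 381 = false := ff fun y => l3661 h y x467t x54t
  have x478t : α 478 = true := tt fun y => c3384 h x454f y x576f
  have x191t : α 191 = true := tt fun y => c2842 h y x260f x381f x454f
  have x108t : α 108 = true := tt fun y => c753 h x24f y x381f x454f
  have x114f : α 114 = false := ff fun y => c2398 h y x340t x285t x478t
  have x187f : α 187 = false := ff fun y => c2796 h x271t y x191t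
  have x120f : α 120 = false := ff fun y => l3685 h x108t y
  have x477t : α 477 = true := tt fun y => c2395 h y x275f x114f
  have x338t : α 338 = true := tt fun y => c2113 h x94f x187f y
  have x286t : α 286 = true := tt fun y => c1038 h y x120f x36f
  c2307 h x286t x107t x477t x338t

theorem l3889 (h : Good α) (x114f : α 114 = false) (x298f : α 298 = false) (x327t : α 327 = true) (x91f : α 91 = false) (x53t : α 53 = true) (x58t : α 58 = true) (x272f : α 272 = false) : False :=
  have x183t : α 183 = true := tt fun y => c1992 h x114f x91f y
  have x429t : α 429 = true := tt fun y => c2392 h y x272f x298f x114f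
  have x23f : α 23 = false := ff fun y => c696 h y x58t x183t
  have x184f : α 184 = false := ff fun y => c1293 h x429t y x327t x53t
  c714 h x272f x184f x114f x23f

theorem l3890 (h : Good α) (x189f : α 189 = false) (x233t : α 233 = true) (x94f : α 94 = false) (x327t : α 327 = true) (x113t : α 113 = true) (x97f : α 97 = false) (x379f : α 379 = false) (x89f : α 89 = false) (x201f : α 201 = false) (x58t : α 58 = true) (x56f : α 56 = false) (x54t : α 54 = true) (x92t : α 92 = true) (x306f : α 306 = false) (x346t : α 346 = true) : False :=
  have x53t : α 53 = true := tt fun y => l3648 h y x56f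
  have x158f : α 158 = false := ff fun y => l3451 h y x233t x201f x53t
  have x275f : α 275 = false := ff fun y => l3886 h y x158f x346t
  have x61f : α 61 = false := ff fun y => l3870 h y x54t
  have x242t : α 242 = true := tt fun y => c1556 h x61f x97f y
  have x576f : α 576 = false := ff fun y => l3413 h y x233t x242t x201f
  have x197f : α 197 = false := ff fun y => l3796 h y x54t
  have x237t : α 237 = true := tt fun y => c1553 h x197f x61f y x97f
  have x91f : α 91 = false := ff fun y => l3615 h y x58t x61f x197f
  have x272f : α 272 = false := ff fun y => l3740 h y x346t
  have x36f : α 36 = false := ff fun y => l3639 h y x346t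
  have x340t : α 340 = true := tt fun y => c2182 h x97f x189f y
  have x28f : α 28 = false := ff fun y => l3636 h y x340t
  have x260f : α 260 = false := ff fun y => l3503 h y x340t
  have x24f : α 24 = false := ff fun y => l3885 h y x260f x54t x346t
  have x285t : α 285 = true := tt fun y => l3887 h y x24f x28f x189f x158f x94f x113t x237t x242t x379f x201f x56f x54t x92t x306f x346t
  have x467f : α 467 = false := ff fun y => l3888 h y x285t x24f x340t x275f x576f x94f x54t x36f
  have x454t : α 454 = true := tt fun y => c3160 h x275f x260f x467f y
  have x381f : α 381 = false := ff fun y => l3658 h y x454t x54t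
  have x120t : α 120 = true := tt fun y => c760 h y x24f x467f x381f
  have x108f : α 108 = false := ff fun y => l3685 h y x120t
  have x20t : α 20 = true := tt fun y => c519 h y x89f x28f x108f
  have x264f : α 264 = false := ff fun y => c556 h y x92t x20t
  have x387f : α 387 = false := ff fun y => l3816 h y x340t x20t x264f x576f x158f x94f x379f x201f x242t x56f x54t x92t x58t x346t
  have x70t : α 70 = true := tt fun y => c1693 h y x201f x387f
  have x451f : α 451 = false := ff fun y => c1697 h x70t x233t y
  have x257t : α 257 = true := tt fun y => c2822 h y x189f x451f x387f
  have x298f : α 298 = false := ff fun y => c3035 h y x237t x257t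
  have x114t : α 114 = true := tt fun y => l3889 h y x298f x327t x91f x53t x58t x272f
  have x23f : α 23 = false := ff fun y => l3628 h y x114t x53t
  have x180t : α 180 = true := tt fun y => l3453 h x285t x114t y x346t x113t x340t x576f
  l3599 h x180t x379f x242t x23f x201f x113t x56f

theorem l3891 (h : Good α) (x94f : α 94 = false) (x327t : α 327 = true) (x71f : α 71 = false) (x97f : α 97 = false) (x379f : α 379 = false) (x89f : α 89 = false) (x239f : α 239 = false) (x58t : α 58 = true) (x1t : α 1 = true) (x54t : α 54 = true) (x92t : α 92 = true) (x57f : α 57 = false) (x306f : α 306 = false) (x346t : α 346 = true) : False :=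
  have x201f : α 201 = false := ff fun y => c80 h x1t x58t y
  have x61f : α 61 = false := ff fun y => l3870 h y x54t
  have x242t : α 242 = true := tt fun y => c1556 h x61f x97f y
  have x113t : α 113 = true := tt fun y => l3846 h y x242t x201f x57f x92t
  have x197f : α 197 = false := ff fun y => l3796 h y x54t
  have x237t : α 237 = true := tt fun y => c1553 h x197f x61f y x97f
  have x59t : α 59 = true := tt fun y => l3669 h y x61f
  have x56f : α 56 = false := ff fun y => c57 h y x1t x59t
  have x53t : α 53 = true := tt fun y => l3648 h y x56f
  have x196f : α 196 = false := ff fun y => c32 h y x53t x1t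
  have x204t : α 204 = true := tt fun y => l3702 h x196f y
  have x250f : α 250 = false := ff fun y => c82 h x1t x204t x58t y
  have x91f : α 91 = false := ff fun y => l3615 h y x58t x61f x197f
  have x272f : α 272 = false := ff fun y => l3740 h y x346t
  have x22t : α 22 = true := tt fun y => c656 h x272f x94f y
  have x233t : α 233 = true := tt fun y => c1420 h x94f x57f y x201f
  have x238t : α 238 = true := tt fun y => c1982 h x94f y x91f x250f
  have x158f : α 158 = false := ff fun y => l3451 h y x233t x201f x53t
  have x189t : α 189 = true := tt fun y => l3890 h y x233t x94f x327t x113t x97f x379f x89f x201f x58t x56f x54t x92t x306f x346t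
  have x387f : α 387 = false := ff fun y => c1527 h x59t x189t y
  have x20f : α 20 = false := ff fun y => c542 h y x59t x189t
  have x19f : α 19 = false := ff fun y => c484 h y x58t x189t
  have x399f : α 399 = false := ff fun y => c1485 h x58t x189t y
  have x70t : α 70 = true := tt fun y => c1693 h y x201f x387f
  have x85t : α 85 = true := tt fun y => c531 h x57f x20f y
  have x106t : α 106 = true := tt fun y => l3812 h x387f x20f x233t x201f y
  have x257t : α 257 = true := tt fun y => c493 h x19f x91f y
  have x451f : α 451 = false := ff fun y => c1697 h x70t x233t y
  have x459t : α 459 = true := tt fun y => l3600 h y x70t x379f x272f x158f x92t x94f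
  have x117f : α 117 = false := ff fun y => c1882 h x238t y x85t
  have x380f : α 380 = false := ff fun y => c3037 h x237t x257t y
  have x179t : α 179 = true := tt fun y => c1718 h y x71f x451f x387f
  have x299t : α 299 = true := tt fun y => c570 h x20f x117f y
  have x340t : α 340 = true := tt fun y => c3284 h x380f y x399f
  have x80f : α 80 = false := ff fun y => c649 h x179t y x106t x22t
  have x264f : α 264 = false := ff fun y => c3053 h y x238t x299t
  have x28f : α 28 = false := ff fun y => l3636 h y x340t
  have x10t : α 10 = true := tt fun y => c198 h x239f x80f y
  l3798 h x264f x459t x10t x28f x1t x20f x54t x59t x346t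

theorem l3892 (h : Good α) (x340t : α 340 = true) (x273t : α 273 = true) (x114t : α 114 = true) (x257t : α 257 = true) (x180f : α 180 = false) (x106f : α 106 = false) (x113t : α 113 = true) (x202f : α 202 = false) (x54t : α 54 = true) (x306f : α 306 = false) (x346t : α 346 = true) : False :=
  have x158f : α 158 = false := ff fun y => l3694 h x114t y
  have x275f : α 275 = false := ff fun y => l3886 h y x158f x346t
  have x272f : α 272 = false := ff fun y => l3740 h y x346t
  have x576f : α 576 = false := ff fun y => l3724 h x340t y
  have x260f : α 260 = false := ff fun y => l3503 h y x340t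
  have x285f : α 285 = false := ff fun y => l3453 h y x114t x180f x346t x113t x340t x576f
  have x24f : α 24 = false := ff fun y => l3885 h y x260f x54t x346t
  have x467t : α 467 = true := tt fun y => c2672 h y x285f x158f
  have x454f : α 454 = false := ff fun y => l3716 h y x467t
  have x381f : α 381 = false := ff fun y => l3661 h y x467t x54t
  have x108t : α 108 = true := tt fun y => c753 h x24f y x381f x454f
  have x120f : α 120 = false := ff fun y => l3685 h x108t y
  have x130t : α 130 = true := tt fun y => c2450 h x272f x120f x306f y
  have x16t : α 16 = true := tt fun y => c324 h x120f x24f y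
  have x314f : α 314 = false := ff fun y => l3569 h x120f x275f x54t y
  have x26f : α 26 = false := ff fun y => c330 h x130t y x16t
  have x157t : α 157 = true := tt fun y => c2653 h y x202f x314f
  have x38t : α 38 = true := tt fun y => c794 h x106f x26f y
  have x146f : α 146 = false := ff fun y => c2544 h y x157t x257t x273t
  have x98f : α 98 = false := ff fun y => c1068 h x38t y x257t
  have x336t : α 336 = true := tt fun y => c809 h x26f x146f y
  have x277t : α 277 = true := tt fun y => c804 h x26f x98f y
  c3139 h x336t x257t x277t

theorem l3893 (h : Good α) (x257t : α 257 = true) (x180f : α 180 = false) (x106f : α 106 = false) (x327t : α 327 = true) (x113t : α 113 = true) (x97f : α 97 = false) (x53t : α 53 = true) (x58t : α 58 = true) (x202f : α 202 = false) (x54t : α 54 = true) (x306f : α 306 = false) (x346t : α 346 = true) : False :=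
  have x61f : α 61 = false := ff fun y => l3870 h y x54t
  have x197f : α 197 = false := ff fun y => l3796 h y x54t
  have x237t : α 237 = true := tt fun y => c1553 h x197f x61f y x97f
  have x91f : α 91 = false := ff fun y => l3615 h y x58t x61f x197f
  have x272f : α 272 = false := ff fun y => l3740 h y x346t
  have x298f : α 298 = false := ff fun y => c3035 h y x237t x257t
  have x114t : α 114 = true := tt fun y => l3889 h y x298f x327t x91f x53t x58t x272f
  have x23f : α 23 = false := ff fun y => l3628 h y x114t x53t
  have x273t : α 273 = true := tt fun y => c706 h x23f x97f y
  have x340f : α 340 = false := ff fun y => l3892 h y x273t x114t x257t x180f x106f x113t x202f x54t x306f x346t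
  have x183t : α 183 = true := tt fun y => c2006 h x91f y x340f
  have x189t : α 189 = true := tt fun y => c2182 h x97f y x340f
  c2751 h x183t x189t x273t

theorem l3894 (h : Good α) (x97f : α 97 = false) (x58t : α 58 = true) (x1t : α 1 = true) (x200t : α 200 = true) (x54t : α 54 = true) (x92t : α 92 = true) (x57f : α 57 = false) (x306f : α 306 = false) (x346t : α 346 = true) : False :=
  have x61f : α 61 = false := ff fun y => l3870 h y x54t
  have x59t : α 59 = true := tt fun y => l3669 h y x61f
  have x56f : α 56 = false := ff fun y => c57 h y x1t x59t
  have x53t : α 53 = true := tt fun y => l3648 h y x56f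
  have x196f : α 196 = false := ff fun y => c32 h y x53t x1t
  have x204t : α 204 = true := tt fun y => l3702 h x196f y
  have x239f : α 239 = false := ff fun y => c44 h y x200t x54t x1t
  have x379f : α 379 = false := ff fun y => l3463 h y x200t x239f x53t
  have x89f : α 89 = false := ff fun y => l3800 h y x200t x1t x59t x58t
  have x197f : α 197 = false := ff fun y => l3796 h y x54t
  have x91f : α 91 = false := ff fun y => l3615 h y x58t x61f x197f
  have x201f : α 201 = false := ff fun y => c80 h x1t x58t y
  have x202f : α 202 = false := ff fun y => c90 h x1t x59t y
  have x328f : α 328 = false := ff fun y => l3660 h x54t y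
  have x242t : α 242 = true := tt fun y => c1556 h x61f x97f y
  have x237t : α 237 = true := tt fun y => c1553 h x197f x61f y x97f
  have x236t : α 236 = true := tt fun y => c1988 h x239f y x91f x97f
  have x113t : α 113 = true := tt fun y => l3846 h y x242t x201f x57f x92t
  have x353f : α 353 = false := ff fun y => c1487 h y x200t x237t x58t
  have x71f : α 71 = false := ff fun y => l3842 h y x236t x56f x200t
  have x547t : α 547 = true := tt fun y => c3065 h y x353f x239f
  have x449f : α 449 = false := ff fun y => c2076 h x547t x236t y x92t
  have x402f : α 402 = false := ff fun y => c118 h x547t x200t y x1t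
  have x205t : α 205 = true := tt fun y => c2947 h x449f x306f y
  have x327t : α 327 = true := tt fun y => c3263 h x328f y x402f
  have x443t : α 443 = true := tt fun y => c3344 h x449f x402f y
  have x94t : α 94 = true := tt fun y => l3891 h y x327t x71f x97f x379f x89f x239f x58t x1t x54t x92t x57f x306f x346t
  have x106f : α 106 = false := ff fun y => c2103 h x94t y x205t
  have x238f : α 238 = false := ff fun y => c1321 h x94t y x54t x204t
  have x180f : α 180 = false := ff fun y => l3461 h y x238f x94t x242t x91f x57f x201f x58t x53t
  have x257f : α 257 = false := ff fun y => l3893 h y x180f x106f x327t x113t x97f x53t x58t x202f x54t x306f x346t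
  have x487t : α 487 = true := tt fun y => c2034 h x91f x257f y
  have x423t : α 423 = true := tt fun y => c2293 h x306f x106f y x257f
  c3370 h x443t x423t x487t

theorem l3895 (h : Good α) (x183f : α 183 = false) (x106f : α 106 = false) (x180f : α 180 = false) (x257t : α 257 = true) (x113t : α 113 = true) (x114t : α 114 = true) (x189f : α 189 = false) (x91f : α 91 = false) (x202f : α 202 = false) (x54t : α 54 = true) (x306f : α 306 = false) (x346t : α 346 = true) : False :=
  have x340t : α 340 = true := tt fun y => c2006 h x91f x183f y
  have x273t : α 273 = true := tt fun y => c2750 h x183f x189f y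
  l3892 h x340t x273t x114t x257t x180f x106f x113t x202f x54t x306f x346t

theorem l3896 (h : Good α) (x1t : α 1 = true) (x54t : α 54 = true) (x92t : α 92 = true) (x346t : α 346 = true) (x249t : α 249 = true) : False :=
  have x57f : α 57 = false := ff fun y => l3880 h y x346t x249t
  have x200t : α 200 = true := tt fun y => l3884 h y x54t x92t x57f x249t
  have x61f : α 61 = false := ff fun y => l3870 h y x54t
  have x59t : α 59 = true := tt fun y => l3669 h y x61f
  have x313f : α 313 = false := ff fun y => l3674 h x59t y
  have x197f : α 197 = false := ff fun y => l3796 h y x54t
  have x328f : α 328 = false := ff fun y => l3660 h x54t y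
  have x306f : α 306 = false := ff fun y => l3868 h y x346t x249t
  have x272f : α 272 = false := ff fun y => l3740 h y x346t
  have x543f : α 543 = false := ff fun y => l3582 h y x1t x61f
  have x202f : α 202 = false := ff fun y => c90 h x1t x59t y
  have x56f : α 56 = false := ff fun y => c57 h y x1t x59t
  have x58t : α 58 = true := tt fun y => l3882 h y x1t x54t x92t x249t
  have x239f : α 239 = false := ff fun y => c44 h y x200t x54t x1t
  have x53t : α 53 = true := tt fun y => l3648 h y x56f
  have x201f : α 201 = false := ff fun y => c80 h x1t x58t y
  have x91f : α 91 = false := ff fun y => l3615 h y x58t x61f x197f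
  have x89f : α 89 = false := ff fun y => l3800 h y x200t x1t x59t x58t
  have x379f : α 379 = false := ff fun y => l3463 h y x200t x239f x53t
  have x196f : α 196 = false := ff fun y => c32 h y x53t x1t
  have x204t : α 204 = true := tt fun y => l3702 h x196f y
  have x250f : α 250 = false := ff fun y => c82 h x1t x204t x58t y
  have x97t : α 97 = true := tt fun y => l3894 h y x58t x1t x200t x54t x92t x57f x306f x346t
  have x237f : α 237 = false := ff fun y => c2047 h x249t x92t y x97t
  have x236f : α 236 = false := ff fun y => c1466 h x200t y x58t x97t
  have x189f : α 189 = false := ff fun y => l3845 h y x97t x56f x58t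
  have x114t : α 114 = true := tt fun y => l3588 h y x237f x58t x91f
  have x443t : α 443 = true := tt fun y => c2024 h y x237f x91f
  have x10t : α 10 = true := tt fun y => l3860 h y x239f x236f x200t
  have x158f : α 158 = false := ff fun y => l3694 h x114t y
  have x23f : α 23 = false := ff fun y => l3628 h y x114t x53t
  have x402f : α 402 = false := ff fun y => c84 h y x1t x443t x58t
  have x449f : α 449 = false := ff fun y => c2049 h y x92t x443t x97t
  have x28f : α 28 = false := ff fun y => l3618 h x10t y
  have x327t : α 327 = true := tt fun y => c3263 h x328f y x402f
  have x242t : α 242 = true := tt fun y => c1583 h x402f x61f x543f y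
  have x205t : α 205 = true := tt fun y => c2947 h x449f x306f y
  have x298f : α 298 = false := ff fun y => l3696 h y x327t x114t
  have x113t : α 113 = true := tt fun y => l3846 h y x242t x201f x57f x92t
  have x20t : α 20 = true := tt fun y => l3799 h x237f x242t x204t x1t y x56f x61f x92t x58t x346t x249t
  have x257t : α 257 = true := tt fun y => c3034 h x298f x237f y
  have x94t : α 94 = true := tt fun y => l3601 h y x113t x189f x97t x250f x1t x61f
  have x180f : α 180 = false := ff fun y => l3599 h y x379f x242t x23f x201f x113t x56f
  have x264f : α 264 = false := ff fun y => c556 h y x92t x20t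
  have x233f : α 233 = false := ff fun y => c2041 h x94t x92t y x242t
  have x106f : α 106 = false := ff fun y => c2103 h x94t y x205t
  have x238f : α 238 = false := ff fun y => c1321 h x94t y x54t x204t
  have x70t : α 70 = true := tt fun y => l3662 h y x180f x56f
  have x188t : α 188 = true := tt fun y => l3664 h y x264f x56f
  have x299t : α 299 = true := tt fun y => c3052 h x264f x238f y
  have x378t : α 378 = true := tt fun y => c2668 h x158f x233f y
  have x22t : α 22 = true := tt fun y => c661 h x306f x106f y
  have x459t : α 459 = true := tt fun y => l3594 h y x70t x188t x379f x272f x158f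
  have x117f : α 117 = false := ff fun y => c571 h x20t y x299t
  have x387f : α 387 = false := ff fun y => c517 h x22t x20t x378t y
  have x485f : α 485 = false := ff fun y => l3757 h y x10t x459t x28f x264f x346t
  have x85t : α 85 = true := tt fun y => c1881 h x238f x117f y
  have x120t : α 120 = true := tt fun y => c2457 h x485f x272f y
  have x108f : α 108 = false := ff fun y => l3685 h y x120t
  have x123f : α 123 = false := ff fun y => l3818 h x89f y x108f x92t
  have x550t : α 550 = true := tt fun y => c2479 h x123f x313f y
  have x380f : α 380 = false := ff fun y => c3144 h x257t y x550t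
  have x183t : α 183 = true := tt fun y => l3895 h y x106f x180f x257t x113t x114t x189f x91f x202f x54t x306f x346t
  have x451f : α 451 = false := ff fun y => c2755 h x257t x183t y x378t
  have x340f : α 340 = false := ff fun y => l3465 h y x451f x10t x387f x459t x114t x158f x28f x272f x180f x233f x54t
  have x399t : α 399 = true := tt fun y => c3284 h x380f x340f y
  have x487t : α 487 = true := tt fun y => c3286 h y x380f x340f
  c1889 h x205t x85t x487t x399t

theorem l3897 (h : Good α) (x97t : α 97 = true) (x201f : α 201 = false) (x257t : α 257 = true) (x54t : α 54 = true) (x92t : α 92 = true) (x346t : α 346 = true) (x249t : α 249 = true) : False :=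
  have x57f : α 57 = false := ff fun y => l3880 h y x346t x249t
  have x61f : α 61 = false := ff fun y => l3870 h y x54t
  have x1f : α 1 = false := ff fun y => l3896 h y x54t x92t x346t x249t
  have x242t : α 242 = true := tt fun y => c99 h x1f x61f x201f y
  have x113t : α 113 = true := tt fun y => l3846 h y x242t x201f x57f x92t
  have x52f : α 52 = false := ff fun y => l3640 h x54t y
  have x53t : α 53 = true := tt fun y => c20 h y x1f x52f
  have x56f : α 56 = false := ff fun y => l3649 h x53t y
  have x199t : α 199 = true := tt fun y => c59 h y x56f x1f
  have x195t : α 195 = true := tt fun y => c25 h x1f x52f y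
  have x202f : α 202 = false := ff fun y => l3717 h x195t y
  have x197f : α 197 = false := ff fun y => l3796 h y x54t
  have x58t : α 58 = true := tt fun y => c61 h x57f x1f y
  have x91f : α 91 = false := ff fun y => l3615 h y x58t x61f x197f
  have x200t : α 200 = true := tt fun y => l3884 h y x54t x92t x57f x249t
  have x325t : α 325 = true := tt fun y => l3677 h x61f y
  have x59t : α 59 = true := tt fun y => l3669 h y x61f
  have x306f : α 306 = false := ff fun y => l3868 h y x346t x249t
  have x272f : α 272 = false := ff fun y => l3740 h y x346t
  have x36f : α 36 = false := ff fun y => l3639 h y x346t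
  have x237f : α 237 = false := ff fun y => c2047 h x249t x92t y x97t
  have x236f : α 236 = false := ff fun y => c1466 h x200t y x58t x97t
  have x189f : α 189 = false := ff fun y => l3845 h y x97t x56f x58t
  have x114t : α 114 = true := tt fun y => l3588 h y x237f x58t x91f
  have x443t : α 443 = true := tt fun y => c2024 h y x237f x91f
  have x353t : α 353 = true := tt fun y => c1575 h y x236f x197f x61f
  have x158f : α 158 = false := ff fun y => l3694 h x114t y
  have x23f : α 23 = false := ff fun y => l3628 h y x114t x53t
  have x449f : α 449 = false := ff fun y => c2049 h y x92t x443t x97t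
  have x239f : α 239 = false := ff fun y => c2914 h x353t y x200t
  have x275f : α 275 = false := ff fun y => l3886 h y x158f x346t
  have x205t : α 205 = true := tt fun y => c2947 h x449f x306f y
  have x379f : α 379 = false := ff fun y => l3463 h y x200t x239f x53t
  have x10t : α 10 = true := tt fun y => l3860 h y x239f x236f x200t
  have x180f : α 180 = false := ff fun y => l3599 h y x379f x242t x23f x201f x113t x56f
  have x28f : α 28 = false := ff fun y => l3618 h x10t y
  have x70t : α 70 = true := tt fun y => l3662 h y x180f x56f
  have x20t : α 20 = true := tt fun y => l3849 h y x70t x113t x189f x379f x23f x158f x236f x200t x57f x54t x61f x346t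
  have x264f : α 264 = false := ff fun y => c556 h y x92t x20t
  have x89f : α 89 = false := ff fun y => l3819 h y x20t x59t
  have x188t : α 188 = true := tt fun y => l3664 h y x264f x56f
  have x459t : α 459 = true := tt fun y => l3594 h y x70t x188t x379f x272f x158f
  have x24f : α 24 = false := ff fun y => l3752 h y x459t x275f x54t x36f
  have x485f : α 485 = false := ff fun y => l3757 h y x10t x459t x28f x264f x346t
  have x63t : α 63 = true := tt fun y => l3532 h x24f y x54t
  have x120t : α 120 = true := tt fun y => c2457 h x485f x272f y
  have x108f : α 108 = false := ff fun y => l3685 h y x120t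
  have x16t : α 16 = true := tt fun y => c322 h x24f y x108f
  have x192t : α 192 = true := tt fun y => c1943 h y x89f x108f
  have x337t : α 337 = true := tt fun y => c869 h x264f y x28f x108f
  have x116f : α 116 = false := ff fun y => c2052 h y x92t x192t
  have x554f : α 554 = false := ff fun y => c2856 h y x337t x192t
  have x422t : α 422 = true := tt fun y => c2413 h y x236f x116f
  have x494t : α 494 = true := tt fun y => c872 h y x554f x28f x108f
  have x262f : α 262 = false := ff fun y => c2852 h x422t y x192t
  have x398f : α 398 = false := ff fun y => c2897 h y x494t x199t x325t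
  have x382t : α 382 = true := tt fun y => c3019 h x236f x262f y
  have x194f : α 194 = false := ff fun y => c1617 h x63t y x382t
  have x349t : α 349 = true := tt fun y => c107 h x194f y x1f x202f
  have x51t : α 51 = true := tt fun y => c14 h x194f y x1f
  have x66f : α 66 = false := ff fun y => c338 h x51t x16t y
  have x122t : α 122 = true := tt fun y => c1645 h y x66f x108f
  have x246t : α 246 = true := tt fun y => c1646 h x66f x108f y
  have x88f : α 88 = false := ff fun y => c1930 h x188t y x205t x122t
  have x26t : α 26 = true := tt fun y => c720 h x88f x24f y
  have x106f : α 106 = false := ff fun y => c806 h y x26t x205t x122t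
  have x130f : α 130 = false := ff fun y => c330 h y x26t x16t
  have x183t : α 183 = true := tt fun y => l3895 h y x106f x180f x257t x113t x114t x189f x91f x202f x54t x306f x346t
  have x245t : α 245 = true := tt fun y => c2503 h x398f y x306f x130f
  have x82f : α 82 = false := ff fun y => c1849 h x245t x120t y
  have x348f : α 348 = false := ff fun y => c3091 h y x349t x245t x246t
  have x243f : α 243 = false := ff fun y => c2896 h x245t x199t y
  have x390t : α 390 = true := tt fun y => c1855 h x82f x197f y
  have x50t : α 50 = true := tt fun y => c1197 h x348f x194f x243f y
  have x181f : α 181 = false := ff fun y => c1186 h x50t x58t y x183t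
  have x191f : α 191 = false := ff fun y => c1196 h x390t y x50t
  c2729 h x275f x191f x181f

theorem l3898 (h : Good α) (x180f : α 180 = false) (x106f : α 106 = false) (x97f : α 97 = false) (x113t : α 113 = true) (x257t : α 257 = true) (x202f : α 202 = false) (x53t : α 53 = true) (x58t : α 58 = true) (x54t : α 54 = true) (x306f : α 306 = false) (x346t : α 346 = true) : False :=
  have x61f : α 61 = false := ff fun y => l3870 h y x54t
  have x197f : α 197 = false := ff fun y => l3796 h y x54t
  have x237t : α 237 = true := tt fun y => c1553 h x197f x61f y x97f
  have x298f : α 298 = false := ff fun y => c3035 h y x237t x257t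
  have x56f : α 56 = false := ff fun y => l3649 h x53t y
  have x59t : α 59 = true := tt fun y => l3669 h y x61f
  have x36f : α 36 = false := ff fun y => l3639 h y x346t
  have x327f : α 327 = false := ff fun y => l3893 h x257t x180f x106f y x113t x97f x53t x58t x202f x54t x306f x346t
  have x146t : α 146 = true := tt fun y => c2548 h x327f x197f y
  have x19t : α 19 = true := tt fun y => c478 h x327f x56f x298f y
  have x189f : α 189 = false := ff fun y => c1513 h x146t x59t x257t y
  have x23f : α 23 = false := ff fun y => c460 h x19t y x113t
  have x340t : α 340 = true := tt fun y => c2182 h x97f x189f y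
  have x273t : α 273 = true := tt fun y => c706 h x23f x97f y
  have x260f : α 260 = false := ff fun y => l3503 h y x340t
  have x114f : α 114 = false := ff fun y => l3892 h x340t x273t y x257t x180f x106f x113t x202f x54t x306f x346t
  have x157f : α 157 = false := ff fun y => c2544 h x146t y x257t x273t
  have x24f : α 24 = false := ff fun y => l3885 h y x260f x54t x346t
  have x285t : α 285 = true := tt fun y => c1036 h x36f x114f y
  have x314t : α 314 = true := tt fun y => c2653 h x157f x202f y
  have x275f : α 275 = false := ff fun y => c3227 h x346t y x285t
  have x120t : α 120 = true := tt fun y => l3569 h y x275f x54t x314t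
  have x291f : α 291 = false := ff fun y => l3700 h y x314t x120t
  have x108f : α 108 = false := ff fun y => l3685 h y x120t
  have x413t : α 413 = true := tt fun y => c2317 h x108f x291f x260f y
  have x191t : α 191 = true := tt fun y => c752 h x24f x108f y x260f
  c1336 h x54t x314t x191t x413t

theorem l3899 (h : Good α) (x180t : α 180 = true) (x379f : α 379 = false) (x113t : α 113 = true) (x242t : α 242 = true) (x201f : α 201 = false) (x91f : α 91 = false) (x53t : α 53 = true) (x58t : α 58 = true) (x272f : α 272 = false) : False :=
  have x56f : α 56 = false := ff fun y => l3649 h x53t y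
  have x23t : α 23 = true := tt fun y => l3599 h x180t x379f x242t y x201f x113t x56f
  have x81f : α 81 = false := ff fun y => c699 h x23t x113t y x180t
  have x184f : α 184 = false := ff fun y => c689 h y x53t x23t
  l3459 h x184f x272f x81f x91f x58t

theorem l3900 (h : Good α) (x201f : α 201 = false) (x257t : α 257 = true) (x54t : α 54 = true) (x92t : α 92 = true) (x346t : α 346 = true) (x249t : α 249 = true) : False :=
  have x52f : α 52 = false := ff fun y => l3640 h x54t y
  have x1f : α 1 = false := ff fun y => l3896 h y x54t x92t x346t x249t
  have x195t : α 195 = true := tt fun y => c25 h x1f x52f y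
  have x202f : α 202 = false := ff fun y => l3717 h x195t y
  have x197f : α 197 = false := ff fun y => l3796 h y x54t
  have x61f : α 61 = false := ff fun y => l3870 h y x54t
  have x57f : α 57 = false := ff fun y => l3880 h y x346t x249t
  have x58t : α 58 = true := tt fun y => c61 h x57f x1f y
  have x91f : α 91 = false := ff fun y => l3615 h y x58t x61f x197f
  have x53t : α 53 = true := tt fun y => c20 h y x1f x52f
  have x204t : α 204 = true := tt fun y => c101 h x1f x61f y
  have x200t : α 200 = true := tt fun y => l3884 h y x54t x92t x57f x249t
  have x59t : α 59 = true := tt fun y => l3669 h y x61f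
  have x306f : α 306 = false := ff fun y => l3868 h y x346t x249t
  have x272f : α 272 = false := ff fun y => l3740 h y x346t
  have x242t : α 242 = true := tt fun y => c99 h x1f x61f x201f y
  have x250f : α 250 = false := ff fun y => l3521 h y x57f x201f x204t
  have x113t : α 113 = true := tt fun y => l3846 h y x242t x201f x57f x92t
  have x97f : α 97 = false := ff fun y => l3897 h y x201f x257t x54t x92t x346t x249t
  have x237t : α 237 = true := tt fun y => c1553 h x197f x61f y x97f
  have x353f : α 353 = false := ff fun y => c1487 h y x200t x237t x58t
  have x298f : α 298 = false := ff fun y => c3035 h y x237t x257t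
  have x236t : α 236 = true := tt fun y => c1575 h x353f y x197f x61f
  have x239f : α 239 = false := ff fun y => c2910 h y x200t x236t
  have x379f : α 379 = false := ff fun y => l3463 h y x200t x239f x53t
  have x547t : α 547 = true := tt fun y => c3065 h y x353f x239f
  have x449f : α 449 = false := ff fun y => c2076 h x547t x236t y x92t
  have x205t : α 205 = true := tt fun y => c2947 h x449f x306f y
  have x180f : α 180 = false := ff fun y => l3899 h y x379f x113t x242t x201f x91f x53t x58t x272f
  have x106t : α 106 = true := tt fun y => l3898 h x180f y x97f x113t x257t x202f x53t x58t x54t x306f x346t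
  have x62f : α 62 = false := ff fun y => c1590 h x249t x106t y
  have x429f : α 429 = false := ff fun y => c2288 h y x249t x106t
  have x94f : α 94 = false := ff fun y => c2103 h y x106t x205t
  have x22t : α 22 = true := tt fun y => c642 h x57f y x62f
  have x114t : α 114 = true := tt fun y => c2392 h x429f x272f x298f y
  have x238t : α 238 = true := tt fun y => c1982 h x94f y x91f x250f
  have x20f : α 20 = false := ff fun y => c513 h x106t x22t y
  have x183f : α 183 = false := ff fun y => c660 h x106t x22t x257t y
  have x23f : α 23 = false := ff fun y => l3628 h y x114t x53t
  have x423f : α 423 = false := ff fun y => c2389 h x114t x237t y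
  have x444f : α 444 = false := ff fun y => c2080 h x92t x238t y
  have x273t : α 273 = true := tt fun y => c706 h x23f x97f y
  have x189t : α 189 = true := tt fun y => c575 h x306f x20f x423f y
  have x409t : α 409 = true := tt fun y => c73 h x57f x444f x1f y
  have x157f : α 157 = false := ff fun y => c1518 h x59t y x189t x273t
  have x430f : α 430 = false := ff fun y => c2825 h x189t x273t y
  have x333t : α 333 = true := tt fun y => c1567 h x61f x157f y
  have x334t : α 334 = true := tt fun y => c1256 h x52f y x183f x430f
  c3269 h x409t x334t x333t

theorem l3901 (h : Good α) (x97f : α 97 = false) (x201t : α 201 = true) (x58t : α 58 = true) (x200t : α 200 = true) (x61f : α 61 = false) (x197f : α 197 = false) : False :=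
  have x242t : α 242 = true := tt fun y => c1556 h x61f x97f y
  have x237t : α 237 = true := tt fun y => c1553 h x197f x61f y x97f
  have x236f : α 236 = false := ff fun y => c2904 h x200t y x201t x242t
  have x353f : α 353 = false := ff fun y => c1487 h y x200t x237t x58t
  c1575 h x353f x236f x197f x61f

theorem l3902 (h : Good α) (x201t : α 201 = true) (x58t : α 58 = true) (x200t : α 200 = true) (x61f : α 61 = false) (x197f : α 197 = false) (x92t : α 92 = true) (x249t : α 249 = true) : False :=
  have x97t : α 97 = true := tt fun y => l3901 h y x201t x58t x200t x61f x197f
  have x237f : α 237 = false := ff fun y => c2047 h x249t x92t y x97t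
  have x236f : α 236 = false := ff fun y => c1466 h x200t y x58t x97t
  have x351t : α 351 = true := tt fun y => c2887 h x197f x237f y
  have x353t : α 353 = true := tt fun y => c1575 h y x236f x197f x61f
  c2906 h x353t x200t x351t x201t

theorem l3903 (h : Good α) (x106t : α 106 = true) (x205t : α 205 = true) (x70t : α 70 = true) (x179t : α 179 = true) (x257f : α 257 = false) (x201f : α 201 = false) (x57f : α 57 = false) : False :=
  have x94f : α 94 = false := ff fun y => c2103 h y x106t x205t
  have x146f : α 146 = false := ff fun y => c2281 h x179t x106t y
  have x233t : α 233 = true := tt fun y => c1420 h x94f x57f y x201f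
  have x451t : α 451 = true := tt fun y => c2553 h x146f x257f y
  c1697 h x70t x233t x451t

theorem l3904 (h : Good α) (x54t : α 54 = true) (x92t : α 92 = true) (x346t : α 346 = true) (x249t : α 249 = true) : False :=
  have x57f : α 57 = false := ff fun y => l3880 h y x346t x249t
  have x306f : α 306 = false := ff fun y => l3868 h y x346t x249t
  have x272f : α 272 = false := ff fun y => l3740 h y x346t
  have x36f : α 36 = false := ff fun y => l3639 h y x346t
  have x52f : α 52 = false := ff fun y => l3640 h x54t y
  have x197f : α 197 = false := ff fun y => l3796 h y x54t
  have x61f : α 61 = false := ff fun y => l3870 h y x54t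
  have x200t : α 200 = true := tt fun y => l3884 h y x54t x92t x57f x249t
  have x1f : α 1 = false := ff fun y => l3896 h y x54t x92t x346t x249t
  have x58t : α 58 = true := tt fun y => c61 h x57f x1f y
  have x53t : α 53 = true := tt fun y => c20 h y x1f x52f
  have x91f : α 91 = false := ff fun y => l3615 h y x58t x61f x197f
  have x56f : α 56 = false := ff fun y => l3649 h x53t y
  have x201f : α 201 = false := ff fun y => l3902 h y x58t x200t x61f x197f x92t x249t
  have x242t : α 242 = true := tt fun y => c99 h x1f x61f x201f y
  have x257f : α 257 = false := ff fun y => l3900 h x201f y x54t x92t x346t x249t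
  have x113t : α 113 = true := tt fun y => l3846 h y x242t x201f x57f x92t
  have x487t : α 487 = true := tt fun y => c2034 h x91f x257f y
  have x19t : α 19 = true := tt fun y => c493 h y x91f x257f
  have x189f : α 189 = false := ff fun y => c484 h x19t x58t y
  have x23f : α 23 = false := ff fun y => c460 h x19t y x113t
  have x183t : α 183 = true := tt fun y => c2748 h x257f y x189f
  have x380f : α 380 = false := ff fun y => c1482 h x58t x183t y
  have x237t : α 237 = true := tt fun y => c3036 h y x257f x380f
  have x97f : α 97 = false := ff fun y => c2047 h x249t x92t x237t y
  have x353f : α 353 = false := ff fun y => c1487 h y x200t x237t x58t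
  have x340t : α 340 = true := tt fun y => c2182 h x97f x189f y
  have x236t : α 236 = true := tt fun y => c1575 h x353f y x197f x61f
  have x260f : α 260 = false := ff fun y => l3503 h y x340t
  have x239f : α 239 = false := ff fun y => c2910 h y x200t x236t
  have x71f : α 71 = false := ff fun y => l3842 h y x236t x56f x200t
  have x379f : α 379 = false := ff fun y => l3463 h y x200t x239f x53t
  have x547t : α 547 = true := tt fun y => c3065 h y x353f x239f
  have x179t : α 179 = true := tt fun y => c1716 h y x71f x257f x189f
  have x180f : α 180 = false := ff fun y => l3899 h y x379f x113t x242t x201f x91f x53t x58t x272f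
  have x449f : α 449 = false := ff fun y => c2076 h x547t x236t y x92t
  have x70t : α 70 = true := tt fun y => l3662 h y x180f x56f
  have x205t : α 205 = true := tt fun y => c2947 h x449f x306f y
  have x106f : α 106 = false := ff fun y => l3903 h y x205t x70t x179t x257f x201f x57f
  have x22t : α 22 = true := tt fun y => c661 h x306f x106f y
  have x423t : α 423 = true := tt fun y => c2293 h x306f x106f y x257f
  have x146t : α 146 = true := tt fun y => c2282 h x106f y x257f
  have x20t : α 20 = true := tt fun y => c564 h x106f y x257f x189f
  have x114f : α 114 = false := ff fun y => c2389 h y x237t x423t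
  have x443f : α 443 = false := ff fun y => c3370 h y x423t x487t
  have x264f : α 264 = false := ff fun y => c556 h y x92t x20t
  have x285t : α 285 = true := tt fun y => c1036 h x36f x114f y
  have x18t : α 18 = true := tt fun y => c419 h x36f y x114f x91f
  have x184t : α 184 = true := tt fun y => c714 h x272f y x114f x23f
  have x94t : α 94 = true := tt fun y => c1984 h x449f y x443f x91f
  have x188t : α 188 = true := tt fun y => l3664 h y x264f x56f
  have x275f : α 275 = false := ff fun y => c3227 h x346t y x285t
  have x75f : α 75 = false := ff fun y => c428 h x54t x18t y
  have x98f : α 98 = false := ff fun y => c429 h x54t x18t x146t y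
  have x81f : α 81 = false := ff fun y => c1682 h x188t x184t x70t y
  have x233f : α 233 = false := ff fun y => c2041 h x94t x92t y x242t
  have x481t : α 481 = true := tt fun y => c2214 h x98f x257f y
  have x378t : α 378 = true := tt fun y => c1843 h x81f x201f y
  have x158t : α 158 = true := tt fun y => c700 h x114f x23f y x81f
  have x115t : α 115 = true := tt fun y => c1766 h x75f y x233f
  have x387f : α 387 = false := ff fun y => c517 h x22t x20t x378t y
  have x467f : α 467 = false := ff fun y => c2673 h y x285t x158t
  have x304f : α 304 = false := ff fun y => c456 h x18t x115t y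
  have x451t : α 451 = true := tt fun y => c2822 h x257f x189f y x387f
  have x454t : α 454 = true := tt fun y => c3160 h x275f x260f x467f y
  have x517f : α 517 = false := ff fun y => c3377 h x481t x451t y
  have x574f : α 574 = false := ff fun y => c3378 h y x481t x451t
  have x381f : α 381 = false := ff fun y => l3658 h y x454t x54t
  c3246 h x381f x304f x574f x517f

theorem l3905 (h : Good α) (x239f : α 239 = false) (x547f : α 547 = false) (x543f : α 543 = false) (x242t : α 242 = true) (x54f : α 54 = false) (x92t : α 92 = true) : False :=
  have x94t : α 94 = true := tt fun y => c1322 h x239f y x54f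
  have x233t : α 233 = true := tt fun y => c2993 h x547f x239f x543f y
  c2041 h x94t x92t x233t x242t

theorem l3906 (h : Good α) (x91f : α 91 = false) (x242t : α 242 = true) (x54f : α 54 = false) (x92t : α 92 = true) : False :=
  have x233t : α 233 = true := tt fun y => c1314 h x54f x91f y
  have x94t : α 94 = true := tt fun y => c1309 h y x54f x91f
  c2041 h x94t x92t x233t x242t

theorem l3907 (h : Good α) (x340t : α 340 = true) (x180f : α 180 = false) (x11f : α 11 = false) (x506t : α 506 = true) (x33t : α 33 = true) (x273t : α 273 = true) (x387f : α 387 = false) (x114t : α 114 = true) (x233f : α 233 = false) (x91t : α 91 = true) (x113t : α 113 = true) (x346t : α 346 = true) : False :=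
  have x158f : α 158 = false := ff fun y => l3694 h x114t y
  have x36f : α 36 = false := ff fun y => l3639 h y x346t
  have x576f : α 576 = false := ff fun y => l3724 h x340t y
  have x285f : α 285 = false := ff fun y => l3453 h y x114t x180f x346t x113t x340t x576f
  have x467t : α 467 = true := tt fun y => c2672 h y x285f x158f
  have x454f : α 454 = false := ff fun y => l3716 h y x467t
  have x478t : α 478 = true := tt fun y => c3384 h x454f y x576f
  have x7t : α 7 = true := tt fun y => c170 h y x180f x454f x576f
  have x234t : α 234 = true := tt fun y => c3008 h y x387f x454f x576f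
  have x259f : α 259 = false := ff fun y => c2037 h x91t x340t y x478t
  have x304t : α 304 = true := tt fun y => c2995 h x259f x233f y
  have x43t : α 43 = true := tt fun y => c204 h y x11f x259f x233f
  have x18t : α 18 = true := tt fun y => c424 h x36f y x285f x259f
  have x115f : α 115 = false := ff fun y => c456 h x18t y x304t
  have x522f : α 522 = false := ff fun y => c963 h x33t x506t x43t y
  have x287f : α 287 = false := ff fun y => c962 h x33t x273t x43t y
  have x483t : α 483 = true := tt fun y => c2406 h x115f y x233f x576f
  have x112t : α 112 = true := tt fun y => c2362 h y x287f x522f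
  have x284f : α 284 = false := ff fun y => c2377 h x113t y x340t x483t
  have x268f : α 268 = false := ff fun y => c2360 h x112t y x478t
  have x565t : α 565 = true := tt fun y => c3198 h x268f x387f y
  have x49t : α 49 = true := tt fun y => c1173 h y x180f x268f x387f
  have x370f : α 370 = false := ff fun y => c171 h x7t y x234t x565t
  have x256f : α 256 = false := ff fun y => c1170 h y x113t x49t
  c3136 h x256f x284f x370f

theorem l3908 (h : Good α) (x18t : α 18 = true) (x285f : α 285 = false) (x340f : α 340 = false) (x95t : α 95 = true) (x222f : α 222 = false) (x91t : α 91 = true) : False :=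
  have x259f : α 259 = false := ff fun y => c442 h x18t x91t y
  have x267f : α 267 = false := ff fun y => c447 h x18t x95t y
  have x339t : α 339 = true := tt fun y => c3153 h x285f x259f y
  have x372t : α 372 = true := tt fun y => c3155 h y x285f x259f
  have x141t : α 141 = true := tt fun y => c2527 h y x267f x222f x340f
  c2147 h x141t x95t x372t x339t

theorem l3909 (h : Good α) (x285f : α 285 = false) (x340f : α 340 = false) (x275f : α 275 = false) (x95t : α 95 = true) (x439f : α 439 = false) (x222f : α 222 = false) (x52f : α 52 = false) (x188f : α 188 = false) (x91t : α 91 = true) (x53f : α 53 = false) (x54f : α 54 = false) (x57f : α 57 = false) (x346t : α 346 = true) : False :=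
  have x36f : α 36 = false := ff fun y => l3639 h y x346t
  have x362t : α 362 = true := tt fun y => c3228 h x275f x285f y
  have x18f : α 18 = false := ff fun y => l3908 h y x285f x340f x95t x222f x91t
  have x187t : α 187 = true := tt fun y => c430 h y x54f x18f
  have x259t : α 259 = true := tt fun y => c424 h x36f x18f x285f y
  have x90f : α 90 = false := ff fun y => c1973 h x346t x187t y
  have x489f : α 489 = false := ff fun y => c2039 h x91t x259t y
  have x96t : α 96 = true := tt fun y => c1218 h y x53f x90f x52f
  have x419t : α 419 = true := tt fun y => c3367 h x489f y x439f
  have x185f : α 185 = false := ff fun y => c2170 h x346t y x96t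
  have x137f : α 137 = false := ff fun y => c2164 h x346t x96t x362t y
  have x561f : α 561 = false := ff fun y => c3317 h x362t x419t y
  have x55t : α 55 = true := tt fun y => c1356 h x188f x57f x185f y
  have x318t : α 318 = true := tt fun y => c2518 h x137f y x561f
  c1367 h x187t x55t x419t x318t

theorem l3910 (h : Good α) (x18f : α 18 = false) (x93t : α 93 = true) (x112t : α 112 = true) (x105f : α 105 = false) (x285t : α 285 = true) (x340f : α 340 = false) (x180f : α 180 = false) (x387f : α 387 = false) (x60f : α 60 = false) (x61t : α 61 = true) (x346t : α 346 = true) : False :=
  have x190t : α 190 = true := tt fun y => c435 h x18f x60f y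
  have x15t : α 15 = true := tt fun y => c275 h x105f y x18f
  have x267f : α 267 = false := ff fun y => l3678 h y x190t x61t
  have x256f : α 256 = false := ff fun y => c302 h x15t x93t y
  have x478t : α 478 = true := tt fun y => c3195 h x267f x340f y
  have x101t : α 101 = true := tt fun y => l3680 h y x256f
  have x268f : α 268 = false := ff fun y => c2360 h x112t y x478t
  have x49f : α 49 = false := ff fun y => c1164 h x346t x101t x285t y
  c1173 h x49f x180f x268f x387f

theorem l3911 (h : Good α) (x94t : α 94 = true) (x257f : α 257 = false) (x197f : α 197 = false) (x61t : α 61 = true) (x58t : α 58 = true) (x54f : α 54 = false) (x92t : α 92 = true) (x57f : α 57 = false) (x306f : α 306 = false) (x346t : α 346 = true) : False :=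
  have x97f : α 97 = false := ff fun y => c1545 h x92t x61t y
  have x236f : α 236 = false := ff fun y => c1549 h y x92t x61t
  have x1t : α 1 = true := tt fun y => c41 h x197f x54f y
  have x204f : α 204 = false := ff fun y => c102 h x1t x61t y
  have x242t : α 242 = true := tt fun y => l3790 h y x204f x54f x236f x197f x97f x58t
  have x91t : α 91 = true := tt fun y => l3906 h y x242t x54f x92t
  have x237f : α 237 = false := ff fun y => c1462 h y x91t x58t
  have x380t : α 380 = true := tt fun y => c3036 h x237f x257f y
  have x183f : α 183 = false := ff fun y => c1482 h x58t y x380t
  have x189t : α 189 = true := tt fun y => c2748 h x257f x183f y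
  have x19f : α 19 = false := ff fun y => c484 h y x58t x189t
  have x298t : α 298 = true := tt fun y => c3034 h y x237f x257f
  have x201f : α 201 = false := ff fun y => c80 h x1t x58t y
  have x113t : α 113 = true := tt fun y => l3846 h y x242t x201f x57f x92t
  have x250t : α 250 = true := tt fun y => c2877 h x197f x204f x237f y
  have x430f : α 430 = false := ff fun y => c2370 h x113t x250t y
  have x402t : α 402 = true := tt fun y => c1342 h y x197f x54f
  have x449f : α 449 = false := ff fun y => c1551 h y x92t x402t x61t
  have x205t : α 205 = true := tt fun y => c2947 h x449f x306f y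
  have x334t : α 334 = true := tt fun y => l3705 h x204f y
  have x60f : α 60 = false := ff fun y => l3449 h y x58t x1t
  have x53f : α 53 = false := ff fun y => l3778 h y x61t
  have x272f : α 272 = false := ff fun y => l3740 h y x346t
  have x233f : α 233 = false := ff fun y => c2041 h x94t x92t y x242t
  have x106f : α 106 = false := ff fun y => c2103 h x94t y x205t
  have x238f : α 238 = false := ff fun y => c1983 h x94t y x91t x250t
  have x354t : α 354 = true := tt fun y => c1346 h x54f x204f x233f y
  have x22t : α 22 = true := tt fun y => c661 h x306f x106f y
  have x299t : α 299 = true := tt fun y => c2291 h x106f y x257f x430f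
  have x188f : α 188 = false := ff fun y => l3779 h x238f y x242t x197f x61t x92t
  have x546f : α 546 = false := ff fun y => c3116 h x250t x354t y
  have x548f : α 548 = false := ff fun y => c3083 h x242t x354t y
  have x52f : α 52 = false := ff fun y => c640 h x22t x299t y x334t
  have x184t : α 184 = true := tt fun y => c2767 h x272f x188f y
  have x429t : α 429 = true := tt fun y => c2816 h y x272f x188f
  have x20t : α 20 = true := tt fun y => c533 h x188f x57f y
  have x114t : α 114 = true := tt fun y => c504 h x272f x188f y x19f
  have x406t : α 406 = true := tt fun y => c1446 h x57f x238f y x546f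
  have x409t : α 409 = true := tt fun y => c1351 h x54f y x233f x548f
  have x378t : α 378 = true := tt fun y => c1258 h x52f x183f y
  have x117f : α 117 = false := ff fun y => c2057 h x184t x92t y
  have x23f : α 23 = false := ff fun y => c719 h x429t x184t x298t y
  have x158f : α 158 = false := ff fun y => l3694 h x114t y
  have x222f : α 222 = false := ff fun y => c1995 h y x114t x91t
  have x439f : α 439 = false := ff fun y => c1464 h x91t x58t y x406t
  have x450f : α 450 = false := ff fun y => c86 h x1t x409t x58t y
  have x387f : α 387 = false := ff fun y => c517 h x22t x20t x378t y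
  have x95t : α 95 = true := tt fun y => l3489 h y x378t x183f x52f
  have x273t : α 273 = true := tt fun y => c2277 h x106f x117f x257f y
  have x81t : α 81 = true := tt fun y => c684 h x53f x23f y
  have x33t : α 33 = true := tt fun y => c681 h y x23f x97f
  have x275f : α 275 = false := ff fun y => l3886 h y x158f x346t
  have x70t : α 70 = true := tt fun y => c1688 h x272f x188f x158f y
  have x506t : α 506 = true := tt fun y => c3374 h x450f x430f y
  have x11f : α 11 = false := ff fun y => c213 h y x81t x242t
  have x180f : α 180 = false := ff fun y => c1680 h x70t x81t y
  have x340f : α 340 = false := ff fun y => l3907 h y x180f x11f x506t x33t x273t x387f x114t x233f x91t x113t x346t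
  have x285t : α 285 = true := tt fun y => l3909 h y x340f x275f x95t x439f x222f x52f x188f x91t x53f x54f x57f x346t
  have x259f : α 259 = false := ff fun y => c1997 h x114t x91t x285t y
  have x43t : α 43 = true := tt fun y => c204 h y x11f x259f x233f
  have x522f : α 522 = false := ff fun y => c963 h x33t x506t x43t y
  have x287f : α 287 = false := ff fun y => c962 h x33t x273t x43t y
  have x105f : α 105 = false := ff fun y => c961 h y x33t x43t
  have x112t : α 112 = true := tt fun y => c2362 h y x287f x522f
  have x32f : α 32 = false := ff fun y => c948 h x43t y x112t
  have x93t : α 93 = true := tt fun y => c674 h y x23f x32f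
  have x18t : α 18 = true := tt fun y => l3910 h y x93t x112t x105f x285t x340f x180f x387f x60f x61t x346t
  have x267f : α 267 = false := ff fun y => c447 h x18t x95t y
  have x478t : α 478 = true := tt fun y => c3195 h x267f x340f y
  have x268f : α 268 = false := ff fun y => c2360 h x112t y x478t
  have x49t : α 49 = true := tt fun y => c1173 h y x180f x268f x387f
  have x101f : α 101 = false := ff fun y => c1164 h x346t y x285t x49t
  have x256f : α 256 = false := ff fun y => c1170 h y x113t x49t
  l3680 h x101f x256f

theorem l3912 (h : Good α) (x257f : α 257 = false) (x58t : α 58 = true) (x92t : α 92 = true) (x346t : α 346 = true) (x249t : α 249 = true) : False :=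
  have x57f : α 57 = false := ff fun y => l3880 h y x346t x249t
  have x54f : α 54 = false := ff fun y => l3904 h y x92t x346t x249t
  have x61t : α 61 = true := tt fun y => l3795 h x54f y x92t x58t x249t
  have x197f : α 197 = false := ff fun y => c1547 h x249t x92t y x61t
  have x1t : α 1 = true := tt fun y => c41 h x197f x54f y
  have x201f : α 201 = false := ff fun y => c80 h x1t x58t y
  have x97f : α 97 = false := ff fun y => c1545 h x92t x61t y
  have x236f : α 236 = false := ff fun y => c1549 h y x92t x61t
  have x204f : α 204 = false := ff fun y => c102 h x1t x61t y
  have x242t : α 242 = true := tt fun y => l3790 h y x204f x54f x236f x197f x97f x58t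
  have x113t : α 113 = true := tt fun y => l3846 h y x242t x201f x57f x92t
  have x91t : α 91 = true := tt fun y => l3906 h y x242t x54f x92t
  have x237f : α 237 = false := ff fun y => c1462 h y x91t x58t
  have x250t : α 250 = true := tt fun y => c2877 h x197f x204f x237f y
  have x430f : α 430 = false := ff fun y => c2370 h x113t x250t y
  have x334t : α 334 = true := tt fun y => l3705 h x204f y
  have x53f : α 53 = false := ff fun y => l3778 h y x61t
  have x56t : α 56 = true := tt fun y => l3648 h x53f y
  have x327f : α 327 = false := ff fun y => l3667 h x56t y
  have x59f : α 59 = false := ff fun y => l3670 h y x61t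
  have x306f : α 306 = false := ff fun y => l3868 h y x346t x249t
  have x272f : α 272 = false := ff fun y => l3740 h y x346t
  have x298t : α 298 = true := tt fun y => c3034 h y x237f x257f
  have x380t : α 380 = true := tt fun y => c3036 h x237f x257f y
  have x183f : α 183 = false := ff fun y => c1482 h x58t y x380t
  have x423t : α 423 = true := tt fun y => c2756 h y x257f x183f
  have x94f : α 94 = false := ff fun y => l3911 h y x257f x197f x61t x58t x54f x92t x57f x306f x346t
  have x22t : α 22 = true := tt fun y => c656 h x272f x94f y
  have x238t : α 238 = true := tt fun y => c1320 h x94f y x54f x204f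
  have x264f : α 264 = false := ff fun y => l3862 h y x238t x57f x53f x272f
  have x184t : α 184 = true := tt fun y => l3652 h y x264f x53f
  have x429t : α 429 = true := tt fun y => l3709 h y x327f x264f
  have x341f : α 341 = false := ff fun y => c2066 h y x184t x92t
  have x117f : α 117 = false := ff fun y => c2057 h x184t x92t y
  have x23f : α 23 = false := ff fun y => c719 h x429t x184t x298t y
  have x106f : α 106 = false := ff fun y => c2288 h x429t x249t y
  have x188t : α 188 = true := tt fun y => c2117 h x341f y x94f
  have x273t : α 273 = true := tt fun y => c2277 h x106f x117f x257f y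
  have x81t : α 81 = true := tt fun y => c684 h x53f x23f y
  have x299t : α 299 = true := tt fun y => c2291 h x106f y x257f x430f
  have x70f : α 70 = false := ff fun y => c1682 h x188t x184t y x81t
  have x52f : α 52 = false := ff fun y => c640 h x22t x299t y x334t
  have x387t : α 387 = true := tt fun y => c1693 h x70f x201f y
  have x157t : α 157 = true := tt fun y => c1227 h x52f x59f y
  have x378t : α 378 = true := tt fun y => c1258 h x52f x183f y
  have x326f : α 326 = false := ff fun y => c2658 h y x157t x423t x273t
  have x20f : α 20 = false := ff fun y => c517 h x22t y x378t x387t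
  c543 h x306f x20f x326f x59f

theorem l3913 (h : Good α) (x58t : α 58 = true) (x92t : α 92 = true) (x346t : α 346 = true) (x249t : α 249 = true) : False :=
  have x54f : α 54 = false := ff fun y => l3904 h y x92t x346t x249t
  have x306f : α 306 = false := ff fun y => l3868 h y x346t x249t
  have x61t : α 61 = true := tt fun y => l3795 h x54f y x92t x58t x249t
  have x59f : α 59 = false := ff fun y => l3670 h y x61t
  have x97f : α 97 = false := ff fun y => c1545 h x92t x61t y
  have x197f : α 197 = false := ff fun y => c1547 h x249t x92t y x61t
  have x236f : α 236 = false := ff fun y => c1549 h y x92t x61t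
  have x53f : α 53 = false := ff fun y => l3778 h y x61t
  have x1t : α 1 = true := tt fun y => c41 h x197f x54f y
  have x402t : α 402 = true := tt fun y => c1342 h y x197f x54f
  have x56t : α 56 = true := tt fun y => l3648 h x53f y
  have x204f : α 204 = false := ff fun y => c102 h x1t x61t y
  have x443f : α 443 = false := ff fun y => c84 h x402t x1t y x58t
  have x327f : α 327 = false := ff fun y => l3667 h x56t y
  have x242t : α 242 = true := tt fun y => l3790 h y x204f x54f x236f x197f x97f x58t
  have x146t : α 146 = true := tt fun y => c2548 h x327f x197f y
  have x91t : α 91 = true := tt fun y => l3906 h y x242t x54f x92t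
  have x257t : α 257 = true := tt fun y => l3912 h y x58t x92t x346t x249t
  have x487f : α 487 = false := ff fun y => c2035 h x91t x257t y
  have x19f : α 19 = false := ff fun y => c494 h y x91t x257t
  have x106f : α 106 = false := ff fun y => c2283 h y x146t x257t
  have x423t : α 423 = true := tt fun y => c3369 h x443f y x487f
  have x22t : α 22 = true := tt fun y => c661 h x306f x106f y
  have x326f : α 326 = false := ff fun y => c2551 h y x146t x423t x257t
  have x20t : α 20 = true := tt fun y => c543 h x306f y x326f x59f
  have x264f : α 264 = false := ff fun y => c556 h y x92t x20t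
  have x117f : α 117 = false := ff fun y => c515 h x22t x20t y
  have x184t : α 184 = true := tt fun y => l3652 h y x264f x53f
  have x429t : α 429 = true := tt fun y => l3709 h y x327f x264f
  have x157t : α 157 = true := tt fun y => c2424 h x306f x117f x326f y
  have x273f : α 273 = false := ff fun y => c2544 h x146t x157t x257t y
  have x23t : α 23 = true := tt fun y => c706 h y x97f x273f
  have x298f : α 298 = false := ff fun y => c719 h x429t x184t y x23t
  have x222t : α 222 = true := tt fun y => c2971 h y x298f x443f
  have x114t : α 114 = true := tt fun y => c505 h x298f y x19f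
  c1995 h x222t x114t x91t

theorem l3914 (h : Good α) (x20t : α 20 = true) (x237f : α 237 = false) (x146t : α 146 = true) (x91t : α 91 = true) (x61t : α 61 = true) (x22t : α 22 = true) (x273f : α 273 = false) (x58f : α 58 = false) (x54f : α 54 = false) (x92t : α 92 = true) (x57f : α 57 = false) (x306f : α 306 = false) (x346t : α 346 = true) : False :=
  have x53f : α 53 = false := ff fun y => l3778 h y x61t
  have x56t : α 56 = true := tt fun y => l3648 h x53f y
  have x327f : α 327 = false := ff fun y => l3667 h x56t y
  have x1t : α 1 = true := tt fun y => c61 h x57f y x58f
  have x204f : α 204 = false := ff fun y => c102 h x1t x61t y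
  have x196t : α 196 = true := tt fun y => l3702 h y x204f
  have x334t : α 334 = true := tt fun y => l3705 h x204f y
  have x335t : α 335 = true := tt fun y => l3653 h x53f y
  have x97f : α 97 = false := ff fun y => c1545 h x92t x61t y
  have x236f : α 236 = false := ff fun y => c1549 h y x92t x61t
  have x200t : α 200 = true := tt fun y => c1465 h y x236f x58f x97f
  have x23t : α 23 = true := tt fun y => c706 h y x97f x273f
  have x250t : α 250 = true := tt fun y => c1468 h x58f x97f y
  have x272f : α 272 = false := ff fun y => l3740 h y x346t
  have x36f : α 36 = false := ff fun y => l3639 h y x346t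
  have x264f : α 264 = false := ff fun y => c556 h y x92t x20t
  have x28f : α 28 = false := ff fun y => c522 h x92t x20t y
  have x117f : α 117 = false := ff fun y => c515 h x22t x20t y
  have x106f : α 106 = false := ff fun y => c513 h y x22t x20t
  have x113t : α 113 = true := tt fun y => l3691 h y x264f
  have x184t : α 184 = true := tt fun y => l3652 h y x264f x53f
  have x429t : α 429 = true := tt fun y => l3709 h y x327f x264f
  have x379f : α 379 = false := ff fun y => l3767 h x264f y x23t
  have x257t : α 257 = true := tt fun y => c2277 h x106f x117f y x273f
  have x157t : α 157 = true := tt fun y => c2421 h x117f y x273f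
  have x423t : α 423 = true := tt fun y => c2431 h x306f x117f y x273f
  have x430f : α 430 = false := ff fun y => c2370 h x113t x250t y
  have x65f : α 65 = false := ff fun y => c1638 h y x113t x250t
  have x19f : α 19 = false := ff fun y => c460 h y x23t x113t
  have x341f : α 341 = false := ff fun y => c2066 h y x184t x92t
  have x298f : α 298 = false := ff fun y => c719 h x429t x184t y x23t
  have x161t : α 161 = true := tt fun y => c2676 h x379f x236f y
  have x577t : α 577 = true := tt fun y => c3024 h y x379f x236f
  have x451f : α 451 = false := ff fun y => c2554 h x146t x257t y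
  have x333f : α 333 = false := ff fun y => c1568 h x61t x157t y
  have x183f : α 183 = false := ff fun y => c2757 h x423t x257t y
  have x299t : α 299 = true := tt fun y => c2429 h x117f y x273f x430f
  have x114t : α 114 = true := tt fun y => c505 h x298f y x19f
  have x179f : α 179 = false := ff fun y => c2542 h y x161t x146t x157t
  have x52f : α 52 = false := ff fun y => c640 h x22t x299t y x334t
  have x158f : α 158 = false := ff fun y => l3694 h x114t y
  have x378t : α 378 = true := tt fun y => c1258 h x52f x183f y
  have x94f : α 94 = false := ff fun y => l3772 h x183f x52f x237f x57f y x61t x91t x58f x346t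
  have x275f : α 275 = false := ff fun y => l3886 h y x158f x346t
  have x387f : α 387 = false := ff fun y => c517 h x22t x20t x378t y
  have x95t : α 95 = true := tt fun y => l3489 h y x378t x183f x52f
  have x239t : α 239 = true := tt fun y => c1322 h y x94f x54f
  have x238t : α 238 = true := tt fun y => c1320 h x94f y x54f x204f
  have x188t : α 188 = true := tt fun y => c2100 h y x94f x106f
  have x71t : α 71 = true := tt fun y => c1718 h x179f y x451f x387f
  have x444f : α 444 = false := ff fun y => c2080 h x92t x238t y
  have x424f : α 424 = false := ff fun y => c1393 h x188t y x56t x335t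
  have x459t : α 459 = true := tt fun y => l3864 h y x188t x264f x158f x53f
  have x80f : α 80 = false := ff fun y => c511 h y x71t x22t x20t
  have x494t : α 494 = true := tt fun y => c3371 h y x424f x444f
  have x251t : α 251 = true := tt fun y => l3762 h y x183f x80f x52f x22t
  have x266f : α 266 = false := ff fun y => l3761 h y x95t x80f x23t x184t x53f x22t
  have x248t : α 248 = true := tt fun y => c3096 h x379f x266f y
  have x116t : α 116 = true := tt fun y => c2412 h x379f x236f x266f y
  have x198f : α 198 = false := ff fun y => c2895 h x248t y x251t
  have x93f : α 93 = false := ff fun y => c2088 h x248t y x251t x95t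
  have x34f : α 34 = false := ff fun y => c528 h x116t x92t y x20t
  have x108t : α 108 = true := tt fun y => l3760 h x116t x20t y x494t x92t
  have x96t : α 96 = true := tt fun y => c1269 h y x53f x93f
  have x120f : α 120 = false := ff fun y => l3685 h x108t y
  have x167f : α 167 = false := ff fun y => l3686 h x108t y
  have x260f : α 260 = false := ff fun y => l3687 h x108t y
  have x21f : α 21 = false := ff fun y => c604 h x184t x92t x96t y
  have x110f : α 110 = false := ff fun y => c2161 h x184t x96t y
  have x342f : α 342 = false := ff fun y => c2168 h y x184t x96t
  have x441f : α 441 = false := ff fun y => c2172 h y x248t x96t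
  have x90f : α 90 = false := ff fun y => c1956 h x248t x96t x251t y
  have x485t : α 485 = true := tt fun y => c2457 h y x272f x120f
  have x286t : α 286 = true := tt fun y => c1038 h y x120f x36f
  have x29t : α 29 = true := tt fun y => c893 h x379f x342f x80f y
  have x445t : α 445 = true := tt fun y => c1220 h x441f x53f y x52f
  have x271f : α 271 = false := ff fun y => c3063 h x459t x239t x485t y
  have x10f : α 10 = false := ff fun y => l3757 h x485t y x459t x28f x264f x346t
  have x258f : α 258 = false := ff fun y => l3765 h y x29t x286t x198f x251t x52f x54f x94f x61t x346t
  have x17f : α 17 = false := ff fun y => l3764 h y x29t x21f x90f x198f x93f x248t x183f x257t x52f x65f x184t x333f x196t x1t x94f x91t x58f x346t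
  have x484t : α 484 = true := tt fun y => c2136 h y x341f x271f x94f
  have x40t : α 40 = true := tt fun y => c183 h x10f y x167f
  have x496t : α 496 = true := tt fun y => c1978 h x90f x258f y
  have x294t : α 294 = true := tt fun y => c400 h y x110f x17f
  have x86t : α 86 = true := tt fun y => c392 h x275f y x17f
  have x47f : α 47 = false := ff fun y => c1154 h x577t x161t x484t y
  have x267f : α 267 = false := ff fun y => c1100 h x40t x108t y
  have x102f : α 102 = false := ff fun y => c1092 h x286t x40t x346t y
  have x412f : α 412 = false := ff fun y => c3365 h x445t y x496t
  have x50f : α 50 = false := ff fun y => c4 h x56t x1t x86t y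
  have x276t : α 276 = true := tt fun y => c1150 h x47f x117f y
  have x118t : α 118 = true := tt fun y => c983 h y x34f x47f
  have x44t : α 44 = true := tt fun y => c1127 h y x102f x260f
  have x14t : α 14 = true := tt fun y => c243 h x21f y x102f
  have x190t : α 190 = true := tt fun y => c614 h x21f y x102f x267f
  have x315t : α 315 = true := tt fun y => c1480 h y x58f x412f x183f
  have x156t : α 156 = true := tt fun y => c1183 h x50f x58f y
  have x121f : α 121 = false := ff fun y => c2465 h x276t x157t y
  have x170f : α 170 = false := ff fun y => c1131 h x118t x44t x251t y
  have x104f : α 104 = false := ff fun y => c238 h y x20t x14t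
  have x208f : α 208 = false := ff fun y => c1720 h x200t x71t x315t y
  have x119f : α 119 = false := ff fun y => c2447 h x294t y x315t x156t
  have x486t : α 486 = true := tt fun y => c2466 h x121f x273f y
  have x78t : α 78 = true := tt fun y => c603 h y x21f x170f x102f
  have x69t : α 69 = true := tt fun y => c987 h x34f y x208f
  have x265t : α 265 = true := tt fun y => c2335 h x110f x119f x258f y
  have x347f : α 347 = false := ff fun y => c3236 h x276t y x486t
  have x186f : α 186 = false := ff fun y => c1672 h x78t x190t x69t y
  have x288f : α 288 = false := ff fun y => c904 h x29t y x265t x486t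
  c2265 h x104f x288f x186f x347f

theorem l3915 (h : Good α) (x257t : α 257 = true) (x326t : α 326 = true) (x189t : α 189 = true) (x146t : α 146 = true) (x61t : α 61 = true) (x273f : α 273 = false) (x58f : α 58 = false) (x92t : α 92 = true) (x57f : α 57 = false) (x306f : α 306 = false) (x272f : α 272 = false) : False :=
  have x59f : α 59 = false := ff fun y => l3670 h y x61t
  have x52f : α 52 = false := ff fun y => c1242 h x326t x146t y
  have x157t : α 157 = true := tt fun y => c1227 h x52f x59f y
  have x53f : α 53 = false := ff fun y => l3778 h y x61t
  have x183f : α 183 = false := ff fun y => c2749 h x257t y x189t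
  have x423f : α 423 = false := ff fun y => c2551 h x326t x146t y x257t
  have x379f : α 379 = false := ff fun y => l3769 h y x183f x157t x57f x61t x58f x272f
  have x117t : α 117 = true := tt fun y => c2431 h x306f y x423f x273f
  have x184t : α 184 = true := tt fun y => c1294 h x379f y x53f
  c2057 h x184t x92t x117t

theorem l3916 (h : Good α) (x238f : α 238 = false) (x188t : α 188 = true) (x351t : α 351 = true) (x204f : α 204 = false) (x61t : α 61 = true) (x58f : α 58 = false) (x54f : α 54 = false) (x92t : α 92 = true) (x249t : α 249 = true) : False :=
  have x97f : α 97 = false := ff fun y => c1545 h x92t x61t y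
  have x236f : α 236 = false := ff fun y => c1549 h y x92t x61t
  have x200t : α 200 = true := tt fun y => c1465 h y x236f x58f x97f
  have x197f : α 197 = false := ff fun y => c1547 h x249t x92t y x61t
  have x94t : α 94 = true := tt fun y => c1320 h y x238f x54f x204f
  have x352t : α 352 = true := tt fun y => c2938 h y x238f x204f
  have x242f : α 242 = false := ff fun y => l3779 h x238f x188t y x197f x61t x92t
  have x233f : α 233 = false := ff fun y => c2122 h x249t x94t x351t y
  have x201t : α 201 = true := tt fun y => c1467 h x58f x97f y x242f
  have x354t : α 354 = true := tt fun y => c1346 h x54f x204f x233f y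
  c2908 h x200t x352t x201t x354t

theorem l3917 (h : Good α) (x61t : α 61 = true) (x22t : α 22 = true) (x273f : α 273 = false) (x92t : α 92 = true) (x346t : α 346 = true) (x249t : α 249 = true) : False :=
  have x57f : α 57 = false := ff fun y => l3880 h y x346t x249t
  have x58f : α 58 = false := ff fun y => l3913 h y x92t x346t x249t
  have x1t : α 1 = true := tt fun y => c61 h x57f y x58f
  have x54f : α 54 = false := ff fun y => l3904 h y x92t x346t x249t
  have x306f : α 306 = false := ff fun y => l3868 h y x346t x249t
  have x272f : α 272 = false := ff fun y => l3740 h y x346t
  have x59f : α 59 = false := ff fun y => l3670 h y x61t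
  have x97f : α 97 = false := ff fun y => c1545 h x92t x61t y
  have x197f : α 197 = false := ff fun y => c1547 h x249t x92t y x61t
  have x53f : α 53 = false := ff fun y => l3778 h y x61t
  have x91t : α 91 = true := tt fun y => l3742 h x61t y x58f x249t
  have x204f : α 204 = false := ff fun y => c102 h x1t x61t y
  have x23t : α 23 = true := tt fun y => c706 h y x97f x273f
  have x402t : α 402 = true := tt fun y => c1342 h y x197f x54f
  have x56t : α 56 = true := tt fun y => l3648 h x53f y
  have x449f : α 449 = false := ff fun y => c1551 h y x92t x402t x61t
  have x327f : α 327 = false := ff fun y => l3667 h x56t y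
  have x443t : α 443 = true := tt fun y => c1405 h x449f x57f y x58f
  have x146t : α 146 = true := tt fun y => c2548 h x327f x197f y
  have x237f : α 237 = false := ff fun y => c2025 h x443t y x91t
  have x351t : α 351 = true := tt fun y => c2887 h x197f x237f y
  have x20f : α 20 = false := ff fun y => l3914 h y x237f x146t x91t x61t x22t x273f x58f x54f x92t x57f x306f x346t
  have x188t : α 188 = true := tt fun y => c533 h y x57f x20f
  have x189t : α 189 = true := tt fun y => c541 h x20f x59f y
  have x326t : α 326 = true := tt fun y => c543 h x306f x20f y x59f
  have x257f : α 257 = false := ff fun y => l3915 h y x326t x189t x146t x61t x273f x58f x92t x57f x306f x272f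
  have x298t : α 298 = true := tt fun y => c3034 h y x237f x257f
  have x238t : α 238 = true := tt fun y => l3916 h y x188t x351t x204f x61t x58f x54f x92t x249t
  have x264f : α 264 = false := ff fun y => l3862 h y x238t x57f x53f x272f
  have x184t : α 184 = true := tt fun y => l3652 h y x264f x53f
  have x429t : α 429 = true := tt fun y => l3709 h y x327f x264f
  c719 h x429t x184t x298t x23t

theorem l3918 (h : Good α) (x238t : α 238 = true) (x188t : α 188 = true) (x85t : α 85 = true) (x20f : α 20 = false) (x204t : α 204 = true) (x56f : α 56 = false) (x273f : α 273 = false) (x58f : α 58 = false) : False :=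
  have x250f : α 250 = false := ff fun y => c2937 h x238t x204t y
  have x117f : α 117 = false := ff fun y => c1882 h x238t y x85t
  have x97t : α 97 = true := tt fun y => c1468 h x58f y x250f
  have x307t : α 307 = true := tt fun y => c3109 h y x250f x273f
  have x157t : α 157 = true := tt fun y => c2421 h x117f y x273f
  have x299t : α 299 = true := tt fun y => c570 h x20f x117f y
  have x19t : α 19 = true := tt fun y => l3578 h y x97t x58f x56f
  have x424f : α 424 = false := ff fun y => c509 h x188t y x19t x307t
  have x335f : α 335 = false := ff fun y => c2655 h y x204t x157t
  have x264f : α 264 = false := ff fun y => c3053 h y x238t x299t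
  l3710 h x424f x335f x264f

theorem l3919 (h : Good α) (x97t : α 97 = true) (x197f : α 197 = false) (x250t : α 250 = true) (x188t : α 188 = true) (x61f : α 61 = false) (x92t : α 92 = true) (x346t : α 346 = true) (x249t : α 249 = true) : False :=
  have x57f : α 57 = false := ff fun y => l3880 h y x346t x249t
  have x58f : α 58 = false := ff fun y => l3913 h y x92t x346t x249t
  have x1t : α 1 = true := tt fun y => c61 h x57f y x58f
  have x59t : α 59 = true := tt fun y => l3669 h y x61f
  have x56f : α 56 = false := ff fun y => c57 h y x1t x59t
  have x53t : α 53 = true := tt fun y => l3648 h y x56f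
  have x196f : α 196 = false := ff fun y => c32 h y x53t x1t
  have x204t : α 204 = true := tt fun y => l3702 h x196f y
  have x201t : α 201 = true := tt fun y => l3521 h x250t x57f y x204t
  have x54f : α 54 = false := ff fun y => l3904 h y x92t x346t x249t
  have x153t : α 153 = true := tt fun y => c1298 h y x56f x54f
  have x272f : α 272 = false := ff fun y => l3740 h y x346t
  have x36f : α 36 = false := ff fun y => l3639 h y x346t
  have x237f : α 237 = false := ff fun y => c2047 h x249t x92t y x97t
  have x19t : α 19 = true := tt fun y => l3578 h y x97t x58f x56f
  have x113f : α 113 = false := ff fun y => l3533 h y x97t x250t x58f x56f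
  have x91t : α 91 = true := tt fun y => c1461 h x237f y x58f
  have x351t : α 351 = true := tt fun y => c2887 h x197f x237f y
  have x257f : α 257 = false := ff fun y => c494 h x19t x91t y
  have x33f : α 33 = false := ff fun y => c465 h y x19t x91t
  have x180t : α 180 = true := tt fun y => l3690 h x113f y
  have x264t : α 264 = true := tt fun y => l3691 h x113f y
  have x233f : α 233 = false := ff fun y => c2922 h x351t y x201t
  have x298t : α 298 = true := tt fun y => c3034 h y x237f x257f
  have x70f : α 70 = false := ff fun y => c1691 h x188t x264t y x180t
  have x184f : α 184 = false := ff fun y => c2766 h x188t y x264t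
  have x242t : α 242 = true := tt fun y => c1303 h x54f x61f x233f y
  have x114f : α 114 = false := ff fun y => c506 h x298t y x19t
  have x451t : α 451 = true := tt fun y => c1696 h x70f x233f y
  have x11t : α 11 = true := tt fun y => c209 h y x70f x233f
  have x285t : α 285 = true := tt fun y => c1036 h x36f x114f y
  have x81f : α 81 = false := ff fun y => c213 h x11t y x242t
  have x275f : α 275 = false := ff fun y => c3227 h x346t y x285t
  have x158t : α 158 = true := tt fun y => c1835 h x272f x184f y x81f
  have x457f : α 457 = false := ff fun y => c2671 h x285t x158t y x351t
  have x481t : α 481 = true := tt fun y => c3038 h x237f x257f x457f y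
  have x43f : α 43 = false := ff fun y => c205 h y x11t x481t x451t
  have x105t : α 105 = true := tt fun y => c960 h y x33f x43f
  have x270f : α 270 = false := ff fun y => c2272 h y x153t x105t
  have x111t : α 111 = true := tt fun y => c1123 h x270f y x43f
  have x17f : α 17 = false := ff fun y => c385 h x153t x53t x111t y
  have x86t : α 86 = true := tt fun y => c392 h x275f y x17f
  have x35f : α 35 = false := ff fun y => c468 h x86t x19t y
  have x216t : α 216 = true := tt fun y => c1005 h x35f x70f y
  have x103f : α 103 = false := ff fun y => c1896 h x86t y x216t
  have x259t : α 259 = true := tt fun y => c1684 h x103f x70f y x233f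
  have x18f : α 18 = false := ff fun y => c442 h y x91t x259t
  have x372f : α 372 = false := ff fun y => c3156 h y x285t x259t
  have x187t : α 187 = true := tt fun y => c430 h y x54f x18f
  have x567t : α 567 = true := tt fun y => c1126 h y x270f x372f x43f
  c2808 h x567t x346t x187t

theorem l3920 (h : Good α) (x197f : α 197 = false) (x20f : α 20 = false) (x61f : α 61 = false) (x273f : α 273 = false) (x92t : α 92 = true) (x346t : α 346 = true) (x249t : α 249 = true) : False :=
  have x57f : α 57 = false := ff fun y => l3880 h y x346t x249t
  have x58f : α 58 = false := ff fun y => l3913 h y x92t x346t x249t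
  have x1t : α 1 = true := tt fun y => c61 h x57f y x58f
  have x59t : α 59 = true := tt fun y => l3669 h y x61f
  have x56f : α 56 = false := ff fun y => c57 h y x1t x59t
  have x53t : α 53 = true := tt fun y => l3648 h y x56f
  have x196f : α 196 = false := ff fun y => c32 h y x53t x1t
  have x204t : α 204 = true := tt fun y => l3702 h x196f y
  have x85t : α 85 = true := tt fun y => c531 h x57f x20f y
  have x188t : α 188 = true := tt fun y => c533 h y x57f x20f
  have x238f : α 238 = false := ff fun y => l3918 h y x188t x85t x20f x204t x56f x273f x58f
  have x250t : α 250 = true := tt fun y => c1403 h x57f x238f x58f y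
  have x201t : α 201 = true := tt fun y => l3521 h x250t x57f y x204t
  have x325t : α 325 = true := tt fun y => l3677 h x61f y
  have x54f : α 54 = false := ff fun y => l3904 h y x92t x346t x249t
  have x272f : α 272 = false := ff fun y => l3740 h y x346t
  have x97f : α 97 = false := ff fun y => l3919 h y x197f x250t x188t x61f x92t x346t x249t
  have x242t : α 242 = true := tt fun y => c1556 h x61f x97f y
  have x91t : α 91 = true := tt fun y => c1456 h y x58f x97f
  have x237t : α 237 = true := tt fun y => c1553 h x197f x61f y x97f
  have x23t : α 23 = true := tt fun y => c706 h y x97f x273f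
  have x233f : α 233 = false := ff fun y => c2920 h y x201t x242t
  have x94f : α 94 = false := ff fun y => l3747 h y x61f x91t x58f x249t
  have x184f : α 184 = false := ff fun y => c689 h y x53t x23t
  have x409t : α 409 = true := tt fun y => l3512 h y x92t x94f x233f x242t x54f
  have x239t : α 239 = true := tt fun y => c1322 h y x94f x54f
  have x335f : α 335 = false := ff fun y => c3261 h x325t y x409t
  have x353f : α 353 = false := ff fun y => c2022 h y x239t x237t x91t
  have x113f : α 113 = false := ff fun y => l3517 h y x335f x250t x58f x56f
  have x236t : α 236 = true := tt fun y => c1575 h x353f y x197f x61f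
  have x19t : α 19 = true := tt fun y => l3623 h x113f y x56f
  have x200f : α 200 = false := ff fun y => c2910 h x239t y x236t
  have x386t : α 386 = true := tt fun y => l3501 h y x236t x200f x56f
  have x379f : α 379 = false := ff fun y => c463 h x386t y x19t x23t
  have x459t : α 459 = true := tt fun y => c2771 h y x379f x272f x184f
  have x80t : α 80 = true := tt fun y => c1825 h x379f x200f y
  c1830 h x459t x239t x80t

theorem l3921 (h : Good α) (x20f : α 20 = false) (x61f : α 61 = false) (x273f : α 273 = false) (x92t : α 92 = true) (x346t : α 346 = true) (x249t : α 249 = true) : False :=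
  have x57f : α 57 = false := ff fun y => l3880 h y x346t x249t
  have x58f : α 58 = false := ff fun y => l3913 h y x92t x346t x249t
  have x1t : α 1 = true := tt fun y => c61 h x57f y x58f
  have x59t : α 59 = true := tt fun y => l3669 h y x61f
  have x56f : α 56 = false := ff fun y => c57 h y x1t x59t
  have x53t : α 53 = true := tt fun y => l3648 h y x56f
  have x196f : α 196 = false := ff fun y => c32 h y x53t x1t
  have x204t : α 204 = true := tt fun y => l3702 h x196f y
  have x54f : α 54 = false := ff fun y => l3904 h y x92t x346t x249t
  have x543f : α 543 = false := ff fun y => l3556 h x54f y x1t x61f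
  have x85t : α 85 = true := tt fun y => c531 h x57f x20f y
  have x188t : α 188 = true := tt fun y => c533 h y x57f x20f
  have x238f : α 238 = false := ff fun y => l3918 h y x188t x85t x20f x204t x56f x273f x58f
  have x250t : α 250 = true := tt fun y => c1403 h x57f x238f x58f y
  have x201t : α 201 = true := tt fun y => l3521 h x250t x57f y x204t
  have x197t : α 197 = true := tt fun y => l3920 h y x20f x61f x273f x92t x346t x249t
  have x237f : α 237 = false := ff fun y => c2878 h x197t x204t y x250t
  have x351f : α 351 = false := ff fun y => c112 h x197t x1t y x201t
  have x353f : α 353 = false := ff fun y => c2890 h y x249t x197t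
  have x91t : α 91 = true := tt fun y => c1461 h x237f y x58f
  have x233t : α 233 = true := tt fun y => c3000 h x543f x351f y
  have x200t : α 200 = true := tt fun y => c1486 h x353f y x237f x58f
  have x94f : α 94 = false := ff fun y => l3747 h y x61f x91t x58f x249t
  have x239f : α 239 = false := ff fun y => c2902 h y x200t x233t x201t
  c1322 h x239f x94f x54f

theorem l3922 (h : Good α) (x22t : α 22 = true) (x273f : α 273 = false) (x92t : α 92 = true) (x346t : α 346 = true) (x249t : α 249 = true) : False :=
  have x57f : α 57 = false := ff fun y => l3880 h y x346t x249t
  have x58f : α 58 = false := ff fun y => l3913 h y x92t x346t x249t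
  have x1t : α 1 = true := tt fun y => c61 h x57f y x58f
  have x54f : α 54 = false := ff fun y => l3904 h y x92t x346t x249t
  have x306f : α 306 = false := ff fun y => l3868 h y x346t x249t
  have x61f : α 61 = false := ff fun y => l3917 h y x22t x273f x92t x346t x249t
  have x59t : α 59 = true := tt fun y => l3669 h y x61f
  have x56f : α 56 = false := ff fun y => c57 h y x1t x59t
  have x146t : α 146 = true := tt fun y => c1296 h x56f x54f y
  have x20t : α 20 = true := tt fun y => l3921 h y x61f x273f x92t x346t x249t
  have x189f : α 189 = false := ff fun y => c542 h x20t x59t y
  have x117f : α 117 = false := ff fun y => c515 h x22t x20t y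
  have x106f : α 106 = false := ff fun y => c538 h y x20t x146t x59t
  have x183t : α 183 = true := tt fun y => c2750 h y x189f x273f
  have x423t : α 423 = true := tt fun y => c2431 h x306f x117f y x273f
  have x257t : α 257 = true := tt fun y => c2277 h x106f x117f y x273f
  c2757 h x423t x257t x183t

theorem l3923 (h : Good α) (x22f : α 22 = false) (x346t : α 346 = true) (x249t : α 249 = true) : False :=
  have x57f : α 57 = false := ff fun y => l3880 h y x346t x249t
  have x306f : α 306 = false := ff fun y => l3868 h y x346t x249t
  have x106t : α 106 = true := tt fun y => c661 h x306f y x22f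
  have x62t : α 62 = true := tt fun y => c642 h x57f x22f y
  c1590 h x249t x106t x62t

theorem l3924 (h : Good α) (x53t : α 53 = true) (x94f : α 94 = false) (x273t : α 273 = true) (x58f : α 58 = false) (x54f : α 54 = false) (x92t : α 92 = true) (x57f : α 57 = false) : False :=
  have x91t : α 91 = true := tt fun y => c1397 h x94f x57f y x58f
  have x1t : α 1 = true := tt fun y => c61 h x57f y x58f
  have x61f : α 61 = false := ff fun y => l3778 h x53t y
  have x52f : α 52 = false := ff fun y => c21 h x53t x1t y
  have x196f : α 196 = false := ff fun y => c32 h y x53t x1t
  have x59t : α 59 = true := tt fun y => l3669 h y x61f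
  have x250t : α 250 = true := tt fun y => l3748 h y x1t x94f x61f x91t x58f
  have x204t : α 204 = true := tt fun y => l3702 h x196f y
  have x201t : α 201 = true := tt fun y => l3521 h x250t x57f y x204t
  have x399f : α 399 = false := ff fun y => c3112 h x250t x273t y
  have x189t : α 189 = true := tt fun y => c1484 h x58f y x399f
  have x183f : α 183 = false := ff fun y => c2751 h y x189t x273t
  have x430f : α 430 = false := ff fun y => c2825 h x189t x273t y
  have x157f : α 157 = false := ff fun y => c1518 h x59t y x189t x273t
  have x23t : α 23 = true := tt fun y => c695 h y x58f x183f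
  have x334t : α 334 = true := tt fun y => c1256 h x52f y x183f x430f
  have x333t : α 333 = true := tt fun y => c1567 h x61f x157f y
  have x97f : α 97 = false := ff fun y => c707 h x23t y x273t
  have x409f : α 409 = false := ff fun y => c3269 h y x334t x333t
  have x242t : α 242 = true := tt fun y => c1556 h x61f x97f y
  have x233t : α 233 = true := tt fun y => l3512 h x409f x92t x94f y x242t x54f
  c2920 h x233t x201t x242t

theorem l3925 (h : Good α) (x106t : α 106 = true) (x92t : α 92 = true) (x346t : α 346 = true) (x249t : α 249 = true) : False :=
  have x22t : α 22 = true := tt fun y => l3923 h y x346t x249t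
  have x273t : α 273 = true := tt fun y => l3922 h x22t y x92t x346t x249t
  have x58f : α 58 = false := ff fun y => l3913 h y x92t x346t x249t
  have x54f : α 54 = false := ff fun y => l3904 h y x92t x346t x249t
  have x57f : α 57 = false := ff fun y => l3880 h y x346t x249t
  have x272f : α 272 = false := ff fun y => l3740 h y x346t
  have x429f : α 429 = false := ff fun y => c2288 h y x249t x106t
  have x188t : α 188 = true := tt fun y => c2816 h x429f x272f y
  have x94f : α 94 = false := ff fun y => c2101 h x188t y x106t
  have x53f : α 53 = false := ff fun y => l3924 h y x94f x273t x58f x54f x92t x57f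
  have x56t : α 56 = true := tt fun y => l3648 h x53f y
  have x327f : α 327 = false := ff fun y => l3667 h x56t y
  have x184t : α 184 = true := tt fun y => c1292 h x429f y x327f x53f
  have x264t : α 264 = true := tt fun y => l3709 h x429f x327f y
  c2766 h x188t x184t x264t

theorem l3926 (h : Good α) (x188t : α 188 = true) (x56t : α 56 = true) (x92t : α 92 = true) (x346t : α 346 = true) (x249t : α 249 = true) : False :=
  have x57f : α 57 = false := ff fun y => l3880 h y x346t x249t
  have x58f : α 58 = false := ff fun y => l3913 h y x92t x346t x249t
  have x1t : α 1 = true := tt fun y => c61 h x57f y x58f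
  have x59f : α 59 = false := ff fun y => c57 h x56t x1t y
  have x61t : α 61 = true := tt fun y => l3669 h x59f y
  have x197f : α 197 = false := ff fun y => c1547 h x249t x92t y x61t
  have x91t : α 91 = true := tt fun y => l3742 h x61t y x58f x249t
  have x54f : α 54 = false := ff fun y => l3904 h y x92t x346t x249t
  have x402t : α 402 = true := tt fun y => c1342 h y x197f x54f
  have x449f : α 449 = false := ff fun y => c1551 h y x92t x402t x61t
  have x443t : α 443 = true := tt fun y => c1405 h x449f x57f y x58f
  have x237f : α 237 = false := ff fun y => c2025 h x443t y x91t
  have x351t : α 351 = true := tt fun y => c2887 h x197f x237f y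
  have x22t : α 22 = true := tt fun y => l3923 h y x346t x249t
  have x273t : α 273 = true := tt fun y => l3922 h x22t y x92t x346t x249t
  have x97f : α 97 = false := ff fun y => c1545 h x92t x61t y
  have x250t : α 250 = true := tt fun y => c1468 h x58f x97f y
  have x399f : α 399 = false := ff fun y => c3112 h x250t x273t y
  have x189t : α 189 = true := tt fun y => c1484 h x58f y x399f
  have x183f : α 183 = false := ff fun y => c2751 h y x189t x273t
  have x23t : α 23 = true := tt fun y => c695 h y x58f x183f
  have x307f : α 307 = false := ff fun y => c3110 h y x250t x273t
  have x204f : α 204 = false := ff fun y => c102 h x1t x61t y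
  have x334t : α 334 = true := tt fun y => l3705 h x204f y
  have x236f : α 236 = false := ff fun y => c1549 h y x92t x61t
  have x53f : α 53 = false := ff fun y => l3649 h y x56t
  have x335t : α 335 = true := tt fun y => l3653 h x53f y
  have x272f : α 272 = false := ff fun y => l3740 h y x346t
  have x386f : α 386 = false := ff fun y => c1395 h y x188t x56t
  have x424f : α 424 = false := ff fun y => c1393 h x188t y x56t x335t
  have x238t : α 238 = true := tt fun y => l3916 h y x188t x351t x204f x61t x58f x54f x92t x249t
  have x114t : α 114 = true := tt fun y => c2393 h x272f x424f y x307f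
  have x264f : α 264 = false := ff fun y => l3862 h y x238t x57f x53f x272f
  have x94f : α 94 = false := ff fun y => c1983 h y x238t x91t x250t
  have x158f : α 158 = false := ff fun y => l3694 h x114t y
  have x379f : α 379 = false := ff fun y => l3767 h x264f y x23t
  have x239t : α 239 = true := tt fun y => c1322 h y x94f x54f
  have x459t : α 459 = true := tt fun y => l3864 h y x188t x264f x158f x53f
  have x161t : α 161 = true := tt fun y => c2676 h x379f x236f y
  have x299t : α 299 = true := tt fun y => l3758 h x92t x23t y x189t x424f x386f x53f x239t x238t x22t x61t x58f x346t
  have x80f : α 80 = false := ff fun y => c1830 h x459t x239t y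
  have x71f : α 71 = false := ff fun y => c1714 h y x161t x189t x273t
  have x52f : α 52 = false := ff fun y => c640 h x22t x299t y x334t
  c1225 h x80f x71f x52f x59f

theorem l3927 (h : Good α) (x56t : α 56 = true) (x92t : α 92 = true) (x346t : α 346 = true) (x249t : α 249 = true) : False :=
  have x106f : α 106 = false := ff fun y => l3925 h y x92t x346t x249t
  have x22t : α 22 = true := tt fun y => l3923 h y x346t x249t
  have x273t : α 273 = true := tt fun y => l3922 h x22t y x92t x346t x249t
  have x57f : α 57 = false := ff fun y => l3880 h y x346t x249t
  have x58f : α 58 = false := ff fun y => l3913 h y x92t x346t x249t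
  have x1t : α 1 = true := tt fun y => c61 h x57f y x58f
  have x54f : α 54 = false := ff fun y => l3904 h y x92t x346t x249t
  have x272f : α 272 = false := ff fun y => l3740 h y x346t
  have x327f : α 327 = false := ff fun y => l3667 h x56t y
  have x59f : α 59 = false := ff fun y => c57 h x56t x1t y
  have x61t : α 61 = true := tt fun y => l3669 h x59f y
  have x97f : α 97 = false := ff fun y => c1545 h x92t x61t y
  have x197f : α 197 = false := ff fun y => c1547 h x249t x92t y x61t
  have x91t : α 91 = true := tt fun y => l3742 h x61t y x58f x249t
  have x204f : α 204 = false := ff fun y => c102 h x1t x61t y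
  have x250t : α 250 = true := tt fun y => c1468 h x58f x97f y
  have x402t : α 402 = true := tt fun y => c1342 h y x197f x54f
  have x334t : α 334 = true := tt fun y => l3705 h x204f y
  have x399f : α 399 = false := ff fun y => c3112 h x250t x273t y
  have x449f : α 449 = false := ff fun y => c1551 h y x92t x402t x61t
  have x189t : α 189 = true := tt fun y => c1484 h x58f y x399f
  have x443t : α 443 = true := tt fun y => c1405 h x449f x57f y x58f
  have x183f : α 183 = false := ff fun y => c2751 h y x189t x273t
  have x237f : α 237 = false := ff fun y => c2025 h x443t y x91t
  have x23t : α 23 = true := tt fun y => c695 h y x58f x183f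
  have x188f : α 188 = false := ff fun y => l3926 h y x56t x92t x346t x249t
  have x184t : α 184 = true := tt fun y => c2767 h x272f x188f y
  have x94t : α 94 = true := tt fun y => c2100 h x188f y x106f
  have x264f : α 264 = false := ff fun y => l3768 h x184t y x23t x327f x272f
  have x238f : α 238 = false := ff fun y => c1983 h x94t y x91t x250t
  have x52t : α 52 = true := tt fun y => l3772 h x183f y x237f x57f x94t x61t x91t x58f x346t
  have x299t : α 299 = true := tt fun y => c3052 h x264f x238f y
  c640 h x22t x299t x52t x334t

theorem l3928 (h : Good α) (x92t : α 92 = true) (x346t : α 346 = true) (x249t : α 249 = true) : False :=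
  have x22t : α 22 = true := tt fun y => l3923 h y x346t x249t
  have x57f : α 57 = false := ff fun y => l3880 h y x346t x249t
  have x54f : α 54 = false := ff fun y => l3904 h y x92t x346t x249t
  have x58f : α 58 = false := ff fun y => l3913 h y x92t x346t x249t
  have x273t : α 273 = true := tt fun y => l3922 h x22t y x92t x346t x249t
  have x56f : α 56 = false := ff fun y => l3927 h y x92t x346t x249t
  have x53t : α 53 = true := tt fun y => l3648 h y x56f
  have x61f : α 61 = false := ff fun y => l3778 h x53t y
  have x94t : α 94 = true := tt fun y => l3924 h x53t y x273t x58f x54f x92t x57f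
  have x91f : α 91 = false := ff fun y => l3747 h x94t x61f y x58f x249t
  have x97t : α 97 = true := tt fun y => c1456 h x91f x58f y
  have x237t : α 237 = true := tt fun y => c1461 h y x91f x58f
  c2047 h x249t x92t x237t x97t

theorem l3929 (h : Good α) (x56f : α 56 = false) (x273t : α 273 = true) (x346t : α 346 = true) (x249t : α 249 = true) : False :=
  have x92f : α 92 = false := ff fun y => l3928 h y x346t x249t
  have x22t : α 22 = true := tt fun y => l3923 h y x346t x249t
  have x57f : α 57 = false := ff fun y => l3880 h y x346t x249t
  have x94t : α 94 = true := tt fun y => c1409 h y x57f x92f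
  have x28f : α 28 = false := ff fun y => c621 h x94t x22t y
  have x20t : α 20 = true := tt fun y => c521 h x92f y x28f
  have x117f : α 117 = false := ff fun y => c515 h x22t x20t y
  have x184t : α 184 = true := tt fun y => c2056 h y x92f x117f
  have x449f : α 449 = false := ff fun y => c2135 h y x249t x94t
  have x238t : α 238 = true := tt fun y => c1415 h x57f x92f y
  have x306f : α 306 = false := ff fun y => l3868 h y x346t x249t
  have x272f : α 272 = false := ff fun y => l3740 h y x346t
  have x53t : α 53 = true := tt fun y => l3648 h y x56f
  have x61f : α 61 = false := ff fun y => l3778 h x53t y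
  have x379f : α 379 = false := ff fun y => c1295 h y x184t x53t
  have x23f : α 23 = false := ff fun y => c689 h x184t x53t y
  have x59t : α 59 = true := tt fun y => l3669 h y x61f
  have x325t : α 325 = true := tt fun y => l3677 h x61f y
  have x97t : α 97 = true := tt fun y => c1544 h x92f x61f y
  have x236t : α 236 = true := tt fun y => c1548 h y x92f x61f
  have x1t : α 1 = true := tt fun y => c63 h x57f x92f y x61f
  have x58f : α 58 = false := ff fun y => l3854 h x61f x92f x449f y x249t
  have x183t : α 183 = true := tt fun y => c695 h x23f x58f y
  have x202f : α 202 = false := ff fun y => c90 h x1t x59t y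
  have x71f : α 71 = false := ff fun y => c537 h y x20t x59t
  have x189f : α 189 = false := ff fun y => c542 h x20t x59t y
  have x19t : α 19 = true := tt fun y => l3578 h y x97t x58f x56f
  have x196f : α 196 = false := ff fun y => c32 h y x53t x1t
  have x91f : α 91 = false := ff fun y => l3747 h x94t x61f y x58f x249t
  have x399t : α 399 = true := tt fun y => c1484 h x58f x189f y
  have x204t : α 204 = true := tt fun y => l3702 h x196f y
  have x250f : α 250 = false := ff fun y => c3112 h y x273t x399t
  have x54f : α 54 = false := ff fun y => c1321 h x94t x238t y x204t
  have x197f : α 197 = false := ff fun y => c2880 h x249t x238t y x204t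
  have x352f : α 352 = false := ff fun y => c2939 h y x238t x204t
  have x146t : α 146 = true := tt fun y => c1296 h x56f x54f y
  have x233t : α 233 = true := tt fun y => c1314 h x54f x91f y
  have x200t : α 200 = true := tt fun y => c1488 h y x352f x58f x250f
  have x351f : α 351 = false := ff fun y => c2122 h x249t x94t y x233t
  have x239f : α 239 = false := ff fun y => c2910 h y x200t x236t
  have x242t : α 242 = true := tt fun y => c1577 h x197f x61f x351f y
  have x201f : α 201 = false := ff fun y => c2920 h x233t y x242t
  have x354t : α 354 = true := tt fun y => c1490 h x58f x250f x201f y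
  have x158f : α 158 = false := ff fun y => l3451 h y x233t x201f x53t
  have x548f : α 548 = false := ff fun y => c3083 h x242t x354t y
  have x275f : α 275 = false := ff fun y => l3886 h y x158f x346t
  have x450t : α 450 = true := tt fun y => c1494 h x58f y x201f x548f
  have x544f : α 544 = false := ff fun y => c2189 h x236t y x97t x450t
  have x409t : α 409 = true := tt fun y => c1352 h x239f x544f x54f y
  have x335f : α 335 = false := ff fun y => c3261 h x325t y x409t
  have x264f : α 264 = false := ff fun y => l3419 h y x335f x238t x57f x56f
  have x452t : α 452 = true := tt fun y => l3711 h x264f y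
  have x113t : α 113 = true := tt fun y => l3691 h y x264f
  have x188t : α 188 = true := tt fun y => l3664 h y x264f x56f
  have x386f : α 386 = false := ff fun y => c503 h y x452t x19t x113t
  have x180f : α 180 = false := ff fun y => l3599 h y x379f x242t x23f x201f x113t x56f
  have x459t : α 459 = true := tt fun y => c3329 h y x386f x379f
  have x179t : α 179 = true := tt fun y => c2714 h x386f x239f y
  have x70t : α 70 = true := tt fun y => l3662 h y x180f x56f
  have x451f : α 451 = false := ff fun y => c1697 h x70t x233t y
  have x81f : α 81 = false := ff fun y => c1682 h x188t x184t x70t y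
  have x378t : α 378 = true := tt fun y => c1843 h x81f x201f y
  have x387f : α 387 = false := ff fun y => c517 h x22t x20t x378t y
  have x257t : α 257 = true := tt fun y => c2822 h y x189f x451f x387f
  have x157f : α 157 = false := ff fun y => c2544 h x146t y x257t x273t
  have x80f : α 80 = false := ff fun y => c1821 h x179t y x257t x183t
  have x314t : α 314 = true := tt fun y => c2653 h x157f x202f y
  have x10t : α 10 = true := tt fun y => c198 h x239f x80f y
  have x485f : α 485 = false := ff fun y => l3757 h y x10t x459t x28f x264f x346t
  have x120t : α 120 = true := tt fun y => c2457 h x485f x272f y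
  have x523t : α 523 = true := tt fun y => c3213 h x485f x272f y x306f
  have x108f : α 108 = false := ff fun y => l3685 h y x120t
  have x291f : α 291 = false := ff fun y => l3700 h y x314t x120t
  have x16t : α 16 = true := tt fun y => c356 h y x108f x291f
  have x24f : α 24 = false := ff fun y => c325 h x120t y x16t
  have x118f : α 118 = false := ff fun y => c317 h y x22t x16t
  have x63t : α 63 = true := tt fun y => c732 h y x24f x54f
  have x191t : α 191 = true := tt fun y => c736 h x24f x54f y
  have x271t : α 271 = true := tt fun y => c2442 h x485f y x118f
  have x134t : α 134 = true := tt fun y => c1813 h y x80f x118f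
  have x344f : α 344 = false := ff fun y => c2116 h y x188t x271t x94t
  have x29f : α 29 = false := ff fun y => c337 h x134t y x16t
  have x86t : α 86 = true := tt fun y => c1909 h x485f x344f x275f y
  have x34t : α 34 = true := tt fun y => c989 h x386f x71f x344f y
  have x68t : α 68 = true := tt fun y => c887 h x80f x29f y
  have x336f : α 336 = false := ff fun y => c490 h x86t x19t y x257t
  have x181f : α 181 = false := ff fun y => c1599 h x63t x68t x191t y
  have x555t : α 555 = true := tt fun y => c2736 h y x336f x181f
  have x87t : α 87 = true := tt fun y => c1918 h x336f x181f y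
  c992 h x523t x34t x555t x87t

theorem l3930 (h : Good α) (x58f : α 58 = false) (x56t : α 56 = true) (x346t : α 346 = true) (x249t : α 249 = true) : False :=
  have x57f : α 57 = false := ff fun y => l3880 h y x346t x249t
  have x92f : α 92 = false := ff fun y => l3928 h y x346t x249t
  have x94t : α 94 = true := tt fun y => c1409 h y x57f x92f
  have x1t : α 1 = true := tt fun y => c61 h x57f y x58f
  have x97t : α 97 = true := tt fun y => c1399 h x57f x92f x58f y
  have x59f : α 59 = false := ff fun y => c57 h x56t x1t y
  have x61t : α 61 = true := tt fun y => l3669 h x59f y
  have x91t : α 91 = true := tt fun y => l3742 h x61t y x58f x249t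
  l3773 h x97t x94t x61t x91t x58f x249t

theorem l3931 (h : Good α) (x1t : α 1 = true) (x91t : α 91 = true) (x273t : α 273 = true) (x346t : α 346 = true) (x249t : α 249 = true) : False :=
  have x57f : α 57 = false := ff fun y => l3880 h y x346t x249t
  have x92f : α 92 = false := ff fun y => l3928 h y x346t x249t
  have x94t : α 94 = true := tt fun y => c1409 h y x57f x92f
  have x449f : α 449 = false := ff fun y => c2135 h y x249t x94t
  have x56t : α 56 = true := tt fun y => l3929 h y x273t x346t x249t
  have x58t : α 58 = true := tt fun y => l3930 h y x56t x346t x249t
  have x97f : α 97 = false := ff fun y => c1457 h x91t x58t y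
  have x443t : α 443 = true := tt fun y => c2048 h x449f x92f y x97f
  have x238t : α 238 = true := tt fun y => c1415 h x57f x92f y
  have x250f : α 250 = false := ff fun y => c1983 h x94t x238t x91t y
  have x237f : α 237 = false := ff fun y => c1462 h y x91t x58t
  have x61t : α 61 = true := tt fun y => l3854 h y x92f x449f x58t x249t
  have x272f : α 272 = false := ff fun y => l3740 h y x346t
  have x53f : α 53 = false := ff fun y => l3649 h y x56t
  have x264f : α 264 = false := ff fun y => l3862 h y x238t x57f x53f x272f
  have x22t : α 22 = true := tt fun y => l3923 h y x346t x249t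
  have x28f : α 28 = false := ff fun y => c621 h x94t x22t y
  have x20t : α 20 = true := tt fun y => c521 h x92f y x28f
  have x117f : α 117 = false := ff fun y => c515 h x22t x20t y
  have x306f : α 306 = false := ff fun y => l3868 h y x346t x249t
  have x205t : α 205 = true := tt fun y => c2947 h x449f x306f y
  have x106f : α 106 = false := ff fun y => c2103 h x94t y x205t
  have x201f : α 201 = false := ff fun y => c80 h x1t x58t y
  have x204f : α 204 = false := ff fun y => c102 h x1t x61t y
  have x402f : α 402 = false := ff fun y => c84 h y x1t x443t x58t
  have x242t : α 242 = true := tt fun y => c1413 h x57f x92f x201f y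
  have x334t : α 334 = true := tt fun y => l3705 h x204f y
  have x197t : α 197 = true := tt fun y => c2877 h y x204f x237f x250f
  have x547t : α 547 = true := tt fun y => c3348 h y x449f x402f
  have x326f : α 326 = false := ff fun y => l3726 h x197t y
  have x353f : α 353 = false := ff fun y => c2890 h y x249t x197t
  have x351f : α 351 = false := ff fun y => c1578 h x197t x61t y x242t
  have x239f : α 239 = false := ff fun y => c2029 h x547t y x443t x91t
  have x146t : α 146 = true := tt fun y => c2285 h x306f x106f x326f y
  have x157t : α 157 = true := tt fun y => c2424 h x306f x117f x326f y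
  have x200t : α 200 = true := tt fun y => c2905 h x353f y x351f x201f
  have x233t : α 233 = true := tt fun y => c2921 h x351f y x201f
  have x257f : α 257 = false := ff fun y => c2544 h x146t x157t y x273t
  have x462f : α 462 = false := ff fun y => c2661 h x157t x273t y
  have x430f : α 430 = false := ff fun y => c2659 h x157t x334t x273t y
  have x236f : α 236 = false := ff fun y => c98 h x200t y x1t x61t
  have x299t : α 299 = true := tt fun y => c2291 h x106f y x257f x430f
  have x380t : α 380 = true := tt fun y => c3036 h x237f x257f y
  have x108t : α 108 = true := tt fun y => l3856 h y x28f x236f x97f x61t x92f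
  have x10t : α 10 = true := tt fun y => l3860 h y x239f x236f x200t
  have x52f : α 52 = false := ff fun y => c640 h x22t x299t y x334t
  have x183f : α 183 = false := ff fun y => c1482 h x58t y x380t
  have x120f : α 120 = false := ff fun y => l3685 h x108t y
  have x378t : α 378 = true := tt fun y => c1258 h x52f x183f y
  have x485t : α 485 = true := tt fun y => c2457 h y x272f x120f
  have x387f : α 387 = false := ff fun y => c517 h x22t x20t x378t y
  have x451f : α 451 = false := ff fun y => l3434 h y x378t x233t x201f
  have x459f : α 459 = false := ff fun y => l3757 h x485t x10t y x28f x264f x346t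
  have x80t : α 80 = true := tt fun y => c1829 h x459f x239f y
  have x71f : α 71 = false := ff fun y => c511 h x80t y x22t x20t
  have x161t : α 161 = true := tt fun y => c1715 h x71f y x387f x462f
  have x179t : α 179 = true := tt fun y => c1718 h y x71f x451f x387f
  c2542 h x179t x161t x146t x157t

theorem l3932 (h : Good α) (x1f : α 1 = false) (x54f : α 54 = false) (x273t : α 273 = true) (x346t : α 346 = true) (x249t : α 249 = true) : False :=
  have x56t : α 56 = true := tt fun y => l3929 h y x273t x346t x249t
  have x53f : α 53 = false := ff fun y => l3649 h y x56t
  have x22t : α 22 = true := tt fun y => l3923 h y x346t x249t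
  have x92f : α 92 = false := ff fun y => l3928 h y x346t x249t
  have x57f : α 57 = false := ff fun y => l3880 h y x346t x249t
  have x94t : α 94 = true := tt fun y => c1409 h y x57f x92f
  have x28f : α 28 = false := ff fun y => c621 h x94t x22t y
  have x20t : α 20 = true := tt fun y => c521 h x92f y x28f
  have x117f : α 117 = false := ff fun y => c515 h x22t x20t y
  have x306f : α 306 = false := ff fun y => l3868 h y x346t x249t
  have x449f : α 449 = false := ff fun y => c2135 h y x249t x94t
  have x205t : α 205 = true := tt fun y => c2947 h x449f x306f y
  have x106f : α 106 = false := ff fun y => c2103 h x94t y x205t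
  have x238t : α 238 = true := tt fun y => c1415 h x57f x92f y
  have x52t : α 52 = true := tt fun y => c20 h x53f x1f y
  have x197t : α 197 = true := tt fun y => c41 h y x54f x1f
  have x326f : α 326 = false := ff fun y => l3726 h x197t y
  have x204f : α 204 = false := ff fun y => c2880 h x249t x238t x197t y
  have x146t : α 146 = true := tt fun y => c2285 h x306f x106f x326f y
  have x157t : α 157 = true := tt fun y => c2424 h x306f x117f x326f y
  have x334t : α 334 = true := tt fun y => l3705 h x204f y
  have x257f : α 257 = false := ff fun y => c2544 h x146t x157t y x273t
  have x430f : α 430 = false := ff fun y => c2659 h x157t x334t x273t y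
  have x299f : α 299 = false := ff fun y => c640 h x22t y x52t x334t
  c2291 h x106f x299f x257f x430f

theorem l3933 (h : Good α) (x54f : α 54 = false) (x273t : α 273 = true) (x346t : α 346 = true) (x249t : α 249 = true) : False :=
  have x57f : α 57 = false := ff fun y => l3880 h y x346t x249t
  have x92f : α 92 = false := ff fun y => l3928 h y x346t x249t
  have x94t : α 94 = true := tt fun y => c1409 h y x57f x92f
  have x449f : α 449 = false := ff fun y => c2135 h y x249t x94t
  have x56t : α 56 = true := tt fun y => l3929 h y x273t x346t x249t
  have x58t : α 58 = true := tt fun y => l3930 h y x56t x346t x249t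
  have x61t : α 61 = true := tt fun y => l3854 h y x92f x449f x58t x249t
  have x22t : α 22 = true := tt fun y => l3923 h y x346t x249t
  have x28f : α 28 = false := ff fun y => c621 h x94t x22t y
  have x20t : α 20 = true := tt fun y => c521 h x92f y x28f
  have x117f : α 117 = false := ff fun y => c515 h x22t x20t y
  have x306f : α 306 = false := ff fun y => l3868 h y x346t x249t
  have x205t : α 205 = true := tt fun y => c2947 h x449f x306f y
  have x106f : α 106 = false := ff fun y => c2103 h x94t y x205t
  have x1t : α 1 = true := tt fun y => l3932 h y x54f x273t x346t x249t
  have x97f : α 97 = false := ff fun y => c76 h x1t x61t x58t y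
  have x204f : α 204 = false := ff fun y => c102 h x1t x61t y
  have x91f : α 91 = false := ff fun y => l3931 h x1t y x273t x346t x249t
  have x443t : α 443 = true := tt fun y => c2048 h x449f x92f y x97f
  have x250t : α 250 = true := tt fun y => c1312 h x54f x204f x91f y
  have x402f : α 402 = false := ff fun y => c84 h y x1t x443t x58t
  have x237f : α 237 = false := ff fun y => l3739 h x249t x250t x92f y x94t
  have x197t : α 197 = true := tt fun y => c1342 h x402f y x54f
  have x114t : α 114 = true := tt fun y => l3588 h y x237f x58t x91f
  have x326f : α 326 = false := ff fun y => l3726 h x197t y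
  have x19f : α 19 = false := ff fun y => l3624 h x114t y x56t
  have x146t : α 146 = true := tt fun y => c2285 h x306f x106f x326f y
  have x157t : α 157 = true := tt fun y => c2424 h x306f x117f x326f y
  have x257t : α 257 = true := tt fun y => c493 h x19f x91f y
  c2544 h x146t x157t x257t x273t

theorem l3934 (h : Good α) (x273t : α 273 = true) (x346t : α 346 = true) (x249t : α 249 = true) : False :=
  have x57f : α 57 = false := ff fun y => l3880 h y x346t x249t
  have x92f : α 92 = false := ff fun y => l3928 h y x346t x249t
  have x94t : α 94 = true := tt fun y => c1409 h y x57f x92f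
  have x449f : α 449 = false := ff fun y => c2135 h y x249t x94t
  have x56t : α 56 = true := tt fun y => l3929 h y x273t x346t x249t
  have x58t : α 58 = true := tt fun y => l3930 h y x56t x346t x249t
  have x61t : α 61 = true := tt fun y => l3854 h y x92f x449f x58t x249t
  have x54t : α 54 = true := tt fun y => l3933 h y x273t x346t x249t
  l3870 h x61t x54t

theorem l3935 (h : Good α) (x346t : α 346 = true) (x249t : α 249 = true) : False :=
  have x36f : α 36 = false := ff fun y => l3639 h y x346t
  have x272f : α 272 = false := ff fun y => l3740 h y x346t
  have x306f : α 306 = false := ff fun y => l3868 h y x346t x249t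
  have x57f : α 57 = false := ff fun y => l3880 h y x346t x249t
  have x22t : α 22 = true := tt fun y => l3923 h y x346t x249t
  have x92f : α 92 = false := ff fun y => l3928 h y x346t x249t
  have x94t : α 94 = true := tt fun y => c1409 h y x57f x92f
  have x238t : α 238 = true := tt fun y => c1415 h x57f x92f y
  have x449f : α 449 = false := ff fun y => c2135 h y x249t x94t
  have x28f : α 28 = false := ff fun y => c621 h x94t x22t y
  have x205t : α 205 = true := tt fun y => c2947 h x449f x306f y
  have x20t : α 20 = true := tt fun y => c521 h x92f y x28f
  have x106f : α 106 = false := ff fun y => c2103 h x94t y x205t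
  have x117f : α 117 = false := ff fun y => c515 h x22t x20t y
  have x184t : α 184 = true := tt fun y => c2056 h y x92f x117f
  have x273f : α 273 = false := ff fun y => l3934 h y x346t x249t
  have x157t : α 157 = true := tt fun y => c2421 h x117f y x273f
  have x423t : α 423 = true := tt fun y => c2431 h x306f x117f y x273f
  have x257t : α 257 = true := tt fun y => c2277 h x106f x117f y x273f
  have x183f : α 183 = false := ff fun y => c2757 h x423t x257t y
  have x189t : α 189 = true := tt fun y => c2750 h x183f y x273f
  have x59f : α 59 = false := ff fun y => c542 h x20t y x189t
  have x61t : α 61 = true := tt fun y => l3669 h x59f y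
  have x53f : α 53 = false := ff fun y => l3778 h y x61t
  have x54f : α 54 = false := ff fun y => l3870 h x61t y
  have x56t : α 56 = true := tt fun y => l3648 h x53f y
  have x335t : α 335 = true := tt fun y => l3653 h x53f y
  have x264f : α 264 = false := ff fun y => l3862 h y x238t x57f x53f x272f
  have x327f : α 327 = false := ff fun y => l3667 h x56t y
  have x58t : α 58 = true := tt fun y => l3930 h y x56t x346t x249t
  have x204f : α 204 = false := ff fun y => c2655 h x335t y x157t
  have x113t : α 113 = true := tt fun y => l3691 h y x264f
  have x19f : α 19 = false := ff fun y => c484 h y x58t x189t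
  have x399f : α 399 = false := ff fun y => c1485 h x58t x189t y
  have x334t : α 334 = true := tt fun y => l3705 h x204f y
  have x97f : α 97 = false := ff fun y => c2176 h x113t y x189t
  have x250t : α 250 = true := tt fun y => c3111 h y x273f x399f
  have x443t : α 443 = true := tt fun y => c2048 h x449f x92f y x97f
  have x23t : α 23 = true := tt fun y => c706 h y x97f x273f
  have x91f : α 91 = false := ff fun y => c1983 h x94t x238t y x250t
  have x237f : α 237 = false := ff fun y => l3739 h x249t x250t x92f y x94t
  have x430f : α 430 = false := ff fun y => c2370 h x113t x250t y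
  have x379f : α 379 = false := ff fun y => l3767 h x264f y x23t
  have x233t : α 233 = true := tt fun y => c1314 h x54f x91f y
  have x114t : α 114 = true := tt fun y => c1992 h y x91f x183f
  have x340t : α 340 = true := tt fun y => c2006 h x91f x183f y
  have x197t : α 197 = true := tt fun y => c1311 h y x54f x237f x91f
  have x299t : α 299 = true := tt fun y => c2429 h x117f y x273f x430f
  have x351f : α 351 = false := ff fun y => c2122 h x249t x94t y x233t
  have x326f : α 326 = false := ff fun y => l3726 h x197t y
  have x353f : α 353 = false := ff fun y => c2890 h y x249t x197t
  have x52f : α 52 = false := ff fun y => c640 h x22t x299t y x334t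
  have x242t : α 242 = true := tt fun y => c2190 h x237f x97f x351f y
  have x146t : α 146 = true := tt fun y => c2285 h x306f x106f x326f y
  have x239t : α 239 = true := tt fun y => c2021 h x353f y x237f x91f
  have x1t : α 1 = true := tt fun y => c20 h x53f y x52f
  have x378t : α 378 = true := tt fun y => c1258 h x52f x183f y
  have x201f : α 201 = false := ff fun y => c2920 h x233t y x242t
  have x451f : α 451 = false := ff fun y => c2554 h x146t x257t y
  have x236f : α 236 = false := ff fun y => c2991 h x239t y x233t x242t
  have x402f : α 402 = false := ff fun y => c84 h y x1t x443t x58t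
  have x387f : α 387 = false := ff fun y => c517 h x22t x20t x378t y
  have x95t : α 95 = true := tt fun y => l3489 h y x378t x183f x52f
  have x108t : α 108 = true := tt fun y => l3856 h y x28f x236f x97f x61t x92f
  have x161t : α 161 = true := tt fun y => c2676 h x379f x236f y
  have x328t : α 328 = true := tt fun y => c3263 h y x327f x402f
  have x70t : α 70 = true := tt fun y => c1693 h y x201f x387f
  have x120f : α 120 = false := ff fun y => l3685 h x108t y
  have x308f : α 308 = false := ff fun y => l3689 h y x108t x328t
  have x179f : α 179 = false := ff fun y => c2542 h y x161t x146t x157t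
  have x41t : α 41 = true := tt fun y => c1114 h x272f x120f y
  have x46t : α 46 = true := tt fun y => c1019 h x120f x36f y
  have x286t : α 286 = true := tt fun y => c1038 h y x120f x36f
  have x24t : α 24 = true := tt fun y => c758 h x308f x120f y
  have x71t : α 71 = true := tt fun y => c1718 h x179f y x451f x387f
  have x282f : α 282 = false := ff fun y => c1111 h x41t y x114t x340t
  have x30f : α 30 = false := ff fun y => c726 h x94t x24t y
  have x80f : α 80 = false := ff fun y => c511 h y x71t x22t x20t
  have x476t : α 476 = true := tt fun y => c877 h x264f y x28f x282f
  have x18t : α 18 = true := tt fun y => c413 h x30f y x91f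
  have x251t : α 251 = true := tt fun y => l3762 h y x183f x80f x52f x22t
  have x266f : α 266 = false := ff fun y => l3761 h y x95t x80f x23t x184t x53f x22t
  have x256f : α 256 = false := ff fun y => c2373 h x476t y x113t
  have x115f : α 115 = false := ff fun y => c409 h x24t x18t y
  have x248t : α 248 = true := tt fun y => c3096 h x379f x266f y
  have x474t : α 474 = true := tt fun y => l3708 h x256f y
  have x35t : α 35 = true := tt fun y => c469 h x19f y x91f x115f
  have x93f : α 93 = false := ff fun y => c2088 h x248t y x251t x95t
  have x269f : α 269 = false := ff fun y => c1000 h x286t y x46t x35t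
  have x119f : α 119 = false := ff fun y => c999 h x46t x35t y
  have x96t : α 96 = true := tt fun y => c1269 h y x53f x93f
  have x284t : α 284 = true := tt fun y => c2092 h x93f x256f x119f y
  have x185f : α 185 = false := ff fun y => c2170 h x346t y x96t
  have x180f : α 180 = false := ff fun y => c2721 h x474t x284t y
  have x188t : α 188 = true := tt fun y => c2777 h x269f y x185f
  have x81t : α 81 = true := tt fun y => l3650 h y x180f x53f
  c1682 h x188t x184t x70t x81t

theorem l3936 (h : Good α) (x1t : α 1 = true) (x91f : α 91 = false) (x449f : α 449 = false) (x61t : α 61 = true) (x58t : α 58 = true) (x92f : α 92 = false) (x54f : α 54 = false) (x273f : α 273 = false) (x249t : α 249 = true) : False :=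
  have x94t : α 94 = true := tt fun y => c1309 h y x54f x91f
  have x57f : α 57 = false := ff fun y => c1423 h x249t x94t y
  have x238t : α 238 = true := tt fun y => c1415 h x57f x92f y
  have x233t : α 233 = true := tt fun y => c1314 h x54f x91f y
  have x53f : α 53 = false := ff fun y => l3778 h y x61t
  have x56t : α 56 = true := tt fun y => l3648 h x53f y
  have x327f : α 327 = false := ff fun y => l3667 h x56t y
  have x346f : α 346 = false := ff fun y => l3935 h y x249t
  have x201f : α 201 = false := ff fun y => c80 h x1t x58t y
  have x97f : α 97 = false := ff fun y => c76 h x1t x61t x58t y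
  have x204f : α 204 = false := ff fun y => c102 h x1t x61t y
  have x242t : α 242 = true := tt fun y => c1413 h x57f x92f x201f y
  have x443t : α 443 = true := tt fun y => c2048 h x449f x92f y x97f
  have x23t : α 23 = true := tt fun y => c706 h y x97f x273f
  have x250t : α 250 = true := tt fun y => c1312 h x54f x204f x91f y
  have x576f : α 576 = false := ff fun y => l3413 h y x233t x242t x201f
  have x402f : α 402 = false := ff fun y => c84 h y x1t x443t x58t
  have x183f : α 183 = false := ff fun y => c696 h x23t x58t y
  have x237f : α 237 = false := ff fun y => l3739 h x249t x250t x92f y x94t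
  have x197t : α 197 = true := tt fun y => c1342 h x402f y x54f
  have x328t : α 328 = true := tt fun y => c3263 h y x327f x402f
  have x114t : α 114 = true := tt fun y => c1992 h y x91f x183f
  have x340t : α 340 = true := tt fun y => c2006 h x91f x183f y
  have x353f : α 353 = false := ff fun y => c2890 h y x249t x197t
  have x272f : α 272 = false := ff fun y => l3695 h x114t y
  have x28f : α 28 = false := ff fun y => l3636 h y x340t
  have x239t : α 239 = true := tt fun y => c2021 h x353f y x237f x91f
  have x477t : α 477 = true := tt fun y => c3214 h x272f x346f y
  have x286t : α 286 = true := tt fun y => c3211 h y x272f x346f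
  have x264f : α 264 = false := ff fun y => l3862 h y x238t x57f x53f x272f
  have x236f : α 236 = false := ff fun y => c2991 h x239t y x233t x242t
  have x275f : α 275 = false := ff fun y => c2396 h x477t y x114t
  have x379f : α 379 = false := ff fun y => l3767 h x264f y x23t
  have x108t : α 108 = true := tt fun y => l3856 h y x28f x236f x97f x61t x92f
  have x577t : α 577 = true := tt fun y => c3024 h y x379f x236f
  have x285t : α 285 = true := tt fun y => c3226 h x346f x275f y
  have x120f : α 120 = false := ff fun y => l3685 h x108t y
  have x308f : α 308 = false := ff fun y => l3689 h y x108t x328t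
  have x386f : α 386 = false := ff fun y => c3068 h x577t y x239t
  have x478f : α 478 = false := ff fun y => c2398 h x114t x340t x285t y
  have x24t : α 24 = true := tt fun y => c758 h x308f x120f y
  have x459t : α 459 = true := tt fun y => c3329 h y x386f x379f
  have x454t : α 454 = true := tt fun y => c3384 h y x478f x576f
  have x16f : α 16 = false := ff fun y => c323 h x24t y x108t
  have x175f : α 175 = false := ff fun y => c2708 h x459t x286t y
  have x467f : α 467 = false := ff fun y => l3716 h x454t y
  have x381f : α 381 = false := ff fun y => c754 h x24t x108t y x454t
  have x181t : α 181 = true := tt fun y => c360 h x120f x16f x275f y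
  have x68t : α 68 = true := tt fun y => c350 h x175f y x120f x16f
  have x191t : α 191 = true := tt fun y => c1338 h x54f y x381f
  have x63t : α 63 = true := tt fun y => c1615 h x175f y x467f x381f
  c1599 h x63t x68t x191t x181t

theorem l3937 (h : Good α) (x91f : α 91 = false) (x449f : α 449 = false) (x61t : α 61 = true) (x58t : α 58 = true) (x92f : α 92 = false) (x54f : α 54 = false) (x273f : α 273 = false) (x249t : α 249 = true) : False :=
  have x53f : α 53 = false := ff fun y => l3778 h y x61t
  have x346f : α 346 = false := ff fun y => l3935 h y x249t
  have x94t : α 94 = true := tt fun y => c1309 h y x54f x91f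
  have x233t : α 233 = true := tt fun y => c1314 h x54f x91f y
  have x57f : α 57 = false := ff fun y => c1423 h x249t x94t y
  have x351f : α 351 = false := ff fun y => c2122 h x249t x94t y x233t
  have x1f : α 1 = false := ff fun y => l3936 h y x91f x449f x61t x58t x92f x54f x273f x249t
  have x52t : α 52 = true := tt fun y => c20 h x53f x1f y
  have x197t : α 197 = true := tt fun y => c41 h y x54f x1f
  have x200t : α 200 = true := tt fun y => c67 h y x57f x1f
  have x402t : α 402 = true := tt fun y => c71 h x449f x57f y x1f
  have x237f : α 237 = false := ff fun y => c2886 h x249t x197t y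
  have x353f : α 353 = false := ff fun y => c2890 h y x249t x197t
  have x114t : α 114 = true := tt fun y => l3588 h y x237f x58t x91f
  have x443t : α 443 = true := tt fun y => c2024 h y x237f x91f
  have x239t : α 239 = true := tt fun y => c2021 h x353f y x237f x91f
  have x272f : α 272 = false := ff fun y => l3695 h x114t y
  have x97f : α 97 = false := ff fun y => c1558 h x402t x61t x443t y
  have x201f : α 201 = false := ff fun y => c2902 h x239t x200t x233t y
  have x236f : α 236 = false := ff fun y => c2910 h x239t x200t y
  have x477t : α 477 = true := tt fun y => c3214 h x272f x346f y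
  have x23t : α 23 = true := tt fun y => c706 h y x97f x273f
  have x242t : α 242 = true := tt fun y => c2190 h x237f x97f x351f y
  have x275f : α 275 = false := ff fun y => c2396 h x477t y x114t
  have x183f : α 183 = false := ff fun y => c696 h x23t x58t y
  have x576f : α 576 = false := ff fun y => l3413 h y x233t x242t x201f
  have x285t : α 285 = true := tt fun y => c3226 h x346f x275f y
  have x340t : α 340 = true := tt fun y => c2006 h x91f x183f y
  have x478f : α 478 = false := ff fun y => c2398 h x114t x340t x285t y
  have x28f : α 28 = false := ff fun y => l3636 h y x340t
  have x454t : α 454 = true := tt fun y => c3384 h y x478f x576f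
  have x108t : α 108 = true := tt fun y => l3856 h y x28f x236f x97f x61t x92f
  have x467f : α 467 = false := ff fun y => l3716 h x454t y
  have x384f : α 384 = false := ff fun y => l3645 h y x454t x52t
  have x120f : α 120 = false := ff fun y => l3685 h x108t y
  have x16f : α 16 = false := ff fun y => l3621 h x108t y x52t
  c361 h x120f x16f x467f x384f

theorem l3938 (h : Good α) (x94t : α 94 = true) (x250t : α 250 = true) (x91t : α 91 = true) (x92f : α 92 = false) (x249t : α 249 = true) : False :=
  have x57f : α 57 = false := ff fun y => c1423 h x249t x94t y
  have x238f : α 238 = false := ff fun y => c1983 h x94t y x91t x250t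
  c1415 h x57f x92f x238f

theorem l3939 (h : Good α) (x1f : α 1 = false) (x236t : α 236 = true) (x200f : α 200 = false) (x94f : α 94 = false) (x250t : α 250 = true) (x61t : α 61 = true) (x58t : α 58 = true) (x92f : α 92 = false) (x54f : α 54 = false) : False :=
  have x57t : α 57 = true := tt fun y => c35 h x94f y x54f x1f
  have x238f : α 238 = false := ff fun y => c1404 h x57t y x58t x250t
  have x444t : α 444 = true := tt fun y => c2079 h x92f x238f y
  have x204t : α 204 = true := tt fun y => c1320 h x94f x238f x54f y
  have x450f : α 450 = false := ff fun y => c1408 h x57t x444t x58t y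
  have x409f : α 409 = false := ff fun y => c1579 h x61t x204t y
  have x354f : α 354 = false := ff fun y => c2941 h x204t x250t y
  have x548t : α 548 = true := tt fun y => c3364 h x409f x450f y
  have x544t : α 544 = true := tt fun y => c119 h x200f y x1f x409f
  have x242t : α 242 = true := tt fun y => c2077 h x92f x238f y x354f
  c3016 h x236t x544t x242t x548t

theorem l3940 (h : Good α) (x449f : α 449 = false) (x61t : α 61 = true) (x249t : α 249 = true) (x58t : α 58 = true) (x92f : α 92 = false) (x54f : α 54 = false) (x273f : α 273 = false) : False :=
  have x91t : α 91 = true := tt fun y => l3937 h y x449f x61t x58t x92f x54f x273f x249t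
  have x97f : α 97 = false := ff fun y => c1457 h x91t x58t y
  have x443t : α 443 = true := tt fun y => c2048 h x449f x92f y x97f
  have x23t : α 23 = true := tt fun y => c706 h y x97f x273f
  have x183f : α 183 = false := ff fun y => c696 h x23t x58t y
  have x189t : α 189 = true := tt fun y => c2750 h x183f y x273f
  have x399f : α 399 = false := ff fun y => c1485 h x58t x189t y
  have x250t : α 250 = true := tt fun y => c3111 h y x273f x399f
  have x94f : α 94 = false := ff fun y => l3938 h y x250t x91t x92f x249t
  have x239t : α 239 = true := tt fun y => c1322 h y x94f x54f
  have x200f : α 200 = false := ff fun y => c1459 h x239t y x91t x58t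
  have x547f : α 547 = false := ff fun y => c2029 h y x239t x443t x91t
  have x236t : α 236 = true := tt fun y => c2075 h x547f y x449f x92f
  have x402t : α 402 = true := tt fun y => c1324 h x449f x94f y x54f
  have x1t : α 1 = true := tt fun y => l3939 h y x236t x200f x94f x250t x61t x58t x92f x54f
  c84 h x402t x1t x443t x58t

theorem l3941 (h : Good α) (x272f : α 272 = false) (x57t : α 57 = true) (x94f : α 94 = false) (x449t : α 449 = true) (x53f : α 53 = false) : False :=
  have x56t : α 56 = true := tt fun y => l3648 h x53f y
  have x327f : α 327 = false := ff fun y => l3667 h x56t y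
  have x505t : α 505 = true := tt fun y => c2140 h y x272f x94f
  have x22t : α 22 = true := tt fun y => c656 h x272f x94f y
  have x429f : α 429 = false := ff fun y => c3373 h x505t y x449t
  have x184f : α 184 = false := ff fun y => c647 h y x57t x22t
  c1292 h x429f x184f x327f x53f

theorem l3942 (h : Good α) (x108t : α 108 = true) (x452f : α 452 = false) (x28t : α 28 = true) (x20t : α 20 = true) (x236f : α 236 = false) (x59f : α 59 = false) : False :=
  have x10f : α 10 = false := ff fun y => l3618 h y x28t
  have x167f : α 167 = false := ff fun y => l3686 h x108t y
  have x89f : α 89 = false := ff fun y => c520 h x20t y x28t x108t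
  have x575t : α 575 = true := tt fun y => c201 h x452f y x10f x167f
  have x382t : α 382 = true := tt fun y => c200 h x236f y x10f x167f
  have x241t : α 241 = true := tt fun y => c1510 h y x89f x59f
  c3076 h x575t x382t x241t

theorem l3943 (h : Good α) (x167f : α 167 = false) (x452f : α 452 = false) (x28t : α 28 = true) (x272t : α 272 = true) (x236f : α 236 = false) (x52t : α 52 = true) (x1f : α 1 = false) (x59f : α 59 = false) : False :=
  have x10f : α 10 = false := ff fun y => l3618 h y x28t
  have x459f : α 459 = false := ff fun y => l3732 h x272t y
  have x575t : α 575 = true := tt fun y => c201 h x452f y x10f x167f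
  have x40t : α 40 = true := tt fun y => c183 h x10f y x167f
  have x382t : α 382 = true := tt fun y => c200 h x236f y x10f x167f
  have x241f : α 241 = false := ff fun y => c3076 h x575t x382t y
  have x286f : α 286 = false := ff fun y => c839 h y x40t x272t x28t
  have x194t : α 194 = true := tt fun y => c88 h y x241f x1f x59f
  have x175t : α 175 = true := tt fun y => c2707 h x459f x286f y
  have x63f : α 63 = false := ff fun y => c1617 h y x194t x382t
  have x68f : α 68 = false := ff fun y => l3642 h y x175t x52t
  c1595 h x63f x68f x167f

theorem l3944 (h : Good α) (x61t : α 61 = true) (x58t : α 58 = true) (x92f : α 92 = false) (x54f : α 54 = false) (x273f : α 273 = false) (x249t : α 249 = true) : False :=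
  have x59f : α 59 = false := ff fun y => l3670 h y x61t
  have x53f : α 53 = false := ff fun y => l3778 h y x61t
  have x56t : α 56 = true := tt fun y => l3648 h x53f y
  have x327f : α 327 = false := ff fun y => l3667 h x56t y
  have x449t : α 449 = true := tt fun y => l3940 h y x61t x249t x58t x92f x54f x273f
  have x94f : α 94 = false := ff fun y => c2135 h x449t x249t y
  have x57t : α 57 = true := tt fun y => c1409 h x94f y x92f
  have x91t : α 91 = true := tt fun y => c1309 h x94f x54f y
  have x239t : α 239 = true := tt fun y => c1322 h y x94f x54f
  have x1f : α 1 = false := ff fun y => c62 h x57t y x58t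
  have x237f : α 237 = false := ff fun y => c1402 h x249t x57t y x58t
  have x443f : α 443 = false := ff fun y => c1406 h x449t x57t y x58t
  have x97f : α 97 = false := ff fun y => c1457 h x91t x58t y
  have x200f : α 200 = false := ff fun y => c1459 h x239t y x91t x58t
  have x52t : α 52 = true := tt fun y => c20 h x53f x1f y
  have x197t : α 197 = true := tt fun y => c41 h y x54f x1f
  have x23t : α 23 = true := tt fun y => c706 h y x97f x273f
  have x326f : α 326 = false := ff fun y => l3726 h x197t y
  have x353f : α 353 = false := ff fun y => c2890 h y x249t x197t
  have x402f : α 402 = false := ff fun y => c2892 h x449t x249t y x197t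
  have x183f : α 183 = false := ff fun y => c696 h x23t x58t y
  have x547t : α 547 = true := tt fun y => c3043 h y x353f x443f x237f
  have x543t : α 543 = true := tt fun y => c3346 h x402f x443f y
  have x189t : α 189 = true := tt fun y => c2750 h x183f y x273f
  have x233f : α 233 = false := ff fun y => c2994 h x547t x239t x543t y
  have x19f : α 19 = false := ff fun y => c484 h y x58t x189t
  have x399f : α 399 = false := ff fun y => c1485 h x58t x189t y
  have x201t : α 201 = true := tt fun y => c45 h x54f x1f x233f y
  have x114f : α 114 = false := ff fun y => l3535 h y x94f x233f x57t x201t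
  have x250t : α 250 = true := tt fun y => c3111 h y x273f x399f
  have x236f : α 236 = false := ff fun y => l3939 h x1f y x200f x94f x250t x61t x58t x92f x54f
  have x272t : α 272 = true := tt fun y => l3941 h y x57t x94f x449t x53f
  have x459f : α 459 = false := ff fun y => l3732 h x272t y
  have x188f : α 188 = false := ff fun y => l3666 h y x272t x56t
  have x306f : α 306 = false := ff fun y => c3099 h x272t x249t y
  have x386t : α 386 = true := tt fun y => c507 h x459f y x114f x19f
  have x106t : α 106 = true := tt fun y => c2100 h x188f x94f y
  have x20t : α 20 = true := tt fun y => c543 h x306f y x326f x59f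
  have x577f : α 577 = false := ff fun y => c3068 h y x386t x239t
  have x429f : α 429 = false := ff fun y => c2288 h y x249t x106t
  have x22f : α 22 = false := ff fun y => c513 h x106t y x20t
  have x379t : α 379 = true := tt fun y => c3024 h x577f y x236f
  have x184t : α 184 = true := tt fun y => c1292 h x429f y x327f x53f
  have x264t : α 264 = true := tt fun y => l3709 h x429f x327f y
  have x28t : α 28 = true := tt fun y => c620 h x94f x22f y
  have x452f : α 452 = false := ff fun y => c2768 h x379t y x184t x264t
  have x167t : α 167 = true := tt fun y => l3943 h y x452f x28t x272t x236f x52t x1f x59f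
  have x175f : α 175 = false := ff fun y => l3714 h x167t y
  have x68f : α 68 = false := ff fun y => l3641 h y x167t x52t
  have x286t : α 286 = true := tt fun y => c2707 h x459f y x175f
  have x63t : α 63 = true := tt fun y => c1597 h x175f y x68f
  have x369f : α 369 = false := ff fun y => c3212 h y x286t x272t
  have x40f : α 40 = false := ff fun y => c839 h x286t y x272t x28t
  have x107f : α 107 = false := ff fun y => c1607 h x239t y x63t
  have x41t : α 41 = true := tt fun y => c1117 h x369f x175f y
  have x29t : α 29 = true := tt fun y => c883 h x107f y x40f
  have x120f : α 120 = false := ff fun y => c1115 h x272t y x41t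
  have x12f : α 12 = false := ff fun y => c221 h x272t x41t x249t y
  have x16t : α 16 = true := tt fun y => c350 h x175f x68f x120f y
  have x74t : α 74 = true := tt fun y => c223 h x12f y x237f
  have x95f : α 95 = false := ff fun y => c335 h x29t x16t y
  have x36f : α 36 = false := ff fun y => l3637 h y x74t x197t
  c1032 h x36f x95f x114f x183f

theorem l3945 (h : Good α) (x58t : α 58 = true) (x92f : α 92 = false) (x249t : α 249 = true) (x54f : α 54 = false) (x273f : α 273 = false) : False :=
  have x61f : α 61 = false := ff fun y => l3944 h y x58t x92f x54f x273f x249t
  have x94t : α 94 = true := tt fun y => c1302 h y x92f x54f x61f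
  have x449t : α 449 = true := tt fun y => l3854 h x61f x92f y x58t x249t
  c2135 h x449t x249t x94t

theorem l3946 (h : Good α) (x61f : α 61 = false) (x92f : α 92 = false) (x54f : α 54 = false) (x273f : α 273 = false) (x249t : α 249 = true) : False :=
  have x58f : α 58 = false := ff fun y => l3945 h y x92f x249t x54f x273f
  have x59t : α 59 = true := tt fun y => l3669 h y x61f
  have x325t : α 325 = true := tt fun y => l3677 h x61f y
  have x97t : α 97 = true := tt fun y => c1544 h x92f x61f y
  have x236t : α 236 = true := tt fun y => c1548 h y x92f x61f
  have x94t : α 94 = true := tt fun y => c1302 h y x92f x54f x61f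
  have x1t : α 1 = true := tt fun y => c39 h x54f y x61f
  have x91f : α 91 = false := ff fun y => l3747 h x94t x61f y x58f x249t
  have x57f : α 57 = false := ff fun y => c1423 h x249t x94t y
  have x56f : α 56 = false := ff fun y => c57 h y x1t x59t
  have x237t : α 237 = true := tt fun y => c1461 h y x91f x58f
  have x233t : α 233 = true := tt fun y => c1314 h x54f x91f y
  have x238t : α 238 = true := tt fun y => c1415 h x57f x92f y
  have x19t : α 19 = true := tt fun y => l3578 h y x97t x58f x56f
  have x197f : α 197 = false := ff fun y => c2886 h x249t y x237t
  have x250f : α 250 = false := ff fun y => l3739 h x249t y x92f x237t x94t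
  have x351f : α 351 = false := ff fun y => c2122 h x249t x94t y x233t
  have x242t : α 242 = true := tt fun y => c1577 h x197f x61f x351f y
  have x307t : α 307 = true := tt fun y => c3109 h y x250f x273f
  have x201f : α 201 = false := ff fun y => c2920 h x233t y x242t
  have x239f : α 239 = false := ff fun y => c2991 h y x236t x233t x242t
  have x354t : α 354 = true := tt fun y => c1490 h x58f x250f x201f y
  have x548f : α 548 = false := ff fun y => c3083 h x242t x354t y
  have x450t : α 450 = true := tt fun y => c1494 h x58f y x201f x548f
  have x544f : α 544 = false := ff fun y => c2189 h x236t y x97t x450t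
  have x409t : α 409 = true := tt fun y => c1352 h x239f x544f x54f y
  have x335f : α 335 = false := ff fun y => c3261 h x325t y x409t
  have x264f : α 264 = false := ff fun y => l3419 h y x335f x238t x57f x56f
  have x424t : α 424 = true := tt fun y => l3710 h y x335f x264f
  have x188t : α 188 = true := tt fun y => l3664 h y x264f x56f
  c509 h x188t x424t x19t x307t

theorem l3947 (h : Good α) (x94t : α 94 = true) (x61t : α 61 = true) (x58f : α 58 = false) (x92f : α 92 = false) (x249t : α 249 = true) : False :=
  have x91t : α 91 = true := tt fun y => l3742 h x61t y x58f x249t
  have x57f : α 57 = false := ff fun y => c1423 h x249t x94t y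
  have x97f : α 97 = false := ff fun y => l3773 h y x94t x61t x91t x58f x249t
  c1399 h x57f x92f x58f x97f

theorem l3948 (h : Good α) (x1t : α 1 = true) (x97f : α 97 = false) (x57t : α 57 = true) (x94f : α 94 = false) (x61t : α 61 = true) (x58f : α 58 = false) (x54f : α 54 = false) (x249t : α 249 = true) : False :=
  have x239t : α 239 = true := tt fun y => c1322 h y x94f x54f
  have x91t : α 91 = true := tt fun y => l3742 h x61t y x58f x249t
  have x197f : α 197 = false := ff fun y => c66 h x249t x57t y x1t
  have x200f : α 200 = false := ff fun y => c68 h y x57t x1t
  have x204f : α 204 = false := ff fun y => c102 h x1t x61t y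
  have x402t : α 402 = true := tt fun y => c1342 h y x197f x54f
  have x236t : α 236 = true := tt fun y => c1465 h x200f y x58f x97f
  have x238t : α 238 = true := tt fun y => c1320 h x94f y x54f x204f
  have x449f : α 449 = false := ff fun y => c72 h y x57t x402t x1t
  have x201f : α 201 = false := ff fun y => l3756 h y x239t x402t x238t x204f x1t x449f x94f x91t x58f x249t
  have x242t : α 242 = true := tt fun y => c1467 h x58f x97f x201f y
  have x233t : α 233 = true := tt fun y => l3759 h y x201f x402t x449f x94f x61t
  c2991 h x239t x236t x233t x242t

theorem l3949 (h : Good α) (x97f : α 97 = false) (x92f : α 92 = false) (x54f : α 54 = false) (x273f : α 273 = false) (x249t : α 249 = true) : False :=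
  have x58f : α 58 = false := ff fun y => l3945 h y x92f x249t x54f x273f
  have x61t : α 61 = true := tt fun y => l3946 h y x92f x54f x273f x249t
  have x94f : α 94 = false := ff fun y => l3947 h y x61t x58f x92f x249t
  have x239t : α 239 = true := tt fun y => c1322 h y x94f x54f
  have x57t : α 57 = true := tt fun y => c1409 h x94f y x92f
  have x53f : α 53 = false := ff fun y => l3778 h y x61t
  have x56t : α 56 = true := tt fun y => l3648 h x53f y
  have x327f : α 327 = false := ff fun y => l3667 h x56t y
  have x335t : α 335 = true := tt fun y => l3653 h x53f y
  have x59f : α 59 = false := ff fun y => l3670 h y x61t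
  have x23t : α 23 = true := tt fun y => c706 h y x97f x273f
  have x1f : α 1 = false := ff fun y => l3948 h y x97f x57t x94f x61t x58f x54f x249t
  have x449t : α 449 = true := tt fun y => l3754 h x1f y x94f x61t x58f x249t
  have x52t : α 52 = true := tt fun y => c20 h x53f x1f y
  have x197t : α 197 = true := tt fun y => c41 h y x54f x1f
  have x201t : α 201 = true := tt fun y => c79 h x1f x58f y
  have x272t : α 272 = true := tt fun y => l3941 h y x57t x94f x449t x53f
  have x326f : α 326 = false := ff fun y => l3726 h x197t y
  have x237f : α 237 = false := ff fun y => c2886 h x249t x197t y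
  have x353f : α 353 = false := ff fun y => c2890 h y x249t x197t
  have x402f : α 402 = false := ff fun y => c2892 h x449t x249t y x197t
  have x351f : α 351 = false := ff fun y => c1444 h x249t x57t y x201t
  have x459f : α 459 = false := ff fun y => l3732 h x272t y
  have x114f : α 114 = false := ff fun y => l3695 h y x272t
  have x188f : α 188 = false := ff fun y => l3666 h y x272t x56t
  have x306f : α 306 = false := ff fun y => c3099 h x272t x249t y
  have x424f : α 424 = false := ff fun y => l3731 h y x335t x272t
  have x200t : α 200 = true := tt fun y => c1486 h x353f y x237f x58f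
  have x443t : α 443 = true := tt fun y => c83 h x402f x1f y x58f
  have x312t : α 312 = true := tt fun y => c3252 h x402f x326f y
  have x242t : α 242 = true := tt fun y => c2190 h x237f x97f x351f y
  have x423t : α 423 = true := tt fun y => c2388 h x114f x237f y
  have x106t : α 106 = true := tt fun y => c2100 h x188f x94f y
  have x20t : α 20 = true := tt fun y => c543 h x306f y x326f x59f
  have x236f : α 236 = false := ff fun y => c2910 h x239t x200t y
  have x233f : α 233 = false := ff fun y => c2902 h x239t x200t y x201t
  have x354f : α 354 = false := ff fun y => c2924 h x201t x242t y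
  have x487f : α 487 = false := ff fun y => c3370 h x443t x423t y
  have x429f : α 429 = false := ff fun y => c2288 h y x249t x106t
  have x22f : α 22 = false := ff fun y => c513 h x106t y x20t
  have x85f : α 85 = false := ff fun y => c532 h x57t x20t y
  have x204t : α 204 = true := tt fun y => c1346 h x54f y x233f x354f
  have x184t : α 184 = true := tt fun y => c1292 h x429f y x327f x53f
  have x264t : α 264 = true := tt fun y => l3709 h x429f x327f y
  have x28t : α 28 = true := tt fun y => c620 h x94f x22f y
  have x409f : α 409 = false := ff fun y => c1579 h x61t x204t y
  have x238f : α 238 = false := ff fun y => c2880 h x249t y x197t x204t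
  have x113f : α 113 = false := ff fun y => c711 h x184t x264t x23t y
  have x10f : α 10 = false := ff fun y => l3618 h y x28t
  have x205f : α 205 = false := ff fun y => l3635 h x312t x28t y
  have x450t : α 450 = true := tt fun y => c85 h x1f x409f x58f y
  have x212t : α 212 = true := tt fun y => c2177 h y x113f x97f
  have x71t : α 71 = true := tt fun y => c195 h x236f y x10f
  have x399t : α 399 = true := tt fun y => c1888 h x205f x85f x487f y
  have x307f : α 307 = false := ff fun y => c2961 h x212t y x450t
  have x386f : α 386 = false := ff fun y => c1722 h y x200t x71t
  have x19t : α 19 = true := tt fun y => c508 h x188f x424f y x307f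
  have x379t : α 379 = true := tt fun y => c3329 h x459f x386f y
  have x452f : α 452 = false := ff fun y => c2768 h x379t y x184t x264t
  have x108f : α 108 = false := ff fun y => l3942 h y x452f x28t x20t x236f x59f
  have x167t : α 167 = true := tt fun y => l3943 h y x452f x28t x272t x236f x52t x1f x59f
  have x175f : α 175 = false := ff fun y => l3714 h x167t y
  have x68f : α 68 = false := ff fun y => l3641 h y x167t x52t
  have x286t : α 286 = true := tt fun y => c2707 h x459f y x175f
  have x63t : α 63 = true := tt fun y => c1597 h x175f y x68f
  have x369f : α 369 = false := ff fun y => c3212 h y x286t x272t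
  have x40f : α 40 = false := ff fun y => c839 h x286t y x272t x28t
  have x107f : α 107 = false := ff fun y => c1607 h x239t y x63t
  have x41t : α 41 = true := tt fun y => c1117 h x369f x175f y
  have x267t : α 267 = true := tt fun y => c1099 h x40f x108f y
  have x207t : α 207 = true := tt fun y => c2107 h y x107f x94f
  have x12f : α 12 = false := ff fun y => c221 h x272t x41t x249t y
  have x190f : α 190 = false := ff fun y => l3678 h x267t y x61t
  have x30f : α 30 = false := ff fun y => c915 h x207t x63t y
  have x152t : α 152 = true := tt fun y => c217 h x12f x30f y
  have x343t : α 343 = true := tt fun y => c2184 h y x190f x97f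
  have x100t : α 100 = true := tt fun y => c922 h x188f y x94f x30f
  have x579f : α 579 = false := ff fun y => c2614 h x152t x343t y
  have x461f : α 461 = false := ff fun y => c497 h x100t y x19t x399t
  c1891 h x238f x579f x85f x461f

theorem l3950 (h : Good α) (x1f : α 1 = false) (x233t : α 233 = true) (x239t : α 239 = true) (x58f : α 58 = false) (x54f : α 54 = false) (x249t : α 249 = true) : False :=
  have x197t : α 197 = true := tt fun y => c41 h y x54f x1f
  have x201t : α 201 = true := tt fun y => c79 h x1f x58f y
  have x237f : α 237 = false := ff fun y => c2886 h x249t x197t y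
  have x353f : α 353 = false := ff fun y => c2890 h y x249t x197t
  have x200f : α 200 = false := ff fun y => c2902 h x239t y x233t x201t
  c1486 h x353f x200f x237f x58f

theorem l3951 (h : Good α) (x92f : α 92 = false) (x54f : α 54 = false) (x249t : α 249 = true) (x273f : α 273 = false) : False :=
  have x58f : α 58 = false := ff fun y => l3945 h y x92f x249t x54f x273f
  have x61t : α 61 = true := tt fun y => l3946 h y x92f x54f x273f x249t
  have x91t : α 91 = true := tt fun y => l3742 h x61t y x58f x249t
  have x94f : α 94 = false := ff fun y => l3947 h y x61t x58f x92f x249t
  have x57t : α 57 = true := tt fun y => c1409 h x94f y x92f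
  have x239t : α 239 = true := tt fun y => c1322 h y x94f x54f
  have x97t : α 97 = true := tt fun y => l3949 h y x92f x54f x273f x249t
  have x242f : α 242 = false := ff fun y => c1557 h x61t x97t y
  have x236f : α 236 = false := ff fun y => c1989 h x239t y x91t x97t
  have x233t : α 233 = true := tt fun y => c2040 h x94f x92f y x242f
  have x1t : α 1 = true := tt fun y => l3950 h y x233t x239t x58f x54f x249t
  have x197f : α 197 = false := ff fun y => c66 h x249t x57t y x1t
  have x200f : α 200 = false := ff fun y => c68 h y x57t x1t
  have x204f : α 204 = false := ff fun y => c102 h x1t x61t y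
  have x402t : α 402 = true := tt fun y => c1342 h y x197f x54f
  have x201t : α 201 = true := tt fun y => c2903 h x200f x236f y x242f
  have x238t : α 238 = true := tt fun y => c1320 h x94f y x54f x204f
  have x449f : α 449 = false := ff fun y => c72 h y x57t x402t x1t
  l3756 h x201t x239t x402t x238t x204f x1t x449f x94f x91t x58f x249t

theorem l3952 (h : Good α) (x233t : α 233 = true) (x201t : α 201 = true) (x197f : α 197 = false) (x91t : α 91 = true) (x94f : α 94 = false) (x1t : α 1 = true) (x57f : α 57 = false) (x92t : α 92 = true) (x249t : α 249 = true) : False :=
  have x439f : α 439 = false := ff fun y => c2017 h x91t x233t y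
  have x242f : α 242 = false := ff fun y => c2920 h x233t x201t y
  have x351f : α 351 = false := ff fun y => c2922 h y x233t x201t
  have x406t : α 406 = true := tt fun y => c1425 h x94f x57f x439f y
  have x237t : α 237 = true := tt fun y => c2887 h x197f y x351f
  have x61t : α 61 = true := tt fun y => c1577 h x197f y x351f x242f
  have x447f : α 447 = false := ff fun y => c106 h x1t x61t x406t y
  have x97f : α 97 = false := ff fun y => c2047 h x249t x92t x237t y
  c2195 h x97f x242f x447f

theorem l3953 (h : Good α) (x286t : α 286 = true) (x28t : α 28 = true) (x272t : α 272 = true) (x10f : α 10 = false) (x452f : α 452 = false) (x97f : α 97 = false) (x22t : α 22 = true) (x70f : α 70 = false) (x19t : α 19 = true) (x264t : α 264 = true) (x56f : α 56 = false) (x61f : α 61 = false) (x233f : α 233 = false) (x239t : α 239 = true) (x92t : α 92 = true) (x54f : α 54 = false) : False :=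
  have x242t : α 242 = true := tt fun y => c1303 h x54f x61f x233f y
  have x11t : α 11 = true := tt fun y => c209 h y x70f x233f
  have x81f : α 81 = false := ff fun y => c213 h x11t y x242t
  have x158t : α 158 = true := tt fun y => c1679 h y x70f x81f
  have x114f : α 114 = false := ff fun y => l3694 h y x158t
  have x369f : α 369 = false := ff fun y => c3212 h y x286t x272t
  have x40f : α 40 = false := ff fun y => c839 h x286t y x272t x28t
  have x29f : α 29 = false := ff fun y => c631 h x286t y x272t x22t
  have x167t : α 167 = true := tt fun y => c183 h x10f x40f y
  have x482t : α 482 = true := tt fun y => c186 h x452f y x10f x40f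
  have x107t : α 107 = true := tt fun y => c883 h y x29f x40f
  have x175f : α 175 = false := ff fun y => l3714 h x167t y
  have x101f : α 101 = false := ff fun y => c2235 h x482t x264t y
  have x63f : α 63 = false := ff fun y => c1607 h x239t x107t y
  have x521f : α 521 = false := ff fun y => c2309 h y x286t x107t
  have x41t : α 41 = true := tt fun y => c1117 h x369f x175f y
  have x256t : α 256 = true := tt fun y => l3680 h x101f y
  have x102f : α 102 = false := ff fun y => l3833 h x101f y x97f x61f x92t
  have x24t : α 24 = true := tt fun y => c732 h x63f y x54f
  have x567t : α 567 = true := tt fun y => c1093 h x521f x40f y x102f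
  have x36f : α 36 = false := ff fun y => c1044 h x286t x482t y x256t
  have x90t : α 90 = true := tt fun y => c881 h x29f x40f y x102f
  have x18f : α 18 = false := ff fun y => c407 h x107t x24t y
  have x285t : α 285 = true := tt fun y => c1036 h x36f x114f y
  have x505f : α 505 = false := ff fun y => c654 h y x22t x567t x90t
  have x15t : α 15 = true := tt fun y => c273 h x56f y x54f x18f
  have x187t : α 187 = true := tt fun y => c430 h y x54f x18f
  have x586t : α 586 = true := tt fun y => c3406 h y x521f x505f
  have x103f : α 103 = false := ff fun y => c281 h x15t x19t y
  have x207f : α 207 = false := ff fun y => c2798 h x586t y x567t x187t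
  have x259t : α 259 = true := tt fun y => c1684 h x103f x70f y x233f
  have x30t : α 30 = true := tt fun y => c914 h x207f x63f y
  c910 h x41t x30t x285t x259t

theorem l3954 (h : Good α) (x28t : α 28 = true) (x272t : α 272 = true) (x459f : α 459 = false) (x10f : α 10 = false) (x386t : α 386 = true) (x353f : α 353 = false) (x97f : α 97 = false) (x70f : α 70 = false) (x19t : α 19 = true) (x264t : α 264 = true) (x56f : α 56 = false) (x61f : α 61 = false) (x233f : α 233 = false) (x239t : α 239 = true) (x92t : α 92 = true) (x54f : α 54 = false) (x249t : α 249 = true) : False :=
  have x57f : α 57 = false := ff fun y => l3879 h x54f x92t x249t y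
  have x20f : α 20 = false := ff fun y => c556 h x264t x92t y
  have x188t : α 188 = true := tt fun y => c533 h y x57f x20f
  have x452f : α 452 = false := ff fun y => c2812 h x386t y x188t x264t
  have x184f : α 184 = false := ff fun y => c2766 h x188t y x264t
  have x22t : α 22 = true := tt fun y => c646 h x184f x57f y
  have x346f : α 346 = false := ff fun y => l3935 h y x249t
  have x286f : α 286 = false := ff fun y => l3953 h y x28t x272t x10f x452f x97f x22t x70f x19t x264t x56f x61f x233f x239t x92t x54f
  have x175t : α 175 = true := tt fun y => c2707 h x459f x286f y
  have x173t : α 173 = true := tt fun y => c2701 h x459f x286f x353f y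
  have x167f : α 167 = false := ff fun y => l3714 h y x175t
  have x392f : α 392 = false := ff fun y => c2700 h x173t x249t y
  have x40t : α 40 = true := tt fun y => c183 h x10f y x167f
  have x495t : α 495 = true := tt fun y => c3306 h x346f x392f y
  have x29f : α 29 = false := ff fun y => c618 h y x40t x22t x28t
  have x90t : α 90 = true := tt fun y => c894 h x286f x29f x346f y
  have x107t : α 107 = true := tt fun y => c899 h x286f y x29f
  have x253f : α 253 = false := ff fun y => c1976 h x495t y x90t
  have x269f : α 269 = false := ff fun y => c2302 h x386t y x239t x107t
  have x148f : α 148 = false := ff fun y => c2299 h x173t x107t y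
  have x566t : α 566 = true := tt fun y => c3125 h y x392f x253f
  have x229t : α 229 = true := tt fun y => c2983 h x392f x253f y
  have x374t : α 374 = true := tt fun y => c3201 h y x286f x269f
  have x2t : α 2 = true := tt fun y => c126 h x148f x29f y
  c128 h x374t x2t x566t x229t

theorem l3955 (h : Good α) (x286f : α 286 = false) (x123t : α 123 = true) (x459f : α 459 = false) (x10f : α 10 = false) (x452f : α 452 = false) (x353f : α 353 = false) (x237t : α 237 = true) (x264t : α 264 = true) (x59t : α 59 = true) (x197f : α 197 = false) (x1t : α 1 = true) (x57f : α 57 = false) (x92t : α 92 = true) (x249t : α 249 = true) : False :=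
  have x20f : α 20 = false := ff fun y => c556 h x264t x92t y
  have x188t : α 188 = true := tt fun y => c533 h y x57f x20f
  have x184f : α 184 = false := ff fun y => c2766 h x188t y x264t
  have x383t : α 383 = true := tt fun y => c1432 h y x184f x57f
  have x56f : α 56 = false := ff fun y => c57 h y x1t x59t
  have x53t : α 53 = true := tt fun y => l3648 h y x56f
  have x196f : α 196 = false := ff fun y => c32 h y x53t x1t
  have x313f : α 313 = false := ff fun y => l3674 h x59t y
  have x175t : α 175 = true := tt fun y => c2707 h x459f x286f y
  have x173t : α 173 = true := tt fun y => c2701 h x459f x286f x353f y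
  have x120f : α 120 = false := ff fun y => l3698 h y x175t
  have x167f : α 167 = false := ff fun y => l3714 h y x175t
  have x392f : α 392 = false := ff fun y => c2700 h x173t x249t y
  have x575t : α 575 = true := tt fun y => c201 h x452f y x10f x167f
  have x74t : α 74 = true := tt fun y => c1759 h x392f x197f y
  have x12f : α 12 = false := ff fun y => c224 h y x74t x237t
  have x82f : α 82 = false := ff fun y => c1747 h x173t y x74t
  have x206t : α 206 = true := tt fun y => c1853 h x82f y x197f x313f
  have x41t : α 41 = true := tt fun y => c219 h x120f y x82f x12f
  have x192f : α 192 = false := ff fun y => c2061 h x92t y x123t x206t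
  have x337f : α 337 = false := ff fun y => c2474 h x264t y x123t x206t
  have x476f : α 476 = false := ff fun y => c1118 h x175t x575t x41t y
  have x89t : α 89 = true := tt fun y => c1948 h x337f x192f y
  have x343t : α 343 = true := tt fun y => c2855 h x337f x476f x192f y
  have x377t : α 377 = true := tt fun y => l3704 h y x337f x196f
  have x51f : α 51 = false := ff fun y => c13 h y x89t x1t x59t
  have x456f : α 456 = false := ff fun y => c3324 h x383t x377t y
  have x152t : α 152 = true := tt fun y => c1200 h x57f x51f y
  have x579t : α 579 = true := tt fun y => c3386 h x456f x476f y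
  c2614 h x152t x343t x579t

theorem l3956 (h : Good α) (x493f : α 493 = false) (x24t : α 24 = true) (x106f : α 106 = false) (x261f : α 261 = false) (x553f : α 553 = false) : False :=
  have x26t : α 26 = true := tt fun y => c808 h x553f x493f x106f y
  have x88t : α 88 = true := tt fun y => c1937 h x493f x261f y
  c721 h x88t x24t x26t

theorem l3957 (h : Good α) (x89t : α 89 = true) (x74t : α 74 = true) (x167f : α 167 = false) (x123t : α 123 = true) (x10f : α 10 = false) (x379f : α 379 = false) (x189t : α 189 = true) (x97f : α 97 = false) (x553f : α 553 = false) (x451t : α 451 = true) (x184f : α 184 = false) (x200f : α 200 = false) (x204t : α 204 = true) (x59t : α 59 = true) (x197f : α 197 = false) (x1t : α 1 = true) (x57f : α 57 = false) (x92t : α 92 = true) (x54f : α 54 = false) : False :=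
  have x80t : α 80 = true := tt fun y => c1825 h x379f x200f y
  have x22t : α 22 = true := tt fun y => c646 h x184f x57f y
  have x56f : α 56 = false := ff fun y => c57 h y x1t x59t
  have x53t : α 53 = true := tt fun y => l3648 h y x56f
  have x196f : α 196 = false := ff fun y => c32 h y x53t x1t
  have x324t : α 324 = true := tt fun y => l3703 h x196f y
  have x52f : α 52 = false := ff fun y => c21 h x53t x1t y
  have x153t : α 153 = true := tt fun y => c1298 h y x56f x54f
  have x313f : α 313 = false := ff fun y => l3674 h x59t y
  have x241f : α 241 = false := ff fun y => c1511 h y x89t x59t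
  have x51f : α 51 = false := ff fun y => c13 h y x89t x1t x59t
  have x71t : α 71 = true := tt fun y => c194 h y x241f x10f x167f
  have x382t : α 382 = true := tt fun y => c2688 h y x241f x167f
  have x152t : α 152 = true := tt fun y => c1200 h x57f x51f y
  have x182t : α 182 = true := tt fun y => c1203 h x184f y x57f x51f
  have x183f : α 183 = false := ff fun y => c1704 h x80t x71t y x189t
  have x389f : α 389 = false := ff fun y => c1291 h y x182t x53t
  have x261f : α 261 = false := ff fun y => c1283 h y x182t x153t x53t
  have x378t : α 378 = true := tt fun y => c1258 h x52f x183f y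
  have x194t : α 194 = true := tt fun y => c2862 h x379f x389f x200f y
  have x106f : α 106 = false := ff fun y => c663 h y x22t x451t x378t
  have x63f : α 63 = false := ff fun y => c1617 h y x194t x382t
  have x343f : α 343 = false := ff fun y => c2611 h x194t x382t x152t y
  have x24t : α 24 = true := tt fun y => c732 h x63f y x54f
  have x190t : α 190 = true := tt fun y => c2184 h x343f y x97f
  have x493t : α 493 = true := tt fun y => l3956 h y x24t x106f x261f x553f
  have x391f : α 391 = false := ff fun y => c2945 h x493t y x324t x204t
  have x192t : α 192 = true := tt fun y => c1217 h x51f y x391f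
  have x206f : α 206 = false := ff fun y => c2061 h x92t x192t x123t y
  have x82f : α 82 = false := ff fun y => c1748 h y x192t x74t x190t
  c1853 h x82f x206f x197f x313f

theorem l3958 (h : Good α) (x89f : α 89 = false) (x40t : α 40 = true) (x28f : α 28 = false) (x212t : α 212 = true) (x189t : α 189 = true) (x494f : α 494 = false) (x20f : α 20 = false) (x325t : α 325 = true) (x59t : α 59 = true) : False :=
  have x255t : α 255 = true := tt fun y => c550 h x20f x89f y
  have x34t : α 34 = true := tt fun y => c525 h y x20f x89f
  have x108t : α 108 = true := tt fun y => c519 h x20f x89f x28f y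
  have x554t : α 554 = true := tt fun y => c553 h x494f y x20f x89f
  have x186f : α 186 = false := ff fun y => c2788 h x255t y x189t
  have x260f : α 260 = false := ff fun y => l3687 h x108t y
  have x267f : α 267 = false := ff fun y => c1100 h x40t x108t y
  have x127f : α 127 = false := ff fun y => c2494 h x554t x325t y
  have x345t : α 345 = true := tt fun y => c1946 h x89f x186f y
  have x371f : α 371 = false := ff fun y => c2821 h x212t y x189t x345t
  have x483t : α 483 = true := tt fun y => c2492 h x127f x371f x260f y
  have x340f : α 340 = false := ff fun y => c2827 h x189t x345t y x483t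
  have x278t : α 278 = true := tt fun y => c3161 h y x260f x340f
  have x282t : α 282 = true := tt fun y => c3191 h y x267f x340f
  have x99f : α 99 = false := ff fun y => c2221 h y x345t x278t x483t
  have x44f : α 44 = false := ff fun y => c981 h x34t x255t y x282t
  have x14t : α 14 = true := tt fun y => c235 h x20f y x99f
  have x102t : α 102 = true := tt fun y => c1127 h x44f y x260f
  l3620 h x102t x14t x59t

theorem l3959 (h : Good α) (x290f : α 290 = false) (x97f : α 97 = false) (x113f : α 113 = false) (x61f : α 61 = false) (x92t : α 92 = true) : False :=
  have x264t : α 264 = true := tt fun y => l3691 h x113f y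
  have x59t : α 59 = true := tt fun y => l3669 h y x61f
  have x313f : α 313 = false := ff fun y => l3674 h x59t y
  have x101t : α 101 = true := tt fun y => l3681 h x290f y x313f
  have x21t : α 21 = true := tt fun y => c602 h y x61f x290f x313f
  have x39f : α 39 = false := ff fun y => c1079 h x264t x101t y
  have x31f : α 31 = false := ff fun y => c588 h x92t x21t y
  c930 h x39f x113f x31f x97f

theorem l3960 (h : Good α) (x101t : α 101 = true) (x452f : α 452 = false) (x97f : α 97 = false) (x113f : α 113 = false) (x61f : α 61 = false) (x92t : α 92 = true) : False :=
  have x264t : α 264 = true := tt fun y => l3691 h x113f y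
  have x482f : α 482 = false := ff fun y => c2235 h y x264t x101t
  have x39f : α 39 = false := ff fun y => c1079 h x264t x101t y
  have x519t : α 519 = true := tt fun y => c3379 h y x452f x482f
  have x31t : α 31 = true := tt fun y => c930 h x39f x113f y x97f
  have x27t : α 27 = true := tt fun y => c814 h x39f y x113f
  have x280f : α 280 = false := ff fun y => c2239 h x519t y x101t
  have x21f : α 21 = false := ff fun y => c588 h x92t y x31t
  have x49f : α 49 = false := ff fun y => c818 h x101t x27t y
  have x164t : α 164 = true := tt fun y => c2681 h x452f x280f y
  have x78t : α 78 = true := tt fun y => c596 h y x21f x61f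
  have x190t : α 190 = true := tt fun y => c600 h x21f x61f y
  have x256t : α 256 = true := tt fun y => c1169 h y x113f x49f
  c1795 h x164t x256t x78t x190t

theorem l3961 (h : Good α) (x97f : α 97 = false) (x201t : α 201 = true) (x197f : α 197 = false) (x94f : α 94 = false) (x58f : α 58 = false) (x54f : α 54 = false) (x273f : α 273 = false) (x249t : α 249 = true) : False :=
  have x92t : α 92 = true := tt fun y => l3951 h y x54f x249t x273f
  have x57f : α 57 = false := ff fun y => l3879 h x54f x92t x249t y
  have x1t : α 1 = true := tt fun y => c61 h x57f y x58f
  have x402t : α 402 = true := tt fun y => c1342 h y x197f x54f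
  have x543f : α 543 = false := ff fun y => c121 h x402t x1t y x201t
  have x91t : α 91 = true := tt fun y => c1397 h x94f x57f y x58f
  have x233f : α 233 = false := ff fun y => l3952 h y x201t x197f x91t x94f x1t x57f x92t x249t
  have x449t : α 449 = true := tt fun y => c2123 h y x94f x543f x233f
  have x61f : α 61 = false := ff fun y => c1551 h x449t x92t x402t y
  have x59t : α 59 = true := tt fun y => l3669 h y x61f
  have x56f : α 56 = false := ff fun y => c57 h y x1t x59t
  have x250t : α 250 = true := tt fun y => l3748 h y x1t x94f x61f x91t x58f
  have x325t : α 325 = true := tt fun y => l3677 h x61f y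
  have x242t : α 242 = true := tt fun y => c1303 h x54f x61f x233f y
  have x409t : α 409 = true := tt fun y => l3512 h y x92t x94f x233f x242t x54f
  have x335f : α 335 = false := ff fun y => c3261 h x325t y x409t
  have x113f : α 113 = false := ff fun y => l3517 h y x335f x250t x58f x56f
  have x264t : α 264 = true := tt fun y => l3691 h x113f y
  have x180t : α 180 = true := tt fun y => l3690 h x113f y
  have x20f : α 20 = false := ff fun y => c556 h x264t x92t y
  have x188t : α 188 = true := tt fun y => c533 h y x57f x20f
  have x70f : α 70 = false := ff fun y => c1691 h x188t x264t y x180t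
  have x11t : α 11 = true := tt fun y => c209 h y x70f x233f
  have x81f : α 81 = false := ff fun y => c213 h x11t y x242t
  have x158t : α 158 = true := tt fun y => c1679 h y x70f x81f
  have x114f : α 114 = false := ff fun y => l3694 h y x158t
  have x184f : α 184 = false := ff fun y => c2766 h x188t y x264t
  have x383t : α 383 = true := tt fun y => c1432 h y x184f x57f
  have x553f : α 553 = false := ff fun y => c3180 h y x383t x264t
  have x451t : α 451 = true := tt fun y => c1696 h x70f x233f y
  have x354f : α 354 = false := ff fun y => c2924 h x201t x242t y
  have x204t : α 204 = true := tt fun y => c1346 h x54f y x233f x354f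
  have x548f : α 548 = false := ff fun y => c123 h x1t x409t x201t y
  have x450f : α 450 = false := ff fun y => c2942 h x204t x409t x250t y
  have x444t : α 444 = true := tt fun y => c1407 h x57f y x58f x450f
  have x544f : α 544 = false := ff fun y => c3363 h y x444t x409t
  have x352t : α 352 = true := tt fun y => c3313 h y x544f x354f x548f
  have x200f : α 200 = false := ff fun y => c117 h y x352t x1t x204t
  have x19t : α 19 = true := tt fun y => l3623 h x113f y x56f
  have x33f : α 33 = false := ff fun y => c465 h y x19t x91t
  have x494f : α 494 = false := ff fun y => c2087 h y x264t x92t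
  have x239t : α 239 = true := tt fun y => c1322 h y x94f x54f
  have x23t : α 23 = true := tt fun y => c706 h y x97f x273f
  have x236t : α 236 = true := tt fun y => c1465 h x200f y x58f x97f
  have x237t : α 237 = true := tt fun y => c1553 h x197f x61f y x97f
  have x189t : α 189 = true := tt fun y => c2175 h x113f x97f y
  have x212t : α 212 = true := tt fun y => c2177 h y x113f x97f
  have x353f : α 353 = false := ff fun y => c2072 h y x236t x249t x92t
  have x386t : α 386 = true := tt fun y => l3501 h y x236t x200f x56f
  have x379f : α 379 = false := ff fun y => c463 h x386t y x19t x23t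
  have x452f : α 452 = false := ff fun y => c2812 h x386t y x188t x264t
  have x80t : α 80 = true := tt fun y => c1825 h x379f x200f y
  have x10f : α 10 = false := ff fun y => c199 h x239t x80t y
  have x459f : α 459 = false := ff fun y => c1830 h y x239t x80t
  have x272t : α 272 = true := tt fun y => c2771 h x459f x379f y x184f
  have x28f : α 28 = false := ff fun y => l3954 h y x272t x459f x10f x386t x353f x97f x70f x19t x264t x56f x61f x233f x239t x92t x54f x249t
  have x123t : α 123 = true := tt fun y => c523 h x20f x28f y
  have x286t : α 286 = true := tt fun y => l3955 h y x123t x459f x10f x452f x353f x237t x264t x59t x197f x1t x57f x92t x249t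
  have x369f : α 369 = false := ff fun y => c3212 h y x286t x272t
  have x290t : α 290 = true := tt fun y => l3959 h y x97f x113f x61f x92t
  have x392f : α 392 = false := ff fun y => c2475 h x249t x123t y x290t
  have x511f : α 511 = false := ff fun y => c2478 h x123t x290t y
  have x74t : α 74 = true := tt fun y => c1759 h x392f x197f y
  have x457f : α 457 = false := ff fun y => c1764 h x74t x237t y
  have x101f : α 101 = false := ff fun y => l3960 h y x452f x97f x113f x61f x92t
  have x164t : α 164 = true := tt fun y => l3679 h x101f y
  have x256t : α 256 = true := tt fun y => l3680 h x101f y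
  have x21t : α 21 = true := tt fun y => l3625 h y x101f x61f
  have x102f : α 102 = false := ff fun y => l3833 h x101f y x97f x61f x92t
  have x31f : α 31 = false := ff fun y => c588 h x92t x21t y
  have x40t : α 40 = true := tt fun y => c837 h y x28f x102f
  have x187t : α 187 = true := tt fun y => c860 h x94f x28f y x102f
  have x25t : α 25 = true := tt fun y => c766 h x31f y x97f
  have x550t : α 550 = true := tt fun y => c945 h x31f x97f x511f y
  have x89t : α 89 = true := tt fun y => l3958 h y x40t x28f x212t x189t x494f x20f x325t x59t
  have x191f : α 191 = false := ff fun y => c584 h x187t x21t y x25t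
  have x55f : α 55 = false := ff fun y => c595 h x187t y x21t
  have x112f : α 112 = false := ff fun y => c581 h x21t x25t y
  have x411f : α 411 = false := ff fun y => c1762 h x74t y x237t x550t
  have x51f : α 51 = false := ff fun y => c13 h y x89t x1t x59t
  have x167t : α 167 = true := tt fun y => l3957 h x89t x74t y x123t x10f x379f x189t x97f x553f x451t x184f x200f x204t x59t x197f x1t x57f x92t x54f
  have x381t : α 381 = true := tt fun y => c1338 h x54f x191f y
  have x14t : α 14 = true := tt fun y => c233 h x57f x20f x55f y
  have x147t : α 147 = true := tt fun y => c1363 h x392f x55f x457f y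
  have x190t : α 190 = true := tt fun y => c2173 h y x97f x112f
  have x43t : α 43 = true := tt fun y => c959 h x33f x97f y x112f
  have x155t : α 155 = true := tt fun y => c1201 h y x57f x51f
  have x175f : α 175 = false := ff fun y => l3714 h x167t y
  have x108f : α 108 = false := ff fun y => l3686 h y x167t
  have x186f : α 186 = false := ff fun y => c258 h x14t x59t y
  have x78f : α 78 = false := ff fun y => c1795 h x164t x256t y x190t
  have x481f : α 481 = false := ff fun y => c205 h x43t x11t y x451t
  have x41t : α 41 = true := tt fun y => c1117 h x369f x175f y
  have x282t : α 282 = true := tt fun y => c870 h x28f x108f y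
  have x267t : α 267 = true := tt fun y => c2793 h x186f y x411f
  have x226t : α 226 = true := tt fun y => c938 h y x78f x31f
  have x64t : α 64 = true := tt fun y => c937 h x78f x31f y
  have x527t : α 527 = true := tt fun y => c3387 h y x457f x481f
  have x36f : α 36 = false := ff fun y => c1016 h x41t x282t y x267t
  have x508f : α 508 = false := ff fun y => c1631 h y x226t x381t x64t
  have x285t : α 285 = true := tt fun y => c1036 h x36f x114f y
  have x271t : α 271 = true := tt fun y => c2137 h x508f y x94f
  have x103f : α 103 = false := ff fun y => c2262 h x527t x285t y
  have x259f : α 259 = false := ff fun y => c2558 h x271t x155t y x147t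
  c1684 h x103f x70f x259f x233f

theorem l3962 (h : Good α) (x392f : α 392 = false) (x360f : α 360 = false) (x176t : α 176 = true) (x457f : α 457 = false) (x398f : α 398 = false) (x55f : α 55 = false) (x152t : α 152 = true) (x21t : α 21 = true) (x323f : α 323 = false) (x197f : α 197 = false) (x92t : α 92 = true) : False :=
  have x499t : α 499 = true := tt fun y => c2893 h y x323f x392f x197f
  have x147t : α 147 = true := tt fun y => c1363 h x392f x55f x457f y
  have x559f : α 559 = false := ff fun y => c608 h y x92t x499t x21t
  have x160f : α 160 = false := ff fun y => c2557 h y x152t x176t x147t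
  c2675 h x559f x360f x398f x160f

theorem l3963 (h : Good α) (x101f : α 101 = false) (x236f : α 236 = false) (x237f : α 237 = false) (x238f : α 238 = false) (x61f : α 61 = false) (x233f : α 233 = false) (x197f : α 197 = false) (x94f : α 94 = false) (x58f : α 58 = false) (x92t : α 92 = true) (x54f : α 54 = false) (x249t : α 249 = true) : False :=
  have x57f : α 57 = false := ff fun y => l3879 h x54f x92t x249t y
  have x1t : α 1 = true := tt fun y => c61 h x57f y x58f
  have x59t : α 59 = true := tt fun y => l3669 h y x61f
  have x56f : α 56 = false := ff fun y => c57 h y x1t x59t
  have x91t : α 91 = true := tt fun y => c1397 h x94f x57f y x58f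
  have x250t : α 250 = true := tt fun y => l3748 h y x1t x94f x61f x91t x58f
  have x325t : α 325 = true := tt fun y => l3677 h x61f y
  have x242t : α 242 = true := tt fun y => c1303 h x54f x61f x233f y
  have x409t : α 409 = true := tt fun y => l3512 h y x92t x94f x233f x242t x54f
  have x335f : α 335 = false := ff fun y => c3261 h x325t y x409t
  have x113f : α 113 = false := ff fun y => l3517 h y x335f x250t x58f x56f
  have x264t : α 264 = true := tt fun y => l3691 h x113f y
  have x180t : α 180 = true := tt fun y => l3690 h x113f y
  have x20f : α 20 = false := ff fun y => c556 h x264t x92t y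
  have x188t : α 188 = true := tt fun y => c533 h y x57f x20f
  have x70f : α 70 = false := ff fun y => c1691 h x188t x264t y x180t
  have x11t : α 11 = true := tt fun y => c209 h y x70f x233f
  have x81f : α 81 = false := ff fun y => c213 h x11t y x242t
  have x158t : α 158 = true := tt fun y => c1679 h y x70f x81f
  have x114f : α 114 = false := ff fun y => l3694 h y x158t
  have x84t : α 84 = true := tt fun y => c1867 h y x114f x237f
  have x423t : α 423 = true := tt fun y => c2388 h x114f x237f y
  have x451t : α 451 = true := tt fun y => c1696 h x70f x233f y
  have x19t : α 19 = true := tt fun y => l3623 h x113f y x56f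
  have x307t : α 307 = true := tt fun y => l3693 h y x113f x335f
  have x424f : α 424 = false := ff fun y => c509 h x188t y x19t x307t
  have x117t : α 117 = true := tt fun y => c2427 h x424f x238f y
  have x184f : α 184 = false := ff fun y => c2766 h x188t y x264t
  have x22t : α 22 = true := tt fun y => c646 h x184f x57f y
  have x383t : α 383 = true := tt fun y => c1432 h y x184f x57f
  have x33f : α 33 = false := ff fun y => c465 h y x19t x91t
  have x257f : α 257 = false := ff fun y => c494 h x19t x91t y
  have x387f : α 387 = false := ff fun y => c2718 h x180t x242t y
  have x53t : α 53 = true := tt fun y => l3648 h y x56f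
  have x153t : α 153 = true := tt fun y => c1298 h y x56f x54f
  have x323f : α 323 = false := ff fun y => c1284 h y x153t x53t
  have x196f : α 196 = false := ff fun y => c32 h y x53t x1t
  have x52f : α 52 = false := ff fun y => c21 h x53t x1t y
  have x146t : α 146 = true := tt fun y => c1296 h x56f x54f y
  have x313f : α 313 = false := ff fun y => l3674 h x59t y
  have x351t : α 351 = true := tt fun y => c1340 h x197f x54f y x233f
  have x239t : α 239 = true := tt fun y => c1322 h y x94f x54f
  have x346f : α 346 = false := ff fun y => l3935 h y x249t
  have x164t : α 164 = true := tt fun y => l3679 h x101f y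
  have x256t : α 256 = true := tt fun y => l3680 h x101f y
  have x21t : α 21 = true := tt fun y => l3625 h y x101f x61f
  have x290t : α 290 = true := tt fun y => l3681 h y x101f x313f
  have x262f : α 262 = false := ff fun y => c606 h y x92t x21t
  have x37f : α 37 = false := ff fun y => c590 h x92t x117t x21t y
  have x305t : α 305 = true := tt fun y => c3017 h y x236f x262f
  have x382t : α 382 = true := tt fun y => c3019 h x236f x262f y
  have x116f : α 116 = false := ff fun y => c617 h x305t y x21t
  have x78t : α 78 = true := tt fun y => c1793 h x236f x116f y
  have x190f : α 190 = false := ff fun y => c1795 h x164t x256t x78t y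
  have x396t : α 396 = true := tt fun y => c1570 h x61f x190f y
  have x192t : α 192 = true := tt fun y => c2829 h x262f y x190f
  have x274f : α 274 = false := ff fun y => c3079 h x396t y x242t
  have x343f : α 343 = false := ff fun y => c3298 h x382t y x396t
  have x337f : α 337 = false := ff fun y => c2068 h x264t y x92t x192t
  have x432t : α 432 = true := tt fun y => c2837 h x190f x274f y
  have x575t : α 575 = true := tt fun y => l3713 h x337f y
  have x377t : α 377 = true := tt fun y => l3704 h y x337f x196f
  have x112f : α 112 = false := ff fun y => c2358 h y x242t x432t
  have x241f : α 241 = false := ff fun y => c3076 h x575t x382t y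
  have x519f : α 519 = false := ff fun y => c3248 h y x575t x305t x382t
  have x16f : α 16 = false := ff fun y => c319 h x383t x377t x22t y
  have x280t : α 280 = true := tt fun y => c2238 h x519f y x101f
  have x24t : α 24 = true := tt fun y => c320 h y x16f x54f x52f
  have x181t : α 181 = true := tt fun y => c346 h x16f x52f y
  have x452f : α 452 = false := ff fun y => c2682 h y x280t x164t
  have x51f : α 51 = false := ff fun y => c730 h x24t y x192t
  have x304f : α 304 = false := ff fun y => c762 h x24t x192t y x432t
  have x386t : α 386 = true := tt fun y => l3665 h y x452f x56f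
  have x482t : α 482 = true := tt fun y => c3020 h x452f y x236f x262f
  have x152t : α 152 = true := tt fun y => c1200 h x57f x51f y
  have x182t : α 182 = true := tt fun y => c1203 h x184f y x57f x51f
  have x259t : α 259 = true := tt fun y => c2995 h y x233f x304f
  have x139t : α 139 = true := tt fun y => c1687 h x70f y x233f x304f
  have x577f : α 577 = false := ff fun y => c3068 h y x386t x239t
  have x17f : α 17 = false := ff fun y => c388 h x182t x53t y
  have x18f : α 18 = false := ff fun y => c442 h y x91t x259t
  have x379t : α 379 = true := tt fun y => c3024 h x577f y x236f
  have x15t : α 15 = true := tt fun y => c273 h x56f y x54f x18f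
  have x75t : α 75 = true := tt fun y => c427 h x54f x18f y
  have x187t : α 187 = true := tt fun y => c430 h y x54f x18f
  have x115t : α 115 = true := tt fun y => c454 h x18f x190f y x274f
  have x23f : α 23 = false := ff fun y => c463 h x386t x379t x19t y
  have x103f : α 103 = false := ff fun y => c281 h x15t x19t y
  have x269f : α 269 = false := ff fun y => c311 h y x482t x15t x256t
  have x93f : α 93 = false := ff fun y => c302 h x15t y x256t
  have x35f : α 35 = false := ff fun y => c287 h x15t y x139t
  have x55f : α 55 = false := ff fun y => c595 h x187t y x21t
  have x191f : α 191 = false := ff fun y => c2794 h x187t y x259t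
  have x65t : α 65 = true := tt fun y => c693 h y x23f x58f
  have x183t : α 183 = true := tt fun y => c695 h x23f x58f y
  have x272t : α 272 = true := tt fun y => c714 h y x184f x114f x23f
  have x119t : α 119 = true := tt fun y => c366 h x17f x23f y
  have x110t : α 110 = true := tt fun y => c364 h y x17f x23f
  have x240t : α 240 = true := tt fun y => c1686 h y x103f x70f
  have x263t : α 263 = true := tt fun y => c701 h y x93f x23f
  have x105t : α 105 = true := tt fun y => c680 h y x93f x33f x23f
  have x345t : α 345 = true := tt fun y => c1006 h x35f y x70f x387f
  have x72t : α 72 = true := tt fun y => c1001 h y x35f x70f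
  have x151t : α 151 = true := tt fun y => c1354 h x57f x55f y
  have x14t : α 14 = true := tt fun y => c233 h x57f x20f x55f y
  have x381t : α 381 = true := tt fun y => c1338 h x54f x191f y
  have x398f : α 398 = false := ff fun y => c1636 h y x383t x84t x65t
  have x265f : α 265 = false := ff fun y => c2725 h x181t x183t y
  have x156f : α 156 = false := ff fun y => c2333 h x110t x119t x151t y
  have x168f : α 168 = false := ff fun y => c2692 h y x240t x381t
  have x98f : α 98 = false := ff fun y => c2207 h x153t x105t x146t y
  have x185f : α 185 = false := ff fun y => c1727 h y x72t x187t x75t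
  have x163f : α 163 = false := ff fun y => c1726 h x72t x75t y
  have x388f : α 388 = false := ff fun y => c245 h x21t x396t x14t y
  have x473t : α 473 = true := tt fun y => c2649 h x156f x274f y
  have x9t : α 9 = true := tt fun y => c175 h y x35f x156f
  have x74t : α 74 = true := tt fun y => c1749 h y x98f x237f x257f
  have x481t : α 481 = true := tt fun y => c2214 h x98f x257f y
  have x385t : α 385 = true := tt fun y => c1389 h y x185f x56f
  have x285t : α 285 = true := tt fun y => c2255 h x346f x185f y x103f
  have x6t : α 6 = true := tt fun y => c161 h y x241f x163f x388f
  have x391f : α 391 = false := ff fun y => c756 h x24t y x115t x473t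
  have x361f : α 361 = false := ff fun y => c179 h x84t x9t x423t y
  have x43f : α 43 = false := ff fun y => c205 h y x11t x481t x451t
  have x465f : α 465 = false := ff fun y => c308 h y x105t x385t x15t
  have x457f : α 457 = false := ff fun y => c2671 h x285t x158t y x351t
  have x372f : α 372 = false := ff fun y => c3156 h y x285t x259t
  have x26f : α 26 = false := ff fun y => c152 h x6t y x146t
  have x579t : α 579 = true := tt fun y => c3058 h x238f x391f y
  have x277t : α 277 = true := tt fun y => c3181 h x361f y x265f
  have x279t : α 279 = true := tt fun y => c1124 h y x343f x43f x112f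
  have x283t : α 283 = true := tt fun y => c2693 h x465f y x168f
  have x176t : α 176 = true := tt fun y => c1125 h x372f y x43f
  have x48t : α 48 = true := tt fun y => c797 h y x26f x98f
  have x397f : α 397 = false := ff fun y => c3117 h x579t y x250t
  have x360f : α 360 = false := ff fun y => c3174 h y x279t x263t
  have x514f : α 514 = false := ff fun y => c2343 h y x283t x110t
  have x104f : α 104 = false := ff fun y => c1155 h x48t y x277t x345t
  have x458t : α 458 = true := tt fun y => c3338 h y x391f x397f
  have x219t : α 219 = true := tt fun y => c2833 h x360f x343f y x190f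
  have x40t : α 40 = true := tt fun y => c1095 h x262f x104f y
  have x528f : α 528 = false := ff fun y => c3388 h x482t x458t y
  have x288t : α 288 = true := tt fun y => c2270 h x104f y x528f
  have x392t : α 392 = true := tt fun y => l3962 h y x360f x176t x457f x398f x55f x152t x21t x323f x197f x92t
  have x123f : α 123 = false := ff fun y => c2475 h x249t y x392t x290t
  have x499f : α 499 = false := ff fun y => c1761 h y x219t x392t x74t
  have x28t : α 28 = true := tt fun y => c523 h x20f y x123f
  have x42t : α 42 = true := tt fun y => c1049 h x499f x37f x514f y
  have x286f : α 286 = false := ff fun y => c839 h y x40t x272t x28t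
  have x342f : α 342 = false := ff fun y => c1120 h y x288t x110t x42t
  c3199 h x286f x269f x342f

theorem l3964 (h : Good α) (x21t : α 21 = true) (x397f : α 397 = false) (x256t : α 256 = true) (x101t : α 101 = true) (x20f : α 20 = false) (x1t : α 1 = true) (x57f : α 57 = false) : False :=
  have x14f : α 14 = false := ff fun y => c242 h x101t x21t y
  have x190f : α 190 = false := ff fun y => c611 h x101t x256t x21t y
  have x55t : α 55 = true := tt fun y => c233 h x57f x20f y x14f
  have x60t : α 60 = true := tt fun y => c1540 h y x190f x397f
  c52 h x55t x1t x60t

theorem l3965 (h : Good α) (x201t : α 201 = true) (x197f : α 197 = false) (x94f : α 94 = false) (x58f : α 58 = false) (x54f : α 54 = false) (x273f : α 273 = false) (x249t : α 249 = true) : False :=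
  have x402t : α 402 = true := tt fun y => c1342 h y x197f x54f
  have x239t : α 239 = true := tt fun y => c1322 h y x94f x54f
  have x92t : α 92 = true := tt fun y => l3951 h y x54f x249t x273f
  have x57f : α 57 = false := ff fun y => l3879 h x54f x92t x249t y
  have x91t : α 91 = true := tt fun y => c1397 h x94f x57f y x58f
  have x1t : α 1 = true := tt fun y => c61 h x57f y x58f
  have x543f : α 543 = false := ff fun y => c121 h x402t x1t y x201t
  have x233f : α 233 = false := ff fun y => l3952 h y x201t x197f x91t x94f x1t x57f x92t x249t
  have x449t : α 449 = true := tt fun y => c2123 h y x94f x543f x233f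
  have x61f : α 61 = false := ff fun y => c1551 h x449t x92t x402t y
  have x59t : α 59 = true := tt fun y => l3669 h y x61f
  have x325t : α 325 = true := tt fun y => l3677 h x61f y
  have x250t : α 250 = true := tt fun y => l3748 h y x1t x94f x61f x91t x58f
  have x242t : α 242 = true := tt fun y => c1303 h x54f x61f x233f y
  have x313f : α 313 = false := ff fun y => l3674 h x59t y
  have x56f : α 56 = false := ff fun y => c57 h y x1t x59t
  have x354f : α 354 = false := ff fun y => c2924 h x201t x242t y
  have x409t : α 409 = true := tt fun y => l3512 h y x92t x94f x233f x242t x54f
  have x53t : α 53 = true := tt fun y => l3648 h y x56f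
  have x204t : α 204 = true := tt fun y => c1346 h x54f y x233f x354f
  have x335f : α 335 = false := ff fun y => c3261 h x325t y x409t
  have x52f : α 52 = false := ff fun y => c21 h x53t x1t y
  have x196f : α 196 = false := ff fun y => c32 h y x53t x1t
  have x238f : α 238 = false := ff fun y => c2937 h y x204t x250t
  have x113f : α 113 = false := ff fun y => l3517 h y x335f x250t x58f x56f
  have x264t : α 264 = true := tt fun y => l3691 h x113f y
  have x19t : α 19 = true := tt fun y => l3623 h x113f y x56f
  have x307t : α 307 = true := tt fun y => l3693 h y x113f x335f
  have x20f : α 20 = false := ff fun y => c556 h x264t x92t y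
  have x494f : α 494 = false := ff fun y => c2087 h y x264t x92t
  have x188t : α 188 = true := tt fun y => c533 h y x57f x20f
  have x184f : α 184 = false := ff fun y => c2766 h x188t y x264t
  have x424f : α 424 = false := ff fun y => c509 h x188t y x19t x307t
  have x383t : α 383 = true := tt fun y => c1432 h y x184f x57f
  have x97t : α 97 = true := tt fun y => l3961 h y x201t x197f x94f x58f x54f x273f x249t
  have x237f : α 237 = false := ff fun y => c2047 h x249t x92t y x97t
  have x236f : α 236 = false := ff fun y => c1989 h x239t y x91t x97t
  have x101t : α 101 = true := tt fun y => l3963 h y x236f x237f x238f x61f x233f x197f x94f x58f x92t x54f x249t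
  have x231f : α 231 = false := ff fun y => c2233 h x383t x264t y x101t
  have x39f : α 39 = false := ff fun y => c1079 h x264t x101t y
  have x232t : α 232 = true := tt fun y => c2873 h x231f x196f y
  have x90t : α 90 = true := tt fun y => c1235 h x231f x196f y x52f
  have x27t : α 27 = true := tt fun y => c814 h x39f y x113f
  have x49f : α 49 = false := ff fun y => c818 h x101t x27t y
  have x256t : α 256 = true := tt fun y => c1169 h y x113f x49f
  have x397f : α 397 = false := ff fun y => c2989 h x232t x256t y
  have x21f : α 21 = false := ff fun y => l3964 h y x397f x256t x101t x20f x1t x57f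
  have x190t : α 190 = true := tt fun y => c600 h x21f x61f y
  have x290t : α 290 = true := tt fun y => c602 h x21f x61f y x313f
  have x186f : α 186 = false := ff fun y => c2790 h x256t x190t y
  have x411f : α 411 = false := ff fun y => c2234 h x101t x256t x290t y
  have x267t : α 267 = true := tt fun y => c2793 h x186f y x411f
  have x102f : α 102 = false := ff fun y => l3683 h y x267t
  have x297f : α 297 = false := ff fun y => l3829 h y x101t x102f x61f
  have x14t : α 14 = true := tt fun y => c243 h x21f y x102f
  have x220t : α 220 = true := tt fun y => c2968 h x494f x424f x297f y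
  have x37f : α 37 = false := ff fun y => c250 h x90t x14t y
  have x96f : α 96 = false := ff fun y => c2159 h y x101t x220t
  c591 h x96f x21f x37f

theorem l3966 (h : Good α) (x61f : α 61 = false) (x201f : α 201 = false) (x402t : α 402 = true) (x91t : α 91 = true) (x1t : α 1 = true) (x58f : α 58 = false) (x54f : α 54 = false) (x249t : α 249 = true) : False :=
  have x543f : α 543 = false := ff fun y => l3556 h x54f y x1t x61f
  have x449t : α 449 = true := tt fun y => l3750 h x1t y x61f x91t x58f x249t
  have x443t : α 443 = true := tt fun y => c1493 h y x58f x543f x201f
  c3345 h x449t x402t x443t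

theorem l3967 (h : Good α) (x264t : α 264 = true) (x238t : α 238 = true) (x53f : α 53 = false) (x57f : α 57 = false) (x92t : α 92 = true) : False :=
  have x56t : α 56 = true := tt fun y => l3648 h x53f y
  have x20f : α 20 = false := ff fun y => c556 h x264t x92t y
  have x272t : α 272 = true := tt fun y => l3862 h x264t x238t x57f x53f y
  have x188t : α 188 = true := tt fun y => c533 h y x57f x20f
  l3666 h x188t x272t x56t

theorem l3968 (h : Good α) (x101t : α 101 = true) (x208f : α 208 = false) (x169t : α 169 = true) (x521f : α 521 = false) (x133t : α 133 = true) (x342f : α 342 = false) (x110f : α 110 = false) (x15t : α 15 = true) (x96t : α 96 = true) (x364t : α 364 = true) (x93f : α 93 = false) (x116t : α 116 = true) (x266f : α 266 = false) (x275f : α 275 = false) (x505t : α 505 = true) (x386f : α 386 = false) (x429t : α 429 = true) (x65f : α 65 = false) (x196t : α 196 = true) (x56t : α 56 = true) (x1t : α 1 = true) (x58f : α 58 = false) (x346f : α 346 = false) : False :=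
  have x185f : α 185 = false := ff fun y => c2158 h y x96t x101t
  have x566t : α 566 = true := tt fun y => c2786 h y x346f x185f
  have x86t : α 86 = true := tt fun y => c1901 h x346f x185f x275f y
  have x374f : α 374 = false := ff fun y => c3321 h y x429t x566t
  have x50f : α 50 = false := ff fun y => c4 h x56t x1t x86t y
  have x344f : α 344 = false := ff fun y => c1899 h y x364t x86t x133t
  have x140t : α 140 = true := tt fun y => c2094 h x374f x342f y x93f
  have x67t : α 67 = true := tt fun y => c1180 h y x65f x50f x58f
  have x280t : α 280 = true := tt fun y => c3185 h x344f x266f y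
  have x498t : α 498 = true := tt fun y => c3303 h y x386f x344f
  have x589f : α 589 = false := ff fun y => c309 h y x498t x140t x15t
  have x377f : α 377 = false := ff fun y => c1656 h y x196t x67t
  have x34f : α 34 = false := ff fun y => c994 h x280t x116t y
  have x27f : α 27 = false := ff fun y => c829 h x280t x101t y
  have x221t : α 221 = true := tt fun y => c2970 h x589f x374f y
  have x337t : α 337 = true := tt fun y => l3632 h x27f y
  have x256f : α 256 = false := ff fun y => c2521 h x221t x337t x140t y
  have x308f : α 308 = false := ff fun y => c2969 h x505t y x429t x221t
  have x482t : α 482 = true := tt fun y => c2098 h x342f y x93f x256f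
  have x573t : α 573 = true := tt fun y => c3250 h x521f y x308f x377f
  have x490t : α 490 = true := tt fun y => c997 h x344f x34f y x208f
  have x39f : α 39 = false := ff fun y => c1090 h x573t x482t x169t y
  have x254f : α 254 = false := ff fun y => c1908 h x490t y x86t
  c1080 h x254f x110f x39f

theorem l3969 (h : Good α) (x197f : α 197 = false) (x94f : α 94 = false) (x58f : α 58 = false) (x54f : α 54 = false) (x273f : α 273 = false) (x249t : α 249 = true) : False :=
  have x239t : α 239 = true := tt fun y => c1322 h y x94f x54f
  have x92t : α 92 = true := tt fun y => l3951 h y x54f x249t x273f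
  have x57f : α 57 = false := ff fun y => l3879 h x54f x92t x249t y
  have x91t : α 91 = true := tt fun y => c1397 h x94f x57f y x58f
  have x1t : α 1 = true := tt fun y => c61 h x57f y x58f
  have x346f : α 346 = false := ff fun y => l3935 h y x249t
  have x402t : α 402 = true := tt fun y => c1342 h y x197f x54f
  have x201f : α 201 = false := ff fun y => l3965 h y x197f x94f x58f x54f x273f x249t
  have x61t : α 61 = true := tt fun y => l3966 h y x201f x402t x91t x1t x58f x54f x249t
  have x59f : α 59 = false := ff fun y => l3670 h y x61t
  have x97f : α 97 = false := ff fun y => c1545 h x92t x61t y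
  have x236f : α 236 = false := ff fun y => c1549 h y x92t x61t
  have x53f : α 53 = false := ff fun y => l3778 h y x61t
  have x204f : α 204 = false := ff fun y => c102 h x1t x61t y
  have x250t : α 250 = true := tt fun y => c1468 h x58f x97f y
  have x23t : α 23 = true := tt fun y => c706 h y x97f x273f
  have x242t : α 242 = true := tt fun y => c1467 h x58f x97f x201f y
  have x200t : α 200 = true := tt fun y => c1465 h y x236f x58f x97f
  have x56t : α 56 = true := tt fun y => l3648 h x53f y
  have x335t : α 335 = true := tt fun y => l3653 h x53f y
  have x334t : α 334 = true := tt fun y => l3705 h x204f y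
  have x196t : α 196 = true := tt fun y => l3702 h y x204f
  have x238t : α 238 = true := tt fun y => c1320 h x94f y x54f x204f
  have x189t : α 189 = true := tt fun y => l3774 h y x242t x92t x56t x59f x58f
  have x113t : α 113 = true := tt fun y => l3846 h y x242t x201f x57f x92t
  have x327f : α 327 = false := ff fun y => l3667 h x56t y
  have x307f : α 307 = false := ff fun y => c712 h x23t x113t y
  have x19f : α 19 = false := ff fun y => c460 h y x23t x113t
  have x430f : α 430 = false := ff fun y => c2370 h x113t x250t y
  have x65f : α 65 = false := ff fun y => c1638 h y x113t x250t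
  have x146t : α 146 = true := tt fun y => c2548 h x327f x197f y
  have x264f : α 264 = false := ff fun y => l3967 h y x238t x53f x57f x92t
  have x184t : α 184 = true := tt fun y => l3652 h y x264f x53f
  have x379f : α 379 = false := ff fun y => l3767 h x264f y x23t
  have x429t : α 429 = true := tt fun y => l3709 h y x327f x264f
  have x341f : α 341 = false := ff fun y => c2066 h y x184t x92t
  have x117f : α 117 = false := ff fun y => c2057 h x184t x92t y
  have x161t : α 161 = true := tt fun y => c2676 h x379f x236f y
  have x577t : α 577 = true := tt fun y => c3024 h y x379f x236f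
  have x106f : α 106 = false := ff fun y => c2288 h x429t x249t y
  have x298f : α 298 = false := ff fun y => c719 h x429t x184t y x23t
  have x188t : α 188 = true := tt fun y => c2117 h x341f y x94f
  have x157t : α 157 = true := tt fun y => c2421 h x117f y x273f
  have x299t : α 299 = true := tt fun y => c2429 h x117f y x273f x430f
  have x386f : α 386 = false := ff fun y => c3068 h x577t y x239t
  have x257t : α 257 = true := tt fun y => c2277 h x106f x117f y x273f
  have x114t : α 114 = true := tt fun y => c505 h x298f y x19f
  have x272f : α 272 = false := ff fun y => l3666 h x188t y x56t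
  have x424f : α 424 = false := ff fun y => c1393 h x188t y x56t x335t
  have x179f : α 179 = false := ff fun y => c2542 h y x161t x146t x157t
  have x459t : α 459 = true := tt fun y => c3329 h y x386f x379f
  have x451f : α 451 = false := ff fun y => c2554 h x146t x257t y
  have x183f : α 183 = false := ff fun y => c2749 h x257t y x189t
  have x477t : α 477 = true := tt fun y => c3214 h x272f x346f y
  have x286t : α 286 = true := tt fun y => c3211 h y x272f x346f
  have x505t : α 505 = true := tt fun y => c2140 h y x272f x94f
  have x22t : α 22 = true := tt fun y => c656 h x272f x94f y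
  have x80f : α 80 = false := ff fun y => c1830 h x459t x239t y
  have x275f : α 275 = false := ff fun y => c2396 h x477t y x114t
  have x52f : α 52 = false := ff fun y => c640 h x22t x299t y x334t
  have x378t : α 378 = true := tt fun y => c1822 h x179f x80f x451f y
  have x71t : α 71 = true := tt fun y => c1701 h x179f x80f y
  have x251t : α 251 = true := tt fun y => l3762 h y x183f x80f x52f x22t
  have x285t : α 285 = true := tt fun y => c3226 h x346f x275f y
  have x485t : α 485 = true := tt fun y => c3229 h y x346f x275f
  have x95t : α 95 = true := tt fun y => l3489 h y x378t x183f x52f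
  have x36f : α 36 = false := ff fun y => c1037 h y x114t x285t
  have x271f : α 271 = false := ff fun y => c3063 h x459t x239t x485t y
  have x266f : α 266 = false := ff fun y => l3761 h y x95t x80f x23t x184t x53f x22t
  have x484t : α 484 = true := tt fun y => c2136 h y x341f x271f x94f
  have x248t : α 248 = true := tt fun y => c3096 h x379f x266f y
  have x116t : α 116 = true := tt fun y => c2412 h x379f x236f x266f y
  have x47f : α 47 = false := ff fun y => c1154 h x577t x161t x484t y
  have x93f : α 93 = false := ff fun y => c2088 h x248t y x251t x95t
  have x276t : α 276 = true := tt fun y => c1150 h x47f x117f y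
  have x364t : α 364 = true := tt fun y => c1152 h y x424f x47f x117f
  have x96t : α 96 = true := tt fun y => c1269 h y x53f x93f
  have x15t : α 15 = true := tt fun y => c291 h x36f y x93f
  have x121f : α 121 = false := ff fun y => c2465 h x276t x157t y
  have x110f : α 110 = false := ff fun y => c2161 h x184t x96t y
  have x342f : α 342 = false := ff fun y => c2168 h y x184t x96t
  have x441f : α 441 = false := ff fun y => c2172 h y x248t x96t
  have x90f : α 90 = false := ff fun y => c1956 h x248t x96t x251t y
  have x133t : α 133 = true := tt fun y => c2463 h y x307f x121f x273f
  have x29t : α 29 = true := tt fun y => c893 h x379f x342f x80f y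
  have x445t : α 445 = true := tt fun y => c1220 h x441f x53f y x52f
  have x258f : α 258 = false := ff fun y => c903 h x286t x29t x477t y
  have x521f : α 521 = false := ff fun y => c633 h y x29t x505t x22t
  have x169t : α 169 = true := tt fun y => c1639 h y x65f x258f x183f
  have x496t : α 496 = true := tt fun y => c1978 h x90f x258f y
  have x412f : α 412 = false := ff fun y => c3365 h x445t y x496t
  have x315t : α 315 = true := tt fun y => c1480 h y x58f x412f x183f
  have x208f : α 208 = false := ff fun y => c1720 h x200t x71t x315t y
  have x101f : α 101 = false := ff fun y => l3968 h y x208f x169t x521f x133t x342f x110f x15t x96t x364t x93f x116t x266f x275f x505t x386f x429t x65f x196t x56t x1t x58f x346f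
  have x27t : α 27 = true := tt fun y => c828 h x346f x101f x275f y
  have x39t : α 39 = true := tt fun y => c1078 h x264f x101f y
  c815 h x39t x27t x113t

theorem l3970 (h : Good α) (x94f : α 94 = false) (x58f : α 58 = false) (x54f : α 54 = false) (x273f : α 273 = false) (x249t : α 249 = true) : False :=
  have x92t : α 92 = true := tt fun y => l3951 h y x54f x249t x273f
  have x57f : α 57 = false := ff fun y => l3879 h x54f x92t x249t y
  have x1t : α 1 = true := tt fun y => c61 h x57f y x58f
  have x91t : α 91 = true := tt fun y => c1397 h x94f x57f y x58f
  have x239t : α 239 = true := tt fun y => c1322 h y x94f x54f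
  have x197t : α 197 = true := tt fun y => l3969 h y x94f x58f x54f x273f x249t
  have x237f : α 237 = false := ff fun y => c2886 h x249t x197t y
  have x353f : α 353 = false := ff fun y => c2890 h y x249t x197t
  have x61f : α 61 = false := ff fun y => c1547 h x249t x92t x197t y
  have x200t : α 200 = true := tt fun y => c1486 h x353f y x237f x58f
  have x543f : α 543 = false := ff fun y => l3556 h x54f y x1t x61f
  have x449t : α 449 = true := tt fun y => l3750 h x1t y x61f x91t x58f x249t
  have x236f : α 236 = false := ff fun y => c2910 h x239t x200t y
  have x402f : α 402 = false := ff fun y => c2892 h x449t x249t y x197t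
  have x547t : α 547 = true := tt fun y => c1581 h y x236f x402f x61f
  have x443t : α 443 = true := tt fun y => c3346 h x402f y x543f
  c2029 h x547t x239t x443t x91t

theorem l3971 (h : Good α) (x61f : α 61 = false) (x353f : α 353 = false) (x236f : α 236 = false) (x94t : α 94 = true) (x58f : α 58 = false) (x249t : α 249 = true) : False :=
  have x91f : α 91 = false := ff fun y => l3747 h x94t x61f y x58f x249t
  have x197t : α 197 = true := tt fun y => c1575 h x353f x236f y x61f
  have x237t : α 237 = true := tt fun y => c1461 h y x91f x58f
  c2886 h x249t x197t x237t

theorem l3972 (h : Good α) (x183f : α 183 = false) (x80f : α 80 = false) (x378t : α 378 = true) (x117f : α 117 = false) (x379f : α 379 = false) (x383t : α 383 = true) (x299t : α 299 = true) (x184t : α 184 = true) (x238f : α 238 = false) (x334t : α 334 = true) (x23t : α 23 = true) (x53f : α 53 = false) (x236f : α 236 = false) (x273f : α 273 = false) : False :=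
  have x577t : α 577 = true := tt fun y => c3024 h y x379f x236f
  have x161t : α 161 = true := tt fun y => c2676 h x379f x236f y
  have x22t : α 22 = true := tt fun y => c665 h y x117f x183f x273f
  have x52f : α 52 = false := ff fun y => c640 h x22t x299t y x334t
  have x95t : α 95 = true := tt fun y => l3489 h y x378t x183f x52f
  have x251t : α 251 = true := tt fun y => l3762 h y x183f x80f x52f x22t
  have x266f : α 266 = false := ff fun y => l3761 h y x95t x80f x23t x184t x53f x22t
  have x248t : α 248 = true := tt fun y => c3096 h x379f x266f y
  have x116t : α 116 = true := tt fun y => c2412 h x379f x236f x266f y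
  have x93f : α 93 = false := ff fun y => c2088 h x248t y x251t x95t
  have x466t : α 466 = true := tt fun y => l3770 h y x116t x266f x577t x161t x117f x238f
  have x96t : α 96 = true := tt fun y => c1269 h y x53f x93f
  have x118f : α 118 = false := ff fun y => c669 h x466t x383t y x22t
  have x342f : α 342 = false := ff fun y => c2168 h y x184t x96t
  have x90f : α 90 = false := ff fun y => c1956 h x248t x96t x251t y
  have x134t : α 134 = true := tt fun y => c1813 h y x80f x118f
  have x227t : α 227 = true := tt fun y => c1964 h y x118f x90f
  have x29t : α 29 = true := tt fun y => c893 h x379f x342f x80f y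
  have x389t : α 389 = true := tt fun y => c3293 h x379f x342f y
  have x503t : α 503 = true := tt fun y => c3295 h y x379f x342f
  have x16f : α 16 = false := ff fun y => c337 h x134t x29t y
  have x68f : α 68 = false := ff fun y => c1669 h x503t x389t x227t y
  c342 h x68f x16f x52f

theorem l3973 (h : Good α) (x239t : α 239 = true) (x236f : α 236 = false) (x58f : α 58 = false) (x54f : α 54 = false) (x273f : α 273 = false) (x249t : α 249 = true) : False :=
  have x94t : α 94 = true := tt fun y => l3970 h y x58f x54f x273f x249t
  have x92t : α 92 = true := tt fun y => l3951 h y x54f x249t x273f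
  have x57f : α 57 = false := ff fun y => l3879 h x54f x92t x249t y
  have x1t : α 1 = true := tt fun y => c61 h x57f y x58f
  have x353f : α 353 = false := ff fun y => c2128 h y x239t x249t x94t
  have x61t : α 61 = true := tt fun y => l3971 h y x353f x236f x94t x58f x249t
  have x97f : α 97 = false := ff fun y => c1545 h x92t x61t y
  have x197f : α 197 = false := ff fun y => c1547 h x249t x92t y x61t
  have x53f : α 53 = false := ff fun y => l3778 h y x61t
  have x91t : α 91 = true := tt fun y => l3742 h x61t y x58f x249t
  have x204f : α 204 = false := ff fun y => c102 h x1t x61t y
  have x250t : α 250 = true := tt fun y => c1468 h x58f x97f y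
  have x23t : α 23 = true := tt fun y => c706 h y x97f x273f
  have x237f : α 237 = false := ff fun y => c1981 h x249t x94t y x91t
  have x334t : α 334 = true := tt fun y => l3705 h x204f y
  have x238f : α 238 = false := ff fun y => c1983 h x94t y x91t x250t
  have x351t : α 351 = true := tt fun y => c2887 h x197f x237f y
  have x188f : α 188 = false := ff fun y => l3916 h x238f y x351t x204f x61t x58f x54f x92t x249t
  have x233f : α 233 = false := ff fun y => c2122 h x249t x94t x351t y
  have x398t : α 398 = true := tt fun y => c1434 h y x188f x57f
  have x20t : α 20 = true := tt fun y => c533 h x188f x57f y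
  have x272f : α 272 = false := ff fun y => c3101 h x398t y x249t
  have x264f : α 264 = false := ff fun y => c556 h y x92t x20t
  have x184t : α 184 = true := tt fun y => c2767 h x272f x188f y
  have x429t : α 429 = true := tt fun y => c2816 h y x272f x188f
  have x113t : α 113 = true := tt fun y => l3691 h y x264f
  have x299t : α 299 = true := tt fun y => c3052 h x264f x238f y
  have x383t : α 383 = true := tt fun y => c3054 h y x264f x238f
  have x379f : α 379 = false := ff fun y => l3767 h x264f y x23t
  have x117f : α 117 = false := ff fun y => c2057 h x184t x92t y
  have x106f : α 106 = false := ff fun y => c2288 h x429t x249t y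
  have x298f : α 298 = false := ff fun y => c719 h x429t x184t y x23t
  have x19f : α 19 = false := ff fun y => c460 h y x23t x113t
  have x577t : α 577 = true := tt fun y => c3024 h y x379f x236f
  have x257t : α 257 = true := tt fun y => c2277 h x106f x117f y x273f
  have x114t : α 114 = true := tt fun y => c505 h x298f y x19f
  have x386f : α 386 = false := ff fun y => c3068 h x577t y x239t
  have x158f : α 158 = false := ff fun y => l3694 h x114t y
  have x459t : α 459 = true := tt fun y => c2815 h y x386f x272f x188f
  have x378t : α 378 = true := tt fun y => c2668 h x158f x233f y
  have x80f : α 80 = false := ff fun y => c1830 h x459t x239t y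
  have x183t : α 183 = true := tt fun y => l3972 h y x80f x378t x117f x379f x383t x299t x184t x238f x334t x23t x53f x236f x273f
  have x189t : α 189 = true := tt fun y => c483 h x19f x58f y
  c2749 h x257t x183t x189t

theorem l3974 (h : Good α) (x236f : α 236 = false) (x58f : α 58 = false) (x54f : α 54 = false) (x273f : α 273 = false) (x249t : α 249 = true) : False :=
  have x92t : α 92 = true := tt fun y => l3951 h y x54f x249t x273f
  have x57f : α 57 = false := ff fun y => l3879 h x54f x92t x249t y
  have x94t : α 94 = true := tt fun y => l3970 h y x58f x54f x273f x249t
  have x449f : α 449 = false := ff fun y => c2135 h y x249t x94t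
  have x443t : α 443 = true := tt fun y => c1405 h x449f x57f y x58f
  have x1t : α 1 = true := tt fun y => c61 h x57f y x58f
  have x239f : α 239 = false := ff fun y => l3973 h y x236f x58f x54f x273f x249t
  have x61t : α 61 = true := tt fun y => c1304 h x239f x236f x54f y
  have x200t : α 200 = true := tt fun y => c2909 h x239f y x236f
  have x197f : α 197 = false := ff fun y => c1547 h x249t x92t y x61t
  have x91t : α 91 = true := tt fun y => l3742 h x61t y x58f x249t
  have x402t : α 402 = true := tt fun y => c1342 h y x197f x54f
  have x237f : α 237 = false := ff fun y => c1981 h x249t x94t y x91t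
  have x547f : α 547 = false := ff fun y => c118 h y x200t x402t x1t
  have x543f : α 543 = false := ff fun y => c3347 h x402t x443t y
  have x351t : α 351 = true := tt fun y => c2887 h x197f x237f y
  have x233t : α 233 = true := tt fun y => c2993 h x547f x239f x543f y
  c2122 h x249t x94t x351t x233t

theorem l3975 (h : Good α) (x58f : α 58 = false) (x54f : α 54 = false) (x273f : α 273 = false) (x249t : α 249 = true) : False :=
  have x92t : α 92 = true := tt fun y => l3951 h y x54f x249t x273f
  have x94t : α 94 = true := tt fun y => l3970 h y x58f x54f x273f x249t
  have x236t : α 236 = true := tt fun y => l3974 h y x58f x54f x273f x249t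
  have x61f : α 61 = false := ff fun y => c1549 h x236t x92t y
  have x353f : α 353 = false := ff fun y => c2072 h y x236t x249t x92t
  have x239f : α 239 = false := ff fun y => c2043 h y x236t x94t x92t
  have x91f : α 91 = false := ff fun y => l3747 h x94t x61f y x58f x249t
  have x197t : α 197 = true := tt fun y => c1341 h x353f x239f y x54f
  have x237t : α 237 = true := tt fun y => c2021 h x353f x239f y x91f
  c2886 h x249t x197t x237t

theorem l3976 (h : Good α) (x188f : α 188 = false) (x91t : α 91 = true) (x19f : α 19 = false) (x443f : α 443 = false) (x23t : α 23 = true) (x57f : α 57 = false) (x249t : α 249 = true) : False :=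
  have x398t : α 398 = true := tt fun y => c1434 h y x188f x57f
  have x272f : α 272 = false := ff fun y => c3101 h x398t y x249t
  have x184t : α 184 = true := tt fun y => c2767 h x272f x188f y
  have x429t : α 429 = true := tt fun y => c2816 h y x272f x188f
  have x114t : α 114 = true := tt fun y => c504 h x272f x188f y x19f
  have x298f : α 298 = false := ff fun y => c719 h x429t x184t y x23t
  have x222f : α 222 = false := ff fun y => c1995 h y x114t x91t
  c2971 h x222f x298f x443f

theorem l3977 (h : Good α) (x54f : α 54 = false) (x273f : α 273 = false) (x249t : α 249 = true) : False :=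
  have x92t : α 92 = true := tt fun y => l3951 h y x54f x249t x273f
  have x57f : α 57 = false := ff fun y => l3879 h x54f x92t x249t y
  have x58t : α 58 = true := tt fun y => l3975 h y x54f x273f x249t
  have x61t : α 61 = true := tt fun y => l3795 h x54f y x92t x58t x249t
  have x97f : α 97 = false := ff fun y => c1545 h x92t x61t y
  have x197f : α 197 = false := ff fun y => c1547 h x249t x92t y x61t
  have x236f : α 236 = false := ff fun y => c1549 h y x92t x61t
  have x53f : α 53 = false := ff fun y => l3778 h y x61t
  have x23t : α 23 = true := tt fun y => c706 h y x97f x273f
  have x1t : α 1 = true := tt fun y => c41 h x197f x54f y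
  have x402t : α 402 = true := tt fun y => c1342 h y x197f x54f
  have x56t : α 56 = true := tt fun y => l3648 h x53f y
  have x335t : α 335 = true := tt fun y => l3653 h x53f y
  have x183f : α 183 = false := ff fun y => c696 h x23t x58t y
  have x201f : α 201 = false := ff fun y => c80 h x1t x58t y
  have x204f : α 204 = false := ff fun y => c102 h x1t x61t y
  have x443f : α 443 = false := ff fun y => c84 h x402t x1t y x58t
  have x327f : α 327 = false := ff fun y => l3667 h x56t y
  have x189t : α 189 = true := tt fun y => c2750 h x183f y x273f
  have x242t : α 242 = true := tt fun y => l3790 h y x204f x54f x236f x197f x97f x58t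
  have x19f : α 19 = false := ff fun y => c484 h y x58t x189t
  have x91t : α 91 = true := tt fun y => l3906 h y x242t x54f x92t
  have x113t : α 113 = true := tt fun y => l3846 h y x242t x201f x57f x92t
  have x307f : α 307 = false := ff fun y => c712 h x23t x113t y
  have x188t : α 188 = true := tt fun y => l3976 h y x91t x19f x443f x23t x57f x249t
  have x272f : α 272 = false := ff fun y => l3666 h x188t y x56t
  have x424f : α 424 = false := ff fun y => c1393 h x188t y x56t x335t
  have x238t : α 238 = true := tt fun y => l3779 h y x188t x242t x197f x61t x92t
  have x264f : α 264 = false := ff fun y => l3862 h y x238t x57f x53f x272f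
  have x114t : α 114 = true := tt fun y => c2393 h x272f x424f y x307f
  have x184t : α 184 = true := tt fun y => l3652 h y x264f x53f
  have x429t : α 429 = true := tt fun y => l3709 h y x327f x264f
  have x222f : α 222 = false := ff fun y => c1995 h y x114t x91t
  have x298f : α 298 = false := ff fun y => c719 h x429t x184t y x23t
  c2971 h x222f x298f x443f

theorem l3978 (h : Good α) (x96f : α 96 = false) (x340f : α 340 = false) (x338f : α 338 = false) (x191f : α 191 = false) (x70f : α 70 = false) (x23t : α 23 = true) (x117t : α 117 = true) (x341t : α 341 = true) (x188t : α 188 = true) (x22t : α 22 = true) (x387f : α 387 = false) (x19t : α 19 = true) (x57t : α 57 = true) (x1f : α 1 = false) (x52f : α 52 = false) (x346f : α 346 = false) : False :=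
  have x184f : α 184 = false := ff fun y => c647 h y x57t x22t
  have x185t : α 185 = true := tt fun y => c2169 h x346f y x96f
  have x110t : α 110 = true := tt fun y => c2160 h x184f x96f y
  have x55f : α 55 = false := ff fun y => c1357 h x188t x57t x185t y
  have x254f : α 254 = false := ff fun y => c2776 h x188t x185t y
  have x17f : α 17 = false := ff fun y => c365 h x110t y x23t
  have x90t : α 90 = true := tt fun y => c22 h x55f x1f y x52f
  have x283t : α 283 = true := tt fun y => c3127 h y x254f x338f
  have x86t : α 86 = true := tt fun y => c1903 h x254f y x338f x191f
  have x275t : α 275 = true := tt fun y => c398 h x346f x96f y x17f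
  have x258f : α 258 = false := ff fun y => c652 h x22t x90t y
  have x42f : α 42 = false := ff fun y => c1121 h x341t x117t x283t y
  have x35f : α 35 = false := ff fun y => c468 h x86t x19t y
  have x260f : α 260 = false := ff fun y => l3715 h y x275t
  have x278t : α 278 = true := tt fun y => c3146 h x338f x258f y
  have x99t : α 99 = true := tt fun y => c1119 h x258f y x42f
  have x345t : α 345 = true := tt fun y => c1006 h x35f y x70f x387f
  have x483t : α 483 = true := tt fun y => c3163 h x260f x340f y
  c2221 h x99t x345t x278t x483t

theorem l3979 (h : Good α) (x272f : α 272 = false) (x387f : α 387 = false) (x264t : α 264 = true) (x180t : α 180 = true) (x238f : α 238 = false) (x239f : α 239 = false) (x92f : α 92 = false) (x19t : α 19 = true) (x114f : α 114 = false) (x57t : α 57 = true) (x1f : α 1 = false) (x94f : α 94 = false) (x54t : α 54 = true) (x249t : α 249 = true) : False :=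
  have x52f : α 52 = false := ff fun y => l3640 h x54t y
  have x195t : α 195 = true := tt fun y => c25 h x1f x52f y
  have x53t : α 53 = true := tt fun y => c20 h y x1f x52f
  have x61f : α 61 = false := ff fun y => l3870 h y x54t
  have x204t : α 204 = true := tt fun y => c101 h x1f x61f y
  have x59t : α 59 = true := tt fun y => l3669 h y x61f
  have x313f : α 313 = false := ff fun y => l3674 h x59t y
  have x346f : α 346 = false := ff fun y => l3935 h y x249t
  have x477t : α 477 = true := tt fun y => c3214 h x272f x346f y
  have x286t : α 286 = true := tt fun y => c3211 h y x272f x346f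
  have x22t : α 22 = true := tt fun y => c656 h x272f x94f y
  have x187t : α 187 = true := tt fun y => c2112 h x272f x94f x346f y
  have x184f : α 184 = false := ff fun y => c647 h y x57t x22t
  have x393f : α 393 = false := ff fun y => c1335 h y x187t x54t
  have x18f : α 18 = false := ff fun y => c431 h x187t x54t y
  have x188t : α 188 = true := tt fun y => c2767 h x272f y x184f
  have x341t : α 341 = true := tt fun y => c2065 h y x184f x92f
  have x117t : α 117 = true := tt fun y => c2056 h x184f x92f y
  have x23t : α 23 = true := tt fun y => c714 h x272f x184f x114f y
  have x271t : α 271 = true := tt fun y => c3061 h x239f y x393f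
  have x107t : α 107 = true := tt fun y => l3440 h y x18f x239f x54t
  have x20f : α 20 = false := ff fun y => c534 h x188t x57t y
  have x70f : α 70 = false := ff fun y => c1691 h x188t x264t y x180t
  have x553f : α 553 = false := ff fun y => c2819 h y x341t x188t
  have x191f : α 191 = false := ff fun y => c2796 h x271t x187t y
  have x338f : α 338 = false := ff fun y => c2307 h x286t x107t x477t y
  have x28t : α 28 = true := tt fun y => c521 h x92f x20f y
  have x10f : α 10 = false := ff fun y => l3618 h y x28t
  have x340f : α 340 = false := ff fun y => l3636 h x28t y
  have x128f : α 128 = false := ff fun y => c623 h x22t x28t y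
  have x170t : α 170 = true := tt fun y => c202 h x239f x10f x393f y
  have x214t : α 214 = true := tt fun y => c2495 h x272f x128f x346f y
  have x102f : α 102 = false := ff fun y => l3682 h y x170t
  have x96t : α 96 = true := tt fun y => l3978 h y x340f x338f x191f x70f x23t x117t x341t x188t x22t x387f x19t x57t x1f x52f x346f
  have x229f : α 229 = false := ff fun y => c1274 h x96t x53t y x195t
  have x410t : α 410 = true := tt fun y => c2245 h y x229f x102f
  have x76t : α 76 = true := tt fun y => c1780 h x229f x102f y
  have x253f : α 253 = false := ff fun y => c2801 h x187t y x410t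
  have x37f : α 37 = false := ff fun y => c1053 h y x76t x214t
  have x392t : α 392 = true := tt fun y => c2983 h y x253f x229f
  have x290t : α 290 = true := tt fun y => c2982 h x253f x229f y
  have x123f : α 123 = false := ff fun y => c2475 h x249t y x392t x290t
  have x314t : α 314 = true := tt fun y => c2473 h x123f x128f x313f y
  have x79f : α 79 = false := ff fun y => c1806 h y x204t x214t x314t
  have x220t : α 220 = true := tt fun y => c1055 h y x79f x37f
  have x417t : α 417 = true := tt fun y => c1810 h x553f x238f y x79f
  have x101f : α 101 = false := ff fun y => c2159 h x96t y x220t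
  have x324f : α 324 = false := ff fun y => c1333 h x417t y x187t x54t
  have x231t : α 231 = true := tt fun y => c1804 h y x101f x79f
  have x196t : α 196 = true := tt fun y => l3703 h y x324f
  c1275 h x231t x196t x96t x53t

theorem l3980 (h : Good α) (x477t : α 477 = true) (x22t : α 22 = true) (x28t : α 28 = true) (x158t : α 158 = true) (x272t : α 272 = true) (x113f : α 113 = false) (x239f : α 239 = false) (x54t : α 54 = true) (x346f : α 346 = false) : False :=
  have x340f : α 340 = false := ff fun y => l3636 h x28t y
  have x459f : α 459 = false := ff fun y => l3732 h x272t y
  have x264t : α 264 = true := tt fun y => l3691 h x113f y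
  have x258f : α 258 = false := ff fun y => c673 h x272t x22t x477t y
  have x278f : α 278 = false := ff fun y => c880 h x272t x28t x477t y
  have x39t : α 39 = true := tt fun y => c1082 h y x113f x278f x340f
  have x260t : α 260 = true := tt fun y => c3161 h x278f y x340f
  have x338t : α 338 = true := tt fun y => c3146 h y x258f x278f
  have x101f : α 101 = false := ff fun y => c1079 h x264t y x39t
  have x275f : α 275 = false := ff fun y => l3715 h x260t y
  have x191f : α 191 = false := ff fun y => l3657 h y x260t x54t
  have x164t : α 164 = true := tt fun y => l3679 h x101f y
  have x285t : α 285 = true := tt fun y => c3226 h x346f x275f y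
  have x580f : α 580 = false := ff fun y => c1089 h y x164t x477t x39t
  have x467f : α 467 = false := ff fun y => c2673 h y x285t x158t
  have x393t : α 393 = true := tt fun y => c3069 h x459f x239f x580f y
  have x381t : α 381 = true := tt fun y => c2844 h x275f x191f x467f y
  c3276 h x393t x338t x381t

theorem l3981 (h : Good α) (x275t : α 275 = true) (x17f : α 17 = false) (x453t : α 453 = true) (x229f : α 229 = false) (x28t : α 28 = true) (x65t : α 65 = true) (x58f : α 58 = false) (x54t : α 54 = true) : False :=
  have x340f : α 340 = false := ff fun y => l3636 h x28t y
  have x260f : α 260 = false := ff fun y => l3715 h y x275t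
  have x191f : α 191 = false := ff fun y => l3659 h y x275t x54t
  have x278t : α 278 = true := tt fun y => c3161 h y x260f x340f
  have x181t : α 181 = true := tt fun y => c2727 h x191f y x260f
  have x102f : α 102 = false := ff fun y => c866 h x28t y x278t
  have x376t : α 376 = true := tt fun y => c2244 h x229f x102f y x260f
  have x380f : α 380 = false := ff fun y => c3323 h x453t x376t y
  have x50f : α 50 = false := ff fun y => c1193 h y x181t x376t
  have x183t : α 183 = true := tt fun y => c1481 h x58f y x380f
  have x67t : α 67 = true := tt fun y => c381 h y x17f x50f
  c1635 h x67t x65t x181t x183t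

theorem l3982 (h : Good α) (x96t : α 96 = true) (x28t : α 28 = true) (x70f : α 70 = false) (x158t : α 158 = true) (x379f : α 379 = false) (x117t : α 117 = true) (x306f : α 306 = false) (x272t : α 272 = true) (x65t : α 65 = true) (x113f : α 113 = false) (x239f : α 239 = false) (x19t : α 19 = true) (x114f : α 114 = false) (x195t : α 195 = true) (x53t : α 53 = true) (x58f : α 58 = false) (x54t : α 54 = true) (x346f : α 346 = false) : False :=
  have x62f : α 62 = false := ff fun y => l3633 h x195t x28t y
  have x340f : α 340 = false := ff fun y => l3636 h x28t y
  have x202f : α 202 = false := ff fun y => l3717 h x195t y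
  have x56f : α 56 = false := ff fun y => l3649 h x53t y
  have x61f : α 61 = false := ff fun y => l3870 h y x54t
  have x59t : α 59 = true := tt fun y => l3669 h y x61f
  have x313f : α 313 = false := ff fun y => l3674 h x59t y
  have x248f : α 248 = false := ff fun y => c1277 h y x96t x53t
  have x229f : α 229 = false := ff fun y => c1274 h x96t x53t y x195t
  have x266t : α 266 = true := tt fun y => c3096 h x379f y x248f
  have x453t : α 453 = true := tt fun y => c1594 h x62f x229f y
  have x17f : α 17 = false := ff fun y => c397 h x266t x96t y
  have x275f : α 275 = false := ff fun y => l3981 h y x17f x453t x229f x28t x65t x58f x54t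
  have x285t : α 285 = true := tt fun y => c3226 h x346f x275f y
  have x485t : α 485 = true := tt fun y => c3229 h y x346f x275f
  have x477t : α 477 = true := tt fun y => c2395 h y x275f x114f
  have x314f : α 314 = false := ff fun y => l3565 h x275f x28t y x340f x272t x114f x54t
  have x86t : α 86 = true := tt fun y => c392 h x275f y x17f
  have x32f : α 32 = false := ff fun y => c958 h x485t x266t x285t y
  have x22f : α 22 = false := ff fun y => l3980 h x477t y x28t x158t x272t x113f x239f x54t x346f
  have x157t : α 157 = true := tt fun y => c2653 h y x202f x314f
  have x400t : α 400 = true := tt fun y => c3254 h y x313f x314f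
  have x35f : α 35 = false := ff fun y => c468 h x86t x19t y
  have x137t : α 137 = true := tt fun y => c379 h x17f x32f y
  have x106t : α 106 = true := tt fun y => c661 h x306f y x22f
  have x434f : α 434 = false := ff fun y => c1278 h x96t x53t y x400t
  have x216t : α 216 = true := tt fun y => c1005 h x35f x70f y
  have x185f : α 185 = false := ff fun y => c2163 h y x96t x216t x137t
  have x146f : α 146 = false := ff fun y => c2275 h x106t x117t y x157t
  have x90t : α 90 = true := tt fun y => c1974 h y x229f x434f
  have x253t : α 253 = true := tt fun y => c1379 h x185f x56f y x146f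
  have x55f : α 55 = false := ff fun y => c1359 h x96t y x90t
  have x14f : α 14 = false := ff fun y => c265 h x253t x90t y
  c253 h x185f x55f x14f

theorem l3983 (h : Good α) (x188t : α 188 = true) (x23t : α 23 = true) (x306f : α 306 = false) (x272t : α 272 = true) (x65t : α 65 = true) (x113f : α 113 = false) (x386t : α 386 = true) (x239f : α 239 = false) (x92f : α 92 = false) (x19t : α 19 = true) (x114f : α 114 = false) (x195t : α 195 = true) (x53t : α 53 = true) (x57t : α 57 = true) (x58f : α 58 = false) (x54t : α 54 = true) (x346f : α 346 = false) : False :=
  have x459f : α 459 = false := ff fun y => l3732 h x272t y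
  have x379f : α 379 = false := ff fun y => c463 h x386t y x19t x23t
  have x81f : α 81 = false := ff fun y => c685 h x53t x23t y
  have x158t : α 158 = true := tt fun y => c1837 h x459f x379f y x81f
  have x184f : α 184 = false := ff fun y => l3655 h y x272t x53t
  have x117t : α 117 = true := tt fun y => c2056 h x184f x92f y
  have x264t : α 264 = true := tt fun y => l3691 h x113f y
  have x180t : α 180 = true := tt fun y => l3690 h x113f y
  have x20f : α 20 = false := ff fun y => c534 h x188t x57t y
  have x70f : α 70 = false := ff fun y => c1691 h x188t x264t y x180t
  have x452f : α 452 = false := ff fun y => c2812 h x386t y x188t x264t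
  have x28t : α 28 = true := tt fun y => c521 h x92f x20f y
  have x10f : α 10 = false := ff fun y => l3618 h y x28t
  have x340f : α 340 = false := ff fun y => l3636 h x28t y
  have x96f : α 96 = false := ff fun y => l3982 h y x28t x70f x158t x379f x117t x306f x272t x65t x113f x239f x19t x114f x195t x53t x58f x54t x346f
  have x110t : α 110 = true := tt fun y => c2160 h x184f x96f y
  have x17f : α 17 = false := ff fun y => c365 h x110t y x23t
  have x275t : α 275 = true := tt fun y => c398 h x346f x96f y x17f
  have x266t : α 266 = true := tt fun y => c396 h y x96f x17f
  have x32t : α 32 = true := tt fun y => c377 h x96f x17f y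
  have x260f : α 260 = false := ff fun y => l3715 h y x275t
  have x191f : α 191 = false := ff fun y => l3659 h y x275t x54t
  have x278t : α 278 = true := tt fun y => c3161 h y x260f x340f
  have x102f : α 102 = false := ff fun y => c866 h x28t y x278t
  have x44t : α 44 = true := tt fun y => c1127 h y x102f x260f
  have x108f : α 108 = false := ff fun y => c844 h x44t x28t y
  have x280f : α 280 = false := ff fun y => c846 h y x264t x44t x28t
  have x24t : α 24 = true := tt fun y => c752 h y x108f x191f x260f
  have x63f : α 63 = false := ff fun y => c733 h y x24t x54t
  have x167t : α 167 = true := tt fun y => c1609 h x63f y x191f x260f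
  have x175f : α 175 = false := ff fun y => l3714 h x167t y
  have x286t : α 286 = true := tt fun y => c2707 h x459f y x175f
  have x40f : α 40 = false := ff fun y => c839 h x286t y x272t x28t
  have x482t : α 482 = true := tt fun y => c186 h x452f y x10f x40f
  have x101f : α 101 = false := ff fun y => c2235 h x482t x264t y
  have x256t : α 256 = true := tt fun y => l3680 h x101f y
  have x485t : α 485 = true := tt fun y => c2236 h y x280f x346f x101f
  have x36f : α 36 = false := ff fun y => c1044 h x286t x482t y x256t
  have x285f : α 285 = false := ff fun y => c958 h x485t x266t y x32t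
  c1036 h x36f x114f x285f

theorem l3984 (h : Good α) (x275t : α 275 = true) (x28t : α 28 = true) (x452f : α 452 = false) (x272t : α 272 = true) (x264t : α 264 = true) (x239f : α 239 = false) (x54t : α 54 = true) (x346f : α 346 = false) : False :=
  have x340f : α 340 = false := ff fun y => l3636 h x28t y
  have x10f : α 10 = false := ff fun y => l3618 h y x28t
  have x459f : α 459 = false := ff fun y => l3732 h x272t y
  have x467f : α 467 = false := ff fun y => l3735 h x275t y
  have x260f : α 260 = false := ff fun y => l3715 h y x275t
  have x191f : α 191 = false := ff fun y => l3659 h y x275t x54t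
  have x278t : α 278 = true := tt fun y => c3161 h y x260f x340f
  have x477f : α 477 = false := ff fun y => c880 h x272t x28t y x278t
  have x102f : α 102 = false := ff fun y => c866 h x28t y x278t
  have x580t : α 580 = true := tt fun y => c3399 h y x477f x467f
  have x44t : α 44 = true := tt fun y => c1127 h y x102f x260f
  have x108f : α 108 = false := ff fun y => c844 h x44t x28t y
  have x280f : α 280 = false := ff fun y => c846 h y x264t x44t x28t
  have x24t : α 24 = true := tt fun y => c752 h y x108f x191f x260f
  have x63f : α 63 = false := ff fun y => c733 h y x24t x54t
  have x107t : α 107 = true := tt fun y => c1606 h x239f y x63f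
  have x167t : α 167 = true := tt fun y => c1609 h x63f y x191f x260f
  have x300f : α 300 = false := ff fun y => c751 h y x107t x24t
  have x175f : α 175 = false := ff fun y => l3714 h x167t y
  have x271t : α 271 = true := tt fun y => c3060 h x300f x239f y
  have x286t : α 286 = true := tt fun y => c2707 h x459f y x175f
  have x40f : α 40 = false := ff fun y => c839 h x286t y x272t x28t
  have x482t : α 482 = true := tt fun y => c186 h x452f y x10f x40f
  have x101f : α 101 = false := ff fun y => c2235 h x482t x264t y
  have x485t : α 485 = true := tt fun y => c2236 h y x280f x346f x101f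
  have x170f : α 170 = false := ff fun y => c1134 h x485t x44t x580t y
  have x393f : α 393 = false := ff fun y => c3210 h x485t x271t x580t y
  c202 h x239f x10f x393f x170f

theorem l3985 (h : Good α) (x28t : α 28 = true) (x452f : α 452 = false) (x158t : α 158 = true) (x272t : α 272 = true) (x113f : α 113 = false) (x239f : α 239 = false) (x114f : α 114 = false) (x91t : α 91 = true) (x54t : α 54 = true) (x346f : α 346 = false) : False :=
  have x459f : α 459 = false := ff fun y => l3732 h x272t y
  have x264t : α 264 = true := tt fun y => l3691 h x113f y
  have x94f : α 94 = false := ff fun y => c1310 h y x54t x91t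
  have x52f : α 52 = false := ff fun y => l3640 h x54t y
  have x340f : α 340 = false := ff fun y => l3636 h x28t y
  have x275f : α 275 = false := ff fun y => l3984 h y x28t x452f x272t x264t x239f x54t x346f
  have x285t : α 285 = true := tt fun y => c3226 h x346f x275f y
  have x485t : α 485 = true := tt fun y => c3229 h y x346f x275f
  have x477t : α 477 = true := tt fun y => c2395 h y x275f x114f
  have x467f : α 467 = false := ff fun y => c2673 h y x285t x158t
  have x120f : α 120 = false := ff fun y => c2458 h x485t x272t y
  have x278f : α 278 = false := ff fun y => c880 h x272t x28t x477t y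
  have x22f : α 22 = false := ff fun y => l3980 h x477t y x28t x158t x272t x113f x239f x54t x346f
  have x24t : α 24 = true := tt fun y => l3571 h y x120f x275f x94f x91t
  have x39t : α 39 = true := tt fun y => c1082 h y x113f x278f x340f
  have x183t : α 183 = true := tt fun y => c637 h x22f x52f y
  have x191f : α 191 = false := ff fun y => c737 h x24t x54t y
  have x101f : α 101 = false := ff fun y => c1079 h x264t y x39t
  have x181t : α 181 = true := tt fun y => c2729 h x275f x191f y
  have x381t : α 381 = true := tt fun y => c2844 h x275f x191f x467f y
  have x164t : α 164 = true := tt fun y => l3679 h x101f y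
  have x258f : α 258 = false := ff fun y => c2723 h y x181t x183t
  have x580f : α 580 = false := ff fun y => c1089 h y x164t x477t x39t
  have x338t : α 338 = true := tt fun y => c655 h x94f x22f y x258f
  have x393t : α 393 = true := tt fun y => c3069 h x459f x239f x580f y
  c3276 h x393t x338t x381t

theorem l3986 (h : Good α) (x23t : α 23 = true) (x113f : α 113 = false) (x91t : α 91 = true) (x54t : α 54 = true) (x249t : α 249 = true) : False :=
  have x94f : α 94 = false := ff fun y => c1310 h y x54t x91t
  have x61f : α 61 = false := ff fun y => l3870 h y x54t
  have x197f : α 197 = false := ff fun y => l3796 h y x54t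
  have x58f : α 58 = false := ff fun y => l3615 h x91t y x61f x197f
  have x1f : α 1 = false := ff fun y => l3881 h x91t x58f y x54t x249t
  have x57t : α 57 = true := tt fun y => c61 h y x1f x58f
  have x201t : α 201 = true := tt fun y => c79 h x1f x58f y
  have x233f : α 233 = false := ff fun y => c1315 h x54t x91t y
  have x114f : α 114 = false := ff fun y => l3535 h y x94f x233f x57t x201t
  have x52f : α 52 = false := ff fun y => l3640 h x54t y
  have x53t : α 53 = true := tt fun y => c20 h y x1f x52f
  have x56f : α 56 = false := ff fun y => l3649 h x53t y
  have x97t : α 97 = true := tt fun y => c75 h x1f x61f x58f y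
  have x19t : α 19 = true := tt fun y => l3578 h y x97t x58f x56f
  have x237t : α 237 = true := tt fun y => c77 h x197f x1f y x58f
  have x92f : α 92 = false := ff fun y => c2047 h x249t y x237t x97t
  have x236t : α 236 = true := tt fun y => c1548 h y x92f x61f
  have x239f : α 239 = false := ff fun y => c1989 h y x236t x91t x97t
  have x351f : α 351 = false := ff fun y => c1444 h x249t x57t y x201t
  have x242t : α 242 = true := tt fun y => c1577 h x197f x61f x351f y
  have x447f : α 447 = false := ff fun y => c2196 h x97t x242t y
  have x406t : α 406 = true := tt fun y => c105 h x1f x61f y x447f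
  have x204t : α 204 = true := tt fun y => c101 h x1f x61f y
  have x250f : α 250 = false := ff fun y => c1313 h x54t x204t x91t y
  have x354f : α 354 = false := ff fun y => c2924 h x201t x242t y
  have x546t : α 546 = true := tt fun y => c3115 h x250f x354f y
  have x238f : α 238 = false := ff fun y => c1447 h x57t y x406t x546t
  have x180t : α 180 = true := tt fun y => l3690 h x113f y
  have x264t : α 264 = true := tt fun y => l3691 h x113f y
  have x387f : α 387 = false := ff fun y => c2718 h x180t x242t y
  have x272t : α 272 = true := tt fun y => l3979 h y x387f x264t x180t x238f x239f x92f x19t x114f x57t x1f x94f x54t x249t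
  have x306f : α 306 = false := ff fun y => c3099 h x272t x249t y
  have x184f : α 184 = false := ff fun y => l3655 h y x272t x53t
  have x459f : α 459 = false := ff fun y => l3732 h x272t y
  have x65t : α 65 = true := tt fun y => c1637 h y x113f x250f
  have x200f : α 200 = false := ff fun y => c2904 h y x236t x201t x242t
  have x386t : α 386 = true := tt fun y => l3501 h y x236t x200f x56f
  have x195t : α 195 = true := tt fun y => c25 h x1f x52f y
  have x346f : α 346 = false := ff fun y => l3935 h y x249t
  have x81f : α 81 = false := ff fun y => c685 h x53t x23t y
  have x379f : α 379 = false := ff fun y => c463 h x386t y x19t x23t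
  have x158t : α 158 = true := tt fun y => c1837 h x459f x379f y x81f
  have x188f : α 188 = false := ff fun y => l3983 h y x23t x306f x272t x65t x113f x386t x239f x92f x19t x114f x195t x53t x57t x58f x54t x346f
  have x106t : α 106 = true := tt fun y => c2100 h x188f x94f y
  have x70t : α 70 = true := tt fun y => c1681 h x188f x184f y x81f
  have x62f : α 62 = false := ff fun y => c1590 h x249t x106t y
  have x452f : α 452 = false := ff fun y => c1692 h x386t y x70t x180t
  have x28f : α 28 = false := ff fun y => l3985 h y x452f x158t x272t x113f x239f x114f x91t x54t x346f
  have x20t : α 20 = true := tt fun y => c521 h x92f y x28f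
  have x85t : α 85 = true := tt fun y => c847 h x62f x28f y
  c532 h x57t x20t x85t

theorem l3987 (h : Good α) (x28f : α 28 = false) (x117t : α 117 = true) (x92f : α 92 = false) (x94f : α 94 = false) : False :=
  have x20t : α 20 = true := tt fun y => c521 h x92f y x28f
  have x22t : α 22 = true := tt fun y => c620 h x94f y x28f
  c515 h x22t x20t x117t

theorem l3988 (h : Good α) (x91t : α 91 = true) (x273f : α 273 = false) (x249t : α 249 = true) : False :=
  have x54t : α 54 = true := tt fun y => l3977 h y x273f x249t
  have x61f : α 61 = false := ff fun y => l3870 h y x54t
  have x325t : α 325 = true := tt fun y => l3677 h x61f y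
  have x197f : α 197 = false := ff fun y => l3796 h y x54t
  have x52f : α 52 = false := ff fun y => l3640 h x54t y
  have x346f : α 346 = false := ff fun y => l3935 h y x249t
  have x94f : α 94 = false := ff fun y => c1310 h y x54t x91t
  have x233f : α 233 = false := ff fun y => c1315 h x54t x91t y
  have x58f : α 58 = false := ff fun y => l3615 h x91t y x61f x197f
  have x1f : α 1 = false := ff fun y => l3881 h x91t x58f y x54t x249t
  have x204t : α 204 = true := tt fun y => c101 h x1f x61f y
  have x57t : α 57 = true := tt fun y => c61 h y x1f x58f
  have x53t : α 53 = true := tt fun y => c20 h y x1f x52f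
  have x97t : α 97 = true := tt fun y => c75 h x1f x61f x58f y
  have x201t : α 201 = true := tt fun y => c79 h x1f x58f y
  have x237t : α 237 = true := tt fun y => c77 h x197f x1f y x58f
  have x250f : α 250 = false := ff fun y => c1313 h x54t x204t x91t y
  have x114f : α 114 = false := ff fun y => l3535 h y x94f x233f x57t x201t
  have x56f : α 56 = false := ff fun y => l3649 h x53t y
  have x19t : α 19 = true := tt fun y => l3578 h y x97t x58f x56f
  have x351f : α 351 = false := ff fun y => c1444 h x249t x57t y x201t
  have x92f : α 92 = false := ff fun y => c2047 h x249t y x237t x97t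
  have x307t : α 307 = true := tt fun y => c3109 h y x250f x273f
  have x242t : α 242 = true := tt fun y => c1577 h x197f x61f x351f y
  have x236t : α 236 = true := tt fun y => c1548 h y x92f x61f
  have x354f : α 354 = false := ff fun y => c2924 h x201t x242t y
  have x200f : α 200 = false := ff fun y => c2904 h y x236t x201t x242t
  have x447f : α 447 = false := ff fun y => c2196 h x97t x242t y
  have x239f : α 239 = false := ff fun y => c1989 h y x236t x91t x97t
  have x546t : α 546 = true := tt fun y => c3115 h x250f x354f y
  have x386t : α 386 = true := tt fun y => l3501 h y x236t x200f x56f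
  have x352t : α 352 = true := tt fun y => c1488 h x200f y x58f x250f
  have x406t : α 406 = true := tt fun y => c105 h x1f x61f y x447f
  have x238f : α 238 = false := ff fun y => c1447 h x57t y x406t x546t
  have x544f : α 544 = false := ff fun y => c3022 h x236t x352t y
  have x409t : α 409 = true := tt fun y => c119 h x200f x544f x1f y
  have x335f : α 335 = false := ff fun y => c3261 h x325t y x409t
  have x113f : α 113 = false := ff fun y => l3558 h y x307t x335f x19t x386t x56f
  have x180t : α 180 = true := tt fun y => l3690 h x113f y
  have x264t : α 264 = true := tt fun y => l3691 h x113f y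
  have x387f : α 387 = false := ff fun y => c2718 h x180t x242t y
  have x272t : α 272 = true := tt fun y => l3979 h y x387f x264t x180t x238f x239f x92f x19t x114f x57t x1f x94f x54t x249t
  have x459f : α 459 = false := ff fun y => l3732 h x272t y
  have x184f : α 184 = false := ff fun y => l3655 h y x272t x53t
  have x117t : α 117 = true := tt fun y => c2056 h x184f x92f y
  have x23f : α 23 = false := ff fun y => l3986 h y x113f x91t x54t x249t
  have x379t : α 379 = true := tt fun y => c715 h x459f y x114f x23f
  have x452f : α 452 = false := ff fun y => c3328 h x386t x379t y
  have x28t : α 28 = true := tt fun y => l3987 h y x117t x92f x94f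
  have x158f : α 158 = false := ff fun y => l3985 h x28t x452f y x272t x113f x239f x114f x91t x54t x346f
  have x378t : α 378 = true := tt fun y => c2668 h x158f x233f y
  have x81t : α 81 = true := tt fun y => c700 h x114f x23f x158f y
  c1844 h x81t x201t x378t

theorem l3989 (h : Good α) (x200t : α 200 = true) (x58f : α 58 = false) (x57t : α 57 = true) (x236t : α 236 = true) (x54t : α 54 = true) (x249t : α 249 = true) : False :=
  have x61f : α 61 = false := ff fun y => l3870 h y x54t
  have x197f : α 197 = false := ff fun y => l3796 h y x54t
  have x1f : α 1 = false := ff fun y => c68 h x200t x57t y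
  have x201t : α 201 = true := tt fun y => c79 h x1f x58f y
  have x351f : α 351 = false := ff fun y => c1444 h x249t x57t y x201t
  have x242f : α 242 = false := ff fun y => c2904 h x200t x236t x201t y
  c1577 h x197f x61f x351f x242f

theorem l3990 (h : Good α) (x20t : α 20 = true) (x334f : α 334 = false) (x179f : α 179 = false) (x57t : α 57 = true) (x94f : α 94 = false) (x183t : α 183 = true) (x59t : α 59 = true) (x52f : α 52 = false) (x273f : α 273 = false) : False :=
  have x188f : α 188 = false := ff fun y => c534 h y x57t x20t
  have x257t : α 257 = true := tt fun y => l3540 h x20t y x179f x59t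
  have x106t : α 106 = true := tt fun y => c2100 h x188f x94f y
  l3552 h x257t x273f x334f x106t x183t x52f

theorem l3991 (h : Good α) (x260f : α 260 = false) (x336t : α 336 = true) (x452f : α 452 = false) (x272t : α 272 = true) (x113f : α 113 = false) (x36t : α 36 = true) (x191f : α 191 = false) (x63f : α 63 = false) (x28t : α 28 = true) (x97t : α 97 = true) : False :=
  have x459f : α 459 = false := ff fun y => l3732 h x272t y
  have x264t : α 264 = true := tt fun y => l3691 h x113f y
  have x340f : α 340 = false := ff fun y => l3636 h x28t y
  have x10f : α 10 = false := ff fun y => l3618 h y x28t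
  have x278t : α 278 = true := tt fun y => c3161 h y x260f x340f
  have x181t : α 181 = true := tt fun y => c2727 h x191f y x260f
  have x167t : α 167 = true := tt fun y => c1609 h x63f y x191f x260f
  have x87f : α 87 = false := ff fun y => c1919 h x336t x181t y
  have x175f : α 175 = false := ff fun y => l3714 h x167t y
  have x25t : α 25 = true := tt fun y => c781 h y x87f x260f
  have x488t : α 488 = true := tt fun y => c1923 h x87f x260f y
  have x286t : α 286 = true := tt fun y => c2707 h x459f y x175f
  have x31f : α 31 = false := ff fun y => c767 h y x25t x97t
  have x550f : α 550 = false := ff fun y => c787 h x25t x97t x488t y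
  have x40f : α 40 = false := ff fun y => c839 h x286t y x272t x28t
  have x39t : α 39 = true := tt fun y => l3575 h y x550f x31f x278t x113f
  have x482t : α 482 = true := tt fun y => c186 h x452f y x10f x40f
  have x101f : α 101 = false := ff fun y => c1079 h x264t y x39t
  have x256f : α 256 = false := ff fun y => c1044 h x286t x482t x36t y
  l3680 h x101f x256f

theorem l3992 (h : Good α) (x106t : α 106 = true) (x378t : α 378 = true) (x452f : α 452 = false) (x334f : α 334 = false) (x242t : α 242 = true) (x202f : α 202 = false) (x201t : α 201 = true) (x272t : α 272 = true) (x113f : α 113 = false) (x114f : α 114 = false) (x63f : α 63 = false) (x117t : α 117 = true) (x94f : α 94 = false) (x28t : α 28 = true) (x97t : α 97 = true) (x91f : α 91 = false) (x54t : α 54 = true) (x273f : α 273 = false) : False :=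
  have x24t : α 24 = true := tt fun y => l3532 h y x63f x54t
  have x191f : α 191 = false := ff fun y => c737 h x24t x54t y
  have x115t : α 115 = true := tt fun y => c1998 h x191f x91f y
  have x18f : α 18 = false := ff fun y => c409 h x24t y x115t
  have x36t : α 36 = true := tt fun y => c419 h y x18f x114f x91f
  have x340f : α 340 = false := ff fun y => l3636 h x28t y
  have x267t : α 267 = true := tt fun y => c443 h x18f y x91f x340f
  have x259t : α 259 = true := tt fun y => c441 h x18f x91f y
  have x120f : α 120 = false := ff fun y => l3630 h x24t y x54t
  have x108f : α 108 = false := ff fun y => l3629 h x24t y x54t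
  have x183t : α 183 = true := tt fun y => c2006 h x91f y x340f
  have x52f : α 52 = false := ff fun y => l3640 h x54t y
  have x257f : α 257 = false := ff fun y => l3552 h y x273f x334f x106t x183t x52f
  have x336t : α 336 = true := tt fun y => c2009 h x191f x91f y x257f
  have x260t : α 260 = true := tt fun y => l3991 h y x336t x452f x272t x113f x36t x191f x63f x28t x97t
  have x275f : α 275 = false := ff fun y => l3715 h x260t y
  have x314f : α 314 = false := ff fun y => l3565 h x275f x28t y x340f x272t x114f x54t
  have x22t : α 22 = true := tt fun y => l3545 h x275f x378t y x267t x28t x272t x242t x36t x259t x191f x120f x108f x63f x114f x94f x201t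
  have x157t : α 157 = true := tt fun y => c2653 h y x202f x314f
  have x451f : α 451 = false := ff fun y => c663 h x106t x22t y x378t
  have x146f : α 146 = false := ff fun y => c2275 h x106t x117t y x157t
  c2553 h x146f x257f x451f

theorem l3993 (h : Good α) (x106f : α 106 = false) (x80t : α 80 = true) (x20f : α 20 = false) (x387f : α 387 = false) (x179f : α 179 = false) (x183t : α 183 = true) : False :=
  have x451t : α 451 = true := tt fun y => c566 h x106f x20f y x387f
  have x146t : α 146 = true := tt fun y => c2280 h x179f x106f y
  have x71t : α 71 = true := tt fun y => c545 h x179f y x106f x20f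
  have x257f : α 257 = false := ff fun y => c2554 h x146t y x451t
  have x189f : α 189 = false := ff fun y => c1704 h x80t x71t x183t y
  c564 h x106f x20f x257f x189f

theorem l3994 (h : Good α) (x379f : α 379 = false) (x452f : α 452 = false) (x20f : α 20 = false) (x334f : α 334 = false) (x179f : α 179 = false) (x242t : α 242 = true) (x202f : α 202 = false) (x201t : α 201 = true) (x53t : α 53 = true) (x272t : α 272 = true) (x113f : α 113 = false) (x114f : α 114 = false) (x63f : α 63 = false) (x200f : α 200 = false) (x117t : α 117 = true) (x94f : α 94 = false) (x28t : α 28 = true) (x97t : α 97 = true) (x91f : α 91 = false) (x54t : α 54 = true) (x273f : α 273 = false) (x346f : α 346 = false) : False :=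
  have x180t : α 180 = true := tt fun y => l3690 h x113f y
  have x387f : α 387 = false := ff fun y => c2718 h x180t x242t y
  have x459f : α 459 = false := ff fun y => l3732 h x272t y
  have x24t : α 24 = true := tt fun y => l3532 h y x63f x54t
  have x191f : α 191 = false := ff fun y => c737 h x24t x54t y
  have x115t : α 115 = true := tt fun y => c1998 h x191f x91f y
  have x18f : α 18 = false := ff fun y => c409 h x24t y x115t
  have x36t : α 36 = true := tt fun y => c419 h y x18f x114f x91f
  have x259t : α 259 = true := tt fun y => c441 h x18f x91f y
  have x340f : α 340 = false := ff fun y => l3636 h x28t y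
  have x183t : α 183 = true := tt fun y => c2006 h x91f y x340f
  have x52f : α 52 = false := ff fun y => l3640 h x54t y
  have x23t : α 23 = true := tt fun y => c715 h x459f x379f x114f y
  have x80t : α 80 = true := tt fun y => c1825 h x379f x200f y
  have x81f : α 81 = false := ff fun y => c685 h x53t x23t y
  have x106t : α 106 = true := tt fun y => l3993 h y x80t x20f x387f x179f x183t
  have x257f : α 257 = false := ff fun y => l3552 h y x273f x334f x106t x183t x52f
  have x378f : α 378 = false := ff fun y => l3992 h x106t y x452f x334f x242t x202f x201t x272t x113f x114f x63f x117t x94f x28t x97t x91f x54t x273f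
  have x336t : α 336 = true := tt fun y => c2009 h x191f x91f y x257f
  have x260t : α 260 = true := tt fun y => l3991 h y x336t x452f x272t x113f x36t x191f x63f x28t x97t
  have x275f : α 275 = false := ff fun y => l3715 h x260t y
  have x285t : α 285 = true := tt fun y => c3226 h x346f x275f y
  have x485t : α 485 = true := tt fun y => c3229 h y x346f x275f
  have x181t : α 181 = true := tt fun y => c2729 h x275f x191f y
  have x339f : α 339 = false := ff fun y => c3154 h x285t x259t y
  have x17f : α 17 = false := ff fun y => c368 h y x23t x181t x183t
  have x32t : α 32 = true := tt fun y => c952 h y x81f x339f x378f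
  have x96t : α 96 = true := tt fun y => c398 h x346f y x275f x17f
  have x266f : α 266 = false := ff fun y => c958 h x485t y x285t x32t
  have x248f : α 248 = false := ff fun y => c1277 h y x96t x53t
  c3096 h x379f x266f x248f

theorem l3995 (h : Good α) (x260t : α 260 = true) (x23f : α 23 = false) (x242t : α 242 = true) (x201t : α 201 = true) (x113f : α 113 = false) (x36t : α 36 = true) (x114f : α 114 = false) (x267t : α 267 = true) (x30t : α 30 = true) (x259t : α 259 = true) (x191f : α 191 = false) (x63f : α 63 = false) (x184f : α 184 = false) (x28t : α 28 = true) (x92f : α 92 = false) (x346f : α 346 = false) : False :=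
  have x264t : α 264 = true := tt fun y => l3691 h x113f y
  have x340f : α 340 = false := ff fun y => l3636 h x28t y
  have x454f : α 454 = false := ff fun y => l3721 h x260t y
  have x275f : α 275 = false := ff fun y => l3715 h x260t y
  have x285t : α 285 = true := tt fun y => c3226 h x346f x275f y
  have x46t : α 46 = true := tt fun y => c1137 h x275f x114f y
  have x175t : α 175 = true := tt fun y => c1613 h y x63f x275f x191f
  have x41f : α 41 = false := ff fun y => c910 h y x30t x285t x259t
  have x478f : α 478 = false := ff fun y => c1045 h x36t x267t x285t y
  have x167f : α 167 = false := ff fun y => l3714 h y x175t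
  have x282t : α 282 = true := tt fun y => c1110 h x41f y x114f x340f
  have x576t : α 576 = true := tt fun y => c3384 h x454f x478f y
  have x512t : α 512 = true := tt fun y => c3382 h y x454f x478f
  have x381t : α 381 = true := tt fun y => c1611 h x63f x167f y x454f
  have x476f : α 476 = false := ff fun y => c878 h x264t y x28t x282t
  have x125f : α 125 = false := ff fun y => c2487 h y x242t x512t x576t
  have x551f : α 551 = false := ff fun y => c3159 h y x381t x259t
  have x256t : α 256 = true := tt fun y => c2372 h x476f y x113f
  have x316t : α 316 = true := tt fun y => c2488 h x551f y x125f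
  have x218t : α 218 = true := tt fun y => c2063 h x184f x92f y x125f
  have x284f : α 284 = false := ff fun y => c1021 h x36t x256t x46t y
  have x81f : α 81 = false := ff fun y => c1842 h x218t y x316t x201t
  have x483t : α 483 = true := tt fun y => c2376 h x113f x284f x340f y
  have x158t : α 158 = true := tt fun y => c700 h x114f x23f y x81f
  c1144 h x46t x483t x158t x576t

theorem l3996 (h : Good α) (x336f : α 336 = false) (x19t : α 19 = true) (x191f : α 191 = false) (x237t : α 237 = true) (x340f : α 340 = false) (x91f : α 91 = false) : False :=
  have x257t : α 257 = true := tt fun y => c2009 h x191f x91f x336f y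
  have x86t : α 86 = true := tt fun y => c1904 h y x191f x336f
  have x549t : α 549 = true := tt fun y => c2847 h x191f x336f y
  have x380f : α 380 = false := ff fun y => c3037 h x237t x257t y
  have x487f : α 487 = false := ff fun y => c491 h x86t x19t x549t y
  c3286 h x487f x380f x340f

theorem l3997 (h : Good α) (x452f : α 452 = false) (x334f : α 334 = false) (x179f : α 179 = false) (x242t : α 242 = true) (x202f : α 202 = false) (x201t : α 201 = true) (x53t : α 53 = true) (x336t : α 336 = true) (x19t : α 19 = true) (x272t : α 272 = true) (x113f : α 113 = false) (x114f : α 114 = false) (x63f : α 63 = false) (x200f : α 200 = false) (x184f : α 184 = false) (x94f : α 94 = false) (x28t : α 28 = true) (x92f : α 92 = false) (x91f : α 91 = false) (x54t : α 54 = true) (x273f : α 273 = false) (x346f : α 346 = false) : False :=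
  have x52f : α 52 = false := ff fun y => l3640 h x54t y
  have x61f : α 61 = false := ff fun y => l3870 h y x54t
  have x59t : α 59 = true := tt fun y => l3669 h y x61f
  have x340f : α 340 = false := ff fun y => l3636 h x28t y
  have x183t : α 183 = true := tt fun y => c2006 h x91f y x340f
  have x57t : α 57 = true := tt fun y => c1409 h x94f y x92f
  have x20f : α 20 = false := ff fun y => l3990 h y x334f x179f x57t x94f x183t x59t x52f x273f
  have x236t : α 236 = true := tt fun y => c1548 h y x92f x61f
  have x56f : α 56 = false := ff fun y => l3649 h x53t y
  have x386t : α 386 = true := tt fun y => l3501 h y x236t x200f x56f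
  have x24t : α 24 = true := tt fun y => l3532 h y x63f x54t
  have x191f : α 191 = false := ff fun y => c737 h x24t x54t y
  have x115t : α 115 = true := tt fun y => c1998 h x191f x91f y
  have x18f : α 18 = false := ff fun y => c409 h x24t y x115t
  have x36t : α 36 = true := tt fun y => c419 h y x18f x114f x91f
  have x267t : α 267 = true := tt fun y => c443 h x18f y x91f x340f
  have x30t : α 30 = true := tt fun y => c413 h y x18f x91f
  have x259t : α 259 = true := tt fun y => c441 h x18f x91f y
  have x117t : α 117 = true := tt fun y => c2056 h x184f x92f y
  have x97t : α 97 = true := tt fun y => c1544 h x92f x61f y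
  have x379t : α 379 = true := tt fun y => l3994 h y x452f x20f x334f x179f x242t x202f x201t x53t x272t x113f x114f x63f x200f x117t x94f x28t x97t x91f x54t x273f x346f
  have x260t : α 260 = true := tt fun y => l3991 h y x336t x452f x272t x113f x36t x191f x63f x28t x97t
  have x23f : α 23 = false := ff fun y => c463 h x386t x379t x19t y
  l3995 h x260t x23f x242t x201t x113f x36t x114f x267t x30t x259t x191f x63f x184f x28t x92f x346f

theorem l3998 (h : Good α) (x1f : α 1 = false) (x336t : α 336 = true) (x19t : α 19 = true) (x272t : α 272 = true) (x113f : α 113 = false) (x114f : α 114 = false) (x58f : α 58 = false) (x184f : α 184 = false) (x94f : α 94 = false) (x28t : α 28 = true) (x92f : α 92 = false) (x273f : α 273 = false) (x249t : α 249 = true) : False :=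
  have x459f : α 459 = false := ff fun y => l3732 h x272t y
  have x264t : α 264 = true := tt fun y => l3691 h x113f y
  have x180t : α 180 = true := tt fun y => l3690 h x113f y
  have x54t : α 54 = true := tt fun y => l3977 h y x273f x249t
  have x91f : α 91 = false := ff fun y => l3988 h y x273f x249t
  have x57t : α 57 = true := tt fun y => c1409 h x94f y x92f
  have x61f : α 61 = false := ff fun y => l3870 h y x54t
  have x236t : α 236 = true := tt fun y => c1548 h y x92f x61f
  have x200f : α 200 = false := ff fun y => l3989 h y x58f x57t x236t x54t x249t
  have x239t : α 239 = true := tt fun y => l3872 h x91f x200f y x92f x57t x249t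
  have x63f : α 63 = false := ff fun y => l3536 h y x239t x94f x54t
  have x97t : α 97 = true := tt fun y => c1544 h x92f x61f y
  have x325t : α 325 = true := tt fun y => l3677 h x61f y
  have x197f : α 197 = false := ff fun y => l3796 h y x54t
  have x52f : α 52 = false := ff fun y => l3640 h x54t y
  have x346f : α 346 = false := ff fun y => l3935 h y x249t
  have x204t : α 204 = true := tt fun y => c101 h x1f x61f y
  have x53t : α 53 = true := tt fun y => c20 h y x1f x52f
  have x195t : α 195 = true := tt fun y => c25 h x1f x52f y
  have x201t : α 201 = true := tt fun y => c79 h x1f x58f y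
  have x352f : α 352 = false := ff fun y => c1349 h x239t y x54t x204t
  have x56f : α 56 = false := ff fun y => l3649 h x53t y
  have x202f : α 202 = false := ff fun y => l3717 h x195t y
  have x351f : α 351 = false := ff fun y => c1444 h x249t x57t y x201t
  have x250t : α 250 = true := tt fun y => c1488 h x200f x352f x58f y
  have x386t : α 386 = true := tt fun y => l3501 h y x236t x200f x56f
  have x242t : α 242 = true := tt fun y => c1577 h x197f x61f x351f y
  have x450f : α 450 = false := ff fun y => c2200 h x97t x250t y
  have x179f : α 179 = false := ff fun y => c2715 h x386t x239t y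
  have x409t : α 409 = true := tt fun y => c85 h x1f y x58f x450f
  have x335f : α 335 = false := ff fun y => c3261 h x325t y x409t
  have x542t : α 542 = true := tt fun y => l3712 h x335f y
  have x334f : α 334 = false := ff fun y => c3271 h x542t x409t y
  have x452t : α 452 = true := tt fun y => l3997 h y x334f x179f x242t x202f x201t x53t x336t x19t x272t x113f x114f x63f x200f x184f x94f x28t x92f x91f x54t x273f x346f
  have x188f : α 188 = false := ff fun y => c2812 h x386t x452t y x264t
  have x379f : α 379 = false := ff fun y => c3328 h x386t y x452t
  have x70f : α 70 = false := ff fun y => c1692 h x386t x452t y x180t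
  have x23t : α 23 = true := tt fun y => c715 h x459f x379f x114f y
  have x81t : α 81 = true := tt fun y => c1681 h x188f x184f x70f y
  c685 h x53t x23t x81t

theorem l3999 (h : Good α) (x1t : α 1 = true) (x239t : α 239 = true) (x200f : α 200 = false) (x237t : α 237 = true) (x94f : α 94 = false) (x92f : α 92 = false) (x91f : α 91 = false) (x54t : α 54 = true) : False :=
  have x57t : α 57 = true := tt fun y => c1409 h x94f y x92f
  have x61f : α 61 = false := ff fun y => l3870 h y x54t
  have x97t : α 97 = true := tt fun y => c1544 h x92f x61f y
  have x59t : α 59 = true := tt fun y => l3669 h y x61f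
  have x543f : α 543 = false := ff fun y => l3582 h y x1t x61f
  have x56f : α 56 = false := ff fun y => c57 h y x1t x59t
  have x53t : α 53 = true := tt fun y => l3648 h y x56f
  have x196f : α 196 = false := ff fun y => c32 h y x53t x1t
  have x204t : α 204 = true := tt fun y => l3702 h x196f y
  have x238f : α 238 = false := ff fun y => c70 h x57t y x1t x204t
  have x352f : α 352 = false := ff fun y => c1349 h x239t y x54t x204t
  have x250t : α 250 = true := tt fun y => c1982 h x94f x238f x91f y
  have x354f : α 354 = false := ff fun y => c2941 h x204t x250t y
  have x242t : α 242 = true := tt fun y => c2077 h x92f x238f y x354f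
  have x201t : α 201 = true := tt fun y => c2907 h x200f x352f y x354f
  have x233f : α 233 = false := ff fun y => c2920 h y x201t x242t
  have x351f : α 351 = false := ff fun y => c2191 h x237t x97t y x242t
  c3000 h x543f x351f x233f

theorem l4000 (h : Good α) (x272f : α 272 = false) (x114f : α 114 = false) (x386t : α 386 = true) (x19t : α 19 = true) (x239t : α 239 = true) (x200f : α 200 = false) (x184f : α 184 = false) : False :=
  have x23t : α 23 = true := tt fun y => c714 h x272f x184f x114f y
  have x379f : α 379 = false := ff fun y => c463 h x386t y x19t x23t
  have x459t : α 459 = true := tt fun y => c2771 h y x379f x272f x184f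
  have x80t : α 80 = true := tt fun y => c1825 h x379f x200f y
  c1830 h x459t x239t x80t

theorem l4001 (h : Good α) (x114f : α 114 = false) (x237t : α 237 = true) (x184f : α 184 = false) (x94f : α 94 = false) (x28t : α 28 = true) (x92f : α 92 = false) (x273f : α 273 = false) (x249t : α 249 = true) : False :=
  have x54t : α 54 = true := tt fun y => l3977 h y x273f x249t
  have x61f : α 61 = false := ff fun y => l3870 h y x54t
  have x97t : α 97 = true := tt fun y => c1544 h x92f x61f y
  have x57t : α 57 = true := tt fun y => c1409 h x94f y x92f
  have x58f : α 58 = false := ff fun y => c1402 h x249t x57t x237t y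
  have x52f : α 52 = false := ff fun y => l3640 h x54t y
  have x91f : α 91 = false := ff fun y => l3988 h y x273f x249t
  have x236t : α 236 = true := tt fun y => c1548 h y x92f x61f
  have x200f : α 200 = false := ff fun y => l3989 h y x58f x57t x236t x54t x249t
  have x239t : α 239 = true := tt fun y => l3872 h x91f x200f y x92f x57t x249t
  have x1f : α 1 = false := ff fun y => l3999 h y x239t x200f x237t x94f x92f x91f x54t
  have x53t : α 53 = true := tt fun y => c20 h y x1f x52f
  have x56f : α 56 = false := ff fun y => l3649 h x53t y
  have x204t : α 204 = true := tt fun y => c101 h x1f x61f y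
  have x352f : α 352 = false := ff fun y => c1349 h x239t y x54t x204t
  have x250t : α 250 = true := tt fun y => c1488 h x200f x352f x58f y
  have x113f : α 113 = false := ff fun y => l3533 h y x97t x250t x58f x56f
  have x340f : α 340 = false := ff fun y => l3636 h x28t y
  have x63f : α 63 = false := ff fun y => l3536 h y x239t x94f x54t
  have x24t : α 24 = true := tt fun y => l3532 h y x63f x54t
  have x191f : α 191 = false := ff fun y => c737 h x24t x54t y
  have x19t : α 19 = true := tt fun y => l3578 h y x97t x58f x56f
  have x336t : α 336 = true := tt fun y => l3996 h y x19t x191f x237t x340f x91f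
  have x386t : α 386 = true := tt fun y => l3501 h y x236t x200f x56f
  have x272t : α 272 = true := tt fun y => l4000 h y x114f x386t x19t x239t x200f x184f
  l3998 h x1f x336t x19t x272t x113f x114f x58f x184f x94f x28t x92f x273f x249t

theorem l4002 (h : Good α) (x237t : α 237 = true) (x184f : α 184 = false) (x94f : α 94 = false) (x28t : α 28 = true) (x92f : α 92 = false) (x273f : α 273 = false) (x249t : α 249 = true) : False :=
  have x57t : α 57 = true := tt fun y => c1409 h x94f y x92f
  have x54t : α 54 = true := tt fun y => l3977 h y x273f x249t
  have x61f : α 61 = false := ff fun y => l3870 h y x54t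
  have x236t : α 236 = true := tt fun y => c1548 h y x92f x61f
  have x91f : α 91 = false := ff fun y => l3988 h y x273f x249t
  have x197f : α 197 = false := ff fun y => l3796 h y x54t
  have x58f : α 58 = false := ff fun y => c1402 h x249t x57t x237t y
  have x200f : α 200 = false := ff fun y => l3989 h y x58f x57t x236t x54t x249t
  have x239t : α 239 = true := tt fun y => l3872 h x91f x200f y x92f x57t x249t
  have x1f : α 1 = false := ff fun y => l3999 h y x239t x200f x237t x94f x92f x91f x54t
  have x201t : α 201 = true := tt fun y => c79 h x1f x58f y
  have x233f : α 233 = false := ff fun y => l3743 h x201t y x57t x61f x197f x249t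
  have x114t : α 114 = true := tt fun y => l4001 h y x237t x184f x94f x28t x92f x273f x249t
  l3535 h x114t x94f x233f x57t x201t

theorem l4003 (h : Good α) (x237f : α 237 = false) (x57t : α 57 = true) (x92f : α 92 = false) (x273f : α 273 = false) (x249t : α 249 = true) : False :=
  have x91f : α 91 = false := ff fun y => l3988 h y x273f x249t
  have x54t : α 54 = true := tt fun y => l3977 h y x273f x249t
  have x61f : α 61 = false := ff fun y => l3870 h y x54t
  have x58t : α 58 = true := tt fun y => c1461 h x237f x91f y
  have x443t : α 443 = true := tt fun y => c2024 h y x237f x91f
  have x449t : α 449 = true := tt fun y => l3854 h x61f x92f y x58t x249t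
  c1406 h x449t x57t x443t x58t

theorem l4004 (h : Good α) (x94f : α 94 = false) (x28t : α 28 = true) (x92f : α 92 = false) (x273f : α 273 = false) (x249t : α 249 = true) : False :=
  have x54t : α 54 = true := tt fun y => l3977 h y x273f x249t
  have x61f : α 61 = false := ff fun y => l3870 h y x54t
  have x236t : α 236 = true := tt fun y => c1548 h y x92f x61f
  have x91f : α 91 = false := ff fun y => l3988 h y x273f x249t
  have x52f : α 52 = false := ff fun y => l3640 h x54t y
  have x57t : α 57 = true := tt fun y => c1409 h x94f y x92f
  have x237t : α 237 = true := tt fun y => l4003 h y x57t x92f x273f x249t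
  have x58f : α 58 = false := ff fun y => c1402 h x249t x57t x237t y
  have x184t : α 184 = true := tt fun y => l4002 h x237t y x94f x28t x92f x273f x249t
  have x200f : α 200 = false := ff fun y => l3989 h y x58f x57t x236t x54t x249t
  have x22f : α 22 = false := ff fun y => c647 h x184t x57t y
  have x239t : α 239 = true := tt fun y => l3872 h x91f x200f y x92f x57t x249t
  have x272t : α 272 = true := tt fun y => c656 h y x94f x22f
  have x1f : α 1 = false := ff fun y => l3999 h y x239t x200f x237t x94f x92f x91f x54t
  have x53f : α 53 = false := ff fun y => l3655 h x184t x272t y
  c20 h x53f x1f x52f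

theorem l4005 (h : Good α) (x94t : α 94 = true) (x92f : α 92 = false) (x54t : α 54 = true) (x249t : α 249 = true) : False :=
  have x61f : α 61 = false := ff fun y => l3870 h y x54t
  have x59t : α 59 = true := tt fun y => l3669 h y x61f
  have x57f : α 57 = false := ff fun y => c1423 h x249t x94t y
  have x238t : α 238 = true := tt fun y => c1415 h x57f x92f y
  have x1t : α 1 = true := tt fun y => c63 h x57f x92f y x61f
  have x204f : α 204 = false := ff fun y => c1321 h x94t x238t x54t y
  have x202f : α 202 = false := ff fun y => c90 h x1t x59t y
  have x334t : α 334 = true := tt fun y => l3705 h x204f y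
  have x157t : α 157 = true := tt fun y => c2651 h x204f y x202f
  c1519 h x59t x157t x334t

theorem l4006 (h : Good α) (x92f : α 92 = false) (x273f : α 273 = false) (x249t : α 249 = true) : False :=
  have x54t : α 54 = true := tt fun y => l3977 h y x273f x249t
  have x94f : α 94 = false := ff fun y => l4005 h y x92f x54t x249t
  have x57t : α 57 = true := tt fun y => c1409 h x94f y x92f
  have x28f : α 28 = false := ff fun y => l4004 h x94f y x92f x273f x249t
  have x22t : α 22 = true := tt fun y => c620 h x94f y x28f
  have x117f : α 117 = false := ff fun y => l3987 h x28f y x92f x94f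
  have x184f : α 184 = false := ff fun y => c647 h y x57t x22t
  c2056 h x184f x92f x117f

theorem l4007 (h : Good α) (x58f : α 58 = false) (x273f : α 273 = false) (x249t : α 249 = true) : False :=
  have x92t : α 92 = true := tt fun y => l4006 h y x273f x249t
  have x91f : α 91 = false := ff fun y => l3988 h y x273f x249t
  have x97t : α 97 = true := tt fun y => c1456 h x91f x58f y
  have x237t : α 237 = true := tt fun y => c1461 h y x91f x58f
  c2047 h x249t x92t x237t x97t

theorem l4008 (h : Good α) (x237t : α 237 = true) (x94f : α 94 = false) (x273f : α 273 = false) (x249t : α 249 = true) : False :=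
  have x92t : α 92 = true := tt fun y => l4006 h y x273f x249t
  have x54t : α 54 = true := tt fun y => l3977 h y x273f x249t
  have x197f : α 197 = false := ff fun y => l3796 h y x54t
  have x58t : α 58 = true := tt fun y => l4007 h y x273f x249t
  have x61f : α 61 = false := ff fun y => l3870 h y x54t
  have x57f : α 57 = false := ff fun y => l3811 h y x61f x92t x58t x249t
  have x200t : α 200 = true := tt fun y => l3884 h y x54t x92t x57f x249t
  have x201f : α 201 = false := ff fun y => l3902 h y x58t x200t x61f x197f x92t x249t
  have x97f : α 97 = false := ff fun y => c2047 h x249t x92t x237t y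
  have x353f : α 353 = false := ff fun y => c1487 h y x200t x237t x58t
  have x242t : α 242 = true := tt fun y => c1556 h x61f x97f y
  have x23t : α 23 = true := tt fun y => c706 h y x97f x273f
  have x236t : α 236 = true := tt fun y => c1575 h x353f y x197f x61f
  have x113t : α 113 = true := tt fun y => l3846 h y x242t x201f x57f x92t
  have x239f : α 239 = false := ff fun y => c2910 h y x200t x236t
  have x352f : α 352 = false := ff fun y => c2912 h x200t x236t y
  have x307f : α 307 = false := ff fun y => c712 h x23t x113t y
  have x204t : α 204 = true := tt fun y => c2883 h x353f x352f x197f y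
  have x238t : α 238 = true := tt fun y => c2125 h x239f x352f x94f y
  have x250t : α 250 = true := tt fun y => c3109 h x307f y x273f
  c2937 h x238t x204t x250t

theorem l4009 (h : Good α) (x94f : α 94 = false) (x273f : α 273 = false) (x249t : α 249 = true) : False :=
  have x92t : α 92 = true := tt fun y => l4006 h y x273f x249t
  have x54t : α 54 = true := tt fun y => l3977 h y x273f x249t
  have x61f : α 61 = false := ff fun y => l3870 h y x54t
  have x58t : α 58 = true := tt fun y => l4007 h y x273f x249t
  have x57f : α 57 = false := ff fun y => l3811 h y x61f x92t x58t x249t
  have x200t : α 200 = true := tt fun y => l3884 h y x54t x92t x57f x249t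
  have x91f : α 91 = false := ff fun y => l3988 h y x273f x249t
  have x197f : α 197 = false := ff fun y => l3796 h y x54t
  have x346f : α 346 = false := ff fun y => l3935 h y x249t
  have x237f : α 237 = false := ff fun y => l4008 h y x94f x273f x249t
  have x97t : α 97 = true := tt fun y => c1553 h x197f x61f x237f y
  have x114t : α 114 = true := tt fun y => l3588 h y x237f x58t x91f
  have x236f : α 236 = false := ff fun y => c1466 h x200t y x58t x97t
  have x272f : α 272 = false := ff fun y => l3695 h x114t y
  have x353t : α 353 = true := tt fun y => c1575 h y x236f x197f x61f
  have x477t : α 477 = true := tt fun y => c3214 h x272f x346f y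
  have x286t : α 286 = true := tt fun y => c3211 h y x272f x346f
  have x187t : α 187 = true := tt fun y => c2112 h x272f x94f x346f y
  have x239f : α 239 = false := ff fun y => c2914 h x353t y x200t
  have x393f : α 393 = false := ff fun y => c1335 h y x187t x54t
  have x18f : α 18 = false := ff fun y => c431 h x187t x54t y
  have x271t : α 271 = true := tt fun y => c3061 h x239f y x393f
  have x107t : α 107 = true := tt fun y => l3440 h y x18f x239f x54t
  have x191f : α 191 = false := ff fun y => c2796 h x271t x187t y
  have x338f : α 338 = false := ff fun y => c2307 h x286t x107t x477t y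
  c2010 h x338f x191f x91f

theorem l4010 (h : Good α) (x191f : α 191 = false) (x275f : α 275 = false) (x102t : α 102 = true) (x28f : α 28 = false) (x94t : α 94 = true) (x91f : α 91 = false) : False :=
  have x338t : α 338 = true := tt fun y => c2010 h y x191f x91f
  have x187f : α 187 = false := ff fun y => c2114 h x94t y x338t
  have x271t : α 271 = true := tt fun y => c2795 h y x187f x191f
  have x24f : α 24 = false := ff fun y => c748 h x271t x94t y
  have x120t : α 120 = true := tt fun y => c757 h y x24f x275f x191f
  have x108f : α 108 = false := ff fun y => l3685 h y x120t
  have x44t : α 44 = true := tt fun y => c843 h y x28f x108f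
  have x260t : α 260 = true := tt fun y => c752 h x24f x108f x191f y
  c1128 h x44t x102t x260t

theorem l4011 (h : Good α) (x459f : α 459 = false) (x70t : α 70 = true) (x379f : α 379 = false) (x113t : α 113 = true) (x335f : α 335 = false) (x307t : α 307 = true) (x272f : α 272 = false) (x158f : α 158 = false) : False :=
  have x53t : α 53 = true := tt fun y => l3653 h y x335f
  have x56f : α 56 = false := ff fun y => l3649 h x53t y
  have x386t : α 386 = true := tt fun y => c3329 h x459f y x379f
  have x188f : α 188 = false := ff fun y => l3594 h x459f x70t y x379f x272f x158f
  have x19f : α 19 = false := ff fun y => l3558 h x113t x307t x335f y x386t x56f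
  c476 h x188f x56f x19f

theorem l4012 (h : Good α) (x237f : α 237 = false) (x28f : α 28 = false) (x273f : α 273 = false) (x249t : α 249 = true) : False :=
  have x54t : α 54 = true := tt fun y => l3977 h y x273f x249t
  have x94t : α 94 = true := tt fun y => l4009 h y x273f x249t
  have x239f : α 239 = false := ff fun y => c1323 h y x94t x54t
  have x92t : α 92 = true := tt fun y => l4006 h y x273f x249t
  have x197f : α 197 = false := ff fun y => l3796 h y x54t
  have x58t : α 58 = true := tt fun y => l4007 h y x273f x249t
  have x61f : α 61 = false := ff fun y => l3870 h y x54t
  have x57f : α 57 = false := ff fun y => l3811 h y x61f x92t x58t x249t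
  have x200t : α 200 = true := tt fun y => l3884 h y x54t x92t x57f x249t
  have x201f : α 201 = false := ff fun y => l3902 h y x58t x200t x61f x197f x92t x249t
  have x91f : α 91 = false := ff fun y => l3988 h y x273f x249t
  have x59t : α 59 = true := tt fun y => l3669 h y x61f
  have x346f : α 346 = false := ff fun y => l3935 h y x249t
  have x97t : α 97 = true := tt fun y => c1553 h x197f x61f x237f y
  have x114t : α 114 = true := tt fun y => l3588 h y x237f x58t x91f
  have x351t : α 351 = true := tt fun y => c2887 h x197f x237f y
  have x250f : α 250 = false := ff fun y => c1469 h x58t x97t y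
  have x236f : α 236 = false := ff fun y => c1466 h x200t y x58t x97t
  have x158f : α 158 = false := ff fun y => l3694 h x114t y
  have x272f : α 272 = false := ff fun y => l3695 h x114t y
  have x233f : α 233 = false := ff fun y => c2122 h x249t x94t x351t y
  have x399t : α 399 = true := tt fun y => c3111 h x250f x273f y
  have x307t : α 307 = true := tt fun y => c3109 h y x250f x273f
  have x204t : α 204 = true := tt fun y => c2877 h x197f y x237f x250f
  have x10t : α 10 = true := tt fun y => l3860 h y x239f x236f x200t
  have x477t : α 477 = true := tt fun y => c3214 h x272f x346f y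
  have x102t : α 102 = true := tt fun y => c864 h x272f x28f x346f y
  have x354t : α 354 = true := tt fun y => c2014 h x91f x250f x233f y
  have x242t : α 242 = true := tt fun y => c2990 h x239f x236f x233f y
  have x189f : α 189 = false := ff fun y => c1485 h x58t y x399t
  have x335f : α 335 = false := ff fun y => l3697 h y x307t x114t
  have x238f : α 238 = false := ff fun y => c1321 h x94t y x54t x204t
  have x275f : α 275 = false := ff fun y => c2396 h x477t y x114t
  have x14f : α 14 = false := ff fun y => l3620 h x102t y x59t
  have x548f : α 548 = false := ff fun y => c3083 h x242t x354t y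
  have x113t : α 113 = true := tt fun y => l3846 h y x242t x201f x57f x92t
  have x430t : α 430 = true := tt fun y => c2824 h x189f x273f y
  have x53t : α 53 = true := tt fun y => l3653 h y x335f
  have x285t : α 285 = true := tt fun y => c3226 h x346f x275f y
  have x485t : α 485 = true := tt fun y => c3229 h y x346f x275f
  have x450t : α 450 = true := tt fun y => c2019 h x91f y x233f x548f
  have x56f : α 56 = false := ff fun y => l3649 h x53t y
  have x379f : α 379 = false := ff fun y => l3463 h y x200t x239f x53t
  have x180f : α 180 = false := ff fun y => l3461 h y x238f x94t x242t x91f x57f x201f x58t x53t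
  have x506f : α 506 = false := ff fun y => c3375 h x450t x430t y
  have x70t : α 70 = true := tt fun y => l3662 h y x180f x56f
  have x191t : α 191 = true := tt fun y => l4010 h y x275f x102t x28f x94t x91f
  have x381f : α 381 = false := ff fun y => c1339 h x54t x191t y
  have x259t : α 259 = true := tt fun y => c2997 h x381f y x233f
  have x187f : α 187 = false := ff fun y => c2794 h y x191t x259t
  have x90t : α 90 = true := tt fun y => c1972 h x346f x187f y
  have x214f : α 214 = false := ff fun y => c1961 h x90t x102t y
  have x459t : α 459 = true := tt fun y => l4011 h y x70t x379f x113t x335f x307t x272f x158f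
  have x340f : α 340 = false := ff fun y => l3464 h x285t y x10t x459t x114t x28f x272f x180f x54t
  have x44f : α 44 = false := ff fun y => c193 h x459t x10t x485t y
  have x223t : α 223 = true := tt fun y => c876 h x28f y x340f x506f
  have x108t : α 108 = true := tt fun y => c843 h x44f x28f y
  have x117f : α 117 = false := ff fun y => c2059 h x92t y x223t
  have x120f : α 120 = false := ff fun y => l3685 h x108t y
  have x20t : α 20 = true := tt fun y => c568 h y x117f x189f x273f
  have x157t : α 157 = true := tt fun y => c2421 h x117f y x273f
  have x85t : α 85 = true := tt fun y => c1881 h x238f x117f y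
  have x314f : α 314 = false := ff fun y => l3569 h x120f x275f x54t y
  have x264f : α 264 = false := ff fun y => c556 h y x92t x20t
  have x202f : α 202 = false := ff fun y => c2652 h x204t x157t y
  have x76t : α 76 = true := tt fun y => c1783 h y x202f x214f x314f
  have x188t : α 188 = true := tt fun y => l3664 h y x264f x56f
  have x185f : α 185 = false := ff fun y => c1778 h x188t x85t y x76t
  have x96t : α 96 = true := tt fun y => c2169 h x346f x185f y
  have x55t : α 55 = true := tt fun y => c253 h x185f y x14f
  c1359 h x96t x55t x90t

theorem l4013 (h : Good α) (x237t : α 237 = true) (x273f : α 273 = false) (x249t : α 249 = true) : False :=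
  have x54t : α 54 = true := tt fun y => l3977 h y x273f x249t
  have x94t : α 94 = true := tt fun y => l4009 h y x273f x249t
  have x239f : α 239 = false := ff fun y => c1323 h y x94t x54t
  have x92t : α 92 = true := tt fun y => l4006 h y x273f x249t
  have x197f : α 197 = false := ff fun y => l3796 h y x54t
  have x58t : α 58 = true := tt fun y => l4007 h y x273f x249t
  have x61f : α 61 = false := ff fun y => l3870 h y x54t
  have x57f : α 57 = false := ff fun y => l3811 h y x61f x92t x58t x249t
  have x200t : α 200 = true := tt fun y => l3884 h y x54t x92t x57f x249t
  have x201f : α 201 = false := ff fun y => l3902 h y x58t x200t x61f x197f x92t x249t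
  have x91f : α 91 = false := ff fun y => l3988 h y x273f x249t
  have x97f : α 97 = false := ff fun y => c2047 h x249t x92t x237t y
  have x353f : α 353 = false := ff fun y => c1487 h y x200t x237t x58t
  have x242t : α 242 = true := tt fun y => c1556 h x61f x97f y
  have x23t : α 23 = true := tt fun y => c706 h y x97f x273f
  have x236t : α 236 = true := tt fun y => c1988 h x239f y x91f x97f
  have x113t : α 113 = true := tt fun y => l3846 h y x242t x201f x57f x92t
  have x352f : α 352 = false := ff fun y => c2912 h x200t x236t y
  have x307f : α 307 = false := ff fun y => c712 h x23t x113t y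
  have x204t : α 204 = true := tt fun y => c2883 h x353f x352f x197f y
  have x250t : α 250 = true := tt fun y => c3109 h x307f y x273f
  l3521 h x250t x57f x201f x204t

theorem l4014 (h : Good α) (x273f : α 273 = false) (x249t : α 249 = true) : False :=
  have x54t : α 54 = true := tt fun y => l3977 h y x273f x249t
  have x197f : α 197 = false := ff fun y => l3796 h y x54t
  have x61f : α 61 = false := ff fun y => l3870 h y x54t
  have x92t : α 92 = true := tt fun y => l4006 h y x273f x249t
  have x58t : α 58 = true := tt fun y => l4007 h y x273f x249t
  have x57f : α 57 = false := ff fun y => l3811 h y x61f x92t x58t x249t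
  have x200t : α 200 = true := tt fun y => l3884 h y x54t x92t x57f x249t
  have x94t : α 94 = true := tt fun y => l4009 h y x273f x249t
  have x239f : α 239 = false := ff fun y => c1323 h y x94t x54t
  have x237f : α 237 = false := ff fun y => l4013 h y x273f x249t
  have x97t : α 97 = true := tt fun y => c1553 h x197f x61f x237f y
  have x28t : α 28 = true := tt fun y => l4012 h x237f y x273f x249t
  have x236f : α 236 = false := ff fun y => c1466 h x200t y x58t x97t
  have x10f : α 10 = false := ff fun y => l3618 h y x28t
  l3860 h x10f x239f x236f x200t

theorem l4015 (h : Good α) (x28t : α 28 = true) (x92t : α 92 = true) (x200t : α 200 = true) (x239f : α 239 = false) (x249t : α 249 = true) : False :=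
  have x57f : α 57 = false := ff fun y => l3876 h x239f x92t y x249t
  have x273t : α 273 = true := tt fun y => l4014 h y x249t
  have x10f : α 10 = false := ff fun y => l3618 h y x28t
  have x340f : α 340 = false := ff fun y => l3636 h x28t y
  have x20f : α 20 = false := ff fun y => c522 h x92t y x28t
  have x236t : α 236 = true := tt fun y => l3860 h x10f x239f y x200t
  have x80t : α 80 = true := tt fun y => c198 h x239f y x10f
  have x85t : α 85 = true := tt fun y => c531 h x57f x20f y
  have x61f : α 61 = false := ff fun y => c1549 h x236t x92t y
  have x353f : α 353 = false := ff fun y => c2072 h y x236t x249t x92t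
  have x352f : α 352 = false := ff fun y => c2912 h x200t x236t y
  have x223f : α 223 = false := ff fun y => c855 h x28t x85t y
  have x62f : α 62 = false := ff fun y => c848 h y x28t x85t
  have x547t : α 547 = true := tt fun y => c3065 h y x353f x239f
  have x22t : α 22 = true := tt fun y => c642 h x57f y x62f
  have x449f : α 449 = false := ff fun y => c2076 h x547t x236t y x92t
  have x94f : α 94 = false := ff fun y => c621 h y x22t x28t
  have x54t : α 54 = true := tt fun y => c1322 h x239f x94f y
  have x238t : α 238 = true := tt fun y => c2125 h x239f x352f x94f y
  have x197f : α 197 = false := ff fun y => l3796 h y x54t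
  have x444f : α 444 = false := ff fun y => c2080 h x92t x238t y
  have x117f : α 117 = false := ff fun y => c1882 h x238t y x85t
  have x299t : α 299 = true := tt fun y => c2976 h x444f y x223f
  have x264f : α 264 = false := ff fun y => c3053 h y x238t x299t
  have x452t : α 452 = true := tt fun y => l3711 h x264f y
  have x71f : α 71 = false := ff fun y => c1725 h x452t x236t y
  have x161t : α 161 = true := tt fun y => c546 h x71f y x20f x117f
  have x183f : α 183 = false := ff fun y => c1817 h x80t x161t y x273t
  have x91t : α 91 = true := tt fun y => c2006 h y x183f x340f
  have x58f : α 58 = false := ff fun y => l3615 h x91t y x61f x197f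
  have x1f : α 1 = false := ff fun y => l3750 h y x449f x61f x91t x58f x249t
  c61 h x57f x1f x58f

theorem l4016 (h : Good α) (x58f : α 58 = false) (x61f : α 61 = false) (x92t : α 92 = true) (x239f : α 239 = false) (x249t : α 249 = true) : False :=
  have x57f : α 57 = false := ff fun y => l3876 h x239f x92t y x249t
  have x1t : α 1 = true := tt fun y => c61 h x57f y x58f
  have x54f : α 54 = false := ff fun y => l3882 h x58f x1t y x92t x249t
  have x94t : α 94 = true := tt fun y => c1322 h x239f y x54f
  have x236t : α 236 = true := tt fun y => c1304 h x239f y x54f x61f
  have x91f : α 91 = false := ff fun y => l3747 h x94t x61f y x58f x249t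
  have x353f : α 353 = false := ff fun y => c2072 h y x236t x249t x92t
  have x97t : α 97 = true := tt fun y => c1301 h x54f x61f x91f y
  have x237t : α 237 = true := tt fun y => c2021 h x353f x239f y x91f
  c2047 h x249t x92t x237t x97t

theorem l4017 (h : Good α) (x340f : α 340 = false) (x97f : α 97 = false) (x91f : α 91 = false) (x273t : α 273 = true) : False :=
  have x183t : α 183 = true := tt fun y => c2006 h x91f y x340f
  have x189t : α 189 = true := tt fun y => c2182 h x97f y x340f
  c2751 h x183t x189t x273t

theorem l4018 (h : Good α) (x183t : α 183 = true) (x117f : α 117 = false) (x80t : α 80 = true) (x326t : α 326 = true) (x71f : α 71 = false) (x56f : α 56 = false) (x378t : α 378 = true) (x94t : α 94 = true) (x59t : α 59 = true) (x92t : α 92 = true) (x273t : α 273 = true) : False :=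
  have x161f : α 161 = false := ff fun y => c1817 h x80t y x183t x273t
  have x462f : α 462 = false := ff fun y => c2760 h x183t x273t x378t y
  have x20t : α 20 = true := tt fun y => c546 h x71f x161f y x117f
  have x387t : α 387 = true := tt fun y => c1715 h x71f x161f y x462f
  have x264f : α 264 = false := ff fun y => c556 h y x92t x20t
  have x306f : α 306 = false := ff fun y => c544 h y x20t x326t x59t
  have x22f : α 22 = false := ff fun y => c517 h y x20t x378t x387t
  have x188t : α 188 = true := tt fun y => l3664 h y x264f x56f
  have x106t : α 106 = true := tt fun y => c661 h x306f y x22f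
  c2101 h x188t x94t x106t

theorem l4019 (h : Good α) (x183f : α 183 = false) (x187f : α 187 = false) (x180f : α 180 = false) (x379f : α 379 = false) (x272f : α 272 = false) (x327t : α 327 = true) (x53t : α 53 = true) (x233f : α 233 = false) (x94t : α 94 = true) (x340t : α 340 = true) (x113t : α 113 = true) (x449f : α 449 = false) (x242t : α 242 = true) (x91f : α 91 = false) (x54t : α 54 = true) (x28f : α 28 = false) (x346f : α 346 = false) : False :=
  have x567t : α 567 = true := tt fun y => c2807 h y x346f x187f
  have x90t : α 90 = true := tt fun y => c1972 h x346f x187f y
  have x102t : α 102 = true := tt fun y => c864 h x272f x28f x346f y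
  have x267f : α 267 = false := ff fun y => l3683 h x102t y
  have x286t : α 286 = true := tt fun y => c3211 h y x272f x346f
  have x477t : α 477 = true := tt fun y => c3214 h x272f x346f y
  have x576f : α 576 = false := ff fun y => l3724 h x340t y
  have x378t : α 378 = true := tt fun y => c3004 h x233f y x576f
  have x328f : α 328 = false := ff fun y => l3660 h x54t y
  have x52f : α 52 = false := ff fun y => l3640 h x54t y
  have x22t : α 22 = true := tt fun y => c637 h y x52f x183f
  have x95t : α 95 = true := tt fun y => l3489 h y x378t x183f x52f
  have x114t : α 114 = true := tt fun y => c1992 h y x91f x183f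
  have x258f : α 258 = false := ff fun y => c652 h x22t x90t y
  have x505f : α 505 = false := ff fun y => c654 h y x22t x567t x90t
  have x158f : α 158 = false := ff fun y => l3694 h x114t y
  have x23f : α 23 = false := ff fun y => l3628 h y x114t x53t
  have x275f : α 275 = false := ff fun y => c2396 h x477t y x114t
  have x181t : α 181 = true := tt fun y => c2722 h x258f y x183f
  have x429t : α 429 = true := tt fun y => c3372 h x505f y x449f
  have x285t : α 285 = true := tt fun y => c3226 h x346f x275f y
  have x485t : α 485 = true := tt fun y => c3229 h y x346f x275f
  have x191t : α 191 = true := tt fun y => l4010 h y x275f x102t x28f x94t x91f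
  have x184f : α 184 = false := ff fun y => c1293 h x429t y x327t x53t
  have x36f : α 36 = false := ff fun y => c1037 h y x114t x285t
  have x478f : α 478 = false := ff fun y => c2398 h x114t x340t x285t y
  have x381f : α 381 = false := ff fun y => c1339 h x54t x191t y
  have x24f : α 24 = false := ff fun y => c737 h y x54t x191t
  have x81t : α 81 = true := tt fun y => c1835 h x272f x184f x158f y
  have x188t : α 188 = true := tt fun y => c2767 h x272f y x184f
  have x459t : α 459 = true := tt fun y => c2771 h y x379f x272f x184f
  have x454t : α 454 = true := tt fun y => c3384 h y x478f x576f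
  have x49t : α 49 = true := tt fun y => c1174 h y x180f x478f x576f
  have x63t : α 63 = true := tt fun y => l3532 h x24f y x54t
  have x11f : α 11 = false := ff fun y => c213 h y x81t x242t
  have x341f : α 341 = false := ff fun y => c2118 h y x188t x94t
  have x580f : α 580 = false := ff fun y => c3392 h x459t x485t y
  have x467f : α 467 = false := ff fun y => l3716 h x454t y
  have x256f : α 256 = false := ff fun y => c1170 h y x113t x49t
  have x68f : α 68 = false := ff fun y => c1599 h x63t y x191t x181t
  have x168t : α 168 = true := tt fun y => c214 h y x11f x381f x233f
  have x153t : α 153 = true := tt fun y => c2626 h x505f x341f x328f y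
  have x120t : α 120 = true := tt fun y => c760 h y x24f x467f x381f
  have x16t : α 16 = true := tt fun y => c342 h x68f y x52f
  have x73f : α 73 = false := ff fun y => c1265 h x153t x53t x168t y
  have x108f : α 108 = false := ff fun y => l3685 h y x120t
  have x265f : α 265 = false := ff fun y => c354 h x16t x95t y
  have x248t : α 248 = true := tt fun y => c1745 h x580f y x467f x73f
  have x483t : α 483 = true := tt fun y => c2319 h x108f x267f y
  have x119t : α 119 = true := tt fun y => c716 h x23f y x183f x265f
  have x96f : α 96 = false := ff fun y => c1277 h x248t y x53t
  have x284f : α 284 = false := ff fun y => c2377 h x113t y x340t x483t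
  have x342t : α 342 = true := tt fun y => c2167 h y x184f x96f
  have x46t : α 46 = true := tt fun y => c1020 h x36f x256f y x284f
  c1140 h x286t x342t x46t x119t

theorem l4020 (h : Good α) (x10f : α 10 = false) (x326t : α 326 = true) (x180f : α 180 = false) (x379f : α 379 = false) (x327t : α 327 = true) (x71f : α 71 = false) (x56f : α 56 = false) (x94t : α 94 = true) (x340t : α 340 = true) (x113t : α 113 = true) (x449f : α 449 = false) (x242t : α 242 = true) (x61f : α 61 = false) (x28f : α 28 = false) (x92t : α 92 = true) (x239f : α 239 = false) (x249t : α 249 = true) : False :=
  have x346f : α 346 = false := ff fun y => l3935 h y x249t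
  have x57f : α 57 = false := ff fun y => l3876 h x239f x92t y x249t
  have x53t : α 53 = true := tt fun y => l3648 h y x56f
  have x272f : α 272 = false := ff fun y => l3462 h y x94t x57f x53t
  have x102t : α 102 = true := tt fun y => c864 h x272f x28f x346f y
  have x170f : α 170 = false := ff fun y => l3682 h x102t y
  have x233f : α 233 = false := ff fun y => c2041 h x94t x92t y x242t
  have x576f : α 576 = false := ff fun y => l3724 h x340t y
  have x378t : α 378 = true := tt fun y => c3004 h x233f y x576f
  have x58t : α 58 = true := tt fun y => l4016 h y x61f x92t x239f x249t
  have x54t : α 54 = true := tt fun y => l3795 h y x61f x92t x58t x249t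
  have x197f : α 197 = false := ff fun y => l3796 h y x54t
  have x91f : α 91 = false := ff fun y => l3615 h y x58t x61f x197f
  have x59t : α 59 = true := tt fun y => l3669 h y x61f
  have x273t : α 273 = true := tt fun y => l4014 h y x249t
  have x80t : α 80 = true := tt fun y => c198 h x239f y x10f
  have x393t : α 393 = true := tt fun y => c202 h x239f x10f y x170f
  have x187f : α 187 = false := ff fun y => c1335 h x393t y x54t
  have x183t : α 183 = true := tt fun y => l4019 h y x187f x180f x379f x272f x327t x53t x233f x94t x340t x113t x449f x242t x91f x54t x28f x346f
  have x117t : α 117 = true := tt fun y => l4018 h x183t y x80t x326t x71f x56f x378t x94t x59t x92t x273t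
  have x184f : α 184 = false := ff fun y => c2057 h y x92t x117t
  have x22f : α 22 = false := ff fun y => c666 h y x117t x183t x273t
  c646 h x184f x57f x22f

theorem l4021 (h : Good α) (x117t : α 117 = true) (x183t : α 183 = true) (x57f : α 57 = false) (x92t : α 92 = true) (x273t : α 273 = true) : False :=
  have x184f : α 184 = false := ff fun y => c2057 h y x92t x117t
  have x22f : α 22 = false := ff fun y => c666 h y x117t x183t x273t
  c646 h x184f x57f x22f

theorem l4022 (h : Good α) (x114t : α 114 = true) (x459t : α 459 = true) (x10t : α 10 = true) (x180f : α 180 = false) (x272f : α 272 = false) (x340t : α 340 = true) (x54t : α 54 = true) (x28f : α 28 = false) (x346f : α 346 = false) : False :=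
  have x477t : α 477 = true := tt fun y => c3214 h x272f x346f y
  have x275f : α 275 = false := ff fun y => c2396 h x477t y x114t
  have x285f : α 285 = false := ff fun y => l3464 h y x340t x10t x459t x114t x28f x272f x180f x54t
  c3226 h x346f x275f x285f

theorem l4023 (h : Good α) (x114f : α 114 = false) (x272f : α 272 = false) (x327t : α 327 = true) (x53t : α 53 = true) (x443t : α 443 = true) (x91f : α 91 = false) (x58t : α 58 = true) : False :=
  have x222t : α 222 = true := tt fun y => c1994 h y x114f x91f
  have x298t : α 298 = true := tt fun y => l3889 h x114f y x327t x91f x53t x58t x272f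
  c2972 h x222t x298t x443t

theorem l4024 (h : Good α) (x1t : α 1 = true) (x94t : α 94 = true) (x236t : α 236 = true) (x61f : α 61 = false) (x92t : α 92 = true) (x200t : α 200 = true) (x239f : α 239 = false) (x249t : α 249 = true) : False :=
  have x58t : α 58 = true := tt fun y => l4016 h y x61f x92t x239f x249t
  have x97f : α 97 = false := ff fun y => c1466 h x200t x236t x58t y
  have x242t : α 242 = true := tt fun y => c1556 h x61f x97f y
  have x233f : α 233 = false := ff fun y => c2041 h x94t x92t y x242t
  have x54t : α 54 = true := tt fun y => l3795 h y x61f x92t x58t x249t
  have x197f : α 197 = false := ff fun y => l3796 h y x54t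
  have x353f : α 353 = false := ff fun y => c2072 h y x236t x249t x92t
  have x352f : α 352 = false := ff fun y => c2912 h x200t x236t y
  have x204t : α 204 = true := tt fun y => c2883 h x353f x352f x197f y
  have x238f : α 238 = false := ff fun y => c1321 h x94t y x54t x204t
  have x273t : α 273 = true := tt fun y => l4014 h y x249t
  have x91f : α 91 = false := ff fun y => l3615 h y x58t x61f x197f
  have x340t : α 340 = true := tt fun y => l4017 h y x97f x91f x273t
  have x57f : α 57 = false := ff fun y => l3876 h x239f x92t y x249t
  have x201f : α 201 = false := ff fun y => l3902 h y x58t x200t x61f x197f x92t x249t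
  have x113t : α 113 = true := tt fun y => l3846 h y x242t x201f x57f x92t
  have x547t : α 547 = true := tt fun y => c3065 h y x353f x239f
  have x449f : α 449 = false := ff fun y => c2076 h x547t x236t y x92t
  have x328f : α 328 = false := ff fun y => l3660 h x54t y
  have x59t : α 59 = true := tt fun y => l3669 h y x61f
  have x28f : α 28 = false := ff fun y => l4015 h y x92t x200t x239f x249t
  have x346f : α 346 = false := ff fun y => l3935 h y x249t
  have x543f : α 543 = false := ff fun y => l3582 h y x1t x61f
  have x56f : α 56 = false := ff fun y => c57 h y x1t x59t
  have x402f : α 402 = false := ff fun y => c118 h x547t x200t y x1t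
  have x443t : α 443 = true := tt fun y => c2018 h y x91f x543f x233f
  have x53t : α 53 = true := tt fun y => l3648 h y x56f
  have x71f : α 71 = false := ff fun y => l3842 h y x236t x56f x200t
  have x327t : α 327 = true := tt fun y => c3263 h x328f y x402f
  have x272f : α 272 = false := ff fun y => l3462 h y x94t x57f x53t
  have x379f : α 379 = false := ff fun y => l3463 h y x200t x239f x53t
  have x180f : α 180 = false := ff fun y => l3461 h y x238f x94t x242t x91f x57f x201f x58t x53t
  have x538f : α 538 = false := ff fun y => l3736 h x327t y
  have x70t : α 70 = true := tt fun y => l3662 h y x180f x56f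
  have x326t : α 326 = true := tt fun y => c3262 h x538f x402f y
  have x10t : α 10 = true := tt fun y => l4020 h y x326t x180f x379f x327t x71f x56f x94t x340t x113t x449f x242t x61f x28f x92t x239f x249t
  have x114t : α 114 = true := tt fun y => l4023 h y x272f x327t x53t x443t x91f x58t
  have x158f : α 158 = false := ff fun y => l3694 h x114t y
  have x459f : α 459 = false := ff fun y => l4022 h x114t y x10t x180f x272f x340t x54t x28f x346f
  have x184t : α 184 = true := tt fun y => c2771 h x459f x379f x272f y
  have x188f : α 188 = false := ff fun y => l3594 h x459f x70t y x379f x272f x158f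
  have x429f : α 429 = false := ff fun y => c1293 h y x184t x327t x53t
  c2816 h x429f x272f x188f

theorem l4025 (h : Good α) (x114t : α 114 = true) (x10t : α 10 = true) (x327t : α 327 = true) (x180f : α 180 = false) (x379f : α 379 = false) (x272f : α 272 = false) (x53t : α 53 = true) (x340t : α 340 = true) (x54t : α 54 = true) (x28f : α 28 = false) (x346f : α 346 = false) : False :=
  have x56f : α 56 = false := ff fun y => l3649 h x53t y
  have x70t : α 70 = true := tt fun y => l3662 h y x180f x56f
  have x158f : α 158 = false := ff fun y => l3694 h x114t y
  have x459f : α 459 = false := ff fun y => l4022 h x114t y x10t x180f x272f x340t x54t x28f x346f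
  have x184t : α 184 = true := tt fun y => c2771 h x459f x379f x272f y
  have x188f : α 188 = false := ff fun y => l3594 h x459f x70t y x379f x272f x158f
  have x429f : α 429 = false := ff fun y => c1293 h y x184t x327t x53t
  c2816 h x429f x272f x188f

theorem l4026 (h : Good α) (x275f : α 275 = false) (x314t : α 314 = true) (x459t : α 459 = true) (x10t : α 10 = true) (x54t : α 54 = true) (x28f : α 28 = false) (x346f : α 346 = false) : False :=
  have x485t : α 485 = true := tt fun y => c3229 h y x346f x275f
  have x120t : α 120 = true := tt fun y => l3569 h y x275f x54t x314t
  have x44f : α 44 = false := ff fun y => c193 h x459t x10t x485t y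
  have x108f : α 108 = false := ff fun y => l3685 h y x120t
  c843 h x44f x28f x108f

theorem l4027 (h : Good α) (x314t : α 314 = true) (x459t : α 459 = true) (x558f : α 558 = false) (x10t : α 10 = true) (x272f : α 272 = false) (x94t : α 94 = true) (x250f : α 250 = false) (x204t : α 204 = true) (x91f : α 91 = false) (x54t : α 54 = true) (x28f : α 28 = false) (x346f : α 346 = false) : False :=
  have x238f : α 238 = false := ff fun y => c1321 h x94t y x54t x204t
  have x275t : α 275 = true := tt fun y => l4026 h y x314t x459t x10t x54t x28f x346f
  have x120f : α 120 = false := ff fun y => l3699 h y x275t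
  have x191f : α 191 = false := ff fun y => l3659 h y x275t x54t
  have x413f : α 413 = false := ff fun y => l3733 h y x275t x314t
  have x485t : α 485 = true := tt fun y => c2457 h y x272f x120f
  have x338t : α 338 = true := tt fun y => c2010 h y x191f x91f
  have x358t : α 358 = true := tt fun y => c3315 h y x413f x558f
  have x83t : α 83 = true := tt fun y => c1864 h y x250f x413f x558f
  have x44f : α 44 = false := ff fun y => c193 h x459t x10t x485t y
  have x128f : α 128 = false := ff fun y => c2111 h x94t y x338t x358t
  have x391f : α 391 = false := ff fun y => c1863 h y x204t x83t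
  have x108t : α 108 = true := tt fun y => c843 h x44f x28f y
  have x291t : α 291 = true := tt fun y => c2496 h x238f x391f x128f y
  l3688 h x291t x108t x314t

theorem l4028 (h : Good α) (x10t : α 10 = true) (x327t : α 327 = true) (x101t : α 101 = true) (x71f : α 71 = false) (x335f : α 335 = false) (x202f : α 202 = false) (x180f : α 180 = false) (x379f : α 379 = false) (x53t : α 53 = true) (x378t : α 378 = true) (x94t : α 94 = true) (x340t : α 340 = true) (x250f : α 250 = false) (x204t : α 204 = true) (x237t : α 237 = true) (x91f : α 91 = false) (x54t : α 54 = true) (x58t : α 58 = true) (x28f : α 28 = false) (x57f : α 57 = false) (x92t : α 92 = true) (x249t : α 249 = true) : False :=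
  have x346f : α 346 = false := ff fun y => l3935 h y x249t
  have x272f : α 272 = false := ff fun y => l3462 h y x94t x57f x53t
  have x102t : α 102 = true := tt fun y => c864 h x272f x28f x346f y
  have x238f : α 238 = false := ff fun y => c1321 h x94t y x54t x204t
  have x273t : α 273 = true := tt fun y => l4014 h y x249t
  have x114f : α 114 = false := ff fun y => l4025 h y x10t x327t x180f x379f x272f x53t x340t x54t x28f x346f
  have x183t : α 183 = true := tt fun y => c1992 h x114f x91f y
  have x298t : α 298 = true := tt fun y => l3889 h x114f y x327t x91f x53t x58t x272f
  have x189f : α 189 = false := ff fun y => c2751 h x183t y x273t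
  have x23f : α 23 = false := ff fun y => c696 h y x58t x183t
  have x558f : α 558 = false := ff fun y => c2764 h x183t x340t y
  have x462f : α 462 = false := ff fun y => c2760 h x183t x273t x378t y
  have x117f : α 117 = false := ff fun y => l4021 h y x183t x57f x92t x273t
  have x257f : α 257 = false := ff fun y => c3035 h x298t x237t y
  have x429f : α 429 = false := ff fun y => c3243 h y x327t x298t
  have x459t : α 459 = true := tt fun y => c715 h y x379f x114f x23f
  have x85t : α 85 = true := tt fun y => c1881 h x238f x117f y
  have x179t : α 179 = true := tt fun y => c1716 h y x71f x257f x189f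
  have x188t : α 188 = true := tt fun y => c2816 h x429f x272f y
  have x106f : α 106 = false := ff fun y => c2101 h x188t x94t y
  have x20t : α 20 = true := tt fun y => c564 h x106f y x257f x189f
  have x146t : α 146 = true := tt fun y => c2282 h x106f y x257f
  have x314f : α 314 = false := ff fun y => l4027 h y x459t x558f x10t x272f x94t x250f x204t x91f x54t x28f x346f
  have x157t : α 157 = true := tt fun y => c2653 h y x202f x314f
  have x161f : α 161 = false := ff fun y => c2542 h x179t y x146t x157t
  have x387t : α 387 = true := tt fun y => c1715 h x71f x161f y x462f
  have x22f : α 22 = false := ff fun y => c517 h y x20t x378t x387t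
  have x90t : α 90 = true := tt fun y => c653 h x272f x22f x346f y
  have x214f : α 214 = false := ff fun y => c1961 h x90t x102t y
  have x76t : α 76 = true := tt fun y => c1783 h y x202f x214f x314f
  have x220t : α 220 = true := tt fun y => c2966 h y x335f x214f x314f
  have x185f : α 185 = false := ff fun y => c1778 h x188t x85t y x76t
  have x96f : α 96 = false := ff fun y => c2159 h y x101t x220t
  c2169 h x346f x185f x96f

theorem l4029 (h : Good α) (x314f : α 314 = false) (x188t : α 188 = true) (x85t : α 85 = true) (x214f : α 214 = false) (x101t : α 101 = true) (x335f : α 335 = false) (x202f : α 202 = false) (x346f : α 346 = false) : False :=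
  have x76t : α 76 = true := tt fun y => c1783 h y x202f x214f x314f
  have x220t : α 220 = true := tt fun y => c2966 h y x335f x214f x314f
  have x185f : α 185 = false := ff fun y => c1778 h x188t x85t y x76t
  have x96f : α 96 = false := ff fun y => c2159 h y x101t x220t
  c2169 h x346f x185f x96f

theorem l4030 (h : Good α) (x96f : α 96 = false) (x386f : α 386 = false) (x188t : α 188 = true) (x22f : α 22 = false) (x157t : α 157 = true) (x85t : α 85 = true) (x161f : α 161 = false) (x214f : α 214 = false) (x101t : α 101 = true) (x14f : α 14 = false) (x286t : α 286 = true) (x477t : α 477 = true) (x71f : α 71 = false) (x335f : α 335 = false) (x1f : α 1 = false) (x91f : α 91 = false) (x54t : α 54 = true) (x57f : α 57 = false) (x239f : α 239 = false) (x346f : α 346 = false) : False :=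
  have x52f : α 52 = false := ff fun y => l3640 h x54t y
  have x195t : α 195 = true := tt fun y => c25 h x1f x52f y
  have x202f : α 202 = false := ff fun y => l3717 h x195t y
  have x53t : α 53 = true := tt fun y => c20 h y x1f x52f
  have x56f : α 56 = false := ff fun y => l3649 h x53t y
  have x185t : α 185 = true := tt fun y => c2169 h x346f y x96f
  have x76f : α 76 = false := ff fun y => c1778 h x188t x85t x185t y
  have x269f : α 269 = false := ff fun y => c2778 h y x188t x185t
  have x220t : α 220 = true := tt fun y => c1784 h y x335f x76f x202f
  have x37t : α 37 = true := tt fun y => c1052 h y x76f x214f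
  have x55t : α 55 = true := tt fun y => c252 h y x14f x76f
  have x107t : α 107 = true := tt fun y => c2301 h x386f x269f x239f y
  have x564t : α 564 = true := tt fun y => c3203 h y x386f x269f
  have x5f : α 5 = false := ff fun y => c148 h y x37t x157t
  have x338f : α 338 = false := ff fun y => c2307 h x286t x107t x477t y
  have x519f : α 519 = false := ff fun y => c2231 h x564t y x185t x101t
  have x583f : α 583 = false := ff fun y => c2780 h x564t y x185t x220t
  have x344f : α 344 = false := ff fun y => c2785 h x564t y x185t
  have x47t : α 47 = true := tt fun y => c150 h x161f y x5f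
  have x191t : α 191 = true := tt fun y => c2010 h x338f y x91f
  have x503t : α 503 = true := tt fun y => c3405 h y x519f x583f
  have x34t : α 34 = true := tt fun y => c989 h x386f x71f x344f y
  have x118f : α 118 = false := ff fun y => c984 h y x34t x47t
  have x275f : α 275 = false := ff fun y => l3659 h x191t y x54t
  have x155t : α 155 = true := tt fun y => c645 h y x57f x118f x22f
  have x17t : α 17 = true := tt fun y => c398 h x346f x96f x275f y
  have x50f : α 50 = false := ff fun y => c1179 h x155t x55t y
  have x86f : α 86 = false := ff fun y => c395 h x564t x503t y x17t
  c3 h x56f x1f x86f x50f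

theorem l4031 (h : Good α) (x327t : α 327 = true) (x101t : α 101 = true) (x71f : α 71 = false) (x335f : α 335 = false) (x180f : α 180 = false) (x379f : α 379 = false) (x1f : α 1 = false) (x94t : α 94 = true) (x340t : α 340 = true) (x113t : α 113 = true) (x250f : α 250 = false) (x449f : α 449 = false) (x242t : α 242 = true) (x204t : α 204 = true) (x237t : α 237 = true) (x61f : α 61 = false) (x28f : α 28 = false) (x92t : α 92 = true) (x239f : α 239 = false) (x249t : α 249 = true) : False :=
  have x59t : α 59 = true := tt fun y => l3669 h y x61f
  have x346f : α 346 = false := ff fun y => l3935 h y x249t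
  have x57f : α 57 = false := ff fun y => l3876 h x239f x92t y x249t
  have x58t : α 58 = true := tt fun y => l4016 h y x61f x92t x239f x249t
  have x54t : α 54 = true := tt fun y => l3795 h y x61f x92t x58t x249t
  have x52f : α 52 = false := ff fun y => l3640 h x54t y
  have x53t : α 53 = true := tt fun y => c20 h y x1f x52f
  have x272f : α 272 = false := ff fun y => l3462 h y x94t x57f x53t
  have x102t : α 102 = true := tt fun y => c864 h x272f x28f x346f y
  have x14f : α 14 = false := ff fun y => l3620 h x102t y x59t
  have x170f : α 170 = false := ff fun y => l3682 h x102t y
  have x286t : α 286 = true := tt fun y => c3211 h y x272f x346f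
  have x477t : α 477 = true := tt fun y => c3214 h x272f x346f y
  have x195t : α 195 = true := tt fun y => c25 h x1f x52f y
  have x202f : α 202 = false := ff fun y => l3717 h x195t y
  have x56f : α 56 = false := ff fun y => l3649 h x53t y
  have x233f : α 233 = false := ff fun y => c2041 h x94t x92t y x242t
  have x576f : α 576 = false := ff fun y => l3724 h x340t y
  have x378t : α 378 = true := tt fun y => c3004 h x233f y x576f
  have x238f : α 238 = false := ff fun y => c1321 h x94t y x54t x204t
  have x197f : α 197 = false := ff fun y => l3796 h y x54t
  have x91f : α 91 = false := ff fun y => l3615 h y x58t x61f x197f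
  have x273t : α 273 = true := tt fun y => l4014 h y x249t
  have x10f : α 10 = false := ff fun y => l4028 h y x327t x101t x71f x335f x202f x180f x379f x53t x378t x94t x340t x250f x204t x237t x91f x54t x58t x28f x57f x92t x249t
  have x80t : α 80 = true := tt fun y => c198 h x239f y x10f
  have x393t : α 393 = true := tt fun y => c202 h x239f x10f y x170f
  have x326f : α 326 = false := ff fun y => l4020 h x10f y x180f x379f x327t x71f x56f x94t x340t x113t x449f x242t x61f x28f x92t x239f x249t
  have x187f : α 187 = false := ff fun y => c1335 h x393t y x54t
  have x146t : α 146 = true := tt fun y => c1241 h x326f y x52f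
  have x90t : α 90 = true := tt fun y => c1972 h x346f x187f y
  have x183t : α 183 = true := tt fun y => l4019 h y x187f x180f x379f x272f x327t x53t x233f x94t x340t x113t x449f x242t x91f x54t x28f x346f
  have x214f : α 214 = false := ff fun y => c1961 h x90t x102t y
  have x462f : α 462 = false := ff fun y => c2760 h x183t x273t x378t y
  have x117f : α 117 = false := ff fun y => l4021 h y x183t x57f x92t x273t
  have x161f : α 161 = false := ff fun y => c1817 h x80t y x183t x273t
  have x85t : α 85 = true := tt fun y => c1881 h x238f x117f y
  have x157t : α 157 = true := tt fun y => c2419 h x161f x117f y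
  have x20t : α 20 = true := tt fun y => c546 h x71f x161f y x117f
  have x387t : α 387 = true := tt fun y => c1715 h x71f x161f y x462f
  have x257f : α 257 = false := ff fun y => c2544 h x146t x157t y x273t
  have x264f : α 264 = false := ff fun y => c556 h y x92t x20t
  have x22f : α 22 = false := ff fun y => c517 h y x20t x378t x387t
  have x19t : α 19 = true := tt fun y => c493 h y x91f x257f
  have x452t : α 452 = true := tt fun y => l3711 h x264f y
  have x188t : α 188 = true := tt fun y => l3664 h y x264f x56f
  have x184t : α 184 = true := tt fun y => c646 h y x57f x22f
  have x386f : α 386 = false := ff fun y => c503 h y x452t x19t x113t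
  have x96t : α 96 = true := tt fun y => l4030 h y x386f x188t x22f x157t x85t x161f x214f x101t x14f x286t x477t x71f x335f x1f x91f x54t x57f x239f x346f
  have x21f : α 21 = false := ff fun y => c604 h x184t x92t x96t y
  have x55f : α 55 = false := ff fun y => c1359 h x96t y x90t
  c594 h x187f x55f x21f

theorem l4032 (h : Good α) (x90f : α 90 = false) (x146t : α 146 = true) (x14f : α 14 = false) (x54t : α 54 = true) (x346f : α 346 = false) : False :=
  have x187t : α 187 = true := tt fun y => c1972 h x346f y x90f
  have x253t : α 253 = true := tt fun y => c264 h y x90f x14f
  c1326 h x187t x54t x253t x146t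

theorem l4033 (h : Good α) (x96t : α 96 = true) (x90t : α 90 = true) (x101t : α 101 = true) (x14f : α 14 = false) : False :=
  have x185f : α 185 = false := ff fun y => c2158 h y x96t x101t
  have x55f : α 55 = false := ff fun y => c1359 h x96t y x90t
  c253 h x185f x55f x14f

theorem l4034 (h : Good α) (x157t : α 157 = true) (x452t : α 452 = true) (x85t : α 85 = true) (x106f : α 106 = false) (x188t : α 188 = true) (x214f : α 214 = false) (x146t : α 146 = true) (x101t : α 101 = true) (x14f : α 14 = false) (x286t : α 286 = true) (x477t : α 477 = true) (x71f : α 71 = false) (x335f : α 335 = false) (x1f : α 1 = false) (x378t : α 378 = true) (x113t : α 113 = true) (x91f : α 91 = false) (x54t : α 54 = true) (x59t : α 59 = true) (x57f : α 57 = false) (x239f : α 239 = false) (x249t : α 249 = true) : False :=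
  have x346f : α 346 = false := ff fun y => l3935 h y x249t
  have x90t : α 90 = true := tt fun y => l4032 h y x146t x14f x54t x346f
  have x96f : α 96 = false := ff fun y => l4033 h y x90t x101t x14f
  have x273t : α 273 = true := tt fun y => l4014 h y x249t
  have x462f : α 462 = false := ff fun y => c2661 h x157t x273t y
  have x189f : α 189 = false := ff fun y => c1518 h x59t x157t y x273t
  have x257f : α 257 = false := ff fun y => c2544 h x146t x157t y x273t
  have x19t : α 19 = true := tt fun y => c493 h y x91f x257f
  have x179t : α 179 = true := tt fun y => c1716 h y x71f x257f x189f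
  have x20t : α 20 = true := tt fun y => c564 h x106f y x257f x189f
  have x386f : α 386 = false := ff fun y => c503 h y x452t x19t x113t
  have x161f : α 161 = false := ff fun y => c2542 h x179t y x146t x157t
  have x22t : α 22 = true := tt fun y => l4030 h x96f x386f x188t y x157t x85t x161f x214f x101t x14f x286t x477t x71f x335f x1f x91f x54t x57f x239f x346f
  have x387t : α 387 = true := tt fun y => c1715 h x71f x161f y x462f
  c517 h x22t x20t x378t x387t

theorem l4035 (h : Good α) (x505f : α 505 = false) (x253t : α 253 = true) (x392t : α 392 = true) (x55t : α 55 = true) (x314t : α 314 = true) (x341f : α 341 = false) (x96f : α 96 = false) (x146t : α 146 = true) (x297f : α 297 = false) (x199t : α 199 = true) (x53t : α 53 = true) (x97f : α 97 = false) (x54t : α 54 = true) (x325t : α 325 = true) (x28f : α 28 = false) (x92t : α 92 = true) : False :=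
  have x328f : α 328 = false := ff fun y => l3660 h x54t y
  have x153t : α 153 = true := tt fun y => c2626 h x505f x341f x328f y
  have x398t : α 398 = true := tt fun y => c3291 h x505f y x341f
  have x270f : α 270 = false := ff fun y => c2541 h y x153t x253t x146t
  have x494f : α 494 = false := ff fun y => c2897 h x398t y x199t x325t
  have x184t : α 184 = true := tt fun y => c2166 h x341f y x270f x96f
  have x21t : α 21 = true := tt fun y => c609 h x270f x96f y
  have x283t : α 283 = true := tt fun y => c3205 h x341f x270f y
  have x23f : α 23 = false := ff fun y => c689 h x184t x53t y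
  have x31f : α 31 = false := ff fun y => c588 h x92t x21t y
  have x33t : α 33 = true := tt fun y => c681 h y x23f x97f
  have x25t : α 25 = true := tt fun y => c766 h x31f y x97f
  have x111f : α 111 = false := ff fun y => c975 h x283t y x33t
  have x50f : α 50 = false := ff fun y => c579 h x55t x21t y x25t
  have x390f : α 390 = false := ff fun y => c586 h x392t x21t y x25t
  have x127t : α 127 = true := tt fun y => c2345 h x270f x297f x111f y
  have x191t : α 191 = true := tt fun y => c1195 h x390f y x50f
  have x554f : α 554 = false := ff fun y => c2494 h y x325t x127t
  have x275f : α 275 = false := ff fun y => l3659 h x191t y x54t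
  have x108t : α 108 = true := tt fun y => c872 h x494f x554f x28f y
  have x120t : α 120 = true := tt fun y => l3569 h y x275f x54t x314t
  l3685 h x108t x120t

theorem l4036 (h : Good α) (x22f : α 22 = false) (x85t : α 85 = true) (x117f : α 117 = false) (x106f : α 106 = false) (x188t : α 188 = true) (x214f : α 214 = false) (x146t : α 146 = true) (x101t : α 101 = true) (x14f : α 14 = false) (x286t : α 286 = true) (x477t : α 477 = true) (x71f : α 71 = false) (x335f : α 335 = false) (x180f : α 180 = false) (x379f : α 379 = false) (x1f : α 1 = false) (x378t : α 378 = true) (x113t : α 113 = true) (x91f : α 91 = false) (x54t : α 54 = true) (x59t : α 59 = true) (x57f : α 57 = false) (x239f : α 239 = false) (x249t : α 249 = true) : False :=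
  have x52f : α 52 = false := ff fun y => l3640 h x54t y
  have x53t : α 53 = true := tt fun y => c20 h y x1f x52f
  have x56f : α 56 = false := ff fun y => l3649 h x53t y
  have x70t : α 70 = true := tt fun y => l3662 h y x180f x56f
  have x184t : α 184 = true := tt fun y => c646 h y x57f x22f
  have x157t : α 157 = true := tt fun y => c636 h x22f x117f x52f y
  have x81f : α 81 = false := ff fun y => c1682 h x188t x184t x70t y
  have x452f : α 452 = false := ff fun y => l4034 h x157t y x85t x106f x188t x214f x146t x101t x14f x286t x477t x71f x335f x1f x378t x113t x91f x54t x59t x57f x239f x249t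
  c1840 h x379f x452f x81f x180f

theorem l4037 (h : Good α) (x99t : α 99 = true) (x20t : α 20 = true) (x398t : α 398 = true) (x394f : α 394 = false) (x76f : α 76 = false) (x85t : α 85 = true) : False :=
  have x159f : α 159 = false := ff fun y => c548 h x20t x85t x99t y
  have x460f : α 460 = false := ff fun y => c561 h x398t x20t y x99t
  c1781 h x394f x76f x460f x159f

theorem l4038 (h : Good α) (x117f : α 117 = false) (x341f : α 341 = false) (x106f : α 106 = false) (x188t : α 188 = true) (x567t : α 567 = true) (x214f : α 214 = false) (x146t : α 146 = true) (x297f : α 297 = false) (x101t : α 101 = true) (x14f : α 14 = false) (x286t : α 286 = true) (x477t : α 477 = true) (x71f : α 71 = false) (x335f : α 335 = false) (x180f : α 180 = false) (x379f : α 379 = false) (x1f : α 1 = false) (x378t : α 378 = true) (x238f : α 238 = false) (x113t : α 113 = true) (x97f : α 97 = false) (x61f : α 61 = false) (x28f : α 28 = false) (x92t : α 92 = true) (x239f : α 239 = false) (x249t : α 249 = true) : False :=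
  have x346f : α 346 = false := ff fun y => l3935 h y x249t
  have x58t : α 58 = true := tt fun y => l4016 h y x61f x92t x239f x249t
  have x54t : α 54 = true := tt fun y => l3795 h y x61f x92t x58t x249t
  have x90t : α 90 = true := tt fun y => l4032 h y x146t x14f x54t x346f
  have x96f : α 96 = false := ff fun y => l4033 h y x90t x101t x14f
  have x185t : α 185 = true := tt fun y => c2169 h x346f y x96f
  have x254f : α 254 = false := ff fun y => c2776 h x188t x185t y
  have x52f : α 52 = false := ff fun y => l3640 h x54t y
  have x53t : α 53 = true := tt fun y => c20 h y x1f x52f
  have x56f : α 56 = false := ff fun y => l3649 h x53t y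
  have x199t : α 199 = true := tt fun y => c59 h y x56f x1f
  have x195t : α 195 = true := tt fun y => c25 h x1f x52f y
  have x202f : α 202 = false := ff fun y => l3717 h x195t y
  have x197f : α 197 = false := ff fun y => l3796 h y x54t
  have x91f : α 91 = false := ff fun y => l3615 h y x58t x61f x197f
  have x325t : α 325 = true := tt fun y => l3677 h x61f y
  have x59t : α 59 = true := tt fun y => l3669 h y x61f
  have x57f : α 57 = false := ff fun y => l3876 h x239f x92t y x249t
  have x85t : α 85 = true := tt fun y => c1881 h x238f x117f y
  have x314t : α 314 = true := tt fun y => l4029 h y x188t x85t x214f x101t x335f x202f x346f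
  have x76f : α 76 = false := ff fun y => c1778 h x188t x85t x185t y
  have x220t : α 220 = true := tt fun y => c1784 h y x335f x76f x202f
  have x37t : α 37 = true := tt fun y => c1052 h y x76f x214f
  have x55t : α 55 = true := tt fun y => c252 h y x14f x76f
  have x79f : α 79 = false := ff fun y => c1056 h x220t y x37t
  have x229f : α 229 = false := ff fun y => c1360 h x55t x90t y
  have x394f : α 394 = false := ff fun y => c1366 h y x185t x55t
  have x13t : α 13 = true := tt fun y => c230 h x238f x79f y
  have x392t : α 392 = true := tt fun y => c3305 h x394f x346f y
  have x22t : α 22 = true := tt fun y => l4036 h y x85t x117f x106f x188t x214f x146t x101t x14f x286t x477t x71f x335f x180f x379f x1f x378t x113t x91f x54t x59t x57f x239f x249t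
  have x505f : α 505 = false := ff fun y => c654 h y x22t x567t x90t
  have x398t : α 398 = true := tt fun y => c3291 h x505f y x341f
  have x253f : α 253 = false := ff fun y => l4035 h x505f y x392t x55t x314t x341f x96f x146t x297f x199t x53t x97f x54t x325t x28f x92t
  have x290t : α 290 = true := tt fun y => c2982 h x253f x229f y
  have x123f : α 123 = false := ff fun y => c2475 h x249t y x392t x290t
  have x20t : α 20 = true := tt fun y => c523 h y x28f x123f
  have x189f : α 189 = false := ff fun y => c542 h x20t x59t y
  have x99f : α 99 = false := ff fun y => l4037 h y x20t x398t x394f x76f x85t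
  have x31t : α 31 = true := tt fun y => c942 h y x97f x99f x189f
  have x151t : α 151 = true := tt fun y => c2216 h x254f y x99f
  c227 h x151t x31t x13t

theorem l4039 (h : Good α) (x117t : α 117 = true) (x128t : α 128 = true) (x28f : α 28 = false) (x92t : α 92 = true) : False :=
  have x85f : α 85 = false := ff fun y => c1880 h x117t y x128t
  have x223f : α 223 = false := ff fun y => c2059 h x92t x117t y
  c854 h x28f x85f x223f

theorem l4040 (h : Good α) (x188t : α 188 = true) (x146t : α 146 = true) (x71f : α 71 = false) (x335f : α 335 = false) (x180f : α 180 = false) (x379f : α 379 = false) (x1f : α 1 = false) (x238f : α 238 = false) (x94t : α 94 = true) (x113t : α 113 = true) (x97f : α 97 = false) (x61f : α 61 = false) (x28f : α 28 = false) (x92t : α 92 = true) (x239f : α 239 = false) (x249t : α 249 = true) : False :=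
  have x346f : α 346 = false := ff fun y => l3935 h y x249t
  have x57f : α 57 = false := ff fun y => l3876 h x239f x92t y x249t
  have x58t : α 58 = true := tt fun y => l4016 h y x61f x92t x239f x249t
  have x54t : α 54 = true := tt fun y => l3795 h y x61f x92t x58t x249t
  have x52f : α 52 = false := ff fun y => l3640 h x54t y
  have x53t : α 53 = true := tt fun y => c20 h y x1f x52f
  have x272f : α 272 = false := ff fun y => l3462 h y x94t x57f x53t
  have x102t : α 102 = true := tt fun y => c864 h x272f x28f x346f y
  have x59t : α 59 = true := tt fun y => l3669 h y x61f
  have x14f : α 14 = false := ff fun y => l3620 h x102t y x59t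
  have x90t : α 90 = true := tt fun y => l4032 h y x146t x14f x54t x346f
  have x214f : α 214 = false := ff fun y => c1961 h x90t x102t y
  have x128t : α 128 = true := tt fun y => c2495 h x272f y x346f x214f
  have x117f : α 117 = false := ff fun y => l4039 h y x128t x28f x92t
  have x187f : α 187 = false := ff fun y => c1959 h y x90t x102t
  have x567t : α 567 = true := tt fun y => c2807 h y x346f x187f
  have x325t : α 325 = true := tt fun y => l3677 h x61f y
  have x297f : α 297 = false := ff fun y => l3684 h y x102t x325t
  have x101t : α 101 = true := tt fun y => l3833 h y x102t x97f x61f x92t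
  have x286t : α 286 = true := tt fun y => c3211 h y x272f x346f
  have x477t : α 477 = true := tt fun y => c3214 h x272f x346f y
  have x242t : α 242 = true := tt fun y => c1556 h x61f x97f y
  have x233f : α 233 = false := ff fun y => c2041 h x94t x92t y x242t
  have x273t : α 273 = true := tt fun y => l4014 h y x249t
  have x197f : α 197 = false := ff fun y => l3796 h y x54t
  have x91f : α 91 = false := ff fun y => l3615 h y x58t x61f x197f
  have x340t : α 340 = true := tt fun y => l4017 h y x97f x91f x273t
  have x576f : α 576 = false := ff fun y => l3724 h x340t y
  have x378t : α 378 = true := tt fun y => c3004 h x233f y x576f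
  have x106f : α 106 = false := ff fun y => c2101 h x188t x94t y
  have x341f : α 341 = false := ff fun y => c2118 h y x188t x94t
  l4038 h x117f x341f x106f x188t x567t x214f x146t x297f x101t x14f x286t x477t x71f x335f x180f x379f x1f x378t x238f x113t x97f x61f x28f x92t x239f x249t

theorem l4041 (h : Good α) (x94t : α 94 = true) (x236t : α 236 = true) (x61f : α 61 = false) (x92t : α 92 = true) (x200t : α 200 = true) (x239f : α 239 = false) (x249t : α 249 = true) : False :=
  have x273t : α 273 = true := tt fun y => l4014 h y x249t
  have x58t : α 58 = true := tt fun y => l4016 h y x61f x92t x239f x249t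
  have x54t : α 54 = true := tt fun y => l3795 h y x61f x92t x58t x249t
  have x197f : α 197 = false := ff fun y => l3796 h y x54t
  have x91f : α 91 = false := ff fun y => l3615 h y x58t x61f x197f
  have x97f : α 97 = false := ff fun y => c1466 h x200t x236t x58t y
  have x340t : α 340 = true := tt fun y => l4017 h y x97f x91f x273t
  have x57f : α 57 = false := ff fun y => l3876 h x239f x92t y x249t
  have x201f : α 201 = false := ff fun y => l3902 h y x58t x200t x61f x197f x92t x249t
  have x242t : α 242 = true := tt fun y => c1556 h x61f x97f y
  have x113t : α 113 = true := tt fun y => l3846 h y x242t x201f x57f x92t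
  have x353f : α 353 = false := ff fun y => c2072 h y x236t x249t x92t
  have x352f : α 352 = false := ff fun y => c2912 h x200t x236t y
  have x204t : α 204 = true := tt fun y => c2883 h x353f x352f x197f y
  have x250f : α 250 = false := ff fun y => l3521 h y x57f x201f x204t
  have x547t : α 547 = true := tt fun y => c3065 h y x353f x239f
  have x449f : α 449 = false := ff fun y => c2076 h x547t x236t y x92t
  have x237t : α 237 = true := tt fun y => c2021 h x353f x239f y x91f
  have x52f : α 52 = false := ff fun y => l3640 h x54t y
  have x325t : α 325 = true := tt fun y => l3677 h x61f y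
  have x28f : α 28 = false := ff fun y => l4015 h y x92t x200t x239f x249t
  have x346f : α 346 = false := ff fun y => l3935 h y x249t
  have x238f : α 238 = false := ff fun y => c1321 h x94t y x54t x204t
  have x354t : α 354 = true := tt fun y => c1441 h x57f x238f x201f y
  have x548f : α 548 = false := ff fun y => c3083 h x242t x354t y
  have x1f : α 1 = false := ff fun y => l4024 h y x94t x236t x61f x92t x200t x239f x249t
  have x53t : α 53 = true := tt fun y => c20 h y x1f x52f
  have x409t : α 409 = true := tt fun y => c122 h x1f y x201f x548f
  have x56f : α 56 = false := ff fun y => l3649 h x53t y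
  have x272f : α 272 = false := ff fun y => l3462 h y x94t x57f x53t
  have x379f : α 379 = false := ff fun y => l3463 h y x200t x239f x53t
  have x180f : α 180 = false := ff fun y => l3461 h y x238f x94t x242t x91f x57f x201f x58t x53t
  have x335f : α 335 = false := ff fun y => c3261 h x325t y x409t
  have x71f : α 71 = false := ff fun y => l3842 h y x236t x56f x200t
  have x102t : α 102 = true := tt fun y => c864 h x272f x28f x346f y
  have x101t : α 101 = true := tt fun y => l3833 h y x102t x97f x61f x92t
  have x327f : α 327 = false := ff fun y => l4031 h y x101t x71f x335f x180f x379f x1f x94t x340t x113t x250f x449f x242t x204t x237t x61f x28f x92t x239f x249t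
  have x146t : α 146 = true := tt fun y => c2548 h x327f x197f y
  have x188f : α 188 = false := ff fun y => l4040 h y x146t x71f x335f x180f x379f x1f x238f x94t x113t x97f x61f x28f x92t x239f x249t
  have x264t : α 264 = true := tt fun y => l3664 h x188f y x56f
  have x20t : α 20 = true := tt fun y => c533 h x188f x57f y
  c556 h x264t x92t x20t

theorem l4042 (h : Good α) (x188f : α 188 = false) (x22t : α 22 = true) (x94f : α 94 = false) (x57f : α 57 = false) : False :=
  have x20t : α 20 = true := tt fun y => c533 h x188f x57f y
  have x106t : α 106 = true := tt fun y => c2100 h x188f x94f y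
  c513 h x106t x22t x20t

theorem l4043 (h : Good α) (x272f : α 272 = false) (x146t : α 146 = true) (x94f : α 94 = false) (x54t : α 54 = true) (x59t : α 59 = true) (x28f : α 28 = false) (x346f : α 346 = false) : False :=
  have x187t : α 187 = true := tt fun y => c2112 h x272f x94f x346f y
  have x102t : α 102 = true := tt fun y => c864 h x272f x28f x346f y
  have x90f : α 90 = false := ff fun y => c1959 h x187t y x102t
  have x253f : α 253 = false := ff fun y => c1326 h x187t x54t y x146t
  have x14f : α 14 = false := ff fun y => l3620 h x102t y x59t
  c264 h x253f x90f x14f

theorem l4044 (h : Good α) (x146t : α 146 = true) (x233t : α 233 = true) (x94f : α 94 = false) (x201f : α 201 = false) (x54t : α 54 = true) (x59t : α 59 = true) (x28f : α 28 = false) (x200t : α 200 = true) (x239f : α 239 = false) (x346f : α 346 = false) : False :=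
  have x56f : α 56 = false := ff fun y => c1297 h y x54t x146t
  have x53t : α 53 = true := tt fun y => l3648 h y x56f
  have x379f : α 379 = false := ff fun y => l3463 h y x200t x239f x53t
  have x158f : α 158 = false := ff fun y => l3451 h y x233t x201f x53t
  have x272t : α 272 = true := tt fun y => l4043 h y x146t x94f x54t x59t x28f x346f
  have x459f : α 459 = false := ff fun y => l3732 h x272t y
  have x114f : α 114 = false := ff fun y => l3695 h y x272t
  have x81t : α 81 = true := tt fun y => c1837 h x459f x379f x158f y
  have x23t : α 23 = true := tt fun y => c715 h x459f x379f x114f y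
  c685 h x53t x23t x81t

theorem l4045 (h : Good α) (x272t : α 272 = true) (x298f : α 298 = false) (x452t : α 452 = true) (x379f : α 379 = false) (x113t : α 113 = true) : False :=
  have x459f : α 459 = false := ff fun y => l3732 h x272t y
  have x114f : α 114 = false := ff fun y => l3695 h y x272t
  have x386t : α 386 = true := tt fun y => c3329 h x459f y x379f
  have x19t : α 19 = true := tt fun y => c505 h x298f x114f y
  c503 h x386t x452t x19t x113t

theorem l4046 (h : Good α) (x272f : α 272 = false) (x379f : α 379 = false) (x327t : α 327 = true) (x443t : α 443 = true) (x94f : α 94 = false) (x340t : α 340 = true) (x113t : α 113 = true) (x242t : α 242 = true) (x201f : α 201 = false) (x91f : α 91 = false) (x54t : α 54 = true) (x58t : α 58 = true) (x28f : α 28 = false) (x239f : α 239 = false) (x346f : α 346 = false) : False :=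
  have x56f : α 56 = false := ff fun y => l3667 h y x327t
  have x53t : α 53 = true := tt fun y => l3648 h y x56f
  have x187t : α 187 = true := tt fun y => c2112 h x272f x94f x346f y
  have x102t : α 102 = true := tt fun y => c864 h x272f x28f x346f y
  have x180f : α 180 = false := ff fun y => l3899 h y x379f x113t x242t x201f x91f x53t x58t x272f
  have x114t : α 114 = true := tt fun y => l4023 h y x272f x327t x53t x443t x91f x58t
  have x393f : α 393 = false := ff fun y => c1335 h y x187t x54t
  have x170f : α 170 = false := ff fun y => l3682 h x102t y
  have x10f : α 10 = false := ff fun y => l4025 h x114t y x327t x180f x379f x272f x53t x340t x54t x28f x346f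
  c202 h x239f x10f x393f x170f

theorem l4047 (h : Good α) (x236t : α 236 = true) (x61f : α 61 = false) (x92t : α 92 = true) (x200t : α 200 = true) (x239f : α 239 = false) (x249t : α 249 = true) : False :=
  have x58t : α 58 = true := tt fun y => l4016 h y x61f x92t x239f x249t
  have x54t : α 54 = true := tt fun y => l3795 h y x61f x92t x58t x249t
  have x197f : α 197 = false := ff fun y => l3796 h y x54t
  have x201f : α 201 = false := ff fun y => l3902 h y x58t x200t x61f x197f x92t x249t
  have x91f : α 91 = false := ff fun y => l3615 h y x58t x61f x197f
  have x59t : α 59 = true := tt fun y => l3669 h y x61f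
  have x28f : α 28 = false := ff fun y => l4015 h y x92t x200t x239f x249t
  have x57f : α 57 = false := ff fun y => l3876 h x239f x92t y x249t
  have x273t : α 273 = true := tt fun y => l4014 h y x249t
  have x346f : α 346 = false := ff fun y => l3935 h y x249t
  have x353f : α 353 = false := ff fun y => c2072 h y x236t x249t x92t
  have x97f : α 97 = false := ff fun y => c1466 h x200t x236t x58t y
  have x547t : α 547 = true := tt fun y => c3065 h y x353f x239f
  have x242t : α 242 = true := tt fun y => c1556 h x61f x97f y
  have x449f : α 449 = false := ff fun y => c2076 h x547t x236t y x92t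
  have x113t : α 113 = true := tt fun y => l3846 h y x242t x201f x57f x92t
  have x340t : α 340 = true := tt fun y => l4017 h y x97f x91f x273t
  have x94f : α 94 = false := ff fun y => l4041 h y x236t x61f x92t x200t x239f x249t
  have x233t : α 233 = true := tt fun y => c1420 h x94f x57f y x201f
  have x443t : α 443 = true := tt fun y => c1984 h x449f x94f y x91f
  have x146f : α 146 = false := ff fun y => l4044 h y x233t x94f x201f x54t x59t x28f x200t x239f x346f
  have x327t : α 327 = true := tt fun y => c2548 h y x197f x146f
  have x56f : α 56 = false := ff fun y => l3667 h y x327t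
  have x53t : α 53 = true := tt fun y => l3648 h y x56f
  have x379f : α 379 = false := ff fun y => l3463 h y x200t x239f x53t
  have x158f : α 158 = false := ff fun y => l3451 h y x233t x201f x53t
  have x272t : α 272 = true := tt fun y => l4046 h y x379f x327t x443t x94f x340t x113t x242t x201f x91f x54t x58t x28f x239f x346f
  have x459f : α 459 = false := ff fun y => l3732 h x272t y
  have x114f : α 114 = false := ff fun y => l3695 h y x272t
  have x81t : α 81 = true := tt fun y => c1837 h x459f x379f x158f y
  have x23t : α 23 = true := tt fun y => c715 h x459f x379f x114f y
  c685 h x53t x23t x81t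

theorem l4048 (h : Good α) (x94f : α 94 = false) (x70t : α 70 = true) (x180f : α 180 = false) (x379f : α 379 = false) (x114t : α 114 = true) (x10t : α 10 = true) (x91f : α 91 = false) (x54t : α 54 = true) (x28f : α 28 = false) (x92t : α 92 = true) (x346f : α 346 = false) : False :=
  have x272f : α 272 = false := ff fun y => l3695 h x114t y
  have x102t : α 102 = true := tt fun y => c864 h x272f x28f x346f y
  have x267f : α 267 = false := ff fun y => l3683 h x102t y
  have x158f : α 158 = false := ff fun y => l3694 h x114t y
  have x187t : α 187 = true := tt fun y => c2112 h x272f x94f x346f y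
  have x459t : α 459 = true := tt fun y => l3600 h y x70t x379f x272f x158f x92t x94f
  have x18f : α 18 = false := ff fun y => c431 h x187t x54t y
  have x340f : α 340 = false := ff fun y => l4022 h x114t x459t x10t x180f x272f y x54t x28f x346f
  c443 h x18f x267f x91f x340f

theorem l4049 (h : Good α) (x340f : α 340 = false) (x90t : α 90 = true) (x339f : α 339 = false) (x191t : α 191 = true) (x233f : α 233 = false) (x161t : α 161 = true) (x36f : α 36 = false) (x485t : α 485 = true) (x267f : α 267 = false) (x158f : α 158 = false) (x10t : α 10 = true) (x91f : α 91 = false) (x54t : α 54 = true) (x28f : α 28 = false) (x239f : α 239 = false) (x273t : α 273 = true) : False :=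
  have x381f : α 381 = false := ff fun y => c1339 h x54t x191t y
  have x259t : α 259 = true := tt fun y => c2997 h x381f y x233f
  have x419f : α 419 = false := ff fun y => c2841 h x191t x259t y
  have x362t : α 362 = true := tt fun y => c2667 h x158f x233f y x419f
  have x24f : α 24 = false := ff fun y => c737 h y x54t x191t
  have x63t : α 63 = true := tt fun y => l3532 h x24f y x54t
  have x260f : α 260 = false := ff fun y => l3657 h x191t y x54t
  have x52f : α 52 = false := ff fun y => l3640 h x54t y
  have x183t : α 183 = true := tt fun y => c2006 h x91f y x340f
  have x18t : α 18 = true := tt fun y => c443 h y x267f x91f x340f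
  have x483t : α 483 = true := tt fun y => c3163 h x260f x340f y
  have x80f : α 80 = false := ff fun y => c1817 h y x161t x183t x273t
  have x75f : α 75 = false := ff fun y => c428 h x54t x18t y
  have x459t : α 459 = true := tt fun y => c1829 h y x239f x80f
  have x22t : α 22 = true := tt fun y => c634 h x80f y x52f
  have x4t : α 4 = true := tt fun y => c141 h y x75f x158f x233f
  have x44f : α 44 = false := ff fun y => c193 h x459t x10t x485t y
  have x29f : α 29 = false := ff fun y => c627 h y x22t x90t
  have x108t : α 108 = true := tt fun y => c843 h x44f x28f y
  have x68t : α 68 = true := tt fun y => c887 h x80f x29f y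
  have x120f : α 120 = false := ff fun y => l3685 h x108t y
  have x181f : α 181 = false := ff fun y => c1599 h x63t x68t x191t y
  have x46t : α 46 = true := tt fun y => c1019 h x120f x36f y
  have x561t : α 561 = true := tt fun y => c2738 h x181f x339f y
  have x464f : α 464 = false := ff fun y => c139 h x4t y x46t x483t
  have x247f : α 247 = false := ff fun y => c146 h x4t y x362t x561t
  c1776 h x75f x247f x464f

theorem l4050 (h : Good α) (x242t : α 242 = true) (x113t : α 113 = true) (x56f : α 56 = false) (x161t : α 161 = true) (x379f : α 379 = false) (x204t : α 204 = true) (x114t : α 114 = true) (x23f : α 23 = false) (x10t : α 10 = true) (x201f : α 201 = false) (x91f : α 91 = false) (x54t : α 54 = true) (x28f : α 28 = false) (x92t : α 92 = true) (x239f : α 239 = false) (x249t : α 249 = true) : False :=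
  have x346f : α 346 = false := ff fun y => l3935 h y x249t
  have x272f : α 272 = false := ff fun y => l3695 h x114t y
  have x477t : α 477 = true := tt fun y => c3214 h x272f x346f y
  have x275f : α 275 = false := ff fun y => c2396 h x477t y x114t
  have x285t : α 285 = true := tt fun y => c3226 h x346f x275f y
  have x36f : α 36 = false := ff fun y => c1037 h y x114t x285t
  have x485t : α 485 = true := tt fun y => c3229 h y x346f x275f
  have x102t : α 102 = true := tt fun y => c864 h x272f x28f x346f y
  have x267f : α 267 = false := ff fun y => l3683 h x102t y
  have x158f : α 158 = false := ff fun y => l3694 h x114t y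
  have x273t : α 273 = true := tt fun y => l4014 h y x249t
  have x180f : α 180 = false := ff fun y => l3599 h y x379f x242t x23f x201f x113t x56f
  have x70t : α 70 = true := tt fun y => l3662 h y x180f x56f
  have x94t : α 94 = true := tt fun y => l4048 h y x70t x180f x379f x114t x10t x91f x54t x28f x92t x346f
  have x238f : α 238 = false := ff fun y => c1321 h x94t y x54t x204t
  have x233f : α 233 = false := ff fun y => c2041 h x94t x92t y x242t
  have x191t : α 191 = true := tt fun y => l4010 h y x275f x102t x28f x94t x91f
  have x381f : α 381 = false := ff fun y => c1339 h x54t x191t y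
  have x259t : α 259 = true := tt fun y => c2997 h x381f y x233f
  have x187f : α 187 = false := ff fun y => c2794 h y x191t x259t
  have x339f : α 339 = false := ff fun y => c3154 h x285t x259t y
  have x90t : α 90 = true := tt fun y => c1972 h x346f x187f y
  have x214f : α 214 = false := ff fun y => c1961 h x90t x102t y
  have x128t : α 128 = true := tt fun y => c2495 h x272f y x346f x214f
  have x117f : α 117 = false := ff fun y => l4039 h y x128t x28f x92t
  have x424t : α 424 = true := tt fun y => c2427 h y x238f x117f
  have x340t : α 340 = true := tt fun y => l4049 h y x90t x339f x191t x233f x161t x36f x485t x267f x158f x10t x91f x54t x28f x239f x273t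
  have x459f : α 459 = false := ff fun y => l4022 h x114t y x10t x180f x272f x340t x54t x28f x346f
  have x184t : α 184 = true := tt fun y => c2771 h x459f x379f x272f y
  have x188f : α 188 = false := ff fun y => l3594 h x459f x70t y x379f x272f x158f
  have x264f : α 264 = false := ff fun y => c2769 h x184t y x424t
  l3664 h x188f x264f x56f

theorem l4051 (h : Good α) (x113t : α 113 = true) (x56f : α 56 = false) (x379f : α 379 = false) (x204t : α 204 = true) (x114t : α 114 = true) (x10t : α 10 = true) (x236f : α 236 = false) (x201f : α 201 = false) (x61f : α 61 = false) (x28f : α 28 = false) (x92t : α 92 = true) (x239f : α 239 = false) (x249t : α 249 = true) : False :=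
  have x58t : α 58 = true := tt fun y => l4016 h y x61f x92t x239f x249t
  have x54t : α 54 = true := tt fun y => l3795 h y x61f x92t x58t x249t
  have x197f : α 197 = false := ff fun y => l3796 h y x54t
  have x91f : α 91 = false := ff fun y => l3615 h y x58t x61f x197f
  have x97t : α 97 = true := tt fun y => c1988 h x239f x236f x91f y
  have x189f : α 189 = false := ff fun y => l3845 h y x97t x56f x58t
  have x161t : α 161 = true := tt fun y => c2676 h x379f x236f y
  have x250f : α 250 = false := ff fun y => c1469 h x58t x97t y
  have x273t : α 273 = true := tt fun y => l4014 h y x249t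
  have x23f : α 23 = false := ff fun y => c707 h y x97t x273t
  have x242f : α 242 = false := ff fun y => l4050 h y x113t x56f x161t x379f x204t x114t x23f x10t x201f x91f x54t x28f x92t x239f x249t
  have x1t : α 1 = true := tt fun y => c99 h y x61f x201f x242f
  have x233t : α 233 = true := tt fun y => c2990 h x239f x236f y x242f
  have x94t : α 94 = true := tt fun y => l3601 h y x113t x189f x97t x250f x1t x61f
  l3606 h x54t x233t x94t x204t x1t

theorem l4052 (h : Good α) (x242f : α 242 = false) (x443t : α 443 = true) (x201f : α 201 = false) (x197f : α 197 = false) (x58t : α 58 = true) (x61f : α 61 = false) : False :=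
  have x1t : α 1 = true := tt fun y => c99 h y x61f x201f x242f
  have x543f : α 543 = false := ff fun y => l3412 h x242f x197f x201f y x61f
  have x402t : α 402 = true := tt fun y => c1583 h y x61f x543f x242f
  c84 h x402t x1t x443t x58t

theorem l4053 (h : Good α) (x56t : α 56 = true) (x54t : α 54 = true) (x61f : α 61 = false) : False :=
  have x53f : α 53 = false := ff fun y => l3649 h y x56t
  have x153f : α 153 = false := ff fun y => c1299 h y x56t x54t
  c1262 h x153f x53f x61f

theorem l4054 (h : Good α) (x61f : α 61 = false) (x92t : α 92 = true) (x200t : α 200 = true) (x239f : α 239 = false) (x249t : α 249 = true) : False :=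
  have x28f : α 28 = false := ff fun y => l4015 h y x92t x200t x239f x249t
  have x57f : α 57 = false := ff fun y => l3876 h x239f x92t y x249t
  have x58t : α 58 = true := tt fun y => l4016 h y x61f x92t x239f x249t
  have x54t : α 54 = true := tt fun y => l3795 h y x61f x92t x58t x249t
  have x197f : α 197 = false := ff fun y => l3796 h y x54t
  have x91f : α 91 = false := ff fun y => l3615 h y x58t x61f x197f
  have x201f : α 201 = false := ff fun y => l3902 h y x58t x200t x61f x197f x92t x249t
  have x236f : α 236 = false := ff fun y => l4047 h y x61f x92t x200t x239f x249t
  have x353t : α 353 = true := tt fun y => c1575 h y x236f x197f x61f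
  have x97t : α 97 = true := tt fun y => c1988 h x239f x236f x91f y
  have x10t : α 10 = true := tt fun y => l3860 h y x239f x236f x200t
  have x237f : α 237 = false := ff fun y => c1487 h x353t x200t y x58t
  have x250f : α 250 = false := ff fun y => c1469 h x58t x97t y
  have x114t : α 114 = true := tt fun y => l3588 h y x237f x58t x91f
  have x443t : α 443 = true := tt fun y => c2024 h y x237f x91f
  have x204t : α 204 = true := tt fun y => c2877 h x197f y x237f x250f
  have x242t : α 242 = true := tt fun y => l4052 h y x443t x201f x197f x58t x61f
  have x113t : α 113 = true := tt fun y => l3846 h y x242t x201f x57f x92t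
  have x56f : α 56 = false := ff fun y => l4053 h y x54t x61f
  have x53t : α 53 = true := tt fun y => l3648 h y x56f
  have x379t : α 379 = true := tt fun y => l4051 h x113t x56f y x204t x114t x10t x236f x201f x61f x28f x92t x239f x249t
  l3463 h x379t x200t x239f x53t

theorem l4055 (h : Good α) (x92t : α 92 = true) (x200t : α 200 = true) (x239f : α 239 = false) (x249t : α 249 = true) : False :=
  have x57f : α 57 = false := ff fun y => l3876 h x239f x92t y x249t
  have x61t : α 61 = true := tt fun y => l4054 h y x92t x200t x239f x249t
  have x97f : α 97 = false := ff fun y => c1545 h x92t x61t y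
  have x197f : α 197 = false := ff fun y => c1547 h x249t x92t y x61t
  have x236f : α 236 = false := ff fun y => c1549 h y x92t x61t
  have x54f : α 54 = false := ff fun y => l3870 h x61t y
  have x1t : α 1 = true := tt fun y => c41 h x197f x54f y
  have x402t : α 402 = true := tt fun y => c1342 h y x197f x54f
  have x91t : α 91 = true := tt fun y => c1988 h x239f x236f y x97f
  have x94t : α 94 = true := tt fun y => c1322 h x239f y x54f
  have x204f : α 204 = false := ff fun y => c102 h x1t x61t y
  have x449f : α 449 = false := ff fun y => c1551 h y x92t x402t x61t
  have x547f : α 547 = false := ff fun y => c118 h y x200t x402t x1t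
  have x237f : α 237 = false := ff fun y => c1981 h x249t x94t y x91t
  have x352t : α 352 = true := tt fun y => c1348 h x239f y x54f x204f
  have x250t : α 250 = true := tt fun y => c2877 h x197f x204f x237f y
  have x351t : α 351 = true := tt fun y => c2887 h x197f x237f y
  have x58f : α 58 = false := ff fun y => c1489 h x200t x352t y x250t
  have x233f : α 233 = false := ff fun y => c2122 h x249t x94t x351t y
  have x443t : α 443 = true := tt fun y => c1405 h x449f x57f y x58f
  have x543t : α 543 = true := tt fun y => c2993 h x547f x239f y x233f
  c3347 h x402t x443t x543t

theorem l4056 (h : Good α) (x379t : α 379 = true) (x16f : α 16 = false) (x271f : α 271 = false) (x308f : α 308 = false) (x328t : α 328 = true) (x120f : α 120 = false) (x91t : α 91 = true) (x238t : α 238 = true) (x58t : α 58 = true) (x57f : α 57 = false) (x53f : α 53 = false) (x200t : α 200 = true) (x239f : α 239 = false) (x346f : α 346 = false) : False :=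
  have x393t : α 393 = true := tt fun y => c3061 h x239f x271f y
  have x300t : α 300 = true := tt fun y => c3060 h y x239f x271f
  have x97f : α 97 = false := ff fun y => c1457 h x91t x58t y
  have x80f : α 80 = false := ff fun y => c1826 h x379t x200t y
  have x459t : α 459 = true := tt fun y => c1829 h y x239f x80f
  have x118t : α 118 = true := tt fun y => c1814 h x239f x80f x271f y
  have x272f : α 272 = false := ff fun y => l3732 h y x459t
  have x477t : α 477 = true := tt fun y => c3214 h x272f x346f y
  have x286t : α 286 = true := tt fun y => c3211 h y x272f x346f
  have x264f : α 264 = false := ff fun y => l3862 h y x238t x57f x53f x272f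
  have x184t : α 184 = true := tt fun y => l3652 h y x264f x53f
  have x23f : α 23 = false := ff fun y => l3767 h x264f x379t y
  have x33t : α 33 = true := tt fun y => c681 h y x23f x97f
  have x19f : α 19 = false := ff fun y => c465 h x33t y x91t
  have x183f : α 183 = false := ff fun y => l3785 h y x91t x19f x58t
  have x114t : α 114 = true := tt fun y => c461 h y x19f x23f
  have x275f : α 275 = false := ff fun y => c2396 h x477t y x114t
  have x425t : α 425 = true := tt fun y => c2460 h x308f x120f y x275f
  have x181t : α 181 = true := tt fun y => c360 h x120f x16f x275f y
  have x52f : α 52 = false := ff fun y => c1252 h x328t y x425t x181t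
  have x90f : α 90 = false := ff fun y => c1963 h x118t y x181t
  have x22t : α 22 = true := tt fun y => c634 h x80f y x52f
  have x251t : α 251 = true := tt fun y => l3762 h y x183f x80f x52f x22t
  have x96t : α 96 = true := tt fun y => c1218 h y x53f x90f x52f
  have x134f : α 134 = false := ff fun y => c2512 h x300t y x393t x251t
  have x110f : α 110 = false := ff fun y => c2161 h x184t x96t y
  have x29t : α 29 = true := tt fun y => c336 h x134f y x16f
  have x258t : α 258 = true := tt fun y => c709 h x110f x23f y x183f
  c903 h x286t x29t x477t x258t

theorem l4057 (h : Good α) (x114t : α 114 = true) (x161t : α 161 = true) (x16f : α 16 = false) (x308f : α 308 = false) (x328t : α 328 = true) (x120f : α 120 = false) (x233t : α 233 = true) (x20t : α 20 = true) (x201f : α 201 = false) (x91t : α 91 = true) (x59f : α 59 = false) (x249t : α 249 = true) : False :=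
  have x273t : α 273 = true := tt fun y => l4014 h y x249t
  have x346f : α 346 = false := ff fun y => l3935 h y x249t
  have x272f : α 272 = false := ff fun y => l3695 h x114t y
  have x183f : α 183 = false := ff fun y => c1993 h x114t x91t y
  have x477t : α 477 = true := tt fun y => c3214 h x272f x346f y
  have x275f : α 275 = false := ff fun y => c2396 h x477t y x114t
  have x425t : α 425 = true := tt fun y => c2460 h x308f x120f y x275f
  have x181t : α 181 = true := tt fun y => c360 h x120f x16f x275f y
  have x52f : α 52 = false := ff fun y => c1252 h x328t y x425t x181t
  have x157t : α 157 = true := tt fun y => c1227 h x52f x59f y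
  have x146t : α 146 = true := tt fun y => c1226 h y x52f x59f
  have x189t : α 189 = true := tt fun y => c1228 h x52f x59f x183f y
  have x378t : α 378 = true := tt fun y => c1258 h x52f x183f y
  have x22t : α 22 = true := tt fun y => c637 h y x52f x183f
  have x179f : α 179 = false := ff fun y => c2542 h y x161t x146t x157t
  have x71f : α 71 = false := ff fun y => c1714 h y x161t x189t x273t
  have x451f : α 451 = false := ff fun y => l3434 h y x378t x233t x201f
  have x387f : α 387 = false := ff fun y => c517 h x22t x20t x378t y
  c1718 h x179f x71f x451f x387f

theorem l4058 (h : Good α) (x328t : α 328 = true) (x204f : α 204 = false) (x91t : α 91 = true) (x61t : α 61 = true) (x200t : α 200 = true) (x239f : α 239 = false) (x249t : α 249 = true) : False :=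
  have x92f : α 92 = false := ff fun y => l4055 h y x200t x239f x249t
  have x54f : α 54 = false := ff fun y => l3870 h x61t y
  have x352t : α 352 = true := tt fun y => c1348 h x239f y x54f x204f
  have x236f : α 236 = false := ff fun y => c2912 h x200t y x352t
  have x94t : α 94 = true := tt fun y => c1322 h x239f y x54f
  have x58t : α 58 = true := tt fun y => l3947 h x94t x61t y x92f x249t
  have x97f : α 97 = false := ff fun y => c1457 h x91t x58t y
  have x10t : α 10 = true := tt fun y => l3860 h y x239f x236f x200t
  have x28f : α 28 = false := ff fun y => l3618 h x10t y
  have x108t : α 108 = true := tt fun y => l3856 h y x28f x236f x97f x61t x92f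
  have x120f : α 120 = false := ff fun y => l3685 h x108t y
  have x250f : α 250 = false := ff fun y => l3938 h x94t y x91t x92f x249t
  have x354t : α 354 = true := tt fun y => c2940 h x204f x250f y
  have x201f : α 201 = false := ff fun y => c2908 h x200t x352t y x354t
  have x237f : α 237 = false := ff fun y => c1981 h x249t x94t y x91t
  have x197t : α 197 = true := tt fun y => c2877 h y x204f x237f x250f
  have x57f : α 57 = false := ff fun y => c1423 h x249t x94t y
  have x242t : α 242 = true := tt fun y => c1413 h x57f x92f x201f y
  have x351f : α 351 = false := ff fun y => c1578 h x197t x61t y x242t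
  have x233t : α 233 = true := tt fun y => c2921 h x351f y x201f
  have x20t : α 20 = true := tt fun y => c521 h x92f y x28f
  have x238t : α 238 = true := tt fun y => c1415 h x57f x92f y
  have x53f : α 53 = false := ff fun y => l3778 h y x61t
  have x56t : α 56 = true := tt fun y => l3648 h x53f y
  have x327f : α 327 = false := ff fun y => l3667 h x56t y
  have x59f : α 59 = false := ff fun y => l3670 h y x61t
  have x346f : α 346 = false := ff fun y => l3935 h y x249t
  have x308f : α 308 = false := ff fun y => l3689 h y x108t x328t
  have x24t : α 24 = true := tt fun y => c758 h x308f x120f y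
  have x271f : α 271 = false := ff fun y => c748 h y x94t x24t
  have x16f : α 16 = false := ff fun y => c323 h x24t y x108t
  have x379f : α 379 = false := ff fun y => l4056 h y x16f x271f x308f x328t x120f x91t x238t x58t x57f x53f x200t x239f x346f
  have x161t : α 161 = true := tt fun y => c2676 h x379f x236f y
  have x184t : α 184 = true := tt fun y => c1294 h x379f y x53f
  have x114f : α 114 = false := ff fun y => l4057 h y x161t x16f x308f x328t x120f x233t x20t x201f x91t x59f x249t
  have x84t : α 84 = true := tt fun y => c1867 h y x114f x237f
  have x19f : α 19 = false := ff fun y => c482 h x84t y x58t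
  have x23t : α 23 = true := tt fun y => c461 h x114f x19f y
  have x298t : α 298 = true := tt fun y => c505 h y x114f x19f
  have x65f : α 65 = false := ff fun y => c694 h y x23t x58t
  have x429f : α 429 = false := ff fun y => c719 h y x184t x298t x23t
  have x264t : α 264 = true := tt fun y => l3709 h x429f x327f y
  have x113t : α 113 = true := tt fun y => c1637 h x65f y x250f
  c711 h x184t x264t x23t x113t

end Q110.RC
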