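import Pool.Agent.Q110.RC.Lem2

/-! # Generated part of the refutation used for `S(4)` -/

set_option linter.all false

namespace Q110.RC

variable {α : Nat → Bool}

theorem l4059 (h : Good α) (x114f : α 114 = false) (x184t : α 184 = true) (x250f : α 250 = false) (x237f : α 237 = false) (x58t : α 58 = true) (x327f : α 327 = false) : False :=
  have x84t : α 84 = true := tt fun y => c1867 h y x114f x237f
  have x19f : α 19 = false := ff fun y => c482 h x84t y x58t
  have x23t : α 23 = true := tt fun y => c461 h x114f x19f y
  have x298t : α 298 = true := tt fun y => c505 h y x114f x19f
  have x65f : α 65 = false := ff fun y => c694 h y x23t x58t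
  have x429f : α 429 = false := ff fun y => c719 h y x184t x298t x23t
  have x113t : α 113 = true := tt fun y => c1637 h x65f y x250f
  have x264t : α 264 = true := tt fun y => l3709 h x429f x327f y
  c711 h x184t x264t x23t x113t

theorem l4060 (h : Good α) (x379f : α 379 = false) (x24t : α 24 = true) (x1f : α 1 = false) (x325f : α 325 = false) (x328f : α 328 = false) (x120f : α 120 = false) (x199f : α 199 = false) (x250f : α 250 = false) (x237f : α 237 = false) (x91t : α 91 = true) (x58t : α 58 = true) (x57f : α 57 = false) (x94t : α 94 = true) (x53f : α 53 = false) (x92f : α 92 = false) (x239f : α 239 = false) (x346f : α 346 = false) : False :=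
  have x271f : α 271 = false := ff fun y => c748 h y x94t x24t
  have x300t : α 300 = true := tt fun y => c3060 h y x239f x271f
  have x107f : α 107 = false := ff fun y => c751 h x300t y x24t
  have x238t : α 238 = true := tt fun y => c1415 h x57f x92f y
  have x56t : α 56 = true := tt fun y => l3648 h x53f y
  have x327f : α 327 = false := ff fun y => l3667 h x56t y
  have x184t : α 184 = true := tt fun y => c1294 h x379f y x53f
  have x114t : α 114 = true := tt fun y => l4059 h y x184t x250f x237f x58t x327f
  have x158f : α 158 = false := ff fun y => l3694 h x114t y
  have x272f : α 272 = false := ff fun y => l3695 h x114t y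
  have x222f : α 222 = false := ff fun y => c1995 h y x114t x91t
  have x477t : α 477 = true := tt fun y => c3214 h x272f x346f y
  have x286t : α 286 = true := tt fun y => c3211 h y x272f x346f
  have x264f : α 264 = false := ff fun y => l3862 h y x238t x57f x53f x272f
  have x41t : α 41 = true := tt fun y => c1114 h x272f x120f y
  have x485t : α 485 = true := tt fun y => c2457 h y x272f x120f
  have x84t : α 84 = true := tt fun y => c1876 h x328f x199f x222f y
  have x212t : α 212 = true := tt fun y => c2957 h x328f x325f x222f y
  have x494t : α 494 = true := tt fun y => c2086 h y x264f x92f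
  have x36f : α 36 = false := ff fun y => c1014 h x41t y x114t
  have x460f : α 460 = false := ff fun y => c1870 h y x84t x477t x114t
  have x398f : α 398 = false := ff fun y => c1878 h y x494t x84t x212t
  have x46t : α 46 = true := tt fun y => c1019 h x120f x36f y
  have x151t : α 151 = true := tt fun y => c1429 h x398f x57f x460f y
  have x188t : α 188 = true := tt fun y => c1434 h x398f y x57f
  have x9f : α 9 = false := ff fun y => c176 h x84t y x114t x46t
  have x50f : α 50 = false := ff fun y => c1182 h x151t y x58t
  have x386f : α 386 = false := ff fun y => c1395 h y x188t x56t
  have x459t : α 459 = true := tt fun y => l3864 h y x188t x264f x158f x53f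
  have x88f : α 88 = false := ff fun y => c741 h x188t y x94t x24t
  have x51t : α 51 = true := tt fun y => c1 h y x1f x50f
  have x269t : α 269 = true := tt fun y => c2301 h x386f y x239f x107f
  have x524f : α 524 = false := ff fun y => c3390 h y x459t x485t
  have x182t : α 182 = true := tt fun y => c1926 h x120f x88f y
  have x15t : α 15 = true := tt fun y => c290 h x120f x88f x36f y
  have x498t : α 498 = true := tt fun y => c1929 h x524f y x120f x88f
  have x35f : α 35 = false := ff fun y => c1000 h x286t x269t x46t y
  have x266f : α 266 = false := ff fun y => c2742 h y x184t x182t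
  have x156t : α 156 = true := tt fun y => c175 h x9f x35f y
  have x562t : α 562 = true := tt fun y => c3189 h y x379f x266f
  have x60f : α 60 = false := ff fun y => c1206 h x51t y x156t
  have x93f : α 93 = false := ff fun y => c303 h x498t x562t x15t y
  c30 h x53f x93f x1f x60f

theorem l4061 (h : Good α) (x204f : α 204 = false) (x91t : α 91 = true) (x61t : α 61 = true) (x200t : α 200 = true) (x239f : α 239 = false) (x249t : α 249 = true) : False :=
  have x92f : α 92 = false := ff fun y => l4055 h y x200t x239f x249t
  have x54f : α 54 = false := ff fun y => l3870 h x61t y
  have x94t : α 94 = true := tt fun y => c1322 h x239f y x54f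
  have x250f : α 250 = false := ff fun y => l3938 h x94t y x91t x92f x249t
  have x58t : α 58 = true := tt fun y => l3947 h x94t x61t y x92f x249t
  have x97f : α 97 = false := ff fun y => c1457 h x91t x58t y
  have x237f : α 237 = false := ff fun y => c1981 h x249t x94t y x91t
  have x57f : α 57 = false := ff fun y => c1423 h x249t x94t y
  have x238t : α 238 = true := tt fun y => c1415 h x57f x92f y
  have x53f : α 53 = false := ff fun y => l3778 h y x61t
  have x56t : α 56 = true := tt fun y => l3648 h x53f y
  have x327f : α 327 = false := ff fun y => l3667 h x56t y
  have x346f : α 346 = false := ff fun y => l3935 h y x249t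
  have x196t : α 196 = true := tt fun y => l3702 h y x204f
  have x352t : α 352 = true := tt fun y => c1348 h x239f y x54f x204f
  have x197t : α 197 = true := tt fun y => c2877 h y x204f x237f x250f
  have x353f : α 353 = false := ff fun y => c3049 h y x352t x249t x238t
  have x236f : α 236 = false := ff fun y => c2912 h x200t y x352t
  have x199f : α 199 = false := ff fun y => l3725 h x197t y
  have x547t : α 547 = true := tt fun y => c3065 h y x353f x239f
  have x10t : α 10 = true := tt fun y => l3860 h y x239f x236f x200t
  have x28f : α 28 = false := ff fun y => l3618 h x10t y
  have x108t : α 108 = true := tt fun y => l3856 h y x28f x236f x97f x61t x92f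
  have x120f : α 120 = false := ff fun y => l3685 h x108t y
  have x328f : α 328 = false := ff fun y => l4058 h y x204f x91t x61t x200t x239f x249t
  have x153t : α 153 = true := tt fun y => c2620 h x328f x199f y
  have x402t : α 402 = true := tt fun y => c3263 h x328f x327f y
  have x325f : α 325 = false := ff fun y => c2618 h x153t x196t y
  have x1f : α 1 = false := ff fun y => c118 h x547t x200t x402t y
  have x52t : α 52 = true := tt fun y => c20 h x53f x1f y
  have x16f : α 16 = false := ff fun y => l3621 h x108t y x52t
  have x24t : α 24 = true := tt fun y => c324 h x120f y x16f
  have x271f : α 271 = false := ff fun y => c748 h y x94t x24t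
  have x300t : α 300 = true := tt fun y => c3060 h y x239f x271f
  have x107f : α 107 = false := ff fun y => c751 h x300t y x24t
  have x379t : α 379 = true := tt fun y => l4060 h y x24t x1f x325f x328f x120f x199f x250f x237f x91t x58t x57f x94t x53f x92f x239f x346f
  have x80f : α 80 = false := ff fun y => c1826 h x379t x200t y
  have x459t : α 459 = true := tt fun y => c1829 h y x239f x80f
  have x272f : α 272 = false := ff fun y => l3732 h y x459t
  have x386f : α 386 = false := ff fun y => l3668 h y x459t x56t
  have x477t : α 477 = true := tt fun y => c3214 h x272f x346f y
  have x286t : α 286 = true := tt fun y => c3211 h y x272f x346f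
  have x102t : α 102 = true := tt fun y => c864 h x272f x28f x346f y
  have x264f : α 264 = false := ff fun y => l3862 h y x238t x57f x53f x272f
  have x41t : α 41 = true := tt fun y => c1114 h x272f x120f y
  have x577t : α 577 = true := tt fun y => c3067 h y x386f x239f
  have x269t : α 269 = true := tt fun y => c2301 h x386f y x239f x107f
  have x21f : α 21 = false := ff fun y => l3626 h y x102t x61t
  have x494t : α 494 = true := tt fun y => c2086 h y x264f x92f
  have x184t : α 184 = true := tt fun y => l3652 h y x264f x53f
  have x23f : α 23 = false := ff fun y => l3767 h x264f x379t y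
  have x341f : α 341 = false := ff fun y => c2628 h x577t y x153t
  have x270t : α 270 = true := tt fun y => c607 h x341f x92f y x21f
  have x114t : α 114 = true := tt fun y => l4059 h y x184t x250f x237f x58t x327f
  have x33t : α 33 = true := tt fun y => c681 h y x23f x97f
  have x185f : α 185 = false := ff fun y => c1383 h x270t x153t y x56t
  have x222f : α 222 = false := ff fun y => c1995 h y x114t x91t
  have x183f : α 183 = false := ff fun y => c1993 h x114t x91t y
  have x36f : α 36 = false := ff fun y => c1014 h x41t y x114t
  have x65f : α 65 = false := ff fun y => c967 h x153t x196t x33t y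
  have x96t : α 96 = true := tt fun y => c2169 h x346f x185f y
  have x84t : α 84 = true := tt fun y => c1876 h x328f x199f x222f y
  have x212t : α 212 = true := tt fun y => c2957 h x328f x325f x222f y
  have x46t : α 46 = true := tt fun y => c1019 h x120f x36f y
  have x110f : α 110 = false := ff fun y => c2161 h x184t x96t y
  have x460f : α 460 = false := ff fun y => c1870 h y x84t x477t x114t
  have x398f : α 398 = false := ff fun y => c1878 h y x494t x84t x212t
  have x9f : α 9 = false := ff fun y => c176 h x84t y x114t x46t
  have x35f : α 35 = false := ff fun y => c1000 h x286t x269t x46t y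
  have x258t : α 258 = true := tt fun y => c709 h x110f x23f y x183f
  have x169t : α 169 = true := tt fun y => c697 h y x65f x110f x23f
  have x151t : α 151 = true := tt fun y => c1429 h x398f x57f x460f y
  have x156t : α 156 = true := tt fun y => c175 h x9f x35f y
  have x265f : α 265 = false := ff fun y => c2599 h x151t x156t x258t y
  have x172f : α 172 = false := ff fun y => c2598 h x169t y x151t x156t
  c1641 h x65f x172f x183f x265f

theorem l4062 (h : Good α) (x204t : α 204 = true) (x238t : α 238 = true) (x61t : α 61 = true) (x249t : α 249 = true) : False :=
  have x54f : α 54 = false := ff fun y => l3870 h x61t y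
  have x1f : α 1 = false := ff fun y => c102 h y x61t x204t
  have x197f : α 197 = false := ff fun y => c2880 h x249t x238t y x204t
  c41 h x197f x54f x1f

theorem l4063 (h : Good α) (x61t : α 61 = true) (x200t : α 200 = true) (x239f : α 239 = false) (x249t : α 249 = true) : False :=
  have x92f : α 92 = false := ff fun y => l4055 h y x200t x239f x249t
  have x54f : α 54 = false := ff fun y => l3870 h x61t y
  have x94t : α 94 = true := tt fun y => c1322 h x239f y x54f
  have x57f : α 57 = false := ff fun y => c1423 h x249t x94t y
  have x58t : α 58 = true := tt fun y => l3947 h x94t x61t y x92f x249t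
  have x238t : α 238 = true := tt fun y => c1415 h x57f x92f y
  have x204f : α 204 = false := ff fun y => l4062 h y x238t x61t x249t
  have x352t : α 352 = true := tt fun y => c1348 h x239f y x54f x204f
  have x91f : α 91 = false := ff fun y => l4061 h x204f y x61t x200t x239f x249t
  have x250f : α 250 = false := ff fun y => c1489 h x200t x352t x58t y
  c1312 h x54f x204f x91f x250f

theorem l4064 (h : Good α) (x24t : α 24 = true) (x162f : α 162 = false) (x173f : α 173 = false) (x94t : α 94 = true) (x91f : α 91 = false) : False :=
  have x30f : α 30 = false := ff fun y => c726 h x94t x24t y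
  have x18t : α 18 = true := tt fun y => c413 h x30f y x91f
  have x107f : α 107 = false := ff fun y => c407 h y x24t x18t
  have x115f : α 115 = false := ff fun y => c409 h x24t x18t y
  c2296 h x173f x107f x162f x115f

theorem l4065 (h : Good α) (x107t : α 107 = true) (x36f : α 36 = false) (x275f : α 275 = false) (x81f : α 81 = false) (x70t : α 70 = true) (x386f : α 386 = false) (x188t : α 188 = true) (x201f : α 201 = false) (x286t : α 286 = true) (x477t : α 477 = true) (x56f : α 56 = false) (x54f : α 54 = false) (x1t : α 1 = true) (x94t : α 94 = true) (x58f : α 58 = false) (x346f : α 346 = false) : False :=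
  have x53t : α 53 = true := tt fun y => l3648 h y x56f
  have x187f : α 187 = false := ff fun y => c2106 h x107t x94t y
  have x338f : α 338 = false := ff fun y => c2307 h x286t x107t x477t y
  have x29f : α 29 = false := ff fun y => c900 h x286t x107t y
  have x393t : α 393 = true := tt fun y => c1334 h y x187f x54f
  have x18t : α 18 = true := tt fun y => c430 h x187f x54f y
  have x185t : α 185 = true := tt fun y => c1300 h y x56f x187f x54f
  have x269f : α 269 = false := ff fun y => c2778 h y x188t x185t
  have x254f : α 254 = false := ff fun y => c2776 h x188t x185t y
  have x564t : α 564 = true := tt fun y => c3203 h y x386f x269f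
  have x344f : α 344 = false := ff fun y => c2785 h x564t y x185t
  have x385t : α 385 = true := tt fun y => c3301 h x386f x344f y
  have x15f : α 15 = false := ff fun y => c276 h x385t y x393t x18t
  have x93t : α 93 = true := tt fun y => c291 h x36f x15f y
  have x72t : α 72 = true := tt fun y => c294 h x56f x15f y
  have x96f : α 96 = false := ff fun y => c1270 h y x53t x93t
  have x252f : α 252 = false := ff fun y => c1272 h x53t x93t y
  have x35f : α 35 = false := ff fun y => c1002 h x72t y x70t
  have x17t : α 17 = true := tt fun y => c398 h x346f x96f x275f y
  have x119t : α 119 = true := tt fun y => c1834 h x252f y x81f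
  have x115t : α 115 = true := tt fun y => c1008 h x254f x35f x338f y
  have x46t : α 46 = true := tt fun y => c283 h x36f x15f y x35f
  have x73f : α 73 = false := ff fun y => c384 h x53t x17t y
  have x342f : α 342 = false := ff fun y => c1140 h x286t y x46t x119t
  have x193t : α 193 = true := tt fun y => c1735 h x73f x81f y x201f
  have x148t : α 148 = true := tt fun y => c901 h x342f y x29f
  have x50f : α 50 = false := ff fun y => c8 h x1t y x193t
  have x156f : α 156 = false := ff fun y => c2295 h x107t x148t x115t y
  c1183 h x50f x58f x156f

theorem l4066 (h : Good α) (x57f : α 57 = false) (x91f : α 91 = false) (x200t : α 200 = true) (x239f : α 239 = false) (x249t : α 249 = true) : False :=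
  have x92f : α 92 = false := ff fun y => l4055 h y x200t x239f x249t
  have x61f : α 61 = false := ff fun y => l4063 h y x200t x239f x249t
  have x97t : α 97 = true := tt fun y => c1544 h x92f x61f y
  have x236t : α 236 = true := tt fun y => c1548 h y x92f x61f
  have x58f : α 58 = false := ff fun y => c1466 h x200t x236t y x97t
  have x237t : α 237 = true := tt fun y => c1461 h y x91f x58f
  have x197f : α 197 = false := ff fun y => c2886 h x249t y x237t
  have x273t : α 273 = true := tt fun y => l4014 h y x249t
  have x23f : α 23 = false := ff fun y => c707 h y x97t x273t
  have x183t : α 183 = true := tt fun y => c695 h x23f x58f y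
  have x189f : α 189 = false := ff fun y => c2751 h x183t y x273t
  have x399t : α 399 = true := tt fun y => c1484 h x58f x189f y
  have x250f : α 250 = false := ff fun y => c3112 h y x273t x399t
  have x19t : α 19 = true := tt fun y => c483 h y x58f x189f
  have x325t : α 325 = true := tt fun y => l3677 h x61f y
  have x59t : α 59 = true := tt fun y => l3669 h y x61f
  have x346f : α 346 = false := ff fun y => l3935 h y x249t
  have x94t : α 94 = true := tt fun y => c1409 h y x57f x92f
  have x238t : α 238 = true := tt fun y => c1415 h x57f x92f y
  have x1t : α 1 = true := tt fun y => c63 h x57f x92f y x61f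
  have x54f : α 54 = false := ff fun y => l4005 h x94t x92f y x249t
  have x56f : α 56 = false := ff fun y => c57 h y x1t x59t
  have x233t : α 233 = true := tt fun y => c1314 h x54f x91f y
  have x53t : α 53 = true := tt fun y => l3648 h y x56f
  have x351f : α 351 = false := ff fun y => c2122 h x249t x94t y x233t
  have x272f : α 272 = false := ff fun y => l3462 h y x94t x57f x53t
  have x379f : α 379 = false := ff fun y => l3463 h y x200t x239f x53t
  have x242t : α 242 = true := tt fun y => c1577 h x197f x61f x351f y
  have x477t : α 477 = true := tt fun y => c3214 h x272f x346f y
  have x286t : α 286 = true := tt fun y => c3211 h y x272f x346f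
  have x201f : α 201 = false := ff fun y => c2920 h x233t y x242t
  have x354t : α 354 = true := tt fun y => c1490 h x58f x250f x201f y
  have x158f : α 158 = false := ff fun y => l3451 h y x233t x201f x53t
  have x548f : α 548 = false := ff fun y => c3083 h x242t x354t y
  have x450t : α 450 = true := tt fun y => c1494 h x58f y x201f x548f
  have x544f : α 544 = false := ff fun y => c2189 h x236t y x97t x450t
  have x409t : α 409 = true := tt fun y => c1352 h x239f x544f x54f y
  have x335f : α 335 = false := ff fun y => c3261 h x325t y x409t
  have x264f : α 264 = false := ff fun y => l3419 h y x335f x238t x57f x56f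
  have x452t : α 452 = true := tt fun y => l3711 h x264f y
  have x113t : α 113 = true := tt fun y => l3691 h y x264f
  have x188t : α 188 = true := tt fun y => l3664 h y x264f x56f
  have x386f : α 386 = false := ff fun y => c503 h y x452t x19t x113t
  have x180f : α 180 = false := ff fun y => l3599 h y x379f x242t x23f x201f x113t x56f
  have x341f : α 341 = false := ff fun y => c2118 h y x188t x94t
  have x70t : α 70 = true := tt fun y => l3662 h y x180f x56f
  have x184t : α 184 = true := tt fun y => c2065 h x341f y x92f
  have x81f : α 81 = false := ff fun y => c1682 h x188t x184t x70t y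
  have x114t : α 114 = true := tt fun y => c700 h y x23f x158f x81f
  have x275f : α 275 = false := ff fun y => c2396 h x477t y x114t
  have x285t : α 285 = true := tt fun y => c3226 h x346f x275f y
  have x36f : α 36 = false := ff fun y => c1037 h y x114t x285t
  have x107f : α 107 = false := ff fun y => l4065 h y x36f x275f x81f x70t x386f x188t x201f x286t x477t x56f x54f x1t x94t x58f x346f
  have x269t : α 269 = true := tt fun y => c2301 h x386f y x239f x107f
  have x342f : α 342 = false := ff fun y => c3200 h x286t x269t y
  have x185f : α 185 = false := ff fun y => c2778 h x269t x188t y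
  have x389t : α 389 = true := tt fun y => c3293 h x379f x342f y
  have x96t : α 96 = true := tt fun y => c2169 h x346f x185f y
  have x182f : α 182 = false := ff fun y => c1291 h x389t y x53t
  have x93f : α 93 = false := ff fun y => c1270 h x96t x53t y
  c2095 h x342f x182f x93f

theorem l4067 (h : Good α) (x57t : α 57 = true) (x200t : α 200 = true) (x239f : α 239 = false) (x249t : α 249 = true) : False :=
  have x92f : α 92 = false := ff fun y => l4055 h y x200t x239f x249t
  have x61f : α 61 = false := ff fun y => l4063 h y x200t x239f x249t
  have x97t : α 97 = true := tt fun y => c1544 h x92f x61f y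
  have x236t : α 236 = true := tt fun y => c1548 h y x92f x61f
  have x58f : α 58 = false := ff fun y => c1466 h x200t x236t y x97t
  have x94f : α 94 = false := ff fun y => c1423 h x249t y x57t
  have x54f : α 54 = false := ff fun y => l3989 h x200t x58f x57t x236t y x249t
  c1322 h x239f x94f x54f

theorem l4068 (h : Good α) (x200t : α 200 = true) (x239f : α 239 = false) (x249t : α 249 = true) : False :=
  have x92f : α 92 = false := ff fun y => l4055 h y x200t x239f x249t
  have x61f : α 61 = false := ff fun y => l4063 h y x200t x239f x249t
  have x97t : α 97 = true := tt fun y => c1544 h x92f x61f y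
  have x236t : α 236 = true := tt fun y => c1548 h y x92f x61f
  have x58f : α 58 = false := ff fun y => c1466 h x200t x236t y x97t
  have x57f : α 57 = false := ff fun y => l4067 h y x200t x239f x249t
  have x94t : α 94 = true := tt fun y => c1409 h y x57f x92f
  have x91t : α 91 = true := tt fun y => l4066 h x57f y x200t x239f x249t
  l3747 h x94t x61f x91t x58f x249t

theorem l4069 (h : Good α) (x57f : α 57 = false) (x239f : α 239 = false) (x249t : α 249 = true) : False :=
  have x200f : α 200 = false := ff fun y => l4068 h y x239f x249t
  have x236t : α 236 = true := tt fun y => c2909 h x239f x200f y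
  have x353t : α 353 = true := tt fun y => c2913 h y x239f x200f
  have x92f : α 92 = false := ff fun y => c2072 h x353t x236t x249t y
  have x94t : α 94 = true := tt fun y => c1409 h y x57f x92f
  have x238t : α 238 = true := tt fun y => c1415 h x57f x92f y
  have x1t : α 1 = true := tt fun y => c67 h x200f x57f y
  have x449f : α 449 = false := ff fun y => c2135 h y x249t x94t
  have x54f : α 54 = false := ff fun y => l4005 h x94t x92f y x249t
  have x352f : α 352 = false := ff fun y => c3049 h x353t y x249t x238t
  have x204t : α 204 = true := tt fun y => c1348 h x239f x352f x54f y
  have x61f : α 61 = false := ff fun y => c102 h x1t y x204t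
  have x250f : α 250 = false := ff fun y => c2937 h x238t x204t y
  have x58f : α 58 = false := ff fun y => l3854 h x61f x92f x449f y x249t
  c1488 h x200f x352f x58f x250f

theorem l4070 (h : Good α) (x239f : α 239 = false) (x249t : α 249 = true) : False :=
  have x273t : α 273 = true := tt fun y => l4014 h y x249t
  have x200f : α 200 = false := ff fun y => l4068 h y x239f x249t
  have x236t : α 236 = true := tt fun y => c2909 h x239f x200f y
  have x353t : α 353 = true := tt fun y => c2913 h y x239f x200f
  have x92f : α 92 = false := ff fun y => c2072 h x353t x236t x249t y
  have x197f : α 197 = false := ff fun y => c2890 h x353t x249t y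
  have x57t : α 57 = true := tt fun y => l4069 h y x239f x249t
  have x94f : α 94 = false := ff fun y => c1423 h x249t y x57t
  have x91t : α 91 = true := tt fun y => l3872 h y x200f x239f x92f x57t x249t
  have x54t : α 54 = true := tt fun y => c1322 h x239f x94f y
  have x233f : α 233 = false := ff fun y => c1315 h x54t x91t y
  have x52f : α 52 = false := ff fun y => l3640 h x54t y
  have x61f : α 61 = false := ff fun y => l3870 h y x54t
  have x56f : α 56 = false := ff fun y => l4053 h y x54t x61f
  have x242t : α 242 = true := tt fun y => c2040 h x94f x92f x233f y
  have x201t : α 201 = true := tt fun y => c2901 h x239f x200f x233f y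
  have x325t : α 325 = true := tt fun y => l3677 h x61f y
  have x97t : α 97 = true := tt fun y => c1544 h x92f x61f y
  have x58f : α 58 = false := ff fun y => l3615 h x91t y x61f x197f
  have x53t : α 53 = true := tt fun y => l3648 h y x56f
  have x354f : α 354 = false := ff fun y => c2924 h x201t x242t y
  have x351f : α 351 = false := ff fun y => c1444 h x249t x57t y x201t
  have x23f : α 23 = false := ff fun y => c707 h y x97t x273t
  have x1f : α 1 = false := ff fun y => l3881 h x91t x58f y x54t x249t
  have x204t : α 204 = true := tt fun y => c2881 h x197f y x351f x354f
  have x183t : α 183 = true := tt fun y => c695 h x23f x58f y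
  have x250f : α 250 = false := ff fun y => c1313 h x54t x204t x91t y
  have x352t : α 352 = true := tt fun y => c1488 h x200f y x58f x250f
  have x544f : α 544 = false := ff fun y => c3022 h x236t x352t y
  have x409t : α 409 = true := tt fun y => c119 h x200f x544f x1f y
  have x335f : α 335 = false := ff fun y => c3261 h x325t y x409t
  have x450f : α 450 = false := ff fun y => c1318 h x54t x409t x91t y
  have x542t : α 542 = true := tt fun y => l3712 h x335f y
  have x334f : α 334 = false := ff fun y => c3271 h x542t x409t y
  have x117f : α 117 = false := ff fun y => l3564 h x273t y x334f x183t x450f x97t x52f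
  have x184t : α 184 = true := tt fun y => c2056 h y x92f x117f
  have x22f : α 22 = false := ff fun y => c647 h x184t x57t y
  have x272f : α 272 = false := ff fun y => l3655 h x184t y x53t
  c656 h x272f x94f x22f

theorem l4071 (h : Good α) (x61f : α 61 = false) (x92f : α 92 = false) (x58f : α 58 = false) (x94f : α 94 = false) (x200f : α 200 = false) (x249t : α 249 = true) : False :=
  have x239t : α 239 = true := tt fun y => l4070 h y x249t
  have x273t : α 273 = true := tt fun y => l4014 h y x249t
  have x97t : α 97 = true := tt fun y => c1544 h x92f x61f y
  have x236t : α 236 = true := tt fun y => c1548 h y x92f x61f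
  have x54t : α 54 = true := tt fun y => c1302 h x94f x92f y x61f
  have x23f : α 23 = false := ff fun y => c707 h y x97t x273t
  have x91f : α 91 = false := ff fun y => c1989 h x239t x236t y x97t
  have x183t : α 183 = true := tt fun y => c695 h x23f x58f y
  have x237t : α 237 = true := tt fun y => c1461 h y x91f x58f
  have x189f : α 189 = false := ff fun y => c2751 h x183t y x273t
  have x1f : α 1 = false := ff fun y => l3999 h y x239t x200f x237t x94f x92f x91f x54t
  have x399t : α 399 = true := tt fun y => c1484 h x58f x189f y
  have x204t : α 204 = true := tt fun y => c101 h x1f x61f y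
  have x250f : α 250 = false := ff fun y => c3112 h y x273t x399t
  have x352f : α 352 = false := ff fun y => c1349 h x239t y x54t x204t
  c1488 h x200f x352f x58f x250f

theorem l4072 (h : Good α) (x197t : α 197 = true) (x58f : α 58 = false) (x200f : α 200 = false) (x249t : α 249 = true) : False :=
  have x237f : α 237 = false := ff fun y => c2886 h x249t x197t y
  have x353f : α 353 = false := ff fun y => c2890 h y x249t x197t
  c1486 h x353f x200f x237f x58f

theorem l4073 (h : Good α) (x61t : α 61 = true) (x58f : α 58 = false) (x57t : α 57 = true) (x200f : α 200 = false) (x249t : α 249 = true) : False :=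
  have x197f : α 197 = false := ff fun y => l4072 h y x58f x200f x249t
  have x94f : α 94 = false := ff fun y => c1423 h x249t y x57t
  have x239t : α 239 = true := tt fun y => l4070 h y x249t
  have x54f : α 54 = false := ff fun y => l3870 h x61t y
  have x91t : α 91 = true := tt fun y => l3742 h x61t y x58f x249t
  have x1t : α 1 = true := tt fun y => c41 h x197f x54f y
  have x402t : α 402 = true := tt fun y => c1342 h y x197f x54f
  have x97t : α 97 = true := tt fun y => l3948 h x1t y x57t x94f x61t x58f x54f x249t
  have x204f : α 204 = false := ff fun y => c102 h x1t x61t y
  have x449f : α 449 = false := ff fun y => c72 h y x57t x402t x1t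
  have x242f : α 242 = false := ff fun y => c1557 h x61t x97t y
  have x236f : α 236 = false := ff fun y => c1989 h x239t y x91t x97t
  have x238t : α 238 = true := tt fun y => c1320 h x94f y x54f x204f
  have x201f : α 201 = false := ff fun y => l3756 h y x239t x402t x238t x204f x1t x449f x94f x91t x58f x249t
  c2903 h x200f x236f x201f x242f

theorem l4074 (h : Good α) (x58f : α 58 = false) (x57t : α 57 = true) (x200f : α 200 = false) (x249t : α 249 = true) : False :=
  have x94f : α 94 = false := ff fun y => c1423 h x249t y x57t
  have x197f : α 197 = false := ff fun y => l4072 h y x58f x200f x249t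
  have x61f : α 61 = false := ff fun y => l4073 h y x58f x57t x200f x249t
  have x92t : α 92 = true := tt fun y => l4071 h x61f y x58f x94f x200f x249t
  have x54t : α 54 = true := tt fun y => l3879 h y x92t x249t x57t
  have x1f : α 1 = false := ff fun y => l3882 h x58f y x54t x92t x249t
  have x97t : α 97 = true := tt fun y => c75 h x1f x61f x58f y
  have x237t : α 237 = true := tt fun y => c77 h x197f x1f y x58f
  c2047 h x249t x92t x237t x97t

theorem l4075 (h : Good α) (x54t : α 54 = true) (x58t : α 58 = true) (x57t : α 57 = true) (x249t : α 249 = true) : False :=
  have x237f : α 237 = false := ff fun y => c1402 h x249t x57t y x58t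
  have x197f : α 197 = false := ff fun y => l3796 h y x54t
  have x61f : α 61 = false := ff fun y => l3870 h y x54t
  have x91f : α 91 = false := ff fun y => l3615 h y x58t x61f x197f
  have x92f : α 92 = false := ff fun y => l3811 h x57t x61f y x58t x249t
  have x443t : α 443 = true := tt fun y => c2024 h y x237f x91f
  have x449t : α 449 = true := tt fun y => l3854 h x61f x92f y x58t x249t
  c1406 h x449t x57t x443t x58t

theorem l4076 (h : Good α) (x272t : α 272 = true) (x56t : α 56 = true) (x53f : α 53 = false) (x237f : α 237 = false) (x58t : α 58 = true) (x94f : α 94 = false) (x249t : α 249 = true) : False :=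
  have x327f : α 327 = false := ff fun y => l3667 h x56t y
  have x335t : α 335 = true := tt fun y => l3653 h x53f y
  have x273t : α 273 = true := tt fun y => l4014 h y x249t
  have x114f : α 114 = false := ff fun y => l3695 h y x272t
  have x188f : α 188 = false := ff fun y => l3666 h y x272t x56t
  have x424f : α 424 = false := ff fun y => l3731 h y x335t x272t
  have x84t : α 84 = true := tt fun y => c1867 h y x114f x237f
  have x106t : α 106 = true := tt fun y => c2100 h x188f x94f y
  have x19f : α 19 = false := ff fun y => c482 h x84t y x58t
  have x429f : α 429 = false := ff fun y => c2288 h y x249t x106t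
  have x307t : α 307 = true := tt fun y => c508 h x188f x424f x19f y
  have x184t : α 184 = true := tt fun y => c1292 h x429f y x327f x53f
  have x250f : α 250 = false := ff fun y => c3110 h x307t y x273t
  l4059 h x114f x184t x250f x237f x58t x327f

theorem l4077 (h : Good α) (x57t : α 57 = true) (x200f : α 200 = false) (x249t : α 249 = true) : False :=
  have x239t : α 239 = true := tt fun y => l4070 h y x249t
  have x94f : α 94 = false := ff fun y => c1423 h x249t y x57t
  have x58t : α 58 = true := tt fun y => l4074 h y x57t x200f x249t
  have x1f : α 1 = false := ff fun y => c62 h x57t y x58t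
  have x237f : α 237 = false := ff fun y => c1402 h x249t x57t y x58t
  have x54f : α 54 = false := ff fun y => l4075 h y x58t x57t x249t
  have x92f : α 92 = false := ff fun y => l3879 h x54f y x249t x57t
  have x61t : α 61 = true := tt fun y => c39 h x54f x1f y
  have x91t : α 91 = true := tt fun y => c1309 h x94f x54f y
  have x59f : α 59 = false := ff fun y => l3670 h y x61t
  have x53f : α 53 = false := ff fun y => l3778 h y x61t
  have x97f : α 97 = false := ff fun y => c1457 h x91t x58t y
  have x56t : α 56 = true := tt fun y => c56 h y x1f x59f
  have x272f : α 272 = false := ff fun y => l4076 h y x56t x53f x237f x58t x94f x249t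
  have x449f : α 449 = false := ff fun y => l3941 h x272f x57t x94f y x53f
  have x402t : α 402 = true := tt fun y => c1324 h x449f x94f y x54f
  have x443t : α 443 = true := tt fun y => c2048 h x449f x92f y x97f
  have x543f : α 543 = false := ff fun y => c3347 h x402t x443t y
  have x547f : α 547 = false := ff fun y => c2029 h y x239t x443t x91t
  have x233t : α 233 = true := tt fun y => c2123 h x449f x94f x543f y
  have x236t : α 236 = true := tt fun y => c2075 h x547f y x449f x92f
  have x439f : α 439 = false := ff fun y => c2017 h x91t x233t y
  have x250f : α 250 = false := ff fun y => l3939 h x1f x236t x200f x94f y x61t x58t x92f x54f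
  have x447t : α 447 = true := tt fun y => c2044 h x94f x92f x439f y
  have x406t : α 406 = true := tt fun y => c49 h x54f x1f x439f y
  have x546f : α 546 = false := ff fun y => c3360 h x406t x447t y
  have x534f : α 534 = false := ff fun y => c1449 h x249t x57t y x406t
  c3032 h x237f x250f x534f x546f

theorem l4078 (h : Good α) (x110t : α 110 = true) (x151t : α 151 = true) (x183f : α 183 = false) (x65f : α 65 = false) : False :=
  have x169f : α 169 = false := ff fun y => c2337 h y x110t x151t
  have x258f : α 258 = false := ff fun y => c2338 h x110t x151t y
  c1639 h x169f x65f x258f x183f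

theorem l4079 (h : Good α) (x254f : α 254 = false) (x338f : α 338 = false) (x258t : α 258 = true) (x460f : α 460 = false) (x398f : α 398 = false) (x387t : α 387 = true) (x33t : α 33 = true) (x183f : α 183 = false) (x106f : α 106 = false) (x430f : α 430 = false) (x22t : α 22 = true) (x334t : α 334 = true) : False :=
  have x475t : α 475 = true := tt fun y => c3128 h x254f x338f y
  have x283t : α 283 = true := tt fun y => c3127 h y x254f x338f
  have x99f : α 99 = false := ff fun y => c2220 h x475t x258t y
  have x257f : α 257 = false := ff fun y => c979 h x283t x33t x475t y
  have x20t : α 20 = true := tt fun y => c560 h x398f y x460f x99f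
  have x299t : α 299 = true := tt fun y => c2291 h x106f y x257f x430f
  have x378f : α 378 = false := ff fun y => c517 h x22t x20t y x387t
  have x52f : α 52 = false := ff fun y => c640 h x22t x299t y x334t
  c1258 h x52f x183f x378f

theorem l4080 (h : Good α) (x84t : α 84 = true) (x387t : α 387 = true) (x462f : α 462 = false) (x33t : α 33 = true) (x80f : α 80 = false) (x23f : α 23 = false) (x494t : α 494 = true) (x183f : α 183 = false) (x114t : α 114 = true) (x212t : α 212 = true) (x430f : α 430 = false) (x65f : α 65 = false) (x188t : α 188 = true) (x429t : α 429 = true) (x184t : α 184 = true) (x452t : α 452 = true) (x146t : α 146 = true) (x22t : α 22 = true) (x272f : α 272 = false) (x61t : α 61 = true) (x200f : α 200 = false) (x249t : α 249 = true) : False :=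
  have x346f : α 346 = false := ff fun y => l3935 h y x249t
  have x477t : α 477 = true := tt fun y => c3214 h x272f x346f y
  have x275f : α 275 = false := ff fun y => c2396 h x477t y x114t
  have x285t : α 285 = true := tt fun y => c3226 h x346f x275f y
  have x36f : α 36 = false := ff fun y => c1037 h y x114t x285t
  have x53f : α 53 = false := ff fun y => l3778 h y x61t
  have x56t : α 56 = true := tt fun y => l3648 h x53f y
  have x386f : α 386 = false := ff fun y => c1395 h y x188t x56t
  have x71t : α 71 = true := tt fun y => c1721 h x386f x200f y
  have x106f : α 106 = false := ff fun y => c2288 h x429t x249t y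
  have x286t : α 286 = true := tt fun y => c3211 h y x272f x346f
  have x57f : α 57 = false := ff fun y => l4077 h y x200f x249t
  have x1t : α 1 = true := tt fun y => c67 h x200f x57f y
  have x204f : α 204 = false := ff fun y => c102 h x1t x61t y
  have x334t : α 334 = true := tt fun y => l3705 h x204f y
  have x59f : α 59 = false := ff fun y => l3670 h y x61t
  have x273t : α 273 = true := tt fun y => l4014 h y x249t
  have x398f : α 398 = false := ff fun y => c1878 h y x494t x84t x212t
  have x460f : α 460 = false := ff fun y => c1870 h y x84t x477t x114t
  have x151t : α 151 = true := tt fun y => c1429 h x398f x57f x460f y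
  have x110f : α 110 = false := ff fun y => l4078 h y x151t x183f x65f
  have x258t : α 258 = true := tt fun y => c709 h x110f x23f y x183f
  have x17t : α 17 = true := tt fun y => c364 h x110f y x23f
  have x338f : α 338 = false := ff fun y => c3150 h x477t y x258t
  have x29f : α 29 = false := ff fun y => c903 h x286t y x477t x258t
  have x148t : α 148 = true := tt fun y => c891 h x200f y x80f x29f
  have x254t : α 254 = true := tt fun y => l4079 h y x338f x258t x460f x398f x387t x33t x183f x106f x430f x22t x334t
  have x185f : α 185 = false := ff fun y => c2776 h x188t y x254t
  have x99f : α 99 = false := ff fun y => c2217 h x254t x151t y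
  have x269f : α 269 = false := ff fun y => c2563 h y x148t x254t x151t
  have x96t : α 96 = true := tt fun y => c2169 h x346f x185f y
  have x566t : α 566 = true := tt fun y => c2786 h y x346f x185f
  have x86t : α 86 = true := tt fun y => c1901 h x346f x185f x275f y
  have x20t : α 20 = true := tt fun y => c560 h x398f y x460f x99f
  have x342f : α 342 = false := ff fun y => c2168 h y x184t x96t
  have x392f : α 392 = false := ff fun y => c3106 h x429t x249t x566t y
  have x88f : α 88 = false := ff fun y => c1372 h y x56t x86t
  have x27f : α 27 = false := ff fun y => c374 h x86t x17t y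
  have x378f : α 378 = false := ff fun y => c517 h x22t x20t y x387t
  have x482t : α 482 = true := tt fun y => c3202 h x269f x342f y
  have x495t : α 495 = true := tt fun y => c3306 h x346f x392f y
  have x182t : α 182 = true := tt fun y => c1932 h x269f x342f x88f y
  have x337t : α 337 = true := tt fun y => l3632 h x27f y
  have x52t : α 52 = true := tt fun y => c1258 h y x183f x378f
  have x161t : α 161 = true := tt fun y => c1818 h x80f y x378f x462f
  have x120f : α 120 = false := ff fun y => c2461 h x286t x482t y x337t
  have x104f : α 104 = false := ff fun y => c1712 h x452t x482t x71t y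
  have x16f : α 16 = false := ff fun y => c318 h x184t x182t x22t y
  have x326f : α 326 = false := ff fun y => c1242 h y x146t x52t
  have x189f : α 189 = false := ff fun y => c1714 h x71t x161t y x273t
  have x245t : α 245 = true := tt fun y => c2455 h x398f y x272f x120f
  have x46t : α 46 = true := tt fun y => c1019 h x120f x36f y
  have x14t : α 14 = true := tt fun y => c270 h x269f x104f x185f y
  have x89t : α 89 = true := tt fun y => c332 h x29f x104f x16f y
  have x423t : α 423 = true := tt fun y => c1523 h x326f x59f y x189f
  have x87t : α 87 = true := tt fun y => c1912 h x99f y x189f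
  have x9f : α 9 = false := ff fun y => c176 h x84t y x114t x46t
  have x361f : α 361 = false := ff fun y => c1138 h x114t x46t x423t y
  have x555f : α 555 = false := ff fun y => c263 h x495t x14t y x87t
  have x243f : α 243 = false := ff fun y => c1911 h x245t x89t y x87t
  c180 h x243f x9f x555f x361f

theorem l4081 (h : Good α) (x254t : α 254 = true) (x398t : α 398 = true) (x84f : α 84 = false) (x387t : α 387 = true) (x70f : α 70 = false) (x23f : α 23 = false) (x275f : α 275 = false) (x71t : α 71 = true) (x117f : α 117 = false) (x188t : α 188 = true) (x429t : α 429 = true) (x146t : α 146 = true) (x242t : α 242 = true) (x477t : α 477 = true) (x56t : α 56 = true) (x97f : α 97 = false) (x249t : α 249 = true) : False :=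
  have x106f : α 106 = false := ff fun y => c2288 h x429t x249t y
  have x273t : α 273 = true := tt fun y => l4014 h y x249t
  have x346f : α 346 = false := ff fun y => l3935 h y x249t
  have x185f : α 185 = false := ff fun y => c2776 h x188t y x254t
  have x110f : α 110 = false := ff fun y => c2342 h x477t x254t y
  have x460f : α 460 = false := ff fun y => c2811 h x398t x188t y x254t
  have x96t : α 96 = true := tt fun y => c2169 h x346f x185f y
  have x566t : α 566 = true := tt fun y => c2786 h y x346f x185f
  have x86t : α 86 = true := tt fun y => c1901 h x346f x185f x275f y
  have x17t : α 17 = true := tt fun y => c364 h x110f y x23f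
  have x243t : α 243 = true := tt fun y => c1879 h x460f y x84f
  have x32f : α 32 = false := ff fun y => c378 h x96t x17t y
  have x392f : α 392 = false := ff fun y => c3106 h x429t x249t x566t y
  have x240f : α 240 = false := ff fun y => c1375 h x56t x86t y
  have x112t : α 112 = true := tt fun y => c676 h x23f x97f x32f y
  have x394t : α 394 = true := tt fun y => c3305 h y x346f x392f
  have x103t : α 103 = true := tt fun y => c1686 h x240f y x70f
  have x268f : α 268 = false := ff fun y => c2356 h x112t x242t y x387t
  have x176f : α 176 = false := ff fun y => c2710 h x394t x243t y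
  have x216f : α 216 = false := ff fun y => c1896 h x86t x103t y
  have x189t : α 189 = true := tt fun y => c1872 h x84f y x176f x268f
  have x35t : α 35 = true := tt fun y => c1005 h y x70f x216f
  have x161f : α 161 = false := ff fun y => c1714 h x71t y x189t x273t
  have x157t : α 157 = true := tt fun y => c2419 h x161f x117f y
  have x179t : α 179 = true := tt fun y => c2276 h y x161f x106f x117f
  have x257f : α 257 = false := ff fun y => c2544 h x146t x157t y x273t
  have x451f : α 451 = false := ff fun y => c1719 h x179t x71t y x387t
  have x574t : α 574 = true := tt fun y => c1698 h x240f x70f y x451f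
  have x336f : α 336 = false := ff fun y => c2556 h x146t y x574t
  have x475t : α 475 = true := tt fun y => c3141 h y x336f x257f
  have x277t : α 277 = true := tt fun y => c3138 h x336f x257f y
  c1012 h x254t x35t x475t x277t

theorem l4082 (h : Good α) (x94f : α 94 = false) (x547t : α 547 = true) (x237f : α 237 = false) (x61t : α 61 = true) (x58t : α 58 = true) (x200f : α 200 = false) (x249t : α 249 = true) : False :=
  have x57f : α 57 = false := ff fun y => l4077 h y x200f x249t
  have x1t : α 1 = true := tt fun y => c67 h x200f x57f y
  have x53f : α 53 = false := ff fun y => l3778 h y x61t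
  have x56t : α 56 = true := tt fun y => l3648 h x53f y
  have x199f : α 199 = false := ff fun y => c60 h y x56t x1t
  have x327f : α 327 = false := ff fun y => l3667 h x56t y
  have x335t : α 335 = true := tt fun y => l3653 h x53f y
  have x97f : α 97 = false := ff fun y => c76 h x1t x61t x58t y
  have x204f : α 204 = false := ff fun y => c102 h x1t x61t y
  have x54f : α 54 = false := ff fun y => l3870 h x61t y
  have x59f : α 59 = false := ff fun y => l3670 h y x61t
  have x201f : α 201 = false := ff fun y => c80 h x1t x58t y
  have x239t : α 239 = true := tt fun y => l4070 h y x249t
  have x273t : α 273 = true := tt fun y => l4014 h y x249t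
  have x346f : α 346 = false := ff fun y => l3935 h y x249t
  have x92t : α 92 = true := tt fun y => c1409 h x94f x57f y
  have x91t : α 91 = true := tt fun y => c1309 h x94f x54f y
  have x238t : α 238 = true := tt fun y => c1320 h x94f y x54f x204f
  have x272f : α 272 = false := ff fun y => l4076 h y x56t x53f x237f x58t x94f x249t
  have x236f : α 236 = false := ff fun y => c1549 h y x92t x61t
  have x197f : α 197 = false := ff fun y => c1547 h x249t x92t y x61t
  have x443f : α 443 = false := ff fun y => c2029 h x547t x239t y x91t
  have x444f : α 444 = false := ff fun y => c2080 h x92t x238t y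
  have x264f : α 264 = false := ff fun y => l3967 h y x238t x53f x57f x92t
  have x477t : α 477 = true := tt fun y => c3214 h x272f x346f y
  have x286t : α 286 = true := tt fun y => c3211 h y x272f x346f
  have x505t : α 505 = true := tt fun y => c2140 h y x272f x94f
  have x22t : α 22 = true := tt fun y => c656 h x272f x94f y
  have x242t : α 242 = true := tt fun y => l3790 h y x204f x54f x236f x197f x97f x58t
  have x250t : α 250 = true := tt fun y => c2877 h x197f x204f x237f y
  have x146t : α 146 = true := tt fun y => c2548 h x327f x197f y
  have x409t : α 409 = true := tt fun y => c1325 h x94f x444f x54f y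
  have x452t : α 452 = true := tt fun y => l3711 h x264f y
  have x113t : α 113 = true := tt fun y => l3691 h y x264f
  have x184t : α 184 = true := tt fun y => l3652 h y x264f x53f
  have x429t : α 429 = true := tt fun y => l3709 h y x327f x264f
  have x188t : α 188 = true := tt fun y => l4042 h y x22t x94f x57f
  have x354f : α 354 = false := ff fun y => c2078 h x92t x238t x242t y
  have x307f : α 307 = false := ff fun y => c3110 h y x250t x273t
  have x450f : α 450 = false := ff fun y => c86 h x1t x409t x58t y
  have x65f : α 65 = false := ff fun y => c1638 h y x113t x250t
  have x430f : α 430 = false := ff fun y => c2370 h x113t x250t y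
  have x117f : α 117 = false := ff fun y => c2057 h x184t x92t y
  have x19f : α 19 = false := ff fun y => c477 h x188t x56t y
  have x386f : α 386 = false := ff fun y => c1395 h y x188t x56t
  have x424f : α 424 = false := ff fun y => c1393 h x188t y x56t x335t
  have x212t : α 212 = true := tt fun y => c2960 h y x307f x450f
  have x114t : α 114 = true := tt fun y => c2393 h x272f x424f y x307f
  have x183f : α 183 = false := ff fun y => l3785 h y x91t x19f x58t
  have x71t : α 71 = true := tt fun y => c1721 h x386f x200f y
  have x494t : α 494 = true := tt fun y => c3371 h y x424f x444f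
  have x222f : α 222 = false := ff fun y => c2958 h x505t x494t y x212t
  have x158f : α 158 = false := ff fun y => l3694 h x114t y
  have x275f : α 275 = false := ff fun y => c2396 h x477t y x114t
  have x298t : α 298 = true := tt fun y => c2971 h x222f y x443f
  have x459t : α 459 = true := tt fun y => l3864 h y x188t x264f x158f x53f
  have x285t : α 285 = true := tt fun y => c3226 h x346f x275f y
  have x23f : α 23 = false := ff fun y => c719 h x429t x184t x298t y
  have x80f : α 80 = false := ff fun y => c1830 h x459t x239t y
  have x33t : α 33 = true := tt fun y => c681 h y x23f x97f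
  have x81t : α 81 = true := tt fun y => c684 h x53f x23f y
  have x379t : α 379 = true := tt fun y => c462 h x386f y x19f x23f
  have x11f : α 11 = false := ff fun y => c213 h y x81t x242t
  have x462f : α 462 = false := ff fun y => c1847 h x81t x242t y
  have x180f : α 180 = false := ff fun y => c1841 h x379t x452t x81t y
  have x70f : α 70 = false := ff fun y => c1682 h x188t x184t y x81t
  have x387t : α 387 = true := tt fun y => c1693 h x70f x201f y
  have x84f : α 84 = false := ff fun y => l4080 h y x387t x462f x33t x80f x23f x494t x183f x114t x212t x430f x65f x188t x429t x184t x452t x146t x22t x272f x61t x200f x249t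
  have x398t : α 398 = true := tt fun y => c1877 h y x199f x84f
  have x254f : α 254 = false := ff fun y => l4081 h y x398t x84f x387t x70f x23f x275f x71t x117f x188t x429t x146t x242t x477t x56t x97f x249t
  have x86t : α 86 = true := tt fun y => c488 h x254f y x19f
  have x240f : α 240 = false := ff fun y => c1375 h x56t x86t y
  have x293t : α 293 = true := tt fun y => c3070 h x254f x240f y
  have x385t : α 385 = true := tt fun y => c3072 h y x254f x240f
  have x103t : α 103 = true := tt fun y => c1686 h x240f y x70f
  have x168t : α 168 = true := tt fun y => c208 h y x11f x240f x70f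
  have x185f : α 185 = false := ff fun y => c1390 h x385t y x56t
  have x32f : α 32 = false := ff fun y => c953 h x285t x103t y
  have x527f : α 527 = false := ff fun y => c2262 h y x285t x103t
  have x96t : α 96 = true := tt fun y => c2169 h x346f x185f y
  have x566t : α 566 = true := tt fun y => c2786 h y x346f x185f
  have x420t : α 420 = true := tt fun y => c2782 h x185f x254f y
  have x112t : α 112 = true := tt fun y => c676 h x23f x97f x32f y
  have x136t : α 136 = true := tt fun y => c678 h x23f x32f y
  have x21f : α 21 = false := ff fun y => c604 h x184t x92t x96t y
  have x110f : α 110 = false := ff fun y => c2161 h x184t x96t y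
  have x392f : α 392 = false := ff fun y => c3106 h x429t x249t x566t y
  have x432f : α 432 = false := ff fun y => c2358 h x112t x242t y
  have x248f : α 248 = false := ff fun y => c2517 h x385t y x293t x136t
  have x258t : α 258 = true := tt fun y => c709 h x110f x23f y x183f
  have x17t : α 17 = true := tt fun y => c364 h x110f y x23f
  have x39t : α 39 = true := tt fun y => c1080 h x254f x110f y
  have x394t : α 394 = true := tt fun y => c3305 h y x346f x392f
  have x338f : α 338 = false := ff fun y => c3150 h x477t y x258t
  have x29f : α 29 = false := ff fun y => c903 h x286t y x477t x258t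
  have x27f : α 27 = false := ff fun y => c374 h x86t x17t y
  have x504f : α 504 = false := ff fun y => c399 h x566t x96t y x17t
  have x460f : α 460 = false := ff fun y => c3340 h x398t x394t y
  have x469f : α 469 = false := ff fun y => c3342 h y x398t x394t
  have x475t : α 475 = true := tt fun y => c3128 h x254f x338f y
  have x283t : α 283 = true := tt fun y => c3127 h y x254f x338f
  have x148t : α 148 = true := tt fun y => c891 h x200f y x80f x29f
  have x7t : α 7 = true := tt fun y => l3617 h y x27f
  have x83t : α 83 = true := tt fun y => l3631 h x27f y x204f
  have x49t : α 49 = true := tt fun y => c821 h x504f x27f x527f y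
  have x269t : α 269 = true := tt fun y => c3126 h x469f y x460f x254f
  have x99f : α 99 = false := ff fun y => c2220 h x475t x258t y
  have x465f : α 465 = false := ff fun y => c2694 h y x283t x168t
  have x164f : α 164 = false := ff fun y => c165 h y x39t x7t
  have x473f : α 473 = false := ff fun y => c1866 h x83t x250t y
  have x256f : α 256 = false := ff fun y => c1170 h y x113t x49t
  have x316f : α 316 = false := ff fun y => c2571 h x269t x148t x420t y
  have x14t : α 14 = true := tt fun y => c266 h x185f y x254f x99f
  have x78t : α 78 = true := tt fun y => c1800 h x465f x248f y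
  have x69t : α 69 = true := tt fun y => l3671 h y x164f x59f
  have x284t : α 284 = true := tt fun y => c2719 h y x473f x180f x354f
  have x186t : α 186 = true := tt fun y => l3672 h x256f y x59f
  have x20f : α 20 = false := ff fun y => c241 h x398t y x394t x14t
  have x190f : α 190 = false := ff fun y => c1672 h x78t y x69t x186t
  have x301t : α 301 = true := tt fun y => c535 h x57f x20f x316f y
  have x274t : α 274 = true := tt fun y => c2837 h x190f y x432f
  have x125f : α 125 = false := ff fun y => c2486 h y x242t x301t x387t
  have x31f : α 31 = false := ff fun y => c934 h x39t x284t y x274t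
  c589 h x21f x31f x125f

theorem l4083 (h : Good α) (x19t : α 19 = true) (x237f : α 237 = false) (x56t : α 56 = true) (x58t : α 58 = true) : False :=
  have x84f : α 84 = false := ff fun y => c482 h y x19t x58t
  have x114f : α 114 = false := ff fun y => l3624 h y x19t x56t
  c1867 h x84f x114f x237f

theorem l4084 (h : Good α) (x254f : α 254 = false) (x188f : α 188 = false) (x19f : α 19 = false) (x56t : α 56 = true) : False :=
  have x185t : α 185 = true := tt fun y => c2775 h x188f y x254f
  have x86t : α 86 = true := tt fun y => c488 h x254f y x19f
  have x385f : α 385 = false := ff fun y => c1390 h y x185t x56t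
  have x240f : α 240 = false := ff fun y => c1375 h x56t x86t y
  c3072 h x385f x254f x240f

theorem l4085 (h : Good α) (x86t : α 86 = true) (x29f : α 29 = false) (x338f : α 338 = false) (x17t : α 17 = true) (x254t : α 254 = true) (x32f : α 32 = false) (x112t : α 112 = true) (x485t : α 485 = true) (x285t : α 285 = true) (x184t : α 184 = true) (x447f : α 447 = false) (x188f : α 188 = false) (x238f : α 238 = false) (x236f : α 236 = false) (x250t : α 250 = true) (x61t : α 61 = true) (x58t : α 58 = true) (x57f : α 57 = false) (x200f : α 200 = false) (x346f : α 346 = false) : False :=
  have x53f : α 53 = false := ff fun y => l3778 h y x61t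
  have x56t : α 56 = true := tt fun y => l3648 h x53f y
  have x1t : α 1 = true := tt fun y => c67 h x200f x57f y
  have x204f : α 204 = false := ff fun y => c102 h x1t x61t y
  have x88f : α 88 = false := ff fun y => c1372 h y x56t x86t
  have x50f : α 50 = false := ff fun y => c4 h x56t x1t x86t y
  have x27f : α 27 = false := ff fun y => c374 h x86t x17t y
  have x344t : α 344 = true := tt fun y => c1935 h y x188f x88f
  have x83t : α 83 = true := tt fun y => l3631 h x27f y x204f
  have x185f : α 185 = false := ff fun y => c1902 h x344t y x86t
  have x103f : α 103 = false := ff fun y => c2261 h x485t x344t x285t y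
  have x13f : α 13 = false := ff fun y => c232 h y x83t x250t
  have x96t : α 96 = true := tt fun y => c2169 h x346f x185f y
  have x269t : α 269 = true := tt fun y => c2777 h y x188f x185f
  have x55t : α 55 = true := tt fun y => c1356 h x188f x57f x185f y
  have x49t : α 49 = true := tt fun y => c949 h x103f x32f y
  have x79t : α 79 = true := tt fun y => c230 h x238f y x13f
  have x342f : α 342 = false := ff fun y => c2168 h y x184t x96t
  have x90f : α 90 = false := ff fun y => c1359 h x96t x55t y
  have x198f : α 198 = false := ff fun y => c55 h y x55t x1t
  have x268f : α 268 = false := ff fun y => c1168 h x49t x112t y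
  have x148t : α 148 = true := tt fun y => c901 h x342f y x29f
  have x187t : α 187 = true := tt fun y => c1972 h x346f y x90f
  have x155t : α 155 = true := tt fun y => c2642 h x200f y x198f
  have x147t : α 147 = true := tt fun y => c2254 h x103f y x268f
  have x151f : α 151 = false := ff fun y => c2563 h x269t x148t x254t y
  have x191f : α 191 = false := ff fun y => c1802 h x187t x79t y x83t
  have x116f : α 116 = false := ff fun y => c2352 h x155t y x147t x112t
  have x317f : α 317 = false := ff fun y => c1473 h x58t x147t y
  have x489t : α 489 = true := tt fun y => c2604 h x338f x151f y x317f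
  have x393t : α 393 = true := tt fun y => c2601 h y x198f x338f x151f
  have x25t : α 25 = true := tt fun y => c771 h x191f x50f y
  have x78t : α 78 = true := tt fun y => c1793 h x236f x116f y
  have x210f : α 210 = false := ff fun y => c1799 h x393t x78t x489t y
  have x303f : α 303 = false := ff fun y => c790 h x25t x112t y
  c2955 h x210f x303f x447f

theorem l4086 (h : Good α) (x185t : α 185 = true) (x105f : α 105 = false) (x485t : α 485 = true) (x285t : α 285 = true) (x341f : α 341 = false) (x452t : α 452 = true) (x188f : α 188 = false) (x236f : α 236 = false) (x19f : α 19 = false) (x56t : α 56 = true) : False :=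
  have x385f : α 385 = false := ff fun y => c1390 h y x185t x56t
  have x15f : α 15 = false := ff fun y => c298 h x185t x56t y
  have x103t : α 103 = true := tt fun y => c280 h x15f x19f y
  have x465t : α 465 = true := tt fun y => c307 h y x105f x385f x15f
  have x344f : α 344 = false := ff fun y => c2261 h x485t y x285t x103t
  have x484t : α 484 = true := tt fun y => c2817 h y x341f x344f x188f
  have x386t : α 386 = true := tt fun y => c3301 h y x344f x385f
  have x577f : α 577 = false := ff fun y => c3395 h y x484t x465t
  have x379f : α 379 = false := ff fun y => c3328 h x386t y x452t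
  c3024 h x577f x379f x236f

theorem l4087 (h : Good α) (x449f : α 449 = false) (x237f : α 237 = false) (x61t : α 61 = true) (x58t : α 58 = true) (x200f : α 200 = false) (x249t : α 249 = true) : False :=
  have x53f : α 53 = false := ff fun y => l3778 h y x61t
  have x56t : α 56 = true := tt fun y => l3648 h x53f y
  have x19f : α 19 = false := ff fun y => l4083 h y x237f x56t x58t
  have x57f : α 57 = false := ff fun y => l4077 h y x200f x249t
  have x1t : α 1 = true := tt fun y => c67 h x200f x57f y
  have x97f : α 97 = false := ff fun y => c76 h x1t x61t x58t y
  have x405t : α 405 = true := tt fun y => c1437 h y x200f x57f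
  have x442f : α 442 = false := ff fun y => c104 h x405t y x1t x61t
  have x204f : α 204 = false := ff fun y => c102 h x1t x61t y
  have x54f : α 54 = false := ff fun y => l3870 h x61t y
  have x201f : α 201 = false := ff fun y => c80 h x1t x58t y
  have x239t : α 239 = true := tt fun y => l4070 h y x249t
  have x273t : α 273 = true := tt fun y => l4014 h y x249t
  have x346f : α 346 = false := ff fun y => l3935 h y x249t
  have x547t : α 547 = true := tt fun y => c1440 h y x200f x449f x57f
  have x353f : α 353 = false := ff fun y => c3066 h x547t y x239t
  have x351t : α 351 = true := tt fun y => c2905 h x353f x200f y x201f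
  have x94t : α 94 = true := tt fun y => l4082 h y x547t x237f x61t x58t x200f x249t
  have x446f : α 446 = false := ff fun y => c2131 h y x239t x94t
  have x233f : α 233 = false := ff fun y => c2122 h x249t x94t x351t y
  have x91t : α 91 = true := tt fun y => c1990 h x446f x442f y x97f
  have x242t : α 242 = true := tt fun y => c2919 h x233f x201f y
  have x354t : α 354 = true := tt fun y => c1346 h x54f x204f x233f y
  have x443f : α 443 = false := ff fun y => c2029 h x547t x239t y x91t
  have x197f : α 197 = false := ff fun y => c1578 h y x61t x351t x242t
  have x548f : α 548 = false := ff fun y => c3083 h x242t x354t y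
  have x402t : α 402 = true := tt fun y => c3344 h x449f y x443f
  have x92t : α 92 = true := tt fun y => c2048 h x449f y x443f x97f
  have x250t : α 250 = true := tt fun y => c2877 h x197f x204f x237f y
  have x409t : α 409 = true := tt fun y => c1351 h x54f y x233f x548f
  have x236f : α 236 = false := ff fun y => c1582 h x547t y x402t x61t
  have x113t : α 113 = true := tt fun y => l3846 h y x242t x201f x57f x92t
  have x238f : α 238 = false := ff fun y => c2078 h x92t y x242t x354t
  have x546f : α 546 = false := ff fun y => c3116 h x250t x354t y
  have x450f : α 450 = false := ff fun y => c86 h x1t x409t x58t y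
  have x430f : α 430 = false := ff fun y => c2370 h x113t x250t y
  have x188f : α 188 = false := ff fun y => l3779 h x238f y x242t x197f x61t x92t
  have x406t : α 406 = true := tt fun y => c1446 h x57f x238f y x546f
  have x506t : α 506 = true := tt fun y => c3374 h x450f x430f y
  have x398t : α 398 = true := tt fun y => c1434 h y x188f x57f
  have x20t : α 20 = true := tt fun y => c533 h x188f x57f y
  have x447f : α 447 = false := ff fun y => c106 h x1t x61t x406t y
  have x272f : α 272 = false := ff fun y => c3101 h x398t y x249t
  have x264f : α 264 = false := ff fun y => c556 h y x92t x20t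
  have x477t : α 477 = true := tt fun y => c3214 h x272f x346f y
  have x286t : α 286 = true := tt fun y => c3211 h y x272f x346f
  have x184t : α 184 = true := tt fun y => c2767 h x272f x188f y
  have x452t : α 452 = true := tt fun y => l3711 h x264f y
  have x341f : α 341 = false := ff fun y => c2066 h y x184t x92t
  have x23f : α 23 = false := ff fun y => l3976 h x188f x91t x19f x443f y x57f x249t
  have x114t : α 114 = true := tt fun y => c504 h x272f x188f y x19f
  have x33t : α 33 = true := tt fun y => c681 h y x23f x97f
  have x81t : α 81 = true := tt fun y => c684 h x53f x23f y
  have x275f : α 275 = false := ff fun y => c2396 h x477t y x114t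
  have x11f : α 11 = false := ff fun y => c213 h y x81t x242t
  have x285t : α 285 = true := tt fun y => c3226 h x346f x275f y
  have x485t : α 485 = true := tt fun y => c3229 h y x346f x275f
  have x259f : α 259 = false := ff fun y => c1997 h x114t x91t x285t y
  have x43t : α 43 = true := tt fun y => c204 h y x11f x259f x233f
  have x522f : α 522 = false := ff fun y => c963 h x33t x506t x43t y
  have x105f : α 105 = false := ff fun y => c961 h y x33t x43t
  have x287f : α 287 = false := ff fun y => c962 h x33t x273t x43t y
  have x112t : α 112 = true := tt fun y => c2362 h y x287f x522f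
  have x32f : α 32 = false := ff fun y => c948 h x43t y x112t
  have x254t : α 254 = true := tt fun y => l4084 h y x188f x19f x56t
  have x110f : α 110 = false := ff fun y => c2342 h x477t x254t y
  have x17t : α 17 = true := tt fun y => c364 h x110f y x23f
  have x185f : α 185 = false := ff fun y => l4086 h y x105f x485t x285t x341f x452t x188f x236f x19f x56t
  have x183f : α 183 = false := ff fun y => l3785 h y x91t x19f x58t
  have x258t : α 258 = true := tt fun y => c709 h x110f x23f y x183f
  have x86t : α 86 = true := tt fun y => c1901 h x346f x185f x275f y
  have x338f : α 338 = false := ff fun y => c3150 h x477t y x258t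
  have x29f : α 29 = false := ff fun y => c903 h x286t y x477t x258t
  l4085 h x86t x29f x338f x17t x254t x32f x112t x485t x285t x184t x447f x188f x238f x236f x250t x61t x58t x57f x200f x346f

theorem l4088 (h : Good α) (x449t : α 449 = true) (x61t : α 61 = true) (x57f : α 57 = false) (x249t : α 249 = true) : False :=
  have x54f : α 54 = false := ff fun y => l3870 h x61t y
  have x94f : α 94 = false := ff fun y => c2135 h x449t x249t y
  have x92t : α 92 = true := tt fun y => c1409 h x94f x57f y
  have x197f : α 197 = false := ff fun y => c1547 h x249t x92t y x61t
  have x402f : α 402 = false := ff fun y => c1551 h x449t x92t y x61t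
  c1342 h x402f x197f x54f

theorem l4089 (h : Good α) (x61t : α 61 = true) (x58t : α 58 = true) (x200f : α 200 = false) (x249t : α 249 = true) : False :=
  have x57f : α 57 = false := ff fun y => l4077 h y x200f x249t
  have x1t : α 1 = true := tt fun y => c67 h x200f x57f y
  have x201f : α 201 = false := ff fun y => c80 h x1t x58t y
  have x239t : α 239 = true := tt fun y => l4070 h y x249t
  have x54f : α 54 = false := ff fun y => l3870 h x61t y
  have x449f : α 449 = false := ff fun y => l4088 h y x61t x57f x249t
  have x547t : α 547 = true := tt fun y => c1440 h y x200f x449f x57f
  have x237t : α 237 = true := tt fun y => l4087 h x449f y x61t x58t x200f x249t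
  have x353f : α 353 = false := ff fun y => c3066 h x547t y x239t
  have x91f : α 91 = false := ff fun y => c1462 h x237t y x58t
  have x351t : α 351 = true := tt fun y => c2905 h x353f x200f y x201f
  have x233t : α 233 = true := tt fun y => c1314 h x54f x91f y
  have x94t : α 94 = true := tt fun y => c1309 h y x54f x91f
  c2122 h x249t x94t x351t x233t

theorem l4090 (h : Good α) (x94t : α 94 = true) (x61f : α 61 = false) (x58t : α 58 = true) (x249t : α 249 = true) : False :=
  have x239t : α 239 = true := tt fun y => l4070 h y x249t
  have x449f : α 449 = false := ff fun y => c2135 h y x249t x94t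
  have x54f : α 54 = false := ff fun y => c1323 h x239t x94t y
  have x92t : α 92 = true := tt fun y => l3854 h x61f y x449f x58t x249t
  l3795 h x54f x61f x92t x58t x249t

theorem l4091 (h : Good α) (x58t : α 58 = true) (x200f : α 200 = false) (x249t : α 249 = true) : False :=
  have x57f : α 57 = false := ff fun y => l4077 h y x200f x249t
  have x61f : α 61 = false := ff fun y => l4089 h y x58t x200f x249t
  have x94f : α 94 = false := ff fun y => l4090 h y x61f x58t x249t
  have x92t : α 92 = true := tt fun y => c1409 h x94f x57f y
  have x54f : α 54 = false := ff fun y => l3884 h x200f y x92t x57f x249t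
  l3795 h x54f x61f x92t x58t x249t

theorem l4092 (h : Good α) (x94f : α 94 = false) (x53t : α 53 = true) (x200f : α 200 = false) (x249t : α 249 = true) : False :=
  have x58f : α 58 = false := ff fun y => l4091 h y x200f x249t
  have x57f : α 57 = false := ff fun y => l4077 h y x200f x249t
  have x273t : α 273 = true := tt fun y => l4014 h y x249t
  have x92t : α 92 = true := tt fun y => c1409 h x94f x57f y
  have x54f : α 54 = false := ff fun y => l3884 h x200f y x92t x57f x249t
  l3924 h x53t x94f x273t x58f x54f x92t x57f

theorem l4093 (h : Good α) (x61f : α 61 = false) (x200f : α 200 = false) (x249t : α 249 = true) : False :=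
  have x58f : α 58 = false := ff fun y => l4091 h y x200f x249t
  have x197f : α 197 = false := ff fun y => l4072 h y x58f x200f x249t
  have x57f : α 57 = false := ff fun y => l4077 h y x200f x249t
  have x1t : α 1 = true := tt fun y => c67 h x200f x57f y
  have x239t : α 239 = true := tt fun y => l4070 h y x249t
  have x59t : α 59 = true := tt fun y => l3669 h y x61f
  have x56f : α 56 = false := ff fun y => c57 h y x1t x59t
  have x53t : α 53 = true := tt fun y => l3648 h y x56f
  have x94t : α 94 = true := tt fun y => l4092 h y x53t x200f x249t
  have x54f : α 54 = false := ff fun y => c1323 h x239t x94t y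
  have x353f : α 353 = false := ff fun y => c2128 h y x239t x249t x94t
  have x91f : α 91 = false := ff fun y => l3747 h x94t x61f y x58f x249t
  have x233t : α 233 = true := tt fun y => c1314 h x54f x91f y
  have x236t : α 236 = true := tt fun y => l3971 h x61f x353f y x94t x58f x249t
  have x351f : α 351 = false := ff fun y => c2122 h x249t x94t y x233t
  have x242f : α 242 = false := ff fun y => c2991 h x239t x236t x233t y
  c1577 h x197f x61f x351f x242f

theorem l4094 (h : Good α) (x200f : α 200 = false) (x249t : α 249 = true) : False :=
  have x239t : α 239 = true := tt fun y => l4070 h y x249t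
  have x57f : α 57 = false := ff fun y => l4077 h y x200f x249t
  have x58f : α 58 = false := ff fun y => l4091 h y x200f x249t
  have x61t : α 61 = true := tt fun y => l4093 h y x200f x249t
  have x91t : α 91 = true := tt fun y => l3742 h x61t y x58f x249t
  have x449f : α 449 = false := ff fun y => l4088 h y x61t x57f x249t
  have x547t : α 547 = true := tt fun y => c1440 h y x200f x449f x57f
  have x443t : α 443 = true := tt fun y => c1405 h x449f x57f y x58f
  c2029 h x547t x239t x443t x91t

theorem l4095 (h : Good α) (x238f : α 238 = false) (x57f : α 57 = false) (x61t : α 61 = true) (x58f : α 58 = false) (x249t : α 249 = true) : False :=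
  have x273t : α 273 = true := tt fun y => l4014 h y x249t
  have x449f : α 449 = false := ff fun y => l4088 h y x61t x57f x249t
  have x239t : α 239 = true := tt fun y => l4070 h y x249t
  have x200t : α 200 = true := tt fun y => l4094 h y x249t
  have x236f : α 236 = false := ff fun y => c2910 h x239t x200t y
  have x91t : α 91 = true := tt fun y => l3742 h x61t y x58f x249t
  have x443t : α 443 = true := tt fun y => c1405 h x449f x57f y x58f
  have x547f : α 547 = false := ff fun y => c2029 h y x239t x443t x91t
  have x92t : α 92 = true := tt fun y => c2075 h x547f x236f x449f y
  have x97f : α 97 = false := ff fun y => c1545 h x92t x61t y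
  have x250t : α 250 = true := tt fun y => c1468 h x58f x97f y
  have x399f : α 399 = false := ff fun y => c3112 h x250t x273t y
  have x189t : α 189 = true := tt fun y => c1484 h x58f y x399f
  have x183f : α 183 = false := ff fun y => c2751 h y x189t x273t
  have x23t : α 23 = true := tt fun y => c695 h y x58f x183f
  have x237f : α 237 = false := ff fun y => c2025 h x443t y x91t
  have x197f : α 197 = false := ff fun y => c1547 h x249t x92t y x61t
  have x351t : α 351 = true := tt fun y => c2887 h x197f x237f y
  have x53f : α 53 = false := ff fun y => l3778 h y x61t
  have x56t : α 56 = true := tt fun y => l3648 h x53f y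
  have x327f : α 327 = false := ff fun y => l3667 h x56t y
  have x146t : α 146 = true := tt fun y => c2548 h x327f x197f y
  have x1t : α 1 = true := tt fun y => c61 h x57f y x58f
  have x204f : α 204 = false := ff fun y => c102 h x1t x61t y
  have x334t : α 334 = true := tt fun y => l3705 h x204f y
  have x54f : α 54 = false := ff fun y => l3870 h x61t y
  have x59f : α 59 = false := ff fun y => l3670 h y x61t
  have x346f : α 346 = false := ff fun y => l3935 h y x249t
  have x188f : α 188 = false := ff fun y => l3916 h x238f y x351t x204f x61t x58f x54f x92t x249t
  have x398t : α 398 = true := tt fun y => c1434 h y x188f x57f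
  have x20t : α 20 = true := tt fun y => c533 h x188f x57f y
  have x272f : α 272 = false := ff fun y => c3101 h x398t y x249t
  have x264f : α 264 = false := ff fun y => c556 h y x92t x20t
  have x28f : α 28 = false := ff fun y => c522 h x92t x20t y
  have x477t : α 477 = true := tt fun y => c3214 h x272f x346f y
  have x184t : α 184 = true := tt fun y => c2767 h x272f x188f y
  have x429t : α 429 = true := tt fun y => c2816 h y x272f x188f
  have x113t : α 113 = true := tt fun y => l3691 h y x264f
  have x299t : α 299 = true := tt fun y => c3052 h x264f x238f y
  have x379f : α 379 = false := ff fun y => l3767 h x264f y x23t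
  have x298f : α 298 = false := ff fun y => c719 h x429t x184t y x23t
  have x19f : α 19 = false := ff fun y => c460 h y x23t x113t
  have x161t : α 161 = true := tt fun y => c2676 h x379f x236f y
  have x577t : α 577 = true := tt fun y => c3024 h y x379f x236f
  have x257t : α 257 = true := tt fun y => c3034 h x298f x237f y
  have x114t : α 114 = true := tt fun y => c505 h x298f y x19f
  have x71f : α 71 = false := ff fun y => c1714 h y x161t x189t x273t
  have x386f : α 386 = false := ff fun y => c3068 h x577t y x239t
  have x157f : α 157 = false := ff fun y => c2544 h x146t y x257t x273t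
  have x275f : α 275 = false := ff fun y => c2396 h x477t y x114t
  have x10t : α 10 = true := tt fun y => c195 h x236f x71f y
  have x459t : α 459 = true := tt fun y => c2815 h y x386f x272f x188f
  have x52t : α 52 = true := tt fun y => c1227 h y x59f x157f
  have x485t : α 485 = true := tt fun y => c3229 h y x346f x275f
  have x271f : α 271 = false := ff fun y => c3063 h x459t x239t x485t y
  have x44f : α 44 = false := ff fun y => c193 h x459t x10t x485t y
  have x22f : α 22 = false := ff fun y => c640 h y x299t x52t x334t
  have x108t : α 108 = true := tt fun y => c843 h x44f x28f y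
  have x118t : α 118 = true := tt fun y => c1132 h x271f y x44f
  have x90t : α 90 = true := tt fun y => c653 h x272f x22f x346f y
  have x120f : α 120 = false := ff fun y => l3685 h x108t y
  have x16f : α 16 = false := ff fun y => l3621 h x108t y x52t
  have x181f : α 181 = false := ff fun y => c1963 h x118t x90t y
  c360 h x120f x16f x275f x181f

theorem l4096 (h : Good α) (x57f : α 57 = false) (x61t : α 61 = true) (x58f : α 58 = false) (x249t : α 249 = true) : False :=
  have x53f : α 53 = false := ff fun y => l3778 h y x61t
  have x56t : α 56 = true := tt fun y => l3648 h x53f y
  have x327f : α 327 = false := ff fun y => l3667 h x56t y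
  have x335t : α 335 = true := tt fun y => l3653 h x53f y
  have x91t : α 91 = true := tt fun y => l3742 h x61t y x58f x249t
  have x59f : α 59 = false := ff fun y => l3670 h y x61t
  have x239t : α 239 = true := tt fun y => l4070 h y x249t
  have x200t : α 200 = true := tt fun y => l4094 h y x249t
  have x236f : α 236 = false := ff fun y => c2910 h x239t x200t y
  have x273t : α 273 = true := tt fun y => l4014 h y x249t
  have x346f : α 346 = false := ff fun y => l3935 h y x249t
  have x449f : α 449 = false := ff fun y => l4088 h y x61t x57f x249t
  have x443t : α 443 = true := tt fun y => c1405 h x449f x57f y x58f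
  have x547f : α 547 = false := ff fun y => c2029 h y x239t x443t x91t
  have x92t : α 92 = true := tt fun y => c2075 h x547f x236f x449f y
  have x97f : α 97 = false := ff fun y => c1545 h x92t x61t y
  have x250t : α 250 = true := tt fun y => c1468 h x58f x97f y
  have x399f : α 399 = false := ff fun y => c3112 h x250t x273t y
  have x189t : α 189 = true := tt fun y => c1484 h x58f y x399f
  have x183f : α 183 = false := ff fun y => c2751 h y x189t x273t
  have x23t : α 23 = true := tt fun y => c695 h y x58f x183f
  have x238t : α 238 = true := tt fun y => l4095 h y x57f x61t x58f x249t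
  have x264f : α 264 = false := ff fun y => l3967 h y x238t x53f x57f x92t
  have x94f : α 94 = false := ff fun y => c1983 h y x238t x91t x250t
  have x452t : α 452 = true := tt fun y => l3711 h x264f y
  have x113t : α 113 = true := tt fun y => l3691 h y x264f
  have x184t : α 184 = true := tt fun y => l3652 h y x264f x53f
  have x429t : α 429 = true := tt fun y => l3709 h y x327f x264f
  have x379f : α 379 = false := ff fun y => l3767 h x264f y x23t
  have x19f : α 19 = false := ff fun y => c460 h y x23t x113t
  have x341f : α 341 = false := ff fun y => c2066 h y x184t x92t
  have x117f : α 117 = false := ff fun y => c2057 h x184t x92t y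
  have x298f : α 298 = false := ff fun y => c719 h x429t x184t y x23t
  have x106f : α 106 = false := ff fun y => c2288 h x429t x249t y
  have x161t : α 161 = true := tt fun y => c2676 h x379f x236f y
  have x577t : α 577 = true := tt fun y => c3024 h y x379f x236f
  have x188t : α 188 = true := tt fun y => c2117 h x341f y x94f
  have x272f : α 272 = false := ff fun y => l4045 h y x298f x452t x379f x113t
  have x114t : α 114 = true := tt fun y => c505 h x298f y x19f
  have x71f : α 71 = false := ff fun y => c1714 h y x161t x189t x273t
  have x386f : α 386 = false := ff fun y => c3068 h x577t y x239t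
  have x424f : α 424 = false := ff fun y => c1393 h x188t y x56t x335t
  have x477t : α 477 = true := tt fun y => c3214 h x272f x346f y
  have x275f : α 275 = false := ff fun y => c2396 h x477t y x114t
  have x20t : α 20 = true := tt fun y => c536 h x71f y x59f
  have x10t : α 10 = true := tt fun y => c195 h x236f x71f y
  have x459t : α 459 = true := tt fun y => c3329 h y x386f x379f
  have x485t : α 485 = true := tt fun y => c3229 h y x346f x275f
  have x28f : α 28 = false := ff fun y => c522 h x92t x20t y
  have x271f : α 271 = false := ff fun y => c3063 h x459t x239t x485t y
  have x44f : α 44 = false := ff fun y => c193 h x459t x10t x485t y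
  have x281t : α 281 = true := tt fun y => c2104 h x271f x94f y x106f
  have x484t : α 484 = true := tt fun y => c2136 h y x341f x271f x94f
  have x118t : α 118 = true := tt fun y => c1132 h x271f y x44f
  have x280t : α 280 = true := tt fun y => c845 h y x264f x44f x28f
  have x34f : α 34 = false := ff fun y => c995 h x281t x118t y
  have x47f : α 47 = false := ff fun y => c1154 h x577t x161t x484t y
  have x164f : α 164 = false := ff fun y => c2682 h x452t x280t y
  have x344t : α 344 = true := tt fun y => c989 h x386f x71f y x34f
  have x364t : α 364 = true := tt fun y => c1152 h y x424f x47f x117f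
  have x101t : α 101 = true := tt fun y => l3679 h y x164f
  have x185f : α 185 = false := ff fun y => c2230 h x344t x280t y x101t
  have x220f : α 220 = false := ff fun y => c2232 h x280t x364t x101t y
  have x86t : α 86 = true := tt fun y => c1901 h x346f x185f x275f y
  have x133t : α 133 = true := tt fun y => c2506 h x346f x220f x275f y
  c1899 h x344t x364t x86t x133t

theorem l4097 (h : Good α) (x61t : α 61 = true) (x58f : α 58 = false) (x249t : α 249 = true) : False :=
  have x239t : α 239 = true := tt fun y => l4070 h y x249t
  have x200t : α 200 = true := tt fun y => l4094 h y x249t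
  have x236f : α 236 = false := ff fun y => c2910 h x239t x200t y
  have x273t : α 273 = true := tt fun y => l4014 h y x249t
  have x53f : α 53 = false := ff fun y => l3778 h y x61t
  have x54f : α 54 = false := ff fun y => l3870 h x61t y
  have x91t : α 91 = true := tt fun y => l3742 h x61t y x58f x249t
  have x335t : α 335 = true := tt fun y => l3653 h x53f y
  have x57t : α 57 = true := tt fun y => l4096 h y x61t x58f x249t
  have x94f : α 94 = false := ff fun y => c1423 h x249t y x57t
  have x1f : α 1 = false := ff fun y => c68 h x200t x57t y
  have x405f : α 405 = false := ff fun y => c1438 h y x200t x57t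
  have x92f : α 92 = false := ff fun y => l3879 h x54f y x249t x57t
  have x201t : α 201 = true := tt fun y => c79 h x1f x58f y
  have x449t : α 449 = true := tt fun y => l3754 h x1f y x94f x61t x58f x249t
  have x233f : α 233 = false := ff fun y => l3950 h x1f y x239t x58f x54f x249t
  have x446t : α 446 = true := tt fun y => c47 h y x405f x54f x1f
  have x442t : α 442 = true := tt fun y => c2073 h y x236f x92f
  have x242t : α 242 = true := tt fun y => c2040 h x94f x92f x233f y
  have x272t : α 272 = true := tt fun y => l3941 h y x57t x94f x449t x53f
  have x97f : α 97 = false := ff fun y => c1991 h x446t x442t x91t y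
  have x354f : α 354 = false := ff fun y => c2924 h x201t x242t y
  have x306f : α 306 = false := ff fun y => c3099 h x272t x249t y
  have x424f : α 424 = false := ff fun y => l3731 h y x335t x272t
  have x250t : α 250 = true := tt fun y => c1468 h x58f x97f y
  have x204t : α 204 = true := tt fun y => c1346 h x54f y x233f x354f
  have x20t : α 20 = true := tt fun y => l3869 h x54f x239t x92f y x57t x306f x249t
  have x399f : α 399 = false := ff fun y => c3112 h x250t x273t y
  have x238f : α 238 = false := ff fun y => c2937 h y x204t x250t
  have x189t : α 189 = true := tt fun y => c1484 h x58f y x399f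
  have x117t : α 117 = true := tt fun y => c2427 h x424f x238f y
  c569 h x20t x117t x189t x273t

theorem l4098 (h : Good α) (x58f : α 58 = false) (x249t : α 249 = true) : False :=
  have x239t : α 239 = true := tt fun y => l4070 h y x249t
  have x200t : α 200 = true := tt fun y => l4094 h y x249t
  have x353f : α 353 = false := ff fun y => c2914 h y x239t x200t
  have x236f : α 236 = false := ff fun y => c2910 h x239t x200t y
  have x273t : α 273 = true := tt fun y => l4014 h y x249t
  have x61f : α 61 = false := ff fun y => l4097 h y x58f x249t
  have x59t : α 59 = true := tt fun y => l3669 h y x61f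
  have x92t : α 92 = true := tt fun y => c1548 h x236f y x61f
  have x197t : α 197 = true := tt fun y => c1575 h x353f x236f y x61f
  have x94f : α 94 = false := ff fun y => l3971 h x61f x353f x236f y x58f x249t
  have x54f : α 54 = false := ff fun y => l3796 h x197t y
  have x1t : α 1 = true := tt fun y => c39 h x54f y x61f
  have x57f : α 57 = false := ff fun y => l3879 h x54f x92t x249t y
  have x56f : α 56 = false := ff fun y => c57 h y x1t x59t
  have x53f : α 53 = false := ff fun y => l3924 h y x94f x273t x58f x54f x92t x57f
  l3648 h x53f x56f

theorem l4099 (h : Good α) (x61f : α 61 = false) (x249t : α 249 = true) : False :=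
  have x200t : α 200 = true := tt fun y => l4094 h y x249t
  have x239t : α 239 = true := tt fun y => l4070 h y x249t
  have x58t : α 58 = true := tt fun y => l4098 h y x249t
  have x91f : α 91 = false := ff fun y => c1459 h x239t x200t y x58t
  have x353f : α 353 = false := ff fun y => c2914 h y x239t x200t
  have x236f : α 236 = false := ff fun y => c2910 h x239t x200t y
  have x94f : α 94 = false := ff fun y => l4090 h y x61f x58t x249t
  have x197t : α 197 = true := tt fun y => c1575 h x353f x236f y x61f
  have x54t : α 54 = true := tt fun y => c1309 h x94f y x91f
  l3796 h x197t x54t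

theorem l4100 (h : Good α) (x30f : α 30 = false) (x282f : α 282 = false) (x41t : α 41 = true) (x191t : α 191 = true) (x478f : α 478 = false) (x285t : α 285 = true) (x439f : α 439 = false) (x114t : α 114 = true) (x91f : α 91 = false) : False :=
  have x18t : α 18 = true := tt fun y => c413 h x30f y x91f
  have x109t : α 109 = true := tt fun y => c924 h x30f y x282f
  have x259t : α 259 = true := tt fun y => c927 h x30f x282f y x478f
  have x183f : α 183 = false := ff fun y => c1107 h x41t x109t x114t y
  have x339f : α 339 = false := ff fun y => c1108 h x41t x109t x285t y
  have x419f : α 419 = false := ff fun y => c2841 h x191t x259t y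
  have x95t : α 95 = true := tt fun y => c2150 h y x183f x339f
  have x560t : α 560 = true := tt fun y => c2762 h x183f x339f y
  have x489t : α 489 = true := tt fun y => c3367 h y x419f x439f
  c448 h x18t x95t x489t x560t

theorem l4101 (h : Good α) (x197t : α 197 = true) (x249t : α 249 = true) : False :=
  have x200t : α 200 = true := tt fun y => l4094 h y x249t
  have x239t : α 239 = true := tt fun y => l4070 h y x249t
  have x58t : α 58 = true := tt fun y => l4098 h y x249t
  have x91f : α 91 = false := ff fun y => c1459 h x239t x200t y x58t
  have x61t : α 61 = true := tt fun y => l4099 h y x249t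
  have x54f : α 54 = false := ff fun y => l3870 h x61t y
  have x233t : α 233 = true := tt fun y => c1314 h x54f x91f y
  have x94t : α 94 = true := tt fun y => c1309 h y x54f x91f
  have x351f : α 351 = false := ff fun y => c2122 h x249t x94t y x233t
  have x57f : α 57 = false := ff fun y => c1423 h x249t x94t y
  have x201f : α 201 = false := ff fun y => c2902 h x239t x200t x233t y
  have x53f : α 53 = false := ff fun y => l3778 h y x61t
  have x236f : α 236 = false := ff fun y => c2910 h x239t x200t y
  have x273t : α 273 = true := tt fun y => l4014 h y x249t
  have x346f : α 346 = false := ff fun y => l3935 h y x249t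
  have x237f : α 237 = false := ff fun y => c2886 h x249t x197t y
  have x92f : α 92 = false := ff fun y => c1547 h x249t y x197t x61t
  have x114t : α 114 = true := tt fun y => l3588 h y x237f x58t x91f
  have x534t : α 534 = true := tt fun y => c3041 h x237f x351f y
  have x238t : α 238 = true := tt fun y => c1415 h x57f x92f y
  have x242t : α 242 = true := tt fun y => c1413 h x57f x92f x201f y
  have x272f : α 272 = false := ff fun y => l3695 h x114t y
  have x439f : α 439 = false := ff fun y => c2133 h x249t x94t x534t y
  have x264f : α 264 = false := ff fun y => l3862 h y x238t x57f x53f x272f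
  have x97f : α 97 = false := ff fun y => c1557 h x61t y x242t
  have x477t : α 477 = true := tt fun y => c3214 h x272f x346f y
  have x340t : α 340 = true := tt fun y => l4017 h y x97f x91f x273t
  have x275f : α 275 = false := ff fun y => c2396 h x477t y x114t
  have x28f : α 28 = false := ff fun y => l3636 h y x340t
  have x285t : α 285 = true := tt fun y => c3226 h x346f x275f y
  have x108t : α 108 = true := tt fun y => l3856 h y x28f x236f x97f x61t x92f
  have x102t : α 102 = true := tt fun y => c864 h x272f x28f x346f y
  have x478f : α 478 = false := ff fun y => c2398 h x114t x340t x285t y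
  have x120f : α 120 = false := ff fun y => l3685 h x108t y
  have x191t : α 191 = true := tt fun y => l4010 h y x275f x102t x28f x94t x91f
  have x41t : α 41 = true := tt fun y => c1114 h x272f x120f y
  have x282f : α 282 = false := ff fun y => c1111 h x41t y x114t x340t
  have x343t : α 343 = true := tt fun y => c859 h x92f y x28f x282f
  have x476t : α 476 = true := tt fun y => c877 h x264f y x28f x282f
  have x255f : α 255 = false := ff fun y => c3134 h x476t x343t y
  have x30t : α 30 = true := tt fun y => l4100 h y x282f x41t x191t x478f x285t x439f x114t x91f
  have x109f : α 109 = false := ff fun y => c908 h x41t x30t y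
  have x152f : α 152 = false := ff fun y => c926 h x30t y x343t
  have x480t : α 480 = true := tt fun y => c2328 h x109f x255f y
  have x263t : α 263 = true := tt fun y => c2323 h y x152f x109f
  c3175 h x263t x343t x480t

theorem l4102 (h : Good α) (x249t : α 249 = true) : False :=
  have x239t : α 239 = true := tt fun y => l4070 h y x249t
  have x200t : α 200 = true := tt fun y => l4094 h y x249t
  have x353f : α 353 = false := ff fun y => c2914 h y x239t x200t
  have x58t : α 58 = true := tt fun y => l4098 h y x249t
  have x91f : α 91 = false := ff fun y => c1459 h x239t x200t y x58t
  have x61t : α 61 = true := tt fun y => l4099 h y x249t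
  have x54f : α 54 = false := ff fun y => l3870 h x61t y
  have x197f : α 197 = false := ff fun y => l4101 h y x249t
  have x1t : α 1 = true := tt fun y => c41 h x197f x54f y
  have x204f : α 204 = false := ff fun y => c102 h x1t x61t y
  have x250t : α 250 = true := tt fun y => c1312 h x54f x204f x91f y
  have x352t : α 352 = true := tt fun y => c2883 h x353f y x197f x204f
  c1489 h x200t x352t x58t x250t

theorem l4103 (h : Good α) (x340t : α 340 = true) (x259f : α 259 = false) (x24f : α 24 = false) (x351f : α 351 = false) (x120f : α 120 = false) (x423f : α 423 = false) (x114t : α 114 = true) (x285t : α 285 = true) (x275f : α 275 = false) (x306t : α 306 = true) (x58t : α 58 = true) : False :=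
  have x249f : α 249 = false := ff fun y => l4102 h y
  have x16t : α 16 = true := tt fun y => c324 h x120f x24f y
  have x576f : α 576 = false := ff fun y => l3724 h x340t y
  have x260f : α 260 = false := ff fun y => l3503 h y x340t
  have x478f : α 478 = false := ff fun y => c2398 h x114t x340t x285t y
  have x108t : α 108 = true := tt fun y => c2312 h x120f y x275f x260f
  have x454t : α 454 = true := tt fun y => c3384 h y x478f x576f
  have x339t : α 339 = true := tt fun y => c3157 h x259f y x478f
  have x52f : α 52 = false := ff fun y => l3621 h x108t x16t y
  have x467f : α 467 = false := ff fun y => l3716 h x454t y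
  have x183f : α 183 = false := ff fun y => c2384 h x114t y x285t x339t
  have x22t : α 22 = true := tt fun y => c637 h y x52f x183f
  have x326t : α 326 = true := tt fun y => c1255 h y x52f x423f x183f
  have x381t : α 381 = true := tt fun y => c760 h x120f x24f x467f y
  have x106f : α 106 = false := ff fun y => c662 h x306t y x22t
  have x197f : α 197 = false := ff fun y => l3726 h y x326t
  have x54f : α 54 = false := ff fun y => l3658 h x381t x454t y
  have x62t : α 62 = true := tt fun y => c1589 h x249f x106f y
  have x1t : α 1 = true := tt fun y => c41 h x197f x54f y
  have x57f : α 57 = false := ff fun y => c643 h y x22t x62t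
  have x201f : α 201 = false := ff fun y => c80 h x1t x58t y
  c1443 h x249f x57f x351f x201f

theorem l4104 (h : Good α) (x340f : α 340 = false) (x97f : α 97 = false) (x91f : α 91 = false) (x58t : α 58 = true) : False :=
  have x183t : α 183 = true := tt fun y => c2006 h x91f y x340f
  have x273f : α 273 = false := ff fun y => l4017 h x340f x97f x91f y
  have x23f : α 23 = false := ff fun y => c696 h y x58t x183t
  c706 h x23f x97f x273f

theorem l4105 (h : Good α) (x534t : α 534 = true) (x439f : α 439 = false) (x41t : α 41 = true) (x120f : α 120 = false) (x237t : α 237 = true) (x191t : α 191 = true) (x114t : α 114 = true) (x285t : α 285 = true) (x275f : α 275 = false) (x306t : α 306 = true) (x91f : α 91 = false) (x94t : α 94 = true) (x58t : α 58 = true) : False :=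
  have x423f : α 423 = false := ff fun y => c2389 h x114t x237t y
  have x406f : α 406 = false := ff fun y => c1497 h x237t x58t x534t y
  have x351f : α 351 = false := ff fun y => c3042 h x237t y x534t
  have x447t : α 447 = true := tt fun y => c3355 h x439f x406f y
  have x97f : α 97 = false := ff fun y => c2192 h x237t y x534t x447t
  have x340t : α 340 = true := tt fun y => l4104 h y x97f x91f x58t
  have x478f : α 478 = false := ff fun y => c2398 h x114t x340t x285t y
  have x282f : α 282 = false := ff fun y => c1111 h x41t y x114t x340t
  have x30t : α 30 = true := tt fun y => l4100 h y x282f x41t x191t x478f x285t x439f x114t x91f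
  have x24f : α 24 = false := ff fun y => c726 h x94t y x30t
  have x259f : α 259 = false := ff fun y => c910 h x41t x30t x285t y
  l4103 h x340t x259f x24f x351f x120f x423f x114t x285t x275f x306t x58t

theorem l4106 (h : Good α) (x340t : α 340 = true) (x439f : α 439 = false) (x41t : α 41 = true) (x120f : α 120 = false) (x237t : α 237 = true) (x191t : α 191 = true) (x114t : α 114 = true) (x285t : α 285 = true) (x275f : α 275 = false) (x306t : α 306 = true) (x91f : α 91 = false) (x94t : α 94 = true) (x58t : α 58 = true) : False :=
  have x534f : α 534 = false := ff fun y => l4105 h y x439f x41t x120f x237t x191t x114t x285t x275f x306t x91f x94t x58t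
  have x423f : α 423 = false := ff fun y => c2389 h x114t x237t y
  have x576f : α 576 = false := ff fun y => l3724 h x340t y
  have x478f : α 478 = false := ff fun y => c2398 h x114t x340t x285t y
  have x282f : α 282 = false := ff fun y => c1111 h x41t y x114t x340t
  have x454t : α 454 = true := tt fun y => c3384 h y x478f x576f
  have x30t : α 30 = true := tt fun y => l4100 h y x282f x41t x191t x478f x285t x439f x114t x91f
  have x467f : α 467 = false := ff fun y => l3716 h x454t y
  have x24f : α 24 = false := ff fun y => c726 h x94t y x30t
  have x259f : α 259 = false := ff fun y => c910 h x41t x30t x285t y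
  have x381t : α 381 = true := tt fun y => c760 h x120f x24f x467f y
  have x351t : α 351 = true := tt fun y => l4103 h x340t x259f x24f y x120f x423f x114t x285t x275f x306t x58t
  have x54f : α 54 = false := ff fun y => l3658 h x381t x454t y
  have x197f : α 197 = false := ff fun y => c2888 h y x237t x351t
  c1344 h x197f x54f x534f x439f

theorem l4107 (h : Good α) (x351t : α 351 = true) (x97t : α 97 = true) (x201f : α 201 = false) (x534f : α 534 = false) (x233t : α 233 = true) (x439f : α 439 = false) (x237t : α 237 = true) : False :=
  have x197f : α 197 = false := ff fun y => c2888 h y x237t x351t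
  have x242f : α 242 = false := ff fun y => c2191 h x237t x97t x351t y
  have x54t : α 54 = true := tt fun y => c1344 h x197f y x534f x439f
  have x354t : α 354 = true := tt fun y => c2923 h x201f x242f y
  have x61f : α 61 = false := ff fun y => l3870 h y x54t
  have x56f : α 56 = false := ff fun y => l4053 h y x54t x61f
  have x204f : α 204 = false := ff fun y => c1347 h x54t y x233t x354t
  have x1t : α 1 = true := tt fun y => c99 h y x61f x201f x242f
  have x53t : α 53 = true := tt fun y => l3648 h y x56f
  have x196t : α 196 = true := tt fun y => l3702 h y x204f
  c32 h x196t x53t x1t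

theorem l4108 (h : Good α) (x439f : α 439 = false) (x41t : α 41 = true) (x120f : α 120 = false) (x237t : α 237 = true) (x191t : α 191 = true) (x114t : α 114 = true) (x285t : α 285 = true) (x275f : α 275 = false) (x306t : α 306 = true) (x91f : α 91 = false) (x94t : α 94 = true) (x58t : α 58 = true) : False :=
  have x249f : α 249 = false := ff fun y => l4102 h y
  have x233t : α 233 = true := tt fun y => c2016 h x91f y x439f
  have x534f : α 534 = false := ff fun y => l4105 h y x439f x41t x120f x237t x191t x114t x285t x275f x306t x91f x94t x58t
  have x406t : α 406 = true := tt fun y => c3357 h x534f x439f y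
  have x201f : α 201 = false := ff fun y => c1492 h x58t y x406t
  have x340f : α 340 = false := ff fun y => l4106 h y x439f x41t x120f x237t x191t x114t x285t x275f x306t x91f x94t x58t
  have x97t : α 97 = true := tt fun y => l4104 h x340f y x91f x58t
  have x447f : α 447 = false := ff fun y => c1471 h x58t x97t x406t y
  have x351f : α 351 = false := ff fun y => l4107 h y x97t x201f x534f x233t x439f x237t
  have x57t : α 57 = true := tt fun y => c1443 h x249f y x351f x201f
  have x242t : α 242 = true := tt fun y => c3081 h x351f y x534f x447f
  have x1f : α 1 = false := ff fun y => c62 h x57t y x58t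
  have x61f : α 61 = false := ff fun y => c1557 h y x97t x242t
  have x197t : α 197 = true := tt fun y => c111 h y x1f x351f x201f
  have x54t : α 54 = true := tt fun y => c1305 h y x61f x439f x447f
  l3796 h x197t x54t

theorem l4109 (h : Good α) (x197t : α 197 = true) (x97t : α 97 = true) (x237t : α 237 = true) (x58t : α 58 = true) : False :=
  have x54f : α 54 = false := ff fun y => l3796 h x197t y
  have x61f : α 61 = false := ff fun y => c1554 h x197t y x237t x97t
  have x1f : α 1 = false := ff fun y => c78 h x197t y x237t x58t
  c39 h x54f x1f x61f

theorem l4110 (h : Good α) (x1t : α 1 = true) (x351f : α 351 = false) (x58t : α 58 = true) : False :=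
  have x249f : α 249 = false := ff fun y => l4102 h y
  have x57f : α 57 = false := ff fun y => c62 h y x1t x58t
  have x201f : α 201 = false := ff fun y => c80 h x1t x58t y
  c1443 h x249f x57f x351f x201f

theorem l4111 (h : Good α) (x1f : α 1 = false) (x200f : α 200 = false) (x197f : α 197 = false) (x534f : α 534 = false) (x439t : α 439 = true) (x94t : α 94 = true) : False :=
  have x57t : α 57 = true := tt fun y => c67 h x200f y x1f
  have x406t : α 406 = true := tt fun y => c115 h x197f x1f x534f y
  c1426 h x94t x57t x439t x406t

theorem l4112 (h : Good α) (x340f : α 340 = false) (x534f : α 534 = false) (x439t : α 439 = true) (x162f : α 162 = false) (x120f : α 120 = false) (x578f : α 578 = false) (x423f : α 423 = false) (x237t : α 237 = true) (x102t : α 102 = true) (x158f : α 158 = false) (x286t : α 286 = true) (x272f : α 272 = false) (x91f : α 91 = false) (x94t : α 94 = true) (x58t : α 58 = true) : False :=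
  have x249f : α 249 = false := ff fun y => l4102 h y
  have x267f : α 267 = false := ff fun y => l3683 h x102t y
  have x306t : α 306 = true := tt fun y => c3098 h x272f x249f y
  have x183t : α 183 = true := tt fun y => c2006 h x91f y x340f
  have x478t : α 478 = true := tt fun y => c3195 h x267f x340f y
  have x97t : α 97 = true := tt fun y => l4104 h x340f y x91f x58t
  have x260f : α 260 = false := ff fun y => c2247 h x102t y x478t
  have x250f : α 250 = false := ff fun y => c1469 h x58t x97t y
  have x197f : α 197 = false := ff fun y => l4109 h y x97t x237t x58t
  have x353t : α 353 = true := tt fun y => c2889 h y x249f x197f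
  have x200f : α 200 = false := ff fun y => c1487 h x353t y x237t x58t
  have x1t : α 1 = true := tt fun y => l4111 h y x200f x197f x534f x439t x94t
  have x57f : α 57 = false := ff fun y => c62 h y x1t x58t
  have x201f : α 201 = false := ff fun y => c80 h x1t x58t y
  have x61f : α 61 = false := ff fun y => c76 h x1t y x58t x97t
  have x351t : α 351 = true := tt fun y => l4110 h x1t y x58t
  have x405t : α 405 = true := tt fun y => c1437 h y x200f x57f
  have x406t : α 406 = true := tt fun y => c1448 h x249f x57f x534f y
  have x59t : α 59 = true := tt fun y => l3669 h y x61f
  have x325t : α 325 = true := tt fun y => l3677 h x61f y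
  have x92t : α 92 = true := tt fun y => c1546 h x249f y x197f x61f
  have x242f : α 242 = false := ff fun y => c2191 h x237t x97t x351t y
  have x545f : α 545 = false := ff fun y => c1496 h y x405t x237t x58t
  have x54f : α 54 = false := ff fun y => c50 h y x1t x439t x406t
  have x56f : α 56 = false := ff fun y => c57 h y x1t x59t
  have x233t : α 233 = true := tt fun y => c1303 h x54f x61f y x242f
  have x236t : α 236 = true := tt fun y => c2903 h x200f y x201f x242f
  have x204t : α 204 = true := tt fun y => c1312 h x54f y x91f x250f
  have x53t : α 53 = true := tt fun y => l3648 h y x56f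
  have x153t : α 153 = true := tt fun y => c1298 h y x56f x54f
  have x239f : α 239 = false := ff fun y => c2992 h x353t y x351t x233t
  have x386t : α 386 = true := tt fun y => l3501 h y x236t x200f x56f
  have x535f : α 535 = false := ff fun y => c124 h x405t y x1t x204t
  have x80t : α 80 = true := tt fun y => l3417 h y x239f x200f x53t
  have x238t : α 238 = true := tt fun y => c3050 h x545f x535f x249f y
  have x444f : α 444 = false := ff fun y => c2080 h x92t x238t y
  have x379f : α 379 = false := ff fun y => l3418 h y x386t x238t x57f x53t
  have x544t : α 544 = true := tt fun y => c1439 h x200f y x57f x444f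
  have x450f : α 450 = false := ff fun y => c2189 h x236t x544t x97t y
  have x409t : α 409 = true := tt fun y => c1317 h x54f y x91f x450f
  have x335f : α 335 = false := ff fun y => c3261 h x325t y x409t
  have x264f : α 264 = false := ff fun y => l3419 h y x335f x238t x57f x56f
  have x452t : α 452 = true := tt fun y => l3711 h x264f y
  have x113t : α 113 = true := tt fun y => l3691 h y x264f
  have x188t : α 188 = true := tt fun y => l3664 h y x264f x56f
  have x424t : α 424 = true := tt fun y => l3710 h y x335f x264f
  have x71f : α 71 = false := ff fun y => c1725 h x452t x236t y
  have x212f : α 212 = false := ff fun y => c2178 h y x113t x97t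
  have x19f : α 19 = false := ff fun y => c503 h x386t x452t y x113t
  have x106f : α 106 = false := ff fun y => c2101 h x188t x94t y
  have x341f : α 341 = false := ff fun y => c2118 h y x188t x94t
  have x117f : α 117 = false := ff fun y => c2428 h x424t x238t y
  have x307t : α 307 = true := tt fun y => c2960 h x212f y x450f
  have x127t : α 127 = true := tt fun y => c2490 h y x212f x260f x340f
  have x70t : α 70 = true := tt fun y => c472 h x56f x19f y
  have x257t : α 257 = true := tt fun y => c493 h x19f x91f y
  have x33t : α 33 = true := tt fun y => c464 h y x19f x91f
  have x475t : α 475 = true := tt fun y => c2289 h x249f x106f x578f y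
  have x459t : α 459 = true := tt fun y => l4011 h y x70t x379f x113t x335f x307t x272f x158f
  have x554f : α 554 = false := ff fun y => c2494 h y x325t x127t
  have x11f : α 11 = false := ff fun y => c210 h y x70t x233t
  have x179f : α 179 = false := ff fun y => c1821 h y x80t x257t x183t
  have x283f : α 283 = false := ff fun y => c979 h y x33t x475t x257t
  have x173f : α 173 = false := ff fun y => c2702 h x459t x286t x353t y
  have x81t : α 81 = true := tt fun y => c212 h x11f y x242f
  have x161t : α 161 = true := tt fun y => c2276 h x179f y x106f x117f
  have x20t : α 20 = true := tt fun y => c545 h x179f x71f x106f y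
  have x270t : α 270 = true := tt fun y => c3205 h x341f y x283f
  have x24f : α 24 = false := ff fun y => l4064 h y x162f x173f x94t x91f
  have x184f : α 184 = false := ff fun y => c1682 h x188t y x70t x81t
  have x273f : α 273 = false := ff fun y => c1817 h x80t x161t x183t y
  have x326f : α 326 = false := ff fun y => c544 h x306t x20t y x59t
  have x465f : α 465 = false := ff fun y => c2623 h y x270t x153t
  have x16t : α 16 = true := tt fun y => c324 h x120f x24f y
  have x383t : α 383 = true := tt fun y => c1432 h y x184f x57f
  have x22t : α 22 = true := tt fun y => c646 h x184f x57f y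
  have x157t : α 157 = true := tt fun y => c2657 h x326f y x423f x273f
  have x168t : α 168 = true := tt fun y => c2693 h x465f x283f y
  have x377f : α 377 = false := ff fun y => c319 h x383t y x22t x16t
  have x73f : α 73 = false := ff fun y => c1265 h x153t x53t x168t y
  have x178f : α 178 = false := ff fun y => c2615 h x153t x157t x168t y
  have x261t : α 261 = true := tt fun y => c3169 h y x377f x554f
  have x64t : α 64 = true := tt fun y => c1624 h x73f y x178f
  have x182f : α 182 = false := ff fun y => c1283 h x261t y x153t x53t
  have x276f : α 276 = false := ff fun y => c2616 h x261t y x153t x157t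
  have x192f : α 192 = false := ff fun y => c1628 h x261t y x168t x64t
  c2744 h x182f x192f x276f

theorem l4113 (h : Good α) (x197f : α 197 = false) (x464t : α 464 = true) (x478f : α 478 = false) (x576f : α 576 = false) (x534f : α 534 = false) (x439t : α 439 = true) (x237t : α 237 = true) (x102t : α 102 = true) (x91f : α 91 = false) (x94t : α 94 = true) (x58t : α 58 = true) : False :=
  have x249f : α 249 = false := ff fun y => l4102 h y
  have x353t : α 353 = true := tt fun y => c2889 h y x249f x197f
  have x200f : α 200 = false := ff fun y => c1487 h x353t y x237t x58t
  have x1t : α 1 = true := tt fun y => l4111 h y x200f x197f x534f x439t x94t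
  have x57f : α 57 = false := ff fun y => c62 h y x1t x58t
  have x405t : α 405 = true := tt fun y => c1437 h y x200f x57f
  have x406t : α 406 = true := tt fun y => c1448 h x249f x57f x534f y
  have x545f : α 545 = false := ff fun y => c1496 h y x405t x237t x58t
  have x54f : α 54 = false := ff fun y => c50 h y x1t x439t x406t
  have x446t : α 446 = true := tt fun y => c1345 h x545f y x197f x54f
  have x239f : α 239 = false := ff fun y => c2131 h x446t y x94t
  have x442f : α 442 = false := ff fun y => c3352 h x446t x405t y
  have x236t : α 236 = true := tt fun y => c2909 h x239f x200f y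
  have x92t : α 92 = true := tt fun y => c2083 h x545f x442f x249f y
  have x61f : α 61 = false := ff fun y => c1549 h x236t x92t y
  have x242f : α 242 = false := ff fun y => l3906 h x91f y x54f x92t
  have x97t : α 97 = true := tt fun y => c1301 h x54f x61f x91f y
  have x112t : α 112 = true := tt fun y => c2359 h y x242f x478f x576f
  have x190f : α 190 = false := ff fun y => c2174 h y x97t x112t
  have x396t : α 396 = true := tt fun y => c1570 h x61f x190f y
  have x21t : α 21 = true := tt fun y => c600 h y x61f x190f
  c615 h x21t x396t x102t x464t

theorem l4114 (h : Good α) (x534f : α 534 = false) (x439t : α 439 = true) (x120f : α 120 = false) (x578f : α 578 = false) (x237t : α 237 = true) (x102t : α 102 = true) (x114t : α 114 = true) (x285t : α 285 = true) (x275f : α 275 = false) (x286t : α 286 = true) (x272f : α 272 = false) (x91f : α 91 = false) (x94t : α 94 = true) (x58t : α 58 = true) : False :=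
  have x36f : α 36 = false := ff fun y => c1037 h y x114t x285t
  have x46t : α 46 = true := tt fun y => c1019 h x120f x36f y
  have x162f : α 162 = false := ff fun y => c1136 h x114t x46t x237t y
  have x41t : α 41 = true := tt fun y => c1114 h x272f x120f y
  have x423f : α 423 = false := ff fun y => c2389 h x114t x237t y
  have x158f : α 158 = false := ff fun y => l3694 h x114t y
  have x340t : α 340 = true := tt fun y => l4112 h y x534f x439t x162f x120f x578f x423f x237t x102t x158f x286t x272f x91f x94t x58t
  have x576f : α 576 = false := ff fun y => l3724 h x340t y
  have x260f : α 260 = false := ff fun y => l3503 h y x340t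
  have x478f : α 478 = false := ff fun y => c2398 h x114t x340t x285t y
  have x282f : α 282 = false := ff fun y => c1111 h x41t y x114t x340t
  have x108t : α 108 = true := tt fun y => c2312 h x120f y x275f x260f
  have x454t : α 454 = true := tt fun y => c3384 h y x478f x576f
  have x167f : α 167 = false := ff fun y => l3686 h x108t y
  have x467f : α 467 = false := ff fun y => l3716 h x454t y
  have x464t : α 464 = true := tt fun y => c2690 h x167f x282f y
  have x197t : α 197 = true := tt fun y => l4113 h y x464t x478f x576f x534f x439t x237t x102t x91f x94t x58t
  have x199f : α 199 = false := ff fun y => l3725 h x197t y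
  have x1f : α 1 = false := ff fun y => c78 h x197t y x237t x58t
  have x56t : α 56 = true := tt fun y => c59 h x199f y x1f
  have x53f : α 53 = false := ff fun y => l3649 h y x56t
  have x52t : α 52 = true := tt fun y => c20 h x53f x1f y
  have x16f : α 16 = false := ff fun y => l3621 h x108t y x52t
  have x384f : α 384 = false := ff fun y => l3645 h y x454t x52t
  c361 h x120f x16f x467f x384f

theorem l4115 (h : Good α) (x197t : α 197 = true) (x1f : α 1 = false) (x120f : α 120 = false) (x237t : α 237 = true) (x114t : α 114 = true) (x285t : α 285 = true) (x275f : α 275 = false) (x91f : α 91 = false) (x58t : α 58 = true) : False :=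
  have x199f : α 199 = false := ff fun y => l3725 h x197t y
  have x97f : α 97 = false := ff fun y => l4109 h x197t y x237t x58t
  have x56t : α 56 = true := tt fun y => c59 h x199f y x1f
  have x340t : α 340 = true := tt fun y => l4104 h y x97f x91f x58t
  have x53f : α 53 = false := ff fun y => l3649 h y x56t
  have x576f : α 576 = false := ff fun y => l3724 h x340t y
  have x260f : α 260 = false := ff fun y => l3503 h y x340t
  have x478f : α 478 = false := ff fun y => c2398 h x114t x340t x285t y
  have x52t : α 52 = true := tt fun y => c20 h x53f x1f y
  have x108t : α 108 = true := tt fun y => c2312 h x120f y x275f x260f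
  have x454t : α 454 = true := tt fun y => c3384 h y x478f x576f
  have x16f : α 16 = false := ff fun y => l3621 h x108t y x52t
  have x384f : α 384 = false := ff fun y => l3645 h y x454t x52t
  have x467f : α 467 = false := ff fun y => l3716 h x454t y
  c361 h x120f x16f x467f x384f

theorem l4116 (h : Good α) (x439t : α 439 = true) (x120f : α 120 = false) (x58t : α 58 = true) (x578f : α 578 = false) (x237t : α 237 = true) (x102t : α 102 = true) (x114t : α 114 = true) (x285t : α 285 = true) (x275f : α 275 = false) (x286t : α 286 = true) (x272f : α 272 = false) (x91f : α 91 = false) (x94t : α 94 = true) : False :=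
  have x249f : α 249 = false := ff fun y => l4102 h y
  have x534t : α 534 = true := tt fun y => l4114 h y x439t x120f x578f x237t x102t x114t x285t x275f x286t x272f x91f x94t x58t
  have x351f : α 351 = false := ff fun y => c3042 h x237t y x534t
  have x1f : α 1 = false := ff fun y => l4110 h y x351f x58t
  have x197f : α 197 = false := ff fun y => l4115 h y x1f x120f x237t x114t x285t x275f x91f x58t
  have x57t : α 57 = true := tt fun y => c65 h x249f y x197f x1f
  have x54t : α 54 = true := tt fun y => c41 h x197f y x1f
  have x92f : α 92 = false := ff fun y => c1410 h x94t x57t y
  have x61f : α 61 = false := ff fun y => l3870 h y x54t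
  c1546 h x249f x92f x197f x61f

theorem l4117 (h : Good α) (x120f : α 120 = false) (x578f : α 578 = false) (x237t : α 237 = true) (x191t : α 191 = true) (x102t : α 102 = true) (x114t : α 114 = true) (x285t : α 285 = true) (x275f : α 275 = false) (x286t : α 286 = true) (x272f : α 272 = false) (x91f : α 91 = false) (x94t : α 94 = true) (x58t : α 58 = true) : False :=
  have x249f : α 249 = false := ff fun y => l4102 h y
  have x306t : α 306 = true := tt fun y => c3098 h x272f x249f y
  have x41t : α 41 = true := tt fun y => c1114 h x272f x120f y
  have x439t : α 439 = true := tt fun y => l4108 h y x41t x120f x237t x191t x114t x285t x275f x306t x91f x94t x58t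
  l4116 h x439t x120f x58t x578f x237t x102t x114t x285t x275f x286t x272f x91f x94t

theorem l4118 (h : Good α) (x1f : α 1 = false) (x197f : α 197 = false) (x94t : α 94 = true) : False :=
  have x249f : α 249 = false := ff fun y => l4102 h y
  have x57t : α 57 = true := tt fun y => c65 h x249f y x197f x1f
  have x54t : α 54 = true := tt fun y => c41 h x197f y x1f
  have x92f : α 92 = false := ff fun y => c1410 h x94t x57t y
  have x61f : α 61 = false := ff fun y => l3870 h y x54t
  c1546 h x249f x92f x197f x61f

theorem l4119 (h : Good α) (x340f : α 340 = false) (x260f : α 260 = false) (x108f : α 108 = false) (x578f : α 578 = false) (x237t : α 237 = true) (x28f : α 28 = false) (x91f : α 91 = false) (x94t : α 94 = true) (x58t : α 58 = true) : False :=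
  have x249f : α 249 = false := ff fun y => l4102 h y
  have x183t : α 183 = true := tt fun y => c2006 h x91f y x340f
  have x97t : α 97 = true := tt fun y => l4104 h x340f y x91f x58t
  have x278t : α 278 = true := tt fun y => c3161 h y x260f x340f
  have x380f : α 380 = false := ff fun y => c1482 h x58t x183t y
  have x197f : α 197 = false := ff fun y => l4109 h y x97t x237t x58t
  have x399t : α 399 = true := tt fun y => c3284 h x380f x340f y
  have x189f : α 189 = false := ff fun y => c1485 h x58t y x399t
  have x87t : α 87 = true := tt fun y => c1920 h y x189f x260f x340f
  have x550t : α 550 = true := tt fun y => c2828 h x189f x340f y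
  have x1t : α 1 = true := tt fun y => l4118 h y x197f x94t
  have x61f : α 61 = false := ff fun y => c76 h x1t y x58t x97t
  have x59t : α 59 = true := tt fun y => l3669 h y x61f
  have x92t : α 92 = true := tt fun y => c1546 h x249f y x197f x61f
  have x89f : α 89 = false := ff fun y => c1505 h y x59t x87t
  have x20t : α 20 = true := tt fun y => c519 h y x89f x28f x108f
  have x123f : α 123 = false := ff fun y => l3818 h x89f y x108f x92t
  have x264f : α 264 = false := ff fun y => c556 h y x92t x20t
  have x511t : α 511 = true := tt fun y => c2476 h x249f x123f x578f y
  have x113t : α 113 = true := tt fun y => l3691 h y x264f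
  have x31f : α 31 = false := ff fun y => c946 h y x97t x511t x550t
  have x99f : α 99 = false := ff fun y => c2222 h y x278t x511t
  have x39f : α 39 = false := ff fun y => c1085 h y x113t x511t x550t
  c931 h x39f x31f x99f

theorem l4120 (h : Good α) (x197f : α 197 = false) (x439t : α 439 = true) (x77t : α 77 = true) (x478f : α 478 = false) (x576f : α 576 = false) (x237t : α 237 = true) (x267f : α 267 = false) (x114t : α 114 = true) (x285t : α 285 = true) (x91f : α 91 = false) (x94t : α 94 = true) (x58t : α 58 = true) : False :=
  have x249f : α 249 = false := ff fun y => l4102 h y
  have x353t : α 353 = true := tt fun y => c2889 h y x249f x197f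
  have x1t : α 1 = true := tt fun y => l4118 h y x197f x94t
  have x200f : α 200 = false := ff fun y => c1487 h x353t y x237t x58t
  have x57f : α 57 = false := ff fun y => c62 h y x1t x58t
  have x60f : α 60 = false := ff fun y => l3449 h y x58t x1t
  have x351t : α 351 = true := tt fun y => l4110 h x1t y x58t
  have x405t : α 405 = true := tt fun y => c1437 h y x200f x57f
  have x534f : α 534 = false := ff fun y => c3042 h x237t x351t y
  have x545f : α 545 = false := ff fun y => c1496 h y x405t x237t x58t
  have x406t : α 406 = true := tt fun y => c1448 h x249f x57f x534f y
  have x54f : α 54 = false := ff fun y => c50 h y x1t x439t x406t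
  have x233t : α 233 = true := tt fun y => c1314 h x54f x91f y
  have x402t : α 402 = true := tt fun y => c1342 h y x197f x54f
  have x446t : α 446 = true := tt fun y => c1345 h x545f y x197f x54f
  have x239f : α 239 = false := ff fun y => c2992 h x353t y x351t x233t
  have x443f : α 443 = false := ff fun y => c84 h x402t x1t y x58t
  have x442f : α 442 = false := ff fun y => c3352 h x446t x405t y
  have x236t : α 236 = true := tt fun y => c2909 h x239f x200f y
  have x222t : α 222 = true := tt fun y => l3414 h y x91f x237t x443f
  have x547t : α 547 = true := tt fun y => c2028 h y x239f x443f x91f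
  have x92t : α 92 = true := tt fun y => c2083 h x545f x442f x249f y
  have x372f : α 372 = false := ff fun y => c2386 h x222t x114t y x285t
  have x61f : α 61 = false := ff fun y => c1582 h x547t x236t x402t y
  have x242f : α 242 = false := ff fun y => l3906 h x91f y x54f x92t
  have x141t : α 141 = true := tt fun y => c2528 h y x267f x372f x478f
  have x59t : α 59 = true := tt fun y => l3669 h y x61f
  have x325t : α 325 = true := tt fun y => l3677 h x61f y
  have x97t : α 97 = true := tt fun y => c1301 h x54f x61f x91f y
  have x112t : α 112 = true := tt fun y => c2359 h y x242f x478f x576f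
  have x105f : α 105 = false := ff fun y => c1790 h x141t x77t y
  have x190f : α 190 = false := ff fun y => c2174 h y x97t x112t
  have x256t : α 256 = true := tt fun y => l3676 h x190f y x61f
  have x397t : α 397 = true := tt fun y => c1540 h x60f x190f y
  have x186t : α 186 = true := tt fun y => c2791 h x190f y x267f
  have x232f : α 232 = false := ff fun y => c2989 h y x256t x397t
  have x418f : α 418 = false := ff fun y => c1521 h x325t y x59t x186t
  c2273 h x105f x232f x418f

theorem l4121 (h : Good α) (x197t : α 197 = true) (x454t : α 454 = true) (x478f : α 478 = false) (x120t : α 120 = true) (x578f : α 578 = false) (x237t : α 237 = true) (x275f : α 275 = false) (x346f : α 346 = false) (x91f : α 91 = false) (x58t : α 58 = true) : False :=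
  have x249f : α 249 = false := ff fun y => l4102 h y
  have x467f : α 467 = false := ff fun y => l3716 h x454t y
  have x108f : α 108 = false := ff fun y => l3685 h y x120t
  have x392t : α 392 = true := tt fun y => c3107 h x249f y x578f
  have x199f : α 199 = false := ff fun y => l3725 h x197t y
  have x54f : α 54 = false := ff fun y => l3796 h x197t y
  have x1f : α 1 = false := ff fun y => c78 h x197t y x237t x58t
  have x56t : α 56 = true := tt fun y => c59 h x199f y x1f
  have x233t : α 233 = true := tt fun y => c1314 h x54f x91f y
  have x53f : α 53 = false := ff fun y => l3649 h y x56t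
  have x52t : α 52 = true := tt fun y => c20 h x53f x1f y
  have x384f : α 384 = false := ff fun y => l3645 h y x454t x52t
  have x16f : α 16 = false := ff fun y => l3622 h x120t y x52t
  have x181t : α 181 = true := tt fun y => c2735 h x275f y x467f x384f
  have x381t : α 381 = true := tt fun y => c3332 h x467f y x384f
  have x24t : α 24 = true := tt fun y => c322 h y x16f x108f
  have x259f : α 259 = false := ff fun y => c2998 h x381t y x233t
  have x489t : α 489 = true := tt fun y => c2038 h x91f x259f y
  have x18t : α 18 = true := tt fun y => c441 h y x91f x259f
  have x339t : α 339 = true := tt fun y => c3157 h x259f y x478f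
  have x338f : α 338 = false := ff fun y => c3278 h y x381t x489t
  have x90f : α 90 = false := ff fun y => c1971 h y x181t x339t
  have x151t : α 151 = true := tt fun y => c2605 h x578f x338f y
  have x187t : α 187 = true := tt fun y => c1972 h x346f y x90f
  have x50f : α 50 = false := ff fun y => c1182 h x151t y x58t
  have x55f : α 55 = false := ff fun y => c1368 h x392t x187t y
  have x51t : α 51 = true := tt fun y => c1 h y x1f x50f
  have x60t : α 60 = true := tt fun y => c51 h x55f x1f y
  c404 h x24t x51t x18t x60t

theorem l4122 (h : Good α) (x237t : α 237 = true) (x28f : α 28 = false) (x114t : α 114 = true) (x275f : α 275 = false) (x346f : α 346 = false) (x272f : α 272 = false) (x91f : α 91 = false) (x94t : α 94 = true) (x58t : α 58 = true) : False :=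
  have x249f : α 249 = false := ff fun y => l4102 h y
  have x102t : α 102 = true := tt fun y => c864 h x272f x28f x346f y
  have x191t : α 191 = true := tt fun y => l4010 h y x275f x102t x28f x94t x91f
  have x267f : α 267 = false := ff fun y => l3683 h x102t y
  have x285t : α 285 = true := tt fun y => c3226 h x346f x275f y
  have x36f : α 36 = false := ff fun y => c1037 h y x114t x285t
  have x286t : α 286 = true := tt fun y => c3211 h y x272f x346f
  have x477t : α 477 = true := tt fun y => c3214 h x272f x346f y
  have x578f : α 578 = false := ff fun y => c2391 h x477t x114t y x237t
  have x120t : α 120 = true := tt fun y => l4117 h y x578f x237t x191t x102t x114t x285t x275f x286t x272f x91f x94t x58t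
  have x108f : α 108 = false := ff fun y => l3685 h y x120t
  have x282t : α 282 = true := tt fun y => c870 h x28f x108f y
  have x44t : α 44 = true := tt fun y => c843 h y x28f x108f
  have x260f : α 260 = false := ff fun y => c1128 h x44t x102t y
  have x340t : α 340 = true := tt fun y => l4119 h y x260f x108f x578f x237t x28f x91f x94t x58t
  have x576f : α 576 = false := ff fun y => l3724 h x340t y
  have x478f : α 478 = false := ff fun y => c2398 h x114t x340t x285t y
  have x41f : α 41 = false := ff fun y => c1111 h y x282t x114t x340t
  have x454t : α 454 = true := tt fun y => c3384 h y x478f x576f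
  have x12t : α 12 = true := tt fun y => c220 h x272f x41f x249f y
  have x74f : α 74 = false := ff fun y => c224 h x12t y x237t
  have x77t : α 77 = true := tt fun y => c1022 h y x36f x74f
  have x197f : α 197 = false := ff fun y => l4121 h y x454t x478f x120t x578f x237t x275f x346f x91f x58t
  have x353t : α 353 = true := tt fun y => c2889 h y x249f x197f
  have x1t : α 1 = true := tt fun y => l4118 h y x197f x94t
  have x439f : α 439 = false := ff fun y => l4120 h x197f y x77t x478f x576f x237t x267f x114t x285t x91f x94t x58t
  have x200f : α 200 = false := ff fun y => c1487 h x353t y x237t x58t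
  have x57f : α 57 = false := ff fun y => c62 h y x1t x58t
  have x201f : α 201 = false := ff fun y => c80 h x1t x58t y
  have x351t : α 351 = true := tt fun y => l4110 h x1t y x58t
  have x233t : α 233 = true := tt fun y => c2016 h x91f y x439f
  have x405t : α 405 = true := tt fun y => c1437 h y x200f x57f
  have x534f : α 534 = false := ff fun y => c3042 h x237t x351t y
  have x97f : α 97 = false := ff fun y => l4107 h x351t y x201f x534f x233t x439f x237t
  have x239f : α 239 = false := ff fun y => c2992 h x353t y x351t x233t
  have x54t : α 54 = true := tt fun y => c1344 h x197f y x534f x439f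
  have x236t : α 236 = true := tt fun y => c2909 h x239f x200f y
  have x61f : α 61 = false := ff fun y => l3870 h y x54t
  have x446f : α 446 = false := ff fun y => c48 h y x405t x54t x1t
  have x92t : α 92 = true := tt fun y => c1546 h x249f y x197f x61f
  have x442t : α 442 = true := tt fun y => c1990 h x446f y x91f x97f
  c2074 h x442t x236t x92t

theorem l4123 (h : Good α) (x578f : α 578 = false) (x237f : α 237 = false) : False :=
  have x249f : α 249 = false := ff fun y => l4102 h y
  have x197t : α 197 = true := tt fun y => c2885 h x249f y x237f
  have x392t : α 392 = true := tt fun y => c3107 h x249f y x578f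
  have x390t : α 390 = true := tt fun y => c3046 h x578f y x237f
  have x74f : α 74 = false := ff fun y => c1760 h x392t x197t y
  have x457f : α 457 = false := ff fun y => c3337 h x392t x390t y
  c1763 h x74f x237f x457f

theorem l4124 (h : Good α) (x74f : α 74 = false) (x284f : α 284 = false) (x113t : α 113 = true) (x238t : α 238 = true) (x250t : α 250 = true) (x204f : α 204 = false) (x237f : α 237 = false) (x36f : α 36 = false) (x477t : α 477 = true) (x346f : α 346 = false) : False :=
  have x578t : α 578 = true := tt fun y => l4123 h y x237f
  have x392t : α 392 = true := tt fun y => c1027 h x346f x36f y x74f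
  have x457t : α 457 = true := tt fun y => c1763 h x74f x237f y
  have x390f : α 390 = false := ff fun y => c3337 h x392t y x457t
  have x162t : α 162 = true := tt fun y => c2679 h x390f x237f y
  have x46f : α 46 = false := ff fun y => c1145 h x477t y x578t x162t
  have x256t : α 256 = true := tt fun y => c1020 h x36f y x46f x284f
  have x49f : α 49 = false := ff fun y => c1170 h x256t x113t y
  have x476f : α 476 = false := ff fun y => c2373 h y x256t x113t
  have x397f : α 397 = false := ff fun y => c2368 h x256t y x113t x250t
  have x79t : α 79 = true := tt fun y => c1807 h y x204f x397f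
  have x458f : α 458 = false := ff fun y => c1812 h y x238t x79t
  have x174f : α 174 = false := ff fun y => c1805 h x392t x79t x457t y
  have x391t : α 391 = true := tt fun y => c3338 h x458f y x397f
  have x579t : α 579 = true := tt fun y => c1172 h x476f y x49f x174f
  c3059 h x238t x391t x579t

theorem l4125 (h : Good α) (x390f : α 390 = false) (x74t : α 74 = true) (x284f : α 284 = false) (x113t : α 113 = true) (x250t : α 250 = true) (x21f : α 21 = false) (x112t : α 112 = true) (x242f : α 242 = false) (x60f : α 60 = false) (x237f : α 237 = false) (x36f : α 36 = false) (x477t : α 477 = true) : False :=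
  have x249f : α 249 = false := ff fun y => l4102 h y
  have x197t : α 197 = true := tt fun y => c2885 h x249f y x237f
  have x392f : α 392 = false := ff fun y => c1760 h y x197t x74t
  have x578t : α 578 = true := tt fun y => l4123 h y x237f
  have x162t : α 162 = true := tt fun y => c2679 h x390f x237f y
  have x25t : α 25 = true := tt fun y => c585 h x392f x21f x390f y
  have x46f : α 46 = false := ff fun y => c1145 h x477t y x578t x162t
  have x303f : α 303 = false := ff fun y => c790 h x25t x112t y
  have x256t : α 256 = true := tt fun y => c1020 h x36f y x46f x284f
  have x274t : α 274 = true := tt fun y => c3077 h y x242f x303f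
  have x397f : α 397 = false := ff fun y => c2368 h x256t y x113t x250t
  have x190f : α 190 = false := ff fun y => c1752 h x74t y x162t x274t
  c1540 h x60f x190f x397f

theorem l4126 (h : Good α) (x397f : α 397 = false) (x173t : α 173 = true) (x74t : α 74 = true) (x482f : α 482 = false) (x238t : α 238 = true) (x204f : α 204 = false) (x60f : α 60 = false) : False :=
  have x79t : α 79 = true := tt fun y => c1807 h y x204f x397f
  have x190t : α 190 = true := tt fun y => c1540 h x60f y x397f
  have x458f : α 458 = false := ff fun y => c1812 h y x238t x79t
  have x262f : α 262 = false := ff fun y => c1755 h x173t y x74t x190t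
  have x148t : α 148 = true := tt fun y => c1535 h y x458f x60f x397f
  have x573t : α 573 = true := tt fun y => c3389 h y x482f x458f
  have x104t : α 104 = true := tt fun y => c2268 h x482f x262f y
  have x342f : α 342 = false := ff fun y => c2572 h x573t y x148t
  have x269f : α 269 = false := ff fun y => c2264 h y x148t x104t
  c3202 h x269f x342f x482f

theorem l4127 (h : Good α) (x190t : α 190 = true) (x186t : α 186 = true) (x173t : α 173 = true) (x74t : α 74 = true) (x482f : α 482 = false) (x108f : α 108 = false) (x61t : α 61 = true) (x242f : α 242 = false) : False :=
  have x396f : α 396 = false := ff fun y => c1571 h x61t x190t y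
  have x262f : α 262 = false := ff fun y => c1755 h x173t y x74t x190t
  have x274t : α 274 = true := tt fun y => c3078 h x396f y x242f
  have x104t : α 104 = true := tt fun y => c2268 h x482f x262f y
  have x192f : α 192 = false := ff fun y => c2832 h y x190t x274t
  have x89f : α 89 = false := ff fun y => c1940 h x104t y x186t
  c1943 h x192f x89f x108f

theorem l4128 (h : Good α) (x120t : α 120 = true) (x238t : α 238 = true) (x250t : α 250 = true) (x21f : α 21 = false) (x61t : α 61 = true) (x112t : α 112 = true) (x242f : α 242 = false) (x340t : α 340 = true) (x1t : α 1 = true) (x233t : α 233 = true) (x237f : α 237 = false) (x191t : α 191 = true) (x267f : α 267 = false) (x28f : α 28 = false) (x36f : α 36 = false) (x114t : α 114 = true) (x286t : α 286 = true) (x477t : α 477 = true) (x346f : α 346 = false) (x58t : α 58 = true) : False :=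
  have x249f : α 249 = false := ff fun y => l4102 h y
  have x201f : α 201 = false := ff fun y => c80 h x1t x58t y
  have x57f : α 57 = false := ff fun y => c62 h y x1t x58t
  have x92t : α 92 = true := tt fun y => c1413 h x57f y x201f x242f
  have x53f : α 53 = false := ff fun y => l3778 h y x61t
  have x264f : α 264 = false := ff fun y => l3967 h y x238t x53f x57f x92t
  have x113t : α 113 = true := tt fun y => l3691 h y x264f
  have x97f : α 97 = false := ff fun y => c1545 h x92t x61t y
  have x59f : α 59 = false := ff fun y => l3670 h y x61t
  have x197t : α 197 = true := tt fun y => c2885 h x249f y x237f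
  have x351t : α 351 = true := tt fun y => l4110 h x1t y x58t
  have x354t : α 354 = true := tt fun y => c2923 h x201f x242f y
  have x204f : α 204 = false := ff fun y => c2882 h x197t y x351t x354t
  have x60f : α 60 = false := ff fun y => l3449 h y x58t x1t
  have x578t : α 578 = true := tt fun y => l4123 h y x237f
  have x108f : α 108 = false := ff fun y => l3685 h y x120t
  have x175f : α 175 = false := ff fun y => l3698 h x120t y
  have x483t : α 483 = true := tt fun y => c2319 h x108f x267f y
  have x282t : α 282 = true := tt fun y => c870 h x28f x108f y
  have x44t : α 44 = true := tt fun y => c843 h y x28f x108f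
  have x337t : α 337 = true := tt fun y => c869 h x264f y x28f x108f
  have x284f : α 284 = false := ff fun y => c2377 h x113t y x340t x483t
  have x41f : α 41 = false := ff fun y => c1111 h y x282t x114t x340t
  have x482f : α 482 = false := ff fun y => c2461 h x286t y x120t x337t
  have x4t : α 4 = true := tt fun y => c133 h x175f x41f y
  have x74t : α 74 = true := tt fun y => l4124 h y x284f x113t x238t x250t x204f x237f x36f x477t x346f
  have x392f : α 392 = false := ff fun y => c1760 h y x197t x74t
  have x173t : α 173 = true := tt fun y => c2699 h y x249f x392f
  have x82f : α 82 = false := ff fun y => c1747 h x173t y x74t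
  have x472t : α 472 = true := tt fun y => c1857 h y x249f x82f
  have x390t : α 390 = true := tt fun y => l4125 h y x74t x284f x113t x250t x21f x112t x242f x60f x237f x36f x477t
  have x271f : α 271 = false := ff fun y => c2843 h x472t y x390t x191t
  have x397t : α 397 = true := tt fun y => l4126 h y x173t x74t x482f x238t x204f x60f
  have x256f : α 256 = false := ff fun y => c2368 h y x397t x113t x250t
  have x186t : α 186 = true := tt fun y => l3672 h x256f y x59f
  have x46t : α 46 = true := tt fun y => c1020 h x36f x256f y x284f
  have x464f : α 464 = false := ff fun y => c139 h x4t y x46t x483t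
  have x162f : α 162 = false := ff fun y => c1145 h x477t x46t x578t y
  have x190f : α 190 = false := ff fun y => l4127 h y x186t x173t x74t x482f x108f x61t x242f
  have x343t : α 343 = true := tt fun y => c2184 h y x190f x97f
  have x396t : α 396 = true := tt fun y => c2836 h x190f y x267f x464f
  have x192f : α 192 = false := ff fun y => c2070 h x92t y x343t
  have x382f : α 382 = false := ff fun y => c3298 h y x343t x396t
  have x509f : α 509 = false := ff fun y => c3300 h x343t x396t y
  have x116f : α 116 = false := ff fun y => c1130 h y x343t x44t x282t
  have x51t : α 51 = true := tt fun y => c1207 h y x192f x60f x190f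
  have x25t : α 25 = true := tt fun y => c582 h x116f x21f y
  have x194f : α 194 = false := ff fun y => c15 h y x51t x1t
  have x303f : α 303 = false := ff fun y => c790 h x25t x112t y
  have x332t : α 332 = true := tt fun y => c2866 h x194f x382f y x509f
  have x419t : α 419 = true := tt fun y => c2415 h x271f x116f y x303f
  have x156f : α 156 = false := ff fun y => c1479 h x58t y x332t
  have x115f : α 115 = false := ff fun y => c2405 h y x233t x419t
  c2401 h x162f x115f x156f

theorem l4129 (h : Good α) (x120f : α 120 = false) (x237f : α 237 = false) (x36f : α 36 = false) (x477t : α 477 = true) (x272f : α 272 = false) : False :=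
  have x249f : α 249 = false := ff fun y => l4102 h y
  have x578t : α 578 = true := tt fun y => l4123 h y x237f
  have x197t : α 197 = true := tt fun y => c2885 h x249f y x237f
  have x82t : α 82 = true := tt fun y => c1850 h x272f x120f x249f y
  have x46t : α 46 = true := tt fun y => c1019 h x120f x36f y
  have x390f : α 390 = false := ff fun y => c1856 h x82t x197t y
  have x162f : α 162 = false := ff fun y => c1145 h x477t x46t x578t y
  c2679 h x390f x237f x162f

theorem l4130 (h : Good α) (x250t : α 250 = true) (x238t : α 238 = true) (x478f : α 478 = false) (x340t : α 340 = true) (x1t : α 1 = true) (x120t : α 120 = true) (x237f : α 237 = false) (x191t : α 191 = true) (x102t : α 102 = true) (x28f : α 28 = false) (x36f : α 36 = false) (x114t : α 114 = true) (x286t : α 286 = true) (x477t : α 477 = true) (x346f : α 346 = false) (x91f : α 91 = false) (x58t : α 58 = true) : False :=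
  have x249f : α 249 = false := ff fun y => l4102 h y
  have x576f : α 576 = false := ff fun y => l3724 h x340t y
  have x197t : α 197 = true := tt fun y => c2885 h x249f y x237f
  have x54f : α 54 = false := ff fun y => l3796 h x197t y
  have x233t : α 233 = true := tt fun y => c1314 h x54f x91f y
  have x267f : α 267 = false := ff fun y => l3683 h x102t y
  have x97f : α 97 = false := ff fun y => c1469 h x58t y x250t
  have x92t : α 92 = true := tt fun y => c2046 h x249f y x237f x97f
  have x61t : α 61 = true := tt fun y => c1301 h x54f y x91f x97f
  have x242f : α 242 = false := ff fun y => l3906 h x91f y x54f x92t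
  have x21f : α 21 = false := ff fun y => l3626 h y x102t x61t
  have x112t : α 112 = true := tt fun y => c2359 h y x242f x478f x576f
  l4128 h x120t x238t x250t x21f x61t x112t x242f x340t x1t x233t x237f x191t x267f x28f x36f x114t x286t x477t x346f x58t

theorem l4131 (h : Good α) (x238t : α 238 = true) (x478f : α 478 = false) (x340t : α 340 = true) (x1t : α 1 = true) (x120t : α 120 = true) (x237f : α 237 = false) (x191t : α 191 = true) (x102t : α 102 = true) (x28f : α 28 = false) (x36f : α 36 = false) (x114t : α 114 = true) (x286t : α 286 = true) (x477t : α 477 = true) (x346f : α 346 = false) (x91f : α 91 = false) (x58t : α 58 = true) : False :=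
  have x249f : α 249 = false := ff fun y => l4102 h y
  have x351t : α 351 = true := tt fun y => l4110 h x1t y x58t
  have x201f : α 201 = false := ff fun y => c80 h x1t x58t y
  have x197t : α 197 = true := tt fun y => c2885 h x249f y x237f
  have x54f : α 54 = false := ff fun y => l3796 h x197t y
  have x250f : α 250 = false := ff fun y => l4130 h y x238t x478f x340t x1t x120t x237f x191t x102t x28f x36f x114t x286t x477t x346f x91f x58t
  have x204t : α 204 = true := tt fun y => c1312 h x54f y x91f x250f
  have x354f : α 354 = false := ff fun y => c2882 h x197t x204t x351t y
  have x61f : α 61 = false := ff fun y => c102 h x1t y x204t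
  have x352f : α 352 = false := ff fun y => c2939 h y x238t x204t
  have x242t : α 242 = true := tt fun y => c2923 h x201f y x354f
  have x97t : α 97 = true := tt fun y => c1301 h x54f x61f x91f y
  have x200t : α 200 = true := tt fun y => c2907 h y x352f x201f x354f
  have x92f : α 92 = false := ff fun y => l3906 h x91f x242t x54f y
  have x236f : α 236 = false := ff fun y => c1466 h x200t y x58t x97t
  c1548 h x236f x92f x61f

theorem l4132 (h : Good α) (x238f : α 238 = false) (x1t : α 1 = true) (x237f : α 237 = false) (x91f : α 91 = false) (x58t : α 58 = true) : False :=
  have x249f : α 249 = false := ff fun y => l4102 h y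
  have x197t : α 197 = true := tt fun y => c2885 h x249f y x237f
  have x54f : α 54 = false := ff fun y => l3796 h x197t y
  have x233t : α 233 = true := tt fun y => c1314 h x54f x91f y
  have x351t : α 351 = true := tt fun y => l4110 h x1t y x58t
  have x543f : α 543 = false := ff fun y => c3001 h y x351t x233t
  have x443t : α 443 = true := tt fun y => c2024 h y x237f x91f
  have x402f : α 402 = false := ff fun y => c84 h y x1t x443t x58t
  have x201f : α 201 = false := ff fun y => c80 h x1t x58t y
  have x57f : α 57 = false := ff fun y => c62 h y x1t x58t
  have x92t : α 92 = true := tt fun y => c1415 h x57f y x238f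
  have x354t : α 354 = true := tt fun y => c1441 h x57f x238f x201f y
  have x250t : α 250 = true := tt fun y => c3027 h x249f x238f x237f y
  have x242f : α 242 = false := ff fun y => l3906 h x91f y x54f x92t
  have x546f : α 546 = false := ff fun y => c3116 h x250t x354t y
  have x97f : α 97 = false := ff fun y => c1469 h x58t y x250t
  have x447t : α 447 = true := tt fun y => c2195 h x97f x242f y
  have x61t : α 61 = true := tt fun y => c1583 h x402f y x543f x242f
  have x406t : α 406 = true := tt fun y => c1446 h x57f x238f y x546f
  c106 h x1t x61t x406t x447t

theorem l4133 (h : Good α) (x340t : α 340 = true) (x1t : α 1 = true) (x120t : α 120 = true) (x237f : α 237 = false) (x191t : α 191 = true) (x102t : α 102 = true) (x28f : α 28 = false) (x114t : α 114 = true) (x285t : α 285 = true) (x286t : α 286 = true) (x477t : α 477 = true) (x346f : α 346 = false) (x91f : α 91 = false) (x58t : α 58 = true) : False :=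
  have x238t : α 238 = true := tt fun y => l4132 h y x1t x237f x91f x58t
  have x36f : α 36 = false := ff fun y => c1037 h y x114t x285t
  have x478f : α 478 = false := ff fun y => c2398 h x114t x340t x285t y
  l4131 h x238t x478f x340t x1t x120t x237f x191t x102t x28f x36f x114t x286t x477t x346f x91f x58t

theorem l4134 (h : Good α) (x1t : α 1 = true) (x120t : α 120 = true) (x237f : α 237 = false) (x191t : α 191 = true) (x102t : α 102 = true) (x28f : α 28 = false) (x114t : α 114 = true) (x285t : α 285 = true) (x286t : α 286 = true) (x477t : α 477 = true) (x346f : α 346 = false) (x91f : α 91 = false) (x58t : α 58 = true) : False :=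
  have x249f : α 249 = false := ff fun y => l4102 h y
  have x197t : α 197 = true := tt fun y => c2885 h x249f y x237f
  have x54f : α 54 = false := ff fun y => l3796 h x197t y
  have x233t : α 233 = true := tt fun y => c1314 h x54f x91f y
  have x443t : α 443 = true := tt fun y => c2024 h y x237f x91f
  have x57f : α 57 = false := ff fun y => c62 h y x1t x58t
  have x351t : α 351 = true := tt fun y => l4110 h x1t y x58t
  have x402f : α 402 = false := ff fun y => c84 h y x1t x443t x58t
  have x543f : α 543 = false := ff fun y => c3001 h y x351t x233t
  have x340f : α 340 = false := ff fun y => l4133 h y x1t x120t x237f x191t x102t x28f x114t x285t x286t x477t x346f x91f x58t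
  have x97t : α 97 = true := tt fun y => l4104 h x340f y x91f x58t
  have x250f : α 250 = false := ff fun y => c1469 h x58t x97t y
  have x61f : α 61 = false := ff fun y => c76 h x1t y x58t x97t
  have x204t : α 204 = true := tt fun y => c1312 h x54f y x91f x250f
  have x242t : α 242 = true := tt fun y => c1583 h x402f x61f x543f y
  have x354f : α 354 = false := ff fun y => c2882 h x197t x204t x351t y
  have x92f : α 92 = false := ff fun y => l3906 h x91f x242t x54f y
  have x447f : α 447 = false := ff fun y => c2196 h x97t x242t y
  have x546t : α 546 = true := tt fun y => c3115 h x250f x354f y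
  have x406t : α 406 = true := tt fun y => c1417 h x57f x92f y x447f
  c125 h x1t x204t x406t x546t

theorem l4135 (h : Good α) (x28f : α 28 = false) (x114t : α 114 = true) (x275f : α 275 = false) (x346f : α 346 = false) (x272f : α 272 = false) (x91f : α 91 = false) (x94t : α 94 = true) (x58t : α 58 = true) : False :=
  have x249f : α 249 = false := ff fun y => l4102 h y
  have x285t : α 285 = true := tt fun y => c3226 h x346f x275f y
  have x36f : α 36 = false := ff fun y => c1037 h y x114t x285t
  have x286t : α 286 = true := tt fun y => c3211 h y x272f x346f
  have x477t : α 477 = true := tt fun y => c3214 h x272f x346f y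
  have x102t : α 102 = true := tt fun y => c864 h x272f x28f x346f y
  have x267f : α 267 = false := ff fun y => l3683 h x102t y
  have x191t : α 191 = true := tt fun y => l4010 h y x275f x102t x28f x94t x91f
  have x237f : α 237 = false := ff fun y => l4122 h y x28f x114t x275f x346f x272f x91f x94t x58t
  have x197t : α 197 = true := tt fun y => c2885 h x249f y x237f
  have x443t : α 443 = true := tt fun y => c2024 h y x237f x91f
  have x199f : α 199 = false := ff fun y => l3725 h x197t y
  have x54f : α 54 = false := ff fun y => l3796 h x197t y
  have x233t : α 233 = true := tt fun y => c1314 h x54f x91f y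
  have x120t : α 120 = true := tt fun y => l4129 h y x237f x36f x477t x272f
  have x108f : α 108 = false := ff fun y => l3685 h y x120t
  have x175f : α 175 = false := ff fun y => l3698 h x120t y
  have x483t : α 483 = true := tt fun y => c2319 h x108f x267f y
  have x282t : α 282 = true := tt fun y => c870 h x28f x108f y
  have x44t : α 44 = true := tt fun y => c843 h y x28f x108f
  have x260f : α 260 = false := ff fun y => c1128 h x44t x102t y
  have x1f : α 1 = false := ff fun y => l4134 h y x120t x237f x191t x102t x28f x114t x285t x286t x477t x346f x91f x58t
  have x56t : α 56 = true := tt fun y => c59 h x199f y x1f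
  have x61t : α 61 = true := tt fun y => c39 h x54f x1f y
  have x53f : α 53 = false := ff fun y => l3649 h y x56t
  have x327f : α 327 = false := ff fun y => l3667 h x56t y
  have x52t : α 52 = true := tt fun y => c20 h x53f x1f y
  have x16f : α 16 = false := ff fun y => l3622 h x120t y x52t
  have x24t : α 24 = true := tt fun y => c322 h y x16f x108f
  have x181t : α 181 = true := tt fun y => c355 h x16f x108f y x260f
  have x30f : α 30 = false := ff fun y => c726 h x94t x24t y
  have x308f : α 308 = false := ff fun y => c759 h y x120t x24t
  have x384f : α 384 = false := ff fun y => c1254 h x52t x181t y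
  have x18t : α 18 = true := tt fun y => c413 h x30f y x91f
  have x425t : α 425 = true := tt fun y => c2318 h x308f x108f y x260f
  have x454t : α 454 = true := tt fun y => c358 h x16f x108f x384f y
  have x328f : α 328 = false := ff fun y => c1252 h y x52t x425t x181t
  have x467f : α 467 = false := ff fun y => l3716 h x454t y
  have x402t : α 402 = true := tt fun y => c3263 h x328f x327f y
  have x381t : α 381 = true := tt fun y => c3332 h x467f y x384f
  have x68t : α 68 = true := tt fun y => c1666 h x175f y x467f x384f
  have x97f : α 97 = false := ff fun y => c1558 h x402t x61t x443t y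
  have x449f : α 449 = false := ff fun y => c3345 h y x402t x443t
  have x543f : α 543 = false := ff fun y => c3347 h x402t x443t y
  have x259f : α 259 = false := ff fun y => c2998 h x381t y x233t
  have x63f : α 63 = false := ff fun y => c1599 h y x68t x191t x181t
  have x92t : α 92 = true := tt fun y => c2046 h x249f y x237f x97f
  have x340t : α 340 = true := tt fun y => l4104 h y x97f x91f x58t
  have x351t : α 351 = true := tt fun y => c3102 h x449f x249f x543f y
  have x75t : α 75 = true := tt fun y => c912 h x63f x30f y
  have x242f : α 242 = false := ff fun y => l3906 h x91f y x54f x92t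
  have x57f : α 57 = false := ff fun y => c1410 h x94t y x92t
  have x576f : α 576 = false := ff fun y => l3724 h x340t y
  have x478f : α 478 = false := ff fun y => c2398 h x114t x340t x285t y
  have x41f : α 41 = false := ff fun y => c1111 h y x282t x114t x340t
  have x201f : α 201 = false := ff fun y => c2922 h x351t x233t y
  have x354t : α 354 = true := tt fun y => c2923 h x201f x242f y
  have x387t : α 387 = true := tt fun y => c3084 h x242f y x576f
  have x339t : α 339 = true := tt fun y => c3157 h x259f y x478f
  have x4t : α 4 = true := tt fun y => c133 h x175f x41f y
  have x204f : α 204 = false := ff fun y => c2882 h x197t y x351t x354t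
  have x90f : α 90 = false := ff fun y => c1971 h y x181t x339t
  have x247f : α 247 = false := ff fun y => c142 h x4t x75t y
  have x334t : α 334 = true := tt fun y => l3705 h x204f y
  have x238t : α 238 = true := tt fun y => c69 h x57f y x1f x204f
  have x250t : α 250 = true := tt fun y => c1312 h x54f x204f x91f y
  have x22t : α 22 = true := tt fun y => c653 h x272f y x346f x90f
  have x264f : α 264 = false := ff fun y => l3967 h y x238t x53f x57f x92t
  have x299f : α 299 = false := ff fun y => c640 h x22t y x52t x334t
  have x113t : α 113 = true := tt fun y => l3691 h y x264f
  have x184t : α 184 = true := tt fun y => l3652 h y x264f x53f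
  have x337t : α 337 = true := tt fun y => c869 h x264f y x28f x108f
  have x284f : α 284 = false := ff fun y => c2377 h x113t y x340t x483t
  have x117f : α 117 = false := ff fun y => c2057 h x184t x92t y
  have x482f : α 482 = false := ff fun y => c2461 h x286t y x120t x337t
  have x74t : α 74 = true := tt fun y => l4124 h y x284f x113t x238t x250t x204f x237f x36f x477t x346f
  have x20t : α 20 = true := tt fun y => c570 h y x117f x299f
  have x392f : α 392 = false := ff fun y => c1760 h y x197t x74t
  have x60f : α 60 = false := ff fun y => c434 h x74t x18t y
  have x378f : α 378 = false := ff fun y => c517 h x22t x20t y x387t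
  have x173t : α 173 = true := tt fun y => c2699 h y x249f x392f
  have x464t : α 464 = true := tt fun y => c3095 h x247f y x378f x576f
  have x397t : α 397 = true := tt fun y => l4126 h y x173t x74t x482f x238t x204f x60f
  have x46f : α 46 = false := ff fun y => c139 h x4t x464t y x483t
  have x256f : α 256 = false := ff fun y => c2368 h y x397t x113t x250t
  c1020 h x36f x256f x46f x284f

theorem l4136 (h : Good α) (x237f : α 237 = false) (x28t : α 28 = true) (x91f : α 91 = false) (x94t : α 94 = true) (x58t : α 58 = true) : False :=
  have x249f : α 249 = false := ff fun y => l4102 h y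
  have x340f : α 340 = false := ff fun y => l3636 h x28t y
  have x183t : α 183 = true := tt fun y => c2006 h x91f y x340f
  have x380f : α 380 = false := ff fun y => c1482 h x58t x183t y
  have x399t : α 399 = true := tt fun y => c3284 h x380f x340f y
  have x189f : α 189 = false := ff fun y => c1485 h x58t y x399t
  have x487t : α 487 = true := tt fun y => c3286 h y x380f x340f
  have x97t : α 97 = true := tt fun y => l4104 h x340f y x91f x58t
  have x250f : α 250 = false := ff fun y => c1469 h x58t x97t y
  have x22f : α 22 = false := ff fun y => c621 h x94t y x28t
  have x10f : α 10 = false := ff fun y => l3618 h y x28t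
  have x197t : α 197 = true := tt fun y => c2885 h x249f y x237f
  have x443t : α 443 = true := tt fun y => c2024 h y x237f x91f
  have x238t : α 238 = true := tt fun y => c3027 h x249f y x237f x250f
  have x326f : α 326 = false := ff fun y => l3726 h x197t y
  have x54f : α 54 = false := ff fun y => l3796 h x197t y
  have x423f : α 423 = false := ff fun y => c3370 h x443t y x487t
  have x233t : α 233 = true := tt fun y => c1314 h x54f x91f y
  have x204t : α 204 = true := tt fun y => c1312 h x54f y x91f x250f
  have x59t : α 59 = true := tt fun y => c1523 h x326f y x423f x189f
  have x352f : α 352 = false := ff fun y => c2939 h y x238t x204t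
  have x61f : α 61 = false := ff fun y => l3670 h x59t y
  have x1t : α 1 = true := tt fun y => c39 h x54f y x61f
  have x57f : α 57 = false := ff fun y => c62 h y x1t x58t
  have x201f : α 201 = false := ff fun y => c80 h x1t x58t y
  have x351t : α 351 = true := tt fun y => l4110 h x1t y x58t
  have x56f : α 56 = false := ff fun y => c57 h y x1t x59t
  have x184t : α 184 = true := tt fun y => c646 h y x57f x22f
  have x354f : α 354 = false := ff fun y => c2882 h x197t x204t x351t y
  have x53t : α 53 = true := tt fun y => l3648 h y x56f
  have x379f : α 379 = false := ff fun y => c1295 h y x184t x53t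
  have x200t : α 200 = true := tt fun y => c2907 h y x352f x201f x354f
  l3602 h x200t x233t x58t x379f x10f x94t x97t x1t x61f

theorem l4137 (h : Good α) (x28t : α 28 = true) (x91f : α 91 = false) (x94t : α 94 = true) (x58t : α 58 = true) : False :=
  have x249f : α 249 = false := ff fun y => l4102 h y
  have x340f : α 340 = false := ff fun y => l3636 h x28t y
  have x22f : α 22 = false := ff fun y => c621 h x94t y x28t
  have x97t : α 97 = true := tt fun y => l4104 h x340f y x91f x58t
  have x237t : α 237 = true := tt fun y => l4136 h y x28t x91f x94t x58t
  have x197f : α 197 = false := ff fun y => l4109 h y x97t x237t x58t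
  have x1t : α 1 = true := tt fun y => l4118 h y x197f x94t
  have x57f : α 57 = false := ff fun y => c62 h y x1t x58t
  have x61f : α 61 = false := ff fun y => c76 h x1t y x58t x97t
  have x62t : α 62 = true := tt fun y => c642 h x57f x22f y
  have x92t : α 92 = true := tt fun y => c1546 h x249f y x197f x61f
  have x85f : α 85 = false := ff fun y => c848 h x62t x28t y
  have x20f : α 20 = false := ff fun y => c522 h x92t y x28t
  c531 h x57f x20f x85f

theorem l4138 (h : Good α) (x97t : α 97 = true) (x1t : α 1 = true) (x114f : α 114 = false) (x91f : α 91 = false) (x58t : α 58 = true) : False :=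
  have x249f : α 249 = false := ff fun y => l4102 h y
  have x237t : α 237 = true := tt fun y => l3588 h x114f y x58t x91f
  have x57f : α 57 = false := ff fun y => c62 h y x1t x58t
  have x197f : α 197 = false := ff fun y => c78 h y x1t x237t x58t
  have x353t : α 353 = true := tt fun y => c2889 h y x249f x197f
  have x200f : α 200 = false := ff fun y => c1487 h x353t y x237t x58t
  have x405t : α 405 = true := tt fun y => c1437 h y x200f x57f
  have x545f : α 545 = false := ff fun y => c1496 h y x405t x237t x58t
  have x351t : α 351 = true := tt fun y => l4110 h x1t y x58t
  have x534f : α 534 = false := ff fun y => c3042 h x237t x351t y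
  have x406t : α 406 = true := tt fun y => c1448 h x249f x57f x534f y
  have x201f : α 201 = false := ff fun y => c80 h x1t x58t y
  have x183t : α 183 = true := tt fun y => c1992 h x114f x91f y
  have x23f : α 23 = false := ff fun y => c696 h y x58t x183t
  have x19t : α 19 = true := tt fun y => c461 h x114f y x23f
  have x61f : α 61 = false := ff fun y => c76 h x1t y x58t x97t
  have x242f : α 242 = false := ff fun y => c2191 h x237t x97t x351t y
  have x447f : α 447 = false := ff fun y => c1471 h x58t x97t x406t y
  have x59t : α 59 = true := tt fun y => l3669 h y x61f
  have x325t : α 325 = true := tt fun y => l3677 h x61f y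
  have x92t : α 92 = true := tt fun y => c1546 h x249f y x197f x61f
  have x354t : α 354 = true := tt fun y => c2923 h x201f x242f y
  have x233t : α 233 = true := tt fun y => c2919 h y x201f x242f
  have x236t : α 236 = true := tt fun y => c2903 h x200f y x201f x242f
  have x56f : α 56 = false := ff fun y => c57 h y x1t x59t
  have x439t : α 439 = true := tt fun y => l4107 h x351t x97t x201f x534f x233t y x237t
  have x386t : α 386 = true := tt fun y => l3501 h y x236t x200f x56f
  have x546f : α 546 = false := ff fun y => c3003 h x233t x354t x439t y
  have x54f : α 54 = false := ff fun y => c50 h y x1t x439t x406t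
  have x204t : α 204 = true := tt fun y => c1580 h x61f y x447f x546f
  have x535f : α 535 = false := ff fun y => c124 h x405t y x1t x204t
  have x238t : α 238 = true := tt fun y => c3050 h x545f x535f x249f y
  have x444f : α 444 = false := ff fun y => c2080 h x92t x238t y
  have x544t : α 544 = true := tt fun y => c1439 h x200f y x57f x444f
  have x450f : α 450 = false := ff fun y => c2189 h x236t x544t x97t y
  have x409t : α 409 = true := tt fun y => c1317 h x54f y x91f x450f
  have x335f : α 335 = false := ff fun y => c3261 h x325t y x409t
  have x264f : α 264 = false := ff fun y => l3419 h y x335f x238t x57f x56f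
  have x452t : α 452 = true := tt fun y => l3711 h x264f y
  have x113t : α 113 = true := tt fun y => l3691 h y x264f
  c503 h x386t x452t x19t x113t

theorem l4139 (h : Good α) (x61f : α 61 = false) (x97f : α 97 = false) (x200f : α 200 = false) (x197f : α 197 = false) (x201f : α 201 = false) (x91f : α 91 = false) (x94t : α 94 = true) : False :=
  have x249f : α 249 = false := ff fun y => l4102 h y
  have x92t : α 92 = true := tt fun y => c1546 h x249f y x197f x61f
  have x54t : α 54 = true := tt fun y => c1301 h y x61f x91f x97f
  have x242t : α 242 = true := tt fun y => c1556 h x61f x97f y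
  have x239f : α 239 = false := ff fun y => c1323 h y x94t x54t
  have x233f : α 233 = false := ff fun y => c2041 h x94t x92t y x242t
  c2901 h x239f x200f x233f x201f

theorem l4140 (h : Good α) (x1t : α 1 = true) (x114f : α 114 = false) (x91f : α 91 = false) (x94t : α 94 = true) (x58t : α 58 = true) : False :=
  have x249f : α 249 = false := ff fun y => l4102 h y
  have x237t : α 237 = true := tt fun y => l3588 h x114f y x58t x91f
  have x57f : α 57 = false := ff fun y => c62 h y x1t x58t
  have x201f : α 201 = false := ff fun y => c80 h x1t x58t y
  have x197f : α 197 = false := ff fun y => c78 h y x1t x237t x58t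
  have x351t : α 351 = true := tt fun y => l4110 h x1t y x58t
  have x353t : α 353 = true := tt fun y => c2889 h y x249f x197f
  have x534f : α 534 = false := ff fun y => c3042 h x237t x351t y
  have x200f : α 200 = false := ff fun y => c1487 h x353t y x237t x58t
  have x406t : α 406 = true := tt fun y => c1448 h x249f x57f x534f y
  have x405t : α 405 = true := tt fun y => c1437 h y x200f x57f
  have x545f : α 545 = false := ff fun y => c1496 h y x405t x237t x58t
  have x97f : α 97 = false := ff fun y => l4138 h y x1t x114f x91f x58t
  have x61t : α 61 = true := tt fun y => l4139 h y x97f x200f x197f x201f x91f x94t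
  have x54f : α 54 = false := ff fun y => l3870 h x61t y
  have x447f : α 447 = false := ff fun y => c106 h x1t x61t x406t y
  have x442f : α 442 = false := ff fun y => c104 h x405t y x1t x61t
  have x233t : α 233 = true := tt fun y => c1314 h x54f x91f y
  have x242t : α 242 = true := tt fun y => c2195 h x97f y x447f
  have x92t : α 92 = true := tt fun y => c2083 h x545f x442f x249f y
  c2041 h x94t x92t x233t x242t

theorem l4141 (h : Good α) (x275f : α 275 = false) (x346f : α 346 = false) (x272f : α 272 = false) (x91f : α 91 = false) (x94t : α 94 = true) (x58t : α 58 = true) : False :=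
  have x249f : α 249 = false := ff fun y => l4102 h y
  have x306t : α 306 = true := tt fun y => c3098 h x272f x249f y
  have x28f : α 28 = false := ff fun y => l4137 h y x91f x94t x58t
  have x285t : α 285 = true := tt fun y => c3226 h x346f x275f y
  have x114f : α 114 = false := ff fun y => l4135 h x28f y x275f x346f x272f x91f x94t x58t
  have x237t : α 237 = true := tt fun y => l3588 h x114f y x58t x91f
  have x183t : α 183 = true := tt fun y => c1992 h x114f x91f y
  have x23f : α 23 = false := ff fun y => c696 h y x58t x183t
  have x19t : α 19 = true := tt fun y => c461 h x114f y x23f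
  have x189f : α 189 = false := ff fun y => c484 h x19t x58t y
  have x1f : α 1 = false := ff fun y => l4140 h y x114f x91f x94t x58t
  have x197t : α 197 = true := tt fun y => l4118 h x1f y x94t
  have x199f : α 199 = false := ff fun y => l3725 h x197t y
  have x326f : α 326 = false := ff fun y => l3726 h x197t y
  have x54f : α 54 = false := ff fun y => l3796 h x197t y
  have x97f : α 97 = false := ff fun y => l4109 h x197t y x237t x58t
  have x56t : α 56 = true := tt fun y => c59 h x199f y x1f
  have x61t : α 61 = true := tt fun y => c1301 h x54f y x91f x97f
  have x340t : α 340 = true := tt fun y => l4104 h y x97f x91f x58t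
  have x273t : α 273 = true := tt fun y => c706 h x23f x97f y
  have x53f : α 53 = false := ff fun y => l3649 h y x56t
  have x188f : α 188 = false := ff fun y => c477 h y x56t x19t
  have x70f : α 70 = false := ff fun y => c473 h x56t x19t y
  have x59f : α 59 = false := ff fun y => l3670 h y x61t
  have x260f : α 260 = false := ff fun y => l3503 h y x340t
  have x52t : α 52 = true := tt fun y => c20 h x53f x1f y
  have x158t : α 158 = true := tt fun y => c1688 h x272f x188f y x70f
  have x423t : α 423 = true := tt fun y => c1523 h x326f x59f y x189f
  have x157f : α 157 = false := ff fun y => c1249 h x52t y x183t x273t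
  have x22f : α 22 = false := ff fun y => c638 h y x52t x183t
  have x467f : α 467 = false := ff fun y => c2673 h y x285t x158t
  have x117f : α 117 = false := ff fun y => c2432 h x306t y x423t x273t
  have x161t : α 161 = true := tt fun y => c2419 h y x117f x157f
  have x90t : α 90 = true := tt fun y => c653 h x272f x22f x346f y
  have x454t : α 454 = true := tt fun y => c3160 h x275f x260f x467f y
  have x80f : α 80 = false := ff fun y => c1817 h y x161t x183t x273t
  have x251f : α 251 = false := ff fun y => c1238 h y x90t x52t
  have x384f : α 384 = false := ff fun y => l3645 h y x454t x52t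
  have x118t : α 118 = true := tt fun y => c1815 h x80f y x251f
  have x181t : α 181 = true := tt fun y => c2735 h x275f y x467f x384f
  c1963 h x118t x90t x181t

theorem l4142 (h : Good α) (x346f : α 346 = false) (x272f : α 272 = false) (x91f : α 91 = false) (x94t : α 94 = true) (x58t : α 58 = true) : False :=
  have x28f : α 28 = false := ff fun y => l4137 h y x91f x94t x58t
  have x477t : α 477 = true := tt fun y => c3214 h x272f x346f y
  have x102t : α 102 = true := tt fun y => c864 h x272f x28f x346f y
  have x275t : α 275 = true := tt fun y => l4141 h y x346f x272f x91f x94t x58t
  have x114f : α 114 = false := ff fun y => c2396 h x477t x275t y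
  have x237t : α 237 = true := tt fun y => l3588 h x114f y x58t x91f
  have x183t : α 183 = true := tt fun y => c1992 h x114f x91f y
  have x1f : α 1 = false := ff fun y => l4140 h y x114f x91f x94t x58t
  have x197t : α 197 = true := tt fun y => l4118 h x1f y x94t
  have x199f : α 199 = false := ff fun y => l3725 h x197t y
  have x54f : α 54 = false := ff fun y => l3796 h x197t y
  have x97f : α 97 = false := ff fun y => l4109 h x197t y x237t x58t
  have x56t : α 56 = true := tt fun y => c59 h x199f y x1f
  have x61t : α 61 = true := tt fun y => c1301 h x54f y x91f x97f
  have x53f : α 53 = false := ff fun y => l3649 h y x56t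
  have x59f : α 59 = false := ff fun y => l3670 h y x61t
  have x21f : α 21 = false := ff fun y => l3626 h y x102t x61t
  have x52t : α 52 = true := tt fun y => c20 h x53f x1f y
  have x202t : α 202 = true := tt fun y => c89 h x1f x59f y
  have x22f : α 22 = false := ff fun y => c638 h y x52t x183t
  have x195f : α 195 = false := ff fun y => l3717 h y x202t
  have x90t : α 90 = true := tt fun y => c653 h x272f x22f x346f y
  have x187f : α 187 = false := ff fun y => c1959 h y x90t x102t
  have x55t : α 55 = true := tt fun y => c594 h x187f y x21f
  have x96f : α 96 = false := ff fun y => c1359 h y x55t x90t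
  have x229f : α 229 = false := ff fun y => c1360 h x55t x90t y
  c1273 h x96f x53f x229f x195f

theorem l4143 (h : Good α) (x114f : α 114 = false) (x399f : α 399 = false) (x457t : α 457 = true) (x52t : α 52 = true) (x260f : α 260 = false) (x233t : α 233 = true) (x578t : α 578 = true) (x56t : α 56 = true) (x346t : α 346 = true) (x272f : α 272 = false) (x91f : α 91 = false) (x58t : α 58 = true) : False :=
  have x36f : α 36 = false := ff fun y => l3639 h y x346t
  have x183t : α 183 = true := tt fun y => c1992 h x114f x91f y
  have x285t : α 285 = true := tt fun y => c1036 h x36f x114f y
  have x23f : α 23 = false := ff fun y => c696 h y x58t x183t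
  have x378f : α 378 = false := ff fun y => c1259 h x52t x183t y
  have x275f : α 275 = false := ff fun y => c3227 h x346t y x285t
  have x176f : α 176 = false := ff fun y => c2712 h y x285t x457t
  have x19t : α 19 = true := tt fun y => c461 h x114f y x23f
  have x477t : α 477 = true := tt fun y => c2395 h y x275f x114f
  have x46t : α 46 = true := tt fun y => c1137 h x275f x114f y
  have x84f : α 84 = false := ff fun y => c482 h y x19t x58t
  have x189f : α 189 = false := ff fun y => c484 h x19t x58t y
  have x188f : α 188 = false := ff fun y => c477 h y x56t x19t
  have x70f : α 70 = false := ff fun y => c473 h x56t x19t y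
  have x162f : α 162 = false := ff fun y => c1145 h x477t x46t x578t y
  have x468t : α 468 = true := tt fun y => c1874 h x84f x399f x176f y
  have x268t : α 268 = true := tt fun y => c1872 h x84f x189f x176f y
  have x158t : α 158 = true := tt fun y => c1688 h x272f x188f y x70f
  have x147f : α 147 = false := ff fun y => c2562 h y x268t x468t
  have x467f : α 467 = false := ff fun y => c2673 h y x285t x158t
  have x115f : α 115 = false := ff fun y => c1139 h x46t y x158t x233t
  have x103t : α 103 = true := tt fun y => c2252 h x176f y x147f
  have x454t : α 454 = true := tt fun y => c3160 h x275f x260f x467f y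
  have x156t : α 156 = true := tt fun y => c2401 h x162f x115f y
  have x32f : α 32 = false := ff fun y => c953 h x285t x103t y
  have x384f : α 384 = false := ff fun y => l3645 h y x454t x52t
  have x265f : α 265 = false := ff fun y => c1478 h x58t x156t x183t y
  have x339t : α 339 = true := tt fun y => c955 h x32f x147f y
  have x181t : α 181 = true := tt fun y => c2735 h x275f y x467f x384f
  have x561t : α 561 = true := tt fun y => c3184 h x265f x378f y
  c2739 h x181t x339t x561t

theorem l4144 (h : Good α) (x1f : α 1 = false) (x237t : α 237 = true) (x272f : α 272 = false) (x91f : α 91 = false) (x94t : α 94 = true) (x58t : α 58 = true) : False :=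
  have x249f : α 249 = false := ff fun y => l4102 h y
  have x346t : α 346 = true := tt fun y => l4142 h y x272f x91f x94t x58t
  have x580f : α 580 = false := ff fun y => l3737 h x346t y
  have x197t : α 197 = true := tt fun y => l4118 h x1f y x94t
  have x199f : α 199 = false := ff fun y => l3725 h x197t y
  have x392f : α 392 = false := ff fun y => l3727 h x346t y x197t
  have x54f : α 54 = false := ff fun y => l3796 h x197t y
  have x97f : α 97 = false := ff fun y => l4109 h x197t y x237t x58t
  have x56t : α 56 = true := tt fun y => c59 h x199f y x1f
  have x578t : α 578 = true := tt fun y => c3107 h x249f x392f y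
  have x233t : α 233 = true := tt fun y => c1314 h x54f x91f y
  have x61t : α 61 = true := tt fun y => c1301 h x54f y x91f x97f
  have x340t : α 340 = true := tt fun y => l4104 h y x97f x91f x58t
  have x53f : α 53 = false := ff fun y => l3649 h y x56t
  have x390f : α 390 = false := ff fun y => c3047 h x578t y x237t
  have x59f : α 59 = false := ff fun y => l3670 h y x61t
  have x260f : α 260 = false := ff fun y => l3503 h y x340t
  have x52t : α 52 = true := tt fun y => c20 h x53f x1f y
  have x457t : α 457 = true := tt fun y => c3336 h x392f x390f y
  have x202t : α 202 = true := tt fun y => c89 h x1f x59f y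
  have x399f : α 399 = false := ff fun y => l3719 h x202t x340t y
  have x114t : α 114 = true := tt fun y => l4143 h y x399f x457t x52t x260f x233t x578t x56t x346t x272f x91f x58t
  have x158f : α 158 = false := ff fun y => l3694 h x114t y
  have x477f : α 477 = false := ff fun y => c2391 h y x114t x578t x237t
  have x275f : α 275 = false := ff fun y => l3886 h y x158f x346t
  have x467t : α 467 = true := tt fun y => c3399 h x580f x477f y
  have x555t : α 555 = true := tt fun y => c3232 h x275f x390f y
  have x454f : α 454 = false := ff fun y => l3716 h y x467t
  have x384f : α 384 = false := ff fun y => l3647 h y x467t x52t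
  have x181t : α 181 = true := tt fun y => c2731 h y x260f x384f x454f
  have x16f : α 16 = false := ff fun y => c347 h y x52t x181t
  have x336f : α 336 = false := ff fun y => c2737 h x555t y x181t
  have x108t : α 108 = true := tt fun y => c358 h x16f y x384f x454f
  have x376t : α 376 = true := tt fun y => c3272 h x390f x336f y
  have x120f : α 120 = false := ff fun y => l3685 h x108t y
  have x50f : α 50 = false := ff fun y => c1193 h y x181t x376t
  have x82t : α 82 = true := tt fun y => c1850 h x272f x120f x249f y
  have x24t : α 24 = true := tt fun y => c324 h x120f y x16f
  have x51t : α 51 = true := tt fun y => c1 h y x1f x50f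
  c727 h x82t x24t x51t

theorem l4145 (h : Good α) (x183f : α 183 = false) (x180f : α 180 = false) (x19f : α 19 = false) (x113t : α 113 = true) (x189f : α 189 = false) (x97t : α 97 = true) (x61f : α 61 = false) (x92t : α 92 = true) (x236t : α 236 = true) (x233t : α 233 = true) (x405t : α 405 = true) (x353t : α 353 = true) (x114t : α 114 = true) (x1t : α 1 = true) (x91f : α 91 = false) (x94t : α 94 = true) : False :=
  have x340t : α 340 = true := tt fun y => c2006 h x91f x183f y
  have x576t : α 576 = true := tt fun y => l3604 h x92t x19f x353t x236t x405t x233t x183f y x180f x114t x94t x113t x189f x97t x1t x61f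
  l3724 h x340t x576t

theorem l4146 (h : Good α) (x54f : α 54 = false) (x237t : α 237 = true) (x272f : α 272 = false) (x91f : α 91 = false) (x94t : α 94 = true) (x58t : α 58 = true) : False :=
  have x249f : α 249 = false := ff fun y => l4102 h y
  have x1t : α 1 = true := tt fun y => l4144 h y x237t x272f x91f x94t x58t
  have x57f : α 57 = false := ff fun y => c62 h y x1t x58t
  have x197f : α 197 = false := ff fun y => c78 h y x1t x237t x58t
  have x353t : α 353 = true := tt fun y => c2889 h y x249f x197f
  have x200f : α 200 = false := ff fun y => c1487 h x353t y x237t x58t
  have x405t : α 405 = true := tt fun y => c1437 h y x200f x57f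
  have x545f : α 545 = false := ff fun y => c1496 h y x405t x237t x58t
  have x114t : α 114 = true := tt fun y => l4140 h x1t y x91f x94t x58t
  have x423f : α 423 = false := ff fun y => c2389 h x114t x237t y
  have x351t : α 351 = true := tt fun y => l4110 h x1t y x58t
  have x346t : α 346 = true := tt fun y => l4142 h y x272f x91f x94t x58t
  have x306t : α 306 = true := tt fun y => c3098 h x272f x249f y
  have x233t : α 233 = true := tt fun y => c1314 h x54f x91f y
  have x402t : α 402 = true := tt fun y => c1342 h y x197f x54f
  have x446t : α 446 = true := tt fun y => c1345 h x545f y x197f x54f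
  have x239f : α 239 = false := ff fun y => c2992 h x353t y x351t x233t
  have x443f : α 443 = false := ff fun y => c84 h x402t x1t y x58t
  have x442f : α 442 = false := ff fun y => c3352 h x446t x405t y
  have x236t : α 236 = true := tt fun y => c2909 h x239f x200f y
  have x547t : α 547 = true := tt fun y => c2028 h y x239f x443f x91f
  have x487t : α 487 = true := tt fun y => c3369 h x443f x423f y
  have x92t : α 92 = true := tt fun y => c2083 h x545f x442f x249f y
  have x61f : α 61 = false := ff fun y => c1582 h x547t x236t x402t y
  have x242f : α 242 = false := ff fun y => l3906 h x91f y x54f x92t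
  have x59t : α 59 = true := tt fun y => l3669 h y x61f
  have x325t : α 325 = true := tt fun y => l3677 h x61f y
  have x97t : α 97 = true := tt fun y => c1301 h x54f x61f x91f y
  have x56f : α 56 = false := ff fun y => c57 h y x1t x59t
  have x250f : α 250 = false := ff fun y => c1469 h x58t x97t y
  have x53t : α 53 = true := tt fun y => l3648 h y x56f
  have x189f : α 189 = false := ff fun y => l3845 h y x97t x56f x58t
  have x146t : α 146 = true := tt fun y => c1296 h x56f x54f y
  have x153t : α 153 = true := tt fun y => c1298 h y x56f x54f
  have x386t : α 386 = true := tt fun y => l3501 h y x236t x200f x56f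
  have x204t : α 204 = true := tt fun y => c1312 h x54f y x91f x250f
  have x52f : α 52 = false := ff fun y => c21 h x53t x1t y
  have x23f : α 23 = false := ff fun y => l3628 h y x114t x53t
  have x80t : α 80 = true := tt fun y => l3417 h y x239f x200f x53t
  have x323f : α 323 = false := ff fun y => c1284 h y x153t x53t
  have x535f : α 535 = false := ff fun y => c124 h x405t y x1t x204t
  have x238t : α 238 = true := tt fun y => c3050 h x545f x535f x249f y
  have x444f : α 444 = false := ff fun y => c2080 h x92t x238t y
  have x544t : α 544 = true := tt fun y => c1439 h x200f y x57f x444f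
  have x450f : α 450 = false := ff fun y => c2189 h x236t x544t x97t y
  have x409t : α 409 = true := tt fun y => c1317 h x54f y x91f x450f
  have x335f : α 335 = false := ff fun y => c3261 h x325t y x409t
  have x264f : α 264 = false := ff fun y => l3419 h y x335f x238t x57f x56f
  have x424t : α 424 = true := tt fun y => l3710 h y x335f x264f
  have x452t : α 452 = true := tt fun y => l3711 h x264f y
  have x113t : α 113 = true := tt fun y => l3691 h y x264f
  have x188t : α 188 = true := tt fun y => l3664 h y x264f x56f
  have x117f : α 117 = false := ff fun y => c2428 h x424t x238t y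
  have x71f : α 71 = false := ff fun y => c1725 h x452t x236t y
  have x19f : α 19 = false := ff fun y => c503 h x386t x452t y x113t
  have x106f : α 106 = false := ff fun y => c2101 h x188t x94t y
  have x341f : α 341 = false := ff fun y => c2118 h y x188t x94t
  have x70t : α 70 = true := tt fun y => c472 h x56f x19f y
  have x257t : α 257 = true := tt fun y => c493 h x19f x91f y
  have x33t : α 33 = true := tt fun y => c464 h y x19f x91f
  have x11f : α 11 = false := ff fun y => c210 h y x70t x233t
  have x451f : α 451 = false := ff fun y => c1697 h x70t x233t y
  have x180f : α 180 = false := ff fun y => c1692 h x386t x452t x70t y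
  have x81t : α 81 = true := tt fun y => c212 h x11f y x242f
  have x387t : α 387 = true := tt fun y => c2717 h x180f x242f y
  have x184f : α 184 = false := ff fun y => c1682 h x188t y x70t x81t
  have x22t : α 22 = true := tt fun y => c646 h x184f x57f y
  have x559t : α 559 = true := tt fun y => c2772 h y x341f x184f
  have x183t : α 183 = true := tt fun y => l4145 h y x180f x19f x113t x189f x97t x61f x92t x236t x233t x405t x353t x114t x1t x91f x94t
  have x179f : α 179 = false := ff fun y => c1821 h y x80t x257t x183t
  have x161t : α 161 = true := tt fun y => c2276 h x179f y x106f x117f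
  have x20t : α 20 = true := tt fun y => c545 h x179f x71f x106f y
  have x273f : α 273 = false := ff fun y => c1817 h x80t x161t x183t y
  have x326f : α 326 = false := ff fun y => c544 h x306t x20t y x59t
  have x378f : α 378 = false := ff fun y => c517 h x22t x20t y x387t
  have x157t : α 157 = true := tt fun y => c2657 h x326f y x423f x273f
  have x499t : α 499 = true := tt fun y => l3612 h y x346t x326f x197f x323f
  have x462f : α 462 = false := ff fun y => c1520 h x59t x157t x387t y
  have x21f : α 21 = false := ff fun y => c608 h x559t x92t x499t y
  have x78t : α 78 = true := tt fun y => c596 h y x21f x61f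
  have x190t : α 190 = true := tt fun y => c600 h x21f x61f y
  have x116f : α 116 = false := ff fun y => c1794 h x236t y x78t
  have x105f : α 105 = false := ff fun y => c970 h y x190t x33t x97t
  have x25t : α 25 = true := tt fun y => c582 h x116f x21f y
  have x274f : α 274 = false := ff fun y => c786 h x25t x97t y
  have x45t : α 45 = true := tt fun y => c206 h y x274f x11f x242f
  have x277f : α 277 = false := ff fun y => c965 h x33t x45t x257t y
  have x516f : α 516 = false := ff fun y => c966 h x33t x45t x487t y
  have x163t : α 163 = true := tt fun y => c2680 h y x277f x451f
  have x115t : α 115 = true := tt fun y => c2409 h y x277f x516f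
  have x98f : α 98 = false := ff fun y => c2209 h x146t y x163t
  have x171f : α 171 = false := ff fun y => c2540 h x153t y x146t x163t
  have x75f : α 75 = false := ff fun y => c1767 h y x115t x233t
  have x26t : α 26 = true := tt fun y => c804 h y x98f x277f
  have x517t : α 517 = true := tt fun y => c2215 h x98f x277f y
  have x581t : α 581 = true := tt fun y => c215 h x171f y x11f x462f
  have x18t : α 18 = true := tt fun y => c438 h x105f x171f y x75f
  have x6f : α 6 = false := ff fun y => c152 h y x26t x146t
  have x336f : α 336 = false := ff fun y => c810 h x26t x146t y
  have x347f : α 347 = false := ff fun y => c2666 h x157t y x581t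
  have x24f : α 24 = false := ff fun y => c409 h y x18t x115t
  have x63t : α 63 = true := tt fun y => c157 h x239f y x179f x6f
  have x93t : α 93 = true := tt fun y => c703 h y x347f x23f x273f
  have x480t : α 480 = true := tt fun y => c3218 h y x347f x273f
  have x287t : α 287 = true := tt fun y => c3217 h x347f x273f y
  have x191t : α 191 = true := tt fun y => c736 h x24f x54f y
  have x16t : α 16 = true := tt fun y => c320 h x24f y x54f x52f
  have x96f : α 96 = false := ff fun y => c1270 h y x53t x93t
  have x38f : α 38 = false := ff fun y => c1074 h y x480t x163t x581t
  have x109f : α 109 = false := ff fun y => c315 h x22t x16t y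
  have x502f : α 502 = false := ff fun y => c331 h x26t x16t x517t y
  have x270t : α 270 = true := tt fun y => c609 h y x96f x21f
  have x37t : α 37 = true := tt fun y => c591 h x96f x21f y
  have x68t : α 68 = true := tt fun y => c153 h x6f y x38f x109f
  have x339t : α 339 = true := tt fun y => c3280 h y x378f x502f
  have x253f : α 253 = false := ff fun y => c2541 h x270t x153t y x146t
  have x181f : α 181 = false := ff fun y => c1599 h x63t x68t x191t y
  have x90f : α 90 = false := ff fun y => c1058 h y x37t x339t x287t
  c1970 h x253f x90f x336f x181f

theorem l4147 (h : Good α) (x237t : α 237 = true) (x272f : α 272 = false) (x58t : α 58 = true) (x91f : α 91 = false) (x94t : α 94 = true) : False :=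
  have x249f : α 249 = false := ff fun y => l4102 h y
  have x1t : α 1 = true := tt fun y => l4144 h y x237t x272f x91f x94t x58t
  have x57f : α 57 = false := ff fun y => c62 h y x1t x58t
  have x201f : α 201 = false := ff fun y => c80 h x1t x58t y
  have x197f : α 197 = false := ff fun y => c78 h y x1t x237t x58t
  have x351t : α 351 = true := tt fun y => l4110 h x1t y x58t
  have x353t : α 353 = true := tt fun y => c2889 h y x249f x197f
  have x534f : α 534 = false := ff fun y => c3042 h x237t x351t y
  have x200f : α 200 = false := ff fun y => c1487 h x353t y x237t x58t
  have x406t : α 406 = true := tt fun y => c1448 h x249f x57f x534f y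
  have x54t : α 54 = true := tt fun y => l4146 h y x237t x272f x91f x94t x58t
  have x61f : α 61 = false := ff fun y => l3870 h y x54t
  have x239f : α 239 = false := ff fun y => c1323 h y x94t x54t
  have x439f : α 439 = false := ff fun y => c50 h x54t x1t y x406t
  have x97t : α 97 = true := tt fun y => l4139 h x61f y x200f x197f x201f x91f x94t
  have x233t : α 233 = true := tt fun y => c2901 h x239f x200f y x201f
  l4107 h x351t x97t x201f x534f x233t x439f x237t

theorem l4148 (h : Good α) (x97t : α 97 = true) (x402f : α 402 = false) (x1t : α 1 = true) (x197t : α 197 = true) (x91f : α 91 = false) (x58t : α 58 = true) : False :=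
  have x54f : α 54 = false := ff fun y => l3796 h x197t y
  have x233t : α 233 = true := tt fun y => c1314 h x54f x91f y
  have x351t : α 351 = true := tt fun y => l4110 h x1t y x58t
  have x543f : α 543 = false := ff fun y => c3001 h y x351t x233t
  have x57f : α 57 = false := ff fun y => c62 h y x1t x58t
  have x250f : α 250 = false := ff fun y => c1469 h x58t x97t y
  have x61f : α 61 = false := ff fun y => c76 h x1t y x58t x97t
  have x204t : α 204 = true := tt fun y => c1312 h x54f y x91f x250f
  have x242t : α 242 = true := tt fun y => c1583 h x402f x61f x543f y
  have x354f : α 354 = false := ff fun y => c2882 h x197t x204t x351t y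
  have x92f : α 92 = false := ff fun y => l3906 h x91f x242t x54f y
  have x447f : α 447 = false := ff fun y => c2196 h x97t x242t y
  have x546t : α 546 = true := tt fun y => c3115 h x250f x354f y
  have x406t : α 406 = true := tt fun y => c1417 h x57f x92f y x447f
  c125 h x1t x204t x406t x546t

theorem l4149 (h : Good α) (x183t : α 183 = true) (x257t : α 257 = true) (x59f : α 59 = false) (x326f : α 326 = false) : False :=
  have x189f : α 189 = false := ff fun y => c2749 h x257t x183t y
  have x423f : α 423 = false := ff fun y => c2757 h y x257t x183t
  c1523 h x326f x59f x423f x189f

theorem l4150 (h : Good α) (x70t : α 70 = true) (x52t : α 52 = true) (x113t : α 113 = true) (x242f : α 242 = false) (x340t : α 340 = true) (x233t : α 233 = true) (x114t : α 114 = true) (x346t : α 346 = true) : False :=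
  have x576f : α 576 = false := ff fun y => l3724 h x340t y
  have x158f : α 158 = false := ff fun y => l3694 h x114t y
  have x11f : α 11 = false := ff fun y => c210 h y x70t x233t
  have x81t : α 81 = true := tt fun y => c212 h x11f y x242f
  have x180f : α 180 = false := ff fun y => c1680 h x70t x81t y
  have x285f : α 285 = false := ff fun y => l3453 h y x114t x180f x346t x113t x340t x576f
  have x467t : α 467 = true := tt fun y => c2672 h y x285f x158f
  have x454f : α 454 = false := ff fun y => l3716 h y x467t
  have x384f : α 384 = false := ff fun y => l3647 h y x467t x52t
  have x64t : α 64 = true := tt fun y => c1633 h y x242f x454f x576f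
  have x7t : α 7 = true := tt fun y => c170 h y x180f x454f x576f
  have x381t : α 381 = true := tt fun y => c3330 h y x384f x454f
  have x234f : α 234 = false := ff fun y => c168 h x7t x64t y
  have x240f : α 240 = false := ff fun y => c1695 h y x70t x381t x233t
  have x193f : α 193 = false := ff fun y => c1630 h x381t y x64t
  c2860 h x240f x193f x234f

theorem l4151 (h : Good α) (x180f : α 180 = false) (x52t : α 52 = true) (x113t : α 113 = true) (x242f : α 242 = false) (x340t : α 340 = true) (x114t : α 114 = true) (x346t : α 346 = true) : False :=
  have x576f : α 576 = false := ff fun y => l3724 h x340t y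
  have x158f : α 158 = false := ff fun y => l3694 h x114t y
  have x285f : α 285 = false := ff fun y => l3453 h y x114t x180f x346t x113t x340t x576f
  have x467t : α 467 = true := tt fun y => c2672 h y x285f x158f
  have x454f : α 454 = false := ff fun y => l3716 h y x467t
  have x384f : α 384 = false := ff fun y => l3647 h y x467t x52t
  have x64t : α 64 = true := tt fun y => c1633 h y x242f x454f x576f
  have x7t : α 7 = true := tt fun y => c170 h y x180f x454f x576f
  have x381t : α 381 = true := tt fun y => c3330 h y x384f x454f
  have x234f : α 234 = false := ff fun y => c168 h x7t x64t y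
  have x193f : α 193 = false := ff fun y => c1630 h x381t y x64t
  have x178t : α 178 = true := tt fun y => c2713 h x384f x234f y
  have x73t : α 73 = true := tt fun y => c1741 h y x193f x384f
  c1625 h x73t x64t x178t

theorem l4152 (h : Good α) (x52t : α 52 = true) (x113t : α 113 = true) (x452t : α 452 = true) (x19f : α 19 = false) (x56t : α 56 = true) (x242f : α 242 = false) (x340t : α 340 = true) (x233t : α 233 = true) (x114t : α 114 = true) (x346t : α 346 = true) (x272f : α 272 = false) : False :=
  have x158f : α 158 = false := ff fun y => l3694 h x114t y
  have x70f : α 70 = false := ff fun y => l4150 h y x52t x113t x242f x340t x233t x114t x346t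
  have x188t : α 188 = true := tt fun y => c1688 h x272f y x158f x70f
  have x81t : α 81 = true := tt fun y => c1679 h x158f x70f y
  have x386f : α 386 = false := ff fun y => c1395 h y x188t x56t
  have x180t : α 180 = true := tt fun y => l4151 h y x52t x113t x242f x340t x114t x346t
  have x23f : α 23 = false := ff fun y => c699 h y x113t x81t x180t
  have x379f : α 379 = false := ff fun y => c1841 h y x452t x81t x180t
  c462 h x386f x379f x19f x23f

theorem l4153 (h : Good α) (x1t : α 1 = true) (x237f : α 237 = false) (x346t : α 346 = true) (x272f : α 272 = false) (x91f : α 91 = false) (x58t : α 58 = true) : False :=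
  have x249f : α 249 = false := ff fun y => l4102 h y
  have x114t : α 114 = true := tt fun y => l3588 h y x237f x58t x91f
  have x158f : α 158 = false := ff fun y => l3694 h x114t y
  have x275f : α 275 = false := ff fun y => l3886 h y x158f x346t
  have x197t : α 197 = true := tt fun y => c2885 h x249f y x237f
  have x54f : α 54 = false := ff fun y => l3796 h x197t y
  have x233t : α 233 = true := tt fun y => c1314 h x54f x91f y
  have x326f : α 326 = false := ff fun y => l3726 h x197t y
  have x443t : α 443 = true := tt fun y => c2024 h y x237f x91f
  have x57f : α 57 = false := ff fun y => c62 h y x1t x58t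
  have x238t : α 238 = true := tt fun y => l4132 h y x1t x237f x91f x58t
  have x402f : α 402 = false := ff fun y => c84 h y x1t x443t x58t
  have x312t : α 312 = true := tt fun y => c3252 h x402f x326f y
  have x97f : α 97 = false := ff fun y => l4148 h y x402f x1t x197t x91f x58t
  have x92t : α 92 = true := tt fun y => c2046 h x249f y x237f x97f
  have x340t : α 340 = true := tt fun y => l4104 h y x97f x91f x58t
  have x61t : α 61 = true := tt fun y => c1301 h x54f y x91f x97f
  have x242f : α 242 = false := ff fun y => l3906 h x91f y x54f x92t
  have x576f : α 576 = false := ff fun y => l3724 h x340t y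
  have x260f : α 260 = false := ff fun y => l3503 h y x340t
  have x487f : α 487 = false := ff fun y => l3723 h x312t x340t y
  have x59f : α 59 = false := ff fun y => l3670 h y x61t
  have x53f : α 53 = false := ff fun y => l3778 h y x61t
  have x387t : α 387 = true := tt fun y => c3084 h x242f y x576f
  have x257t : α 257 = true := tt fun y => c2034 h x91f y x487f
  have x56t : α 56 = true := tt fun y => l3648 h x53f y
  have x264f : α 264 = false := ff fun y => l3967 h y x238t x53f x57f x92t
  have x19f : α 19 = false := ff fun y => l4083 h y x237f x56t x58t
  have x452t : α 452 = true := tt fun y => l3711 h x264f y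
  have x113t : α 113 = true := tt fun y => l3691 h y x264f
  have x184t : α 184 = true := tt fun y => l3652 h y x264f x53f
  have x183f : α 183 = false := ff fun y => l4149 h y x257t x59f x326f
  have x52f : α 52 = false := ff fun y => l4152 h y x113t x452t x19f x56t x242f x340t x233t x114t x346t x272f
  have x146t : α 146 = true := tt fun y => c1241 h x326f y x52f
  have x157t : α 157 = true := tt fun y => c1227 h x52f x59f y
  have x378t : α 378 = true := tt fun y => c1258 h x52f x183f y
  have x22t : α 22 = true := tt fun y => c637 h y x52f x183f
  have x189t : α 189 = true := tt fun y => c1228 h x52f x59f x183f y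
  have x273f : α 273 = false := ff fun y => c2544 h x146t x157t x257t y
  have x95t : α 95 = true := tt fun y => l3489 h y x378t x183f x52f
  have x462f : α 462 = false := ff fun y => c3327 h x378t x387t y
  have x20f : α 20 = false := ff fun y => c517 h x22t y x378t x387t
  have x23t : α 23 = true := tt fun y => c706 h y x97f x273f
  have x81t : α 81 = true := tt fun y => c1846 h y x242f x462f
  have x71t : α 71 = true := tt fun y => c536 h y x20f x59f
  have x379f : α 379 = false := ff fun y => l3767 h x264f y x23t
  have x180f : α 180 = false := ff fun y => c699 h x23t x113t x81t y
  have x80f : α 80 = false := ff fun y => c1706 h y x71t x378t x387t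
  have x285f : α 285 = false := ff fun y => l3453 h y x114t x180f x346t x113t x340t x576f
  have x251t : α 251 = true := tt fun y => l3762 h y x183f x80f x52f x22t
  have x266f : α 266 = false := ff fun y => l3761 h y x95t x80f x23t x184t x53f x22t
  have x467t : α 467 = true := tt fun y => c2672 h y x285f x158f
  have x248t : α 248 = true := tt fun y => c3096 h x379f x266f y
  have x454f : α 454 = false := ff fun y => l3716 h y x467t
  have x93f : α 93 = false := ff fun y => c2088 h x248t y x251t x95t
  have x64t : α 64 = true := tt fun y => c1633 h y x242f x454f x576f
  have x7t : α 7 = true := tt fun y => c170 h y x180f x454f x576f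
  have x96t : α 96 = true := tt fun y => c1269 h y x53f x93f
  have x25f : α 25 = false := ff fun y => c773 h x61t y x64t
  have x21f : α 21 = false := ff fun y => c604 h x184t x92t x96t y
  have x87t : α 87 = true := tt fun y => c781 h x25f y x260f
  have x112t : α 112 = true := tt fun y => c580 h x21f x25f y
  have x27f : α 27 = false := ff fun y => c827 h y x113t x87t x189t
  have x49f : α 49 = false := ff fun y => c167 h x7t y x64t x112t
  c819 h x275f x27f x285f x49f

theorem l4154 (h : Good α) (x97f : α 97 = false) (x19f : α 19 = false) (x1f : α 1 = false) (x114t : α 114 = true) (x237f : α 237 = false) (x346t : α 346 = true) (x272f : α 272 = false) (x91f : α 91 = false) (x94t : α 94 = true) : False :=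
  have x249f : α 249 = false := ff fun y => l4102 h y
  have x197t : α 197 = true := tt fun y => c2885 h x249f y x237f
  have x326f : α 326 = false := ff fun y => l3726 h x197t y
  have x54f : α 54 = false := ff fun y => l3796 h x197t y
  have x61t : α 61 = true := tt fun y => c39 h x54f x1f y
  have x59f : α 59 = false := ff fun y => l3670 h y x61t
  have x257t : α 257 = true := tt fun y => c493 h x19f x91f y
  have x183f : α 183 = false := ff fun y => l4149 h y x257t x59f x326f
  have x340t : α 340 = true := tt fun y => c2006 h x91f x183f y
  have x199f : α 199 = false := ff fun y => l3725 h x197t y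
  have x56t : α 56 = true := tt fun y => c59 h x199f y x1f
  have x53f : α 53 = false := ff fun y => l3649 h y x56t
  have x52t : α 52 = true := tt fun y => c20 h x53f x1f y
  have x233t : α 233 = true := tt fun y => c1314 h x54f x91f y
  have x92t : α 92 = true := tt fun y => c2046 h x249f y x237f x97f
  have x242f : α 242 = false := ff fun y => l3906 h x91f y x54f x92t
  have x57f : α 57 = false := ff fun y => c1410 h x94t y x92t
  have x351t : α 351 = true := tt fun y => c2190 h x237f x97f y x242f
  have x201f : α 201 = false := ff fun y => c2922 h x351t x233t y
  have x354t : α 354 = true := tt fun y => c2923 h x201f x242f y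
  have x204f : α 204 = false := ff fun y => c2882 h x197t y x351t x354t
  have x238t : α 238 = true := tt fun y => c69 h x57f y x1f x204f
  have x264f : α 264 = false := ff fun y => l3967 h y x238t x53f x57f x92t
  have x452t : α 452 = true := tt fun y => l3711 h x264f y
  have x113t : α 113 = true := tt fun y => l3691 h y x264f
  l4152 h x52t x113t x452t x19f x56t x242f x340t x233t x114t x346t x272f

theorem l4155 (h : Good α) (x272f : α 272 = false) (x91f : α 91 = false) (x58t : α 58 = true) (x94t : α 94 = true) : False :=
  have x249f : α 249 = false := ff fun y => l4102 h y
  have x346t : α 346 = true := tt fun y => l4142 h y x272f x91f x94t x58t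
  have x237f : α 237 = false := ff fun y => l4147 h y x272f x58t x91f x94t
  have x197t : α 197 = true := tt fun y => c2885 h x249f y x237f
  have x114t : α 114 = true := tt fun y => l3588 h y x237f x58t x91f
  have x199f : α 199 = false := ff fun y => l3725 h x197t y
  have x326f : α 326 = false := ff fun y => l3726 h x197t y
  have x54f : α 54 = false := ff fun y => l3796 h x197t y
  have x233t : α 233 = true := tt fun y => c1314 h x54f x91f y
  have x1f : α 1 = false := ff fun y => l4153 h y x237f x346t x272f x91f x58t
  have x56t : α 56 = true := tt fun y => c59 h x199f y x1f
  have x61t : α 61 = true := tt fun y => c39 h x54f x1f y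
  have x53f : α 53 = false := ff fun y => l3649 h y x56t
  have x19f : α 19 = false := ff fun y => l4083 h y x237f x56t x58t
  have x59f : α 59 = false := ff fun y => l3670 h y x61t
  have x52t : α 52 = true := tt fun y => c20 h x53f x1f y
  have x257t : α 257 = true := tt fun y => c493 h x19f x91f y
  have x33t : α 33 = true := tt fun y => c464 h y x19f x91f
  have x183f : α 183 = false := ff fun y => l4149 h y x257t x59f x326f
  have x340t : α 340 = true := tt fun y => c2006 h x91f x183f y
  have x97t : α 97 = true := tt fun y => l4154 h y x19f x1f x114t x237f x346t x272f x91f x94t
  have x242f : α 242 = false := ff fun y => c1557 h x61t x97t y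
  have x23f : α 23 = false := ff fun y => c682 h x33t y x97t
  have x184t : α 184 = true := tt fun y => c688 h y x53f x23f
  have x113t : α 113 = true := tt fun y => l3627 h x23f y x53f
  have x81t : α 81 = true := tt fun y => c684 h x53f x23f y
  have x452f : α 452 = false := ff fun y => l4152 h x52t x113t y x19f x56t x242f x340t x233t x114t x346t x272f
  have x180t : α 180 = true := tt fun y => l4151 h y x52t x113t x242f x340t x114t x346t
  have x264t : α 264 = true := tt fun y => l3711 h y x452f
  c1839 h x184t x264t x81t x180t

theorem l4156 (h : Good α) (x91f : α 91 = false) (x94t : α 94 = true) (x58t : α 58 = true) : False :=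
  have x249f : α 249 = false := ff fun y => l4102 h y
  have x272t : α 272 = true := tt fun y => l4155 h y x91f x58t x94t
  have x459f : α 459 = false := ff fun y => l3732 h x272t y
  have x114f : α 114 = false := ff fun y => l3695 h y x272t
  have x237t : α 237 = true := tt fun y => l3588 h x114f y x58t x91f
  have x183t : α 183 = true := tt fun y => c1992 h x114f x91f y
  have x222t : α 222 = true := tt fun y => c1994 h y x114f x91f
  have x1f : α 1 = false := ff fun y => l4140 h y x114f x91f x94t x58t
  have x23f : α 23 = false := ff fun y => c696 h y x58t x183t
  have x197t : α 197 = true := tt fun y => l4118 h x1f y x94t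
  have x19t : α 19 = true := tt fun y => c461 h x114f y x23f
  have x379t : α 379 = true := tt fun y => c715 h x459f y x114f x23f
  have x199f : α 199 = false := ff fun y => l3725 h x197t y
  have x351f : α 351 = false := ff fun y => c2888 h x197t x237t y
  have x54f : α 54 = false := ff fun y => l3796 h x197t y
  have x97f : α 97 = false := ff fun y => l4109 h x197t y x237t x58t
  have x189f : α 189 = false := ff fun y => c484 h x19t x58t y
  have x56t : α 56 = true := tt fun y => c59 h x199f y x1f
  have x233t : α 233 = true := tt fun y => c1314 h x54f x91f y
  have x61t : α 61 = true := tt fun y => c39 h x54f x1f y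
  have x53f : α 53 = false := ff fun y => l3649 h y x56t
  have x327f : α 327 = false := ff fun y => l3667 h x56t y
  have x70f : α 70 = false := ff fun y => c473 h x56t x19t y
  have x59f : α 59 = false := ff fun y => l3670 h y x61t
  have x184t : α 184 = true := tt fun y => c688 h y x53f x23f
  have x81t : α 81 = true := tt fun y => c684 h x53f x23f y
  have x298t : α 298 = true := tt fun y => c690 h x327f x53f y x23f
  have x20t : α 20 = true := tt fun y => c541 h y x59f x189f
  have x158f : α 158 = false := ff fun y => c1836 h x272t x184t y x81t
  have x443f : α 443 = false := ff fun y => c2972 h x222t x298t y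
  have x386t : α 386 = true := tt fun y => c1689 h x459f y x158f x70f
  have x402t : α 402 = true := tt fun y => c1316 h y x54f x443f x91f
  have x452f : α 452 = false := ff fun y => c3328 h x386t x379t y
  have x264t : α 264 = true := tt fun y => l3711 h y x452f
  have x92f : α 92 = false := ff fun y => c556 h x264t y x20t
  have x449t : α 449 = true := tt fun y => c2048 h y x92f x443f x97f
  have x543f : α 543 = false := ff fun y => c2124 h x449t x94t y x233t
  have x547f : α 547 = false := ff fun y => c3349 h y x449t x402t
  have x242t : α 242 = true := tt fun y => c2193 h x443f x97f x543f y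
  have x239t : α 239 = true := tt fun y => c2028 h x547f y x443f x91f
  have x353t : α 353 = true := tt fun y => c3310 h x547f y x543f x351f
  have x446f : α 446 = false := ff fun y => c2131 h y x239t x94t
  have x236f : α 236 = false := ff fun y => c2991 h x239t y x233t x242t
  have x200f : α 200 = false := ff fun y => c1487 h x353t y x237t x58t
  have x442t : α 442 = true := tt fun y => c1990 h x446f y x91f x97f
  have x405t : α 405 = true := tt fun y => c47 h x446f y x54f x1f
  have x352t : α 352 = true := tt fun y => c2911 h x200f x236f y
  have x545f : α 545 = false := ff fun y => c1496 h y x405t x237t x58t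
  have x535f : α 535 = false := ff fun y => c3353 h x405t x442t y
  have x238f : α 238 = false := ff fun y => c2126 h x239t x352t x94t y
  c3050 h x545f x535f x249f x238f

theorem l4157 (h : Good α) (x272t : α 272 = true) (x94t : α 94 = true) (x58t : α 58 = true) : False :=
  have x249f : α 249 = false := ff fun y => l4102 h y
  have x91t : α 91 = true := tt fun y => l4156 h y x94t x58t
  have x237f : α 237 = false := ff fun y => c1462 h y x91t x58t
  have x97f : α 97 = false := ff fun y => c1457 h x91t x58t y
  have x92t : α 92 = true := tt fun y => c2046 h x249f y x237f x97f
  have x57f : α 57 = false := ff fun y => c1398 h x94t y x91t x58t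
  have x114f : α 114 = false := ff fun y => l3695 h y x272t
  have x22f : α 22 = false := ff fun y => c657 h x272t x94t y
  have x53f : α 53 = false := ff fun y => l3462 h x272t x94t x57f y
  have x184t : α 184 = true := tt fun y => c646 h y x57f x22f
  have x56t : α 56 = true := tt fun y => l3648 h x53f y
  have x335t : α 335 = true := tt fun y => l3653 h x53f y
  have x117f : α 117 = false := ff fun y => c2057 h x184t x92t y
  have x327f : α 327 = false := ff fun y => l3667 h x56t y
  have x424f : α 424 = false := ff fun y => l3731 h y x335t x272t
  have x238t : α 238 = true := tt fun y => c2427 h x424f y x117f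
  have x250t : α 250 = true := tt fun y => l4059 h x114f x184t y x237f x58t x327f
  c1983 h x94t x238t x91t x250t

theorem l4158 (h : Good α) (x1t : α 1 = true) (x242t : α 242 = true) (x94t : α 94 = true) (x58t : α 58 = true) : False :=
  have x249f : α 249 = false := ff fun y => l4102 h y
  have x91t : α 91 = true := tt fun y => l4156 h y x94t x58t
  have x237f : α 237 = false := ff fun y => c1462 h y x91t x58t
  have x97f : α 97 = false := ff fun y => c1457 h x91t x58t y
  have x92t : α 92 = true := tt fun y => c2046 h x249f y x237f x97f
  have x233f : α 233 = false := ff fun y => c2041 h x94t x92t y x242t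
  have x197t : α 197 = true := tt fun y => c2885 h x249f y x237f
  have x54f : α 54 = false := ff fun y => c1310 h x94t y x91t
  have x351t : α 351 = true := tt fun y => l4110 h x1t y x58t
  have x61t : α 61 = true := tt fun y => l3430 h x233f x197t x242t x54f x58t x1t y
  c1578 h x197t x61t x351t x242t

theorem l4159 (h : Good α) (x242t : α 242 = true) (x94t : α 94 = true) (x58t : α 58 = true) : False :=
  have x249f : α 249 = false := ff fun y => l4102 h y
  have x91t : α 91 = true := tt fun y => l4156 h y x94t x58t
  have x237f : α 237 = false := ff fun y => c1462 h y x91t x58t
  have x197t : α 197 = true := tt fun y => c2885 h x249f y x237f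
  have x97f : α 97 = false := ff fun y => c1457 h x91t x58t y
  have x92t : α 92 = true := tt fun y => c2046 h x249f y x237f x97f
  have x54f : α 54 = false := ff fun y => c1310 h x94t y x91t
  have x233f : α 233 = false := ff fun y => c2041 h x94t x92t y x242t
  have x1f : α 1 = false := ff fun y => l4158 h y x242t x94t x58t
  have x61t : α 61 = true := tt fun y => c39 h x54f x1f y
  have x201t : α 201 = true := tt fun y => c45 h x54f x1f x233f y
  have x351f : α 351 = false := ff fun y => c1578 h x197t x61t y x242t
  have x406f : α 406 = false := ff fun y => c1492 h x58t x201t y
  have x354f : α 354 = false := ff fun y => c2924 h x201t x242t y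
  have x439t : α 439 = true := tt fun y => c49 h x54f x1f y x406f
  have x250t : α 250 = true := tt fun y => c3030 h x237f y x351f x354f
  have x447f : α 447 = false := ff fun y => c2045 h x94t x92t x439t y
  have x546f : α 546 = false := ff fun y => c2031 h x91t x250t x439t y
  c3359 h x406f x447f x546f

theorem l4160 (h : Good α) (x346f : α 346 = false) (x459t : α 459 = true) (x114t : α 114 = true) (x10t : α 10 = true) (x272f : α 272 = false) (x237f : α 237 = false) : False :=
  have x28f : α 28 = false := ff fun y => l3618 h x10t y
  have x477t : α 477 = true := tt fun y => c3214 h x272f x346f y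
  have x275f : α 275 = false := ff fun y => c2396 h x477t y x114t
  have x285t : α 285 = true := tt fun y => c3226 h x346f x275f y
  have x485t : α 485 = true := tt fun y => c3229 h y x346f x275f
  have x36f : α 36 = false := ff fun y => c1037 h y x114t x285t
  have x44f : α 44 = false := ff fun y => c193 h x459t x10t x485t y
  have x120t : α 120 = true := tt fun y => l4129 h y x237f x36f x477t x272f
  have x108t : α 108 = true := tt fun y => c843 h x44f x28f y
  l3685 h x108t x120t

theorem l4161 (h : Good α) (x399f : α 399 = false) (x223t : α 223 = true) (x340f : α 340 = false) (x62t : α 62 = true) : False :=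
  have x380t : α 380 = true := tt fun y => c3284 h y x340f x399f
  have x506t : α 506 = true := tt fun y => c3288 h x340f x399f y
  c1592 h x62t x223t x380t x506t

theorem l4162 (h : Good α) (x23f : α 23 = false) (x118t : α 118 = true) (x271f : α 271 = false) (x108f : α 108 = false) (x346t : α 346 = true) (x577t : α 577 = true) (x386f : α 386 = false) (x106f : α 106 = false) (x494t : α 494 = true) (x273t : α 273 = true) (x114t : α 114 = true) (x117f : α 117 = false) (x113t : α 113 = true) (x452t : α 452 = true) (x444f : α 444 = false) (x334t : α 334 = true) (x52t : α 52 = true) (x200t : α 200 = true) (x183f : α 183 = false) (x19f : α 19 = false) (x53f : α 53 = false) (x242f : α 242 = false) (x92t : α 92 = true) : False :=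
  have x249f : α 249 = false := ff fun y => l4102 h y
  have x62t : α 62 = true := tt fun y => c1589 h x249f x106f y
  have x81t : α 81 = true := tt fun y => c684 h x53f x23f y
  have x379t : α 379 = true := tt fun y => c462 h x386f y x19f x23f
  have x180f : α 180 = false := ff fun y => c1841 h x379t x452t x81t y
  have x80f : α 80 = false := ff fun y => c1826 h x379t x200t y
  have x340f : α 340 = false := ff fun y => l4151 h x180f x52t x113t x242f y x114t x346t
  have x558t : α 558 = true := tt fun y => c2763 h x183f x340f y
  have x399f : α 399 = false := ff fun y => c3220 h x273t y x558t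
  have x223f : α 223 = false := ff fun y => l4161 h x399f y x340f x62t
  have x299t : α 299 = true := tt fun y => c2976 h x444f y x223f
  have x22f : α 22 = false := ff fun y => c640 h y x299t x52t x334t
  have x20t : α 20 = true := tt fun y => c512 h x106f x22f y
  have x161t : α 161 = true := tt fun y => c650 h x80f y x22f x117f
  have x116f : α 116 = false := ff fun y => l3760 h y x20t x108f x494t x92t
  have x155t : α 155 = true := tt fun y => c2411 h x271f y x116f
  have x266f : α 266 = false := ff fun y => c2438 h y x155t x118t
  have x47t : α 47 = true := tt fun y => c1148 h x266f x116f y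
  have x484t : α 484 = true := tt fun y => c2414 h y x266f x116f
  c1154 h x577t x161t x484t x47t

theorem l4163 (h : Good α) (x424f : α 424 = false) (x273t : α 273 = true) (x114t : α 114 = true) (x264f : α 264 = false) (x444f : α 444 = false) (x334t : α 334 = true) (x239f : α 239 = false) (x52t : α 52 = true) (x200t : α 200 = true) (x183f : α 183 = false) (x19f : α 19 = false) (x242f : α 242 = false) (x272f : α 272 = false) (x237f : α 237 = false) (x97f : α 97 = false) (x94t : α 94 = true) : False :=
  have x249f : α 249 = false := ff fun y => l4102 h y
  have x61t : α 61 = true := tt fun y => c1556 h y x97f x242f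
  have x53f : α 53 = false := ff fun y => l3778 h y x61t
  have x335t : α 335 = true := tt fun y => l3653 h x53f y
  have x307f : α 307 = false := ff fun y => l3697 h x335t y x114t
  have x158f : α 158 = false := ff fun y => l3694 h x114t y
  have x92t : α 92 = true := tt fun y => c2046 h x249f y x237f x97f
  have x184t : α 184 = true := tt fun y => l3652 h y x264f x53f
  have x117f : α 117 = false := ff fun y => c2057 h x184t x92t y
  have x113t : α 113 = true := tt fun y => l3691 h y x264f
  have x452t : α 452 = true := tt fun y => l3711 h x264f y
  have x236f : α 236 = false := ff fun y => c1549 h y x92t x61t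
  have x10t : α 10 = true := tt fun y => l3860 h y x239f x236f x200t
  have x28f : α 28 = false := ff fun y => l3618 h x10t y
  have x233t : α 233 = true := tt fun y => c2990 h x239f x236f y x242f
  have x56t : α 56 = true := tt fun y => l3648 h x53f y
  have x59f : α 59 = false := ff fun y => l3670 h y x61t
  have x188t : α 188 = true := tt fun y => c508 h y x424f x19f x307f
  have x494t : α 494 = true := tt fun y => c3371 h y x424f x444f
  have x106f : α 106 = false := ff fun y => c2101 h x188t x94t y
  have x386f : α 386 = false := ff fun y => c1395 h y x188t x56t
  have x459t : α 459 = true := tt fun y => l3864 h y x188t x264f x158f x53f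
  have x577t : α 577 = true := tt fun y => c3067 h y x386f x239f
  have x346t : α 346 = true := tt fun y => l4160 h y x459t x114t x10t x272f x237f
  have x485f : α 485 = false := ff fun y => l3757 h y x10t x459t x28f x264f x346t
  have x120t : α 120 = true := tt fun y => c2457 h x485f x272f y
  have x108f : α 108 = false := ff fun y => l3685 h y x120t
  have x16f : α 16 = false := ff fun y => l3622 h x120t y x52t
  have x24t : α 24 = true := tt fun y => c322 h y x16f x108f
  have x271f : α 271 = false := ff fun y => c748 h y x94t x24t
  have x118t : α 118 = true := tt fun y => c2442 h x485f x271f y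
  have x23t : α 23 = true := tt fun y => l4162 h y x118t x271f x108f x346t x577t x386f x106f x494t x273t x114t x117f x113t x452t x444f x334t x52t x200t x183f x19f x53f x242f x92t
  have x340f : α 340 = false := ff fun y => l4152 h x52t x113t x452t x19f x56t x242f y x233t x114t x346t x272f
  have x379f : α 379 = false := ff fun y => l3767 h x264f y x23t
  have x189t : α 189 = true := tt fun y => c2182 h x97f y x340f
  have x161t : α 161 = true := tt fun y => c2676 h x379f x236f y
  have x71f : α 71 = false := ff fun y => c1714 h y x161t x189t x273t
  have x20t : α 20 = true := tt fun y => c536 h x71f y x59f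
  have x116f : α 116 = false := ff fun y => l3760 h y x20t x108f x494t x92t
  have x266t : α 266 = true := tt fun y => c2412 h x379f x236f y x116f
  have x155t : α 155 = true := tt fun y => c2411 h x271f y x116f
  c2438 h x266t x155t x118t

theorem l4164 (h : Good α) (x459t : α 459 = true) (x346t : α 346 = true) (x1f : α 1 = false) (x94t : α 94 = true) (x58t : α 58 = true) : False :=
  have x249f : α 249 = false := ff fun y => l4102 h y
  have x91t : α 91 = true := tt fun y => l4156 h y x94t x58t
  have x97f : α 97 = false := ff fun y => c1457 h x91t x58t y
  have x272f : α 272 = false := ff fun y => l4157 h y x94t x58t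
  have x242f : α 242 = false := ff fun y => l4159 h y x94t x58t
  have x61t : α 61 = true := tt fun y => c1556 h y x97f x242f
  have x53f : α 53 = false := ff fun y => l3778 h y x61t
  have x56t : α 56 = true := tt fun y => l3648 h x53f y
  have x327f : α 327 = false := ff fun y => l3667 h x56t y
  have x237f : α 237 = false := ff fun y => c1462 h y x91t x58t
  have x92t : α 92 = true := tt fun y => c2046 h x249f y x237f x97f
  have x236f : α 236 = false := ff fun y => c1549 h y x92t x61t
  have x57f : α 57 = false := ff fun y => c1398 h x94t y x91t x58t
  have x200t : α 200 = true := tt fun y => c67 h y x57f x1f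
  have x239f : α 239 = false := ff fun y => c1459 h y x200t x91t x58t
  have x233t : α 233 = true := tt fun y => c2990 h x239f x236f y x242f
  have x54f : α 54 = false := ff fun y => c1310 h x94t y x91t
  have x447t : α 447 = true := tt fun y => c2195 h x97f x242f y
  have x439f : α 439 = false := ff fun y => c2045 h x94t x92t y x447t
  have x406t : α 406 = true := tt fun y => c49 h x54f x1f x439f y
  have x201f : α 201 = false := ff fun y => c1492 h x58t y x406t
  have x354t : α 354 = true := tt fun y => c2923 h x201f x242f y
  have x250f : α 250 = false := ff fun y => c2015 h x91t y x233t x354t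
  have x197t : α 197 = true := tt fun y => c2885 h x249f y x237f
  have x351t : α 351 = true := tt fun y => c2190 h x237f x97f y x242f
  have x204f : α 204 = false := ff fun y => c2882 h x197t y x351t x354t
  have x238t : α 238 = true := tt fun y => c69 h x57f y x1f x204f
  have x264f : α 264 = false := ff fun y => l3862 h y x238t x57f x53f x272f
  have x184t : α 184 = true := tt fun y => l3652 h y x264f x53f
  have x114t : α 114 = true := tt fun y => l4059 h y x184t x250f x237f x58t x327f
  have x452t : α 452 = true := tt fun y => l3711 h x264f y
  have x52t : α 52 = true := tt fun y => c20 h x53f x1f y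
  have x19f : α 19 = false := ff fun y => l4083 h y x237f x56t x58t
  have x113t : α 113 = true := tt fun y => l3691 h y x264f
  have x340f : α 340 = false := ff fun y => l4152 h x52t x113t x452t x19f x56t x242f y x233t x114t x346t x272f
  have x189t : α 189 = true := tt fun y => c2182 h x97f y x340f
  have x335t : α 335 = true := tt fun y => l3653 h x53f y
  have x307f : α 307 = false := ff fun y => l3697 h x335t y x114t
  have x273t : α 273 = true := tt fun y => c3109 h x307f x250f y
  have x117f : α 117 = false := ff fun y => c2057 h x184t x92t y
  have x183f : α 183 = false := ff fun y => l3785 h y x91t x19f x58t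
  have x306t : α 306 = true := tt fun y => c3098 h x272f x249f y
  have x334t : α 334 = true := tt fun y => l3705 h x204f y
  have x444f : α 444 = false := ff fun y => c2080 h x92t x238t y
  have x424t : α 424 = true := tt fun y => l4163 h y x273t x114t x264f x444f x334t x239f x52t x200t x183f x19f x242f x272f x237f x97f x94t
  have x188f : α 188 = false := ff fun y => c1393 h y x424t x56t x335t
  have x20t : α 20 = true := tt fun y => c533 h x188f x57f y
  have x423f : α 423 = false := ff fun y => c576 h x306t x20t y x189t
  have x257t : α 257 = true := tt fun y => c2756 h x423f y x183f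
  have x10t : α 10 = true := tt fun y => l3860 h y x239f x236f x200t
  have x28f : α 28 = false := ff fun y => l3618 h x10t y
  have x558t : α 558 = true := tt fun y => c2763 h x183f x340f y
  have x399f : α 399 = false := ff fun y => c3220 h x273t y x558t
  have x85t : α 85 = true := tt fun y => c856 h x28f y x340f x399f
  have x59f : α 59 = false := ff fun y => l3670 h y x61t
  have x202t : α 202 = true := tt fun y => c89 h x1f x59f y
  have x487f : α 487 = false := ff fun y => c2035 h x91t x257t y
  have x205t : α 205 = true := tt fun y => c875 h y x28f x487f x340f
  have x312f : α 312 = false := ff fun y => c1887 h x205t x85t y x202t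
  have x146t : α 146 = true := tt fun y => c1327 h x54f y x312f
  have x157f : α 157 = false := ff fun y => c2544 h x146t y x257t x273t
  have x161t : α 161 = true := tt fun y => c2419 h y x117f x157f
  have x71f : α 71 = false := ff fun y => c1714 h y x161t x189t x273t
  have x106f : α 106 = false := ff fun y => c565 h y x20t x257t x189t
  have x62t : α 62 = true := tt fun y => c1589 h x249f x106f y
  have x223f : α 223 = false := ff fun y => l4161 h x399f y x340f x62t
  have x299t : α 299 = true := tt fun y => c2976 h x444f y x223f
  have x22f : α 22 = false := ff fun y => c640 h y x299t x52t x334t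
  have x128t : α 128 = true := tt fun y => c622 h x22f x28f y
  have x341f : α 341 = false := ff fun y => c2066 h y x184t x92t
  have x553t : α 553 = true := tt fun y => c2818 h y x341f x188f
  have x409t : α 409 = true := tt fun y => c73 h x57f x444f x1f y
  have x325f : α 325 = false := ff fun y => c3261 h y x335t x409t
  have x199f : α 199 = false := ff fun y => l3725 h x197t y
  have x386f : α 386 = false := ff fun y => l3668 h y x459t x56t
  have x485f : α 485 = false := ff fun y => l3757 h y x10t x459t x28f x264f x346t
  have x179t : α 179 = true := tt fun y => c2714 h x386f x239f y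
  have x577t : α 577 = true := tt fun y => c3067 h y x386f x239f
  have x120t : α 120 = true := tt fun y => c2457 h x485f x272f y
  have x80f : α 80 = false := ff fun y => c1231 h x179t y x146t x52t
  have x108f : α 108 = false := ff fun y => l3685 h y x120t
  have x16f : α 16 = false := ff fun y => l3622 h x120t y x52t
  have x291t : α 291 = true := tt fun y => c356 h x16f x108f y
  have x24t : α 24 = true := tt fun y => c322 h y x16f x108f
  have x118t : α 118 = true := tt fun y => c316 h y x22f x16f
  have x246f : α 246 = false := ff fun y => c1884 h x85t y x128t x291t
  have x391f : α 391 = false := ff fun y => c2497 h x238t y x128t x291t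
  have x271f : α 271 = false := ff fun y => c748 h y x94t x24t
  have x493f : α 493 = false := ff fun y => c749 h x553t y x94t x24t
  have x122f : α 122 = false := ff fun y => c745 h x94t x24t x205t y
  have x66t : α 66 = true := tt fun y => c1646 h y x108f x246f
  have x324t : α 324 = true := tt fun y => c2944 h x493f x391f y x204f
  have x549t : α 549 = true := tt fun y => c2471 h x122f x312f y
  have x182f : α 182 = false := ff fun y => c1586 h x184t y x62t x66t
  have x153f : α 153 = false := ff fun y => c1384 h x324t y x56t
  have x17t : α 17 = true := tt fun y => c387 h x182f x53f y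
  have x328t : α 328 = true := tt fun y => c2620 h y x199f x153f
  have x494t : α 494 = true := tt fun y => c2624 h x341f y x153f x325f
  have x260t : α 260 = true := tt fun y => l3855 h x71f y x28f x80f x264f x459t x236f x328t x59f x346t
  have x23t : α 23 = true := tt fun y => l4162 h y x118t x271f x108f x346t x577t x386f x106f x494t x273t x114t x117f x113t x452t x444f x334t x52t x200t x183f x19f x53f x242f x92t
  have x181f : α 181 = false := ff fun y => l3643 h y x260t x52t
  have x376f : α 376 = false := ff fun y => c3166 h x549t y x260t
  have x50f : α 50 = false := ff fun y => c363 h x17t x23t y x58t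
  c1192 h x50f x181f x376f

theorem l4165 (h : Good α) (x346t : α 346 = true) (x1f : α 1 = false) (x94t : α 94 = true) (x58t : α 58 = true) : False :=
  have x249f : α 249 = false := ff fun y => l4102 h y
  have x91t : α 91 = true := tt fun y => l4156 h y x94t x58t
  have x57f : α 57 = false := ff fun y => c1398 h x94t y x91t x58t
  have x97f : α 97 = false := ff fun y => c1457 h x91t x58t y
  have x242f : α 242 = false := ff fun y => l4159 h y x94t x58t
  have x61t : α 61 = true := tt fun y => c1556 h y x97f x242f
  have x53f : α 53 = false := ff fun y => l3778 h y x61t
  have x56t : α 56 = true := tt fun y => l3648 h x53f y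
  have x335t : α 335 = true := tt fun y => l3653 h x53f y
  have x237f : α 237 = false := ff fun y => c1462 h y x91t x58t
  have x272f : α 272 = false := ff fun y => l4157 h y x94t x58t
  have x19f : α 19 = false := ff fun y => l4083 h y x237f x56t x58t
  have x183f : α 183 = false := ff fun y => l3785 h y x91t x19f x58t
  have x200t : α 200 = true := tt fun y => c67 h y x57f x1f
  have x52t : α 52 = true := tt fun y => c20 h x53f x1f y
  have x239f : α 239 = false := ff fun y => c1459 h y x200t x91t x58t
  have x197t : α 197 = true := tt fun y => c2885 h x249f y x237f
  have x351t : α 351 = true := tt fun y => c2190 h x237f x97f y x242f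
  have x54f : α 54 = false := ff fun y => c1310 h x94t y x91t
  have x92t : α 92 = true := tt fun y => c2046 h x249f y x237f x97f
  have x447t : α 447 = true := tt fun y => c2195 h x97f x242f y
  have x439f : α 439 = false := ff fun y => c2045 h x94t x92t y x447t
  have x406t : α 406 = true := tt fun y => c49 h x54f x1f x439f y
  have x201f : α 201 = false := ff fun y => c1492 h x58t y x406t
  have x354t : α 354 = true := tt fun y => c2923 h x201f x242f y
  have x204f : α 204 = false := ff fun y => c2882 h x197t y x351t x354t
  have x334t : α 334 = true := tt fun y => l3705 h x204f y
  have x238t : α 238 = true := tt fun y => c69 h x57f y x1f x204f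
  have x444f : α 444 = false := ff fun y => c2080 h x92t x238t y
  have x264f : α 264 = false := ff fun y => l3862 h y x238t x57f x53f x272f
  have x327f : α 327 = false := ff fun y => l3667 h x56t y
  have x236f : α 236 = false := ff fun y => c1549 h y x92t x61t
  have x233t : α 233 = true := tt fun y => c2990 h x239f x236f y x242f
  have x250f : α 250 = false := ff fun y => c2015 h x91t y x233t x354t
  have x184t : α 184 = true := tt fun y => l3652 h y x264f x53f
  have x114t : α 114 = true := tt fun y => l4059 h y x184t x250f x237f x58t x327f
  have x307f : α 307 = false := ff fun y => l3697 h x335t y x114t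
  have x273t : α 273 = true := tt fun y => c3109 h x307f x250f y
  have x424t : α 424 = true := tt fun y => l4163 h y x273t x114t x264f x444f x334t x239f x52t x200t x183f x19f x242f x272f x237f x97f x94t
  have x188f : α 188 = false := ff fun y => c1393 h y x424t x56t x335t
  have x20t : α 20 = true := tt fun y => c533 h x188f x57f y
  have x113t : α 113 = true := tt fun y => l3691 h y x264f
  have x452t : α 452 = true := tt fun y => l3711 h x264f y
  have x10t : α 10 = true := tt fun y => l3860 h y x239f x236f x200t
  have x28f : α 28 = false := ff fun y => l3618 h x10t y
  have x59f : α 59 = false := ff fun y => l3670 h y x61t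
  have x202t : α 202 = true := tt fun y => c89 h x1f x59f y
  have x306t : α 306 = true := tt fun y => c3098 h x272f x249f y
  have x392f : α 392 = false := ff fun y => l3727 h x346t y x197t
  have x340f : α 340 = false := ff fun y => l4152 h x52t x113t x452t x19f x56t x242f y x233t x114t x346t x272f
  have x558t : α 558 = true := tt fun y => c2763 h x183f x340f y
  have x189t : α 189 = true := tt fun y => c2182 h x97f y x340f
  have x399f : α 399 = false := ff fun y => c3220 h x273t y x558t
  have x423f : α 423 = false := ff fun y => c576 h x306t x20t y x189t
  have x85t : α 85 = true := tt fun y => c856 h x28f y x340f x399f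
  have x257t : α 257 = true := tt fun y => c2756 h x423f y x183f
  have x487f : α 487 = false := ff fun y => c2035 h x91t x257t y
  have x106f : α 106 = false := ff fun y => c565 h y x20t x257t x189t
  have x205t : α 205 = true := tt fun y => c875 h y x28f x487f x340f
  have x253t : α 253 = true := tt fun y => c2286 h x249f x106f x392f y
  have x312f : α 312 = false := ff fun y => c1887 h x205t x85t y x202t
  have x146t : α 146 = true := tt fun y => c1327 h x54f y x312f
  have x185f : α 185 = false := ff fun y => c1380 h y x56t x253t x146t
  have x98f : α 98 = false := ff fun y => c2211 h x253t x146t y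
  have x471f : α 471 = false := ff fun y => c2550 h y x253t x146t
  have x269t : α 269 = true := tt fun y => c2777 h y x188f x185f
  have x459f : α 459 = false := ff fun y => l4164 h y x346t x1f x94t x58t
  have x386t : α 386 = true := tt fun y => c2815 h x459f y x272f x188f
  have x80t : α 80 = true := tt fun y => c1829 h x459f x239f y
  have x235f : α 235 = false := ff fun y => c3011 h x386t x269t y
  have x564f : α 564 = false := ff fun y => c3204 h y x386t x269t
  have x179f : α 179 = false := ff fun y => c1231 h y x80t x146t x52t
  have x344t : α 344 = true := tt fun y => c2784 h x564f y x185f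
  have x281t : α 281 = true := tt fun y => c2716 h x179f y x471f
  have x385f : α 385 = false := ff fun y => c3302 h x386t x344t y
  have x368f : α 368 = false := ff fun y => c3122 h y x281t x253t
  have x15t : α 15 = true := tt fun y => c304 h x385f y x471f x98f
  have x6t : α 6 = true := tt fun y => c163 h x564f x235f x368f y
  have x88f : α 88 = false := ff fun y => c301 h x269t y x15t
  have x26f : α 26 = false := ff fun y => c152 h x6t y x146t
  c802 h x188f x88f x106f x26f

theorem l4166 (h : Good α) (x1f : α 1 = false) (x94t : α 94 = true) (x58t : α 58 = true) : False :=
  have x249f : α 249 = false := ff fun y => l4102 h y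
  have x91t : α 91 = true := tt fun y => l4156 h y x94t x58t
  have x97f : α 97 = false := ff fun y => c1457 h x91t x58t y
  have x242f : α 242 = false := ff fun y => l4159 h y x94t x58t
  have x61t : α 61 = true := tt fun y => c1556 h y x97f x242f
  have x53f : α 53 = false := ff fun y => l3778 h y x61t
  have x56t : α 56 = true := tt fun y => l3648 h x53f y
  have x327f : α 327 = false := ff fun y => l3667 h x56t y
  have x237f : α 237 = false := ff fun y => c1462 h y x91t x58t
  have x92t : α 92 = true := tt fun y => c2046 h x249f y x237f x97f
  have x236f : α 236 = false := ff fun y => c1549 h y x92t x61t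
  have x447t : α 447 = true := tt fun y => c2195 h x97f x242f y
  have x439f : α 439 = false := ff fun y => c2045 h x94t x92t y x447t
  have x351t : α 351 = true := tt fun y => c2190 h x237f x97f y x242f
  have x272f : α 272 = false := ff fun y => l4157 h y x94t x58t
  have x197t : α 197 = true := tt fun y => c2885 h x249f y x237f
  have x57f : α 57 = false := ff fun y => c1398 h x94t y x91t x58t
  have x54f : α 54 = false := ff fun y => c1310 h x94t y x91t
  have x200t : α 200 = true := tt fun y => c67 h y x57f x1f
  have x52t : α 52 = true := tt fun y => c20 h x53f x1f y
  have x406t : α 406 = true := tt fun y => c49 h x54f x1f x439f y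
  have x239f : α 239 = false := ff fun y => c1459 h y x200t x91t x58t
  have x201f : α 201 = false := ff fun y => c1492 h x58t y x406t
  have x233t : α 233 = true := tt fun y => c2990 h x239f x236f y x242f
  have x10t : α 10 = true := tt fun y => l3860 h y x239f x236f x200t
  have x354t : α 354 = true := tt fun y => c2923 h x201f x242f y
  have x28f : α 28 = false := ff fun y => l3618 h x10t y
  have x204f : α 204 = false := ff fun y => c2882 h x197t y x351t x354t
  have x250f : α 250 = false := ff fun y => c2015 h x91t y x233t x354t
  have x238t : α 238 = true := tt fun y => c69 h x57f y x1f x204f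
  have x264f : α 264 = false := ff fun y => l3862 h y x238t x57f x53f x272f
  have x184t : α 184 = true := tt fun y => l3652 h y x264f x53f
  have x114t : α 114 = true := tt fun y => l4059 h y x184t x250f x237f x58t x327f
  have x346f : α 346 = false := ff fun y => l4165 h y x1f x94t x58t
  have x477t : α 477 = true := tt fun y => c3214 h x272f x346f y
  have x102t : α 102 = true := tt fun y => c864 h x272f x28f x346f y
  have x459f : α 459 = false := ff fun y => l4160 h x346f y x114t x10t x272f x237f
  have x275f : α 275 = false := ff fun y => c2396 h x477t y x114t
  have x267f : α 267 = false := ff fun y => l3683 h x102t y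
  have x80t : α 80 = true := tt fun y => c1829 h x459f x239f y
  have x285t : α 285 = true := tt fun y => c3226 h x346f x275f y
  have x22f : α 22 = false := ff fun y => c635 h x80t y x52t
  have x36f : α 36 = false := ff fun y => c1037 h y x114t x285t
  have x90t : α 90 = true := tt fun y => c653 h x272f x22f x346f y
  have x120t : α 120 = true := tt fun y => l4129 h y x237f x36f x477t x272f
  have x95f : α 95 = false := ff fun y => c1234 h x90t x52t y
  have x108f : α 108 = false := ff fun y => l3685 h y x120t
  have x16f : α 16 = false := ff fun y => l3622 h x120t y x52t
  have x29t : α 29 = true := tt fun y => c334 h y x16f x95f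
  have x40t : α 40 = true := tt fun y => c1099 h y x108f x267f
  c882 h x29t x40t x90t x102t

theorem l4167 (h : Good α) (x52t : α 52 = true) (x118f : α 118 = false) (x120t : α 120 = true) (x80t : α 80 = true) : False :=
  have x22f : α 22 = false := ff fun y => c635 h x80t y x52t
  have x16f : α 16 = false := ff fun y => l3622 h x120t y x52t
  c316 h x118f x22f x16f

theorem l4168 (h : Good α) (x346f : α 346 = false) (x114t : α 114 = true) (x264f : α 264 = false) (x10t : α 10 = true) (x239f : α 239 = false) (x183f : α 183 = false) (x53f : α 53 = false) (x59f : α 59 = false) (x272f : α 272 = false) (x57f : α 57 = false) (x237f : α 237 = false) : False :=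
  have x249f : α 249 = false := ff fun y => l4102 h y
  have x158f : α 158 = false := ff fun y => l3694 h x114t y
  have x28f : α 28 = false := ff fun y => l3618 h x10t y
  have x306t : α 306 = true := tt fun y => c3098 h x272f x249f y
  have x197t : α 197 = true := tt fun y => c2885 h x249f y x237f
  have x326f : α 326 = false := ff fun y => l3726 h x197t y
  have x477t : α 477 = true := tt fun y => c3214 h x272f x346f y
  have x459f : α 459 = false := ff fun y => l4160 h x346f y x114t x10t x272f x237f
  have x275f : α 275 = false := ff fun y => c2396 h x477t y x114t
  have x188f : α 188 = false := ff fun y => l3864 h x459f y x264f x158f x53f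
  have x80t : α 80 = true := tt fun y => c1829 h x459f x239f y
  have x285t : α 285 = true := tt fun y => c3226 h x346f x275f y
  have x20t : α 20 = true := tt fun y => c533 h x188f x57f y
  have x36f : α 36 = false := ff fun y => c1037 h y x114t x285t
  have x120t : α 120 = true := tt fun y => l4129 h y x237f x36f x477t x272f
  have x108f : α 108 = false := ff fun y => l3685 h y x120t
  have x44t : α 44 = true := tt fun y => c843 h y x28f x108f
  have x118f : α 118 = false := ff fun y => c188 h x80t x10t y x44t
  have x52f : α 52 = false := ff fun y => l4167 h y x118f x120t x80t
  have x423t : α 423 = true := tt fun y => c1255 h x326f x52f y x183f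
  have x189t : α 189 = true := tt fun y => c1228 h x52f x59f x183f y
  c576 h x306t x20t x423t x189t

theorem l4169 (h : Good α) (x52f : α 52 = false) (x346t : α 346 = true) (x273t : α 273 = true) (x114t : α 114 = true) (x312t : α 312 = true) (x264f : α 264 = false) (x10t : α 10 = true) (x443t : α 443 = true) (x233t : α 233 = true) (x183f : α 183 = false) (x19f : α 19 = false) (x53f : α 53 = false) (x59f : α 59 = false) (x242f : α 242 = false) (x272f : α 272 = false) (x57f : α 57 = false) (x237f : α 237 = false) (x54f : α 54 = false) (x94t : α 94 = true) : False :=
  have x249f : α 249 = false := ff fun y => l4102 h y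
  have x197t : α 197 = true := tt fun y => c2885 h x249f y x237f
  have x392f : α 392 = false := ff fun y => l3727 h x346t y x197t
  have x173t : α 173 = true := tt fun y => c2699 h y x249f x392f
  have x158f : α 158 = false := ff fun y => l3694 h x114t y
  have x56t : α 56 = true := tt fun y => l3648 h x53f y
  have x327f : α 327 = false := ff fun y => l3667 h x56t y
  have x429t : α 429 = true := tt fun y => l3709 h y x327f x264f
  have x184t : α 184 = true := tt fun y => l3652 h y x264f x53f
  have x113t : α 113 = true := tt fun y => l3691 h y x264f
  have x452t : α 452 = true := tt fun y => l3711 h x264f y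
  have x28f : α 28 = false := ff fun y => l3618 h x10t y
  have x306t : α 306 = true := tt fun y => c3098 h x272f x249f y
  have x326f : α 326 = false := ff fun y => l3726 h x197t y
  have x578t : α 578 = true := tt fun y => l4123 h y x237f
  have x423t : α 423 = true := tt fun y => c1255 h x326f x52f y x183f
  have x146t : α 146 = true := tt fun y => c1241 h x326f y x52f
  have x157t : α 157 = true := tt fun y => c1227 h x52f x59f y
  have x378t : α 378 = true := tt fun y => c1258 h x52f x183f y
  have x22t : α 22 = true := tt fun y => c637 h y x52f x183f
  have x189t : α 189 = true := tt fun y => c1228 h x52f x59f x183f y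
  have x487f : α 487 = false := ff fun y => c3370 h x443t x423t y
  have x257f : α 257 = false := ff fun y => c2544 h x146t x157t y x273t
  have x462f : α 462 = false := ff fun y => c2661 h x157t x273t y
  have x576f : α 576 = false := ff fun y => c3005 h x233t x378t y
  have x106f : α 106 = false := ff fun y => c662 h x306t y x22t
  have x20f : α 20 = false := ff fun y => c576 h x306t y x423t x189t
  have x298t : α 298 = true := tt fun y => c3034 h y x237f x257f
  have x81t : α 81 = true := tt fun y => c1846 h y x242f x462f
  have x62t : α 62 = true := tt fun y => c1589 h x249f x106f y
  have x253t : α 253 = true := tt fun y => c2286 h x249f x106f x392f y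
  have x188t : α 188 = true := tt fun y => c533 h y x57f x20f
  have x23f : α 23 = false := ff fun y => c719 h x429t x184t x298t y
  have x70f : α 70 = false := ff fun y => c1682 h x188t x184t y x81t
  have x98f : α 98 = false := ff fun y => c2211 h x253t x146t y
  have x386f : α 386 = false := ff fun y => c1395 h y x188t x56t
  have x459t : α 459 = true := tt fun y => l3864 h y x188t x264f x158f x53f
  have x379t : α 379 = true := tt fun y => c462 h x386f y x19f x23f
  have x74t : α 74 = true := tt fun y => c1749 h y x98f x237f x257f
  have x481t : α 481 = true := tt fun y => c2214 h x98f x257f y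
  have x38t : α 38 = true := tt fun y => c1067 h y x98f x257f
  have x485f : α 485 = false := ff fun y => l3757 h y x10t x459t x28f x264f x346t
  have x180f : α 180 = false := ff fun y => c1841 h x379t x452t x81t y
  have x82f : α 82 = false := ff fun y => c1747 h x173t y x74t
  have x336f : α 336 = false := ff fun y => c3124 h x253t y x481t
  have x120t : α 120 = true := tt fun y => c2457 h x485f x272f y
  have x12t : α 12 = true := tt fun y => c226 h x249f x82f y
  have x86t : α 86 = true := tt fun y => c489 h y x19f x336f x257f
  have x475t : α 475 = true := tt fun y => c3141 h y x336f x257f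
  have x549t : α 549 = true := tt fun y => c3142 h x336f x257f y x487f
  have x108f : α 108 = false := ff fun y => l3685 h y x120t
  have x457f : α 457 = false := ff fun y => c218 h x12t x38t y x481t
  have x240f : α 240 = false := ff fun y => c1375 h x56t x86t y
  have x48f : α 48 = false := ff fun y => c1160 h x173t y x578t x475t
  have x122f : α 122 = false := ff fun y => c2472 h y x312t x549t
  have x337t : α 337 = true := tt fun y => c869 h x264f y x28f x108f
  have x89t : α 89 = true := tt fun y => c519 h x20f y x28f x108f
  have x103t : α 103 = true := tt fun y => c1686 h x240f y x70f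
  have x26t : α 26 = true := tt fun y => c797 h x48f y x98f
  have x66t : α 66 = true := tt fun y => c1645 h x122f y x108f
  have x192f : α 192 = false := ff fun y => c1949 h x337t y x89t
  have x259f : α 259 = false := ff fun y => c2258 h x103t y x481t
  have x16f : α 16 = false := ff fun y => c329 h x26t y x89t
  have x182f : α 182 = false := ff fun y => c1586 h x184t y x62t x66t
  have x187t : α 187 = true := tt fun y => c2802 h x392f y x457f x259f
  have x147t : α 147 = true := tt fun y => c2561 h x457f x259f y
  have x24t : α 24 = true := tt fun y => c320 h y x16f x54f x52f
  have x17t : α 17 = true := tt fun y => c387 h x182f x53f y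
  have x261t : α 261 = true := tt fun y => c2743 h y x182f x192f
  have x90f : α 90 = false := ff fun y => c1973 h x346t x187t y
  have x176f : α 176 = false := ff fun y => c2253 h y x103t x147t
  have x30f : α 30 = false := ff fun y => c726 h x94t x24t y
  have x271f : α 271 = false := ff fun y => c748 h y x94t x24t
  have x279f : α 279 = false := ff fun y => c796 h x261t y x26t x38t
  have x96t : α 96 = true := tt fun y => c1218 h y x53f x90f x52f
  have x285t : α 285 = true := tt fun y => c2711 h x176f y x457f
  have x484t : α 484 = true := tt fun y => c929 h y x279f x271f x30f
  have x266f : α 266 = false := ff fun y => c397 h y x96t x17t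
  have x340f : α 340 = false := ff fun y => l3453 h x285t x114t x180f x346t x113t y x576f
  have x281f : α 281 = false := ff fun y => c811 h x484t x261t y x26t
  have x344t : α 344 = true := tt fun y => c3187 h x485f y x266f
  have x205t : α 205 = true := tt fun y => c875 h y x28f x487f x340f
  have x367t : α 367 = true := tt fun y => c3209 h x271f x281f y
  c2809 h x344t x188t x367t x205t

theorem l4170 (h : Good α) (x459t : α 459 = true) (x71f : α 71 = false) (x22f : α 22 = false) (x202f : α 202 = false) (x85t : α 85 = true) (x52t : α 52 = true) (x346t : α 346 = true) (x328t : α 328 = true) (x264f : α 264 = false) (x10t : α 10 = true) (x1t : α 1 = true) (x236f : α 236 = false) (x59f : α 59 = false) (x272f : α 272 = false) (x57f : α 57 = false) : False :=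
  have x28f : α 28 = false := ff fun y => l3618 h x10t y
  have x128t : α 128 = true := tt fun y => c622 h x22f x28f y
  have x485f : α 485 = false := ff fun y => l3757 h y x10t x459t x28f x264f x346t
  have x120t : α 120 = true := tt fun y => c2457 h x485f x272f y
  have x108f : α 108 = false := ff fun y => l3685 h y x120t
  have x16f : α 16 = false := ff fun y => l3622 h x120t y x52t
  have x44t : α 44 = true := tt fun y => c843 h y x28f x108f
  have x118t : α 118 = true := tt fun y => c316 h y x22f x16f
  have x51t : α 51 = true := tt fun y => c312 h x57f y x22f x16f
  have x291t : α 291 = true := tt fun y => c356 h x16f x108f y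
  have x80f : α 80 = false := ff fun y => c188 h y x10t x118t x44t
  have x50f : α 50 = false := ff fun y => c2 h x51t x1t y
  have x246f : α 246 = false := ff fun y => c1884 h x85t y x128t x291t
  have x260t : α 260 = true := tt fun y => l3855 h x71f y x28f x80f x264f x459t x236f x328t x59f x346t
  have x244t : α 244 = true := tt fun y => c2928 h x246f x202f y
  have x181f : α 181 = false := ff fun y => l3643 h y x260t x52t
  have x376f : α 376 = false := ff fun y => c3090 h y x260t x244t
  c1192 h x50f x181f x376f

theorem l4171 (h : Good α) (x94t : α 94 = true) (x58t : α 58 = true) : False :=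
  have x249f : α 249 = false := ff fun y => l4102 h y
  have x91t : α 91 = true := tt fun y => l4156 h y x94t x58t
  have x54f : α 54 = false := ff fun y => c1310 h x94t y x91t
  have x97f : α 97 = false := ff fun y => c1457 h x91t x58t y
  have x237f : α 237 = false := ff fun y => c1462 h y x91t x58t
  have x57f : α 57 = false := ff fun y => c1398 h x94t y x91t x58t
  have x92t : α 92 = true := tt fun y => c2046 h x249f y x237f x97f
  have x197t : α 197 = true := tt fun y => c2885 h x249f y x237f
  have x326f : α 326 = false := ff fun y => l3726 h x197t y
  have x272f : α 272 = false := ff fun y => l4157 h y x94t x58t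
  have x306t : α 306 = true := tt fun y => c3098 h x272f x249f y
  have x242f : α 242 = false := ff fun y => l4159 h y x94t x58t
  have x351t : α 351 = true := tt fun y => c2190 h x237f x97f y x242f
  have x61t : α 61 = true := tt fun y => c1556 h y x97f x242f
  have x59f : α 59 = false := ff fun y => l3670 h y x61t
  have x53f : α 53 = false := ff fun y => l3778 h y x61t
  have x236f : α 236 = false := ff fun y => c1549 h y x92t x61t
  have x56t : α 56 = true := tt fun y => l3648 h x53f y
  have x335t : α 335 = true := tt fun y => l3653 h x53f y
  have x327f : α 327 = false := ff fun y => l3667 h x56t y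
  have x19f : α 19 = false := ff fun y => l4083 h y x237f x56t x58t
  have x183f : α 183 = false := ff fun y => l3785 h y x91t x19f x58t
  have x1t : α 1 = true := tt fun y => l4166 h y x94t x58t
  have x201f : α 201 = false := ff fun y => c80 h x1t x58t y
  have x204f : α 204 = false := ff fun y => c102 h x1t x61t y
  have x354t : α 354 = true := tt fun y => c2923 h x201f x242f y
  have x233t : α 233 = true := tt fun y => c2919 h y x201f x242f
  have x200t : α 200 = true := tt fun y => c2903 h y x236f x201f x242f
  have x334t : α 334 = true := tt fun y => l3705 h x204f y
  have x250f : α 250 = false := ff fun y => c2015 h x91t y x233t x354t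
  have x543f : α 543 = false := ff fun y => c3001 h y x351t x233t
  have x239f : α 239 = false := ff fun y => c1459 h y x200t x91t x58t
  have x450t : α 450 = true := tt fun y => c2199 h x97f x250f y
  have x238t : α 238 = true := tt fun y => c3027 h x249f y x237f x250f
  have x443t : α 443 = true := tt fun y => c2193 h y x97f x543f x242f
  have x10t : α 10 = true := tt fun y => l3860 h y x239f x236f x200t
  have x444f : α 444 = false := ff fun y => c1986 h x94t y x91t x450t
  have x264f : α 264 = false := ff fun y => l3862 h y x238t x57f x53f x272f
  have x402f : α 402 = false := ff fun y => c84 h y x1t x443t x58t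
  have x28f : α 28 = false := ff fun y => l3618 h x10t y
  have x452t : α 452 = true := tt fun y => l3711 h x264f y
  have x113t : α 113 = true := tt fun y => l3691 h y x264f
  have x184t : α 184 = true := tt fun y => l3652 h y x264f x53f
  have x312t : α 312 = true := tt fun y => c3252 h x402f x326f y
  have x328t : α 328 = true := tt fun y => c3263 h y x327f x402f
  have x114t : α 114 = true := tt fun y => l4059 h y x184t x250f x237f x58t x327f
  have x307f : α 307 = false := ff fun y => l3697 h x335t y x114t
  have x273t : α 273 = true := tt fun y => c3109 h x307f x250f y
  have x346t : α 346 = true := tt fun y => l4168 h y x114t x264f x10t x239f x183f x53f x59f x272f x57f x237f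
  have x52t : α 52 = true := tt fun y => l4169 h y x346t x273t x114t x312t x264f x10t x443t x233t x183f x19f x53f x59f x242f x272f x57f x237f x54f x94t
  have x424t : α 424 = true := tt fun y => l4163 h y x273t x114t x264f x444f x334t x239f x52t x200t x183f x19f x242f x272f x237f x97f x94t
  have x340f : α 340 = false := ff fun y => l4152 h x52t x113t x452t x19f x56t x242f y x233t x114t x346t x272f
  have x188f : α 188 = false := ff fun y => c1393 h y x424t x56t x335t
  have x558t : α 558 = true := tt fun y => c2763 h x183f x340f y
  have x189t : α 189 = true := tt fun y => c2182 h x97f y x340f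
  have x20t : α 20 = true := tt fun y => c533 h x188f x57f y
  have x399f : α 399 = false := ff fun y => c3220 h x273t y x558t
  have x423f : α 423 = false := ff fun y => c576 h x306t x20t y x189t
  have x85t : α 85 = true := tt fun y => c856 h x28f y x340f x399f
  have x257t : α 257 = true := tt fun y => c2756 h x423f y x183f
  have x487f : α 487 = false := ff fun y => c2035 h x91t x257t y
  have x106f : α 106 = false := ff fun y => c565 h y x20t x257t x189t
  have x205t : α 205 = true := tt fun y => c875 h y x28f x487f x340f
  have x62t : α 62 = true := tt fun y => c1589 h x249f x106f y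
  have x202f : α 202 = false := ff fun y => c1887 h x205t x85t x312t y
  have x223f : α 223 = false := ff fun y => l4161 h x399f y x340f x62t
  have x157t : α 157 = true := tt fun y => c2651 h x204f y x202f
  have x299t : α 299 = true := tt fun y => c2976 h x444f y x223f
  have x146f : α 146 = false := ff fun y => c2544 h y x157t x257t x273t
  have x22f : α 22 = false := ff fun y => c640 h y x299t x52t x334t
  have x179t : α 179 = true := tt fun y => c2280 h y x106f x146f
  have x71f : α 71 = false := ff fun y => c1717 h x179t y x257t x189t
  have x459f : α 459 = false := ff fun y => l4170 h y x71f x22f x202f x85t x52t x346t x328t x264f x10t x1t x236f x59f x272f x57f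
  have x80t : α 80 = true := tt fun y => c1829 h x459f x239f y
  have x379f : α 379 = false := ff fun y => c1826 h y x200t x80t
  have x161f : α 161 = false := ff fun y => c1232 h x80t y x52t x157t
  c2676 h x379f x236f x161f

theorem l4172 (h : Good α) (x52t : α 52 = true) (x58t : α 58 = true) : False :=
  have x249f : α 249 = false := ff fun y => l4102 h y
  have x94f : α 94 = false := ff fun y => l4171 h y x58t
  have x57t : α 57 = true := tt fun y => c1422 h x249f x94f y
  have x1f : α 1 = false := ff fun y => c62 h x57t y x58t
  have x449t : α 449 = true := tt fun y => c2134 h y x249f x94f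
  have x54f : α 54 = false := ff fun y => l3640 h y x52t
  have x239t : α 239 = true := tt fun y => c1322 h y x94f x54f
  have x91t : α 91 = true := tt fun y => c1309 h x94f x54f y
  have x197t : α 197 = true := tt fun y => c1319 h x249f x94f y x54f
  have x61t : α 61 = true := tt fun y => c39 h x54f x1f y
  have x97f : α 97 = false := ff fun y => c1457 h x91t x58t y
  have x237f : α 237 = false := ff fun y => c1462 h y x91t x58t
  have x199f : α 199 = false := ff fun y => l3725 h x197t y
  have x59f : α 59 = false := ff fun y => l3670 h y x61t
  have x53f : α 53 = false := ff fun y => l3778 h y x61t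
  have x92t : α 92 = true := tt fun y => c2046 h x249f y x237f x97f
  have x56t : α 56 = true := tt fun y => c59 h x199f y x1f
  have x202t : α 202 = true := tt fun y => c89 h x1f x59f y
  have x335t : α 335 = true := tt fun y => l3653 h x53f y
  have x272t : α 272 = true := tt fun y => l3941 h y x57t x94f x449t x53f
  have x238f : α 238 = false := ff fun y => c1416 h x57t x92t y
  have x236f : α 236 = false := ff fun y => c1549 h y x92t x61t
  have x19f : α 19 = false := ff fun y => l4083 h y x237f x56t x58t
  have x188f : α 188 = false := ff fun y => l3666 h y x272t x56t
  have x333f : α 333 = false := ff fun y => l3718 h x202t y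
  have x195f : α 195 = false := ff fun y => l3717 h y x202t
  have x424f : α 424 = false := ff fun y => l3731 h y x335t x272t
  have x459f : α 459 = false := ff fun y => l3732 h x272t y
  have x114f : α 114 = false := ff fun y => l3695 h y x272t
  have x117t : α 117 = true := tt fun y => c2427 h x424f x238f y
  have x183f : α 183 = false := ff fun y => l3785 h y x91t x19f x58t
  have x386t : α 386 = true := tt fun y => c507 h x459f y x114f x19f
  have x184f : α 184 = false := ff fun y => c2057 h y x92t x117t
  have x223f : α 223 = false := ff fun y => c2059 h x92t x117t y
  have x264t : α 264 = true := tt fun y => c2765 h x188f x184f y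
  have x379t : α 379 = true := tt fun y => c1294 h y x184f x53f
  have x62t : α 62 = true := tt fun y => c1591 h y x223f x195f x333f
  have x452f : α 452 = false := ff fun y => c3328 h x386t x379t y
  have x22f : α 22 = false := ff fun y => c643 h x57t y x62t
  have x28t : α 28 = true := tt fun y => c620 h x94f x22f y
  have x10f : α 10 = false := ff fun y => l3618 h y x28t
  have x167t : α 167 = true := tt fun y => l3943 h y x452f x28t x272t x236f x52t x1f x59f
  have x175f : α 175 = false := ff fun y => l3714 h x167t y
  have x68f : α 68 = false := ff fun y => l3641 h y x167t x52t
  have x286t : α 286 = true := tt fun y => c2707 h x459f y x175f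
  have x63t : α 63 = true := tt fun y => c1597 h x175f y x68f
  have x369f : α 369 = false := ff fun y => c3212 h y x286t x272t
  have x40f : α 40 = false := ff fun y => c839 h x286t y x272t x28t
  have x107f : α 107 = false := ff fun y => c1607 h x239t y x63t
  have x41t : α 41 = true := tt fun y => c1117 h x369f x175f y
  have x482t : α 482 = true := tt fun y => c186 h x452f y x10f x40f
  have x29t : α 29 = true := tt fun y => c883 h x107f y x40f
  have x120f : α 120 = false := ff fun y => c1115 h x272t y x41t
  have x101f : α 101 = false := ff fun y => c2235 h x482t x264t y
  have x16t : α 16 = true := tt fun y => c350 h x175f x68f x120f y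
  have x256t : α 256 = true := tt fun y => l3680 h x101f y
  have x95f : α 95 = false := ff fun y => c335 h x29t x16t y
  have x36f : α 36 = false := ff fun y => c1044 h x286t x482t y x256t
  c1032 h x36f x95f x114f x183f

theorem l4173 (h : Good α) (x58t : α 58 = true) : False :=
  have x249f : α 249 = false := ff fun y => l4102 h y
  have x94f : α 94 = false := ff fun y => l4171 h y x58t
  have x57t : α 57 = true := tt fun y => c1422 h x249f x94f y
  have x449t : α 449 = true := tt fun y => c2134 h y x249f x94f
  have x1f : α 1 = false := ff fun y => c62 h x57t y x58t
  have x443f : α 443 = false := ff fun y => c1406 h x449t x57t y x58t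
  have x52f : α 52 = false := ff fun y => l4172 h y x58t
  have x53t : α 53 = true := tt fun y => c20 h y x1f x52f
  have x56f : α 56 = false := ff fun y => l3649 h x53t y
  have x61f : α 61 = false := ff fun y => l3778 h x53t y
  have x199t : α 199 = true := tt fun y => c59 h y x56f x1f
  have x54t : α 54 = true := tt fun y => c39 h y x1f x61f
  have x204t : α 204 = true := tt fun y => c101 h x1f x61f y
  have x197f : α 197 = false := ff fun y => l3725 h y x199t
  have x353t : α 353 = true := tt fun y => c2889 h y x249f x197f
  have x237t : α 237 = true := tt fun y => c2885 h x249f x197f y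
  have x91f : α 91 = false := ff fun y => l3615 h y x58t x61f x197f
  have x92t : α 92 = true := tt fun y => c1546 h x249f y x197f x61f
  have x200f : α 200 = false := ff fun y => c1487 h x353t y x237t x58t
  have x97f : α 97 = false := ff fun y => c1400 h x57t x92t x58t y
  have x238f : α 238 = false := ff fun y => c1416 h x57t x92t y
  have x236t : α 236 = true := tt fun y => c97 h x200f y x1f x61f
  have x242t : α 242 = true := tt fun y => c1556 h x61f x97f y
  have x250t : α 250 = true := tt fun y => c1982 h x94f x238f x91f y
  have x547f : α 547 = false := ff fun y => c2076 h y x236t x449t x92t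
  have x201f : α 201 = false := ff fun y => c1414 h x57t x92t y x242t
  have x354f : α 354 = false := ff fun y => c2941 h x204t x250t y
  have x239t : α 239 = true := tt fun y => c2028 h x547f y x443f x91f
  have x352t : α 352 = true := tt fun y => c2907 h x200f y x201f x354f
  c1349 h x239t x352t x54t x204t

theorem l4174 (h : Good α) (x91f : α 91 = false) (x28f : α 28 = false) (x94f : α 94 = false) (x239t : α 239 = true) (x114f : α 114 = false) : False :=
  have x249f : α 249 = false := ff fun y => l4102 h y
  have x58f : α 58 = false := ff fun y => l4173 h y
  have x22t : α 22 = true := tt fun y => c620 h x94f y x28f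
  have x57t : α 57 = true := tt fun y => c1422 h x249f x94f y
  have x62f : α 62 = false := ff fun y => c643 h x57t x22t y
  have x106t : α 106 = true := tt fun y => c1589 h x249f y x62f
  have x20f : α 20 = false := ff fun y => c513 h x106t x22t y
  have x92t : α 92 = true := tt fun y => c521 h y x20f x28f
  have x205t : α 205 = true := tt fun y => c850 h y x62f x28f
  have x85t : α 85 = true := tt fun y => c847 h x62f x28f y
  have x97t : α 97 = true := tt fun y => c1456 h x91f x58f y
  have x54t : α 54 = true := tt fun y => c1309 h x94f y x91f
  have x183t : α 183 = true := tt fun y => c1992 h x114f x91f y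
  have x61f : α 61 = false := ff fun y => c1545 h x92t y x97t
  have x56f : α 56 = false := ff fun y => l4053 h y x54t x61f
  have x63f : α 63 = false := ff fun y => l3536 h y x239t x94f x54t
  have x257f : α 257 = false := ff fun y => c660 h x106t x22t y x183t
  have x59t : α 59 = true := tt fun y => l3669 h y x61f
  have x19t : α 19 = true := tt fun y => l3578 h y x97t x58f x56f
  have x24t : α 24 = true := tt fun y => l3532 h y x63f x54t
  have x487t : α 487 = true := tt fun y => c2034 h x91f x257f y
  have x108f : α 108 = false := ff fun y => l3629 h x24t y x54t
  have x191f : α 191 = false := ff fun y => c737 h x24t x54t y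
  have x312f : α 312 = false := ff fun y => c2950 h x205t y x487t
  have x399f : α 399 = false := ff fun y => c1889 h x205t x85t x487t y
  have x282t : α 282 = true := tt fun y => c870 h x28f x108f y
  have x115t : α 115 = true := tt fun y => c1998 h x191f x91f y
  have x336t : α 336 = true := tt fun y => c2009 h x191f x91f y x257f
  have x189t : α 189 = true := tt fun y => c1484 h x58f y x399f
  have x18f : α 18 = false := ff fun y => c409 h x24t y x115t
  have x340f : α 340 = false := ff fun y => c2183 h x97t x189t y
  have x259t : α 259 = true := tt fun y => c441 h x18f x91f y
  have x30t : α 30 = true := tt fun y => c413 h y x18f x91f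
  have x267t : α 267 = true := tt fun y => c443 h x18f y x91f x340f
  have x478f : α 478 = false := ff fun y => c928 h x30t x282t x259t y
  have x102f : α 102 = false := ff fun y => l3683 h y x267t
  have x260t : α 260 = true := tt fun y => c2246 h x102f y x478f
  have x275f : α 275 = false := ff fun y => l3715 h x260t y
  have x181t : α 181 = true := tt fun y => c2729 h x275f x191f y
  have x423t : α 423 = true := tt fun y => l3548 h x275f y x336t x191f x114f
  have x555f : α 555 = false := ff fun y => c2737 h y x336t x181t
  have x326f : α 326 = false := ff fun y => c1524 h y x59t x423t x189t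
  have x390t : α 390 = true := tt fun y => c3232 h x275f y x555f
  have x549t : α 549 = true := tt fun y => c3253 h x326f x312f x555f y
  have x504f : α 504 = false := ff fun y => c3274 h y x390t x336t
  have x86f : α 86 = false := ff fun y => c491 h y x19t x549t x487t
  c1910 h x504f x275f x86f

theorem l4175 (h : Good α) (x28f : α 28 = false) (x94f : α 94 = false) (x237t : α 237 = true) (x239t : α 239 = true) (x114f : α 114 = false) (x52f : α 52 = false) : False :=
  have x249f : α 249 = false := ff fun y => l4102 h y
  have x58f : α 58 = false := ff fun y => l4173 h y
  have x57t : α 57 = true := tt fun y => c1422 h x249f x94f y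
  have x22t : α 22 = true := tt fun y => c620 h x94f y x28f
  have x62f : α 62 = false := ff fun y => c643 h x57t x22t y
  have x106t : α 106 = true := tt fun y => c1589 h x249f y x62f
  have x306f : α 306 = false := ff fun y => c662 h y x106t x22t
  have x20f : α 20 = false := ff fun y => c513 h x106t x22t y
  have x92t : α 92 = true := tt fun y => c521 h y x20f x28f
  have x238f : α 238 = false := ff fun y => c1416 h x57t x92t y
  have x91t : α 91 = true := tt fun y => l4174 h y x28f x94f x239t x114f
  have x353f : α 353 = false := ff fun y => c2022 h y x239t x237t x91t
  have x197t : α 197 = true := tt fun y => c2889 h x353f x249f y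
  have x326f : α 326 = false := ff fun y => l3726 h x197t y
  have x54f : α 54 = false := ff fun y => l3796 h x197t y
  have x146t : α 146 = true := tt fun y => c1241 h x326f y x52f
  have x59t : α 59 = true := tt fun y => c543 h x306f x20f x326f y
  have x204t : α 204 = true := tt fun y => c1320 h x94f x238f x54f y
  have x195f : α 195 = false := ff fun y => c2547 h x197t x146t y
  have x61f : α 61 = false := ff fun y => l3670 h x59t y
  have x250f : α 250 = false := ff fun y => c2878 h x197t x204t x237t y
  have x1t : α 1 = true := tt fun y => c25 h y x52f x195f
  l3748 h x250f x1t x94f x61f x91t x58f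

theorem l4176 (h : Good α) (x63f : α 63 = false) (x22f : α 22 = false) (x446f : α 446 = false) (x54f : α 54 = false) (x94f : α 94 = false) (x52f : α 52 = false) : False :=
  have x80t : α 80 = true := tt fun y => c634 h y x22f x52f
  have x24t : α 24 = true := tt fun y => c732 h x63f y x54f
  have x68t : α 68 = true := tt fun y => c1221 h x63f y x54f x52f
  have x29f : α 29 = false := ff fun y => c888 h x80t y x68t
  have x107t : α 107 = true := tt fun y => c628 h y x29f x94f x22f
  have x135t : α 135 = true := tt fun y => c629 h y x29f x22f
  have x90t : α 90 = true := tt fun y => c626 h x29f x22f y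
  have x300f : α 300 = false := ff fun y => c751 h y x107t x24t
  have x18f : α 18 = false := ff fun y => c407 h x107t x24t y
  have x207t : α 207 = true := tt fun y => c2952 h x446f x300f y
  have x187t : α 187 = true := tt fun y => c430 h y x54f x18f
  c1966 h x207t x135t x187t x90t

theorem l4177 (h : Good α) (x91t : α 91 = true) (x94f : α 94 = false) (x237t : α 237 = true) (x239t : α 239 = true) (x272t : α 272 = true) (x52f : α 52 = false) : False :=
  have x249f : α 249 = false := ff fun y => l4102 h y
  have x58f : α 58 = false := ff fun y => l4173 h y
  have x114f : α 114 = false := ff fun y => l3695 h y x272t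
  have x28t : α 28 = true := tt fun y => l4175 h y x94f x237t x239t x114f x52f
  have x340f : α 340 = false := ff fun y => l3636 h x28t y
  have x449t : α 449 = true := tt fun y => c2134 h y x249f x94f
  have x57t : α 57 = true := tt fun y => c1422 h x249f x94f y
  have x443f : α 443 = false := ff fun y => c2025 h y x237t x91t
  have x353f : α 353 = false := ff fun y => c2022 h y x239t x237t x91t
  have x197t : α 197 = true := tt fun y => c2889 h x353f x249f y
  have x545t : α 545 = true := tt fun y => c3104 h y x353f x249f
  have x326f : α 326 = false := ff fun y => l3726 h x197t y
  have x351f : α 351 = false := ff fun y => c2888 h x197t x237t y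
  have x54f : α 54 = false := ff fun y => l3796 h x197t y
  have x446f : α 446 = false := ff fun y => c2027 h x545t y x237t x91t
  have x146t : α 146 = true := tt fun y => c1241 h x326f y x52f
  have x233t : α 233 = true := tt fun y => c2121 h x249f x94f x351f y
  have x195f : α 195 = false := ff fun y => c2547 h x197t x146t y
  have x439f : α 439 = false := ff fun y => c2017 h x91t x233t y
  have x1t : α 1 = true := tt fun y => c25 h y x52f x195f
  have x534t : α 534 = true := tt fun y => c2132 h x249f x94f y x439f
  have x200f : α 200 = false := ff fun y => c68 h y x57t x1t
  have x402f : α 402 = false := ff fun y => c72 h x449t x57t y x1t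
  have x406f : α 406 = false := ff fun y => c116 h x197t x1t x534t y
  have x201t : α 201 = true := tt fun y => c2905 h x353f x200f x351f y
  have x543t : α 543 = true := tt fun y => c3346 h x402f x443f y
  have x312t : α 312 = true := tt fun y => c3252 h x402f x326f y
  have x447t : α 447 = true := tt fun y => c3355 h x439f x406f y
  have x242f : α 242 = false := ff fun y => c2920 h x233t x201t y
  have x61t : α 61 = true := tt fun y => l3556 h x54f x543t x1t y
  have x205f : α 205 = false := ff fun y => l3635 h x312t x28t y
  have x97f : α 97 = false := ff fun y => c2192 h x237t y x534t x447t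
  have x59f : α 59 = false := ff fun y => l3670 h y x61t
  have x53f : α 53 = false := ff fun y => l3778 h y x61t
  have x92f : α 92 = false := ff fun y => c64 h x57t y x1t x61t
  have x204f : α 204 = false := ff fun y => c102 h x1t x61t y
  have x106t : α 106 = true := tt fun y => c2102 h x94f y x205f
  have x250t : α 250 = true := tt fun y => c1468 h x58f x97f y
  have x189t : α 189 = true := tt fun y => c2182 h x97f y x340f
  have x157t : α 157 = true := tt fun y => c1227 h x52f x59f y
  have x56t : α 56 = true := tt fun y => l3648 h x53f y
  have x334t : α 334 = true := tt fun y => l3705 h x204f y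
  have x333f : α 333 = false := ff fun y => c1568 h x61t x157t y
  have x117f : α 117 = false := ff fun y => c2275 h x106t y x146t x157t
  have x188f : α 188 = false := ff fun y => l3666 h y x272t x56t
  have x299f : α 299 = false := ff fun y => c2284 h x106t y x146t x334t
  have x184t : α 184 = true := tt fun y => c2056 h y x92f x117f
  have x223t : α 223 = true := tt fun y => c2058 h x92f x117f y
  have x341t : α 341 = true := tt fun y => c2117 h y x188f x94f
  have x22f : α 22 = false := ff fun y => c647 h x184t x57t y
  have x183t : α 183 = true := tt fun y => c637 h x22f x52f y
  have x80t : α 80 = true := tt fun y => c634 h y x22f x52f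
  have x273f : α 273 = false := ff fun y => c2751 h x183t x189t y
  have x23t : α 23 = true := tt fun y => c706 h y x97f x273f
  have x506t : α 506 = true := tt fun y => c2202 h x97f x273f y
  have x430t : α 430 = true := tt fun y => c2429 h x117f x299f x273f y
  have x113f : α 113 = false := ff fun y => c2370 h y x250t x430t
  have x180t : α 180 = true := tt fun y => l3690 h x113f y
  have x264t : α 264 = true := tt fun y => l3691 h x113f y
  have x81f : α 81 = false := ff fun y => c1839 h x184t x264t y x180t
  have x11t : α 11 = true := tt fun y => c212 h y x81f x242f
  have x70f : α 70 = false := ff fun y => c210 h x11t y x233t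
  have x158t : α 158 = true := tt fun y => c1679 h y x70f x81f
  have x378f : α 378 = false := ff fun y => c2669 h x158t x233t y
  have x63t : α 63 = true := tt fun y => l4176 h y x22f x446f x54f x94f x52f
  have x107f : α 107 = false := ff fun y => c1607 h x239t y x63t
  have x187t : α 187 = true := tt fun y => c2105 h x107f x94f y
  have x207t : α 207 = true := tt fun y => c2107 h y x107f x94f
  have x29t : α 29 = true := tt fun y => c628 h x107f y x94f x22f
  have x30f : α 30 = false := ff fun y => c915 h x207t x63t y
  have x68f : α 68 = false := ff fun y => c888 h x80t x29t y
  have x24t : α 24 = true := tt fun y => c725 h x94f y x30f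
  have x16t : α 16 = true := tt fun y => c342 h x68f y x52f
  have x95f : α 95 = false := ff fun y => c335 h x29t x16t y
  have x247t : α 247 = true := tt fun y => c1240 h x52f x95f y
  have x90t : α 90 = true := tt fun y => c1233 h y x52f x95f
  have x93t : α 93 = true := tt fun y => c1219 h x53f y x52f x95f
  have x32f : α 32 = false := ff fun y => c675 h x93t x23t y
  have x570f : α 570 = false := ff fun y => c704 h x93t y x23t x506t
  have x73t : α 73 = true := tt fun y => c950 h y x32f x81f
  have x228t : α 228 = true := tt fun y => c951 h x32f x81f y
  have x339t : α 339 = true := tt fun y => c952 h x32f x81f y x378f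
  have x144t : α 144 = true := tt fun y => c2536 h y x333f x570f
  have x119f : α 119 = false := ff fun y => c2091 h x93t y x228t
  have x181f : α 181 = false := ff fun y => c1971 h x90t y x339t
  have x270f : α 270 = false := ff fun y => c2534 h x341t x223t y x144t
  have x96f : α 96 = false := ff fun y => c2165 h x184t x223t y x144t
  have x252t : α 252 = true := tt fun y => c1834 h y x119f x81f
  have x384t : α 384 = true := tt fun y => c1253 h x52f x181f y
  have x191t : α 191 = true := tt fun y => c1223 h x54f x52f y x181f
  have x248t : α 248 = true := tt fun y => c1276 h y x96f x53f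
  have x21t : α 21 = true := tt fun y => c609 h x270f x96f y
  have x203f : α 203 = false := ff fun y => c2934 h x252t y x247t
  have x381f : α 381 = false := ff fun y => c327 h x24t x16t y x384t
  have x193f : α 193 = false := ff fun y => c1742 h x73t y x384t
  have x502f : α 502 = false := ff fun y => c1743 h x73t x228t x384t y
  have x338f : α 338 = false := ff fun y => c2011 h y x191t x91t
  have x110f : α 110 = false := ff fun y => c1739 h x248t y x73t
  have x190f : α 190 = false := ff fun y => c601 h x21t x61t y
  have x25f : α 25 = false := ff fun y => c584 h x187t x21t x191t y
  have x37f : α 37 = false := ff fun y => c593 h x21t y x144t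
  have x151t : α 151 = true := tt fun y => c2600 h x338f y x381f x193f
  have x265t : α 265 = true := tt fun y => c2154 h x95f y x502f
  have x258t : α 258 = true := tt fun y => c655 h x94f x22f x338f y
  have x42t : α 42 = true := tt fun y => c1046 h x96f x37f x110f y
  have x343t : α 343 = true := tt fun y => c2184 h y x190f x97f
  have x31t : α 31 = true := tt fun y => c766 h y x25f x97f
  have x288t : α 288 = true := tt fun y => c1060 h y x117f x37f
  have x156f : α 156 = false := ff fun y => c2599 h x151t y x258t x265t
  have x322t : α 322 = true := tt fun y => c2647 h y x203f x156f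
  have x262f : α 262 = false := ff fun y => c936 h y x288t x31t x42t
  have x416f : α 416 = false := ff fun y => c1431 h x184t y x57t x322t
  have x192t : α 192 = true := tt fun y => c2829 h x262f y x190f
  have x556t : α 556 = true := tt fun y => c1845 h x416f y x81f x242f
  c2858 h x192t x343t x556t

theorem l4178 (h : Good α) (x68f : α 68 = false) (x63f : α 63 = false) : False :=
  have x167t : α 167 = true := tt fun y => c1595 h x63f x68f y
  have x175t : α 175 = true := tt fun y => c1597 h y x63f x68f
  l3714 h x167t x175t

theorem l4179 (h : Good α) (x167f : α 167 = false) (x269f : α 269 = false) (x386t : α 386 = true) (x36t : α 36 = true) (x267t : α 267 = true) (x30t : α 30 = true) (x113f : α 113 = false) (x120f : α 120 = false) (x24t : α 24 = true) (x91f : α 91 = false) (x28t : α 28 = true) (x10f : α 10 = false) (x239t : α 239 = true) (x272t : α 272 = true) : False :=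
  have x4f : α 4 = false := ff fun y => l3616 h y x36t
  have x464f : α 464 = false := ff fun y => l3722 h x267t y
  have x264t : α 264 = true := tt fun y => l3691 h x113f y
  have x340f : α 340 = false := ff fun y => l3636 h x28t y
  have x40t : α 40 = true := tt fun y => c183 h x10f y x167f
  have x282t : α 282 = true := tt fun y => c2690 h x167f y x464f
  have x286f : α 286 = false := ff fun y => c839 h y x40t x272t x28t
  have x476f : α 476 = false := ff fun y => c878 h x264t y x28t x282t
  have x41f : α 41 = false := ff fun y => c1016 h y x282t x36t x267t
  have x359f : α 359 = false := ff fun y => c3194 h y x282t x267t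
  have x88t : α 88 = true := tt fun y => c1928 h x286f x269f x120f y
  have x256t : α 256 = true := tt fun y => c2372 h x476f y x113f
  have x474t : α 474 = true := tt fun y => c135 h x41f x476f x4f y
  have x124t : α 124 = true := tt fun y => c2003 h y x359f x91f x340f
  have x100f : α 100 = false := ff fun y => c724 h x88t y x24t x30t
  have x302f : α 302 = false := ff fun y => c2483 h x386t y x239t x124t
  have x72t : α 72 = true := tt fun y => c132 h x41f x100f x4f y
  have x15t : α 15 = true := tt fun y => c306 h x302f x100f y
  have x235t : α 235 = true := tt fun y => c3009 h x269f y x302f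
  have x575f : α 575 = false := ff fun y => c1732 h x235t y x72t x474t
  have x337f : α 337 = false := ff fun y => c300 h x88t y x15t x256t
  l3713 h x337f x575f

theorem l4180 (h : Good α) (x175f : α 175 = false) (x257f : α 257 = false) (x242f : α 242 = false) (x264t : α 264 = true) (x180t : α 180 = true) (x191f : α 191 = false) (x108f : α 108 = false) (x24t : α 24 = true) (x59t : α 59 = true) (x92t : α 92 = true) (x63f : α 63 = false) (x56f : α 56 = false) (x91f : α 91 = false) (x114f : α 114 = false) : False :=
  have x58f : α 58 = false := ff fun y => l4173 h y
  have x115t : α 115 = true := tt fun y => c1998 h x191f x91f y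
  have x18f : α 18 = false := ff fun y => c409 h x24t y x115t
  have x36t : α 36 = true := tt fun y => c419 h y x18f x114f x91f
  have x4f : α 4 = false := ff fun y => l3616 h y x36t
  have x97t : α 97 = true := tt fun y => c1456 h x91f x58f y
  have x19t : α 19 = true := tt fun y => l3578 h y x97t x58f x56f
  have x275t : α 275 = true := tt fun y => c1613 h x175f x63f y x191f
  have x41t : α 41 = true := tt fun y => c133 h x175f y x4f
  have x467f : α 467 = false := ff fun y => l3735 h x275t y
  have x260f : α 260 = false := ff fun y => l3715 h y x275t
  have x381f : α 381 = false := ff fun y => l3550 h x257f y x41t x260f x242f x92t x191f x108f x24t x114f x19t x264t x180t x97t x91f x56f x59t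
  c1615 h x175f x63f x467f x381f

theorem l4181 (h : Good α) (x94f : α 94 = false) (x237t : α 237 = true) (x10f : α 10 = false) (x239t : α 239 = true) (x272t : α 272 = true) (x52f : α 52 = false) : False :=
  have x58f : α 58 = false := ff fun y => l4173 h y
  have x249f : α 249 = false := ff fun y => l4102 h y
  have x114f : α 114 = false := ff fun y => l3695 h y x272t
  have x57t : α 57 = true := tt fun y => c1422 h x249f x94f y
  have x449t : α 449 = true := tt fun y => c2134 h y x249f x94f
  have x28t : α 28 = true := tt fun y => l4175 h y x94f x237t x239t x114f x52f
  have x340f : α 340 = false := ff fun y => l3636 h x28t y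
  have x91f : α 91 = false := ff fun y => l4177 h y x94f x237t x239t x272t x52f
  have x97t : α 97 = true := tt fun y => c1456 h x91f x58f y
  have x54t : α 54 = true := tt fun y => c1309 h x94f y x91f
  have x183t : α 183 = true := tt fun y => c1992 h x114f x91f y
  have x197f : α 197 = false := ff fun y => l3796 h y x54t
  have x61f : α 61 = false := ff fun y => l3870 h y x54t
  have x56f : α 56 = false := ff fun y => l4053 h y x54t x61f
  have x63f : α 63 = false := ff fun y => l3536 h y x239t x94f x54t
  have x353t : α 353 = true := tt fun y => c2889 h y x249f x197f
  have x92t : α 92 = true := tt fun y => c1546 h x249f y x197f x61f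
  have x59t : α 59 = true := tt fun y => l3669 h y x61f
  have x325t : α 325 = true := tt fun y => l3677 h x61f y
  have x24t : α 24 = true := tt fun y => l3532 h y x63f x54t
  have x200f : α 200 = false := ff fun y => c2914 h x353t x239t y
  have x238f : α 238 = false := ff fun y => c1416 h x57t x92t y
  have x443f : α 443 = false := ff fun y => c2049 h x449t x92t y x97t
  have x108f : α 108 = false := ff fun y => l3629 h x24t y x54t
  have x120f : α 120 = false := ff fun y => l3630 h x24t y x54t
  have x191f : α 191 = false := ff fun y => c737 h x24t x54t y
  have x250t : α 250 = true := tt fun y => c1982 h x94f x238f x91f y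
  have x204t : α 204 = true := tt fun y => c2879 h x249f x238f x197f y
  have x115t : α 115 = true := tt fun y => c1998 h x191f x91f y
  have x354f : α 354 = false := ff fun y => c2941 h x204t x250t y
  have x450f : α 450 = false := ff fun y => c2200 h x97t x250t y
  have x113f : α 113 = false := ff fun y => l3533 h y x97t x250t x58f x56f
  have x352f : α 352 = false := ff fun y => c1349 h x239t y x54t x204t
  have x18f : α 18 = false := ff fun y => c409 h x24t y x115t
  have x201t : α 201 = true := tt fun y => c2907 h x200f x352f y x354f
  have x180t : α 180 = true := tt fun y => l3690 h x113f y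
  have x264t : α 264 = true := tt fun y => l3691 h x113f y
  have x236t : α 236 = true := tt fun y => c2911 h x200f y x352f
  have x30t : α 30 = true := tt fun y => c413 h y x18f x91f
  have x267t : α 267 = true := tt fun y => c443 h x18f y x91f x340f
  have x36t : α 36 = true := tt fun y => c419 h y x18f x114f x91f
  have x242f : α 242 = false := ff fun y => c1414 h x57t x92t x201t y
  have x386t : α 386 = true := tt fun y => l3501 h y x236t x200f x56f
  have x464f : α 464 = false := ff fun y => l3722 h x267t y
  have x351t : α 351 = true := tt fun y => c1577 h x197f x61f y x242f
  have x233f : α 233 = false := ff fun y => c2992 h x353t x239t x351t y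
  have x543t : α 543 = true := tt fun y => c2018 h x443f x91f y x233f
  have x1f : α 1 = false := ff fun y => l3582 h x543t y x61f
  have x195t : α 195 = true := tt fun y => c25 h x1f x52f y
  have x409t : α 409 = true := tt fun y => c85 h x1f y x58f x450f
  have x62f : α 62 = false := ff fun y => l3633 h x195t x28t y
  have x335f : α 335 = false := ff fun y => c3261 h x325t y x409t
  have x106t : α 106 = true := tt fun y => c1589 h x249f y x62f
  have x542t : α 542 = true := tt fun y => l3712 h x335f y
  have x307t : α 307 = true := tt fun y => l3693 h y x113f x335f
  have x334f : α 334 = false := ff fun y => c3271 h x542t x409t y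
  have x273f : α 273 = false := ff fun y => c3110 h x307t x250t y
  have x257f : α 257 = false := ff fun y => l3552 h y x273f x334f x106t x183t x52f
  have x175t : α 175 = true := tt fun y => l4180 h y x257f x242f x264t x180t x191f x108f x24t x59t x92t x63f x56f x91f x114f
  have x167f : α 167 = false := ff fun y => l3714 h y x175t
  have x282t : α 282 = true := tt fun y => c2690 h x167f y x464f
  have x269t : α 269 = true := tt fun y => l4179 h x167f y x386t x36t x267t x30t x113f x120f x24t x91f x28t x10f x239t x272t
  have x359f : α 359 = false := ff fun y => c3194 h y x282t x267t
  have x235f : α 235 = false := ff fun y => c3011 h x386t x269t y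
  have x107f : α 107 = false := ff fun y => c2302 h x386t x269t x239t y
  have x124t : α 124 = true := tt fun y => c2003 h y x359f x91f x340f
  have x302t : α 302 = true := tt fun y => l3537 h x235f y x107f x30t x24t x63f x56f
  c2483 h x386t x302t x239t x124t

theorem l4182 (h : Good α) (x53t : α 53 = true) (x91f : α 91 = false) (x94t : α 94 = true) (x239t : α 239 = true) (x272t : α 272 = true) : False :=
  have x249f : α 249 = false := ff fun y => l4102 h y
  have x58f : α 58 = false := ff fun y => l4173 h y
  have x54f : α 54 = false := ff fun y => c1323 h x239t x94t y
  have x1t : α 1 = true := tt fun y => c37 h x54f y x91f x58f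
  have x233t : α 233 = true := tt fun y => c1314 h x54f x91f y
  have x61f : α 61 = false := ff fun y => l3778 h x53t y
  have x57t : α 57 = true := tt fun y => l3462 h x272t x94t y x53t
  have x196f : α 196 = false := ff fun y => c32 h y x53t x1t
  have x92f : α 92 = false := ff fun y => c1410 h x94t x57t y
  have x200f : α 200 = false := ff fun y => c1419 h x239t y x94t x57t
  have x201f : α 201 = false := ff fun y => c1421 h x94t x57t x233t y
  have x204t : α 204 = true := tt fun y => l3702 h x196f y
  have x197t : α 197 = true := tt fun y => c1546 h x249f x92f y x61f
  l3474 h x197t x200f x204t x201f x58f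

theorem l4183 (h : Good α) (x454t : α 454 = true) (x384t : α 384 = true) (x102f : α 102 = false) (x191t : α 191 = true) (x18t : α 18 = true) (x109f : α 109 = false) (x107f : α 107 = false) (x29f : α 29 = false) (x30f : α 30 = false) (x94t : α 94 = true) (x239t : α 239 = true) (x272t : α 272 = true) : False :=
  have x58f : α 58 = false := ff fun y => l4173 h y
  have x40t : α 40 = true := tt fun y => c883 h x107f x29f y
  have x286t : α 286 = true := tt fun y => c899 h y x107f x29f
  have x28f : α 28 = false := ff fun y => c839 h x286t x40t x272t y
  have x278t : α 278 = true := tt fun y => c865 h x28f x102f y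
  have x22f : α 22 = false := ff fun y => c657 h x272t x94t y
  have x90t : α 90 = true := tt fun y => c626 h x29f x22f y
  have x54f : α 54 = false := ff fun y => c1323 h x239t x94t y
  have x260f : α 260 = false := ff fun y => l3721 h y x454t
  have x170f : α 170 = false := ff fun y => c2696 h y x278t x454t
  have x478t : α 478 = true := tt fun y => c2246 h x102f x260f y
  have x512f : α 512 = false := ff fun y => c3383 h y x454t x478t
  have x496t : α 496 = true := tt fun y => c625 h x22f x28f y x512f
  have x258f : α 258 = false := ff fun y => c1979 h x90t y x496t
  have x339f : α 339 = false := ff fun y => c3283 h x496t x384t y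
  have x338t : α 338 = true := tt fun y => c898 h x107f x29f y x258f
  have x259t : α 259 = true := tt fun y => c923 h x30f x109f y x339f
  have x91f : α 91 = false := ff fun y => c2011 h x338t x191t y
  have x267f : α 267 = false := ff fun y => c459 h x18t y x259t x478t
  have x97t : α 97 = true := tt fun y => c1456 h x91f x58f y
  have x1t : α 1 = true := tt fun y => c37 h x54f y x91f x58f
  have x53f : α 53 = false := ff fun y => l4182 h y x91f x94t x239t x272t
  have x56t : α 56 = true := tt fun y => l3648 h x53f y
  have x59f : α 59 = false := ff fun y => c57 h x56t x1t y
  have x61t : α 61 = true := tt fun y => l3669 h x59f y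
  have x190f : α 190 = false := ff fun y => l3738 h y x61t x97t
  have x21t : α 21 = true := tt fun y => c614 h y x190f x102f x267f
  have x78t : α 78 = true := tt fun y => c1797 h y x190f x170f x267f
  c597 h x78t x21t x61t

theorem l4184 (h : Good α) (x91f : α 91 = false) (x175f : α 175 = false) (x108f : α 108 = false) (x28f : α 28 = false) (x68t : α 68 = true) (x63f : α 63 = false) (x94t : α 94 = true) (x239t : α 239 = true) (x272t : α 272 = true) : False :=
  have x58f : α 58 = false := ff fun y => l4173 h y
  have x54f : α 54 = false := ff fun y => c1323 h x239t x94t y
  have x97t : α 97 = true := tt fun y => c1456 h x91f x58f y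
  have x1t : α 1 = true := tt fun y => c37 h x54f y x91f x58f
  have x53f : α 53 = false := ff fun y => l4182 h y x91f x94t x239t x272t
  have x56t : α 56 = true := tt fun y => l3648 h x53f y
  have x59f : α 59 = false := ff fun y => c57 h x56t x1t y
  have x61t : α 61 = true := tt fun y => l3669 h x59f y
  have x92f : α 92 = false := ff fun y => c1545 h y x61t x97t
  have x192t : α 192 = true := tt fun y => c857 h x92f y x28f x108f
  have x382f : α 382 = false := ff fun y => c1574 h y x192t x61t
  have x194t : α 194 = true := tt fun y => c1616 h x63f y x382f
  have x235f : α 235 = false := ff fun y => c58 h y x194t x56t x1t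
  have x389f : α 389 = false := ff fun y => c1668 h y x194t x68t
  c2705 h x175f x235f x389f

theorem l4185 (h : Good α) (x63f : α 63 = false) (x94t : α 94 = true) (x239t : α 239 = true) (x272t : α 272 = true) (x52f : α 52 = false) : False :=
  have x22f : α 22 = false := ff fun y => c657 h x272t x94t y
  have x80t : α 80 = true := tt fun y => c634 h y x22f x52f
  have x183t : α 183 = true := tt fun y => c637 h x22f x52f y
  have x54f : α 54 = false := ff fun y => c1323 h x239t x94t y
  have x505f : α 505 = false := ff fun y => c2141 h y x272t x94t
  have x346f : α 346 = false := ff fun y => l3740 h x272t y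
  have x24t : α 24 = true := tt fun y => c732 h x63f y x54f
  have x68t : α 68 = true := tt fun y => c1221 h x63f y x54f x52f
  have x30f : α 30 = false := ff fun y => c726 h x94t x24t y
  have x271f : α 271 = false := ff fun y => c748 h y x94t x24t
  have x29f : α 29 = false := ff fun y => c888 h x80t y x68t
  have x207t : α 207 = true := tt fun y => c914 h y x63f x30f
  have x135t : α 135 = true := tt fun y => c629 h y x29f x22f
  have x90t : α 90 = true := tt fun y => c626 h x29f x22f y
  have x521t : α 521 = true := tt fun y => c632 h y x29f x505f x22f
  have x107f : α 107 = false := ff fun y => c2108 h x207t y x94t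
  have x109f : α 109 = false := ff fun y => c1659 h x135t x68t y
  have x187f : α 187 = false := ff fun y => c1966 h x207t x135t y x90t
  have x124t : α 124 = true := tt fun y => c1603 h x107f x63f y
  have x40t : α 40 = true := tt fun y => c883 h x107f x29f y
  have x286t : α 286 = true := tt fun y => c899 h y x107f x29f
  have x16t : α 16 = true := tt fun y => c314 h x22f y x109f
  have x18t : α 18 = true := tt fun y => c430 h x187f x54f y
  have x567t : α 567 = true := tt fun y => c2807 h y x346f x187f
  have x191t : α 191 = true := tt fun y => c2795 h x271f x187f y
  have x28f : α 28 = false := ff fun y => c839 h x286t x40t x272t y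
  have x108f : α 108 = false := ff fun y => c323 h x24t x16t y
  have x102f : α 102 = false := ff fun y => c1094 h x521t x40t x567t y
  have x181f : α 181 = false := ff fun y => c326 h x24t x16t x191t y
  have x384t : α 384 = true := tt fun y => c1253 h x52f x181f y
  have x381f : α 381 = false := ff fun y => c327 h x24t x16t y x384t
  have x454f : α 454 = false := ff fun y => l4183 h y x384t x102f x191t x18t x109f x107f x29f x30f x94t x239t x272t
  have x167t : α 167 = true := tt fun y => c1611 h x63f y x381f x454f
  have x175f : α 175 = false := ff fun y => l3714 h x167t y
  have x91t : α 91 = true := tt fun y => l4184 h y x175f x108f x28f x68t x63f x94t x239t x272t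
  have x215f : α 215 = false := ff fun y => c2002 h x124t y x91t x183t
  have x95f : α 95 = false := ff fun y => c440 h x18t y x91t x183t
  c2145 h x215f x109f x95f

theorem l4186 (h : Good α) (x56t : α 56 = true) (x260f : α 260 = false) (x28f : α 28 = false) (x108f : α 108 = false) (x1t : α 1 = true) (x197t : α 197 = true) (x340f : α 340 = false) (x91t : α 91 = true) (x94t : α 94 = true) (x237t : α 237 = true) (x272t : α 272 = true) : False :=
  have x58f : α 58 = false := ff fun y => l4173 h y
  have x22f : α 22 = false := ff fun y => c657 h x272t x94t y
  have x128t : α 128 = true := tt fun y => c622 h x22f x28f y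
  have x53f : α 53 = false := ff fun y => l3649 h y x56t
  have x59f : α 59 = false := ff fun y => c57 h x56t x1t y
  have x335t : α 335 = true := tt fun y => l3653 h x53f y
  have x61t : α 61 = true := tt fun y => l3669 h x59f y
  have x424f : α 424 = false := ff fun y => l3731 h y x335t x272t
  have x97f : α 97 = false := ff fun y => c1554 h x197t x61t x237t y
  have x250t : α 250 = true := tt fun y => c1468 h x58f x97f y
  have x25t : α 25 = true := tt fun y => c784 h y x97f x260f x340f
  have x238f : α 238 = false := ff fun y => c1983 h x94t y x91t x250t
  have x192f : α 192 = false := ff fun y => c777 h y x61t x25t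
  have x117t : α 117 = true := tt fun y => c2427 h x424f x238f y
  have x92t : α 92 = true := tt fun y => c857 h y x192f x28f x108f
  l4039 h x117t x128t x28f x92t

theorem l4187 (h : Good α) (x191t : α 191 = true) (x28f : α 28 = false) (x24t : α 24 = true) (x167t : α 167 = true) (x197t : α 197 = true) (x91t : α 91 = true) (x63t : α 63 = true) (x54f : α 54 = false) (x94t : α 94 = true) (x237t : α 237 = true) (x272t : α 272 = true) (x52f : α 52 = false) : False :=
  have x58f : α 58 = false := ff fun y => l4173 h y
  have x68f : α 68 = false := ff fun y => c1596 h x63t y x167t
  have x16t : α 16 = true := tt fun y => c342 h x68f y x52f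
  have x108f : α 108 = false := ff fun y => l3686 h y x167t
  have x326f : α 326 = false := ff fun y => l3726 h x197t y
  have x146t : α 146 = true := tt fun y => c1241 h x326f y x52f
  have x195f : α 195 = false := ff fun y => c2547 h x197t x146t y
  have x1t : α 1 = true := tt fun y => c25 h y x52f x195f
  have x22f : α 22 = false := ff fun y => c657 h x272t x94t y
  have x183t : α 183 = true := tt fun y => c637 h x22f x52f y
  have x340f : α 340 = false := ff fun y => c2007 h x91t x183t y
  have x443f : α 443 = false := ff fun y => c2025 h y x237t x91t
  have x181f : α 181 = false := ff fun y => c326 h x24t x16t x191t y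
  have x338f : α 338 = false := ff fun y => c2011 h y x191t x91t
  have x260f : α 260 = false := ff fun y => c1610 h x63t x167t x191t y
  have x384t : α 384 = true := tt fun y => c1253 h x52f x181f y
  have x381f : α 381 = false := ff fun y => c327 h x24t x16t y x384t
  have x489t : α 489 = true := tt fun y => c3277 h x338f x381f y
  have x259f : α 259 = false := ff fun y => c2039 h x91t y x489t
  have x233t : α 233 = true := tt fun y => c2997 h x381f x259f y
  have x56f : α 56 = false := ff fun y => l4186 h y x260f x28f x108f x1t x197t x340f x91t x94t x237t x272t
  have x53t : α 53 = true := tt fun y => l3648 h y x56f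
  have x61f : α 61 = false := ff fun y => l3778 h x53t y
  have x57t : α 57 = true := tt fun y => l3462 h x272t x94t y x53t
  have x543f : α 543 = false := ff fun y => l3556 h x54f y x1t x61f
  have x201f : α 201 = false := ff fun y => c1421 h x94t x57t x233t y
  c1493 h x443f x58f x543f x201f

theorem l4188 (h : Good α) (x191f : α 191 = false) (x24t : α 24 = true) (x120f : α 120 = false) (x68f : α 68 = false) (x108f : α 108 = false) (x175f : α 175 = false) (x91t : α 91 = true) (x183t : α 183 = true) (x54f : α 54 = false) (x505f : α 505 = false) (x94t : α 94 = true) (x52f : α 52 = false) : False :=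
  have x271f : α 271 = false := ff fun y => c748 h y x94t x24t
  have x16t : α 16 = true := tt fun y => c342 h x68f y x52f
  have x381t : α 381 = true := tt fun y => c1338 h x54f x191f y
  have x181t : α 181 = true := tt fun y => c1223 h x54f x52f x191f y
  have x187t : α 187 = true := tt fun y => c2795 h x271f y x191f
  have x384f : α 384 = false := ff fun y => c327 h x24t x16t x381t y
  have x258f : α 258 = false := ff fun y => c2723 h y x181t x183t
  have x338f : α 338 = false := ff fun y => c2114 h x94t x187t y
  have x467t : α 467 = true := tt fun y => c1666 h x175f x68f y x384f
  have x560t : α 560 = true := tt fun y => c3151 h x258f x384f y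
  have x477t : α 477 = true := tt fun y => c3149 h y x338f x258f
  have x275f : α 275 = false := ff fun y => l3735 h y x467t
  have x489f : α 489 = false := ff fun y => c2008 h x91t x183t y x560t
  have x518f : α 518 = false := ff fun y => c3398 h x477t x467t y
  have x260t : α 260 = true := tt fun y => c2312 h x120f x108f x275f y
  have x425t : α 425 = true := tt fun y => c2845 h y x275f x191f
  have x585t : α 585 = true := tt fun y => c3403 h y x518f x489f
  have x328f : α 328 = false := ff fun y => l3720 h x425t x260t y
  have x222f : α 222 = false := ff fun y => c2753 h y x183t x585t x560t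
  c2973 h x505f x328f x222f

theorem l4189 (h : Good α) (x24t : α 24 = true) (x167t : α 167 = true) (x197t : α 197 = true) (x91t : α 91 = true) (x107f : α 107 = false) (x63t : α 63 = true) (x54f : α 54 = false) (x94t : α 94 = true) (x237t : α 237 = true) (x272t : α 272 = true) (x52f : α 52 = false) : False :=
  have x175f : α 175 = false := ff fun y => l3714 h x167t y
  have x459f : α 459 = false := ff fun y => l3732 h x272t y
  have x286t : α 286 = true := tt fun y => c2707 h x459f y x175f
  have x369f : α 369 = false := ff fun y => c3212 h y x286t x272t
  have x41t : α 41 = true := tt fun y => c1117 h x369f x175f y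
  have x120f : α 120 = false := ff fun y => c1115 h x272t y x41t
  have x68f : α 68 = false := ff fun y => c1596 h x63t y x167t
  have x16t : α 16 = true := tt fun y => c342 h x68f y x52f
  have x108f : α 108 = false := ff fun y => l3686 h y x167t
  have x22f : α 22 = false := ff fun y => c657 h x272t x94t y
  have x183t : α 183 = true := tt fun y => c637 h x22f x52f y
  have x340f : α 340 = false := ff fun y => c2007 h x91t x183t y
  have x505f : α 505 = false := ff fun y => c2141 h y x272t x94t
  have x346f : α 346 = false := ff fun y => l3740 h x272t y
  have x191t : α 191 = true := tt fun y => l4188 h y x24t x120f x68f x108f x175f x91t x183t x54f x505f x94t x52f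
  have x181f : α 181 = false := ff fun y => c326 h x24t x16t x191t y
  have x338f : α 338 = false := ff fun y => c2011 h y x191t x91t
  have x260f : α 260 = false := ff fun y => c1610 h x63t x167t x191t y
  have x28t : α 28 = true := tt fun y => l4187 h x191t y x24t x167t x197t x91t x63t x54f x94t x237t x272t x52f
  have x384t : α 384 = true := tt fun y => c1253 h x52f x181f y
  have x278t : α 278 = true := tt fun y => c3161 h y x260f x340f
  have x40f : α 40 = false := ff fun y => c839 h x286t y x272t x28t
  have x381f : α 381 = false := ff fun y => c327 h x24t x16t y x384t
  have x477f : α 477 = false := ff fun y => c880 h x272t x28t y x278t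
  have x29t : α 29 = true := tt fun y => c883 h x107f y x40f
  have x489t : α 489 = true := tt fun y => c3277 h x338f x381f y
  have x258t : α 258 = true := tt fun y => c3149 h x477f x338f y
  have x187t : α 187 = true := tt fun y => c2805 h x346f y x477f x338f
  have x95f : α 95 = false := ff fun y => c335 h x29t x16t y
  have x259f : α 259 = false := ff fun y => c2039 h x91t y x489t
  have x358f : α 358 = false := ff fun y => c3148 h x258t x278t y
  have x90t : α 90 = true := tt fun y => c1233 h y x52f x95f
  have x551t : α 551 = true := tt fun y => c3158 h y x381f x259f
  have x214t : α 214 = true := tt fun y => c2967 h x346f y x477f x358f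
  have x496f : α 496 = false := ff fun y => c1979 h x90t x258t y
  have x128f : α 128 = false := ff fun y => c2110 h x94t y x187t x214t
  have x584f : α 584 = false := ff fun y => c2799 h x187t x214t x551t y
  c670 h x22f x128f x496f x584f

theorem l4190 (h : Good α) (x53t : α 53 = true) (x1t : α 1 = true) (x351f : α 351 = false) (x443f : α 443 = false) (x54f : α 54 = false) (x94t : α 94 = true) (x272t : α 272 = true) : False :=
  have x58f : α 58 = false := ff fun y => l4173 h y
  have x61f : α 61 = false := ff fun y => l3778 h x53t y
  have x57t : α 57 = true := tt fun y => l3462 h x272t x94t y x53t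
  have x543f : α 543 = false := ff fun y => l3556 h x54f y x1t x61f
  have x233t : α 233 = true := tt fun y => c3000 h x543f x351f y
  have x201t : α 201 = true := tt fun y => c1493 h x443f x58f x543f y
  c1421 h x94t x57t x233t x201t

theorem l4191 (h : Good α) (x167t : α 167 = true) (x197t : α 197 = true) (x91t : α 91 = true) (x107f : α 107 = false) (x63t : α 63 = true) (x54f : α 54 = false) (x94t : α 94 = true) (x237t : α 237 = true) (x272t : α 272 = true) (x52f : α 52 = false) : False :=
  have x58f : α 58 = false := ff fun y => l4173 h y
  have x326f : α 326 = false := ff fun y => l3726 h x197t y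
  have x146t : α 146 = true := tt fun y => c1241 h x326f y x52f
  have x195f : α 195 = false := ff fun y => c2547 h x197t x146t y
  have x1t : α 1 = true := tt fun y => c25 h y x52f x195f
  have x443f : α 443 = false := ff fun y => c2025 h y x237t x91t
  have x351f : α 351 = false := ff fun y => c2888 h x197t x237t y
  have x53f : α 53 = false := ff fun y => l4190 h y x1t x351f x443f x54f x94t x272t
  have x56t : α 56 = true := tt fun y => l3648 h x53f y
  have x59f : α 59 = false := ff fun y => c57 h x56t x1t y
  have x61t : α 61 = true := tt fun y => l3669 h x59f y
  have x97f : α 97 = false := ff fun y => c1554 h x197t x61t x237t y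
  have x250t : α 250 = true := tt fun y => c1468 h x58f x97f y
  have x114f : α 114 = false := ff fun y => l3695 h y x272t
  have x257f : α 257 = false := ff fun y => l3577 h y x237t x114f x91t
  have x157t : α 157 = true := tt fun y => c1227 h x52f x59f y
  have x335t : α 335 = true := tt fun y => l3653 h x53f y
  have x424f : α 424 = false := ff fun y => l3731 h y x335t x272t
  have x238f : α 238 = false := ff fun y => c1983 h x94t y x91t x250t
  have x117t : α 117 = true := tt fun y => c2427 h x424f x238f y
  have x106f : α 106 = false := ff fun y => c2275 h y x117t x146t x157t
  have x22f : α 22 = false := ff fun y => c657 h x272t x94t y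
  have x20t : α 20 = true := tt fun y => c510 h x22f y x52f x59f
  have x299f : α 299 = false := ff fun y => c571 h x20t x117t y
  have x430t : α 430 = true := tt fun y => c2291 h x106f x299f x257f y
  have x113f : α 113 = false := ff fun y => c2370 h y x250t x430t
  have x183t : α 183 = true := tt fun y => c637 h x22f x52f y
  have x340f : α 340 = false := ff fun y => c2007 h x91t x183t y
  have x459f : α 459 = false := ff fun y => l3732 h x272t y
  have x175f : α 175 = false := ff fun y => l3714 h x167t y
  have x108f : α 108 = false := ff fun y => l3686 h y x167t
  have x24f : α 24 = false := ff fun y => l4189 h y x167t x197t x91t x107f x63t x54f x94t x237t x272t x52f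
  have x286t : α 286 = true := tt fun y => c2707 h x459f y x175f
  have x191t : α 191 = true := tt fun y => c736 h x24f x54f y
  have x369f : α 369 = false := ff fun y => c3212 h y x286t x272t
  have x260f : α 260 = false := ff fun y => c1610 h x63t x167t x191t y
  have x41t : α 41 = true := tt fun y => c1117 h x369f x175f y
  have x25t : α 25 = true := tt fun y => c784 h y x97f x260f x340f
  have x27t : α 27 = true := tt fun y => c830 h y x113f x260f x340f
  have x120f : α 120 = false := ff fun y => c1115 h x272t y x41t
  have x121f : α 121 = false := ff fun y => c775 h x61t x157t x25t y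
  have x87f : α 87 = false := ff fun y => c763 h x27t x25t y
  have x275t : α 275 = true := tt fun y => c2312 h x120f x108f y x260f
  have x181t : α 181 = true := tt fun y => c1913 h y x87f x121f
  c2730 h x275t x191t x181t

theorem l4192 (h : Good α) (x260f : α 260 = false) (x338f : α 338 = false) (x108f : α 108 = false) (x40t : α 40 = true) (x56t : α 56 = true) (x1t : α 1 = true) (x197t : α 197 = true) (x340f : α 340 = false) (x91t : α 91 = true) (x107f : α 107 = false) (x94t : α 94 = true) (x237t : α 237 = true) (x272t : α 272 = true) : False :=
  have x278t : α 278 = true := tt fun y => c3161 h y x260f x340f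
  have x28t : α 28 = true := tt fun y => l4186 h x56t x260f y x108f x1t x197t x340f x91t x94t x237t x272t
  have x286f : α 286 = false := ff fun y => c839 h y x40t x272t x28t
  have x477f : α 477 = false := ff fun y => c880 h x272t x28t y x278t
  c2306 h x286f x107f x477f x338f

theorem l4193 (h : Good α) (x191t : α 191 = true) (x108f : α 108 = false) (x40t : α 40 = true) (x254t : α 254 = true) (x233f : α 233 = false) (x53f : α 53 = false) (x197t : α 197 = true) (x91t : α 91 = true) (x107f : α 107 = false) (x94t : α 94 = true) (x237t : α 237 = true) (x272t : α 272 = true) (x52f : α 52 = false) : False :=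
  have x58f : α 58 = false := ff fun y => l4173 h y
  have x249f : α 249 = false := ff fun y => l4102 h y
  have x326f : α 326 = false := ff fun y => l3726 h x197t y
  have x146t : α 146 = true := tt fun y => c1241 h x326f y x52f
  have x195f : α 195 = false := ff fun y => c2547 h x197t x146t y
  have x1t : α 1 = true := tt fun y => c25 h y x52f x195f
  have x56t : α 56 = true := tt fun y => l3648 h x53f y
  have x59f : α 59 = false := ff fun y => c57 h x56t x1t y
  have x61t : α 61 = true := tt fun y => l3669 h x59f y
  have x97f : α 97 = false := ff fun y => c1554 h x197t x61t x237t y
  have x22f : α 22 = false := ff fun y => c657 h x272t x94t y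
  have x183t : α 183 = true := tt fun y => c637 h x22f x52f y
  have x340f : α 340 = false := ff fun y => c2007 h x91t x183t y
  have x189t : α 189 = true := tt fun y => c2182 h x97f y x340f
  have x273f : α 273 = false := ff fun y => c2751 h x183t x189t y
  have x23t : α 23 = true := tt fun y => c706 h y x97f x273f
  have x157t : α 157 = true := tt fun y => c1227 h x52f x59f y
  have x335t : α 335 = true := tt fun y => l3653 h x53f y
  have x424f : α 424 = false := ff fun y => l3731 h y x335t x272t
  have x250t : α 250 = true := tt fun y => c1468 h x58f x97f y
  have x238f : α 238 = false := ff fun y => c1983 h x94t y x91t x250t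
  have x117t : α 117 = true := tt fun y => c2427 h x424f x238f y
  have x106f : α 106 = false := ff fun y => c2275 h y x117t x146t x157t
  have x429t : α 429 = true := tt fun y => c2287 h y x249f x106f
  have x327f : α 327 = false := ff fun y => c2549 h y x197t x146t
  have x114f : α 114 = false := ff fun y => l3695 h y x272t
  have x257f : α 257 = false := ff fun y => l3577 h y x237t x114f x91t
  have x20t : α 20 = true := tt fun y => c510 h x22f y x52f x59f
  have x299f : α 299 = false := ff fun y => c571 h x20t x117t y
  have x430t : α 430 = true := tt fun y => c2291 h x106f x299f x257f y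
  have x113f : α 113 = false := ff fun y => c2370 h y x250t x430t
  have x298t : α 298 = true := tt fun y => l3692 h x113f x327f y
  have x184f : α 184 = false := ff fun y => c719 h x429t y x298t x23t
  have x346f : α 346 = false := ff fun y => l3740 h x272t y
  have x115f : α 115 = false := ff fun y => c1999 h x191t x91t y
  have x338f : α 338 = false := ff fun y => c2011 h y x191t x91t
  have x419t : α 419 = true := tt fun y => c2404 h x115f x233f y
  have x75t : α 75 = true := tt fun y => c1766 h y x115f x233f
  have x259f : α 259 = false := ff fun y => c2841 h x191t y x419t
  have x381t : α 381 = true := tt fun y => c2997 h y x259f x233f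
  have x260t : α 260 = true := tt fun y => l4192 h y x338f x108f x40t x56t x1t x197t x340f x91t x107f x94t x237t x272t
  have x275f : α 275 = false := ff fun y => l3715 h x260t y
  have x181f : α 181 = false := ff fun y => c2728 h x191t y x260t
  have x285t : α 285 = true := tt fun y => c3226 h x346f x275f y
  have x477t : α 477 = true := tt fun y => c2395 h y x275f x114f
  have x384t : α 384 = true := tt fun y => c1253 h x52f x181f y
  have x16t : α 16 = true := tt fun y => c346 h y x52f x181f
  have x110f : α 110 = false := ff fun y => c2342 h x477t x254t y
  have x24f : α 24 = false := ff fun y => c327 h y x16t x381t x384t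
  have x96t : α 96 = true := tt fun y => c2160 h x184f y x110f
  have x18t : α 18 = true := tt fun y => c406 h x107f x24f y
  have x95f : α 95 = false := ff fun y => c440 h x18t y x91t x183t
  have x247t : α 247 = true := tt fun y => c1240 h x52f x95f y
  have x90t : α 90 = true := tt fun y => c1233 h y x52f x95f
  have x93t : α 93 = true := tt fun y => c1219 h x53f y x52f x95f
  have x4f : α 4 = false := ff fun y => c142 h y x75t x247t
  have x561f : α 561 = false := ff fun y => c1775 h x75t x247t x419t y
  have x252f : α 252 = false := ff fun y => c1955 h x96t y x90t x247t
  have x263f : α 263 = false := ff fun y => c702 h y x93t x23t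
  have x339t : α 339 = true := tt fun y => c2738 h x181f y x561f
  have x109t : α 109 = true := tt fun y => c664 h x184f x263f x22f y
  have x41t : α 41 = true := tt fun y => c134 h y x263f x4f x252f
  c1108 h x41t x109t x285t x339t

theorem l4194 (h : Good α) (x108f : α 108 = false) (x40t : α 40 = true) (x254t : α 254 = true) (x328t : α 328 = true) (x233f : α 233 = false) (x197t : α 197 = true) (x91t : α 91 = true) (x107f : α 107 = false) (x54f : α 54 = false) (x94t : α 94 = true) (x237t : α 237 = true) (x272t : α 272 = true) (x52f : α 52 = false) : False :=
  have x443f : α 443 = false := ff fun y => c2025 h y x237t x91t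
  have x351f : α 351 = false := ff fun y => c2888 h x197t x237t y
  have x326f : α 326 = false := ff fun y => l3726 h x197t y
  have x146t : α 146 = true := tt fun y => c1241 h x326f y x52f
  have x195f : α 195 = false := ff fun y => c2547 h x197t x146t y
  have x1t : α 1 = true := tt fun y => c25 h y x52f x195f
  have x53f : α 53 = false := ff fun y => l4190 h y x1t x351f x443f x54f x94t x272t
  have x56t : α 56 = true := tt fun y => l3648 h x53f y
  have x22f : α 22 = false := ff fun y => c657 h x272t x94t y
  have x183t : α 183 = true := tt fun y => c637 h x22f x52f y
  have x340f : α 340 = false := ff fun y => c2007 h x91t x183t y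
  have x191f : α 191 = false := ff fun y => l4193 h y x108f x40t x254t x233f x53f x197t x91t x107f x94t x237t x272t x52f
  have x24t : α 24 = true := tt fun y => c736 h y x54f x191f
  have x271f : α 271 = false := ff fun y => c748 h y x94t x24t
  have x187t : α 187 = true := tt fun y => c2795 h x271f y x191f
  have x338f : α 338 = false := ff fun y => c2114 h x94t x187t y
  have x260t : α 260 = true := tt fun y => l4192 h y x338f x108f x40t x56t x1t x197t x340f x91t x107f x94t x237t x272t
  have x275f : α 275 = false := ff fun y => l3715 h x260t y
  have x425f : α 425 = false := ff fun y => l3720 h y x260t x328t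
  c2845 h x425f x275f x191f

theorem l4195 (h : Good α) (x91t : α 91 = true) (x237t : α 237 = true) (x10f : α 10 = false) (x239t : α 239 = true) (x272t : α 272 = true) (x52f : α 52 = false) : False :=
  have x58f : α 58 = false := ff fun y => l4173 h y
  have x249f : α 249 = false := ff fun y => l4102 h y
  have x94t : α 94 = true := tt fun y => l4181 h y x237t x10f x239t x272t x52f
  have x63t : α 63 = true := tt fun y => l4185 h y x94t x239t x272t x52f
  have x107f : α 107 = false := ff fun y => c1607 h x239t y x63t
  have x22f : α 22 = false := ff fun y => c657 h x272t x94t y
  have x80t : α 80 = true := tt fun y => c634 h y x22f x52f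
  have x183t : α 183 = true := tt fun y => c637 h x22f x52f y
  have x446f : α 446 = false := ff fun y => c2131 h y x239t x94t
  have x54f : α 54 = false := ff fun y => c1323 h x239t x94t y
  have x114f : α 114 = false := ff fun y => l3695 h y x272t
  have x443f : α 443 = false := ff fun y => c2025 h y x237t x91t
  have x353f : α 353 = false := ff fun y => c2022 h y x239t x237t x91t
  have x257f : α 257 = false := ff fun y => l3577 h y x237t x114f x91t
  have x340f : α 340 = false := ff fun y => c2007 h x91t x183t y
  have x197t : α 197 = true := tt fun y => c2889 h x353f x249f y
  have x545t : α 545 = true := tt fun y => c3104 h y x353f x249f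
  have x326f : α 326 = false := ff fun y => l3726 h x197t y
  have x351f : α 351 = false := ff fun y => c2888 h x197t x237t y
  have x146t : α 146 = true := tt fun y => c1241 h x326f y x52f
  have x195f : α 195 = false := ff fun y => c2547 h x197t x146t y
  have x327f : α 327 = false := ff fun y => c2549 h y x197t x146t
  have x1t : α 1 = true := tt fun y => c25 h y x52f x195f
  have x405f : α 405 = false := ff fun y => c114 h x545t y x197t x1t
  have x442t : α 442 = true := tt fun y => c3351 h x446f x405f y
  have x53f : α 53 = false := ff fun y => l4190 h y x1t x351f x443f x54f x94t x272t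
  have x56t : α 56 = true := tt fun y => l3648 h x53f y
  have x335t : α 335 = true := tt fun y => l3653 h x53f y
  have x188f : α 188 = false := ff fun y => l3666 h y x272t x56t
  have x59f : α 59 = false := ff fun y => c57 h x56t x1t y
  have x424f : α 424 = false := ff fun y => l3731 h y x335t x272t
  have x61t : α 61 = true := tt fun y => l3669 h x59f y
  have x157t : α 157 = true := tt fun y => c1227 h x52f x59f y
  have x20t : α 20 = true := tt fun y => c510 h x22f y x52f x59f
  have x97f : α 97 = false := ff fun y => c1554 h x197t x61t x237t y
  have x250t : α 250 = true := tt fun y => c1468 h x58f x97f y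
  have x189t : α 189 = true := tt fun y => c2182 h x97f y x340f
  have x238f : α 238 = false := ff fun y => c1983 h x94t y x91t x250t
  have x273f : α 273 = false := ff fun y => c2751 h x183t x189t y
  have x71f : α 71 = false := ff fun y => c1704 h x80t y x183t x189t
  have x352t : α 352 = true := tt fun y => c3048 h x353f y x249f x238f
  have x117t : α 117 = true := tt fun y => c2427 h x424f x238f y
  have x23t : α 23 = true := tt fun y => c706 h y x97f x273f
  have x236t : α 236 = true := tt fun y => c195 h y x71f x10f
  have x535f : α 535 = false := ff fun y => c3021 h x442t y x236t x352t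
  have x299f : α 299 = false := ff fun y => c571 h x20t x117t y
  have x106f : α 106 = false := ff fun y => c2275 h y x117t x146t x157t
  have x200f : α 200 = false := ff fun y => c2910 h x239t y x236t
  have x92f : α 92 = false := ff fun y => c2043 h x239t x236t x94t y
  have x57t : α 57 = true := tt fun y => c1445 h x405f x535f y x238f
  have x430t : α 430 = true := tt fun y => c2291 h x106f x299f x257f y
  have x429t : α 429 = true := tt fun y => c2287 h y x249f x106f
  have x201t : α 201 = true := tt fun y => c2905 h x353f x200f x351f y
  have x386t : α 386 = true := tt fun y => c1721 h y x200f x71f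
  have x449t : α 449 = true := tt fun y => c2048 h y x92f x443f x97f
  have x113f : α 113 = false := ff fun y => c2370 h y x250t x430t
  have x233f : α 233 = false := ff fun y => c1421 h x94t x57t y x201t
  have x402f : α 402 = false := ff fun y => c72 h x449t x57t y x1t
  have x298t : α 298 = true := tt fun y => l3692 h x113f x327f y
  have x328t : α 328 = true := tt fun y => c3263 h y x327f x402f
  have x184f : α 184 = false := ff fun y => c719 h x429t y x298t x23t
  have x379t : α 379 = true := tt fun y => c1294 h y x184f x53f
  have x19f : α 19 = false := ff fun y => c463 h x386t x379t y x23t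
  have x254t : α 254 = true := tt fun y => l4084 h y x188f x19f x56t
  have x167f : α 167 = false := ff fun y => l4191 h y x197t x91t x107f x63t x54f x94t x237t x272t x52f
  have x40t : α 40 = true := tt fun y => c183 h x10f y x167f
  have x108t : α 108 = true := tt fun y => l4194 h y x40t x254t x328t x233f x197t x91t x107f x54f x94t x237t x272t x52f
  have x120f : α 120 = false := ff fun y => l3685 h x108t y
  have x260f : α 260 = false := ff fun y => l3687 h x108t y
  have x308f : α 308 = false := ff fun y => l3689 h y x108t x328t
  have x25t : α 25 = true := tt fun y => c784 h y x97f x260f x340f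
  have x27t : α 27 = true := tt fun y => c830 h y x113f x260f x340f
  have x24t : α 24 = true := tt fun y => c758 h x308f x120f y
  have x121f : α 121 = false := ff fun y => c775 h x61t x157t x25t y
  have x87f : α 87 = false := ff fun y => c763 h x27t x25t y
  have x16f : α 16 = false := ff fun y => c323 h x24t y x108t
  have x181t : α 181 = true := tt fun y => c1913 h y x87f x121f
  have x109t : α 109 = true := tt fun y => c314 h x22f x16f y
  have x265f : α 265 = false := ff fun y => c2725 h x181t x183t y
  have x95f : α 95 = false := ff fun y => c2144 h x109t y x183t
  c353 h x16f x95f x265f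

theorem l4196 (h : Good α) (x16f : α 16 = false) (x95f : α 95 = false) (x80t : α 80 = true) (x52f : α 52 = false) : False :=
  have x68t : α 68 = true := tt fun y => c342 h y x16f x52f
  have x29t : α 29 = true := tt fun y => c334 h y x16f x95f
  c888 h x80t x29t x68t

theorem l4197 (h : Good α) (x41t : α 41 = true) (x558f : α 558 = false) (x497t : α 497 = true) (x36t : α 36 = true) (x18t : α 18 = true) (x91f : α 91 = false) : False :=
  have x30f : α 30 = false := ff fun y => c412 h x41t y x36t x18t
  have x513f : α 513 = false := ff fun y => c1017 h x41t y x36t x497t
  c921 h x30f x513f x91f x558f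

theorem l4198 (h : Good α) (x340f : α 340 = false) (x267f : α 267 = false) (x108t : α 108 = true) (x91f : α 91 = false) (x54f : α 54 = false) (x22f : α 22 = false) (x114f : α 114 = false) (x52f : α 52 = false) : False :=
  have x80t : α 80 = true := tt fun y => c634 h y x22f x52f
  have x18t : α 18 = true := tt fun y => c443 h y x267f x91f x340f
  have x282t : α 282 = true := tt fun y => c3191 h y x267f x340f
  have x36t : α 36 = true := tt fun y => c1035 h y x267f x114f x340f
  have x95f : α 95 = false := ff fun y => c421 h x36t x18t y
  have x28f : α 28 = false := ff fun y => c871 h y x108t x282t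
  have x497t : α 497 = true := tt fun y => c2156 h x95f x267f y
  have x128t : α 128 = true := tt fun y => c622 h x22f x28f y
  have x16t : α 16 = true := tt fun y => l4196 h y x95f x80t x52f
  have x24f : α 24 = false := ff fun y => c323 h y x16t x108t
  have x291f : α 291 = false := ff fun y => c357 h x16t x108t y
  have x314t : α 314 = true := tt fun y => c738 h x24f x291f x54f y
  have x558f : α 558 = false := ff fun y => c2501 h x128t x314t y
  have x41f : α 41 = false := ff fun y => l4197 h y x558f x497t x36t x18t x91f
  have x30t : α 30 = true := tt fun y => c906 h x41f y x114f x91f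
  have x513t : α 513 = true := tt fun y => c1112 h x41f y x114f x558f
  c418 h x30t x513t x18t x497t

theorem l4199 (h : Good α) (x41f : α 41 = false) (x497t : α 497 = true) (x18t : α 18 = true) (x558f : α 558 = false) (x91f : α 91 = false) (x114f : α 114 = false) : False :=
  have x30t : α 30 = true := tt fun y => c906 h x41f y x114f x91f
  have x513t : α 513 = true := tt fun y => c1112 h x41f y x114f x558f
  c418 h x30t x513t x18t x497t

theorem l4200 (h : Good α) (x95f : α 95 = false) (x195t : α 195 = true) (x380f : α 380 = false) (x558f : α 558 = false) (x189f : α 189 = false) (x267f : α 267 = false) (x108t : α 108 = true) (x20t : α 20 = true) (x53f : α 53 = false) (x91f : α 91 = false) (x80t : α 80 = true) (x54f : α 54 = false) (x505f : α 505 = false) (x272t : α 272 = true) (x52f : α 52 = false) : False :=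
  have x58f : α 58 = false := ff fun y => l4173 h y
  have x97t : α 97 = true := tt fun y => c1456 h x91f x58f y
  have x1t : α 1 = true := tt fun y => c37 h x54f y x91f x58f
  have x56t : α 56 = true := tt fun y => l3648 h x53f y
  have x59f : α 59 = false := ff fun y => c57 h x56t x1t y
  have x61t : α 61 = true := tt fun y => l3669 h x59f y
  have x204f : α 204 = false := ff fun y => c102 h x1t x61t y
  have x250t : α 250 = true := tt fun y => c1312 h x54f x204f x91f y
  have x399t : α 399 = true := tt fun y => c1484 h x58f x189f y
  have x273f : α 273 = false := ff fun y => c3112 h x250t y x399t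
  have x430t : α 430 = true := tt fun y => c2824 h x189f x273f y
  have x113f : α 113 = false := ff fun y => c2370 h y x250t x430t
  have x23t : α 23 = true := tt fun y => l3627 h y x113f x53f
  have x33f : α 33 = false := ff fun y => c682 h y x23t x97t
  have x264t : α 264 = true := tt fun y => l3691 h x113f y
  have x146t : α 146 = true := tt fun y => c1226 h y x52f x59f
  have x334t : α 334 = true := tt fun y => l3705 h x204f y
  have x257f : α 257 = false := ff fun y => c2552 h x146t x334t y x430t
  have x450f : α 450 = false := ff fun y => c2200 h x97t x250t y
  have x335t : α 335 = true := tt fun y => l3653 h x53f y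
  have x19t : α 19 = true := tt fun y => c483 h y x58f x189f
  have x307f : α 307 = false := ff fun y => c480 h x56t x335t x19t y
  have x212t : α 212 = true := tt fun y => c2960 h y x307f x450f
  have x120f : α 120 = false := ff fun y => l3685 h x108t y
  have x409t : α 409 = true := tt fun y => c1317 h x54f y x91f x450f
  have x325f : α 325 = false := ff fun y => c3261 h y x335t x409t
  have x157t : α 157 = true := tt fun y => c1227 h x52f x59f y
  have x199f : α 199 = false := ff fun y => c60 h y x56t x1t
  have x114f : α 114 = false := ff fun y => l3695 h y x272t
  have x93t : α 93 = true := tt fun y => c1219 h x53f y x52f x95f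
  have x18t : α 18 = true := tt fun y => c446 h y x95f x267f
  have x497t : α 497 = true := tt fun y => c2156 h x95f x267f y
  have x16t : α 16 = true := tt fun y => l4196 h y x95f x80t x52f
  have x263f : α 263 = false := ff fun y => c702 h y x93t x23t
  have x24f : α 24 = false := ff fun y => c323 h y x16t x108t
  have x291f : α 291 = false := ff fun y => c357 h x16t x108t y
  have x308t : α 308 = true := tt fun y => c758 h y x120f x24f
  have x314t : α 314 = true := tt fun y => c738 h x24f x291f x54f y
  have x328f : α 328 = false := ff fun y => l3689 h x308t x108t y
  have x347f : α 347 = false := ff fun y => c2664 h x157t y x314t x497t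
  have x398t : α 398 = true := tt fun y => c2899 h x505f y x328f x199f
  have x153t : α 153 = true := tt fun y => c2620 h x328f x199f y
  have x494t : α 494 = true := tt fun y => c3260 h x505f y x328f x325f
  have x105t : α 105 = true := tt fun y => c973 h y x347f x33f x273f
  have x84f : α 84 = false := ff fun y => c1878 h x398t x494t y x212t
  have x98f : α 98 = false := ff fun y => c2207 h x153t x105t x146t y
  have x230t : α 230 = true := tt fun y => c2213 h x98f y x257f x380f
  have x60f : α 60 = false := ff fun y => c92 h x1t y x195t x230t
  have x152t : α 152 = true := tt fun y => c1453 h y x60f x58f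
  have x41t : α 41 = true := tt fun y => l4199 h y x497t x18t x558f x91f x114f
  have x160f : α 160 = false := ff fun y => c1116 h x398t y x272t x41t
  have x255t : α 255 = true := tt fun y => c1871 h x160f y x84f x189f
  have x476f : α 476 = false := ff fun y => c578 h x264t y x20t x255t
  have x100f : α 100 = false := ff fun y => c2224 h y x152t x255t
  c2226 h x100f x263f x476f

theorem l4201 (h : Good α) (x108t : α 108 = true) (x40t : α 40 = true) (x53f : α 53 = false) (x91f : α 91 = false) (x54f : α 54 = false) (x22f : α 22 = false) (x505f : α 505 = false) (x272t : α 272 = true) (x52f : α 52 = false) : False :=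
  have x58f : α 58 = false := ff fun y => l4173 h y
  have x1t : α 1 = true := tt fun y => c37 h x54f y x91f x58f
  have x56t : α 56 = true := tt fun y => l3648 h x53f y
  have x59f : α 59 = false := ff fun y => c57 h x56t x1t y
  have x61t : α 61 = true := tt fun y => l3669 h x59f y
  have x204f : α 204 = false := ff fun y => c102 h x1t x61t y
  have x250t : α 250 = true := tt fun y => c1312 h x54f x204f x91f y
  have x157t : α 157 = true := tt fun y => c1227 h x52f x59f y
  have x333f : α 333 = false := ff fun y => c1568 h x61t x157t y
  have x97t : α 97 = true := tt fun y => c1456 h x91f x58f y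
  have x190f : α 190 = false := ff fun y => l3738 h y x61t x97t
  have x242f : α 242 = false := ff fun y => c1557 h x61t x97t y
  have x20t : α 20 = true := tt fun y => c510 h x22f y x52f x59f
  have x80t : α 80 = true := tt fun y => c634 h y x22f x52f
  have x183t : α 183 = true := tt fun y => c637 h x22f x52f y
  have x114f : α 114 = false := ff fun y => l3695 h y x272t
  have x267f : α 267 = false := ff fun y => c1100 h x40t x108t y
  have x186t : α 186 = true := tt fun y => c2791 h x190f y x267f
  have x340t : α 340 = true := tt fun y => l4198 h y x267f x108t x91f x54f x22f x114f x52f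
  have x576f : α 576 = false := ff fun y => l3724 h x340t y
  have x189f : α 189 = false := ff fun y => c2183 h x97t y x340t
  have x558f : α 558 = false := ff fun y => c2764 h x183t x340t y
  have x387t : α 387 = true := tt fun y => c3084 h x242f y x576f
  have x399t : α 399 = true := tt fun y => c1484 h x58f x189f y
  have x273f : α 273 = false := ff fun y => c3112 h x250t y x399t
  have x380f : α 380 = false := ff fun y => c3285 h y x340t x399t
  have x506f : α 506 = false := ff fun y => c3289 h x340t x399t y
  have x430t : α 430 = true := tt fun y => c2824 h x189f x273f y
  have x195t : α 195 = true := tt fun y => c2870 h y x333f x380f x506f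
  have x113f : α 113 = false := ff fun y => c2370 h y x250t x430t
  have x180t : α 180 = true := tt fun y => l3690 h x113f y
  have x264t : α 264 = true := tt fun y => l3691 h x113f y
  have x23t : α 23 = true := tt fun y => l3627 h y x113f x53f
  have x95t : α 95 = true := tt fun y => l4200 h y x195t x380f x558f x189f x267f x108t x20t x53f x91f x80t x54f x505f x272t x52f
  have x339f : α 339 = false := ff fun y => c2151 h x95t x183t y
  have x109f : α 109 = false := ff fun y => c2144 h y x95t x183t
  have x347f : α 347 = false := ff fun y => c2152 h x95t x186t y
  have x93t : α 93 = true := tt fun y => c2096 h y x190f x347f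
  have x263f : α 263 = false := ff fun y => c702 h y x93t x23t
  have x32f : α 32 = false := ff fun y => c675 h x93t x23t y
  have x184t : α 184 = true := tt fun y => c664 h y x263f x22f x109f
  have x81f : α 81 = false := ff fun y => c1839 h x184t x264t y x180t
  have x462t : α 462 = true := tt fun y => c1846 h x81f x242f y
  have x378t : α 378 = true := tt fun y => c952 h x32f x81f x339f y
  c3327 h x378t x387t x462t

theorem l4202 (h : Good α) (x340t : α 340 = true) (x276f : α 276 = false) (x282t : α 282 = true) (x109f : α 109 = false) (x95t : α 95 = true) (x250t : α 250 = true) (x334t : α 334 = true) (x190f : α 190 = false) (x146t : α 146 = true) (x53f : α 53 = false) (x97t : α 97 = true) (x22f : α 22 = false) : False :=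
  have x58f : α 58 = false := ff fun y => l4173 h y
  have x249f : α 249 = false := ff fun y => l4102 h y
  have x56t : α 56 = true := tt fun y => l3648 h x53f y
  have x327f : α 327 = false := ff fun y => l3667 h x56t y
  have x189f : α 189 = false := ff fun y => c2183 h x97t y x340t
  have x267f : α 267 = false := ff fun y => c3192 h x282t y x340t
  have x399t : α 399 = true := tt fun y => c1484 h x58f x189f y
  have x186t : α 186 = true := tt fun y => c2791 h x190f y x267f
  have x273f : α 273 = false := ff fun y => c3112 h x250t y x399t
  have x98f : α 98 = false := ff fun y => c2142 h y x95t x186t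
  have x347f : α 347 = false := ff fun y => c2152 h x95t x186t y
  have x430t : α 430 = true := tt fun y => c2824 h x189f x273f y
  have x93t : α 93 = true := tt fun y => c2096 h y x190f x347f
  have x26t : α 26 = true := tt fun y => c803 h y x276f x98f x347f
  have x113f : α 113 = false := ff fun y => c2370 h y x250t x430t
  have x257f : α 257 = false := ff fun y => c2552 h x146t x334t y x430t
  have x23t : α 23 = true := tt fun y => l3627 h y x113f x53f
  have x298t : α 298 = true := tt fun y => l3692 h x113f x327f y
  have x38t : α 38 = true := tt fun y => c1067 h y x98f x257f
  have x263f : α 263 = false := ff fun y => c702 h y x93t x23t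
  have x106f : α 106 = false := ff fun y => c795 h y x26t x38t
  have x184t : α 184 = true := tt fun y => c664 h y x263f x22f x109f
  have x429t : α 429 = true := tt fun y => c2287 h y x249f x106f
  c719 h x429t x184t x298t x23t

theorem l4203 (h : Good α) (x18f : α 18 = false) (x91f : α 91 = false) (x63t : α 63 = true) (x54f : α 54 = false) : False :=
  have x75t : α 75 = true := tt fun y => c427 h x54f x18f y
  have x30t : α 30 = true := tt fun y => c413 h y x18f x91f
  c913 h x63t x30t x75t

theorem l4204 (h : Good α) (x95t : α 95 = true) (x108f : α 108 = false) (x18t : α 18 = true) (x250t : α 250 = true) (x334t : α 334 = true) (x146t : α 146 = true) (x157t : α 157 = true) (x61t : α 61 = true) (x53f : α 53 = false) (x97t : α 97 = true) (x183t : α 183 = true) (x22f : α 22 = false) (x114f : α 114 = false) : False :=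
  have x190f : α 190 = false := ff fun y => l3738 h y x61t x97t
  have x109f : α 109 = false := ff fun y => c2144 h y x95t x183t
  have x36f : α 36 = false := ff fun y => c421 h y x18t x95t
  have x267f : α 267 = false := ff fun y => c447 h x18t x95t y
  have x483t : α 483 = true := tt fun y => c2319 h x108f x267f y
  have x340t : α 340 = true := tt fun y => c1035 h x36f x267f x114f y
  have x274f : α 274 = false := ff fun y => c2205 h x97t y x340t x483t
  have x28f : α 28 = false := ff fun y => l3636 h y x340t
  have x192t : α 192 = true := tt fun y => c2831 h y x190f x274f
  have x282t : α 282 = true := tt fun y => c870 h x28f x108f y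
  have x276f : α 276 = false := ff fun y => c1566 h x192t y x61t x157t
  l4202 h x340t x276f x282t x109f x95t x250t x334t x190f x146t x53f x97t x22f

theorem l4205 (h : Good α) (x340t : α 340 = true) (x497t : α 497 = true) (x108f : α 108 = false) (x167f : α 167 = false) (x18t : α 18 = true) (x250t : α 250 = true) (x334t : α 334 = true) (x146t : α 146 = true) (x61t : α 61 = true) (x91f : α 91 = false) (x63t : α 63 = true) (x183t : α 183 = true) (x272t : α 272 = true) : False :=
  have x58f : α 58 = false := ff fun y => l4173 h y
  have x97t : α 97 = true := tt fun y => c1456 h x91f x58f y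
  have x92f : α 92 = false := ff fun y => c1545 h y x61t x97t
  have x114f : α 114 = false := ff fun y => l3695 h y x272t
  have x28f : α 28 = false := ff fun y => l3636 h y x340t
  have x260f : α 260 = false := ff fun y => l3503 h y x340t
  have x189f : α 189 = false := ff fun y => c2183 h x97t y x340t
  have x558f : α 558 = false := ff fun y => c2764 h x183t x340t y
  have x192t : α 192 = true := tt fun y => c857 h x92f y x28f x108f
  have x399t : α 399 = true := tt fun y => c1484 h x58f x189f y
  have x41t : α 41 = true := tt fun y => l4199 h y x497t x18t x558f x91f x114f
  have x25f : α 25 = false := ff fun y => c777 h x192t x61t y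
  have x273f : α 273 = false := ff fun y => c3112 h x250t y x399t
  have x120f : α 120 = false := ff fun y => c1115 h x272t y x41t
  have x87t : α 87 = true := tt fun y => c781 h x25f y x260f
  have x430t : α 430 = true := tt fun y => c2824 h x189f x273f y
  have x275t : α 275 = true := tt fun y => c2312 h x120f x108f y x260f
  have x175t : α 175 = true := tt fun y => c2311 h y x167f x120f x108f
  have x257f : α 257 = false := ff fun y => c2552 h x146t x334t y x430t
  have x68f : α 68 = false := ff fun y => c1598 h x175t x63t y
  have x191f : α 191 = false := ff fun y => c1614 h x175t x63t x275t y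
  have x181t : α 181 = true := tt fun y => c1661 h x68f x167f y x260f
  have x336t : α 336 = true := tt fun y => c2009 h x191f x91f y x257f
  c1919 h x336t x181t x87t

theorem l4206 (h : Good α) (x558f : α 558 = false) (x36t : α 36 = true) (x497t : α 497 = true) (x18t : α 18 = true) (x91f : α 91 = false) (x114f : α 114 = false) : False :=
  have x41t : α 41 = true := tt fun y => l4199 h y x497t x18t x558f x91f x114f
  l4197 h x41t x558f x497t x36t x18t x91f

theorem l4207 (h : Good α) (x260f : α 260 = false) (x120f : α 120 = false) (x257f : α 257 = false) (x25f : α 25 = false) (x108f : α 108 = false) (x167f : α 167 = false) (x91f : α 91 = false) (x63t : α 63 = true) : False :=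
  have x175t : α 175 = true := tt fun y => c2311 h y x167f x120f x108f
  have x68f : α 68 = false := ff fun y => c1598 h x175t x63t y
  have x87t : α 87 = true := tt fun y => c781 h x25f y x260f
  have x275t : α 275 = true := tt fun y => c2312 h x120f x108f y x260f
  have x181t : α 181 = true := tt fun y => c1661 h x68f x167f y x260f
  have x191f : α 191 = false := ff fun y => c1614 h x175t x63t x275t y
  have x336f : α 336 = false := ff fun y => c1919 h y x181t x87t
  c2009 h x191f x91f x336f x257f

theorem l4208 (h : Good α) (x260t : α 260 = true) (x113f : α 113 = false) (x189f : α 189 = false) (x44t : α 44 = true) (x28f : α 28 = false) (x558t : α 558 = true) (x483t : α 483 = true) (x250t : α 250 = true) (x204f : α 204 = false) (x91f : α 91 = false) (x94t : α 94 = true) (x272t : α 272 = true) (x52f : α 52 = false) : False :=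
  have x22f : α 22 = false := ff fun y => c657 h x272t x94t y
  have x128t : α 128 = true := tt fun y => c622 h x22f x28f y
  have x314f : α 314 = false := ff fun y => c2501 h x128t y x558t
  have x114f : α 114 = false := ff fun y => l3695 h y x272t
  have x275f : α 275 = false := ff fun y => l3715 h x260t y
  have x102f : α 102 = false := ff fun y => c1128 h x44t y x260t
  have x477t : α 477 = true := tt fun y => c2395 h y x275f x114f
  have x278t : α 278 = true := tt fun y => c865 h x28f x102f y
  have x338f : α 338 = false := ff fun y => c2139 h x272t x94t x477t y
  have x191t : α 191 = true := tt fun y => c2010 h x338f y x91f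
  have x181f : α 181 = false := ff fun y => c2728 h x191t y x260t
  have x413t : α 413 = true := tt fun y => c1251 h x52f x314f x181f y
  have x83f : α 83 = false := ff fun y => c1865 h y x250t x413t x558t
  have x27t : α 27 = true := tt fun y => l3631 h y x83f x204f
  have x39f : α 39 = false := ff fun y => c817 h y x27t x278t x260t
  have x284f : α 284 = false := ff fun y => c834 h x27t y x260t x483t
  have x99t : α 99 = true := tt fun y => c1076 h x39f x113f y x189f
  have x345t : α 345 = true := tt fun y => c2367 h x113f x284f x189f y
  c2221 h x99t x345t x278t x483t

theorem l4209 (h : Good α) (x120t : α 120 = true) (x36t : α 36 = true) (x459f : α 459 = false) : False :=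
  have x175f : α 175 = false := ff fun y => l3698 h x120t y
  have x286f : α 286 = false := ff fun y => c1039 h y x120t x36t
  c2707 h x459f x286f x175f

theorem l4210 (h : Good α) (x257f : α 257 = false) (x28f : α 28 = false) (x267f : α 267 = false) (x108f : α 108 = false) (x167f : α 167 = false) (x200f : α 200 = false) (x197f : α 197 = false) (x53f : α 53 = false) (x91f : α 91 = false) (x63t : α 63 = true) (x54f : α 54 = false) (x94t : α 94 = true) (x272t : α 272 = true) (x52f : α 52 = false) : False :=
  have x249f : α 249 = false := ff fun y => l4102 h y
  have x58f : α 58 = false := ff fun y => l4173 h y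
  have x22f : α 22 = false := ff fun y => c657 h x272t x94t y
  have x128t : α 128 = true := tt fun y => c622 h x22f x28f y
  have x114f : α 114 = false := ff fun y => l3695 h y x272t
  have x18t : α 18 = true := tt fun y => l4203 h y x91f x63t x54f
  have x183t : α 183 = true := tt fun y => c637 h x22f x52f y
  have x97t : α 97 = true := tt fun y => c1456 h x91f x58f y
  have x1t : α 1 = true := tt fun y => c37 h x54f y x91f x58f
  have x56t : α 56 = true := tt fun y => l3648 h x53f y
  have x59f : α 59 = false := ff fun y => c57 h x56t x1t y
  have x61t : α 61 = true := tt fun y => l3669 h x59f y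
  have x157t : α 157 = true := tt fun y => c1227 h x52f x59f y
  have x146t : α 146 = true := tt fun y => c1226 h y x52f x59f
  have x204f : α 204 = false := ff fun y => c102 h x1t x61t y
  have x334t : α 334 = true := tt fun y => l3705 h x204f y
  have x250t : α 250 = true := tt fun y => c1312 h x54f x204f x91f y
  have x95f : α 95 = false := ff fun y => l4204 h y x108f x18t x250t x334t x146t x157t x61t x53f x97t x183t x22f x114f
  have x497t : α 497 = true := tt fun y => c2156 h x95f x267f y
  have x340f : α 340 = false := ff fun y => l4205 h y x497t x108f x167f x18t x250t x334t x146t x61t x91f x63t x183t x272t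
  have x36t : α 36 = true := tt fun y => c1035 h y x267f x114f x340f
  have x558t : α 558 = true := tt fun y => l4206 h y x36t x497t x18t x91f x114f
  have x314f : α 314 = false := ff fun y => c2501 h x128t y x558t
  have x92f : α 92 = false := ff fun y => c1545 h y x61t x97t
  have x192t : α 192 = true := tt fun y => c857 h x92f y x28f x108f
  have x25f : α 25 = false := ff fun y => c777 h x192t x61t y
  have x44t : α 44 = true := tt fun y => c843 h y x28f x108f
  have x459f : α 459 = false := ff fun y => l3732 h x272t y
  have x120f : α 120 = false := ff fun y => l4209 h y x36t x459f
  have x483t : α 483 = true := tt fun y => c2319 h x108f x267f y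
  have x93t : α 93 = true := tt fun y => c1219 h x53f y x52f x95f
  have x450f : α 450 = false := ff fun y => c2200 h x97t x250t y
  have x238t : α 238 = true := tt fun y => c2879 h x249f y x197f x204f
  have x242f : α 242 = false := ff fun y => c1557 h x61t x97t y
  have x335t : α 335 = true := tt fun y => l3653 h x53f y
  have x80t : α 80 = true := tt fun y => c634 h y x22f x52f
  have x19t : α 19 = true := tt fun y => c493 h y x91f x257f
  have x260t : α 260 = true := tt fun y => l4207 h y x120f x257f x25f x108f x167f x91f x63t
  have x307f : α 307 = false := ff fun y => c480 h x56t x335t x19t y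
  have x275f : α 275 = false := ff fun y => l3715 h x260t y
  have x212t : α 212 = true := tt fun y => c2960 h y x307f x450f
  have x477t : α 477 = true := tt fun y => c2395 h y x275f x114f
  have x46t : α 46 = true := tt fun y => c1137 h x275f x114f y
  have x113f : α 113 = false := ff fun y => c2178 h x212t y x97t
  have x338f : α 338 = false := ff fun y => c2139 h x272t x94t x477t y
  have x119f : α 119 = false := ff fun y => c1018 h x36t x93t x46t y
  have x180t : α 180 = true := tt fun y => l3690 h x113f y
  have x264t : α 264 = true := tt fun y => l3691 h x113f y
  have x23t : α 23 = true := tt fun y => l3627 h y x113f x53f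
  have x189t : α 189 = true := tt fun y => l4208 h x260t x113f y x44t x28f x558t x483t x250t x204f x91f x94t x272t x52f
  have x191t : α 191 = true := tt fun y => c2010 h x338f y x91f
  have x71f : α 71 = false := ff fun y => c1704 h x80t y x183t x189t
  have x181f : α 181 = false := ff fun y => c2728 h x191t y x260t
  have x386t : α 386 = true := tt fun y => c1721 h y x200f x71f
  have x413t : α 413 = true := tt fun y => c1251 h x52f x314f x181f y
  have x379f : α 379 = false := ff fun y => c463 h x386t y x19t x23t
  have x83f : α 83 = false := ff fun y => c1865 h y x250t x413t x558t
  have x184t : α 184 = true := tt fun y => c1294 h x379f y x53f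
  have x391t : α 391 = true := tt fun y => c1862 h y x204f x83f
  have x50t : α 50 = true := tt fun y => c769 h y x25f x83f
  have x81f : α 81 = false := ff fun y => c1839 h x184t x264t y x180t
  have x291f : α 291 = false := ff fun y => c2497 h x238t x391t x128t y
  have x390f : α 390 = false := ff fun y => c1196 h y x191t x50t
  have x274t : α 274 = true := tt fun y => c1833 h x119f y x81f x242f
  have x24t : α 24 = true := tt fun y => c738 h y x291f x54f x314f
  have x82t : α 82 = true := tt fun y => c1855 h y x197f x390f
  have x473f : α 473 = false := ff fun y => c2853 h x192t x391t x274t y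
  have x397f : α 397 = false := ff fun y => c411 h x24t x391t x18t y
  have x74f : α 74 = false := ff fun y => c405 h x82t x24t y x18t
  have x162f : α 162 = false := ff fun y => c1851 h x82t x192t y x274t
  c1753 h x74f x397f x162f x473f

theorem l4211 (h : Good α) (x257t : α 257 = true) (x334t : α 334 = true) (x146t : α 146 = true) (x157t : α 157 = true) (x183t : α 183 = true) : False :=
  have x189f : α 189 = false := ff fun y => c2749 h x257t x183t y
  have x430f : α 430 = false := ff fun y => c2552 h x146t x334t x257t y
  have x273t : α 273 = true := tt fun y => c2824 h x189f y x430f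
  c2544 h x146t x157t x257t x273t

theorem l4212 (h : Good α) (x267f : α 267 = false) (x40t : α 40 = true) (x167f : α 167 = false) (x200f : α 200 = false) (x197f : α 197 = false) (x53f : α 53 = false) (x91f : α 91 = false) (x107f : α 107 = false) (x63t : α 63 = true) (x54f : α 54 = false) (x94t : α 94 = true) (x272t : α 272 = true) (x52f : α 52 = false) : False :=
  have x58f : α 58 = false := ff fun y => l4173 h y
  have x114f : α 114 = false := ff fun y => l3695 h y x272t
  have x22f : α 22 = false := ff fun y => c657 h x272t x94t y
  have x183t : α 183 = true := tt fun y => c637 h x22f x52f y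
  have x97t : α 97 = true := tt fun y => c1456 h x91f x58f y
  have x1t : α 1 = true := tt fun y => c37 h x54f y x91f x58f
  have x56t : α 56 = true := tt fun y => l3648 h x53f y
  have x59f : α 59 = false := ff fun y => c57 h x56t x1t y
  have x61t : α 61 = true := tt fun y => l3669 h x59f y
  have x157t : α 157 = true := tt fun y => c1227 h x52f x59f y
  have x146t : α 146 = true := tt fun y => c1226 h y x52f x59f
  have x204f : α 204 = false := ff fun y => c102 h x1t x61t y
  have x334t : α 334 = true := tt fun y => l3705 h x204f y
  have x250t : α 250 = true := tt fun y => c1312 h x54f x204f x91f y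
  have x18t : α 18 = true := tt fun y => l4203 h y x91f x63t x54f
  have x505f : α 505 = false := ff fun y => c2141 h y x272t x94t
  have x108f : α 108 = false := ff fun y => l4201 h y x40t x53f x91f x54f x22f x505f x272t x52f
  have x95f : α 95 = false := ff fun y => l4204 h y x108f x18t x250t x334t x146t x157t x61t x53f x97t x183t x22f x114f
  have x90t : α 90 = true := tt fun y => c1233 h y x52f x95f
  have x450f : α 450 = false := ff fun y => c2200 h x97t x250t y
  have x335t : α 335 = true := tt fun y => l3653 h x53f y
  have x257f : α 257 = false := ff fun y => l4211 h y x334t x146t x157t x183t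
  have x19t : α 19 = true := tt fun y => c493 h y x91f x257f
  have x307f : α 307 = false := ff fun y => c480 h x56t x335t x19t y
  have x212t : α 212 = true := tt fun y => c2960 h y x307f x450f
  have x113f : α 113 = false := ff fun y => c2178 h x212t y x97t
  have x264t : α 264 = true := tt fun y => l3691 h x113f y
  have x190f : α 190 = false := ff fun y => l3738 h y x61t x97t
  have x222t : α 222 = true := tt fun y => c1994 h y x114f x91f
  have x80t : α 80 = true := tt fun y => c634 h y x22f x52f
  have x346f : α 346 = false := ff fun y => l3740 h x272t y
  have x459f : α 459 = false := ff fun y => l3732 h x272t y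
  have x186t : α 186 = true := tt fun y => c2791 h x190f y x267f
  have x497t : α 497 = true := tt fun y => c2156 h x95f x267f y
  have x28t : α 28 = true := tt fun y => l4210 h x257f y x267f x108f x167f x200f x197f x53f x91f x63t x54f x94t x272t x52f
  have x340f : α 340 = false := ff fun y => l4205 h y x497t x108f x167f x18t x250t x334t x146t x61t x91f x63t x183t x272t
  have x286f : α 286 = false := ff fun y => c839 h y x40t x272t x28t
  have x282t : α 282 = true := tt fun y => c3191 h y x267f x340f
  have x36t : α 36 = true := tt fun y => c1035 h y x267f x114f x340f
  have x175t : α 175 = true := tt fun y => c2707 h x459f x286f y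
  have x187t : α 187 = true := tt fun y => c2300 h x286f x107f x346f y
  have x29t : α 29 = true := tt fun y => c899 h x286f x107f y
  have x521t : α 521 = true := tt fun y => c2308 h y x286f x107f
  have x476f : α 476 = false := ff fun y => c878 h x264t y x28t x282t
  have x141f : α 141 = false := ff fun y => c423 h y x36t x18t
  have x120f : α 120 = false := ff fun y => l4209 h y x36t x459f
  have x338f : α 338 = false := ff fun y => c2114 h x94t x187t y
  have x567f : α 567 = false := ff fun y => c895 h x521t x29t y x90t
  have x256t : α 256 = true := tt fun y => c2372 h x476f y x113f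
  have x191t : α 191 = true := tt fun y => c2010 h x338f y x91f
  have x475t : α 475 = true := tt fun y => c2032 h x338f x91f y x257f
  have x477t : α 477 = true := tt fun y => c2306 h x286f x107f y x338f
  have x328t : α 328 = true := tt fun y => c2529 h x567f y x141f
  have x275f : α 275 = false := ff fun y => c1614 h x175t x63t y x191t
  have x278f : α 278 = false := ff fun y => c880 h x272t x28t x477t y
  have x260t : α 260 = true := tt fun y => c2312 h x120f x108f x275f y
  have x39t : α 39 = true := tt fun y => c1082 h y x113f x278f x340f
  have x258t : α 258 = true := tt fun y => c3146 h x338f y x278f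
  have x181f : α 181 = false := ff fun y => c2728 h x191t y x260t
  have x425f : α 425 = false := ff fun y => l3720 h y x260t x328t
  have x101f : α 101 = false := ff fun y => c1079 h x264t y x39t
  have x99f : α 99 = false := ff fun y => c2220 h x475t x258t y
  have x372t : α 372 = true := tt fun y => c3320 h x567f x425f y
  have x164t : α 164 = true := tt fun y => l3679 h x101f y
  have x14t : α 14 = true := tt fun y => l3619 h x101f y x59f
  have x189t : α 189 = true := tt fun y => c2218 h x99f y x278f x340f
  have x339f : α 339 = false := ff fun y => c2752 h x222t x183t x372t y
  have x69f : α 69 = false := ff fun y => c1675 h x164t x256t y x186t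
  have x71f : α 71 = false := ff fun y => c1704 h x80t y x183t x189t
  have x268f : α 268 = false := ff fun y => c2789 h x186t x189t y
  have x87t : α 87 = true := tt fun y => c1917 h x181f y x339f x268f
  have x34t : α 34 = true := tt fun y => c986 h x71f y x69f
  c248 h x34t x14t x87t

theorem l4213 (h : Good α) (x167f : α 167 = false) (x200f : α 200 = false) (x236t : α 236 = true) (x197f : α 197 = false) (x53f : α 53 = false) (x91f : α 91 = false) (x107f : α 107 = false) (x63t : α 63 = true) (x54f : α 54 = false) (x94t : α 94 = true) (x10f : α 10 = false) (x272t : α 272 = true) (x52f : α 52 = false) : False :=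
  have x58f : α 58 = false := ff fun y => l4173 h y
  have x97t : α 97 = true := tt fun y => c1456 h x91f x58f y
  have x1t : α 1 = true := tt fun y => c37 h x54f y x91f x58f
  have x56t : α 56 = true := tt fun y => l3648 h x53f y
  have x59f : α 59 = false := ff fun y => c57 h x56t x1t y
  have x61t : α 61 = true := tt fun y => l3669 h x59f y
  have x204f : α 204 = false := ff fun y => c102 h x1t x61t y
  have x250t : α 250 = true := tt fun y => c1312 h x54f x204f x91f y
  have x450f : α 450 = false := ff fun y => c2200 h x97t x250t y
  have x335t : α 335 = true := tt fun y => l3653 h x53f y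
  have x22f : α 22 = false := ff fun y => c657 h x272t x94t y
  have x183t : α 183 = true := tt fun y => c637 h x22f x52f y
  have x157t : α 157 = true := tt fun y => c1227 h x52f x59f y
  have x146t : α 146 = true := tt fun y => c1226 h y x52f x59f
  have x334t : α 334 = true := tt fun y => l3705 h x204f y
  have x257f : α 257 = false := ff fun y => l4211 h y x334t x146t x157t x183t
  have x19t : α 19 = true := tt fun y => c493 h y x91f x257f
  have x307f : α 307 = false := ff fun y => c480 h x56t x335t x19t y
  have x212t : α 212 = true := tt fun y => c2960 h y x307f x450f
  have x113f : α 113 = false := ff fun y => c2178 h x212t y x97t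
  have x23t : α 23 = true := tt fun y => l3627 h y x113f x53f
  have x18t : α 18 = true := tt fun y => l4203 h y x91f x63t x54f
  have x92f : α 92 = false := ff fun y => c1545 h y x61t x97t
  have x80t : α 80 = true := tt fun y => c634 h y x22f x52f
  have x505f : α 505 = false := ff fun y => c2141 h y x272t x94t
  have x114f : α 114 = false := ff fun y => l3695 h y x272t
  have x40t : α 40 = true := tt fun y => c183 h x10f y x167f
  have x108f : α 108 = false := ff fun y => l4201 h y x40t x53f x91f x54f x22f x505f x272t x52f
  have x267t : α 267 = true := tt fun y => l4212 h y x40t x167f x200f x197f x53f x91f x107f x63t x54f x94t x272t x52f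
  have x464f : α 464 = false := ff fun y => l3722 h x267t y
  have x282t : α 282 = true := tt fun y => c2690 h x167f y x464f
  have x340f : α 340 = false := ff fun y => c3192 h x282t x267t y
  have x359f : α 359 = false := ff fun y => c3194 h y x282t x267t
  have x30f : α 30 = false := ff fun y => c417 h y x282t x18t x267t
  have x124t : α 124 = true := tt fun y => c2003 h y x359f x91f x340f
  have x41t : α 41 = true := tt fun y => c906 h y x30f x114f x91f
  have x120f : α 120 = false := ff fun y => c1115 h x272t y x41t
  have x36f : α 36 = false := ff fun y => c1016 h x41t x282t y x267t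
  have x286t : α 286 = true := tt fun y => c1038 h y x120f x36f
  have x28f : α 28 = false := ff fun y => c839 h x286t x40t x272t y
  have x192t : α 192 = true := tt fun y => c857 h x92f y x28f x108f
  have x382f : α 382 = false := ff fun y => c1574 h y x192t x61t
  have x552t : α 552 = true := tt fun y => c2691 h x382f y x167f x359f
  have x500f : α 500 = false := ff fun y => c708 h y x552t x23t x97t
  have x321f : α 321 = false := ff fun y => c2485 h x124t y x552t
  have x379t : α 379 = true := tt fun y => c2916 h y x500f x200f x321f
  have x386f : α 386 = false := ff fun y => c463 h y x379t x19t x23t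
  have x71t : α 71 = true := tt fun y => c1721 h x386f x200f y
  have x189f : α 189 = false := ff fun y => c1704 h x80t x71t x183t y
  have x421f : α 421 = false := ff fun y => c1723 h x236t x552t x71t y
  c1483 h x321f x421f x58f x189f

theorem l4214 (h : Good α) (x421t : α 421 = true) (x302t : α 302 = true) (x515f : α 515 = false) (x468f : α 468 = false) (x103t : α 103 = true) (x49f : α 49 = false) (x379t : α 379 = true) (x71t : α 71 = true) (x189f : α 189 = false) (x276f : α 276 = false) (x282t : α 282 = true) (x128t : α 128 = true) (x95f : α 95 = false) (x236t : α 236 = true) (x238t : α 238 = true) (x190f : α 190 = false) (x80t : α 80 = true) : False :=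
  have x58f : α 58 = false := ff fun y => l4173 h y
  have x552f : α 552 = false := ff fun y => c1723 h x236t y x71t x421t
  have x268f : α 268 = false := ff fun y => c2259 h x302t x421t x103t y
  have x343t : α 343 = true := tt fun y => c2839 h x552f y x190f
  have x500t : α 500 = true := tt fun y => c3404 h x515f y x552f
  have x147t : α 147 = true := tt fun y => c1472 h x58f x189f y x268f
  have x112t : α 112 = true := tt fun y => c1167 h x49f y x268f
  have x255f : α 255 = false := ff fun y => c3131 h x343t y x282t
  have x215f : α 215 = false := ff fun y => c1827 h x379t x500t x80t y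
  have x174f : α 174 = false := ff fun y => c2353 h x147t x112t y
  have x152t : α 152 = true := tt fun y => c1475 h y x255f x58f x189f
  have x109t : α 109 = true := tt fun y => c2145 h x215f y x95f
  have x287t : α 287 = true := tt fun y => c2703 h x174f y x468f
  have x579f : α 579 = false := ff fun y => c2614 h x152t x343t y
  have x513f : α 513 = false := ff fun y => c2332 h x109t x282t y
  have x480f : α 480 = false := ff fun y => c2361 h x343t y x112t x287t
  have x291t : α 291 = true := tt fun y => c3234 h x276f x480f y x513f
  have x391t : α 391 = true := tt fun y => c3237 h y x579f x276f x480f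
  c2497 h x238t x391t x128t x291t

theorem l4215 (h : Good α) (x421f : α 421 = false) (x189f : α 189 = false) (x124t : α 124 = true) (x359f : α 359 = false) : False :=
  have x58f : α 58 = false := ff fun y => l4173 h y
  have x321t : α 321 = true := tt fun y => c1483 h y x421f x58f x189f
  have x552t : α 552 = true := tt fun y => c3316 h y x421f x359f
  c2485 h x124t x321t x552t

theorem l4216 (h : Good α) (x71t : α 71 = true) (x421t : α 421 = true) (x189f : α 189 = false) (x285t : α 285 = true) (x124t : α 124 = true) (x276f : α 276 = false) (x36f : α 36 = false) (x340f : α 340 = false) (x282t : α 282 = true) (x128t : α 128 = true) (x120f : α 120 = false) (x93t : α 93 = true) (x95f : α 95 = false) (x167t : α 167 = true) (x113f : α 113 = false) (x19t : α 19 = true) (x236t : α 236 = true) (x238t : α 238 = true) (x190f : α 190 = false) (x53f : α 53 = false) (x233t : α 233 = true) (x91f : α 91 = false) (x63t : α 63 = true) (x80t : α 80 = true) (x459f : α 459 = false) : False :=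
  have x58f : α 58 = false := ff fun y => l4173 h y
  have x399t : α 399 = true := tt fun y => c1484 h x58f x189f y
  have x46t : α 46 = true := tt fun y => c1019 h x120f x36f y
  have x23t : α 23 = true := tt fun y => l3627 h y x113f x53f
  have x32f : α 32 = false := ff fun y => c675 h x93t x23t y
  have x108f : α 108 = false := ff fun y => l3686 h y x167t
  have x56t : α 56 = true := tt fun y => l3648 h x53f y
  have x70f : α 70 = false := ff fun y => c473 h x56t x19t y
  have x452f : α 452 = false := ff fun y => c1725 h y x236t x71t
  have x379t : α 379 = true := tt fun y => l3654 h y x452f x53f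
  have x386f : α 386 = false := ff fun y => c463 h y x379t x19t x23t
  have x577f : α 577 = false := ff fun y => c3025 h y x379t x236t
  have x158t : α 158 = true := tt fun y => c1689 h x459f x386f y x70f
  have x115f : α 115 = false := ff fun y => c1139 h x46t y x158t x233t
  have x191t : α 191 = true := tt fun y => c1998 h y x91f x115f
  have x260f : α 260 = false := ff fun y => c1610 h x63t x167t x191t y
  have x27t : α 27 = true := tt fun y => c830 h y x113f x260f x340f
  have x275t : α 275 = true := tt fun y => c2312 h x120f x108f y x260f
  have x49f : α 49 = false := ff fun y => c820 h x275t x27t x285t y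
  have x256t : α 256 = true := tt fun y => c1169 h y x113f x49f
  have x103t : α 103 = true := tt fun y => c949 h y x32f x49f
  have x15f : α 15 = false := ff fun y => c302 h y x93t x256t
  have x468f : α 468 = false := ff fun y => c501 h x19t x399t x103t y
  have x88t : α 88 = true := tt fun y => c290 h x120f y x36f x15f
  have x235f : α 235 = false := ff fun y => c1378 h y x88t x56t
  have x455t : α 455 = true := tt fun y => c3012 h x577f y x386f x235f
  have x515f : α 515 = false := ff fun y => c1608 h x455t y x63t x124t
  have x302t : α 302 = true := tt fun y => c3245 h x577f x515f x386f y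
  l4214 h x421t x302t x515f x468f x103t x49f x379t x71t x189f x276f x282t x128t x95f x236t x238t x190f x80t

theorem l4217 (h : Good α) (x189f : α 189 = false) (x285t : α 285 = true) (x276f : α 276 = false) (x36f : α 36 = false) (x359f : α 359 = false) (x340f : α 340 = false) (x282t : α 282 = true) (x128t : α 128 = true) (x120f : α 120 = false) (x93t : α 93 = true) (x95f : α 95 = false) (x167t : α 167 = true) (x113f : α 113 = false) (x257f : α 257 = false) (x200f : α 200 = false) (x236t : α 236 = true) (x238t : α 238 = true) (x190f : α 190 = false) (x53f : α 53 = false) (x233t : α 233 = true) (x91f : α 91 = false) (x63t : α 63 = true) (x80t : α 80 = true) (x239t : α 239 = true) (x459f : α 459 = false) : False :=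
  have x124t : α 124 = true := tt fun y => c2003 h y x359f x91f x340f
  have x19t : α 19 = true := tt fun y => c493 h y x91f x257f
  have x421t : α 421 = true := tt fun y => l4215 h y x189f x124t x359f
  have x71f : α 71 = false := ff fun y => l4216 h y x421t x189f x285t x124t x276f x36f x340f x282t x128t x120f x93t x95f x167t x113f x19t x236t x238t x190f x53f x233t x91f x63t x80t x459f
  have x179t : α 179 = true := tt fun y => c1716 h y x71f x257f x189f
  have x386t : α 386 = true := tt fun y => c1721 h y x200f x71f
  c2715 h x386t x239t x179t

theorem l4218 (h : Good α) (x28f : α 28 = false) (x267t : α 267 = true) (x93t : α 93 = true) (x95f : α 95 = false) (x167t : α 167 = true) (x113f : α 113 = false) (x257f : α 257 = false) (x200f : α 200 = false) (x236t : α 236 = true) (x238t : α 238 = true) (x146t : α 146 = true) (x157t : α 157 = true) (x61t : α 61 = true) (x53f : α 53 = false) (x233t : α 233 = true) (x91f : α 91 = false) (x63t : α 63 = true) (x80t : α 80 = true) (x183t : α 183 = true) (x22f : α 22 = false) (x239t : α 239 = true) (x272t : α 272 = true) : False :=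
  have x58f : α 58 = false := ff fun y => l4173 h y
  have x249f : α 249 = false := ff fun y => l4102 h y
  have x175f : α 175 = false := ff fun y => l3714 h x167t y
  have x459f : α 459 = false := ff fun y => l3732 h x272t y
  have x286t : α 286 = true := tt fun y => c2707 h x459f y x175f
  have x369f : α 369 = false := ff fun y => c3212 h y x286t x272t
  have x41t : α 41 = true := tt fun y => c1117 h x369f x175f y
  have x120f : α 120 = false := ff fun y => c1115 h x272t y x41t
  have x23t : α 23 = true := tt fun y => l3627 h y x113f x53f
  have x32f : α 32 = false := ff fun y => c675 h x93t x23t y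
  have x108f : α 108 = false := ff fun y => l3686 h y x167t
  have x56t : α 56 = true := tt fun y => l3648 h x53f y
  have x327f : α 327 = false := ff fun y => l3667 h x56t y
  have x298t : α 298 = true := tt fun y => l3692 h x113f x327f y
  have x264t : α 264 = true := tt fun y => l3691 h x113f y
  have x180t : α 180 = true := tt fun y => l3690 h x113f y
  have x335t : α 335 = true := tt fun y => l3653 h x53f y
  have x19t : α 19 = true := tt fun y => c493 h y x91f x257f
  have x307f : α 307 = false := ff fun y => c480 h x56t x335t x19t y
  have x70f : α 70 = false := ff fun y => c473 h x56t x19t y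
  have x97t : α 97 = true := tt fun y => c1456 h x91f x58f y
  have x190f : α 190 = false := ff fun y => l3738 h y x61t x97t
  have x92f : α 92 = false := ff fun y => c1545 h y x61t x97t
  have x424f : α 424 = false := ff fun y => l3731 h y x335t x272t
  have x114f : α 114 = false := ff fun y => l3695 h y x272t
  have x128t : α 128 = true := tt fun y => c622 h x22f x28f y
  have x282t : α 282 = true := tt fun y => c870 h x28f x108f y
  have x192t : α 192 = true := tt fun y => c857 h x92f y x28f x108f
  have x340f : α 340 = false := ff fun y => c3192 h x282t x267t y
  have x359f : α 359 = false := ff fun y => c3194 h y x282t x267t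
  have x36f : α 36 = false := ff fun y => c1016 h x41t x282t y x267t
  have x276f : α 276 = false := ff fun y => c1566 h x192t y x61t x157t
  have x124t : α 124 = true := tt fun y => c2003 h y x359f x91f x340f
  have x285t : α 285 = true := tt fun y => c1036 h x36f x114f y
  have x46t : α 46 = true := tt fun y => c1019 h x120f x36f y
  have x189t : α 189 = true := tt fun y => l4217 h y x285t x276f x36f x359f x340f x282t x128t x120f x93t x95f x167t x113f x257f x200f x236t x238t x190f x53f x233t x91f x63t x80t x239t x459f
  have x71f : α 71 = false := ff fun y => c1704 h x80t y x183t x189t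
  have x386t : α 386 = true := tt fun y => c1721 h y x200f x71f
  have x235f : α 235 = false := ff fun y => c1619 h x386t y x239t x63t
  have x379f : α 379 = false := ff fun y => c463 h x386t y x19t x23t
  have x302f : α 302 = false := ff fun y => c2483 h x386t y x239t x124t
  have x184t : α 184 = true := tt fun y => c1294 h x379f y x53f
  have x452t : α 452 = true := tt fun y => l3654 h x379f y x53f
  have x269t : α 269 = true := tt fun y => c3009 h y x235f x302f
  have x429f : α 429 = false := ff fun y => c719 h y x184t x298t x23t
  have x81f : α 81 = false := ff fun y => c1839 h x184t x264t y x180t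
  have x342f : α 342 = false := ff fun y => c3200 h x286t x269t y
  have x35f : α 35 = false := ff fun y => c1000 h x286t x269t x46t y
  have x106t : α 106 = true := tt fun y => c2287 h x429f x249f y
  have x158t : α 158 = true := tt fun y => c1679 h y x70f x81f
  have x228t : α 228 = true := tt fun y => c951 h x32f x81f y
  have x72t : α 72 = true := tt fun y => c1001 h y x35f x70f
  have x117f : α 117 = false := ff fun y => c2275 h x106t y x146t x157t
  have x4f : α 4 = false := ff fun y => c137 h y x46t x158t
  have x119f : α 119 = false := ff fun y => c2091 h x93t y x228t
  have x15f : α 15 = false := ff fun y => c295 h x56t y x72t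
  have x557t : α 557 = true := tt fun y => c2433 h x424f y x117f x276f
  have x284t : α 284 = true := tt fun y => c1009 h x35f x119f y
  have x88t : α 88 = true := tt fun y => c290 h x120f y x36f x15f
  have x139t : α 139 = true := tt fun y => c286 h x15f x35f y
  have x133f : α 133 = false := ff fun y => c2511 h x557t x335t y
  have x474f : α 474 = false := ff fun y => c2721 h y x284t x180t
  have x182f : α 182 = false := ff fun y => c1931 h x88t y x139t x228t
  have x526t : α 526 = true := tt fun y => c2508 h x133f x307f y
  have x575t : α 575 = true := tt fun y => c145 h x175f y x4f x474f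
  have x337f : α 337 = false := ff fun y => c3239 h y x557t x284t x526t
  have x482f : α 482 = false := ff fun y => c3380 h x452t y x575t
  c2745 h x342f x482f x182f x337f

theorem l4219 (h : Good α) (x267t : α 267 = true) (x93t : α 93 = true) (x167t : α 167 = true) (x200f : α 200 = false) (x238t : α 238 = true) (x20t : α 20 = true) (x146t : α 146 = true) (x157t : α 157 = true) (x91f : α 91 = false) (x63t : α 63 = true) (x80t : α 80 = true) (x183t : α 183 = true) (x94t : α 94 = true) (x239t : α 239 = true) (x272t : α 272 = true) : False :=
  have x58f : α 58 = false := ff fun y => l4173 h y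
  have x459f : α 459 = false := ff fun y => l3732 h x272t y
  have x175f : α 175 = false := ff fun y => l3714 h x167t y
  have x286t : α 286 = true := tt fun y => c2707 h x459f y x175f
  have x369f : α 369 = false := ff fun y => c3212 h y x286t x272t
  have x114f : α 114 = false := ff fun y => l3695 h y x272t
  have x22f : α 22 = false := ff fun y => c657 h x272t x94t y
  have x97t : α 97 = true := tt fun y => c1456 h x91f x58f y
  have x53f : α 53 = false := ff fun y => l4182 h y x91f x94t x239t x272t
  have x54f : α 54 = false := ff fun y => c1323 h x239t x94t y
  have x1t : α 1 = true := tt fun y => c37 h x54f y x91f x58f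
  have x56t : α 56 = true := tt fun y => l3648 h x53f y
  have x59f : α 59 = false := ff fun y => c57 h x56t x1t y
  have x61t : α 61 = true := tt fun y => l3669 h x59f y
  have x204f : α 204 = false := ff fun y => c102 h x1t x61t y
  have x334t : α 334 = true := tt fun y => l3705 h x204f y
  have x250t : α 250 = true := tt fun y => c1312 h x54f x204f x91f y
  have x18t : α 18 = true := tt fun y => l4203 h y x91f x63t x54f
  have x108f : α 108 = false := ff fun y => l3686 h y x167t
  have x95f : α 95 = false := ff fun y => l4204 h y x108f x18t x250t x334t x146t x157t x61t x53f x97t x183t x22f x114f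
  have x450f : α 450 = false := ff fun y => c2200 h x97t x250t y
  have x335t : α 335 = true := tt fun y => l3653 h x53f y
  have x257f : α 257 = false := ff fun y => l4211 h y x334t x146t x157t x183t
  have x19t : α 19 = true := tt fun y => c493 h y x91f x257f
  have x307f : α 307 = false := ff fun y => c480 h x56t x335t x19t y
  have x212t : α 212 = true := tt fun y => c2960 h y x307f x450f
  have x113f : α 113 = false := ff fun y => c2178 h x212t y x97t
  have x264t : α 264 = true := tt fun y => l3691 h x113f y
  have x92f : α 92 = false := ff fun y => c1545 h y x61t x97t
  have x446f : α 446 = false := ff fun y => c2131 h y x239t x94t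
  have x405t : α 405 = true := tt fun y => c1463 h x446f y x91f x58f
  have x442f : α 442 = false := ff fun y => c104 h x405t y x1t x61t
  have x236t : α 236 = true := tt fun y => c2073 h x442f y x92f
  have x233t : α 233 = true := tt fun y => c1314 h x54f x91f y
  have x107f : α 107 = false := ff fun y => c1607 h x239t y x63t
  have x102f : α 102 = false := ff fun y => l3683 h y x267t
  have x28t : α 28 = true := tt fun y => l4218 h y x267t x93t x95f x167t x113f x257f x200f x236t x238t x146t x157t x61t x53f x233t x91f x63t x80t x183t x22f x239t x272t
  have x340f : α 340 = false := ff fun y => l3636 h x28t y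
  have x40f : α 40 = false := ff fun y => c839 h x286t y x272t x28t
  have x187t : α 187 = true := tt fun y => c1091 h x107f x40f y x102f
  have x338f : α 338 = false := ff fun y => c2114 h x94t x187t y
  have x191t : α 191 = true := tt fun y => c2010 h x338f y x91f
  have x278t : α 278 = true := tt fun y => c1097 h x107f x40f x338f y
  have x260f : α 260 = false := ff fun y => c1610 h x63t x167t x191t y
  have x477f : α 477 = false := ff fun y => c880 h x272t x28t y x278t
  have x44t : α 44 = true := tt fun y => c1127 h y x102f x260f
  have x207t : α 207 = true := tt fun y => c2954 h x369f y x477f x338f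
  have x34f : α 34 = false := ff fun y => c518 h y x20t x44t x28t
  have x280f : α 280 = false := ff fun y => c846 h y x264t x44t x28t
  have x30f : α 30 = false := ff fun y => c915 h x207t x63t y
  have x116t : α 116 = true := tt fun y => c993 h x280f y x34f
  have x282t : α 282 = true := tt fun y => c919 h x30f y x91f x340f
  have x343f : α 343 = false := ff fun y => c1130 h x116t y x44t x282t
  have x476f : α 476 = false := ff fun y => c878 h x264t y x28t x282t
  have x255f : α 255 = false := ff fun y => c524 h x20t y x28t x282t
  c3133 h x476f x343f x255f

theorem l4220 (h : Good α) (x191t : α 191 = true) (x275t : α 275 = true) (x260f : α 260 = false) (x558t : α 558 = true) (x25f : α 25 = false) (x192t : α 192 = true) (x128t : α 128 = true) (x18t : α 18 = true) (x250t : α 250 = true) (x190f : α 190 = false) (x204f : α 204 = false) (x197f : α 197 = false) (x54f : α 54 = false) : False :=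
  have x249f : α 249 = false := ff fun y => l4102 h y
  have x314f : α 314 = false := ff fun y => c2501 h x128t y x558t
  have x238t : α 238 = true := tt fun y => c2879 h x249f y x197f x204f
  have x181f : α 181 = false := ff fun y => c2730 h x275t x191t y
  have x413t : α 413 = true := tt fun y => c2732 h x181f x260f y
  have x83f : α 83 = false := ff fun y => c1865 h y x250t x413t x558t
  have x391t : α 391 = true := tt fun y => c1862 h y x204f x83f
  have x50t : α 50 = true := tt fun y => c769 h y x25f x83f
  have x165f : α 165 = false := ff fun y => c2683 h y x238t x391t
  have x291f : α 291 = false := ff fun y => c2497 h x238t x391t x128t y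
  have x390f : α 390 = false := ff fun y => c1196 h y x191t x50t
  have x79t : α 79 = true := tt fun y => c1801 h x165f y x83f
  have x24t : α 24 = true := tt fun y => c738 h y x291f x54f x314f
  have x82t : α 82 = true := tt fun y => c1855 h y x197f x390f
  have x458f : α 458 = false := ff fun y => c1812 h y x238t x79t
  have x397f : α 397 = false := ff fun y => c411 h x24t x391t x18t y
  have x74f : α 74 = false := ff fun y => c405 h x82t x24t y x18t
  have x173t : α 173 = true := tt fun y => c1756 h y x458f x74f x397f
  have x262t : α 262 = true := tt fun y => c2835 h y x458f x190f x397f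
  c1852 h x173t x262t x82t x192t

theorem l4221 (h : Good α) (x260f : α 260 = false) (x558t : α 558 = true) (x25f : α 25 = false) (x192t : α 192 = true) (x128t : α 128 = true) (x120f : α 120 = false) (x16t : α 16 = true) (x68f : α 68 = false) (x108f : α 108 = false) (x175f : α 175 = false) (x18t : α 18 = true) (x250t : α 250 = true) (x190f : α 190 = false) (x204f : α 204 = false) (x197f : α 197 = false) (x54f : α 54 = false) : False :=
  have x275t : α 275 = true := tt fun y => c2312 h x120f x108f y x260f
  have x467f : α 467 = false := ff fun y => l3735 h x275t y
  have x384t : α 384 = true := tt fun y => c1666 h x175f x68f x467f y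
  have x191f : α 191 = false := ff fun y => l4220 h y x275t x260f x558t x25f x192t x128t x18t x250t x190f x204f x197f x54f
  have x381t : α 381 = true := tt fun y => c1338 h x54f x191f y
  have x24t : α 24 = true := tt fun y => c736 h y x54f x191f
  c327 h x24t x16t x381t x384t

theorem l4222 (h : Good α) (x260t : α 260 = true) (x167t : α 167 = true) (x91f : α 91 = false) (x63t : α 63 = true) (x94t : α 94 = true) (x272t : α 272 = true) : False :=
  have x114f : α 114 = false := ff fun y => l3695 h y x272t
  have x275f : α 275 = false := ff fun y => l3715 h x260t y
  have x191f : α 191 = false := ff fun y => c1610 h x63t x167t y x260t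
  have x477t : α 477 = true := tt fun y => c2395 h y x275f x114f
  have x338t : α 338 = true := tt fun y => c2010 h y x191f x91f
  c2139 h x272t x94t x477t x338t

theorem l4223 (h : Good α) (x237t : α 237 = true) (x10f : α 10 = false) (x239t : α 239 = true) (x272t : α 272 = true) (x52f : α 52 = false) : False :=
  have x58f : α 58 = false := ff fun y => l4173 h y
  have x249f : α 249 = false := ff fun y => l4102 h y
  have x114f : α 114 = false := ff fun y => l3695 h y x272t
  have x459f : α 459 = false := ff fun y => l3732 h x272t y
  have x94t : α 94 = true := tt fun y => l4181 h y x237t x10f x239t x272t x52f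
  have x22f : α 22 = false := ff fun y => c657 h x272t x94t y
  have x54f : α 54 = false := ff fun y => c1323 h x239t x94t y
  have x446f : α 446 = false := ff fun y => c2131 h y x239t x94t
  have x183t : α 183 = true := tt fun y => c637 h x22f x52f y
  have x80t : α 80 = true := tt fun y => c634 h y x22f x52f
  have x63t : α 63 = true := tt fun y => l4185 h y x94t x239t x272t x52f
  have x107f : α 107 = false := ff fun y => c1607 h x239t y x63t
  have x91f : α 91 = false := ff fun y => l4195 h y x237t x10f x239t x272t x52f
  have x97t : α 97 = true := tt fun y => c1456 h x91f x58f y
  have x1t : α 1 = true := tt fun y => c37 h x54f y x91f x58f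
  have x405t : α 405 = true := tt fun y => c1463 h x446f y x91f x58f
  have x53f : α 53 = false := ff fun y => l4182 h y x91f x94t x239t x272t
  have x56t : α 56 = true := tt fun y => l3648 h x53f y
  have x335t : α 335 = true := tt fun y => l3653 h x53f y
  have x59f : α 59 = false := ff fun y => c57 h x56t x1t y
  have x61t : α 61 = true := tt fun y => l3669 h x59f y
  have x157t : α 157 = true := tt fun y => c1227 h x52f x59f y
  have x146t : α 146 = true := tt fun y => c1226 h y x52f x59f
  have x20t : α 20 = true := tt fun y => c510 h x22f y x52f x59f
  have x197f : α 197 = false := ff fun y => c1554 h y x61t x237t x97t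
  have x92f : α 92 = false := ff fun y => c1545 h y x61t x97t
  have x204f : α 204 = false := ff fun y => c102 h x1t x61t y
  have x242f : α 242 = false := ff fun y => c1557 h x61t x97t y
  have x190f : α 190 = false := ff fun y => l3738 h y x61t x97t
  have x442f : α 442 = false := ff fun y => c104 h x405t y x1t x61t
  have x353t : α 353 = true := tt fun y => c2889 h y x249f x197f
  have x334t : α 334 = true := tt fun y => l3705 h x204f y
  have x250t : α 250 = true := tt fun y => c1312 h x54f x204f x91f y
  have x238t : α 238 = true := tt fun y => c2879 h x249f y x197f x204f
  have x236t : α 236 = true := tt fun y => c2073 h x442f y x92f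
  have x200f : α 200 = false := ff fun y => c2914 h x353t x239t y
  have x450f : α 450 = false := ff fun y => c2200 h x97t x250t y
  have x18t : α 18 = true := tt fun y => l4203 h y x91f x63t x54f
  have x257f : α 257 = false := ff fun y => l4211 h y x334t x146t x157t x183t
  have x19t : α 19 = true := tt fun y => c493 h y x91f x257f
  have x307f : α 307 = false := ff fun y => c480 h x56t x335t x19t y
  have x212t : α 212 = true := tt fun y => c2960 h y x307f x450f
  have x113f : α 113 = false := ff fun y => c2178 h x212t y x97t
  have x180t : α 180 = true := tt fun y => l3690 h x113f y
  have x264t : α 264 = true := tt fun y => l3691 h x113f y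
  have x23t : α 23 = true := tt fun y => l3627 h y x113f x53f
  have x167t : α 167 = true := tt fun y => l4213 h y x200f x236t x197f x53f x91f x107f x63t x54f x94t x10f x272t x52f
  have x175f : α 175 = false := ff fun y => l3714 h x167t y
  have x108f : α 108 = false := ff fun y => l3686 h y x167t
  have x68f : α 68 = false := ff fun y => c1596 h x63t y x167t
  have x286t : α 286 = true := tt fun y => c2707 h x459f y x175f
  have x95f : α 95 = false := ff fun y => l4204 h y x108f x18t x250t x334t x146t x157t x61t x53f x97t x183t x22f x114f
  have x16t : α 16 = true := tt fun y => c342 h x68f y x52f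
  have x369f : α 369 = false := ff fun y => c3212 h y x286t x272t
  have x93t : α 93 = true := tt fun y => c1219 h x53f y x52f x95f
  have x41t : α 41 = true := tt fun y => c1117 h x369f x175f y
  have x263f : α 263 = false := ff fun y => c702 h y x93t x23t
  have x120f : α 120 = false := ff fun y => c1115 h x272t y x41t
  have x267f : α 267 = false := ff fun y => l4219 h y x93t x167t x200f x238t x20t x146t x157t x91f x63t x80t x183t x94t x239t x272t
  have x40t : α 40 = true := tt fun y => c1099 h y x108f x267f
  have x483t : α 483 = true := tt fun y => c2319 h x108f x267f y
  have x497t : α 497 = true := tt fun y => c2156 h x95f x267f y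
  have x359f : α 359 = false := ff fun y => c1103 h x40t x167t y
  have x28f : α 28 = false := ff fun y => c839 h x286t x40t x272t y
  have x282t : α 282 = true := tt fun y => c3193 h x359f y x267f
  have x128t : α 128 = true := tt fun y => c622 h x22f x28f y
  have x192t : α 192 = true := tt fun y => c857 h x92f y x28f x108f
  have x25f : α 25 = false := ff fun y => c777 h x192t x61t y
  have x260f : α 260 = false := ff fun y => l4222 h y x167t x91f x63t x94t x272t
  have x558f : α 558 = false := ff fun y => l4221 h x260f y x25f x192t x128t x120f x16t x68f x108f x175f x18t x250t x190f x204f x197f x54f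
  have x36f : α 36 = false := ff fun y => l4197 h x41t x558f x497t y x18t x91f
  have x340t : α 340 = true := tt fun y => c1035 h x36f x267f x114f y
  have x274f : α 274 = false := ff fun y => c2205 h x97t y x340t x483t
  have x371f : α 371 = false := ff fun y => c2963 h x212t y x340t x483t
  have x109f : α 109 = false := ff fun y => c2326 h y x282t x183t x340t
  have x284t : α 284 = true := tt fun y => c3223 h x371f y x274f
  have x184t : α 184 = true := tt fun y => c664 h y x263f x22f x109f
  have x474f : α 474 = false := ff fun y => c2721 h y x284t x180t
  have x81f : α 81 = false := ff fun y => c1839 h x184t x264t y x180t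
  have x256t : α 256 = true := tt fun y => l3708 h y x474f
  have x119t : α 119 = true := tt fun y => c1833 h y x274f x81f x242f
  c2093 h x93t x256t x119t x284t

theorem l4224 (h : Good α) (x260f : α 260 = false) (x386f : α 386 = false) (x158t : α 158 = true) (x576t : α 576 = true) (x205f : α 205 = false) (x189f : α 189 = false) (x233f : α 233 = false) (x238f : α 238 = false) (x22f : α 22 = false) (x312t : α 312 = true) (x53f : α 53 = false) (x107f : α 107 = false) (x63t : α 63 = true) (x237f : α 237 = false) (x272t : α 272 = true) (x52f : α 52 = false) : False :=
  have x58f : α 58 = false := ff fun y => l4173 h y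
  have x249f : α 249 = false := ff fun y => l4102 h y
  have x197t : α 197 = true := tt fun y => c2885 h x249f y x237f
  have x326f : α 326 = false := ff fun y => l3726 h x197t y
  have x146t : α 146 = true := tt fun y => c1241 h x326f y x52f
  have x195f : α 195 = false := ff fun y => c2547 h x197t x146t y
  have x1t : α 1 = true := tt fun y => c25 h y x52f x195f
  have x56t : α 56 = true := tt fun y => l3648 h x53f y
  have x59f : α 59 = false := ff fun y => c57 h x56t x1t y
  have x61t : α 61 = true := tt fun y => l3669 h x59f y
  have x57t : α 57 = true := tt fun y => c1401 h x249f y x237f x58f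
  have x92f : α 92 = false := ff fun y => c64 h x57t y x1t x61t
  have x97t : α 97 = true := tt fun y => c2046 h x249f x92f x237f y
  have x242f : α 242 = false := ff fun y => c1557 h x61t x97t y
  have x335t : α 335 = true := tt fun y => l3653 h x53f y
  have x424f : α 424 = false := ff fun y => l3731 h y x335t x272t
  have x117t : α 117 = true := tt fun y => c2427 h x424f x238f y
  have x20t : α 20 = true := tt fun y => c510 h x22f y x52f x59f
  have x387t : α 387 = true := tt fun y => c1526 h x59f x189f y
  have x462f : α 462 = false := ff fun y => c573 h x20t x117t x387t y
  have x81t : α 81 = true := tt fun y => c1846 h y x242f x462f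
  have x184f : α 184 = false := ff fun y => c1836 h x272t y x158t x81t
  have x200f : α 200 = false := ff fun y => c68 h y x57t x1t
  have x353t : α 353 = true := tt fun y => c1486 h y x200f x237f x58f
  have x236f : α 236 = false := ff fun y => c1576 h x353t y x197t x61t
  have x442t : α 442 = true := tt fun y => c2073 h y x236f x92f
  have x405f : α 405 = false := ff fun y => c104 h y x442t x1t x61t
  have x352t : α 352 = true := tt fun y => c2911 h x200f x236f y
  have x91t : α 91 = true := tt fun y => c1461 h x237f y x58f
  have x446f : α 446 = false := ff fun y => c1991 h y x442t x91t x97t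
  have x545t : α 545 = true := tt fun y => c3354 h y x446f x405f
  have x535f : α 535 = false := ff fun y => c3312 h x545t y x353t x352t
  have x250t : α 250 = true := tt fun y => c1498 h x405f x535f x58f y
  have x157t : α 157 = true := tt fun y => c1227 h x52f x59f y
  have x273f : α 273 = false := ff fun y => c2422 h x117t x157t y
  have x430t : α 430 = true := tt fun y => c2824 h x189f x273f y
  have x113f : α 113 = false := ff fun y => c2370 h y x250t x430t
  have x23t : α 23 = true := tt fun y => l3627 h y x113f x53f
  have x180t : α 180 = true := tt fun y => l3690 h x113f y
  have x19t : α 19 = true := tt fun y => c483 h y x58f x189f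
  have x399t : α 399 = true := tt fun y => c1484 h x58f x189f y
  have x114f : α 114 = false := ff fun y => l3695 h y x272t
  have x423t : α 423 = true := tt fun y => c2388 h x114f x237f y
  have x183t : α 183 = true := tt fun y => c637 h x22f x52f y
  have x257f : α 257 = false := ff fun y => c2757 h x423t y x183t
  have x380t : α 380 = true := tt fun y => c3036 h x237f x257f y
  have x106f : α 106 = false := ff fun y => c2275 h y x117t x146t x157t
  have x340f : α 340 = false := ff fun y => c2007 h x91t x183t y
  have x190f : α 190 = false := ff fun y => l3738 h y x61t x97t
  have x188f : α 188 = false := ff fun y => l3666 h y x272t x56t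
  have x578t : α 578 = true := tt fun y => l4123 h y x237f
  have x346f : α 346 = false := ff fun y => l3740 h x272t y
  have x483t : α 483 = true := tt fun y => c3163 h x260f x340f y
  have x27t : α 27 = true := tt fun y => c830 h y x113f x260f x340f
  have x87t : α 87 = true := tt fun y => c1920 h y x189f x260f x340f
  have x46f : α 46 = false := ff fun y => c1144 h y x483t x158t x576t
  have x25f : α 25 = false := ff fun y => c763 h x27t y x87t
  have x275t : α 275 = true := tt fun y => c1137 h y x114f x46f
  have x120f : α 120 = false := ff fun y => l3699 h y x275t
  have x36t : α 36 = true := tt fun y => c1019 h x120f y x46f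
  have x4f : α 4 = false := ff fun y => l3616 h y x36t
  have x74f : α 74 = false := ff fun y => l3637 h x36t y x197t
  have x457t : α 457 = true := tt fun y => c1763 h x74f x237f y
  have x12t : α 12 = true := tt fun y => c223 h y x74f x237f
  have x98t : α 98 = true := tt fun y => c1749 h x74f y x237f x257f
  have x15f : α 15 = false := ff fun y => c296 h x56t y x146t x98t
  have x253f : α 253 = false := ff fun y => c2211 h y x146t x98t
  have x475t : α 475 = true := tt fun y => c2290 h x106f x253f y
  have x392t : α 392 = true := tt fun y => c2286 h x249f x106f y x253f
  have x48t : α 48 = true := tt fun y => c1158 h y x106f x253f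
  have x26f : α 26 = false := ff fun y => c798 h x48t y x98t
  have x173f : α 173 = false := ff fun y => c1160 h y x48t x578t x475t
  have x88t : α 88 = true := tt fun y => c802 h x188f y x106f x26f
  have x38t : α 38 = true := tt fun y => c794 h x106f x26f y
  have x281t : α 281 = true := tt fun y => c807 h y x106f x26f
  have x122t : α 122 = true := tt fun y => c805 h x106f x26f x205f y
  have x148t : α 148 = true := tt fun y => c2298 h x173f x107f y
  have x18t : α 18 = true := tt fun y => c437 h x173f x107f x74f y
  have x262t : α 262 = true := tt fun y => c1754 h x173f y x74f x190f
  have x235f : α 235 = false := ff fun y => c1378 h y x88t x56t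
  have x481f : α 481 = false := ff fun y => c218 h x12t x38t x457t y
  have x549f : α 549 = false := ff fun y => c2472 h x122t x312t y
  have x259f : α 259 = false := ff fun y => c442 h x18t x91t y
  have x95f : α 95 = false := ff fun y => c440 h x18t y x91t x183t
  have x458f : α 458 = false := ff fun y => c2570 h x148t x262t y
  have x269t : α 269 = true := tt fun y => c3010 h x386f y x235f
  have x336t : α 336 = true := tt fun y => c3123 h x253f y x481f
  have x103t : α 103 = true := tt fun y => c2257 h y x259f x481f
  have x376t : α 376 = true := tt fun y => c3165 h x549f y x260f
  have x304t : α 304 = true := tt fun y => c2995 h x259f x233f y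
  have x247t : α 247 = true := tt fun y => c1240 h x52f x95f y
  have x93t : α 93 = true := tt fun y => c1219 h x53f y x52f x95f
  have x230t : α 230 = true := tt fun y => c1239 h x52f x95f x195f y
  have x79t : α 79 = true := tt fun y => c1811 h x458f x238f y
  have x498f : α 498 = false := ff fun y => c1938 h y x269t x88t
  have x191t : α 191 = true := tt fun y => l3546 h x260f x189f x340f x336t y
  have x181f : α 181 = false := ff fun y => c1919 h x336t y x87t
  have x34f : α 34 = false := ff fun y => c991 h x281t y x336t x87t
  have x468f : α 468 = false := ff fun y => c501 h x19t x399t x103t y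
  have x17f : α 17 = false := ff fun y => c369 h y x23t x376t x380t
  have x115f : α 115 = false := ff fun y => c456 h x18t y x304t
  have x263f : α 263 = false := ff fun y => c702 h y x93t x23t
  have x572f : α 572 = false := ff fun y => c2986 h x230t x380t y
  have x174f : α 174 = false := ff fun y => c1805 h x392t x79t x457t y
  have x344t : α 344 = true := tt fun y => c3303 h x498f x386f y
  have x175f : α 175 = false := ff fun y => c1614 h y x63t x275t x191t
  have x121t : α 121 = true := tt fun y => c372 h x17f x25f y
  have x419t : α 419 = true := tt fun y => c2404 h x115f x233f y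
  have x75t : α 75 = true := tt fun y => c1766 h y x115f x233f
  have x109t : α 109 = true := tt fun y => c664 h x184f x263f x22f y
  have x478t : α 478 = true := tt fun y => c3400 h x572f y x468f
  have x287t : α 287 = true := tt fun y => c2703 h x174f y x468f
  have x100f : α 100 = false := ff fun y => c1069 h x344t y x281t x38t
  have x41t : α 41 = true := tt fun y => c133 h x175f y x4f
  have x47f : α 47 = false := ff fun y => c1153 h x281t y x336t x121t
  have x561f : α 561 = false := ff fun y => c1775 h x75t x247t x419t y
  have x255f : α 255 = false := ff fun y => c1072 h x38t x109t y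
  have x49f : α 49 = false := ff fun y => c1175 h y x180t x478t x576t
  have x37f : α 37 = false := ff fun y => c1062 h y x121t x287t
  have x186t : α 186 = true := tt fun y => c305 h x100f x255f x15f y
  have x14t : α 14 = true := tt fun y => c246 h x34f x47f y x37f
  have x339t : α 339 = true := tt fun y => c2738 h x181f y x561f
  have x256t : α 256 = true := tt fun y => c1169 h y x113f x49f
  have x101f : α 101 = false := ff fun y => c267 h y x256t x14t x186t
  have x285f : α 285 = false := ff fun y => c1108 h x41t x109t y x339t
  c1163 h x346f x101f x285f x49f

theorem l4225 (h : Good α) (x94t : α 94 = true) (x71t : α 71 = true) (x53f : α 53 = false) (x63t : α 63 = true) (x237f : α 237 = false) (x239t : α 239 = true) (x272t : α 272 = true) (x52f : α 52 = false) : False :=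
  have x249f : α 249 = false := ff fun y => l4102 h y
  have x58f : α 58 = false := ff fun y => l4173 h y
  have x197t : α 197 = true := tt fun y => c2885 h x249f y x237f
  have x326f : α 326 = false := ff fun y => l3726 h x197t y
  have x146t : α 146 = true := tt fun y => c1241 h x326f y x52f
  have x195f : α 195 = false := ff fun y => c2547 h x197t x146t y
  have x1t : α 1 = true := tt fun y => c25 h y x52f x195f
  have x56t : α 56 = true := tt fun y => l3648 h x53f y
  have x59f : α 59 = false := ff fun y => c57 h x56t x1t y
  have x61t : α 61 = true := tt fun y => l3669 h x59f y
  have x57t : α 57 = true := tt fun y => c1401 h x249f y x237f x58f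
  have x92f : α 92 = false := ff fun y => c64 h x57t y x1t x61t
  have x200f : α 200 = false := ff fun y => c68 h y x57t x1t
  have x353t : α 353 = true := tt fun y => c1486 h y x200f x237f x58f
  have x236f : α 236 = false := ff fun y => c1576 h x353t y x197t x61t
  have x442t : α 442 = true := tt fun y => c2073 h y x236f x92f
  have x405f : α 405 = false := ff fun y => c104 h y x442t x1t x61t
  have x352t : α 352 = true := tt fun y => c2911 h x200f x236f y
  have x91t : α 91 = true := tt fun y => c1461 h x237f y x58f
  have x97t : α 97 = true := tt fun y => c2046 h x249f x92f x237f y
  have x446f : α 446 = false := ff fun y => c1991 h y x442t x91t x97t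
  have x545t : α 545 = true := tt fun y => c3354 h y x446f x405f
  have x535f : α 535 = false := ff fun y => c3312 h x545t y x353t x352t
  have x250t : α 250 = true := tt fun y => c1498 h x405f x535f x58f y
  have x327f : α 327 = false := ff fun y => c2549 h y x197t x146t
  have x547f : α 547 = false := ff fun y => c3066 h y x353t x239t
  have x449t : α 449 = true := tt fun y => c2075 h x547f x236f y x92f
  have x402f : α 402 = false := ff fun y => c72 h x449t x57t y x1t
  have x328t : α 328 = true := tt fun y => c3263 h y x327f x402f
  have x312t : α 312 = true := tt fun y => c3252 h x402f x326f y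
  have x242f : α 242 = false := ff fun y => c1557 h x61t x97t y
  have x201t : α 201 = true := tt fun y => c2903 h x200f x236f y x242f
  have x157t : α 157 = true := tt fun y => c1227 h x52f x59f y
  have x335t : α 335 = true := tt fun y => l3653 h x53f y
  have x424f : α 424 = false := ff fun y => l3731 h y x335t x272t
  have x107f : α 107 = false := ff fun y => c1607 h x239t y x63t
  have x578t : α 578 = true := tt fun y => l4123 h y x237f
  have x114f : α 114 = false := ff fun y => l3695 h y x272t
  have x22f : α 22 = false := ff fun y => c657 h x272t x94t y
  have x238f : α 238 = false := ff fun y => c2126 h x239t x352t x94t y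
  have x233f : α 233 = false := ff fun y => c1421 h x94t x57t y x201t
  have x183t : α 183 = true := tt fun y => c637 h x22f x52f y
  have x80t : α 80 = true := tt fun y => c634 h y x22f x52f
  have x306t : α 306 = true := tt fun y => c641 h y x22f x326f x52f
  have x117t : α 117 = true := tt fun y => c2427 h x424f x238f y
  have x340f : α 340 = false := ff fun y => c2007 h x91t x183t y
  have x189f : α 189 = false := ff fun y => c1704 h x80t x71t x183t y
  have x161f : α 161 = false := ff fun y => c1700 h x80t x71t y
  have x205f : α 205 = false := ff fun y => c2948 h x449t x306t y
  have x273f : α 273 = false := ff fun y => c2422 h x117t x157t y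
  have x19t : α 19 = true := tt fun y => c483 h y x58f x189f
  have x387t : α 387 = true := tt fun y => c1526 h x59f x189f y
  have x430t : α 430 = true := tt fun y => c2824 h x189f x273f y
  have x379t : α 379 = true := tt fun y => c2676 h y x236f x161f
  have x378f : α 378 = false := ff fun y => c1706 h x80t x71t y x387t
  have x113f : α 113 = false := ff fun y => c2370 h y x250t x430t
  have x576t : α 576 = true := tt fun y => c3004 h x233f x378f y
  have x158t : α 158 = true := tt fun y => c2668 h y x233f x378f
  have x23t : α 23 = true := tt fun y => l3627 h y x113f x53f
  have x386f : α 386 = false := ff fun y => c463 h y x379t x19t x23t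
  have x260t : α 260 = true := tt fun y => l4224 h y x386f x158t x576t x205f x189f x233f x238f x22f x312t x53f x107f x63t x237f x272t x52f
  have x275f : α 275 = false := ff fun y => l3715 h x260t y
  have x425f : α 425 = false := ff fun y => l3720 h y x260t x328t
  have x477t : α 477 = true := tt fun y => c2395 h y x275f x114f
  have x46t : α 46 = true := tt fun y => c1137 h x275f x114f y
  have x191t : α 191 = true := tt fun y => c2845 h x425f x275f y
  have x162f : α 162 = false := ff fun y => c1145 h x477t x46t x578t y
  have x483f : α 483 = false := ff fun y => c1144 h x46t y x158t x576t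
  have x115f : α 115 = false := ff fun y => c1999 h x191t x91t y
  have x156t : α 156 = true := tt fun y => c2401 h x162f x115f y
  have x345t : α 345 = true := tt fun y => c2826 h x189f y x340f x483f
  c2646 h x156t x345t x201t x387t

theorem l4226 (h : Good α) (x204f : α 204 = false) (x63t : α 63 = true) (x10f : α 10 = false) (x239t : α 239 = true) (x272t : α 272 = true) (x52f : α 52 = false) : False :=
  have x249f : α 249 = false := ff fun y => l4102 h y
  have x58f : α 58 = false := ff fun y => l4173 h y
  have x107f : α 107 = false := ff fun y => c1607 h x239t y x63t
  have x237f : α 237 = false := ff fun y => l4223 h y x10f x239t x272t x52f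
  have x57t : α 57 = true := tt fun y => c1401 h x249f y x237f x58f
  have x197t : α 197 = true := tt fun y => c2885 h x249f y x237f
  have x326f : α 326 = false := ff fun y => l3726 h x197t y
  have x146t : α 146 = true := tt fun y => c1241 h x326f y x52f
  have x195f : α 195 = false := ff fun y => c2547 h x197t x146t y
  have x1t : α 1 = true := tt fun y => c25 h y x52f x195f
  have x200f : α 200 = false := ff fun y => c68 h y x57t x1t
  have x353t : α 353 = true := tt fun y => c1486 h y x200f x237f x58f
  have x91t : α 91 = true := tt fun y => c1461 h x237f y x58f
  have x334t : α 334 = true := tt fun y => l3705 h x204f y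
  have x196t : α 196 = true := tt fun y => l3702 h y x204f
  have x53f : α 53 = false := ff fun y => c32 h x196t y x1t
  have x56t : α 56 = true := tt fun y => l3648 h x53f y
  have x188f : α 188 = false := ff fun y => l3666 h y x272t x56t
  have x59f : α 59 = false := ff fun y => c57 h x56t x1t y
  have x61t : α 61 = true := tt fun y => l3669 h x59f y
  have x157t : α 157 = true := tt fun y => c1227 h x52f x59f y
  have x92f : α 92 = false := ff fun y => c64 h x57t y x1t x61t
  have x236f : α 236 = false := ff fun y => c1576 h x353t y x197t x61t
  have x97t : α 97 = true := tt fun y => c2046 h x249f x92f x237f y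
  have x442t : α 442 = true := tt fun y => c2073 h y x236f x92f
  have x352t : α 352 = true := tt fun y => c2911 h x200f x236f y
  have x71t : α 71 = true := tt fun y => c195 h x236f y x10f
  have x446f : α 446 = false := ff fun y => c1991 h y x442t x91t x97t
  have x405f : α 405 = false := ff fun y => c104 h y x442t x1t x61t
  have x545t : α 545 = true := tt fun y => c3354 h y x446f x405f
  have x535f : α 535 = false := ff fun y => c3312 h x545t y x353t x352t
  have x250t : α 250 = true := tt fun y => c1498 h x405f x535f x58f y
  have x94f : α 94 = false := ff fun y => l4225 h y x71t x53f x63t x237f x239t x272t x52f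
  have x187t : α 187 = true := tt fun y => c2105 h x107f x94f y
  have x207t : α 207 = true := tt fun y => c2107 h y x107f x94f
  have x106t : α 106 = true := tt fun y => c2100 h x188f x94f y
  have x30f : α 30 = false := ff fun y => c915 h x207t x63t y
  have x257f : α 257 = false := ff fun y => c2283 h x106t x146t y
  have x117f : α 117 = false := ff fun y => c2275 h x106t y x146t x157t
  have x299f : α 299 = false := ff fun y => c2284 h x106t y x146t x334t
  have x100t : α 100 = true := tt fun y => c922 h x188f y x94f x30f
  have x298t : α 298 = true := tt fun y => c3034 h y x237f x257f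
  have x380t : α 380 = true := tt fun y => c3036 h x237f x257f y
  have x184t : α 184 = true := tt fun y => c2056 h y x92f x117f
  have x20t : α 20 = true := tt fun y => c570 h y x117f x299f
  have x22f : α 22 = false := ff fun y => c647 h x184t x57t y
  have x85f : α 85 = false := ff fun y => c532 h x57t x20t y
  have x28t : α 28 = true := tt fun y => c620 h x94f x22f y
  have x183t : α 183 = true := tt fun y => c637 h x22f x52f y
  have x80t : α 80 = true := tt fun y => c634 h y x22f x52f
  have x29t : α 29 = true := tt fun y => c628 h x107f y x94f x22f
  have x340f : α 340 = false := ff fun y => l3636 h x28t y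
  have x189f : α 189 = false := ff fun y => c1704 h x80t x71t x183t y
  have x68f : α 68 = false := ff fun y => c888 h x80t x29t y
  have x399t : α 399 = true := tt fun y => c1484 h x58f x189f y
  have x19t : α 19 = true := tt fun y => c483 h y x58f x189f
  have x387t : α 387 = true := tt fun y => c1526 h x59f x189f y
  have x16t : α 16 = true := tt fun y => c342 h x68f y x52f
  have x273f : α 273 = false := ff fun y => c3112 h x250t y x399t
  have x461f : α 461 = false := ff fun y => c497 h x100t y x19t x399t
  have x15f : α 15 = false := ff fun y => c279 h x100t y x19t
  have x378f : α 378 = false := ff fun y => c1706 h x80t x71t y x387t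
  have x451f : α 451 = false := ff fun y => c567 h x106t x20t y x387t
  have x95f : α 95 = false := ff fun y => c335 h x29t x16t y
  have x430t : α 430 = true := tt fun y => c2429 h x117f x299f x273f y
  have x480t : α 480 = true := tt fun y => c1883 h x117f y x85f x461f
  have x90t : α 90 = true := tt fun y => c1233 h y x52f x95f
  have x93t : α 93 = true := tt fun y => c1219 h x53f y x52f x95f
  have x230t : α 230 = true := tt fun y => c1239 h x52f x95f x195f y
  have x113f : α 113 = false := ff fun y => c2370 h y x250t x430t
  have x135f : α 135 = false := ff fun y => c1966 h x207t y x187t x90t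
  have x140f : α 140 = false := ff fun y => c2522 h y x230t x298t x380t
  have x166f : α 166 = false := ff fun y => c2686 h y x230t x380t
  have x180t : α 180 = true := tt fun y => l3690 h x113f y
  have x264t : α 264 = true := tt fun y => l3691 h x113f y
  have x23t : α 23 = true := tt fun y => l3627 h y x113f x53f
  have x109t : α 109 = true := tt fun y => c1658 h x135f x68f y
  have x36t : α 36 = true := tt fun y => c293 h x140f y x15f
  have x282t : α 282 = true := tt fun y => c2687 h x166f y x461f
  have x81f : α 81 = false := ff fun y => c1839 h x184t x264t y x180t
  have x32f : α 32 = false := ff fun y => c675 h x93t x23t y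
  have x255f : α 255 = false := ff fun y => c2329 h x109t y x480t
  have x4f : α 4 = false := ff fun y => l3616 h y x36t
  have x74f : α 74 = false := ff fun y => l3637 h x36t y x197t
  have x476f : α 476 = false := ff fun y => c878 h x264t y x28t x282t
  have x339t : α 339 = true := tt fun y => c952 h x32f x81f y x378f
  have x186t : α 186 = true := tt fun y => c2787 h x255f y x189f
  have x98t : α 98 = true := tt fun y => c1749 h x74f y x237f x257f
  have x478f : α 478 = false := ff fun y => c2330 h x109t x282t x339t y
  have x163f : α 163 = false := ff fun y => c2209 h x146t x98t y
  have x267t : α 267 = true := tt fun y => c3195 h y x340f x478f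
  have x277t : α 277 = true := tt fun y => c2680 h x163f y x451f
  have x41f : α 41 = false := ff fun y => c1016 h y x282t x36t x267t
  have x345f : α 345 = false := ff fun y => c2212 h x98t x186t x277t y
  have x474t : α 474 = true := tt fun y => c135 h x41f x476f x4f y
  have x284t : α 284 = true := tt fun y => c2367 h x113f y x189f x345f
  c2721 h x474t x284t x180t

theorem l4227 (h : Good α) (x204t : α 204 = true) (x353t : α 353 = true) (x200f : α 200 = false) (x1t : α 1 = true) (x91t : α 91 = true) (x197t : α 197 = true) (x239t : α 239 = true) : False :=
  have x58f : α 58 = false := ff fun y => l4173 h y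
  have x54f : α 54 = false := ff fun y => l3796 h x197t y
  have x61f : α 61 = false := ff fun y => c102 h x1t y x204t
  have x201t : α 201 = true := tt fun y => l3474 h x197t x200f x204t y x58f
  have x352f : α 352 = false := ff fun y => c2884 h x353t y x197t x204t
  have x543f : α 543 = false := ff fun y => l3556 h x54f y x1t x61f
  have x351f : α 351 = false := ff fun y => c112 h x197t x1t y x201t
  have x236t : α 236 = true := tt fun y => c2911 h x200f y x352f
  have x233t : α 233 = true := tt fun y => c3000 h x543f x351f y
  have x97f : α 97 = false := ff fun y => c1989 h x239t x236t x91t y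
  have x242f : α 242 = false := ff fun y => c2991 h x239t x236t x233t y
  c1556 h x61f x97f x242f

theorem l4228 (h : Good α) (x10f : α 10 = false) (x239t : α 239 = true) (x52f : α 52 = false) (x272t : α 272 = true) : False :=
  have x249f : α 249 = false := ff fun y => l4102 h y
  have x58f : α 58 = false := ff fun y => l4173 h y
  have x237f : α 237 = false := ff fun y => l4223 h y x10f x239t x272t x52f
  have x197t : α 197 = true := tt fun y => c2885 h x249f y x237f
  have x57t : α 57 = true := tt fun y => c1401 h x249f y x237f x58f
  have x91t : α 91 = true := tt fun y => c1461 h x237f y x58f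
  have x326f : α 326 = false := ff fun y => l3726 h x197t y
  have x54f : α 54 = false := ff fun y => l3796 h x197t y
  have x146t : α 146 = true := tt fun y => c1241 h x326f y x52f
  have x195f : α 195 = false := ff fun y => c2547 h x197t x146t y
  have x1t : α 1 = true := tt fun y => c25 h y x52f x195f
  have x200f : α 200 = false := ff fun y => c68 h y x57t x1t
  have x353t : α 353 = true := tt fun y => c1486 h y x200f x237f x58f
  have x204f : α 204 = false := ff fun y => l4227 h y x353t x200f x1t x91t x197t x239t
  have x196t : α 196 = true := tt fun y => l3702 h y x204f
  have x63f : α 63 = false := ff fun y => l4226 h x204f y x10f x239t x272t x52f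
  have x53f : α 53 = false := ff fun y => c32 h x196t y x1t
  have x94f : α 94 = false := ff fun y => l4185 h x63f y x239t x272t x52f
  have x56t : α 56 = true := tt fun y => l3648 h x53f y
  have x238t : α 238 = true := tt fun y => c1320 h x94f y x54f x204f
  have x188f : α 188 = false := ff fun y => l3666 h y x272t x56t
  have x59f : α 59 = false := ff fun y => c57 h x56t x1t y
  have x92f : α 92 = false := ff fun y => c1416 h x57t y x238t
  have x106t : α 106 = true := tt fun y => c2100 h x188f x94f y
  have x61t : α 61 = true := tt fun y => l3669 h x59f y
  have x157t : α 157 = true := tt fun y => c1227 h x52f x59f y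
  have x97t : α 97 = true := tt fun y => c2046 h x249f x92f x237f y
  have x117f : α 117 = false := ff fun y => c2275 h x106t y x146t x157t
  have x236f : α 236 = false := ff fun y => c1576 h x353t y x197t x61t
  have x184t : α 184 = true := tt fun y => c2056 h y x92f x117f
  have x442t : α 442 = true := tt fun y => c2073 h y x236f x92f
  have x22f : α 22 = false := ff fun y => c647 h x184t x57t y
  have x446f : α 446 = false := ff fun y => c1991 h y x442t x91t x97t
  l4176 h x63f x22f x446f x54f x94f x52f

theorem l4229 (h : Good α) (x239t : α 239 = true) (x272t : α 272 = true) (x52f : α 52 = false) : False :=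
  have x249f : α 249 = false := ff fun y => l4102 h y
  have x58f : α 58 = false := ff fun y => l4173 h y
  have x114f : α 114 = false := ff fun y => l3695 h y x272t
  have x10t : α 10 = true := tt fun y => l4228 h y x239t x52f x272t
  have x28f : α 28 = false := ff fun y => l3618 h x10t y
  have x80f : α 80 = false := ff fun y => c199 h x239t y x10t
  have x22t : α 22 = true := tt fun y => c634 h x80f y x52f
  have x94f : α 94 = false := ff fun y => c657 h x272t y x22t
  have x57t : α 57 = true := tt fun y => c1422 h x249f x94f y
  have x237f : α 237 = false := ff fun y => l4175 h x28f x94f y x239t x114f x52f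
  have x91t : α 91 = true := tt fun y => l4174 h y x28f x94f x239t x114f
  have x62f : α 62 = false := ff fun y => c643 h x57t x22t y
  have x197t : α 197 = true := tt fun y => c2885 h x249f y x237f
  have x106t : α 106 = true := tt fun y => c1589 h x249f y x62f
  have x326f : α 326 = false := ff fun y => l3726 h x197t y
  have x54f : α 54 = false := ff fun y => l3796 h x197t y
  have x20f : α 20 = false := ff fun y => c513 h x106t x22t y
  have x146t : α 146 = true := tt fun y => c1241 h x326f y x52f
  have x92t : α 92 = true := tt fun y => c521 h y x20f x28f
  have x195f : α 195 = false := ff fun y => c2547 h x197t x146t y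
  have x238f : α 238 = false := ff fun y => c1416 h x57t x92t y
  have x1t : α 1 = true := tt fun y => c25 h y x52f x195f
  have x204t : α 204 = true := tt fun y => c1320 h x94f x238f x54f y
  have x200f : α 200 = false := ff fun y => c68 h y x57t x1t
  have x353f : α 353 = false := ff fun y => l4227 h x204t y x200f x1t x91t x197t x239t
  c1486 h x353f x200f x237f x58f

theorem l4230 (h : Good α) (x237f : α 237 = false) (x239f : α 239 = false) (x52f : α 52 = false) : False :=
  have x249f : α 249 = false := ff fun y => l4102 h y
  have x58f : α 58 = false := ff fun y => l4173 h y
  have x197t : α 197 = true := tt fun y => c2885 h x249f y x237f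
  have x57t : α 57 = true := tt fun y => c1401 h x249f y x237f x58f
  have x326f : α 326 = false := ff fun y => l3726 h x197t y
  have x54f : α 54 = false := ff fun y => l3796 h x197t y
  have x146t : α 146 = true := tt fun y => c1241 h x326f y x52f
  have x94t : α 94 = true := tt fun y => c1322 h x239f y x54f
  have x195f : α 195 = false := ff fun y => c2547 h x197t x146t y
  have x1t : α 1 = true := tt fun y => c25 h y x52f x195f
  have x200f : α 200 = false := ff fun y => c68 h y x57t x1t
  have x353t : α 353 = true := tt fun y => c2913 h y x239f x200f
  have x236t : α 236 = true := tt fun y => c2909 h x239f x200f y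
  have x61f : α 61 = false := ff fun y => c1576 h x353t x236t x197t y
  have x59t : α 59 = true := tt fun y => l3669 h y x61f
  have x543f : α 543 = false := ff fun y => l3556 h x54f y x1t x61f
  have x56f : α 56 = false := ff fun y => c57 h y x1t x59t
  have x53t : α 53 = true := tt fun y => l3648 h y x56f
  have x196f : α 196 = false := ff fun y => c32 h y x53t x1t
  have x204t : α 204 = true := tt fun y => l3702 h x196f y
  have x201t : α 201 = true := tt fun y => l3474 h x197t x200f x204t y x58f
  have x351f : α 351 = false := ff fun y => c112 h x197t x1t y x201t
  have x233f : α 233 = false := ff fun y => c1421 h x94t x57t y x201t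
  c3000 h x543f x351f x233f

theorem l4231 (h : Good α) (x197t : α 197 = true) (x200f : α 200 = false) (x1t : α 1 = true) (x443f : α 443 = false) (x237t : α 237 = true) (x239f : α 239 = false) (x272t : α 272 = true) : False :=
  have x236t : α 236 = true := tt fun y => c2909 h x239f x200f y
  have x353t : α 353 = true := tt fun y => c2913 h y x239f x200f
  have x351f : α 351 = false := ff fun y => c2888 h x197t x237t y
  have x54f : α 54 = false := ff fun y => l3796 h x197t y
  have x61f : α 61 = false := ff fun y => c1576 h x353t x236t x197t y
  have x94t : α 94 = true := tt fun y => c1322 h x239f y x54f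
  have x59t : α 59 = true := tt fun y => l3669 h y x61f
  have x53f : α 53 = false := ff fun y => l4190 h y x1t x351f x443f x54f x94t x272t
  have x56f : α 56 = false := ff fun y => c57 h y x1t x59t
  l3648 h x53f x56f

theorem l4232 (h : Good α) (x106t : α 106 = true) (x71f : α 71 = false) (x146t : α 146 = true) (x157t : α 157 = true) (x327f : α 327 = false) (x53f : α 53 = false) (x429t : α 429 = true) (x97t : α 97 = true) (x92f : α 92 = false) (x257f : α 257 = false) : False :=
  have x179f : α 179 = false := ff fun y => c2281 h y x106t x146t
  have x117f : α 117 = false := ff fun y => c2275 h x106t y x146t x157t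
  have x189t : α 189 = true := tt fun y => c1716 h x179f x71f x257f y
  have x184t : α 184 = true := tt fun y => c2056 h y x92f x117f
  have x113f : α 113 = false := ff fun y => c2176 h y x97t x189t
  have x23t : α 23 = true := tt fun y => l3627 h y x113f x53f
  have x298t : α 298 = true := tt fun y => l3692 h x113f x327f y
  c719 h x429t x184t x298t x23t

theorem l4233 (h : Good α) (x273t : α 273 = true) (x450f : α 450 = false) (x334t : α 334 = true) (x157t : α 157 = true) (x97t : α 97 = true) : False :=
  have x506f : α 506 = false := ff fun y => c2203 h x97t x273t y
  have x430f : α 430 = false := ff fun y => c2659 h x157t x334t x273t y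
  c3374 h x450f x430f x506f

theorem l4234 (h : Good α) (x63f : α 63 = false) (x54f : α 54 = false) (x239f : α 239 = false) : False :=
  have x94t : α 94 = true := tt fun y => c1322 h x239f y x54f
  have x24t : α 24 = true := tt fun y => c732 h x63f y x54f
  have x107t : α 107 = true := tt fun y => c1606 h x239f y x63f
  have x30f : α 30 = false := ff fun y => c726 h x94t x24t y
  have x207f : α 207 = false := ff fun y => c2108 h y x107t x94t
  c914 h x207f x63f x30f

theorem l4235 (h : Good α) (x107t : α 107 = true) (x19f : α 19 = false) (x446f : α 446 = false) (x53f : α 53 = false) (x54f : α 54 = false) (x91t : α 91 = true) (x272t : α 272 = true) (x52f : α 52 = false) : False :=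
  have x58f : α 58 = false := ff fun y => l4173 h y
  have x239f : α 239 = false := ff fun y => l4229 h y x272t x52f
  have x94t : α 94 = true := tt fun y => c1322 h x239f y x54f
  have x22f : α 22 = false := ff fun y => c657 h x272t x94t y
  have x183t : α 183 = true := tt fun y => c637 h x22f x52f y
  have x459f : α 459 = false := ff fun y => l3732 h x272t y
  have x286f : α 286 = false := ff fun y => c2109 h y x107t x272t x94t
  have x207f : α 207 = false := ff fun y => c2108 h y x107t x94t
  have x187f : α 187 = false := ff fun y => c2106 h x107t x94t y
  have x175t : α 175 = true := tt fun y => c2707 h x459f x286f y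
  have x300t : α 300 = true := tt fun y => c2952 h x446f y x207f
  have x18t : α 18 = true := tt fun y => c430 h x187f x54f y
  have x120f : α 120 = false := ff fun y => l3698 h y x175t
  have x95f : α 95 = false := ff fun y => c440 h x18t y x91t x183t
  have x36t : α 36 = true := tt fun y => c1038 h x286f x120f y
  have x524t : α 524 = true := tt fun y => c2462 h y x286f x120f
  have x93t : α 93 = true := tt fun y => c1219 h x53f y x52f x95f
  have x562f : α 562 = false := ff fun y => c1031 h x524t y x36t x93t
  have x134f : α 134 = false := ff fun y => c2513 h x524t x300t y
  have x15f : α 15 = false := ff fun y => c292 h x36t y x93t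
  have x319t : α 319 = true := tt fun y => c2514 h x562f y x134f
  have x60t : α 60 = true := tt fun y => c277 h x15f y x19f x58f
  c436 h x300t x319t x18t x60t

theorem l4236 (h : Good α) (x10t : α 10 = true) (x479t : α 479 = true) (x341t : α 341 = true) (x273f : α 273 = false) (x85f : α 85 = false) (x146t : α 146 = true) (x157t : α 157 = true) (x327f : α 327 = false) (x429t : α 429 = true) (x97t : α 97 = true) (x61t : α 61 = true) (x92f : α 92 = false) (x236t : α 236 = true) (x257f : α 257 = false) : False :=
  have x190f : α 190 = false := ff fun y => l3738 h y x61t x97t
  have x53f : α 53 = false := ff fun y => l3778 h y x61t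
  have x28f : α 28 = false := ff fun y => l3618 h x10t y
  have x71f : α 71 = false := ff fun y => c196 h x236t y x10t
  have x223t : α 223 = true := tt fun y => c854 h x28f x85f y
  have x106f : α 106 = false := ff fun y => l4232 h y x71f x146t x157t x327f x53f x429t x97t x92f x257f
  have x117t : α 117 = true := tt fun y => c2277 h x106f y x257f x273f
  have x373f : α 373 = false := ff fun y => c2977 h x479t y x341t x223t
  have x288f : α 288 = false := ff fun y => c2437 h x479t y x341t x117t
  have x262t : α 262 = true := tt fun y => c3171 h y x288f x373f
  have x305f : α 305 = false := ff fun y => c3018 h y x236t x262t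
  have x40f : α 40 = false := ff fun y => c185 h x236t x262t x10t y
  have x102t : α 102 = true := tt fun y => c837 h x40f x28f y
  have x170f : α 170 = false := ff fun y => l3682 h x102t y
  have x267f : α 267 = false := ff fun y => l3683 h x102t y
  have x21f : α 21 = false := ff fun y => l3626 h y x102t x61t
  have x78t : α 78 = true := tt fun y => c1797 h y x190f x170f x267f
  have x116t : α 116 = true := tt fun y => c616 h x305f y x21f
  c1794 h x236t x116t x78t

theorem l4237 (h : Good α) (x267f : α 267 = false) (x326f : α 326 = false) (x84t : α 84 = true) (x189t : α 189 = true) (x199f : α 199 = false) (x190f : α 190 = false) (x340f : α 340 = false) (x197f : α 197 = false) (x114f : α 114 = false) : False :=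
  have x186t : α 186 = true := tt fun y => c2791 h x190f y x267f
  have x36t : α 36 = true := tt fun y => c1035 h y x267f x114f x340f
  have x77f : α 77 = false := ff fun y => c1789 h y x186t x84t x189t
  have x74t : α 74 = true := tt fun y => c1746 h x199f x77f x197f y
  have x213t : α 213 = true := tt fun y => c1791 h x199f x77f x326f y
  c1026 h x36t x74t x213t

theorem l4238 (h : Good α) (x28f : α 28 = false) (x267t : α 267 = true) (x262t : α 262 = true) (x276f : α 276 = false) (x288f : α 288 = false) (x452f : α 452 = false) (x71f : α 71 = false) (x107f : α 107 = false) (x113f : α 113 = false) (x250f : α 250 = false) (x238t : α 238 = true) (x20t : α 20 = true) (x204f : α 204 = false) (x22f : α 22 = false) (x505f : α 505 = false) (x272t : α 272 = true) : False :=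
  have x102f : α 102 = false := ff fun y => l3683 h y x267t
  have x264t : α 264 = true := tt fun y => l3691 h x113f y
  have x114f : α 114 = false := ff fun y => l3695 h y x272t
  have x90t : α 90 = true := tt fun y => c619 h x22f x28f y x102f
  have x567t : α 567 = true := tt fun y => c867 h x505f x28f y x102f
  have x40t : α 40 = true := tt fun y => c837 h y x28f x102f
  have x104f : α 104 = false := ff fun y => c1096 h x262t y x40t
  have x108f : α 108 = false := ff fun y => c1100 h x40t y x267t
  have x482t : α 482 = true := tt fun y => c1711 h x452f y x71f x104f
  have x29t : α 29 = true := tt fun y => c897 h y x104f x288f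
  have x89t : α 89 = true := tt fun y => c1942 h x104f x288f y x276f
  have x101f : α 101 = false := ff fun y => c2235 h x482t x264t y
  have x521f : α 521 = false := ff fun y => c895 h y x29t x567t x90t
  have x337f : α 337 = false := ff fun y => c552 h x264t y x20t x89t
  have x256t : α 256 = true := tt fun y => l3680 h x101f y
  have x286t : α 286 = true := tt fun y => c2308 h x521f y x107f
  have x575t : α 575 = true := tt fun y => l3713 h x337f y
  have x391t : α 391 = true := tt fun y => l3706 h x337f y x204f
  have x36f : α 36 = false := ff fun y => c1044 h x286t x482t y x256t
  have x167f : α 167 = false := ff fun y => c1104 h x482t x575t x40t y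
  have x579f : α 579 = false := ff fun y => c3059 h x238t x391t y
  have x41t : α 41 = true := tt fun y => c1013 h y x36f x114f
  have x476t : α 476 = true := tt fun y => c2371 h y x579f x113f x250f
  have x120f : α 120 = false := ff fun y => c1115 h x272t y x41t
  have x175f : α 175 = false := ff fun y => c1118 h y x575t x41t x476t
  c2311 h x175f x167f x120f x108f

theorem l4239 (h : Good α) (x40f : α 40 = false) (x262t : α 262 = true) (x452f : α 452 = false) (x71f : α 71 = false) (x10f : α 10 = false) : False :=
  have x482t : α 482 = true := tt fun y => c186 h x452f y x10f x40f
  have x104t : α 104 = true := tt fun y => c182 h x71f y x10f x40f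
  c2269 h x482t x262t x104t

theorem l4240 (h : Good α) (x28t : α 28 = true) (x101f : α 101 = false) (x138t : α 138 = true) (x241t : α 241 = true) (x40t : α 40 = true) (x452f : α 452 = false) (x10f : α 10 = false) (x107f : α 107 = false) (x264t : α 264 = true) (x239f : α 239 = false) (x272t : α 272 = true) : False :=
  have x431t : α 431 = true := tt fun y => c2303 h y x239f x107f
  have x346f : α 346 = false := ff fun y => l3740 h x272t y
  have x459f : α 459 = false := ff fun y => l3732 h x272t y
  have x286f : α 286 = false := ff fun y => c839 h y x40t x272t x28t
  have x175t : α 175 = true := tt fun y => c2707 h x459f x286f y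
  have x187t : α 187 = true := tt fun y => c2300 h x286f x107f x346f y
  have x167f : α 167 = false := ff fun y => l3714 h y x175t
  have x271f : α 271 = false := ff fun y => c2804 h x431t y x187t
  have x575t : α 575 = true := tt fun y => c201 h x452f y x10f x167f
  have x44t : α 44 = true := tt fun y => c191 h x239f x10f x271f y
  have x519f : α 519 = false := ff fun y => c2519 h y x575t x138t x241t
  have x280f : α 280 = false := ff fun y => c846 h y x264t x44t x28t
  c2238 h x519f x280f x101f

theorem l4241 (h : Good α) (x54f : α 54 = false) (x57t : α 57 = true) (x1t : α 1 = true) (x91t : α 91 = true) (x272t : α 272 = true) (x52f : α 52 = false) : False :=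
  have x249f : α 249 = false := ff fun y => l4102 h y
  have x58f : α 58 = false := ff fun y => l4173 h y
  have x239f : α 239 = false := ff fun y => l4229 h y x272t x52f
  have x237t : α 237 = true := tt fun y => l4230 h y x239f x52f
  have x443f : α 443 = false := ff fun y => c2025 h y x237t x91t
  have x200f : α 200 = false := ff fun y => c68 h y x57t x1t
  have x197f : α 197 = false := ff fun y => l4231 h y x200f x1t x443f x237t x239f x272t
  have x236t : α 236 = true := tt fun y => c2909 h x239f x200f y
  have x114f : α 114 = false := ff fun y => l3695 h y x272t
  have x257f : α 257 = false := ff fun y => l3577 h y x237t x114f x91t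
  have x459f : α 459 = false := ff fun y => l3732 h x272t y
  have x80t : α 80 = true := tt fun y => c1829 h x459f x239f y
  have x94t : α 94 = true := tt fun y => c1322 h x239f y x54f
  have x402t : α 402 = true := tt fun y => c1342 h y x197f x54f
  have x505f : α 505 = false := ff fun y => c2141 h y x272t x94t
  have x22f : α 22 = false := ff fun y => c657 h x272t x94t y
  have x92f : α 92 = false := ff fun y => c1410 h x94t x57t y
  have x449f : α 449 = false := ff fun y => c72 h y x57t x402t x1t
  have x183t : α 183 = true := tt fun y => c637 h x22f x52f y
  have x61t : α 61 = true := tt fun y => c1546 h x249f x92f x197f y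
  have x97t : α 97 = true := tt fun y => c2048 h x449f x92f x443f y
  have x429t : α 429 = true := tt fun y => c3372 h x505f y x449f
  have x59f : α 59 = false := ff fun y => l3670 h y x61t
  have x53f : α 53 = false := ff fun y => l3778 h y x61t
  have x204f : α 204 = false := ff fun y => c102 h x1t x61t y
  have x190f : α 190 = false := ff fun y => l3738 h y x61t x97t
  have x327f : α 327 = false := ff fun y => l3730 h x429t x272t y
  have x157t : α 157 = true := tt fun y => c1227 h x52f x59f y
  have x146t : α 146 = true := tt fun y => c1226 h y x52f x59f
  have x20t : α 20 = true := tt fun y => c510 h x22f y x52f x59f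
  have x56t : α 56 = true := tt fun y => l3648 h x53f y
  have x335t : α 335 = true := tt fun y => l3653 h x53f y
  have x334t : α 334 = true := tt fun y => l3705 h x204f y
  have x238t : α 238 = true := tt fun y => c2879 h x249f y x197f x204f
  have x352t : α 352 = true := tt fun y => c1348 h x239f y x54f x204f
  have x85f : α 85 = false := ff fun y => c532 h x57t x20t y
  have x250f : α 250 = false := ff fun y => c1983 h x94t x238t x91t y
  have x544f : α 544 = false := ff fun y => c3022 h x236t x352t y
  have x535f : α 535 = false := ff fun y => c3057 h y x352t x238t
  have x409t : α 409 = true := tt fun y => c1352 h x239f x544f x54f y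
  have x405t : α 405 = true := tt fun y => c1498 h y x535f x58f x250f
  have x450f : α 450 = false := ff fun y => c1559 h x61t x409t x97t y
  have x444f : α 444 = false := ff fun y => c74 h x57t y x1t x409t
  have x446f : α 446 = false := ff fun y => c1424 h y x405t x94t x57t
  have x273f : α 273 = false := ff fun y => l4233 h y x450f x334t x157t x97t
  have x307t : α 307 = true := tt fun y => c3109 h y x250f x273f
  have x19f : α 19 = false := ff fun y => c480 h x56t x335t y x307t
  have x189t : α 189 = true := tt fun y => c483 h x19f x58f y
  have x298t : α 298 = true := tt fun y => c505 h y x114f x19f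
  have x23t : α 23 = true := tt fun y => c461 h x114f x19f y
  have x113f : α 113 = false := ff fun y => c2176 h y x97t x189t
  have x184f : α 184 = false := ff fun y => c719 h x429t y x298t x23t
  have x264t : α 264 = true := tt fun y => l3691 h x113f y
  have x341t : α 341 = true := tt fun y => c2065 h y x184f x92f
  have x379t : α 379 = true := tt fun y => c1294 h y x184f x53f
  have x577f : α 577 = false := ff fun y => c3025 h y x379t x236t
  have x107f : α 107 = false := ff fun y => l4235 h y x19f x446f x53f x54f x91t x272t x52f
  have x479t : α 479 = true := tt fun y => c2304 h x577f y x239f x107f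
  have x10f : α 10 = false := ff fun y => l4236 h y x479t x341t x273f x85f x146t x157t x327f x429t x97t x61t x92f x236t x257f
  have x386t : α 386 = true := tt fun y => c507 h x459f y x114f x19f
  have x71f : α 71 = false := ff fun y => c1704 h x80t y x183t x189t
  have x117t : α 117 = true := tt fun y => c2056 h x184f x92f y
  have x299f : α 299 = false := ff fun y => c3053 h x264t x238t y
  have x161f : α 161 = false := ff fun y => c2677 h x379t x236t y
  have x452f : α 452 = false := ff fun y => c3328 h x386t x379t y
  have x288f : α 288 = false := ff fun y => c2437 h x479t y x341t x117t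
  have x223t : α 223 = true := tt fun y => c2976 h x444f x299f y
  have x470t : α 470 = true := tt fun y => c2678 h x161f x288f y
  have x373f : α 373 = false := ff fun y => c2977 h x479t y x341t x223t
  have x276f : α 276 = false := ff fun y => c2663 h x470t y x157t
  have x262t : α 262 = true := tt fun y => c3171 h y x288f x373f
  have x40t : α 40 = true := tt fun y => l4239 h y x262t x452f x71f x10f
  have x104f : α 104 = false := ff fun y => c1096 h x262t y x40t
  have x241t : α 241 = true := tt fun y => c1709 h x71f x104f y
  have x138t : α 138 = true := tt fun y => c1707 h y x71f x104f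
  have x482t : α 482 = true := tt fun y => c1711 h x452f y x71f x104f
  have x89t : α 89 = true := tt fun y => c1942 h x104f x288f y x276f
  have x101f : α 101 = false := ff fun y => c2235 h x482t x264t y
  have x34f : α 34 = false := ff fun y => c526 h y x20t x89t
  have x164t : α 164 = true := tt fun y => l3679 h x101f y
  have x256t : α 256 = true := tt fun y => l3680 h x101f y
  have x69t : α 69 = true := tt fun y => c986 h x71f x34f y
  have x186f : α 186 = false := ff fun y => c1675 h x164t x256t x69t y
  have x28f : α 28 = false := ff fun y => l4240 h y x101f x138t x241t x40t x452f x10f x107f x264t x239f x272t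
  have x267t : α 267 = true := tt fun y => c2791 h x190f x186f y
  l4238 h x28f x267t x262t x276f x288f x452f x71f x107f x113f x250f x238t x20t x204f x22f x505f x272t

theorem l4242 (h : Good α) (x57t : α 57 = true) (x1t : α 1 = true) (x91t : α 91 = true) (x272t : α 272 = true) (x52f : α 52 = false) : False :=
  have x249f : α 249 = false := ff fun y => l4102 h y
  have x239f : α 239 = false := ff fun y => l4229 h y x272t x52f
  have x237t : α 237 = true := tt fun y => l4230 h y x239f x52f
  have x443f : α 443 = false := ff fun y => c2025 h y x237t x91t
  have x200f : α 200 = false := ff fun y => c68 h y x57t x1t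
  have x236t : α 236 = true := tt fun y => c2909 h x239f x200f y
  have x197f : α 197 = false := ff fun y => l4231 h y x200f x1t x443f x237t x239f x272t
  have x54t : α 54 = true := tt fun y => l4241 h y x57t x1t x91t x272t x52f
  have x61f : α 61 = false := ff fun y => l3870 h y x54t
  have x94f : α 94 = false := ff fun y => c1310 h y x54t x91t
  have x233f : α 233 = false := ff fun y => c1315 h x54t x91t y
  have x543f : α 543 = false := ff fun y => l3582 h y x1t x61f
  have x92t : α 92 = true := tt fun y => c1546 h x249f y x197f x61f
  have x449t : α 449 = true := tt fun y => c2134 h y x249f x94f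
  have x547t : α 547 = true := tt fun y => c2993 h y x239f x543f x233f
  c2076 h x547t x236t x449t x92t

theorem l4243 (h : Good α) (x92t : α 92 = true) (x424f : α 424 = false) (x184t : α 184 = true) (x94t : α 94 = true) (x91t : α 91 = true) : False :=
  have x58f : α 58 = false := ff fun y => l4173 h y
  have x97f : α 97 = false := ff fun y => c1980 h x94t x92t x91t y
  have x117f : α 117 = false := ff fun y => c2057 h x184t x92t y
  have x250t : α 250 = true := tt fun y => c1468 h x58f x97f y
  have x238t : α 238 = true := tt fun y => c2427 h x424f y x117f
  c1983 h x94t x238t x91t x250t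

theorem l4244 (h : Good α) (x95t : α 95 = true) (x28f : α 28 = false) (x378f : α 378 = false) (x81f : α 81 = false) (x107f : α 107 = false) (x23t : α 23 = true) (x233t : α 233 = true) (x242f : α 242 = false) (x97t : α 97 = true) (x92f : α 92 = false) (x183t : α 183 = true) (x54f : α 54 = false) (x22f : α 22 = false) (x91t : α 91 = true) : False :=
  have x339f : α 339 = false := ff fun y => c2151 h x95t x183t y
  have x18f : α 18 = false := ff fun y => c440 h y x95t x91t x183t
  have x109f : α 109 = false := ff fun y => c2144 h y x95t x183t
  have x32t : α 32 = true := tt fun y => c952 h y x81f x339f x378f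
  have x75t : α 75 = true := tt fun y => c427 h x54f x18f y
  have x24t : α 24 = true := tt fun y => c406 h x107f y x18f
  have x16t : α 16 = true := tt fun y => c314 h x22f y x109f
  have x112f : α 112 = false := ff fun y => c677 h x23t x97t x32t y
  have x115f : α 115 = false := ff fun y => c1767 h x75t y x233t
  have x108f : α 108 = false := ff fun y => c323 h x24t x16t y
  have x432t : α 432 = true := tt fun y => c2357 h x112f x242f y
  have x304t : α 304 = true := tt fun y => c455 h x18f x115f y
  have x192t : α 192 = true := tt fun y => c857 h x92f y x28f x108f
  c762 h x24t x192t x304t x432t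

theorem l4245 (h : Good α) (x95f : α 95 = false) (x378f : α 378 = false) (x81f : α 81 = false) (x65t : α 65 = true) (x107f : α 107 = false) (x23t : α 23 = true) (x273f : α 273 = false) (x250f : α 250 = false) (x242f : α 242 = false) (x183t : α 183 = true) (x53f : α 53 = false) (x57f : α 57 = false) (x1t : α 1 = true) (x91t : α 91 = true) (x346f : α 346 = false) (x52f : α 52 = false) : False :=
  have x249f : α 249 = false := ff fun y => l4102 h y
  have x58f : α 58 = false := ff fun y => l4173 h y
  have x56t : α 56 = true := tt fun y => l3648 h x53f y
  have x335t : α 335 = true := tt fun y => l3653 h x53f y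
  have x307t : α 307 = true := tt fun y => c3109 h y x250f x273f
  have x19f : α 19 = false := ff fun y => c480 h x56t x335t y x307t
  have x94t : α 94 = true := tt fun y => c1422 h x249f y x57f
  have x54f : α 54 = false := ff fun y => c1310 h x94t y x91t
  have x247t : α 247 = true := tt fun y => c1240 h x52f x95f y
  have x90t : α 90 = true := tt fun y => c1233 h y x52f x95f
  have x93t : α 93 = true := tt fun y => c1219 h x53f y x52f x95f
  have x32f : α 32 = false := ff fun y => c675 h x93t x23t y
  have x73t : α 73 = true := tt fun y => c950 h y x32f x81f
  have x228t : α 228 = true := tt fun y => c951 h x32f x81f y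
  have x339t : α 339 = true := tt fun y => c952 h x32f x81f y x378f
  have x119f : α 119 = false := ff fun y => c2091 h x93t y x228t
  have x181f : α 181 = false := ff fun y => c1971 h x90t y x339t
  have x274t : α 274 = true := tt fun y => c1833 h x119f y x81f x242f
  have x252t : α 252 = true := tt fun y => c1834 h y x119f x81f
  have x384t : α 384 = true := tt fun y => c1253 h x52f x181f y
  have x191t : α 191 = true := tt fun y => c1223 h x54f x52f y x181f
  have x96f : α 96 = false := ff fun y => c1955 h y x252t x90t x247t
  have x502f : α 502 = false := ff fun y => c1743 h x73t x228t x384t y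
  have x338f : α 338 = false := ff fun y => c2011 h y x191t x91t
  have x248t : α 248 = true := tt fun y => c1276 h y x96f x53f
  have x185t : α 185 = true := tt fun y => c2169 h x346f y x96f
  have x265t : α 265 = true := tt fun y => c2154 h x95f y x502f
  have x110f : α 110 = false := ff fun y => c1739 h x248t y x73t
  have x15f : α 15 = false := ff fun y => c298 h x185t x56t y
  have x172f : α 172 = false := ff fun y => c1642 h x65t y x183t x265t
  have x60t : α 60 = true := tt fun y => c277 h x15f y x19f x58f
  have x156t : α 156 = true := tt fun y => c2444 h x172f x119f y
  have x169t : α 169 = true := tt fun y => c2334 h y x172f x110f x119f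
  have x55f : α 55 = false := ff fun y => c52 h y x1t x60t
  have x473f : α 473 = false := ff fun y => c2650 h x156t x274t y
  have x258f : α 258 = false := ff fun y => c1640 h x169t x65t y x183t
  have x148t : α 148 = true := tt fun y => c1353 h y x57f x55f
  have x486t : α 486 = true := tt fun y => c3113 h x250f x473f x273f y
  have x29t : α 29 = true := tt fun y => c898 h x107f y x338f x258f
  have x342f : α 342 = false := ff fun y => c902 h y x148t x29t
  have x262f : α 262 = false := ff fun y => c2564 h x148t y x156t x274t
  have x288f : α 288 = false := ff fun y => c904 h x29t y x265t x486t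
  c3170 h x342f x262f x288f

theorem l4246 (h : Good α) (x1t : α 1 = true) (x91t : α 91 = true) (x272t : α 272 = true) (x52f : α 52 = false) : False :=
  have x249f : α 249 = false := ff fun y => l4102 h y
  have x58f : α 58 = false := ff fun y => l4173 h y
  have x239f : α 239 = false := ff fun y => l4229 h y x272t x52f
  have x237t : α 237 = true := tt fun y => l4230 h y x239f x52f
  have x443f : α 443 = false := ff fun y => c2025 h y x237t x91t
  have x346f : α 346 = false := ff fun y => l3740 h x272t y
  have x114f : α 114 = false := ff fun y => l3695 h y x272t
  have x57f : α 57 = false := ff fun y => l4242 h y x1t x91t x272t x52f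
  have x94t : α 94 = true := tt fun y => c1422 h x249f y x57f
  have x53f : α 53 = false := ff fun y => l3462 h x272t x94t x57f y
  have x449t : α 449 = true := tt fun y => c1405 h y x57f x443f x58f
  have x22f : α 22 = false := ff fun y => c657 h x272t x94t y
  have x54f : α 54 = false := ff fun y => c1310 h x94t y x91t
  have x56t : α 56 = true := tt fun y => l3648 h x53f y
  have x335t : α 335 = true := tt fun y => l3653 h x53f y
  have x183t : α 183 = true := tt fun y => c637 h x22f x52f y
  have x184t : α 184 = true := tt fun y => c646 h y x57f x22f
  have x62t : α 62 = true := tt fun y => c642 h x57f x22f y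
  have x59f : α 59 = false := ff fun y => c57 h x56t x1t y
  have x424f : α 424 = false := ff fun y => l3731 h y x335t x272t
  have x61t : α 61 = true := tt fun y => l3669 h x59f y
  have x157t : α 157 = true := tt fun y => c1227 h x52f x59f y
  have x204f : α 204 = false := ff fun y => c102 h x1t x61t y
  have x334t : α 334 = true := tt fun y => l3705 h x204f y
  have x352t : α 352 = true := tt fun y => c1348 h x239f y x54f x204f
  have x92f : α 92 = false := ff fun y => l4243 h y x424f x184t x94t x91t
  have x97t : α 97 = true := tt fun y => c1399 h x57f x92f x58f y
  have x238t : α 238 = true := tt fun y => c1415 h x57f x92f y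
  have x197f : α 197 = false := ff fun y => c1554 h y x61t x237t x97t
  have x242f : α 242 = false := ff fun y => c1557 h x61t x97t y
  have x190f : α 190 = false := ff fun y => l3738 h y x61t x97t
  have x250f : α 250 = false := ff fun y => c1983 h x94t x238t x91t y
  have x535f : α 535 = false := ff fun y => c3057 h y x352t x238t
  have x402t : α 402 = true := tt fun y => c1342 h y x197f x54f
  have x201t : α 201 = true := tt fun y => c1413 h x57f x92f y x242f
  have x354t : α 354 = true := tt fun y => c2940 h x204f x250f y
  have x405t : α 405 = true := tt fun y => c1498 h y x535f x58f x250f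
  have x547f : α 547 = false := ff fun y => c3349 h y x449t x402t
  have x543f : α 543 = false := ff fun y => c121 h x402t x1t y x201t
  have x200f : α 200 = false := ff fun y => c2908 h y x352t x201t x354t
  have x442f : α 442 = false := ff fun y => c104 h x405t y x1t x61t
  have x233t : α 233 = true := tt fun y => c2993 h x547f x239f x543f y
  have x236t : α 236 = true := tt fun y => c2909 h x239f x200f y
  have x545t : α 545 = true := tt fun y => c2083 h y x442f x249f x92f
  have x544f : α 544 = false := ff fun y => c3022 h x236t x352t y
  have x446f : α 446 = false := ff fun y => c2027 h x545t y x237t x91t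
  have x409t : α 409 = true := tt fun y => c1352 h x239f x544f x54f y
  have x450f : α 450 = false := ff fun y => c1559 h x61t x409t x97t y
  have x273f : α 273 = false := ff fun y => l4233 h y x450f x334t x157t x97t
  have x307t : α 307 = true := tt fun y => c3109 h y x250f x273f
  have x19f : α 19 = false := ff fun y => c480 h x56t x335t y x307t
  have x189t : α 189 = true := tt fun y => c483 h x19f x58f y
  have x23t : α 23 = true := tt fun y => c461 h x114f x19f y
  have x107f : α 107 = false := ff fun y => l4235 h y x19f x446f x53f x54f x91t x272t x52f
  have x113f : α 113 = false := ff fun y => c2176 h y x97t x189t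
  have x180t : α 180 = true := tt fun y => l3690 h x113f y
  have x264t : α 264 = true := tt fun y => l3691 h x113f y
  have x65t : α 65 = true := tt fun y => c1637 h y x113f x250f
  have x81f : α 81 = false := ff fun y => c1839 h x184t x264t y x180t
  have x11t : α 11 = true := tt fun y => c212 h y x81f x242f
  have x70f : α 70 = false := ff fun y => c210 h x11t y x233t
  have x158t : α 158 = true := tt fun y => c486 h x114f x19f y x70f
  have x378f : α 378 = false := ff fun y => c2669 h x158t x233t y
  have x95t : α 95 = true := tt fun y => l4245 h y x378f x81f x65t x107f x23t x273f x250f x242f x183t x53f x57f x1t x91t x346f x52f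
  have x339f : α 339 = false := ff fun y => c2151 h x95t x183t y
  have x18f : α 18 = false := ff fun y => c440 h y x95t x91t x183t
  have x28t : α 28 = true := tt fun y => l4244 h x95t y x378f x81f x107f x23t x233t x242f x97t x92f x183t x54f x22f x91t
  have x32t : α 32 = true := tt fun y => c952 h y x81f x339f x378f
  have x60t : α 60 = true := tt fun y => c435 h x18f y x190f
  have x195f : α 195 = false := ff fun y => l3633 h y x28t x62t
  have x93f : α 93 = false := ff fun y => c675 h y x23t x32t
  have x230f : α 230 = false := ff fun y => c1534 h x60t x95t y
  c1271 h x53f x93f x195f x230f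

theorem l4247 (h : Good α) (x22f : α 22 = false) (x378f : α 378 = false) (x158t : α 158 = true) (x113f : α 113 = false) (x81f : α 81 = false) (x20f : α 20 = false) (x264t : α 264 = true) (x386t : α 386 = true) (x54t : α 54 = true) (x184f : α 184 = false) (x201t : α 201 = true) (x91t : α 91 = true) (x239f : α 239 = false) (x272t : α 272 = true) : False :=
  have x94f : α 94 = false := ff fun y => c1310 h y x54t x91t
  have x346f : α 346 = false := ff fun y => l3740 h x272t y
  have x114f : α 114 = false := ff fun y => l3695 h y x272t
  have x28t : α 28 = true := tt fun y => c620 h x94f x22f y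
  have x387t : α 387 = true := tt fun y => c516 h x22f x20f x378f y
  have x452t : α 452 = true := tt fun y => l3985 h x28t y x158t x272t x113f x239f x114f x91t x54t x346f
  have x70f : α 70 = false := ff fun y => c1694 h y x201t x387t
  have x188f : α 188 = false := ff fun y => c2812 h x386t x452t y x264t
  c1681 h x188f x184f x70f x81f

theorem l4248 (h : Good α) (x452t : α 452 = true) (x180t : α 180 = true) (x81f : α 81 = false) (x264t : α 264 = true) (x386t : α 386 = true) (x184f : α 184 = false) : False :=
  have x70f : α 70 = false := ff fun y => c1692 h x386t x452t y x180t
  have x188f : α 188 = false := ff fun y => c2812 h x386t x452t y x264t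
  c1681 h x188f x184f x70f x81f

theorem l4249 (h : Good α) (x190f : α 190 = false) (x77f : α 77 = false) (x120f : α 120 = false) (x189f : α 189 = false) (x522f : α 522 = false) (x93f : α 93 = false) (x112f : α 112 = false) (x340f : α 340 = false) (x95t : α 95 = true) (x264t : α 264 = true) (x54t : α 54 = true) (x199t : α 199 = true) (x202f : α 202 = false) (x61f : α 61 = false) : False :=
  have x249f : α 249 = false := ff fun y => l4102 h y
  have x197f : α 197 = false := ff fun y => l3725 h y x199t
  have x92t : α 92 = true := tt fun y => c1546 h x249f y x197f x61f
  have x494f : α 494 = false := ff fun y => c2087 h y x264t x92t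
  have x20f : α 20 = false := ff fun y => c556 h x264t x92t y
  have x325t : α 325 = true := tt fun y => l3677 h x61f y
  have x347t : α 347 = true := tt fun y => c2096 h x93f x190f y
  have x570t : α 570 = true := tt fun y => c2354 h x190f y x112f x522f
  have x186f : α 186 = false := ff fun y => c2152 h x95t y x347t
  have x267t : α 267 = true := tt fun y => c2791 h x190f x186f y
  have x84t : α 84 = true := tt fun y => c1788 h x77f x186f y x189f
  have x497f : α 497 = false := ff fun y => c2157 h x95t x267t y
  have x395f : α 395 = false := ff fun y => c3197 h x267t y x570t
  have x212f : α 212 = false := ff fun y => c1875 h x199t x325t x84t y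
  have x314t : α 314 = true := tt fun y => c2932 h x202f x395f y x497f
  have x260t : α 260 = true := tt fun y => l3566 h y x20f x494f x212f x340f x189f x61f
  have x275t : α 275 = true := tt fun y => l3569 h x120f y x54t x314t
  l3715 h x260t x275t

theorem l4250 (h : Good α) (x378f : α 378 = false) (x95t : α 95 = true) (x23t : α 23 = true) (x264t : α 264 = true) (x91t : α 91 = true) (x272t : α 272 = true) (x52f : α 52 = false) : False :=
  have x58f : α 58 = false := ff fun y => l4173 h y
  have x249f : α 249 = false := ff fun y => l4102 h y
  have x346f : α 346 = false := ff fun y => l3740 h x272t y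
  have x1f : α 1 = false := ff fun y => l4246 h y x91t x272t x52f
  have x53t : α 53 = true := tt fun y => c20 h y x1f x52f
  have x61f : α 61 = false := ff fun y => l3778 h x53t y
  have x54t : α 54 = true := tt fun y => c39 h y x1f x61f
  have x114f : α 114 = false := ff fun y => l3695 h y x272t
  have x239f : α 239 = false := ff fun y => l4229 h y x272t x52f
  have x56f : α 56 = false := ff fun y => l3649 h x53t y
  have x97t : α 97 = true := tt fun y => c75 h x1f x61f x58f y
  have x19t : α 19 = true := tt fun y => l3578 h y x97t x58f x56f
  have x113f : α 113 = false := ff fun y => c460 h x19t x23t y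
  have x459f : α 459 = false := ff fun y => l3732 h x272t y
  have x81f : α 81 = false := ff fun y => c685 h x53t x23t y
  have x201t : α 201 = true := tt fun y => c79 h x1f x58f y
  have x199t : α 199 = true := tt fun y => c59 h y x56f x1f
  have x197f : α 197 = false := ff fun y => l3725 h y x199t
  have x353t : α 353 = true := tt fun y => c2889 h y x249f x197f
  have x94f : α 94 = false := ff fun y => c1310 h y x54t x91t
  have x233f : α 233 = false := ff fun y => c1315 h x54t x91t y
  have x351t : α 351 = true := tt fun y => c2121 h x249f x94f y x233f
  have x200f : α 200 = false := ff fun y => c2906 h x353t y x351t x201t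
  have x57t : α 57 = true := tt fun y => c61 h y x1f x58f
  have x92t : α 92 = true := tt fun y => c1546 h x249f y x197f x61f
  have x242f : α 242 = false := ff fun y => c1414 h x57t x92t x201t y
  have x236t : α 236 = true := tt fun y => c2990 h x239f y x233f x242f
  have x386t : α 386 = true := tt fun y => l3501 h y x236t x200f x56f
  have x379f : α 379 = false := ff fun y => c463 h x386t y x19t x23t
  have x158t : α 158 = true := tt fun y => c1837 h x459f x379f y x81f
  have x184f : α 184 = false := ff fun y => l3655 h y x272t x53t
  have x180t : α 180 = true := tt fun y => l3690 h x113f y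
  have x452f : α 452 = false := ff fun y => l4248 h y x180t x81f x264t x386t x184f
  have x28f : α 28 = false := ff fun y => l3985 h y x452f x158t x272t x113f x239f x114f x91t x54t x346f
  have x204t : α 204 = true := tt fun y => c101 h x1f x61f y
  have x250f : α 250 = false := ff fun y => c1313 h x54t x204t x91t y
  have x430t : α 430 = true := tt fun y => c2369 h x113f x250f y
  have x65t : α 65 = true := tt fun y => c1637 h y x113f x250f
  have x273f : α 273 = false := ff fun y => c707 h x23t x97t y
  have x399t : α 399 = true := tt fun y => c3111 h x250f x273f y
  have x20f : α 20 = false := ff fun y => c556 h x264t x92t y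
  have x238f : α 238 = false := ff fun y => c1416 h x57t x92t y
  have x352t : α 352 = true := tt fun y => c2125 h x239f y x94f x238f
  have x544f : α 544 = false := ff fun y => c3022 h x236t x352t y
  have x409t : α 409 = true := tt fun y => c119 h x200f x544f x1f y
  have x325t : α 325 = true := tt fun y => l3677 h x61f y
  have x335f : α 335 = false := ff fun y => c3261 h x325t y x409t
  have x542t : α 542 = true := tt fun y => l3712 h x335f y
  have x334f : α 334 = false := ff fun y => c3271 h x542t x409t y
  have x59t : α 59 = true := tt fun y => c56 h x56f x1f y
  have x195t : α 195 = true := tt fun y => c25 h x1f x52f y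
  have x202f : α 202 = false := ff fun y => l3717 h x195t y
  have x237t : α 237 = true := tt fun y => l4230 h y x239f x52f
  have x443f : α 443 = false := ff fun y => c2025 h y x237t x91t
  have x576t : α 576 = true := tt fun y => c3004 h x233f x378f y
  have x183t : α 183 = true := tt fun y => c1258 h x52f y x378f
  have x340f : α 340 = false := ff fun y => l3724 h y x576t
  have x339f : α 339 = false := ff fun y => c2151 h x95t x183t y
  have x18f : α 18 = false := ff fun y => c440 h y x95t x91t x183t
  have x32t : α 32 = true := tt fun y => c952 h y x81f x339f x378f
  have x502t : α 502 = true := tt fun y => c3280 h x339f x378f y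
  have x112f : α 112 = false := ff fun y => c677 h x23t x97t x32t y
  have x93f : α 93 = false := ff fun y => c675 h y x23t x32t
  have x265f : α 265 = false := ff fun y => c2155 h x95t y x502t
  have x432t : α 432 = true := tt fun y => c2357 h x112f x242f y
  have x22t : α 22 = true := tt fun y => l4247 h y x378f x158t x113f x81f x20f x264t x386t x54t x184f x201t x91t x239f x272t
  have x62f : α 62 = false := ff fun y => c643 h x57t x22t y
  have x299f : α 299 = false := ff fun y => c671 h x22t y x183t x430t
  have x106t : α 106 = true := tt fun y => c1589 h x249f y x62f
  have x117t : α 117 = true := tt fun y => c570 h x20f y x299f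
  have x223f : α 223 = false := ff fun y => c2059 h x92t x117t y
  have x85t : α 85 = true := tt fun y => c847 h x62f x28f y
  have x205t : α 205 = true := tt fun y => c850 h y x62f x28f
  have x380t : α 380 = true := tt fun y => c852 h x62f x28f y x340f
  have x506t : α 506 = true := tt fun y => c876 h x28f x223f x340f y
  have x487f : α 487 = false := ff fun y => c1889 h x205t x85t y x399t
  have x333f : α 333 = false := ff fun y => c2871 h x195t y x380t x506t
  have x522f : α 522 = false := ff fun y => c679 h x23t x506t x32t y
  have x423t : α 423 = true := tt fun y => c3369 h x443f y x487f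
  have x157t : α 157 = true := tt fun y => c1567 h x61f y x333f
  have x146f : α 146 = false := ff fun y => c2275 h x106t x117t y x157t
  have x326t : α 326 = true := tt fun y => c1241 h y x146f x52f
  have x327t : α 327 = true := tt fun y => c2548 h y x197f x146f
  have x189f : α 189 = false := ff fun y => c1524 h x326t x59t x423t y
  have x298f : α 298 = false := ff fun y => c691 h x327t x53t y x23t
  have x222t : α 222 = true := tt fun y => c2971 h y x298f x443f
  have x141f : α 141 = false := ff fun y => c2146 h y x95t x222t x183t
  have x36t : α 36 = true := tt fun y => c422 h x141f y x18f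
  have x120f : α 120 = false := ff fun y => l4209 h y x36t x459f
  have x77f : α 77 = false := ff fun y => l3638 h x199t x36t y
  have x190t : α 190 = true := tt fun y => l4249 h y x77f x120f x189f x522f x93f x112f x340f x95t x264t x54t x199t x202f x61f
  have x570f : α 570 = false := ff fun y => c2186 h x190t y x97t x506t
  have x274f : α 274 = false := ff fun y => c2838 h x190t y x432t
  have x571t : α 571 = true := tt fun y => c3270 h x334f y x333f x570f
  have x119t : α 119 = true := tt fun y => c1833 h y x274f x81f x242f
  have x232f : α 232 = false := ff fun y => c1643 h y x571t x65t x430t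
  have x172f : α 172 = false := ff fun y => c698 h x65t y x23t x119t
  have x463f : α 463 = false := ff fun y => c718 h x23t x119t x380t y
  have x60t : α 60 = true := tt fun y => c1531 h x232f x93f y
  have x230f : α 230 = false := ff fun y => c1534 h x60t x95t y
  have x66t : α 66 = true := tt fun y => c1649 h y x230f x463f
  have x376f : α 376 = false := ff fun y => c1648 h x66t x195t y
  have x181t : α 181 = true := tt fun y => c2734 h y x265f x376f x463f
  have x67t : α 67 = true := tt fun y => c1653 h y x172f x376f x463f
  c1635 h x67t x65t x181t x183t

theorem l4251 (h : Good α) (x265f : α 265 = false) (x463f : α 463 = false) (x120f : α 120 = false) (x36t : α 36 = true) (x183f : α 183 = false) (x424t : α 424 = true) (x576t : α 576 = true) (x95t : α 95 = true) (x85t : α 85 = true) (x158t : α 158 = true) (x307t : α 307 = true) (x335f : α 335 = false) (x1f : α 1 = false) (x114f : α 114 = false) (x52f : α 52 = false) : False :=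
  have x58f : α 58 = false := ff fun y => l4173 h y
  have x340f : α 340 = false := ff fun y => l3724 h y x576t
  have x195t : α 195 = true := tt fun y => c25 h x1f x52f y
  have x202f : α 202 = false := ff fun y => l3717 h x195t y
  have x201t : α 201 = true := tt fun y => c79 h x1f x58f y
  have x427t : α 427 = true := tt fun y => c2758 h x183f x265f y
  have x156t : α 156 = true := tt fun y => c1477 h x58f y x183f x265f
  have x203f : α 203 = false := ff fun y => c2645 h y x156t x201t
  have x247t : α 247 = true := tt fun y => c27 h x1f x203f x52f y
  have x60t : α 60 = true := tt fun y => c94 h x1f y x203f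
  have x109f : α 109 = false := ff fun y => c2327 h y x247t x427t
  have x230f : α 230 = false := ff fun y => c1534 h x60t x95t y
  have x51f : α 51 = false := ff fun y => c1206 h y x60t x156t
  have x41t : α 41 = true := tt fun y => c1106 h y x109f x114f x183f
  have x282t : α 282 = true := tt fun y => c2325 h x109f y x183f x340f
  have x246t : α 246 = true := tt fun y => c18 h x51f y x1f x202f
  have x267f : α 267 = false := ff fun y => c1016 h x41t x282t x36t y
  have x557f : α 557 = false := ff fun y => c1892 h x424t y x85t x246t
  have x483t : α 483 = true := tt fun y => c2985 h x230f x267f x463f y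
  have x133t : α 133 = true := tt fun y => c2510 h x557f x335f y
  have x46f : α 46 = false := ff fun y => c1144 h y x483t x158t x576t
  have x526f : α 526 = false := ff fun y => c2509 h x133t x307t y
  c1141 h x120f x557f x46f x526f

theorem l4252 (h : Good α) (x265t : α 265 = true) (x576t : α 576 = true) (x378t : α 378 = true) (x158t : α 158 = true) (x114f : α 114 = false) : False :=
  have x340f : α 340 = false := ff fun y => l3724 h y x576t
  have x46f : α 46 = false := ff fun y => c1142 h y x265t x158t x378t
  have x483f : α 483 = false := ff fun y => c3183 h x265t y x378t x576t
  have x275t : α 275 = true := tt fun y => c1137 h y x114f x46f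
  have x260t : α 260 = true := tt fun y => c3163 h y x340f x483f
  l3715 h x260t x275t

theorem l4253 (h : Good α) (x119f : α 119 = false) (x35f : α 35 = false) (x156t : α 156 = true) (x265f : α 265 = false) (x576t : α 576 = true) (x158t : α 158 = true) (x81f : α 81 = false) (x242f : α 242 = false) : False :=
  have x274t : α 274 = true := tt fun y => c1833 h x119f y x81f x242f
  have x46t : α 46 = true := tt fun y => c998 h y x35f x119f
  have x115f : α 115 = false := ff fun y => c2402 h y x156t x274t
  have x483f : α 483 = false := ff fun y => c1144 h x46t y x158t x576t
  c2407 h x115f x265f x483f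

theorem l4254 (h : Good α) (x95t : α 95 = true) (x23t : α 23 = true) (x264t : α 264 = true) (x91t : α 91 = true) (x272t : α 272 = true) (x52f : α 52 = false) : False :=
  have x249f : α 249 = false := ff fun y => l4102 h y
  have x58f : α 58 = false := ff fun y => l4173 h y
  have x346f : α 346 = false := ff fun y => l3740 h x272t y
  have x1f : α 1 = false := ff fun y => l4246 h y x91t x272t x52f
  have x53t : α 53 = true := tt fun y => c20 h y x1f x52f
  have x61f : α 61 = false := ff fun y => l3778 h x53t y
  have x54t : α 54 = true := tt fun y => c39 h y x1f x61f
  have x114f : α 114 = false := ff fun y => l3695 h y x272t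
  have x239f : α 239 = false := ff fun y => l4229 h y x272t x52f
  have x56f : α 56 = false := ff fun y => l3649 h x53t y
  have x97t : α 97 = true := tt fun y => c75 h x1f x61f x58f y
  have x19t : α 19 = true := tt fun y => l3578 h y x97t x58f x56f
  have x113f : α 113 = false := ff fun y => c460 h x19t x23t y
  have x459f : α 459 = false := ff fun y => l3732 h x272t y
  have x81f : α 81 = false := ff fun y => c685 h x53t x23t y
  have x201t : α 201 = true := tt fun y => c79 h x1f x58f y
  have x199t : α 199 = true := tt fun y => c59 h y x56f x1f
  have x197f : α 197 = false := ff fun y => l3725 h y x199t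
  have x353t : α 353 = true := tt fun y => c2889 h y x249f x197f
  have x94f : α 94 = false := ff fun y => c1310 h y x54t x91t
  have x233f : α 233 = false := ff fun y => c1315 h x54t x91t y
  have x351t : α 351 = true := tt fun y => c2121 h x249f x94f y x233f
  have x200f : α 200 = false := ff fun y => c2906 h x353t y x351t x201t
  have x57t : α 57 = true := tt fun y => c61 h y x1f x58f
  have x92t : α 92 = true := tt fun y => c1546 h x249f y x197f x61f
  have x242f : α 242 = false := ff fun y => c1414 h x57t x92t x201t y
  have x236t : α 236 = true := tt fun y => c2990 h x239f y x233f x242f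
  have x386t : α 386 = true := tt fun y => l3501 h y x236t x200f x56f
  have x379f : α 379 = false := ff fun y => c463 h x386t y x19t x23t
  have x158t : α 158 = true := tt fun y => c1837 h x459f x379f y x81f
  have x184f : α 184 = false := ff fun y => l3655 h y x272t x53t
  have x180t : α 180 = true := tt fun y => l3690 h x113f y
  have x452f : α 452 = false := ff fun y => l4248 h y x180t x81f x264t x386t x184f
  have x28f : α 28 = false := ff fun y => l3985 h y x452f x158t x272t x113f x239f x114f x91t x54t x346f
  have x22t : α 22 = true := tt fun y => c620 h x94f y x28f
  have x62f : α 62 = false := ff fun y => c643 h x57t x22t y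
  have x85t : α 85 = true := tt fun y => c847 h x62f x28f y
  have x106t : α 106 = true := tt fun y => c1589 h x249f y x62f
  have x204t : α 204 = true := tt fun y => c101 h x1f x61f y
  have x250f : α 250 = false := ff fun y => c1313 h x54t x204t x91t y
  have x430t : α 430 = true := tt fun y => c2369 h x113f x250f y
  have x462t : α 462 = true := tt fun y => c1846 h x81f x242f y
  have x273f : α 273 = false := ff fun y => c707 h x23t x97t y
  have x307t : α 307 = true := tt fun y => c3109 h y x250f x273f
  have x20f : α 20 = false := ff fun y => c556 h x264t x92t y
  have x325t : α 325 = true := tt fun y => l3677 h x61f y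
  have x238f : α 238 = false := ff fun y => c1416 h x57t x92t y
  have x352t : α 352 = true := tt fun y => c2125 h x239f y x94f x238f
  have x544f : α 544 = false := ff fun y => c3022 h x236t x352t y
  have x409t : α 409 = true := tt fun y => c119 h x200f x544f x1f y
  have x335f : α 335 = false := ff fun y => c3261 h x325t y x409t
  have x378t : α 378 = true := tt fun y => l4250 h y x95t x23t x264t x91t x272t x52f
  have x387f : α 387 = false := ff fun y => c3327 h x378t y x462t
  have x117f : α 117 = false := ff fun y => c667 h x22t y x378t x462t
  have x576t : α 576 = true := tt fun y => c3084 h x242f x387f y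
  have x424t : α 424 = true := tt fun y => c2427 h y x238f x117f
  have x299t : α 299 = true := tt fun y => c570 h x20f x117f y
  have x340f : α 340 = false := ff fun y => l3724 h y x576t
  have x451f : α 451 = false := ff fun y => c663 h x106t x22t y x378t
  have x183f : α 183 = false := ff fun y => c671 h x22t x299t y x430t
  have x380t : α 380 = true := tt fun y => c852 h x62f x28f y x340f
  have x70t : α 70 = true := tt fun y => c1696 h y x233f x451f
  have x265f : α 265 = false := ff fun y => l4252 h y x576t x378t x158t x114f
  have x427t : α 427 = true := tt fun y => c2758 h x183f x265f y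
  have x156t : α 156 = true := tt fun y => c1477 h x58f y x183f x265f
  have x35f : α 35 = false := ff fun y => c1004 h y x156t x70t x201t
  have x203f : α 203 = false := ff fun y => c2645 h y x156t x201t
  have x247t : α 247 = true := tt fun y => c27 h x1f x203f x52f y
  have x60t : α 60 = true := tt fun y => c94 h x1f y x203f
  have x109f : α 109 = false := ff fun y => c2327 h y x247t x427t
  have x93f : α 93 = false := ff fun y => c1529 h y x60t x95t
  have x41t : α 41 = true := tt fun y => c1106 h y x109f x114f x183f
  have x119t : α 119 = true := tt fun y => l4253 h y x35f x156t x265f x576t x158t x81f x242f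
  have x120f : α 120 = false := ff fun y => c1115 h x272t y x41t
  have x463f : α 463 = false := ff fun y => c718 h x23t x119t x380t y
  have x36f : α 36 = false := ff fun y => l4251 h x265f x463f x120f y x183f x424t x576t x95t x85t x158t x307t x335f x1f x114f x52f
  have x286t : α 286 = true := tt fun y => c1038 h y x120f x36f
  have x46t : α 46 = true := tt fun y => c1019 h x120f x36f y
  have x182t : α 182 = true := tt fun y => c1029 h x120f y x36f x93f
  have x342f : α 342 = false := ff fun y => c1140 h x286t y x46t x119t
  have x389f : α 389 = false := ff fun y => c1291 h y x182t x53t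
  c3293 h x379f x342f x389f

theorem l4255 (h : Good α) (x463f : α 463 = false) (x35f : α 35 = false) (x265f : α 265 = false) (x576t : α 576 = true) (x380t : α 380 = true) (x183t : α 183 = true) (x258f : α 258 = false) (x158t : α 158 = true) (x65t : α 65 = true) (x81f : α 81 = false) (x23t : α 23 = true) (x242f : α 242 = false) : False :=
  have x453t : α 453 = true := tt fun y => c3145 h x258f x265f y x463f
  have x156t : α 156 = true := tt fun y => c2648 h y x265f x463f
  have x376f : α 376 = false := ff fun y => c3323 h x453t y x380t
  have x119t : α 119 = true := tt fun y => l4253 h y x35f x156t x265f x576t x158t x81f x242f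
  have x181t : α 181 = true := tt fun y => c2734 h y x265f x376f x463f
  have x172f : α 172 = false := ff fun y => c698 h x65t y x23t x119t
  have x67f : α 67 = false := ff fun y => c1635 h y x65t x181t x183t
  c1653 h x67f x172f x376f x463f

theorem l4256 (h : Good α) (x35f : α 35 = false) (x265f : α 265 = false) (x242f : α 242 = false) (x576t : α 576 = true) (x380t : α 380 = true) (x183t : α 183 = true) (x258f : α 258 = false) (x158t : α 158 = true) (x65t : α 65 = true) (x81f : α 81 = false) (x23t : α 23 = true) : False :=
  have x463t : α 463 = true := tt fun y => l4255 h y x35f x265f x576t x380t x183t x258f x158t x65t x81f x23t x242f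
  have x119f : α 119 = false := ff fun y => c718 h x23t y x380t x463t
  have x156t : α 156 = true := tt fun y => c2446 h x119f y x265f
  l4253 h x119f x35f x156t x265f x576t x158t x81f x242f

theorem l4257 (h : Good α) (x265f : α 265 = false) (x378f : α 378 = false) (x380t : α 380 = true) (x183t : α 183 = true) (x258f : α 258 = false) (x158t : α 158 = true) (x65t : α 65 = true) (x81f : α 81 = false) (x23t : α 23 = true) (x242f : α 242 = false) (x233f : α 233 = false) (x19t : α 19 = true) (x91t : α 91 = true) : False :=
  have x576t : α 576 = true := tt fun y => c3004 h x233f x378f y
  have x115t : α 115 = true := tt fun y => c2403 h y x265f x233f x378f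
  have x35f : α 35 = false := ff fun y => c470 h x19t y x91t x115t
  l4256 h x35f x265f x242f x576t x380t x183t x258f x158t x65t x81f x23t

theorem l4258 (h : Good α) (x23t : α 23 = true) (x264t : α 264 = true) (x91t : α 91 = true) (x272t : α 272 = true) (x52f : α 52 = false) : False :=
  have x58f : α 58 = false := ff fun y => l4173 h y
  have x249f : α 249 = false := ff fun y => l4102 h y
  have x1f : α 1 = false := ff fun y => l4246 h y x91t x272t x52f
  have x53t : α 53 = true := tt fun y => c20 h y x1f x52f
  have x61f : α 61 = false := ff fun y => l3778 h x53t y
  have x56f : α 56 = false := ff fun y => l3649 h x53t y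
  have x199t : α 199 = true := tt fun y => c59 h y x56f x1f
  have x197f : α 197 = false := ff fun y => l3725 h y x199t
  have x92t : α 92 = true := tt fun y => c1546 h x249f y x197f x61f
  have x20f : α 20 = false := ff fun y => c556 h x264t x92t y
  have x201t : α 201 = true := tt fun y => c79 h x1f x58f y
  have x353t : α 353 = true := tt fun y => c2889 h y x249f x197f
  have x54t : α 54 = true := tt fun y => c39 h y x1f x61f
  have x94f : α 94 = false := ff fun y => c1310 h y x54t x91t
  have x233f : α 233 = false := ff fun y => c1315 h x54t x91t y
  have x351t : α 351 = true := tt fun y => c2121 h x249f x94f y x233f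
  have x200f : α 200 = false := ff fun y => c2906 h x353t y x351t x201t
  have x239f : α 239 = false := ff fun y => l4229 h y x272t x52f
  have x57t : α 57 = true := tt fun y => c61 h y x1f x58f
  have x242f : α 242 = false := ff fun y => c1414 h x57t x92t x201t y
  have x236t : α 236 = true := tt fun y => c2990 h x239f y x233f x242f
  have x386t : α 386 = true := tt fun y => l3501 h y x236t x200f x56f
  have x204t : α 204 = true := tt fun y => c101 h x1f x61f y
  have x250f : α 250 = false := ff fun y => c1313 h x54t x204t x91t y
  have x97t : α 97 = true := tt fun y => c75 h x1f x61f x58f y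
  have x19t : α 19 = true := tt fun y => l3578 h y x97t x58f x56f
  have x184f : α 184 = false := ff fun y => l3655 h y x272t x53t
  have x195t : α 195 = true := tt fun y => c25 h x1f x52f y
  have x459f : α 459 = false := ff fun y => l3732 h x272t y
  have x80t : α 80 = true := tt fun y => c1829 h x459f x239f y
  have x346f : α 346 = false := ff fun y => l3740 h x272t y
  have x114f : α 114 = false := ff fun y => l3695 h y x272t
  have x81f : α 81 = false := ff fun y => c685 h x53t x23t y
  have x113f : α 113 = false := ff fun y => c460 h x19t x23t y
  have x379f : α 379 = false := ff fun y => c463 h x386t y x19t x23t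
  have x462t : α 462 = true := tt fun y => c1846 h x81f x242f y
  have x180t : α 180 = true := tt fun y => l3690 h x113f y
  have x65t : α 65 = true := tt fun y => c1637 h y x113f x250f
  have x430t : α 430 = true := tt fun y => c2369 h x113f x250f y
  have x158t : α 158 = true := tt fun y => c1837 h x459f x379f y x81f
  have x452f : α 452 = false := ff fun y => l4248 h y x180t x81f x264t x386t x184f
  have x28f : α 28 = false := ff fun y => l3985 h y x452f x158t x272t x113f x239f x114f x91t x54t x346f
  have x22t : α 22 = true := tt fun y => c620 h x94f y x28f
  have x62f : α 62 = false := ff fun y => c643 h x57t x22t y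
  have x95f : α 95 = false := ff fun y => l4254 h y x23t x264t x91t x272t x52f
  have x90t : α 90 = true := tt fun y => c1233 h y x52f x95f
  have x60t : α 60 = true := tt fun y => c24 h x1f y x52f x95f
  have x16t : α 16 = true := tt fun y => l4196 h y x95f x80t x52f
  have x258f : α 258 = false := ff fun y => c652 h x22t x90t y
  have x109f : α 109 = false := ff fun y => c315 h x22t x16t y
  have x183t : α 183 = true := tt fun y => c2143 h x109f x95f y
  have x340f : α 340 = false := ff fun y => c2007 h x91t x183t y
  have x299f : α 299 = false := ff fun y => c671 h x22t y x183t x430t
  have x380t : α 380 = true := tt fun y => c852 h x62f x28f y x340f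
  have x117t : α 117 = true := tt fun y => c570 h x20f y x299f
  have x223f : α 223 = false := ff fun y => c2059 h x92t x117t y
  have x378f : α 378 = false := ff fun y => c667 h x22t x117t y x462t
  have x506t : α 506 = true := tt fun y => c876 h x28f x223f x340f y
  have x333f : α 333 = false := ff fun y => c2871 h x195t y x380t x506t
  have x157t : α 157 = true := tt fun y => c1567 h x61f y x333f
  have x265t : α 265 = true := tt fun y => l4257 h y x378f x380t x183t x258f x158t x65t x81f x23t x242f x233f x19t x91t
  have x119f : α 119 = false := ff fun y => c717 h x23t y x183t x265t
  have x172f : α 172 = false := ff fun y => c1642 h x65t y x183t x265t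
  have x274t : α 274 = true := tt fun y => c1833 h x119f y x81f x242f
  have x252t : α 252 = true := tt fun y => c1834 h y x119f x81f
  have x156t : α 156 = true := tt fun y => c2444 h x172f x119f y
  have x190f : α 190 = false := ff fun y => c1537 h x60t y x156t x274t
  have x473f : α 473 = false := ff fun y => c2650 h x156t x274t y
  have x93f : α 93 = false := ff fun y => c1272 h x53t y x252t
  have x115f : α 115 = false := ff fun y => c2402 h y x156t x274t
  have x347t : α 347 = true := tt fun y => c2096 h x93f x190f y
  have x75t : α 75 = true := tt fun y => c1766 h y x115f x233f
  have x397f : α 397 = false := ff fun y => c2656 h x204t y x157t x347t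
  have x18f : α 18 = false := ff fun y => c428 h x54t y x75t
  c457 h x18f x397f x115f x473f

theorem l4259 (h : Good α) (x191f : α 191 = false) (x181f : α 181 = false) : False :=
  have x275t : α 275 = true := tt fun y => c2729 h y x191f x181f
  have x260t : α 260 = true := tt fun y => c2727 h x191f x181f y
  l3715 h x260t x275t

theorem l4260 (h : Good α) (x191t : α 191 = true) (x54t : α 54 = true) (x91t : α 91 = true) (x272t : α 272 = true) : False :=
  have x94f : α 94 = false := ff fun y => c1310 h y x54t x91t
  have x346f : α 346 = false := ff fun y => l3740 h x272t y
  have x275f : α 275 = false := ff fun y => l3659 h x191t y x54t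
  have x24f : α 24 = false := ff fun y => c737 h y x54t x191t
  have x485t : α 485 = true := tt fun y => c3229 h y x346f x275f
  have x120t : α 120 = true := tt fun y => l3571 h x24f y x275f x94f x91t
  c2458 h x485t x272t x120t

theorem l4261 (h : Good α) (x275f : α 275 = false) (x158t : α 158 = true) (x462t : α 462 = true) (x67f : α 67 = false) (x452f : α 452 = false) (x577f : α 577 = false) (x129t : α 129 = true) (x494f : α 494 = false) (x20f : α 20 = false) (x335f : α 335 = false) (x386t : α 386 = true) (x250f : α 250 = false) (x19t : α 19 = true) (x323f : α 323 = false) (x54t : α 54 = true) (x59t : α 59 = true) (x202f : α 202 = false) (x61f : α 61 = false) (x56f : α 56 = false) (x91t : α 91 = true) (x237t : α 237 = true) (x239f : α 239 = false) (x272t : α 272 = true) : False :=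
  have x191f : α 191 = false := ff fun y => l4260 h y x54t x91t x272t
  have x181t : α 181 = true := tt fun y => l4259 h x191f y
  have x94f : α 94 = false := ff fun y => c1310 h y x54t x91t
  have x325t : α 325 = true := tt fun y => l3677 h x61f y
  have x346f : α 346 = false := ff fun y => l3740 h x272t y
  have x114f : α 114 = false := ff fun y => l3695 h y x272t
  have x285t : α 285 = true := tt fun y => c3226 h x346f x275f y
  have x485t : α 485 = true := tt fun y => c3229 h y x346f x275f
  have x425t : α 425 = true := tt fun y => c2845 h y x275f x191f
  have x467f : α 467 = false := ff fun y => c2673 h y x285t x158t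
  have x120f : α 120 = false := ff fun y => c2458 h x485t x272t y
  have x381t : α 381 = true := tt fun y => c2844 h x275f x191f x467f y
  have x24t : α 24 = true := tt fun y => l3571 h y x120f x275f x94f x91t
  have x314f : α 314 = false := ff fun y => l3569 h x120f x275f x54t y
  have x454f : α 454 = false := ff fun y => l3658 h x381t y x54t
  have x63f : α 63 = false := ff fun y => c733 h y x24t x54t
  have x108f : α 108 = false := ff fun y => l3629 h x24t y x54t
  have x157t : α 157 = true := tt fun y => c2653 h y x202f x314f
  have x260t : α 260 = true := tt fun y => c3160 h x275f y x467f x454f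
  have x68t : α 68 = true := tt fun y => l4178 h y x63f
  have x455t : α 455 = true := tt fun y => c1623 h x577f y x239f x63f
  have x273f : α 273 = false := ff fun y => c2661 h x157t y x462t
  have x167f : α 167 = false := ff fun y => c1662 h x68t y x181t x260t
  have x307t : α 307 = true := tt fun y => c3109 h y x250f x273f
  have x113f : α 113 = false := ff fun y => l3558 h y x307t x335f x19t x386t x56f
  have x28f : α 28 = false := ff fun y => l3985 h y x452f x158t x272t x113f x239f x114f x91t x54t x346f
  have x89t : α 89 = true := tt fun y => c519 h x20f y x28f x108f
  have x554t : α 554 = true := tt fun y => c872 h x494f y x28f x108f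
  have x241f : α 241 = false := ff fun y => c1511 h y x89t x59t
  have x127f : α 127 = false := ff fun y => c2494 h x554t x325t y
  have x382t : α 382 = true := tt fun y => c2688 h y x241f x167f
  have x111t : α 111 = true := tt fun y => c1650 h y x67f x127f
  have x25f : α 25 = false := ff fun y => c789 h x455t x382t x111t y
  have x243f : α 243 = false := ff fun y => c2349 h x425t y x111t
  have x295t : α 295 = true := tt fun y => c778 h x323f x61f y x25f
  have x390t : α 390 = true := tt fun y => c3088 h x243f x275f y
  c2502 h x295t x129t x390t x237t

theorem l4262 (h : Good α) (x24t : α 24 = true) (x28f : α 28 = false) (x275t : α 275 = true) (x158t : α 158 = true) (x577f : α 577 = false) (x389f : α 389 = false) (x340f : α 340 = false) (x23f : α 23 = false) (x494f : α 494 = false) (x20f : α 20 = false) (x191f : α 191 = false) (x242f : α 242 = false) (x54t : α 54 = true) (x97t : α 97 = true) (x325t : α 325 = true) (x59t : α 59 = true) (x239f : α 239 = false) (x272t : α 272 = true) : False :=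
  have x58f : α 58 = false := ff fun y => l4173 h y
  have x260f : α 260 = false := ff fun y => l3715 h y x275t
  have x278t : α 278 = true := tt fun y => c3161 h y x260f x340f
  have x483t : α 483 = true := tt fun y => c3163 h x260f x340f y
  have x120f : α 120 = false := ff fun y => l3699 h y x275t
  have x65t : α 65 = true := tt fun y => c693 h y x23f x58f
  have x183t : α 183 = true := tt fun y => c695 h x23f x58f y
  have x181t : α 181 = true := tt fun y => l4259 h x191f y
  have x67f : α 67 = false := ff fun y => c1635 h y x65t x181t x183t
  have x459f : α 459 = false := ff fun y => l3732 h x272t y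
  have x63f : α 63 = false := ff fun y => c733 h y x24t x54t
  have x108f : α 108 = false := ff fun y => l3629 h x24t y x54t
  have x107t : α 107 = true := tt fun y => c1606 h x239f y x63f
  have x68t : α 68 = true := tt fun y => l4178 h y x63f
  have x455t : α 455 = true := tt fun y => c1623 h x577f y x239f x63f
  have x282t : α 282 = true := tt fun y => c870 h x28f x108f y
  have x89t : α 89 = true := tt fun y => c519 h x20f y x28f x108f
  have x554t : α 554 = true := tt fun y => c872 h x494f y x28f x108f
  have x175f : α 175 = false := ff fun y => c1665 h y x68t x275t x181t
  have x87f : α 87 = false := ff fun y => c1505 h x89t x59t y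
  have x127f : α 127 = false := ff fun y => c2494 h x554t x325t y
  have x286t : α 286 = true := tt fun y => c2707 h x459f y x175f
  have x235t : α 235 = true := tt fun y => c2705 h x175f y x389f
  have x189t : α 189 = true := tt fun y => c1920 h x87f y x260f x340f
  have x25t : α 25 = true := tt fun y => c781 h y x87f x260f
  have x488t : α 488 = true := tt fun y => c1923 h x87f x260f y
  have x111t : α 111 = true := tt fun y => c1650 h y x67f x127f
  have x369f : α 369 = false := ff fun y => c3212 h y x286t x272t
  have x387f : α 387 = false := ff fun y => c1527 h x59t x189t y
  have x113f : α 113 = false := ff fun y => c2176 h y x97t x189t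
  have x31f : α 31 = false := ff fun y => c767 h y x25t x97t
  have x17f : α 17 = false := ff fun y => c371 h x111t y x25t
  have x382f : α 382 = false := ff fun y => c789 h x455t y x111t x25t
  have x550f : α 550 = false := ff fun y => c787 h x25t x97t x488t y
  have x41t : α 41 = true := tt fun y => c1117 h x369f x175f y
  have x576t : α 576 = true := tt fun y => c3084 h x242f x387f y
  have x50t : α 50 = true := tt fun y => c362 h x17f x23f y x58f
  have x110t : α 110 = true := tt fun y => c364 h y x17f x23f
  have x194t : α 194 = true := tt fun y => c1616 h x63f y x382f
  have x39t : α 39 = true := tt fun y => l3575 h y x550f x31f x278t x113f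
  have x46f : α 46 = false := ff fun y => c1144 h y x483t x158t x576t
  have x86f : α 86 = false := ff fun y => c1187 h x235t x194t y x50t
  have x254f : α 254 = false := ff fun y => c1081 h y x110t x39t
  have x36t : α 36 = true := tt fun y => c1019 h x120f y x46f
  have x338t : α 338 = true := tt fun y => c1903 h x254f x86f y x191f
  have x267f : α 267 = false := ff fun y => c1016 h x41t x282t x36t y
  have x40f : α 40 = false := ff fun y => c1098 h x107t y x338t x278t
  c1099 h x40f x108f x267f

theorem l4263 (h : Good α) (x81f : α 81 = false) (x389f : α 389 = false) (x23f : α 23 = false) (x264t : α 264 = true) (x202f : α 202 = false) (x61f : α 61 = false) (x56f : α 56 = false) (x1f : α 1 = false) (x91t : α 91 = true) (x237t : α 237 = true) (x239f : α 239 = false) (x272t : α 272 = true) : False :=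
  have x249f : α 249 = false := ff fun y => l4102 h y
  have x58f : α 58 = false := ff fun y => l4173 h y
  have x65t : α 65 = true := tt fun y => c693 h y x23f x58f
  have x183t : α 183 = true := tt fun y => c695 h x23f x58f y
  have x54t : α 54 = true := tt fun y => c39 h y x1f x61f
  have x191f : α 191 = false := ff fun y => l4260 h y x54t x91t x272t
  have x181t : α 181 = true := tt fun y => l4259 h x191f y
  have x67f : α 67 = false := ff fun y => c1635 h y x65t x181t x183t
  have x201t : α 201 = true := tt fun y => c79 h x1f x58f y
  have x199t : α 199 = true := tt fun y => c59 h y x56f x1f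
  have x197f : α 197 = false := ff fun y => l3725 h y x199t
  have x353t : α 353 = true := tt fun y => c2889 h y x249f x197f
  have x94f : α 94 = false := ff fun y => c1310 h y x54t x91t
  have x233f : α 233 = false := ff fun y => c1315 h x54t x91t y
  have x351t : α 351 = true := tt fun y => c2121 h x249f x94f y x233f
  have x200f : α 200 = false := ff fun y => c2906 h x353t y x351t x201t
  have x57t : α 57 = true := tt fun y => c61 h y x1f x58f
  have x92t : α 92 = true := tt fun y => c1546 h x249f y x197f x61f
  have x242f : α 242 = false := ff fun y => c1414 h x57t x92t x201t y
  have x236t : α 236 = true := tt fun y => c2990 h x239f y x233f x242f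
  have x386t : α 386 = true := tt fun y => l3501 h y x236t x200f x56f
  have x114f : α 114 = false := ff fun y => l3695 h y x272t
  have x459f : α 459 = false := ff fun y => l3732 h x272t y
  have x379t : α 379 = true := tt fun y => c715 h x459f y x114f x23f
  have x452f : α 452 = false := ff fun y => c3328 h x386t x379t y
  have x577f : α 577 = false := ff fun y => c3025 h y x379t x236t
  have x340f : α 340 = false := ff fun y => c2007 h x91t x183t y
  have x97t : α 97 = true := tt fun y => c75 h x1f x61f x58f y
  have x19t : α 19 = true := tt fun y => l3578 h y x97t x58f x56f
  have x33f : α 33 = false := ff fun y => c465 h y x19t x91t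
  have x129t : α 129 = true := tt fun y => c683 h y x33f x23f
  have x494f : α 494 = false := ff fun y => c2087 h y x264t x92t
  have x20f : α 20 = false := ff fun y => c556 h x264t x92t y
  have x325t : α 325 = true := tt fun y => l3677 h x61f y
  have x238f : α 238 = false := ff fun y => c1416 h x57t x92t y
  have x352t : α 352 = true := tt fun y => c2125 h x239f y x94f x238f
  have x544f : α 544 = false := ff fun y => c3022 h x236t x352t y
  have x409t : α 409 = true := tt fun y => c119 h x200f x544f x1f y
  have x335f : α 335 = false := ff fun y => c3261 h x325t y x409t
  have x204t : α 204 = true := tt fun y => c101 h x1f x61f y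
  have x250f : α 250 = false := ff fun y => c1313 h x54t x204t x91t y
  have x323f : α 323 = false := ff fun y => l3728 h x199t y
  have x59t : α 59 = true := tt fun y => c56 h x56f x1f y
  have x346f : α 346 = false := ff fun y => l3740 h x272t y
  have x462t : α 462 = true := tt fun y => c1846 h x81f x242f y
  have x158t : α 158 = true := tt fun y => c700 h x114f x23f y x81f
  have x275t : α 275 = true := tt fun y => l4261 h y x158t x462t x67f x452f x577f x129t x494f x20f x335f x386t x250f x19t x323f x54t x59t x202f x61f x56f x91t x237t x239f x272t
  have x120f : α 120 = false := ff fun y => l3699 h y x275t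
  have x28f : α 28 = false := ff fun y => l3984 h x275t y x452f x272t x264t x239f x54t x346f
  have x22t : α 22 = true := tt fun y => c620 h x94f y x28f
  have x24f : α 24 = false := ff fun y => l4262 h y x28f x275t x158t x577f x389f x340f x23f x494f x20f x191f x242f x54t x97t x325t x59t x239f x272t
  have x63t : α 63 = true := tt fun y => l3531 h x191f x24f y
  have x16t : α 16 = true := tt fun y => c324 h x120f x24f y
  have x175f : α 175 = false := ff fun y => l3656 h x63t y x54t
  have x51f : α 51 = false := ff fun y => c313 h x57t y x22t x16t
  have x235t : α 235 = true := tt fun y => c2705 h x175f y x389f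
  have x194t : α 194 = true := tt fun y => c14 h y x51f x1f
  have x455f : α 455 = false := ff fun y => c1622 h y x235t x63t
  have x382f : α 382 = false := ff fun y => c1617 h x63t x194t y
  c3333 h x455f x389f x382f

theorem l4264 (h : Good α) (x81t : α 81 = true) (x233f : α 233 = false) (x53t : α 53 = true) (x201t : α 201 = true) : False :=
  have x158f : α 158 = false := ff fun y => l3651 h x81t y x53t
  have x378f : α 378 = false := ff fun y => c1844 h x81t x201t y
  c2668 h x158f x233f x378f

theorem l4265 (h : Good α) (x23f : α 23 = false) (x202f : α 202 = false) (x53t : α 53 = true) (x1f : α 1 = false) (x91t : α 91 = true) (x237t : α 237 = true) (x239f : α 239 = false) (x272t : α 272 = true) : False :=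
  have x249f : α 249 = false := ff fun y => l4102 h y
  have x58f : α 58 = false := ff fun y => l4173 h y
  have x201t : α 201 = true := tt fun y => c79 h x1f x58f y
  have x61f : α 61 = false := ff fun y => l3778 h x53t y
  have x54t : α 54 = true := tt fun y => c39 h y x1f x61f
  have x233f : α 233 = false := ff fun y => c1315 h x54t x91t y
  have x81f : α 81 = false := ff fun y => l4264 h y x233f x53t x201t
  have x56f : α 56 = false := ff fun y => l3649 h x53t y
  have x199t : α 199 = true := tt fun y => c59 h y x56f x1f
  have x197f : α 197 = false := ff fun y => l3725 h y x199t
  have x353t : α 353 = true := tt fun y => c2889 h y x249f x197f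
  have x94f : α 94 = false := ff fun y => c1310 h y x54t x91t
  have x351t : α 351 = true := tt fun y => c2121 h x249f x94f y x233f
  have x200f : α 200 = false := ff fun y => c2906 h x353t y x351t x201t
  have x57t : α 57 = true := tt fun y => c61 h y x1f x58f
  have x92t : α 92 = true := tt fun y => c1546 h x249f y x197f x61f
  have x242f : α 242 = false := ff fun y => c1414 h x57t x92t x201t y
  have x236t : α 236 = true := tt fun y => c2990 h x239f y x233f x242f
  have x386t : α 386 = true := tt fun y => l3501 h y x236t x200f x56f
  have x184f : α 184 = false := ff fun y => l3655 h y x272t x53t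
  have x114f : α 114 = false := ff fun y => l3695 h y x272t
  have x459f : α 459 = false := ff fun y => l3732 h x272t y
  have x379t : α 379 = true := tt fun y => c715 h x459f y x114f x23f
  have x389f : α 389 = false := ff fun y => l3534 h y x379t x184f x53t
  have x452f : α 452 = false := ff fun y => c3328 h x386t x379t y
  have x264f : α 264 = false := ff fun y => l4263 h x81f x389f x23f y x202f x61f x56f x1f x91t x237t x239f x272t
  l3711 h x264f x452f

theorem l4266 (h : Good α) (x91t : α 91 = true) (x272t : α 272 = true) (x52f : α 52 = false) : False :=
  have x58f : α 58 = false := ff fun y => l4173 h y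
  have x239f : α 239 = false := ff fun y => l4229 h y x272t x52f
  have x237t : α 237 = true := tt fun y => l4230 h y x239f x52f
  have x1f : α 1 = false := ff fun y => l4246 h y x91t x272t x52f
  have x53t : α 53 = true := tt fun y => c20 h y x1f x52f
  have x195t : α 195 = true := tt fun y => c25 h x1f x52f y
  have x56f : α 56 = false := ff fun y => l3649 h x53t y
  have x61f : α 61 = false := ff fun y => l3778 h x53t y
  have x202f : α 202 = false := ff fun y => l3717 h x195t y
  have x97t : α 97 = true := tt fun y => c75 h x1f x61f x58f y
  have x19t : α 19 = true := tt fun y => l3578 h y x97t x58f x56f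
  have x23t : α 23 = true := tt fun y => l4265 h y x202f x53t x1f x91t x237t x239f x272t
  have x113f : α 113 = false := ff fun y => c460 h x19t x23t y
  have x264f : α 264 = false := ff fun y => l4258 h x23t y x91t x272t x52f
  l3691 h x113f x264f

theorem l4267 (h : Good α) (x1f : α 1 = false) (x272t : α 272 = true) (x52f : α 52 = false) : False :=
  have x58f : α 58 = false := ff fun y => l4173 h y
  have x249f : α 249 = false := ff fun y => l4102 h y
  have x114f : α 114 = false := ff fun y => l3695 h y x272t
  have x459f : α 459 = false := ff fun y => l3732 h x272t y
  have x239f : α 239 = false := ff fun y => l4229 h y x272t x52f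
  have x80t : α 80 = true := tt fun y => c1829 h x459f x239f y
  have x91f : α 91 = false := ff fun y => l4266 h y x272t x52f
  have x200t : α 200 = true := tt fun y => c1458 h x239f y x91f x58f
  have x379f : α 379 = false := ff fun y => c1826 h y x200t x80t
  have x23t : α 23 = true := tt fun y => c715 h x459f x379f x114f y
  have x97t : α 97 = true := tt fun y => c1456 h x91f x58f y
  have x33f : α 33 = false := ff fun y => c682 h y x23t x97t
  have x19t : α 19 = true := tt fun y => c464 h x33f y x91f
  have x113f : α 113 = false := ff fun y => c460 h x19t x23t y
  have x264t : α 264 = true := tt fun y => l3691 h x113f y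
  have x180t : α 180 = true := tt fun y => l3690 h x113f y
  have x386t : α 386 = true := tt fun y => c3329 h x459f y x379f
  have x71f : α 71 = false := ff fun y => c1722 h x386t x200t y
  have x57t : α 57 = true := tt fun y => c61 h y x1f x58f
  have x54t : α 54 = true := tt fun y => c37 h y x1f x91f x58f
  have x53t : α 53 = true := tt fun y => c20 h y x1f x52f
  have x405f : α 405 = false := ff fun y => c1438 h y x200t x57t
  have x197f : α 197 = false := ff fun y => l3796 h y x54t
  have x61f : α 61 = false := ff fun y => l3870 h y x54t
  have x184f : α 184 = false := ff fun y => l3655 h y x272t x53t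
  have x81f : α 81 = false := ff fun y => c685 h x53t x23t y
  have x442t : α 442 = true := tt fun y => c103 h x405f y x1f x61f
  have x92t : α 92 = true := tt fun y => c1546 h x249f y x197f x61f
  have x452f : α 452 = false := ff fun y => l4248 h y x180t x81f x264t x386t x184f
  have x236f : α 236 = false := ff fun y => c2074 h x442t y x92t
  c1724 h x452f x236f x71f

theorem l4268 (h : Good α) (x272t : α 272 = true) (x52f : α 52 = false) : False :=
  have x58f : α 58 = false := ff fun y => l4173 h y
  have x459f : α 459 = false := ff fun y => l3732 h x272t y
  have x114f : α 114 = false := ff fun y => l3695 h y x272t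
  have x239f : α 239 = false := ff fun y => l4229 h y x272t x52f
  have x80t : α 80 = true := tt fun y => c1829 h x459f x239f y
  have x91f : α 91 = false := ff fun y => l4266 h y x272t x52f
  have x200t : α 200 = true := tt fun y => c1458 h x239f y x91f x58f
  have x97t : α 97 = true := tt fun y => c1456 h x91f x58f y
  have x222t : α 222 = true := tt fun y => c1994 h y x114f x91f
  have x379f : α 379 = false := ff fun y => c1826 h y x200t x80t
  have x23t : α 23 = true := tt fun y => c715 h x459f x379f x114f y
  have x33f : α 33 = false := ff fun y => c682 h y x23t x97t
  have x19t : α 19 = true := tt fun y => c464 h x33f y x91f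
  have x113f : α 113 = false := ff fun y => c460 h x19t x23t y
  have x1t : α 1 = true := tt fun y => l4267 h y x272t x52f
  have x57f : α 57 = false := ff fun y => c68 h x200t y x1t
  have x94t : α 94 = true := tt fun y => c1397 h y x57f x91f x58f
  have x53f : α 53 = false := ff fun y => l3462 h x272t x94t x57f y
  have x56t : α 56 = true := tt fun y => l3648 h x53f y
  have x327f : α 327 = false := ff fun y => l3667 h x56t y
  have x59f : α 59 = false := ff fun y => c57 h x56t x1t y
  have x298t : α 298 = true := tt fun y => l3692 h x113f x327f y
  have x61t : α 61 = true := tt fun y => l3669 h x59f y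
  have x443f : α 443 = false := ff fun y => c2972 h x222t x298t y
  have x54f : α 54 = false := ff fun y => l3870 h x61t y
  have x402t : α 402 = true := tt fun y => c1316 h y x54f x443f x91f
  have x547t : α 547 = true := tt fun y => c2028 h y x239f x443f x91f
  c118 h x547t x200t x402t x1t

theorem l4269 (h : Good α) (x23t : α 23 = true) (x56t : α 56 = true) (x91f : α 91 = false) (x272f : α 272 = false) : False :=
  have x58f : α 58 = false := ff fun y => l4173 h y
  have x327f : α 327 = false := ff fun y => l3667 h x56t y
  have x97t : α 97 = true := tt fun y => c1456 h x91f x58f y
  have x33f : α 33 = false := ff fun y => c682 h y x23t x97t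
  have x19t : α 19 = true := tt fun y => c464 h x33f y x91f
  have x113f : α 113 = false := ff fun y => c460 h x19t x23t y
  have x188f : α 188 = false := ff fun y => c477 h y x56t x19t
  have x264t : α 264 = true := tt fun y => l3691 h x113f y
  have x184t : α 184 = true := tt fun y => c2767 h x272f x188f y
  l3768 h x184t x264t x23t x327f x272f

theorem l4270 (h : Good α) (x61t : α 61 = true) (x1t : α 1 = true) (x91f : α 91 = false) (x272f : α 272 = false) : False :=
  have x58f : α 58 = false := ff fun y => l4173 h y
  have x53f : α 53 = false := ff fun y => l3778 h y x61t
  have x54f : α 54 = false := ff fun y => l3870 h x61t y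
  have x204f : α 204 = false := ff fun y => c102 h x1t x61t y
  have x56t : α 56 = true := tt fun y => l3648 h x53f y
  have x250t : α 250 = true := tt fun y => c1312 h x54f x204f x91f y
  have x23f : α 23 = false := ff fun y => l4269 h y x56t x91f x272f
  have x65t : α 65 = true := tt fun y => c693 h y x23f x58f
  have x113t : α 113 = true := tt fun y => l3627 h x23f y x53f
  c1638 h x65t x113t x250t

theorem l4271 (h : Good α) (x57f : α 57 = false) (x450t : α 450 = true) (x409f : α 409 = false) (x452f : α 452 = false) (x188f : α 188 = false) (x54f : α 54 = false) (x250f : α 250 = false) (x204t : α 204 = true) (x59t : α 59 = true) (x97t : α 97 = true) : False :=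
  have x58f : α 58 = false := ff fun y => l4173 h y
  have x20t : α 20 = true := tt fun y => c533 h x188f x57f y
  have x238t : α 238 = true := tt fun y => c1403 h x57f y x58f x250f
  have x71f : α 71 = false := ff fun y => c537 h y x20t x59t
  have x352f : α 352 = false := ff fun y => c2939 h y x238t x204t
  have x236t : α 236 = true := tt fun y => c1724 h x452f y x71f
  have x200t : α 200 = true := tt fun y => c1488 h y x352f x58f x250f
  have x544f : α 544 = false := ff fun y => c2189 h x236t y x97t x450t
  have x239f : α 239 = false := ff fun y => c2910 h y x200t x236t
  c1352 h x239f x544f x54f x409f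

theorem l4272 (h : Good α) (x57t : α 57 = true) (x233t : α 233 = true) (x94t : α 94 = true) (x61f : α 61 = false) (x1t : α 1 = true) : False :=
  have x58f : α 58 = false := ff fun y => l4173 h y
  have x249f : α 249 = false := ff fun y => l4102 h y
  have x59t : α 59 = true := tt fun y => l3669 h y x61f
  have x56f : α 56 = false := ff fun y => c57 h y x1t x59t
  have x53t : α 53 = true := tt fun y => l3648 h y x56f
  have x196f : α 196 = false := ff fun y => c32 h y x53t x1t
  have x204t : α 204 = true := tt fun y => l3702 h x196f y
  have x200f : α 200 = false := ff fun y => c68 h y x57t x1t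
  have x201f : α 201 = false := ff fun y => c1421 h x94t x57t x233t y
  have x92f : α 92 = false := ff fun y => c1410 h x94t x57t y
  have x197f : α 197 = false := ff fun y => l3474 h y x200f x204t x201f x58f
  c1546 h x249f x92f x197f x61f

theorem l4273 (h : Good α) (x188f : α 188 = false) (x57f : α 57 = false) (x54f : α 54 = false) (x113t : α 113 = true) (x204t : α 204 = true) (x56f : α 56 = false) (x325t : α 325 = true) (x59t : α 59 = true) (x91f : α 91 = false) : False :=
  have x58f : α 58 = false := ff fun y => l4173 h y
  have x97t : α 97 = true := tt fun y => c1456 h x91f x58f y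
  have x250f : α 250 = false := ff fun y => l3533 h x113t x97t y x58f x56f
  have x238t : α 238 = true := tt fun y => c1403 h x57f y x58f x250f
  have x19t : α 19 = true := tt fun y => l3578 h y x97t x58f x56f
  have x386t : α 386 = true := tt fun y => c1394 h y x188f x56f
  have x264t : α 264 = true := tt fun y => l3664 h x188f y x56f
  have x452f : α 452 = false := ff fun y => c503 h x386t y x19t x113t
  have x335t : α 335 = true := tt fun y => l3419 h x264t y x238t x57f x56f
  have x409f : α 409 = false := ff fun y => c3261 h x325t x335t y
  have x450t : α 450 = true := tt fun y => c1317 h x54f x409f x91f y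
  l4271 h x57f x450t x409f x452f x188f x54f x250f x204t x59t x97t

theorem l4274 (h : Good α) (x236t : α 236 = true) (x450t : α 450 = true) (x409f : α 409 = false) (x200t : α 200 = true) (x54f : α 54 = false) (x97t : α 97 = true) : False :=
  have x239f : α 239 = false := ff fun y => c2910 h y x200t x236t
  have x544f : α 544 = false := ff fun y => c2189 h x236t y x97t x450t
  c1352 h x239f x544f x54f x409f

end Q110.RC
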